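import Pool.Agent.MP_38296a_co.Mg.H21_ConnX

-- part MP_38296a_co.H21.ConnY
section

section FileConnB1

set_option autoImplicit false

namespace Pool.Agent.MP_38296a_co.H21

open Finset Filter Classical

variable {ι : Type} {A : Arr ι}

theorem conn_B1_icc (α : ℝ) {L : ℝ} (hL : 0 ≤ L) : (#(Icc ⌈α⌉ ⌊α + L⌋) : ℝ) ≤ L + 1 := by
  rw [Int.card_Icc]
  rcases le_total (⌊α + L⌋ + 1 - ⌈α⌉) 0 with h | h
  · rw [Int.toNat_of_nonpos h, Nat.cast_zero]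
    linarith
  · have e : (((⌊α + L⌋ + 1 - ⌈α⌉).toNat : ℕ) : ℝ) = ((⌊α + L⌋ + 1 - ⌈α⌉ : ℤ) : ℝ) := by
      rw [← Int.cast_natCast, Int.toNat_of_nonneg h]
    rw [e]
    push_cast
    linarith [Int.floor_le (α + L), Int.le_ceil α]

/-- Cells near a line in a strip of columns: the set lies in
`(Icc ⌈α⌉ ⌊α + L⌋).biUnion` of the columns, each column has at most `2 w + 1` cells
(`Int.card_Icc`, `Int.le_ceil`, `Int.floor_le`). -/
theorem conn_strip (a : ι) (U : Finset Cell) (α : ℝ) {L w : ℝ} (hL : 0 ≤ L) (hw : 0 ≤ w) :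
    cnt U (fun p => (α ≤ p.1 ∧ (p.1 : ℝ) ≤ α + L) ∧ |A.ht p a| ≤ w) ≤ (L + 1) * (2 * w + 1) := by
  unfold cnt
  have hs : {p ∈ U | (α ≤ p.1 ∧ (p.1 : ℝ) ≤ α + L) ∧ |A.ht p a| ≤ w} ⊆
      (Icc ⌈α⌉ ⌊α + L⌋).biUnion fun u : ℤ =>
        (Icc ⌈A.s a + A.x a * u - w⌉ ⌊A.s a + A.x a * u - w + 2 * w⌋).image
          fun v : ℤ => ((u, v) : Cell) := by
    intro p hp
    obtain ⟨-, ⟨h1, h2⟩, h3⟩ := mem_filter.1 hp
    rw [Arr.ht, abs_le] at h3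
    refine mem_biUnion.2 ⟨p.1, mem_Icc.2 ⟨Int.ceil_le.2 h1, Int.le_floor.2 h2⟩,
      mem_image.2 ⟨p.2, mem_Icc.2 ⟨Int.ceil_le.2 ?_, Int.le_floor.2 ?_⟩, rfl⟩⟩
    · linarith [h3.2]
    · linarith [h3.1]
  have h1 := (card_le_card hs).trans card_biUnion_le
  have h2 : ((#{p ∈ U | (α ≤ p.1 ∧ (p.1 : ℝ) ≤ α + L) ∧ |A.ht p a| ≤ w} : ℕ) : ℝ) ≤
      ∑ u ∈ Icc ⌈α⌉ ⌊α + L⌋, (2 * w + 1) := by
    refine (Nat.cast_le.2 h1).trans ?_
    rw [Nat.cast_sum]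
    refine sum_le_sum fun u _ => (Nat.cast_le.2 card_image_le).trans ?_
    exact conn_B1_icc _ (by linarith)
  rw [sum_const, nsmul_eq_mul] at h2
  have h3 := mul_le_mul_of_nonneg_right (conn_B1_icc α hL) (by linarith : 0 ≤ 2 * w + 1)
  refine le_trans (le_of_eq ?_) (h2.trans h3)
  congr

/-- every column has a cell within `1 / 2` of the line (`round`) -/
theorem conn_near (a : ι) (u : ℤ) : ∃ v : ℤ, |A.ht (u, v) a| ≤ 1 / 2 := by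
  exact ⟨round (A.s a + A.x a * u), abs_sub_round _⟩

theorem conn_B1_div {N : ℤ} (hN : 0 < N) (x : ℤ) : x / N * N ≤ x ∧ x < (x / N + 1) * N :=
  ⟨Int.ediv_mul_le x hN.ne', Int.lt_ediv_add_one_mul_self x hN⟩

theorem conn_B1_ico {a b : ℤ} (h : a ≤ b) : (#(Ico a b) : ℝ) = ((b - a : ℤ) : ℝ) := by
  rw [Int.card_Ico, ← Int.cast_natCast, Int.toNat_of_nonneg (by omega)]

/-- Triples of a window on one line. With `m = p.1 / 2 ^ l` the triples of the window lie in the column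
blocks `m - 1, m, m + 1`; the line carries `2 ^ l * dg l a u` triples in the block of `u`, and `dg l a u`
depends only on `u / 2 ^ l`. So the left side is at most the sum of `dg l a u` over the `3 * 2 ^ l`
columns `u ∈ Ico ((m - 1) * 2 ^ l) ((m + 2) * 2 ^ l)`; `dg ≤ d a + |dg - d a|`; each such column has a
cell `(u, v u) ∈ Wn p l` within `1 / 2` of the line (`conn_near`, `ht_shift`, `x_bd`, `conn_mem_Wn`). -/
theorem conn_line_TW (h : A.Ok) (d : ι → ℝ) {p : Cell} {l : ℕ} {a : ι} (ha : a ∈ lines A.T)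
    (h1 : |A.ht p a| ≤ 9 * 2 ^ l) : cnt (A.TW p l) (fun t => ∃ i, t i = a) ≤
      3 * 2 ^ l * d a + ∑ q ∈ Wn p l with |A.ht q a| ≤ 1, |A.dg l a q.1 - d a| := by
  choose v hv using fun u : ℤ => conn_near (A := A) a u
  have hN : (0 : ℤ) < 2 ^ l := by positivity
  have hNR : (0 : ℝ) < 2 ^ l := by positivity
  have hN1 : (1 : ℝ) ≤ 2 ^ l := one_le_pow₀ (by norm_num)
  obtain ⟨p1, p2⟩ := conn_B1_div hN p.1
  set m : ℤ := p.1 / 2 ^ l with hm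
  set cols : Finset ℤ := Ico ((m - 1) * 2 ^ l) ((m + 2) * 2 ^ l) with hcols
  have hcard : (cols.card : ℝ) = 3 * 2 ^ l := by
    rw [hcols, conn_B1_ico (by nlinarith)]
    push_cast
    ring
  have s1 : cnt (A.TW p l) (fun t => ∃ i, t i = a) * 2 ^ l ≤
      ∑ t ∈ A.TW p l, ∑ u ∈ cols, ind ((∃ i, t i = a) ∧ (A.loc t).1 / 2 ^ l = u / 2 ^ l) := by
    rw [cnt_eq_sum, sum_mul]
    refine sum_le_sum fun t ht => ?_
    by_cases hta : ∃ i, t i = a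
    · obtain ⟨-, t1, -⟩ := mem_filter.1 ht
      rw [abs_le] at t1
      obtain ⟨q1, q2⟩ := conn_B1_div hN (A.loc t).1
      set k : ℤ := (A.loc t).1 / 2 ^ l with hk
      have k1 : m - 1 ≤ k := by
        have : (m - 1) * 2 ^ l < (k + 1) * 2 ^ l := by linarith [t1.1]
        have := lt_of_mul_lt_mul_right this hN.le
        omega
      have k2 : k ≤ m + 1 := by
        have : k * 2 ^ l < (m + 2) * 2 ^ l := by linarith [t1.2]
        have := lt_of_mul_lt_mul_right this hN.le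
        omega
      have hsub : Ico (k * 2 ^ l) ((k + 1) * 2 ^ l) ⊆ cols := Ico_subset_Ico
        (mul_le_mul_of_nonneg_right k1 hN.le) (mul_le_mul_of_nonneg_right (by omega) hN.le)
      refine le_trans ?_ (sum_le_sum_of_subset_of_nonneg hsub fun _ _ _ => conn_ind_nonneg _)
      have e : ∀ u ∈ Ico (k * 2 ^ l) ((k + 1) * 2 ^ l),
          ind ((∃ i, t i = a) ∧ k = u / 2 ^ l) = 1 := by
        intro u hu
        obtain ⟨u1, u2⟩ := mem_Ico.1 hu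
        refine if_pos ⟨hta, le_antisymm ((Int.le_ediv_iff_mul_le hN).2 u1) ?_⟩
        exact Int.lt_add_one_iff.1 ((Int.ediv_lt_iff_lt_mul hN).2 u2)
      rw [sum_congr rfl e, sum_const, nsmul_eq_mul, conn_B1_ico (by nlinarith), ind, if_pos hta]
      push_cast
      exact le_of_eq (by ring)
    · rw [ind, if_neg hta, zero_mul]
      exact sum_nonneg fun _ _ => conn_ind_nonneg _
  have s2 : ∑ t ∈ A.TW p l, ∑ u ∈ cols, ind ((∃ i, t i = a) ∧ (A.loc t).1 / 2 ^ l = u / 2 ^ l) ≤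
      (∑ u ∈ cols, A.dg l a u) * 2 ^ l := by
    rw [sum_comm, sum_mul]
    refine sum_le_sum fun u _ => ?_
    rw [Arr.dg, div_mul_cancel₀ _ hNR.ne', ← cnt_eq_sum]
    exact cnt_mono fun t ht hP => ⟨TW_sub p l ht, hP⟩
  have s3 := le_of_mul_le_mul_right (s1.trans s2) hNR
  have s4 : ∑ u ∈ cols, A.dg l a u ≤ 3 * 2 ^ l * d a + ∑ u ∈ cols, |A.dg l a u - d a| := by
    rw [← hcard, ← nsmul_eq_mul, ← sum_const, ← sum_add_distrib]
    exact sum_le_sum fun u _ => by linarith [le_abs_self (A.dg l a u - d a)]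
  have s5 : ∑ u ∈ cols, |A.dg l a u - d a| =
      ∑ q ∈ cols.image fun u => ((u, v u) : Cell), |A.dg l a q.1 - d a| := by
    rw [sum_image fun u _ u' _ e => congrArg Prod.fst e]
  refine s3.trans (s4.trans ?_)
  rw [s5]
  gcongr
  intro q hq
  obtain ⟨u, hu, rfl⟩ := mem_image.1 hq
  obtain ⟨u1, u2⟩ := mem_Ico.1 hu
  have c1 : |u - p.1| ≤ 2 * 2 ^ l := abs_le.2 ⟨by linarith, by linarith⟩
  refine mem_filter.2 ⟨conn_mem_Wn.2 ⟨c1, ?_⟩, (hv u).trans (by norm_num)⟩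
  have c2 : |(u : ℝ) - p.1| ≤ 2 * 2 ^ l := by exact_mod_cast c1
  have c3 : |A.x a * ((u : ℝ) - p.1)| ≤ 11 / 10 * (2 * 2 ^ l) := by
    rw [abs_mul]
    exact mul_le_mul (h.x_bd ha) c2 (abs_nonneg _) (by norm_num)
  have c4 := ht_shift (A := A) p (u, v u) a
  have c5 := hv u
  have c6 : |(v u : ℝ) - p.2| ≤ 12 * 2 ^ l := by
    rw [abs_le] at c3 c5 h1 ⊢
    simp only at c4
    constructor <;> linarith [c3.1, c3.2, c5.1, c5.2, h1.1, h1.2]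
  exact_mod_cast c6

/-- Light lines: sum `conn_line_TW` over the lines `a` with `|ht p a| ≤ 9 * 2 ^ l` (`ht_TW`) and
`d a < 2 θ1`, swap the sums. -/
theorem conn_light (h : A.Ok) (d : ι → ℝ) (p : Cell) (l : ℕ) {θ1 : ℝ} (hθ : 0 ≤ θ1) :
    cnt (A.TW p l) (fun t => ∃ i, d (t i) < 2 * θ1) ≤
      6 * θ1 * 2 ^ l * A.nl (9 * 2 ^ l) p + ∑ q ∈ Wn p l, A.ldv d l q := by
  set S : Finset ι := {a ∈ lines A.T | |A.ht p a| ≤ 9 * 2 ^ l ∧ d a < 2 * θ1} with hS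
  have hNR : (0 : ℝ) < 2 ^ l := by positivity
  have s1 : cnt (A.TW p l) (fun t => ∃ i, d (t i) < 2 * θ1) ≤
      ∑ a ∈ S, cnt (A.TW p l) fun t => ∃ i, t i = a := by
    simp only [cnt_eq_sum]
    rw [sum_comm]
    refine sum_le_sum fun t ht => ?_
    by_cases hP : ∃ i, d (t i) < 2 * θ1
    · obtain ⟨i, hi⟩ := hP
      have hm : t i ∈ S := mem_filter.2 ⟨mem_lines.2 ⟨t, TW_sub p l ht, i, rfl⟩, h.ht_TW ht i, hi⟩
      refine le_trans ?_ (single_le_sum (f := fun a => ind (∃ j, t j = a))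
        (fun _ _ => conn_ind_nonneg _) hm)
      rw [ind, ind, if_pos ⟨i, hi⟩, if_pos ⟨i, rfl⟩]
    · rw [ind, if_neg hP]
      exact sum_nonneg fun _ _ => conn_ind_nonneg _
  have s2 : ∑ a ∈ S, cnt (A.TW p l) (fun t => ∃ i, t i = a) ≤ ∑ a ∈ S, (6 * θ1 * 2 ^ l +
      ∑ q ∈ Wn p l with |A.ht q a| ≤ 1, |A.dg l a q.1 - d a|) := by
    refine sum_le_sum fun a ha => ?_
    obtain ⟨a1, a2, a3⟩ := mem_filter.1 ha
    refine (conn_line_TW h d a1 a2).trans ?_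
    have := mul_le_mul_of_nonneg_left a3.le hNR.le
    linarith
  have s3 : (#S : ℝ) ≤ A.nl (9 * 2 ^ l) p := by
    have := cnt_mono (S := lines A.T) (S' := lines A.T)
      (P := fun a => |A.ht p a| ≤ 9 * 2 ^ l ∧ d a < 2 * θ1)
      (P' := fun a => |A.ht p a| ≤ 9 * 2 ^ l) fun a ha hP => ⟨ha, hP.1⟩
    refine le_trans (le_of_eq ?_) this
    unfold cnt
    congr 2
    ext a
    simp only [hS, mem_filter]
  have s4 : ∑ a ∈ S, ∑ q ∈ Wn p l with |A.ht q a| ≤ 1, |A.dg l a q.1 - d a| ≤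
      ∑ q ∈ Wn p l, A.ldv d l q := by
    simp only [Arr.ldv, sum_filter]
    rw [sum_comm]
    refine sum_le_sum fun q _ => sum_le_sum_of_subset_of_nonneg (filter_subset _ _)
      fun a _ _ => ?_
    split_ifs
    · exact abs_nonneg _
    · exact le_rfl
  rw [sum_add_distrib, sum_const, nsmul_eq_mul] at s2
  have s5 := mul_le_mul_of_nonneg_left s3 (by positivity : 0 ≤ 6 * θ1 * 2 ^ l)
  linarith

/-- For `q ∈ Wn p l` all `4 ^ l` cells `q'` of `anc l q` lie in `Wn p (l + 1)` (`anc_close`) and have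
`q ∈ (anc l q').cells` (`anc_eq`); swap the sums. -/
theorem conn_cover {g : Cell → ℝ} (hg : ∀ q, 0 ≤ g q) (p : Cell) (l : ℕ) :
    ∑ q ∈ Wn p l, g q ≤ ∑ q ∈ Wn p (l + 1), (anc l q).avg g := by
  have h4 : (0 : ℝ) < 4 ^ l := by positivity
  have s1 : ∀ q ∈ Wn p l, g q * 4 ^ l ≤
      ∑ q' ∈ Wn p (l + 1), if q ∈ (anc l q').cells then g q else 0 := by
    intro q hq
    have hsub : (anc l q).cells ⊆ Wn p (l + 1) := by
      intro q' hq'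
      obtain ⟨c1, c2⟩ := anc_close hq'
      obtain ⟨c3, c4⟩ := conn_mem_Wn.1 hq
      have hN : (0 : ℤ) < 2 ^ l := by positivity
      rw [abs_lt] at c1 c2
      rw [abs_le] at c3 c4
      rw [conn_mem_Wn, pow_succ, abs_le, abs_le]
      refine ⟨⟨?_, ?_⟩, ?_, ?_⟩ <;> linarith [c1.1, c1.2, c2.1, c2.2, c3.1, c3.2, c4.1, c4.2]
    refine le_trans ?_ (sum_le_sum_of_subset_of_nonneg hsub fun _ _ _ => ?_)
    · have e : ∀ q' ∈ (anc l q).cells, (if q ∈ (anc l q').cells then g q else 0) = g q := by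
        intro q' hq'
        rw [anc_eq le_rfl hq', if_pos (mem_anc l q)]
      rw [sum_congr rfl e, sum_const, card_cells, nsmul_eq_mul]
      push_cast
      exact le_of_eq (mul_comm _ _)
    · split_ifs
      · exact hg q
      · exact le_rfl
  refine le_of_mul_le_mul_right ?_ h4
  rw [sum_mul, sum_mul]
  refine (sum_le_sum s1).trans ?_
  rw [sum_comm]
  refine sum_le_sum fun q' _ => ?_
  have e := conn_sum_avg (anc l q') g
  rw [show (anc l q').j = l from rfl] at e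
  rw [← e, ← sum_filter]
  exact sum_le_sum_of_subset_of_nonneg (fun q hq => (mem_filter.1 hq).2) fun q _ _ => hg q

/-- swap the sums, `q ∈ Wn p l ↔ p ∈ Wn q l`, `card_Wn` -/
theorem conn_swap {g : Cell → ℝ} (hg : ∀ q, 0 ≤ g q) (U V : Finset Cell) (l : ℕ)
    (hV : ∀ p ∈ V, Wn p l ⊆ U) :
    ∑ p ∈ V, ∑ q ∈ Wn p l, g q ≤ 125 * 4 ^ l * ∑ q ∈ U, g q := by
  have s1 : ∀ p ∈ V, ∑ q ∈ Wn p l, g q = ∑ q ∈ U, if p ∈ Wn q l then g q else 0 := by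
    intro p hp
    rw [← sum_filter]
    refine sum_congr ?_ fun _ _ => rfl
    ext q
    rw [mem_filter, conn_mem_Wn (p := q), abs_sub_comm p.1, abs_sub_comm p.2, ← conn_mem_Wn]
    exact ⟨fun hq => ⟨hV p hp hq, hq⟩, fun hq => hq.2⟩
  rw [sum_congr rfl s1, sum_comm, mul_sum]
  refine sum_le_sum fun q _ => ?_
  rw [← sum_filter, sum_const, nsmul_eq_mul]
  refine mul_le_mul_of_nonneg_right (le_trans ?_ (card_Wn q l)) (hg q)
  exact_mod_cast card_le_card fun p hp => (mem_filter.1 hp).2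

end Pool.Agent.MP_38296a_co.H21

end FileConnB1

section FileConnB2

set_option autoImplicit false

namespace Pool.Agent.MP_38296a_co.H21

open Finset Filter Classical

variable {ι : Type} {A : Arr ι}

theorem conn_B2_swap {α β : Type} (S : Finset α) (U : Finset β) (R : α → β → Prop) :
    ∑ a ∈ S, cnt U (R a) = ∑ p ∈ U, cnt S fun a => R a p := by
  simp only [cnt_eq_sum]
  exact sum_comm

theorem conn_B2_four (l : ℕ) : (4 : ℝ) ^ l = 2 ^ l * 2 ^ l := by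
  rw [← mul_pow]
  norm_num

theorem conn_B2_nl (h : A.Ok) (K : ℝ) (hK : 0 ≤ K) (p : Cell) (l : ℕ) :
    A.nl (2 ^ l) p * 2 ^ l ≤ 500 * 4 ^ l * K + ∑ q ∈ Wn p (l + 1), A.exc K l q := by
  have hw : (0 : ℝ) < 2 ^ l := by positivity
  have h1 : A.nl (2 ^ l) p ≤ A.nl (9 * 2 ^ l) p :=
    cnt_mono fun a ha hb => ⟨ha, hb.trans (by linarith)⟩
  have h2 := h.nl_Wn p l
  have h3 := conn_cover (g := A.nl 1) (fun q => cnt_nonneg _ _) p l
  have h4 : ∑ q ∈ Wn p (l + 1), (anc l q).avg (A.nl 1) ≤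
      ∑ q ∈ Wn p (l + 1), (K + A.exc K l q) :=
    sum_le_sum fun q _ => by
      have := le_max_right 0 ((anc l q).avg (A.nl 1) - K)
      unfold Arr.exc
      linarith
  rw [sum_add_distrib, sum_const, nsmul_eq_mul] at h4
  have h5 := mul_le_mul_of_nonneg_right (card_Wn p (l + 1)) hK
  have h6 := mul_le_mul_of_nonneg_right h1 hw.le
  rw [pow_succ] at h5
  linarith

/-- Swap the sums: the left side is the sum of `nl (2 ^ l) p ≤ nl (9 * 2 ^ l) p` over the cells `p` which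
are bad and inner. `nl_Wn`, `conn_cover`, `(anc l q).avg (nl 1) ≤ K + exc K l q`, `card_Wn`,
`conn_swap`. -/
theorem conn_N1 (h : A.Ok) (Q : Bx) (l : ℕ) {K : ℝ} (hK : 0 ≤ K) (bad : Cell → Prop) :
    ∑ a ∈ lines A.T, cnt Q.cells (fun p => |A.ht p a| ≤ 2 ^ l ∧ bad p ∧ Wn p (l + 1) ⊆ Q.cells) ≤
      500 * 2 ^ l * (K * cnt Q.cells bad + ∑ q ∈ Q.cells, A.exc K l q) := by
  have hw : (0 : ℝ) < 2 ^ l := by positivity
  obtain ⟨V, hV⟩ : ∃ V : Finset Cell, ∀ p, p ∈ V ↔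
      p ∈ Q.cells ∧ bad p ∧ Wn p (l + 1) ⊆ Q.cells :=
    ⟨Q.cells.filter fun p => bad p ∧ Wn p (l + 1) ⊆ Q.cells, fun p => mem_filter⟩
  have h1 : ∑ a ∈ lines A.T, cnt Q.cells
      (fun p => |A.ht p a| ≤ 2 ^ l ∧ bad p ∧ Wn p (l + 1) ⊆ Q.cells) ≤
      ∑ a ∈ lines A.T, cnt V fun p => |A.ht p a| ≤ 2 ^ l :=
    sum_le_sum fun a _ => cnt_mono fun p hp hq => ⟨(hV p).2 ⟨hp, hq.2⟩, hq.1⟩
  rw [conn_B2_swap (lines A.T) V] at h1
  have h2 : (∑ p ∈ V, cnt (lines A.T) fun a => |A.ht p a| ≤ 2 ^ l) * 2 ^ l ≤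
      ∑ p ∈ V, (500 * 4 ^ l * K + ∑ q ∈ Wn p (l + 1), A.exc K l q) := by
    rw [sum_mul]
    exact sum_le_sum fun p _ => conn_B2_nl h K hK p l
  rw [sum_add_distrib, sum_const, nsmul_eq_mul] at h2
  have h3 := conn_swap (conn_exc_nonneg A K l) Q.cells V (l + 1) fun p hp => ((hV p).1 hp).2.2
  have h4 : (#V : ℝ) ≤ cnt Q.cells bad := by
    unfold cnt
    exact_mod_cast card_le_card fun p hp => mem_filter.2 ⟨((hV p).1 hp).1, ((hV p).1 hp).2.1⟩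
  have h5 := mul_le_mul_of_nonneg_right h4 (show 0 ≤ 500 * 4 ^ l * K by positivity)
  rw [pow_succ] at h3
  refine h1.trans (le_of_mul_le_mul_right (h2.trans ?_) hw)
  rw [conn_B2_four] at h3 h5 ⊢
  linarith

theorem conn_B2_dg (h : A.Ok) {l : ℕ} (hl : 2 ≤ l) {a : ι} {p : Cell} (h1 : |A.ht p a| ≤ 2 ^ l) :
    A.dg l a p.1 * 2 ^ l ≤ cnt (A.TW p l) fun t => ∃ i, t i = a := by
  have hw : (0 : ℝ) < 2 ^ l := by positivity
  unfold Arr.dg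
  rw [div_mul_cancel₀ _ hw.ne']
  refine cnt_mono fun t ht hq => ⟨?_, hq.1⟩
  obtain ⟨⟨i, rfl⟩, h2⟩ := hq
  refine h.mem_TW hl ht (h1.trans (by linarith)) ?_
  have h0 : (0 : ℤ) < 2 ^ l := by positivity
  have a1 := Int.mul_ediv_add_emod (A.loc t).1 (2 ^ l)
  have a2 := Int.mul_ediv_add_emod p.1 (2 ^ l)
  have a3 := Int.emod_nonneg (A.loc t).1 h0.ne'
  have a4 := Int.emod_nonneg p.1 h0.ne'
  have a5 := Int.emod_lt_of_pos (A.loc t).1 h0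
  have a6 := Int.emod_lt_of_pos p.1 h0
  rw [h2] at a1
  rw [abs_le]
  constructor <;> linarith

theorem conn_B2_heavy (h : A.Ok) (Q : Bx) {l : ℕ} (hl : 2 ≤ l) (d : ι → ℝ) {θ1 : ℝ} {a : ι}
    (ha : 2 * θ1 ≤ d a) : cnt Q.cells (fun p => |A.ht p a| ≤ 2 ^ l ∧
      Wn p (l + 1) ⊆ Q.cells ∧ cnt (A.TW p l) (fun t => ∃ i, t i = a) < θ1 * 2 ^ l) * θ1 ≤
      3 * 2 ^ l * ∑ q ∈ Q.cells with |A.ht q a| ≤ 1, |A.dg l a q.1 - d a| := by
  have hw : (1 : ℝ) ≤ 2 ^ l := one_le_pow₀ (by norm_num)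
  have h1 : ∀ p ∈ Q.cells, ind (|A.ht p a| ≤ 2 ^ l ∧ Wn p (l + 1) ⊆ Q.cells ∧
      cnt (A.TW p l) (fun t => ∃ i, t i = a) < θ1 * 2 ^ l) * θ1 ≤
      ∑ q ∈ Q.cells with |A.ht q a| ≤ 1, |A.dg l a q.1 - d a| *
        ind ((((q.1 : ℝ) ≤ p.1 ∧ (p.1 : ℝ) ≤ q.1 + 0) ∧ |A.ht p a| ≤ 2 ^ l)) := by
    intro p _
    have h0 : ∀ q : Cell, 0 ≤ |A.dg l a q.1 - d a| *
        ind ((((q.1 : ℝ) ≤ p.1 ∧ (p.1 : ℝ) ≤ q.1 + 0) ∧ |A.ht p a| ≤ 2 ^ l)) := fun q =>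
      mul_nonneg (abs_nonneg _) (conn_ind_nonneg _)
    unfold ind at h0 ⊢
    split_ifs with hp
    · obtain ⟨a1, a2, a3⟩ := hp
      obtain ⟨v, hv⟩ := conn_near (A := A) a p.1
      have a4 := conn_B2_dg h hl a1
      have a5 : A.dg l a p.1 < θ1 := lt_of_mul_lt_mul_right (a4.trans_lt a3) (by positivity)
      have a6 : ((p.1, v) : Cell) ∈ Q.cells := by
        refine a2 (conn_mem_Wn.2 ⟨by simp, ?_⟩)
        have e := ht_shift (A := A) p (p.1, v) a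
        simp only [sub_self, mul_zero, add_zero] at e
        have : |(v : ℝ) - p.2| ≤ 12 * 2 ^ (l + 1) := by
          rw [abs_le] at hv a1 ⊢
          rw [pow_succ]
          constructor <;> linarith [hv.1, hv.2, a1.1, a1.2]
        exact_mod_cast this
      refine le_trans ?_ (single_le_sum (fun q _ => h0 q)
        (mem_filter.2 ⟨a6, hv.trans (by norm_num)⟩))
      rw [if_pos ⟨⟨le_rfl, by simp⟩, a1⟩, one_mul, mul_one, abs_sub_comm]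
      exact le_trans (by linarith) (le_abs_self _)
    · rw [zero_mul]
      exact sum_nonneg fun q _ => h0 q
  rw [cnt_eq_sum, sum_mul]
  refine (sum_le_sum h1).trans ?_
  rw [sum_comm, mul_sum]
  refine sum_le_sum fun q _ => ?_
  rw [← mul_sum, ← cnt_eq_sum, mul_comm]
  refine mul_le_mul_of_nonneg_right ?_ (abs_nonneg _)
  refine (conn_strip a Q.cells (q.1 : ℝ) le_rfl (by positivity)).trans ?_
  linarith

/-- Fix a heavy line `a` and a counted cell `p`. The triples on `a` in the column block of `p` lie in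
`TW p l` (`mem_TW`), so `dg l a p.1 < θ1` and `θ1 ≤ |dg l a p.1 - d a|`. The cell `q = (p.1, v)` of
`conn_near` lies in `Wn p (l + 1) ⊆ Q.cells`. Hence `1 ≤ ∑ q ∈ Q.cells with q.1 = p.1 ∧ |ht q a| ≤ 1,
|dg l a q.1 - d a| / θ1`; swap the sums, each `q` is used by at most `2 * 2 ^ l + 1 ≤ 3 * 2 ^ l` cells
`p` (`conn_strip` with `L = 0`). Finally sum over `a` and swap again. -/
theorem conn_N2 (h : A.Ok) (Q : Bx) {l : ℕ} (hl : 2 ≤ l) (d : ι → ℝ) {θ1 : ℝ} (hθ : 0 < θ1) :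
    ∑ a ∈ lines A.T with 2 * θ1 ≤ d a, cnt Q.cells (fun p => |A.ht p a| ≤ 2 ^ l ∧
      Wn p (l + 1) ⊆ Q.cells ∧ cnt (A.TW p l) (fun t => ∃ i, t i = a) < θ1 * 2 ^ l) ≤
      3 * 2 ^ l * (∑ q ∈ Q.cells, A.ldv d l q) / θ1 := by
  rw [le_div_iff₀ hθ, sum_mul]
  refine (sum_le_sum fun a ha => conn_B2_heavy h Q hl d (mem_filter.1 ha).2).trans ?_
  rw [← mul_sum]
  refine mul_le_mul_of_nonneg_left ?_ (by positivity)
  refine (sum_le_sum_of_subset_of_nonneg (filter_subset _ _)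
    fun a _ _ => sum_nonneg fun q _ => abs_nonneg _).trans (le_of_eq ?_)
  unfold Arr.ldv
  simp only [sum_filter]
  exact sum_comm

theorem conn_B2_band (a : ι) (U : Finset Cell) (β : ℝ) {w ζ : ℝ} (hw : 1 ≤ w) (hζ : 0 < ζ)
    (hζ1 : ζ ≤ 1) (hx : ζ ≤ |A.x a|) :
    cnt U (fun p => (β ≤ p.2 ∧ (p.2 : ℝ) ≤ β + 24 * w) ∧ |A.ht p a| ≤ w) ≤ 81 / ζ * (w * w) := by
  have hL : 0 ≤ 26 * w / ζ := by positivity
  have h1 : w ≤ w / ζ := le_div_self (by linarith) hζ hζ1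
  have h2 : (26 * w / ζ + 1) * (2 * w + 1) ≤ 81 / ζ * (w * w) := by
    have e : 81 / ζ * (w * w) = (27 * (w / ζ)) * (3 * w) := by ring
    rw [e, mul_div_assoc]
    exact mul_le_mul (by linarith) (by linarith) (by linarith) (by linarith)
  have key : ∀ {x : ℝ}, ζ ≤ x → ∀ y z : ℝ, y ≤ x * z → x * z ≤ y + 26 * w →
      y / x ≤ z ∧ z ≤ y / x + 26 * w / ζ := by
    intro x hx y z a1 a2
    have h0 : 0 < x := hζ.trans_le hx
    refine ⟨(div_le_iff₀' h0).2 a1, ?_⟩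
    have a3 : 26 * w / x ≤ 26 * w / ζ := div_le_div_of_nonneg_left (by linarith) hζ hx
    have a4 : z ≤ (y + 26 * w) / x := (le_div_iff₀' h0).2 a2
    rw [add_div] at a4
    linarith
  rcases le_abs.1 hx with hx | hx
  · refine (cnt_mono fun p hp hq => ⟨hp, key hx (β - w - A.s a) _ ?_ ?_, hq.2⟩).trans
      ((conn_strip a U _ hL (by linarith)).trans h2)
    all_goals
      obtain ⟨⟨a1, a2⟩, a3⟩ := hq
      rw [abs_le, Arr.ht] at a3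
      linarith [a3.1, a3.2]
  · refine (cnt_mono fun p hp hq => ⟨hp, key hx (A.s a - β - 25 * w) _ ?_ ?_, hq.2⟩).trans
      ((conn_strip a U _ hL (by linarith)).trans h2)
    all_goals
      obtain ⟨⟨a1, a2⟩, a3⟩ := hq
      rw [abs_le, Arr.ht] at a3
      linarith [a3.1, a3.2]

theorem conn_B2_cells {Q : Bx} {p : Cell} : p ∈ Q.cells ↔
    ((Q.u : ℝ) * 2 ^ Q.j ≤ p.1 ∧ (p.1 : ℝ) < (Q.u + 1) * 2 ^ Q.j) ∧
      ((Q.v : ℝ) * 2 ^ Q.j ≤ p.2 ∧ (p.2 : ℝ) < (Q.v + 1) * 2 ^ Q.j) := by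
  rw [conn_mem_cells]
  norm_cast

theorem conn_B2_kinds {Q : Bx} {l : ℕ} {p : Cell} (hq : ¬ Wn p (l + 1) ⊆ Q.cells) :
    ((p.1 : ℝ) ≤ Q.u * 2 ^ Q.j + 4 * 2 ^ l ∨ (Q.u + 1) * 2 ^ Q.j - 4 * 2 ^ l ≤ (p.1 : ℝ)) ∨
      ((p.2 : ℝ) ≤ Q.v * 2 ^ Q.j + 24 * 2 ^ l ∨ (Q.v + 1) * 2 ^ Q.j - 24 * 2 ^ l ≤ (p.2 : ℝ)) := by
  by_contra hc
  simp only [not_or, not_le] at hc
  obtain ⟨⟨a1, a2⟩, a3, a4⟩ := hc
  refine hq fun q hq => ?_
  obtain ⟨b1, b2⟩ := conn_mem_Wn.1 hq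
  have c1 : |(q.1 : ℝ) - p.1| ≤ 2 * 2 ^ (l + 1) := by exact_mod_cast b1
  have c2 : |(q.2 : ℝ) - p.2| ≤ 12 * 2 ^ (l + 1) := by exact_mod_cast b2
  rw [abs_le, pow_succ] at c1 c2
  exact conn_B2_cells.2 ⟨⟨by linarith [c1.1], by linarith [c1.2]⟩, by linarith [c2.1],
    by linarith [c2.2]⟩

/-- `w = 2 ^ l`, `J = 2 ^ Q.j`, `o = Q.o`, `a = t i`, `c = loc t`. A counted cell `p` has `p.1 ≤ o.1 + 4 w`
or `o.1 + J - 4 w ≤ p.1` (at most `15 w ^ 2` cells each, `conn_strip`), or `o.2 + J - 24 w ≤ p.2` or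
`p.2 ≤ o.2 + 24 w`. If there is a cell `p` of the third kind, then `(c.1, c.2 + ρ) ∈ Q.cells`, `ht_shift`,
`ht_loc` give `ζ J ≤ x a * (p.1 - c.1)`, and `|p.1 - c.1| ≤ J`, so `ζ ≤ |x a|`; all cells of the third
kind have `s a + x a * p.1 = ht p a + p.2` in an interval of length `26 w`, so `p.1` lies in an
interval of length `26 w / ζ`: at most `81 w ^ 2 / ζ` cells. The same for the fourth kind. -/
theorem conn_N3 (h : A.Ok) (Q : Bx) (l : ℕ) {ζ : ℝ} (hζ : 0 < ζ) (hζ1 : ζ ≤ 1) {ρ : ℕ}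
    (hρ : ζ * 2 ^ Q.j + 28 * 2 ^ l ≤ ρ) {t : Tri ι} (ht : t ∈ A.T)
    (hd : ∀ q : Cell, |q.1 - (A.loc t).1| ≤ ρ → |q.2 - (A.loc t).2| ≤ ρ → q ∈ Q.cells) (i : Fin 3) :
    cnt Q.cells (fun p => |A.ht p (t i)| ≤ 2 ^ l ∧ ¬ Wn p (l + 1) ⊆ Q.cells) ≤ 400 / ζ * 4 ^ l := by
  have hw : (1 : ℝ) ≤ 2 ^ l := one_le_pow₀ (by norm_num)
  have hJ : (0 : ℝ) < 2 ^ Q.j := by positivity
  have hc := h.ht_loc ht i
  have c0 := conn_B2_cells.1 (hd (A.loc t) (by simp) (by simp))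
  have c1 := conn_B2_cells.1 (hd ((A.loc t).1, (A.loc t).2 + ρ) (by simp) (by simp))
  have c2 := conn_B2_cells.1 (hd ((A.loc t).1, (A.loc t).2 - ρ) (by simp) (by simp))
  push_cast at c1 c2
  have k := fun p (hp : |A.ht p (t i)| ≤ 2 ^ l ∧ ¬ Wn p (l + 1) ⊆ Q.cells) => conn_B2_kinds hp.2
  rw [conn_B2_four]
  generalize t i = a at hc k ⊢
  generalize (2 : ℝ) ^ l = w at hw hρ k ⊢
  have s1 := conn_strip (A := A) a Q.cells (Q.u * 2 ^ Q.j) (L := 4 * w) (w := w) (by linarith)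
    (by linarith)
  have s2 := conn_strip (A := A) a Q.cells ((Q.u + 1) * 2 ^ Q.j - 4 * w) (L := 4 * w) (w := w)
    (by linarith) (by linarith)
  have s3 : ∀ β : ℝ, cnt Q.cells (fun p => ζ ≤ |A.x a| ∧
      (β ≤ p.2 ∧ (p.2 : ℝ) ≤ β + 24 * w) ∧ |A.ht p a| ≤ w) ≤ 81 / ζ * (w * w) := by
    intro β
    by_cases hx : ζ ≤ |A.x a|
    · exact (cnt_mono fun p hp hq => ⟨hp, hq.2⟩).trans (conn_B2_band a Q.cells β hw hζ hζ1 hx)
    · refine le_trans (le_of_not_gt fun h0 => ?_) (show 0 ≤ 81 / ζ * (w * w) by positivity)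
      obtain ⟨p, -, hp⟩ := exists_of_cnt_pos h0
      exact hx hp.1
  have hx : ∀ p ∈ Q.cells, ζ * 2 ^ Q.j ≤ |A.x a * ((p.1 : ℝ) - (A.loc t).1)| → ζ ≤ |A.x a| := by
    intro p hp h1
    have b := conn_B2_cells.1 hp
    have h2 : |(p.1 : ℝ) - (A.loc t).1| ≤ 2 ^ Q.j :=
      abs_le.2 ⟨by linarith [b.1.1, c0.1.2], by linarith [b.1.2, c0.1.1]⟩
    rw [abs_mul] at h1
    exact le_of_mul_le_mul_right (h1.trans (mul_le_mul_of_nonneg_left h2 (abs_nonneg _))) hJ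
  have s4 : (4 * w + 1) * (2 * w + 1) ≤ 15 / ζ * (w * w) := by
    have h1 : (15 : ℝ) ≤ 15 / ζ := le_div_self (by norm_num) hζ hζ1
    have h2 := mul_le_mul_of_nonneg_right h1 (show 0 ≤ w * w by positivity)
    nlinarith
  have s5 : (0 : ℝ) ≤ 1 / ζ * (w * w) := by positivity
  have e : ∀ c : ℝ, c / ζ * (w * w) = c * (1 / ζ * (w * w)) := fun c => by ring
  have s6 := s3 (Q.v * 2 ^ Q.j)
  have s7 := s3 ((Q.v + 1) * 2 ^ Q.j - 24 * w)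
  rw [e] at s4 s6 s7 ⊢
  refine (cnt_or fun p hp hq => ?_).trans ((add_le_add
    ((cnt_or fun p _ hq => hq).trans (add_le_add s1 s2))
    ((cnt_or fun p _ hq => hq).trans (add_le_add s6 s7))).trans (by linarith))
  have b := conn_B2_cells.1 hp
  have e := ht_shift (A := A) (A.loc t) p a
  have a1 := abs_le.1 hq.1
  have a2 := abs_le.1 hc
  rcases k p hq with (k | k) | k | k
  · exact Or.inl (Or.inl ⟨⟨b.1.1, k⟩, hq.1⟩)
  · exact Or.inl (Or.inr ⟨⟨k, by linarith [b.1.2]⟩, hq.1⟩)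
  · refine Or.inr (Or.inl ⟨hx p hp (le_abs.2 (Or.inr ?_)), ⟨b.2.1, k⟩, hq.1⟩)
    linarith [a1.2, a2.1, c2.2.1]
  · refine Or.inr (Or.inr ⟨hx p hp (le_abs.2 (Or.inl ?_)), ⟨k, by linarith [b.2.2]⟩, hq.1⟩)
    linarith [a1.1, a2.2, c1.2.2]

end Pool.Agent.MP_38296a_co.H21

end FileConnB2

section FileConnB3

set_option autoImplicit false

namespace Pool.Agent.MP_38296a_co.H21

open Finset Filter Classical

variable {A : ℕ → Arr ℕ} {Q : ℕ → Bx}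

section Det
variable {ι : Type} {B : Arr ι}

theorem conn_B3_four (l : ℕ) : (4 : ℝ) ^ l = 2 ^ l * 2 ^ l := by
  rw [← mul_pow]; norm_num

/-- the number of heavy lines with many inner exceptional cells -/
theorem conn_B3_Z (h : B.Ok) (U : Bx) {l : ℕ} (hl : 2 ≤ l) {K θ1 c : ℝ} (hK : 0 ≤ K) (hθ : 0 < θ1)
    (d : ι → ℝ) (bad : Cell → Prop) : ∃ Z : Finset ι,
      #Z * c ≤ 500 * 2 ^ l * (K * cnt U.cells bad + ∑ q ∈ U.cells, B.exc K l q) +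
        3 * 2 ^ l * (∑ q ∈ U.cells, B.ldv d l q) / θ1 ∧
      ∀ a ∈ lines B.T, 2 * θ1 ≤ d a → a ∉ Z →
        cnt U.cells (fun p => |B.ht p a| ≤ 2 ^ l ∧
          (bad p ∨ cnt (B.TW p l) (fun t => ∃ i, t i = a) < θ1 * 2 ^ l)) ≤
        c + cnt U.cells (fun p => |B.ht p a| ≤ 2 ^ l ∧ ¬ Wn p (l + 1) ⊆ U.cells) := by
  set N1 : ι → ℝ := fun a =>
    cnt U.cells (fun p => |B.ht p a| ≤ 2 ^ l ∧ bad p ∧ Wn p (l + 1) ⊆ U.cells) with hN1
  set N2 : ι → ℝ := fun a => cnt U.cells (fun p => |B.ht p a| ≤ 2 ^ l ∧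
    Wn p (l + 1) ⊆ U.cells ∧ cnt (B.TW p l) (fun t => ∃ i, t i = a) < θ1 * 2 ^ l) with hN2
  refine ⟨{a ∈ lines B.T | 2 * θ1 ≤ d a ∧ c ≤ N1 a + N2 a}, ?_, fun a ha hd hZ => ?_⟩
  · have h1 := conn_N1 h U l hK bad
    have h2 := conn_N2 h U hl d hθ
    have h3 : (#{a ∈ lines B.T | 2 * θ1 ≤ d a ∧ c ≤ N1 a + N2 a} : ℝ) * c ≤
        ∑ a ∈ lines B.T with 2 * θ1 ≤ d a ∧ c ≤ N1 a + N2 a, (N1 a + N2 a) := by
      rw [← nsmul_eq_mul]
      exact card_nsmul_le_sum _ _ _ fun a ha => (mem_filter.1 ha).2.2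
    have h4 : ∑ a ∈ lines B.T with 2 * θ1 ≤ d a ∧ c ≤ N1 a + N2 a, N1 a ≤
        ∑ a ∈ lines B.T, N1 a :=
      sum_le_sum_of_subset_of_nonneg (filter_subset _ _) fun a _ _ => cnt_nonneg _ _
    have h5 : ∑ a ∈ lines B.T with 2 * θ1 ≤ d a ∧ c ≤ N1 a + N2 a, N2 a ≤
        ∑ a ∈ lines B.T with 2 * θ1 ≤ d a, N2 a :=
      sum_le_sum_of_subset_of_nonneg
        (fun a ha => mem_filter.2 ⟨(mem_filter.1 ha).1, (mem_filter.1 ha).2.1⟩)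
        fun a _ _ => cnt_nonneg _ _
    rw [sum_add_distrib] at h3
    linarith
  · have h1 : N1 a + N2 a < c := by
      by_contra hc
      exact hZ (mem_filter.2 ⟨ha, hd, not_lt.1 hc⟩)
    have h2 : cnt U.cells (fun p => |B.ht p a| ≤ 2 ^ l ∧
          (bad p ∨ cnt (B.TW p l) (fun t => ∃ i, t i = a) < θ1 * 2 ^ l)) ≤
        cnt U.cells (fun p => |B.ht p a| ≤ 2 ^ l ∧ Wn p (l + 1) ⊆ U.cells ∧
          (bad p ∨ cnt (B.TW p l) (fun t => ∃ i, t i = a) < θ1 * 2 ^ l)) +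
        cnt U.cells (fun p => |B.ht p a| ≤ 2 ^ l ∧ ¬ Wn p (l + 1) ⊆ U.cells) :=
      cnt_or fun p _ hp => by
        by_cases hW : Wn p (l + 1) ⊆ U.cells
        · exact Or.inl ⟨hp.1, hW, hp.2⟩
        · exact Or.inr ⟨hp.1, hW⟩
    have h3 : cnt U.cells (fun p => |B.ht p a| ≤ 2 ^ l ∧ Wn p (l + 1) ⊆ U.cells ∧
          (bad p ∨ cnt (B.TW p l) (fun t => ∃ i, t i = a) < θ1 * 2 ^ l)) ≤ N1 a + N2 a :=
      cnt_or fun p _ hp => hp.2.2.elim (fun hb => Or.inl ⟨hp.1, hb, hp.2.1⟩)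
        fun hb => Or.inr ⟨hp.1, hp.2.1, hb⟩
    linarith

/-- triples of the box on a heavy line outside `S` -/
theorem conn_B3_TB (h : B.Ok) (U : Bx) {l : ℕ} (hl : 2 ≤ l) {K θ1 θ θ0 θ2 ε ζ : ℝ} (hK : 0 ≤ K)
    (hθ1 : 0 < θ1) (hθ : 0 < θ) (hζ : 0 < ζ) (hζ1 : ζ ≤ 1) (hζε : ζ ≤ ε / 32)
    (hw1 : 29 * 2 ^ l ≤ ζ * 2 ^ U.j) (hw2 : 1200 * 2 ^ l ≤ ζ * θ * 2 ^ U.j)
    (hpar : 500 * (K * θ0 + θ2) + 3 * θ2 / θ1 ≤ ε * θ / 12) (d : ι → ℝ) (bad : Cell → Prop)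
    (hbad : U.fr bad ≤ θ0) (hexc : U.avg (B.exc K l) ≤ θ2) (hld : U.avg (B.ldv d l) ≤ θ2) :
    cnt (B.TB U) (fun t => ∃ i, 2 * θ1 ≤ d (t i) ∧ ¬ cnt U.cells (fun p =>
      |B.ht p (t i)| ≤ 2 ^ l ∧ (bad p ∨ cnt (B.TW p l) (fun u => ∃ i', u i' = t i) < θ1 * 2 ^ l)) ≤
        θ * 2 ^ U.j * 2 ^ l) ≤ ε / 2 * 4 ^ U.j := by
  obtain ⟨Z, hZ, hZ'⟩ := conn_B3_Z (c := 2 * θ / 3 * 2 ^ U.j * 2 ^ l) h U hl hK hθ1 d bad
  have hw : (0 : ℝ) < 2 ^ l := by positivity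
  have hw' : (1 : ℝ) ≤ 2 ^ l := one_le_pow₀ (by norm_num)
  have hJ : (0 : ℝ) < 2 ^ U.j := by positivity
  have hJ4 : (0 : ℝ) < 4 ^ U.j := by positivity
  set ρ : ℕ := ⌈ζ * 2 ^ U.j + 28 * 2 ^ l⌉₊ with hρ
  have hρ1 : ζ * 2 ^ U.j + 28 * 2 ^ l ≤ ρ := Nat.le_ceil _
  have hρ2 : (ρ : ℝ) ≤ 2 * ζ * 2 ^ U.j := by
    have := Nat.ceil_lt_add_one (a := ζ * 2 ^ U.j + 28 * 2 ^ l) (by positivity)
    linarith
  have hN3 : 400 / ζ * 4 ^ l ≤ θ / 3 * 2 ^ U.j * 2 ^ l := by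
    rw [conn_B3_four, ← mul_assoc]
    refine mul_le_mul_of_nonneg_right ?_ hw.le
    rw [div_mul_eq_mul_div, div_le_iff₀ hζ]
    linarith
  have h1 : cnt (B.TB U) (fun t => ∃ i, 2 * θ1 ≤ d (t i) ∧ ¬ cnt U.cells (fun p =>
      |B.ht p (t i)| ≤ 2 ^ l ∧ (bad p ∨ cnt (B.TW p l) (fun u => ∃ i', u i' = t i) < θ1 * 2 ^ l)) ≤
        θ * 2 ^ U.j * 2 ^ l) ≤
      cnt (B.TB U) (fun t => ¬ ∀ q : Cell, |q.1 - (B.loc t).1| ≤ ρ → |q.2 - (B.loc t).2| ≤ ρ →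
        q ∈ U.cells) + cnt (B.TB U) (fun t => ∃ i, t i ∈ Z) := by
    refine cnt_or fun t ht ⟨i, hd, hS⟩ => ?_
    by_contra hc
    rw [not_or, not_not] at hc
    have ht' := TB_sub U ht
    have h2 := hZ' (t i) (mem_lines.2 ⟨t, ht', i, rfl⟩) hd fun hz => hc.2 ⟨i, hz⟩
    have h3 := conn_N3 h U l hζ hζ1 hρ1 ht' hc.1 i
    exact hS (by linarith)
  have h2 : cnt (B.TB U) (fun t => ¬ ∀ q : Cell, |q.1 - (B.loc t).1| ≤ ρ →
      |q.2 - (B.loc t).2| ≤ ρ → q ∈ U.cells) ≤ ε / 4 * 4 ^ U.j := by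
    refine le_trans (cnt_mono fun t ht hP => ⟨TB_sub U ht, (mem_filter.1 ht).2, hP⟩)
      ((h.cnt_loc U.cells fun p => ¬ ∀ q : Cell, |q.1 - p.1| ≤ ρ → |q.2 - p.2| ≤ ρ →
        q ∈ U.cells).trans ?_)
    rw [conn_cnt_fr]
    refine mul_le_mul_of_nonneg_right ((fr_bdry U ρ).trans ?_) hJ4.le
    rw [div_le_iff₀ hJ]
    have := mul_le_mul_of_nonneg_right hζε hJ.le
    linarith
  have h3 : (#Z : ℝ) ≤ ε / 8 * 2 ^ U.j := by
    have e1 : cnt U.cells bad ≤ θ0 * 4 ^ U.j := by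
      rw [conn_cnt_fr]
      exact mul_le_mul_of_nonneg_right hbad hJ4.le
    have e2 : ∑ q ∈ U.cells, B.exc K l q ≤ θ2 * 4 ^ U.j := by
      rw [conn_sum_avg]
      exact mul_le_mul_of_nonneg_right hexc hJ4.le
    have e3 : ∑ q ∈ U.cells, B.ldv d l q ≤ θ2 * 4 ^ U.j := by
      rw [conn_sum_avg]
      exact mul_le_mul_of_nonneg_right hld hJ4.le
    have e4 : #Z * (2 * θ / 3 * 2 ^ U.j * 2 ^ l) ≤
        ε / 8 * 2 ^ U.j * (2 * θ / 3 * 2 ^ U.j * 2 ^ l) := by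
      calc _ ≤ _ := hZ
        _ ≤ 500 * 2 ^ l * (K * (θ0 * 4 ^ U.j) + θ2 * 4 ^ U.j) +
            3 * 2 ^ l * (θ2 * 4 ^ U.j) / θ1 := by gcongr
        _ = (500 * (K * θ0 + θ2) + 3 * θ2 / θ1) * (4 ^ U.j * 2 ^ l) := by ring
        _ ≤ ε * θ / 12 * (4 ^ U.j * 2 ^ l) := by gcongr
        _ = _ := by rw [conn_B3_four]; ring
    exact le_of_mul_le_mul_right e4 (by positivity)
  have h4 := h.few_TB U Z
  have h5 : (2 : ℝ) * 2 ^ U.j * #Z ≤ ε / 4 * 4 ^ U.j := by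
    calc (2 : ℝ) * 2 ^ U.j * #Z ≤ 2 * 2 ^ U.j * (ε / 8 * 2 ^ U.j) := by gcongr
      _ = _ := by rw [conn_B3_four]; ring
  linarith

theorem conn_B3_fr4 (h : B.Ok) (U : Bx) {l : ℕ} (hl : l ≤ U.j) {θ1 θ : ℝ} (hθ1 : 0 < θ1)
    (P : Tri ι → Prop) (hP : cnt (B.TB U) P + 32 * 2 ^ l * 2 ^ U.j ≤ θ * θ1 / 132 * 4 ^ U.j) :
    U.fr (fun p => θ1 * 4 ^ l ≤ cnt (B.TW p l) P) ≤ θ / 4 := by
  have hJ4 : (0 : ℝ) < 4 ^ U.j := by positivity
  have hc : 0 < θ1 * 4 ^ l := by positivity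
  refine (fr_markov U (fun p _ => cnt_nonneg _ _) hc).trans ?_
  unfold Bx.avg
  rw [div_le_iff₀ hc, div_le_iff₀ hJ4]
  calc _ ≤ _ := h.dc_bd hl P
    _ ≤ 33 * 4 ^ l * (θ * θ1 / 132 * 4 ^ U.j) := by gcongr
    _ = _ := by ring

theorem conn_B3_fr3 (U : Bx) (l : ℕ) {θ1 θ θ2 : ℝ} (hθ1 : 0 < θ1) (h2 : θ2 ≤ θ * θ1 / 500)
    {g : Cell → ℝ} (hg : ∀ q, 0 ≤ g q) (hld : U.avg g ≤ θ2) :
    U.fr (fun p => Wn p l ⊆ U.cells ∧ θ1 * 4 ^ l ≤ ∑ q ∈ Wn p l, g q) ≤ θ / 4 := by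
  have hJ4 : (0 : ℝ) < 4 ^ U.j := by positivity
  have hc : 0 < θ1 * 4 ^ l := by positivity
  unfold Bx.fr
  rw [div_le_iff₀ hJ4]
  refine le_trans (cnt_mono (S' := {p ∈ U.cells | Wn p l ⊆ U.cells})
    (P' := fun p => θ1 * 4 ^ l ≤ ∑ q ∈ Wn p l, g q)
    fun p hp hP => ⟨mem_filter.2 ⟨hp, hP.1⟩, hP.2⟩) ?_
  refine (cnt_markov _ (fun p _ => sum_nonneg fun q _ => hg q) hc).trans ?_
  rw [div_le_iff₀ hc]
  calc _ ≤ _ := conn_swap hg U.cells _ l fun p hp => (mem_filter.1 hp).2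
    _ = 125 * 4 ^ l * (U.avg g * 4 ^ U.j) := by rw [conn_sum_avg]
    _ ≤ 125 * 4 ^ l * (θ * θ1 / 500 * 4 ^ U.j) := by gcongr; exact hld.trans h2
    _ = _ := by ring

theorem conn_B3_det (h : B.Ok) (U : Bx) (l : ℕ) {K θ1 θ : ℝ} (hθ1 : 0 < θ1) (d : ι → ℝ)
    (S : Set ι) (h1 : U.fr (fun p => ¬ B.nl (9 * 2 ^ l) p ≤ 250 * K * 2 ^ l) ≤ θ / 4)
    (h2 : U.fr (fun p => ¬ Wn p l ⊆ U.cells) ≤ θ / 4)
    (h3 : U.fr (fun p => Wn p l ⊆ U.cells ∧ θ1 * 4 ^ l ≤ ∑ q ∈ Wn p l, B.ldv d l q) ≤ θ / 4)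
    (h4 : U.fr (fun p => θ1 * 4 ^ l ≤ cnt (B.TW p l) fun t => ∃ i, 2 * θ1 ≤ d (t i) ∧ t i ∉ S) ≤
      θ / 4) :
    U.fr (fun p => (1500 * K + 2) * θ1 * 4 ^ l < cnt (B.TW p l) fun t => ∃ i, t i ∉ S) ≤ θ := by
  have e1 := fr_or (Q := U) (P := fun p => ¬ B.nl (9 * 2 ^ l) p ≤ 250 * K * 2 ^ l ∨
    ¬ Wn p l ⊆ U.cells) fun p _ hp => hp
  have e2 := fr_or (Q := U) (P := fun p =>
    (Wn p l ⊆ U.cells ∧ θ1 * 4 ^ l ≤ ∑ q ∈ Wn p l, B.ldv d l q) ∨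
    θ1 * 4 ^ l ≤ cnt (B.TW p l) fun t => ∃ i, 2 * θ1 ≤ d (t i) ∧ t i ∉ S) fun p _ hp => hp
  refine le_trans (fr_or fun p _ hp => ?_) (add_le_add e1 e2 |>.trans (by linarith))
  by_contra hc
  simp only [not_or, not_not, not_and, not_le] at hc
  obtain ⟨⟨c1, c2⟩, c3, c4⟩ := hc
  have c5 := c3 c2
  have c6 := conn_light h d p l hθ1.le
  have c7 : cnt (B.TW p l) (fun t => ∃ i, t i ∉ S) ≤
      cnt (B.TW p l) (fun t => ∃ i, d (t i) < 2 * θ1) +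
        cnt (B.TW p l) fun t => ∃ i, 2 * θ1 ≤ d (t i) ∧ t i ∉ S :=
    cnt_or fun t _ ⟨i, hi⟩ => (lt_or_ge (d (t i)) (2 * θ1)).elim (fun hd => Or.inl ⟨i, hd⟩)
      fun hd => Or.inr ⟨i, hd, hi⟩
  have c8 : 6 * θ1 * 2 ^ l * B.nl (9 * 2 ^ l) p ≤ 1500 * K * θ1 * 4 ^ l := by
    calc _ ≤ 6 * θ1 * 2 ^ l * (250 * K * 2 ^ l) := by gcongr; exact not_lt.1 c1
      _ = _ := by rw [conn_B3_four]; ring
  linarith

end Det

theorem conn_B3_big (h : Tendsto (fun n => (Q n).j) UU atTop) {c : ℝ} (hc : 0 < c) (M : ℝ) :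
    ∀ᶠ n in UU, M ≤ c * 2 ^ (Q n).j :=
  (((tendsto_pow_atTop_atTop_of_one_lt (one_lt_two (α := ℝ))).comp h).const_mul_atTop
    hc).eventually_ge_atTop M

/-- Plan. `K0` from `Good.exc_ev`, `d` from `Good.ld_ev`, `K = 1500 K0 + 2`. `w = 2 ^ l`, `J = 2 ^ (Q n).j`.
`S` is the set of lines with the stated bound, so only the first claim needs a proof. A cell with
`K θ1 4 ^ l < cnt` has (1) `¬ nl (9 w) p ≤ 250 K0 w` (second part of `exc_ev`, fraction `≤ θ / 4`), or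
(2) `¬ Wn p l ⊆ cells` (`most_in`, fraction `≤ θ / 4`), or (3) `Wn p l ⊆ cells` and
`θ1 4 ^ l ≤ ∑ q ∈ Wn p l, ldv q` (`cnt_markov`, `conn_swap`: fraction `≤ 125 avg ldv / θ1 ≤ θ / 4`), or
(4) `θ1 4 ^ l ≤ cnt (TW p l) PZ` with `PZ t := ∃ i, 2 θ1 ≤ d (t i) ∧ t i ∉ S` (by `conn_light`, `cnt_or`).
For (4): `cnt_markov` and `dc_bd` reduce to `cnt (TB Q) PZ + 32 w J ≤ θ θ1 / 132 * 4 ^ j`. Let
`ε = θ θ1 / 132`, `ζ = min 1 (ε / 32)`, `ρ = ⌈ζ J + 28 w⌉₊ ≤ 2 ζ J` (for `w ≤ J / 2 ^ k`, `k` large,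
from `h.val.big`). Triples located within `ρ` of the boundary: at most `4 ρ J ≤ ε / 4 * 4 ^ j`
(`cnt_loc`, `fr_bdry`, `conn_cnt_fr`). For the others, a heavy line `a = t i ∉ S` has
`θ J w < N1 a + N2 a + N3 a` with `N3 a ≤ 400 / ζ * 4 ^ l ≤ θ / 3 * J w` (`conn_N3`), so `a` lies in the
finset `Z` of heavy lines of `lines T` with `2 θ / 3 * J w ≤ N1 a + N2 a`, and by `conn_N1`, `conn_N2`
`#Z * (2 θ / 3 * J w) ≤ w (500 (K0 θ0 + θ2) + 3 θ2 / θ1) 4 ^ j` where `θ2` bounds the averages of `exc`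
and `ldv`; choose `θ0, θ2` with `#Z ≤ ε / 8 * J` and use `few_TB`. State the deterministic part (one
arrangement, one box) as separate lemmas. -/
theorem conn_band (h : Good A Q) : ∃ K : ℝ, 0 < K ∧ ∀ θ1 θ : ℝ, 0 < θ1 → 0 < θ → ∃ θ0 : ℝ, 0 < θ0 ∧
    ∀ᶠ l in atTop, ∀ᶠ n in UU, ∀ bad : Cell → Prop, (Q n).fr bad ≤ θ0 → ∃ S : Set ℕ,
      (Q n).fr (fun p => K * θ1 * 4 ^ l < cnt ((A n).TW p l) fun t => ∃ i, t i ∉ S) ≤ θ ∧
      ∀ a ∈ S, cnt (Q n).cells (fun p => |(A n).ht p a| ≤ 2 ^ l ∧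
        (bad p ∨ cnt ((A n).TW p l) (fun t => ∃ i, t i = a) < θ1 * 2 ^ l)) ≤
          θ * 2 ^ (Q n).j * 2 ^ l := by
  obtain ⟨K, hK, hexc, hnl⟩ := h.exc_ev
  obtain ⟨d, hld⟩ := h.ld_ev
  refine ⟨1500 * K + 2, by linarith, fun θ1 θ hθ1 hθ => ?_⟩
  have hK0 : 0 < K := by linarith
  obtain ⟨ε, hε⟩ : ∃ ε, ε = θ * θ1 / 132 := ⟨_, rfl⟩
  have hε0 : 0 < ε := by rw [hε]; positivity
  obtain ⟨ζ, hζ, hζ1, hζε⟩ : ∃ ζ : ℝ, 0 < ζ ∧ ζ ≤ 1 ∧ ζ ≤ ε / 32 :=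
    ⟨min 1 (ε / 32), by positivity, min_le_left _ _, min_le_right _ _⟩
  obtain ⟨θ2, hθ2, h21, h22⟩ : ∃ θ2 : ℝ, 0 < θ2 ∧ θ2 ≤ θ * θ1 / 500 ∧
      θ2 ≤ ε * θ / 24 / (500 + 3 / θ1) :=
    ⟨min _ _, by positivity, min_le_left _ _, min_le_right _ _⟩
  refine ⟨ε * θ / (12000 * K), by positivity, ?_⟩
  have hpar : 500 * (K * (ε * θ / (12000 * K)) + θ2) + 3 * θ2 / θ1 ≤ ε * θ / 12 := by
    rw [le_div_iff₀ (by positivity)] at h22
    have e1 : K * (ε * θ / (12000 * K)) = ε * θ / 12000 := by field_simp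
    have e2 : 3 * θ2 / θ1 = θ2 * (3 / θ1) := by ring
    rw [e1, e2]
    linarith
  filter_upwards [hexc θ2 hθ2, hld θ2 hθ2, hnl (θ / 4) (by positivity),
    most_in h.val.big 0 (θ / 4) (by positivity), eventually_ge_atTop 2] with l a1 a2 a3 a4 hl
  filter_upwards [a1, a2, a3, a4, h.val.big.eventually_ge_atTop l,
    conn_B3_big h.val.big hζ (29 * 2 ^ l), conn_B3_big h.val.big (mul_pos hζ hθ) (1200 * 2 ^ l)]
    with n b1 b2 b3 b4 b5 b6 b7 bad hbad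
  refine ⟨{a | cnt (Q n).cells (fun p => |(A n).ht p a| ≤ 2 ^ l ∧
    (bad p ∨ cnt ((A n).TW p l) (fun t => ∃ i, t i = a) < θ1 * 2 ^ l)) ≤
      θ * 2 ^ (Q n).j * 2 ^ l}, ?_, fun a ha => ha⟩
  refine conn_B3_det (h.val.ok n) (Q n) l hθ1 (d n) _ b3
    ((fr_mono fun p _ hp hc => hp hc.2).trans b4)
    (conn_B3_fr3 (Q n) l hθ1 h21 (conn_ldv_nonneg _ _ _) b2)
    (conn_B3_fr4 (h.val.ok n) (Q n) b5 hθ1 _ ?_)
  have c1 := conn_B3_TB (h.val.ok n) (Q n) hl hK0.le hθ1 hθ hζ hζ1 hζε b6 b7 hpar (d n) bad hbad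
    b1 b2
  have hJ : (0 : ℝ) < 2 ^ (Q n).j := by positivity
  have hw : (0 : ℝ) < 2 ^ l := by positivity
  have c2 : (32 : ℝ) * 2 ^ l * 2 ^ (Q n).j ≤ ε / 2 * 4 ^ (Q n).j := by
    rw [conn_B3_four, ← mul_assoc]
    refine mul_le_mul_of_nonneg_right ?_ hJ.le
    have := mul_le_mul_of_nonneg_right hζε hJ.le
    have := mul_pos hε0 hJ
    linarith
  rw [← hε]
  exact (add_le_add c1 c2).trans (le_of_eq (by ring))

end Pool.Agent.MP_38296a_co.H21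

end FileConnB3

section FileConn

set_option autoImplicit false

namespace Pool.Agent.MP_38296a_co.H21

open Finset Filter Classical

variable {A : ℕ → Arr ℕ} {Q : ℕ → Bx} {β : Fin 3}

/-- crossing lemma in large boxes -/
theorem crossC (h : Good A Q) (hN : NA A Q β) {c : ℝ} (hc : 0 < c) : ∃ D : ℕ, ∀ κ : ℝ, 0 < κ →
    ∃ η θ : ℝ, 0 < η ∧ 0 < θ ∧ ∀ k : ℕ, ∀ᶠ l in atTop, ∀ᶠ n in UU,
      ∀ (bad : Cell → Prop) (b b' : Bx) (P P' : Finset Cell) (R G : Set ℕ),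
      (Q n).fr bad ≤ θ / 4 ^ k → b.j + k = (Q n).j → b'.j = b.j → |b.u - b'.u| ≤ 1 →
      |b.v - b'.v| ≤ 1 → b.nb D ⊆ (Q n).cells → P ⊆ b.cells → P' ⊆ b'.cells →
      κ * 4 ^ b.j ≤ #P → κ * 4 ^ b.j ≤ #P' →
      (∀ p ∈ P, c * 4 ^ l ≤ cnt ((A n).TW p l) fun t => t β ∈ R) →
      (∀ p ∈ P', c * 4 ^ l ≤ cnt ((A n).TW p l) fun t => t β ∈ G) →
      ∃ q ∈ b.nb D, ¬ bad q ∧ η * 4 ^ l ≤ cnt ((A n).TW q l) (fun t => t β ∈ R) ∧
        η * 4 ^ l ≤ cnt ((A n).TW q l) fun t => t β ∈ G :=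
  conn_crossC h hN hc

/-- one colour dominates -/
theorem mtc (h : Good A Q) (hN : NA A Q β) {κ : ℝ} (hκ : 0 < κ) : ∃ η θ : ℝ, 0 < η ∧ 0 < θ ∧
    ∀ᶠ l in atTop, ∀ᶠ n in UU, ∀ (bad : Cell → Prop) (R : Set ℕ) (C : Cell → Prop),
      (Q n).fr bad ≤ θ → Col (A n) (Q n) β l η bad R C →
      (Q n).fr (fun p => ¬ bad p ∧ C p) ≤ κ ∨ (Q n).fr (fun p => ¬ bad p ∧ ¬ C p) ≤ κ :=
  conn_mtc h hN hκ

/-- concentration of quantities described by colourings of the lines -/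
theorem t1c (h : Good A Q) (hN : NA A Q β) {κ : ℝ} (hκ : 0 < κ) : ∃ η θ : ℝ, 0 < η ∧ 0 < θ ∧
    ∀ᶠ l in atTop, ∀ c : ℝ, 1 ≤ c → ∃ C : ℝ, 1 ≤ C ∧ ∀ᶠ n in UU,
      ∀ (bad : Cell → Prop) (ρ : Cell → ℝ) (b : ℝ), 0 ≤ b → (Q n).fr bad ≤ θ →
      (∀ τ : ℝ, 0 < τ → ∃ R : Set ℕ, ∀ p ∈ (Q n).cells, ¬ bad p →
        (c * ρ p ≤ τ → cnt ((A n).TW p l) (fun t => t β ∉ R) < η * 4 ^ l) ∧
        (c * τ < ρ p → cnt ((A n).TW p l) (fun t => t β ∈ R) < η * 4 ^ l)) →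
      κ ≤ (Q n).fr (fun p => ¬ bad p ∧ ρ p ≤ b) →
      (Q n).fr (fun p => ¬ bad p ∧ C * b < ρ p) ≤ κ :=
  conn_t1c h hN hκ

/-- a dense set of cells on which all colourings are constant -/
theorem gmlc (h : Good A Q) (hN : NA A Q β) : ∃ δ η θ : ℝ, 0 < δ ∧ 0 < η ∧ 0 < θ ∧
    ∀ᶠ l in atTop, ∀ᶠ n in UU, ∀ bad : Cell → Prop, (Q n).fr bad ≤ θ →
      ∃ H ⊆ (Q n).cells, (∀ p ∈ H, ¬ bad p) ∧
        δ * 4 ^ (Q n).j ≤ cnt (A n).T (fun t => (A n).loc t ∈ H) ∧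
        ∀ (R : Set ℕ) (C : Cell → Prop), Col (A n) (Q n) β l η bad R C →
          ∀ p ∈ H, ∀ q ∈ H, (C p ↔ C q) :=
  conn_gmlc h hN

/-- reliable lines -/
theorem band (h : Good A Q) : ∃ K : ℝ, 0 < K ∧ ∀ θ1 θ : ℝ, 0 < θ1 → 0 < θ → ∃ θ0 : ℝ, 0 < θ0 ∧
    ∀ᶠ l in atTop, ∀ᶠ n in UU, ∀ bad : Cell → Prop, (Q n).fr bad ≤ θ0 → ∃ S : Set ℕ,
      (Q n).fr (fun p => K * θ1 * 4 ^ l < cnt ((A n).TW p l) fun t => ∃ i, t i ∉ S) ≤ θ ∧
      ∀ a ∈ S, cnt (Q n).cells (fun p => |(A n).ht p a| ≤ 2 ^ l ∧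
        (bad p ∨ cnt ((A n).TW p l) (fun t => ∃ i, t i = a) < θ1 * 2 ^ l)) ≤
          θ * 2 ^ (Q n).j * 2 ^ l :=
  conn_band h

end Pool.Agent.MP_38296a_co.H21

end FileConn

section FileSupp

set_option autoImplicit false

namespace Pool.Agent.MP_38296a_co.H21

open Finset Filter Classical

theorem ht_z {ι : Type} (A : Arr ι) (Q : Bx) (p : Cell) (a : ι) :
    A.ht p a = 2 ^ Q.j * (A.hu Q a + A.x a * (Q.z p).1 - (Q.z p).2) := by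
  unfold Arr.hu Arr.ht Bx.z
  field_simp
  ring

theorem supp_ico {J : ℕ} {u x : ℤ} : x ∈ Ico (u * 2 ^ J) ((u + 1) * 2 ^ J) ↔
    0 ≤ ((x : ℝ) - (u * 2 ^ J : ℤ)) / 2 ^ J ∧ ((x : ℝ) - (u * 2 ^ J : ℤ)) / 2 ^ J < 1 := by
  have hJ : (0 : ℝ) < 2 ^ J := by positivity
  rw [mem_Ico, le_div_iff₀ hJ, div_lt_iff₀ hJ, ← Int.cast_le (R := ℝ), ← Int.cast_lt (R := ℝ)]
  push_cast
  constructor <;> rintro ⟨h1, h2⟩ <;> constructor <;> linarith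

theorem supp_mem_iff {Q : Bx} {p : Cell} : p ∈ Q.cells ↔
    0 ≤ (Q.z p).1 ∧ (Q.z p).1 < 1 ∧ 0 ≤ (Q.z p).2 ∧ (Q.z p).2 < 1 := by
  rw [Bx.cells, mem_product, supp_ico, supp_ico, and_assoc]
  rfl

theorem z_mem {Q : Bx} {p : Cell} (hp : p ∈ Q.cells) :
    0 ≤ (Q.z p).1 ∧ (Q.z p).1 < 1 ∧ 0 ≤ (Q.z p).2 ∧ (Q.z p).2 < 1 := supp_mem_iff.1 hp

theorem supp_card {L : ℝ} (hL : 1 ≤ L) (x : ℝ) : L ≤ #(Icc ⌈x - L⌉ ⌊x + L⌋) := by
  have h1 := Int.ceil_lt_add_one (x - L)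
  have h2 := Int.lt_floor_add_one (x + L)
  have h3 : ((⌊x + L⌋ + 1 - ⌈x - L⌉ : ℤ) : ℝ) ≤ ((#(Icc ⌈x - L⌉ ⌊x + L⌋) : ℤ) : ℝ) := by
    rw [Int.card_Icc]
    exact_mod_cast Int.self_le_toNat _
  push_cast at h3
  linarith

theorem supp_mem_Icc {L x : ℝ} {u : ℤ} (h : u ∈ Icc ⌈x - L⌉ ⌊x + L⌋) : |u - x| ≤ L := by
  obtain ⟨h1, h2⟩ := mem_Icc.1 h
  rw [Int.ceil_le] at h1
  rw [Int.le_floor] at h2
  exact abs_le.2 ⟨by linarith, by linarith⟩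

theorem supp_close {J ρ o z u : ℝ} (hJ : 0 < J) (h : |u - (o + z * J)| ≤ ρ * J) :
    |(u - o) / J - z| ≤ ρ := by
  have e : (u - o) / J - z = (u - (o + z * J)) / J := by field_simp; ring
  rwa [e, abs_div, abs_of_pos hJ, div_le_iff₀ hJ]

theorem supp_le_cnt {α : Type} {S B : Finset α} {P : α → Prop} (h : ∀ a ∈ B, a ∈ S ∧ P a) :
    (#B : ℝ) ≤ cnt S P := by
  unfold cnt
  exact_mod_cast card_le_card fun a ha => mem_filter.2 (h a ha)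

/-- many cells are close to a given point -/
theorem fr_near (Q : Bx) {z : ℝ × ℝ} {ρ : ℝ} (hz : z ∈ Cen ρ) (hρ : 1 ≤ ρ * 2 ^ Q.j) :
    ρ ^ 2 ≤ Q.fr fun p => |(Q.z p).1 - z.1| ≤ ρ ∧ |(Q.z p).2 - z.2| ≤ ρ := by
  have hJ : (0 : ℝ) < 2 ^ Q.j := by positivity
  obtain ⟨⟨z1, z2⟩, z3, z4⟩ := hz
  have h1 := supp_card hρ (Q.o.1 + z.1 * 2 ^ Q.j)
  have h2 := supp_card hρ (Q.o.2 + z.2 * 2 ^ Q.j)
  have h3 := supp_le_cnt (S := Q.cells)
    (P := fun p => |(Q.z p).1 - z.1| ≤ ρ ∧ |(Q.z p).2 - z.2| ≤ ρ)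
    (B := Icc ⌈Q.o.1 + z.1 * 2 ^ Q.j - ρ * 2 ^ Q.j⌉ ⌊Q.o.1 + z.1 * 2 ^ Q.j + ρ * 2 ^ Q.j⌋ ×ˢ
      Icc ⌈Q.o.2 + z.2 * 2 ^ Q.j - ρ * 2 ^ Q.j⌉ ⌊Q.o.2 + z.2 * 2 ^ Q.j + ρ * 2 ^ Q.j⌋)
    fun p hp => by
      have a1 : |(Q.z p).1 - z.1| ≤ ρ := supp_close hJ (supp_mem_Icc (mem_product.1 hp).1)
      have a2 : |(Q.z p).2 - z.2| ≤ ρ := supp_close hJ (supp_mem_Icc (mem_product.1 hp).2)
      refine ⟨supp_mem_iff.2 ?_, a1, a2⟩
      obtain ⟨b1, b2⟩ := abs_le.1 a1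
      obtain ⟨b3, b4⟩ := abs_le.1 a2
      exact ⟨by linarith, by linarith, by linarith, by linarith⟩
  rw [card_product, Nat.cast_mul] at h3
  unfold Bx.fr
  rw [le_div_iff₀ (by positivity)]
  calc ρ ^ 2 * 4 ^ Q.j = ρ * 2 ^ Q.j * (ρ * 2 ^ Q.j) := by
        rw [show (4 : ℝ) = 2 * 2 by norm_num, mul_pow]; ring
    _ ≤ _ := le_trans (mul_le_mul h1 h2 (by linarith) (Nat.cast_nonneg _)) h3

/-- a good cell in the band of a line close to a given point -/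
theorem band_pick {ι : Type} {A : Arr ι} {Q : Bx} {a : ι} {l : ℕ} {Bad : Cell → Prop} {ρ : ℝ}
    {z : ℝ × ℝ} (hx : |A.x a| ≤ 11 / 10) (hz : z ∈ Cen (4 * ρ)) (hl : (2 : ℝ) ^ l ≤ ρ * 2 ^ Q.j)
    (ha : |A.hu Q a + A.x a * z.1 - z.2| ≤ ρ)
    (hc : cnt Q.cells (fun p => |A.ht p a| ≤ 2 ^ l ∧ Bad p) < ρ * 2 ^ Q.j * 2 ^ l) :
    ∃ p ∈ Q.cells, |A.ht p a| ≤ 2 ^ l ∧ ¬ Bad p ∧ |(Q.z p).1 - z.1| ≤ ρ ∧
      |(Q.z p).2 - z.2| ≤ 4 * ρ := by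
  have hJ : (0 : ℝ) < 2 ^ Q.j := by positivity
  have hw : (1 : ℝ) ≤ 2 ^ l := one_le_pow₀ (by norm_num)
  have hρ : 0 < ρ := (mul_pos_iff_of_pos_right hJ).1 (by linarith)
  obtain ⟨⟨z1, z2⟩, z3, z4⟩ := hz
  by_contra hn
  refine absurd hc (not_lt.2 ?_)
  set I := Icc ⌈Q.o.1 + z.1 * 2 ^ Q.j - ρ * 2 ^ Q.j⌉ ⌊Q.o.1 + z.1 * 2 ^ Q.j + ρ * 2 ^ Q.j⌋ with hI
  set R : ℤ → Finset ℤ := fun u => Icc ⌈A.s a + A.x a * u - 2 ^ l⌉ ⌊A.s a + A.x a * u + 2 ^ l⌋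
    with hR
  have h1 : ρ * 2 ^ Q.j ≤ #I := supp_card (hw.trans hl) _
  have h2 : (#I : ℝ) * 2 ^ l ≤
      #((I.sigma R).image fun x : (Σ _ : ℤ, ℤ) => ((x.1, x.2) : Cell)) := by
    rw [card_image_of_injective _ (by
      rintro ⟨u, v⟩ ⟨u', v'⟩ e
      obtain ⟨rfl, rfl⟩ := Prod.mk.inj e
      rfl), card_sigma, ← nsmul_eq_mul]
    push_cast
    exact card_nsmul_le_sum _ _ _ fun u _ => supp_card hw _
  refine le_trans (mul_le_mul_of_nonneg_right h1 (by positivity)) (h2.trans (supp_le_cnt ?_))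
  intro p hp
  obtain ⟨⟨u, v⟩, hx', rfl⟩ := mem_image.1 hp
  obtain ⟨hu, hv⟩ := mem_sigma.1 hx'
  have a1 : |(Q.z (u, v)).1 - z.1| ≤ ρ := supp_close hJ (supp_mem_Icc hu)
  have a2 : |A.ht (u, v) a| ≤ 2 ^ l := by
    rw [Arr.ht, abs_sub_comm]
    exact supp_mem_Icc hv
  have a3 : |A.hu Q a + A.x a * (Q.z (u, v)).1 - (Q.z (u, v)).2| ≤ ρ := by
    have := a2.trans hl
    rwa [ht_z A Q, abs_mul, abs_of_pos hJ, mul_comm, mul_le_mul_iff_left₀ hJ] at this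
  have a4 : |A.x a * ((Q.z (u, v)).1 - z.1)| ≤ 11 / 10 * ρ := by
    rw [abs_mul]
    exact mul_le_mul hx a1 (abs_nonneg _) (by norm_num)
  obtain ⟨b1, b2⟩ := abs_le.1 a1
  obtain ⟨b3, b4⟩ := abs_le.1 a3
  obtain ⟨b5, b6⟩ := abs_le.1 a4
  obtain ⟨b7, b8⟩ := abs_le.1 ha
  have a5 : |(Q.z (u, v)).2 - z.2| ≤ 4 * ρ := abs_le.2 ⟨by linarith, by linarith⟩
  obtain ⟨b9, b10⟩ := abs_le.1 a5
  have a6 : ((u, v) : Cell) ∈ Q.cells :=
    supp_mem_iff.2 ⟨by linarith, by linarith, by linarith, by linarith⟩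
  refine ⟨a6, a2, ?_⟩
  by_contra hb
  exact hn ⟨_, a6, a2, hb, a1, a5⟩

theorem supp_top {ι : Type} {A : Arr ι} (h : A.Ok) {Q : Bx} {l : ℕ} (hl : l ≤ Q.j) {θ : ℝ}
    (hθ : 0 ≤ θ) {P : Tri ι → Prop} (hP : Q.fr (fun p => ¬ cnt (A.TW p l) P ≤ θ * 4 ^ l) ≤ θ) :
    cnt (A.TB Q) P ≤ 34 * θ * 4 ^ Q.j := by
  have hw : (0 : ℝ) < 4 ^ l := by positivity
  have hJ : (0 : ℝ) < 4 ^ Q.j := by positivity
  have h1 : Q.avg (fun p => cnt (A.TW p l) P) ≤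
      Q.avg fun p => θ * 4 ^ l + 33 * 4 ^ l * ind (¬ cnt (A.TW p l) P ≤ θ * 4 ^ l) := by
    refine avg_mono fun p _ => ?_
    unfold ind
    split_ifs with hp
    · linarith
    · have := (cnt_le_card _ P).trans (h.card_TW p l)
      have : 0 ≤ θ * 4 ^ l := by positivity
      linarith
  rw [avg_add, avg_const, avg_mul, ← fr_eq_avg, Bx.avg, div_le_iff₀ hJ] at h1
  refine le_of_mul_le_mul_left ((dc_low hl P).trans (h1.trans ?_)) hw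
  calc _ ≤ (θ * 4 ^ l + 33 * 4 ^ l * θ) * 4 ^ Q.j := by gcongr
    _ = _ := by ring

variable {r : ℕ} {A : ℕ → Arr ℕ} {Q : ℕ → Bx} {β : Fin 3} {g : ℕ → ℕ → Fin (r + 2) → ℝ}

theorem Lb0.bdd_top (hV : Val A Q) (h : Lb0 A Q β g) {θ : ℝ} (hθ : 0 < θ) : ∃ c : ℝ, 1 ≤ c ∧
    ∀ᶠ n in UU, cnt ((A n).TB (Q n)) (fun t => ∃ i, c < ‖g n (t i)‖) ≤ θ * 4 ^ (Q n).j := by
  obtain ⟨c, hc⟩ := h.bdd (θ / 34) (by positivity)
  obtain ⟨l, hl⟩ := (hc (θ / 34) (by positivity)).exists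
  refine ⟨max c 1, le_max_right _ _, ?_⟩
  filter_upwards [hl, hV.big.eventually_ge_atTop l] with n h1 h2
  refine le_trans (cnt_mono fun t ht ⟨i, hi⟩ => ⟨ht, i, (le_max_left _ _).trans_lt hi⟩)
    ((supp_top (hV.ok n) h2 (by positivity) h1).trans (le_of_eq (by ring)))

theorem Lb0.rgp_top (hV : Val A Q) (h : Lb0 A Q β g) {η : ℝ} (hη : 0 < η) : ∃ C : ℝ, 0 < C ∧
    ∀ᶠ n in UU, ∀ (a : Fin (r + 2) → ℝ) (b : ℝ), 0 ≤ b →
      η * 4 ^ (Q n).j ≤ cnt ((A n).TB (Q n)) (fun t => |a ⬝ᵥ g n (t β)| ≤ b) → ‖a‖ ≤ C * b := by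
  obtain ⟨C, hC⟩ := h.rgp (η / 2) (by positivity)
  obtain ⟨l, hl⟩ := (hC (η / 140) (by positivity)).exists
  refine ⟨max C 1, by positivity, ?_⟩
  filter_upwards [hl, hV.big.eventually_ge_atTop l] with n h1 h2 a b hb hm
  by_contra hc
  have h3 := (hV.ok n).amplify_top h2 hη hm
  refine absurd (h3.trans (le_trans (fr_mono fun p _ hp => ?_) h1)) (by linarith)
  intro hq
  exact hc ((hq a b hb hp).trans (mul_le_mul_of_nonneg_right (le_max_left _ _) hb))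

theorem supp_cpt (i : Fin 3) {Z : Set (Fin (r + 2) → ℝ)} (hZ : IsCompact Z)
    (h : ∀ y ∈ Z, ¬ Supp A Q g i y) : ∀ κ : ℝ, 0 < κ → ∀ᶠ n in UU,
      cnt ((A n).TB (Q n)) (fun t => g n (t i) ∈ Z) ≤ κ * 4 ^ (Q n).j := by
  refine hZ.induction_on (p := fun Z => ∀ κ : ℝ, 0 < κ → ∀ᶠ n in UU,
    cnt ((A n).TB (Q n)) (fun t => g n (t i) ∈ Z) ≤ κ * 4 ^ (Q n).j) ?_ ?_ ?_ ?_
  · refine fun κ hκ => Eventually.of_forall fun n => ?_
    by_contra hc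
    obtain ⟨t, -, ht⟩ := exists_of_cnt_pos (lt_trans (by positivity) (not_le.1 hc))
    exact ht
  · intro s t hst ht κ hκ
    filter_upwards [ht κ hκ] with n hn
    exact (cnt_mono fun a ha hs => ⟨ha, hst hs⟩).trans hn
  · intro s t hs ht κ hκ
    filter_upwards [hs (κ / 2) (by positivity), ht (κ / 2) (by positivity)] with n h1 h2
    exact (cnt_or fun a _ ha => ha).trans (by linarith)
  · intro y hy
    have h1 := h y hy
    unfold Supp at h1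
    simp only [not_forall, not_exists, not_and] at h1
    obtain ⟨γ, hγ, h2⟩ := h1
    refine ⟨Metric.closedBall y γ, mem_nhdsWithin_of_mem_nhds (Metric.closedBall_mem_nhds y hγ),
      fun κ hκ => ?_⟩
    filter_upwards [UU_not (h2 κ hκ)] with n hn
    exact (cnt_mono fun a ha hs => ⟨ha, mem_closedBall_iff_norm.1 hs⟩).trans (not_le.1 hn).le

/-- most labels are close to the support -/
theorem Lb0.supp_most (hV : Val A Q) (h : Lb0 A Q β g) {γ θ : ℝ} (hγ : 0 < γ) (hθ : 0 < θ) :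
    ∀ᶠ n in UU, cnt ((A n).TB (Q n))
      (fun t => ∃ i, ¬ ∃ y, Supp A Q g i y ∧ ‖g n (t i) - y‖ ≤ γ) ≤ θ * 4 ^ (Q n).j := by
  obtain ⟨c, -, hc⟩ := h.bdd_top hV (θ := θ / 4) (by positivity)
  let Z : Fin 3 → Set (Fin (r + 2) → ℝ) := fun i =>
    Metric.closedBall 0 c ∩ ⋂ y ∈ {y | Supp A Q g i y}, (Metric.ball y γ)ᶜ
  have hZ : ∀ i, ∀ᶠ n in UU,
      cnt ((A n).TB (Q n)) (fun t => g n (t i) ∈ Z i) ≤ θ / 4 * 4 ^ (Q n).j := fun i =>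
    supp_cpt i ((isCompact_closedBall 0 c).inter_right
      (isClosed_biInter fun y _ => Metric.isOpen_ball.isClosed_compl))
      (fun y hy hs => Set.mem_iInter₂.1 hy.2 y hs (Metric.mem_ball_self hγ)) _ (by positivity)
  filter_upwards [hc, hZ 0, hZ 1, hZ 2] with n h0 h1 h2 h3
  have e1 := cnt_or (S := (A n).TB (Q n))
    (P := fun t => (∃ i, c < ‖g n (t i)‖) ∨ g n (t 0) ∈ Z 0) fun _ _ h => h
  have e2 := cnt_or (S := (A n).TB (Q n))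
    (P := fun t => g n (t 1) ∈ Z 1 ∨ g n (t 2) ∈ Z 2) fun _ _ h => h
  refine le_trans (cnt_or fun t _ ⟨i, hi⟩ => ?_) ((add_le_add e1 e2).trans (by linarith))
  by_cases hn : c < ‖g n (t i)‖
  · exact Or.inl (Or.inl ⟨i, hn⟩)
  have hm : g n (t i) ∈ Z i := ⟨mem_closedBall_zero_iff.2 (not_lt.1 hn),
    Set.mem_iInter₂.2 fun y hy hb => hi ⟨y, hy, (mem_ball_iff_norm.1 hb).le⟩⟩
  fin_cases i
  · exact Or.inl (Or.inr hm)
  · exact Or.inr (Or.inl hm)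
  · exact Or.inr (Or.inr hm)

theorem supp_dot {m : ℕ} (a y : Fin m → ℝ) : |a ⬝ᵥ y| ≤ (∑ e, |a e|) * ‖y‖ := by
  rw [sum_mul]
  refine (abs_sum_le_sum_abs _ _).trans (sum_le_sum fun e _ => ?_)
  rw [abs_mul]
  exact mul_le_mul_of_nonneg_left (norm_le_pi_norm y e) (abs_nonneg _)

theorem supp_ann (hV : Val A Q) (hD : Dens A Q) (h : Lb0 A Q β g) {a : Fin (r + 2) → ℝ}
    (ha : ∀ y, Supp A Q g β y → a ⬝ᵥ y = 0) : a = 0 := by
  obtain ⟨δ, hδ, hD⟩ := hD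
  obtain ⟨C, hC, h1⟩ := h.rgp_top hV (η := δ / 2) (by positivity)
  have hs : 0 ≤ ∑ e, |a e| := sum_nonneg fun _ _ => abs_nonneg _
  have key : ∀ γ : ℝ, 0 < γ → ‖a‖ ≤ C * ((∑ e, |a e|) * γ) := by
    intro γ hγ
    obtain ⟨n, h2, h3, h4⟩ :=
      (hD.and (h1.and (h.supp_most hV hγ (θ := δ / 2) (by positivity)))).exists
    refine h3 a _ (by positivity) ?_
    have h5 := cnt_add_not ((A n).TB (Q n))
      (fun t => ∃ i, ¬ ∃ y, Supp A Q g i y ∧ ‖g n (t i) - y‖ ≤ γ)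
    refine le_trans (by linarith) (cnt_mono (P := fun t =>
      ¬ ∃ i, ¬ ∃ y, Supp A Q g i y ∧ ‖g n (t i) - y‖ ≤ γ) fun t ht hP => ⟨ht, ?_⟩)
    obtain ⟨y, hy, hy'⟩ := not_not.1 (not_exists.1 hP β)
    calc |a ⬝ᵥ g n (t β)| = |a ⬝ᵥ (g n (t β) - y)| := by rw [dotProduct_sub, ha y hy, sub_zero]
      _ ≤ _ := (supp_dot _ _).trans (mul_le_mul_of_nonneg_left hy' hs)
  refine norm_le_zero_iff.1 (le_of_forall_pos_le_add fun ε hε => ?_)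
  have hp : 0 < C * ∑ e, |a e| + 1 := by positivity
  refine (key (ε / (C * ∑ e, |a e| + 1)) (by positivity)).trans ?_
  rw [zero_add, ← mul_assoc, ← mul_div_assoc, div_le_iff₀ hp]
  nlinarith

/-- the support of the class `β` spans -/
theorem Lb0.supp_span (hV : Val A Q) (hD : Dens A Q) (h : Lb0 A Q β g) : ∃ C : ℝ, 0 < C ∧
    ∃ y : Fin (r + 2) → Fin (r + 2) → ℝ, (∀ m, Supp A Q g β (y m)) ∧ (∀ v : Fin (r + 2) → ℝ,
      ∃ a : Fin (r + 2) → ℝ, ∀ m, a ⬝ᵥ y m = v m) ∧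
      ∀ (a : Fin (r + 2) → ℝ) (b : ℝ), (∀ m, |a ⬝ᵥ y m| ≤ b) → ‖a‖ ≤ C * b := by
  have hs : ⊤ ≤ Submodule.span ℝ {y | Supp A Q g β y} := by
    by_contra hc
    obtain ⟨φ, hφ, hk⟩ := Submodule.exists_le_ker_of_lt_top _ (lt_top_iff_ne_top.2
      fun e => hc e.ge)
    have e : ∀ y, φ y = (fun i => φ fun j => if i = j then 1 else 0) ⬝ᵥ y := fun y => by
      rw [LinearMap.pi_apply_eq_sum_univ φ y, dotProduct_comm]
      rfl
    have h0 := supp_ann hV hD h (a := fun i => φ fun j => if i = j then 1 else 0)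
      fun y hy => (e y).symm.trans (hk (Submodule.subset_span hy))
    exact hφ (LinearMap.ext fun y => by rw [e, h0, zero_dotProduct]; rfl)
  let B := (Module.Basis.ofSpan hs).reindex
    ((Module.Basis.ofSpan hs).indexEquiv (Pi.basisFun ℝ (Fin (r + 2))))
  have hB : ∀ m, Supp A Q g β (B m) := fun m =>
    Module.Basis.ofSpan_subset hs ⟨_, (Module.Basis.reindex_apply _ _ _).symm⟩
  let L : (Fin (r + 2) → ℝ) →ₗ[ℝ] Fin (r + 2) → ℝ := Matrix.mulVecLin (Matrix.of B)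
  have hL : ∀ a m, L a m = a ⬝ᵥ B m := fun a m => dotProduct_comm (B m) a
  have hk : LinearMap.ker L = ⊥ := by
    refine LinearMap.ker_eq_bot'.2 fun a ha => dotProduct_self_eq_zero.1 ?_
    conv_lhs => rhs; rw [← B.sum_repr a]
    rw [dotProduct_sum]
    refine sum_eq_zero fun m _ => ?_
    rw [dotProduct_smul, ← hL, ha, Pi.zero_apply, smul_zero]
  obtain ⟨K, hK, hA⟩ := L.exists_antilipschitzWith hk
  refine ⟨K, hK, B, hB, fun v => ?_, fun a b hb => ?_⟩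
  · obtain ⟨a, ha⟩ := LinearMap.injective_iff_surjective.1 (LinearMap.ker_eq_bot.1 hk) v
    exact ⟨a, fun m => by rw [← hL, ha]⟩
  · refine (ZeroHomClass.bound_of_antilipschitz L hA a).trans
      (mul_le_mul_of_nonneg_left ?_ K.coe_nonneg)
    refine (pi_norm_le_iff_of_nonneg ((abs_nonneg _).trans (hb 0))).2 fun m => ?_
    rw [hL]
    exact hb m

end Pool.Agent.MP_38296a_co.H21

end FileSupp

end

-- part MP_38296a_co.H21.Arch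
section

section FileArch1

/-!
Local norms of functionals in one window.
-/

set_option autoImplicit false

namespace Pool.Agent.MP_38296a_co.H21

open Finset Filter Classical

noncomputable section

variable {D : ℕ}

/-- the data in the window of a good cell -/
structure ArchLoc (A : Arr ℕ) (β : Fin 3) (z : ℕ → Fin D → KK) (cc : Tri ℕ → Fin 3 → KK)
    (v : AbsoluteValue KK ℝ) (l : ℕ) (η δ s : ℝ) (p : Cell) (ν : ℕ → KK) : Prop where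
  span : ∀ (i : Fin 3) (B : Set ℕ), η * 4 ^ l ≤ cnt (A.TW p l) (fun t => t i ∈ B) →
    ∀ t ∈ A.T, ∀ j, (j = i ∨ i = β) → z (t j) ∈ Submodule.span KK (z '' B)
  dens : δ * 4 ^ l ≤ #(A.TW p l)
  ne : ∀ a, ν a ≠ 0
  rat : ∀ t ∈ A.TW p l, ∀ i j, v (cc t i * ν (t i)) ≤ s * v (cc t j * ν (t j))
  rep : ∀ B ⊆ lines (A.TW p l), ∀ y ∈ lines (A.TW p l), z y ∈ Submodule.span KK (z '' (B : Set ℕ)) →
    ∃ σ : ℕ → KK, (∀ a ∈ B, v (σ a) ≤ s) ∧ (ν y)⁻¹ • z y = ∑ a ∈ B, σ a • (ν a)⁻¹ • z a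

/-- normalised value of a functional on a line -/
def archPh (v : AbsoluteValue KK ℝ) (z : ℕ → Fin D → KK) (ν : ℕ → KK)
    (f : Module.Dual KK (Fin D → KK)) (a : ℕ) : ℝ := v (f (z a)) / v (ν a)

/-- norm of a functional on a class of lines in a set of triples -/
def archNm (v : AbsoluteValue KK ℝ) (z : ℕ → Fin D → KK) (ν : ℕ → KK)
    (f : Module.Dual KK (Fin D → KK)) (W : Finset (Tri ℕ)) (i : Fin 3) : ℝ :=
  W.fold max 0 fun t => archPh v z ν f (t i)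

variable {A : Arr ℕ} {β : Fin 3} {z : ℕ → Fin D → KK} {cc : Tri ℕ → Fin 3 → KK}
  {v : AbsoluteValue KK ℝ} {l : ℕ} {η δ s : ℝ} {p : Cell} {ν : ℕ → KK}
  {f g : Module.Dual KK (Fin D → KK)} {W : Finset (Tri ℕ)} {i : Fin 3}

theorem arch_ph_nonneg (a : ℕ) : 0 ≤ archPh v z ν f a := div_nonneg (v.nonneg _) (v.nonneg _)

theorem arch_nm_nonneg : 0 ≤ archNm v z ν f W i := (le_fold_max _).2 (Or.inl le_rfl)

theorem arch_le_nm {t : Tri ℕ} (ht : t ∈ W) : archPh v z ν f (t i) ≤ archNm v z ν f W i :=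
  (le_fold_max _).2 (Or.inr ⟨t, ht, le_rfl⟩)

theorem arch_nm_le {b : ℝ} (hb : 0 ≤ b) (h : ∀ t ∈ W, archPh v z ν f (t i) ≤ b) :
    archNm v z ν f W i ≤ b := (fold_max_le _).2 ⟨hb, h⟩

theorem arch_ph_sub (μ : KK) (a : ℕ) :
    archPh v z ν (f - μ • g) a ≤ archPh v z ν f a + v μ * archPh v z ν g a := by
  unfold archPh
  rw [← mul_div_assoc, ← add_div, ← map_mul]
  exact div_le_div_of_nonneg_right (v.sub_le_add _ _) (v.nonneg _)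

theorem arch_nm_add (μ : KK) :
    archNm v z ν f W i ≤ archNm v z ν (f - μ • g) W i + v μ * archNm v z ν g W i :=
  arch_nm_le (add_nonneg arch_nm_nonneg (mul_nonneg (v.nonneg _) arch_nm_nonneg)) fun t ht => by
    have h1 := arch_ph_sub (v := v) (z := z) (ν := ν) (f := f - μ • g) (g := g) (-μ) (t i)
    rw [show f - μ • g - -μ • g = f from LinearMap.ext fun x => by simp, v.map_neg] at h1
    exact h1.trans (add_le_add (arch_le_nm ht)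
      (mul_le_mul_of_nonneg_left (arch_le_nm ht) (v.nonneg _)))

theorem arch_ph_mono (h : ∀ a, ν a ≠ 0) {a : ℕ} {τ : ℝ} :
    archPh v z ν f a ≤ τ * archPh v z ν g a ↔ v (f (z a)) ≤ τ * v (g (z a)) := by
  unfold archPh
  rw [← mul_div_assoc, div_le_div_iff_of_pos_right (v.pos (h a))]

/-- a popular set of lines controls the whole class -/
theorem ArchLoc.s0 (h : ArchLoc A β z cc v l η δ s p ν) (hA : A.Ok) (hs : 0 ≤ s) {B : Set ℕ}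
    (hB : η * 4 ^ l ≤ cnt (A.TW p l) fun t => t i ∈ B) {b : ℝ} (hb : 0 ≤ b)
    (hf : ∀ t ∈ A.TW p l, t i ∈ B → archPh v z ν f (t i) ≤ b) {t : Tri ℕ} (ht : t ∈ A.TW p l)
    {j : Fin 3} (hj : j = i ∨ i = β) : archPh v z ν f (t j) ≤ 33 * 4 ^ l * s * b := by
  obtain ⟨B', hB'⟩ : ∃ B' : Finset ℕ, B' = ((A.TW p l).filter fun t => t i ∈ B).image fun t => t i :=
    ⟨_, rfl⟩
  have h1 : ∀ a, a ∈ B' ↔ ∃ t ∈ A.TW p l, t i ∈ B ∧ t i = a := fun a => by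
    simp only [hB', mem_image, mem_filter, and_assoc]
  obtain ⟨σ, h2, h3⟩ := h.rep B' (fun a ha => by
      obtain ⟨u, a1, -, a2⟩ := (h1 a).1 ha
      exact mem_lines.2 ⟨u, a1, i, a2⟩) (t j) (mem_lines.2 ⟨t, ht, j, rfl⟩)
    (h.span i _ (hB.trans (cnt_mono fun u hu a => ⟨hu, (h1 _).2 ⟨u, hu, a, rfl⟩⟩)) t
      (TW_sub p l ht) j hj)
  have h4 : ∀ a, archPh v z ν f a = v (f ((ν a)⁻¹ • z a)) := fun a => by
    rw [map_smul, smul_eq_mul, map_mul, map_inv₀, archPh, div_eq_inv_mul]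
  have h5 : (#B' : ℝ) ≤ 33 * 4 ^ l := le_trans (by
    rw [hB']
    exact_mod_cast card_image_le.trans (card_filter_le _ _)) (hA.card_TW p l)
  rw [h4, h3, map_sum]
  refine (v.sum_le _ _).trans ((sum_le_card_nsmul _ _ (s * b) fun a ha => ?_).trans ?_)
  · obtain ⟨u, a1, a2, rfl⟩ := (h1 a).1 ha
    rw [map_smul, smul_eq_mul, map_mul, ← h4]
    exact mul_le_mul (h2 _ ha) (hf u a1 a2) (arch_ph_nonneg _) hs
  · rw [nsmul_eq_mul, mul_assoc]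
    exact mul_le_mul_of_nonneg_right h5 (mul_nonneg hs hb)

/-- few triples have a small value -/
theorem ArchLoc.s1 (h : ArchLoc A β z cc v l η δ s p ν) (hA : A.Ok) (hs : 0 ≤ s) {b : ℝ}
    (hb : 0 ≤ b) (hf : 33 * 4 ^ l * s * b < archNm v z ν f (A.TW p l) i) :
    cnt (A.TW p l) (fun t => archPh v z ν f (t i) ≤ b) < η * 4 ^ l := by
  by_contra hc
  exact hf.not_ge (arch_nm_le (by positivity) fun t ht => h.s0 hA hs
    (B := {a | archPh v z ν f a ≤ b}) (not_lt.1 hc) hb (fun _ _ a => a) ht (Or.inl rfl))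

theorem ArchLoc.full (h : ArchLoc A β z cc v l η δ s p ν) (hη : η ≤ δ) {B : Set ℕ}
    (hB : ∀ t ∈ A.TW p l, t i ∈ B) : η * 4 ^ l ≤ cnt (A.TW p l) fun t => t i ∈ B :=
  ((mul_le_mul_of_nonneg_right hη (by positivity)).trans h.dens).trans
    ((baseb_card_cnt _).trans_le (cnt_mono fun t ht _ => ⟨ht, hB t ht⟩))

theorem ArchLoc.s2 (h : ArchLoc A β z cc v l η δ s p ν) (hA : A.Ok) (hs : 0 ≤ s) (hη : η ≤ δ)
    {t : Tri ℕ} (ht : t ∈ A.TW p l) (j : Fin 3) :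
    archPh v z ν f (t j) ≤ 33 * 4 ^ l * s * archNm v z ν f (A.TW p l) β :=
  h.s0 hA hs (B := Set.univ) (h.full hη fun _ _ => trivial) arch_nm_nonneg
    (fun _ a _ => arch_le_nm a) ht (Or.inr rfl)

theorem ArchLoc.s3 (h : ArchLoc A β z cc v l η δ s p ν) (hη : η ≤ δ) {t : Tri ℕ} (ht : t ∈ A.T)
    (j : Fin 3) : ∃ Γ : ℝ, 0 < Γ ∧ ∀ f : Module.Dual KK (Fin D → KK),
      v (f (z (t j))) ≤ Γ * archNm v z ν f (A.TW p l) β := by
  have h1 := h.span β {a | ∃ u ∈ A.TW p l, u β = a} (h.full hη fun u hu => ⟨u, hu, rfl⟩) t ht j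
    (Or.inr rfl)
  generalize z (t j) = y at h1
  induction h1 using Submodule.span_induction with
  | mem y hy =>
    obtain ⟨_, ⟨u, hu, rfl⟩, rfl⟩ := hy
    exact ⟨_, v.pos (h.ne (u β)), fun f => (div_le_iff₀' (v.pos (h.ne _))).1 (arch_le_nm hu)⟩
  | zero => exact ⟨1, one_pos, fun f => by simpa using arch_nm_nonneg⟩
  | add x y _ _ hx hy =>
    obtain ⟨a, a1, a2⟩ := hx
    obtain ⟨b, b1, b2⟩ := hy
    refine ⟨a + b, add_pos a1 b1, fun f => ?_⟩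
    rw [map_add, add_mul]
    exact (v.add_le _ _).trans (add_le_add (a2 f) (b2 f))
  | smul c x _ hx =>
    obtain ⟨a, a1, a2⟩ := hx
    have h2 := v.nonneg c
    refine ⟨(v c + 1) * a, by positivity, fun f => ?_⟩
    rw [map_smul, smul_eq_mul, map_mul, mul_assoc]
    exact mul_le_mul (by linarith) (a2 f) (v.nonneg _) (by linarith)

/-- the colouring of the lines which describes the ratio of two norms -/
theorem ArchLoc.col (h : ArchLoc A β z cc v l η δ s p ν) (hA : A.Ok) (hs : 0 < s)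
    (hg : 0 < archNm v z ν g (A.TW p l) β) {τ : ℝ} (hτ : 0 < τ) :
    (2 * (33 * 4 ^ l * s) * (archNm v z ν f (A.TW p l) β / archNm v z ν g (A.TW p l) β) ≤ τ →
      cnt (A.TW p l) (fun t => t β ∉ {a | v (f (z a)) ≤ τ * v (g (z a))}) < η * 4 ^ l) ∧
    (2 * (33 * 4 ^ l * s) * τ < archNm v z ν f (A.TW p l) β / archNm v z ν g (A.TW p l) β →
      cnt (A.TW p l) (fun t => t β ∈ {a | v (f (z a)) ≤ τ * v (g (z a))}) < η * 4 ^ l) := by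
  obtain ⟨c, hc⟩ : ∃ c, c = 33 * 4 ^ l * s := ⟨_, rfl⟩
  have hc0 : 0 < c := by rw [hc]; positivity
  rw [← hc]
  refine ⟨fun h1 => lt_of_le_of_lt (cnt_mono fun t ht a => ⟨ht, ?_⟩) (h.s1 hA hs.le (f := g) (i := β)
    (b := archNm v z ν g (A.TW p l) β / (2 * c)) (by positivity) ?_), fun h1 => lt_of_le_of_lt
      (cnt_mono fun t ht a => ⟨ht, ?_⟩) (h.s1 hA hs.le (f := f) (i := β)
        (b := τ * archNm v z ν g (A.TW p l) β) (by positivity) ?_)⟩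
  · have h2 := (not_le.1 fun e => a ((arch_ph_mono h.ne).1 e)).le.trans (arch_le_nm ht)
    rw [← mul_div_assoc, div_le_iff₀ hg] at h1
    rw [le_div_iff₀ (by positivity)]
    refine le_of_mul_le_mul_left ?_ hτ
    linarith [mul_le_mul_of_nonneg_left h2 (show 0 ≤ 2 * c by positivity)]
  · rw [← hc, mul_div_assoc', div_lt_iff₀ (by positivity)]
    linarith [mul_pos hc0 hg]
  · exact ((arch_ph_mono h.ne).2 a).trans (mul_le_mul_of_nonneg_left (arch_le_nm ht) hτ.le)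
  · rw [lt_div_iff₀ hg] at h1
    rw [← hc]
    linarith [mul_pos hc0 (mul_pos hτ hg)]

/-- transfer along a triple whose third line is killed -/
theorem ArchLoc.rel (h : ArchLoc A β z cc v l η δ s p ν) {t : Tri ℕ} (ht : t ∈ A.TW p l)
    (h1 : ∑ i, cc t i • z (t i) = 0) (h2 : ∀ i, cc t i ≠ 0) {i j k : Fin 3} (hij : i ≠ j)
    (hk : ∀ m, m ≠ i → m ≠ j → m = k) (hf : f (z (t k)) = 0) :
    archPh v z ν f (t j) ≤ s * archPh v z ν f (t i) := by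
  have h3 := congrArg f h1
  rw [map_sum, map_zero, sum_eq_add i j hij (fun m _ hm => by
    rw [hk m hm.1 hm.2, map_smul, hf, smul_zero]) (by simp) (by simp), map_smul, map_smul,
    smul_eq_mul, smul_eq_mul, add_eq_zero_iff_neg_eq] at h3
  have h4 := congrArg v h3
  rw [v.map_neg, map_mul, map_mul] at h4
  have h5 := h.rat t ht i j
  rw [map_mul, map_mul] at h5
  have a1 := v.pos (h.ne (t i))
  have a2 := v.pos (h.ne (t j))
  unfold archPh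
  rw [← mul_div_assoc, div_le_div_iff₀ a2 a1]
  refine le_of_mul_le_mul_left ?_ (v.pos (h2 j))
  nlinarith [mul_le_mul_of_nonneg_left h5 (v.nonneg (f (z (t i))))]

theorem arch_ex {Q : Bx} {P : Cell → Prop} (h : 0 < Q.fr P) : ∃ p ∈ Q.cells, P p :=
  exists_of_cnt_pos ((div_pos_iff_of_pos_right (by positivity)).1 h)

/-- a median value -/
theorem arch_med (Q : Bx) {G : Cell → Prop} (ρ : Cell → ℝ) (h : 1 / 2 ≤ Q.fr G) :
    ∃ p₀, 1 / 2 ≤ Q.fr (fun p => G p ∧ ρ p ≤ ρ p₀) ∧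
      ∀ b, 1 / 2 ≤ Q.fr (fun p => G p ∧ ρ p ≤ b) → ρ p₀ ≤ b := by
  have key : ∀ P : Cell → Prop, 1 / 2 ≤ Q.fr (fun p => G p ∧ P p) →
      ∃ q ∈ Q.cells.filter fun q => 1 / 2 ≤ Q.fr fun p => G p ∧ ρ p ≤ ρ q, P q := fun P hP => by
    obtain ⟨q, q1, q2⟩ := arch_ex (hP.trans_lt' (by norm_num))
    obtain ⟨r, r1, r2⟩ := (Q.cells.filter P).exists_max_image ρ ⟨q, mem_filter.2 ⟨q1, q2.2⟩⟩
    exact ⟨r, mem_filter.2 ⟨(mem_filter.1 r1).1, hP.trans (fr_mono fun p a b =>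
      ⟨b.1, r2 p (mem_filter.2 ⟨a, b.2⟩)⟩)⟩, (mem_filter.1 r1).2⟩
  obtain ⟨q, hq, -⟩ := key (fun _ => True) (by simpa using h)
  obtain ⟨r, r1, r2⟩ := exists_min_image _ ρ ⟨q, hq⟩
  refine ⟨r, (mem_filter.1 r1).2, fun b hb => ?_⟩
  obtain ⟨q, q1, q2⟩ := key _ hb
  exact (r2 q q1).trans q2

/-- many heavy lines of the class `β` meet one line of the class `k` -/
theorem arch_pig {T : Finset (Tri ℕ)} (hT : Lin T) {P : Tri ℕ → Prop} {k : Fin 3} (hk : k ≠ β)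
    {L a : ℝ} (ha : 0 < a) (hL : (#(lines T) : ℝ) ≤ L) (hP : 2 * (L * a) < cnt T P) :
    ∃ (y : ℕ) (B : Set ℕ), (∀ b ∈ B, ∃ t ∈ T, P t ∧ t k = y ∧ t β = b) ∧
      a * a ≤ cnt T fun t => t β ∈ B := by
  obtain ⟨H, hH⟩ : ∃ H : ℕ → Prop, ∀ b, H b ↔ a ≤ cnt T fun t => t β = b := ⟨_, fun _ => Iff.rfl⟩
  have h0 : ∀ (R : Tri ℕ → Prop) (m : Fin 3), (∀ y, cnt T (fun t => R t ∧ t m = y) ≤ a) →
      cnt T R ≤ L * a := fun R m hR =>
    (baseb_cnt_sum (lines T) (fun y t => R t ∧ t m = y) fun t ht r =>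
      ⟨_, mem_lines.2 ⟨t, ht, m, rfl⟩, r, rfl⟩).trans ((sum_le_card_nsmul _ _ a fun y _ => hR y).trans
        (by rw [nsmul_eq_mul]; exact mul_le_mul_of_nonneg_right hL ha.le))
  have h1 := h0 (fun t => ¬H (t β)) β fun y => by
    by_cases hy : H y
    · rw [baseb_cnt_zero fun t _ e => e.1 (e.2 ▸ hy)]
      exact ha.le
    · exact (cnt_mono fun t ht e => ⟨ht, e.2⟩).trans (not_le.1 (mt (hH y).2 hy)).le
  have h2 := cnt_or (S := T) (P := P) (P1 := fun t => P t ∧ H (t β)) (P2 := fun t => ¬H (t β))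
    fun t _ e => by tauto
  obtain ⟨y, hy⟩ := not_forall.1 fun e => (h0 (fun t => P t ∧ H (t β)) k e).not_gt (by linarith)
  obtain ⟨B, hB⟩ : ∃ B : Finset ℕ, B = (T.filter fun t => (P t ∧ H (t β)) ∧ t k = y).image
    fun t => t β := ⟨_, rfl⟩
  have h3 : ∀ b, b ∈ B ↔ ∃ t ∈ T, ((P t ∧ H (t β)) ∧ t k = y) ∧ t β = b := fun b => by
    simp only [hB, mem_image, mem_filter, and_assoc]
  have h4 : a ≤ #B := (not_le.1 hy).le.trans (baseb_cnt_inj (fun t => t β)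
    (fun t ht e => (h3 _).2 ⟨t, ht, e, rfl⟩)
    fun t ht e u hu e' e'' => hT t ht u hu k β hk (e.2.trans e'.2.symm) e'')
  refine ⟨y, B, fun b hb => ?_, ?_⟩
  · obtain ⟨t, a1, a2, a3⟩ := (h3 b).1 hb
    exact ⟨t, a1, a2.1.1, a2.2, a3⟩
  · have h5 : ∑ b ∈ B, cnt T (fun t => t β = b) = cnt T fun t => t β ∈ (B : Set ℕ) := by
      rw [baseb_swap, cnt_eq_sum]
      refine sum_congr rfl fun t _ => ?_
      rw [cnt_eq_sum]
      by_cases e : t β ∈ B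
      · rw [baseb_ind_pos (P := t β ∈ (B : Set ℕ)) e, sum_eq_single_of_mem _ e
          fun b _ hb => baseb_ind_neg hb.symm, baseb_ind_pos rfl]
      · rw [baseb_ind_neg (P := t β ∈ (B : Set ℕ)) e]
        exact sum_eq_zero fun b hb => baseb_ind_neg fun e' => e (e' ▸ hb)
    rw [← h5]
    refine le_trans ?_ (card_nsmul_le_sum B _ a fun b hb => ?_)
    · rw [nsmul_eq_mul]
      exact mul_le_mul_of_nonneg_right h4 ha.le
    · obtain ⟨t, -, a2, rfl⟩ := (h3 b).1 hb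
      exact (hH _).1 a2.1.2

end

end Pool.Agent.MP_38296a_co.H21

end FileArch1

section FileArch2

/-!
Approximate norms of the lines in one arrangement.
-/

set_option autoImplicit false

namespace Pool.Agent.MP_38296a_co.H21

open Finset Filter Classical

noncomputable section

variable {D : ℕ}

/-- the data in one box -/
structure ArchCtx (A : Arr ℕ) (Q : Bx) (β : Fin 3) (z : ℕ → Fin D → KK) (cc : Tri ℕ → Fin 3 → KK)
    (v : AbsoluteValue KK ℝ) (l : ℕ) (η δ s κ C : ℝ) (bad : Cell → Prop) (ν : Cell → ℕ → KK) :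
    Prop where
  ok : A.Ok
  lj : l ≤ Q.j
  s1 : 1 ≤ s
  C1 : 1 ≤ C
  k0 : 0 < κ
  k1 : κ ≤ 1 / 10
  e0 : 0 < η
  ed : η ≤ δ / 2
  loc : ∀ p, ¬ bad p → ArchLoc A β z cc v l η δ s p (ν p)
  few : Q.fr bad ≤ κ
  rel : ∀ t ∈ A.T, ∑ i, cc t i • z (t i) = 0 ∧ ∀ i, cc t i ≠ 0 ∧ z (t i) ≠ 0
  geo : ∀ a ∈ lines A.T, ∀ b ∈ lines A.T, ∀ c : KK, z a = c • z b → A.x a = A.x b ∧ A.s a = A.s b
  t1 : ∀ (ρ : Cell → ℝ) (b : ℝ), 0 ≤ b →
    (∀ τ : ℝ, 0 < τ → ∃ R : Set ℕ, ∀ p ∈ Q.cells, ¬ bad p →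
      (2 * (33 * 4 ^ l * s) * ρ p ≤ τ → cnt (A.TW p l) (fun t => t β ∉ R) < η * 4 ^ l) ∧
      (2 * (33 * 4 ^ l * s) * τ < ρ p → cnt (A.TW p l) (fun t => t β ∈ R) < η * 4 ^ l)) →
    κ ≤ Q.fr (fun p => ¬ bad p ∧ ρ p ≤ b) → Q.fr (fun p => ¬ bad p ∧ C * b < ρ p) ≤ κ

variable {A : Arr ℕ} {Q : Bx} {β : Fin 3} {z : ℕ → Fin D → KK} {cc : Tri ℕ → Fin 3 → KK}
  {v : AbsoluteValue KK ℝ} {l : ℕ} {η δ s κ C : ℝ} {bad : Cell → Prop} {ν : Cell → ℕ → KK}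

theorem ArchCtx.ed' (H : ArchCtx A Q β z cc v l η δ s κ C bad ν) : η ≤ δ := by
  linarith [H.ed, H.e0]

/-- two functionals which behave like an orthogonal basis -/
theorem ArchCtx.pair (H : ArchCtx A Q β z cc v l η δ s κ C bad ν) :
    ∃ (h g : Module.Dual KK (Fin D → KK)) (M : ℝ), 0 < M ∧
      (∀ p, ¬ bad p → 0 < archNm v z (ν p) h (A.TW p l) β) ∧
      Q.fr (fun p => ¬ bad p ∧
        C * M < archNm v z (ν p) g (A.TW p l) β / archNm v z (ν p) h (A.TW p l) β) ≤ κ ∧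
      ∀ y : Fin D → KK, ∃ (f : Module.Dual KK (Fin D → KK)) (ω : ℝ), 0 < ω ∧ f y = 0 ∧
        (∀ p a e, 0 ≤ e → archPh v z (ν p) h a ≤ e → archPh v z (ν p) g a ≤ M * e →
          archPh v z (ν p) f a ≤ 3 * C * ω * e) ∧
        ∀ b, 0 ≤ b → 2 * κ ≤ Q.fr (fun p => ¬ bad p ∧
          archNm v z (ν p) f (A.TW p l) β / archNm v z (ν p) h (A.TW p l) β ≤ b) →
          ω ≤ 2 * C * b := by
  have hk0 := H.k0
  have hk1 := H.k1
  have hC := H.C1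
  have hgood : 1 - κ ≤ Q.fr fun p => ¬ bad p := by linarith [fr_add_not Q bad, H.few]
  obtain ⟨p₀, -, hp₀⟩ := arch_ex (hgood.trans_lt' (by linarith))
  obtain ⟨t₀, ht₀⟩ : (A.TW p₀ l).Nonempty := card_pos.1 (by
    have := (H.loc p₀ hp₀).dens.trans_lt' (mul_pos (H.e0.trans_le H.ed') (by positivity))
    exact_mod_cast this)
  have ht := TW_sub p₀ l ht₀
  obtain ⟨h, h0, h1⟩ := Submodule.exists_dual_map_eq_bot_of_notMem
    (p := Submodule.span KK {z (t₀ 1)}) (x := z (t₀ 0)) (fun e => by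
      obtain ⟨c, hc⟩ := Submodule.mem_span_singleton.1 e
      exact absurd (baseb_cls H.ok ht ht (H.geo _ (mem_lines.2 ⟨t₀, ht, 0, rfl⟩) _
        (mem_lines.2 ⟨t₀, ht, 1, rfl⟩) c hc.symm).1) (by decide)) inferInstance
  have h2 : h (z (t₀ 1)) = 0 :=
    (Submodule.eq_bot_iff _).1 h1 _ (Submodule.mem_map_of_mem (Submodule.mem_span_singleton_self _))
  obtain ⟨k, hk⟩ := Function.ne_iff.1 ((H.rel t₀ ht).2 1).2
  obtain ⟨g₀, hg₀⟩ : ∃ g₀ : Module.Dual KK (Fin D → KK), g₀ (z (t₀ 1)) ≠ 0 :=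
    ⟨LinearMap.proj k, hk⟩
  have hpos : ∀ p, ¬ bad p → 0 < archNm v z (ν p) h (A.TW p l) β := fun p hp => by
    obtain ⟨Γ, a1, a2⟩ := (H.loc p hp).s3 H.ed' ht 0
    exact (mul_pos_iff_of_pos_left a1).1 ((v.pos h0).trans_le (a2 h))
  obtain ⟨ρ, hρ⟩ : ∃ ρ : Module.Dual KK (Fin D → KK) → Cell → ℝ, ∀ f p,
    ρ f p = archNm v z (ν p) f (A.TW p l) β / archNm v z (ν p) h (A.TW p l) β := ⟨_, fun _ _ => rfl⟩
  have hρ0 : ∀ f p, 0 ≤ ρ f p := fun f p => hρ f p ▸ div_nonneg arch_nm_nonneg arch_nm_nonneg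
  have t1 : ∀ f b, 0 ≤ b → κ ≤ Q.fr (fun p => ¬ bad p ∧ ρ f p ≤ b) →
      Q.fr (fun p => ¬ bad p ∧ C * b < ρ f p) ≤ κ := fun f b hb =>
    H.t1 (ρ f) b hb fun τ hτ => ⟨_, fun p _ hp => hρ f p ▸
      (H.loc p hp).col H.ok (one_pos.trans_le H.s1) (hpos p hp) hτ⟩
  choose P m1 m2 using fun f => arch_med Q (ρ f) (hgood.trans' (by linarith))
  have mb : ∀ f b, 0 ≤ b → κ ≤ Q.fr (fun p => ¬ bad p ∧ ρ f p ≤ b) → ρ f (P f) ≤ C * b :=
    fun f b hb a => m2 f _ (by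
      have := fr_or (Q := Q) (P := fun p => ¬ bad p) (P1 := fun p => ¬ bad p ∧ ρ f p ≤ C * b)
        (P2 := fun p => ¬ bad p ∧ C * b < ρ f p) fun p _ hp => (le_or_gt _ _).imp (⟨hp, ·⟩) (⟨hp, ·⟩)
      linarith [t1 f b hb a])
  obtain ⟨I, hI, hI'⟩ : ∃ I : ℝ, 0 < I ∧ ∀ μ : KK, I ≤ ρ (g₀ - μ • h) (P (g₀ - μ • h)) := by
    have a1 : ∀ p, ∃ I : ℝ, 0 < I ∧ (¬ bad p → ∀ μ : KK, I ≤ ρ (g₀ - μ • h) p) := fun p => by
      by_cases hp : bad p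
      · exact ⟨1, one_pos, fun e => absurd hp e⟩
      obtain ⟨Γ, a1, a2⟩ := (H.loc p hp).s3 H.ed' ht 1
      refine ⟨v (g₀ (z (t₀ 1))) / Γ / archNm v z (ν p) h (A.TW p l) β,
        div_pos (div_pos (v.pos hg₀) a1) (hpos p hp), fun _ μ => ?_⟩
      rw [hρ]
      refine div_le_div_of_nonneg_right ((div_le_iff₀' a1).2 ?_) (hpos p hp).le
      simpa [h2] using a2 (g₀ - μ • h)
    choose I a2 a3 using a1
    obtain ⟨q, -, hq⟩ := exists_min_image Q.cells I ⟨_, mem_cells.2 (show anc Q.j Q.o = Q by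
      ext <;> simp [anc, Bx.o])⟩
    refine ⟨I q, a2 q, fun μ => ?_⟩
    obtain ⟨p, p1, p2, p3⟩ := arch_ex ((m1 (g₀ - μ • h)).trans_lt' (by norm_num))
    exact ((hq p p1).trans (a3 p p2 μ)).trans p3
  obtain ⟨μ₀, hμ₀⟩ : ∃ μ₀ : KK, ∀ μ : KK,
      ρ (g₀ - μ₀ • h) (P (g₀ - μ₀ • h)) ≤ 2 * ρ (g₀ - μ • h) (P (g₀ - μ • h)) := by
    have a1 : BddBelow (Set.range fun μ : KK => ρ (g₀ - μ • h) (P (g₀ - μ • h))) :=
      ⟨I, by rintro _ ⟨μ, rfl⟩; exact hI' μ⟩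
    have a2 := le_ciInf hI'
    obtain ⟨μ₀, a3⟩ := exists_lt_of_ciInf_lt (lt_two_mul_self (hI.trans_le a2))
    exact ⟨μ₀, fun μ => by linarith [ciInf_le a1 μ]⟩
  obtain ⟨g, hg⟩ : ∃ g, g = g₀ - μ₀ • h := ⟨_, rfl⟩
  have hM : 0 < ρ g (P g) := hg ▸ hI.trans_le (hI' μ₀)
  have hG := t1 g _ hM.le ((m1 g).trans' (by linarith))
  have hB : ∀ (μ : KK) b, 0 ≤ b → κ ≤ Q.fr (fun p => ¬ bad p ∧ ρ (g - μ • h) p ≤ b) →
      ρ g (P g) ≤ 2 * C * b := fun μ b hb a => by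
    have a1 := mb _ b hb a
    have a2 := hμ₀ (μ₀ + μ)
    rw [← hg, show g₀ - (μ₀ + μ) • h = g - μ • h from LinearMap.ext fun x => by
      simp only [hg, LinearMap.sub_apply, LinearMap.smul_apply, smul_eq_mul]; ring] at a2
    linarith
  generalize ρ g (P g) = M at hM hG hB
  refine ⟨h, g, M, hM, hpos, by simpa only [hρ] using hG, fun y => ?_⟩
  simp only [← hρ]
  by_cases hc : h y ≠ 0 ∧ v (g y) ≤ 2 * C * M * v (h y)
  · refine ⟨g - (g y / h y) • h, M, hM, by simp [hc.1], fun p a e he a1 a2 => ?_,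
      fun b hb a => hB _ b hb (a.trans' (by linarith))⟩
    have a3 : v (g y / h y) ≤ 2 * C * M := by
      rw [map_div₀, div_le_iff₀ (v.pos hc.1)]
      exact hc.2
    have a4 := mul_le_mul a3 a1 (arch_ph_nonneg _) (by positivity)
    nlinarith [arch_ph_sub (v := v) (z := z) (ν := ν p) (f := g) (g := h) (g y / h y) a,
      mul_nonneg hM.le he]
  · have a3 : v (h y / g y) * (2 * C * M) ≤ 1 ∧ h y - h y / g y * g y = 0 := by
      by_cases e : h y = 0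
      · simp [e]
      have a4 := not_le.1 fun e' => hc ⟨e, e'⟩
      have a5 : 0 < v (g y) := a4.trans_le' (mul_nonneg (by positivity) (v.nonneg _))
      refine ⟨?_, by rw [div_mul_cancel₀ _ (v.pos_iff.1 a5), sub_self]⟩
      rw [map_div₀, div_mul_eq_mul_div, div_le_one a5]
      linarith
    have a0 := v.nonneg (h y / g y)
    refine ⟨h - (h y / g y) • g, 1, one_pos, by simpa using a3.2, fun p a e he a1 a2 => ?_,
      fun b hb a => ?_⟩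
    · have a4 := mul_le_mul_of_nonneg_left a2 a0
      have a5 : v (h y / g y) * M ≤ 1 := by nlinarith [mul_nonneg a0 hM.le, a3.1]
      nlinarith [arch_ph_sub (v := v) (z := z) (ν := ν p) (f := h) (g := g) (h y / g y) a,
        mul_le_mul_of_nonneg_right a5 he]
    · have a4 := fr_or (Q := Q) (P := fun p => ¬ bad p ∧ ρ (h - (h y / g y) • g) p ≤ b)
        (P1 := fun p => ¬ bad p ∧ C * M < ρ g p)
        (P2 := fun p => ¬ bad p ∧ ρ (h - (h y / g y) • g) p ≤ b ∧ ρ g p ≤ C * M)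
        fun p _ hp => (lt_or_ge _ _).imp (⟨hp.1, ·⟩) (⟨hp.1, hp.2, ·⟩)
      obtain ⟨p, -, p1, p2, p3⟩ := arch_ex (Q := Q) (P := fun p => ¬ bad p ∧
        ρ (h - (h y / g y) • g) p ≤ b ∧ ρ g p ≤ C * M) (by linarith)
      have a5 := div_le_div_of_nonneg_right (arch_nm_add (v := v) (z := z) (ν := ν p) (f := h)
        (g := g) (W := A.TW p l) (i := β) (h y / g y)) (hpos p p1).le
      rw [div_self (hpos p p1).ne', add_div, mul_div_assoc, ← hρ, ← hρ] at a5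
      nlinarith [mul_le_mul_of_nonneg_left p3 a0, a3.1]

/-- few windows are degenerate -/
theorem ArchCtx.deg (H : ArchCtx A Q β z cc v l η δ s κ C bad ν)
    {h g : Module.Dual KK (Fin D → KK)} {M K κ₀ ε : ℝ} (hK : 0 < K) (hκ₀ : 0 < κ₀)
    (hpos : ∀ p, ¬ bad p → 0 < archNm v z (ν p) h (A.TW p l) β)
    (hf : ∀ y : Fin D → KK, ∃ (f : Module.Dual KK (Fin D → KK)) (ω : ℝ), 0 < ω ∧ f y = 0 ∧
        (∀ p a e, 0 ≤ e → archPh v z (ν p) h a ≤ e → archPh v z (ν p) g a ≤ M * e →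
          archPh v z (ν p) f a ≤ 3 * C * ω * e) ∧
        ∀ b, 0 ≤ b → 2 * κ ≤ Q.fr (fun p => ¬ bad p ∧
          archNm v z (ν p) f (A.TW p l) β / archNm v z (ν p) h (A.TW p l) β ≤ b) →
          ω ≤ 2 * C * b)
    (hL : (#(lines (A.TB Q)) : ℝ) ≤ K * 2 ^ Q.j) (hb : 32 * 2 ^ l / 2 ^ Q.j ≤ κ₀ * δ / 200)
    (h1 : κ ≤ (κ₀ * δ / (200 * K)) ^ 2 / 210) (h2 : η ≤ (κ₀ * δ / (200 * K)) ^ 2 / 2)
    (he : 0 < ε) (he' : 12 * C ^ 2 * (33 * 4 ^ l * s) ^ 2 * s * ε < 1) (i : Fin 3) :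
    Q.fr (fun p => ¬ bad p ∧
      archNm v z (ν p) h (A.TW p l) i ≤ ε * archNm v z (ν p) h (A.TW p l) β ∧
      archNm v z (ν p) g (A.TW p l) i ≤ M * (ε * archNm v z (ν p) h (A.TW p l) β)) ≤ κ₀ := by
  by_contra hc
  rw [not_le] at hc
  have hs := H.s1
  have hC := H.C1
  have hδ : 0 < δ := H.e0.trans_le H.ed'
  obtain ⟨c, hcc⟩ : ∃ c, c = 33 * 4 ^ l * s := ⟨_, rfl⟩
  have hc1 : 1 ≤ c := by
    rw [hcc]
    nlinarith [one_le_pow₀ (M₀ := ℝ) (a := 4) (n := l) (by norm_num)]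
  rw [← hcc] at he'
  rcases eq_or_ne i β with rfl | hi
  · obtain ⟨p, -, p1, p2, -⟩ := arch_ex (hκ₀.trans hc)
    have a1 : 1 ≤ C ^ 2 * c ^ 2 * s := one_le_mul_of_one_le_of_one_le
      (one_le_mul_of_one_le_of_one_le (one_le_pow₀ hC) (one_le_pow₀ hc1)) hs
    nlinarith [hpos p p1, mul_le_mul_of_nonneg_right a1 he.le]
  obtain ⟨k, k1, k2⟩ := (by decide : ∀ i β : Fin 3, i ≠ β →
    ∃ k : Fin 3, k ≠ β ∧ ∀ m, m ≠ i → m ≠ β → m = k) i β hi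
  obtain ⟨U, hU⟩ : ∃ U : Cell → Prop, ∀ p, U p ↔ ¬ bad p ∧
      archNm v z (ν p) h (A.TW p l) i ≤ ε * archNm v z (ν p) h (A.TW p l) β ∧
      archNm v z (ν p) g (A.TW p l) i ≤ M * (ε * archNm v z (ν p) h (A.TW p l) β) :=
    ⟨_, fun _ => Iff.rfl⟩
  simp only [← hU] at hc
  obtain ⟨P, hP⟩ : ∃ P : Tri ℕ → Prop, ∀ t, P t ↔ ∃ p, U p ∧ t ∈ A.TW p l ∧
      archNm v z (ν p) h (A.TW p l) β / (2 * c) < archPh v z (ν p) h (t β) := ⟨_, fun _ => Iff.rfl⟩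
  have hJ : (0 : ℝ) < 2 ^ Q.j := by positivity
  have h4 : (4 : ℝ) ^ Q.j = 2 ^ Q.j * 2 ^ Q.j := by rw [← mul_pow]; norm_num
  have a1 : cnt Q.cells U * (δ / 2 * 4 ^ l) ≤ ∑ p ∈ Q.cells, cnt (A.TW p l) P := by
    rw [cnt_eq_sum, sum_mul]
    refine sum_le_sum fun p _ => ?_
    by_cases hp : U p
    · have b0 := ((hU p).1 hp).1
      have b1 := (H.loc p b0).s1 H.ok (by linarith) (f := h) (i := β)
        (b := archNm v z (ν p) h (A.TW p l) β / (2 * c)) (div_nonneg arch_nm_nonneg (by linarith))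
        (by
          rw [← hcc, mul_div_assoc', div_lt_iff₀ (by positivity)]
          nlinarith [hpos p b0])
      have b2 := cnt_add_not (A.TW p l) P
      have b3 := cnt_mono (S := A.TW p l) (P := fun t => ¬ P t) fun t ht e =>
        ⟨ht, not_lt.1 fun e' => e ((hP t).2 ⟨p, hp, ht, e'⟩)⟩
      rw [baseb_ind_pos hp, one_mul]
      linarith [(H.loc p b0).dens, mul_le_mul_of_nonneg_right H.ed (show (0 : ℝ) ≤ 4 ^ l by positivity)]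
    · rw [baseb_ind_neg hp, zero_mul]
      exact cnt_nonneg _ _
  have a2 := a1.trans (H.ok.dc_bd H.lj P)
  rw [Bx.fr, lt_div_iff₀ (by positivity), h4] at hc
  rw [div_le_iff₀ hJ] at hb
  obtain ⟨θ, hθ⟩ : ∃ θ, θ = κ₀ * δ / (200 * K) := ⟨_, rfl⟩
  have hθ0 : 0 < θ := by rw [hθ]; positivity
  rw [← hθ] at h1 h2
  obtain ⟨y, B, b1, b2⟩ := arch_pig (β := β) (H.ok.lin.mono (TB_sub Q)) (P := P) k1
    (mul_pos hθ0 hJ) hL (by
      have b1 : K * 2 ^ Q.j * (θ * 2 ^ Q.j) = κ₀ * δ / 200 * (2 ^ Q.j * 2 ^ Q.j) := by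
        rw [hθ]; field_simp
      have b2 : cnt Q.cells U * (δ / 2) ≤ 33 * (cnt (A.TB Q) P + 32 * 2 ^ l * 2 ^ Q.j) :=
        le_of_mul_le_mul_right (by linarith) (show (0 : ℝ) < 4 ^ l by positivity)
      have b3 := mul_lt_mul_of_pos_right hc (half_pos hδ)
      have b4 := mul_le_mul_of_nonneg_right hb hJ.le
      have b5 : 0 < κ₀ * δ * (2 ^ Q.j * 2 ^ Q.j) := by positivity
      rw [b1]
      linarith)
  obtain ⟨f, ω, f0, f1, f2, f3⟩ := hf (z y)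
  have b3 : ∀ b ∈ B, v (f (z b)) ≤ 2 * c * (s * (3 * C * ω * ε)) * v (h (z b)) := fun b hb => by
    obtain ⟨t, -, t2, rfl, rfl⟩ := b1 b hb
    obtain ⟨p, p1, p2, p3⟩ := (hP t).1 t2
    obtain ⟨p4, p5, p6⟩ := (hU p).1 p1
    have r := H.rel t (TW_sub p l p2)
    have c1 := (H.loc p p4).rel p2 r.1 (fun m => (r.2 m).1) hi k2 f1
    have c2 := f2 p (t i) _ (mul_nonneg he.le arch_nm_nonneg) ((arch_le_nm p2).trans p5)
      ((arch_le_nm p2).trans p6)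
    rw [div_lt_iff₀ (by positivity)] at p3
    refine (arch_ph_mono (H.loc p p4).ne).1 (c1.trans ?_)
    have c3 := mul_le_mul_of_nonneg_left p3.le (show 0 ≤ s * (3 * C * ω * ε) by positivity)
    linarith [mul_le_mul_of_nonneg_left c2 (show 0 ≤ s by linarith)]
  have b4 := H.ok.amplify_top H.lj (η := θ ^ 2) (by positivity) (P := fun t => t β ∈ B)
    (b2.trans_eq' (by rw [h4]; ring))
  have b5 := fr_or (Q := Q)
    (P := fun q => θ ^ 2 / 2 * 4 ^ l ≤ cnt (A.TW q l) fun t => t β ∈ B) (P1 := bad)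
    (P2 := fun p => ¬ bad p ∧ archNm v z (ν p) f (A.TW p l) β / archNm v z (ν p) h (A.TW p l) β ≤
      c * (2 * c * (s * (3 * C * ω * ε)))) fun q _ hq => by
      refine (Classical.em (bad q)).imp_right fun e => ⟨e, ?_⟩
      rw [div_le_iff₀ (hpos q e), mul_assoc, hcc]
      exact arch_nm_le (mul_nonneg (by positivity) (mul_nonneg (by positivity) arch_nm_nonneg))
        fun t ht => (H.loc q e).s0 H.ok (by linarith)
          ((mul_le_mul_of_nonneg_right h2 (by positivity)).trans hq)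
          (mul_nonneg (by positivity) arch_nm_nonneg) (fun u hu hu' =>
            ((arch_ph_mono (H.loc q e).ne).2 (hcc ▸ b3 _ hu')).trans
              (mul_le_mul_of_nonneg_left (arch_le_nm hu) (by positivity))) ht (Or.inl rfl)
  have b6 := f3 (c * (2 * c * (s * (3 * C * ω * ε)))) (by positivity) (by linarith [H.few])
  nlinarith [mul_lt_mul_of_pos_left he' f0]

theorem ArchCtx.main (H : ArchCtx A Q β z cc v l η δ s κ C bad ν) {K θ : ℝ} (hK : 0 < K)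
    (hθ : 0 < θ) (hL : (#(lines (A.TB Q)) : ℝ) ≤ K * 2 ^ Q.j)
    (hb : 32 * 2 ^ l / 2 ^ Q.j ≤ θ / 200 * δ / 200)
    (h1 : κ ≤ (θ / 200 * δ / (200 * K)) ^ 2 / 210) (h2 : η ≤ (θ / 200 * δ / (200 * K)) ^ 2 / 2)
    (h3 : κ ≤ θ / 200) (h4 : η ≤ θ / 20) :
    ∃ N : ℕ → ℝ, (∀ a, 0 < N a) ∧ cnt (A.TB Q) (fun t => ∃ i j,
      26 * C ^ 3 * (33 * 4 ^ l * s) ^ 4 * s ^ 2 * (v (cc t j) * N (t j)) < v (cc t i) * N (t i)) ≤
        θ * 4 ^ Q.j := by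
  obtain ⟨h, g, M, hM, hpos, hG, hf⟩ := H.pair
  have hs : 0 < s := one_pos.trans_le H.s1
  have hC : 0 < C := one_pos.trans_le H.C1
  obtain ⟨c, hcc⟩ : ∃ c, c = 33 * 4 ^ l * s := ⟨_, rfl⟩
  have hc0 : 0 < c := by rw [hcc]; positivity
  obtain ⟨ε, hε⟩ : ∃ ε, ε = 1 / (13 * C ^ 2 * c ^ 2 * s) := ⟨_, rfl⟩
  have he : 0 < ε := by rw [hε]; positivity
  have hd := H.deg hK (by positivity) hpos hf hL hb h1 h2 he (by
    rw [← hcc, hε, mul_one_div, div_lt_one (by positivity)]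
    nlinarith [show 0 < C ^ 2 * c ^ 2 * s by positivity])
  obtain ⟨N₀, hN₀⟩ : ∃ N₀ : ℕ → ℝ, ∀ a, N₀ a = max (v (h (z a))) (v (g (z a)) / M) :=
    ⟨_, fun _ => rfl⟩
  obtain ⟨B, hB⟩ : ∃ B : Cell → Prop, ∀ p, B p ↔ bad p ∨ (¬ bad p ∧
      C * M < archNm v z (ν p) g (A.TW p l) β / archNm v z (ν p) h (A.TW p l) β) ∨ ∃ i, ¬ bad p ∧
      archNm v z (ν p) h (A.TW p l) i ≤ ε * archNm v z (ν p) h (A.TW p l) β ∧
      archNm v z (ν p) g (A.TW p l) i ≤ M * (ε * archNm v z (ν p) h (A.TW p l) β) :=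
    ⟨_, fun _ => Iff.rfl⟩
  have b1 : Q.fr B ≤ 5 * (θ / 200) := by
    have a1 := fr_or (Q := Q) fun p _ hp => (hB p).1 hp
    have a2 := fun P1 P2 => fr_or (Q := Q) (P := fun p => P1 p ∨ P2 p) (P1 := P1) (P2 := P2)
      fun p _ hp => hp
    simp only [Fin.exists_fin_succ, IsEmpty.exists_iff, or_false] at a1
    exact a1.trans ((add_le_add (H.few.trans h3) ((a2 _ _).trans (add_le_add (hG.trans h3)
      ((a2 _ _).trans (add_le_add (hd _) ((a2 _ _).trans (add_le_add (hd _) (hd _)))))))).trans_eq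
        (by ring))
  refine ⟨fun a => if 0 < N₀ a then N₀ a else 1, fun a => by
    beta_reduce
    split_ifs with e
    exacts [e, one_pos],
    le_of_mul_le_mul_left ((dc_low H.lj _).trans ((baseb_split H.ok Q.cells l _ B
      (c := 3 * (η * 4 ^ l)) (by have := H.e0; positivity) fun p _ hp => ?_).trans ?_))
        (show (0 : ℝ) < 4 ^ l by positivity)⟩
  · rw [hB, not_or, not_or, not_exists] at hp
    obtain ⟨p1, p2, p3⟩ := hp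
    have L := H.loc p p1
    have n0 := hpos p p1
    generalize hn : archNm v z (ν p) h (A.TW p l) β = n at p2 p3 n0
    have up : ∀ t ∈ A.TW p l, ∀ i, N₀ (t i) ≤ c * C * n * v (ν p (t i)) := fun t ht i => by
      have a1 := L.s2 H.ok hs.le H.ed' (f := h) ht i
      have a2 := L.s2 H.ok hs.le H.ed' (f := g) ht i
      have a3 := (div_le_iff₀ n0).1 (not_lt.1 fun e => p2 ⟨p1, e⟩)
      have a4 := v.pos (L.ne (t i))
      rw [← hcc, archPh, div_le_iff₀ a4] at a1 a2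
      rw [hn] at a1
      rw [hN₀, max_le_iff, div_le_iff₀ hM]
      exact ⟨a1.trans (by gcongr; exact le_mul_of_one_le_right hc0.le H.C1), a2.trans
        ((mul_le_mul_of_nonneg_right (mul_le_mul_of_nonneg_left a3 hc0.le) a4.le).trans_eq
          (by ring))⟩
    have lo : ∀ i, cnt (A.TW p l) (fun t => N₀ (t i) ≤ ε * n / c * v (ν p (t i))) < η * 4 ^ l :=
      fun i => by
        rcases not_and_or.1 fun e => p3 i ⟨p1, e⟩ with e | e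
        · refine lt_of_le_of_lt (cnt_mono fun t ht a => ⟨ht, ?_⟩) (L.s1 H.ok hs.le (f := h) (i := i)
            (b := ε * n / c) (by positivity) (by
              rw [← hcc, mul_div_cancel₀ _ hc0.ne']; exact not_le.1 e))
          rw [hN₀, max_le_iff] at a
          exact (div_le_iff₀ (v.pos (L.ne _))).2 a.1
        · refine lt_of_le_of_lt (cnt_mono fun t ht a => ⟨ht, ?_⟩) (L.s1 H.ok hs.le (f := g) (i := i)
            (b := M * (ε * n) / c) (by positivity) (by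
              rw [← hcc, mul_div_cancel₀ _ hc0.ne']; exact not_le.1 e))
          rw [hN₀, max_le_iff, div_le_iff₀ hM] at a
          exact (div_le_iff₀ (v.pos (L.ne _))).2 (a.2.trans_eq (by ring))
    refine (baseb_cnt_sum (univ : Finset (Fin 3))
      (fun i t => N₀ (t i) ≤ ε * n / c * v (ν p (t i))) fun t ht ⟨i, j, a⟩ => ?_).trans
      (by rw [Fin.sum_univ_three]; linarith [lo 0, lo 1, lo 2])
    by_contra e
    have a1 : ∀ i, ε * n / c * v (ν p (t i)) < N₀ (t i) := fun i => not_le.1 fun e' => e ⟨i, mem_univ _, e'⟩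
    have a2 : ∀ i, 0 < N₀ (t i) := fun i =>
      (a1 i).trans_le' (mul_nonneg (by positivity) (v.nonneg _))
    beta_reduce at a
    rw [if_pos (a2 i), if_pos (a2 j), ← hcc] at a
    have a3 := L.rat t ht i j
    rw [map_mul, map_mul] at a3
    have a4 := mul_le_mul_of_nonneg_left (up t ht i) (v.nonneg (cc t i))
    have a5 := mul_le_mul_of_nonneg_left (a1 j).le (v.nonneg (cc t j))
    have a6 := mul_le_mul_of_nonneg_left a3 (show 0 ≤ c * C * n by positivity)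
    have a7 := mul_le_mul_of_nonneg_left a5 (show 0 ≤ 13 * C ^ 3 * c ^ 4 * s ^ 2 by positivity)
    have a8 : 13 * C ^ 3 * c ^ 4 * s ^ 2 * (v (cc t j) * (ε * n / c * v (ν p (t j)))) =
        c * C * n * (s * (v (cc t j) * v (ν p (t j)))) := by
      rw [hε]
      field_simp
    have a9 : 0 ≤ C ^ 3 * c ^ 4 * s ^ 2 * (v (cc t j) * N₀ (t j)) :=
      mul_nonneg (by positivity) (mul_nonneg (v.nonneg _) (a2 j).le)
    linarith
  · rw [Bx.fr, div_le_iff₀ (by positivity)] at b1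
    rw [card_cells]
    push_cast
    have a1 : (0 : ℝ) < 4 ^ l * 4 ^ Q.j := by positivity
    nlinarith [mul_le_mul_of_nonneg_left b1 (show (0 : ℝ) ≤ 4 ^ l by positivity),
      mul_le_mul_of_nonneg_right h4 a1.le, mul_pos hθ a1]

end

end Pool.Agent.MP_38296a_co.H21

end FileArch2

section FileArch

set_option autoImplicit false

namespace Pool.Agent.MP_38296a_co.H21

open Finset Filter Classical

/-- approximate norms of the lines at one place -/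
theorem St4.arch {D k : ℕ} {A : ℕ → Arr ℕ} {Q : ℕ → Bx} {β : Fin 3} {z : ℕ → ℕ → Fin D → KK}
    {cc : ℕ → Tri ℕ → Fin 3 → KK} {S : ℕ → Finset KK} (h : St4 k A Q β z cc S)
    (v : AbsoluteValue KK ℝ) {θ : ℝ} (hθ : 0 < θ) : ∃ C : ℝ, 1 ≤ C ∧ ∀ᶠ n in UU, ∃ N : ℕ → ℝ,
      (∀ a, 0 < N a) ∧ cnt ((A n).TB (Q n))
        (fun t => ∃ i j, C * (v (cc n t j) * N (t j)) < v (cc n t i) * N (t i)) ≤
          θ * 4 ^ (Q n).j := by
  obtain ⟨δ, hδ, -, hD⟩ := h.good.dens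
  obtain ⟨K, hK, hL⟩ := h.good.val.lines_le
  have hK0 : 0 < K := one_pos.trans_le hK
  obtain ⟨κ, k0, k1, k2, k3⟩ : ∃ κ : ℝ, 0 < κ ∧ κ ≤ 1 / 10 ∧
      κ ≤ (θ / 200 * δ / (200 * K)) ^ 2 / 210 ∧ κ ≤ θ / 200 :=
    ⟨min (1 / 10) (min _ _), by positivity, min_le_left _ _,
      (min_le_right _ _).trans (min_le_left _ _), (min_le_right _ _).trans (min_le_right _ _)⟩
  obtain ⟨η₀, θ₀, a1, a2, hT⟩ := t1c h.good h.na k0
  obtain ⟨η, e0, e1, e2, e3, e4⟩ : ∃ η : ℝ, 0 < η ∧ η ≤ η₀ ∧ η ≤ δ / 2 ∧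
      η ≤ (θ / 200 * δ / (200 * K)) ^ 2 / 2 ∧ η ≤ θ / 20 :=
    ⟨min (min _ _) (min _ _), by positivity, (min_le_left _ _).trans (min_le_left _ _),
      (min_le_left _ _).trans (min_le_right _ _), (min_le_right _ _).trans (min_le_left _ _),
      (min_le_right _ _).trans (min_le_right _ _)⟩
  have a3 : 0 < min θ₀ κ / 2 := by positivity
  obtain ⟨l, l1, l2⟩ := (hT.and (((h.span η e0).and hD) _ a3)).exists
  obtain ⟨c, hc⟩ := h.fin l _ a3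
  obtain ⟨s, s1, s2⟩ : ∃ s : ℝ, 1 ≤ s ∧ ∀ σ ∈ S c, v σ ≤ s :=
    ⟨1 + ∑ σ ∈ S c, v σ, le_add_of_nonneg_right (sum_nonneg fun _ _ => v.nonneg _), fun σ hσ =>
      (single_le_sum (f := fun σ => v σ) (fun _ _ => v.nonneg _) hσ).trans
        (le_add_of_nonneg_left zero_le_one)⟩
  have s3 : 1 ≤ 33 * 4 ^ l * s := by
    nlinarith [one_le_pow₀ (M₀ := ℝ) (a := 4) (n := l) (by norm_num)]
  obtain ⟨C, C1, hC⟩ := l1 (2 * (33 * 4 ^ l * s)) (by linarith)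
  refine ⟨26 * C ^ 3 * (33 * 4 ^ l * s) ^ 4 * s ^ 2, one_le_mul_of_one_le_of_one_le
    (one_le_mul_of_one_le_of_one_le (one_le_mul_of_one_le_of_one_le (by norm_num) (one_le_pow₀ C1))
      (one_le_pow₀ s3)) (one_le_pow₀ s1), ?_⟩
  filter_upwards [hC, l2, hc, hL, h.rel, h.geo, h.good.val.big.eventually (eventually_ge_atTop l),
    dya_small h.good.val.big (32 * 2 ^ l) (show 0 < θ / 200 * δ / 200 by positivity)]
    with n b1 b2 b3 b4 b5 b6 b7 b8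
  obtain ⟨bad, hbad⟩ : ∃ bad : Cell → Prop, ∀ p,
      bad p ↔ ¬ ∃ ν, ArchLoc (A n) β (z n) (cc n) v l η δ s p ν := ⟨_, fun _ => Iff.rfl⟩
  have b9 : (Q n).fr bad ≤ min θ₀ κ := by
    refine (fr_or fun p _ hp => not_and_or.1 fun e => (hbad p).1 hp ?_).trans
      ((add_le_add b2 b3).trans_eq (add_halves _))
    obtain ⟨⟨c1, c2⟩, ν, c3, c4, c5⟩ := e
    refine ⟨ν, c1, c2.trans (by exact_mod_cast card_le_card (TB_anc_sub p l)), c3,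
      fun t ht i j => ?_, fun B hB y hy e => (c5 B hB y hy e).imp fun σ c6 =>
        ⟨fun a ha => s2 _ (c6.1 a ha), c6.2⟩⟩
    have := s2 _ (c4 t ht i j)
    rwa [map_div₀, div_le_iff₀ (v.pos (mul_ne_zero ((b5 t (TW_sub p l ht)).2 j).1 (c3 _)))] at this
  have b10 : ∀ p, ∃ ν, ¬ bad p → ArchLoc (A n) β (z n) (cc n) v l η δ s p ν := fun p => by
    by_cases hp : bad p
    · exact ⟨fun _ => 1, fun e => absurd hp e⟩
    · exact (not_not.1 (mt (hbad p).2 hp)).imp fun ν e _ => e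
  choose ν hν using b10
  have e5 : η * 4 ^ l ≤ η₀ * 4 ^ l := mul_le_mul_of_nonneg_right e1 (by positivity)
  exact ArchCtx.main ⟨h.good.val.ok n, b7, s1, C1, k0, k1, e0, e2, hν,
    b9.trans (min_le_right _ _), b5, b6, fun ρ b hb hR => b1 bad ρ b hb (b9.trans (min_le_left _ _))
      fun τ hτ => (hR τ hτ).imp fun R c1 p c2 c3 => ⟨fun c4 => ((c1 p c2 c3).1 c4).trans_le e5,
        fun c4 => ((c1 p c2 c3).2 c4).trans_le e5⟩⟩ hK0 hθ b4.1 b8 k2 e3 k3 e4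

end Pool.Agent.MP_38296a_co.H21

end FileArch

end
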