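import Pool.Agent.MP_38296a_co.Mg.H88_Role

-- part MP_38296a_co.H88.Dhj
section

set_option autoImplicit false

namespace Pool.Agent.MP_38296a_co.H88

section GR


open Finset Combinatorics

/-- Step A. The first `r` variables are special: as soon as one of them is `none`, the colour does
not depend on the other variables.
Hint: induction on `r` (for all `κ`, `ζ`). `r = 0`: `ι = Fin 0 ⊕ ζ`, `U = whole`. Step: `ι₀` from the
induction hypothesis with colours `α → κ`; `ι₁` from `Subspace.exists_mono_in_high_dimension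
(Option α) κ ι₀`; `ι = Option ι₁`. Given `c`, let `V` be monochromatic for
`z ↦ c (fun o => o.elim none z)`. For `t : Option α`, `y : ι₀ → Option α` put
`word t y : Option ι₁ → Option α`, `none ↦ t`, `some i ↦` (by cases on `V.idxFun i`:
`inl (some b) ↦ some b`, `inl none ↦ t`, `inr e ↦ y e`). Then `word none y = fun o => o.elim none (V y)`.
Apply the hypothesis to `y ↦ fun a => c (word (some a) y)`, get `U₀`. Define `U` by `none ↦ inr (inl 0)`,
`some i ↦` (`inl (some b) ↦ inl b`, `inl none ↦ inr (inl 0)`,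
`inr e ↦ (U₀.idxFun e).map id (Sum.map Fin.succ id)`), so that
`up U (Sum.elim u y) = word (u 0) (up U₀ (Sum.elim (Fin.tail u) y))`. Cases `u 0 = none` (use `V`) and
`u 0 = some a` (then `Fin.tail u` has a `none`). -/
theorem gr_A (α : Type) [Finite α] (r : ℕ) : ∀ (κ ζ : Type) [Finite κ] [Finite ζ],
    ∃ (ι : Type) (_ : Finite ι), ∀ c : (ι → Option α) → κ, ∃ U : Subspace (Fin r ⊕ ζ) α ι,
      ∀ u : Fin r → Option α, (∃ e, u e = none) → ∀ y y' : ζ → Option α,
        c (up U (Sum.elim u y)) = c (up U (Sum.elim u y')) := by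
  induction r with
  | zero => exact fun κ ζ _ _ => ⟨Fin 0 ⊕ ζ, inferInstance, fun c => ⟨whole _ _, fun u ⟨e, _⟩ => e.elim0⟩⟩
  | succ r ih =>
    intro κ ζ _ _
    obtain ⟨ι₀, _, h₀⟩ := ih (α → κ) ζ
    obtain ⟨ι₁, _, h₁⟩ := Subspace.exists_mono_in_high_dimension (Option α) κ ι₀
    refine ⟨Option ι₁, inferInstance, fun c => ?_⟩
    obtain ⟨V, k, hV⟩ := h₁ fun z => c fun o => o.elim none z
    let word : Option α → (ι₀ → Option α) → Option ι₁ → Option α := fun t y o =>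
      o.elim t fun i => (V.idxFun i).elim (fun b => b.elim t some) y
    have w0 : ∀ y, word none y = fun o => o.elim none (V y) := fun y => by
      funext o
      cases o with
      | none => rfl
      | some i =>
        simp only [word, Option.elim, Subspace.coe_apply]
        rcases V.idxFun i with (_ | b) | e <;> rfl
    obtain ⟨U₀, hU₀⟩ := h₀ fun y a => c (word (some a) y)
    let U : Subspace (Fin (r + 1) ⊕ ζ) α (Option ι₁) :=
      { idxFun := fun o => o.elim (.inr (.inl 0)) fun i => (V.idxFun i).elim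
          (fun b => b.elim (.inr (.inl 0)) .inl) fun e => (U₀.idxFun e).map id (Sum.map Fin.succ id)
        proper := fun z => by
          have k : ∀ z₀, ∃ o : Option ι₁, (o.elim (.inr (.inl 0)) fun i => (V.idxFun i).elim
              (fun b => b.elim (.inr (.inl 0)) .inl) fun e =>
                (U₀.idxFun e).map id (Sum.map Fin.succ id) : α ⊕ (Fin (r + 1) ⊕ ζ)) =
              .inr (Sum.map Fin.succ id z₀) := fun z₀ => by
            obtain ⟨e, he⟩ := U₀.proper z₀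
            obtain ⟨i, hi⟩ := V.proper e
            exact ⟨some i, by simp [hi, he]⟩
          rcases z with j | z
          · exact Fin.cases ⟨none, rfl⟩ (fun j => k (.inl j)) j
          · exact k (.inr z) }
    have hU : ∀ u y, up U (Sum.elim u y) = word (u 0) (up U₀ (Sum.elim (Fin.tail u) y)) :=
      fun u y => by
      funext o
      rw [up_apply]
      cases o with
      | none => rfl
      | some i =>
        simp only [U, word, Option.elim]
        rcases V.idxFun i with (_ | b) | e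
        · rfl
        · rfl
        · simp only [Sum.elim_inr, up_apply]
          rcases U₀.idxFun e with b | (j | z) <;> rfl
    refine ⟨U, fun u ⟨e, he⟩ y y' => ?_⟩
    rw [hU, hU]
    rcases h : u 0 with _ | a
    · rw [w0, w0]; exact (hV _).trans (hV _).symm
    · refine congrFun (hU₀ (Fin.tail u) ?_ y y') a
      revert he
      exact Fin.cases (fun he => by simp [he] at h) (fun j he => ⟨j, he⟩) e

theorem gr_fin (α κ : Type) [Finite α] [Finite κ] :
    ∃ r : ℕ, ∀ C : (Fin r → α) → κ, ∃ l : Line α (Fin r), l.IsMono C := by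
  obtain ⟨ι, _, h⟩ := Line.exists_mono_in_high_dimension α κ
  refine ⟨Fintype.card ι, fun C => ?_⟩
  let e := Fintype.equivFin ι
  obtain ⟨l, k, hl⟩ := h fun x => C (x ∘ e.symm)
  obtain ⟨i, hi⟩ := l.proper
  exact ⟨⟨l.idxFun ∘ e.symm, e i, by simp [hi]⟩, k, hl⟩

/-- Step B. The colour only depends on the position of the first `none`.
Hint: induction on `m`. `m = 0`: `ι = Fin 0`. Step: `ι₀` from the hypothesis; `ι₂` from
`Line.exists_mono_in_high_dimension α ((ι₀ → Option α) → κ)`, turned into `Fin r` with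
`Fintype.equivFin` (or restate `gr_A` for an arbitrary finite type with `Subspace.reindex`); `ι` from
`gr_A α r κ ι₀`. Given `c` take `U`; colour `u : Fin r → α` by
`fun y => c (up U (Sum.elim (some ∘ u) y))`, get a monochromatic line `l`; fix `a₀ : α` and apply the
hypothesis to `c₀ y = c (up U (Sum.elim (some ∘ l a₀) y))`, get `W₀`. Let
`W₁ : Subspace (Fin (m+1)) α (Fin r ⊕ ι₀)`, `inl i ↦ (l.idxFun i).elim (inr 0) inl`,
`inr e ↦ (W₀.idxFun e).map id Fin.succ`; `W = comp U W₁` (`up_comp`). The first part of `up W₁ x` is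
`l.idxFun` if `x 0 = none` (has a `none` by `l.proper`), and `some ∘ l a` if `x 0 = some a`. -/
theorem gr_B (α κ : Type) [Finite α] [Nonempty α] [Finite κ] (m : ℕ) :
    ∃ (ι : Type) (_ : Finite ι), ∀ c : (ι → Option α) → κ, ∃ W : Subspace (Fin m) α ι,
      ∀ (x y : Fin m → Option α) (j : Fin m), x j = none → y j = none →
        (∀ i < j, x i ≠ none ∧ y i ≠ none) → c (up W x) = c (up W y) := by
  induction m with
  | zero => exact ⟨Fin 0, inferInstance, fun c => ⟨whole _ _, fun _ _ j => j.elim0⟩⟩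
  | succ m ih =>
    obtain ⟨ι₀, _, h₀⟩ := ih
    obtain ⟨r, hr⟩ := gr_fin α ((ι₀ → Option α) → κ)
    obtain ⟨ι, _, h⟩ := gr_A α r κ ι₀
    refine ⟨ι, inferInstance, fun c => ?_⟩
    obtain ⟨U, hU⟩ := h c
    obtain ⟨l, k, hl⟩ := hr fun u y => c (up U (Sum.elim (some ∘ u) y))
    obtain ⟨W₀, hW₀⟩ := h₀ k
    let W₁ : Subspace (Fin (m + 1)) α (Fin r ⊕ ι₀) :=
      { idxFun := Sum.elim (fun i => (l.idxFun i).elim (.inr 0) .inl)
          fun e => (W₀.idxFun e).map id Fin.succ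
        proper := fun j => by
          refine Fin.cases ?_ (fun j => ?_) j
          · obtain ⟨i, hi⟩ := l.proper
            exact ⟨.inl i, by simp [hi]⟩
          · obtain ⟨e, he⟩ := W₀.proper j
            exact ⟨.inr e, by simp [he]⟩ }
    have hW : ∀ x, up W₁ x = Sum.elim (fun i => (l.idxFun i).elim (x 0) some)
        (up W₀ (Fin.tail x)) := fun x => by
      funext o
      rw [up_apply]
      rcases o with i | e
      · simp only [W₁, Sum.elim_inl]
        cases l.idxFun i <;> rfl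
      · simp only [W₁, Sum.elim_inr, up_apply]
        cases W₀.idxFun e <;> rfl
    have hs : ∀ a, (fun i => (l.idxFun i).elim (some a) some) = some ∘ l a := fun a => by
      funext i
      simp only [Function.comp, Line.coe_apply]
      cases l.idxFun i <;> rfl
    refine ⟨comp U W₁, fun x y j => ?_⟩
    rw [up_comp, up_comp, hW, hW]
    refine Fin.cases (fun hx hy _ => ?_) (fun j hx hy hlt => ?_) j
    · rw [hx, hy]
      obtain ⟨i, hi⟩ := l.proper
      exact hU _ ⟨i, by simp [hi]⟩ _ _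
    · obtain ⟨a, ha⟩ := Option.ne_none_iff_exists'.1 (hlt 0 (Fin.succ_pos j)).1
      obtain ⟨b, hb⟩ := Option.ne_none_iff_exists'.1 (hlt 0 (Fin.succ_pos j)).2
      rw [ha, hb, hs, hs]
      exact (congrFun (hl a) _).trans ((hW₀ _ _ j hx hy fun i hi =>
        hlt i.succ (Fin.succ_lt_succ_iff.2 hi)).trans (congrFun (hl b) _).symm)

/-- Graham-Rothschild theorem for lines.
Hint: if `α` is empty take `ι = η`, `W = whole`, all words are equal. Otherwise `gr_B` with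
`m = 2 * card η`; `col j = c (up W (fun i => if i = j then none else some a₀))`; one colour class has
at least `card η` elements, so there is an injection `φ : η → Fin m` with `col (φ e) = b`. Let
`W₂ : Subspace η α (Fin m)`, `i ↦ if h : ∃ e, φ e = i then inr h.choose else inl a₀`, and use
`comp W W₂`; take the least `j` with `up W₂ x j = none` (`Fin.find` or `Finset.min'`), it lies in the
range of `φ`. Use `Fintype.ofFinite`, `Classical.decEq` for the instances. -/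
theorem gr (α η : Type) [Finite α] [Finite η] :
    ∃ (ι : Type) (_ : Fintype ι) (_ : DecidableEq ι), ∀ c : (ι → Option α) → Bool,
      ∃ (W : Subspace η α ι) (b : Bool), ∀ x : η → Option α, (∃ e, x e = none) →
        c (up W x) = b := by
  classical
  cases isEmpty_or_nonempty α with
  | inl h =>
    refine ⟨η, Fintype.ofFinite η, inferInstance, fun c => ⟨whole _ _, c fun _ => none,
      fun x _ => congrArg c (funext fun e => ?_)⟩⟩
    rcases up (whole η α) x e with _ | a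
    · rfl
    · exact h.elim a
  | inr h =>
    obtain ⟨a₀⟩ := id h
    have := Fintype.ofFinite η
    obtain ⟨ι, _, hι⟩ := gr_B α Bool (2 * Fintype.card η)
    refine ⟨ι, Fintype.ofFinite ι, inferInstance, fun c => ?_⟩
    obtain ⟨W, hW⟩ := hι c
    let col : Fin (2 * Fintype.card η) → Bool := fun j =>
      c (up W fun i => if i = j then none else some a₀)
    obtain ⟨b, hb⟩ := Fintype.exists_le_card_fiber_of_mul_le_card col (n := Fintype.card η)
      (by simp)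
    obtain ⟨φ⟩ : Nonempty (η ↪ {j // j ∈ univ.filter fun j => col j = b}) :=
      Function.Embedding.nonempty_of_card_le (by rwa [Fintype.card_coe])
    let W₂ : Subspace η α (Fin (2 * Fintype.card η)) :=
      { idxFun := fun i => if h : ∃ e, (φ e).1 = i then .inr h.choose else .inl a₀
        proper := fun e => ⟨φ e, by
          have h : ∃ e', (φ e').1 = φ e := ⟨e, rfl⟩
          rw [dif_pos h, φ.injective (Subtype.ext h.choose_spec)]⟩ }
    refine ⟨comp W W₂, b, fun x ⟨e, he⟩ => ?_⟩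
    obtain ⟨i, hi⟩ := W₂.proper e
    obtain ⟨j, hj, hmin⟩ := exists_min_image (univ.filter fun j => up W₂ x j = none) id
      ⟨i, by simp [up_apply, hi, he]⟩
    have hj' := (mem_filter.1 hj).2
    have hb' : col j = b := by
      by_cases h : ∃ e, (φ e).1 = j
      · obtain ⟨e, rfl⟩ := h
        exact (mem_filter.1 (φ e).2).2
      · simp [up_apply, W₂, h] at hj'
    rw [up_comp, ← hb']
    exact hW _ _ j hj' (if_pos rfl) fun i hi => ⟨fun h => absurd (hmin i (by simp [h])) (not_le.2 hi),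
      by simp [hi.ne]⟩

end GR

section DhjA


open Finset Combinatorics

/-- Uniformity lemma.
Hint: `ρ = ε / card (η → β)`. Prove by induction on `t`: `∃ ι, ∀ A, 1 - t * ρ < dn A → conclusion`
(`t = 0` is vacuous by `dn_le_one`, take `ι = η`). Step: `ι = η ⊕ ι_t`; sections
`A x = {z | Sum.elim x z ∈ A}`, `dn A = av fun x => dn (A x)` by `av_sum_idx`. If all sections have density
`≥ dn A - ε` take `Y = ι_t → β`, `V y = inlS (whole η β) y`. Otherwise some section has density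
`≥ dn A + ρ` (else compare with `fun x => dn A + ρ - (ε + ρ) * ind {x₀} x`, whose average is `< dn A`);
apply the hypothesis to it and use `inrS x₁ (V y)`. Finally take `t` with `1 < t * ρ`. -/
theorem unif (β η : Type) [Fintype β] [Nonempty β] [Fintype η] [DecidableEq η] {ε : ℝ}
    (hε : 0 < ε) : ∃ (ι : Type) (_ : Fintype ι) (_ : DecidableEq ι), ∀ A : Set (ι → β),
      ∃ (Y : Type) (_ : Fintype Y) (_ : Nonempty Y) (V : Y → Subspace η β ι),
        ∀ x : η → β, dn A - ε ≤ dn {y | V y x ∈ A} := by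
  classical
  set ρ : ℝ := ε / Fintype.card (η → β) with hρ
  have c : (0 : ℝ) < Fintype.card (η → β) := by exact_mod_cast Fintype.card_pos
  have ρ0 : 0 < ρ := by positivity
  have key : ∀ t : ℕ, ∃ (ι : Type) (_ : Fintype ι) (_ : DecidableEq ι), ∀ A : Set (ι → β),
      1 - t * ρ < dn A → ∃ (Y : Type) (_ : Fintype Y) (_ : Nonempty Y) (V : Y → Subspace η β ι),
        ∀ x : η → β, dn A - ε ≤ dn {y | V y x ∈ A} := fun t => by
    induction t with
    | zero =>
      exact ⟨η, inferInstance, inferInstance, fun A h => absurd (dn_le_one A) (by simpa using h)⟩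
    | succ t ih =>
      obtain ⟨ι, _, _, ih⟩ := ih
      refine ⟨η ⊕ ι, inferInstance, inferInstance, fun A hA => ?_⟩
      let S : (η → β) → Set (ι → β) := fun x => {z | Sum.elim x z ∈ A}
      have e : dn A = av fun x => dn (S x) := by rw [dn, av_sum_idx]; rfl
      by_cases h : ∀ x, dn A - ε ≤ dn (S x)
      · exact ⟨ι → β, inferInstance, inferInstance, fun y => inlS (whole η β) y, fun x => by
          simpa only [inlS_apply, whole_apply] using h x⟩
      · push Not at h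
        obtain ⟨x₀, hx₀⟩ := h
        obtain ⟨x₁, hx₁⟩ : ∃ x₁, dn A + ρ ≤ dn (S x₁) := by
          by_contra hn
          push Not at hn
          have k := av_mono (f := fun x => dn (S x))
            (g := fun x => dn A + ρ - (ε + ρ) * if x = x₀ then 1 else 0) fun x => by
              split_ifs with h
              · rw [h]; linarith
              · linarith [hn x]
          have e2 : av (fun x : η → β => if x = x₀ then (1 : ℝ) else 0) =
            1 / Fintype.card (η → β) := by simp [av]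
          rw [av_sub, av_const, av_mul, e2, ← e, add_mul, mul_one_div, ← hρ] at k
          have : 0 < ρ * (1 / Fintype.card (η → β)) := by positivity
          linarith
        obtain ⟨Y, _, _, V, hV⟩ := ih (S x₁) (by push_cast at hA; linarith)
        exact ⟨Y, inferInstance, inferInstance, fun y => inrS x₁ (V y), fun x => by
          simp only [inrS_apply]
          exact le_trans (by linarith) (hV x)⟩
  obtain ⟨t, ht⟩ := exists_nat_gt (1 / ρ)
  obtain ⟨ι, _, _, h⟩ := key t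
  rw [div_lt_iff₀ ρ0] at ht
  exact ⟨ι, inferInstance, inferInstance, fun A => h A (by linarith [dn_nonneg A])⟩

/-- Multidimensional density Hales-Jewett theorem from the one dimensional one.
Hint: first for `η = Fin m` by induction on `m` (for all `δ`), then `Subspace.reindex` (or `comp`).
`m = 0`: `ι = Fin 0`, `nonempty_of_dn_pos`. Step: `ι₁` from `h (δ/2)`, `ι₀` from the hypothesis with
`δ / 2 / card (ι₁ → Option α)`, `ι = ι₁ ⊕ ι₀`. By `av_sum_idx`, `av_comm`, `dn_ge_of_av` the set of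
`z : ι₀ → α` with `δ / 2 ≤ dn {u | Sum.elim u z ∈ A}` has density `≥ δ / 2`; each such `z` has a line;
`dn_pigeon` with `B k = {z | (∃ i, k i = none) ∧ ∀ a, Sum.elim (sub a k) z ∈ A}`, `k : ι₁ → Option α`
(`line_apply`); `B k` is non empty, so `k` has a `none`; new subspace: `inl i ↦ (k i).elim (inr 0) inl`,
`inr e ↦ (W₀.idxFun e).map id Fin.succ`. -/
theorem mdhj {α : Type} [Fintype α] [Nonempty α] (h : DHJ α) (η : Type) [Finite η] {δ : ℝ}
    (hδ : 0 < δ) : ∃ (ι : Type) (_ : Fintype ι) (_ : DecidableEq ι), ∀ A : Set (ι → α),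
      δ ≤ dn A → ∃ W : Subspace η α ι, ∀ x, W x ∈ A := by
  classical
  have key : ∀ (m : ℕ) (δ : ℝ), 0 < δ → ∃ (ι : Type) (_ : Fintype ι) (_ : DecidableEq ι),
      ∀ A : Set (ι → α), δ ≤ dn A → ∃ W : Subspace (Fin m) α ι, ∀ x, W x ∈ A := fun m => by
    induction m with
    | zero =>
      refine fun δ hδ => ⟨Fin 0, inferInstance, inferInstance, fun A hA => ⟨whole _ _, fun x => ?_⟩⟩
      obtain ⟨y, hy⟩ := nonempty_of_dn_pos (hδ.trans_le hA)
      rwa [Subsingleton.elim (whole _ _ x) y]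
    | succ m ih =>
      intro δ hδ
      obtain ⟨ι₁, _, _, h₁⟩ := h _ (half_pos hδ)
      have c : (0 : ℝ) < Fintype.card (ι₁ → Option α) := by exact_mod_cast Fintype.card_pos
      obtain ⟨ι₀, _, _, h₀⟩ := ih (δ / 2 / Fintype.card (ι₁ → Option α)) (by positivity)
      refine ⟨ι₁ ⊕ ι₀, inferInstance, inferInstance, fun A hA => ?_⟩
      have e : dn A = av fun z : ι₀ → α => dn {u : ι₁ → α | Sum.elim u z ∈ A} := by
        rw [dn, av_sum_idx, av_comm]; rfl
      have k := dn_ge_of_av (f := fun z : ι₀ → α => dn {u : ι₁ → α | Sum.elim u z ∈ A})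
        (half_pos hδ).le fun _ => dn_le_one _
      obtain ⟨k', hk⟩ := dn_pigeon (A := {z | δ / 2 ≤ dn {u : ι₁ → α | Sum.elim u z ∈ A}})
        (fun k : ι₁ → Option α => {z | (∃ i, k i = none) ∧ ∀ a, Sum.elim (sub a k) z ∈ A})
        fun z hz => by
          obtain ⟨l, hl⟩ := h₁ _ hz
          exact ⟨l.idxFun, l.proper, hl⟩
      have hk' := le_trans (div_le_div_of_nonneg_right (show δ / 2 ≤ _ by linarith) c.le) hk
      obtain ⟨W₀, hW₀⟩ := h₀ _ hk'
      obtain ⟨z, ⟨i, hi⟩, -⟩ := nonempty_of_dn_pos (lt_of_lt_of_le (by positivity) hk')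
      refine ⟨{ idxFun := Sum.elim (fun i => (k' i).elim (.inr 0) .inl)
                  fun e => (W₀.idxFun e).map id Fin.succ
                proper := fun j => ?_ }, fun x => ?_⟩
      · refine Fin.cases ⟨.inl i, by simp [hi]⟩ (fun j => ?_) j
        obtain ⟨e, he⟩ := W₀.proper j
        exact ⟨.inr e, by simp [he]⟩
      · convert (hW₀ (Fin.tail x)).2 (x 0) using 1
        funext o
        rcases o with i | e
        · simp only [Subspace.coe_apply, Sum.elim_inl, sub]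
          cases k' i <;> rfl
        · simp only [Subspace.coe_apply, Sum.elim_inr]
          cases W₀.idxFun e <;> rfl
  have := Fintype.ofFinite η
  obtain ⟨ι, _, _, hι⟩ := key (Fintype.card η) δ hδ
  refine ⟨ι, inferInstance, inferInstance, fun A hA => ?_⟩
  obtain ⟨W, hW⟩ := hι A hA
  refine ⟨comp W ⟨fun j => .inr ((Fintype.equivFin η).symm j),
    fun e => ⟨Fintype.equivFin η e, by simp⟩⟩, fun x => ?_⟩
  rw [comp_apply]; exact hW _

/-- A dense insensitive set contains a subspace.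
Hint: `ι₀` from `mdhj h η (b/2)`, `ι` from `unif (Option α) ι₀ (b/2)`. Average
`ind {y | V y (some ∘ x') ∈ D}` over `x' : ι₀ → α`, swap (`av_comm`, `le_av`, `exists_av_le`): some `y`
has `b / 2 ≤ dn {x' | V y (some ∘ x') ∈ D}`, so there is `W` with `V y (some ∘ W x') ∈ D` for all `x'`.
Take `comp (V y) (up W)`; use `sub_up`, `sub_some`, `sub_apply_congr` and `Ins` with `x' = sub i x`. -/
theorem star {α : Type} [Fintype α] [Nonempty α] (h : DHJ α) (η : Type) [Finite η] {b : ℝ}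
    (hb : 0 < b) : ∃ (ι : Type) (_ : Fintype ι) (_ : DecidableEq ι),
      ∀ (i : α) (D : Set (ι → Option α)), Ins i D → b ≤ dn D →
        ∃ V : Subspace η (Option α) ι, ∀ x, V x ∈ D := by
  obtain ⟨ι₀, _, _, h₀⟩ := mdhj h η (half_pos hb)
  obtain ⟨ι, _, _, hι⟩ := unif (Option α) ι₀ (half_pos hb)
  refine ⟨ι, inferInstance, inferInstance, fun i D hD hd => ?_⟩
  obtain ⟨Y, _, _, V, hV⟩ := hι D
  have k : b / 2 ≤ av fun x' : ι₀ → α => av fun y => ind {y | V y (some ∘ x') ∈ D} y :=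
    le_av fun x' => le_trans (by linarith) (hV _)
  rw [av_comm] at k
  obtain ⟨y, hy⟩ := exists_av_le fun y => av fun x' : ι₀ → α => ind {y | V y (some ∘ x') ∈ D} y
  obtain ⟨W, hW⟩ := h₀ {x' | V y (some ∘ x') ∈ D} (k.trans hy)
  refine ⟨comp (V y) (up W), fun x => ?_⟩
  rw [comp_apply]
  exact hD _ _ (sub_apply_congr i _ (by rw [sub_up, sub_some])) (hW (sub i x))

end DhjA

section DhjB


open Finset Combinatorics

theorem dhjb_swap {X Y : Type} [Fintype X] [Fintype Y] [Nonempty X] (S : X → Y → Prop) {c : ℝ}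
    (h : ∀ x, c ≤ dn {y | S x y}) : c ≤ av fun y => dn {x | S x y} := by
  have h1 : c ≤ av fun x => dn {y | S x y} := le_av h
  have h2 : (av fun x => dn {y | S x y}) = av fun y => dn {x | S x y} := by
    simp only [dn]
    rw [av_comm]
    exact av_congr fun y => av_congr fun x => ind_congr Iff.rfl
  exact h2 ▸ h1

theorem dhjb_sub_elim {α η κ : Type} (i : α) (x : η → Option α) (z : κ → Option α) :
    sub i (Sum.elim x z) = Sum.elim (sub i x) (sub i z) := by
  funext e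
  cases e <;> rfl

theorem dhjb_some_elim {α η κ : Type} (x : η → α) (z : κ → α) :
    (Sum.elim (some ∘ x) (some ∘ z) : η ⊕ κ → Option α) = some ∘ Sum.elim x z := by
  funext e
  cases e <;> rfl

theorem dhjb_no_none {α η : Type} (i : α) {x : η → Option α} (h : ¬ ∃ e, x e = none) :
    some ∘ sub i x = x := by
  funext e
  cases hx : x e with
  | none => exact absurd ⟨e, hx⟩ h
  | some b => simp [sub, hx]

/-- step (1): a word with a `none` whose line lies in `A` for many `y` -/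
theorem dhjb_one {α ι₀ Y : Type} [Fintype α] [Nonempty α] [Fintype ι₀] [DecidableEq ι₀] [Fintype Y]
    [Nonempty Y] {δ₀ : ℝ} (hδ₀ : 0 < δ₀)
    (h : ∀ A : Set (ι₀ → α), δ₀ / 4 ≤ dn A → ∃ l : Line α ι₀, ∀ a, l a ∈ A)
    (S : (ι₀ → α) → Y → Prop) (hS : ∀ x, δ₀ / 2 ≤ dn {y | S x y}) :
    ∃ k : ι₀ → Option α, (∃ e, k e = none) ∧
      δ₀ / 4 / Fintype.card (ι₀ → Option α) ≤ dn {y | ∀ i, S (sub i k) y} := by
  have h1 := dhjb_swap S hS
  have h2 := dn_ge_of_av (f := fun y => dn {x | S x y}) (c := δ₀ / 4) (by linarith)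
    fun y => dn_le_one _
  obtain ⟨k, hk⟩ := dn_pigeon (A := {y | δ₀ / 4 ≤ dn {x | S x y}})
    (fun k : ι₀ → Option α => {y | (∃ e, k e = none) ∧ ∀ i, S (sub i k) y}) fun y hy => by
      obtain ⟨l, hl⟩ := h _ hy
      exact ⟨l.idxFun, l.proper, fun i => hl i⟩
  have hc : (0 : ℝ) < Fintype.card (ι₀ → Option α) := by exact_mod_cast Fintype.card_pos
  have h3 : δ₀ / 4 / Fintype.card (ι₀ → Option α) ≤
      dn {y | (∃ e, k e = none) ∧ ∀ i, S (sub i k) y} :=
    le_trans (div_le_div_of_nonneg_right (by linarith) hc.le) hk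
  obtain ⟨y, hy⟩ := nonempty_of_dn_pos (lt_of_lt_of_le (by positivity) h3)
  exact ⟨k, hy.1, h3.trans (dn_mono fun y hy => hy.2)⟩

/-- step (3) -/
theorem dhjb_three {Y : Type} [Fintype Y] [Nonempty Y] (f g : Y → ℝ) {δ θ ζ : ℝ} (hζ : 0 < ζ)
    (hθ : ζ < θ) (hf : δ - ζ ^ 2 / 2 ≤ av f) (hg : θ ≤ av g) (hg1 : ∀ y, g y ≤ 1) :
    (∃ y, δ + ζ ^ 2 / 2 ≤ f y) ∨ ∃ y, δ - 2 * ζ ≤ f y ∧ θ / 2 ≤ g y := by
  by_cases h : ∃ y, δ + ζ ^ 2 / 2 ≤ f y
  · exact Or.inl h
  right
  push Not at h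
  obtain ⟨y, hy⟩ := exists_av_le fun y => 2 * ζ * g y + f y
  rw [av_add, av_mul] at hy
  have h1 := h y
  have h2 := hg1 y
  have h3 : 2 * ζ * θ ≤ 2 * ζ * av g := mul_le_mul_of_nonneg_left hg (by linarith)
  have h4 : 2 * ζ * g y ≤ 2 * ζ * 1 := mul_le_mul_of_nonneg_left h2 (by linarith)
  have h5 : ζ * ζ < ζ * θ := mul_lt_mul_of_pos_left hθ hζ
  have h6 : 0 < ζ * ζ := mul_pos hζ hζ
  refine ⟨y, by nlinarith, ?_⟩
  have h7 : 2 * ζ * (θ / 2) ≤ 2 * ζ * g y := by nlinarith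
  exact le_of_mul_le_mul_left h7 (by linarith)

/-- Correlation lemma (Dodos, Kanellopoulos, Tyros, Lemmas 7 and 8).
Hint: may assume `δ₀ ≤ 1` inside (from `δ₀ ≤ δ ≤ dn A ≤ 1`). `ι₀` from `h (δ₀/4)`,
`θ = δ₀ / 4 / card (ι₀ → Option α)` (so `θ ≤ δ₀ / 4`, hence `ζ ^ 2 ≤ δ₀`). `ι₁` from `gr α (η ⊕ ι₀)`,
`ι` from `unif (Option α) ι₁ (ζ^2/2)`; get `Y`, `V` with `δ - ζ^2/2 ≤ dn {y | V y x ∈ A}` for all `x`.
Colour `c x = decide (θ ≤ dn {y | ∀ i, V y (some ∘ sub i x) ∈ A})`, get `W`, `b`.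
(1) `b = true`: fix `a₀`; for `x' : ι₀ → α` let `p x' = some ∘ W (Sum.elim (fun _ => a₀) x')`; average
`ind {y | V y (p x') ∈ A}` over `x'`, swap; by `dn_ge_of_av` the set of `y` with
`δ₀ / 4 ≤ dn {x' | V y (p x') ∈ A}` has density `≥ δ₀ / 4`; each has a line; `dn_pigeon` over
`k : ι₀ → Option α` with `B k = {y | (∃ e, k e = none) ∧ ∀ i, V y (p (sub i k)) ∈ A}`; the word
`Sum.elim (fun _ => some a₀) k` has colour `true` (`sub_up`).
(2) Let `U = comp (up W) (inlS (whole η _) fun _ => some a₀)`, `W' y = comp (V y) U`. For every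
`x : η → Option α`: `θ ≤ dn {y | ∀ i, W' y (some ∘ sub i x) ∈ A}` (if `x` has a `none` by the colour of
`Sum.elim x (fun _ => some a₀)`, `up_some`, `sub_up`; otherwise `some ∘ sub i x = x` and the density is
`≥ δ - ζ^2/2 ≥ θ`). So `f y = dn {x | W' y x ∈ A}` has `av f ≥ δ - ζ^2/2` and
`g y = dn {x | ∀ i, W' y (some ∘ sub i x) ∈ A}` has `av g ≥ θ` (`av_comm`).
(3) If all `f y < δ + ζ^2/2`, take `y` with `exists_av_le` for
`g y - (2ζ)⁻¹ * (δ + ζ^2/2 - f y)` (average `≥ θ - ζ/2 > θ/2`), and use `g y ≤ 1`. -/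
theorem corr {α : Type} [Fintype α] [Nonempty α] (h : DHJ α) {δ₀ : ℝ} (hδ₀ : 0 < δ₀) :
    ∃ θ : ℝ, 0 < θ ∧ ∀ ζ : ℝ, 0 < ζ → ζ < θ → ∀ (η : Type) [Fintype η] [DecidableEq η],
      ∃ (ι : Type) (_ : Fintype ι) (_ : DecidableEq ι), ∀ (A : Set (ι → Option α)) (δ : ℝ),
        δ₀ ≤ δ → δ ≤ dn A →
        (∃ W : Subspace η (Option α) ι, δ + ζ ^ 2 / 2 ≤ dn {x : η → Option α | W x ∈ A}) ∨
        ∃ W : Subspace η (Option α) ι, δ - 2 * ζ ≤ dn {x : η → Option α | W x ∈ A} ∧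
          θ / 2 ≤ dn {x : η → Option α | ∀ i, W (some ∘ sub i x) ∈ A} := by
  classical
  obtain ⟨ι₀, _, _, h₀⟩ := h (δ₀ / 4) (by linarith)
  have hc : (1 : ℝ) ≤ Fintype.card (ι₀ → Option α) := by exact_mod_cast Fintype.card_pos
  refine ⟨δ₀ / 4 / Fintype.card (ι₀ → Option α), by positivity, fun ζ hζ hζθ η _ _ => ?_⟩
  set θ := δ₀ / 4 / Fintype.card (ι₀ → Option α) with hθ
  have hθ4 : θ ≤ δ₀ / 4 := div_le_self (by linarith) hc
  obtain ⟨ι₁, _, _, h₁⟩ := gr α (η ⊕ ι₀)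
  obtain ⟨ι, _, _, h₂⟩ := unif (Option α) ι₁ (ε := ζ ^ 2 / 2) (by positivity)
  refine ⟨ι, inferInstance, inferInstance, fun A δ hδ hA => ?_⟩
  obtain ⟨Y, _, _, V, hV⟩ := h₂ A
  have hd1 : δ₀ ≤ 1 := hδ.trans (hA.trans (dn_le_one A))
  have hz : ζ ^ 2 ≤ δ₀ := by nlinarith
  have hV1 : ∀ x, δ - ζ ^ 2 / 2 ≤ dn {y | V y x ∈ A} := fun x => le_trans (by linarith) (hV x)
  have hV2 : ∀ x, δ₀ / 2 ≤ dn {y | V y x ∈ A} := fun x => le_trans (by linarith) (hV1 x)
  obtain ⟨W, b, hW⟩ := h₁ fun x => decide (θ ≤ dn {y | ∀ i, V y (some ∘ sub i x) ∈ A})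
  obtain ⟨a₀⟩ : Nonempty α := inferInstance
  have hb : b = true := by
    obtain ⟨k, ⟨e, he⟩, hk⟩ := dhjb_one hδ₀ h₀
      (fun x' y => V y (some ∘ W (Sum.elim (fun _ => a₀) x')) ∈ A) fun x' => hV2 _
    rw [← hW (Sum.elim (fun _ => some a₀) k) ⟨Sum.inr e, he⟩, decide_eq_true_iff]
    simp only [sub_up, dhjb_sub_elim]
    exact hk
  subst hb
  let U : Subspace η (Option α) ι₁ := comp (up W) (inlS (whole η _) fun _ : ι₀ => some a₀)
  have hU : ∀ x, U x = up W (Sum.elim x fun _ => some a₀) := fun x => by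
    rw [comp_apply, inlS_apply, whole_apply]
  have hU2 : ∀ (i : α) (x : η → Option α), U (some ∘ sub i x) = some ∘ sub i (U x) := fun i x => by
    rw [hU, hU, sub_up, dhjb_sub_elim, ← up_some, ← dhjb_some_elim]
    rfl
  have hf : δ - ζ ^ 2 / 2 ≤ av fun y => dn {x : η → Option α | comp (V y) U x ∈ A} :=
    dhjb_swap (fun x y => comp (V y) U x ∈ A) fun x => by
      simp only [comp_apply]
      exact hV1 _
  have hg : θ ≤ av fun y => dn {x : η → Option α | ∀ i, comp (V y) U (some ∘ sub i x) ∈ A} :=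
    dhjb_swap (fun x y => ∀ i, comp (V y) U (some ∘ sub i x) ∈ A) fun x => by
      simp only [comp_apply]
      by_cases hx : ∃ e, x e = none
      · obtain ⟨e, he⟩ := hx
        have := hW (Sum.elim x fun _ => some a₀) ⟨Sum.inl e, he⟩
        rw [decide_eq_true_iff, ← hU] at this
        simpa only [hU2] using this
      · simp only [dhjb_no_none _ hx]
        refine le_trans (by linarith) ((hV2 (U x)).trans (dn_mono fun y hy _ => hy))
  rcases dhjb_three _ _ hζ hζθ hf hg (fun y => dn_le_one _) with ⟨y, hy⟩ | ⟨y, hy⟩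
  · exact Or.inl ⟨_, hy⟩
  · exact Or.inr ⟨_, hy⟩

end DhjB

section DhjC


open Finset Combinatorics

theorem dhjc_range {η β ι : Type} [Fintype η] [DecidableEq η] [Fintype β] [Fintype ι]
    [DecidableEq ι] (V : Subspace η β ι) (G : (ι → β) → ℝ) (h : av (fun w => G (V w)) ≤ 0) :
    av (fun u => ind (Set.range fun w => V w) u * G u) ≤ 0 := by
  classical
  have e : ∑ u, ind (Set.range fun w => V w) u * G u = ∑ w, G (V w) := by
    rw [← sum_image (s := univ) (f := G) (subspace_injective V).injOn, ← sum_subset (subset_univ _)]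
    · exact sum_congr rfl fun u hu => by rw [ind_of_mem (by simpa using hu), one_mul]
    · exact fun u _ hu => by rw [ind_of_not (by simpa using hu), zero_mul]
  unfold av at h ⊢
  rw [e]
  refine div_nonpos_of_nonpos_of_nonneg ?_ (Nat.cast_nonneg _)
  cases isEmpty_or_nonempty (η → β)
  · simp
  · have : (0 : ℝ) < Fintype.card (η → β) := by exact_mod_cast Fintype.card_pos
    simpa using (div_le_iff₀ this).1 h

theorem dhjc_diff {X : Type} [Fintype X] [Nonempty X] {S C : Set X} {β : ℝ} (hβ : 0 ≤ β)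
    (h1 : C ⊆ S) (h2 : β ≤ dn S → C.Nonempty) :
    dn (S \ C) ≤ dn S - 1 / Fintype.card X * (dn S - β) := by
  classical
  have c : (0 : ℝ) < Fintype.card X := by exact_mod_cast Fintype.card_pos
  by_cases h : β ≤ dn S
  · obtain ⟨x, hx⟩ := h2 h
    have e : dn (S \ C) ≤ av fun u => ind S u - if u = x then 1 else 0 := av_mono fun u => by
      split_ifs with hu
      · rw [hu, ind_of_not fun k => k.2 hx, ind_of_mem (h1 hx)]; simp
      · by_cases k : u ∈ S \ C
        · rw [ind_of_mem k, ind_of_mem k.1]; simp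
        · rw [ind_of_not k, sub_zero]; exact ind_nonneg _ _
    rw [av_sub] at e
    have e2 : av (fun u : X => if u = x then (1 : ℝ) else 0) = 1 / Fintype.card X := by simp [av]
    have := mul_le_of_le_one_right (one_div_pos.2 c).le
      (show dn S - β ≤ 1 by linarith [dn_le_one S])
    rw [e2] at e
    exact e.trans (by unfold dn at this ⊢; linarith)
  · have := mul_nonpos_of_nonneg_of_nonpos (one_div_pos.2 c).le (sub_nonpos.2 (not_le.1 h).le)
    linarith [dn_mono (Set.sdiff_subset (s := S) (t := C))]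

/-- Tiling of an insensitive set.
Hint: `β = b / 2`, `ι₁` from `star h η β`, `ρ = 1 / card (ι₁ → Option α)`. Prove by induction on `t`:
`∃ ι, ∀ i D, Ins i D → Til η D (β + (1 - ρ) ^ t * (dn D - β))`. `t = 0`: any `ι`, use `F ≤ 1`.
Step: `ι = ι₁ ⊕ ι_t`. For `E : Set (ι₁ → Option α)` let
`ch E = if h : ∃ V : Subspace η _ ι₁, ∀ w, V w ∈ E then Set.range h.choose else ∅` (depends only on
the set `E`). Sections `S x = {u | Sum.elim u x ∈ D}` (insensitive), `D' = {z ∈ D | z ∘ inl ∉ ch (S (z ∘ inr))}`.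
If `sub i x = sub i x'` then `S x = S x'`, so each section `{x | Sum.elim u x ∈ D'}` is insensitive.
`ind D = ind D' + ind (ch part)`. The `ch` part contributes `≤ 0`: for fixed `x`,
`∑ u, ind (range V) u * F (Sum.elim u x) = ∑ w, F (inlS V x w) ≤ 0` (`subspace_injective`,
`Finset.sum_image` or `Finset.sum_of_injOn`). The `D'` part is at most
`av fun u => β + q * (dn (section u) - β) = β + q * (dn D' - β)` (hypothesis applied to
`x ↦ F (Sum.elim u x)`, subspaces `inrS u V`). Finally `dn D' - β ≤ (1 - ρ) * (dn D - β)` because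
for each `x`: `dn (S x \ ch (S x)) ≤ dn (S x) - ρ * (dn (S x) - β)` (if `β ≤ dn (S x)` at least one point
is removed and `dn (S x) - β ≤ 1`; otherwise the correction is negative). Take `t` with
`(1 - ρ) ^ t ≤ b / 2` (`exists_pow_lt_of_lt_one`). -/
theorem til_one {α : Type} [Fintype α] [Nonempty α] (h : DHJ α) (η : Type) [Fintype η]
    [DecidableEq η] {b : ℝ} (hb : 0 < b) : ∃ (ι : Type) (_ : Fintype ι) (_ : DecidableEq ι),
      ∀ (i : α) (D : Set (ι → Option α)), Ins i D → Til η D b := by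
  classical
  obtain ⟨ι₁, _, _, h₁⟩ := star h η (half_pos hb)
  set ρ : ℝ := 1 / Fintype.card (ι₁ → Option α) with hρ
  have c : (1 : ℝ) ≤ Fintype.card (ι₁ → Option α) := by exact_mod_cast Fintype.card_pos
  have ρ0 : 0 < ρ := by positivity
  have ρ1 : ρ ≤ 1 := by rw [hρ, div_le_one (by positivity)]; exact c
  have key : ∀ t : ℕ, ∃ (ι : Type) (_ : Fintype ι) (_ : DecidableEq ι),
      ∀ (i : α) (D : Set (ι → Option α)), Ins i D →
        Til η D (b / 2 + (1 - ρ) ^ t * (dn D - b / 2)) := fun t => by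
    induction t with
    | zero =>
      refine ⟨Unit, inferInstance, inferInstance, fun i D _ F hF _ => ?_⟩
      rw [pow_zero, one_mul, add_sub_cancel]
      exact av_mono fun z => mul_le_of_le_one_right (ind_nonneg _ _) (hF z)
    | succ t ih =>
      obtain ⟨ι, _, _, ih⟩ := ih
      refine ⟨ι₁ ⊕ ι, inferInstance, inferInstance, fun i D hD F hF hV => ?_⟩
      let ch : Set (ι₁ → Option α) → Set (ι₁ → Option α) := fun E =>
        if h : ∃ V : Subspace η (Option α) ι₁, ∀ w, V w ∈ E then Set.range fun w => h.choose w else ∅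
      let S : (ι → Option α) → Set (ι₁ → Option α) := fun x => {u | Sum.elim u x ∈ D}
      have se : ∀ {u u' : ι₁ → Option α} {x x' : ι → Option α}, sub i u = sub i u' →
          sub i x = sub i x' → sub i (Sum.elim u x) = sub i (Sum.elim u' x') := fun h1 h2 =>
        funext fun o => by
          cases o with
          | inl o => exact congrFun h1 o
          | inr o => exact congrFun h2 o
      have hS : ∀ x, Ins i (S x) := fun x u u' e => hD _ _ (se e rfl)
      have hS' : ∀ x x', sub i x = sub i x' → S x = S x' := fun x x' e =>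
        Set.ext fun u => ⟨hD _ _ (se rfl e), hD _ _ (se rfl e.symm)⟩
      have hch : ∀ E, ch E ⊆ E := fun E => by
        simp only [ch]
        split_ifs with h
        · rintro _ ⟨w, rfl⟩; exact h.choose_spec w
        · exact Set.empty_subset _
      let T : (ι₁ → Option α) → Set (ι → Option α) := fun u => {x | u ∈ S x \ ch (S x)}
      have hT : ∀ u, Ins i (T u) := fun u x x' e hx => by
        simp only [T, Set.mem_ofPred_eq] at hx ⊢
        rwa [← hS' x x' e]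
      have e1 : ∀ u x, ind D (Sum.elim u x) * F (Sum.elim u x) =
          ind (T u) x * F (Sum.elim u x) + ind (ch (S x)) u * F (Sum.elim u x) := fun u x => by
        by_cases h1 : u ∈ ch (S x)
        · rw [ind_of_mem h1, ind_of_mem (A := D) (hch _ h1), ind_of_not (A := T u) fun k => k.2 h1]
          ring
        · rw [ind_of_not h1, ind_congr (A := D) (B := T u) (y := x) ⟨fun k => ⟨k, h1⟩, fun k => k.1⟩]
          ring
      have e2 : av (fun u => av fun x => ind (ch (S x)) u * F (Sum.elim u x)) ≤ 0 := by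
        rw [av_comm]
        refine av_le fun x => ?_
        simp only [ch]
        split_ifs with h
        · refine dhjc_range _ (fun u => F (Sum.elim u x)) ?_
          simpa only [inlS_apply] using hV (inlS h.choose x)
        · simp [ind, av]
      have e3 : av (fun u => av fun x => ind (T u) x * F (Sum.elim u x)) ≤
          av fun u => b / 2 + (1 - ρ) ^ t * (dn (T u) - b / 2) := av_mono fun u =>
        ih i _ (hT u) _ (fun _ => hF _) fun V => by simpa only [inrS_apply] using hV (inrS u V)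
      have e4 : dn D = av fun x => dn (S x) := by
        rw [dn, av_sum_idx, av_comm]; rfl
      have e5 : av (fun u => dn (T u)) ≤ av fun x => dn (S x) - ρ * (dn (S x) - b / 2) := by
        simp only [dn]
        rw [av_comm]
        refine av_mono fun x => dhjc_diff (half_pos hb).le (hch _) fun k => ?_
        have := h₁ i _ (hS x) k
        simp only [ch, dif_pos this]
        exact Set.range_nonempty _
      rw [av_sub, av_mul, av_sub, av_const, ← e4] at e5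
      rw [av_add, av_mul, av_sub, av_const] at e3
      rw [av_sum_idx]
      simp only [e1, av_add]
      have := mul_le_mul_of_nonneg_left (show av (fun u => dn (T u)) - b / 2 ≤
        (1 - ρ) * (dn D - b / 2) by linarith) (pow_nonneg (sub_nonneg.2 ρ1) t)
      rw [pow_succ, mul_assoc]
      linarith
  obtain ⟨t, ht⟩ := exists_pow_lt_of_lt_one (half_pos hb) (sub_lt_self 1 ρ0)
  obtain ⟨ι, _, _, hι⟩ := key t
  refine ⟨ι, inferInstance, inferInstance, fun i D hD F hF hV => (hι i D hD F hF hV).trans ?_⟩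
  have := mul_le_of_le_one_right (pow_nonneg (sub_nonneg.2 ρ1) t)
    (show dn D - b / 2 ≤ 1 by linarith [dn_le_one D])
  linarith

/-- Tiling of an intersection of insensitive sets.
Hint: prove by induction on `S : Finset α`, for all `η` and `b > 0`, the statement for
`{z | ∀ i ∈ S, z ∈ D i}`. `S = ∅`: `ι = η ⊕ Fin M`, `av_sum_idx`, `av_comm`, `inlS (whole ..) y`.
Insert `i`: `ι'` from `til_one h η (b/2)`, `ι` from the hypothesis for `ι'` and `b / 2`. Given `F` put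
`G z = ind (D i) z * F z - b / 2`. Then `G ≤ 1`, and for `V' : Subspace ι' _ ι` the average of `G (V' u)`
is `≤ 0` by `til_one` for `{u | V' u ∈ D i}` (insensitive by `sub_apply_congr`) and `u ↦ F (V' u)`
(`comp_apply`). Conclude with `dn ≤ 1`. -/
theorem til {α : Type} [Fintype α] [Nonempty α] (h : DHJ α) (η : Type) [Fintype η]
    [DecidableEq η] {b : ℝ} (hb : 0 < b) (M : ℕ) :
    ∃ (ι : Type) (_ : Fintype ι) (_ : DecidableEq ι), M ≤ Fintype.card ι ∧
      ∀ D : α → Set (ι → Option α), (∀ i, Ins i (D i)) → Til η {z | ∀ i, z ∈ D i} b := by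
  classical
  have key : ∀ (S : Finset α) (η : Type) [Fintype η] [DecidableEq η] (b : ℝ), 0 < b →
      ∃ (ι : Type) (_ : Fintype ι) (_ : DecidableEq ι), M ≤ Fintype.card ι ∧
        ∀ D : α → Set (ι → Option α), (∀ i, Ins i (D i)) → Til η {z | ∀ i ∈ S, z ∈ D i} b := by
    intro S
    induction S using Finset.induction_on with
    | empty =>
      intro η _ _ b hb
      refine ⟨η ⊕ Fin M, inferInstance, inferInstance, by simp, fun D _ F _ hV => ?_⟩
      rw [av_sum_idx, av_comm]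
      refine av_le fun y => le_trans (le_of_eq ?_) ((hV (inlS (whole _ _) y)).trans hb.le)
      exact av_congr fun x => by rw [ind_of_mem (by simp), one_mul, inlS_apply]; rfl
    | insert i S hi ih =>
      intro η _ _ b hb
      obtain ⟨ι', _, _, h'⟩ := til_one h η (half_pos hb)
      obtain ⟨ι, _, _, hM, hι⟩ := ih ι' _ (half_pos hb)
      refine ⟨ι, inferInstance, inferInstance, hM, fun D hD F hF hV => ?_⟩
      have k := hι D hD (fun z => ind (D i) z * F z - b / 2) (fun z => by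
        have := mul_le_of_le_one_right (ind_nonneg (D i) z) (hF z)
        linarith [ind_le_one (D i) z]) fun V' => by
          rw [av_sub, av_const, sub_nonpos]
          exact h' i {u | V' u ∈ D i} (fun x y e => hD i _ _ (sub_apply_congr i V' e))
            (fun u => F (V' u)) (fun _ => hF _) fun V => by
              simpa only [comp_apply] using hV (comp V' V)
      have e : ∀ z, ind {z | ∀ j ∈ insert i S, z ∈ D j} z * F z ≤
          ind {z | ∀ j ∈ S, z ∈ D j} z * (ind (D i) z * F z - b / 2) + b / 2 := fun z => by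
        by_cases h1 : z ∈ {z | ∀ j ∈ S, z ∈ D j}
        · rw [ind_of_mem h1, ind_congr (B := D i) (y := z) (by simpa using fun _ => h1)]
          linarith
        · rw [ind_of_not h1, ind_of_not (A := {z | ∀ j ∈ insert i S, z ∈ D j})
            fun k => h1 fun j hj => k j (mem_insert_of_mem hj)]
          linarith
      have := av_mono e
      rw [av_add, av_const] at this
      linarith
  simpa using key univ η b hb

end DhjC

section DhjD


open Finset Combinatorics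

theorem dhjd_range (α ι : Type) [Fintype α] [Fintype ι] [DecidableEq ι] :
    dn (Set.range fun u : ι → α => some ∘ u) =
      ((Fintype.card α : ℝ) / (Fintype.card α + 1)) ^ Fintype.card ι := by
  classical
  have inj : Function.Injective fun u : ι → α => some ∘ u :=
    (Option.some_injective α).comp_left
  have e : ∑ x, ind (Set.range fun u : ι → α => some ∘ u) x = ∑ _u : ι → α, (1 : ℝ) := by
    rw [← sum_image (s := univ) (f := fun _ => (1 : ℝ)) inj.injOn, ← sum_subset (subset_univ _)]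
    · exact sum_congr rfl fun u hu => ind_of_mem (by simpa using hu)
    · exact fun u _ hu => ind_of_not (by simpa using hu)
  rw [dn, av, e]
  simp [div_pow]

/-- Density increment.
Hint: `θ` from `corr`; if `1 < δ₀` everything is vacuous. `k = card α`, `ζ = δ₀ * θ / 16 < θ`,
`γ = min (ζ^2/8) (ζ / 2^(k+1))`. Given `η`: `M` with `(k / (k+1)) ^ M ≤ ζ`, `ι'` from `til h η γ M`, `ι`
from `corr` for `ι'`. Argue by contradiction: no line in `A`, all `η`-subspaces have density `< δ + γ`.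
For `W : Subspace ι' _ ι` let `A' = {x | W x ∈ A}`, `F = ind A' - (δ + γ)`: `F ≤ 1` and all subspace
averages are `≤ 0` (`comp_apply`). Case 1: `D i = univ` gives `dn A' ≤ δ + 2γ`, contradiction.
Case 2: `C i = {x | W (some ∘ sub i x) ∈ A}`; for `s : α → Bool` let `D s i = {x | x ∈ C i ↔ s i = true}`
(insensitive), `P s = {x | ∀ i, x ∈ D s i}`, `∑ s, ind (P s) x = 1`, so `av F = ∑ s, av (ind (P s) * F)`.
Each term is `≤ γ`. For `s = fun _ => true`, `P s = C := ⋂ C i` and the term equals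
`dn (A' ∩ C) - (δ + γ) * dn C ≤ ζ - δ₀ * θ / 2`: a word `x ∈ A' ∩ C` has no `none`, otherwise the line
with `idxFun e = (x e).map some` has `l (some i) = some ∘ sub i x`, `l none = x` and `lcomp W l` lies in
`A`; words without `none` form the range of `fun u => some ∘ u`, of density `(k/(k+1)) ^ card ι' ≤ ζ`.
So `-2ζ - γ ≤ av F ≤ ζ - 8ζ + 2^k γ`, contradiction. -/
theorem inc {α : Type} [Fintype α] [Nonempty α] (h : DHJ α) {δ₀ : ℝ} (hδ₀ : 0 < δ₀) :
    ∃ γ : ℝ, 0 < γ ∧ ∀ (η : Type) [Fintype η] [DecidableEq η],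
      ∃ (ι : Type) (_ : Fintype ι) (_ : DecidableEq ι), ∀ (A : Set (ι → Option α)) (δ : ℝ),
        δ₀ ≤ δ → δ ≤ dn A → (∃ l : Line (Option α) ι, ∀ a, l a ∈ A) ∨
          ∃ W : Subspace η (Option α) ι, δ + γ ≤ dn {x : η → Option α | W x ∈ A} := by
  classical
  obtain ⟨θ, θ0, hθ⟩ := corr h hδ₀
  by_cases h1 : 1 < δ₀
  · exact ⟨1, one_pos, fun η _ _ => ⟨η, inferInstance, inferInstance, fun A δ h2 h3 =>
      absurd (dn_le_one A) (by linarith)⟩⟩
  push Not at h1
  set ζ := δ₀ * θ / 16 with hζ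
  have ζ0 : 0 < ζ := by positivity
  set K : ℝ := (Fintype.card (α → Bool) : ℝ) with hK
  have K1 : 1 ≤ K := by rw [hK]; exact_mod_cast Fintype.card_pos
  set γ := min (ζ ^ 2 / 8) (ζ / K) with hγ
  have γ0 : 0 < γ := lt_min (by positivity) (by positivity)
  have γ1 : γ ≤ ζ ^ 2 / 8 := min_le_left _ _
  have γ2 : K * γ ≤ ζ := by
    rw [mul_comm, ← le_div_iff₀ (by positivity)]; exact min_le_right _ _
  refine ⟨γ, γ0, fun η _ _ => ?_⟩
  have r1 : (Fintype.card α : ℝ) / (Fintype.card α + 1) < 1 := by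
    rw [div_lt_one (by positivity)]; linarith
  obtain ⟨M, hM⟩ := exists_pow_lt_of_lt_one ζ0 r1
  obtain ⟨ι', _, _, hM', ht⟩ := til h η γ0 M
  obtain ⟨ι, _, _, hι⟩ := hθ ζ ζ0 (by nlinarith) ι'
  refine ⟨ι, inferInstance, inferInstance, fun A δ h2 h3 => ?_⟩
  by_contra hn
  push Not at hn
  obtain ⟨n1, n2⟩ := hn
  have tl : ∀ (W : Subspace ι' (Option α) ι) (D : α → Set (ι' → Option α)), (∀ i, Ins i (D i)) →
      av (fun z => ind {z | ∀ i, z ∈ D i} z * (ind {x | W x ∈ A} z - (δ + γ))) ≤ γ :=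
    fun W D hD => ht D hD _ (fun z => by linarith [ind_le_one {x | W x ∈ A} z]) fun V => by
      rw [av_sub, av_const, sub_nonpos]
      refine le_trans (le_of_eq ?_) (n2 (comp W V)).le
      exact av_congr fun u => ind_congr (by simp [comp_apply])
  rcases hι A δ h2 h3 with ⟨W, hW⟩ | ⟨W, hW, hW'⟩
  · have k := tl W (fun _ => Set.univ) fun _ _ _ _ _ => trivial
    rw [av_congr (g := fun z => ind {x | W x ∈ A} z - (δ + γ))
      fun z => by rw [ind_of_mem (by simp), one_mul], av_sub, av_const] at k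
    have : 0 < ζ ^ 2 := by positivity
    unfold dn at hW
    linarith
  · let P : (α → Bool) → Set (ι' → Option α) := fun s =>
      {z | ∀ i, z ∈ {x | W (some ∘ sub i x) ∈ A ↔ s i = true}}
    let F : (ι' → Option α) → ℝ := fun z => ind {x | W x ∈ A} z - (δ + γ)
    have k1 : ∀ s, av (fun z => ind (P s) z * F z) ≤ γ := fun s =>
      tl W _ fun i x y e hx => by
        simp only [Set.mem_ofPred_eq] at hx ⊢
        rwa [← e]
    have k2 : ∀ z, ∑ s, ind (P s) z * F z = F z := fun z => by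
      rw [sum_eq_single (fun i => decide (W (some ∘ sub i z) ∈ A)), ind_of_mem (by simp [P]), one_mul]
      · intro s _ hs
        rw [ind_of_not fun k => hs (funext fun i => ?_), zero_mul]
        have : W (some ∘ sub i z) ∈ A ↔ s i = true := k i
        simp [this]
      · simp
    have k3 : av (fun z => ind (P fun _ => true) z * F z) ≤ ζ - (δ + γ) * (θ / 2) := by
      have e : P (fun _ => true) = {x | ∀ i, W (some ∘ sub i x) ∈ A} := by ext; simp [P]
      have a1 : ∀ z, ind (P fun _ => true) z * F z ≤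
          ind (Set.range fun u : ι' → α => some ∘ u) z - (δ + γ) * ind (P fun _ => true) z := by
        intro z
        simp only [F, mul_sub, mul_comm (δ + γ)]
        refine sub_le_sub_right ?_ _
        by_cases c1 : z ∈ P fun _ => true
        · by_cases c2 : W z ∈ A
          · rw [ind_of_mem c1, ind_of_mem (A := {x | W x ∈ A}) c2, ind_of_mem, mul_one]
            by_contra c3
            have : ∃ e, z e = none := by
              by_contra c4
              push Not at c4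
              choose u hu using fun e => Option.ne_none_iff_exists'.1 (c4 e)
              exact c3 ⟨u, funext fun e => (hu e).symm⟩
            obtain ⟨e', he⟩ := this
            let l : Line (Option α) ι' := ⟨fun e => (z e).map some, e', by simp [he]⟩
            obtain ⟨a, ha⟩ := n1 (lcomp W l)
            rw [lcomp_apply] at ha
            refine ha ?_
            rw [e] at c1
            cases a with
            | none =>
              convert c2 using 2
              funext j; simp only [l, Line.coe_apply]; cases z j <;> rfl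
            | some a =>
              convert c1 a using 2
              funext j; simp only [l, Line.coe_apply, sub, Function.comp]; cases z j <;> rfl
          · rw [ind_of_not (A := {x | W x ∈ A}) c2, mul_zero]; exact ind_nonneg _ _
        · rw [ind_of_not c1, zero_mul]; exact ind_nonneg _ _
      have a2 := av_mono a1
      rw [av_sub, av_mul] at a2
      have a3 := (dhjd_range α ι').trans_le
        ((pow_le_pow_of_le_one (by positivity) r1.le hM').trans hM.le)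
      rw [← e] at hW'
      have := mul_le_mul_of_nonneg_left hW' (show 0 ≤ δ + γ by linarith)
      unfold dn at a3 this
      linarith
    have k4 : av F = ∑ s, av fun z => ind (P s) z * F z := by
      rw [← av_sum]; exact av_congr fun z => (k2 z).symm
    have k5 : ∑ s ∈ univ.erase (fun _ => true), av (fun z => ind (P s) z * F z) ≤ K * γ :=
      (sum_le_card_nsmul _ _ _ fun s _ => k1 s).trans (by
        rw [nsmul_eq_mul]
        exact mul_le_mul_of_nonneg_right (Nat.cast_le.2 (card_le_univ _)) γ0.le)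
    rw [← add_sum_erase _ _ (mem_univ fun _ => true), av_sub, av_const] at k4
    unfold dn at hW
    have := mul_le_mul_of_nonneg_right (show δ₀ ≤ δ + γ by linarith) (half_pos θ0).le
    have := mul_le_mul_of_nonneg_right K1 γ0.le
    linarith

end DhjD

section DhjE


open Finset Combinatorics

/-- Hint: if `α` is empty take `ι = Unit`, `nonempty_of_dn_pos`, `Line.diagonal` (`Option α` is a
subsingleton). Otherwise `γ` from `inc`; induction on `t`:
`∃ ι, ∀ A, δ₀ ≤ dn A → 1 - t * γ < dn A → ∃ l, ∀ a, l a ∈ A` (`t = 0` vacuous; step: `inc` with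
`η = ι_t`, `δ = dn A`, `lcomp`). -/
theorem step {α : Type} [Fintype α] (h : DHJ α) : DHJ (Option α) := by
  intro δ₀ hδ₀
  cases isEmpty_or_nonempty α with
  | inl hα =>
    refine ⟨Unit, inferInstance, inferInstance, fun A hA => ?_⟩
    obtain ⟨x, hx⟩ := nonempty_of_dn_pos (hδ₀.trans_le hA)
    refine ⟨Line.diagonal _ _, fun a => ?_⟩
    have hxa : (Line.diagonal (Option α) Unit) a = x := by
      funext i
      have hs : ∀ b : Option α, b = none := fun b => by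
        cases b with
        | none => rfl
        | some c => exact (IsEmpty.false c).elim
      rw [hs (x i), hs ((Line.diagonal (Option α) Unit) a i)]
    rw [hxa]; exact hx
  | inr hα =>
    obtain ⟨γ, hγ, hinc⟩ := inc h hδ₀
    have key : ∀ t : ℕ, ∃ (ι : Type) (_ : Fintype ι) (_ : DecidableEq ι),
        ∀ A : Set (ι → Option α), δ₀ ≤ dn A → 1 - t * γ < dn A →
          ∃ l : Line (Option α) ι, ∀ a, l a ∈ A := by
      intro t
      induction t with
      | zero =>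
        refine ⟨Unit, inferInstance, inferInstance, fun A _ h1 => ?_⟩
        have h2 := dn_le_one A
        simp only [Nat.cast_zero, zero_mul, sub_zero] at h1
        linarith
      | succ t ih =>
        obtain ⟨η, i1, i2, hη⟩ := ih
        obtain ⟨ι, j1, j2, hι⟩ := hinc η
        refine ⟨ι, j1, j2, fun A h0 h1 => ?_⟩
        rcases hι A (dn A) h0 le_rfl with hl | ⟨W, hW⟩
        · exact hl
        · obtain ⟨l, hl⟩ := hη {x : η → Option α | W x ∈ A} (by linarith)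
            (by push_cast at h1; linarith)
          exact ⟨lcomp W l, fun a => by rw [lcomp_apply]; exact hl a⟩
    obtain ⟨t, ht⟩ := exists_nat_gt (1 / γ)
    obtain ⟨ι, i1, i2, hι⟩ := key t
    refine ⟨ι, i1, i2, fun A hA => hι A hA ?_⟩
    rw [div_lt_iff₀ hγ] at ht
    linarith

theorem dhje_equiv {α β : Type} [Fintype α] [Fintype β] (e : α ≃ β) (h : DHJ α) : DHJ β := by
  intro δ hδ
  obtain ⟨ι, i1, i2, hι⟩ := h δ hδ
  refine ⟨ι, i1, i2, fun A hA => ?_⟩
  have hd : dn {x : ι → α | e ∘ x ∈ A} = dn A := by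
    unfold dn
    rw [← av_equiv (Equiv.arrowCongr (Equiv.refl ι) e) (ind A)]
    exact av_congr fun x => ind_congr Iff.rfl
  obtain ⟨l, hl⟩ := hι {x : ι → α | e ∘ x ∈ A} (hd ▸ hA)
  refine ⟨l.map e, fun b => ?_⟩
  have hb := Line.map_apply e l (e.symm b)
  rw [e.apply_symm_apply] at hb
  rw [hb]
  exact hl (e.symm b)

/-- The density Hales-Jewett theorem.
Hint: `Fintype.induction_empty_option`; for an equivalence `e : α ≃ β` pull `A` back along
`fun x => e ∘ x` (`av_equiv` with `Equiv.arrowCongr`), and use `Line.map`; for `PEmpty` take `ι = Unit`,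
then `dn A = 0`. -/
theorem dhj (α : Type) [Fintype α] : DHJ α := by
  refine Fintype.induction_empty_option (P := fun α _ => DHJ α) ?_ ?_ (fun α _ h => step h) α
  · intro α β _ e h
    let _ : Fintype α := Fintype.ofEquiv β e.symm
    exact dhje_equiv e h
  · intro δ hδ
    refine ⟨Unit, inferInstance, inferInstance, fun A hA => ?_⟩
    obtain ⟨x, -⟩ := nonempty_of_dn_pos (hδ.trans_le hA)
    exact (x ()).elim

theorem dhje_sum {α ι : Type} [Fintype ι] [DecidableEq α] (l : Line α ι) (f : α → ℕ) (a : α) :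
    ∑ e, f (l a e) =
      ∑ e, ((l.idxFun e).map f).getD 0 + f a * #{e | l.idxFun e = none} := by
  rw [card_eq_sum_ones, sum_filter, mul_sum, ← sum_add_distrib]
  refine sum_congr rfl fun e _ => ?_
  rw [Line.coe_apply]
  cases l.idxFun e <;> simp

/-- Two dimensional Szemerédi theorem in `ZMod N`.
Hint: `ι` from `dhj (Fin m × Fin m) δ`, `G = card ι`. For `p : ZMod N × ZMod N` and a word `u` put
`φ p u = (p.1 + ∑ e, ((u e).1 : ℕ), p.2 + ∑ e, ((u e).2 : ℕ))`. For fixed `u`, `p ↦ φ p u` is the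
equivalence `Equiv.addRight`, so `av fun p => av fun u => ind S (φ p u) = dn S` (`av_comm`, `av_equiv`;
treat `m = 0` separately so that words exist). Take `p` by `exists_av_le`, a line `l`, and
`g = #{e | l.idxFun e = none}`; split the sum over `e` as in `exists_mono_homothetic_copy`. -/
theorem sz2 (m : ℕ) {δ : ℝ} (hδ : 0 < δ) : ∃ G : ℕ, ∀ (N : ℕ) [NeZero N]
    (S : Set (ZMod N × ZMod N)), δ ≤ dn S → ∃ (x y : ZMod N) (g : ℕ), 1 ≤ g ∧ g ≤ G ∧
      ∀ i < m, ∀ j < m, (x + ((i * g : ℕ) : ZMod N), y + ((j * g : ℕ) : ZMod N)) ∈ S := by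
  rcases Nat.eq_zero_or_pos m with rfl | hm
  · exact ⟨1, fun N _ S _ => ⟨0, 0, 1, le_rfl, le_rfl, fun i hi => absurd hi (Nat.not_lt_zero i)⟩⟩
  obtain ⟨ι, i1, i2, hι⟩ := dhj (Fin m × Fin m) δ hδ
  refine ⟨Fintype.card ι, fun N _ S hS => ?_⟩
  have : Nonempty (Fin m) := ⟨⟨0, hm⟩⟩
  let ψ : (ι → Fin m × Fin m) → ZMod N × ZMod N := fun u =>
    (((∑ e, ((u e).1 : ℕ) : ℕ) : ZMod N), ((∑ e, ((u e).2 : ℕ) : ℕ) : ZMod N))
  have hav : (av fun p : ZMod N × ZMod N => av fun u : ι → Fin m × Fin m => ind S (p + ψ u))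
      = dn S := by
    rw [av_comm]
    have h1 : ∀ u : ι → Fin m × Fin m,
        (av fun p : ZMod N × ZMod N => ind S (p + ψ u)) = dn S :=
      fun u => av_equiv (Equiv.addRight (ψ u)) (ind S)
    rw [av_congr h1, av_const]
  obtain ⟨p, hp⟩ := exists_av_le
    fun p : ZMod N × ZMod N => av fun u : ι → Fin m × Fin m => ind S (p + ψ u)
  rw [hav] at hp
  have hA : δ ≤ dn {u : ι → Fin m × Fin m | p + ψ u ∈ S} :=
    hS.trans (hp.trans_eq (av_congr fun u => ind_congr Iff.rfl))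
  obtain ⟨l, hl⟩ := hι _ hA
  refine ⟨p.1 + ((∑ e, ((l.idxFun e).map fun c => (c.1 : ℕ)).getD 0 : ℕ) : ZMod N),
    p.2 + ((∑ e, ((l.idxFun e).map fun c => (c.2 : ℕ)).getD 0 : ℕ) : ZMod N),
    #{e | l.idxFun e = none}, ?_, card_le_univ _, fun i hi j hj => ?_⟩
  · obtain ⟨e, he⟩ := l.proper
    exact card_pos.2 ⟨e, mem_filter.2 ⟨mem_univ e, he⟩⟩
  · have h1 : p + ψ (l (⟨i, hi⟩, ⟨j, hj⟩)) ∈ S := hl (⟨i, hi⟩, ⟨j, hj⟩)
    have h2 := dhje_sum l (fun c => (c.1 : ℕ)) (⟨i, hi⟩, ⟨j, hj⟩)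
    have h3 := dhje_sum l (fun c => (c.2 : ℕ)) (⟨i, hi⟩, ⟨j, hj⟩)
    convert h1 using 1
    refine Prod.ext ?_ ?_
    · simp only [ψ, Prod.fst_add]
      rw [h2, Nat.cast_add, add_assoc]
    · simp only [ψ, Prod.snd_add]
      rw [h3, Nat.cast_add, add_assoc]

end DhjE

end Pool.Agent.MP_38296a_co.H88

end

-- part MP_38296a_co.H88.Bes
section

set_option autoImplicit false

namespace Pool.Agent.MP_38296a_co.H88

section BesA


open Finset

variable {X : Type} [DecidableEq X]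

/-- the hash value -/
def besa_H (N p : ℕ) (t : ZMod p) (z : ℤ) : ℕ := N * (t * (z : ZMod p)).val / p

theorem besa_H_lt {N p : ℕ} [NeZero p] (hN : 0 < N) (t : ZMod p) (z : ℤ) : besa_H N p t z < N := by
  apply Nat.div_lt_of_lt_mul
  rw [mul_comm p]
  exact Nat.mul_lt_mul_of_pos_left (ZMod.val_lt _) hN

theorem besa_small {N p : ℕ} [Fact p.Prime] (hN : 0 < N) (hp : N ≤ p) {d : ZMod p} (hd : d ≠ 0) :
    N * #{t : ZMod p | N * (t * d).val < p} ≤ 2 * p := by
  have h : #{t : ZMod p | N * (t * d).val < p} ≤ #(range (p / N + 1)) := by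
    refine card_le_card_of_injOn (fun t => (t * d).val) (fun t ht => ?_) fun t _ u _ e => ?_
    · have h1 := (mem_filter.1 (mem_coe.1 ht)).2
      rw [mem_coe, mem_range, Nat.lt_succ_iff, Nat.le_div_iff_mul_le hN, mul_comm]
      exact h1.le
    · exact mul_right_cancel₀ hd (ZMod.val_injective p e)
  rw [card_range] at h
  have h2 := Nat.mul_div_le p N
  calc _ ≤ N * (p / N + 1) := Nat.mul_le_mul_left _ h
    _ ≤ 2 * p := by rw [mul_add]; omega

theorem besa_close {N p v w : ℕ} (hp : 0 < p) (h : N * v / p = N * w / p) : N * (v - w) < p := by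
  have h1 := Nat.div_add_mod (N * v) p
  have h2 := Nat.div_add_mod (N * w) p
  have h3 := Nat.mod_lt (N * v) hp
  rw [h] at h1
  rw [Nat.mul_sub]
  omega

theorem besa_coll {N p : ℕ} [Fact p.Prime] (hN : 0 < N) (hp : N ≤ p) {z z' : ℤ} (hz : z ≠ z')
    (h : |z - z'| < p) : N * #{t : ZMod p | besa_H N p t z = besa_H N p t z'} ≤ 4 * p := by
  have hp0 : 0 < p := lt_of_lt_of_le hN hp
  have hd : (z : ZMod p) - z' ≠ 0 := by
    intro e
    have e2 : ((z - z' : ℤ) : ZMod p) = 0 := by push_cast; exact e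
    rw [ZMod.intCast_zmod_eq_zero_iff_dvd] at e2
    exact hz (sub_eq_zero.1 (Int.eq_zero_of_abs_lt_dvd e2 h))
  have hd' : (z' : ZMod p) - z ≠ 0 := fun e => hd (by rw [← neg_sub, e, neg_zero])
  have h1 := besa_small hN hp hd
  have h2 := besa_small hN hp hd'
  have h3 : #{t : ZMod p | besa_H N p t z = besa_H N p t z'} ≤
      #{t : ZMod p | N * (t * ((z : ZMod p) - z')).val < p} +
        #{t : ZMod p | N * (t * ((z' : ZMod p) - z)).val < p} := by
    refine le_trans (card_le_card fun t ht => ?_) (card_union_le _ _)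
    have e := (mem_filter.1 ht).2
    rw [mem_union, mem_filter, mem_filter]
    rcases le_total (t * (z' : ZMod p)).val (t * (z : ZMod p)).val with hv | hv
    · left
      refine ⟨mem_univ _, ?_⟩
      rw [mul_sub, ZMod.val_sub hv]
      exact besa_close hp0 e
    · right
      refine ⟨mem_univ _, ?_⟩
      rw [mul_sub, ZMod.val_sub hv]
      exact besa_close hp0 e.symm
  calc _ ≤ N * (_ + _) := Nat.mul_le_mul_left _ h3
    _ ≤ 4 * p := by rw [mul_add]; omega

/-- the label of `b` collides with another label -/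
def besa_bad (N p : ℕ) (A : Finset X) (α : X → ℤ) (t : ZMod p) (b : X) : Prop :=
  ∃ a ∈ A, α a ≠ α b ∧ besa_H N p t (α a) = besa_H N p t (α b)

omit [DecidableEq X] in
open Classical in
theorem besa_bad_card {N p n : ℕ} [Fact p.Prime] (hN : 0 < N) (hp : N ≤ p) {A : Finset X}
    {α : X → ℤ} (hA : #A ≤ n) (hα : ∀ a ∈ A, 2 * |α a| < p) {b : X} (hb : b ∈ A) :
    N * #{t : ZMod p | besa_bad N p A α t b} ≤ n * (4 * p) := by
  have h : #{t : ZMod p | besa_bad N p A α t b} ≤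
      ∑ a ∈ A with α a ≠ α b, #{t : ZMod p | besa_H N p t (α a) = besa_H N p t (α b)} := by
    refine le_trans (card_le_card fun t ht => ?_) card_biUnion_le
    obtain ⟨a, ha, h1, h2⟩ := (mem_filter.1 ht).2
    exact mem_biUnion.2 ⟨a, mem_filter.2 ⟨ha, h1⟩, mem_filter.2 ⟨mem_univ _, h2⟩⟩
  refine (Nat.mul_le_mul_left _ h).trans ?_
  rw [mul_sum]
  refine le_trans (sum_le_card_nsmul _ _ (4 * p) fun a ha => ?_) ?_
  · obtain ⟨ha, h1⟩ := mem_filter.1 ha
    refine besa_coll hN hp h1 ?_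
    have h2 := hα a ha
    have h3 := hα b hb
    have h4 := abs_sub (α a) (α b)
    linarith
  · rw [smul_eq_mul]
    exact Nat.mul_le_mul_right _ ((card_filter_le _ _).trans hA)

theorem besa_sum {N p u v w : ℕ} (hp : 0 < p) (h : p ∣ u + v + w) :
    N ∣ N * u / p + N * v / p + (N * w / p + (N * u % p + N * v % p + N * w % p) / p) := by
  obtain ⟨k, hk⟩ := h
  refine ⟨k, ?_⟩
  have h1 := Nat.div_add_mod (N * u) p
  have h2 := Nat.div_add_mod (N * v) p
  have h3 := Nat.div_add_mod (N * w) p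
  have h4 : p * (N * u / p + N * v / p + N * w / p) + (N * u % p + N * v % p + N * w % p) =
      p * (N * k) := by
    have : N * u + N * v + N * w = p * (N * k) := by rw [← mul_add, ← mul_add, hk]; ring
    rw [mul_add, mul_add]
    omega
  rw [← add_assoc, ← Nat.mul_add_div hp, h4, Nat.mul_div_cancel_left _ hp]

omit [DecidableEq X] in
theorem besa_bound (A : Finset X) (α : X → ℤ) : ∃ M : ℕ, ∀ a ∈ A, 2 * |α a| < M := by
  refine ⟨2 * A.sup (fun a => (α a).natAbs) + 1, fun a ha => ?_⟩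
  have h : (α a).natAbs ≤ A.sup fun a => (α a).natAbs := le_sup (f := fun a => (α a).natAbs) ha
  rw [Int.abs_eq_natAbs]
  omega

omit [DecidableEq X] in
theorem besa_inj {N p : ℕ} [NeZero p] (hN : 0 < N) {A : Finset X} {α : X → ℤ} {t : ZMod p}
    {a b : X} (ha : a ∈ A) (hb : ¬ besa_bad N p A α t b)
    (h : (besa_H N p t (α a) : ZMod N) = besa_H N p t (α b)) : α a = α b := by
  by_contra hne
  refine hb ⟨a, ha, hne, ?_⟩
  have h1 := congrArg ZMod.val h
  rwa [ZMod.val_natCast_of_lt (besa_H_lt hN _ _), ZMod.val_natCast_of_lt (besa_H_lt hN _ _)] at h1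

/-- Hashing integer labels into `ZMod (24 n)`.
Hint: `N = 24 n`. Take a prime `p > N` with `p > 2 * |label|` for all labels on `A ∪ B ∪ C`
(`Nat.exists_infinite_primes`). For `t : ZMod p`, `z : ℤ` let `H t z : ℕ = N * (t * z).val / p < N`.
Collision lemma: if `z ≠ z'`, `|z - z'| < p` then `N * #{t | H t z = H t z'} ≤ 4 * p`: the map
`t ↦ t * (z - z')` is injective and its value `u` has `N * u.val < p` or `N * (-u).val < p`
(`ZMod.val_sub`), and `#{u | N * u.val < p} ≤ p / N + 1`. Call `x ∈ T` bad for `t` if some `a ∈ A` has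
`α a ≠ α x.1`, `H t (α a) = H t (α x.1)`, or the same for `B`, `C`. For fixed `x`,
`N * #{t | x bad} ≤ 3 * n * (4 * p)`; double counting (`Finset.sum_card_bipartiteAbove_eq_sum_card_bipartiteBelow`
or `sum_comm` of indicators) gives `t` with at most half of the triples bad. For `x ∈ T`, with `v_i` the three `val`s,
`p ∣ v₁ + v₂ + v₃`; with `r_i = N * v_i % p`, `s x = (r₁ + r₂ + r₃) / p < 3` and
`N ∣ H₁ + H₂ + H₃ + s x`. Use `pigeon` for `s` on the good triples, `h c = H t (γ c) + s₀`. -/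
theorem bes_hash {T : Finset (X × X × X)} {A B C : Finset X} {α β γ : X → ℤ} {n : ℕ}
    (hn : 0 < n) (hI : In T A B C) (hA : #A ≤ n) (hB : #B ≤ n) (hC : #C ≤ n)
    (hadd : ∀ x ∈ T, α x.1 + β x.2.1 + γ x.2.2 = 0) (hinj : Inj3 T α β γ) :
    ∃ f g h : X → ZMod (24 * n), ∃ T' ⊆ T, #T ≤ 6 * #T' ∧
      (∀ x ∈ T', f x.1 + g x.2.1 + h x.2.2 = 0) ∧ Inj3 T' f g h := by
  classical
  obtain ⟨MA, hMA⟩ := besa_bound A α
  obtain ⟨MB, hMB⟩ := besa_bound B β
  obtain ⟨MC, hMC⟩ := besa_bound C γ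
  obtain ⟨p, hp, hpp⟩ := Nat.exists_infinite_primes (24 * n + MA + MB + MC)
  have : Fact p.Prime := ⟨hpp⟩
  have hN : 0 < 24 * n := by omega
  have hNp : 24 * n ≤ p := by omega
  have hp0 : 0 < p := by omega
  have hα : ∀ a ∈ A, 2 * |α a| < p := fun a ha => (hMA a ha).trans_le (by omega)
  have hβ : ∀ a ∈ B, 2 * |β a| < p := fun a ha => (hMB a ha).trans_le (by omega)
  have hγ : ∀ a ∈ C, 2 * |γ a| < p := fun a ha => (hMC a ha).trans_le (by omega)
  obtain ⟨Bad, hBad⟩ : ∃ Bad : ZMod p → X × X × X → Prop, Bad = fun t x =>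
    besa_bad (24 * n) p A α t x.1 ∨ besa_bad (24 * n) p B β t x.2.1 ∨
      besa_bad (24 * n) p C γ t x.2.2 := ⟨_, rfl⟩
  have h1 : ∀ x ∈ T, 2 * #{t : ZMod p | Bad t x} ≤ p := by
    intro x hx
    have a1 := besa_bad_card hN hNp hA hα (hI x hx).1
    have a2 := besa_bad_card hN hNp hB hβ (hI x hx).2.1
    have a3 := besa_bad_card hN hNp hC hγ (hI x hx).2.2
    have a4 : #{t : ZMod p | Bad t x} ≤ #{t : ZMod p | besa_bad (24 * n) p A α t x.1} +
        (#{t : ZMod p | besa_bad (24 * n) p B β t x.2.1} +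
          #{t : ZMod p | besa_bad (24 * n) p C γ t x.2.2}) := by
      refine le_trans (card_le_card fun t ht => ?_)
        ((card_union_le _ _).trans (Nat.add_le_add_left (card_union_le _ _) _))
      have e := (mem_filter.1 ht).2
      rw [hBad] at e
      simpa only [mem_union, mem_filter, mem_univ, true_and] using e
    have a5 := Nat.mul_le_mul_left (24 * n) a4
    rw [mul_add, mul_add] at a5
    refine Nat.le_of_mul_le_mul_left (c := 12 * n) ?_ (by omega)
    calc 12 * n * (2 * #{t : ZMod p | Bad t x}) = 24 * n * #{t : ZMod p | Bad t x} := by ring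
      _ ≤ n * (4 * p) + (n * (4 * p) + n * (4 * p)) :=
        a5.trans (Nat.add_le_add a1 (Nat.add_le_add a2 a3))
      _ = 12 * n * p := by ring
  have h2 : ∑ t : ZMod p, 2 * #{x ∈ T | Bad t x} ≤ ∑ _t : ZMod p, #T := by
    rw [← mul_sum, sum_const, card_univ, ZMod.card, smul_eq_mul]
    have e : ∑ t : ZMod p, #{x ∈ T | Bad t x} = ∑ x ∈ T, #{t : ZMod p | Bad t x} := by
      simp only [card_filter]
      exact sum_comm
    rw [e, mul_sum, mul_comm p, ← smul_eq_mul]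
    exact sum_le_card_nsmul _ _ _ h1
  obtain ⟨t, -, ht⟩ := exists_le_of_sum_le univ_nonempty h2
  have h3 : #{x ∈ T | Bad t x} + #{x ∈ T | ¬ Bad t x} = #T :=
    card_filter_add_card_filter_not (s := T) (Bad t)
  obtain ⟨s, hs⟩ : ∃ s : X × X × X → ℕ, s = fun x =>
    (24 * n * (t * (α x.1 : ZMod p)).val % p + 24 * n * (t * (β x.2.1 : ZMod p)).val % p +
      24 * n * (t * (γ x.2.2 : ZMod p)).val % p) / p := ⟨_, rfl⟩
  have h4 : #(({x ∈ T | ¬ Bad t x} : Finset _).image s) ≤ 3 := by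
    refine le_trans (card_le_card fun k hk => ?_) (card_range 3).le
    obtain ⟨x, -, rfl⟩ := mem_image.1 hk
    rw [mem_range, hs]
    apply Nat.div_lt_of_lt_mul
    have b1 := Nat.mod_lt (24 * n * (t * (α x.1 : ZMod p)).val) hp0
    have b2 := Nat.mod_lt (24 * n * (t * (β x.2.1 : ZMod p)).val) hp0
    have b3 := Nat.mod_lt (24 * n * (t * (γ x.2.2 : ZMod p)).val) hp0
    omega
  obtain ⟨T', hT', hc, hs'⟩ := pigeon _ s h4
  obtain ⟨s₀, hs₀⟩ : ∃ s₀, ∀ x ∈ T', s x = s₀ := by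
    rcases T'.eq_empty_or_nonempty with rfl | ⟨y, hy⟩
    · exact ⟨0, by simp⟩
    · exact ⟨s y, fun x hx => hs' x hx y hy⟩
  have hT : ∀ x ∈ T', x ∈ T := fun x hx => (mem_filter.1 (hT' hx)).1
  have hG : ∀ x ∈ T', ¬ besa_bad (24 * n) p A α t x.1 ∧ ¬ besa_bad (24 * n) p B β t x.2.1 ∧
      ¬ besa_bad (24 * n) p C γ t x.2.2 := fun x hx => by
    have e := (mem_filter.1 (hT' hx)).2
    rw [hBad] at e
    simpa only [not_or] using e
  refine ⟨fun a => besa_H (24 * n) p t (α a), fun a => besa_H (24 * n) p t (β a),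
    fun a => besa_H (24 * n) p t (γ a) + s₀, T', hT, by omega, fun x hx => ?_,
    fun x hx y hy => ⟨fun e => ?_, fun e => ?_, fun e => ?_⟩⟩
  · have d : p ∣ (t * (α x.1 : ZMod p)).val + (t * (β x.2.1 : ZMod p)).val +
        (t * (γ x.2.2 : ZMod p)).val := by
      rw [← ZMod.natCast_eq_zero_iff]
      push_cast
      simp only [ZMod.natCast_val, ZMod.cast_id', id_eq]
      have e : ((α x.1 + β x.2.1 + γ x.2.2 : ℤ) : ZMod p) = 0 := by rw [hadd x (hT x hx)]; simp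
      push_cast at e
      rw [← mul_add, ← mul_add, e, mul_zero]
    have d2 := besa_sum (N := 24 * n) hp0 d
    rw [← ZMod.natCast_eq_zero_iff] at d2
    rw [← hs₀ x hx, hs]
    simp only [besa_H]
    rw [← Nat.cast_add, ← Nat.cast_add, ← Nat.cast_add]
    exact d2
  · exact (hinj x (hT x hx) y (hT y hy)).1 (besa_inj hN (hI x (hT x hx)).1 (hG y hy).1 e)
  · exact (hinj x (hT x hx) y (hT y hy)).2.1
      (besa_inj hN (hI x (hT x hx)).2.1 (hG y hy).2.1 e)
  · exact (hinj x (hT x hx) y (hT y hy)).2.2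
      (besa_inj hN (hI x (hT x hx)).2.2 (hG y hy).2.2 (add_right_cancel e))

end BesA

section BesB


open Finset

theorem besb_col {X : Type} [DecidableEq X] (A : Finset X) (α : X → ℤ) {M : ℕ}
    (hA : ∀ z, cl A α z ≤ M) : ∃ col : X → ℕ, (∀ a ∈ A, col a < M) ∧
      ∀ a ∈ A, ∀ b ∈ A, col a = col b → α a = α b → a = b := by
  obtain ⟨e, he⟩ : ∃ e : X → ℕ, ∀ a ∈ A, ∀ b ∈ A, e a = e b → a = b :=
    ⟨fun a => A.toList.idxOf a, fun a ha b _ h => (List.idxOf_inj (mem_toList.2 ha)).1 h⟩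
  have key : ∀ a ∈ A, ∀ b ∈ A, α a = α b → e a < e b →
      #{c ∈ A | α c = α a ∧ e c < e a} < #{c ∈ A | α c = α b ∧ e c < e b} := by
    intro a ha b _ hab hlt
    refine card_lt_card ⟨fun c hc => ?_, fun h => ?_⟩
    · obtain ⟨h1, h2, h3⟩ := mem_filter.1 hc
      exact mem_filter.2 ⟨h1, h2.trans hab, h3.trans hlt⟩
    · exact lt_irrefl _ (mem_filter.1 (h (mem_filter.2 ⟨ha, hab, hlt⟩))).2.2
  refine ⟨fun a => #{c ∈ A | α c = α a ∧ e c < e a}, fun a ha => ?_, fun a ha b hb h hab => ?_⟩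
  · refine lt_of_lt_of_le (card_lt_card ⟨fun c hc => ?_, fun h => ?_⟩) (hA (α a))
    · obtain ⟨h1, h2, -⟩ := mem_filter.1 hc
      exact mem_filter.2 ⟨h1, h2⟩
    · exact lt_irrefl _ (mem_filter.1 (h (mem_filter.2 ⟨ha, rfl⟩))).2.2
  · rcases lt_trichotomy (e a) (e b) with h1 | h1 | h1
    · exact absurd h (key a ha b hb hab h1).ne
    · exact he a ha b hb h1
    · exact absurd h (key b hb a ha hab.symm h1).ne'

/-- Colouring inside the label classes.
Hint: for one finset `A`: fix `e : X → ℕ` injective on `A` (e.g. `A.toList.idxOf`, or `A.equivFin`), put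
`col a = #{a' ∈ A | α a' = α a ∧ e a' < e a}`; then `col a < cl A α (α a) ≤ M` and `col` is injective
on each class (`card_lt_card`). Then `pigeon` with `x ↦ (colA x.1, colB x.2.1, colC x.2.2)`, whose
image lies in `range M ×ˢ range M ×ˢ range M`. -/
theorem bes_col {X : Type} [DecidableEq X] {T : Finset (X × X × X)} {A B C : Finset X}
    {α β γ : X → ℤ} {M : ℕ} (hI : In T A B C) (hA : ∀ z, cl A α z ≤ M) (hB : ∀ z, cl B β z ≤ M)
    (hC : ∀ z, cl C γ z ≤ M) : ∃ T' ⊆ T, #T ≤ M ^ 3 * #T' ∧ Inj3 T' α β γ := by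
  obtain ⟨cA, a1, a2⟩ := besb_col A α hA
  obtain ⟨cB, b1, b2⟩ := besb_col B β hB
  obtain ⟨cC, c1, c2⟩ := besb_col C γ hC
  obtain ⟨T', hs, h1, h2⟩ := pigeon T (fun x => (cA x.1, cB x.2.1, cC x.2.2)) (N := M ^ 3) (by
    refine le_trans (card_le_card (t := range M ×ˢ range M ×ˢ range M) fun y hy => ?_) ?_
    · obtain ⟨x, hx, rfl⟩ := mem_image.1 hy
      obtain ⟨h1, h2, h3⟩ := hI x hx
      simp only [mem_product, mem_range]
      exact ⟨a1 _ h1, b1 _ h2, c1 _ h3⟩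
    · simp only [card_product, card_range]
      exact le_of_eq (by ring))
  refine ⟨T', hs, h1, fun x hx y hy => ?_⟩
  obtain ⟨x1, x2, x3⟩ := hI x (hs hx)
  obtain ⟨y1, y2, y3⟩ := hI y (hs hy)
  have h := h2 x hx y hy
  simp only [Prod.mk.injEq] at h
  exact ⟨a2 _ x1 _ y1 h.1, b2 _ x2 _ y2 h.2.1, c2 _ x3 _ y3 h.2.2⟩

theorem besb_card {X Y Z : Type} [DecidableEq X] [DecidableEq Y] (T : Finset Z) (p : Z → X)
    (f : X → Y) (hf : ∀ x ∈ T, ∀ y ∈ T, f (p x) = f (p y) → p x = p y) (U : Finset Y) :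
    #{a ∈ T.image p | f a ∈ U} ≤ #U := by
  refine card_le_card_of_injOn f (fun a ha => (mem_filter.1 ha).2) fun a ha b hb h => ?_
  obtain ⟨x, hx, rfl⟩ := mem_image.1 (mem_filter.1 ha).1
  obtain ⟨y, hy, rfl⟩ := mem_image.1 (mem_filter.1 hb).1
  exact hf x hx y hy h

theorem besb_dn {Y : Type} [Fintype Y] (S : Finset Y) : dn (S : Set Y) = #S / Fintype.card Y := by
  classical
  simp only [dn, av, ind, mem_coe]
  congr 1
  simp

theorem besb_inj {N m G g i j : ℕ} (hN : m * G + 1 ≤ N) (h1 : 1 ≤ g) (hg : g ≤ G) (hi : i < m)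
    (hj : j < m) (h : ((i * g : ℕ) : ZMod N) = ((j * g : ℕ) : ZMod N)) : i = j := by
  rw [ZMod.natCast_eq_natCast_iff', Nat.mod_eq_of_lt, Nat.mod_eq_of_lt] at h
  · exact Nat.eq_of_mul_eq_mul_right h1 h
  · exact lt_of_le_of_lt (Nat.mul_le_mul hj.le hg) hN
  · exact lt_of_le_of_lt (Nat.mul_le_mul hi.le hg) hN

/-- Hint: `G` from `sz2 m hδ`, `N₀ = m * G + 1`. `S` = image of `T` under `x ↦ (f x.1, g x.2.1)`
(injective on `T` by `Inj3` and `Lin`), `dn S = #T / N^2`. Get `x y g₀`, choose triples `t i j ∈ T`.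
`A₀ = {a ∈ T.image fst | f a ∈ (range m).image fun i => x + i g₀}` has at most `m` elements (`f` is
injective there), same for `B₀`; `C₀` uses `(range (2 m)).image fun l => -(x + y + l g₀)`. The map
`(i, j) ↦ t i j` is injective on `range m ×ˢ range m` since `i * g₀ < N`
(`ZMod.natCast_eq_natCast_iff'`). -/
theorem bes_grid (m : ℕ) {δ : ℝ} (hδ : 0 < δ) : ∃ N₀ : ℕ, ∀ (N : ℕ) [NeZero N], N₀ ≤ N →
    ∀ (X : Type) [DecidableEq X] (T : Finset (X × X × X)) (f g h : X → ZMod N), Lin T →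
      (∀ x ∈ T, f x.1 + g x.2.1 + h x.2.2 = 0) → Inj3 T f g h → δ * (N : ℝ) ^ 2 ≤ #T →
      Grid T m := by
  obtain ⟨G, hG⟩ := sz2 m hδ
  refine ⟨m * G + 1, fun N _ hN X _ T f g h hL hadd hinj hT => ?_⟩
  have hc : #(T.image fun x => (f x.1, g x.2.1)) = #T :=
    card_image_of_injOn fun x hx y hy e => hL x hx y hy (Or.inl
      ⟨(hinj x hx y hy).1 (Prod.mk.inj e).1, (hinj x hx y hy).2.1 (Prod.mk.inj e).2⟩)
  have hN0 : (0 : ℝ) < N := by exact_mod_cast Nat.pos_of_ne_zero (NeZero.ne N)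
  obtain ⟨x, y, g₀, h1, h2, h3⟩ := hG N (T.image fun x => (f x.1, g x.2.1)) (by
    rw [besb_dn, hc, Fintype.card_prod, ZMod.card, le_div_iff₀ (by push_cast; positivity)]
    push_cast
    rwa [← sq])
  refine ⟨{a ∈ T.image Prod.fst | f a ∈ (range m).image fun i => x + ((i * g₀ : ℕ) : ZMod N)},
    {a ∈ T.image (fun t => t.2.1) | g a ∈ (range m).image fun i => y + ((i * g₀ : ℕ) : ZMod N)},
    {a ∈ T.image (fun t => t.2.2) |
      h a ∈ (range (2 * m)).image fun i => -(x + y + ((i * g₀ : ℕ) : ZMod N))}, ?_, ?_, ?_, ?_⟩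
  · exact (besb_card T _ f (fun x hx y hy => (hinj x hx y hy).1) _).trans
      (card_image_le.trans (card_range _).le)
  · exact (besb_card T _ g (fun x hx y hy => (hinj x hx y hy).2.1) _).trans
      (card_image_le.trans (card_range _).le)
  · exact (besb_card T _ h (fun x hx y hy => (hinj x hx y hy).2.2) _).trans
      (card_image_le.trans (card_range _).le)
  · have hU : #((range m ×ˢ range m).image fun q : ℕ × ℕ =>
        (x + ((q.1 * g₀ : ℕ) : ZMod N), y + ((q.2 * g₀ : ℕ) : ZMod N))) = m ^ 2 := by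
      rw [card_image_of_injOn, card_product, card_range, sq]
      intro q hq r hr e
      simp only [coe_product, coe_range, Set.mem_prod, Set.mem_Iio] at hq hr
      obtain ⟨e1, e2⟩ := Prod.mk.inj e
      exact Prod.ext (besb_inj hN h1 h2 hq.1 hr.1 (add_left_cancel e1))
        (besb_inj hN h1 h2 hq.2 hr.2 (add_left_cancel e2))
    rw [← hU]
    refine le_trans (card_le_card fun z hz => ?_)
      (card_image_le (f := fun t : X × X × X => (f t.1, g t.2.1)))
    obtain ⟨q, hq, rfl⟩ := mem_image.1 hz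
    obtain ⟨q1, q2⟩ := mem_product.1 hq
    obtain ⟨t, ht, e⟩ := mem_image.1 (mem_coe.1 (h3 q.1 (mem_range.1 q1) q.2 (mem_range.1 q2)))
    obtain ⟨e1, e2⟩ := Prod.mk.inj e
    refine mem_image.2 ⟨t, mem_filter.2 ⟨ht, ?_, ?_, ?_⟩, e⟩
    · exact mem_filter.2 ⟨mem_image_of_mem _ ht, mem_image.2 ⟨q.1, q1, e1.symm⟩⟩
    · exact mem_filter.2 ⟨mem_image_of_mem _ ht, mem_image.2 ⟨q.2, q2, e2.symm⟩⟩
    · refine mem_filter.2 ⟨mem_image_of_mem _ ht, mem_image.2 ⟨q.1 + q.2, ?_, ?_⟩⟩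
      · have := mem_range.1 q1
        have := mem_range.1 q2
        exact mem_range.2 (by omega)
      · have h4 := hadd t ht
        rw [e1, e2] at h4
        push_cast at h4 ⊢
        linear_combination -h4

/-- Dense additive triple systems with bounded label classes contain grids.
Hint: `n = max #A (max #B #C)`, `δ n^2 ≤ #T ≤ #A * #B ≤ n^2` (`Lin.card_le`). `bes_col`, `bes_hash`,
`bes_grid` with `δ / (6 * (M+1)^3 * 24^2)`; `n₀ = N₀ ^ 2 + 1`; `Grid.mono`. -/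
theorem bes (m M : ℕ) {δ : ℝ} (hδ : 0 < δ) : ∃ n₀ : ℕ, ∀ (X : Type) [DecidableEq X]
    (T : Finset (X × X × X)) (A B C : Finset X) (α β γ : X → ℤ), In T A B C → Lin T →
      (∀ x ∈ T, α x.1 + β x.2.1 + γ x.2.2 = 0) →
      (∀ z, cl A α z ≤ M) → (∀ z, cl B β z ≤ M) → (∀ z, cl C γ z ≤ M) →
      δ * (#A : ℝ) ^ 2 ≤ #T → δ * (#B : ℝ) ^ 2 ≤ #T → δ * (#C : ℝ) ^ 2 ≤ #T → n₀ ≤ #T →
      Grid T m := by
  obtain ⟨N₀, hN⟩ := bes_grid m (δ := δ / (6 * ((M : ℝ) + 1) ^ 3 * 24 ^ 2)) (by positivity)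
  refine ⟨N₀ ^ 2 + 1, fun X _ T A B C α β γ hI hL hadd hA hB hC dA dB dC hT => ?_⟩
  obtain ⟨n, nA, nB, nC, dn⟩ : ∃ n : ℕ, #A ≤ n ∧ #B ≤ n ∧ #C ≤ n ∧ δ * (n : ℝ) ^ 2 ≤ #T := by
    rcases le_total #A #B with h1 | h1
    · rcases le_total #B #C with h2 | h2
      · exact ⟨_, h1.trans h2, h2, le_rfl, dC⟩
      · exact ⟨_, h1, le_rfl, h2, dB⟩
    · rcases le_total #A #C with h2 | h2
      · exact ⟨_, h2, h1.trans h2, le_rfl, dC⟩
      · exact ⟨_, le_rfl, h1, h2, dA⟩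
  have h1 : N₀ ^ 2 < n ^ 2 := by
    have h2 := (hL.card_le hI).1.trans (Nat.mul_le_mul nA nB)
    rw [← sq] at h2
    omega
  have h2 : N₀ < n := lt_of_pow_lt_pow_left₀ 2 (Nat.zero_le _) h1
  obtain ⟨T₁, s1, c1, i1⟩ := bes_col hI hA hB hC
  obtain ⟨f, g, h, T₂, s2, c2, a2, i2⟩ := bes_hash (n := n) (by omega) (fun x hx => hI x (s1 hx))
    nA nB nC (fun x hx => hadd x (s1 hx)) i1
  have : NeZero (24 * n) := ⟨by omega⟩
  refine (hN (24 * n) (by omega) X T₂ f g h (hL.mono (s2.trans s1)) a2 i2 ?_).mono (s2.trans s1)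
  have c1' : (#T : ℝ) ≤ (M : ℝ) ^ 3 * #T₁ := by exact_mod_cast c1
  have c2' : (#T₁ : ℝ) ≤ 6 * #T₂ := by exact_mod_cast c2
  rw [div_mul_eq_mul_div, div_le_iff₀ (by positivity)]
  push_cast
  calc δ * (24 * (n : ℝ)) ^ 2 = 24 ^ 2 * (δ * (n : ℝ) ^ 2) := by ring
    _ ≤ 24 ^ 2 * (((M : ℝ) + 1) ^ 3 * (6 * #T₂)) := by
        refine mul_le_mul_of_nonneg_left (dn.trans (c1'.trans ?_)) (by positivity)
        gcongr
        linarith
    _ = _ := by ring

end BesB

section TreeA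


open Finset

theorem treea_real {D a b c t : ℝ} (ha : 0 < a) (hb : 0 < b) (hc : 0 < c) (ht : 0 < t)
    (hD : D * (a * b * c) ^ 2 ≤ t ^ 3) (h2 : t ≤ b * c) (h3 : t ≤ c * a) : D * (a * b) ≤ t := by
  have h4 : t * t ≤ (b * c) * (c * a) := mul_le_mul h2 h3 ht.le (by positivity)
  have h5 : t ^ 3 ≤ t * ((b * c) * (c * a)) := by
    rw [show t ^ 3 = t * (t * t) by ring]
    exact mul_le_mul_of_nonneg_left h4 ht.le
  have h6 : D * (a * b) * ((b * c) * (c * a)) ≤ t * ((b * c) * (c * a)) := by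
    refine le_trans (le_of_eq ?_) (hD.trans h5)
    ring
  exact le_of_mul_le_mul_right h6 (by positivity)

theorem treea_real2 {D a b c t : ℝ} (h0 : 0 < D) (ha : 0 < a) (hb : 0 < b) (hc : 0 < c)
    (ht : 0 < t) (h1 : D * (a * b) ≤ t) (h2 : D * (c * a) ≤ t) (h3 : t ≤ b * c) :
    D ^ 2 * a ^ 2 ≤ t := by
  have h4 : D * (a * b) * (D * (c * a)) ≤ t * t := mul_le_mul h1 h2 (by positivity) ht.le
  have h5 : t * t ≤ t * (b * c) := mul_le_mul_of_nonneg_left h3 ht.le
  have h6 : D ^ 2 * a ^ 2 * (b * c) ≤ t * (b * c) := by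
    refine le_trans (le_of_eq ?_) (h4.trans h5)
    ring
  exact le_of_mul_le_mul_right h6 (by positivity)

theorem treea_sdiff {X : Type} [DecidableEq X] {A A' : Finset X} (hA : A' ⊆ A) {ψ : ℝ}
    (ha : (1 - ψ) * #A ≤ #A') : (#(A \ A') : ℝ) ≤ ψ * #A := by
  have h := card_sdiff_add_card_eq_card hA
  have h' : (#(A \ A') : ℝ) + #A' = #A := by exact_mod_cast h
  linarith

theorem treea_out {D ψ a b a' b' s t : ℝ} (h0 : 0 < D) (hψ : 0 ≤ ψ) (ha : 0 ≤ a)
    (hb' : 0 ≤ b') (h1 : a' ≤ ψ * a) (h2 : b' ≤ ψ * b) (hs : s ≤ a' * b') (ht : D * (a * b) ≤ t) :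
    D * s ≤ ψ ^ 2 * t := by
  have h3 : a' * b' ≤ (ψ * a) * (ψ * b) := mul_le_mul h1 h2 hb' (by positivity)
  have h4 : D * s ≤ D * ((ψ * a) * (ψ * b)) := mul_le_mul_of_nonneg_left (hs.trans h3) h0.le
  have h5 : ψ ^ 2 * (D * (a * b)) ≤ ψ ^ 2 * t := mul_le_mul_of_nonneg_left ht (by positivity)
  refine h4.trans (le_trans (le_of_eq ?_) h5)
  ring

theorem treea_poly {ψ : ℝ} (h0 : 0 ≤ ψ) (h1 : ψ ≤ 1 / 50) :
    (1 + ψ / 4) * (1 - ψ / 2) ^ 2 ≤ (1 - 3 / 50 * ψ) ^ 3 := by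
  have h2 : ψ ^ 2 ≤ ψ / 50 := by nlinarith
  have h3 : ψ ^ 3 ≤ ψ / 50 := by nlinarith
  have h4 : 0 ≤ ψ ^ 2 := by positivity
  have h5 : 0 ≤ ψ ^ 3 := by positivity
  have e1 : (1 + ψ / 4) * (1 - ψ / 2) ^ 2 = 1 - 3 / 4 * ψ + ψ ^ 3 / 16 := by ring
  have e2 : (1 - 3 / 50 * ψ) ^ 3 =
      1 - 9 / 50 * ψ + 27 / 2500 * ψ ^ 2 - 27 / 125000 * ψ ^ 3 := by ring
  rw [e1, e2]
  linarith

theorem treea_gain {D ψ P P' s t : ℝ} (h0 : 0 < D) (hD1 : D ≤ 1) (hψ : 0 ≤ ψ) (hψ' : ψ ≤ D / 50)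
    (ht : 0 ≤ t) (hP' : 0 ≤ P') (hP : P' ≤ (1 - ψ / 2) * P) (hD : D * P ^ 2 ≤ t ^ 3)
    (hs : D * t ≤ D * s + 3 * ψ ^ 2 * t) :
    t ≤ 2 * s ∧ (1 + ψ / 4) * D * P' ^ 2 ≤ s ^ 3 := by
  have h1 : ψ ≤ 1 / 50 := by linarith
  have h2 : ψ * t * ψ ≤ ψ * t * (D / 50) := mul_le_mul_of_nonneg_left hψ' (by positivity)
  have h3 : D * ((1 - 3 / 50 * ψ) * t) ≤ D * s := by nlinarith
  have h4 : (1 - 3 / 50 * ψ) * t ≤ s := le_of_mul_le_mul_left h3 h0
  refine ⟨by nlinarith, ?_⟩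
  have h5 : ((1 - 3 / 50 * ψ) * t) ^ 3 ≤ s ^ 3 :=
    pow_le_pow_left₀ (mul_nonneg (by linarith) ht) h4 3
  have h6 : P' ^ 2 ≤ ((1 - ψ / 2) * P) ^ 2 := pow_le_pow_left₀ hP' hP 2
  have h7 : (1 + ψ / 4) * D * P' ^ 2 ≤ (1 + ψ / 4) * D * ((1 - ψ / 2) * P) ^ 2 :=
    mul_le_mul_of_nonneg_left h6 (by positivity)
  have h8 : (1 + ψ / 4) * (1 - ψ / 2) ^ 2 * (D * P ^ 2) ≤ (1 + ψ / 4) * (1 - ψ / 2) ^ 2 * t ^ 3 :=
    mul_le_mul_of_nonneg_left hD (by positivity)
  have h9 : (1 + ψ / 4) * (1 - ψ / 2) ^ 2 * t ^ 3 ≤ (1 - 3 / 50 * ψ) ^ 3 * t ^ 3 :=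
    mul_le_mul_of_nonneg_right (treea_poly hψ h1) (by positivity)
  calc (1 + ψ / 4) * D * P' ^ 2 ≤ (1 + ψ / 4) * D * ((1 - ψ / 2) * P) ^ 2 := h7
    _ = (1 + ψ / 4) * (1 - ψ / 2) ^ 2 * (D * P ^ 2) := by ring
    _ ≤ (1 - 3 / 50 * ψ) ^ 3 * t ^ 3 := h8.trans h9
    _ = ((1 - 3 / 50 * ψ) * t) ^ 3 := by ring
    _ ≤ s ^ 3 := h5

section
variable {X : Type} [DecidableEq X] {T : Finset (X × X × X)} {A B C A' B' C' : Finset X} {D : ℝ}

/-- Hint: `Lin.card_le`; with `a b c t` the real cardinalities (all positive),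
`D (abc)^2 ≤ t^3 ≤ t (bc) (ca)` gives `D a b ≤ t`; `(D a b)(D c a) ≤ t^2 ≤ t (b c)` gives
`D^2 a^2 ≤ t`; `D a b ≤ t ≤ a b` gives `D ≤ 1`. -/
theorem tree_size (hI : In T A B C) (hL : Lin T) (hD : Dns D T A B C) (h0 : 0 < D)
    (hT : T.Nonempty) : D ≤ 1 ∧ (D * (#A * #B) ≤ #T ∧ D * (#B * #C) ≤ #T ∧ D * (#C * #A) ≤ #T) ∧
      D ^ 2 * (#A : ℝ) ^ 2 ≤ #T ∧ D ^ 2 * (#B : ℝ) ^ 2 ≤ #T ∧ D ^ 2 * (#C : ℝ) ^ 2 ≤ #T := by
  obtain ⟨x, hx⟩ := hT
  obtain ⟨h1, h2, h3⟩ := hL.card_le hI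
  have ha : (0 : ℝ) < #A := by exact_mod_cast card_pos.2 ⟨_, (hI x hx).1⟩
  have hb : (0 : ℝ) < #B := by exact_mod_cast card_pos.2 ⟨_, (hI x hx).2.1⟩
  have hc : (0 : ℝ) < #C := by exact_mod_cast card_pos.2 ⟨_, (hI x hx).2.2⟩
  have ht : (0 : ℝ) < #T := by exact_mod_cast card_pos.2 ⟨_, hx⟩
  have h1' : (#T : ℝ) ≤ #A * #B := by exact_mod_cast h1
  have h2' : (#T : ℝ) ≤ #B * #C := by exact_mod_cast h2
  have h3' : (#T : ℝ) ≤ #C * #A := by exact_mod_cast h3
  unfold Dns at hD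
  have k1 := treea_real ha hb hc ht hD h2' h3'
  have k2 := treea_real (D := D) hb hc ha ht (by
    rw [show (#B : ℝ) * #C * #A = #A * #B * #C by ring]; exact hD) h3' h1'
  have k3 := treea_real (D := D) hc ha hb ht (by
    rw [show (#C : ℝ) * #A * #B = #A * #B * #C by ring]; exact hD) h1' h2'
  refine ⟨?_, ⟨k1, k2, k3⟩, treea_real2 h0 ha hb hc ht k1 k3 h2',
    treea_real2 h0 hb hc ha ht k2 k1 h3', treea_real2 h0 hc ha hb ht k3 k2 h1'⟩
  have h4 : D * ((#A : ℝ) * #B) ≤ 1 * (#A * #B) := by linarith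
  exact le_of_mul_le_mul_right h4 (by positivity)

/-- Closed boxes contain almost all triples.
Hint: a triple outside the box has two coordinates outside; `{x ∈ T | x.1 ∉ A' ∧ x.2.1 ∉ B'}` has at
most `#(A \ A') * #(B \ B') ≤ ψ^2 #A #B` elements (`Lin.card_le` with `In _ (A \ A') (B \ B') C`). -/
theorem tree_closed (hI : In T A B C) (hL : Lin T) (hD : Dns D T A B C) (h0 : 0 < D)
    (hc : Closed T A' B' C') (hA : A' ⊆ A) (hB : B' ⊆ B) (hC : C' ⊆ C) {ψ : ℝ} (hψ : 0 ≤ ψ)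
    (ha : (1 - ψ) * #A ≤ #A') (hb : (1 - ψ) * #B ≤ #B') (hc' : (1 - ψ) * #C ≤ #C') :
    D * #T ≤ D * #(box T A' B' C') + 3 * ψ ^ 2 * #T := by
  rcases T.eq_empty_or_nonempty with rfl | hT
  · simp only [card_empty, Nat.cast_zero, mul_zero, add_zero]
    positivity
  obtain ⟨-, ⟨k1, k2, k3⟩, -⟩ := tree_size hI hL hD h0 hT
  set S1 := {x ∈ T | x.1 ∉ A' ∧ x.2.1 ∉ B'} with hS1
  set S2 := {x ∈ T | x.2.1 ∉ B' ∧ x.2.2 ∉ C'} with hS2
  set S3 := {x ∈ T | x.2.2 ∉ C' ∧ x.1 ∉ A'} with hS3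
  have hsub : T ⊆ box T A' B' C' ∪ S1 ∪ S2 ∪ S3 := by
    intro x hx
    have h := hc x hx
    simp only [box, hS1, hS2, hS3, mem_union, mem_filter]
    tauto
  have hcard : #T ≤ #(box T A' B' C') + #S1 + #S2 + #S3 :=
    (card_le_card hsub).trans ((card_union_le _ _).trans (Nat.add_le_add_right
      ((card_union_le _ _).trans (Nat.add_le_add_right (card_union_le _ _) _)) _))
  have hcard' : (#T : ℝ) ≤ #(box T A' B' C') + #S1 + #S2 + #S3 := by exact_mod_cast hcard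
  have c1 : #S1 ≤ #(A \ A') * #(B \ B') :=
    ((hL.mono (filter_subset _ _)).card_le (A := A \ A') (B := B \ B') (C := C) fun x hx => by
      obtain ⟨hx, h1, h2⟩ := mem_filter.1 hx
      exact ⟨mem_sdiff.2 ⟨(hI x hx).1, h1⟩, mem_sdiff.2 ⟨(hI x hx).2.1, h2⟩, (hI x hx).2.2⟩).1
  have c2 : #S2 ≤ #(B \ B') * #(C \ C') :=
    ((hL.mono (filter_subset _ _)).card_le (A := A) (B := B \ B') (C := C \ C') fun x hx => by
      obtain ⟨hx, h1, h2⟩ := mem_filter.1 hx
      exact ⟨(hI x hx).1, mem_sdiff.2 ⟨(hI x hx).2.1, h1⟩, mem_sdiff.2 ⟨(hI x hx).2.2, h2⟩⟩).2.1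
  have c3 : #S3 ≤ #(C \ C') * #(A \ A') :=
    ((hL.mono (filter_subset _ _)).card_le (A := A \ A') (B := B) (C := C \ C') fun x hx => by
      obtain ⟨hx, h1, h2⟩ := mem_filter.1 hx
      exact ⟨mem_sdiff.2 ⟨(hI x hx).1, h2⟩, (hI x hx).2.1, mem_sdiff.2 ⟨(hI x hx).2.2, h1⟩⟩).2.2
  have dA := treea_sdiff hA ha
  have dB := treea_sdiff hB hb
  have dC := treea_sdiff hC hc'
  have e1 : D * #S1 ≤ ψ ^ 2 * #T := treea_out h0 hψ (Nat.cast_nonneg _) (Nat.cast_nonneg _) dA dB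
    (by exact_mod_cast c1) k1
  have e2 : D * #S2 ≤ ψ ^ 2 * #T := treea_out h0 hψ (Nat.cast_nonneg _) (Nat.cast_nonneg _) dB dC
    (by exact_mod_cast c2) k2
  have e3 : D * #S3 ≤ ψ ^ 2 * #T := treea_out h0 hψ (Nat.cast_nonneg _) (Nat.cast_nonneg _) dC dA
    (by exact_mod_cast c3) k3
  have e4 := mul_le_mul_of_nonneg_left hcard' h0.le
  linarith

/-- Hint: by `tree_closed`, `(1 - 0.06 ψ) #T ≤ #box`; `ψ ≤ 1 / 50` if `T` is not empty;
`(1 + ψ/4)(1 - ψ/2)^2 ≤ 1 - ψ/4 ≤ (1 - 0.06 ψ)^3`. If `T` is empty then `#A #B #C = 0`. -/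
theorem tree_gain (hI : In T A B C) (hL : Lin T) (hD : Dns D T A B C) (h0 : 0 < D)
    (hc : Closed T A' B' C') (hA : A' ⊆ A) (hB : B' ⊆ B) (hC : C' ⊆ C) {ψ : ℝ} (hψ : 0 ≤ ψ)
    (hψ' : ψ ≤ D / 50)
    (ha : (1 - ψ) * #A ≤ #A') (hb : (1 - ψ) * #B ≤ #B') (hc' : (1 - ψ) * #C ≤ #C')
    (hP : (#A' : ℝ) * #B' * #C' ≤ (1 - ψ / 2) * (#A * #B * #C)) :
    #T ≤ 2 * #(box T A' B' C') ∧ Dns ((1 + ψ / 4) * D) (box T A' B' C') A' B' C' := by
  rcases T.eq_empty_or_nonempty with rfl | hT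
  · refine ⟨by simp, ?_⟩
    unfold Dns at hD ⊢
    have h1 : D * ((#A : ℝ) * #B * #C) ^ 2 ≤ D * 0 := by simpa using hD
    have h2 : ((#A : ℝ) * #B * #C) ^ 2 ≤ 0 := le_of_mul_le_mul_left h1 h0
    have h3 : (#A : ℝ) * #B * #C = 0 := by
      have := le_antisymm h2 (by positivity)
      exact pow_eq_zero_iff (two_ne_zero) |>.1 this
    rw [h3, mul_zero] at hP
    have h4 : (#A' : ℝ) * #B' * #C' = 0 := le_antisymm hP (by positivity)
    rw [h4]
    simp only [ne_eq, OfNat.ofNat_ne_zero, not_false_eq_true, zero_pow, mul_zero]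
    positivity
  have h1 := tree_closed hI hL hD h0 hc hA hB hC hψ ha hb hc'
  obtain ⟨hD1, -⟩ := tree_size hI hL hD h0 hT
  obtain ⟨k1, k2⟩ := treea_gain h0 hD1 hψ hψ' (Nat.cast_nonneg _) (by positivity) hP hD h1
  exact ⟨by exact_mod_cast k1, k2⟩

end

theorem treea_big {X Y : Type} [DecidableEq X] (S : Finset Y) (p q : Y → X) (A B : Finset X)
    (α β : X → ℤ) {n₁ M : ℕ} (hp : ∀ y ∈ S, p y ∈ A) (hq : ∀ y ∈ S, q y ∈ B)
    (hM : ∀ y ∈ S, M < cl A α (α (p y)))
    (hf : ∀ z : ℤ × ℤ, #{y ∈ S | (α (p y), β (q y)) = z} ≤ n₁) :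
    M * #S ≤ n₁ * (#A * #B) := by
  have h1 : #S ≤ n₁ * #(S.image fun y => (α (p y), β (q y))) :=
    card_le_mul_card_image S n₁ fun z _ => hf z
  set Z := {z ∈ A.image α | M < cl A α z} with hZ
  have h2 : (S.image fun y => (α (p y), β (q y))) ⊆ Z ×ˢ B.image β := by
    intro z hz
    obtain ⟨y, hy, rfl⟩ := mem_image.1 hz
    exact mem_product.2 ⟨mem_filter.2 ⟨mem_image_of_mem _ (hp y hy), hM y hy⟩,
      mem_image_of_mem _ (hq y hy)⟩
  have h3 : #(S.image fun y => (α (p y), β (q y))) ≤ #Z * #B := by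
    refine (card_le_card h2).trans ?_
    rw [card_product]
    exact Nat.mul_le_mul_left _ card_image_le
  have h4 : M * #Z ≤ #A := by
    rw [card_eq_sum_card_image α A]
    calc M * #Z = ∑ _z ∈ Z, M := by rw [sum_const, smul_eq_mul, mul_comm]
      _ ≤ ∑ z ∈ Z, #{a ∈ A | α a = z} := sum_le_sum fun z hz => (mem_filter.1 hz).2.le
      _ ≤ _ := sum_le_sum_of_subset (filter_subset _ _)
  calc M * #S ≤ M * (n₁ * (#Z * #B)) :=
        Nat.mul_le_mul_left _ (h1.trans (Nat.mul_le_mul_left _ h3))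
    _ = n₁ * ((M * #Z) * #B) := by ring
    _ ≤ n₁ * (#A * #B) := Nat.mul_le_mul_left _ (Nat.mul_le_mul_right _ h4)

theorem treea_fib {X : Type} [DecidableEq X] {T S : Finset (X × X × X)} {α β γ : X → ℤ} {n₁ : ℕ}
    (hS : ∀ x ∈ S, x ∈ T ∧ #(chd T α β γ (α x.1, β x.2.1, γ x.2.2)) < n₁)
    (h : ∀ x ∈ S, ∀ y ∈ S, (α x.1, β x.2.1, γ x.2.2) = (α y.1, β y.2.1, γ y.2.2)) : #S ≤ n₁ := by
  rcases S.eq_empty_or_nonempty with rfl | ⟨y, hy⟩
  · simp
  refine le_trans (card_le_card fun x hx => ?_) (hS y hy).2.le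
  exact mem_filter.2 ⟨(hS x hx).1, h x hx y hy⟩

theorem treea_cl {X : Type} [DecidableEq X] (A : Finset X) (α : X → ℤ) (M : ℕ) (z : ℤ) :
    cl {a ∈ A | cl A α (α a) ≤ M} α z ≤ M := by
  rcases ({a ∈ {a ∈ A | cl A α (α a) ≤ M} | α a = z}).eq_empty_or_nonempty with h | ⟨a, ha⟩
  · unfold cl at h ⊢
    rw [h]; simp
  obtain ⟨ha, hz⟩ := mem_filter.1 ha
  have h1 := (mem_filter.1 ha).2
  rw [hz] at h1
  exact le_trans (card_le_card (filter_subset_filter _ (filter_subset _ _))) h1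

theorem treea_sixth {D g M n a s t : ℝ} (hD : 0 < D) (hM : 0 < M) (hn : 0 ≤ n) (ht : 0 ≤ t)
    (h1 : 6 * n ≤ g * D * M) (h2 : M * s ≤ n * a) (h3 : D * a ≤ t) : s ≤ g * t / 6 := by
  have h4 : D * (M * s) ≤ D * (n * a) := mul_le_mul_of_nonneg_left h2 hD.le
  have h5 : n * (D * a) ≤ n * t := mul_le_mul_of_nonneg_left h3 hn
  have h6 : 6 * n * t ≤ g * D * M * t := mul_le_mul_of_nonneg_right h1 ht
  have h7 : D * M * s ≤ D * M * (g * t / 6) := by nlinarith
  exact le_of_mul_le_mul_left h7 (by positivity)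

theorem treea_sq {D g a a' s t : ℝ} (hg : 0 < g) (ha' : 0 ≤ a') (h1 : a' ≤ a)
    (h2 : D ^ 2 * a ^ 2 ≤ t) (h3 : g * t / 2 ≤ s) : g * D ^ 2 / 2 * a' ^ 2 ≤ s := by
  have h4 : a' ^ 2 ≤ a ^ 2 := pow_le_pow_left₀ ha' h1 2
  have h5 : D ^ 2 * a' ^ 2 ≤ D ^ 2 * a ^ 2 := mul_le_mul_of_nonneg_left h4 (by positivity)
  have h6 : g * (D ^ 2 * a' ^ 2) ≤ g * t := mul_le_mul_of_nonneg_left (h5.trans h2) hg.le
  linarith

/-- Many triples lie in small label classes.
Hint: take `M` with `6 n₁ ≤ g D₀ M`; `S` = the small triples, `S_A = {x ∈ S | M < cl A α (α x.1)}`.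
`#S_A ≤ n₁ * #(image of x ↦ (α x.1, β x.2.1))` (`card_le_mul_card_image`; a fibre lies in one `chd`
since the third label is determined), the image lies in `Z_A ×ˢ B.image β` with
`Z_A = {z ∈ A.image α | M < cl A α z}`, `M * #Z_A ≤ #A` (`card_eq_sum_card_image`). So
`M #S_A ≤ n₁ #A #B ≤ n₁ #T / D₀` (`tree_size`), `#S_A ≤ g #T / 6`. The same for `B` (labels `β, γ`) and
`C` (labels `γ, α`): prove one general lemma. The rest `T*` has `≥ g #T / 2` triples and lies in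
`A* = {a ∈ A | cl A α (α a) ≤ M}` etc.; apply `bes m M` with `δ = g D₀^2 / 2`. -/
theorem tree_small (m n₁ : ℕ) {D₀ g : ℝ} (hD : 0 < D₀) (hg : 0 < g) : ∃ n₂ : ℕ,
    ∀ (X : Type) [DecidableEq X] (T : Finset (X × X × X)) (A B C : Finset X) (α β γ : X → ℤ),
      In T A B C → Lin T → (∀ x ∈ T, α x.1 + β x.2.1 + γ x.2.2 = 0) → Dns D₀ T A B C →
      n₂ ≤ #T → g * #T ≤ #{x ∈ T | #(chd T α β γ (α x.1, β x.2.1, γ x.2.2)) < n₁} →
      Grid T m := by
  obtain ⟨M, hM⟩ := exists_nat_ge (6 * n₁ / (g * D₀) + 1)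
  have hM0 : (0 : ℝ) < M := by
    have : (0 : ℝ) ≤ 6 * n₁ / (g * D₀) := by positivity
    linarith
  have hM1 : 6 * (n₁ : ℝ) ≤ g * D₀ * M := by
    have h : 6 * (n₁ : ℝ) / (g * D₀) ≤ M := by linarith
    rw [div_le_iff₀ (by positivity)] at h
    linarith
  obtain ⟨n₀, hn₀⟩ := bes m M (δ := g * D₀ ^ 2 / 2) (by positivity)
  obtain ⟨n₂, hn₂⟩ := exists_nat_ge (2 * n₀ / g)
  refine ⟨n₂ + 1, fun X _ T A B C α β γ hI hL hadd hDn hn hS => ?_⟩
  have hT : T.Nonempty := card_pos.1 (by omega)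
  obtain ⟨-, ⟨k1, k2, k3⟩, q1, q2, q3⟩ := tree_size hI hL hDn hD hT
  set S := {x ∈ T | #(chd T α β γ (α x.1, β x.2.1, γ x.2.2)) < n₁} with hSdef
  set SA := {x ∈ S | M < cl A α (α x.1)} with hSA
  set SB := {x ∈ S | M < cl B β (β x.2.1)} with hSB
  set SC := {x ∈ S | M < cl C γ (γ x.2.2)} with hSC
  set R := {x ∈ S | cl A α (α x.1) ≤ M ∧ cl B β (β x.2.1) ≤ M ∧ cl C γ (γ x.2.2) ≤ M} with hR
  have hST : ∀ x ∈ S, x ∈ T := fun x hx => (mem_filter.1 hx).1
  have hsub : S ⊆ R ∪ SA ∪ SB ∪ SC := by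
    intro x hx
    simp only [hR, hSA, hSB, hSC, mem_union, mem_filter (s := S), hx, true_and]
    omega
  have hcard : #S ≤ #R + #SA + #SB + #SC :=
    (card_le_card hsub).trans ((card_union_le _ _).trans (Nat.add_le_add_right
      ((card_union_le _ _).trans (Nat.add_le_add_right (card_union_le _ _) _)) _))
  have hcard' : (#S : ℝ) ≤ #R + #SA + #SB + #SC := by exact_mod_cast hcard
  have c1 : M * #SA ≤ n₁ * (#A * #B) := by
    refine treea_big SA (fun x => x.1) (fun x => x.2.1) A B α β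
      (fun y hy => (hI y (hST y (mem_filter.1 hy).1)).1)
      (fun y hy => (hI y (hST y (mem_filter.1 hy).1)).2.1) (fun y hy => (mem_filter.1 hy).2)
      fun z => treea_fib (T := T) (α := α) (β := β) (γ := γ)
        (fun x hx => mem_filter.1 (mem_filter.1 (mem_filter.1 hx).1).1) fun x hx y hy => ?_
    have e := Prod.mk.inj ((mem_filter.1 hx).2.trans (mem_filter.1 hy).2.symm)
    have a1 := hadd x (hST x (mem_filter.1 (mem_filter.1 hx).1).1)
    have a2 := hadd y (hST y (mem_filter.1 (mem_filter.1 hy).1).1)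
    refine Prod.ext e.1 (Prod.ext e.2 ?_)
    have e1 := e.1
    have e2 := e.2
    show γ x.2.2 = γ y.2.2
    omega
  have c2 : M * #SB ≤ n₁ * (#B * #C) := by
    refine treea_big SB (fun x => x.2.1) (fun x => x.2.2) B C β γ
      (fun y hy => (hI y (hST y (mem_filter.1 hy).1)).2.1)
      (fun y hy => (hI y (hST y (mem_filter.1 hy).1)).2.2) (fun y hy => (mem_filter.1 hy).2)
      fun z => treea_fib (T := T) (α := α) (β := β) (γ := γ)
        (fun x hx => mem_filter.1 (mem_filter.1 (mem_filter.1 hx).1).1) fun x hx y hy => ?_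
    have e := Prod.mk.inj ((mem_filter.1 hx).2.trans (mem_filter.1 hy).2.symm)
    have a1 := hadd x (hST x (mem_filter.1 (mem_filter.1 hx).1).1)
    have a2 := hadd y (hST y (mem_filter.1 (mem_filter.1 hy).1).1)
    refine Prod.ext ?_ (Prod.ext e.1 e.2)
    have e1 := e.1
    have e2 := e.2
    show α x.1 = α y.1
    omega
  have c3 : M * #SC ≤ n₁ * (#C * #A) := by
    refine treea_big SC (fun x => x.2.2) (fun x => x.1) C A γ α
      (fun y hy => (hI y (hST y (mem_filter.1 hy).1)).2.2)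
      (fun y hy => (hI y (hST y (mem_filter.1 hy).1)).1) (fun y hy => (mem_filter.1 hy).2)
      fun z => treea_fib (T := T) (α := α) (β := β) (γ := γ)
        (fun x hx => mem_filter.1 (mem_filter.1 (mem_filter.1 hx).1).1) fun x hx y hy => ?_
    have e := Prod.mk.inj ((mem_filter.1 hx).2.trans (mem_filter.1 hy).2.symm)
    have a1 := hadd x (hST x (mem_filter.1 (mem_filter.1 hx).1).1)
    have a2 := hadd y (hST y (mem_filter.1 (mem_filter.1 hy).1).1)
    refine Prod.ext e.2 (Prod.ext ?_ e.1)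
    have e1 := e.1
    have e2 := e.2
    show β x.2.1 = β y.2.1
    omega
  have ht : (0 : ℝ) ≤ #T := Nat.cast_nonneg _
  have d1 : (#SA : ℝ) ≤ g * #T / 6 :=
    treea_sixth hD hM0 (Nat.cast_nonneg _) ht hM1 (by exact_mod_cast c1) k1
  have d2 : (#SB : ℝ) ≤ g * #T / 6 :=
    treea_sixth hD hM0 (Nat.cast_nonneg _) ht hM1 (by exact_mod_cast c2) k2
  have d3 : (#SC : ℝ) ≤ g * #T / 6 :=
    treea_sixth hD hM0 (Nat.cast_nonneg _) ht hM1 (by exact_mod_cast c3) k3
  have hRc : g * #T / 2 ≤ #R := by linarith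
  have hRT : R ⊆ T := fun x hx => hST x (mem_filter.1 hx).1
  refine Grid.mono (hn₀ X R {a ∈ A | cl A α (α a) ≤ M} {a ∈ B | cl B β (β a) ≤ M}
    {a ∈ C | cl C γ (γ a) ≤ M} α β γ (fun x hx => ?_) (hL.mono hRT) (fun x hx => hadd x (hRT hx))
    (treea_cl A α M) (treea_cl B β M) (treea_cl C γ M) ?_ ?_ ?_ ?_) hRT
  · obtain ⟨h1, h2, h3⟩ := hI x (hRT hx)
    obtain ⟨-, h4, h5, h6⟩ := mem_filter.1 hx
    exact ⟨mem_filter.2 ⟨h1, h4⟩, mem_filter.2 ⟨h2, h5⟩, mem_filter.2 ⟨h3, h6⟩⟩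
  · exact treea_sq hg (Nat.cast_nonneg _) (by exact_mod_cast card_filter_le _ _) q1 hRc
  · exact treea_sq hg (Nat.cast_nonneg _) (by exact_mod_cast card_filter_le _ _) q2 hRc
  · exact treea_sq hg (Nat.cast_nonneg _) (by exact_mod_cast card_filter_le _ _) q3 hRc
  · have h1 : (n₂ : ℝ) ≤ #T := by exact_mod_cast le_trans (Nat.le_succ _) hn
    have h2 : 2 * (n₀ : ℝ) / g ≤ #T := hn₂.trans h1
    rw [div_le_iff₀ hg] at h2
    have h3 : (n₀ : ℝ) ≤ #R := by linarith
    exact_mod_cast h3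

end TreeA

end Pool.Agent.MP_38296a_co.H88

end

-- part MP_38296a_co.H88.Tree
section

set_option autoImplicit false

namespace Pool.Agent.MP_38296a_co.H88

section Young


open Finset

/-- `p` is a probability vector supported on `Z` -/
def Prob (Z : Finset ℤ) (p : ℤ → ℝ) : Prop :=
  (∀ z, 0 ≤ p z) ∧ (∀ z, z ∉ Z → p z = 0) ∧ ∑ z ∈ Z, p z = 1

/-- mass of the values `≥ t` -/
noncomputable def hi (Z : Finset ℤ) (p : ℤ → ℝ) (t : ℤ) : ℝ := ∑ z ∈ Z with t ≤ z, p z

theorem young_hi_nonneg {Z : Finset ℤ} {p : ℤ → ℝ} (hp : Prob Z p) (t : ℤ) : 0 ≤ hi Z p t :=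
  sum_nonneg fun z _ => hp.1 z

theorem young_hi_le {Z : Finset ℤ} {p : ℤ → ℝ} (hp : Prob Z p) (t : ℤ) : hi Z p t ≤ 1 := by
  rw [← hp.2.2]
  exact sum_le_sum_of_subset_of_nonneg (filter_subset _ _) fun z _ _ => hp.1 z

theorem young_hi_anti {Z : Finset ℤ} {p : ℤ → ℝ} (hp : Prob Z p) {s t : ℤ} (h : s ≤ t) :
    hi Z p t ≤ hi Z p s :=
  sum_le_sum_of_subset_of_nonneg
    (fun _ hz => mem_filter.2 ⟨(mem_filter.1 hz).1, h.trans (mem_filter.1 hz).2⟩)
    fun z _ _ => hp.1 z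

theorem young_hi_succ {Z : Finset ℤ} {p : ℤ → ℝ} (hp : Prob Z p) (t : ℤ) :
    hi Z p t ≤ p t + hi Z p (t + 1) := by
  have h1 : hi Z p t ≤ ∑ z ∈ insert t {z ∈ Z | t + 1 ≤ z}, p z := by
    refine sum_le_sum_of_subset_of_nonneg (fun z hz => ?_) fun z _ _ => hp.1 z
    rw [mem_filter] at hz
    rw [mem_insert, mem_filter]
    by_cases h : z = t
    · exact Or.inl h
    · exact Or.inr ⟨hz.1, by have := hz.2; omega⟩
  rwa [sum_insert (by simp)] at h1

/-- median -/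
theorem young_med {Z : Finset ℤ} {p : ℤ → ℝ} (hp : Prob Z p) :
    ∃ m, 1 / 2 ≤ hi Z p m ∧ hi Z p (m + 1) ≤ 1 / 2 := by
  obtain ⟨u, hu⟩ := Z.bddAbove
  obtain ⟨l, hl⟩ := Z.bddBelow
  obtain ⟨m, h1, h2⟩ := Int.exists_greatest_of_bdd (P := fun m => 1 / 2 ≤ hi Z p m)
    ⟨u, fun z hz => by
      by_contra hn
      have : hi Z p z = 0 := sum_eq_zero fun y hy => by
        rw [mem_filter] at hy
        have := hu (mem_coe.2 hy.1)
        have := hy.2
        omega
      linarith⟩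
    ⟨l, by
      have : hi Z p l = 1 := by
        rw [← hp.2.2, hi, filter_true_of_mem fun z hz => hl (mem_coe.2 hz)]
      linarith⟩
  refine ⟨m, h1, ?_⟩
  by_contra hn
  have := h2 (m + 1) (not_le.1 hn).le
  omega

theorem young_prod {a b c u v w : ℝ} (ha : 0 ≤ a) (hb : 0 ≤ b) (hc : 0 ≤ c) (h1 : a ≤ u)
    (h2 : b ≤ v) (h3 : c ≤ w) : a * b * c ≤ u * v * w :=
  mul_le_mul (mul_le_mul h1 h2 hb (ha.trans h1)) h3 hc (mul_nonneg (ha.trans h1) (hb.trans h2))

/-- thresholds -/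
theorem young_thr {Z : Finset ℤ} {p q r : ℤ → ℝ} (hp : Prob Z p) (hq : Prob Z q) (hr : Prob Z r)
    {ψ : ℝ} (h0 : 0 < ψ) (h1 : ψ ≤ 1)
    (h : ∀ x y z : ℤ, x + y + z = 0 → p x ≤ 1 - ψ ∨ q y ≤ 1 - ψ ∨ r z ≤ 1 - ψ) :
    ∃ a b c : ℤ, (a + b + c = 1 ∨ a + b + c = 2) ∧
      ψ / 8 ≤ hi Z p a * hi Z q b * hi Z r c + (1 - hi Z p a) * (1 - hi Z q b) * (1 - hi Z r c) := by
  obtain ⟨m₁, a1, b1⟩ := young_med hp
  obtain ⟨m₂, a2, b2⟩ := young_med hq
  obtain ⟨m₃, a3, b3⟩ := young_med hr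
  have A : ∀ a b c : ℤ, ∀ x y z : ℝ, 0 ≤ x → 0 ≤ y → 0 ≤ z → ψ / 8 ≤ x * y * z →
      x ≤ hi Z p a → y ≤ hi Z q b → z ≤ hi Z r c →
      ψ / 8 ≤ hi Z p a * hi Z q b * hi Z r c +
        (1 - hi Z p a) * (1 - hi Z q b) * (1 - hi Z r c) := by
    intro a b c x y z hx hy hz e f1 f2 f3
    have := young_prod hx hy hz f1 f2 f3
    have := mul_nonneg (mul_nonneg (sub_nonneg.2 (young_hi_le hp a))
      (sub_nonneg.2 (young_hi_le hq b))) (sub_nonneg.2 (young_hi_le hr c))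
    linarith
  have B : ∀ a b c : ℤ, ∀ x y z : ℝ, 0 ≤ x → 0 ≤ y → 0 ≤ z → ψ / 8 ≤ x * y * z →
      x ≤ 1 - hi Z p a → y ≤ 1 - hi Z q b → z ≤ 1 - hi Z r c →
      ψ / 8 ≤ hi Z p a * hi Z q b * hi Z r c +
        (1 - hi Z p a) * (1 - hi Z q b) * (1 - hi Z r c) := by
    intro a b c x y z hx hy hz e f1 f2 f3
    have := young_prod hx hy hz f1 f2 f3
    have := mul_nonneg (mul_nonneg (young_hi_nonneg hp a) (young_hi_nonneg hq b))
      (young_hi_nonneg hr c)
    linarith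
  have hh : (0 : ℝ) ≤ 1 / 2 := by norm_num
  have hψ : (0 : ℝ) ≤ ψ / 2 := by linarith
  rcases lt_trichotomy (m₁ + m₂ + m₃) 0 with hs | hs | hs
  · refine ⟨-m₂ - m₃, m₂ + 1, m₃ + 1, Or.inr (by ring), B _ _ _ _ _ _ hh hh hh (by linarith) ?_
      (by linarith) (by linarith)⟩
    have := young_hi_anti hp (show m₁ + 1 ≤ -m₂ - m₃ by omega)
    linarith
  · have s1 := young_hi_succ hp m₁
    have s2 := young_hi_succ hq m₂
    have s3 := young_hi_succ hr m₃
    rcases h _ _ _ hs with e | e | e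
    · by_cases c : ψ / 2 ≤ hi Z p (m₁ + 1)
      · exact ⟨m₁ + 1, m₂, m₃, Or.inl (by omega), A _ _ _ _ _ _ hψ hh hh (by linarith) c a2 a3⟩
      · exact ⟨m₁, m₂ + 1, m₃ + 1, Or.inr (by omega), B _ _ _ _ _ _ hψ hh hh (by linarith)
          (by linarith [not_le.1 c]) (by linarith) (by linarith)⟩
    · by_cases c : ψ / 2 ≤ hi Z q (m₂ + 1)
      · exact ⟨m₁, m₂ + 1, m₃, Or.inl (by omega), A _ _ _ _ _ _ hh hψ hh (by linarith) a1 c a3⟩
      · exact ⟨m₁ + 1, m₂, m₃ + 1, Or.inr (by omega), B _ _ _ _ _ _ hh hψ hh (by linarith)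
          (by linarith) (by linarith [not_le.1 c]) (by linarith)⟩
    · by_cases c : ψ / 2 ≤ hi Z r (m₃ + 1)
      · exact ⟨m₁, m₂, m₃ + 1, Or.inl (by omega), A _ _ _ _ _ _ hh hh hψ (by linarith) a1 a2 c⟩
      · exact ⟨m₁ + 1, m₂ + 1, m₃, Or.inr (by omega), B _ _ _ _ _ _ hh hh hψ (by linarith)
          (by linarith) (by linarith) (by linarith [not_le.1 c])⟩
  · refine ⟨1 - m₂ - m₃, m₂, m₃, Or.inl (by ring), A _ _ _ _ _ _ hh hh hh (by linarith) ?_ a2 a3⟩
    exact a1.trans (young_hi_anti hp (by omega))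

/-- indicator of `a ≤ x` -/
def young_i (a x : ℤ) : ℝ := if a ≤ x then 1 else 0

/-- the weight -/
def young_W (τ i j : ℝ) : ℝ :=
  (1 - τ) ^ 2 * (i * j + (1 - i) * (1 - j)) + (1 + τ + 2 * τ ^ 2) * (i * (1 - j) + (1 - i) * j)

theorem young_W_nonneg {τ : ℝ} (h : 0 ≤ τ) (a x b y : ℤ) :
    0 ≤ young_W τ (young_i a x) (young_i b y) := by
  unfold young_W young_i
  split_ifs <;> simp <;> positivity

theorem young_W_prod {τ : ℝ} (h1 : τ ≤ 1 / 2) {a b c x y z : ℤ}
    (h : a + b + c = 1 ∨ a + b + c = 2) (hs : x + y + z = 0) :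
    1 ≤ young_W τ (young_i a x) (young_i b y) * young_W τ (young_i b y) (young_i c z) *
      young_W τ (young_i c z) (young_i a x) := by
  have e : 1 ≤ ((1 - τ) * (1 + τ + 2 * τ ^ 2)) ^ 2 := by
    refine one_le_pow₀ ?_
    nlinarith [mul_nonneg (sq_nonneg τ) (sub_nonneg.2 h1)]
  unfold young_W young_i
  split_ifs
  all_goals first | (exfalso; omega) | (refine e.trans_eq ?_; ring)

theorem young_hi_eq {Z : Finset ℤ} (p : ℤ → ℝ) (a : ℤ) :
    ∑ x ∈ Z, young_i a x * p x = hi Z p a := by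
  rw [hi, sum_filter]
  refine sum_congr rfl fun x _ => ?_
  unfold young_i
  split_ifs <;> simp

theorem young_pair {Z : Finset ℤ} {p q : ℤ → ℝ} (hp : Prob Z p) (hq : Prob Z q) {τ : ℝ}
    (h0 : 0 ≤ τ) (a b : ℤ) {σ : Type} (S : Finset σ) (f g : σ → ℤ)
    (hi' : ∀ s ∈ S, ∀ s' ∈ S, f s = f s' → g s = g s' → s = s') :
    ∑ s ∈ S, young_W τ (young_i a (f s)) (young_i b (g s)) * p (f s) * q (g s) ≤
      young_W τ (hi Z p a) (hi Z q b) := by
  set F : ℤ × ℤ → ℝ := fun u => young_W τ (young_i a u.1) (young_i b u.2) * p u.1 * q u.2 with hF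
  have hF0 : ∀ u, 0 ≤ F u := fun u =>
    mul_nonneg (mul_nonneg (young_W_nonneg h0 _ _ _ _) (hp.1 _)) (hq.1 _)
  have e1 : ∑ s ∈ S, young_W τ (young_i a (f s)) (young_i b (g s)) * p (f s) * q (g s) =
      ∑ u ∈ S.image fun s => (f s, g s), F u :=
    (sum_image (f := F) fun s hs s' hs' e =>
      hi' s hs s' hs' (Prod.mk.inj e).1 (Prod.mk.inj e).2).symm
  have e2 : ∑ u ∈ Z ×ˢ Z, F u = ∑ u ∈ (S.image fun s => (f s, g s)) ∪ Z ×ˢ Z, F u := by
    refine sum_subset subset_union_right fun u _ hu => ?_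
    rw [mem_product, not_and_or] at hu
    rcases hu with hu | hu
    · simp [hF, hp.2.1 _ hu]
    · simp [hF, hq.2.1 _ hu]
  have e3 : ∑ u ∈ Z ×ˢ Z, F u = young_W τ (hi Z p a) (hi Z q b) := by
    have p1 : ∑ x ∈ Z, (p x - young_i a x * p x) = 1 - hi Z p a := by
      rw [sum_sub_distrib, young_hi_eq, hp.2.2]
    have q1 : ∑ x ∈ Z, (q x - young_i b x * q x) = 1 - hi Z q b := by
      rw [sum_sub_distrib, young_hi_eq, hq.2.2]
    rw [young_W, ← p1, ← q1, ← young_hi_eq p a, ← young_hi_eq q b, sum_product]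
    rw [sum_mul_sum, sum_mul_sum, sum_mul_sum, sum_mul_sum]
    simp only [← sum_add_distrib, mul_sum]
    refine sum_congr rfl fun x _ => sum_congr rfl fun y _ => ?_
    simp only [hF, young_W]
    ring
  rw [e1, ← e3, e2]
  exact sum_le_sum_of_subset_of_nonneg subset_union_left fun u _ _ => hF0 u

theorem young_amgm {t x y z : ℝ} (hx : 0 ≤ x) (hy : 0 ≤ y) (hz : 0 ≤ z) (h : t ^ 3 ≤ x * y * z) :
    t ≤ (x + y + z) / 3 := by
  refine le_of_pow_le_pow_left₀ (n := 3) (by norm_num) (by positivity) (h.trans ?_)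
  nlinarith [mul_nonneg hx (sq_nonneg (y - z)), mul_nonneg hy (sq_nonneg (y - z)),
    mul_nonneg hz (sq_nonneg (y - z)), mul_nonneg hx (sq_nonneg (x - z)),
    mul_nonneg hy (sq_nonneg (x - z)), mul_nonneg hz (sq_nonneg (x - z)),
    mul_nonneg hx (sq_nonneg (x - y)), mul_nonneg hy (sq_nonneg (x - y)),
    mul_nonneg hz (sq_nonneg (x - y))]

theorem young_fin {w u v x : ℝ} (h0 : 0 < w)
    (h : w ≤ u * v * x + (1 - u) * (1 - v) * (1 - x)) :
    (young_W (w / 2) u v + young_W (w / 2) v x + young_W (w / 2) x u) / 3 ≤ 1 - w ^ 2 / 2 := by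
  obtain ⟨ω, hω⟩ : ∃ ω, ω = u * v * x + (1 - u) * (1 - v) * (1 - x) := ⟨_, rfl⟩
  have e : young_W (w / 2) u v + young_W (w / 2) v x + young_W (w / 2) x u =
      3 - 3 * (w * ω) + 5 / 4 * w ^ 2 - (ω * w ^ 2) / 2 := by
    rw [hω]; unfold young_W; ring
  rw [← hω] at h
  have h1 : w * w ≤ w * ω := mul_le_mul_of_nonneg_left h h0.le
  have h2 : 0 ≤ ω * w ^ 2 := mul_nonneg (h0.le.trans h) (sq_nonneg _)
  rw [e]
  nlinarith [sq_nonneg w]

/-- Young's inequality on `ℤ` with a gain. -/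
theorem young {ψ : ℝ} (hψ : 0 < ψ) : ∃ g : ℝ, 0 < g ∧ g ≤ 1 ∧
    ∀ (Z : Finset ℤ) (p q r : ℤ → ℝ), Prob Z p → Prob Z q → Prob Z r →
      (∀ x y z : ℤ, x + y + z = 0 → p x ≤ 1 - ψ ∨ q y ≤ 1 - ψ ∨ r z ≤ 1 - ψ) →
      ∀ (S : Finset (ℤ × ℤ × ℤ)) (t : ℤ × ℤ × ℤ → ℝ),
        (∀ s ∈ S, s.1 + s.2.1 + s.2.2 = 0 ∧ t s ^ 3 ≤ (p s.1 * q s.2.1 * r s.2.2) ^ 2) →
        ∑ s ∈ S, t s ≤ 1 - g := by
  obtain ⟨φ, f0, f1, f2⟩ : ∃ φ : ℝ, 0 < φ ∧ φ ≤ 1 ∧ φ ≤ ψ :=
    ⟨min ψ 1, lt_min hψ one_pos, min_le_right _ _, min_le_left _ _⟩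
  refine ⟨(φ / 8) ^ 2 / 2, by positivity, by nlinarith, fun Z p q r hp hq hr h S t hS => ?_⟩
  obtain ⟨a, b, c, habc, hω⟩ := young_thr hp hq hr f0 f1 fun x y z e => by
    rcases h x y z e with e | e | e
    · exact Or.inl (by linarith)
    · exact Or.inr (Or.inl (by linarith))
    · exact Or.inr (Or.inr (by linarith))
  have τ0 : 0 ≤ φ / 8 / 2 := by positivity
  have τ1 : φ / 8 / 2 ≤ 1 / 2 := by linarith
  refine le_trans ?_ (young_fin (by positivity) hω)
  have k1 := young_pair hp hq τ0 a b S (fun s => s.1) (fun s => s.2.1) fun s hs s' hs' e1 e2 => by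
    have := (hS s hs).1
    have := (hS s' hs').1
    exact Prod.ext e1 (Prod.ext e2 (by omega))
  have k2 := young_pair hq hr τ0 b c S (fun s => s.2.1) (fun s => s.2.2)
    fun s hs s' hs' e1 e2 => by
    have := (hS s hs).1
    have := (hS s' hs').1
    exact Prod.ext (by omega) (Prod.ext e1 e2)
  have k3 := young_pair hr hp τ0 c a S (fun s => s.2.2) (fun s => s.1) fun s hs s' hs' e1 e2 => by
    have := (hS s hs).1
    have := (hS s' hs').1
    exact Prod.ext e2 (Prod.ext (by omega) e1)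
  refine le_trans ?_ (div_le_div_of_nonneg_right (add_le_add (add_le_add k1 k2) k3) (by norm_num))
  rw [← sum_add_distrib, ← sum_add_distrib, sum_div]
  refine sum_le_sum fun s hs => ?_
  refine young_amgm (mul_nonneg (mul_nonneg (young_W_nonneg τ0 _ _ _ _) (hp.1 _)) (hq.1 _))
    (mul_nonneg (mul_nonneg (young_W_nonneg τ0 _ _ _ _) (hq.1 _)) (hr.1 _))
    (mul_nonneg (mul_nonneg (young_W_nonneg τ0 _ _ _ _) (hr.1 _)) (hp.1 _)) ((hS s hs).2.trans ?_)
  refine (le_mul_of_one_le_left (sq_nonneg _) (young_W_prod τ1 habc (hS s hs).1)).trans_eq ?_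
  ring

theorem young_prob {X : Type} {A : Finset X} (hA : A.Nonempty) (α : X → ℤ) {Z : Finset ℤ}
    (hZ : A.image α ⊆ Z) : Prob Z fun z => (cl A α z : ℝ) / #A := by
  have h0 : (0 : ℝ) < #A := by exact_mod_cast hA.card_pos
  refine ⟨fun z => by positivity, fun z hz => ?_, ?_⟩
  · have : cl A α z = 0 := by
      rw [cl, card_eq_zero, filter_eq_empty_iff]
      intro a ha e
      exact hz (hZ (mem_image.2 ⟨a, ha, e⟩))
    simp [this]
  · rw [← sum_div, div_eq_one_iff_eq h0.ne']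
    have := card_eq_sum_card_fiberwise (s := A) (t := Z) (f := α)
      fun a ha => hZ (mem_image_of_mem _ ha)
    rw [this]
    simp [cl]

theorem young_cl {ψ : ℝ} (hψ : 0 < ψ) : ∃ g : ℝ, 0 < g ∧ g ≤ 1 ∧
    ∀ (X : Type) (A B C : Finset X) (α β γ : X → ℤ), A.Nonempty → B.Nonempty → C.Nonempty →
      (∀ x y z : ℤ, x + y + z = 0 → (cl A α x : ℝ) ≤ (1 - ψ) * #A ∨ (cl B β y : ℝ) ≤ (1 - ψ) * #B ∨
        (cl C γ z : ℝ) ≤ (1 - ψ) * #C) →
      ∀ (N : ℝ), 0 < N → ∀ (S : Finset (ℤ × ℤ × ℤ)) (t : ℤ × ℤ × ℤ → ℝ),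
        (∀ s ∈ S, s.1 + s.2.1 + s.2.2 = 0 ∧ t s ^ 3 * ((#A : ℝ) * #B * #C) ^ 2 ≤
          N ^ 3 * ((cl A α s.1 : ℝ) * cl B β s.2.1 * cl C γ s.2.2) ^ 2) →
        ∑ s ∈ S, t s ≤ (1 - g) * N := by
  obtain ⟨g, g0, g1, hg⟩ := young hψ
  refine ⟨g, g0, g1, fun X A B C α β γ hA hB hC h N hN S t hS => ?_⟩
  have a0 : (0 : ℝ) < #A := by exact_mod_cast hA.card_pos
  have b0 : (0 : ℝ) < #B := by exact_mod_cast hB.card_pos
  have c0 : (0 : ℝ) < #C := by exact_mod_cast hC.card_pos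
  have := hg (A.image α ∪ B.image β ∪ C.image γ) _ _ _
    (young_prob hA α (subset_union_left.trans subset_union_left))
    (young_prob hB β (subset_union_right.trans subset_union_left))
    (young_prob hC γ subset_union_right)
    (fun x y z e => by
      simp only [div_le_iff₀ a0, div_le_iff₀ b0, div_le_iff₀ c0]
      exact h x y z e) S (fun s => t s / N) fun s hs => ⟨(hS s hs).1, by
      have e : ((cl A α s.1 : ℝ) / #A * (cl B β s.2.1 / #B) * (cl C γ s.2.2 / #C)) ^ 2 =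
          ((cl A α s.1 : ℝ) * cl B β s.2.1 * cl C γ s.2.2) ^ 2 / ((#A : ℝ) * #B * #C) ^ 2 := by
        field_simp
      rw [e, div_pow, div_le_div_iff₀ (by positivity) (by positivity)]
      exact (hS s hs).2.trans_eq (mul_comm _ _)⟩
  rwa [← sum_div, div_le_iff₀ hN] at this

end Young

section TreeB


open Finset

theorem treeb_dns_mono {X : Type} {T : Finset (X × X × X)} {A B C : Finset X} {D D' : ℝ}
    (h : D ≤ D') (hd : Dns D' T A B C) : Dns D T A B C :=
  (mul_le_mul_of_nonneg_right h (sq_nonneg _)).trans hd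

theorem treeb_cube {t P c D τ κ : ℝ} (hκ : 0 ≤ κ) (hτ : 0 ≤ τ) (h1 : D * P ^ 2 ≤ τ ^ 3)
    (h2 : t ^ 3 < (1 + κ) * D * c ^ 2) : t ^ 3 * P ^ 2 ≤ ((1 + κ) * τ) ^ 3 * c ^ 2 := by
  have h3 : t ^ 3 * P ^ 2 ≤ (1 + κ) * D * c ^ 2 * P ^ 2 :=
    mul_le_mul_of_nonneg_right h2.le (sq_nonneg _)
  have h4 : (1 + κ) * c ^ 2 * (D * P ^ 2) ≤ (1 + κ) * c ^ 2 * τ ^ 3 :=
    mul_le_mul_of_nonneg_left h1 (by positivity)
  have h5 : (1 + κ) * 1 ≤ (1 + κ) * (1 + κ) ^ 2 :=
    mul_le_mul_of_nonneg_left (one_le_pow₀ (by linarith)) (by positivity)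
  have h6 : (1 + κ) * 1 * (c ^ 2 * τ ^ 3) ≤ (1 + κ) * (1 + κ) ^ 2 * (c ^ 2 * τ ^ 3) :=
    mul_le_mul_of_nonneg_right h5 (by positivity)
  calc t ^ 3 * P ^ 2 ≤ (1 + κ) * c ^ 2 * (D * P ^ 2) := h3.trans_eq (by ring)
    _ ≤ (1 + κ) * 1 * (c ^ 2 * τ ^ 3) := h4.trans_eq (by ring)
    _ ≤ _ := h6.trans_eq (by ring)

theorem treeb_count {g s b τ : ℝ} (hτ : 0 ≤ τ) (h1 : s < g / 2 * τ) (h2 : s + b = τ)
    (h3 : b ≤ (1 - g) * ((1 + g / 2) * τ)) : False := by
  have : 0 ≤ g ^ 2 * τ := by positivity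
  nlinarith

/-- No giant label class: a grid or a density increment. -/
theorem tree_split (m : ℕ) {D₀ ψ : ℝ} (hD : 0 < D₀) (hψ : 0 < ψ) : ∃ κ : ℝ, 0 < κ ∧ ∀ n₁ : ℕ,
    ∃ n₂ : ℕ, ∀ (X : Type) [DecidableEq X] (T : Finset (X × X × X)) (A B C : Finset X)
      (α β γ : X → ℤ) (D : ℝ), D₀ ≤ D → In T A B C → Lin T →
      (∀ x ∈ T, α x.1 + β x.2.1 + γ x.2.2 = 0) → Dns D T A B C → n₂ ≤ #T →
      (∀ x y z : ℤ, x + y + z = 0 → (cl A α x : ℝ) ≤ (1 - ψ) * #A ∨ (cl B β y : ℝ) ≤ (1 - ψ) * #B ∨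
        (cl C γ z : ℝ) ≤ (1 - ψ) * #C) →
      Grid T m ∨ ∃ T' ⊆ T, ∃ A' B' C' : Finset X, In T' A' B' C' ∧ n₁ ≤ #T' ∧
        Dns ((1 + κ) * D) T' A' B' C' := by
  obtain ⟨g, hg, -, hy⟩ := young_cl hψ
  refine ⟨g / 2, by positivity, fun n₁ => ?_⟩
  obtain ⟨n₂, hn₂⟩ := tree_small m n₁ hD (half_pos hg)
  refine ⟨n₂ + 1, fun X _ T A B C α β γ D hDD hI hL hs hd hn hcl => ?_⟩
  by_cases hsm : g / 2 * #T ≤ #{x ∈ T | #(chd T α β γ (α x.1, β x.2.1, γ x.2.2)) < n₁}
  · exact Or.inl (hn₂ X T A B C α β γ hI hL hs (treeb_dns_mono hDD hd) (by omega) hsm)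
  right
  by_contra hno
  obtain ⟨x₀, hx₀⟩ : T.Nonempty := card_pos.1 (by omega)
  have hT : (0 : ℝ) < #T := by exact_mod_cast (by omega : 0 < #T)
  let lab : X × X × X → ℤ × ℤ × ℤ := fun x => (α x.1, β x.2.1, γ x.2.2)
  let S : Finset (ℤ × ℤ × ℤ) := {s ∈ T.image lab | n₁ ≤ #(chd T α β γ s)}
  have hsum := hy X A B C α β γ ⟨_, (hI _ hx₀).1⟩ ⟨_, (hI _ hx₀).2.1⟩ ⟨_, (hI _ hx₀).2.2⟩ hcl
    ((1 + g / 2) * #T) (by positivity) S (fun s => #(chd T α β γ s)) fun s hs' => by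
      obtain ⟨h1, h2⟩ := mem_filter.1 hs'
      obtain ⟨x, hx, rfl⟩ := mem_image.1 h1
      refine ⟨hs x hx, treeb_cube (by positivity) hT.le hd (not_le.1 fun h3 => hno ?_)⟩
      refine ⟨chd T α β γ (lab x), filter_subset _ _, {a ∈ A | α a = α x.1},
        {a ∈ B | β a = β x.2.1}, {a ∈ C | γ a = γ x.2.2}, fun y hy' => ?_, h2, h3⟩
      obtain ⟨h4, h5⟩ := mem_filter.1 hy'
      simp only [lab, Prod.mk.injEq] at h5
      exact ⟨mem_filter.2 ⟨(hI y h4).1, h5.1⟩, mem_filter.2 ⟨(hI y h4).2.1, h5.2.1⟩,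
        mem_filter.2 ⟨(hI y h4).2.2, h5.2.2⟩⟩
  have hbig : #{x ∈ T | ¬ #(chd T α β γ (lab x)) < n₁} ≤ ∑ s ∈ S, #(chd T α β γ s) := by
    rw [card_eq_sum_card_fiberwise (f := lab) (t := S) fun x hx => ?_]
    · refine sum_le_sum fun s _ => card_le_card fun x hx => ?_
      obtain ⟨h1, h2⟩ := mem_filter.1 hx
      exact mem_filter.2 ⟨(mem_filter.1 h1).1, h2⟩
    · obtain ⟨h1, h2⟩ := mem_filter.1 (mem_coe.1 hx)
      exact mem_coe.2 (mem_filter.2 ⟨mem_image_of_mem _ h1, not_lt.1 h2⟩)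
  have hadd := card_filter_add_card_filter_not (s := T) fun x => #(chd T α β γ (lab x)) < n₁
  refine treeb_count (b := #{x ∈ T | ¬ #(chd T α β γ (lab x)) < n₁}) hT.le (not_le.1 hsm)
    (by exact_mod_cast hadd) (le_trans ?_ hsum)
  exact_mod_cast hbig

theorem treeb_prod {a b c a' b' c' u : ℝ} (hu : 0 ≤ u) (hb' : 0 ≤ b') (hc' : 0 ≤ c') (ha : 0 ≤ a)
    (h1 : a' ≤ u * a) (h2 : b' ≤ b) (h3 : c' ≤ c) : a' * b' * c' ≤ u * (a * b * c) := by
  have h4 : a' * b' ≤ u * a * b :=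
    (mul_le_mul_of_nonneg_right h1 hb').trans (mul_le_mul_of_nonneg_left h2 (by positivity))
  have hb : 0 ≤ b := hb'.trans h2
  calc a' * b' * c' ≤ u * a * b * c' := mul_le_mul_of_nonneg_right h4 hc'
    _ ≤ u * a * b * c := mul_le_mul_of_nonneg_left h3 (by positivity)
    _ = _ := by ring

theorem treeb_prod3 {a b c a' b' c' u : ℝ} (hu : 0 ≤ u) (ha' : 0 ≤ a') (hb' : 0 ≤ b')
    (hc' : 0 ≤ c') (h1 : a' ≤ a) (h2 : b' ≤ b) (h3 : c' ≤ c)
    (h : a' ≤ u * a ∨ b' ≤ u * b ∨ c' ≤ u * c) : a' * b' * c' ≤ u * (a * b * c) := by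
  rcases h with h | h | h
  · exact treeb_prod hu hb' hc' (ha'.trans h1) h h2 h3
  · have := treeb_prod hu ha' hc' (hb'.trans h2) h h1 h3
    linarith [mul_comm a' b', mul_comm a b, show b' * a' * c' = a' * b' * c' by ring,
      show b * a * c = a * b * c by ring]
  · have := treeb_prod hu ha' hb' (hc'.trans h3) h h1 h2
    rw [show c' * a' * b' = a' * b' * c' by ring, show c * a * b = a * b * c by ring] at this
    exact this

theorem treeb_psi {a b c a' b' c' ψ₀ : ℝ} (ha : 0 < a) (hb : 0 < b) (hc : 0 < c) (ha' : 0 ≤ a')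
    (hb' : 0 ≤ b') (hc' : 0 ≤ c') (h1 : a' ≤ a) (h2 : b' ≤ b) (h3 : c' ≤ c)
    (k1 : (1 - ψ₀) * a ≤ a') (k2 : (1 - ψ₀) * b ≤ b') (k3 : (1 - ψ₀) * c ≤ c') :
    ∃ ψ : ℝ, 0 ≤ ψ ∧ ψ ≤ ψ₀ ∧ (1 - ψ) * a ≤ a' ∧ (1 - ψ) * b ≤ b' ∧ (1 - ψ) * c ≤ c' ∧
      a' * b' * c' ≤ (1 - ψ / 2) * (a * b * c) := by
  have e1 : a' / a ≤ 1 := (div_le_one ha).2 h1
  have e2 : b' / b ≤ 1 := (div_le_one hb).2 h2
  have e3 : c' / c ≤ 1 := (div_le_one hc).2 h3
  have f1 : 1 - ψ₀ ≤ a' / a := (le_div_iff₀ ha).2 k1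
  have f2 : 1 - ψ₀ ≤ b' / b := (le_div_iff₀ hb).2 k2
  have f3 : 1 - ψ₀ ≤ c' / c := (le_div_iff₀ hc).2 k3
  obtain ⟨r, r1, r2, r3, hr⟩ : ∃ r : ℝ, r ≤ a' / a ∧ r ≤ b' / b ∧ r ≤ c' / c ∧
      (r = a' / a ∨ r = b' / b ∨ r = c' / c) := by
    refine ⟨min (a' / a) (min (b' / b) (c' / c)), min_le_left _ _,
      (min_le_right _ _).trans (min_le_left _ _), (min_le_right _ _).trans (min_le_right _ _), ?_⟩
    rcases min_choice (a' / a) (min (b' / b) (c' / c)) with h | h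
    · exact Or.inl h
    · rw [h]; exact Or.inr (min_choice _ _)
  have hr0 : 0 ≤ r := by rcases hr with h | h | h <;> rw [h] <;> positivity
  refine ⟨1 - r, by linarith, by rcases hr with h | h | h <;> linarith, ?_, ?_, ?_, ?_⟩
  · rw [sub_sub_cancel]; exact (le_div_iff₀ ha).1 r1
  · rw [sub_sub_cancel]; exact (le_div_iff₀ hb).1 r2
  · rw [sub_sub_cancel]; exact (le_div_iff₀ hc).1 r3
  · refine treeb_prod3 (by linarith) ha' hb' hc' h1 h2 h3 ?_
    rcases hr with h | h | h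
    · exact Or.inl ((div_le_iff₀ ha).1 (by linarith))
    · exact Or.inr (Or.inl ((div_le_iff₀ hb).1 (by linarith)))
    · exact Or.inr (Or.inr ((div_le_iff₀ hc).1 (by linarith)))

theorem treeb_two {ψ a a' a'' : ℝ} (hψ : ψ ≤ 1) (ha : 0 ≤ a) (h1 : (1 - ψ) * a ≤ a')
    (h2 : (1 - ψ) * a' < a'') : (1 - 2 * ψ) * a ≤ a'' := by
  have h3 : (1 - ψ) * ((1 - ψ) * a) ≤ (1 - ψ) * a' := mul_le_mul_of_nonneg_left h1 (by linarith)
  have h4 : 0 ≤ ψ ^ 2 * a := by positivity
  nlinarith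

theorem treeb_lt {X : Type} {A : Finset X} {α : X → ℤ} {u v : X} (hu : u ∈ A) (hv : v ∈ A)
    (h : α u ≠ α v) (x : ℤ) : #{a ∈ A | α a = x} < #A := by
  refine card_lt_card (filter_ssubset.2 ?_)
  by_cases hx : α u = x
  · exact ⟨v, hv, fun e => h (hx.trans e.symm)⟩
  · exact ⟨u, hu, hx⟩

theorem treeb_closed {X : Type} [DecidableEq X] {T : Finset (X × X × X)} {A B C : Finset X}
    {α β γ : X → ℤ} (hc : Closed T A B C)
    (hs : ∀ x ∈ box T A B C, α x.1 + β x.2.1 + γ x.2.2 = 0) {x y z : ℤ} (h : x + y + z = 0) :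
    Closed T {a ∈ A | α a = x} {a ∈ B | β a = y} {a ∈ C | γ a = z} := by
  intro t ht
  obtain ⟨h1, h2, h3⟩ := hc t ht
  simp only [mem_filter]
  refine ⟨fun p q => ?_, fun p q => ?_, fun p q => ?_⟩
  · have := hs t (mem_filter.2 ⟨ht, p.1, q.1, h1 p.1 q.1⟩)
    exact ⟨h1 p.1 q.1, by omega⟩
  · have := hs t (mem_filter.2 ⟨ht, h2 p.1 q.1, p.1, q.1⟩)
    exact ⟨h2 p.1 q.1, by omega⟩
  · have := hs t (mem_filter.2 ⟨ht, q.1, h3 p.1 q.1, p.1⟩)
    exact ⟨h3 p.1 q.1, by omega⟩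

/-- a closed box that is almost everything -/
def treeb_giant {X : Type} (ψ : ℝ) (T : Finset (X × X × X)) (A B C A' B' C' : Finset X) : Prop :=
  (A' ⊆ A ∧ B' ⊆ B ∧ C' ⊆ C) ∧ Closed T A' B' C' ∧
    (1 - ψ) * #A ≤ #A' ∧ (1 - ψ) * #B ≤ #B' ∧ (1 - ψ) * #C ≤ #C'

theorem treeb_min {X : Type} {ψ : ℝ} (hψ : 0 ≤ ψ) {T : Finset (X × X × X)} {A B C : Finset X}
    (hI : In T A B C) : ∃ A' B' C', treeb_giant ψ T A B C A' B' C' ∧
      ∀ A'' B'' C'', treeb_giant ψ T A B C A'' B'' C'' →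
        #A' + #B' + #C' ≤ #A'' + #B'' + #C'' := by
  classical
  have e : ∀ n : ℕ, (1 - ψ) * n ≤ n := fun n => by
    have : 0 ≤ ψ * n := by positivity
    linarith
  have h : ∃ n, ∃ A' B' C', treeb_giant ψ T A B C A' B' C' ∧ #A' + #B' + #C' = n :=
    ⟨_, A, B, C, ⟨⟨Subset.refl _, Subset.refl _, Subset.refl _⟩, fun x hx =>
      ⟨fun _ _ => (hI x hx).2.2, fun _ _ => (hI x hx).1, fun _ _ => (hI x hx).2.1⟩,
      e _, e _, e _⟩, rfl⟩
  obtain ⟨A', B', C', hG, hn⟩ := Nat.find_spec h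
  exact ⟨A', B', C', hG, fun A'' B'' C'' h' => hn ▸ Nat.find_min' h ⟨_, _, _, h', rfl⟩⟩

theorem treeb_in {X : Type} [DecidableEq X] (T : Finset (X × X × X)) (A B C : Finset X) :
    In (box T A B C) A B C := fun _ hx => (mem_filter.1 hx).2

/-- One step: a grid or a density increment. -/
theorem tree_step (m : ℕ) {D₀ : ℝ} (hD : 0 < D₀) : ∃ κ : ℝ, 0 < κ ∧ ∀ n₁ : ℕ, ∃ n₂ : ℕ,
    ∀ (X : Type) [DecidableEq X] (T : Finset (X × X × X)) (A B C : Finset X) (D : ℝ), D₀ ≤ D →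
      In T A B C → Lin T → Solv T → Dns D T A B C → n₂ ≤ #T →
      Grid T m ∨ ∃ T' ⊆ T, ∃ A' B' C' : Finset X, In T' A' B' C' ∧ n₁ ≤ #T' ∧
        Dns ((1 + κ) * D) T' A' B' C' := by
  have hψ : 0 < D₀ / 100 := by positivity
  obtain ⟨κ, hκ, hsp⟩ := tree_split m hD hψ
  refine ⟨min κ (D₀ / 200), by positivity, fun n₁ => ?_⟩
  obtain ⟨n₂, hn₂⟩ := hsp n₁
  refine ⟨2 * (n₂ + n₁ + 2), fun X _ T A B C D hDD hI hL hS hd hn => ?_⟩
  have hD' : 0 < D := hD.trans_le hDD
  obtain ⟨x₀, hx₀⟩ : T.Nonempty := card_pos.1 (by omega)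
  have hD1 : D ≤ 1 := (tree_size hI hL hd hD' ⟨x₀, hx₀⟩).1
  have pa : (0 : ℝ) < #A := by exact_mod_cast card_pos.2 ⟨_, (hI _ hx₀).1⟩
  have pb : (0 : ℝ) < #B := by exact_mod_cast card_pos.2 ⟨_, (hI _ hx₀).2.1⟩
  have pc : (0 : ℝ) < #C := by exact_mod_cast card_pos.2 ⟨_, (hI _ hx₀).2.2⟩
  obtain ⟨A', B', C', ⟨⟨sA, sB, sC⟩, hc, k1, k2, k3⟩, hmin⟩ := treeb_min hψ.le hI
  obtain ⟨ψ, p0, p1, p2, p3, p4, p5⟩ := treeb_psi pa pb pc (Nat.cast_nonneg _) (Nat.cast_nonneg _)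
    (Nat.cast_nonneg _) (by exact_mod_cast card_le_card sA) (by exact_mod_cast card_le_card sB)
    (by exact_mod_cast card_le_card sC) k1 k2 k3
  obtain ⟨q1, q2⟩ := tree_gain hI hL hd hD' hc sA sB sC p0 (by linarith) p2 p3 p4 p5
  have hQ : box T A' B' C' ⊆ T := filter_subset _ _
  have q3 : Dns D (box T A' B' C') A' B' C' :=
    treeb_dns_mono (le_mul_of_one_le_left hD'.le (by linarith)) q2
  obtain ⟨α, β, γ, hs, u, hu, v, hv, huv⟩ := hS _ hQ (by omega)
  by_cases hcl : ∀ x y z : ℤ, x + y + z = 0 → (cl A' α x : ℝ) ≤ (1 - D₀ / 100) * #A' ∨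
      (cl B' β y : ℝ) ≤ (1 - D₀ / 100) * #B' ∨ (cl C' γ z : ℝ) ≤ (1 - D₀ / 100) * #C'
  · rcases hn₂ X _ A' B' C' α β γ D hDD (treeb_in _ _ _ _) (hL.mono hQ) hs q3 (by omega) hcl with
      h | ⟨T', h1, A₁, B₁, C₁, h2, h3, h4⟩
    · exact Or.inl (h.mono hQ)
    · refine Or.inr ⟨T', h1.trans hQ, A₁, B₁, C₁, h2, h3, treeb_dns_mono ?_ h4⟩
      exact mul_le_mul_of_nonneg_right (by linarith [min_le_left κ (D₀ / 200)]) hD'.le
  simp only [not_forall, not_or, not_le] at hcl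
  obtain ⟨x, y, z, hxyz, l1, l2, l3⟩ := hcl
  have hc' := treeb_closed hc hs hxyz
  have sA' : {a ∈ A' | α a = x} ⊆ A := (filter_subset _ _).trans sA
  have sB' : {a ∈ B' | β a = y} ⊆ B := (filter_subset _ _).trans sB
  have sC' : {a ∈ C' | γ a = z} ⊆ C := (filter_subset _ _).trans sC
  have hlt : #{a ∈ A' | α a = x} + #{a ∈ B' | β a = y} + #{a ∈ C' | γ a = z} <
      #A' + #B' + #C' := by
    have e1 := card_filter_le A' fun a => α a = x
    have e2 := card_filter_le B' fun a => β a = y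
    have e3 := card_filter_le C' fun a => γ a = z
    have hu' := treeb_in _ _ _ _ u hu
    have hv' := treeb_in _ _ _ _ v hv
    rcases huv with h | h
    · have := treeb_lt hu'.1 hv'.1 h x
      omega
    · have := treeb_lt hu'.2.1 hv'.2.1 h y
      omega
  have hng : (#{a ∈ A' | α a = x} : ℝ) ≤ (1 - 2 * (D₀ / 100) / 2) * #A ∨
      (#{a ∈ B' | β a = y} : ℝ) ≤ (1 - 2 * (D₀ / 100) / 2) * #B ∨
      (#{a ∈ C' | γ a = z} : ℝ) ≤ (1 - 2 * (D₀ / 100) / 2) * #C := by
    rw [show 2 * (D₀ / 100) / 2 = D₀ / 100 by ring]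
    by_contra hh
    simp only [not_or, not_le] at hh
    exact absurd (hmin _ _ _ ⟨⟨sA', sB', sC'⟩, hc', hh.1.le, hh.2.1.le, hh.2.2.le⟩) (not_le.2 hlt)
  obtain ⟨r1, r2⟩ := tree_gain hI hL hd hD' hc' sA' sB' sC' (ψ := 2 * (D₀ / 100)) (by positivity)
    (by linarith) (treeb_two (by linarith) pa.le k1 l1) (treeb_two (by linarith) pb.le k2 l2)
    (treeb_two (by linarith) pc.le k3 l3)
    (treeb_prod3 (by linarith) (Nat.cast_nonneg _) (Nat.cast_nonneg _) (Nat.cast_nonneg _)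
      (by exact_mod_cast card_le_card sA') (by exact_mod_cast card_le_card sB')
      (by exact_mod_cast card_le_card sC') hng)
  have r3 : n₁ ≤ #(box T {a ∈ A' | α a = x} {a ∈ B' | β a = y} {a ∈ C' | γ a = z}) := by omega
  refine Or.inr ⟨_, filter_subset _ _, _, _, _, treeb_in _ _ _ _, r3, treeb_dns_mono ?_ r2⟩
  exact mul_le_mul_of_nonneg_right (by linarith [min_le_right κ (D₀ / 200)]) hD'.le

theorem tree (m : ℕ) {D : ℝ} (hD : 0 < D) : ∃ n₀ : ℕ, ∀ (X : Type) [DecidableEq X]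
    (T : Finset (X × X × X)) (A B C : Finset X), In T A B C → Lin T → Solv T → Dns D T A B C →
      n₀ ≤ #T → Grid T m := by
  obtain ⟨κ, hκ, hst⟩ := tree_step m hD
  have key : ∀ j : ℕ, ∃ n : ℕ, ∀ (X : Type) [DecidableEq X] (T : Finset (X × X × X))
      (A B C : Finset X) (E : ℝ), D ≤ E → 1 < (1 + κ) ^ j * E → In T A B C → Lin T → Solv T →
      Dns E T A B C → n ≤ #T → Grid T m := by
    intro j
    induction j with
    | zero =>
      refine ⟨1, fun X _ T A B C E hE h1 hI hL _ hd hn => ?_⟩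
      have := (tree_size hI hL hd (hD.trans_le hE) (card_pos.1 hn)).1
      rw [pow_zero, one_mul] at h1
      exact absurd this (not_le.2 h1)
    | succ j ih =>
      obtain ⟨n₁, h₁⟩ := ih
      obtain ⟨n₂, h₂⟩ := hst n₁
      refine ⟨n₂, fun X _ T A B C E hE h1 hI hL hS hd hn => ?_⟩
      rcases h₂ X T A B C E hE hI hL hS hd hn with h | ⟨T', s, A', B', C', hI', hn', hd'⟩
      · exact h
      · refine (h₁ X T' A' B' C' _ (hE.trans ?_) ?_ hI' (hL.mono s) (hS.mono s) hd' hn').mono s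
        · exact le_mul_of_one_le_left (hD.le.trans hE) (by linarith)
        · rw [← mul_assoc, ← pow_succ]; exact h1
  obtain ⟨j, hj⟩ := pow_unbounded_of_one_lt (1 / D) (by linarith : 1 < 1 + κ)
  obtain ⟨n, hn⟩ := key j
  exact ⟨n, fun X _ T A B C => hn X T A B C D le_rfl ((div_lt_iff₀ hD).1 hj)⟩

end TreeB

end Pool.Agent.MP_38296a_co.H88

end
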