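import Pool.Agent.MP_38296a_co.Mg.H88_Role
import Pool.Agent.MP_38296a_co.Mg.H88_Tree

set_option autoImplicit false

namespace Pool.Agent.MP_38296a_co.H88

section RigA


open Finset

theorem riga_int {K : ℕ} (α β γ : Fin K → ℝ) {u : ℝ} (hu : u ≠ 0) :
    ∃ (φ : ℝ →ₗ[ℚ] ℚ) (a b c : Fin K → ℤ), φ u ≠ 0 ∧ (∀ i, (a i : ℚ) = φ (α i)) ∧
      (∀ i, (b i : ℚ) = φ (β i)) ∧ ∀ i, (c i : ℚ) = φ (γ i) := by
  obtain ⟨φ, hφ⟩ : ∃ φ : ℝ →ₗ[ℚ] ℚ, φ u ≠ 0 := by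
    by_contra hn
    push Not at hn
    exact hu ((Module.forall_dual_apply_eq_zero_iff ℚ u).1 hn)
  obtain ⟨N, hN⟩ := IsLocalization.exist_integer_multiples_of_finite (nonZeroDivisors ℤ)
    (fun i : Fin K ⊕ Fin K ⊕ Fin K => φ (Sum.elim α (Sum.elim β γ) i))
  choose z hz using hN
  have hN0 : ((N : ℤ) : ℚ) ≠ 0 := by exact_mod_cast nonZeroDivisors.coe_ne_zero N
  have hz' : ∀ i, (z i : ℚ) = (((N : ℤ) : ℚ) • φ) (Sum.elim α (Sum.elim β γ) i) := fun i => by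
    simpa using hz i
  exact ⟨((N : ℤ) : ℚ) • φ, fun i => z (Sum.inl i), fun i => z (Sum.inr (Sum.inl i)),
    fun i => z (Sum.inr (Sum.inr i)), mul_ne_zero hN0 hφ,
    fun i => hz' _, fun i => hz' _, fun i => hz' _⟩

theorem riga_span {ι E : Type} [Fintype ι] [AddCommGroup E] [Module ℝ E] (L : ι → E →ₗ[ℝ] ℝ)
    (g : E →ₗ[ℝ] ℝ) (h : ∀ f, (∀ i, L i f = 0) → g f = 0) :
    ∃ C : ℝ, 0 ≤ C ∧ ∀ f ε, (∀ i, |L i f| ≤ ε) → |g f| ≤ C * ε := by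
  have h1 : g ∈ Submodule.span ℝ (Set.range L) :=
    mem_span_of_iInf_ker_le_ker fun f hf => h f fun i => (Submodule.mem_iInf _).1 hf i
  obtain ⟨c, rfl⟩ := (Submodule.mem_span_range_iff_exists_fun ℝ).1 h1
  refine ⟨∑ i, |c i|, sum_nonneg fun _ _ => abs_nonneg _, fun f ε hf => ?_⟩
  rw [LinearMap.sum_apply, sum_mul]
  refine (abs_sum_le_sum_abs _ _).trans (sum_le_sum fun i _ => ?_)
  rw [LinearMap.smul_apply, smul_eq_mul, abs_mul]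
  exact mul_le_mul_of_nonneg_left (hf i) (abs_nonneg _)

theorem riga_one {K : ℕ} (Q : Finset (Fin K × Fin K × Fin K)) (x y : Fin K × Fin K × Fin K) :
    ∃ C : ℝ, 0 ≤ C ∧ (x ∈ Q → y ∈ Q →
      (¬∃ α β γ : Fin K → ℤ, (∀ x ∈ Q, α x.1 + β x.2.1 + γ x.2.2 = 0) ∧
        ∃ x ∈ Q, ∃ y ∈ Q, α x.1 ≠ α y.1 ∨ β x.2.1 ≠ β y.2.1) →
      ∀ (α β γ : Fin K → ℝ) (ε : ℝ), (∀ x ∈ Q, |α x.1 + β x.2.1 + γ x.2.2| ≤ ε) →
        |α x.1 - α y.1| ≤ C * ε ∧ |β x.2.1 - β y.2.1| ≤ C * ε) := by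
  by_cases hx : x ∈ Q
  swap
  · exact ⟨0, le_rfl, fun h => absurd h hx⟩
  by_cases hy : y ∈ Q
  swap
  · exact ⟨0, le_rfl, fun _ h => absurd h hy⟩
  by_cases hn : ∃ α β γ : Fin K → ℤ, (∀ x ∈ Q, α x.1 + β x.2.1 + γ x.2.2 = 0) ∧
      ∃ x ∈ Q, ∃ y ∈ Q, α x.1 ≠ α y.1 ∨ β x.2.1 ≠ β y.2.1
  · exact ⟨0, le_rfl, fun _ _ h => absurd hn h⟩
  have key : ∀ α β γ : Fin K → ℝ, (∀ x ∈ Q, α x.1 + β x.2.1 + γ x.2.2 = 0) →
      α x.1 - α y.1 = 0 ∧ β x.2.1 - β y.2.1 = 0 := by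
    intro α β γ h
    have h2 : ∀ (φ : ℝ →ₗ[ℚ] ℚ) (a b c : Fin K → ℤ), (∀ i, (a i : ℚ) = φ (α i)) →
        (∀ i, (b i : ℚ) = φ (β i)) → (∀ i, (c i : ℚ) = φ (γ i)) →
        ∀ v ∈ Q, a v.1 + b v.2.1 + c v.2.2 = 0 := by
      intro φ a b c ha hb hc v hv
      have : ((a v.1 + b v.2.1 + c v.2.2 : ℤ) : ℚ) = 0 := by
        push_cast
        rw [ha, hb, hc, ← map_add, ← map_add, h v hv, map_zero]
      exact_mod_cast this
    constructor <;> by_contra hu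
    · obtain ⟨φ, a, b, c, h0, ha, hb, hc⟩ := riga_int α β γ hu
      refine hn ⟨a, b, c, h2 φ a b c ha hb hc, x, hx, y, hy, Or.inl fun he => h0 ?_⟩
      rw [map_sub, ← ha, ← ha, he, sub_self]
    · obtain ⟨φ, a, b, c, h0, ha, hb, hc⟩ := riga_int α β γ hu
      refine hn ⟨a, b, c, h2 φ a b c ha hb hc, x, hx, y, hy, Or.inr fun he => h0 ?_⟩
      rw [map_sub, ← hb, ← hb, he, sub_self]
  let p₁ : Fin K → ((Fin K → ℝ) × (Fin K → ℝ) × (Fin K → ℝ)) →ₗ[ℝ] ℝ := fun i =>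
    (LinearMap.proj i).comp (LinearMap.fst ℝ _ _)
  let p₂ : Fin K → ((Fin K → ℝ) × (Fin K → ℝ) × (Fin K → ℝ)) →ₗ[ℝ] ℝ := fun i =>
    (LinearMap.proj i).comp ((LinearMap.fst ℝ _ _).comp (LinearMap.snd ℝ _ _))
  let p₃ : Fin K → ((Fin K → ℝ) × (Fin K → ℝ) × (Fin K → ℝ)) →ₗ[ℝ] ℝ := fun i =>
    (LinearMap.proj i).comp ((LinearMap.snd ℝ _ _).comp (LinearMap.snd ℝ _ _))
  obtain ⟨C₁, h₁, H₁⟩ := riga_span (fun v : Q => p₁ v.1.1 + p₂ v.1.2.1 + p₃ v.1.2.2)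
    (p₁ x.1 - p₁ y.1) fun f hf => (key f.1 f.2.1 f.2.2 fun v hv => hf ⟨v, hv⟩).1
  obtain ⟨C₂, h₂, H₂⟩ := riga_span (fun v : Q => p₁ v.1.1 + p₂ v.1.2.1 + p₃ v.1.2.2)
    (p₂ x.2.1 - p₂ y.2.1) fun f hf => (key f.1 f.2.1 f.2.2 fun v hv => hf ⟨v, hv⟩).2
  refine ⟨C₁ + C₂, add_nonneg h₁ h₂, fun _ _ _ α β γ ε h => ?_⟩
  have hε : 0 ≤ ε := (abs_nonneg _).trans (h x hx)
  exact ⟨(H₁ (α, β, γ) ε fun v => h v.1 v.2).trans (by gcongr; linarith),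
    (H₂ (α, β, γ) ε fun v => h v.1 v.2).trans (by gcongr; linarith)⟩

/-- Systems without a non constant integer labelling are uniformly rigid. -/
theorem rig_C (K : ℕ) : ∃ C : ℝ, 1 ≤ C ∧ ∀ Q : Finset (Fin K × Fin K × Fin K),
    (∃ α β γ : Fin K → ℤ, (∀ x ∈ Q, α x.1 + β x.2.1 + γ x.2.2 = 0) ∧
      ∃ x ∈ Q, ∃ y ∈ Q, α x.1 ≠ α y.1 ∨ β x.2.1 ≠ β y.2.1) ∨
    ∀ (α β γ : Fin K → ℝ) (ε : ℝ), (∀ x ∈ Q, |α x.1 + β x.2.1 + γ x.2.2| ≤ ε) →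
      ∀ x ∈ Q, ∀ y ∈ Q, |α x.1 - α y.1| ≤ C * ε ∧ |β x.2.1 - β y.2.1| ≤ C * ε := by
  choose C hC H using fun t : Finset (Fin K × Fin K × Fin K) × (Fin K × Fin K × Fin K) ×
    (Fin K × Fin K × Fin K) => riga_one t.1 t.2.1 t.2.2
  have h0 : 0 ≤ ∑ t, C t := sum_nonneg fun t _ => hC t
  refine ⟨1 + ∑ t, C t, by linarith, fun Q => ?_⟩
  refine (em _).imp id fun hn α β γ ε h x hx y hy => ?_
  have hε : 0 ≤ ε := (abs_nonneg _).trans (h x hx)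
  have h1 : C (Q, x, y) ≤ 1 + ∑ t, C t := by
    linarith [single_le_sum (fun t _ => hC t) (mem_univ (Q, x, y))]
  obtain ⟨h2, h3⟩ := H (Q, x, y) hx hy hn α β γ ε h
  exact ⟨h2.trans (by gcongr), h3.trans (by gcongr)⟩

end RigA

section RigB


open Finset

theorem rigb_theta {η u v w : ℝ} (h : Near η u w) (e : u + v + w = 0) :
    ∃ θ : ℝ, |θ| ≤ η ∧ v = -u * (1 + θ) := by
  obtain ⟨h0, h1⟩ := h
  refine ⟨w / u, ?_, ?_⟩
  · rw [abs_div, div_le_iff₀ (abs_pos.2 h0)]; exact h1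
  · field_simp; linarith

theorem rigb_one {θ : ℝ} (h : |θ| ≤ 1 / 100) : 0 < 1 + θ := by
  have := (abs_le.1 h).1
  linarith

theorem rigb_log1 {θ : ℝ} (h : |θ| ≤ 1 / 100) : |Real.log (1 + θ)| ≤ 2 * |θ| := by
  have h0 := rigb_one h
  have h1 := Real.log_le_sub_one_of_pos h0
  have h2 := Real.one_sub_inv_le_log_of_pos h0
  have h3 := le_abs_self θ
  have h4 := neg_abs_le θ
  have h5 := abs_nonneg θ
  have h6 : -(2 * |θ|) ≤ 1 - (1 + θ)⁻¹ := by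
    have : (1 + θ)⁻¹ ≤ 1 + 2 * |θ| := by
      rw [inv_le_iff_one_le_mul₀ h0]
      nlinarith
    linarith
  rw [abs_le]
  constructor <;> linarith

/-- the local structure at one triple -/
theorem rigb_loc {η l m n a1 b1 c1 a2 b2 c2 a3 b3 c3 : ℝ} (hη : η ≤ 1 / 100)
    (e1 : l * a1 + m * b1 + n * c1 = 0) (e2 : l * a2 + m * b2 + n * c2 = 0)
    (e3 : l * a3 + m * b3 + n * c3 = 0) (n1 : Near η (l * a1) (n * c1))
    (n2 : Near η (m * b2) (l * a2)) (n3 : Near η (n * c3) (m * b3)) :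
    (a1 / a3 ≠ 0 ∧ a1 ≠ 0 ∧ b1 ≠ 0) ∧
      |Real.log (a1 / a3) + Real.log (b2 / b1) + Real.log (c3 / c2)| ≤ 6 * η ∧
      ∃ θ₁ θ₃ : ℝ, |θ₁| ≤ η ∧ |θ₃| ≤ η ∧ ∀ ga gb gc r : ℝ, r ≠ 0 → l * ga + m * gb + n * gc = 0 →
        -gc / (c3 * r) = -((ga / a1 + (1 + θ₁) * (-gb / b1)) * ((1 + θ₃) * (a1 / a3 / r))) := by
  obtain ⟨θ₁, t1, q1⟩ := rigb_theta (v := m * b1) n1 e1
  obtain ⟨θ₂, t2, q2⟩ := rigb_theta (v := n * c2) n2 (by linarith)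
  obtain ⟨θ₃, t3, q3⟩ := rigb_theta (v := l * a3) n3 (by linarith)
  have p1 := rigb_one (t1.trans hη)
  have p2 := rigb_one (t2.trans hη)
  have p3 := rigb_one (t3.trans hη)
  have hl : l ≠ 0 := left_ne_zero_of_mul n1.1
  have ha1 : a1 ≠ 0 := right_ne_zero_of_mul n1.1
  have hm : m ≠ 0 := left_ne_zero_of_mul n2.1
  have hb2 : b2 ≠ 0 := right_ne_zero_of_mul n2.1
  have hn : n ≠ 0 := left_ne_zero_of_mul n3.1
  have hc3 : c3 ≠ 0 := right_ne_zero_of_mul n3.1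
  have r1 : b1 = -(l * a1) * (1 + θ₁) / m := by rw [← q1]; field_simp
  have r2 : c2 = -(m * b2) * (1 + θ₂) / n := by rw [← q2]; field_simp
  have r3 : a3 = -(n * c3) * (1 + θ₃) / l := by rw [← q3]; field_simp
  have p1' := p1.ne'
  have p2' := p2.ne'
  have p3' := p3.ne'
  have hb1 : b1 ≠ 0 := by
    rw [r1]; exact div_ne_zero (mul_ne_zero (neg_ne_zero.2 n1.1) p1') hm
  have hc2 : c2 ≠ 0 := by
    rw [r2]; exact div_ne_zero (mul_ne_zero (neg_ne_zero.2 n2.1) p2') hn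
  have ha3 : a3 ≠ 0 := by
    rw [r3]; exact div_ne_zero (mul_ne_zero (neg_ne_zero.2 n3.1) p3') hl
  refine ⟨⟨div_ne_zero ha1 ha3, ha1, hb1⟩, ?_, θ₁, θ₃, t1, t3, fun ga gb gc r hr e => ?_⟩
  · have k1 := div_ne_zero ha1 ha3
    have k2 := div_ne_zero hb2 hb1
    have k3 := div_ne_zero hc3 hc2
    rw [← Real.log_mul k1 k2, ← Real.log_mul (mul_ne_zero k1 k2) k3]
    have : a1 / a3 * (b2 / b1) * (c3 / c2) = -((1 + θ₁) * (1 + θ₂) * (1 + θ₃))⁻¹ := by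
      rw [r1, r2, r3]; field_simp
    rw [this, Real.log_neg_eq_log, Real.log_inv, abs_neg, Real.log_mul (mul_ne_zero p1' p2') p3',
      Real.log_mul p1' p2']
    have s1 := rigb_log1 (t1.trans hη)
    have s2 := rigb_log1 (t2.trans hη)
    have s3 := rigb_log1 (t3.trans hη)
    have := abs_add_three (Real.log (1 + θ₁)) (Real.log (1 + θ₂)) (Real.log (1 + θ₃))
    linarith
  · have : gc = -(l * ga + m * gb) / n := by field_simp; linarith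
    rw [this, r1, r3]; field_simp

theorem rigb_ratio {p q s : ℝ} (hp : p ≠ 0) (hq : q ≠ 0) (h : 0 < p ↔ 0 < q)
    (hl : |Real.log p - Real.log q| ≤ 6 * s) (hs : s ≤ 1 / 100) : |p / q - 1| ≤ 12 * s := by
  have h0 : 0 < p / q := by
    rcases lt_or_gt_of_ne hp with h1 | h1
    · have h2 : q < 0 := lt_of_le_of_ne (not_lt.1 fun h3 => absurd (h.2 h3) (not_lt.2 h1.le)) hq
      exact div_pos_of_neg_of_neg h1 h2
    · exact div_pos h1 (h.1 h1)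
  rw [← Real.log_div hp hq] at hl
  have := Real.abs_exp_sub_one_le (x := Real.log (p / q)) (by linarith)
  rw [Real.exp_log h0] at this
  linarith

theorem rigb_alg {α β θ₁ θ₃ r s M : ℝ} (hs : s ≤ 1 / 100) (h1 : |θ₁| ≤ s) (h3 : |θ₃| ≤ s)
    (hr : |r - 1| ≤ 12 * s) (hα : |α| ≤ M) (hβ : |β| ≤ M) :
    |α + β + -((α + (1 + θ₁) * β) * ((1 + θ₃) * r))| ≤ 42 * s * M := by
  have s0 : 0 ≤ s := (abs_nonneg _).trans h1
  have M0 : 0 ≤ M := (abs_nonneg _).trans hα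
  have r2 : |r| ≤ 2 := by
    have := abs_le.1 hr
    rw [abs_le]; constructor <;> linarith [this.1, this.2]
  have t1 : |(1 + θ₃) * r - 1| ≤ 14 * s := by
    have e : (1 + θ₃) * r - 1 = (r - 1) + θ₃ * r := by ring
    have : |θ₃ * r| ≤ s * 2 := by
      rw [abs_mul]; exact mul_le_mul h3 r2 (abs_nonneg _) s0
    rw [e]
    linarith [abs_add_le (r - 1) (θ₃ * r)]
  generalize (1 + θ₃) * r = τ at t1 ⊢
  have t2 : |τ| ≤ 2 := by
    have := abs_le.1 t1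
    rw [abs_le]; constructor <;> linarith [this.1, this.2]
  have e : α + β + -((α + (1 + θ₁) * β) * τ) = -((α + β) * (τ - 1) + θ₁ * β * τ) := by ring
  have k1 : |(α + β) * (τ - 1)| ≤ 2 * M * (14 * s) := by
    rw [abs_mul]
    exact mul_le_mul (by linarith [abs_add_le α β]) t1 (abs_nonneg _) (by linarith)
  have k2 : |θ₁ * β * τ| ≤ s * M * 2 := by
    rw [abs_mul, abs_mul]
    exact mul_le_mul (mul_le_mul h1 hβ (abs_nonneg _) s0) t2 (abs_nonneg _) (mul_nonneg s0 M0)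
  rw [e, abs_neg]
  have := mul_nonneg s0 M0
  linarith [abs_add_le ((α + β) * (τ - 1)) (θ₁ * β * τ)]

/-- Approximately additive systems are solvable. -/
theorem rigid (K : ℕ) : ∃ η : ℝ, 0 < η ∧ ∀ (T : Finset (Fin K × Fin K × Fin K))
    (co : Fin K × Fin K × Fin K → ℝ × ℝ × ℝ)
    (f₁ f₂ f₃ : (Fin K → ℝ) × (Fin K → ℝ) × (Fin K → ℝ)), Sol T co f₁ → Sol T co f₂ → Sol T co f₃ →
    (∀ x ∈ T, Near η ((co x).1 * f₁.1 x.1) ((co x).2.2 * f₁.2.2 x.2.2) ∧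
      Near η ((co x).2.1 * f₂.2.1 x.2.1) ((co x).1 * f₂.1 x.1) ∧
      Near η ((co x).2.2 * f₃.2.2 x.2.2) ((co x).2.1 * f₃.2.1 x.2.1)) →
    (∀ x ∈ T, ∀ y ∈ T, x ≠ y → ∃ g, Sol T co g ∧ g.1 x.1 = 0 ∧ g.2.1 x.2.1 = 0 ∧
      (g.1 y.1 ≠ 0 ∨ g.2.1 y.2.1 ≠ 0)) →
    ∃ T' ⊆ T, #T ≤ 2 * #T' ∧ Solv T' := by
  obtain ⟨C, hC, hQ⟩ := rig_C K
  have C0 : 0 < C := by linarith
  obtain ⟨η, η0, hη⟩ : ∃ η : ℝ, 0 < η ∧ C * (C * η) = 1 / 100 :=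
    ⟨1 / (100 * C ^ 2), by positivity, by field_simp⟩
  have s0 : 0 < C * η := by positivity
  have hs : C * η ≤ 1 / 100 := by nlinarith
  have hs' : η ≤ C * η := by nlinarith
  refine ⟨η, η0, fun T co f₁ f₂ f₃ s1 s2 s3 hN hg => ?_⟩
  obtain ⟨T', hT', hc, hs2⟩ := pigeon T (fun x => decide (0 < f₁.1 x.1 / f₃.1 x.1)) (N := 2)
    ((card_le_univ _).trans_eq Fintype.card_bool)
  refine ⟨T', hT', hc, fun Q hQT h2 => ?_⟩
  rcases hQ Q with h | h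
  · exact h
  exfalso
  have loc := fun z (hz : z ∈ Q) =>
    rigb_loc (hs'.trans hs) (s1 z (hT' (hQT hz))) (s2 z (hT' (hQT hz))) (s3 z (hT' (hQT hz)))
      (hN z (hT' (hQT hz))).1 (hN z (hT' (hQT hz))).2.1 (hN z (hT' (hQT hz))).2.2
  obtain ⟨x, hx, y, hy, hxy⟩ := one_lt_card.1 h2
  have h1 := h (fun a => Real.log (f₁.1 a / f₃.1 a)) (fun b => Real.log (f₂.2.1 b / f₁.2.1 b))
    (fun c => Real.log (f₃.2.2 c / f₂.2.2 c)) (6 * η) fun z hz => (loc z hz).2.1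
  have hr : ∀ z ∈ Q, |f₁.1 z.1 / f₃.1 z.1 / (f₁.1 x.1 / f₃.1 x.1) - 1| ≤ 12 * (C * η) :=
    fun z hz => rigb_ratio (loc z hz).1.1 (loc x hx).1.1
      (decide_eq_decide.1 (hs2 z (hQT hz) x (hQT hx)))
      ((h1 z hz x hx).1.trans_eq (by ring)) hs
  obtain ⟨g, sg, g1, g2, g3⟩ := hg x (hT' (hQT hx)) y (hT' (hQT hy)) hxy
  obtain ⟨w, hw, hM⟩ := exists_max_image Q
    (fun z => max |g.1 z.1 / f₁.1 z.1| |-g.2.1 z.2.1 / f₁.2.1 z.2.1|) ⟨x, hx⟩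
  obtain ⟨M, hMw⟩ : ∃ M, M = max |g.1 w.1 / f₁.1 w.1| |-g.2.1 w.2.1 / f₁.2.1 w.2.1| := ⟨_, rfl⟩
  simp only [← hMw] at hM
  have h3 := h (fun a => g.1 a / f₁.1 a) (fun b => -g.2.1 b / f₁.2.1 b)
    (fun c => -g.2.2 c / (f₃.2.2 c * (f₁.1 x.1 / f₃.1 x.1))) (42 * (C * η) * M) (fun z hz => by
      obtain ⟨θ₁, θ₃, t1, t3, e⟩ := (loc z hz).2.2
      have := e _ _ _ _ (loc x hx).1.1 (sg z (hT' (hQT hz)))
      rw [this]
      exact rigb_alg hs (t1.trans hs') (t3.trans hs') (hr z hz)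
        ((le_max_left _ _).trans (hM z hz)) ((le_max_right _ _).trans (hM z hz))) w hw x hx
  simp only [g1, g2, neg_zero, zero_div, sub_zero] at h3
  have h4 : M ≤ C * (42 * (C * η) * M) := hMw.trans_le (max_le h3.1 h3.2)
  have h5 : C * (42 * (C * η) * M) = 42 * (C * (C * η)) * M := by ring
  rw [h5, hη] at h4
  have h6 : M ≤ 0 := by linarith
  have h7 := (hM y hy).trans h6
  rcases g3 with g3 | g3
  · exact absurd ((le_max_left _ _).trans h7)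
      (not_le.2 (abs_pos.2 (div_ne_zero g3 (loc y hy).1.2.1)))
  · exact absurd ((le_max_right _ _).trans h7)
      (not_le.2 (abs_pos.2 (div_ne_zero (neg_ne_zero.2 g3) (loc y hy).1.2.2)))

end RigB

section MainB


open Finset

/-- translation of a cell -/
def mainb_e (K I J L : ℕ) (x : Fin K × Fin K × Fin K) : ℕ × ℕ × ℕ :=
  (I * K + x.1, J * K + x.2.1, L * K + x.2.2)

theorem mainb_inj (K I J L : ℕ) : Function.Injective (mainb_e K I J L) := by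
  intro x y h
  simp only [mainb_e, Prod.mk.injEq, add_right_inj] at h
  exact Prod.ext (Fin.ext h.1) (Prod.ext (Fin.ext h.2.1) (Fin.ext h.2.2))

theorem mainb_surj {K I J L : ℕ} (hK : 0 < K) {x : ℕ × ℕ × ℕ}
    (h : x.1 / K = I ∧ x.2.1 / K = J ∧ x.2.2 / K = L) : ∃ u, mainb_e K I J L u = x := by
  obtain ⟨rfl, rfl, rfl⟩ := h
  exact ⟨(⟨x.1 % K, Nat.mod_lt _ hK⟩, ⟨x.2.1 % K, Nat.mod_lt _ hK⟩, ⟨x.2.2 % K, Nat.mod_lt _ hK⟩),
    Prod.ext (Nat.div_add_mod' _ _) (Prod.ext (Nat.div_add_mod' _ _) (Nat.div_add_mod' _ _))⟩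

theorem mainb_lin {K I J L : ℕ} {U : Finset (Fin K × Fin K × Fin K)} {T : Finset (ℕ × ℕ × ℕ)}
    (h : ∀ x ∈ U, mainb_e K I J L x ∈ T) (hL : Lin T) : Lin U := by
  intro x hx y hy hxy
  refine mainb_inj K I J L (hL _ (h x hx) _ (h y hy) ?_)
  simp only [mainb_e]
  rcases hxy with ⟨h1, h2⟩ | ⟨h1, h2⟩ | ⟨h1, h2⟩
  · exact Or.inl ⟨by rw [h1], by rw [h2]⟩
  · exact Or.inr (Or.inl ⟨by rw [h1], by rw [h2]⟩)
  · exact Or.inr (Or.inr ⟨by rw [h1], by rw [h2]⟩)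

theorem mainb_grid {K I J L m : ℕ} {U : Finset (Fin K × Fin K × Fin K)} {T : Finset (ℕ × ℕ × ℕ)}
    (h : ∀ x ∈ U, mainb_e K I J L x ∈ T) (hG : Grid U m) : Grid T m := by
  obtain ⟨A, B, C, h1, h2, h3, h4⟩ := hG
  refine ⟨A.image fun i => I * K + i.1, B.image fun i => J * K + i.1, C.image fun i => L * K + i.1,
    card_image_le.trans h1, card_image_le.trans h2, card_image_le.trans h3, h4.trans ?_⟩
  refine card_le_card_of_injOn (mainb_e K I J L) (fun x hx => ?_) (mainb_inj K I J L).injOn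
  obtain ⟨h5, h6, h7, h8⟩ := mem_filter.1 (mem_coe.1 hx)
  exact mem_coe.2 (mem_filter.2 ⟨h x h5, mem_image_of_mem _ h6, mem_image_of_mem _ h7,
    mem_image_of_mem _ h8⟩)

/-- Hint: `δ₁ = δ / (d+1)^3`, `δ'` from `cell d δ₁`, `n₁` from `tree m ((δ'/2)^3)`, `K ≥ 2` with
`n₁ ≤ δ' / 2 * K^2`, `η` from `rigid K`, `n₀` from `cell`. `sep_select`, `Sep.lin`, `cell` give `T₂` in a
cell `I J L`. Let `e x = (I K + x.1, J K + x.2.1, L K + x.2.2)` for `x : Fin K × Fin K × Fin K`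
(injective), `U = {x | e x ∈ T₂}`, `#U = #T₂`, `co = w ∘ e`, and for an affine `f` the solution
`(fun i => ev f (a (I K + i)), fun j => ev f (b (J K + j)), fun l => ev f (c (L K + l)))` (`Dep`); the last
hypothesis of `rigid` is `Sep` with `f = ln ..`. `tree` with `A = B = C = univ`. Transport the grid back
along `e` (images of `A B C` under `i ↦ I K + i` etc.). The witness is the set from `sep_select`. -/
theorem core (m d : ℕ) {δ : ℝ} (hδ : 0 < δ) : ∃ n₀ : ℕ, ∀ n na nb nc : ℕ, n₀ ≤ n → na ≤ n →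
    nb ≤ n → nc ≤ n → ∀ (a b c : ℕ → ℝ × ℝ) (T : Finset (ℕ × ℕ × ℕ))
      (w : ℕ × ℕ × ℕ → ℝ × ℝ × ℝ), In T (range na) (range nb) (range nc) →
      (∀ x ∈ T, a x.1 ≠ b x.2.1 ∧ Dep (w x) (a x.1) (b x.2.1) (c x.2.2)) →
      Few6 d na nb nc a b c → δ * (n : ℝ) ^ 2 ≤ #T → ∃ T' ⊆ T, Sep a b T' ∧ Grid T' m := by
  classical
  obtain ⟨δ', hδ', hcell⟩ := cell d (δ := δ / ((d : ℝ) + 1) ^ 3) (by positivity)
  obtain ⟨n₁, htree⟩ := tree m (D := (δ' / 2) ^ 3) (by positivity)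
  obtain ⟨K₀, hK₀⟩ := exists_nat_ge (n₁ / (δ' / 2))
  obtain ⟨K, hK2, hK⟩ : ∃ K : ℕ, 2 ≤ K ∧ (n₁ : ℝ) ≤ δ' / 2 * (K : ℝ) ^ 2 := by
    refine ⟨K₀ + 2, by omega, ?_⟩
    rw [div_le_iff₀' (by positivity)] at hK₀
    refine hK₀.trans (mul_le_mul_of_nonneg_left ?_ (by positivity))
    have : (0 : ℝ) ≤ K₀ := Nat.cast_nonneg _
    push_cast
    nlinarith
  obtain ⟨η, hη, hrig⟩ := rigid K
  obtain ⟨n₀, hn₀⟩ := hcell K hK2 η hη
  refine ⟨n₀, fun n na nb nc h0 ha hb hc a b c T w hI hd hF hT => ?_⟩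
  obtain ⟨T₁, hs₁, hc₁, hsep⟩ := sep_select hI hd hF
  have hd₁ : ∀ x ∈ T₁, Dep (w x) (a x.1) (b x.2.1) (c x.2.2) := fun x hx => (hd x (hs₁ hx)).2
  have hL₁ : Lin T₁ := hsep.lin hd₁
  obtain ⟨T₂, hs₂, hc₂, I, J, L, f₁, f₂, f₃, h₂⟩ := hn₀ n na nb nc h0 ha hb hc a b c T₁ w
    (fun x hx => hI x (hs₁ hx)) hL₁ hd₁ hF (by
      rw [div_mul_eq_mul_div, div_le_iff₀' (by positivity)]
      exact hT.trans (by exact_mod_cast hc₁))
  set e := mainb_e K I J L with he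
  set U : Finset (Fin K × Fin K × Fin K) := {x | e x ∈ T₂} with hU
  have hU₂ : ∀ x ∈ U, e x ∈ T₂ := fun x hx => (mem_filter.1 hx).2
  have hU₁ : ∀ x ∈ U, e x ∈ T₁ := fun x hx => hs₂ (hU₂ x hx)
  have hcU : #T₂ ≤ #U := by
    refine le_trans (card_le_card fun x hx => ?_) (card_image_le (f := e))
    obtain ⟨u, rfl⟩ := mainb_surj (by omega) (h₂ x hx).1
    exact mem_image_of_mem _ (mem_filter.2 ⟨mem_univ _, hx⟩)
  let sol : ℝ × ℝ × ℝ → (Fin K → ℝ) × (Fin K → ℝ) × (Fin K → ℝ) := fun f =>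
    (fun i => ev f (a (I * K + i)), fun j => ev f (b (J * K + j)), fun l => ev f (c (L * K + l)))
  have hsol : ∀ f, Sol U (fun x => w (e x)) (sol f) := fun f x hx =>
    (hd₁ _ (hU₁ x hx)).2.2.2 f
  obtain ⟨U', hs', hc', hsolv⟩ := hrig U (fun x => w (e x)) _ _ _ (hsol f₁) (hsol f₂) (hsol f₃)
    (fun x hx => (h₂ _ (hU₂ x hx)).2)
    (fun x hx y hy hxy => ⟨sol (ln (a (e x).1) (b (e x).2.1)), hsol _, ev_ln_left _ _,
      ev_ln_right _ _, by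
        by_contra hn
        rw [not_or, not_not, not_not] at hn
        exact hxy (mainb_inj K I J L (hsep _ (hU₁ x hx) _ (hU₁ y hy) hn.1 hn.2))⟩)
  have hU' : ∀ x ∈ U', e x ∈ T₁ := fun x hx => hU₁ x (hs' hx)
  have h3 : δ' / 2 * (K : ℝ) ^ 2 ≤ #U' := by
    have : (#T₂ : ℝ) ≤ 2 * #U' := by exact_mod_cast hcU.trans hc'
    linarith
  refine ⟨T₁, hs₁, hsep, mainb_grid hU' (htree _ U' univ univ univ
    (fun x _ => ⟨mem_univ _, mem_univ _, mem_univ _⟩) (mainb_lin hU' hL₁) hsolv ?_ ?_)⟩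
  · rw [Dns, card_univ, Fintype.card_fin]
    calc (δ' / 2) ^ 3 * ((K : ℝ) * K * K) ^ 2 = (δ' / 2 * (K : ℝ) ^ 2) ^ 3 := by ring
      _ ≤ _ := pow_le_pow_left₀ (by positivity) h3 3
  · exact_mod_cast hK.trans h3

end MainB

section MainC


open Finset

/-- coordinates of a point -/
def co (q : EuclideanSpace ℝ (Fin 2)) : ℝ × ℝ := (q 0, q 1)

theorem co_inj {p q : EuclideanSpace ℝ (Fin 2)} (h : co p = co q) : p = q := by
  ext i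
  fin_cases i
  · exact congrArg Prod.fst h
  · exact congrArg Prod.snd h

theorem mainc_dep {p q r : EuclideanSpace ℝ (Fin 2)} (h1 : p ≠ q) (h2 : q ≠ r) (h3 : r ≠ p)
    (h : Collinear ℝ ({p, q, r} : Set (EuclideanSpace ℝ (Fin 2)))) :
    ∃ w, Dep w (co p) (co q) (co r) := by
  obtain ⟨v, hv⟩ := (collinear_iff_of_mem (p₀ := p) (by simp)).1 h
  obtain ⟨s, rfl⟩ := hv q (by simp)
  obtain ⟨t, rfl⟩ := hv r (by simp)
  refine ⟨(s - t, t, -s), fun e => h2 ?_, fun e => h3 ?_, fun e => h1 ?_, fun f => ?_⟩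
  · rw [sub_eq_zero.1 e]
  · simp only at e; simp [e]
  · simp only [neg_eq_zero] at e; simp [e]
  · simp only [ev, co, vadd_eq_add, PiLp.add_apply, PiLp.smul_apply, smul_eq_mul]
    ring

theorem mainc_few {d n : ℕ} {a : ℕ → EuclideanSpace ℝ (Fin 2)} {o : EuclideanSpace ℝ (Fin 2)}
    (h : ∀ u v w : ℝ, (u ≠ 0 ∨ v ≠ 0) → u * o 0 + v * o 1 + w = 0 →
      {i : ℕ | i + 1 < n ∧
        (u * a i 0 + v * a i 1 + w) * (u * a (i + 1) 0 + v * a (i + 1) 1 + w) ≤ 0}.ncard ≤ d) :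
    Few d n (fun i => co (a i)) (co o) := fun f hf ho => by
  refine le_trans (le_of_eq ?_) (h f.1 f.2.1 f.2.2 hf ho)
  rw [← Set.ncard_coe_finset]
  congr 1
  ext i
  simp only [coe_filter, mem_range, Set.mem_ofPred_eq, ev, co]
  exact ⟨fun h => h.2, fun h => ⟨Nat.lt_of_succ_lt h.1, h⟩⟩

open Classical in
theorem mainc_count {a b c : ℕ → EuclideanSpace ℝ (Fin 2)} {Q : Finset (ℕ × ℕ × ℕ)}
    (hS : Sep (fun i => co (a i)) (fun i => co (b i)) Q)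
    (hQ : ∀ x ∈ Q, a x.1 ≠ b x.2.1 ∧ b x.2.1 ≠ c x.2.2 ∧ c x.2.2 ≠ a x.1 ∧
      Collinear ℝ ({a x.1, b x.2.1, c x.2.2} : Set (EuclideanSpace ℝ (Fin 2))))
    {V : Finset (EuclideanSpace ℝ (Fin 2))}
    (hV : ∀ x ∈ Q, a x.1 ∈ V ∧ b x.2.1 ∈ V ∧ c x.2.2 ∈ V) :
    #Q ≤ {t : Finset (EuclideanSpace ℝ (Fin 2)) |
      t ⊆ V ∧ t.card = 3 ∧ Collinear ℝ (t : Set (EuclideanSpace ℝ (Fin 2)))}.ncard := by
  rw [← Set.ncard_coe_finset]
  refine Set.ncard_le_ncard_of_injOn (fun x => {a x.1, b x.2.1, c x.2.2}) (fun x hx => ?_)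
    (fun x hx y hy e => ?_) ((V.powerset.finite_toSet).subset fun t ht => by simpa using ht.1)
  · obtain ⟨h1, h2, h3, h4⟩ := hQ x hx
    obtain ⟨v1, v2, v3⟩ := hV x hx
    refine ⟨by simp [insert_subset_iff, v1, v2, v3],
      card_eq_three.2 ⟨_, _, _, h1, h3.symm, h2, rfl⟩, by simpa using h4⟩
  · obtain ⟨h1, h2, h3, h4⟩ := hQ x hx
    obtain ⟨w, -, -, w3, hw⟩ := mainc_dep h1 h2 h3 h4
    have key : ∀ q ∈ ({a x.1, b x.2.1, c x.2.2} : Finset _),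
        ev (ln (co (a x.1)) (co (b x.2.1))) (co q) = 0 := fun q hq => by
      simp only [mem_insert, mem_singleton] at hq
      rcases hq with rfl | rfl | rfl
      · exact ev_ln_left _ _
      · exact ev_ln_right _ _
      · have := hw (ln (co (a x.1)) (co (b x.2.1)))
        rw [ev_ln_left, ev_ln_right, mul_zero, mul_zero, add_zero, zero_add] at this
        exact (mul_eq_zero.1 this).resolve_left w3
    simp only at e
    exact hS x hx y hy (key _ (by simp [e])) (key _ (by simp [e]))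

theorem final :
    ∃ c : ℝ, 0 < c ∧ ∀ k : ℕ, 3 ≤ k → ∀ δ : ℝ, 0 < δ → ∀ d : ℕ, ∃ n0 : ℕ, ∀ n : ℕ, n0 ≤ n →
      ∀ (len : Fin 3 → ℕ) (p : Fin 3 → ℕ → EuclideanSpace ℝ (Fin 2)), (∀ r, len r ≤ n) →
        (∀ r s : Fin 3, r ≠ s → ∀ j : ℕ, j < len s → ∀ u v w : ℝ, (u ≠ 0 ∨ v ≠ 0) →
          u * p s j 0 + v * p s j 1 + w = 0 →
          {i : ℕ | i + 1 < len r ∧
            (u * p r i 0 + v * p r i 1 + w) * (u * p r (i + 1) 0 + v * p r (i + 1) 1 + w) ≤ 0}.ncard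
              ≤ d) →
        δ * (n : ℝ) ^ 2 ≤
          (({x : ℕ × ℕ × ℕ | x.1 < len 0 ∧ x.2.1 < len 1 ∧ x.2.2 < len 2 ∧
              p 0 x.1 ≠ p 1 x.2.1 ∧ p 1 x.2.1 ≠ p 2 x.2.2 ∧ p 2 x.2.2 ≠ p 0 x.1 ∧
              Collinear ℝ ({p 0 x.1, p 1 x.2.1, p 2 x.2.2} :
                Set (EuclideanSpace ℝ (Fin 2)))}.ncard : ℕ) : ℝ) →
        ∃ V : Finset (EuclideanSpace ℝ (Fin 2)),
          (∀ q ∈ V, ∃ (r : Fin 3) (i : ℕ), i < len r ∧ q = p r i) ∧ V.card ≤ k ∧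
          c * (k : ℝ) ^ 2 ≤
            (({t : Finset (EuclideanSpace ℝ (Fin 2)) |
                t ⊆ V ∧ t.card = 3 ∧
                  Collinear ℝ (t : Set (EuclideanSpace ℝ (Fin 2)))}.ncard : ℕ) : ℝ) := by
  classical
  refine ⟨1 / 64, by norm_num, fun k hk δ hδ d => ?_⟩
  obtain ⟨n₀, h⟩ := core (max 1 (k / 4)) d hδ
  refine ⟨n₀, fun n hn len p hlen hF hT => ?_⟩
  set T := {x ∈ range (len 0) ×ˢ range (len 1) ×ˢ range (len 2) |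
    p 0 x.1 ≠ p 1 x.2.1 ∧ p 1 x.2.1 ≠ p 2 x.2.2 ∧ p 2 x.2.2 ≠ p 0 x.1 ∧
      Collinear ℝ ({p 0 x.1, p 1 x.2.1, p 2 x.2.2} : Set (EuclideanSpace ℝ (Fin 2)))} with hTd
  have hI : In T (range (len 0)) (range (len 1)) (range (len 2)) := fun x hx => by
    simpa only [mem_product] using (mem_filter.1 hx).1
  have hw : ∀ x ∈ T, ∃ w, Dep w (co (p 0 x.1)) (co (p 1 x.2.1)) (co (p 2 x.2.2)) := fun x hx => by
    obtain ⟨h1, h2, h3, h4⟩ := (mem_filter.1 hx).2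
    exact mainc_dep h1 h2 h3 h4
  choose! w hw using hw
  have hf : ∀ r s : Fin 3, r ≠ s →
      FewW d (len r) (fun i => co (p r i)) (len s) fun i => co (p s i) :=
    fun r s hrs j hj => mainc_few (hF r s hrs j hj)
  obtain ⟨T', hT', hS, A, B, C, hA, hB, hC, hQ⟩ := h n _ _ _ hn (hlen 0) (hlen 1) (hlen 2)
    (fun i => co (p 0 i)) (fun i => co (p 1 i)) (fun i => co (p 2 i)) T w hI
    (fun x hx => ⟨fun e => (mem_filter.1 hx).2.1 (co_inj e), hw x hx⟩)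
    ⟨⟨hf 0 1 (by decide), hf 0 2 (by decide)⟩, ⟨hf 1 2 (by decide), hf 1 0 (by decide)⟩,
      hf 2 0 (by decide), hf 2 1 (by decide)⟩ (by
      refine hT.trans_eq ?_
      rw [← Set.ncard_coe_finset]
      congr 2
      ext x
      simp only [hTd, coe_filter, mem_product, mem_range, Set.mem_ofPred_eq, and_assoc])
  have key : ∀ Q ⊆ T', ∀ A B C : Finset ℕ, In Q A B C → #A + #B + #C ≤ k →
      1 / 64 * (k : ℝ) ^ 2 ≤ #Q → ∃ V : Finset (EuclideanSpace ℝ (Fin 2)),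
        (∀ q ∈ V, ∃ (r : Fin 3) (i : ℕ), i < len r ∧ q = p r i) ∧ V.card ≤ k ∧
        1 / 64 * (k : ℝ) ^ 2 ≤ (({t : Finset (EuclideanSpace ℝ (Fin 2)) | t ⊆ V ∧ t.card = 3 ∧
          Collinear ℝ (t : Set (EuclideanSpace ℝ (Fin 2)))}.ncard : ℕ) : ℝ) := by
    intro Q hQ A B C hQI hk hc
    refine ⟨({i ∈ A | i < len 0}).image (p 0) ∪ ({i ∈ B | i < len 1}).image (p 1) ∪
      ({i ∈ C | i < len 2}).image (p 2), fun q hq => ?_, ?_, hc.trans (Nat.cast_le.2 ?_)⟩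
    · simp only [mem_union, mem_image, mem_filter] at hq
      rcases hq with (⟨i, hi, rfl⟩ | ⟨i, hi, rfl⟩) | ⟨i, hi, rfl⟩ <;> exact ⟨_, i, hi.2, rfl⟩
    · refine (card_union_le _ _).trans ((Nat.add_le_add ((card_union_le _ _).trans
        (Nat.add_le_add ?_ ?_)) ?_).trans hk) <;> exact card_image_le.trans (card_filter_le _ _)
    · refine mainc_count (fun x hx y hy => hS x (hQ hx) y (hQ hy))
        (fun x hx => (mem_filter.1 (hT' (hQ hx))).2) fun x hx => ?_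
      obtain ⟨i1, i2, i3⟩ := hI x (hT' (hQ hx))
      obtain ⟨j1, j2, j3⟩ := hQI x hx
      exact ⟨mem_union_left _ (mem_union_left _ (mem_image_of_mem _
          (mem_filter.2 ⟨j1, mem_range.1 i1⟩))),
        mem_union_left _ (mem_union_right _ (mem_image_of_mem _
          (mem_filter.2 ⟨j2, mem_range.1 i2⟩))),
        mem_union_right _ (mem_image_of_mem _ (mem_filter.2 ⟨j3, mem_range.1 i3⟩))⟩
  rcases hk.eq_or_lt with rfl | hk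
  · obtain ⟨x, hx⟩ := card_pos.1 (lt_of_lt_of_le (by norm_num) hQ)
    refine key {x} (singleton_subset_iff.2 (mem_filter.1 hx).1) {x.1} {x.2.1} {x.2.2}
      (fun y hy => by simp [mem_singleton.1 hy]) (by simp) (by norm_num)
  · have e : max 1 (k / 4) = k / 4 := by omega
    rw [e] at hA hB hC hQ
    refine key _ (filter_subset _ _) A B C (fun x hx => (mem_filter.1 hx).2) (by omega) ?_
    have h1 : (k : ℝ) ≤ 8 * (k / 4 : ℕ) := by exact_mod_cast (by omega : k ≤ 8 * (k / 4))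
    have h2 : (((k / 4 : ℕ) : ℝ)) ^ 2 ≤ #(box T' A B C) := by exact_mod_cast hQ
    have h3 := pow_le_pow_left₀ (Nat.cast_nonneg k) h1 2
    have h4 : #(box T' A B C) = #{x ∈ T' | x.1 ∈ A ∧ x.2.1 ∈ B ∧ x.2.2 ∈ C} := rfl
    rw [← h4]
    linarith

end MainC

end Pool.Agent.MP_38296a_co.H88
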