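import Pool.Agent.MP_38296a_co.H21.Core
import Pool.Agent.MP_38296a_co.Mg.H88_Main
import Pool.Agent.MP_38296a_co.Sweep

section FileComb

set_option autoImplicit false

namespace Pool.Agent.MP_38296a_co.H21

open Finset Filter Classical

/-! ### Transport to products -/

section Transport
variable {ι X : Type}

/-- a triple as an element of a product -/
def comb_en (e : Fin 3 → ι → X) (t : Tri ι) : X × X × X := (e 0 (t 0), e 1 (t 1), e 2 (t 2))

/-- an element of a product as a triple -/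
def comb_de (r : Fin 3 → X → ι) (u : X × X × X) : Tri ι := ![r 0 u.1, r 1 u.2.1, r 2 u.2.2]

theorem comb_mem_cl {T : Finset (Tri ι)} {t : Tri ι} (ht : t ∈ T) (i : Fin 3) : t i ∈ cl T i :=
  mem_image_of_mem (fun t : Tri ι => t i) ht

theorem comb_mem_lines {T : Finset (Tri ι)} {t : Tri ι} (ht : t ∈ T) (i : Fin 3) :
    t i ∈ lines T := mem_biUnion.2 ⟨i, mem_univ _, comb_mem_cl ht i⟩

theorem comb_of_cl {T : Finset (Tri ι)} {a : ι} {i : Fin 3} (h : a ∈ cl T i) :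
    ∃ t ∈ T, t i = a := mem_image.1 h

theorem comb_of_lines {T : Finset (Tri ι)} {a : ι} (h : a ∈ lines T) : ∃ t ∈ T, ∃ i, t i = a := by
  obtain ⟨i, -, hi⟩ := mem_biUnion.1 h
  obtain ⟨t, ht, e⟩ := comb_of_cl hi
  exact ⟨t, ht, i, e⟩

theorem comb_cl_mono {T T' : Finset (Tri ι)} (h : T' ⊆ T) (i : Fin 3) : cl T' i ⊆ cl T i :=
  image_subset_image h

theorem comb_lines_mono {T T' : Finset (Tri ι)} (h : T' ⊆ T) : lines T' ⊆ lines T := fun a ha => by
  obtain ⟨t, ht, i, rfl⟩ := comb_of_lines ha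
  exact comb_mem_lines (h ht) i

theorem comb_cl_lines (T : Finset (Tri ι)) (i : Fin 3) : cl T i ⊆ lines T := fun a ha => by
  obtain ⟨t, ht, rfl⟩ := comb_of_cl ha
  exact comb_mem_lines ht i

theorem comb_lin_mono {T T' : Finset (Tri ι)} (h : Lin T) (hs : T' ⊆ T) : Lin T' :=
  fun t ht u hu => h t (hs ht) u (hs hu)

theorem comb_dual_mono {x s : ι → ℝ} {T T' : Finset (Tri ι)} (h : Dual x s T) (hs : T' ⊆ T) :
    Dual x s T' :=
  ⟨comb_lin_mono h.lin hs, fun t ht => h.ne t (hs ht), fun t ht => h.thru t (hs ht),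
    fun t ht u hu => h.one t (hs ht) u (hs hu)⟩

theorem comb_rich_mono {k : ℕ} {T T' : Finset (Tri ι)} (h : Rich k T') (hs : T' ⊆ T) :
    Rich k T := by
  obtain ⟨S, h1, h2⟩ := h
  exact ⟨S, h1, h2.trans (card_le_card (filter_subset_filter _ hs))⟩

theorem comb_card_le {T : Finset (Tri ι)} (h : Lin T) {i j : Fin 3} (hij : i ≠ j) :
    #T ≤ #(cl T i) * #(cl T j) := by
  rw [← card_product]
  exact card_le_card_of_injOn (fun t => (t i, t j))
    (fun t ht => mem_product.2 ⟨comb_mem_cl ht i, comb_mem_cl ht j⟩)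
    fun t ht u hu e => h t ht u hu i j hij (Prod.mk.inj e).1 (Prod.mk.inj e).2

variable {T : Finset (Tri ι)} {e : Fin 3 → ι → X} {r : Fin 3 → X → ι}

theorem comb_de_en (h : ∀ t ∈ T, ∀ i, r i (e i (t i)) = t i) {t : Tri ι} (ht : t ∈ T) :
    comb_de r (comb_en e t) = t := by
  funext i
  fin_cases i
  · exact h t ht 0
  · exact h t ht 1
  · exact h t ht 2

variable [DecidableEq X]

theorem comb_img_card (h : ∀ t ∈ T, ∀ i, r i (e i (t i)) = t i) : #(T.image (comb_en e)) = #T :=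
  card_image_of_injOn fun t ht u hu k => by
    rw [← comb_de_en h ht, k, comb_de_en h hu]

theorem comb_img_mem (h : ∀ t ∈ T, ∀ i, r i (e i (t i)) = t i) {u : X × X × X}
    (hu : u ∈ T.image (comb_en e)) : comb_de r u ∈ T ∧ comb_en e (comb_de r u) = u := by
  obtain ⟨t, ht, rfl⟩ := mem_image.1 hu
  rw [comb_de_en h ht]
  exact ⟨ht, rfl⟩

theorem comb_img_inj (h : ∀ t ∈ T, ∀ i, r i (e i (t i)) = t i) {u v : X × X × X}
    (hu : u ∈ T.image (comb_en e)) (hv : v ∈ T.image (comb_en e))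
    (k : comb_de r u = comb_de r v) : u = v := by
  rw [← (comb_img_mem h hu).2, k, (comb_img_mem h hv).2]

theorem comb_img_lin (h : ∀ t ∈ T, ∀ i, r i (e i (t i)) = t i) (hL : Lin T) :
    H88.Lin (T.image (comb_en e)) := by
  intro u hu v hv k
  refine comb_img_inj h hu hv ?_
  have h1 := (comb_img_mem h hu).1
  have h2 := (comb_img_mem h hv).1
  rcases k with k | k | k
  · exact hL _ h1 _ h2 0 1 (by decide) (congrArg (r 0) k.1) (congrArg (r 1) k.2)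
  · exact hL _ h1 _ h2 1 2 (by decide) (congrArg (r 1) k.1) (congrArg (r 2) k.2)
  · exact hL _ h1 _ h2 2 0 (by decide) (congrArg (r 2) k.1) (congrArg (r 0) k.2)

theorem comb_img_in : H88.In (T.image (comb_en e)) ((cl T 0).image (e 0)) ((cl T 1).image (e 1))
    ((cl T 2).image (e 2)) := by
  intro u hu
  obtain ⟨t, ht, rfl⟩ := mem_image.1 hu
  exact ⟨mem_image_of_mem _ (comb_mem_cl ht 0), mem_image_of_mem _ (comb_mem_cl ht 1),
    mem_image_of_mem _ (comb_mem_cl ht 2)⟩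

theorem comb_img_rich (h : ∀ t ∈ T, ∀ i, r i (e i (t i)) = t i) {k : ℕ}
    (hG : H88.Grid (T.image (comb_en e)) k) : Rich k T := by
  obtain ⟨A, B, C, hA, hB, hC, hk⟩ := hG
  refine ⟨![A.image (r 0), B.image (r 1), C.image (r 2)], fun i => ?_, hk.trans ?_⟩
  · fin_cases i
    · exact card_image_le.trans (hA.trans (by omega))
    · exact card_image_le.trans (hB.trans (by omega))
    · exact card_image_le.trans hC
  · refine card_le_card_of_injOn (comb_de r) (fun u hu => ?_) fun u hu v hv k => ?_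
    · obtain ⟨h1, h2, h3, h4⟩ := mem_filter.1 (mem_coe.1 hu)
      refine mem_coe.2 (mem_filter.2 ⟨(comb_img_mem h h1).1, fun i => ?_⟩)
      fin_cases i
      · exact mem_image_of_mem _ h2
      · exact mem_image_of_mem _ h3
      · exact mem_image_of_mem _ h4
    · exact comb_img_inj h (mem_filter.1 (mem_coe.1 hu)).1 (mem_filter.1 (mem_coe.1 hv)).1 k

end Transport

theorem comb_inj {ι : Type} (S : Finset ι) {K : ℕ} (hS : #S ≤ K) (hne : S.Nonempty) :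
    ∃ (e : ι → Fin K) (r : Fin K → ι), ∀ a ∈ S, r (e a) = a := by
  obtain ⟨a0, ha0⟩ := hne
  have hK : 0 < K := (card_pos.2 ⟨a0, ha0⟩).trans_le hS
  obtain ⟨f⟩ : Nonempty (S ↪ Fin K) := Function.Embedding.nonempty_of_card_le (by simpa using hS)
  have : Nonempty S := ⟨⟨a0, ha0⟩⟩
  refine ⟨fun a => if h : a ∈ S then f ⟨a, h⟩ else ⟨0, hK⟩, fun y => (Function.invFun f y : S),
    fun a ha => ?_⟩
  simp only [dif_pos ha]
  rw [Function.leftInverse_invFun f.injective]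

theorem comb_om {ι : Type} (x f : ι → ℝ) (t : Tri ι) :
    Om x f t = co x t 0 * f (t 0) + co x t 1 * f (t 1) + co x t 2 * f (t 2) := by
  simp only [Om, Fin.sum_univ_three]

theorem comb_co0 {ι : Type} (x : ι → ℝ) (t : Tri ι) : co x t 0 = x (t 1) - x (t 2) := rfl

theorem comb_co1 {ι : Type} (x : ι → ℝ) (t : Tri ι) : co x t 1 = x (t 2) - x (t 0) := rfl

theorem comb_co2 {ι : Type} (x : ι → ℝ) (t : Tri ι) : co x t 2 = x (t 0) - x (t 1) := rfl

theorem comb_om_aff {ι : Type} {x s : ι → ℝ} {t : Tri ι} {X Y : ℝ} (h : Thru x s t X Y)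
    (X0 Y0 : ℝ) : Om x (fun l => s l + x l * X0 - Y0) t = 0 := by
  have h0 := h 0
  have h1 := h 1
  have h2 := h 2
  rw [comb_om, comb_co0, comb_co1, comb_co2]
  have e0 : s (t 0) = Y - x (t 0) * X := by linarith
  have e1 : s (t 1) = Y - x (t 1) * X := by linarith
  have e2 : s (t 2) = Y - x (t 2) * X := by linarith
  simp only [e0, e1, e2]
  ring

/-- two lines with different slopes meet once -/
theorem comb_meet {a b c d X Y X' Y' : ℝ} (h : a ≠ c) (h1 : Y = b + a * X) (h2 : Y = d + c * X)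
    (h3 : Y' = b + a * X') (h4 : Y' = d + c * X') : X = X' ∧ Y = Y' := by
  have e : (a - c) * (X - X') = 0 := by linear_combination h2 - h1 + h3 - h4
  have e2 : X = X' := sub_eq_zero.1 ((mul_eq_zero.1 e).resolve_left (sub_ne_zero.2 h))
  exact ⟨e2, by rw [h1, h3, e2]⟩

/-- three nearly vanishing solutions on a system of bounded size -/
theorem c3 (k : ℕ) {D : ℝ} (hD : 0 < D) : ∃ n0 : ℕ, ∀ K : ℕ, ∃ η : ℝ, 0 < η ∧
    ∀ (ι : Type) (T : Finset (Tri ι)) (x s : ι → ℝ) (f : Fin 3 → ι → ℝ), Dual x s T →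
      (∀ i, #(cl T i) ≤ K) → D * ((#(cl T 0) : ℝ) * #(cl T 1) * #(cl T 2)) ^ 2 ≤ (#T : ℝ) ^ 3 →
      n0 ≤ #T → Tro η x T f → Rich k T := by
  obtain ⟨n1, hn1⟩ := H88.tree k (D := D / 8) (by positivity)
  refine ⟨2 * n1 + 1, fun K => ?_⟩
  obtain ⟨η, hη, hr⟩ := H88.rigid K
  refine ⟨η, hη, fun ι T x s f hd hK hden hn hf => ?_⟩
  have hT : T.Nonempty := card_pos.1 (by omega)
  choose e r her using fun i => comb_inj (cl T i) (hK i) (hT.image _)
  have h : ∀ t ∈ T, ∀ i, r i (e i (t i)) = t i := fun t ht i => her i _ (comb_mem_cl ht i)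
  set U := T.image (comb_en e) with hU
  have hm : ∀ u ∈ U, comb_de r u ∈ T := fun u hu => (comb_img_mem h hu).1
  have hsol : ∀ g : ι → ℝ, (∀ t ∈ T, Om x g t = 0) →
      H88.Sol U (fun u => (co x (comb_de r u) 0, co x (comb_de r u) 1, co x (comb_de r u) 2))
        (fun y => g (r 0 y), fun y => g (r 1 y), fun y => g (r 2 y)) := fun g hg u hu => by
    have := hg _ (hm u hu)
    rw [comb_om] at this
    exact this
  obtain ⟨U', hU', hc, hs⟩ := hr U _ _ _ _ (hsol (f 2) fun t ht => (hf t ht 2).1)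
    (hsol (f 0) fun t ht => (hf t ht 0).1) (hsol (f 1) fun t ht => (hf t ht 1).1)
    (fun u hu => ⟨(hf _ (hm u hu) 2).2, (hf _ (hm u hu) 0).2, (hf _ (hm u hu) 1).2⟩)
    (fun u hu v hv huv => by
      obtain ⟨X, Y, hXY⟩ := hd.thru _ (hm u hu)
      refine ⟨_, hsol (fun l => s l + x l * X - Y) fun t ht => ?_, ?_, ?_, ?_⟩
      · obtain ⟨X', Y', h'⟩ := hd.thru t ht
        exact comb_om_aff h' X Y
      · exact sub_eq_zero.2 (hXY 0).symm
      · exact sub_eq_zero.2 (hXY 1).symm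
      · by_contra hcon
        rw [not_or, not_not, not_not] at hcon
        obtain ⟨X', Y', h'⟩ := hd.thru _ (hm v hv)
        obtain ⟨e1, e2⟩ := comb_meet (hd.ne _ (hm v hv) 0 1 (by decide))
          (sub_eq_zero.1 hcon.1).symm (sub_eq_zero.1 hcon.2).symm (h' 0) (h' 1)
        subst e1 e2
        exact huv (comb_img_inj h hu hv (hd.one _ (hm u hu) _ (hm v hv) _ _ hXY h')))
  have hUc : #U = #T := comb_img_card h
  refine comb_img_rich h (H88.Grid.mono (hn1 (Fin K) U' _ _ _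
    (fun u hu => comb_img_in (T := T) (e := e) u (hU' hu))
    ((comb_img_lin h hd.lin).mono hU') hs ?_ (by omega)) hU')
  have c0 : (#((cl T 0).image (e 0)) : ℝ) ≤ #(cl T 0) := by exact_mod_cast card_image_le
  have c1 : (#((cl T 1).image (e 1)) : ℝ) ≤ #(cl T 1) := by exact_mod_cast card_image_le
  have c2 : (#((cl T 2).image (e 2)) : ℝ) ≤ #(cl T 2) := by exact_mod_cast card_image_le
  have c3 : (#T : ℝ) ≤ 2 * #U' := by rw [← hUc]; exact_mod_cast hc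
  unfold H88.Dns
  calc _ ≤ D / 8 * ((#(cl T 0) : ℝ) * #(cl T 1) * #(cl T 2)) ^ 2 := by gcongr
    _ = (D * ((#(cl T 0) : ℝ) * #(cl T 1) * #(cl T 2)) ^ 2) / 8 := by ring
    _ ≤ (2 * #U') ^ 3 / 8 := by gcongr; exact hden.trans (by gcongr)
    _ = _ := by ring

theorem comb_int {E : Type} [AddCommGroup E] [Module ℚ E] (V : Finset E) :
    ∃ (φ : E →ₗ[ℚ] ℚ) (z : E → ℤ), (∀ v ∈ V, (z v : ℚ) = φ v) ∧
      ∀ v ∈ V, ∀ w ∈ V, φ v = φ w → v = w := by
  obtain ⟨φ, hφ⟩ := Module.exists_dual_forall_apply_ne_zero (K := ℚ)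
    (fun p : V.offDiag => p.1.1 - p.1.2) fun p => sub_ne_zero.2 (mem_offDiag.1 p.2).2.2
  obtain ⟨N, hN⟩ := IsLocalization.exist_integer_multiples_of_finite (nonZeroDivisors ℤ)
    (fun v : V => φ v)
  choose z hz using hN
  have hN0 : ((N : ℤ) : ℚ) ≠ 0 := by exact_mod_cast nonZeroDivisors.coe_ne_zero N
  refine ⟨((N : ℤ) : ℚ) • φ, fun v => if h : v ∈ V then z ⟨v, h⟩ else 0, fun v hv => ?_,
    fun v hv w hw e => ?_⟩
  · simp only [dif_pos hv]
    simpa using hz ⟨v, hv⟩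
  · by_contra hne
    refine hφ ⟨(v, w), mem_offDiag.2 ⟨hv, hw, hne⟩⟩ ?_
    have e' : φ v = φ w := mul_left_cancel₀ hN0 e
    show φ (v - w) = 0
    rw [map_sub, e', sub_self]

/-- additive labels with bounded fibres -/
theorem besV (k M : ℕ) {δ : ℝ} (hδ : 0 < δ) : ∃ n0 : ℝ,
    ∀ (ι E : Type) [AddCommGroup E] [Module ℚ E] (T : Finset (Tri ι)) (n : ℝ) (α : Fin 3 → ι → E),
      Lin T → n0 ≤ n → (∀ i, (#(cl T i) : ℝ) ≤ n) → δ * n ^ 2 ≤ #T →
      (∀ t ∈ T, ∑ i, α i (t i) = 0) → (∀ i e, #{a ∈ cl T i | α i a = e} ≤ M) → Rich k T := by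
  obtain ⟨n1, hn1⟩ := H88.bes k M hδ
  refine ⟨max 1 (n1 / δ), fun ι E _ _ T n α hL hn hcl hden hadd hfib => ?_⟩
  obtain ⟨φ, z, hz, hinj⟩ := comb_int (univ.biUnion fun i => (cl T i).image (α i))
  have hV : ∀ i, ∀ a ∈ cl T i, α i a ∈ univ.biUnion fun i => (cl T i).image (α i) :=
    fun i a ha => mem_biUnion.2 ⟨i, mem_univ _, mem_image_of_mem _ ha⟩
  have h : ∀ t ∈ T, ∀ i : Fin 3, (fun _ a => a : Fin 3 → ι → ι) i
      ((fun _ a => a : Fin 3 → ι → ι) i (t i)) = t i := fun _ _ _ => rfl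
  have hc := comb_img_card (e := fun _ a => a) (r := fun _ a => a) h
  have hf : ∀ i (w : ℤ), H88.cl (cl T i) (fun a => z (α i a)) w ≤ M := fun i w => by
    rcases ({a ∈ cl T i | z (α i a) = w} : Finset ι).eq_empty_or_nonempty with h0 | ⟨b, hb⟩
    · exact (card_eq_zero.2 h0).trans_le (Nat.zero_le _)
    refine le_trans (card_le_card fun a ha => ?_) (hfib i (α i b))
    obtain ⟨a1, a2⟩ := mem_filter.1 ha
    obtain ⟨b1, b2⟩ := mem_filter.1 hb
    refine mem_filter.2 ⟨a1, hinj _ (hV i a a1) _ (hV i b b1) ?_⟩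
    rw [← hz _ (hV i a a1), ← hz _ (hV i b b1), b2, show z (α i a) = w from a2]
  have hs : ∀ i, δ * (#(cl T i) : ℝ) ^ 2 ≤ #(T.image (comb_en fun _ a => a)) := fun i => by
    rw [hc]
    refine le_trans ?_ hden
    have := hcl i
    gcongr
  refine comb_img_rich (e := fun _ a => a) (r := fun _ a => a) h (hn1 ι _ (cl T 0) (cl T 1) (cl T 2) (fun a => z (α 0 a))
    (fun a => z (α 1 a)) (fun a => z (α 2 a)) (fun u hu => ?_)
    (comb_img_lin (e := fun _ a => a) (r := fun _ a => a) h hL)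
    (fun u hu => ?_) (hf 0) (hf 1) (hf 2) (hs 0) (hs 1) (hs 2) ?_)
  · obtain ⟨t, ht, rfl⟩ := mem_image.1 hu
    exact ⟨comb_mem_cl ht 0, comb_mem_cl ht 1, comb_mem_cl ht 2⟩
  · obtain ⟨t, ht, rfl⟩ := mem_image.1 hu
    have e := congrArg φ (hadd t ht)
    rw [Fin.sum_univ_three, map_add, map_add, map_zero, ← hz _ (hV 0 _ (comb_mem_cl ht 0)),
      ← hz _ (hV 1 _ (comb_mem_cl ht 1)), ← hz _ (hV 2 _ (comb_mem_cl ht 2))] at e
    exact_mod_cast e
  · rw [hc]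
    have h1 : 1 ≤ n := (le_max_left _ _).trans hn
    have h2 : (n1 : ℝ) ≤ n * δ := (div_le_iff₀ hδ).1 ((le_max_right _ _).trans hn)
    have h3 : n * δ ≤ δ * n ^ 2 := by nlinarith [mul_pos hδ (zero_lt_one.trans_le h1)]
    exact_mod_cast h2.trans (h3.trans hden)

/-! ### Cutting -/

theorem comb_win {α β : Type} [LinearOrder β] (P : Finset α) (h : α → β) (k : ℕ)
    (hk : ∀ p ∈ P, #{q ∈ P | h q = h p} ≤ k) (x L : ℕ) :
    #{p ∈ P | x ≤ #{q ∈ P | h q < h p} ∧ #{q ∈ P | h q < h p} < x + L} ≤ L + k := by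
  set W := {p ∈ P | x ≤ #{q ∈ P | h q < h p} ∧ #{q ∈ P | h q < h p} < x + L} with hW
  rcases W.eq_empty_or_nonempty with h0 | h0
  · simp [h0]
  obtain ⟨p0, hp0, hmin⟩ := exists_min_image W h h0
  obtain ⟨p1, hp1, hmax⟩ := exists_max_image W h h0
  have e0 := (mem_filter.1 hp0).2.1
  have e1 := (mem_filter.1 hp1).2.2
  have sub : W ⊆ ({q ∈ P | h q < h p1} \ {q ∈ P | h q < h p0}) ∪ {q ∈ P | h q = h p1} := by
    intro p hp
    have hP := (mem_filter.1 hp).1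
    rcases (hmax p hp).lt_or_eq with h1 | h1
    · refine mem_union_left _ (mem_sdiff.2 ⟨mem_filter.2 ⟨hP, h1⟩, fun h2 => ?_⟩)
      exact absurd (mem_filter.1 h2).2 (not_lt.2 (hmin p hp))
    · exact mem_union_right _ (mem_filter.2 ⟨hP, h1⟩)
  have sub2 : {q ∈ P | h q < h p0} ⊆ {q ∈ P | h q < h p1} := by
    intro q hq
    exact mem_filter.2 ⟨(mem_filter.1 hq).1, (mem_filter.1 hq).2.trans_le (hmin p1 hp1)⟩
  have := (card_le_card sub).trans (card_union_le _ _)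
  rw [card_sdiff_of_subset sub2] at this
  have := hk p1 (mem_filter.1 hp1).1
  omega

theorem comb_change (r U D : ℕ → ℕ) (n : ℕ) (hr : ∀ j, r j = U j + D j)
    (hU : ∀ j, U j ≤ U (j + 1)) (hD : ∀ j, D (j + 1) ≤ D j) (hn : ∀ j, r j ≤ n) (T N : ℕ) :
    ∑ j ∈ range T, #{u ∈ range N | ¬ (u < r j ↔ u < r (j + 1))} ≤ 2 * n := by
  have step : ∀ j, #{u ∈ range N | ¬ (u < r j ↔ u < r (j + 1))} + U j + D (j + 1) ≤
      U (j + 1) + D j := fun j => by
    have : {u ∈ range N | ¬ (u < r j ↔ u < r (j + 1))} ⊆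
        Ico (U j + D (j + 1)) (U (j + 1) + D j) := by
      intro u hu
      have h1 := (mem_filter.1 hu).2
      rw [hr, hr] at h1
      have := hU j
      have := hD j
      rw [mem_Ico]
      omega
    have h2 := card_le_card this
    rw [Nat.card_Ico] at h2
    have := hU j
    have := hD j
    omega
  have main : ∀ T, ∑ j ∈ range T, #{u ∈ range N | ¬ (u < r j ↔ u < r (j + 1))} + U 0 + D T ≤
      U T + D 0 := by
    intro T
    induction T with
    | zero => simp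
    | succ T ih =>
      rw [sum_range_succ]
      have := step T
      omega
  have := main T
  have := hn T
  have := hn 0
  have := hr T
  have := hr 0
  omega

/-- height at abscissa `X`, ties away from the vertices broken by the slope -/
noncomputable def comb_key {ι : Type} (T : Finset (Tri ι)) (x s : ι → ℝ) (X : ℝ) (p : ι) : ℝ ×ₗ ℝ :=
  toLex (s p + x p * X, if ∃ t ∈ T, Thru x s t X (s p + x p * X) then 0 else x p)

theorem comb_key_lt {ι : Type} {T : Finset (Tri ι)} {x s : ι → ℝ} {X : ℝ} {p q : ι}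
    (h : comb_key T x s X q < comb_key T x s X p) :
    s q + x q * X < s p + x p * X ∨ s q + x q * X = s p + x p * X ∧ x q < x p := by
  rcases Prod.Lex.toLex_lt_toLex.1 h with h | ⟨h1, h2⟩
  · exact Or.inl h
  · refine Or.inr ⟨h1, ?_⟩
    have h1' : s q + x q * X = s p + x p * X := h1
    simp only [h1'] at h2
    split_ifs at h2
    · exact absurd h2 (lt_irrefl _)
    · exact h2

theorem comb_lt_key {ι : Type} {T : Finset (Tri ι)} {x s : ι → ℝ} {X : ℝ} {p q : ι}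
    (h : s q + x q * X < s p + x p * X) : comb_key T x s X q < comb_key T x s X p :=
  Prod.Lex.toLex_lt_toLex.2 (Or.inl h)

theorem comb_key_tie {ι : Type} {T : Finset (Tri ι)} {x s : ι → ℝ} (h : Dual x s T) {k : ℕ}
    (hk : ∀ t ∈ T, ∀ X Y, Thru x s t X Y → #{a ∈ lines T | Y = s a + x a * X} ≤ k) (X : ℝ) :
    ∀ p ∈ lines T, #{q ∈ lines T | comb_key T x s X q = comb_key T x s X p} ≤ k := by
  intro p hp
  have key : ∀ q, comb_key T x s X q = comb_key T x s X p → s q + x q * X = s p + x p * X ∧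
      ((¬ ∃ t ∈ T, Thru x s t X (s p + x p * X)) → x q = x p) := fun q hq => by
    obtain ⟨h1, h2⟩ := Prod.mk.inj (toLex.injective hq)
    refine ⟨h1, fun hn => ?_⟩
    rw [h1, if_neg hn, if_neg hn] at h2
    exact h2
  by_cases hv : ∃ t ∈ T, Thru x s t X (s p + x p * X)
  · obtain ⟨t, ht, hX⟩ := hv
    refine le_trans (card_le_card fun q hq => ?_) (hk t ht _ _ hX)
    exact mem_filter.2 ⟨(mem_filter.1 hq).1, (key q (mem_filter.1 hq).2).1.symm⟩
  · obtain ⟨t, ht, i, rfl⟩ := comb_of_lines hp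
    obtain ⟨X', Y', h'⟩ := h.thru t ht
    refine le_trans (card_le_card fun q hq => ?_) (hk t ht _ _ h')
    obtain ⟨h1, h2⟩ := key q (mem_filter.1 hq).2
    refine mem_filter.2 ⟨(mem_filter.1 hq).1, ?_⟩
    have h3 := h2 hv
    rw [h3] at h1
    rw [h' i, h3, add_right_cancel h1]

/-- cutting lemma -/
theorem cut {ι : Type} {T : Finset (Tri ι)} {x s : ι → ℝ} (h : Dual x s T) {n k M : ℕ}
    (hn : #(lines T) ≤ n) (hM : 0 < M) (hMn : M ≤ n)
    (hk : ∀ t ∈ T, ∀ X Y, Thru x s t X Y → #{a ∈ lines T | Y = s a + x a * X} ≤ k) :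
    ∃ T' ⊆ T, #(lines T') ≤ 4 * M + k ∧ M ^ 2 * #T ≤ 8 * n ^ 2 * #T' := by
  have hex : ∀ t : Tri ι, ∃ X Y, t ∈ T → Thru x s t X Y := fun t => by
    by_cases ht : t ∈ T
    · obtain ⟨X, Y, hXY⟩ := h.thru t ht
      exact ⟨X, Y, fun _ => hXY⟩
    · exact ⟨0, 0, fun k => absurd k ht⟩
  choose vX vY hv using hex
  obtain ⟨σ, hσ, -, hσ2⟩ := H88.role_enum (T.image vX)
  set N := #(T.image vX) with hN
  have hex2 : ∀ t : Tri ι, ∃ j, t ∈ T → j < N ∧ σ j = vX t := fun t => by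
    by_cases ht : t ∈ T
    · obtain ⟨j, hj⟩ := hσ2 _ (mem_image_of_mem vX ht)
      exact ⟨j, fun _ => hj⟩
    · exact ⟨0, fun k => absurd k ht⟩
  choose τ hτ using hex2
  set P := lines T with hP
  set rk : ℕ → ι → ℕ := fun j p => #{q ∈ P | comb_key T x s (σ j) q < comb_key T x s (σ j) p}
    with hrk
  have hle : ∀ j p, rk j p ≤ n := fun j p => (card_filter_le _ _).trans hn
  have hkey : ∀ t ∈ T, ∀ i, rk (τ t) (t i) = rk (τ t) (t 0) := fun t ht i => by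
    have e : ∀ i, comb_key T x s (σ (τ t)) (t i) = toLex (vY t, 0) := fun i => by
      rw [(hτ t ht).2, comb_key, ← hv t ht i, if_pos ⟨t, ht, hv t ht⟩]
    simp only [hrk, e]
  have hch : ∀ p, ∑ j ∈ range N, #{u ∈ range n | ¬ (u < rk j p ↔ u < rk (j + 1) p)} ≤ 2 * n :=
    fun p => by
    refine comb_change (fun j => rk j p)
      (fun j => #{q ∈ P | comb_key T x s (σ j) q < comb_key T x s (σ j) p ∧ x q < x p})
      (fun j => #{q ∈ P | comb_key T x s (σ j) q < comb_key T x s (σ j) p ∧ ¬ x q < x p}) n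
      (fun j => ?_) (fun j => card_le_card fun q hq => ?_) (fun j => card_le_card fun q hq => ?_)
      (fun j => hle j p) N n
    · simp only [hrk, ← filter_filter]
      rw [card_filter_add_card_filter_not]
    · obtain ⟨h1, h2, h3⟩ := mem_filter.1 hq
      refine mem_filter.2 ⟨h1, comb_lt_key ?_, h3⟩
      have h4 := hσ (Nat.lt_succ_self j)
      have h5 : s q + x q * σ j ≤ s p + x p * σ j := (comb_key_lt h2).elim le_of_lt fun k => k.1.le
      nlinarith [mul_pos (sub_pos.2 h3) (sub_pos.2 h4)]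
    · obtain ⟨h1, h2, h3⟩ := mem_filter.1 hq
      refine mem_filter.2 ⟨h1, comb_lt_key ?_, h3⟩
      have h4 := hσ (Nat.lt_succ_self j)
      have h5 := (comb_key_lt h2).resolve_right fun k => h3 k.2
      nlinarith [mul_nonneg (sub_nonneg.2 (not_lt.1 h3)) (sub_pos.2 h4).le]
  let S : Sweep ι (Tri ι) :=
    { P := P
      Z := T
      a := fun t => t 0
      b := fun t => t 1
      c := fun t => t 2
      tm := τ
      loc := fun t => rk (τ t) (t 0)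
      r := rk
      E := {e ∈ P ×ˢ range N ×ˢ range n | ¬ (e.2.2 < rk e.2.1 e.1 ↔ e.2.2 < rk (e.2.1 + 1) e.1)}
      n := n
      k := k
      lin :=
        { ab := fun z hz z' hz' => h.lin z hz z' hz' 0 1 (by decide)
          ac := fun z hz z' hz' => h.lin z hz z' hz' 0 2 (by decide)
          bc := fun z hz z' hz' => h.lin z hz z' hz' 1 2 (by decide) }
      haP := fun z hz => comb_mem_lines hz 0
      hbP := fun z hz => comb_mem_lines hz 1
      hcP := fun z hz => comb_mem_lines hz 2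
      ra := fun z hz => rfl
      rb := fun z hz => hkey z hz 1
      rc := fun z hz => hkey z hz 2
      loc_le := fun z _ => hle _ _
      win := fun j y L => comb_win P (comb_key T x s (σ j)) k (comb_key_tie h hk (σ j)) y L
      sep := by
        intro p hp z hz i hi u hu
        have hu' : u < n := by
          have e1 := hle i p
          have e2 := hle (τ z) p
          omega
        have hT' := (hτ z hz).1
        by_contra hcon
        have : ∀ j, i ≤ j → j ≤ τ z → (u < rk i p ↔ u < rk j p) := by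
          intro j hj
          induction j, hj using Nat.le_induction with
          | base => exact fun _ => Iff.rfl
          | succ j hj ih =>
            intro h
            refine (ih (by omega)).trans ?_
            by_contra h'
            refine hcon ⟨j, hj, by omega, mem_filter.2 ⟨?_, h'⟩⟩
            simp only [mem_product, mem_range]
            exact ⟨hp, by omega, hu'⟩
        exact hu (this _ hi le_rfl)
      cardE := by
        rw [card_filter, sum_product]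
        calc _ ≤ ∑ _p ∈ P, 2 * n := by
              refine sum_le_sum fun p _ => ?_
              rw [sum_product]
              refine le_trans (le_of_eq ?_) (hch p)
              refine sum_congr rfl fun j _ => ?_
              rw [card_filter]
          _ = #P * (2 * n) := by simp
          _ ≤ n * (2 * n) := by gcongr
          _ = _ := by ring }
  obtain ⟨T', hT', hc, hl⟩ := H88.pigeon T (S.lab M) le_rfl
  refine ⟨T', hT', ?_, ?_⟩
  · rcases T'.eq_empty_or_nonempty with rfl | ⟨t0, ht0⟩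
    · refine le_trans (card_le_card (t := ∅) fun a ha => ?_) (by simp)
      obtain ⟨t, ht, -⟩ := comb_of_lines ha
      exact absurd ht (notMem_empty _)
    refine le_trans (card_le_card fun a ha => ?_) (S.card_pts hM (S.lab M t0))
    obtain ⟨t, ht, i, rfl⟩ := comb_of_lines ha
    rw [← hl t ht t0 ht0]
    fin_cases i
    · exact S.a_mem (hT' ht)
    · exact S.b_mem (hT' ht)
    · exact S.c_mem (hT' ht)
  · have h1 := S.card_lab hM hMn
    have hM' : (0 : ℝ) < (M : ℝ) ^ 2 := by positivity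
    rw [le_div_iff₀ hM'] at h1
    have h2 : #(T.image (S.lab M)) * M ^ 2 ≤ 8 * n ^ 2 := by exact_mod_cast h1
    calc M ^ 2 * #T ≤ M ^ 2 * (#(T.image (S.lab M)) * #T') := by gcongr
      _ = #(T.image (S.lab M)) * M ^ 2 * #T' := by ring
      _ ≤ _ := by gcongr

theorem cutc3 (k k' : ℕ) {D : ℝ} (hD : 0 < D) : ∃ η : ℝ, 0 < η ∧ ∃ n0 : ℕ,
    ∀ (ι : Type) (T : Finset (Tri ι)) (x s : ι → ℝ) (f : Fin 3 → ι → ℝ) (n : ℕ), Dual x s T →
      #(lines T) ≤ n → D * (n : ℝ) ^ 2 ≤ #T → n0 ≤ n →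
      (∀ t ∈ T, ∀ X Y, Thru x s t X Y → #{a ∈ lines T | Y = s a + x a * X} ≤ k') →
      Tro η x T f → Rich k T := by
  obtain ⟨n1, hn1⟩ := c3 k (D := (D / 8) ^ 3 / 5 ^ 6) (by positivity)
  obtain ⟨M, hM⟩ := exists_nat_gt (max (8 * n1 / D) (k' : ℝ))
  have hMk : k' < M := by exact_mod_cast (le_max_right _ _).trans_lt hM
  have hM0 : 0 < M := by omega
  have hM1 : (1 : ℝ) ≤ M := by exact_mod_cast hM0
  have hM2 : 8 * (n1 : ℝ) < M * D := (div_lt_iff₀ hD).1 ((le_max_left _ _).trans_lt hM)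
  obtain ⟨η, hη, hc⟩ := hn1 (5 * M)
  refine ⟨η, hη, M, fun ι T x s f n hd hn hden hMn hk hf => ?_⟩
  obtain ⟨T', hT', h1, h2⟩ := cut hd hn hM0 hMn hk
  have hn0 : (0 : ℝ) < n := by exact_mod_cast hM0.trans_le hMn
  have h3 : D / 8 * (M : ℝ) ^ 2 ≤ #T' := by
    have h4 : (M : ℝ) ^ 2 * #T ≤ 8 * n ^ 2 * #T' := by exact_mod_cast h2
    have h5 : (M : ℝ) ^ 2 * (D * n ^ 2) ≤ 8 * n ^ 2 * #T' := le_trans (by gcongr) h4
    refine le_of_mul_le_mul_left ?_ (show (0 : ℝ) < 8 * n ^ 2 by positivity)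
    linarith
  have hcl : ∀ i, #(cl T' i) ≤ 5 * M := fun i =>
    (card_le_card (comb_cl_lines T' i)).trans (h1.trans (by omega))
  have hcl' : ∀ i, (#(cl T' i) : ℝ) ≤ 5 * M := fun i => by exact_mod_cast hcl i
  refine comb_rich_mono (hc ι T' x s f (comb_dual_mono hd hT') hcl ?_ ?_
    fun t ht => hf t (hT' ht)) hT'
  · calc _ ≤ (D / 8) ^ 3 / 5 ^ 6 * ((5 * M : ℝ) * (5 * M) * (5 * M)) ^ 2 := by
          gcongr <;> exact hcl' _
      _ = (D / 8 * (M : ℝ) ^ 2) ^ 3 := by ring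
      _ ≤ _ := by gcongr
  · have h6 : (n1 : ℝ) ≤ D / 8 * (M : ℝ) ^ 2 := by
      nlinarith [mul_nonneg (mul_pos (zero_lt_one.trans_le hM1) hD).le (sub_nonneg.2 hM1)]
    exact_mod_cast h6.trans h3

theorem comb_sq {D a b c t : ℝ} (hb : 0 < b) (hc : 0 < c) (ht : 0 ≤ t)
    (h : D * (a * b * c) ^ 2 ≤ t ^ 3) (h2 : t ≤ b * c) : D * a ^ 2 ≤ t := by
  have h3 : t ^ 3 ≤ t * (b * c) ^ 2 := by
    calc t ^ 3 = t * t ^ 2 := by ring
      _ ≤ _ := by gcongr
  refine le_of_mul_le_mul_right ?_ (show 0 < (b * c) ^ 2 by positivity)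
  calc _ = D * (a * b * c) ^ 2 := by ring
    _ ≤ _ := h.trans h3

theorem comb_sep_ne {ι : Type} {x : ι → ℝ} {T : Finset (Tri ι)} (h : Sep (1 / 10) x T) {t u : Tri ι}
    (ht : t ∈ T) (hu : u ∈ T) (i : Fin 3) : x (t i) ≠ x (u (i + 1)) := by
  intro e
  have h1 := abs_le.1 (h t ht i)
  have h2 := abs_le.1 (h u hu (i + 1))
  rw [← e] at h2
  fin_cases i <;> simp at h1 h2 <;> linarith [h1.1, h1.2, h2.1, h2.2]

/-- the number of incidences between vertices and lines of one class -/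
theorem comb_inc {ι : Type} {x s : ι → ℝ} {T : Finset (Tri ι)} (h : Dual x s T)
    (hs : Sep (1 / 10) x T) {vX vY : Tri ι → ℝ} (hv : ∀ t ∈ T, Thru x s t (vX t) (vY t))
    (i : Fin 3) : ∑ t ∈ T, #{a ∈ cl T i | vY t = s a + x a * vX t} ≤
      #(cl T i) * #(cl T (i + 1)) := by
  rw [← card_sigma, ← card_product]
  refine card_le_card_of_injOn (fun p => (p.2, p.1 (i + 1))) (fun p hp => ?_) fun p hp q hq e => ?_
  · obtain ⟨h1, h2⟩ := mem_sigma.1 (mem_coe.1 hp)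
    exact mem_coe.2 (mem_product.2 ⟨(mem_filter.1 h2).1, comb_mem_cl h1 _⟩)
  · obtain ⟨t, a⟩ := p
    obtain ⟨u, b⟩ := q
    obtain ⟨h1, h2⟩ := mem_sigma.1 (mem_coe.1 hp)
    obtain ⟨h3, h4⟩ := mem_sigma.1 (mem_coe.1 hq)
    obtain ⟨e1, e2⟩ := Prod.mk.inj e
    simp only at e1 e2 h1 h2 h3 h4
    subst e1
    obtain ⟨w, hw, rfl⟩ := comb_of_cl (mem_filter.1 h2).1
    have k := hv u h3 (i + 1)
    rw [← e2] at k
    obtain ⟨e3, e4⟩ := comb_meet (comb_sep_ne hs hw h1 i) (mem_filter.1 h2).2 (hv t h1 (i + 1))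
      (mem_filter.1 h4).2 k
    have k2 := hv u h3
    rw [← e3, ← e4] at k2
    rw [h.one t h1 u h3 _ _ (hv t h1) k2]

theorem comb_tro {η γ a b c y : ℝ} (hγ : γ ≤ η / 10) (hγ' : γ ≤ 1 / 10) (h1 : |a - y| ≤ γ)
    (hab : 4 / 5 ≤ |b - a|) (hca : 4 / 5 ≤ |c - a|) (hbc : |b - c| ≤ 3) :
    (c - a) * (b - y) ≠ 0 ∧ |(b - c) * (a - y)| ≤ η * |(c - a) * (b - y)| := by
  have h0 : 0 ≤ γ := (abs_nonneg _).trans h1
  have h2 : 7 / 10 ≤ |b - y| := by
    have := abs_sub_le b y a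
    rw [abs_sub_comm y a] at this
    linarith
  have h3 : 1 / 2 ≤ |(c - a) * (b - y)| := by rw [abs_mul]; nlinarith
  refine ⟨fun e => by rw [e, abs_zero] at h3; norm_num at h3, ?_⟩
  have h4 : |(b - c) * (a - y)| ≤ 3 * γ := by rw [abs_mul]; gcongr
  nlinarith

/-- nearly parallel families -/
theorem zoomc3 (k : ℕ) {D : ℝ} (hD : 0 < D) : ∃ γ : ℝ, 0 < γ ∧ ∃ n0 : ℕ,
    ∀ (ι : Type) (T : Finset (Tri ι)) (x s : ι → ℝ) (y : Fin 3 → ℝ), Dual x s T →
      Sep (1 / 10) x T → (∀ t ∈ T, ∀ i, |x (t i) - y i| ≤ γ) →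
      D * ((#(cl T 0) : ℝ) * #(cl T 1) * #(cl T 2)) ^ 2 ≤ (#T : ℝ) ^ 3 → n0 ≤ #T → Rich k T := by
  obtain ⟨k', hk'⟩ := exists_nat_gt (6 / D)
  have hk2 : 6 < k' * D := (div_lt_iff₀ hD).1 hk'
  obtain ⟨η, hη, n1, hc⟩ := cutc3 k k' (D := D / 18) (by positivity)
  refine ⟨min (η / 10) (1 / 10), by positivity, n1 ^ 2 + 1, fun ι T x s y hd hs hy hden hn => ?_⟩
  have hT : T.Nonempty := card_pos.1 (by omega)
  have hex : ∀ t : Tri ι, ∃ X Y, t ∈ T → Thru x s t X Y := fun t => by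
    by_cases ht : t ∈ T
    · obtain ⟨X, Y, hXY⟩ := hd.thru t ht
      exact ⟨X, Y, fun _ => hXY⟩
    · exact ⟨0, 0, fun k => absurd k ht⟩
  choose vX vY hv using hex
  have hp : ∀ i, (0 : ℝ) < #(cl T i) := fun i => by exact_mod_cast (hT.image _).card_pos
  have hle : ∀ i j, i ≠ j → (#T : ℝ) ≤ #(cl T i) * #(cl T j) := fun i j hij => by
    exact_mod_cast comb_card_le hd.lin hij
  have t0 : (0 : ℝ) ≤ #T := Nat.cast_nonneg _
  have q0 : D * (#(cl T 0) : ℝ) ^ 2 ≤ #T := comb_sq (hp 1) (hp 2) t0 hden (hle 1 2 (by decide))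
  have q1 : D * (#(cl T 1) : ℝ) ^ 2 ≤ #T := comb_sq (hp 2) (hp 0) t0
    (le_trans (le_of_eq (by ring)) hden) (hle 2 0 (by decide))
  have q2 : D * (#(cl T 2) : ℝ) ^ 2 ≤ #T := comb_sq (hp 0) (hp 1) t0
    (le_trans (le_of_eq (by ring)) hden) (hle 0 1 (by decide))
  set Nv : Tri ι → ℕ := fun t => #{a ∈ lines T | vY t = s a + x a * vX t} with hNv
  have s1 : ∑ t ∈ T, Nv t ≤ ∑ i, #(cl T i) * #(cl T (i + 1)) := by
    refine le_trans ?_ (sum_le_sum fun i _ => comb_inc hd hs hv i)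
    rw [sum_comm]
    refine sum_le_sum fun t _ => ?_
    simp only [hNv, lines]
    rw [filter_biUnion]
    exact card_biUnion_le
  have s2 : D * ((∑ t ∈ T, Nv t : ℕ) : ℝ) ≤ 3 * #T := by
    have s3 : ((∑ t ∈ T, Nv t : ℕ) : ℝ) ≤ #(cl T 0) * #(cl T 1) + #(cl T 1) * #(cl T 2) +
        #(cl T 2) * #(cl T 0) := by
      rw [Fin.sum_univ_three] at s1
      exact_mod_cast s1
    have s4 := mul_le_mul_of_nonneg_left s3 hD.le
    nlinarith [mul_nonneg hD.le (sq_nonneg ((#(cl T 0) : ℝ) - #(cl T 1))),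
      mul_nonneg hD.le (sq_nonneg ((#(cl T 1) : ℝ) - #(cl T 2))),
      mul_nonneg hD.le (sq_nonneg ((#(cl T 2) : ℝ) - #(cl T 0)))]
  set T' := {t ∈ T | Nv t ≤ k'} with hT'
  have hsub : T' ⊆ T := filter_subset _ _
  have s5 : (#T : ℝ) ≤ 2 * #T' := by
    have a1 : #T' + #{t ∈ T | ¬ Nv t ≤ k'} = #T := card_filter_add_card_filter_not _
    have a2 : #{t ∈ T | ¬ Nv t ≤ k'} * k' ≤ ∑ t ∈ T, Nv t := by
      refine le_trans ?_ (sum_le_sum_of_subset (filter_subset (fun t => ¬ Nv t ≤ k') T))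
      exact card_nsmul_le_sum _ _ _ fun t ht => (not_le.1 (mem_filter.1 ht).2).le
    have a3 : (#T' : ℝ) + #{t ∈ T | ¬ Nv t ≤ k'} = #T := by exact_mod_cast a1
    have a4 : (#{t ∈ T | ¬ Nv t ≤ k'} : ℝ) * k' ≤ ((∑ t ∈ T, Nv t : ℕ) : ℝ) := by exact_mod_cast a2
    have a5 := mul_le_mul_of_nonneg_left a4 hD.le
    have a6 : (0 : ℝ) ≤ #{t ∈ T | ¬ Nv t ≤ k'} := Nat.cast_nonneg _
    nlinarith
  refine comb_rich_mono (hc ι T' x s (fun j a => x a - y j) (#(cl T 0) + #(cl T 1) + #(cl T 2))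
    (comb_dual_mono hd hsub) ?_ ?_ ?_ (fun t ht X Y hXY => ?_) fun t ht j => ?_) hsub
  · refine (card_le_card (comb_lines_mono hsub)).trans (card_biUnion_le.trans ?_)
    rw [Fin.sum_univ_three]
  · push_cast
    nlinarith [mul_nonneg hD.le (sq_nonneg ((#(cl T 0) : ℝ) - #(cl T 1))),
      mul_nonneg hD.le (sq_nonneg ((#(cl T 1) : ℝ) - #(cl T 2))),
      mul_nonneg hD.le (sq_nonneg ((#(cl T 2) : ℝ) - #(cl T 0)))]
  · have a1 := comb_card_le hd.lin (show (0 : Fin 3) ≠ 1 by decide)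
    have a2 : #(cl T 0) * #(cl T 1) ≤ (#(cl T 0) + #(cl T 1) + #(cl T 2)) ^ 2 := by
      rw [sq]; exact Nat.mul_le_mul (by omega) (by omega)
    exact (Nat.pow_le_pow_iff_left two_ne_zero).1 (by omega)
  · have ht' := hsub ht
    obtain ⟨rfl, rfl⟩ := comb_meet (hd.ne t ht' 0 1 (by decide)) (hXY 0) (hXY 1) (hv t ht' 0)
      (hv t ht' 1)
    exact (card_le_card (filter_subset_filter _ (comb_lines_mono hsub))).trans (mem_filter.1 ht).2
  · have ht' := hsub ht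
    have b0 := abs_le.1 (hs t ht' 0)
    have b1 := abs_le.1 (hs t ht' 1)
    have b2 := abs_le.1 (hs t ht' 2)
    simp only [Fin.val_zero, Fin.val_one, Fin.val_two, Nat.cast_zero, Nat.cast_one,
      Nat.cast_ofNat] at b0 b1 b2
    refine ⟨by rw [comb_om, comb_co0, comb_co1, comb_co2]; ring, ?_⟩
    have d01 : 4 / 5 ≤ |x (t 1) - x (t 0)| := le_trans (by linarith [b0.2, b1.1]) (le_abs_self _)
    have d12 : 4 / 5 ≤ |x (t 2) - x (t 1)| := le_trans (by linarith [b1.2, b2.1]) (le_abs_self _)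
    have d02 : 4 / 5 ≤ |x (t 2) - x (t 0)| := le_trans (by linarith [b0.2, b2.1]) (le_abs_self _)
    have e01 : |x (t 0) - x (t 1)| ≤ 3 := abs_le.2 ⟨by linarith, by linarith⟩
    have e12 : |x (t 1) - x (t 2)| ≤ 3 := abs_le.2 ⟨by linarith, by linarith⟩
    have e20 : |x (t 2) - x (t 0)| ≤ 3 := abs_le.2 ⟨by linarith, by linarith⟩
    fin_cases j
    · exact comb_tro (min_le_left _ _) (min_le_right _ _) (hy t ht' 0) d01 d02 e12
    · exact comb_tro (min_le_left _ _) (min_le_right _ _) (hy t ht' 1) d12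
        (by rw [abs_sub_comm]; exact d01) e20
    · exact comb_tro (min_le_left _ _) (min_le_right _ _) (hy t ht' 2)
        (by rw [abs_sub_comm]; exact d02) (by rw [abs_sub_comm]; exact d12) e01

/-! ### Blocks and coboundaries -/

theorem comb_pairs {ι Z : Type} {T : Finset (Tri ι)} {n C : ℕ} (hn : ∀ i, #(cl T i) ≤ n)
    (κ : ι → Z) (i : Fin 3)
    (hC : ∀ z z' : Z, #(({t ∈ T | κ (t (i + 1)) = z ∧ κ (t (i + 2)) = z'} : Finset (Tri ι)).image
        fun t => κ (t i)) ≤ C) :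
    ∑ z ∈ T.image (fun t j => κ (t j)), #(cl {t ∈ T | (fun j => κ (t j)) = z} (i + 1)) *
      #(cl {t ∈ T | (fun j => κ (t j)) = z} (i + 2)) ≤ C * n ^ 2 := by
  have h1 : ∀ z : Fin 3 → Z, #(cl {t ∈ T | (fun j => κ (t j)) = z} (i + 1)) *
      #(cl {t ∈ T | (fun j => κ (t j)) = z} (i + 2)) ≤
      #{p ∈ cl T (i + 1) ×ˢ cl T (i + 2) | κ p.1 = z (i + 1) ∧ κ p.2 = z (i + 2)} := fun z => by
    rw [← card_product]
    refine card_le_card fun p hp => ?_
    obtain ⟨a, b⟩ := mem_product.1 hp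
    obtain ⟨t, ht, e1⟩ := comb_of_cl a
    obtain ⟨u, hu, e2⟩ := comb_of_cl b
    obtain ⟨t1, t2⟩ := mem_filter.1 ht
    obtain ⟨u1, u2⟩ := mem_filter.1 hu
    refine mem_filter.2 ⟨mem_product.2 ⟨e1 ▸ comb_mem_cl t1 _, e2 ▸ comb_mem_cl u1 _⟩, ?_, ?_⟩
    · rw [← e1]; exact congrFun t2 _
    · rw [← e2]; exact congrFun u2 _
  refine (sum_le_sum fun z _ => h1 z).trans ?_
  simp only [card_filter]
  rw [sum_comm]
  calc _ ≤ ∑ _p ∈ cl T (i + 1) ×ˢ cl T (i + 2), C := by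
        refine sum_le_sum fun p _ => ?_
        rw [← card_filter]
        refine le_trans (card_le_card_of_injOn (fun z => z i) (fun z hz => ?_)
          fun z hz w hw e => ?_) (hC (κ p.1) (κ p.2))
        · obtain ⟨h2, h3⟩ := mem_filter.1 (mem_coe.1 hz)
          obtain ⟨t, ht, rfl⟩ := mem_image.1 h2
          exact mem_coe.2 (mem_image.2 ⟨t, mem_filter.2 ⟨ht, h3.1.symm, h3.2.symm⟩, rfl⟩)
        · have a := (mem_filter.1 (mem_coe.1 hz)).2
          have b := (mem_filter.1 (mem_coe.1 hw)).2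
          funext j
          rcases (by decide : ∀ i j : Fin 3, j = i ∨ j = i + 1 ∨ j = i + 2) i j with rfl | rfl | rfl
          · exact e
          · exact a.1.symm.trans b.1
          · exact a.2.symm.trans b.2
    _ = #(cl T (i + 1)) * #(cl T (i + 2)) * C := by simp
    _ ≤ n * n * C := by gcongr <;> exact hn _
    _ = _ := by ring

/-- labels which determine each other up to `C` choices -/
theorem block {ι Z : Type} {T : Finset (Tri ι)} (hL : Lin T) {n M C : ℕ} (hn : ∀ i, #(cl T i) ≤ n)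
    (κ : ι → Z) (hM : #((lines T).image κ) ≤ M)
    (hC : ∀ (i : Fin 3) (z z' : Z),
      #(({t ∈ T | κ (t (i + 1)) = z ∧ κ (t (i + 2)) = z'} : Finset (Tri ι)).image
        fun t => κ (t i)) ≤ C) :
    ∃ T' ⊆ T, (∀ t ∈ T', ∀ u ∈ T', ∀ i, κ (t i) = κ (u i)) ∧ #T ≤ 2 * M ^ 3 * #T' ∧
      #T ^ 3 * (#(cl T' 0) * #(cl T' 1) * #(cl T' 2)) ^ 2 ≤ 8 * C ^ 3 * n ^ 6 * #T' ^ 3 := by
  rcases T.eq_empty_or_nonempty with rfl | ⟨t0, ht0⟩
  · exact ⟨∅, Subset.refl _, by simp, by simp, by simp⟩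
  set W := T.image (fun t j => κ (t j)) with hW
  set F : (Fin 3 → Z) → Finset (Tri ι) := fun z => {t ∈ T | (fun j => κ (t j)) = z} with hF
  by_contra hcon
  have hWc : #W ≤ M ^ 3 := by
    have : W ⊆ Fintype.piFinset fun _ : Fin 3 => (lines T).image κ := fun z hz => by
      obtain ⟨t, ht, rfl⟩ := mem_image.1 hz
      exact Fintype.mem_piFinset.2 fun j => mem_image_of_mem _ (comb_mem_lines ht j)
    refine (card_le_card this).trans ?_
    rw [Fintype.card_piFinset_const]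
    gcongr
  have hM0 : (0 : ℝ) < M := by
    exact_mod_cast (card_pos.2 ⟨_, mem_image_of_mem κ (comb_mem_lines ht0 0)⟩).trans_le hM
  have hn0 : (0 : ℝ) < n := by exact_mod_cast (card_pos.2 ⟨_, comb_mem_cl ht0 0⟩).trans_le (hn 0)
  have hC0 : (0 : ℝ) < C := by
    exact_mod_cast (card_pos.2 ⟨_, mem_image_of_mem _ (mem_filter.2 ⟨ht0, rfl, rfl⟩)⟩).trans_le
      (hC 0 (κ (t0 (0 + 1))) (κ (t0 (0 + 2))))
  have hT0 : (0 : ℝ) < #T := by exact_mod_cast card_pos.2 ⟨t0, ht0⟩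
  have key : ∀ z ∈ W, (#(F z) : ℝ) < #T / (2 * M ^ 3) + #T / (6 * C * n ^ 2) *
      (#(cl (F z) 1) * #(cl (F z) 2) + #(cl (F z) 2) * #(cl (F z) 0) +
        #(cl (F z) 0) * #(cl (F z) 1)) := fun z _ => by
    have p1 : (0 : ℝ) < #T / (2 * M ^ 3) := by positivity
    by_cases c1 : #T ≤ 2 * M ^ 3 * #(F z)
    · have c2 : 8 * C ^ 3 * n ^ 6 * #(F z) ^ 3 ≤
          #T ^ 3 * (#(cl (F z) 0) * #(cl (F z) 1) * #(cl (F z) 2)) ^ 2 := by
        by_contra c2
        exact hcon ⟨F z, filter_subset _ _, fun t ht u hu i =>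
          congrFun ((mem_filter.1 ht).2.trans (mem_filter.1 hu).2.symm) i, c1, (not_le.1 c2).le⟩
      have c3 : 8 * (C : ℝ) ^ 3 * n ^ 6 * #(F z) ^ 3 ≤
          #T ^ 3 * (#(cl (F z) 0) * #(cl (F z) 1) * #(cl (F z) 2)) ^ 2 := by exact_mod_cast c2
      have c4 := H88.young_amgm (t := 2 * C * n ^ 2 * #(F z))
        (x := #T * (#(cl (F z) 1) * #(cl (F z) 2))) (y := #T * (#(cl (F z) 2) * #(cl (F z) 0)))
        (z := #T * (#(cl (F z) 0) * #(cl (F z) 1))) (by positivity) (by positivity)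
        (by positivity) (le_trans (le_of_eq (by ring)) (c3.trans (le_of_eq (by ring))))
      refine lt_of_le_of_lt ?_ (lt_add_of_pos_left _ p1)
      rw [div_mul_eq_mul_div, le_div_iff₀ (by positivity)]
      linarith
    · have c2 : 2 * (M : ℝ) ^ 3 * #(F z) < #T := by exact_mod_cast not_le.1 c1
      refine lt_of_lt_of_le ?_ (le_add_of_nonneg_right (by positivity))
      rw [lt_div_iff₀ (by positivity)]
      linarith
  have hs := sum_lt_sum_of_nonempty (s := W) ⟨_, mem_image_of_mem _ ht0⟩ key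
  have e1 : ∑ z ∈ W, (#(F z) : ℝ) = #T := by
    rw [card_eq_sum_card_image (fun (t : Tri ι) j => κ (t j)) T]
    push_cast
    rfl
  have a0 : ∑ z ∈ W, (#(cl (F z) 1) * #(cl (F z) 2) : ℝ) ≤ C * n ^ 2 := by
    exact_mod_cast comb_pairs hn κ 0 (hC 0)
  have a1 : ∑ z ∈ W, (#(cl (F z) 2) * #(cl (F z) 0) : ℝ) ≤ C * n ^ 2 := by
    exact_mod_cast comb_pairs hn κ 1 (hC 1)
  have a2 : ∑ z ∈ W, (#(cl (F z) 0) * #(cl (F z) 1) : ℝ) ≤ C * n ^ 2 := by
    exact_mod_cast comb_pairs hn κ 2 (hC 2)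
  rw [e1, sum_add_distrib, ← mul_sum, sum_add_distrib, sum_add_distrib, sum_const,
    nsmul_eq_mul] at hs
  have b1 : (#W : ℝ) * (#T / (2 * M ^ 3)) ≤ #T / 2 := by
    have : (#W : ℝ) ≤ M ^ 3 := by exact_mod_cast hWc
    calc _ ≤ (M : ℝ) ^ 3 * (#T / (2 * M ^ 3)) := by gcongr
      _ = _ := by field_simp
  have b2 : (#T : ℝ) / (6 * C * n ^ 2) * (C * n ^ 2 + C * n ^ 2 + C * n ^ 2) = #T / 2 := by
    field_simp; ring
  have b3 := mul_le_mul_of_nonneg_left (add_le_add (add_le_add a0 a1) a2)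
    (show (0 : ℝ) ≤ #T / (6 * C * n ^ 2) by positivity)
  linarith

/-- a triple which spans many four-cycles -/
theorem comb_root {ι : Type} {T : Finset (Tri ι)} (hL : Lin T) (hT : T.Nonempty) :
    ∃ t0 ∈ T, #T ^ 3 ≤ (#(cl T 0) * #(cl T 1)) ^ 2 *
      #{t ∈ T | (∃ u ∈ T, u 0 = t 0 ∧ u 1 = t0 1) ∧ ∃ u ∈ T, u 0 = t0 0 ∧ u 1 = t 1} := by
  obtain ⟨t0, ht0, hmax⟩ := exists_max_image T (fun t0 =>
    #{t ∈ T | (∃ u ∈ T, u 0 = t 0 ∧ u 1 = t0 1) ∧ ∃ u ∈ T, u 0 = t0 0 ∧ u 1 = t 1}) hT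
  refine ⟨t0, ht0, ?_⟩
  set G := #{t ∈ T | (∃ u ∈ T, u 0 = t 0 ∧ u 1 = t0 1) ∧ ∃ u ∈ T, u 0 = t0 0 ∧ u 1 = t 1}
  have h1 := card_sq_le_coll (fun t : Tri ι => t 1) T (cl T 1) fun t ht => comb_mem_cl ht 1
  have h2 := card_sq_le_coll (fun p : Tri ι × Tri ι => (p.1 0, p.2 0))
    (coll (fun t : Tri ι => t 1) T) (cl T 0 ×ˢ cl T 0) fun p hp =>
      mem_product.2 ⟨comb_mem_cl (mem_coll.1 hp).1 0, comb_mem_cl (mem_coll.1 hp).2.1 0⟩
  rw [card_product] at h2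
  have h3 : #(coll (fun p : Tri ι × Tri ι => (p.1 0, p.2 0)) (coll (fun t : Tri ι => t 1) T)) ≤
      #T * G := by
    refine le_trans ?_ (sum_le_card_nsmul T _ G hmax)
    rw [← card_sigma]
    refine card_le_card_of_injOn (fun q => ⟨q.1.1, q.2.2⟩) (fun q hq => ?_) fun q hq w hw e => ?_
    · obtain ⟨a, b, c⟩ := mem_coll.1 (mem_coe.1 hq)
      obtain ⟨a1, a2, a3⟩ := mem_coll.1 a
      obtain ⟨b1, b2, b3⟩ := mem_coll.1 b
      obtain ⟨c1, c2⟩ := Prod.mk.inj c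
      exact mem_coe.2 (mem_sigma.2 ⟨a1, mem_filter.2 ⟨b2, ⟨_, a2, c2, a3.symm⟩,
        _, b1, c1.symm, b3⟩⟩)
    · obtain ⟨a, b, c⟩ := mem_coll.1 (mem_coe.1 hq)
      obtain ⟨a1, a2, a3⟩ := mem_coll.1 a
      obtain ⟨b1, b2, b3⟩ := mem_coll.1 b
      obtain ⟨c1, c2⟩ := Prod.mk.inj c
      obtain ⟨a', b', c'⟩ := mem_coll.1 (mem_coe.1 hw)
      obtain ⟨a1', a2', a3'⟩ := mem_coll.1 a'
      obtain ⟨b1', b2', b3'⟩ := mem_coll.1 b'
      obtain ⟨c1', c2'⟩ := Prod.mk.inj c'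
      have e1 : q.1.1 = w.1.1 := congrArg Sigma.fst e
      have e2 : q.2.2 = w.2.2 := congrArg (fun p : Σ _ : Tri ι, Tri ι => p.2) e
      refine Prod.ext (Prod.ext e1 (hL _ a2 _ a2' 0 1 (by decide) ?_ ?_))
        (Prod.ext (hL _ b1 _ b1' 0 1 (by decide) ?_ ?_) e2)
      · rw [c2, c2', e2]
      · rw [← a3, ← a3', e1]
      · rw [← c1, ← c1', e1]
      · rw [b3, b3', e2]
  refine Nat.le_of_mul_le_mul_left ?_ (card_pos.2 hT)
  calc #T * #T ^ 3 = (#T ^ 2) ^ 2 := by ring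
    _ ≤ (#(cl T 1) * #(coll (fun t : Tri ι => t 1) T)) ^ 2 := by gcongr
    _ = #(cl T 1) ^ 2 * #(coll (fun t : Tri ι => t 1) T) ^ 2 := by ring
    _ ≤ #(cl T 1) ^ 2 * (#(cl T 0) * #(cl T 0) * (#T * G)) := by
        gcongr; exact h2.trans (by gcongr)
    _ = _ := by ring

/-- finitely many products along closed walks give a coboundary on a dense part -/
theorem ftypes {δ : ℝ} (hδ : 0 < δ) (M : ℕ) : ∃ δ' : ℝ, 0 < δ' ∧
    ∀ (ι G : Type) [CommGroup G] (T : Finset (Tri ι)) (n : ℝ) (r : Tri ι → Fin 3 → G)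
      (Φ : Finset G), Lin T → 0 ≤ n → (∀ i, (#(cl T i) : ℝ) ≤ n) → δ * n ^ 2 ≤ #T → #Φ ≤ M →
      (∀ t1 ∈ T, ∀ t2 ∈ T, ∀ t3 ∈ T, ∀ t4 ∈ T, ∀ i1 i2 i3 i4, t1 i1 = t2 i1 → t2 i2 = t3 i2 →
        t3 i3 = t4 i3 → t4 i4 = t1 i4 →
        r t1 i4 / r t1 i1 * (r t2 i1 / r t2 i2) * (r t3 i2 / r t3 i3) * (r t4 i3 / r t4 i4) ∈ Φ) →
      ∃ T' ⊆ T, ∃ lam : Fin 3 → ι → G, δ' * n ^ 2 ≤ #T' ∧
        ∀ t ∈ T', ∀ i j, r t i / lam i (t i) = r t j / lam j (t j) := by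
  refine ⟨δ ^ 3 / (M + 1) ^ 2, by positivity, fun ι G _ T n r Φ hL hn hcl hden hΦ hw => ?_⟩
  rcases hn.eq_or_lt with rfl | hn0
  · exact ⟨∅, empty_subset _, fun _ _ => 1, by simp, by simp⟩
  have hT : T.Nonempty := by
    have : (0 : ℝ) < #T := lt_of_lt_of_le (by positivity) hden
    exact card_pos.1 (by exact_mod_cast this)
  obtain ⟨t0, ht0, hG⟩ := comb_root hL hT
  set T0 := {t ∈ T | (∃ u ∈ T, u 0 = t 0 ∧ u 1 = t0 1) ∧ ∃ u ∈ T, u 0 = t0 0 ∧ u 1 = t 1} with hT0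
  have hT0c : δ ^ 3 * n ^ 2 ≤ #T0 := by
    have a : (#T : ℝ) ^ 3 ≤ (#(cl T 0) * #(cl T 1)) ^ 2 * #T0 := by exact_mod_cast hG
    have b : (δ * n ^ 2) ^ 3 ≤ (n * n) ^ 2 * #T0 :=
      le_trans (by gcongr) (a.trans (by gcongr <;> exact hcl _))
    refine le_of_mul_le_mul_left ?_ (show 0 < (n * n) ^ 2 by positivity)
    exact le_trans (le_of_eq (by ring)) b
  have ex1 : ∀ a : ι, ∃ u : Tri ι, (∃ u ∈ T, u 0 = a ∧ u 1 = t0 1) →
      u ∈ T ∧ u 0 = a ∧ u 1 = t0 1 := fun a => by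
    by_cases h : ∃ u ∈ T, u 0 = a ∧ u 1 = t0 1
    · obtain ⟨u, hu⟩ := h
      exact ⟨u, fun _ => hu⟩
    · exact ⟨t0, fun k => absurd k h⟩
  have ex2 : ∀ b : ι, ∃ u : Tri ι, (∃ u ∈ T, u 0 = t0 0 ∧ u 1 = b) →
      u ∈ T ∧ u 0 = t0 0 ∧ u 1 = b := fun b => by
    by_cases h : ∃ u ∈ T, u 0 = t0 0 ∧ u 1 = b
    · obtain ⟨u, hu⟩ := h
      exact ⟨u, fun _ => hu⟩
    · exact ⟨t0, fun k => absurd k h⟩
  choose U hU using ex1
  choose V hV using ex2
  have hU' : ∀ t ∈ T0, U (t 0) ∈ T ∧ U (t 0) 0 = t 0 ∧ U (t 0) 1 = t0 1 := fun t ht =>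
    hU _ (mem_filter.1 ht).2.1
  have hV' : ∀ t ∈ T0, V (t 1) ∈ T ∧ V (t 1) 0 = t0 0 ∧ V (t 1) 1 = t 1 := fun t ht =>
    hV _ (mem_filter.1 ht).2.2
  have s0 : T0 ⊆ T := filter_subset _ _
  obtain ⟨T1, s1, c1, k1⟩ := H88.pigeon T0 (fun t => r t 1 / r t 0 *
      (r (U (t 0)) 0 / r (U (t 0)) 1) * (r t0 1 / r t0 0) * (r (V (t 1)) 0 / r (V (t 1)) 1))
      (N := M) (le_trans (card_le_card fun g hg => by
    obtain ⟨t, ht, rfl⟩ := mem_image.1 hg
    exact hw t (s0 ht) _ (hU' t ht).1 t0 ht0 _ (hV' t ht).1 0 1 0 1 (hU' t ht).2.1.symm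
      (hU' t ht).2.2 (hV' t ht).2.1.symm (hV' t ht).2.2) hΦ)
  have ex3 : ∀ y : ι, ∃ u : Tri ι, (∃ u ∈ T1, u 2 = y) → u ∈ T1 ∧ u 2 = y := fun y => by
    by_cases h : ∃ u ∈ T1, u 2 = y
    · obtain ⟨u, hu⟩ := h
      exact ⟨u, fun _ => hu⟩
    · exact ⟨t0, fun k => absurd k h⟩
  choose W hW using ex3
  have hW' : ∀ t ∈ T1, W (t 2) ∈ T1 ∧ W (t 2) 2 = t 2 := fun t ht => hW _ ⟨t, ht, rfl⟩
  obtain ⟨T2, s2, c2, k2⟩ := H88.pigeon T1 (fun t => r t 1 / r t 2 *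
      (r (W (t 2)) 2 / r (W (t 2)) 1) * (r (V (W (t 2) 1)) 1 / r (V (W (t 2) 1)) 0) *
      (r (V (t 1)) 0 / r (V (t 1)) 1)) (N := M) (le_trans (card_le_card fun g hg => by
    obtain ⟨t, ht, rfl⟩ := mem_image.1 hg
    have a := hW' t ht
    have b := hV' _ (s1 a.1)
    have c := hV' t (s1 ht)
    exact hw t (s0 (s1 ht)) _ (s0 (s1 a.1)) _ b.1 _ c.1 2 1 0 1 a.2.symm b.2.2.symm
      (b.2.1.trans c.2.1.symm) c.2.2) hΦ)
  have hc : δ ^ 3 / (M + 1) ^ 2 * n ^ 2 ≤ #T2 := by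
    have a : (#T0 : ℝ) ≤ M * #T1 := by exact_mod_cast c1
    have b : (#T1 : ℝ) ≤ M * #T2 := by exact_mod_cast c2
    rw [div_mul_eq_mul_div, div_le_iff₀ (by positivity)]
    calc _ ≤ (M : ℝ) * (M * #T2) := hT0c.trans (a.trans (by gcongr))
      _ ≤ (M + 1) * ((M + 1) * #T2) := by gcongr <;> linarith
      _ = _ := by ring
  rcases T2.eq_empty_or_nonempty with rfl | ⟨t1, ht1⟩
  · exact ⟨∅, empty_subset _, fun _ _ => 1, hc, by simp⟩
  obtain ⟨φ, hφ⟩ : ∃ φ, ∀ t ∈ T2, r t 1 / r t 0 * (r (U (t 0)) 0 / r (U (t 0)) 1) *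
      (r t0 1 / r t0 0) * (r (V (t 1)) 0 / r (V (t 1)) 1) = φ :=
    ⟨_, fun t ht => k1 t (s2 ht) t1 (s2 ht1)⟩
  obtain ⟨ψ, hψ⟩ : ∃ ψ, ∀ t ∈ T2, r t 1 / r t 2 * (r (W (t 2)) 2 / r (W (t 2)) 1) *
      (r (V (W (t 2) 1)) 1 / r (V (W (t 2) 1)) 0) * (r (V (t 1)) 0 / r (V (t 1)) 1) = ψ :=
    ⟨_, fun t ht => k2 t ht t1 ht1⟩
  refine ⟨T2, s2.trans (s1.trans s0), ![fun a => r (U a) 0 / r (U a) 1 * (r t0 1 / r t0 0) * φ⁻¹,
    fun b => r (V b) 1 / r (V b) 0,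
    fun y => r (W y) 2 / r (W y) 1 * (r (V (W y 1)) 1 / r (V (W y 1)) 0) * ψ⁻¹], hc,
    fun t ht => ?_⟩
  have e0 : r t 0 / (r (U (t 0)) 0 / r (U (t 0)) 1 * (r t0 1 / r t0 0) * φ⁻¹) =
      r t 1 / (r (V (t 1)) 1 / r (V (t 1)) 0) := by
    rw [← hφ t ht]
    apply Additive.ofMul.injective
    simp only [ofMul_div, ofMul_mul, ofMul_inv]
    abel
  have e2 : r t 2 / (r (W (t 2)) 2 / r (W (t 2)) 1 *
      (r (V (W (t 2) 1)) 1 / r (V (W (t 2) 1)) 0) * ψ⁻¹) =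
      r t 1 / (r (V (t 1)) 1 / r (V (t 1)) 0) := by
    rw [← hψ t ht]
    apply Additive.ofMul.injective
    simp only [ofMul_div, ofMul_mul, ofMul_inv]
    abel
  intro i j
  fin_cases i <;> fin_cases j
  exacts [rfl, e0, e0.trans e2.symm, e0.symm, rfl, e2.symm, e2.trans e0.symm, e2, rfl]

end Pool.Agent.MP_38296a_co.H21

end FileComb
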