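import Pool.Agent.MP_38296a_co.Mg.H21_Dy
import Pool.Agent.MP_38296a_co.Mg.H21_Comb
import Pool.Agent.MP_38296a_co.Mg.H21_Arch

-- part MP_38296a_co.H21.Reg
section

section FileRank1

/-!
Linear algebra for the rank bound.
-/

set_option autoImplicit false

namespace Pool.Agent.MP_38296a_co.H21

open Finset Filter Classical

/-- orthonormalisation of functions with independent restrictions -/
theorem rank_gs {α : Type} (S : Finset α) {D : ℕ} (g : Fin D → α → ℝ)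
    (hi : ∀ a : Fin D → ℝ, (∀ p ∈ S, ∑ e, a e * g e p = 0) → a = 0) :
    ∃ M : Fin D → Fin D → ℝ, ∀ e e',
      ∑ p ∈ S, (∑ f, M e f * g f p) * (∑ f, M e' f * g f p) = if e = e' then 1 else 0 := by
  let G : Fin D → EuclideanSpace ℝ S := fun f => WithLp.toLp 2 fun p => g f p
  have hG : LinearIndependent ℝ G := by
    rw [Fintype.linearIndependent_iff]
    intro a ha
    refine congrFun (hi a fun p hp => ?_)
    have := congrArg (fun v : EuclideanSpace ℝ S => v ⟨p, hp⟩) ha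
    simpa [G] using this
  have ho := InnerProductSpace.gramSchmidtNormed_orthonormal hG
  have hm : ∀ e, ∃ c : Fin D → ℝ, ∑ f, c f • G f = InnerProductSpace.gramSchmidtNormed ℝ G e :=
    fun e => by
      rw [← Submodule.mem_span_range_iff_exists_fun, ← InnerProductSpace.span_gramSchmidt,
        ← InnerProductSpace.span_gramSchmidtNormed_range]
      exact Submodule.subset_span ⟨e, rfl⟩
  choose M hM using hm
  refine ⟨M, fun e e' => ?_⟩
  have h1 := orthonormal_iff_ite.1 ho e' e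
  rw [← hM, ← hM, PiLp.inner_apply] at h1
  rw [← sum_coe_sort S, if_congr eq_comm rfl rfl, ← h1]
  refine sum_congr rfl fun p _ => ?_
  simp [G]

/-- Frobenius norm of an orthogonal projection -/
theorem rank_frob {α : Type} (S : Finset α) {D : ℕ} (u : Fin D → α → ℝ)
    (h : ∀ e e', ∑ p ∈ S, u e p * u e' p = if e = e' then 1 else 0) :
    ∑ p ∈ S, ∑ q ∈ S, (∑ e, u e p * u e q) ^ 2 = D := by
  calc _ = ∑ p ∈ S, ∑ q ∈ S, ∑ e, ∑ e', (u e p * u e' p) * (u e q * u e' q) := by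
        refine sum_congr rfl fun p _ => sum_congr rfl fun q _ => ?_
        rw [sq, sum_mul_sum]
        exact sum_congr rfl fun e _ => sum_congr rfl fun e' _ => by ring
    _ = ∑ e, ∑ e', (∑ p ∈ S, u e p * u e' p) * ∑ q ∈ S, u e q * u e' q := by
        simp only [sum_mul_sum]
        calc _ = ∑ p ∈ S, ∑ e, ∑ e', ∑ q ∈ S, (u e p * u e' p) * (u e q * u e' q) := by
              refine sum_congr rfl fun p _ => ?_
              rw [sum_comm]
              exact sum_congr rfl fun e _ => sum_comm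
          _ = _ := by
              rw [sum_comm]
              exact sum_congr rfl fun e _ => sum_comm
    _ = D := by
        simp [h]

theorem rank_amgm {l c w x : ℝ} (hl : 0 < l) (hc : |c| ≤ 5) (hw : |w| ≤ 1) :
    -(c * (w * x)) ≤ l * x ^ 2 + 7 / l := by
  have h1 : |c * w| ≤ 5 := by
    rw [abs_mul]
    nlinarith [abs_nonneg c, abs_nonneg w]
  have h2 : (c * w) ^ 2 ≤ 25 := by
    have := abs_le.1 h1
    nlinarith
  have h3 : 7 / l * l = 7 := div_mul_cancel₀ _ hl.ne'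
  by_contra hn
  have h4 := mul_lt_mul_of_pos_right (not_le.1 hn) hl
  nlinarith [sq_nonneg (2 * l * x + c * w)]

/-- pairs of lines of a triple determine the triple and the positions -/
theorem rank_pairs {ι : Type} {T : Finset (Tri ι)} {L : Finset ι} (hL : ∀ t ∈ T, ∀ i, t i ∈ L)
    (hlin : Lin T) (hcl : ∀ t ∈ T, ∀ u ∈ T, ∀ i j, t i = u j → i = j) {F : ι → ι → ℝ}
    (hF : ∀ a b, 0 ≤ F a b) :
    ∑ t ∈ T, ∑ r ∈ (univ : Finset (Fin 3)).offDiag, F (t r.1) (t r.2) ≤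
      ∑ a ∈ L, ∑ b ∈ L, F a b := by
  rw [← sum_product', ← sum_product' (f := F)]
  have hinj : Set.InjOn (fun z : Tri ι × Fin 3 × Fin 3 => (z.1 z.2.1, z.1 z.2.2))
      ↑(T ×ˢ (univ : Finset (Fin 3)).offDiag) := by
    rintro ⟨t, i, j⟩ h1 ⟨u, i', j'⟩ h2 e
    simp only [coe_product, Set.mem_prod, mem_coe, mem_offDiag, mem_univ, true_and,
      Prod.mk.injEq] at h1 h2 e
    obtain rfl := hcl t h1.1 u h2.1 i i' e.1
    obtain rfl := hcl t h1.1 u h2.1 j j' e.2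
    rw [hlin t h1.1 u h2.1 i j h1.2 e.1 e.2]
  rw [← sum_image (f := fun z : ι × ι => F z.1 z.2) hinj]
  refine sum_le_sum_of_subset_of_nonneg (fun z hz => ?_) fun z _ _ => hF _ _
  obtain ⟨y, hy, rfl⟩ := mem_image.1 hz
  exact mem_product.2 ⟨hL _ (mem_product.1 hy).1 _, hL _ (mem_product.1 hy).1 _⟩

theorem rank_diag {ι : Type} (T : Finset (Tri ι)) (L : Finset ι) {F : Tri ι → ι → ℝ}
    (hF : ∀ t a, 0 ≤ F t a) :
    ∑ a ∈ L, ∑ t ∈ T with ∃ i, t i = a, F t a ≤ ∑ t ∈ T, ∑ i, F t (t i) := by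
  simp only [sum_filter]
  rw [sum_comm]
  refine sum_le_sum fun t _ => ?_
  calc _ ≤ ∑ a ∈ L, ∑ i, if t i = a then F t a else 0 := by
        refine sum_le_sum fun a _ => ?_
        have h0 : ∀ i ∈ (univ : Finset (Fin 3)), 0 ≤ if t i = a then F t a else 0 :=
          fun i _ => by split_ifs; exacts [hF t a, le_rfl]
        split_ifs with h
        · obtain ⟨i, hi⟩ := h
          exact (if_pos hi).ge.trans (single_le_sum h0 (mem_univ i))
        · exact sum_nonneg h0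
    _ ≤ _ := by
        rw [sum_comm]
        refine sum_le_sum fun i _ => ?_
        rw [sum_ite_eq]
        split_ifs
        exacts [le_rfl, hF _ _]

theorem rank_sq (y : Fin 3 → ℝ) :
    (∑ i, y i) ^ 2 = ∑ i, y i ^ 2 + ∑ r ∈ (univ : Finset (Fin 3)).offDiag, y r.1 * y r.2 := by
  rw [sq, sum_mul_sum, ← sum_product', ← diag_union_offDiag,
    sum_union (disjoint_diag_offDiag _), sum_diag]
  simp only [sq]

/-- the rank bound for orthonormal solutions -/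
theorem rank_main {ι : Type} {T : Finset (Tri ι)} {L : Finset ι} (hL : ∀ t ∈ T, ∀ i, t i ∈ L)
    (hlin : Lin T) (hcl : ∀ t ∈ T, ∀ u ∈ T, ∀ i j, t i = u j → i = j) {c : Tri ι → Fin 3 → ℝ}
    (hc : ∀ t ∈ T, ∀ i, 4 / 5 ≤ |c t i| ∧ |c t i| ≤ 11 / 5) {ξ : Tri ι → ℝ}
    (hξ : ∀ t ∈ T, |ξ t| ≤ 1) {m : ℝ} (hm : 0 < m)
    (hloc : ∀ a ∈ L, ∀ v w : ℝ, m * (v ^ 2 + w ^ 2) ≤
      ∑ t ∈ T with ∃ i, t i = a, (v + ξ t * w) ^ 2)
    {D : ℕ} {u : Fin D → ι × Fin 2 → ℝ}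
    (ho : ∀ e e', ∑ p ∈ L ×ˢ univ, u e p * u e' p = if e = e' then 1 else 0)
    (he : ∀ e, ∀ t ∈ T, ∑ i, c t i * (u e (t i, 0) + ξ t * u e (t i, 1)) = 0) :
    m ^ 2 * D ≤ 400 * (#L : ℝ) ^ 2 := by
  set y : Fin D → Tri ι → ι → ℝ := fun e t a => u e (a, 0) + ξ t * u e (a, 1) with hy
  set P : ι × Fin 2 → ι × Fin 2 → ℝ := fun p q => ∑ e, u e p * u e q with hP
  have hl : 0 < m / 2 := half_pos hm
  set F : ι → ι → ℝ := fun a b => ∑ k : Fin 2, ∑ l : Fin 2,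
    (m / 2 * P (a, k) (b, l) ^ 2 + 7 / (m / 2)) with hF
  have hF0 : ∀ a b, 0 ≤ F a b := fun a b =>
    sum_nonneg fun _ _ => sum_nonneg fun _ _ => by positivity
  have h1 : ∀ e, m ≤ ∑ t ∈ T, ∑ i, y e t (t i) ^ 2 := fun e => by
    refine le_trans ?_ (rank_diag T L (F := fun t a => y e t a ^ 2) fun _ _ => sq_nonneg _)
    refine le_trans ?_ (sum_le_sum fun a ha => hloc a ha (u e (a, 0)) (u e (a, 1)))
    have := ho e e
    rw [if_pos rfl, sum_product] at this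
    simp only [Fin.sum_univ_two, ← sq] at this
    rw [← mul_sum, this, mul_one]
  have h2 : ∀ t ∈ T, 16 / 25 * ∑ e, ∑ i, y e t (t i) ^ 2 ≤
      ∑ r ∈ (univ : Finset (Fin 3)).offDiag, F (t r.1) (t r.2) := fun t ht => by
    have a1 : ∀ e, 16 / 25 * ∑ i, y e t (t i) ^ 2 ≤ ∑ r ∈ (univ : Finset (Fin 3)).offDiag,
        -(c t r.1 * c t r.2 * (y e t (t r.1) * y e t (t r.2))) := fun e => by
      have b1 := rank_sq fun i => c t i * y e t (t i)
      rw [show ∑ i, c t i * y e t (t i) = 0 from he e t ht] at b1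
      have b2 : 16 / 25 * ∑ i, y e t (t i) ^ 2 ≤ ∑ i, (c t i * y e t (t i)) ^ 2 := by
        rw [mul_sum]
        refine sum_le_sum fun i _ => ?_
        rw [mul_pow, ← sq_abs (c t i)]
        have := (hc t ht i).1
        exact mul_le_mul_of_nonneg_right (by nlinarith) (sq_nonneg _)
      have b3 : ∑ r ∈ (univ : Finset (Fin 3)).offDiag,
          -(c t r.1 * c t r.2 * (y e t (t r.1) * y e t (t r.2))) =
          -∑ r ∈ (univ : Finset (Fin 3)).offDiag,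
            c t r.1 * y e t (t r.1) * (c t r.2 * y e t (t r.2)) := by
        rw [← sum_neg_distrib]
        exact sum_congr rfl fun r _ => by ring
      rw [b3]
      linarith
    rw [mul_sum]
    refine (sum_le_sum fun e _ => a1 e).trans ?_
    rw [sum_comm]
    refine sum_le_sum fun r _ => ?_
    have a2 : |c t r.1 * c t r.2| ≤ 5 := by
      rw [abs_mul]
      nlinarith [hc t ht r.1, hc t ht r.2]
    have a3 := hξ t ht
    have a4 : |ξ t * ξ t| ≤ 1 := by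
      rw [abs_mul]
      nlinarith [abs_nonneg (ξ t)]
    have a5 : ∑ e, -(c t r.1 * c t r.2 * (y e t (t r.1) * y e t (t r.2))) =
        -(c t r.1 * c t r.2 * (1 * P (t r.1, 0) (t r.2, 0))) +
        -(c t r.1 * c t r.2 * (ξ t * P (t r.1, 0) (t r.2, 1))) +
        (-(c t r.1 * c t r.2 * (ξ t * P (t r.1, 1) (t r.2, 0))) +
        -(c t r.1 * c t r.2 * (ξ t * ξ t * P (t r.1, 1) (t r.2, 1)))) := by
      simp only [hP, hy, mul_sum, ← sum_neg_distrib, ← sum_add_distrib]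
      exact sum_congr rfl fun e _ => by ring
    rw [a5]
    simp only [hF, Fin.sum_univ_two]
    exact add_le_add (add_le_add (rank_amgm hl a2 abs_one.le) (rank_amgm hl a2 a3))
      (add_le_add (rank_amgm hl a2 a3) (rank_amgm hl a2 a4))
  have h3 : ∑ a ∈ L, ∑ b ∈ L, F a b = m / 2 * D + 56 / m * (#L : ℝ) ^ 2 := by
    rw [← rank_frob _ u ho]
    simp only [hF, sum_add_distrib, sum_const, card_univ, Fintype.card_fin, nsmul_eq_mul,
      sum_product, mul_sum]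
    congr 1
    · exact sum_congr rfl fun a _ => sum_comm
    · push_cast
      field_simp
      ring
  have h4 : 16 / 25 * (m * D) ≤ m / 2 * D + 56 / m * (#L : ℝ) ^ 2 := by
    rw [← h3]
    refine le_trans ?_ ((sum_le_sum h2).trans (rank_pairs hL hlin hcl hF0))
    rw [← mul_sum, sum_comm]
    refine mul_le_mul_of_nonneg_left ?_ (by norm_num)
    refine le_trans ?_ (sum_le_sum fun e _ => h1 e)
    simp [mul_comm]
  have h5 : 56 / m * m = 56 := div_mul_cancel₀ _ hm.ne'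
  have h6 := mul_le_mul_of_nonneg_right h4 hm.le
  have h7 : (m / 2 * D + 56 / m * (#L : ℝ) ^ 2) * m = m ^ 2 * D / 2 + 56 * (#L : ℝ) ^ 2 := by
    linear_combination (#L : ℝ) ^ 2 * h5
  rw [h7] at h6
  linarith

end Pool.Agent.MP_38296a_co.H21

end FileRank1

section FileRank

set_option autoImplicit false

namespace Pool.Agent.MP_38296a_co.H21

open Finset Filter Classical

/-- pruning of the lines of small degree -/
theorem rank_prune {ι : Type} (T : Finset (Tri ι)) {τ : ℝ} (hτ : 0 ≤ τ) :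
    ∃ T1 ⊆ T, (#T : ℝ) - τ * #(lines T) ≤ #T1 ∧
      ∀ a ∈ lines T1, τ ≤ cnt T1 fun t => ∃ i, t i = a := by
  obtain ⟨T1, h1, h2⟩ := exists_max_image T.powerset
    (fun U => (#U : ℝ) - τ * #(lines U)) ⟨T, mem_powerset_self T⟩
  have hs := mem_powerset.1 h1
  refine ⟨T1, hs, ?_, fun a ha => ?_⟩
  · have := h2 T (mem_powerset_self T)
    have h3 : 0 ≤ τ * #(lines T1) := by positivity
    linarith
  · have h3 := h2 {t ∈ T1 | ¬ ∃ i, t i = a} (mem_powerset.2 ((filter_subset _ _).trans hs))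
    have h4 : #(lines {t ∈ T1 | ¬ ∃ i, t i = a}) < #(lines T1) := by
      refine card_lt_card ⟨lines_mono (filter_subset _ _), fun h => ?_⟩
      obtain ⟨t, ht, hi⟩ := mem_lines.1 (h ha)
      exact (mem_filter.1 ht).2 hi
    have h5 : (#(lines {t ∈ T1 | ¬ ∃ i, t i = a}) : ℝ) + 1 ≤ #(lines T1) := by exact_mod_cast h4
    have h6 := cnt_add_not T1 fun t => ∃ i, t i = a
    have h7 : cnt T1 (fun t => ¬ ∃ i, t i = a) = #{t ∈ T1 | ¬ ∃ i, t i = a} := by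
      unfold cnt
      congr
    have h8 := mul_le_mul_of_nonneg_left h5 hτ
    linarith

/-- local lower bound on a line of large degree -/
theorem rank_loc {ι : Type} {A : Arr ι} (hA : A.Ok) {T : Finset (Tri ι)} (hT : T ⊆ A.T)
    {ξ : Tri ι → ℝ} {o J θ : ℝ} (hJ : 0 < J) (hθ : 0 < θ) (hθJ : 24 ≤ θ * J)
    (hξ : ∀ t ∈ T, ((A.loc t).1 : ℝ) ≤ o + J * ξ t ∧ o + J * ξ t ≤ (A.loc t).1 + 1)
    (hξ1 : ∀ t ∈ T, |ξ t| ≤ 1) {a : ι}
    (ha : θ * J ≤ cnt T fun t => ∃ i, t i = a) (v w : ℝ) :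
    θ / 2 * ((θ / 16) ^ 2 / (2 * (θ / 16) ^ 2 + 3)) * J * (v ^ 2 + w ^ 2) ≤
      ∑ t ∈ T with ∃ i, t i = a, (v + ξ t * w) ^ 2 := by
  set ρ := θ / 16 with hρ
  have hρ0 : 0 < ρ := by positivity
  have h1 : cnt T (fun t => (∃ i, t i = a) ∧ |v + ξ t * w| < ρ * |w|) ≤ θ * J / 2 := by
    refine le_trans (cnt_mono ?_)
      ((hA.deg_le a ⌊o + J * (-v / w) - ρ * J - 1⌋ (⌈2 * ρ * J⌉₊ + 2)).trans ?_)
    · rintro t ht ⟨h2, h3⟩
      have hw : w ≠ 0 := by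
        rintro rfl
        simp only [abs_zero, mul_zero] at h3
        exact absurd h3 (not_lt.2 (abs_nonneg _))
      have h4 : |ξ t - -v / w| < ρ := by
        have e : v + ξ t * w = (ξ t - -v / w) * w := by field_simp; ring
        rw [e, abs_mul] at h3
        exact lt_of_mul_lt_mul_right h3 (abs_nonneg w)
      obtain ⟨h5, h6⟩ := abs_lt.1 h4
      have h7 := mul_lt_mul_of_pos_left h5 hJ
      have h8 := mul_lt_mul_of_pos_left h6 hJ
      obtain ⟨b1, b2⟩ := hξ t ht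
      have b3 := Int.floor_le (o + J * (-v / w) - ρ * J - 1)
      have b4 := Int.lt_floor_add_one (o + J * (-v / w) - ρ * J - 1)
      have b5 := Nat.le_ceil (2 * ρ * J)
      refine ⟨hT ht, h2, ?_, ?_⟩
      · have : (⌊o + J * (-v / w) - ρ * J - 1⌋ : ℝ) ≤ (A.loc t).1 := by linarith
        exact_mod_cast this
      · have : ((A.loc t).1 : ℝ) < ⌊o + J * (-v / w) - ρ * J - 1⌋ + (⌈2 * ρ * J⌉₊ + 2 : ℝ) := by
          linarith
        exact_mod_cast this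
    · have b6 := Nat.ceil_lt_add_one (show 0 ≤ 2 * ρ * J by positivity)
      have b7 : θ * J = 16 * (ρ * J) := by rw [hρ]; ring
      push_cast
      linarith
  have h2 : θ * J / 2 ≤ cnt T fun t => (∃ i, t i = a) ∧ ¬ |v + ξ t * w| < ρ * |w| := by
    have := cnt_or (S := T) (P := fun t => ∃ i, t i = a)
      (P1 := fun t => (∃ i, t i = a) ∧ |v + ξ t * w| < ρ * |w|)
      (P2 := fun t => (∃ i, t i = a) ∧ ¬ |v + ξ t * w| < ρ * |w|) fun t _ h => by tauto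
    linarith
  have h3 : ∀ t, ¬ |v + ξ t * w| < ρ * |w| → |ξ t| ≤ 1 →
      ρ ^ 2 / (2 * ρ ^ 2 + 3) * (v ^ 2 + w ^ 2) ≤ (v + ξ t * w) ^ 2 := fun t h hx => by
    have b1 : (ρ * |w|) ^ 2 ≤ |v + ξ t * w| ^ 2 :=
      pow_le_pow_left₀ (by positivity) (not_lt.1 h) 2
    rw [mul_pow, sq_abs, sq_abs] at b1
    have b2 : ξ t ^ 2 * w ^ 2 ≤ 1 * w ^ 2 :=
      mul_le_mul_of_nonneg_right ((sq_le_one_iff_abs_le_one _).2 hx) (sq_nonneg w)
    have b3 : v ^ 2 ≤ 2 * (v + ξ t * w) ^ 2 + 2 * w ^ 2 := by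
      nlinarith [sq_nonneg (v + 2 * ξ t * w)]
    have b4 := mul_le_mul_of_nonneg_left b3 (sq_nonneg ρ)
    rw [div_mul_eq_mul_div, div_le_iff₀ (by positivity)]
    linarith
  have h4 : 0 ≤ ρ ^ 2 / (2 * ρ ^ 2 + 3) * (v ^ 2 + w ^ 2) := by positivity
  calc _ = θ * J / 2 * (ρ ^ 2 / (2 * ρ ^ 2 + 3) * (v ^ 2 + w ^ 2)) := by ring
    _ ≤ _ := mul_le_mul_of_nonneg_right h2 h4
    _ = ∑ t ∈ T with (∃ i, t i = a) ∧ ¬ |v + ξ t * w| < ρ * |w|,
          ρ ^ 2 / (2 * ρ ^ 2 + 3) * (v ^ 2 + w ^ 2) := by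
        rw [sum_const, nsmul_eq_mul]
        unfold cnt
        congr
    _ ≤ ∑ t ∈ T with (∃ i, t i = a) ∧ ¬ |v + ξ t * w| < ρ * |w|, (v + ξ t * w) ^ 2 :=
        sum_le_sum fun t ht => h3 t (mem_filter.1 ht).2.2 (hξ1 t (mem_filter.1 ht).1)
    _ ≤ _ := sum_le_sum_of_subset_of_nonneg (fun t ht =>
        mem_filter.2 ⟨(mem_filter.1 ht).1, (mem_filter.1 ht).2.1⟩) fun _ _ _ => sq_nonneg _

/-- rank bound on a core -/
theorem core (K : ℝ) {δ : ℝ} (hδ : 0 < δ) : ∃ D j0 : ℕ, ∀ (ι : Type) (A : Arr ι) (Q : Bx), A.Ok →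
    j0 ≤ Q.j → (#(lines (A.TB Q)) : ℝ) ≤ K * 2 ^ Q.j → δ * 4 ^ Q.j ≤ #(A.TB Q) →
    ∃ T1 ⊆ A.TB Q, δ / 2 * 4 ^ Q.j ≤ #T1 ∧ ∀ g : Fin D → (ι → ℝ) × (ι → ℝ),
      (∀ e, g e ∈ Flex A.x A.s T1) → ∃ a : Fin D → ℝ, a ≠ 0 ∧ ∀ y ∈ lines T1,
        ∑ e, a e * (g e).1 y = 0 ∧ ∑ e, a e * (g e).2 y = 0 := by
  obtain ⟨K', hK, hK'⟩ : ∃ K' : ℝ, K ≤ K' ∧ 0 < K' :=
    ⟨max K 1, le_max_left _ _, one_pos.trans_le (le_max_right _ _)⟩
  obtain ⟨θ, hθ, hθK⟩ : ∃ θ : ℝ, 0 < θ ∧ θ * K' = δ / 2 :=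
    ⟨δ / 2 / K', by positivity, div_mul_cancel₀ _ hK'.ne'⟩
  obtain ⟨c, hc, hce⟩ : ∃ c : ℝ, 0 < c ∧ c = θ / 2 * ((θ / 16) ^ 2 / (2 * (θ / 16) ^ 2 + 3)) :=
    ⟨_, by positivity, rfl⟩
  obtain ⟨D, hD⟩ := exists_nat_gt (400 * K' ^ 2 / c ^ 2)
  obtain ⟨j0, hj0⟩ := pow_unbounded_of_one_lt (24 / θ) (one_lt_two (α := ℝ))
  refine ⟨D, j0, fun ι A Q hA hj hn hd => ?_⟩
  obtain ⟨J, hJe⟩ : ∃ J : ℝ, J = 2 ^ Q.j := ⟨_, rfl⟩
  have hJ : 0 < J := by rw [hJe]; positivity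
  have hJ4 : (4 : ℝ) ^ Q.j = J ^ 2 := by
    rw [hJe, ← pow_mul, mul_comm, pow_mul]
    norm_num
  have hθJ : 24 ≤ θ * J := by
    have h1 : (2 : ℝ) ^ j0 ≤ J := hJe ▸ pow_le_pow_right₀ one_le_two hj
    have h2 := (div_lt_iff₀ hθ).1 (hj0.trans_le h1)
    linarith
  rw [← hJe] at hn
  replace hn := hn.trans (mul_le_mul_of_nonneg_right hK hJ.le)
  obtain ⟨T1, hs, h1, h2⟩ := rank_prune (A.TB Q) (mul_pos hθ hJ).le
  have hT : T1 ⊆ A.T := hs.trans (TB_sub Q)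
  refine ⟨T1, hs, ?_, fun g hg => ?_⟩
  · have h3 := mul_le_mul_of_nonneg_left hn (mul_pos hθ hJ).le
    have h4 : θ * J * (K' * J) = δ / 2 * J ^ 2 := by rw [← hθK]; ring
    rw [hJ4] at hd ⊢
    linarith
  by_contra hne
  choose! X Y hX using hA.vtx
  obtain ⟨o, ho⟩ : ∃ o : ℝ, o = Q.o.1 := ⟨_, rfl⟩
  let ξ : Tri ι → ℝ := fun t => (X t - o) / J
  have hξ : ∀ t, o + J * ξ t = X t := fun t => by
    simp only [ξ]
    field_simp
    ring
  have hξ1 : ∀ t ∈ T1, |ξ t| ≤ 1 := fun t ht => by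
    have a1 := mem_Ico.1 (mem_product.1 (mem_filter.1 (hs ht)).2).1
    have a2 : o ≤ (A.loc t).1 := by
      rw [ho]
      exact_mod_cast a1.1
    have a3 : ((A.loc t).1 : ℝ) + 1 ≤ o + J := by
      have : (A.loc t).1 + 1 ≤ Q.o.1 + 2 ^ Q.j := by
        have := a1.2
        simp only [Bx.o]
        linarith
      rw [ho, hJe]
      exact_mod_cast this
    obtain ⟨-, a4, a5, -⟩ := hX t (hT ht)
    rw [abs_div, abs_of_pos hJ, div_le_one hJ, abs_le]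
    constructor <;> linarith
  let G : Fin D → ι × Fin 2 → ℝ := fun e p =>
    if p.2 = 0 then (g e).1 p.1 + o * (g e).2 p.1 else J * (g e).2 p.1
  have G0 : ∀ e a, G e (a, 0) = (g e).1 a + o * (g e).2 a := fun e a => if_pos rfl
  have G1 : ∀ e a, G e (a, 1) = J * (g e).2 a := fun e a => if_neg one_ne_zero
  obtain ⟨M, hM⟩ := rank_gs (lines T1 ×ˢ univ) G fun a ha => by
    by_contra h0
    refine hne ⟨a, h0, fun y hy => ?_⟩
    have a0 := ha (y, 0) (mem_product.2 ⟨hy, mem_univ _⟩)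
    have a1 := ha (y, 1) (mem_product.2 ⟨hy, mem_univ _⟩)
    simp only [G0, G1] at a0 a1
    have a2 : ∑ e, a e * (g e).2 y = 0 := by
      refine (mul_eq_zero.1 ?_).resolve_left hJ.ne'
      rw [mul_sum, ← a1]
      exact sum_congr rfl fun e _ => by ring
    refine ⟨?_, a2⟩
    have a3 : ∑ e, a e * ((g e).1 y + o * (g e).2 y) =
        ∑ e, a e * (g e).1 y + o * ∑ e, a e * (g e).2 y := by
      rw [mul_sum, ← sum_add_distrib]
      exact sum_congr rfl fun e _ => by ring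
    rw [a3, a2, mul_zero, add_zero] at a0
    exact a0
  have hG : ∀ e, ∀ t ∈ T1, ∑ i, co A.x t i * (G e (t i, 0) + ξ t * G e (t i, 1)) = 0 :=
    fun e t ht => by
      have a1 := hg e t ht
      rw [flex_eq (hX t (hT ht)).1, ← hξ t] at a1
      rw [← a1]
      exact sum_congr rfl fun i _ => by rw [G0, G1]; ring
  have key := rank_main (L := lines T1) (fun t ht i => mem_lines.2 ⟨t, ht, i, rfl⟩)
    (hA.lin.mono hT) (fun t ht u hu i j e => hA.cls (hT ht) (hT hu) e)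
    (fun t ht i => hA.co_bd (hT ht) i) hξ1 (mul_pos hc hJ) (fun a ha v w => by
      rw [hce]
      exact rank_loc hA hT hJ hθ hθJ (o := o) (fun t ht => by
        rw [hξ]
        exact ⟨(hX t (hT ht)).2.1, (hX t (hT ht)).2.2.1⟩) hξ1 (h2 a ha) v w) hM fun e t ht => by
      calc _ = ∑ f, M e f * ∑ i, co A.x t i * (G f (t i, 0) + ξ t * G f (t i, 1)) := by
            simp only [mul_sum, ← sum_add_distrib]
            rw [sum_comm]
            exact sum_congr rfl fun f _ => sum_congr rfl fun i _ => by ring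
        _ = 0 := sum_eq_zero fun f _ => by rw [hG f t ht, mul_zero]
  have h3 : (#(lines T1) : ℝ) ≤ K' * J :=
    le_trans (by exact_mod_cast card_le_card (lines_mono hs)) hn
  have h4 := pow_le_pow_left₀ (Nat.cast_nonneg _) h3 2
  have h5 := mul_lt_mul_of_pos_right ((div_lt_iff₀ (by positivity)).1 hD) (pow_pos hJ 2)
  nlinarith

end Pool.Agent.MP_38296a_co.H21

end FileRank

section FileGPs

set_option autoImplicit false

namespace Pool.Agent.MP_38296a_co.H21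

open Finset Filter Classical

section Count
variable {ι : Type} {A : Arr ι}

theorem gps_TB_le (h : A.Ok) (B : Bx) (P : Tri ι → Prop) : cnt (A.TB B) P ≤ 4 ^ B.j := by
  refine (cnt_le_card _ _).trans ?_
  rw [h.card_TB]
  calc ∑ p ∈ B.cells, A.occ p ≤ ∑ _p ∈ B.cells, (1 : ℝ) := by
        refine sum_le_sum fun p _ => ?_
        unfold Arr.occ ind
        split_ifs <;> norm_num
    _ = 4 ^ B.j := by simp [card_cells]

theorem gps_mem_Wn {p q : Cell} {l : ℕ} :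
    q ∈ Wn p l ↔ |q.1 - p.1| ≤ 2 * 2 ^ l ∧ |q.2 - p.2| ≤ 12 * 2 ^ l := by
  simp only [Wn, mem_product, mem_Icc, abs_le]
  omega

theorem gps_Wn_symm {p q : Cell} {l : ℕ} (h : q ∈ Wn p l) : p ∈ Wn q l := by
  rw [gps_mem_Wn] at h ⊢
  rwa [abs_sub_comm p.1, abs_sub_comm p.2]

theorem gps_box_sub {p : Cell} {l : ℕ} {t : Tri ι} (ht : t ∈ A.TW p l) :
    (anc l (A.loc t)).cells ⊆ Wn p l := by
  intro q hq
  obtain ⟨h1, h2⟩ := anc_close hq
  obtain ⟨-, h3, h4⟩ := mem_filter.1 ht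
  have h5 : (0 : ℤ) < 2 ^ l := by positivity
  rw [gps_mem_Wn]
  rw [abs_lt] at h1 h2
  rw [abs_le] at h3 h4
  rw [abs_le, abs_le]
  omega

theorem gps_avg (p : Cell) (l : ℕ) (P : Tri ι → Prop) :
    4 ^ l * cnt (A.TW p l) P ≤ ∑ q ∈ Wn p l, cnt (A.TB (anc l q)) P := by
  calc 4 ^ l * cnt (A.TW p l) P = ∑ _t ∈ {t ∈ A.TW p l | P t}, (4 : ℝ) ^ l := by
        simp [cnt, mul_comm]
    _ ≤ ∑ t ∈ {t ∈ A.TW p l | P t}, ∑ q ∈ Wn p l, ind (q ∈ (anc l (A.loc t)).cells) := by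
        refine sum_le_sum fun t ht => ?_
        rw [← cnt_eq_sum]
        have h1 : cnt (anc l (A.loc t)).cells (fun _ => True) = 4 ^ l := by
          simp [cnt, card_cells, anc]
        rw [← h1]
        exact cnt_mono fun q hq _ => ⟨gps_box_sub (mem_filter.1 ht).1 hq, hq⟩
    _ = ∑ q ∈ Wn p l, ∑ t ∈ {t ∈ A.TW p l | P t}, ind (q ∈ (anc l (A.loc t)).cells) := sum_comm
    _ ≤ _ := by
        refine sum_le_sum fun q _ => ?_
        rw [← cnt_eq_sum]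
        refine cnt_mono fun t ht hq => ⟨mem_filter.2 ⟨TW_sub p l (mem_filter.1 ht).1, ?_⟩,
          (mem_filter.1 ht).2⟩
        rw [anc_eq le_rfl hq]
        exact mem_anc _ _

/-- many zeros in a window give many boxes with many zeros -/
theorem gps_many (h : A.Ok) {p : Cell} {l : ℕ} {P : Tri ι → Prop} {η : ℝ} (hη : 0 < η)
    (hP : η * 4 ^ l ≤ cnt (A.TW p l) P) :
    η / 2 * 4 ^ l ≤ cnt (Wn p l) fun q => η / 250 * 4 ^ l ≤ cnt (A.TB (anc l q)) P := by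
  have h4 : (0 : ℝ) < 4 ^ l := by positivity
  have h1 : ∑ q ∈ Wn p l, cnt (A.TB (anc l q)) P ≤ ∑ q ∈ Wn p l,
      (4 ^ l * ind (η / 250 * 4 ^ l ≤ cnt (A.TB (anc l q)) P) + η / 250 * 4 ^ l) := by
    refine sum_le_sum fun q _ => ?_
    unfold ind
    split_ifs with k
    · have := gps_TB_le h (anc l q) P
      have e : (anc l q).j = l := rfl
      rw [e] at this
      have : 0 ≤ η / 250 * 4 ^ l := by positivity
      linarith
    · linarith [not_le.1 k]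
  rw [sum_add_distrib, ← mul_sum, ← cnt_eq_sum, sum_const, nsmul_eq_mul] at h1
  have h2 := gps_avg (A := A) p l P
  have h3 : (#(Wn p l) : ℝ) * (η / 250 * 4 ^ l) ≤ 125 * 4 ^ l * (η / 250 * 4 ^ l) :=
    mul_le_mul_of_nonneg_right (card_Wn p l) (by positivity)
  have h5 := mul_le_mul_of_nonneg_left hP h4.le
  refine le_of_mul_le_mul_left ?_ h4
  nlinarith

end Count

theorem gps_dc (Q : Bx) (l : ℕ) {B G : Cell → Prop} {c : ℝ}
    (h : ∀ p ∈ Q.cells, B p → Wn p l ⊆ Q.cells ∧ c * 4 ^ l ≤ cnt (Wn p l) G) :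
    c * Q.fr B ≤ 125 * Q.fr G := by
  have h4 : (0 : ℝ) < 4 ^ l := by positivity
  have key : c * 4 ^ l * cnt Q.cells B ≤ 125 * 4 ^ l * cnt Q.cells G := by
    calc c * 4 ^ l * cnt Q.cells B = ∑ _p ∈ {p ∈ Q.cells | B p}, c * 4 ^ l := by
          simp [cnt, mul_comm]
      _ ≤ ∑ p ∈ {p ∈ Q.cells | B p}, ∑ q ∈ {q ∈ Q.cells | G q}, ind (q ∈ Wn p l) := by
          refine sum_le_sum fun p hp => ?_
          obtain ⟨h1, h2⟩ := h p (mem_filter.1 hp).1 (mem_filter.1 hp).2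
          rw [← cnt_eq_sum]
          exact h2.trans (cnt_mono fun q a b => ⟨mem_filter.2 ⟨h1 a, b⟩, a⟩)
      _ = ∑ q ∈ {q ∈ Q.cells | G q}, ∑ p ∈ {p ∈ Q.cells | B p}, ind (q ∈ Wn p l) := sum_comm
      _ ≤ ∑ _q ∈ {q ∈ Q.cells | G q}, (125 * 4 ^ l : ℝ) := by
          refine sum_le_sum fun q _ => ?_
          rw [← cnt_eq_sum]
          refine le_trans ?_ ((cnt_le_card (Wn q l) fun _ => True).trans (card_Wn q l))
          exact cnt_mono fun p _ b => ⟨gps_Wn_symm b, trivial⟩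
      _ = 125 * 4 ^ l * cnt Q.cells G := by simp [cnt, mul_comm]
  have h5 : c * cnt Q.cells B ≤ 125 * cnt Q.cells G := by
    refine le_of_mul_le_mul_left ?_ h4
    linarith
  unfold Bx.fr
  rw [← mul_div_assoc, ← mul_div_assoc]
  exact div_le_div_of_nonneg_right h5 (by positivity)

/-! ### Polynomials over germs -/

/-- the generators of the span of labels -/
def gps_gen {ι : Type} {D : ℕ} (lab : ι → Fin D → ℝ) (o : Option (Fin 3 × Fin D)) (t : Tri ι) :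
    ℝ := o.elim 1 fun e => lab (t e.1) e.2

theorem gps_rep {ι : Type} {D : ℕ} (lab : ι → Fin D → ℝ) (N : ℕ) {F : Tri ι → ℝ}
    (hF : F ∈ LV3 lab ^ N) : ∃ c : (Fin N → Option (Fin 3 × Fin D)) → ℝ,
      ∀ t, F t = ∑ w, c w * ∏ i, gps_gen lab (w i) t := by
  have key : ∀ N : ℕ, LV3 lab ^ N ≤ Submodule.span ℝ
      (Set.range fun w : Fin N → Option (Fin 3 × Fin D) => ∏ i, gps_gen lab (w i)) := by
    intro N
    induction N with
    | zero =>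
      rw [pow_zero, Submodule.one_eq_span]
      exact Submodule.span_mono (Set.singleton_subset_iff.2 ⟨fun i => i.elim0, by simp⟩)
    | succ N ih =>
      rw [pow_succ]
      refine (mul_le_mul_left ih _).trans ?_
      rw [LV3, Submodule.span_mul_span]
      refine Submodule.span_mono ?_
      rintro _ ⟨_, ⟨w, rfl⟩, g, hg, rfl⟩
      obtain ⟨o, rfl⟩ : ∃ o, g = gps_gen lab o := by
        rcases hg with rfl | ⟨e, rfl⟩
        · exact ⟨none, rfl⟩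
        · exact ⟨some e, rfl⟩
      exact ⟨Fin.snoc w o, by simp [Fin.prod_univ_castSucc]⟩
  obtain ⟨c, hc⟩ := (Submodule.mem_span_range_iff_exists_fun ℝ).1 (key N hF)
  refine ⟨c, fun t => ?_⟩
  rw [← hc]
  simp

/-- the field of germs -/
abbrev gps_K : Type := Germ ((hyperfilter ℕ : Ultrafilter ℕ) : Filter ℕ) ℝ

/-- the germ of a sequence -/
noncomputable def gps_g : (ℕ → ℝ) →+* gps_K := Germ.coeRingHom _

theorem gps_g_eq {f g : ℕ → ℝ} : gps_g f = gps_g g ↔ ∀ᶠ n in UU, f n = g n := Germ.coe_eq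

/-- evaluation along a sequence of triples -/
noncomputable def gps_ev {D : ℕ} (lab : ℕ → ℕ → Fin D → ℝ) (t : ℕ → Tri ℕ) :
    MvPolynomial (Fin 3 × Fin D) gps_K →+* gps_K :=
  MvPolynomial.eval fun e => gps_g fun n => lab n (t n e.1) e.2

/-- polynomials which vanish along all sequences of triples -/
noncomputable def gps_I {D : ℕ} (lab : ℕ → ℕ → Fin D → ℝ) (A : ℕ → Arr ℕ) :
    Ideal (MvPolynomial (Fin 3 × Fin D) gps_K) :=
  ⨅ t : {t : ℕ → Tri ℕ // ∀ᶠ n in UU, t n ∈ (A n).T}, RingHom.ker (gps_ev lab t.1)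

theorem gps_mem_I {D : ℕ} {lab : ℕ → ℕ → Fin D → ℝ} {A : ℕ → Arr ℕ}
    {G : MvPolynomial (Fin 3 × Fin D) gps_K} : G ∈ gps_I lab A ↔
      ∀ t : ℕ → Tri ℕ, (∀ᶠ n in UU, t n ∈ (A n).T) → gps_ev lab t G = 0 := by
  simp [gps_I, Submodule.mem_iInf, RingHom.mem_ker]

theorem gps_poly {D : ℕ} (lab : ℕ → ℕ → Fin D → ℝ) {N : ℕ} {F : ℕ → Tri ℕ → ℝ}
    (hF : ∀ᶠ n in UU, F n ∈ LV3 (lab n) ^ N) : ∃ G : MvPolynomial (Fin 3 × Fin D) gps_K,
      ∀ t : ℕ → Tri ℕ, gps_ev lab t G = gps_g fun n => F n (t n) := by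
  obtain ⟨c, hc⟩ := UU_choose (hF.mono fun n h => gps_rep (lab n) N h)
  refine ⟨∑ w : Fin N → Option (Fin 3 × Fin D), MvPolynomial.C (gps_g fun n => c n w) *
    ∏ i, (w i).elim 1 MvPolynomial.X, fun t => ?_⟩
  have h1 : ∀ o : Option (Fin 3 × Fin D), gps_ev lab t (o.elim 1 MvPolynomial.X) =
      gps_g fun n => gps_gen (lab n) o (t n) := by
    rintro (_ | e)
    · exact (map_one _).trans (map_one gps_g).symm
    · exact MvPolynomial.eval_X _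
  have h2 : ∀ a : gps_K, gps_ev lab t (MvPolynomial.C a) = a := fun a => MvPolynomial.eval_C _
  simp only [map_sum, map_mul, map_prod, h1, h2]
  simp only [← map_prod, ← map_mul, ← map_sum]
  refine gps_g_eq.2 (hc.mono fun n h => ?_)
  rw [h]
  simp

/-- one step of the selection -/
theorem gps_step {D : ℕ} {A : ℕ → Arr ℕ} {Q : ℕ → Bx} {P : (ℕ → Bx) → Prop} (hV : Val A Q)
    (hK : Keep Q P) (lab : ℕ → ℕ → Fin D → ℝ) {N : ℕ} {η : ℝ} (hη : 0 < η)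
    (h : ¬ Most Q fun n l p => GP (A n) (lab n) N η l p) :
    ∃ A' Q', Sub A' A ∧ In Q' Q ∧ Val A' Q' ∧ Dens A' Q' ∧ Keep Q' P ∧
      gps_I lab A < gps_I lab A' := by
  simp only [Most, not_forall] at h
  obtain ⟨θ, hθ, h⟩ := h
  rw [not_eventually] at h
  have hW : Freq Q fun n B => ∃ F : Tri ℕ → ℝ, F ∈ LV3 (lab n) ^ N ∧ (∃ t ∈ (A n).T, F t ≠ 0) ∧
      η / 250 * 4 ^ B.j ≤ cnt ((A n).TB B) fun t => F t = 0 := by
    refine ⟨η / 2 * (θ / 2) / 125, by positivity, ?_⟩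
    refine (h.and_eventually (most_in hV.big 0 (θ / 2) (by positivity))).mono ?_
    rintro l ⟨h1, h2⟩
    filter_upwards [UU_not h1, h2] with n a1 a2
    have a3 := fr_or (Q := Q n) (P := fun p => ¬ GP (A n) (lab n) N η l p)
      (P1 := fun p => ¬ GP (A n) (lab n) N η l p ∧ Wn p l ⊆ (Q n).cells)
      (P2 := fun p => ¬ (l + 0 ≤ (Q n).j ∧ Wn p l ⊆ (Q n).cells)) fun p _ hp => by
        by_cases k : Wn p l ⊆ (Q n).cells
        · exact Or.inl ⟨hp, k⟩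
        · exact Or.inr fun k' => k k'.2
    have a4 := gps_dc (Q n) l (c := η / 2)
      (B := fun p => ¬ GP (A n) (lab n) N η l p ∧ Wn p l ⊆ (Q n).cells)
      (G := fun q => ∃ F : Tri ℕ → ℝ, F ∈ LV3 (lab n) ^ N ∧ (∃ t ∈ (A n).T, F t ≠ 0) ∧
        η / 250 * 4 ^ (anc l q).j ≤ cnt ((A n).TB (anc l q)) fun t => F t = 0) (by
      rintro p _ ⟨b1, b2⟩
      refine ⟨b2, ?_⟩
      simp only [GP, not_forall] at b1
      obtain ⟨F, c1, c2, t, c3, c4⟩ := b1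
      exact (gps_many (hV.ok n) hη c2).trans
        (cnt_mono fun q d1 d2 => ⟨d1, F, c1, ⟨t, c3, c4⟩, d2⟩))
    have a5 : θ / 2 ≤ (Q n).fr fun p => ¬ GP (A n) (lab n) N η l p ∧ Wn p l ⊆ (Q n).cells := by
      linarith [not_le.1 a1]
    have a6 := mul_le_mul_of_nonneg_left a5 (by positivity : 0 ≤ η / 2)
    rw [div_le_iff₀ (by norm_num)]
    linarith
  obtain ⟨Q', q1, q2, q3, q4, -, -⟩ := sel (M := Empty) (M' := Empty) hV hK.self hW
    (fun m => m.elim) (fun m => m.elim) (fun m => m.elim) fun m => m.elim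
  obtain ⟨F, hF⟩ := UU_choose q4
  have hs : Sub (fun n => (A n).res {t ∈ (A n).T | F n t = 0}) A :=
    fun n => ⟨_, filter_subset _ _, rfl⟩
  obtain ⟨G, hG⟩ := gps_poly lab (hF.mono fun n a => a.1)
  refine ⟨_, Q', hs, q1, q2.sub hs, ⟨η / 250, by positivity, hF.mono fun n a => a.2.2.trans ?_⟩,
    q3, lt_of_le_of_ne (fun H hH => ?_) fun e => ?_⟩
  · refine le_trans ?_ (cnt_le_card _ fun _ => True)
    exact cnt_mono fun t a1 a2 => ⟨mem_filter.2 ⟨mem_filter.2 ⟨(mem_filter.1 a1).1, a2⟩,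
      (mem_filter.1 a1).2⟩, trivial⟩
  · rw [gps_mem_I] at hH ⊢
    exact fun t ht => hH t (ht.mono fun n a => (mem_filter.1 a).1)
  · have h1 : G ∈ gps_I lab A := by
      rw [e, gps_mem_I]
      intro t ht
      rw [hG, ← map_zero gps_g]
      exact gps_g_eq.2 (ht.mono fun n a => (mem_filter.1 a).2)
    obtain ⟨t, ht⟩ := UU_choose (hF.mono fun n a => a.2.1)
    have h2 := gps_mem_I.1 h1 t (ht.mono fun n a => a.1)
    rw [hG, ← map_zero gps_g] at h2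
    obtain ⟨n, b1, b2⟩ := (ht.and (gps_g_eq.1 h2)).exists
    exact b1.2 b2

/-- selection of a state in general position -/
theorem gp_sel {D : ℕ} {A : ℕ → Arr ℕ} {Q : ℕ → Bx} {P : (ℕ → Bx) → Prop} (hV : Val A Q)
    (hD : Dens A Q) (hK : Keep Q P) (lab : ℕ → ℕ → Fin D → ℝ) :
    ∃ A' Q', Sub A' A ∧ In Q' Q ∧ Val A' Q' ∧ Dens A' Q' ∧ P Q' ∧
      ∀ N (η : ℝ), 0 < η → Most Q' fun n l p => GP (A' n) (lab n) N η l p := by
  obtain ⟨_, ⟨A', Q', h1, h2, h3, h4, h5, rfl⟩, hm⟩ := set_has_maximal_iff_noetherian.2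
    (inferInstance : IsNoetherianRing (MvPolynomial (Fin 3 × Fin D) gps_K))
    {I | ∃ A' Q', Sub A' A ∧ In Q' Q ∧ Val A' Q' ∧ Dens A' Q' ∧ Keep Q' P ∧ I = gps_I lab A'}
    ⟨_, A, Q, Sub.refl A, In.refl Q, hV, hD, hK, rfl⟩
  refine ⟨A', Q', h1, h2, h3, h4, h5.holds, fun N η hη => ?_⟩
  by_contra h
  obtain ⟨A'', Q'', k1, k2, k3, k4, k5, k6⟩ := gps_step h3 h5 lab hη h
  exact hm _ ⟨A'', Q'', k1.trans h1, k2.trans h2, k3, k4, k5, rfl⟩ k6

theorem gps_GP_mono {ι : Type} {D : ℕ} {A : Arr ι} {lab : ι → Fin D → ℝ} {N l : ℕ} {η η' : ℝ}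
    {p : Cell} (h : GP A lab N η l p) (e : η ≤ η') : GP A lab N η' l p := fun F hF k =>
  h F hF ((mul_le_mul_of_nonneg_right e (by positivity)).trans k)

/-- from a labelled state to a regular state -/
theorem gug {M : Type} [Countable M] {D : ℕ} {A : ℕ → Arr ℕ} {Q : ℕ → Bx} {P : (ℕ → Bx) → Prop}
    (hV : Val A Q) (hD : Dens A Q) (hK : Keep Q P) {lab : ℕ → ℕ → Fin D → ℝ}
    (hx : ∀ n, (A n).x ∈ LV (lab n) ∧ (A n).s ∈ LV (lab n))
    (hg : ∀ r, Tight Q fun n c p => Gap (A n).x ((A n).TS p r) c)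
    (R : M → ℕ → ℕ → Cell → Prop) (hR : ∀ m, Tight Q (R m)) :
    ∃ A' Q', Sub A' A ∧ In Q' Q ∧ Reg A' Q' lab ∧ P Q' ∧ ∀ m, STight Q' (R m) := by
  obtain ⟨A', Q1, h1, h2, h3, h4, ⟨h5, h6, h7⟩, h8⟩ := gp_sel hV hD
    (hK.self.and ((Keep.all fun r => keep_tight (hg r)).and (Keep.all fun m => keep_tight (hR m))))
    lab
  obtain ⟨Q', k1, k2, k3, k4⟩ := mk_good (M' := (ℕ × ℕ × ℕ) ⊕ ℕ ⊕ M) h3 h4 h5
    (Sum.elim (fun z n l p => GP (A' n) (lab n) z.1 (1 / ((z.2.2 : ℝ) + 1)) (l + z.2.1) p)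
      (Sum.elim (fun l n c p => Gap (A' n).x ((A' n).TW p l) c) R)) (by
      rintro (z | l | m)
      · exact (h8 z.1 _ (by positivity)).tight z.2.1
      · refine (h6 (5 * 2 ^ l)).mono fun c => ⟨c, Eventually.of_forall fun n p _ a => ?_⟩
        obtain ⟨T, e1, e2⟩ := h1 n
        simp only [Sum.elim_inr, Sum.elim_inl, e2]
        refine Gap.mono (x := (A n).x) a (fun t ht => TW_sub_TS p l ?_) le_rfl
        exact mem_filter.2 ⟨e1 (mem_filter.1 ht).1, (mem_filter.1 ht).2⟩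
      · exact h7 m)
  refine ⟨A', Q', h1, k1.trans h2, ⟨k2, fun n => ?_, fun N L η hη => ?_,
    fun l => k4 (.inr (.inl l))⟩, k3, fun m => k4 (.inr (.inr m))⟩
  · obtain ⟨T, -, e2⟩ := h1 n
    rw [e2]
    exact hx n
  · obtain ⟨m, hm⟩ := exists_nat_one_div_lt hη
    exact (k4 (.inl (N, L, m))).mono fun c =>
      ⟨c, Eventually.of_forall fun n p a => gps_GP_mono a hm.le⟩

end Pool.Agent.MP_38296a_co.H21

end FileGPs

section FileReg

set_option autoImplicit false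

namespace Pool.Agent.MP_38296a_co.H21

open Finset Filter Classical

variable {D : ℕ} {A : ℕ → Arr ℕ} {Q : ℕ → Bx} {lab : ℕ → ℕ → Fin D → ℝ}

theorem Reg.gp_most (h : Reg A Q lab) (N : ℕ) {η : ℝ} (hη : 0 < η) :
    Most Q fun n l p => GP (A n) (lab n) N η l p := by
  obtain ⟨c, hc⟩ := (h.gp N 0 (η / 250) (by positivity)).most h.good.val.big
    (θ := η / 70) (by positivity)
  refine hc.mono ?_
  filter_upwards [eventually_ge_atTop c] with l hl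
  refine Eventually.of_forall fun n p _ hp F hF hz => ?_
  obtain ⟨q, _, hq, hq2⟩ := (h.good.val.ok n).amplify (l1 := c) hl hη hz hp
  exact hq F hF hq2

theorem Reg.gp_top (h : Reg A Q lab) (N : ℕ) {η : ℝ} (hη : 0 < η) : ∀ᶠ n in UU,
    ∀ F ∈ LV3 (lab n) ^ N, η * 4 ^ (Q n).j ≤ cnt ((A n).TB (Q n)) (fun t => F t = 0) →
      ∀ t ∈ (A n).T, F t = 0 := by
  obtain ⟨l, hl⟩ := (h.gp_most N (η := η / 2) (by positivity) (η / 140) (by positivity)).exists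
  filter_upwards [hl, h.good.val.big.eventually (eventually_ge_atTop l)] with n h1 h2 F hF hz
  have h3 := (h.good.val.ok n).amplify_top h2 hη hz
  by_contra hcon
  have h4 : (Q n).fr (fun q => η / 2 * 4 ^ l ≤ cnt ((A n).TW q l) fun t => F t = 0) ≤
      (Q n).fr (fun p => ¬ GP (A n) (lab n) N (η / 2) l p) :=
    fr_mono fun p _ hp hG => hcon (hG F hF hp)
  linarith

theorem Sp.mono {ι : Type} {B : Arr ι} {lb : ι → Fin D → ℝ} {N M : ℕ} {β : Fin 3} (h : Sp B lb M β)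
    (hN : N ≤ M) : Sp B lb N β :=
  fun f hf => h f (LV_pow_mono hN hf)

theorem reg_om3 {ι : Type} (x f : ι → ℝ) (t : Tri ι) (β : Fin 3) :
    Om x f t = co x t β * f (t β) + co x t (β + 1) * f (t (β + 1)) +
      co x t (β + 2) * f (t (β + 2)) := by
  have e : ∀ g : Fin 3 → ℝ, ∑ i, g i = g β + g (β + 1) + g (β + 2) := by
    intro g
    rw [Fin.sum_univ_three]
    fin_cases β
    · rfl
    · show g 0 + g 1 + g 2 = g 1 + g 2 + g 0
      ring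
    · show g 0 + g 1 + g 2 = g 2 + g 0 + g 1
      ring
  exact e _

theorem reg_cases (β i : Fin 3) : i = β ∨ i = β + 1 ∨ i = β + 2 := by
  revert β i; decide

theorem reg_co_ne {ι : Type} {B : Arr ι} (h : B.Ok) {t : Tri ι} (ht : t ∈ B.T) (i : Fin 3) :
    co B.x t i ≠ 0 := by
  intro e
  have := (h.co_bd ht i).1
  rw [e, abs_zero] at this
  norm_num at this

theorem reg_cl_sub {ι : Type} (T : Finset (Tri ι)) (i : Fin 3) : cl T i ⊆ lines T := by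
  intro a ha
  obtain ⟨t, ht, e⟩ := mem_cl.1 ha
  exact mem_lines.2 ⟨t, ht, i, e⟩

theorem reg_big (hj : Tendsto (fun n => (Q n).j) UU atTop) {δ : ℝ} (hδ : 0 < δ) (m : ℝ) :
    ∀ᶠ n in UU, m ≤ δ * 4 ^ (Q n).j := by
  have h1 : Tendsto (fun j : ℕ => δ * (4 : ℝ) ^ j) atTop atTop :=
    (tendsto_pow_atTop_atTop_of_one_lt (by norm_num)).const_mul_atTop hδ
  exact (h1.comp hj).eventually (eventually_ge_atTop m)

/-- either a rich configuration or a spanning class -/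
theorem Reg.sp_dich (h : Reg A Q lab) {k : ℕ} (hk : ∀ n, ¬ Rich k (A n).T) (N : ℕ) :
    ∃ β, ∀ᶠ n in UU, Sp (A n) (lab n) N β := by
  by_contra hcon
  have h0 : ∀ β, ∀ᶠ n in UU, ¬ Sp (A n) (lab n) N β := fun β => UU_not fun e => hcon ⟨β, e⟩
  obtain ⟨K, hK1, hK⟩ := h.good.val.lines_le
  obtain ⟨δ, hδ, hd, -⟩ := h.good.dens
  obtain ⟨n0, hn0⟩ := c3 k (D := (δ / 2) ^ 3 / K ^ 6) (by positivity)
  have hev := (eventually_all.2 h0).and (hK.and (hd.and ((h.gp_top N (η := δ / 6)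
    (by positivity)).and (reg_big h.good.val.big (δ := δ / 2) (by positivity) n0))))
  obtain ⟨n, h1, ⟨h2, -⟩, h3, h4, h5⟩ := hev.exists
  have hok := h.good.val.ok n
  have h6 : ∀ β : Fin 3, ∃ f : ℕ → ℝ, f ∈ Ker (A n).x (A n).T ∧ (∀ t ∈ (A n).T, f (t β) = 0) ∧
      cnt ((A n).TB (Q n)) (fun t => f (t (β + 1)) = 0) ≤ δ / 6 * 4 ^ (Q n).j := by
    intro β
    have h7 := h1 β
    unfold Sp at h7
    push Not at h7
    obtain ⟨f, hf1, hf2, hf3, t, ht, i, hi⟩ := h7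
    refine ⟨f, hf2, hf3, ?_⟩
    by_contra hlt
    have h8 := h4 _ (comp_mem_LV3 hf1 (β + 1)) (le_of_lt (not_le.1 hlt))
    have h9 : f (t (β + 1)) = 0 := h8 t ht
    have h10 : Om (A n).x f t = 0 := hf2 t ht
    rw [reg_om3 _ _ _ β, hf3 t ht, h9] at h10
    have h11 : f (t (β + 2)) = 0 := by
      have := reg_co_ne hok ht (β + 2)
      simpa [this] using h10
    rcases reg_cases β i with e | e | e <;> rw [e] at hi
    · exact hi (hf3 t ht)
    · exact hi h9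
    · exact hi h11
  choose f hf1 hf2 hf3 using h6
  set T' : Finset (Tri ℕ) := {t ∈ (A n).TB (Q n) | ∀ β, f β (t (β + 1)) ≠ 0} with hT'
  have hsub : T' ⊆ (A n).TB (Q n) := filter_subset _ _
  have hsub2 : T' ⊆ (A n).T := hsub.trans (TB_sub _)
  have hcard : δ / 2 * 4 ^ (Q n).j ≤ (#T' : ℝ) := by
    have e1 := cnt_add_not ((A n).TB (Q n)) fun t => ∀ β, f β (t (β + 1)) ≠ 0
    have e2 : cnt ((A n).TB (Q n)) (fun t => ¬ ∀ β, f β (t (β + 1)) ≠ 0) ≤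
        cnt ((A n).TB (Q n)) (fun t => f 0 (t (0 + 1)) = 0) +
          cnt ((A n).TB (Q n)) (fun t => f 1 (t (1 + 1)) = 0 ∨ f 2 (t (2 + 1)) = 0) := by
      refine cnt_or fun t _ ht => ?_
      push Not at ht
      obtain ⟨β, hβ⟩ := ht
      fin_cases β
      · exact Or.inl hβ
      · exact Or.inr (Or.inl hβ)
      · exact Or.inr (Or.inr hβ)
    have e3 : cnt ((A n).TB (Q n)) (fun t => f 1 (t (1 + 1)) = 0 ∨ f 2 (t (2 + 1)) = 0) ≤
        cnt ((A n).TB (Q n)) (fun t => f 1 (t (1 + 1)) = 0) +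
          cnt ((A n).TB (Q n)) (fun t => f 2 (t (2 + 1)) = 0) := cnt_or fun t _ ht => ht
    have e4 : cnt ((A n).TB (Q n)) (fun t => ∀ β, f β (t (β + 1)) ≠ 0) = (#T' : ℝ) := by
      unfold cnt
      rw [hT']
      congr
    have := hf3 0
    have := hf3 1
    have := hf3 2
    linarith
  have hcl : ∀ i, #(cl T' i) ≤ #(lines ((A n).TB (Q n))) := fun i =>
    card_le_card ((reg_cl_sub T' i).trans (lines_mono hsub))
  have hcl' : ∀ i, (#(cl T' i) : ℝ) ≤ K * 2 ^ (Q n).j := fun i =>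
    le_trans (by exact_mod_cast hcl i) h2
  obtain ⟨η, hη, hc⟩ := hn0 #(lines ((A n).TB (Q n)))
  refine hk n ((hc ℕ T' (A n).x (A n).s f (hok.dual.mono hsub2) hcl ?_ ?_ ?_).mono hsub2)
  · have hK0 : 0 < K := by linarith
    have e1 : (#(cl T' 0) : ℝ) * #(cl T' 1) * #(cl T' 2) ≤ (K * 2 ^ (Q n).j) ^ 3 := by
      calc _ ≤ (K * 2 ^ (Q n).j) * (K * 2 ^ (Q n).j) * (K * 2 ^ (Q n).j) := by
            gcongr
            exacts [hcl' 0, hcl' 1, hcl' 2]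
        _ = _ := by ring
    have e2 : (4 : ℝ) ^ (Q n).j = (2 ^ (Q n).j) ^ 2 := by
      rw [← pow_mul, mul_comm, pow_mul]; norm_num
    calc _ ≤ (δ / 2) ^ 3 / K ^ 6 * ((K * 2 ^ (Q n).j) ^ 3) ^ 2 := by gcongr
      _ = (δ / 2 * 4 ^ (Q n).j) ^ 3 := by rw [e2]; field_simp
      _ ≤ _ := by gcongr
  · exact_mod_cast h5.trans hcard
  · intro t ht j
    have ht2 := hsub2 ht
    refine ⟨hf1 j t ht2, mul_ne_zero (reg_co_ne hok ht2 _) ((mem_filter.1 ht).2 j), ?_⟩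
    rw [hf2 j t ht2, mul_zero, abs_zero]
    positivity

theorem Reg.na (h : Reg A Q lab) {β : Fin 3} (hs : ∀ᶠ n in UU, Sp (A n) (lab n) 1 β) :
    NA A Q β := by
  intro η hη
  obtain ⟨l1, h1⟩ := (h.gp 1 0 (η / 250) (by positivity)).most h.good.val.big
    (θ := η / 140) (by positivity)
  obtain ⟨c, h2⟩ := (h.gap l1).most h.good.val.big (θ := η / 140) (by positivity)
  refine ⟨1 / (3 * c + 3), by positivity, (h1.and h2).mono ?_⟩
  filter_upwards [eventually_ge_atTop l1] with l hl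
  filter_upwards [hs] with n hn p _ hp y
  by_contra hlt
  have hok := h.good.val.ok n
  have hG : cnt (Wn p l) (fun q => ¬ (GP (A n) (lab n) 1 (η / 250) l1 q ∧
      Gap (A n).x ((A n).TW q l1) c)) ≤ η / 70 * 4 ^ l := by
    have e := cnt_or (S := Wn p l) (P := fun q => ¬ (GP (A n) (lab n) 1 (η / 250) l1 q ∧
      Gap (A n).x ((A n).TW q l1) c)) (P1 := fun q => ¬ GP (A n) (lab n) 1 (η / 250) (l1 + 0) q)
      (P2 := fun q => ¬ Gap (A n).x ((A n).TW q l1) c) fun q _ hq => not_and_or.1 hq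
    have e1 := hp.1
    have e2 := hp.2
    linarith
  obtain ⟨q, -, ⟨hq1, hq2⟩, hq3⟩ := hok.amplify hl hη (le_of_lt (not_le.1 hlt)) hG
  obtain ⟨t0, ht0, hy0⟩ := exists_of_cnt_pos (lt_of_lt_of_le (by positivity) hq3)
  set y0 := (A n).x (t0 β) with hy0d
  have hf : (A n).x - y0 • (1 : ℕ → ℝ) ∈ LV (lab n) ^ 1 := by
    rw [pow_one]
    exact Submodule.sub_mem _ (h.xs n).1 (Submodule.smul_mem _ _ one_mem_LV)
  have hz : η / 250 * 4 ^ l1 ≤ cnt ((A n).TW q l1)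
      (fun t => ((A n).x - y0 • (1 : ℕ → ℝ)) (t β) = 0) := by
    refine hq3.trans (cnt_mono fun t ht hy => ⟨ht, ?_⟩)
    by_contra hne
    have hne' : (A n).x (t β) ≠ (A n).x (t0 β) := by
      intro e
      apply hne
      simp [hy0d, e]
    have e1 := hq2 _ (mem_lines.2 ⟨t, ht, β, rfl⟩) _ (mem_lines.2 ⟨t0, ht0, β, rfl⟩) hne'
    have e2 : |(A n).x (t β) - (A n).x (t0 β)| ≤ 2 * (1 / (3 * c + 3)) := by
      have := abs_sub_le ((A n).x (t β)) y ((A n).x (t0 β))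
      rw [abs_sub_comm y] at this
      linarith
    have e3 : (c : ℝ) * (2 * (1 / (3 * c + 3))) < 1 := by
      rw [← mul_assoc, mul_one_div, div_lt_one (by positivity)]
      have : (0 : ℝ) ≤ c := by positivity
      linarith
    have e4 := mul_le_mul_of_nonneg_left e2 (show (0 : ℝ) ≤ c by positivity)
    linarith
  have h3 := hq1 _ (comp_mem_LV3 hf β) hz
  have hker : (A n).x - y0 • (1 : ℕ → ℝ) ∈ Ker (A n).x (A n).T :=
    Submodule.sub_mem _ (fun t _ => Om_x _ t) (Submodule.smul_mem _ _ fun t _ => Om_one _ t)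
  have h4 := hn _ hf hker h3 t0 (TW_sub _ _ ht0)
  apply reg_co_ne hok (TW_sub _ _ ht0) 0
  have e1 := h4 (0 + 1)
  have e2 := h4 (0 + 2)
  simp only [Pi.sub_apply, Pi.smul_apply, Pi.one_apply, smul_eq_mul, mul_one] at e1 e2
  unfold co
  linarith

/-- the solutions among the polynomial labels have bounded rank -/
theorem Reg.dim (h : Reg A Q lab) : ∃ E : ℕ, ∀ N, ∀ᶠ n in UU, ∀ g : Fin E → ℕ → ℝ,
    (∀ e, g e ∈ WN (A n) (lab n) N) →
      ∃ a : Fin E → ℝ, a ≠ 0 ∧ ∀ t ∈ (A n).T, ∀ i, ∑ e, a e * g e (t i) = 0 := by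
  obtain ⟨K, -, hK⟩ := h.good.val.lines_le
  obtain ⟨δ, hδ, hd, -⟩ := h.good.dens
  obtain ⟨E, j0, hE⟩ := core K hδ
  refine ⟨E, fun N => ?_⟩
  filter_upwards [hK, hd, h.gp_top N (η := δ / 2) (by positivity),
    h.good.val.big.eventually (eventually_ge_atTop j0)] with n h1 h2 h3 h4 g hg
  obtain ⟨T1, hT1, hc, hfl⟩ := hE ℕ (A n) (Q n) (h.good.val.ok n) h4 h1.1 h2
  obtain ⟨a, ha, hrel⟩ := hfl (fun e => (g e, 0)) fun e t ht => by
    have e1 : Om (A n).x (g e) t = 0 := (hg e).2 t (TB_sub _ (hT1 ht))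
    show Om (A n).x (g e) t + Om 0 (A n).s t = 0
    rw [e1]
    simp [Om, co]
  refine ⟨a, ha, fun t ht i => ?_⟩
  have hm : ∑ e, a e • g e ∈ LV (lab n) ^ N :=
    Submodule.sum_mem _ fun e _ => Submodule.smul_mem _ _ (hg e).1
  have h5 := h3 _ (comp_mem_LV3 hm i) (hc.trans ?_) t ht
  · simpa [Finset.sum_apply] using h5
  · have e1 : (#T1 : ℝ) = cnt T1 fun _ => True := by simp [cnt]
    rw [e1]
    refine cnt_mono fun u hu _ => ⟨hT1 hu, ?_⟩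
    have := (hrel (u i) (mem_lines.2 ⟨u, hu, i, rfl⟩)).1
    simpa [Finset.sum_apply] using this

/-- restriction to the lines of a system -/
noncomputable def reg_res (T : Finset (Tri ℕ)) : (ℕ → ℝ) →ₗ[ℝ] (lines T → ℝ) :=
  LinearMap.funLeft ℝ ℝ fun a : lines T => (a : ℕ)

theorem reg_rank {B : Arr ℕ} {lb : ℕ → Fin D → ℝ} {N E : ℕ} (h : ∀ g : Fin E → ℕ → ℝ,
    (∀ e, g e ∈ WN B lb N) → ∃ a : Fin E → ℝ, a ≠ 0 ∧ ∀ t ∈ B.T, ∀ i, ∑ e, a e * g e (t i) = 0) :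
    Module.finrank ℝ ((WN B lb N).map (reg_res B.T)) ≤ E := by
  obtain ⟨g, -, hg⟩ := span_of_dep (WN B lb N) (reg_res B.T) (D := E) fun g hg => by
    obtain ⟨a, ha, hr⟩ := h g hg
    refine ⟨a, ha, ?_⟩
    funext y
    obtain ⟨t, ht, i, e⟩ := mem_lines.1 y.2
    have := hr t ht i
    rw [e] at this
    simpa [reg_res, Finset.sum_apply, LinearMap.funLeft_apply] using this
  have hle : (WN B lb N).map (reg_res B.T) ≤
      Submodule.span ℝ (Set.range fun e => reg_res B.T (g e)) := by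
    rintro _ ⟨v, hv, rfl⟩
    obtain ⟨a, ha⟩ := hg v hv
    rw [ha]
    exact Submodule.sum_mem _ fun e _ => Submodule.smul_mem _ _
      (Submodule.subset_span ⟨e, rfl⟩)
  refine (Submodule.finrank_mono hle).trans ?_
  have := finrank_range_le_card (R := ℝ) fun e => reg_res B.T (g e)
  rw [Fintype.card_fin] at this
  exact this

theorem reg_WN_mono {B : Arr ℕ} {lb : ℕ → Fin D → ℝ} {N M : ℕ} (h : N ≤ M) :
    WN B lb N ≤ WN B lb M :=
  inf_le_inf_right _ (LV_pow_mono h)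

theorem reg_stab (h : Reg A Q lab) : ∃ N, 1 ≤ N ∧ ∀ᶠ n in UU, ∀ f ∈ WN (A n) (lab n) (N + 1),
    ∃ g ∈ WN (A n) (lab n) N, ∀ t ∈ (A n).T, ∀ i, f (t i) = g (t i) := by
  obtain ⟨E, hE⟩ := h.dim
  by_contra hcon
  have h0 : ∀ N : Fin (E + 1), ∀ᶠ n in UU, ¬ ∀ f ∈ WN (A n) (lab n) ((N : ℕ) + 1 + 1),
      ∃ g ∈ WN (A n) (lab n) ((N : ℕ) + 1), ∀ t ∈ (A n).T, ∀ i, f (t i) = g (t i) :=
    fun N => UU_not fun e => hcon ⟨N + 1, by omega, e⟩
  obtain ⟨n, h1, h2⟩ := ((eventually_all.2 h0).and (hE (E + 2))).exists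
  have h3 := reg_rank h2
  have h4 : ∀ N ≤ E + 1,
      N ≤ Module.finrank ℝ ((WN (A n) (lab n) (N + 1)).map (reg_res (A n).T)) := by
    intro N
    induction N with
    | zero => intro _; exact Nat.zero_le _
    | succ N ih =>
      intro hN
      have h5 := ih (by omega)
      have h6 : (WN (A n) (lab n) (N + 1)).map (reg_res (A n).T) <
          (WN (A n) (lab n) (N + 1 + 1)).map (reg_res (A n).T) := by
        refine lt_of_le_of_ne (Submodule.map_mono (reg_WN_mono (by omega))) fun e => ?_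
        apply h1 ⟨N, by omega⟩
        intro f hf
        have h7 : reg_res (A n).T f ∈ (WN (A n) (lab n) (N + 1)).map (reg_res (A n).T) := by
          rw [e]; exact ⟨f, hf, rfl⟩
        obtain ⟨g, hg, e2⟩ := h7
        refine ⟨g, hg, fun t ht i => ?_⟩
        exact (congrFun e2 ⟨t i, mem_lines.2 ⟨t, ht, i, rfl⟩⟩).symm
      have := Submodule.finrank_lt_finrank_of_lt h6
      omega
  have := h4 (E + 1) le_rfl
  have e : E + 1 + 1 = E + 2 := rfl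
  rw [e] at this
  omega

theorem Reg.st3 (h : Reg A Q lab) {k : ℕ} (hk : ∀ n, ¬ Rich k (A n).T)
    (hH : ∀ M l, STight Q fun n c p => Hof (A n).x (LV (lab n) ^ M) ((A n).TW p l) c) :
    ∃ N β, St3 k A Q lab N β := by
  obtain ⟨N, hN, hs⟩ := reg_stab h
  obtain ⟨β, hβ⟩ := h.sp_dich hk (N + 1)
  obtain ⟨E, hE⟩ := h.dim
  exact ⟨N, β, h, hH, hk, hN, h.na (hβ.mono fun n hn => hn.mono (by omega)), hβ, hs, E, hE N⟩

theorem St3.keep {k N : ℕ} {β : Fin 3} (h : St3 k A Q lab N β) :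
    Keep Q fun Q' => Val A Q' → St3 k A Q' lab N β := by
  have h1 := Keep.all (M := ℕ × ℕ) (P := fun m Q' => STight Q' fun n c p =>
    Hof (A n).x (LV (lab n) ^ m.1) ((A n).TW p m.2) c) fun m => keep_stight (h.hof m.1 m.2)
  refine (h.reg.keep.and h1).mono fun Q' hQ hV => ?_
  have hR := hQ.1 hV
  exact ⟨hR, fun M l => hQ.2 (M, l), h.poor, h.pos,
    hR.na (h.sp.mono fun n hn => hn.mono (by omega)), h.sp, h.stab, h.dim⟩

end Pool.Agent.MP_38296a_co.H21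

end FileReg

end

-- part MP_38296a_co.H21.Conc
section

section FileConc1

set_option autoImplicit false

namespace Pool.Agent.MP_38296a_co.H21

open Finset Filter Classical

theorem conc_max {α : Type} (S : Finset α) (g : α → ℝ) :
    ∃ r, 0 ≤ r ∧ (∀ a ∈ S, g a ≤ r) ∧ (r = 0 ∨ ∃ a ∈ S, g a = r) := by
  rcases S.eq_empty_or_nonempty with rfl | hS
  · exact ⟨0, le_rfl, fun a ha => absurd ha (notMem_empty a), Or.inl rfl⟩
  · obtain ⟨a, ha, h⟩ := exists_max_image S g hS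
    rcases le_total (g a) 0 with k | k
    · exact ⟨0, le_rfl, fun b hb => (h b hb).trans k, Or.inl rfl⟩
    · exact ⟨g a, k, h, Or.inr ⟨a, ha, rfl⟩⟩

theorem conc_union {α γ : Type} (S : Finset α) (U : Finset γ) (R : α → γ → Prop) :
    cnt U (fun p => ∃ a ∈ S, R a p) ≤ ∑ a ∈ S, cnt U (R a) := by
  rw [conn_B2_swap, cnt_eq_sum]
  refine sum_le_sum fun p _ => ?_
  unfold ind
  split_ifs with h
  · obtain ⟨a, ha, h⟩ := h
    unfold cnt
    exact_mod_cast card_pos.2 ⟨a, mem_filter.2 ⟨ha, h⟩⟩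
  · exact cnt_nonneg _ _

theorem conc_fr {U : Bx} {P : Cell → Prop} {θ : ℝ} :
    U.fr P ≤ θ ↔ cnt U.cells P ≤ θ * 4 ^ U.j := div_le_iff₀ (by positivity)

variable {ι : Type} {B : Arr ι} {D : ℕ} {lb : ι → Fin D → ℝ} {β : Fin 3}

theorem conc_mem_TB {U : Bx} {t : Tri ι} : t ∈ B.TB U ↔ t ∈ B.T ∧ B.loc t ∈ U.cells := mem_filter

theorem conc_line {S : Finset (Tri ι)} {t : Tri ι} (ht : t ∈ S) (i : Fin 3) : t i ∈ lines S :=
  mem_lines.2 ⟨t, ht, i, rfl⟩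

theorem conc_loc (h : B.Ok) (U : Bx) {P : Cell → Prop} {θ : ℝ} (hP : U.fr P ≤ θ) :
    cnt (B.TB U) (fun t => P (B.loc t)) ≤ θ * 4 ^ U.j :=
  (cnt_mono fun _ ht k => ⟨(conc_mem_TB.1 ht).1, (conc_mem_TB.1 ht).2, k⟩).trans
    ((h.cnt_loc U.cells P).trans (conc_fr.1 hP))

theorem conc_all {p : Cell} {l : ℕ} {δ : ℝ} (hd : δ * 4 ^ l ≤ #(B.TB (anc l p)))
    {P : Tri ι → Prop} (hP : ∀ t ∈ B.TW p l, P t) : δ * 4 ^ l ≤ cnt (B.TW p l) P := by
  refine hd.trans ?_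
  unfold cnt
  exact_mod_cast card_le_card fun t ht =>
    mem_filter.2 ⟨TB_anc_sub p l ht, hP t (TB_anc_sub p l ht)⟩

theorem conc_small {M l : ℕ} {c η τ : ℝ} {p : Cell} (hH : Hof B.x (LV lb ^ M) (B.TW p l) c)
    (hG : GP B lb M η l p) {f : ι → ℝ} (hf : f ∈ LV lb ^ M) (hτ : 0 ≤ τ)
    (h : η * 4 ^ l ≤ cnt (B.TW p l) fun t => |f (t β)| ≤ τ) :
    ∀ t ∈ B.TW p l, |f (t β)| ≤ c * τ := by
  obtain ⟨g, g1, g2, -, g3⟩ := hH (((B.TW p l).filter fun t => |f (t β)| ≤ τ).image fun t => t β)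
    (fun a ha => by
      obtain ⟨t, ht, rfl⟩ := mem_image.1 ha
      exact conc_line (mem_filter.1 ht).1 β) ∅ (empty_subset _) f hf τ hτ
    (fun a ha => by
      obtain ⟨t, ht, rfl⟩ := mem_image.1 ha
      exact (mem_filter.1 ht).2) fun t ht => absurd ht (notMem_empty t)
  have g4 := hG _ (comp_mem_LV3 g1 β) (h.trans (cnt_mono fun t ht k =>
    ⟨ht, g2 _ (mem_image_of_mem _ (mem_filter.2 ⟨ht, k⟩))⟩))
  intro t ht
  have := g3 _ (conc_line ht β)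
  rwa [g4 t (TW_sub p l ht), sub_zero] at this

theorem conc_trw {M l : ℕ} {c δ : ℝ} {p : Cell} (hx : B.x ∈ LV lb) (hS : Sp B lb M β)
    (hd : δ * 4 ^ l ≤ #(B.TB (anc l p))) (hG : GP B lb (M + 1) δ l p)
    (hH : Hof B.x (LV lb ^ M) (B.TW p l) c) : TrW B lb M β l c p := by
  intro f hf b hb h t ht i
  obtain ⟨g, g1, g2, g3, g4⟩ := hH ((B.TW p l).image fun t => t β)
    (fun a ha => by
      obtain ⟨t, ht, rfl⟩ := mem_image.1 ha
      exact conc_line ht β) _ Subset.rfl f hf b hb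
    (fun a ha => by
      obtain ⟨t, ht, rfl⟩ := mem_image.1 ha
      exact (h t ht).1) fun t ht => (h t ht).2
  have g5 := hG _ (Om_mem_LV3 hx g1) (conc_all hd g3)
  have g6 := hG _ (LV3_pow_mono (Nat.le_succ M) (comp_mem_LV3 g1 β))
    (conc_all hd fun t ht => g2 _ (mem_image_of_mem _ ht))
  have := g4 _ (conc_line ht i)
  rwa [hS g g1 g5 g6 t (TW_sub p l ht) i, sub_zero] at this

theorem conc_apw {N l : ℕ} {c δ : ℝ} {p : Cell} (hx : B.x ∈ LV lb)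
    (hS : ∀ f ∈ WN B lb (N + 1), ∃ g ∈ WN B lb N, ∀ t ∈ B.T, ∀ i, f (t i) = g (t i))
    (hd : δ * 4 ^ l ≤ #(B.TB (anc l p))) (hG : GP B lb (N + 1 + 1) δ l p)
    (hH : Hof B.x (LV lb ^ (N + 1)) (B.TW p l) c) : ApW B lb N l c p := by
  intro f hf b hb h
  obtain ⟨g, g1, -, g3, g4⟩ := hH ∅ (empty_subset _) _ Subset.rfl f hf b hb
    (fun a ha => absurd ha (notMem_empty a)) h
  obtain ⟨g', g5, g6⟩ := hS g ⟨g1, hG _ (Om_mem_LV3 hx g1) (conc_all hd g3)⟩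
  refine ⟨g', g5, fun t ht i => ?_⟩
  rw [← g6 t (TW_sub p l ht) i]
  exact g4 _ (conc_line ht i)

theorem conc_xi {U : Bx} {p : Cell} (hp : p ∈ U.cells) : |(U.z p).1| ≤ 1 := by
  have h := (conn_B2_cells.1 hp).1
  have hJ : (0 : ℝ) < 2 ^ U.j := by positivity
  simp only [Bx.z, Bx.o]
  push_cast
  rw [abs_div, abs_of_pos hJ, div_le_one hJ, abs_le]
  constructor <;> linarith [h.1, h.2]

/-- good cells for a deformation -/
def conc_Gd (B : Arr ι) (lb : ι → Fin D → ℝ) (M : ℕ) (β : Fin 3) (l : ℕ) (c : ℝ) (σ w : ι → ℝ)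
    (e : ℝ) (p : Cell) : Prop :=
  (∀ t ∈ B.TW p l, |σ (t β)| ≤ e ∧ |w (t β)| ≤ e) ∧ TrW B lb M β l c p

section lam
variable {M l : ℕ} {c e : ℝ} {U : Bx} {σ w : ι → ℝ}

theorem conc_phi (h : B.Ok) (hσ : σ ∈ LV lb ^ M) (hw : w ∈ LV lb ^ M) (hF : FlexT B U σ w)
    (he : 0 ≤ e) {p : Cell} (hp : p ∈ U.cells) (hG : conc_Gd B lb M β l c σ w e p) {Λ : ℝ}
    (h0 : 0 ≤ Λ) (hΛ : ∀ t ∈ B.TW p l, ∀ i, 2 ^ l / 2 ^ U.j * |w (t i)| ≤ Λ) :
    ∀ t ∈ B.TW p l, ∀ i, |σ (t i) + (U.z p).1 * w (t i)| ≤ c * (2 * e + 14 * Λ) := by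
  have hJ : (0 : ℝ) < 2 ^ U.j := by positivity
  have hL : (1 : ℝ) ≤ 2 ^ l := one_le_pow₀ (by norm_num)
  refine hG.2 (σ + (U.z p).1 • w) (add_mem hσ (Submodule.smul_mem _ _ hw)) _ (by positivity)
    fun t ht => ⟨?_, ?_⟩
  · have a1 := abs_add_le (σ (t β)) ((U.z p).1 * w (t β))
    have a2 := mul_le_mul (conc_xi hp) (hG.1 t ht).2 (abs_nonneg _) zero_le_one
    rw [abs_mul] at a1
    simp only [Pi.add_apply, Pi.smul_apply, smul_eq_mul]
    linarith [(hG.1 t ht).1]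
  · have ht' := TW_sub p l ht
    obtain ⟨X, Y, hX, x1, x2, -⟩ := h.vtx t ht'
    have a1 := hF t ht' X Y hX
    have a2 : |((B.loc t).1 : ℝ) - p.1| ≤ 2 ^ l := by exact_mod_cast (mem_filter.1 ht).2.1
    have a3 : |(p.1 : ℝ) - X| ≤ 2 * 2 ^ l := by
      rw [abs_le] at a2 ⊢
      constructor <;> linarith [a2.1, a2.2]
    have a4 : Om B.x (σ + (U.z p).1 • w) t =
        ∑ i, ((p.1 : ℝ) - X) / 2 ^ U.j * (co B.x t i * w (t i)) := by
      rw [← sub_zero (Om _ _ _), ← a1]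
      simp only [Om, Bx.z, Pi.add_apply, Pi.smul_apply, smul_eq_mul, Fin.sum_univ_three]
      ring
    have a5 : ∀ i, |((p.1 : ℝ) - X) / 2 ^ U.j * (co B.x t i * w (t i))| ≤ 22 / 5 * Λ := by
      intro i
      rw [abs_mul, abs_mul, abs_div, abs_of_pos hJ]
      have b1 := mul_le_mul (div_le_div_of_nonneg_right a3 hJ.le)
        (mul_le_mul_of_nonneg_right (h.co_bd ht' i).2 (abs_nonneg (w (t i)))) (by positivity)
        (by positivity)
      have b2 : 2 * 2 ^ l / 2 ^ U.j * (11 / 5 * |w (t i)|) =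
          22 / 5 * (2 ^ l / 2 ^ U.j * |w (t i)|) := by ring
      linarith [hΛ t ht i]
    rw [a4]
    refine (abs_sum_le_sum_abs _ _).trans ?_
    rw [Fin.sum_univ_three]
    linarith [a5 0, a5 1, a5 2]

theorem conc_diff (p q : Cell) (a : ι) {y : ℝ} (h1 : |σ a + (U.z p).1 * w a| ≤ y)
    (h2 : |σ a + (U.z q).1 * w a| ≤ y) : |(p.1 : ℝ) - q.1| / 2 ^ U.j * |w a| ≤ 2 * y := by
  have hJ : (0 : ℝ) < 2 ^ U.j := by positivity
  have a1 := abs_sub (σ a + (U.z p).1 * w a) (σ a + (U.z q).1 * w a)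
  have e : σ a + (U.z p).1 * w a - (σ a + (U.z q).1 * w a) = ((p.1 : ℝ) - q.1) / 2 ^ U.j * w a := by
    simp only [Bx.z]
    ring
  rw [e, abs_mul, abs_div, abs_of_pos hJ] at a1
  linarith

theorem conc_lam (h : B.Ok) (hl : l + 4 ≤ U.j) (hσ : σ ∈ LV lb ^ M) (hw : w ∈ LV lb ^ M)
    (hF : FlexT B U σ w) (he : 0 ≤ e) (hc : 0 ≤ c) {m y : ℝ} (hm : 0 < m) (h1 : 56 * c ≤ m)
    (h2 : 8 * c * e ≤ m * y) :
    cnt U.cells (fun p => conc_Gd B lb M β l c σ w e p ∧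
      ∃ t ∈ B.TW p l, ∃ i, y < 2 ^ l / 2 ^ U.j * |w (t i)|) ≤
      B.nl (3 * 2 ^ U.j) U.o * ((2 * (m * 2 ^ l) + 1) * (2 * (9 * 2 ^ l) + 1)) := by
  have hJ : (0 : ℝ) < 2 ^ U.j := by positivity
  choose Λ Λ0 Λ1 Λ2 using fun p => conc_max (lines (B.TW p l)) fun a => 2 ^ l / 2 ^ U.j * |w a|
  have hmin : ∀ a : ι, ∃ q : Cell, ∀ p ∈ U.cells, conc_Gd B lb M β l c σ w e p →
      a ∈ lines (B.TW p l) → (q ∈ U.cells ∧ conc_Gd B lb M β l c σ w e q ∧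
        a ∈ lines (B.TW q l)) ∧ Λ q ≤ Λ p := by
    intro a
    rcases (U.cells.filter fun p => conc_Gd B lb M β l c σ w e p ∧
      a ∈ lines (B.TW p l)).eq_empty_or_nonempty with k | k
    · refine ⟨0, fun p a1 a2 a3 => ?_⟩
      have : p ∈ U.cells.filter fun p => conc_Gd B lb M β l c σ w e p ∧ a ∈ lines (B.TW p l) :=
        mem_filter.2 ⟨a1, a2, a3⟩
      rw [k] at this
      exact absurd this (notMem_empty p)
    · obtain ⟨q, q1, q2⟩ := exists_min_image _ Λ k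
      exact ⟨q, fun p a1 a2 a3 => ⟨mem_filter.1 q1, q2 p (mem_filter.2 ⟨a1, a2, a3⟩)⟩⟩
  choose q hq using hmin
  have hφ : ∀ p ∈ U.cells, conc_Gd B lb M β l c σ w e p → ∀ a ∈ lines (B.TW p l),
      |σ a + (U.z p).1 * w a| ≤ c * (2 * e + 14 * Λ p) := by
    intro p a1 a2 a ha
    obtain ⟨t, ht, i, rfl⟩ := mem_lines.1 ha
    exact conc_phi h hσ hw hF he a1 a2 (Λ0 p) (fun t ht i => Λ1 p _ (conc_line ht i)) t ht i
  have hy : 0 ≤ y := nonneg_of_mul_nonneg_right (le_trans (by positivity) h2) hm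
  refine (cnt_mono (S' := U.cells) (P' := fun p =>
    ∃ a ∈ (lines B.T).filter fun a => |B.ht U.o a| ≤ 3 * 2 ^ U.j,
      (((q a).1 : ℝ) - m * 2 ^ l ≤ p.1 ∧ (p.1 : ℝ) ≤ (q a).1 - m * 2 ^ l + 2 * (m * 2 ^ l)) ∧
        |B.ht p a| ≤ 9 * 2 ^ l) fun p hp hq => ⟨hp, ?_⟩).trans
    ((conc_union _ _ _).trans ?_)
  · obtain ⟨hG, t, ht, i, hi⟩ := hq
    have a1 : y < Λ p := hi.trans_le (Λ1 p _ (conc_line ht i))
    obtain ⟨a, ha, a2⟩ := (Λ2 p).resolve_left (hy.trans_lt a1).ne'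
    obtain ⟨⟨b1, b2, b3⟩, b4⟩ := hq a p hp hG ha
    have a3 := conc_diff p (q a) a (hφ p hp hG a ha) ((hφ _ b1 b2 a b3).trans
      (mul_le_mul_of_nonneg_left (by linarith) hc))
    obtain ⟨u, hu, j, rfl⟩ := mem_lines.1 ha
    have a4 := h.ht_TW hu j
    have a5 := conc_line (TW_sub p l hu) j
    refine ⟨u j, mem_filter.2 ⟨a5, h.ht_top hp hl a5 a4⟩, ?_, a4⟩
    have a6 : |(p.1 : ℝ) - (q (u j)).1| ≤ m * 2 ^ l := by
      by_contra k
      have a7 := mul_le_mul_of_nonneg_right (div_le_div_of_nonneg_right (not_le.1 k).le hJ.le)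
        (abs_nonneg (w (u j)))
      rw [mul_div_assoc, mul_assoc, a2] at a7
      have a8 := mul_le_mul_of_nonneg_right h1 (Λ0 p)
      have a9 := mul_lt_mul_of_pos_left a1 hm
      linarith
    rw [abs_le] at a6
    constructor <;> linarith [a6.1, a6.2]
  · refine (sum_le_sum fun a _ => conn_strip (A := B) (L := 2 * (m * 2 ^ l)) (w := 9 * 2 ^ l) a
      U.cells _ (by positivity) (by positivity)).trans ?_
    rw [sum_const, nsmul_eq_mul]
    exact le_rfl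

theorem conc_heavy (h : B.Ok) (G : Cell → Prop) {θ J : ℝ} (hJ : 8 < θ * J) {t : Tri ι} {i : Fin 3}
    (hd : θ * J ≤ cnt B.T fun u => G (B.loc u) ∧ ∃ j, u j = t i) :
    ∃ u ∈ B.T, G (B.loc u) ∧ (∃ j, u j = t i) ∧ θ * J / 8 ≤ |((B.loc t).1 : ℝ) - (B.loc u).1| := by
  by_contra hn
  have a1 := h.deg_le (t i) ((B.loc t).1 - ⌈θ * J / 8⌉₊) (2 * ⌈θ * J / 8⌉₊)
  have a2 := Nat.ceil_lt_add_one (show 0 ≤ θ * J / 8 by linarith)
  have a3 := Nat.le_ceil (θ * J / 8)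
  have a4 := hd.trans ((cnt_mono fun u hu k => ⟨hu, k.2, by
    have a5 := abs_lt.1 (not_le.1 fun k' => hn ⟨u, hu, k.1, k.2, k'⟩)
    have a6 : (((B.loc t).1 - ⌈θ * J / 8⌉₊ : ℤ) : ℝ) ≤ (B.loc u).1 ∧ ((B.loc u).1 : ℝ) <
        (((B.loc t).1 - ⌈θ * J / 8⌉₊ + (2 * ⌈θ * J / 8⌉₊ : ℕ) : ℤ) : ℝ) := by
      push_cast
      constructor <;> linarith [a5.1, a5.2]
    exact_mod_cast a6⟩).trans a1)
  push_cast at a4
  linarith

theorem conc_mass2 (h : B.Ok) {G : Cell → Prop} {y θ θ' K : ℝ} (hθ : 0 < θ)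
    (hJ : 8 < θ * 2 ^ U.j) (hK : (#(lines (B.TB U)) : ℝ) ≤ K * 2 ^ U.j)
    (hG : U.fr (fun p => ¬ G p) ≤ θ')
    (hφ : ∀ p ∈ U.cells, G p → ∀ t ∈ B.TW p l, ∀ i, |σ (t i) + (U.z p).1 * w (t i)| ≤ y) :
    cnt (B.TB U) (fun t => ∃ i, (1 + 32 / θ) * y < |σ (t i)| + |w (t i)|) ≤
      (θ' + K * θ) * 4 ^ U.j := by
  have hJ' : (0 : ℝ) < 2 ^ U.j := by positivity
  obtain ⟨d, hd⟩ : ∃ d : ι → ℝ, ∀ a, d a =
      cnt B.T fun u => (B.loc u ∈ U.cells ∧ G (B.loc u)) ∧ ∃ j, u j = a := ⟨_, fun _ => rfl⟩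
  have a1 : cnt (B.TB U) (fun t => ∃ a ∈ (lines (B.TB U)).filter fun a => d a < θ * 2 ^ U.j,
      G (B.loc t) ∧ ∃ j, t j = a) ≤ K * θ * 4 ^ U.j := by
    refine (conc_union _ _ _).trans ((sum_le_sum (g := fun _ => θ * 2 ^ U.j) fun a ha =>
      le_trans ?_ (mem_filter.1 ha).2.le).trans ?_)
    · rw [hd]
      exact cnt_mono fun t ht k => ⟨(conc_mem_TB.1 ht).1, ⟨(conc_mem_TB.1 ht).2, k.1⟩, k.2⟩
    · rw [sum_const, nsmul_eq_mul, conn_B2_four]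
      have b1 : (#((lines (B.TB U)).filter fun a => d a < θ * 2 ^ U.j) : ℝ) ≤ K * 2 ^ U.j :=
        le_trans (by exact_mod_cast card_filter_le _ _) hK
      have b2 := mul_le_mul_of_nonneg_right b1 (show 0 ≤ θ * 2 ^ U.j by positivity)
      linarith
  rw [add_mul θ']
  refine (cnt_or fun t ht hi => ?_).trans (add_le_add (conc_loc h U hG) a1)
  obtain ⟨i, hi⟩ := hi
  by_cases b1 : G (B.loc t)
  swap
  · exact Or.inl b1
  refine Or.inr ⟨t i, mem_filter.2 ⟨conc_line ht i, not_le.1 fun b2 => ?_⟩, b1, i, rfl⟩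
  rw [hd] at b2
  obtain ⟨u, hu, ⟨c1, c2⟩, ⟨j, c3⟩, c4⟩ := conc_heavy h (fun p => p ∈ U.cells ∧ G p) hJ b2
  obtain ⟨b3, b4⟩ := conc_mem_TB.1 ht
  have c5 := hφ _ b4 b1 t (self_TW b3 l) i
  have c6 := hφ _ c1 c2 u (self_TW hu l) j
  rw [c3] at c6
  have c7 := conc_diff _ _ _ c5 c6
  have c8 := mul_le_mul_of_nonneg_right (div_le_div_of_nonneg_right c4 hJ'.le)
    (abs_nonneg (w (t i)))
  rw [show θ * 2 ^ U.j / 8 / 2 ^ U.j = θ / 8 by field_simp] at c8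
  have c9 : |w (t i)| ≤ 16 / θ * y := by
    rw [div_mul_eq_mul_div, le_div_iff₀ hθ]
    linarith
  have d1 := abs_sub (σ (t i) + (U.z (B.loc t)).1 * w (t i)) ((U.z (B.loc t)).1 * w (t i))
  rw [add_sub_cancel_right, abs_mul] at d1
  have d2 := mul_le_mul_of_nonneg_right (conc_xi b4) (abs_nonneg (w (t i)))
  have d3 : (1 + 32 / θ) * y = y + 2 * (16 / θ * y) := by ring
  linarith

end lam

end Pool.Agent.MP_38296a_co.H21

end FileConc1

section FileConc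

set_option autoImplicit false

namespace Pool.Agent.MP_38296a_co.H21

open Finset Filter Classical

variable {D k N : ℕ} {A : ℕ → Arr ℕ} {Q : ℕ → Bx} {lab : ℕ → ℕ → Fin D → ℝ} {β : Fin 3}

theorem conc_hof (h : St3 k A Q lab N β) (M l : ℕ) {θ : ℝ} (hθ : 0 < θ) : ∃ c : ℝ, 1 ≤ c ∧
    ∀ᶠ n in UU, (Q n).fr (fun p => ¬ Hof (A n).x (LV (lab n) ^ M) ((A n).TW p l) c) ≤ θ := by
  obtain ⟨c, hc⟩ := (h.hof M l).tight h.reg.good.val.big θ hθ
  exact ⟨max c 1, le_max_right _ _, hc.mono fun n a =>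
    (fr_mono fun p _ x y => x (y.mono Subset.rfl (le_max_left _ _))).trans a⟩

theorem conc_fr3 {U : Bx} {P P1 P2 P3 : Cell → Prop} {θ : ℝ} (h1 : U.fr (fun p => ¬ P1 p) ≤ θ / 3)
    (h2 : U.fr (fun p => ¬ P2 p) ≤ θ / 3) (h3 : U.fr (fun p => ¬ P3 p) ≤ θ / 3)
    (h : ∀ p ∈ U.cells, P1 p → P2 p → P3 p → P p) : U.fr (fun p => ¬ P p) ≤ θ := by
  have a1 : U.fr (fun p => ¬ P p) ≤ U.fr (fun p => ¬ P1 p) + U.fr fun p => ¬ (P2 p ∧ P3 p) :=
    fr_or fun p hp x => not_and_or.1 fun y => x (h p hp y.1 y.2.1 y.2.2)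
  have a2 : U.fr (fun p => ¬ (P2 p ∧ P3 p)) ≤ _ := fr_or fun p _ x => not_and_or.1 x
  linarith

/-- a polynomial label which is small on a dense set is small in most windows -/
theorem St3.conc (h : St3 k A Q lab N β) (M l : ℕ) {η θ : ℝ} (hη : 0 < η) (hθ : 0 < θ) :
    ∃ C : ℝ, 0 < C ∧ ∀ᶠ n in UU, ∀ f ∈ LV (lab n) ^ M, ∀ b : ℝ, 0 ≤ b →
      η * 4 ^ (Q n).j ≤ cnt ((A n).TB (Q n)) (fun t => |f (t β)| ≤ b) →
      (Q n).fr (fun p => ∃ t ∈ (A n).TW p l, C * b < |f (t β)|) ≤ θ := by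
  obtain ⟨κ, hκ, κ1, κ2⟩ : ∃ κ : ℝ, 0 < κ ∧ κ ≤ θ / 2 ∧ κ ≤ η / 140 :=
    ⟨_, lt_min (by positivity) (by positivity), min_le_left _ _, min_le_right _ _⟩
  obtain ⟨η0, θ0, h0, h1, h2⟩ := t1c h.reg.good h.na hκ
  have h3 : 0 < min θ0 κ / 3 := by positivity
  obtain ⟨L, ⟨l1, l2, l3⟩, l4⟩ := ((h2.and ((h.reg.gp_most M h0 _ h3).and
    (h.reg.gp_most M (half_pos hη) _ h3))).and (eventually_ge_atTop l)).exists
  obtain ⟨c, c1, c2⟩ := conc_hof h M L h3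
  obtain ⟨C, C1, C2⟩ := l1 c c1
  refine ⟨C * c, by positivity, ?_⟩
  filter_upwards [l2, l3, c2, C2, h.reg.good.val.big.eventually_ge_atTop L] with n a1 a2 a3 a4 a5
    f hf b hb hd
  choose ρ ρ0 ρ1 ρ2 using fun p => conc_max ((A n).TW p L) fun t => |f (t β)|
  have hρ : ∀ p y, 0 ≤ y → (∀ t ∈ (A n).TW p L, |f (t β)| ≤ y) → ρ p ≤ y := by
    intro p y hy k
    rcases ρ2 p with e | ⟨t, ht, e⟩
    · exact e.le.trans hy
    · exact e.symm.le.trans (k t ht)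
  obtain ⟨G, hG⟩ : ∃ G : Cell → Prop, ∀ p, G p ↔ GP (A n) (lab n) M η0 L p ∧
      GP (A n) (lab n) M (η / 2) L p ∧ Hof (A n).x (LV (lab n) ^ M) ((A n).TW p L) c :=
    ⟨_, fun _ => Iff.rfl⟩
  have b1 : (Q n).fr (fun p => ¬ G p) ≤ min θ0 κ :=
    conc_fr3 a1 a2 a3 fun p _ x y z => (hG p).2 ⟨x, y, z⟩
  have b2 := min_le_right θ0 κ
  have b3 : (Q n).fr (fun q => η / 2 * 4 ^ L ≤ cnt ((A n).TW q L) fun t => |f (t β)| ≤ b) ≤
      (Q n).fr (fun p => ¬ G p) + (Q n).fr fun p => ¬ ¬ G p ∧ ρ p ≤ c * b :=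
    fr_or fun p _ x => (_root_.em (G p)).symm.imp_right fun y => ⟨not_not.2 y, hρ p _ (by positivity)
      (conc_small ((hG p).1 y).2.2 ((hG p).1 y).2.1 hf hb x)⟩
  have b4 := (h.reg.good.val.ok n).amplify_top a5 hη hd
  have b5 := a4 (fun p => ¬ G p) ρ (c * b) (by positivity) (b1.trans (min_le_left _ _))
    (fun τ hτ => ⟨{a | |f a| ≤ τ}, fun p _ x => ⟨fun y => lt_of_le_of_lt
      (cnt_mono (S' := ∅) (P' := fun _ => False) fun t ht z => absurd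
        ((ρ1 p t ht).trans ((le_mul_of_one_le_left (ρ0 p) c1).trans y)) z) (by
          simp only [cnt, filter_empty, card_empty, Nat.cast_zero]
          positivity), fun y => not_le.1 fun z => y.not_ge (hρ p _ (by positivity)
      (conc_small ((hG p).1 (not_not.1 x)).2.2 ((hG p).1 (not_not.1 x)).1 hf hτ.le z))⟩⟩)
    (by linarith)
  have b6 : (Q n).fr (fun p => ∃ t ∈ (A n).TW p l, C * c * b < |f (t β)|) ≤
      (Q n).fr (fun p => ¬ G p) + (Q n).fr fun p => ¬ ¬ G p ∧ C * (c * b) < ρ p :=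
    fr_or fun p _ ⟨t, ht, x⟩ => (_root_.em (G p)).symm.imp_right fun y => ⟨not_not.2 y,
      (mul_assoc C c b).symm.trans_lt (x.trans_le (ρ1 p t (TW_le p l4 ht)))⟩
  linarith

theorem St3.conc_mass (h : St3 k A Q lab N β) (M : ℕ) {η θ : ℝ} (hη : 0 < η) (hθ : 0 < θ) :
    ∃ C : ℝ, 0 < C ∧ ∀ᶠ n in UU, ∀ f ∈ LV (lab n) ^ M, ∀ b : ℝ, 0 ≤ b →
      η * 4 ^ (Q n).j ≤ cnt ((A n).TB (Q n)) (fun t => |f (t β)| ≤ b) →
      cnt ((A n).TB (Q n)) (fun t => C * b < |f (t β)|) ≤ θ * 4 ^ (Q n).j := by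
  obtain ⟨C, C1, C2⟩ := h.conc M 0 hη hθ
  refine ⟨C, C1, C2.mono fun n a f hf b hb hd => le_trans (cnt_mono fun t ht x => ⟨ht, ?_⟩)
    (conc_loc (h.reg.good.val.ok n) _ (a f hf b hb hd))⟩
  exact ⟨t, self_TW (conc_mem_TB.1 ht).1 0, x⟩

theorem St3.trans (h : St3 k A Q lab N β) {θ : ℝ} (hθ : 0 < θ) : ∀ᶠ l in atTop, ∃ c : ℝ, 1 ≤ c ∧
    ∀ᶠ n in UU, (Q n).fr (fun p => ¬ TrW (A n) (lab n) (N + 1) β l c p) ≤ θ := by
  obtain ⟨δ, d1, -, d2⟩ := h.reg.good.dens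
  have h3 : 0 < θ / 3 := by positivity
  filter_upwards [d2 _ h3, h.reg.gp_most (N + 1 + 1) d1 _ h3] with l l1 l2
  obtain ⟨c, c1, c2⟩ := conc_hof h (N + 1) l h3
  refine ⟨c, c1, ?_⟩
  filter_upwards [l1, l2, c2, h.sp] with n a1 a2 a3 a4
  exact conc_fr3 a1 a2 a3 fun p _ x y z => conc_trw (h.reg.xs n).1 a4 x y z

theorem St3.appr (h : St3 k A Q lab N β) {θ : ℝ} (hθ : 0 < θ) : ∀ᶠ l in atTop, ∃ c : ℝ, 1 ≤ c ∧
    ∀ᶠ n in UU, (Q n).fr (fun p => ¬ ApW (A n) (lab n) N l c p) ≤ θ := by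
  obtain ⟨δ, d1, -, d2⟩ := h.reg.good.dens
  have h3 : 0 < θ / 3 := by positivity
  filter_upwards [d2 _ h3, h.reg.gp_most (N + 1 + 1) d1 _ h3] with l l1 l2
  obtain ⟨c, c1, c2⟩ := conc_hof h (N + 1) l h3
  refine ⟨c, c1, ?_⟩
  filter_upwards [l1, l2, c2, h.stab] with n a1 a2 a3 a4
  exact conc_fr3 a1 a2 a3 fun p _ x y z => conc_apw (h.reg.xs n).1 a4 x y z

/-- solutions which are small on a dense set are small on all classes in most windows -/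
theorem St3.conc_ker (h : St3 k A Q lab N β) (l : ℕ) {η θ : ℝ} (hη : 0 < η) (hθ : 0 < θ) :
    ∃ C : ℝ, 0 < C ∧ ∀ᶠ n in UU, ∀ f ∈ WN (A n) (lab n) (N + 1), ∀ b : ℝ, 0 ≤ b →
      η * 4 ^ (Q n).j ≤ cnt ((A n).TB (Q n)) (fun t => |f (t β)| ≤ b) →
      (Q n).fr (fun p => ∃ t ∈ (A n).TW p l, ∃ i, C * b < |f (t i)|) ≤ θ := by
  obtain ⟨L, ⟨c, c1, c2⟩, l1⟩ := ((h.trans (half_pos hθ)).and (eventually_ge_atTop l)).exists
  obtain ⟨C, C1, C2⟩ := h.conc (N + 1) L hη (half_pos hθ)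
  refine ⟨c * C, by positivity, ?_⟩
  filter_upwards [c2, C2] with n a1 a2 f hf b hb hd
  refine (fr_or fun p _ x => ?_).trans ((add_le_add a1 (a2 f hf.1 b hb hd)).trans_eq (add_halves θ))
  obtain ⟨t, ht, i, x⟩ := x
  refine or_iff_not_imp_right.2 fun y z => x.not_ge ?_
  rw [mul_assoc]
  refine z f hf.1 _ (by positivity) (fun u hu => ⟨not_lt.1 fun e => y ⟨u, hu, e⟩, ?_⟩) t
    (TW_le p l1 ht) i
  rw [hf.2 u (TW_sub p L hu), abs_zero]
  positivity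

theorem conc_good (h : St3 k A Q lab N β) (l : ℕ) {θ : ℝ} (hθ : 0 < θ) :
    ∃ L, l ≤ L ∧ ∃ c C : ℝ, 1 ≤ c ∧ 0 < C ∧ ∀ ε : ℝ, 0 < ε →
    ∀ᶠ n in UU, ∀ σ ∈ LV (lab n) ^ (N + 1), ∀ w ∈ LV (lab n) ^ (N + 1), ∀ b : ℝ, 0 ≤ b →
      FlexT (A n) (Q n) σ w → (A n).Sm (Q n) β σ b → (A n).Sm (Q n) β w b →
      (Q n).fr (fun p => ¬ (conc_Gd (A n) (lab n) (N + 1) β L c σ w (C * b) p ∧
        ∀ t ∈ (A n).TW p L, ∀ i, 2 ^ L / 2 ^ (Q n).j * |w (t i)| ≤ ε * b)) ≤ θ := by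
  obtain ⟨δ, d1, d2, -⟩ := h.reg.good.dens
  have h3 : 0 < θ / 2 / 3 := by positivity
  obtain ⟨L, ⟨c, c1, c2⟩, l1⟩ := ((h.trans h3).and (eventually_ge_atTop l)).exists
  obtain ⟨C, C1, C2⟩ := h.conc (N + 1) L (half_pos d1) h3
  obtain ⟨K, K1, K2⟩ := h.reg.good.val.lines_le
  refine ⟨L, l1, c, C, c1, C1, fun ε hε => ?_⟩
  obtain ⟨m, m0, m1, m2⟩ : ∃ m : ℝ, 0 < m ∧ 56 * c ≤ m ∧ 8 * c * C ≤ m * ε :=
    ⟨max (56 * c) (8 * c * C / ε), lt_max_of_lt_left (by positivity), le_max_left _ _,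
      (div_le_iff₀ hε).1 (le_max_right _ _)⟩
  filter_upwards [d2, c2, C2, K2, h.reg.good.val.big.eventually_ge_atTop (L + 4),
    conn_B3_big h.reg.good.val.big (half_pos hθ)
      (K * ((2 * (m * 2 ^ L) + 1) * (2 * (9 * 2 ^ L) + 1)))] with n a1 a2 a3 a4 a5 a6
    σ hσ w hw b hb hF s1 s2
  unfold Arr.Sm at s1 s2
  have b1 := a3 σ hσ b hb (by linarith)
  have b2 := a3 w hw b hb (by linarith)
  have b3 : (Q n).fr (fun p => ¬ conc_Gd (A n) (lab n) (N + 1) β L c σ w (C * b) p) ≤ θ / 2 :=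
    conc_fr3 (P1 := fun p => ¬ ∃ t ∈ (A n).TW p L, C * b < |σ (t β)|)
      (P2 := fun p => ¬ ∃ t ∈ (A n).TW p L, C * b < |w (t β)|)
      ((fr_mono fun p _ => not_not.1).trans b1) ((fr_mono fun p _ => not_not.1).trans b2) a2
      fun p _ x y z => ⟨fun t ht => ⟨not_lt.1 fun e => x ⟨t, ht, e⟩,
        not_lt.1 fun e => y ⟨t, ht, e⟩⟩, z⟩
  have b4 := conc_lam (β := β) (e := C * b) (y := ε * b) (h.reg.good.val.ok n) a5 hσ hw hF
    (by positivity) (zero_le_one.trans c1) m0 m1 (by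
      have := mul_le_mul_of_nonneg_right m2 hb
      linarith)
  have b5 := conc_fr.2 (b4.trans (show _ ≤ θ / 2 * 4 ^ (Q n).j by
    have e1 := mul_le_mul_of_nonneg_right a4.2
      (show 0 ≤ (2 * (m * 2 ^ L) + 1) * (2 * (9 * (2 : ℝ) ^ L) + 1) by positivity)
    have e2 := mul_le_mul_of_nonneg_right a6 (show (0 : ℝ) ≤ 2 ^ (Q n).j by positivity)
    rw [conn_B2_four]
    linarith))
  refine (fr_or fun p _ x => ?_).trans ((add_le_add b3 b5).trans_eq (add_halves θ))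
  refine (_root_.em _).symm.imp_right fun y => ⟨y, ?_⟩
  by_contra z
  exact x ⟨y, fun t ht i => not_lt.1 fun e => z ⟨t, ht, i, e⟩⟩

/-- the slope part of a deformation is negligible in windows -/
theorem St3.lam_win (h : St3 k A Q lab N β) (l : ℕ) {ε θ : ℝ} (hε : 0 < ε) (hθ : 0 < θ) :
    ∀ᶠ n in UU, ∀ σ ∈ LV (lab n) ^ (N + 1), ∀ w ∈ LV (lab n) ^ (N + 1), ∀ b : ℝ, 0 ≤ b →
      FlexT (A n) (Q n) σ w → (A n).Sm (Q n) β σ b → (A n).Sm (Q n) β w b →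
      (Q n).fr (fun p => ∃ t ∈ (A n).TW p l, ∃ i, ε * b < 2 ^ l / 2 ^ (Q n).j * |w (t i)|) ≤ θ := by
  obtain ⟨L, l1, c, C, -, -, h1⟩ := conc_good h l hθ
  filter_upwards [h1 ε hε] with n a σ hσ w hw b hb hF s1 s2
  refine (fr_mono fun p _ x y => ?_).trans (a σ hσ w hw b hb hF s1 s2)
  obtain ⟨t, ht, i, x⟩ := x
  refine x.not_ge (le_trans ?_ (y.2 t (TW_le p l1 ht) i))
  gcongr
  norm_num

/-- a deformation which is small on the class `β` is small on all classes -/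
theorem St3.lam_mass (h : St3 k A Q lab N β) {θ : ℝ} (hθ : 0 < θ) : ∃ C : ℝ, 0 < C ∧
    ∀ᶠ n in UU, ∀ σ ∈ LV (lab n) ^ (N + 1), ∀ w ∈ LV (lab n) ^ (N + 1), ∀ b : ℝ, 0 ≤ b →
      FlexT (A n) (Q n) σ w → (A n).Sm (Q n) β σ b → (A n).Sm (Q n) β w b →
      cnt ((A n).TB (Q n)) (fun t => ∃ i, C * b < |σ (t i)| + |w (t i)|) ≤ θ * 4 ^ (Q n).j := by
  obtain ⟨L, -, c, C, c1, C1, h1⟩ := conc_good h 0 (half_pos hθ)
  obtain ⟨K, K1, K2⟩ := h.reg.good.val.lines_le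
  have h2 : 0 < θ / 2 / K := by positivity
  refine ⟨(1 + 32 / (θ / 2 / K)) * (c * (2 * C + 14)), by positivity, ?_⟩
  filter_upwards [h1 1 one_pos, K2, conn_B3_big h.reg.good.val.big h2 9] with n a1 a2 a3
    σ hσ w hw b hb hF s1 s2
  have b1 := conc_mass2 (l := L) (y := c * (2 * (C * b) + 14 * (1 * b))) (h.reg.good.val.ok n) h2
    (by linarith) a2.1 (a1 σ hσ w hw b hb hF s1 s2) fun p hp x =>
      conc_phi (h.reg.good.val.ok n) hσ hw hF (by positivity) hp x.1 (by positivity) x.2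
  rw [mul_div_cancel₀ _ (by positivity), add_halves] at b1
  refine le_trans (cnt_mono fun t ht x => ⟨ht, x.imp fun i y => lt_of_eq_of_lt ?_ y⟩) b1
  ring

end Pool.Agent.MP_38296a_co.H21

end FileConc

section FileRk1

/-!
Independent families of labels: deterministic lemmas, the initial state and the rank bound.
-/

set_option autoImplicit false

namespace Pool.Agent.MP_38296a_co.H21

open Finset Filter Classical

/-- quantitative independence on the lines of the class `β` of a window -/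
def RInd {ι : Type} {m : ℕ} (B : Arr ι) (β : Fin 3) (g : ι → Fin m → ℝ) (C : ℝ) (l : ℕ)
    (p : Cell) : Prop :=
  ∀ (a : Fin m → ℝ) (b : ℝ), 0 ≤ b → (∀ t ∈ B.TW p l, |a ⬝ᵥ g (t β)| ≤ b) → ‖a‖ ≤ C * b

/-- bounded independent labels -/
structure RSt {D r : ℕ} (k : ℕ) (A : ℕ → Arr ℕ) (Q : ℕ → Bx) (lab : ℕ → ℕ → Fin D → ℝ) (N : ℕ)
    (β : Fin 3) (g : ℕ → ℕ → Fin (r + 2) → ℝ) : Prop where
  st : St3 k A Q lab N β
  one : ∀ n a, g n a 0 = 1
  chi : ∀ n a, g n a 1 = (A n).x a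
  mem : ∀ᶠ n in UU, ∀ e, (fun a => g n a e) ∈ WN (A n) (lab n) N
  tb : ∀ l, Tight Q fun n c p => ∀ t ∈ (A n).TW p l, ∀ i, ‖g n (t i)‖ ≤ c
  ind : ∃ κ C : ℝ, 0 < κ ∧ 0 ≤ C ∧ ∃ l, ∀ᶠ n in UU, κ ≤ (Q n).fr (RInd (A n) β (g n) C l)

section Det
variable {ι : Type} {B : Arr ι} {β : Fin 3} {m : ℕ} {g : ι → Fin m → ℝ} {C : ℝ} {l l' : ℕ}
  {p q : Cell}

theorem RInd.mono (h : RInd B β g C l q) (hs : B.TW q l ⊆ B.TW p l') : RInd B β g C l' p :=
  fun a b hb ha => h a b hb fun t ht => ha t (hs ht)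

theorem RInd.anc (h : RInd B β g C l q) (hl : l ≤ l') (hq : q ∈ (anc l' p).cells) :
    RInd B β g C (l' + 1) p := by
  obtain ⟨h1, h2⟩ := anc_close hq
  have h3 : (0 : ℤ) < 2 ^ l' := by positivity
  exact h.mono ((TW_le q hl).trans (TW_mono (Nat.lt_succ_self _) h1.le (by linarith)))

theorem rk_fr_pos {U : Bx} {P : Cell → Prop} (h : 0 < U.fr P) : ∃ p ∈ U.cells, P p :=
  exists_of_cnt_pos ((div_pos_iff_of_pos_right (by positivity)).1 h)

theorem rk_fr_zero {U : Bx} {P : Cell → Prop} (h : ∀ p, ¬ P p) {θ : ℝ} (hθ : 0 < θ) :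
    U.fr P ≤ θ := by
  by_contra hn
  obtain ⟨p, -, hp⟩ := rk_fr_pos (hθ.trans (not_le.1 hn))
  exact h p hp

theorem rk_avg (hB : B.Ok) (U : Bx) (P : Tri ι → Prop) :
    U.avg (fun p => ind (∃ t ∈ B.T, B.loc t = p ∧ P t)) = cnt (B.TB U) P / 4 ^ U.j := by
  have h1 := (hB.res (filter_subset P B.T)).card_TB U
  have h2 : (B.res (B.T.filter P)).TB U = (B.TB U).filter P := filter_comm _ _ _
  rw [h2] at h1
  unfold Bx.avg cnt
  rw [h1]
  congr 1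
  refine sum_congr rfl fun p _ => congrArg ind (propext ?_)
  simp only [Arr.res, mem_filter]
  exact exists_congr fun t => by tauto

/-- triples of a window which are bad for the window of level zero at their own cell -/
theorem rk_bad (hB : B.Ok) {P : Tri ι → Prop} :
    cnt (B.TW p l) (fun t => ¬ P t) ≤ cnt (Wn p l) fun q => ¬ ∀ t ∈ B.TW q 0, P t := by
  refine le_trans (cnt_mono fun t ht h => ⟨TW_sub p l ht, ?_, fun h' => ?_⟩) (hB.cnt_loc _ _)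
  · obtain ⟨-, h1, h2⟩ := mem_filter.1 ht
    have h3 : (0 : ℤ) < 2 ^ l := by positivity
    simp only [Wn, mem_product, mem_Icc]
    rw [abs_le] at h1 h2
    omega
  · exact h (h' t (self_TW (TW_sub p l ht) 0))

/-- a label which is small on many lines of a good window is small on all of them -/
theorem rk_small {D N : ℕ} {lab : ι → Fin D → ℝ} {η c b : ℝ} (hG : GP B lab N η l p)
    (hH : Hof B.x (LV lab ^ N) (B.TW p l) c) {f : ι → ℝ} (hf : f ∈ LV lab ^ N) (hb : 0 ≤ b)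
    (h : η * 4 ^ l ≤ cnt (B.TW p l) fun t => |f (t β)| ≤ b) :
    ∀ t ∈ B.TW p l, |f (t β)| ≤ c * b := by
  obtain ⟨u, u1, u2, -, u3⟩ := hH {a ∈ lines (B.TW p l) | |f a| ≤ b} (filter_subset _ _) ∅
    (empty_subset _) f hf b hb (fun a ha => (mem_filter.1 ha).2) fun t ht => absurd ht (by simp)
  have h1 := hG _ (comp_mem_LV3 u1 β) (h.trans (cnt_mono fun t ht k =>
    ⟨ht, u2 _ (mem_filter.2 ⟨mem_lines.2 ⟨t, ht, β, rfl⟩, k⟩)⟩))
  intro t ht
  have h2 := u3 _ (mem_lines.2 ⟨t, ht, β, rfl⟩)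
  rwa [show u (t β) = 0 from h1 t (TW_sub p l ht), sub_zero] at h2

theorem rk_dot {U : Submodule ℝ (ι → ℝ)} (h : ∀ e, (fun a => g a e) ∈ U) (a : Fin m → ℝ) :
    (fun y => a ⬝ᵥ g y) ∈ U := by
  have e : (fun y => a ⬝ᵥ g y) = ∑ e, a e • fun y => g y e := by
    funext y
    simp [dotProduct, Finset.sum_apply]
  rw [e]
  exact U.sum_mem fun e _ => U.smul_mem _ (h e)

/-- a label which is not approximated by the family extends it -/
theorem rk_ext {f : ι → ℝ} {ε c : ℝ} (hε : 0 < ε) (hc : 0 ≤ c) (hC : 0 ≤ C)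
    (h : RInd B β g C l p) (hf : ∀ t ∈ B.TW p l, |f (t β)| ≤ c)
    (hn : ¬ ∃ a : Fin m → ℝ, ∀ t ∈ B.TW p l, |f (t β) - a ⬝ᵥ g (t β)| ≤ ε) :
    RInd B β (fun y => (Fin.snoc (α := fun _ => ℝ) (g y) (f y) : Fin (m + 1) → ℝ))
      (C * (1 + c / ε) + 1 / ε) l p := by
  intro a b hb ha
  obtain ⟨α, hα⟩ : ∃ α, α = a (Fin.last m) := ⟨_, rfl⟩
  obtain ⟨u, hu⟩ : ∃ u : Fin m → ℝ, u = fun j => a j.castSucc := ⟨_, rfl⟩
  have h1 : ∀ t ∈ B.TW p l, |u ⬝ᵥ g (t β) + α * f (t β)| ≤ b := fun t ht => by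
    have := ha t ht
    simp only [dotProduct, Fin.sum_univ_castSucc, Fin.snoc_castSucc, Fin.snoc_last] at this
    rw [hu, hα]
    exact this
  have h2 : |α| ≤ b / ε := by
    by_contra k
    have k1 : b < |α| * ε := (div_lt_iff₀ hε).1 (not_le.1 k)
    have k2 : 0 < |α| := (div_nonneg hb hε.le).trans_lt (not_le.1 k)
    have k3 : α ≠ 0 := abs_pos.1 k2
    refine hn ⟨-α⁻¹ • u, fun t ht => le_of_mul_le_mul_left ?_ k2⟩
    rw [← abs_mul, smul_dotProduct, smul_eq_mul,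
      show α * (f (t β) - -α⁻¹ * u ⬝ᵥ g (t β)) = u ⬝ᵥ g (t β) + α * f (t β) by field_simp; ring]
    exact (h1 t ht).trans k1.le
  have h3 : 0 ≤ b / ε := div_nonneg hb hε.le
  have h4 := h u (b + b / ε * c) (by positivity) fun t ht => by
    have k1 := abs_sub (u ⬝ᵥ g (t β) + α * f (t β)) (α * f (t β))
    rw [add_sub_cancel_right, abs_mul] at k1
    have k2 := mul_le_mul h2 (hf t ht) (abs_nonneg _) h3
    linarith [h1 t ht]
  have h5 : (C * (1 + c / ε) + 1 / ε) * b = C * (b + b / ε * c) + b / ε := by ring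
  have h6 : 0 ≤ C * (b + b / ε * c) := by positivity
  rw [h5, pi_norm_le_iff_of_nonneg (by linarith)]
  intro j
  refine Fin.lastCases ?_ (fun j => ?_) j
  · rw [← hα, Real.norm_eq_abs]
    linarith
  · have := norm_le_pi_norm u j
    rw [hu] at this
    rw [hu] at h4
    linarith

/-- two slopes at distance more than `γ` -/
theorem rk_two (hB : B.Ok) {δ γ : ℝ} (hδ : 0 < δ) (hγ : 0 < γ) (h1 : δ * 4 ^ l ≤ #(B.TB (anc l p)))
    (h2 : ∀ y : ℝ, cnt (B.TW p l) (fun t => |B.x (t β) - y| ≤ γ) ≤ δ / 2 * 4 ^ l) :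
    RInd B β (fun y => ![1, B.x y]) (1 + 3 / γ) l p := by
  intro a b hb ha
  have h3 : (#(B.TB (anc l p)) : ℝ) ≤ #(B.TW p l) := by
    exact_mod_cast card_le_card (TB_anc_sub p l)
  have h4 : 0 < δ * 4 ^ l := by positivity
  have h5 : ∀ y : ℝ, ∃ t ∈ B.TW p l, ¬ |B.x (t β) - y| ≤ γ := fun y => by
    refine exists_of_cnt_pos ?_
    linarith [cnt_add_not (B.TW p l) fun t => |B.x (t β) - y| ≤ γ, h2 y]
  obtain ⟨t, ht, -⟩ := h5 0
  obtain ⟨u, hu, h6⟩ := h5 (B.x (t β))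
  have e : ∀ y, a ⬝ᵥ ![1, B.x y] = a 0 + a 1 * B.x y := fun y => by
    simp [dotProduct, Fin.sum_univ_two]
  have k1 := ha t ht
  have k2 := ha u hu
  rw [e] at k1 k2
  have k3 := abs_sub (a 0 + a 1 * B.x (u β)) (a 0 + a 1 * B.x (t β))
  rw [show a 0 + a 1 * B.x (u β) - (a 0 + a 1 * B.x (t β)) = a 1 * (B.x (u β) - B.x (t β)) by ring,
    abs_mul] at k3
  have k4 := mul_le_mul_of_nonneg_left (not_le.1 h6).le (abs_nonneg (a 1))
  have k5 : |a 1| ≤ 2 * (b / γ) := by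
    rw [← mul_div_assoc, le_div_iff₀ hγ]
    linarith
  have k6 := abs_sub (a 0 + a 1 * B.x (t β)) (a 1 * B.x (t β))
  rw [add_sub_cancel_right, abs_mul] at k6
  have k7 := mul_le_mul_of_nonneg_left (hB.x_bd (mem_lines.2 ⟨t, TW_sub p l ht, β, rfl⟩))
    (abs_nonneg (a 1))
  have k8 : 0 ≤ b / γ := by positivity
  rw [show (1 + 3 / γ) * b = b + 3 * (b / γ) by ring, pi_norm_le_iff_of_nonneg (by positivity),
    Fin.forall_fin_two, Real.norm_eq_abs, Real.norm_eq_abs]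
  constructor <;> linarith

end Det

variable {D k N : ℕ} {A : ℕ → Arr ℕ} {Q : ℕ → Bx} {lab : ℕ → ℕ → Fin D → ℝ} {β : Fin 3}

theorem rk_and {P P' P'' : ℕ → ℕ → Cell → Prop} (h : Tight Q P) (h' : Tight Q P')
    (e : ∀ c c', ∃ c'', ∀ n p, P n c p → P' n c' p → P'' n c'' p) : Tight Q P'' := by
  intro θ hθ
  obtain ⟨c, hc⟩ := h _ (half_pos hθ)
  obtain ⟨c', hc'⟩ := h' _ (half_pos hθ)
  obtain ⟨c'', e⟩ := e c c'
  refine ⟨c'', ?_⟩
  filter_upwards [hc, hc'] with n a b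
  have := fr_or (Q := Q n) (P := fun p => ¬ P'' n c'' p) (P1 := fun p => ¬ P n c p)
    (P2 := fun p => ¬ P' n c' p) fun p _ k => by
      by_contra k'
      rw [not_or, not_not, not_not] at k'
      exact k (e n p k'.1 k'.2)
  linarith

theorem rk_init (h : St3 k A Q lab N β) :
    RSt (r := 0) k A Q lab N β fun n y => ![1, (A n).x y] := by
  have hok := h.reg.good.val.ok
  have hL : ∀ n, LV (lab n) ≤ LV (lab n) ^ N := fun n => by
    simpa using LV_pow_mono (lab := lab n) h.pos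
  refine ⟨h, fun _ _ => rfl, fun _ _ => rfl, Eventually.of_forall fun n => ?_,
    fun l θ hθ => ?_, ?_⟩
  · rw [Fin.forall_fin_two]
    exact ⟨⟨hL n one_mem_LV, fun t _ => Om_one _ t⟩, hL n (h.reg.xs n).1, fun t _ => Om_x _ t⟩
  · refine ⟨2, Eventually.of_forall fun n => rk_fr_zero (fun p hp => hp fun t ht i => ?_) hθ⟩
    have := (hok n).x_bd (mem_lines.2 ⟨t, TW_sub p l ht, i, rfl⟩)
    rw [pi_norm_le_iff_of_nonneg (by positivity), Fin.forall_fin_two]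
    constructor
    · simp
    · show |(A n).x (t i)| ≤ _
      push_cast
      linarith
  · obtain ⟨δ, hδ, -, hd⟩ := h.reg.good.dens
    obtain ⟨γ, hγ, hn⟩ := h.na (δ / 2) (half_pos hδ)
    obtain ⟨l, hl⟩ := (hd.and hn (1 / 2) one_half_pos).exists
    refine ⟨1 / 2, 1 + 3 / γ, one_half_pos, by positivity, l, hl.mono fun n a => ?_⟩
    have h1 := fr_add_not (Q n) (RInd (A n) β (fun y => ![1, (A n).x y]) (1 + 3 / γ) l)
    have h2 : (Q n).fr (fun p => ¬ RInd (A n) β (fun y => ![1, (A n).x y]) (1 + 3 / γ) l p) ≤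
        1 / 2 := by
      refine le_trans (fr_mono ?_) a
      rintro p - k ⟨k1, k2⟩
      exact k (rk_two (hok n) hδ hγ k1 k2)
    linarith

theorem rk_bound (h : St3 k A Q lab N β) : ∃ E : ℕ, ∀ (Q' : ℕ → Bx) (r : ℕ)
    (g : ℕ → ℕ → Fin (r + 2) → ℝ), RSt k A Q' lab N β g → r < E := by
  obtain ⟨E, hE⟩ := h.dim
  refine ⟨E, fun Q' r g hg => ?_⟩
  by_contra hr
  have hr' : E ≤ r + 2 := by omega
  obtain ⟨κ, C, hκ, -, l, hl⟩ := hg.ind
  obtain ⟨n, h1, h2, h3⟩ := (hE.and (hg.mem.and hl)).exists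
  obtain ⟨p, -, hp⟩ := rk_fr_pos (hκ.trans_le h3)
  obtain ⟨a, ha, h4⟩ := h1 (fun e y => g n y (e.castLE hr')) fun e => h2 _
  have h5 := hp (∑ e, Pi.single (e.castLE hr') (a e)) 0 le_rfl fun t ht => by
    rw [sum_dotProduct]
    simp only [single_dotProduct]
    rw [h4 t (TW_sub p l ht) β, abs_zero]
  rw [mul_zero, norm_le_zero_iff] at h5
  refine ha (funext fun e => ?_)
  have h6 := congrFun h5 (e.castLE hr')
  simpa [Finset.sum_apply, Pi.single_apply] using h6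

end Pool.Agent.MP_38296a_co.H21

end FileRk1

section FileRk

set_option autoImplicit false

namespace Pool.Agent.MP_38296a_co.H21

open Finset Filter Classical

section Aux
variable {D k N r : ℕ} {A : ℕ → Arr ℕ} {Q : ℕ → Bx} {lab : ℕ → ℕ → Fin D → ℝ} {β : Fin 3}
  {g : ℕ → ℕ → Fin (r + 2) → ℝ}

/-- homogeneous family of bounded independent labels -/
structure RGd {D r : ℕ} (k : ℕ) (A : ℕ → Arr ℕ) (Q : ℕ → Bx) (lab : ℕ → ℕ → Fin D → ℝ) (N : ℕ)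
    (β : Fin 3) (g : ℕ → ℕ → Fin (r + 2) → ℝ) : Prop where
  st : St3 k A Q lab N β
  one : ∀ n a, g n a 0 = 1
  chi : ∀ n a, g n a 1 = (A n).x a
  mem : ∀ᶠ n in UU, ∀ e, (fun a => g n a e) ∈ WN (A n) (lab n) N
  tb : ∀ l, STight Q fun n c p => ∀ t ∈ (A n).TW p l, ∀ i, ‖g n (t i)‖ ≤ c
  ind : ∃ C : ℝ, 0 ≤ C ∧ STight Q fun n => RInd (A n) β (g n) C
  dh : ∀ (i : Fin 3) (y : Fin (r + 2) → ℚ) (γ : ℚ), ∃ γ0, DH Q (fun n p =>
    H21.ind (∃ t ∈ (A n).T, (A n).loc t = p ∧ ‖g n (t i) - fun j => (y j : ℝ)‖ ≤ γ)) γ0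

theorem rk_freq (Q : ℕ → Bx) : Freq Q fun _ _ => True :=
  ⟨1, one_pos, Eventually.frequently (Eventually.of_forall fun _ => Eventually.of_forall fun n => by
    have := fr_add_not (Q n) fun _ => True
    have h : (Q n).fr (fun _ => ¬ True) = 0 := by simp [Bx.fr, cnt]
    linarith)⟩

theorem rk_improve (h : RSt k A Q lab N β g) : ∃ Q', RGd k A Q' lab N β g := by
  obtain ⟨κ, C, hκ, hC, l, hl⟩ := h.ind
  obtain ⟨Q1, -, hV, ⟨h1, h2⟩, h3, h4, -⟩ := sel (M := Unit) (M' := Empty) h.st.reg.good.val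
    (h.st.keep.and (Keep.all fun l => keep_tight (h.tb l))) (freq_fr h.st.reg.good.val.big hκ hl)
    (fun _ n p => ind (RInd (A n) β (g n) C l p)) (fun _ _ _ => ⟨dya_ind_nonneg _, dya_ind_le _⟩)
    (fun m => m.elim) fun m => m.elim
  obtain ⟨γ, h4⟩ := h4 ()
  have h5 : κ / 2 ≤ γ := ge_of_tendsto (h4.lim hV.big) (h3.mono fun n a => by rwa [← fr_eq_avg])
  have h6 : Tight Q1 fun n => RInd (A n) β (g n) C := fun θ hθ => by
    obtain ⟨l', a1, a2⟩ := ((h4.most hV.big (θ := κ / 4) (by positivity) θ hθ).and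
      (eventually_ge_atTop l)).exists
    refine ⟨l' + 1, a1.mono fun n a => (fr_mono fun p _ k k' => k ?_).trans a⟩
    beta_reduce at k'
    rw [← fr_eq_avg] at k'
    obtain ⟨q, q1, q2⟩ := rk_fr_pos (U := anc l' p) (P := RInd (A n) β (g n) C l)
      (by linarith [(abs_le.1 k').1])
    exact q2.anc a2 q1
  obtain ⟨Q2, -, hV2, k1, -, k2, k3⟩ := sel (M := Fin 3 × (Fin (r + 2) → ℚ) × ℚ) (M' := Option ℕ)
    hV (h1 hV).keep (rk_freq Q1) (fun m n p => ind (∃ t ∈ (A n).T, (A n).loc t = p ∧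
      ‖g n (t m.1) - fun j => (m.2.1 j : ℝ)‖ ≤ m.2.2))
    (fun _ _ _ => ⟨dya_ind_nonneg _, dya_ind_le _⟩)
    (fun m => m.elim (fun n => RInd (A n) β (g n) C)
      fun l n c p => ∀ t ∈ (A n).TW p l, ∀ i, ‖g n (t i)‖ ≤ c) fun m => by
      rcases m with _ | l
      exacts [h6, h2 l]
  exact ⟨Q2, k1 hV2, h.one, h.chi, h.mem, fun l => k3 (some l), ⟨C, hC, k3 none⟩,
    fun i y γ => k2 (i, y, γ)⟩

theorem rk_bdd (h : RGd k A Q lab N β g) {θ : ℝ} (hθ : 0 < θ) : ∃ c : ℝ, Most Q fun n l p =>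
    cnt ((A n).TW p l) (fun t => ∃ i, c < ‖g n (t i)‖) ≤ θ * 4 ^ l := by
  obtain ⟨c, hc⟩ := (h.tb 0).most h.st.reg.good.val.big hθ
  refine ⟨c, hc.mono (Eventually.of_forall fun l => Eventually.of_forall fun n p _ a => ?_)⟩
  refine le_trans (cnt_mono fun t ht k => ⟨ht, fun k' => ?_⟩)
    ((rk_bad (h.st.reg.good.val.ok n) (P := fun t => ∀ i, ‖g n (t i)‖ ≤ c)).trans a)
  obtain ⟨i, hi⟩ := k
  exact hi.not_ge (k' i)

theorem rk_rgp (h : RGd k A Q lab N β g) {η : ℝ} (hη : 0 < η) : ∃ C : ℝ, Most Q fun n l p =>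
    ∀ (a : Fin (r + 2) → ℝ) (b : ℝ), 0 ≤ b →
      η * 4 ^ l ≤ cnt ((A n).TW p l) (fun t => |a ⬝ᵥ g n (t β)| ≤ b) → ‖a‖ ≤ C * b := by
  obtain ⟨C, -, hC⟩ := h.ind
  have hb := h.st.reg.good.val.big
  have hθ : 0 < η / 210 := by positivity
  obtain ⟨l2, h1⟩ := hC.most hb hθ
  obtain ⟨c, h2⟩ := (h.st.reg.gp N l2 (η / 250) (by positivity)).most hb hθ
  obtain ⟨c1, h3⟩ := (h.st.hof N (c + l2)).most hb hθ
  refine ⟨C * c1, (h1.and (h2.and h3)).mono ?_⟩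
  filter_upwards [eventually_ge_atTop (c + l2)] with l hl
  filter_upwards [h.mem] with n hn p _ ⟨a1, a2, a3⟩ a b hb0 ha
  obtain ⟨q, -, ⟨q1, q2, q3⟩, q4⟩ := (h.st.reg.good.val.ok n).amplify hl hη ha
    (G := fun q => RInd (A n) β (g n) C l2 q ∧ GP (A n) (lab n) N (η / 250) (c + l2) q ∧
      Hof (A n).x (LV (lab n) ^ N) ((A n).TW q (c + l2)) c1) (by
      have e1 := cnt_or (S := Wn p l) (P := fun q => ¬ (RInd (A n) β (g n) C l2 q ∧
        GP (A n) (lab n) N (η / 250) (c + l2) q ∧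
        Hof (A n).x (LV (lab n) ^ N) ((A n).TW q (c + l2)) c1)) fun q _ k => not_and_or.1 k
      have e2 := cnt_or (S := Wn p l) (P := fun q => ¬ (GP (A n) (lab n) N (η / 250) (c + l2) q ∧
        Hof (A n).x (LV (lab n) ^ N) ((A n).TW q (c + l2)) c1)) fun q _ k => not_and_or.1 k
      linarith)
  have h4 := rk_small q2 q3 (rk_dot (fun e => (hn e).1) a) hb0 q4
  rw [mul_assoc]
  exact q1 a _ (by positivity) fun t ht => h4 t (TW_le q (Nat.le_add_left _ _) ht)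

theorem rk_hom (h : RGd k A Q lab N β g) (i : Fin 3) (y : Fin (r + 2) → ℝ) {γ κ : ℝ} (hγ : 0 < γ)
    (hκ : 0 < κ)
    (h0 : ∀ᶠ n in UU, κ * 4 ^ (Q n).j ≤ cnt ((A n).TB (Q n)) fun t => ‖g n (t i) - y‖ ≤ γ) :
    Most Q fun n l p => κ / 2 * 4 ^ l ≤ cnt ((A n).TW p l) fun t => ‖g n (t i) - y‖ ≤ 2 * γ := by
  have hγ4 : 0 < γ / 4 := by positivity
  choose y' hy using fun j => exists_rat_near (y j) hγ4
  obtain ⟨γ', g1, g2⟩ := exists_rat_btwn (show 5 / 4 * γ < 7 / 4 * γ by linarith)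
  obtain ⟨γ0, h1⟩ := h.dh i y' γ'
  have hb := h.st.reg.good.val.big
  have hok := h.st.reg.good.val.ok
  have h2 : ‖y - fun j => (y' j : ℝ)‖ ≤ γ / 4 :=
    (pi_norm_le_iff_of_nonneg hγ4.le).2 fun j => (hy j).le
  have h3 : κ ≤ γ0 := ge_of_tendsto (h1.lim hb) (h0.mono fun n a => by
    rw [rk_avg (hok n) _ fun t => ‖g n (t i) - fun j => (y' j : ℝ)‖ ≤ γ',
      le_div_iff₀ (by positivity)]
    refine a.trans (cnt_mono fun t ht k => ⟨ht, ?_⟩)
    linarith [norm_sub_le_norm_sub_add_norm_sub (g n (t i)) y fun j => (y' j : ℝ)])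
  refine (h1.most hb (half_pos hκ)).mono
    (Eventually.of_forall fun l => Eventually.of_forall fun n p _ a => ?_)
  rw [rk_avg (hok n) _ fun t => ‖g n (t i) - fun j => (y' j : ℝ)‖ ≤ γ'] at a
  have h4 : κ / 2 ≤ cnt ((A n).TB (anc l p))
      (fun t => ‖g n (t i) - fun j => (y' j : ℝ)‖ ≤ γ') / 4 ^ (anc l p).j := by
    linarith [(abs_le.1 a).1]
  refine ((le_div_iff₀ (by positivity)).1 h4).trans
    (cnt_mono fun t ht k => ⟨TB_anc_sub p l ht, ?_⟩)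
  rw [norm_sub_rev] at h2
  linarith [norm_sub_le_norm_sub_add_norm_sub (g n (t i)) (fun j => (y' j : ℝ)) y]

theorem rk_app (h : RGd k A Q lab N β g) {l : ℕ} {ε θ : ℝ} (hε : 0 < ε) (hθ : 0 < θ)
    (hn : ¬ ∀ᶠ L in atTop, ∀ᶠ n in UU, (Q n).fr (fun p =>
      ∃ f ∈ WN (A n) (lab n) N, (A n).Sm (anc L p) β f 1 ∧ θ < (anc L p).fr fun q =>
        ¬ ∃ a : Fin (r + 2) → ℝ, ∀ t ∈ (A n).TW q l, |f (t β) - a ⬝ᵥ g n (t β)| ≤ ε) ≤ θ) :
    ∃ Q' g', RSt (r := r + 1) k A Q' lab N β g' := by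
  obtain ⟨C, hC, hI⟩ := h.ind
  obtain ⟨Q', -, hV, ⟨h1, h2, h3⟩, h4, -⟩ := sel (M := Empty) (M' := Empty) h.st.reg.good.val
    (h.st.keep.and ((Keep.all fun l => keep_stight (h.tb l)).and (keep_stight hI)))
    (W := fun n B => ∃ f ∈ WN (A n) (lab n) N, (A n).Sm B β f 1 ∧ θ < B.fr fun q =>
        ¬ ∃ a : Fin (r + 2) → ℝ, ∀ t ∈ (A n).TW q l, |f (t β) - a ⬝ᵥ g n (t β)| ≤ ε)
    ⟨θ, hθ, (not_eventually.1 hn).mono fun L a => (UU_not a).mono fun n b => (not_le.1 b).le⟩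
    (fun m => m.elim) (fun m => m.elim) (fun m => m.elim) fun m => m.elim
  replace h1 := h1 hV
  obtain ⟨f, hf⟩ := UU_choose h4
  obtain ⟨δ, hδ, hd, -⟩ := h1.reg.good.dens
  have h5 : ∀ l, Tight Q' fun n c p => ∀ t ∈ (A n).TW p l, ∀ i, |f n (t i)| ≤ c := fun l θ hθ => by
    obtain ⟨c, -, hc⟩ := h1.conc_ker l (half_pos hδ) hθ
    refine ⟨⌈c⌉₊, ?_⟩
    filter_upwards [hc, hf, hd] with n a1 a2 a3
    refine le_trans (fr_mono fun p _ k => ?_)
      (a1 (f n) (reg_WN_mono (Nat.le_succ N) a2.1) 1 zero_le_one ?_)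
    · by_contra k'
      refine k fun t ht i => not_lt.1 fun k'' => k' ⟨t, ht, i, ?_⟩
      linarith [Nat.le_ceil c]
    · have := a2.2.1
      unfold Arr.Sm at this
      linarith
  refine ⟨Q', fun n y => (Fin.snoc (α := fun _ => ℝ) (g n y) (f n y) : Fin (r + 2 + 1) → ℝ), h1,
    fun n a => ?_, fun n a => ?_, ?_, fun l => ?_, ?_⟩
  · rw [← h.one n a]
    exact Fin.snoc_castSucc (α := fun _ => ℝ) _ _ (0 : Fin (r + 2))
  · rw [← h.chi n a]
    exact Fin.snoc_castSucc (α := fun _ => ℝ) _ _ (1 : Fin (r + 2))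
  · filter_upwards [h.mem, hf] with n a1 a2 e
    refine Fin.lastCases ?_ (fun e => ?_) e
    · simpa only [Fin.snoc_last] using a2.1
    · simpa only [Fin.snoc_castSucc] using a1 e
  · refine rk_and ((h2 l).tight hV.big) (h5 l) fun c c' => ⟨c + c', fun n p a1 a2 t ht i => ?_⟩
    have b1 : (0 : ℝ) ≤ c := by positivity
    have b2 : (0 : ℝ) ≤ c' := by positivity
    rw [pi_norm_le_iff_of_nonneg (by positivity), Nat.cast_add]
    intro e
    refine Fin.lastCases ?_ (fun e => ?_) e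
    · rw [Fin.snoc_last, Real.norm_eq_abs]
      linarith [a2 t ht i]
    · rw [Fin.snoc_castSucc]
      linarith [a1 t ht i, norm_le_pi_norm (g n (t i)) e]
  · have hθ4 : 0 < θ / 4 := by positivity
    obtain ⟨l1, k1⟩ := h3.tight hV.big _ hθ4
    obtain ⟨c, k2⟩ := h5 (l + l1) _ hθ4
    refine ⟨θ / 2, C * (1 + c / ε) + 1 / ε, half_pos hθ, by positivity, l + l1, ?_⟩
    filter_upwards [k1, k2, hf] with n a1 a2 a3
    have e1 := fr_or (Q := Q' n) (P := fun q => ¬ ∃ a : Fin (r + 2) → ℝ,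
        ∀ t ∈ (A n).TW q l, |f n (t β) - a ⬝ᵥ g n (t β)| ≤ ε)
      (P1 := RInd (A n) β (fun y => (Fin.snoc (α := fun _ => ℝ) (g n y) (f n y) :
        Fin (r + 2 + 1) → ℝ)) (C * (1 + c / ε) + 1 / ε) (l + l1))
      (P2 := fun q => ¬ RInd (A n) β (g n) C l1 q ∨
        ¬ ∀ t ∈ (A n).TW q (l + l1), ∀ i, |f n (t i)| ≤ c) fun q _ k => by
        by_contra k'
        rw [not_or, not_or, not_not, not_not] at k'
        refine k'.1 (rk_ext hε (by positivity) hC (k'.2.1.mono (TW_le q (Nat.le_add_left _ _)))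
          (fun t ht => k'.2.2 t ht β) fun ⟨a, ha⟩ => k ⟨a, fun t ht => ha t ?_⟩)
        exact TW_le q (Nat.le_add_right _ _) ht
    have e2 := fr_or (Q := Q' n) (P := fun q => ¬ RInd (A n) β (g n) C l1 q ∨
      ¬ ∀ t ∈ (A n).TW q (l + l1), ∀ i, |f n (t i)| ≤ c) fun q _ k => k
    linarith [a3.2.2]

end Aux

/-- a maximal family of bounded labels -/
theorem St3.rk_sel {D k N : ℕ} {A : ℕ → Arr ℕ} {Q : ℕ → Bx} {lab : ℕ → ℕ → Fin D → ℝ} {β : Fin 3}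
    (h : St3 k A Q lab N β) : ∃ (Q' : ℕ → Bx) (r : ℕ) (g : ℕ → ℕ → Fin (r + 2) → ℝ),
      St3 k A Q' lab N β ∧ Lb A Q' lab N β g := by
  by_contra hn
  obtain ⟨E, hE⟩ := rk_bound h
  have key : ∀ r, ∃ Q' g, RSt (r := r) k A Q' lab N β g := fun r => by
    induction r with
    | zero => exact ⟨_, _, rk_init h⟩
    | succ r ih =>
      obtain ⟨Q1, g, hg⟩ := ih
      obtain ⟨Q2, h2⟩ := rk_improve hg
      by_contra k
      refine hn ⟨Q2, r, g, h2.st, ⟨h2.mem.mono fun n a e => (a e).2, h2.one, h2.chi,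
        fun θ hθ => rk_bdd h2 hθ, fun η hη => rk_rgp h2 hη,
        fun i y γ κ hγ hκ => rk_hom h2 i y hγ hκ⟩, h2.mem, fun l ε θ hε hθ => ?_⟩
      by_contra k'
      exact k (rk_app h2 hε hθ k')
  obtain ⟨Q', g, hg⟩ := key E
  exact (hE Q' E g hg).false

end Pool.Agent.MP_38296a_co.H21

end FileRk

section FileFdat

set_option autoImplicit false

namespace Pool.Agent.MP_38296a_co.H21

open Finset Filter Classical

theorem fdat_box {Q : Bx} {L : ℕ} (hL : L ≤ Q.j) {P Bad : Cell → Prop} {θ : ℝ} (hθ : 0 ≤ θ)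
    (h : ∀ p ∈ Q.cells, ¬ Bad p → (anc L p).fr P ≤ θ) : Q.fr P ≤ Q.fr Bad + θ := by
  rw [fr_eq_avg, ← avg_anc hL, fr_eq_avg, ← avg_const Q θ, ← avg_add]
  refine avg_mono fun p hp => ?_
  rw [← fr_eq_avg]
  by_cases hb : Bad p
  · have := fr_le_one (anc L p) P
    simp only [ind, hb, if_true]; linarith
  · simp only [ind, hb, if_false]; linarith [h p hp hb]

theorem fdat_fib {ι : Type} (A : Arr ι) (B : Bx) (P : Tri ι → Prop) :
    cnt (A.TB B) P = ∑ q ∈ B.cells, cnt A.T fun t => A.loc t = q ∧ P t := by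
  unfold cnt
  rw [← Nat.cast_sum, Nat.cast_inj,
    card_eq_sum_card_fiberwise (f := A.loc) (t := B.cells)]
  · refine sum_congr rfl fun q hq => ?_
    congr 1
    ext t
    simp only [Arr.TB, mem_filter]
    constructor
    · rintro ⟨⟨⟨h1, -⟩, h2⟩, h3⟩; exact ⟨h1, h3, h2⟩
    · rintro ⟨h1, h3, h2⟩; exact ⟨⟨⟨h1, h3 ▸ hq⟩, h2⟩, h3⟩
  · intro t ht
    simp only [Arr.TB, coe_filter, mem_filter, Set.mem_ofPred_eq] at ht
    exact ht.1.2

theorem fdat_markov {ι : Type} (A : Arr ι) {Q : Bx} {L : ℕ} (hL : L ≤ Q.j) (P : Tri ι → Prop)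
    {c θ : ℝ} (hc : 0 < c) (h : cnt (A.TB Q) P ≤ c * θ * 4 ^ Q.j) :
    Q.fr (fun p => c * 4 ^ L ≤ cnt (A.TB (anc L p)) P) ≤ θ := by
  have h1 := fr_markov Q (f := fun p => (anc L p).avg fun q => cnt A.T fun t => A.loc t = q ∧ P t)
    (fun p _ => avg_nonneg fun q _ => cnt_nonneg _ _) hc
  rw [avg_anc hL] at h1
  refine le_trans (fr_mono fun p _ hp => ?_) (h1.trans ?_)
  · rw [fdat_fib] at hp
    unfold Bx.avg
    rw [le_div_iff₀ (by positivity)]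
    exact hp
  · rw [fdat_fib] at h
    unfold Bx.avg
    rw [div_le_iff₀ hc, div_le_iff₀ (by positivity)]
    linarith

theorem fdat_z {Q : Bx} {p : Cell} (hp : p ∈ Q.cells) : 0 ≤ (Q.z p).1 ∧ (Q.z p).1 ≤ 1 := by
  simp only [Bx.cells, mem_product, mem_Ico] at hp
  have h1 : ((Q.u * 2 ^ Q.j : ℤ) : ℝ) ≤ p.1 := by exact_mod_cast hp.1.1
  have h2 : (p.1 : ℝ) ≤ (((Q.u + 1) * 2 ^ Q.j : ℤ) : ℝ) := by exact_mod_cast hp.1.2.le
  simp only [Bx.z, Bx.o]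
  push_cast at h1 h2 ⊢
  exact ⟨div_nonneg (by linarith) (by positivity), (div_le_one (by positivity)).2 (by linarith)⟩

theorem fdat_om {ι : Type} {A : Arr ι} (hA : A.Ok) {Q : Bx} {σ w : ι → ℝ} (hf : FlexT A Q σ w)
    {p : Cell} {l : ℕ} {e : ℝ} {t : Tri ι} (ht : t ∈ A.TW p l)
    (hw : ∀ i, 2 ^ l / 2 ^ Q.j * |w (t i)| ≤ e) :
    |Om A.x (fun a => σ a + (Q.z p).1 * w a) t| ≤ 14 * e := by
  have hT := TW_sub p l ht
  obtain ⟨X, Y, h1, h2, h3, -, -⟩ := hA.vtx t hT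
  have h4 := hf t hT X Y h1
  have h5 : |(A.loc t).1 - p.1| ≤ 2 ^ l := (mem_filter.1 ht).2.1
  have h6 : |((A.loc t).1 : ℝ) - p.1| ≤ 2 ^ l := by exact_mod_cast h5
  have h7 : (1 : ℝ) ≤ 2 ^ l := one_le_pow₀ (by norm_num)
  have hJ : (0 : ℝ) < 2 ^ Q.j := by positivity
  have h8 : |(p.1 : ℝ) - X| ≤ 2 * 2 ^ l := by
    rw [abs_le] at h6 ⊢; constructor <;> linarith [h6.1, h6.2]
  have e1 : Om A.x (fun a => σ a + (Q.z p).1 * w a) t =
      ∑ i, co A.x t i * (((p.1 : ℝ) - X) / 2 ^ Q.j * w (t i)) := by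
    rw [← sub_zero (Om _ _ _), ← h4]
    simp only [Om, Bx.z, ← sum_sub_distrib]
    exact sum_congr rfl fun i _ => by ring
  have e2 : ∀ i, |co A.x t i * (((p.1 : ℝ) - X) / 2 ^ Q.j * w (t i))| ≤ 11 / 5 * (2 * e) := by
    intro i
    rw [abs_mul]
    refine mul_le_mul (hA.co_bd hT i).2 ?_ (abs_nonneg _) (by norm_num)
    rw [abs_mul, abs_div, abs_of_pos hJ]
    calc _ ≤ 2 * 2 ^ l / 2 ^ Q.j * |w (t i)| :=
          mul_le_mul_of_nonneg_right (div_le_div_of_nonneg_right h8 hJ.le) (abs_nonneg _)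
      _ = 2 * (2 ^ l / 2 ^ Q.j * |w (t i)|) := by ring
      _ ≤ 2 * e := by linarith [hw i]
  have he : 0 ≤ e := le_trans (by positivity) (hw 0)
  rw [e1]
  refine (abs_sum_le_sum_abs _ _).trans ?_
  rw [Fin.sum_univ_three]
  linarith [e2 0, e2 1, e2 2]

/-- the argument inside a good box -/
theorem fdat_good {D N r : ℕ} {A : Arr ℕ} (hA : A.Ok) {Q : Bx} {lab : ℕ → Fin D → ℝ} {β : Fin 3}
    {g : ℕ → Fin (r + 2) → ℝ} {σ w : ℕ → ℝ} (hσ : σ ∈ LV lab ^ (N + 1))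
    (hw : w ∈ LV lab ^ (N + 1)) (hf : FlexT A Q σ w) (hg : ∀ e, (fun a => g a e) ∈ WN A lab N)
    {l l' L : ℕ} (hl : l ≤ l') (hl' : l' ≤ L) {c1 c2 C δ e1 ε θ : ℝ} (hc1 : 1 ≤ c1) (hc2 : 1 ≤ c2)
    (hC : 0 < C) (he0 : 0 < e1) (he1 : e1 ≤ 1) (he : 3 * c1 * e1 ≤ ε) {p : Cell}
    (hp : p ∈ Q.cells) (h1 : δ * 4 ^ L ≤ #(A.TB (anc L p)))
    (h2 : cnt (A.TB (anc L p)) (fun t => ∃ i, C * 1 < |σ (t i)| + |w (t i)|) < δ / 2 * 4 ^ L)
    (h3 : ¬ ∃ f ∈ WN A lab N, A.Sm (anc L p) β f 1 ∧ θ < (anc L p).fr fun q =>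
      ¬ ∃ a : Fin (r + 2) → ℝ, ∀ t ∈ A.TW q l', |f (t β) - a ⬝ᵥ g (t β)| ≤ e1 / (C + 1))
    (h4 : ApW A lab N (L + 1) c2 p)
    (h5 : ¬ ∃ t ∈ A.TW p (L + 1), ∃ i, e1 / (14 * c2) * 1 < 2 ^ (L + 1) / 2 ^ Q.j * |w (t i)|) :
    (anc L p).fr (fun q => TrW A lab (N + 1) β l' c1 q ∧ ¬ ∃ a : Fin (r + 2) → ℝ,
      ∀ t ∈ A.TW q l, ∀ i, |σ (t i) + (Q.z q).1 * w (t i) - a ⬝ᵥ g (t i)| ≤ ε) ≤ θ := by
  push Not at h3 h5
  simp only [mul_one] at h2 h5
  have hC1 : 0 < C + 1 := by linarith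
  have hφ : (fun a => σ a + (Q.z p).1 * w a) ∈ LV lab ^ (N + 1) :=
    Submodule.add_mem _ hσ (Submodule.smul_mem _ (Q.z p).1 hw)
  obtain ⟨h, hh, hd⟩ := h4 _ hφ (14 * (e1 / (14 * c2))) (by positivity)
    fun t ht => fdat_om hA hf ht (h5 t ht)
  have ec : c2 * (14 * (e1 / (14 * c2))) = e1 := by field_simp
  rw [ec] at hd
  have hz := fdat_z hp
  have hsm : A.Sm (anc L p) β ((C + 1)⁻¹ • h) 1 := by
    unfold Arr.Sm
    have k1 := cnt_add_not (A.TB (anc L p)) fun t => ∃ i, C < |σ (t i)| + |w (t i)|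
    have k2 : cnt (A.TB (anc L p)) (fun t => ¬ ∃ i, C < |σ (t i)| + |w (t i)|) ≤
        cnt (A.TB (anc L p)) fun t => |((C + 1)⁻¹ • h) (t β)| ≤ 1 := by
      refine cnt_mono fun t ht hn => ⟨ht, ?_⟩
      push Not at hn
      have k3 := hd t (TW_le p (Nat.le_succ L) (TB_anc_sub p L ht)) β
      have k4 : |σ (t β) + (Q.z p).1 * w (t β)| ≤ C := by
        refine (abs_add_le _ _).trans (le_trans ?_ (hn β))
        rw [abs_mul, abs_of_nonneg hz.1]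
        linarith [mul_le_of_le_one_left (abs_nonneg (w (t β))) hz.2]
      rw [Pi.smul_apply, smul_eq_mul, abs_mul, abs_of_pos (inv_pos.2 hC1), inv_mul_le_iff₀ hC1]
      rw [abs_le] at k3 k4 ⊢
      constructor <;> linarith [k3.1, k3.2, k4.1, k4.2]
    linarith
  refine le_trans (fr_mono fun q hq hb => ?_) (h3 _ (Submodule.smul_mem _ _ hh) hsm)
  obtain ⟨hT, hb⟩ := hb
  by_contra hn
  push Not at hn
  obtain ⟨a, ha⟩ := hn
  refine hb ⟨(C + 1) • a, fun t ht i => ?_⟩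
  have hu : (h - ∑ e, ((C + 1) * a e) • fun y => g y e) ∈ WN A lab N :=
    Submodule.sub_mem _ hh (Submodule.sum_mem _ fun e _ => Submodule.smul_mem _ _ (hg e))
  have hv : ∀ y, (h - ∑ e, ((C + 1) * a e) • fun y => g y e) y = h y - ((C + 1) • a) ⬝ᵥ g y := by
    intro y
    simp [dotProduct, Finset.sum_apply]
  have k1 := hT _ (LV_pow_mono (Nat.le_succ N) hu.1) e1 he0.le (fun u hu' => by
    refine ⟨?_, by rw [hu.2 u (TW_sub q l' hu'), abs_zero]; exact he0.le⟩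
    have k := ha u hu'
    rw [le_div_iff₀ hC1, ← abs_of_pos hC1, ← abs_mul, abs_of_pos hC1] at k
    rw [hv, smul_dotProduct, smul_eq_mul]
    refine le_trans (le_of_eq ?_) k
    congr 1
    rw [Pi.smul_apply, smul_eq_mul]
    field_simp) t (TW_le q hl ht) i
  rw [hv] at k1
  have hc := anc_close hq
  have ht' : t ∈ A.TW p (L + 1) := by
    refine TW_mono (Nat.lt_succ_self L) hc.1.le (hc.2.le.trans ?_) (TW_le q (hl.trans hl') ht)
    have : (0 : ℤ) < 2 ^ L := by positivity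
    linarith
  have k2 := hd t ht' i
  have k3 : |((Q.z q).1 - (Q.z p).1) * w (t i)| ≤ e1 := by
    have hJ : (0 : ℝ) < 2 ^ Q.j := by positivity
    have k4 : |(q.1 : ℝ) - p.1| ≤ 2 ^ (L + 1) := by
      have : |(q.1 : ℝ) - p.1| ≤ 2 ^ L := by exact_mod_cast hc.1.le
      have h0 : (0 : ℝ) < 2 ^ L := by positivity
      rw [pow_succ]; linarith
    have k5 : (Q.z q).1 - (Q.z p).1 = ((q.1 : ℝ) - p.1) / 2 ^ Q.j := by
      simp only [Bx.z]; ring
    rw [k5, abs_mul, abs_div, abs_of_pos hJ]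
    refine (mul_le_mul_of_nonneg_right (div_le_div_of_nonneg_right k4 hJ.le)
      (abs_nonneg _)).trans ((h5 t ht' i).trans (div_le_self he0.le (by linarith)))
  have k6 : e1 ≤ c1 * e1 := le_mul_of_one_le_left he0.le hc1
  rw [abs_le] at k1 k2 k3 ⊢
  constructor <;> nlinarith [k1.1, k1.2, k2.1, k2.2, k3.1, k3.2]

theorem fdat_one {D k N r : ℕ} {A : ℕ → Arr ℕ} {Q : ℕ → Bx} {lab : ℕ → ℕ → Fin D → ℝ} {β : Fin 3}
    {g : ℕ → ℕ → Fin (r + 2) → ℝ} (h : St3 k A Q lab N β) (hL : Lb A Q lab N β g)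
    {σ w : ℕ → ℕ → ℝ} (hψ : ∀ᶠ n in UU, σ n ∈ LV (lab n) ^ (N + 1) ∧ w n ∈ LV (lab n) ^ (N + 1) ∧
      FlexT (A n) (Q n) (σ n) (w n) ∧ (A n).Sm (Q n) β (σ n) 1 ∧ (A n).Sm (Q n) β (w n) 1)
    (l : ℕ) {ε : ℝ} (hε : 0 < ε) : ∀ᶠ n in UU, (Q n).fr (fun q => ¬ ∃ a : Fin (r + 2) → ℝ,
      ∀ t ∈ (A n).TW q l, ∀ i,
        |σ n (t i) + ((Q n).z q).1 * w n (t i) - a ⬝ᵥ g n (t i)| ≤ ε) ≤ ε := by
  have hθ : 0 < ε / 10 := by linarith
  obtain ⟨l', hl', c1, hc1, h1⟩ := ((eventually_ge_atTop l).and (h.trans hθ)).exists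
  obtain ⟨δ, hδ, -, hden⟩ := h.reg.good.dens
  obtain ⟨C, hC, h2⟩ := h.lam_mass (θ := δ / 2 * (ε / 10)) (by positivity)
  have he0 : 0 < min (ε / (3 * c1)) 1 := lt_min (by positivity) one_pos
  have he : 3 * c1 * min (ε / (3 * c1)) 1 ≤ ε := by
    have : min (ε / (3 * c1)) 1 ≤ ε / (3 * c1) := min_le_left _ _
    rw [le_div_iff₀ (by positivity)] at this
    linarith
  obtain ⟨L, hL', h3, h4, c2, hc2, h5⟩ := ((eventually_ge_atTop l').and
    ((hL.app l' (min (ε / (3 * c1)) 1 / (C + 1)) (ε / 10) (by positivity) hθ).and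
      ((hden _ hθ).and ((tendsto_add_atTop_nat 1).eventually (h.appr hθ))))).exists
  have h6 := h.lam_win (L + 1) (ε := min (ε / (3 * c1)) 1 / (14 * c2)) (by positivity) hθ
  filter_upwards [hψ, h1, h2, h3, h4, h5, h6, hL.mem,
    h.reg.good.val.big.eventually (eventually_ge_atTop L)] with n hψ h1 h2 h3 h4 h5 h6 hg hj
  obtain ⟨hσ, hw, hf, s1, s2⟩ := hψ
  have k2 := fdat_markov (A n) hj _ (half_pos hδ) (h2 _ hσ _ hw 1 zero_le_one hf s1 s2)
  have k6 := h6 _ hσ _ hw 1 zero_le_one hf s1 s2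
  have k := fdat_box (Q := Q n) hj hθ.le (Bad := fun p =>
      ((¬ δ * 4 ^ L ≤ #((A n).TB (anc L p)) ∨ δ / 2 * 4 ^ L ≤ cnt ((A n).TB (anc L p))
        (fun t => ∃ i, C * 1 < |σ n (t i)| + |w n (t i)|)) ∨
      (∃ f ∈ WN (A n) (lab n) N, (A n).Sm (anc L p) β f 1 ∧ ε / 10 < (anc L p).fr fun q =>
        ¬ ∃ a : Fin (r + 2) → ℝ, ∀ t ∈ (A n).TW q l',
          |f (t β) - a ⬝ᵥ g n (t β)| ≤ min (ε / (3 * c1)) 1 / (C + 1))) ∨
      (¬ ApW (A n) (lab n) N (L + 1) c2 p ∨ ∃ t ∈ (A n).TW p (L + 1), ∃ i,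
        min (ε / (3 * c1)) 1 / (14 * c2) * 1 < 2 ^ (L + 1) / 2 ^ (Q n).j * |w n (t i)|))
    fun p hp hb => by
      simp only [not_or, not_not] at hb
      obtain ⟨⟨⟨b1, b2⟩, b3⟩, b4, b5⟩ := hb
      exact fdat_good (h.reg.good.val.ok n) hσ hw hf hg hl' hL' hc1 hc2 hC he0 (min_le_right _ _)
        he hp b1 (not_le.1 b2) b3 b4 b5
  replace k := k.trans (add_le_add_left ((fr_or fun p _ hp => hp).trans (add_le_add
    ((fr_or fun p _ hp => hp).trans (add_le_add ((fr_or fun p _ hp => hp).trans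
      (add_le_add h4 k2)) h3)) ((fr_or fun p _ hp => hp).trans (add_le_add h5 k6)))) _)
  refine (fr_or fun q _ hq => ?_).trans ((add_le_add h1 k).trans (by linarith))
  by_cases hT : TrW (A n) (lab n) (N + 1) β l' c1 q
  · exact Or.inr ⟨hT, hq⟩
  · exact Or.inl hT

/-- the field describing a bounded deformation -/
theorem fdat {D k N r : ℕ} {A : ℕ → Arr ℕ} {Q : ℕ → Bx} {lab : ℕ → ℕ → Fin D → ℝ} {β : Fin 3}
    {g : ℕ → ℕ → Fin (r + 2) → ℝ} (h : St3 k A Q lab N β) (hL : Lb A Q lab N β g)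
    {σ w : ℕ → ℕ → ℝ} (hψ : ∀ᶠ n in UU, σ n ∈ LV (lab n) ^ (N + 1) ∧ w n ∈ LV (lab n) ^ (N + 1) ∧
      FlexT (A n) (Q n) (σ n) (w n) ∧ (A n).Sm (Q n) β (σ n) 1 ∧ (A n).Sm (Q n) β (w n) 1) :
    ∃ F, BD A Q g σ w F := by
  obtain ⟨m, hm, h1⟩ := UU_diag (P := fun i n => (Q n).fr (fun q => ¬ ∃ a : Fin (r + 2) → ℝ,
      ∀ t ∈ (A n).TW q i, ∀ j, |σ n (t j) + ((Q n).z q).1 * w n (t j) - a ⬝ᵥ g n (t j)| ≤
        1 / ((i : ℝ) + 1)) ≤ 1 / ((i : ℝ) + 1))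
    fun i => fdat_one h hL hψ i (by positivity)
  have ex : ∀ n q, ∃ a : Fin (r + 2) → ℝ, (∃ a : Fin (r + 2) → ℝ, ∀ t ∈ (A n).TW q (m n), ∀ i,
      |σ n (t i) + ((Q n).z q).1 * w n (t i) - a ⬝ᵥ g n (t i)| ≤ 1 / ((m n : ℝ) + 1)) →
      ∀ t ∈ (A n).TW q (m n), ∀ i,
        |σ n (t i) + ((Q n).z q).1 * w n (t i) - a ⬝ᵥ g n (t i)| ≤ 1 / ((m n : ℝ) + 1) := by
    intro n q
    by_cases h2 : ∃ a : Fin (r + 2) → ℝ, ∀ t ∈ (A n).TW q (m n), ∀ i,
      |σ n (t i) + ((Q n).z q).1 * w n (t i) - a ⬝ᵥ g n (t i)| ≤ 1 / ((m n : ℝ) + 1)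
    · obtain ⟨a, ha⟩ := h2
      exact ⟨a, fun _ => ha⟩
    · exact ⟨0, fun h3 => absurd h3 h2⟩
  choose F hF using ex
  refine ⟨F, fun l ε hε => ?_, fun θ hθ => ?_⟩
  · have h2 : ∀ᶠ i : ℕ in atTop, 1 / ((i : ℝ) + 1) ≤ ε :=
      (tendsto_one_div_add_atTop_nhds_zero_nat (𝕜 := ℝ)).eventually (ge_mem_nhds hε)
    filter_upwards [h1, hm.eventually h2, hm.eventually (eventually_ge_atTop l)] with n h1 h2 h3
    refine le_trans ?_ ((h1 (m n) le_rfl).trans h2)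
    refine fr_mono fun q _ hq he => hq fun t ht i => ?_
    exact (hF n q he t (TW_le q h3 ht) i).trans h2
  · obtain ⟨C, -, h2⟩ := h.lam_mass hθ
    refine ⟨C * 1, ?_⟩
    filter_upwards [hψ, h2] with n h3 h2
    exact h2 _ h3.1 _ h3.2.1 1 zero_le_one h3.2.2.1 h3.2.2.2.1 h3.2.2.2.2

end Pool.Agent.MP_38296a_co.H21

end FileFdat

end
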