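import Pool.Agent.MP_38296a_co.Mg.H21_Dy

-- part MP_38296a_co.H21.Cross
section

section FileCross1

set_option autoImplicit false

namespace Pool.Agent.MP_38296a_co.H21

open Finset Filter Classical

/-- maximal inequality for an arbitrary finite set of cells -/
theorem cross_max (V : Finset Cell) (J : ℕ) {f : Cell → ℝ} (hf : ∀ p, 0 ≤ f p) (D : ℕ) {c : ℝ}
    (hc : 0 < c) : ∃ S : Finset Cell, (#S : ℝ) ≤ (2 * D + 1) ^ 4 * (∑ p ∈ V, f p) / c ∧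
      ∀ p : Cell, ∀ j ≤ J, c * 4 ^ j < ∑ q ∈ (anc j p).nb D ∩ V, f q → p ∈ S := by
  have hD : (0 : ℝ) < (2 * D + 1) ^ 2 := by positivity
  set c' : ℝ := c / (2 * D + 1) ^ 2 with hc'
  have hc0 : 0 < c' := by positivity
  let heavy : Cell → ℕ → Prop := fun q j => c' * 4 ^ j < ∑ r ∈ (anc j q).cells ∩ V, f r
  let top : Cell → ℕ := fun q => Nat.findGreatest (heavy q) J
  let H : Finset Cell := {q ∈ V | heavy q (top q)}
  let M : Finset Bx := H.image fun q => anc (top q) q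
  have htop : ∀ q ∈ H, ∀ r ∈ (anc (top q) q).cells, top r = top q := by
    intro q hq r hr
    have h1 : ∀ j, top q ≤ j → (heavy r j ↔ heavy q j) := fun j hj => by
      simp only [heavy, anc_eq hj hr]
    have h2 : top q ≤ top r :=
      Nat.le_findGreatest (Nat.findGreatest_le _) ((h1 _ le_rfl).2 (mem_filter.1 hq).2)
    have h3 : heavy r (top r) :=
      Nat.findGreatest_spec (Nat.findGreatest_le _) ((h1 _ le_rfl).2 (mem_filter.1 hq).2)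
    exact le_antisymm (Nat.le_findGreatest (Nat.findGreatest_le _) ((h1 _ h2).1 h3)) h2
  have hdis : (M : Set Bx).PairwiseDisjoint fun b => b.cells ∩ V := by
    intro b hb b' hb' hne
    obtain ⟨q, hq, rfl⟩ := mem_image.1 (mem_coe.1 hb)
    obtain ⟨q', hq', rfl⟩ := mem_image.1 (mem_coe.1 hb')
    refine disjoint_left.2 fun r hr hr' => hne ?_
    have hr := (mem_inter.1 hr).1
    have hr' := (mem_inter.1 hr').1
    have e1 : anc (top q) r = anc (top q) q := mem_cells.1 hr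
    have e2 : anc (top q') r = anc (top q') q' := mem_cells.1 hr'
    rw [← e1, ← e2, ← htop q hq r hr, ← htop q' hq' r hr']
  have hsum : ∑ b ∈ M, c' * 4 ^ b.j ≤ ∑ p ∈ V, f p := by
    calc _ ≤ ∑ b ∈ M, ∑ r ∈ b.cells ∩ V, f r := sum_le_sum fun b hb => by
          obtain ⟨q, hq, rfl⟩ := mem_image.1 hb
          exact (mem_filter.1 hq).2.le
      _ = ∑ r ∈ M.biUnion fun b => b.cells ∩ V, f r := (sum_biUnion hdis).symm
      _ ≤ _ := sum_le_sum_of_subset_of_nonneg (fun r hr => by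
          obtain ⟨b, -, hr⟩ := mem_biUnion.1 hr
          exact (mem_inter.1 hr).2) fun r _ _ => hf r
  refine ⟨M.biUnion fun b => b.nb D, ?_, ?_⟩
  · calc _ ≤ ∑ b ∈ M, (2 * D + 1 : ℝ) ^ 2 * 4 ^ b.j := by
          refine (Nat.cast_le.2 card_biUnion_le).trans (le_of_eq ?_)
          rw [Nat.cast_sum]
          exact sum_congr rfl fun b _ => basea_card_nb b D
      _ = (2 * D + 1) ^ 4 * (∑ b ∈ M, c' * 4 ^ b.j) / c := by
          rw [← mul_sum, ← mul_sum, hc']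
          field_simp
      _ ≤ _ := div_le_div_of_nonneg_right (mul_le_mul_of_nonneg_left hsum (by positivity)) hc.le
  · intro p j hj hp
    obtain ⟨y, -, hy⟩ := exists_lt_sum_fiber_of_maps_to_of_nsmul_lt_sum
      (s := (anc j p).nb D ∩ V) (w := f) (b := c' * 4 ^ j)
      (t := Icc (p.1 / 2 ^ j - D) (p.1 / 2 ^ j + D) ×ˢ Icc (p.2 / 2 ^ j - D) (p.2 / 2 ^ j + D))
      (f := fun q => (q.1 / 2 ^ j, q.2 / 2 ^ j)) (fun q hq => by
        have := basea_mem_nb.1 (mem_inter.1 hq).1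
        simp only [anc] at this
        simp only [mem_product, mem_Icc]
        exact this) (by
        rw [card_product, basea_card_Icc, basea_card_Icc, nsmul_eq_mul]
        refine lt_of_eq_of_lt ?_ hp
        rw [hc']
        push_cast
        field_simp)
    obtain ⟨q, hq⟩ := nonempty_of_sum_ne_zero (lt_trans (by positivity) hy).ne'
    have hq1 := mem_filter.1 hq
    have h1 : heavy q j := hy.trans_le (sum_le_sum_of_subset_of_nonneg (fun r hr => by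
      have e := (mem_filter.1 hr).2.trans hq1.2.symm
      rw [Prod.mk.injEq] at e
      exact mem_inter.2 ⟨mem_cells.2 (Bx.ext rfl e.1 e.2), (mem_inter.1 (mem_filter.1 hr).1).2⟩)
      fun r _ _ => hf r)
    have h2 : j ≤ top q := Nat.le_findGreatest hj h1
    refine mem_biUnion.2 ⟨_, mem_image_of_mem _ (mem_filter.2
      ⟨(mem_inter.1 hq1.1).2, Nat.findGreatest_spec hj h1⟩), ?_⟩
    have h3 := basea_mem_nb.1 (mem_inter.1 hq1.1).1
    rw [basea_mem_nb]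
    simp only [anc] at h3 ⊢
    rw [basea_div h2, basea_div h2 p.1, basea_div h2 q.2, basea_div h2 p.2]
    have k1 := basea_ediv (D := D) (top q - j) (x := p.1 / 2 ^ j) (y := q.1 / 2 ^ j) (by omega)
    have k2 := basea_ediv (D := D) (top q - j) (x := q.1 / 2 ^ j) (y := p.1 / 2 ^ j) (by omega)
    have k3 := basea_ediv (D := D) (top q - j) (x := p.2 / 2 ^ j) (y := q.2 / 2 ^ j) (by omega)
    have k4 := basea_ediv (D := D) (top q - j) (x := q.2 / 2 ^ j) (y := p.2 / 2 ^ j) (by omega)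
    omega

theorem cross_card_cells (Q : Bx) : (#Q.cells : ℝ) = 4 ^ Q.j := by
  rw [card_cells]
  push_cast
  rfl

theorem cross_ind_nonneg (P : Prop) : 0 ≤ ind P := by
  unfold ind
  split_ifs <;> norm_num

/-- counting objects attached to boxes -/
theorem cross_weight {α : Type} (S : Finset α) (P : α → Prop) (B : α → Bx) (V : Finset Cell)
    (lev : Cell → ℕ) {w : ℝ} (hw : 0 ≤ w)
    (h : ∀ a ∈ S, P a → ∀ p ∈ (B a).cells, p ∈ V ∧ lev p = (B a).j ∧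
      cnt S (fun a' => P a' ∧ p ∈ (B a').cells) ≤ w * 4 ^ lev p) : cnt S P ≤ w * #V := by
  have h1 : cnt S P ≤ ∑ a ∈ S, ∑ p ∈ V, ind (P a ∧ p ∈ (B a).cells) / 4 ^ lev p := by
    rw [cnt_eq_sum]
    refine sum_le_sum fun a ha => ?_
    by_cases hp : P a
    · rw [baseb_ind_pos hp]
      have e : (1 : ℝ) = ∑ p ∈ (B a).cells, ind (P a ∧ p ∈ (B a).cells) / 4 ^ lev p := by
        rw [sum_congr rfl (g := fun _ => (1 : ℝ) / 4 ^ (B a).j) fun p hq => by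
          rw [baseb_ind_pos ⟨hp, hq⟩, (h a ha hp p hq).2.1]]
        rw [sum_const, nsmul_eq_mul, cross_card_cells]
        field_simp
      rw [e]
      exact sum_le_sum_of_subset_of_nonneg (fun p hq => (h a ha hp p hq).1) fun p _ _ =>
        div_nonneg (cross_ind_nonneg _) (by positivity)
    · rw [baseb_ind_neg hp]
      exact sum_nonneg fun p _ => div_nonneg (cross_ind_nonneg _) (by positivity)
  refine h1.trans ?_
  rw [sum_comm, mul_comm, ← nsmul_eq_mul, ← sum_const]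
  refine sum_le_sum fun p _ => ?_
  rw [← sum_div, ← cnt_eq_sum, div_le_iff₀ (by positivity)]
  by_cases hx : ∃ a ∈ S, P a ∧ p ∈ (B a).cells
  · obtain ⟨a, ha, hp, hq⟩ := hx
    exact (h a ha hp p hq).2.2
  · rw [baseb_cnt_zero fun a ha hp => hx ⟨a, ha, hp⟩]
    positivity

theorem cross_nb_sub {b : Bx} {D m i : ℕ} {z : Cell} (hz : z ∈ b.nb D) (hi : i ≤ b.j) :
    (anc i z).nb m ⊆ b.nb (D + m) := by
  intro q hq
  have h3 := basea_mem_nb.1 hq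
  have h4 := basea_mem_nb.1 hz
  rw [basea_mem_nb]
  simp only [anc] at h3
  rw [basea_div hi, basea_div hi z.2] at h4
  rw [basea_div hi, basea_div hi q.2]
  have k1 := basea_ediv (D := m) (b.j - i) (x := z.1 / 2 ^ i) (y := q.1 / 2 ^ i) (by omega)
  have k2 := basea_ediv (D := m) (b.j - i) (x := q.1 / 2 ^ i) (y := z.1 / 2 ^ i) (by omega)
  have k3 := basea_ediv (D := m) (b.j - i) (x := z.2 / 2 ^ i) (y := q.2 / 2 ^ i) (by omega)
  have k4 := basea_ediv (D := m) (b.j - i) (x := q.2 / 2 ^ i) (y := z.2 / 2 ^ i) (by omega)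
  push_cast
  omega

theorem cross_cells_nb (b : Bx) (D : ℕ) : b.cells ⊆ b.nb D := by
  intro q hq
  have h1 := mem_cells.1 hq
  rw [Bx.ext_iff] at h1
  simp only [anc] at h1
  rw [basea_mem_nb]
  omega

theorem cross_anc_nb {b : Bx} {D i : ℕ} {z : Cell} (hz : z ∈ b.nb D) (hi : i ≤ b.j) :
    (anc i z).cells ⊆ b.nb D :=
  (cross_cells_nb _ 0).trans (cross_nb_sub hz hi)

theorem cross_nb_mono (b : Bx) {D D' : ℕ} (h : D ≤ D') : b.nb D ⊆ b.nb D' := by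
  intro q hq
  rw [basea_mem_nb] at hq ⊢
  omega

theorem cross_adj {b b' : Bx} (hj : b'.j = b.j) (hu : |b.u - b'.u| ≤ 1) (hv : |b.v - b'.v| ≤ 1) :
    b'.cells ⊆ b.nb 1 := by
  intro q hq
  have h1 := mem_cells.1 hq
  rw [Bx.ext_iff] at h1
  simp only [anc, hj] at h1
  rw [basea_mem_nb]
  rw [abs_le] at hu hv
  omega

theorem cross_sum_anc {V : Finset Cell} {l : ℕ} (h : ∀ p ∈ V, (anc l p).cells ⊆ V)
    (f : Cell → ℝ) : ∑ p ∈ V, (anc l p).avg f = ∑ p ∈ V, f p := by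
  simp only [Bx.avg, sum_div]
  rw [sum_comm' (t' := V) (s' := fun q => (anc l q).cells)]
  · refine sum_congr rfl fun q _ => ?_
    change ∑ _x ∈ (anc l q).cells, f q / 4 ^ l = f q
    rw [sum_const, card_cells, nsmul_eq_mul]
    simp only [anc]
    push_cast
    field_simp
  · intro p q
    constructor
    · rintro ⟨h1, h2⟩
      exact ⟨mem_cells.2 (mem_cells.1 h2).symm, h p h1 h2⟩
    · rintro ⟨h1, h2⟩
      exact ⟨h q h2 h1, mem_cells.2 (mem_cells.1 h1).symm⟩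

theorem cross_cnt_prod {α β : Type} (S : Finset α) (S' : Finset β) (P : α × β → Prop) :
    cnt (S ×ˢ S') P = ∑ a ∈ S, cnt S' fun b => P (a, b) := by
  simp only [cnt_eq_sum]
  exact sum_product _ _ _

theorem cross_cnt_mul {α β : Type} (S : Finset α) (S' : Finset β) (P : α → Prop) (Q : β → Prop) :
    cnt (S ×ˢ S') (fun e => P e.1 ∧ Q e.2) = cnt S P * cnt S' Q := by
  rw [cross_cnt_prod, cnt_eq_sum S P, sum_mul]
  refine sum_congr rfl fun a _ => ?_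
  by_cases hp : P a
  · rw [baseb_ind_pos hp, one_mul]
    exact le_antisymm (cnt_mono fun b hb h => ⟨hb, h.2⟩) (cnt_mono fun b hb h => ⟨hb, hp, h⟩)
  · rw [baseb_ind_neg hp, zero_mul]
    exact baseb_cnt_zero fun b _ h => hp h.1

theorem cross_four (l : ℕ) : (4 : ℝ) ^ l = 2 ^ l * 2 ^ l := by
  rw [← mul_pow]
  norm_num

theorem cross_mem_nb {b : Bx} {D : ℕ} {p : Cell} : p ∈ b.nb D ↔ (b.u - D) * 2 ^ b.j ≤ p.1 ∧
    p.1 < (b.u + D + 1) * 2 ^ b.j ∧ (b.v - D) * 2 ^ b.j ≤ p.2 ∧ p.2 < (b.v + D + 1) * 2 ^ b.j := by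
  simp only [Bx.nb, mem_product, mem_Ico, and_assoc]

end Pool.Agent.MP_38296a_co.H21

end FileCross1

section FileCross2

set_option autoImplicit false

namespace Pool.Agent.MP_38296a_co.H21

open Finset Filter Classical

variable {ι : Type} {A : Arr ι}

/-- sampling a function along lines -/
theorem cross_sample {S : Finset ι} (hS : S ⊆ lines A.T) (I : Finset ℤ) (V : Finset Cell)
    (g : ι → ℤ → ℝ) (hg : ∀ a u, 0 ≤ g a u)
    (h : ∀ a ∈ S, ∀ u ∈ I, ((u, round (A.s a + A.x a * u)) : Cell) ∈ V) :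
    ∑ a ∈ S, ∑ u ∈ I, g a u ≤ ∑ q ∈ V, ∑ a ∈ lines A.T, ind (|A.ht q a| ≤ 1) * g a q.1 := by
  rw [sum_comm (s := V)]
  refine le_trans (sum_le_sum fun a ha => ?_) (sum_le_sum_of_subset_of_nonneg hS fun a _ _ =>
    sum_nonneg fun q _ => mul_nonneg (cross_ind_nonneg _) (hg _ _))
  have e : ∑ u ∈ I, g a u = ∑ q ∈ I.image fun u => ((u, round (A.s a + A.x a * u)) : Cell),
      ind (|A.ht q a| ≤ 1) * g a q.1 := by
    rw [sum_image fun u _ v _ e => congrArg Prod.fst e]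
    refine sum_congr rfl fun u _ => ?_
    have r1 := abs_sub_round (A.s a + A.x a * u)
    rw [baseb_ind_pos, one_mul]
    show |A.s a + A.x a * u - (round (A.s a + A.x a * u) : ℤ)| ≤ 1
    linarith
  rw [e]
  refine sum_le_sum_of_subset_of_nonneg (fun q hq => ?_) fun q _ _ =>
    mul_nonneg (cross_ind_nonneg _) (hg _ _)
  obtain ⟨u, hu, rfl⟩ := mem_image.1 hq
  exact h a ha u hu

/-- three blocks of columns -/
noncomputable def cross_I (p : Cell) (i : ℕ) : Finset ℤ :=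
  Ico ((p.1 / 2 ^ i - 1) * 2 ^ i) ((p.1 / 2 ^ i + 1 + 1) * 2 ^ i)

theorem cross_card_I (p : Cell) (i : ℕ) : (#(cross_I p i) : ℝ) = 3 * 2 ^ i := by
  rw [cross_I, Int.card_Ico]
  have : (p.1 / 2 ^ i + 1 + 1) * 2 ^ i - (p.1 / 2 ^ i - 1) * 2 ^ i = ((3 * 2 ^ i : ℕ) : ℤ) := by
    push_cast
    ring
  rw [this, Int.toNat_natCast]
  push_cast
  rfl

theorem cross_round (h : A.Ok) {a : ι} (ha : a ∈ lines A.T) {p : Cell} {i : ℕ}
    (h1 : |A.ht p a| ≤ 9 * 2 ^ i) {u : ℤ} (hu : u ∈ cross_I p i) :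
    ((u, round (A.s a + A.x a * u)) : Cell) ∈ (anc i p).nb 12 := by
  obtain ⟨b1, b2, b3, b4⟩ := baseb_mem_cells.1 (mem_anc i p)
  obtain ⟨u1, u2⟩ := mem_Ico.1 hu
  simp only [anc] at b1 b2 b3 b4
  have hx := h.x_bd ha
  have r1 := abs_sub_round (A.s a + A.x a * u)
  have h6 : (0 : ℤ) < 2 ^ i := by positivity
  have h7 : (1 : ℝ) ≤ 2 ^ i := one_le_pow₀ (by norm_num)
  have h8 : |u - p.1| ≤ 2 * 2 ^ i := abs_le.2 ⟨by linarith, by linarith⟩
  have h9 := baseb_cast h8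
  push_cast at h9
  have h10 : |A.x a * ((u : ℝ) - p.1)| ≤ 11 / 10 * (2 * 2 ^ i) := by
    rw [abs_mul]
    exact mul_le_mul hx h9 (abs_nonneg _) (by norm_num)
  have h11 : ((|round (A.s a + A.x a * u) - p.2| : ℤ) : ℝ) ≤ ((12 * 2 ^ i : ℤ) : ℝ) := by
    push_cast
    unfold Arr.ht at h1
    rw [abs_le] at h1 r1 h10 ⊢
    constructor <;> linarith [h1.1, h1.2, r1.1, r1.2, h10.1, h10.2]
  have h12 := abs_le.1 (Int.cast_le.1 h11)
  rw [cross_mem_nb]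
  simp only [anc]
  push_cast
  refine ⟨?_, ?_, ?_, ?_⟩ <;> linarith [h12.1, h12.2]

/-- few lines near a calm box -/
theorem cross_nl (h : A.Ok) {K : ℝ} {l i : ℕ} (hl : l ≤ i) {p : Cell}
    (hc : ∑ q ∈ (anc i p).nb 12, A.exc K l q ≤ K * 4 ^ i) :
    A.nl (9 * 2 ^ i) p ≤ 626 * K * 2 ^ i := by
  have h1 := cross_sample (A := A) (S := {a ∈ lines A.T | |A.ht p a| ≤ 9 * 2 ^ i})
    (filter_subset _ _) (cross_I p i) ((anc i p).nb 12) (fun _ _ => 1) (fun _ _ => zero_le_one)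
    fun a ha u hu => cross_round h (mem_filter.1 ha).1 (mem_filter.1 ha).2 hu
  have e1 : A.nl (9 * 2 ^ i) p = #{a ∈ lines A.T | |A.ht p a| ≤ 9 * 2 ^ i} := by
    unfold Arr.nl cnt
    congr
  have e2 : ∀ q, ∑ a ∈ lines A.T, ind (|A.ht q a| ≤ 1) * 1 = A.nl 1 q := fun q => by
    unfold Arr.nl
    rw [cnt_eq_sum]
    simp
  simp only [e2] at h1
  simp only [sum_const, nsmul_eq_mul, mul_one, cross_card_I] at h1
  rw [← e1, ← cross_sum_anc (l := l) fun q hq => cross_anc_nb hq hl] at h1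
  have h2 : ∑ q ∈ (anc i p).nb 12, (anc l q).avg (A.nl 1) ≤
      ∑ q ∈ (anc i p).nb 12, (K + A.exc K l q) := sum_le_sum fun q _ => by
    have := le_max_right 0 ((anc l q).avg (A.nl 1) - K)
    unfold Arr.exc
    linarith
  rw [sum_add_distrib, sum_const, nsmul_eq_mul, basea_card_nb] at h2
  change _ ≤ _ * (4 : ℝ) ^ i * _ + _ at h2
  have h3 : (0 : ℝ) < 2 ^ i := by positivity
  have h4 : 0 ≤ A.nl (9 * 2 ^ i) p := cnt_nonneg _ _
  rw [cross_four] at h2 hc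
  push_cast at h2
  refine le_of_mul_le_mul_right ?_ h3
  have h5 := mul_nonneg h4 h3.le
  nlinarith

theorem cross_dev (h : A.Ok) (d : ι → ℝ) {l : ℕ} {p : Cell} {S : Finset ι}
    (hS : ∀ a ∈ S, a ∈ lines A.T ∧ |A.ht p a| ≤ 9 * 2 ^ l) {I : Finset ℤ} (hI : I ⊆ cross_I p l) :
    ∑ a ∈ S, ∑ u ∈ I, |A.dg l a u - d a| ≤ ∑ q ∈ (anc l p).nb 12, A.ldv d l q := by
  refine (cross_sample (A := A) (fun a ha => (hS a ha).1) I ((anc l p).nb 12)
    (fun a u => |A.dg l a u - d a|) (fun _ _ => abs_nonneg _)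
    fun a ha u hu => cross_round h (hS a ha).1 (hS a ha).2 (hI hu)).trans
    (le_of_eq (sum_congr rfl fun q _ => ?_))
  unfold Arr.ldv
  rw [sum_filter]
  refine sum_congr rfl fun a _ => ?_
  by_cases hp : |A.ht q a| ≤ 1
  · rw [baseb_ind_pos hp, if_pos hp, one_mul]
  · rw [baseb_ind_neg hp, if_neg hp, zero_mul]

theorem cross_dg_sum (a : ι) (p : Cell) (l : ℕ) :
    cnt A.T (fun t => (∃ i, t i = a) ∧ (A.loc t).1 ∈ cross_I p l) ≤
      ∑ u ∈ cross_I p l, A.dg l a u := by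
  unfold Arr.dg
  rw [← sum_div, baseb_swap, le_div_iff₀ (by positivity), cnt_eq_sum, sum_mul]
  refine sum_le_sum fun t _ => ?_
  by_cases hp : (∃ i, t i = a) ∧ (A.loc t).1 ∈ cross_I p l
  · rw [baseb_ind_pos hp, one_mul]
    have e : (2 : ℝ) ^ l = #(Ico ((A.loc t).1 / 2 ^ l * 2 ^ l) (((A.loc t).1 / 2 ^ l + 1) * 2 ^ l)) := by
      rw [basea_card_Ico]
      push_cast
      rfl
    rw [e, baseb_card_cnt]
    refine cnt_mono fun u hu _ => ?_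
    have h1 := basea_mem_Ico.1 hu
    have h2 := basea_mem_Ico.1 hp.2
    exact ⟨basea_mem_Ico.2 (by omega), hp.1, by omega⟩
  · rw [baseb_ind_neg hp, zero_mul]
    exact cnt_nonneg _ _

/-- few triples on light lines -/
theorem cross_light (h : A.Ok) (d : ι → ℝ) (β : Fin 3) {l : ℕ} {p : Cell} {K ε θ : ℝ} (hθ : 0 ≤ θ)
    (hn : A.nl (9 * 2 ^ l) p ≤ K * 2 ^ l)
    (hd : ∑ q ∈ (anc l p).nb 12, A.ldv d l q ≤ ε * 4 ^ l) :
    cnt (A.TW p l) (fun t => d (t β) < θ) ≤ (ε + 3 * θ * K) * 4 ^ l := by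
  set S : Finset ι := {a ∈ lines A.T | |A.ht p a| ≤ 9 * 2 ^ l ∧ d a < θ} with hS
  have h1 := baseb_cnt_sum (S := A.TW p l) (P := fun t => d (t β) < θ) S (fun a t => t β = a)
    fun t ht hp => ⟨t β, mem_filter.2 ⟨mem_lines.2 ⟨t, TW_sub p l ht, β, rfl⟩, h.ht_TW ht β, hp⟩,
      rfl⟩
  have h2 : ∀ a ∈ S, cnt (A.TW p l) (fun t => t β = a) ≤
      ∑ u ∈ cross_I p l, |A.dg l a u - d a| + 3 * 2 ^ l * θ := fun a ha => by
    have h3 : cnt (A.TW p l) (fun t => t β = a) ≤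
        cnt A.T (fun t => (∃ i, t i = a) ∧ (A.loc t).1 ∈ cross_I p l) :=
      cnt_mono fun t ht hp => by
        obtain ⟨a1, a2, -⟩ := baseb_mem_TW.1 ht
        obtain ⟨b1, b2, -, -⟩ := baseb_mem_cells.1 (mem_anc l p)
        simp only [anc] at b1 b2
        rw [abs_le] at a2
        exact ⟨a1, ⟨β, hp⟩, mem_Ico.2 ⟨by linarith [a2.1], by linarith [a2.2]⟩⟩
    refine h3.trans ((cross_dg_sum a p l).trans ?_)
    rw [← cross_card_I p l, ← nsmul_eq_mul, ← sum_const, ← sum_add_distrib]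
    refine sum_le_sum fun u _ => ?_
    have := le_abs_self (A.dg l a u - d a)
    have := (mem_filter.1 ha).2.2
    linarith
  have h4 := cross_dev h d (S := S) (fun a ha => ⟨(mem_filter.1 ha).1, (mem_filter.1 ha).2.1⟩)
    (Subset.refl (cross_I p l))
  have h5 := sum_le_sum h2
  rw [sum_add_distrib, sum_const, nsmul_eq_mul] at h5
  have h6 : (#S : ℝ) ≤ A.nl (9 * 2 ^ l) p := by
    rw [baseb_card_cnt]
    exact cnt_mono fun a ha _ => ⟨(mem_filter.1 ha).1, (mem_filter.1 ha).2.1⟩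
  have h7 : (#S : ℝ) * (3 * 2 ^ l * θ) ≤ K * 2 ^ l * (3 * 2 ^ l * θ) :=
    mul_le_mul_of_nonneg_right (h6.trans hn) (by positivity)
  rw [cross_four] at hd ⊢
  nlinarith

/-- many heavy lines give many triples -/
theorem cross_final (h : A.Ok) (d : ι → ℝ) (β : Fin 3) {l : ℕ} (hl : 2 ≤ l) {q : Cell}
    {ε θ η : ℝ} (hθ : 0 ≤ θ) {X : ι → Prop}
    (hd : ∑ p ∈ (anc l q).nb 12, A.ldv d l p ≤ ε * 4 ^ l)
    (hη : η * 2 ^ l ≤ cnt (lines A.T) fun a =>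
      (X a ∧ θ ≤ d a) ∧ (∃ t ∈ A.T, t β = a) ∧ |A.ht q a| ≤ 3 * 2 ^ l) :
    (θ * η - ε) * 4 ^ l ≤ cnt (A.TW q l) fun t => X (t β) := by
  set S : Finset ι := {a ∈ lines A.T |
    (X a ∧ θ ≤ d a) ∧ (∃ t ∈ A.T, t β = a) ∧ |A.ht q a| ≤ 3 * 2 ^ l} with hS
  set I : Finset ℤ := Ico (q.1 / 2 ^ l * 2 ^ l) ((q.1 / 2 ^ l + 1) * 2 ^ l) with hI
  have h0 : (0 : ℝ) < 2 ^ l := by positivity
  have h1 : η * 2 ^ l ≤ #S := hη.trans (baseb_cnt_inj id (fun a ha hp => mem_filter.2 ⟨ha, hp⟩)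
    fun _ _ _ _ _ _ e => e)
  have hcI : (#I : ℝ) = 2 ^ l := by
    rw [hI, basea_card_Ico]
    push_cast
    rfl
  have h2 := cross_dev h d (S := S) (p := q) (l := l) (fun a ha => ⟨(mem_filter.1 ha).1,
    (mem_filter.1 ha).2.2.2.trans (by linarith)⟩) (I := I) fun u hu => by
      have := basea_mem_Ico.1 hu
      exact basea_mem_Ico.2 (by omega)
  have h3 : ∀ a ∈ S, 2 ^ l * θ ≤ ∑ u ∈ I, |A.dg l a u - d a| +
      cnt A.T (fun t => (∃ i, t i = a) ∧ (A.loc t).1 / 2 ^ l = q.1 / 2 ^ l) := fun a ha => by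
    have e : cnt A.T (fun t => (∃ i, t i = a) ∧ (A.loc t).1 / 2 ^ l = q.1 / 2 ^ l) =
        ∑ u ∈ I, A.dg l a u := by
      rw [sum_congr rfl (g := fun _ => A.dg l a q.1) fun u hu => by
        have := basea_mem_Ico.1 hu
        have e : u / 2 ^ l = q.1 / 2 ^ l := by omega
        unfold Arr.dg
        rw [e]]
      rw [sum_const, nsmul_eq_mul, hcI]
      unfold Arr.dg
      field_simp
    rw [e, ← hcI, ← nsmul_eq_mul, ← sum_const, ← sum_add_distrib]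
    refine sum_le_sum fun u _ => ?_
    have := neg_abs_le (A.dg l a u - d a)
    have := (mem_filter.1 ha).2.1.2
    linarith
  have h4 := sum_le_sum h3
  rw [sum_add_distrib, sum_const, nsmul_eq_mul, baseb_swap] at h4
  have h5 : ∑ t ∈ A.T, cnt S (fun a => (∃ i, t i = a) ∧ (A.loc t).1 / 2 ^ l = q.1 / 2 ^ l) ≤
      cnt A.T fun t => t ∈ A.TW q l ∧ X (t β) := by
    rw [cnt_eq_sum A.T]
    refine sum_le_sum fun t ht => ?_
    have key : ∀ a ∈ S, ((∃ i, t i = a) ∧ (A.loc t).1 / 2 ^ l = q.1 / 2 ^ l) →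
        a = t β ∧ t ∈ A.TW q l ∧ X (t β) := by
      rintro a ha ⟨⟨i, rfl⟩, e⟩
      obtain ⟨-, ⟨hX, -⟩, ⟨u, hu, e'⟩, hq⟩ := mem_filter.1 ha
      obtain rfl := h.cls hu ht e'
      refine ⟨rfl, h.mem_TW hl ht hq ?_, hX⟩
      have k1 := mem_Ico.1 (basea_mem_Ico.2 ⟨e.ge, e.le⟩)
      have k2 := mem_Ico.1 (basea_mem_Ico (x := q.1) (j := l).2 ⟨le_rfl, le_rfl⟩)
      exact abs_le.2 ⟨by linarith [k1.1, k2.2], by linarith [k1.2, k2.1]⟩
    by_cases hp : t ∈ A.TW q l ∧ X (t β)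
    · rw [baseb_ind_pos hp]
      refine (baseb_cnt_inj (U := {t β}) id (fun a ha hq => mem_singleton.2 (key a ha hq).1)
        fun _ _ _ _ _ _ e => e).trans ?_
      simp
    · rw [baseb_ind_neg hp]
      exact (baseb_cnt_zero fun a ha hq => hp (key a ha hq).2).le
  have h6 : cnt A.T (fun t => t ∈ A.TW q l ∧ X (t β)) ≤ cnt (A.TW q l) fun t => X (t β) :=
    cnt_mono fun t _ hp => hp
  have h7 : η * 2 ^ l * (2 ^ l * θ) ≤ #S * (2 ^ l * θ) :=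
    mul_le_mul_of_nonneg_right h1 (by positivity)
  rw [cross_four] at hd ⊢
  nlinarith

theorem cross_col (a : ι) (Q : Bx) (m : ℕ) :
    cnt Q.cells (fun p => |A.ht p a| ≤ m) ≤ 2 ^ Q.j * (2 * m + 1) := by
  have h1 := baseb_cnt_sum (S := Q.cells) (P := fun p => |A.ht p a| ≤ m)
    (Ico (Q.u * 2 ^ Q.j) ((Q.u + 1) * 2 ^ Q.j)) (fun u p => p.1 = u ∧ |A.ht p a| ≤ m)
    fun p hp hq => ⟨p.1, (mem_product.1 hp).1, rfl, hq⟩
  refine h1.trans ((sum_le_sum (g := fun _ => (2 * m + 1 : ℝ)) fun u _ => ?_).trans ?_)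
  · refine (baseb_cnt_inj (U := Icc (⌈A.s a + A.x a * u⌉ - m) (⌈A.s a + A.x a * u⌉ + m))
      Prod.snd ?_ ?_).trans ?_
    · rintro p - ⟨rfl, hq⟩
      unfold Arr.ht at hq
      rw [abs_le] at hq
      refine mem_Icc.2 ⟨?_, ?_⟩
      · rw [sub_le_iff_le_add, Int.ceil_le]
        push_cast
        linarith [hq.2]
      · have := Int.le_ceil (A.s a + A.x a * p.1)
        have h2 : (p.2 : ℝ) ≤ ((⌈A.s a + A.x a * p.1⌉ + m : ℤ) : ℝ) := by
          push_cast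
          linarith [hq.1]
        exact Int.cast_le.1 h2
    · rintro p - ⟨e1, -⟩ q - ⟨e2, -⟩ e
      exact Prod.ext (e1.trans e2.symm) e
    · rw [basea_card_Icc]
      push_cast
      rfl
  · rw [sum_const, basea_card_Ico, nsmul_eq_mul]
    push_cast
    rfl

/-- many windows with many triples give many lines -/
theorem cross_many (h : A.Ok) (β : Fin 3) {l : ℕ} {Q : Bx} {P : Finset Cell} (hP : P ⊆ Q.cells)
    {X : ι → Prop} {c κ : ℝ} (hc : 0 ≤ c)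
    (h1 : ∀ p ∈ P, c * 4 ^ l ≤ cnt (A.TW p l) fun t => X (t β)) (h2 : κ * 4 ^ Q.j ≤ #P) :
    κ * c / 114 * 2 ^ Q.j ≤ cnt (lines A.T) fun a =>
      X a ∧ (∃ t ∈ A.T, t β = a) ∧ ∃ p ∈ Q.cells, |A.ht p a| ≤ 9 * 2 ^ l := by
  have h0 : (0 : ℝ) < 2 ^ l := by positivity
  have h0' : (0 : ℝ) < 2 ^ Q.j := by positivity
  have h1' : (1 : ℝ) ≤ 2 ^ l := one_le_pow₀ (by norm_num)
  have h3 : ∀ p ∈ P, c * 2 ^ l / 6 ≤ cnt (lines A.T) fun a =>
      X a ∧ (∃ t ∈ A.T, t β = a) ∧ |A.ht p a| ≤ 9 * 2 ^ l := fun p hp => by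
    set S : Finset ι := {a ∈ lines A.T | X a ∧ (∃ t ∈ A.T, t β = a) ∧ |A.ht p a| ≤ 9 * 2 ^ l}
    have k1 := h.few_TW p l S
    have k2 : cnt (A.TW p l) (fun t => X (t β)) ≤ cnt (A.TW p l) fun t => ∃ i, t i ∈ S :=
      cnt_mono fun t ht hx => ⟨ht, β, mem_filter.2 ⟨mem_lines.2 ⟨t, TW_sub p l ht, β, rfl⟩, hx,
        ⟨t, TW_sub p l ht, rfl⟩, h.ht_TW ht β⟩⟩
    have k3 : (#S : ℝ) ≤ cnt (lines A.T) fun a =>
        X a ∧ (∃ t ∈ A.T, t β = a) ∧ |A.ht p a| ≤ 9 * 2 ^ l := by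
      rw [baseb_card_cnt]
      exact cnt_mono fun a ha _ => mem_filter.1 ha
    have k4 := h1 p hp
    rw [cross_four] at k4
    refine le_trans (le_of_mul_le_mul_right ?_ h0) k3
    nlinarith
  have h4 := (sum_le_sum h3).trans (sum_le_sum_of_subset_of_nonneg hP fun p _ _ => cnt_nonneg _ _)
  rw [sum_const, nsmul_eq_mul, baseb_swap] at h4
  have h5 : ∑ a ∈ lines A.T, cnt Q.cells (fun p =>
      X a ∧ (∃ t ∈ A.T, t β = a) ∧ |A.ht p a| ≤ 9 * 2 ^ l) ≤ (cnt (lines A.T) fun a =>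
      X a ∧ (∃ t ∈ A.T, t β = a) ∧ ∃ p ∈ Q.cells, |A.ht p a| ≤ 9 * 2 ^ l) *
        (2 ^ Q.j * (19 * 2 ^ l)) := by
    rw [cnt_eq_sum (lines A.T), sum_mul]
    refine sum_le_sum fun a _ => ?_
    by_cases hp : X a ∧ (∃ t ∈ A.T, t β = a) ∧ ∃ p ∈ Q.cells, |A.ht p a| ≤ 9 * 2 ^ l
    · rw [baseb_ind_pos hp, one_mul]
      have k1 := cross_col (A := A) a Q (9 * 2 ^ l)
      push_cast at k1
      refine le_trans (cnt_mono fun p hq hx => ⟨hq, hx.2.2⟩) (k1.trans ?_)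
      exact mul_le_mul_of_nonneg_left (by linarith) h0'.le
    · rw [baseb_ind_neg hp, zero_mul]
      exact (baseb_cnt_zero fun p hq hx => hp ⟨hx.1, hx.2.1, p, hq, hx.2.2⟩).le
  have h6 : κ * 4 ^ Q.j * (c * 2 ^ l / 6) ≤ #P * (c * 2 ^ l / 6) :=
    mul_le_mul_of_nonneg_right h2 (by positivity)
  rw [cross_four] at h6
  refine le_of_mul_le_mul_right ?_ (show (0 : ℝ) < 2 ^ Q.j * (19 * 2 ^ l) by positivity)
  nlinarith

theorem cross_ht_o (h : A.Ok) {b : Bx} {a : ι} (ha : a ∈ lines A.T) {l : ℕ} (hl : l ≤ b.j)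
    {p : Cell} (hp : p ∈ b.nb 1) (h1 : |A.ht p a| ≤ 9 * 2 ^ l) :
    |A.ht b.o a| ≤ 66 / 5 * 2 ^ b.j := by
  obtain ⟨b1, b2, b3, b4⟩ := cross_mem_nb.1 hp
  push_cast at b1 b2 b3 b4
  have h0 : (0 : ℤ) < 2 ^ b.j := by positivity
  have e1 : |b.o.1 - p.1| ≤ 2 * 2 ^ b.j := by
    show |b.u * 2 ^ b.j - p.1| ≤ _
    exact abs_le.2 ⟨by linarith, by linarith⟩
  have e2 : |b.o.2 - p.2| ≤ 2 * 2 ^ b.j := by
    show |b.v * 2 ^ b.j - p.2| ≤ _
    exact abs_le.2 ⟨by linarith, by linarith⟩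
  have f1 := baseb_cast e1
  have f2 := baseb_cast e2
  push_cast at f1 f2
  have h2 := baseb_ht_le (A := A) p b.o a (h.x_bd ha)
  have h3 : (2 : ℝ) ^ l ≤ 2 ^ b.j := pow_le_pow_right₀ (by norm_num) hl
  linarith

theorem cross_floor (h : A.Ok) {a : ι} (ha : a ∈ lines A.T) {X Y : ℝ}
    (e : Y = A.s a + A.x a * X) : |A.ht (⌊X⌋, ⌊Y⌋) a| ≤ 21 / 10 := by
  have hx := abs_le.1 (h.x_bd ha)
  have a1 := Int.floor_le X
  have a2 := Int.lt_floor_add_one X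
  have a3 := Int.floor_le Y
  have a4 := Int.lt_floor_add_one Y
  have e' : A.ht (⌊X⌋, ⌊Y⌋) a = (Y - ⌊Y⌋) - A.x a * (X - ⌊X⌋) := by
    unfold Arr.ht
    simp only
    linear_combination (-1 : ℝ) * e
  rw [e', abs_le]
  constructor <;> nlinarith [hx.1, hx.2]

/-- two transversal lines cross near the box -/
theorem cross_pt (h : A.Ok) {γ : ℝ} (hγ : 0 < γ) {D : ℕ} (hD : 30 / γ + 14 ≤ D) {b : Bx}
    {a a' : ι} (ha : a ∈ lines A.T) (ha' : a' ∈ lines A.T) (h1 : |A.ht b.o a| ≤ 66 / 5 * 2 ^ b.j)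
    (h2 : |A.ht b.o a'| ≤ 66 / 5 * 2 ^ b.j) (hx : γ < |A.x a - A.x a'|) :
    ∃ z ∈ b.nb D, |A.ht z a| ≤ 21 / 10 ∧ |A.ht z a'| ≤ 21 / 10 := by
  have hne : A.x a - A.x a' ≠ 0 := abs_pos.1 (hγ.trans hx)
  set W : ℝ := (A.ht b.o a' - A.ht b.o a) / (A.x a - A.x a') with hW
  have hJ : (0 : ℝ) < 2 ^ b.j := by positivity
  have e1 : W * (A.x a - A.x a') = A.ht b.o a' - A.ht b.o a := div_mul_cancel₀ _ hne
  have k1 : |W| * γ ≤ 132 / 5 * 2 ^ b.j := by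
    have := abs_sub (A.ht b.o a') (A.ht b.o a)
    rw [← e1, abs_mul] at this
    have := mul_le_mul_of_nonneg_left hx.le (abs_nonneg W)
    linarith
  have k2 : |W| ≤ 132 / 5 * (2 ^ b.j / γ) := by
    rw [← mul_div_assoc, le_div_iff₀ hγ]
    exact k1
  have k3 : 30 * (2 ^ b.j / γ) + 14 * 2 ^ b.j ≤ (D : ℝ) * 2 ^ b.j := by
    have := mul_le_mul_of_nonneg_right hD hJ.le
    calc _ = (30 / γ + 14) * 2 ^ b.j := by ring
      _ ≤ _ := this
  have k4 : |A.x a * W| ≤ 11 / 10 * |W| := by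
    rw [abs_mul]
    exact mul_le_mul_of_nonneg_right (h.x_bd ha) (abs_nonneg _)
  have k5 : (0 : ℝ) < 2 ^ b.j / γ := by positivity
  have o1 : (b.o.1 : ℝ) = b.u * 2 ^ b.j := by simp [Bx.o]
  have o2 : (b.o.2 : ℝ) = b.v * 2 ^ b.j := by simp [Bx.o]
  refine ⟨(⌊b.o.1 + W⌋, ⌊b.o.2 + A.ht b.o a + A.x a * W⌋), ?_, cross_floor h ha ?_,
    cross_floor h ha' ?_⟩
  · have k6 := abs_le.1 k2
    have k7 := abs_le.1 (k4.trans (mul_le_mul_of_nonneg_left k2 (by norm_num)))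
    have k8 := abs_le.1 h1
    rw [cross_mem_nb]
    simp only [Int.le_floor, Int.floor_lt]
    push_cast
    refine ⟨?_, ?_, ?_, ?_⟩ <;> linarith [k6.1, k6.2, k7.1, k7.2, k8.1, k8.2]
  · unfold Arr.ht
    ring
  · unfold Arr.ht at e1 ⊢
    linear_combination e1

theorem cross_pass (h : A.Ok) {a : ι} (ha : a ∈ lines A.T) {z q : Cell} {i : ℕ}
    (h1 : |A.ht z a| ≤ 21 / 10) (hq : q ∈ (anc i z).cells) : |A.ht q a| ≤ 3 * 2 ^ i := by
  obtain ⟨b1, b2⟩ := anc_close hq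
  have f1 := baseb_cast (Int.le_sub_one_of_lt b1)
  have f2 := baseb_cast (Int.le_sub_one_of_lt b2)
  push_cast at f1 f2
  have h2 := baseb_ht_le (A := A) z q a (h.x_bd ha)
  have h3 : (0 : ℝ) < 2 ^ i := by positivity
  linarith

end Pool.Agent.MP_38296a_co.H21

end FileCross2

section FileCross

set_option autoImplicit false

namespace Pool.Agent.MP_38296a_co.H21

open Finset Filter Classical

/-- pairs of lines crossing in crowded regions -/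
theorem cross_bad {ι : Type} {A : Arr ι} (h : A.Ok) {l j : ℕ} (hl : l ≤ j) (C : Bx → Prop)
    (P : ι × ι → Prop) (z : ι × ι → Cell) (S : Finset Cell) {K : ℝ}
    (hz : ∀ e ∈ lines A.T ×ˢ lines A.T, P e → |A.ht (z e) e.1| ≤ 21 / 10 ∧
      |A.ht (z e) e.2| ≤ 21 / 10 ∧ C (anc j (z e)) ∧ ¬ C (anc l (z e)) ∧
      ∀ i ≤ j, ¬ C (anc i (z e)) → (anc i (z e)).cells ⊆ S)
    (hN : ∀ p i, l ≤ i → C (anc i p) → A.nl (9 * 2 ^ i) p ≤ K * 2 ^ i) :
    cnt (lines A.T ×ˢ lines A.T) P ≤ 4 * K ^ 2 * #S := by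
  let top : Cell → ℕ := fun p => Nat.findGreatest (fun i => ¬ C (anc i p)) j
  have htop : ∀ q, ¬ C (anc (top q) q) → ∀ r ∈ (anc (top q) q).cells, top r = top q := by
    intro q hq r hr
    have h1 : ∀ i, top q ≤ i → (¬ C (anc i r) ↔ ¬ C (anc i q)) := fun i hi => by
      rw [anc_eq hi hr]
    have h2 : top q ≤ top r := Nat.le_findGreatest (Nat.findGreatest_le _) ((h1 _ le_rfl).2 hq)
    have h3 : ¬ C (anc (top r) r) := Nat.findGreatest_spec (P := fun i => ¬ C (anc i r))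
      (Nat.findGreatest_le _) ((h1 _ le_rfl).2 hq)
    exact le_antisymm (Nat.le_findGreatest (Nat.findGreatest_le _) ((h1 _ h2).1 h3)) h2
  have hsp : ∀ e ∈ lines A.T ×ˢ lines A.T, P e → ¬ C (anc (top (z e)) (z e)) := fun e he hp =>
    Nat.findGreatest_spec (P := fun i => ¬ C (anc i (z e))) hl (hz e he hp).2.2.2.1
  refine cross_weight _ P (fun e => anc (top (z e)) (z e)) S top (by positivity) ?_
  intro e he hp p hq
  obtain ⟨-, -, a3, a4, a5⟩ := hz e he hp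
  have e1 := htop _ (hsp e he hp) p hq
  have k1 : top (z e) ≤ j := Nat.findGreatest_le _
  have k2 : l ≤ top (z e) := Nat.le_findGreatest hl a4
  have k3 : top (z e) ≠ j := fun e' => hsp e he hp (e' ▸ a3)
  refine ⟨a5 _ k1 (hsp e he hp) hq, e1, ?_⟩
  have k4 : C (anc (top p + 1) p) := not_not.1 (Nat.findGreatest_is_greatest
    (P := fun i => ¬ C (anc i p)) (n := j) (Nat.lt_succ_self _) (by omega))
  have k5 := hN p (top p + 1) (by omega) k4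
  have k0 : (0 : ℝ) < 2 ^ top p := by positivity
  have k6 : cnt (lines A.T ×ˢ lines A.T)
      (fun e' => P e' ∧ p ∈ (anc (top (z e')) (z e')).cells) ≤ cnt (lines A.T ×ˢ lines A.T)
      fun e' => |A.ht p e'.1| ≤ 9 * 2 ^ (top p + 1) ∧ |A.ht p e'.2| ≤ 9 * 2 ^ (top p + 1) :=
    cnt_mono fun e' he' hp' => by
      obtain ⟨b1, b2, -⟩ := hz e' he' hp'.1
      have e2 := htop _ (hsp e' he' hp'.1) p hp'.2
      have c1 := cross_pass h (mem_product.1 he').1 b1 hp'.2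
      have c2 := cross_pass h (mem_product.1 he').2 b2 hp'.2
      rw [← e2] at c1 c2
      rw [pow_succ]
      exact ⟨he', by linarith, by linarith⟩
  rw [cross_cnt_mul (lines A.T) (lines A.T) (fun a => |A.ht p a| ≤ 9 * 2 ^ (top p + 1))
    fun a => |A.ht p a| ≤ 9 * 2 ^ (top p + 1)] at k6
  refine k6.trans ((mul_self_le_mul_self (cnt_nonneg _ _) k5).trans (le_of_eq ?_))
  rw [cross_four, pow_succ]
  ring

/-- pairs of lines crossing in boxes with few pairs -/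
theorem cross_good {ι : Type} {A : Arr ι} (h : A.Ok) {l : ℕ} (P : ι × ι → Prop)
    (z : ι × ι → Cell) (V : Finset Cell) (X Y Z : ι → Prop) {w : ℝ} (hw : 0 ≤ w)
    (hz : ∀ e ∈ lines A.T ×ˢ lines A.T, P e → |A.ht (z e) e.1| ≤ 21 / 10 ∧
      |A.ht (z e) e.2| ≤ 21 / 10 ∧ (X e.1 ∧ Z e.1) ∧ (Y e.2 ∧ Z e.2) ∧ (anc l (z e)).cells ⊆ V ∧
      ∃ q ∈ (anc l (z e)).cells,
        cnt (lines A.T) (fun a => X a ∧ Z a ∧ |A.ht q a| ≤ 3 * 2 ^ l) *
          cnt (lines A.T) (fun a => Y a ∧ Z a ∧ |A.ht q a| ≤ 3 * 2 ^ l) ≤ w * 4 ^ l) :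
    cnt (lines A.T ×ˢ lines A.T) P ≤ w * #V := by
  refine cross_weight _ P (fun e => anc l (z e)) V (fun _ => l) hw ?_
  intro e he hp p hq
  obtain ⟨-, -, -, -, a5, q, a6, a7⟩ := hz e he hp
  refine ⟨a5 hq, rfl, le_trans ?_ a7⟩
  rw [← cross_cnt_mul]
  refine cnt_mono fun e' he' hp' => ?_
  obtain ⟨b1, b2, b3, b4, -⟩ := hz e' he' hp'.1
  have e1 : anc l (z e) = anc l (z e') := (mem_cells.1 hq).symm.trans (mem_cells.1 hp'.2)
  rw [e1] at a6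
  exact ⟨he', ⟨b3.1, b3.2, cross_pass h (mem_product.1 he').1 b1 a6⟩, b4.1, b4.2,
    cross_pass h (mem_product.1 he').2 b2 a6⟩

theorem cross_ldv_nonneg {ι : Type} (A : Arr ι) (d : ι → ℝ) (l : ℕ) (q : Cell) :
    0 ≤ A.ldv d l q :=
  sum_nonneg fun _ _ => abs_nonneg _

/-- two families of lines of the class `β` meet in a good window -/
theorem cross {γ : ℝ} (hγ : 0 < γ) : ∃ D : ℕ, ∀ K c κ : ℝ, 0 < K → 0 < c → 0 < κ →
    ∃ η θ : ℝ, 0 < η ∧ 0 < θ ∧ ∀ (ι : Type) (A : Arr ι) (β : Fin 3) (d : ι → ℝ) (l : ℕ) (b b' : Bx)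
      (bad : Cell → Prop) (P P' : Finset Cell) (R G : Set ι), A.Ok → 2 ≤ l → l ≤ b.j → b'.j = b.j →
      |b.u - b'.u| ≤ 1 → |b.v - b'.v| ≤ 1 → P ⊆ b.cells → P' ⊆ b'.cells →
      κ * 4 ^ b.j ≤ #P → κ * 4 ^ b.j ≤ #P' →
      (∀ p ∈ P, ∀ y : ℝ, c * 4 ^ l ≤ cnt (A.TW p l) fun t => t β ∈ R ∧ γ < |A.x (t β) - y|) →
      (∀ p ∈ P', c * 4 ^ l ≤ cnt (A.TW p l) fun t => t β ∈ G) →
      ∑ q ∈ b.nb D, (ind (bad q) + A.exc K l q + A.ldv d l q) ≤ θ * 4 ^ b.j →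
      ∃ q ∈ b.nb D, ¬ bad q ∧ η * 4 ^ l ≤ cnt (A.TW q l) (fun t => t β ∈ R) ∧
        η * 4 ^ l ≤ cnt (A.TW q l) fun t => t β ∈ G := by
  obtain ⟨D, hD⟩ := exists_nat_ge (30 / γ + 14)
  have hD1 : 1 ≤ D := by
    have : (0 : ℝ) < 30 / γ := by positivity
    exact_mod_cast (by linarith : (1 : ℝ) ≤ D)
  refine ⟨D + 12, fun K c κ hK hc hκ => ?_⟩
  obtain ⟨K1, hK1⟩ : ∃ K1, K1 = 626 * K := ⟨_, rfl⟩
  have hK0 : 0 < K1 := by rw [hK1]; positivity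
  obtain ⟨θ1, hθ0, hθ1⟩ : ∃ θ1 : ℝ, 0 < θ1 ∧ 3 * θ1 * K1 = c / 4 :=
    ⟨c / (12 * K1), by positivity, by field_simp; norm_num⟩
  obtain ⟨c1, hc1⟩ : ∃ c1, c1 = κ / 2 * (c / 2) / 114 := ⟨_, rfl⟩
  have hc0 : 0 < c1 := by rw [hc1]; positivity
  obtain ⟨η1, hη0, hη1⟩ : ∃ η1 : ℝ, 0 < η1 ∧ η1 * K1 * (2 * D + 1) ^ 2 = c1 ^ 2 / 4 :=
    ⟨c1 ^ 2 / (4 * K1 * (2 * D + 1) ^ 2), by positivity, by field_simp⟩
  obtain ⟨ε, hε, ε1, ε2, ε3, ε4⟩ : ∃ ε : ℝ, 0 < ε ∧ ε ≤ K ∧ ε ≤ c / 4 ∧ ε ≤ θ1 * η1 / 2 ∧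
      ε ≤ 1 / 2 :=
    ⟨min (min K (c / 4)) (min (θ1 * η1 / 2) (1 / 2)), by positivity,
      (min_le_left _ _).trans (min_le_left _ _), (min_le_left _ _).trans (min_le_right _ _),
      (min_le_right _ _).trans (min_le_left _ _), (min_le_right _ _).trans (min_le_right _ _)⟩
  obtain ⟨τ, hτ, τ1, τ2, τ3⟩ : ∃ τ : ℝ, 0 < τ ∧ τ ≤ κ / 2 ∧ τ ≤ c1 ^ 2 / (16 * K1 ^ 2) ∧ τ ≤ 1 :=
    ⟨min (min (κ / 2) (c1 ^ 2 / (16 * K1 ^ 2))) 1, by positivity,
      (min_le_left _ _).trans (min_le_left _ _), (min_le_left _ _).trans (min_le_right _ _),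
      min_le_right _ _⟩
  rw [le_div_iff₀ (by positivity)] at τ2
  refine ⟨θ1 * η1 / 2, ε * τ / 25 ^ 4, by positivity, by positivity, ?_⟩
  intro ι A β d l b b' bad P P' R G h hl hj hj' hu hv hP hP' kP kP' cP cP' hsum
  by_contra hcon
  set f : Cell → ℝ := fun q => ind (bad q) + A.exc K l q + A.ldv d l q with hf
  have f1 : ∀ q, 0 ≤ A.exc K l q := fun q => le_max_left _ _
  have f2 := cross_ldv_nonneg A d l
  have f3 : ∀ q, 0 ≤ ind (bad q) := fun q => cross_ind_nonneg _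
  have f0 : ∀ q, 0 ≤ f q := fun q => add_nonneg (add_nonneg (f3 q) (f1 q)) (f2 q)
  have hJ : (0 : ℝ) < 4 ^ b.j := by positivity
  have hJ2 : (0 : ℝ) < 2 ^ b.j := by positivity
  have hr : (0 : ℝ) < 4 ^ l := by positivity
  have hr2 : (0 : ℝ) < 2 ^ l := by positivity
  let C : Bx → Prop := fun B => ∑ q ∈ B.nb 12, f q ≤ ε * 4 ^ B.j
  obtain ⟨S, hS1, hS2⟩ := cross_max (b.nb (D + 12)) b.j f0 12 hε
  have hS3 : (#S : ℝ) ≤ τ * 4 ^ b.j := by
    refine hS1.trans ?_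
    rw [div_le_iff₀ hε]
    have := mul_le_mul_of_nonneg_left hsum (show (0 : ℝ) ≤ 25 ^ 4 by positivity)
    push_cast
    calc _ = (25 : ℝ) ^ 4 * ∑ p ∈ b.nb (D + 12), f p := by norm_num
      _ ≤ _ := this
      _ = _ := by field_simp
  have hS4 : ∀ p ∈ b.nb D, ∀ i ≤ b.j, ¬ C (anc i p) → p ∈ S := fun p hp i hi hn =>
    hS2 p i hi (by
      rw [inter_eq_left.2 (cross_nb_sub hp hi)]
      exact not_le.1 hn)
  have hCj : ∀ p ∈ b.nb D, C (anc b.j p) := fun p hp => by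
    refine (sum_le_sum_of_subset_of_nonneg (cross_nb_sub hp le_rfl) fun q _ _ => f0 q).trans
      (hsum.trans (mul_le_mul_of_nonneg_right ?_ hJ.le))
    have := mul_le_mul_of_nonneg_left τ3 hε.le
    linarith
  have hN : ∀ p i, l ≤ i → C (anc i p) → A.nl (9 * 2 ^ i) p ≤ K1 * 2 ^ i := fun p i hi hC => by
    rw [hK1]
    refine cross_nl h hi ((sum_le_sum fun q _ => ?_).trans
      (le_trans hC (mul_le_mul_of_nonneg_right ε1 (by positivity))))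
    have := f2 q
    have := f3 q
    simp only [hf]
    linarith
  have hL : ∀ p, C (anc l p) → ∑ q ∈ (anc l p).nb 12, A.ldv d l q ≤ ε * 4 ^ l := fun p hC => by
    refine (sum_le_sum fun q _ => ?_).trans hC
    have := f1 q
    have := f3 q
    simp only [hf]
    linarith
  have hmany : ∀ (Q : Bx) (P0 : Finset Cell) (X : ι → Prop), Q.j = b.j → P0 ⊆ Q.cells →
      Q.cells ⊆ b.nb 1 → κ * 4 ^ b.j ≤ #P0 →
      (∀ p ∈ P0, c * 4 ^ l ≤ cnt (A.TW p l) fun t => X (t β)) →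
      c1 * 2 ^ b.j ≤ cnt (lines A.T) fun a => (X a ∧ θ1 ≤ d a) ∧ (∃ t ∈ A.T, t β = a) ∧
        |A.ht b.o a| ≤ 66 / 5 * 2 ^ b.j := by
    intro Q P0 X q1 q2 q3 q4 q5
    have k1 := cross_many h β (l := l) (Q := Q) (P := P0 \ S) (sdiff_subset.trans q2)
      (X := fun a => X a ∧ θ1 ≤ d a) (c := c / 2) (κ := κ / 2) (by positivity) (fun p hp => by
        obtain ⟨p1, p2⟩ := mem_sdiff.1 hp
        have hC : C (anc l p) := not_not.1 fun hn =>
          p2 (hS4 p (cross_nb_mono b hD1 (q3 (q2 p1))) l hj hn)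
        have k2 := cross_light h d β hθ0.le (hN p l le_rfl hC) (hL p hC)
        have k3 := cnt_or (S := A.TW p l) (P := fun t => X (t β))
          (P1 := fun t => X (t β) ∧ θ1 ≤ d (t β)) (P2 := fun t => d (t β) < θ1)
          fun t _ hx => (le_or_gt θ1 (d (t β))).imp (fun e => ⟨hx, e⟩) id
        have k4 := q5 p p1
        have k5 := mul_le_mul_of_nonneg_right ε2 hr.le
        rw [hθ1] at k2
        linarith) (by
        have k2 : (#P0 : ℝ) ≤ #(P0 \ S) + #S := by exact_mod_cast card_le_card_sdiff_add_card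
        have k3 := mul_le_mul_of_nonneg_right τ1 hJ.le
        rw [q1]
        linarith)
    rw [← hc1, q1] at k1
    refine k1.trans (cnt_mono fun a ha hx => ⟨ha, hx.1, hx.2.1, ?_⟩)
    obtain ⟨p, p1, p2⟩ := hx.2.2
    exact cross_ht_o h ha hj (q3 p1) p2
  let GG : ι → Prop := fun a => (a ∈ G ∧ θ1 ≤ d a) ∧ (∃ t ∈ A.T, t β = a) ∧
    |A.ht b.o a| ≤ 66 / 5 * 2 ^ b.j
  let RR : ι → ι → Prop := fun a' a => ((a ∈ R ∧ γ < |A.x a - A.x a'|) ∧ θ1 ≤ d a) ∧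
    (∃ t ∈ A.T, t β = a) ∧ |A.ht b.o a| ≤ 66 / 5 * 2 ^ b.j
  have hG : c1 * 2 ^ b.j ≤ cnt (lines A.T) GG :=
    hmany b' P' (fun a => a ∈ G) hj' hP' (cross_adj hj' hu hv) kP' cP'
  have hR : ∀ a', c1 * 2 ^ b.j ≤ cnt (lines A.T) (RR a') := fun a' =>
    hmany b P (fun a => a ∈ R ∧ γ < |A.x a - A.x a'|) rfl hP (cross_cells_nb b 1) kP
      fun p hp => cP p hp _
  have hlow : c1 * 2 ^ b.j * (c1 * 2 ^ b.j) ≤
      cnt (lines A.T ×ˢ lines A.T) fun e => GG e.1 ∧ RR e.1 e.2 := by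
    refine (mul_le_mul_of_nonneg_right hG (by positivity)).trans ?_
    rw [cross_cnt_prod, cnt_eq_sum _ GG, sum_mul]
    refine sum_le_sum fun a _ => ?_
    by_cases ha : GG a
    · rw [baseb_ind_pos ha, one_mul]
      exact (hR a).trans (cnt_mono fun a' h1 h2 => ⟨h1, ha, h2⟩)
    · rw [baseb_ind_neg ha, zero_mul]
      exact cnt_nonneg _ _
  have hz : ∀ e : ι × ι, ∃ z : Cell, e ∈ lines A.T ×ˢ lines A.T → GG e.1 ∧ RR e.1 e.2 →
      z ∈ b.nb D ∧ |A.ht z e.2| ≤ 21 / 10 ∧ |A.ht z e.1| ≤ 21 / 10 := fun e => by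
    by_cases he : e ∈ lines A.T ×ˢ lines A.T ∧ GG e.1 ∧ RR e.1 e.2
    · obtain ⟨z, z1⟩ := cross_pt h hγ hD (mem_product.1 he.1).2 (mem_product.1 he.1).1
        he.2.2.2.2 he.2.1.2.2 he.2.2.1.1.2
      exact ⟨z, fun _ _ => z1⟩
    · exact ⟨(0, 0), fun h1 h2 => absurd ⟨h1, h2⟩ he⟩
  choose z hz using hz
  have hsplit := cnt_or (S := lines A.T ×ˢ lines A.T) (P := fun e => GG e.1 ∧ RR e.1 e.2)
    (P1 := fun e => (GG e.1 ∧ RR e.1 e.2) ∧ C (anc l (z e)))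
    (P2 := fun e => (GG e.1 ∧ RR e.1 e.2) ∧ ¬ C (anc l (z e)))
    fun e _ he => (_root_.em (C (anc l (z e)))).imp (fun k => ⟨he, k⟩) fun k => ⟨he, k⟩
  have hbad := cross_bad h hj C (fun e => (GG e.1 ∧ RR e.1 e.2) ∧ ¬ C (anc l (z e))) z S
    (fun e he hp => by
      obtain ⟨z1, z2, z3⟩ := hz e he hp.1
      refine ⟨z3, z2, hCj _ z1, hp.2, fun i hi hn p hq => hS4 p (cross_anc_nb z1 hi hq) i hi ?_⟩
      rwa [anc_eq le_rfl hq]) hN
  have hgood := cross_good h (l := l) (fun e => (GG e.1 ∧ RR e.1 e.2) ∧ C (anc l (z e))) z (b.nb D)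
    (fun a => a ∈ G ∧ θ1 ≤ d a) (fun a => a ∈ R ∧ θ1 ≤ d a) (fun a => ∃ t ∈ A.T, t β = a)
    (w := η1 * K1) (by positivity) fun e he hp => by
      obtain ⟨z1, z2, z3⟩ := hz e he hp.1
      obtain ⟨⟨g1, g2⟩, g3⟩ := hp
      refine ⟨z3, z2, ⟨g1.1, g1.2.1⟩, ⟨⟨g2.1.1.1, g2.1.2⟩, g2.2.1⟩, cross_anc_nb z1 hj, ?_⟩
      have k1 : ∃ q ∈ (anc l (z e)).cells, ¬ bad q := by
        by_contra hn
        have k2 : ∑ q ∈ (anc l (z e)).cells, (1 : ℝ) ≤ ∑ q ∈ (anc l (z e)).cells, f q :=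
          sum_le_sum fun q hq => by
            have e1 : ind (bad q) = 1 := baseb_ind_pos (not_not.1 fun k => hn ⟨q, hq, k⟩)
            have := f1 q
            have := f2 q
            simp only [hf]
            linarith
        have k3 := (k2.trans (sum_le_sum_of_subset_of_nonneg (cross_cells_nb _ 12)
          fun q _ _ => f0 q)).trans g3
        rw [sum_const, nsmul_eq_mul, cross_card_cells, mul_one] at k3
        change (4 : ℝ) ^ l ≤ ε * 4 ^ l at k3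
        have := mul_le_mul_of_nonneg_right ε4 hr.le
        linarith
      obtain ⟨q, q1, q2⟩ := k1
      refine ⟨q, q1, ?_⟩
      have hC : C (anc l q) := by rwa [anc_eq le_rfl q1]
      have k2 : ∀ X : ι → Prop, cnt (lines A.T) (fun a => X a ∧ (∃ t ∈ A.T, t β = a) ∧
          |A.ht q a| ≤ 3 * 2 ^ l) ≤ K1 * 2 ^ l := fun X =>
        le_trans (cnt_mono fun a ha hx => ⟨ha, hx.2.2.trans (by linarith)⟩) (hN q l le_rfl hC)
      have k3 : θ1 * η1 / 2 * 4 ^ l ≤ (θ1 * η1 - ε) * 4 ^ l :=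
        mul_le_mul_of_nonneg_right (by linarith) hr.le
      have k4 : η1 * K1 * 4 ^ l = η1 * 2 ^ l * (K1 * 2 ^ l) := by
        rw [cross_four]
        ring
      rw [k4]
      by_cases k5 : η1 * 2 ^ l ≤ cnt (lines A.T) fun a => (a ∈ G ∧ θ1 ≤ d a) ∧
          (∃ t ∈ A.T, t β = a) ∧ |A.ht q a| ≤ 3 * 2 ^ l
      · by_cases k6 : η1 * 2 ^ l ≤ cnt (lines A.T) fun a => (a ∈ R ∧ θ1 ≤ d a) ∧
            (∃ t ∈ A.T, t β = a) ∧ |A.ht q a| ≤ 3 * 2 ^ l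
        · exact absurd ⟨q, cross_nb_mono b (Nat.le_add_right D 12) (cross_anc_nb z1 hj q1), q2,
            k3.trans (cross_final h d β hl hθ0.le (X := fun a => a ∈ R) (hL q hC) k6),
            k3.trans (cross_final h d β hl hθ0.le (X := fun a => a ∈ G) (hL q hC) k5)⟩ hcon
        · rw [mul_comm (η1 * 2 ^ l)]
          exact mul_le_mul (k2 _) (not_le.1 k6).le (cnt_nonneg _ _) (by positivity)
      · exact mul_le_mul (not_le.1 k5).le (k2 _) (cnt_nonneg _ _) (by positivity)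
  rw [basea_card_nb, ← mul_assoc, hη1] at hgood
  have k1 : 4 * K1 ^ 2 * (#S : ℝ) ≤ 4 * K1 ^ 2 * (τ * 4 ^ b.j) :=
    mul_le_mul_of_nonneg_left hS3 (by positivity)
  have k2 := mul_le_mul_of_nonneg_right τ2 hJ.le
  have k3 : c1 * 2 ^ b.j * (c1 * 2 ^ b.j) = c1 ^ 2 * 4 ^ b.j := by
    rw [cross_four]
    ring
  have k4 : 0 < c1 ^ 2 * 4 ^ b.j := by positivity
  linarith

end Pool.Agent.MP_38296a_co.H21

end FileCross

end

-- part MP_38296a_co.H21.ConnX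
section

section FileConn0

set_option autoImplicit false

namespace Pool.Agent.MP_38296a_co.H21

open Finset Filter Classical

/-- the colouring `C` of the cells which are not bad follows the colouring `R` of the lines -/
def Col (B : Arr ℕ) (U : Bx) (β : Fin 3) (l : ℕ) (η : ℝ) (bad : Cell → Prop) (R : Set ℕ)
    (C : Cell → Prop) : Prop :=
  ∀ p ∈ U.cells, ¬ bad p → (C p → cnt (B.TW p l) (fun t => t β ∉ R) < η * 4 ^ l) ∧
    (¬ C p → cnt (B.TW p l) (fun t => t β ∈ R) < η * 4 ^ l)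

theorem conn_mem_cells {b : Bx} {p : Cell} : p ∈ b.cells ↔
    (b.u * 2 ^ b.j ≤ p.1 ∧ p.1 < (b.u + 1) * 2 ^ b.j) ∧
      (b.v * 2 ^ b.j ≤ p.2 ∧ p.2 < (b.v + 1) * 2 ^ b.j) := by
  simp only [Bx.cells, mem_product, mem_Ico]

theorem conn_mem_nb {b : Bx} {D : ℕ} {p : Cell} : p ∈ b.nb D ↔
    ((b.u - D) * 2 ^ b.j ≤ p.1 ∧ p.1 < (b.u + D + 1) * 2 ^ b.j) ∧
      ((b.v - D) * 2 ^ b.j ≤ p.2 ∧ p.2 < (b.v + D + 1) * 2 ^ b.j) := by
  simp only [Bx.nb, mem_product, mem_Ico]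

theorem conn_mem_Wn {p q : Cell} {l : ℕ} : q ∈ Wn p l ↔
    |q.1 - p.1| ≤ 2 * 2 ^ l ∧ |q.2 - p.2| ≤ 12 * 2 ^ l := by
  simp only [Wn, mem_product, mem_Icc, abs_le]
  constructor
  · rintro ⟨⟨h1, h2⟩, h3, h4⟩
    exact ⟨⟨by linarith, by linarith⟩, by linarith, by linarith⟩
  · rintro ⟨⟨h1, h2⟩, h3, h4⟩
    exact ⟨⟨by linarith, by linarith⟩, by linarith, by linarith⟩

theorem conn_cells_nb (b : Bx) (D : ℕ) : b.cells ⊆ b.nb D := by
  intro p hp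
  rw [conn_mem_cells] at hp
  rw [conn_mem_nb]
  have h2 : (0 : ℤ) ≤ D * 2 ^ b.j := by positivity
  obtain ⟨⟨h1, h3⟩, h4, h5⟩ := hp
  refine ⟨⟨?_, ?_⟩, ?_, ?_⟩ <;> nlinarith

theorem conn_inner {Q b : Bx} {k D : ℕ} (hj : b.j + k = Q.j) (h1 : Q.u * 2 ^ k + D ≤ b.u)
    (h2 : b.u + D + 1 ≤ (Q.u + 1) * 2 ^ k) (h3 : Q.v * 2 ^ k + D ≤ b.v)
    (h4 : b.v + D + 1 ≤ (Q.v + 1) * 2 ^ k) : b.nb D ⊆ Q.cells := by
  intro p hp
  rw [conn_mem_nb] at hp
  rw [conn_mem_cells, ← hj, pow_add]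
  have h0 : (0 : ℤ) < 2 ^ b.j := by positivity
  obtain ⟨⟨a1, a2⟩, a3, a4⟩ := hp
  refine ⟨⟨?_, ?_⟩, ?_, ?_⟩ <;> nlinarith

theorem conn_nb_anc {B : Bx} {p : Cell} (hp : p ∈ B.cells) {i : ℕ} (hi : i ≤ B.j) (D : ℕ) :
    (anc i p).nb D ⊆ B.nb D := by
  intro q hq
  have hs := anc_sub hi hp
  have h0 : (0 : ℤ) < 2 ^ i := by positivity
  have hle : (2 : ℤ) ^ i ≤ 2 ^ B.j := pow_le_pow_right₀ (by norm_num) hi
  have hD : (D : ℤ) * 2 ^ i ≤ D * 2 ^ B.j := mul_le_mul_of_nonneg_left hle (by positivity)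
  have e : (anc i p).j = i := rfl
  have c1 : (((anc i p).u * 2 ^ i, (anc i p).v * 2 ^ i) : Cell) ∈ B.cells := by
    apply hs
    rw [conn_mem_cells, e]
    refine ⟨⟨le_rfl, ?_⟩, le_rfl, ?_⟩ <;> nlinarith
  have c2 : ((((anc i p).u + 1) * 2 ^ i - 1, ((anc i p).v + 1) * 2 ^ i - 1) : Cell) ∈ B.cells := by
    apply hs
    rw [conn_mem_cells, e]
    refine ⟨⟨?_, ?_⟩, ?_, ?_⟩ <;> simp only <;> nlinarith
  rw [conn_mem_cells] at c1 c2
  rw [conn_mem_nb, e] at hq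
  rw [conn_mem_nb]
  obtain ⟨⟨a1, a2⟩, a3, a4⟩ := hq
  obtain ⟨⟨b1, -⟩, b3, -⟩ := c1
  obtain ⟨⟨-, b2⟩, -, b4⟩ := c2
  simp only at b1 b2 b3 b4
  refine ⟨⟨?_, ?_⟩, ?_, ?_⟩ <;> nlinarith

theorem conn_ind_nonneg (P : Prop) : 0 ≤ ind P := by
  unfold ind; split_ifs <;> norm_num

theorem conn_exc_nonneg {ι : Type} (A : Arr ι) (K : ℝ) (l : ℕ) (p : Cell) : 0 ≤ A.exc K l p :=
  le_max_left _ _

theorem conn_ldv_nonneg {ι : Type} (A : Arr ι) (d : ι → ℝ) (l : ℕ) (p : Cell) :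
    0 ≤ A.ldv d l p := sum_nonneg fun _ _ => abs_nonneg _

theorem conn_cnt_fr (Q : Bx) (P : Cell → Prop) : cnt Q.cells P = Q.fr P * 4 ^ Q.j := by
  unfold Bx.fr; field_simp

theorem conn_sum_avg (Q : Bx) (f : Cell → ℝ) : ∑ p ∈ Q.cells, f p = Q.avg f * 4 ^ Q.j := by
  unfold Bx.avg; field_simp

theorem conn_card_filter {α : Type} (S : Finset α) (P : α → Prop) :
    (#(S.filter P) : ℝ) = cnt S P := rfl

/-- cells whose triples mostly avoid the complement of `R` carry many triples of `R` -/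
theorem conn_mass {ι : Type} {A : Arr ι} {p : Cell} {l : ℕ} {δ η : ℝ} {P : Tri ι → Prop}
    (hd : δ * 4 ^ l ≤ #(A.TB (anc l p))) (hP : cnt (A.TW p l) (fun t => ¬ P t) < η * 4 ^ l) :
    (δ - η) * 4 ^ l ≤ cnt (A.TW p l) P := by
  have h1 := cnt_add_not (A.TW p l) P
  have h2 : (#(A.TB (anc l p)) : ℝ) ≤ #(A.TW p l) := by exact_mod_cast card_le_card (TB_anc_sub p l)
  linarith

end Pool.Agent.MP_38296a_co.H21

end FileConn0

section FileConnA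

set_option autoImplicit false

namespace Pool.Agent.MP_38296a_co.H21

open Finset Filter Classical

variable {A : ℕ → Arr ℕ} {Q : ℕ → Bx} {β : Fin 3}

theorem conn_crossC (h : Good A Q) (hN : NA A Q β) {c : ℝ} (hc : 0 < c) : ∃ D : ℕ, ∀ κ : ℝ, 0 < κ →
    ∃ η θ : ℝ, 0 < η ∧ 0 < θ ∧ ∀ k : ℕ, ∀ᶠ l in atTop, ∀ᶠ n in UU,
      ∀ (bad : Cell → Prop) (b b' : Bx) (P P' : Finset Cell) (R G : Set ℕ),
      (Q n).fr bad ≤ θ / 4 ^ k → b.j + k = (Q n).j → b'.j = b.j → |b.u - b'.u| ≤ 1 →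
      |b.v - b'.v| ≤ 1 → b.nb D ⊆ (Q n).cells → P ⊆ b.cells → P' ⊆ b'.cells →
      κ * 4 ^ b.j ≤ #P → κ * 4 ^ b.j ≤ #P' →
      (∀ p ∈ P, c * 4 ^ l ≤ cnt ((A n).TW p l) fun t => t β ∈ R) →
      (∀ p ∈ P', c * 4 ^ l ≤ cnt ((A n).TW p l) fun t => t β ∈ G) →
      ∃ q ∈ b.nb D, ¬ bad q ∧ η * 4 ^ l ≤ cnt ((A n).TW q l) (fun t => t β ∈ R) ∧
        η * 4 ^ l ≤ cnt ((A n).TW q l) fun t => t β ∈ G := by
  obtain ⟨γ, hγ, hM⟩ := hN (c / 2) (by positivity)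
  obtain ⟨D, hD⟩ := cross hγ
  refine ⟨D, fun κ hκ => ?_⟩
  obtain ⟨K, hK, hexc, -⟩ := h.exc_ev
  obtain ⟨d, hd⟩ := h.ld_ev
  obtain ⟨η, θ, hη, hθ, hX⟩ := hD K (c / 2) (κ / 2) (by linarith) (by positivity) (by positivity)
  refine ⟨η, θ / 3, hη, by positivity, fun k => ?_⟩
  filter_upwards [eventually_ge_atTop 2, hexc (θ / 3 / 4 ^ k) (by positivity),
    hd (θ / 3 / 4 ^ k) (by positivity), hM (κ / 2 / 4 ^ k) (by positivity)] with l hl h1 h2 h3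
  filter_upwards [h1, h2, h3, h.val.big.eventually_ge_atTop (l + k)] with n h1 h2 h3 h4
  intro bad b b' P P' R G hb hj hj' hu hv hnb hP hP' hc1 hc2 hR hG
  have e4 : (4 : ℝ) ^ (Q n).j = 4 ^ b.j * 4 ^ k := by rw [← hj, pow_add]
  have p4 : (0 : ℝ) < 4 ^ k := by positivity
  have p5 : (0 : ℝ) < 4 ^ l := by positivity
  have p6 : (0 : ℝ) < 4 ^ b.j := by positivity
  set good : Cell → Prop := fun p => ∀ y : ℝ,
    cnt ((A n).TW p l) (fun t => |(A n).x (t β) - y| ≤ γ) ≤ c / 2 * 4 ^ l with hgood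
  refine hX ℕ (A n) β (d n) l b b' bad (P.filter good) P' R G (h.val.ok n) hl (by omega) hj' hu hv
    ((filter_subset _ _).trans hP) hP' ?_ (by nlinarith) ?_ (fun p hp => by nlinarith [hG p hp]) ?_
  · have a1 := cnt_add_not P good
    have a2 : cnt P (fun p => ¬ good p) ≤ cnt (Q n).cells (fun p => ¬ good p) :=
      cnt_mono fun p hp hg => ⟨hnb (conn_cells_nb b D (hP hp)), hg⟩
    have a3 : cnt (Q n).cells (fun p => ¬ good p) ≤ κ / 2 * 4 ^ b.j := by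
      rw [conn_cnt_fr, e4]
      calc _ ≤ κ / 2 / 4 ^ k * (4 ^ b.j * 4 ^ k) :=
            mul_le_mul_of_nonneg_right h3 (by positivity)
        _ = _ := by field_simp
    rw [conn_card_filter]
    linarith
  · intro p hp y
    rw [mem_filter] at hp
    have a1 := hR p hp.1
    have a2 := hp.2 y
    have a3 : cnt ((A n).TW p l) (fun t => t β ∈ R) ≤
        cnt ((A n).TW p l) (fun t => t β ∈ R ∧ γ < |(A n).x (t β) - y|) +
          cnt ((A n).TW p l) (fun t => |(A n).x (t β) - y| ≤ γ) :=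
      cnt_or fun t _ ht => by
        rcases lt_or_ge γ |(A n).x (t β) - y| with h | h
        · exact Or.inl ⟨ht, h⟩
        · exact Or.inr h
    linarith
  · have a1 : ∑ q ∈ b.nb D, (ind (bad q) + (A n).exc K l q + (A n).ldv (d n) l q) ≤
        ∑ q ∈ (Q n).cells, (ind (bad q) + (A n).exc K l q + (A n).ldv (d n) l q) :=
      sum_le_sum_of_subset_of_nonneg hnb fun q _ _ => by
        have := conn_ind_nonneg (bad q)
        have := conn_exc_nonneg (A n) K l q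
        have := conn_ldv_nonneg (A n) (d n) l q
        linarith
    refine a1.trans ?_
    rw [sum_add_distrib, sum_add_distrib, conn_sum_avg, conn_sum_avg, conn_sum_avg, ← fr_eq_avg, e4]
    have a2 : θ * 4 ^ b.j = 3 * (θ / 3 / 4 ^ k) * (4 ^ b.j * 4 ^ k) := by field_simp
    rw [a2]
    have a3 : (0 : ℝ) ≤ 4 ^ b.j * 4 ^ k := by positivity
    nlinarith [mul_le_mul_of_nonneg_right hb a3, mul_le_mul_of_nonneg_right h1 a3,
      mul_le_mul_of_nonneg_right h2 a3]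

end Pool.Agent.MP_38296a_co.H21

end FileConnA

section FileConnM

set_option autoImplicit false

namespace Pool.Agent.MP_38296a_co.H21

open Finset Filter Classical

variable {A : ℕ → Arr ℕ} {Q : ℕ → Bx} {β : Fin 3}

theorem conn_M_card {α : Type} (S : Finset α) (P : α → Prop) [h : DecidablePred P] :
    (#(S.filter P) : ℝ) = cnt S P := by
  have e : h = fun a => propDecidable (P a) := Subsingleton.elim _ _
  subst e
  rfl

/-- boxes of level `i` at distance at least `D` from the boundary of `U` -/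
def conn_Inner (U : Bx) (i k D : ℕ) (b : Bx) : Prop :=
  b.j = i ∧ (U.u * 2 ^ k + D ≤ b.u ∧ b.u + D + 1 ≤ (U.u + 1) * 2 ^ k) ∧
    U.v * 2 ^ k + D ≤ b.v ∧ b.v + D + 1 ≤ (U.v + 1) * 2 ^ k

theorem conn_Inner_nb {U b : Bx} {i k D : ℕ} (hj : i + k = U.j) (hb : conn_Inner U i k D b) :
    b.nb D ⊆ U.cells :=
  conn_inner (by rw [hb.1, hj]) hb.2.1.1 hb.2.1.2 hb.2.2.1 hb.2.2.2

theorem conn_M_anc {U : Bx} {i k D : ℕ} (hj : i + k = U.j) {p : Cell}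
    (hp : ∀ q : Cell, |q.1 - p.1| ≤ ((D + 1) * 2 ^ i : ℕ) → |q.2 - p.2| ≤ ((D + 1) * 2 ^ i : ℕ) →
      q ∈ U.cells) : conn_Inner U i k D (anc i p) := by
  have h0 : (0 : ℤ) < 2 ^ i := by positivity
  have h1 : (0 : ℤ) ≤ (D + 1) * 2 ^ i := by positivity
  have a1 := hp (p.1 - (D + 1) * 2 ^ i, p.2 - (D + 1) * 2 ^ i)
    (by push_cast; rw [abs_le]; constructor <;> linarith)
    (by push_cast; rw [abs_le]; constructor <;> linarith)
  have a2 := hp (p.1 + (D + 1) * 2 ^ i, p.2 + (D + 1) * 2 ^ i)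
    (by push_cast; rw [abs_le]; constructor <;> linarith)
    (by push_cast; rw [abs_le]; constructor <;> linarith)
  have a3 := mem_anc i p
  have e : (anc i p).j = i := rfl
  rw [conn_mem_cells, ← hj, pow_add] at a1 a2
  rw [conn_mem_cells, e] at a3
  obtain ⟨⟨b1, -⟩, b2, -⟩ := a1
  obtain ⟨⟨-, b3⟩, -, b4⟩ := a2
  obtain ⟨⟨c1, c2⟩, c3, c4⟩ := a3
  simp only at b1 b2 b3 b4
  refine ⟨rfl, ⟨?_, ?_⟩, ?_, ?_⟩
  · exact le_of_lt (lt_of_mul_lt_mul_right (a := (2 : ℤ) ^ i) (by nlinarith) h0.le)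
  · exact le_of_lt (lt_of_mul_lt_mul_right (a := (2 : ℤ) ^ i) (by nlinarith) h0.le)
  · exact le_of_lt (lt_of_mul_lt_mul_right (a := (2 : ℤ) ^ i) (by nlinarith) h0.le)
  · exact le_of_lt (lt_of_mul_lt_mul_right (a := (2 : ℤ) ^ i) (by nlinarith) h0.le)

theorem conn_M_exists {U : Bx} {i k D : ℕ} (hj : i + k = U.j) {P : Cell → Prop} {κ : ℝ}
    (hκ : 0 ≤ κ) (hP : κ + 4 * (D + 1) / 2 ^ k < U.fr P) :
    ∃ b, conn_Inner U i k D b ∧ κ * 4 ^ i ≤ cnt b.cells P := by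
  by_contra hne
  push Not at hne
  have a1 : U.fr P = U.avg fun p => (anc i p).fr P := by
    rw [fr_eq_avg, ← avg_anc (l := i) (by omega)]
    simp only [fr_eq_avg]
  have a2 : (U.avg fun p => (anc i p).fr P) ≤
      U.avg fun p => κ + ind (¬ conn_Inner U i k D (anc i p)) := by
    refine avg_mono fun p _ => ?_
    by_cases hi : conn_Inner U i k D (anc i p)
    · have b1 := hne _ hi
      rw [conn_cnt_fr] at b1
      have e : (anc i p).j = i := rfl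
      rw [e] at b1
      have b2 := lt_of_mul_lt_mul_right b1 (by positivity)
      have := conn_ind_nonneg (¬ conn_Inner U i k D (anc i p))
      linarith
    · have := fr_le_one (anc i p) P
      have e : ind (¬ conn_Inner U i k D (anc i p)) = 1 := by unfold ind; rw [if_pos hi]
      linarith
  rw [avg_add, avg_const, ← fr_eq_avg] at a2
  have a3 := fr_bdry U ((D + 1) * 2 ^ i)
  have a4 : U.fr (fun p => ¬ conn_Inner U i k D (anc i p)) ≤ U.fr (fun p => ¬ ∀ q : Cell,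
      |q.1 - p.1| ≤ ((D + 1) * 2 ^ i : ℕ) → |q.2 - p.2| ≤ ((D + 1) * 2 ^ i : ℕ) → q ∈ U.cells) :=
    fr_mono fun p _ hp hq => hp (conn_M_anc hj hq)
  have a5 : (4 : ℝ) * ((D + 1) * 2 ^ i : ℕ) / 2 ^ U.j = 4 * (D + 1) / 2 ^ k := by
    rw [← hj, pow_add]; push_cast; field_simp
  linarith

theorem conn_M_ivt (F : ℤ → Prop) {a b lo hi : ℤ} (ha : F a) (hb : ¬ F b) (h1 : lo ≤ a ∧ a ≤ hi)
    (h2 : lo ≤ b ∧ b ≤ hi) : ∃ c c', (lo ≤ c ∧ c ≤ hi) ∧ (lo ≤ c' ∧ c' ≤ hi) ∧ |c - c'| ≤ 1 ∧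
      F c ∧ ¬ F c' := by
  by_contra hne
  push Not at hne
  rcases le_total a b with hab | hab
  · have : ∀ m, a ≤ m → m ≤ b → F m := by
      intro m hm
      induction m, hm using Int.leInduction with
      | base => exact fun _ => ha
      | succ m hm ih =>
        intro hm'
        exact hne m (m + 1) ⟨by omega, by omega⟩ ⟨by omega, by omega⟩
          (by rw [abs_le]; constructor <;> omega) (ih (by omega))
    exact hb (this b hab le_rfl)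
  · have : ∀ m, b ≤ m → m ≤ a → ¬ F m := by
      intro m hm
      induction m, hm using Int.leInduction with
      | base => exact fun _ => hb
      | succ m hm ih =>
        intro hm' hF
        exact ih (by omega) (hne (m + 1) m ⟨by omega, by omega⟩ ⟨by omega, by omega⟩
          (by rw [abs_le]; constructor <;> omega) hF)
    exact this a hab le_rfl ha

theorem conn_M_walk {U : Bx} {i k D : ℕ} {X Y : Bx → Prop}
    (hXY : ∀ b, conn_Inner U i k D b → ¬ X b → Y b) {b1 b2 : Bx} (h1 : conn_Inner U i k D b1)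
    (h2 : conn_Inner U i k D b2) (hX : X b1) (hY : Y b2) :
    ∃ b b', conn_Inner U i k D b ∧ conn_Inner U i k D b' ∧ |b.u - b'.u| ≤ 1 ∧ |b.v - b'.v| ≤ 1 ∧
      X b ∧ Y b' := by
  by_cases hX2 : X b2
  · exact ⟨b2, b2, h2, h2, by simp, by simp, hX2, hY⟩
  obtain ⟨e1, ⟨u1, u2⟩, v1, v2⟩ := h1
  obtain ⟨e2, ⟨u3, u4⟩, v3, v4⟩ := h2
  have f1 : b1 = ⟨i, b1.u, b1.v⟩ := by rw [← e1]
  have f2 : b2 = ⟨i, b2.u, b2.v⟩ := by rw [← e2]
  by_cases hX3 : X ⟨i, b2.u, b1.v⟩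
  · obtain ⟨c, c', ⟨g1, g2⟩, ⟨g3, g4⟩, g5, g6, g7⟩ := conn_M_ivt (fun v => X ⟨i, b2.u, v⟩)
      (a := b1.v) (b := b2.v) (lo := U.v * 2 ^ k + D) (hi := (U.v + 1) * 2 ^ k - D - 1) hX3
      (by rw [← f2]; exact hX2) ⟨v1, by linarith⟩ ⟨v3, by linarith⟩
    have i1 : conn_Inner U i k D ⟨i, b2.u, c⟩ := ⟨rfl, ⟨u3, u4⟩, g1, by simp only; linarith⟩
    have i2 : conn_Inner U i k D ⟨i, b2.u, c'⟩ := ⟨rfl, ⟨u3, u4⟩, g3, by simp only; linarith⟩
    exact ⟨_, _, i1, i2, by simp, g5, g6, hXY _ i2 g7⟩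
  · obtain ⟨c, c', ⟨g1, g2⟩, ⟨g3, g4⟩, g5, g6, g7⟩ := conn_M_ivt (fun u => X ⟨i, u, b1.v⟩)
      (a := b1.u) (b := b2.u) (lo := U.u * 2 ^ k + D) (hi := (U.u + 1) * 2 ^ k - D - 1)
      (by rw [← f1]; exact hX) hX3 ⟨u1, by linarith⟩ ⟨u3, by linarith⟩
    have i1 : conn_Inner U i k D ⟨i, c, b1.v⟩ := ⟨rfl, ⟨g1, by simp only; linarith⟩, v1, v2⟩
    have i2 : conn_Inner U i k D ⟨i, c', b1.v⟩ := ⟨rfl, ⟨g3, by simp only; linarith⟩, v1, v2⟩
    exact ⟨_, _, i1, i2, g5, by simp, g6, hXY _ i2 g7⟩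

/-- two adjacent inner boxes with different colours -/
theorem conn_M_pair {U : Bx} {i k D : ℕ} (hj : i + k = U.j) {bad C : Cell → Prop} {κ : ℝ}
    (hκ : 0 ≤ κ) (hκ4 : κ ≤ 1 / 4) (hb : U.fr bad ≤ 1 / 2 / 4 ^ k)
    (h1 : κ + 4 * (D + 1) / 2 ^ k < U.fr fun p => ¬ bad p ∧ C p)
    (h2 : κ + 4 * (D + 1) / 2 ^ k < U.fr fun p => ¬ bad p ∧ ¬ C p) :
    ∃ b b', conn_Inner U i k D b ∧ conn_Inner U i k D b' ∧ |b.u - b'.u| ≤ 1 ∧ |b.v - b'.v| ≤ 1 ∧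
      κ * 4 ^ i ≤ cnt b.cells (fun p => ¬ bad p ∧ C p) ∧
      κ * 4 ^ i ≤ cnt b'.cells (fun p => ¬ bad p ∧ ¬ C p) := by
  obtain ⟨b1, i1, x1⟩ := conn_M_exists hj hκ h1
  obtain ⟨b2, i2, x2⟩ := conn_M_exists hj hκ h2
  refine conn_M_walk (X := fun b => κ * 4 ^ i ≤ cnt b.cells (fun p => ¬ bad p ∧ C p))
    (Y := fun b => κ * 4 ^ i ≤ cnt b.cells (fun p => ¬ bad p ∧ ¬ C p)) ?_ i1 i2 x1 x2
  intro b hi hX
  have p4 : (0 : ℝ) < 4 ^ i := by positivity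
  have a1 := cnt_add_not b.cells bad
  rw [card_cells, hi.1] at a1
  push_cast at a1
  have a2 : cnt b.cells bad ≤ cnt U.cells bad :=
    cnt_mono fun p hp hg => ⟨conn_Inner_nb hj hi (conn_cells_nb b D hp), hg⟩
  have a3 : cnt U.cells bad ≤ 1 / 2 * 4 ^ i := by
    rw [conn_cnt_fr, ← hj, pow_add]
    calc _ ≤ 1 / 2 / 4 ^ k * (4 ^ i * 4 ^ k) := mul_le_mul_of_nonneg_right hb (by positivity)
      _ = _ := by field_simp
  have a4 : cnt b.cells (fun p => ¬ bad p) ≤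
      cnt b.cells (fun p => ¬ bad p ∧ C p) + cnt b.cells (fun p => ¬ bad p ∧ ¬ C p) :=
    cnt_or fun p _ hp => by
      by_cases hc : C p
      · exact Or.inl ⟨hp, hc⟩
      · exact Or.inr ⟨hp, hc⟩
  push Not at hX
  nlinarith

theorem conn_mtc (h : Good A Q) (hN : NA A Q β) {κ : ℝ} (hκ : 0 < κ) : ∃ η θ : ℝ, 0 < η ∧ 0 < θ ∧
    ∀ᶠ l in atTop, ∀ᶠ n in UU, ∀ (bad : Cell → Prop) (R : Set ℕ) (C : Cell → Prop),
      (Q n).fr bad ≤ θ → Col (A n) (Q n) β l η bad R C →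
      (Q n).fr (fun p => ¬ bad p ∧ C p) ≤ κ ∨ (Q n).fr (fun p => ¬ bad p ∧ ¬ C p) ≤ κ := by
  obtain ⟨δ, hδ, -, hM⟩ := h.dens
  obtain ⟨D, hD⟩ := conn_crossC h hN (c := δ / 2) (by positivity)
  have hκ' : 0 < min (κ / 2) (1 / 4) := lt_min (by positivity) (by norm_num)
  obtain ⟨η, θ, hη, hθ, hX⟩ := hD _ hκ'
  obtain ⟨k, hk⟩ : ∃ k : ℕ, 4 * ((D : ℝ) + 1) / 2 ^ k ≤ κ / 4 := by
    obtain ⟨k, hk⟩ := pow_unbounded_of_one_lt (16 * ((D : ℝ) + 1) / κ) (by norm_num : (1 : ℝ) < 2)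
    refine ⟨k, ?_⟩
    rw [div_lt_iff₀ hκ] at hk
    rw [div_le_iff₀ (by positivity)]
    linarith
  refine ⟨min η (δ / 2), min (θ / 4 ^ k) (1 / 4 / 4 ^ k), lt_min hη (by positivity),
    lt_min (by positivity) (by positivity), ?_⟩
  filter_upwards [hX k, hM (min (κ / 4) (1 / 4 / 4 ^ k)) (lt_min (by positivity) (by positivity))]
    with l h1 h2
  filter_upwards [h1, h2, h.val.big.eventually_ge_atTop k] with n h1 h2 h3
  intro bad R C hb hC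
  by_contra hne
  push Not at hne
  obtain ⟨n1, n2⟩ := hne
  have p5 : (0 : ℝ) < 4 ^ l := by positivity
  set dn : Cell → Prop := fun p => δ * 4 ^ l ≤ #((A n).TB (anc l p)) with hdn
  have hj : (Q n).j - k + k = (Q n).j := by omega
  have m1 := min_le_left (κ / 2) (1 / 4 : ℝ)
  have m2 := min_le_right (κ / 2) (1 / 4 : ℝ)
  have m3 := h2.trans (min_le_left _ _)
  have m4 := h2.trans (min_le_right _ _)
  have m5 := hb.trans (min_le_left _ _)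
  have m6 := hb.trans (min_le_right _ _)
  have m7 := min_le_left η (δ / 2)
  have m8 := min_le_right η (δ / 2)
  have key : ∀ C' : Cell → Prop, (Q n).fr (fun p => ¬ bad p ∧ C' p) ≤
      (Q n).fr (fun p => ¬ (bad p ∨ ¬ dn p) ∧ C' p) + (Q n).fr (fun p => ¬ dn p) := fun C' =>
    fr_or fun p _ hp => by
      by_cases hd : dn p
      · exact Or.inl ⟨fun h => h.elim hp.1 fun h => h hd, hp.2⟩
      · exact Or.inr hd
  obtain ⟨b, b', i1, i2, hu, hv, x1, x2⟩ := conn_M_pair (D := D) hj (bad := fun p => bad p ∨ ¬ dn p)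
    (C := C) hκ'.le m2
    (by
      have := fr_or (Q := Q n) (P := fun p => bad p ∨ ¬ dn p) (P1 := bad) (P2 := fun p => ¬ dn p)
        fun p _ hp => hp
      have e : (1 : ℝ) / 2 / 4 ^ k = 1 / 4 / 4 ^ k + 1 / 4 / 4 ^ k := by ring
      linarith)
    (by linarith [key C]) (by linarith [key fun p => ¬ C p])
  have s1 := conn_Inner_nb hj i1
  have s2 := conn_Inner_nb hj i2
  obtain ⟨q, hq, q1, q2, q3⟩ := h1 bad b b' (b.cells.filter fun p => ¬ (bad p ∨ ¬ dn p) ∧ C p)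
    (b'.cells.filter fun p => ¬ (bad p ∨ ¬ dn p) ∧ ¬ C p) R Rᶜ m5 (by rw [i1.1, hj])
    (by rw [i1.1, i2.1]) hu hv s1 (filter_subset _ _) (filter_subset _ _)
    (by rw [conn_M_card, i1.1]; exact x1) (by rw [conn_M_card, i1.1]; exact x2)
    (by
      intro p hp
      rw [mem_filter] at hp
      obtain ⟨hp, g1, g2⟩ := hp
      push Not at g1
      have a1 := (hC p (s1 (conn_cells_nb b D hp)) g1.1).1 g2
      have a2 := conn_mass (P := fun t => t β ∈ R) g1.2 a1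
      nlinarith)
    (by
      intro p hp
      rw [mem_filter] at hp
      obtain ⟨hp, g1, g2⟩ := hp
      push Not at g1
      have a1 := (hC p (s2 (conn_cells_nb b' D hp)) g1.1).2 g2
      have a0 : cnt ((A n).TW p l) (fun t => ¬ t β ∈ Rᶜ) ≤ cnt ((A n).TW p l) (fun t => t β ∈ R) :=
        cnt_mono fun t ht h => ⟨ht, by simpa using h⟩
      have a2 := conn_mass (P := fun t => t β ∈ Rᶜ) g1.2 (a0.trans_lt a1)
      nlinarith)
  have a0 : cnt ((A n).TW q l) (fun t => t β ∈ Rᶜ) ≤ cnt ((A n).TW q l) (fun t => t β ∉ R) :=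
    cnt_mono fun t ht h => ⟨ht, h⟩
  by_cases hc : C q
  · have := (hC q (s1 hq) q1).1 hc
    nlinarith
  · have := (hC q (s1 hq) q1).2 hc
    nlinarith

end Pool.Agent.MP_38296a_co.H21

end FileConnM

section FileConnT

set_option autoImplicit false

namespace Pool.Agent.MP_38296a_co.H21

open Finset Filter Classical

variable {A : ℕ → Arr ℕ} {Q : ℕ → Bx} {β : Fin 3}

theorem conn_T_small {α : Type} (S : Finset α) (ρ : α → ℝ) :
    ∃ e : ℝ, 0 < e ∧ ∀ p ∈ S, 0 < ρ p → e < ρ p := by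
  induction S using Finset.induction_on with
  | empty => exact ⟨1, one_pos, by simp⟩
  | insert a S _ ih =>
    obtain ⟨e, he, h⟩ := ih
    by_cases ha : 0 < ρ a
    · refine ⟨min e (ρ a / 2), by positivity, fun p hp h0 => ?_⟩
      rcases mem_insert.1 hp with rfl | hp
      · exact (min_le_right _ _).trans_lt (by linarith)
      · exact (min_le_left _ _).trans_lt (h p hp h0)
    · refine ⟨e, he, fun p hp h0 => ?_⟩
      rcases mem_insert.1 hp with rfl | hp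
      · exact absurd h0 ha
      · exact h p hp h0

theorem conn_T_band (U : Bx) (ρ : Cell → ℝ) {b c : ℝ} (hb : 0 < b) (hc : 1 ≤ c) {M : ℕ}
    (hM : 0 < M) : ∃ m < M,
      U.fr (fun p => b * c ^ (2 * m) < ρ p ∧ ρ p ≤ b * c ^ (2 * m + 2)) ≤ 1 / M := by
  have h1 : ∀ p, ∑ m ∈ range M, ind (b * c ^ (2 * m) < ρ p ∧ ρ p ≤ b * c ^ (2 * m + 2)) ≤ 1 := by
    intro p
    rw [← cnt_eq_sum (range M) fun m => b * c ^ (2 * m) < ρ p ∧ ρ p ≤ b * c ^ (2 * m + 2)]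
    unfold cnt
    have key : ∀ m m' : ℕ, b * c ^ (2 * m') < ρ p → ρ p ≤ b * c ^ (2 * m + 2) → m' ≤ m := by
      intro m m' a1 a2
      by_contra hn
      have := mul_le_mul_of_nonneg_left
        (pow_le_pow_right₀ hc (show 2 * m + 2 ≤ 2 * m' by omega)) hb.le
      linarith
    refine Nat.cast_le_one.2 (card_le_one.2 fun m hm m' hm' => ?_)
    simp only [mem_filter] at hm hm'
    exact le_antisymm (key _ _ hm.2.1 hm'.2.2) (key _ _ hm'.2.1 hm.2.2)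
  have h2 : ∑ m ∈ range M,
      U.fr (fun p => b * c ^ (2 * m) < ρ p ∧ ρ p ≤ b * c ^ (2 * m + 2)) ≤
      ∑ _m ∈ range M, (1 / M : ℝ) := by
    have hM' : (0 : ℝ) < M := Nat.cast_pos.2 hM
    rw [sum_const, card_range, nsmul_eq_mul, mul_one_div_cancel hM'.ne']
    simp only [fr_eq_avg, Bx.avg, ← sum_div]
    rw [sum_comm]
    exact (avg_mono (Q := U) fun p _ => h1 p).trans (avg_const U 1).le
  obtain ⟨m, hm, h⟩ := exists_le_of_sum_le (nonempty_range_iff.2 hM.ne') h2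
  exact ⟨m, mem_range.1 hm, h⟩

/-- Plan. `conn_mtc` with `κ / 2` gives `η, θ0`; take `θ = θ0 / 2`, `M : ℕ` with `1 / M ≤ θ0 / 2`, and
`C = c ^ (2 * M)`. First prove the claim for all `b > 0` (fixed `n`): the bands
`b * c ^ (2 m) < ρ p ≤ b * c ^ (2 m + 2)`, `m < M`, are disjoint (`1 ≤ c`), so the sum of their
fractions is at most one (`cnt_eq_sum`, swap the sums) and one band has fraction `≤ 1 / M`. Put
`bad' = bad ∨ band`, `τ = c ^ (2 m + 1) * b`, `R` from the hypothesis, colour `Cc p := c * ρ p ≤ τ`.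
Then `Col` holds for `bad'` (if `¬ Cc p` and `p` is not in the band then `c * τ < ρ p`). The first
alternative of `conn_mtc` contradicts `κ ≤ fr (¬ bad ∧ ρ ≤ b)` (`fr_mono`), the second gives the
claim since `C * b < ρ p` implies not in the band and `¬ Cc p`. For `b = 0` apply the case `b' > 0`
with `C * b'` smaller than all positive values of `ρ` on the finite set `(Q n).cells`. -/
theorem conn_t1c (h : Good A Q) (hN : NA A Q β) {κ : ℝ} (hκ : 0 < κ) : ∃ η θ : ℝ, 0 < η ∧ 0 < θ ∧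
    ∀ᶠ l in atTop, ∀ c : ℝ, 1 ≤ c → ∃ C : ℝ, 1 ≤ C ∧ ∀ᶠ n in UU,
      ∀ (bad : Cell → Prop) (ρ : Cell → ℝ) (b : ℝ), 0 ≤ b → (Q n).fr bad ≤ θ →
      (∀ τ : ℝ, 0 < τ → ∃ R : Set ℕ, ∀ p ∈ (Q n).cells, ¬ bad p →
        (c * ρ p ≤ τ → cnt ((A n).TW p l) (fun t => t β ∉ R) < η * 4 ^ l) ∧
        (c * τ < ρ p → cnt ((A n).TW p l) (fun t => t β ∈ R) < η * 4 ^ l)) →
      κ ≤ (Q n).fr (fun p => ¬ bad p ∧ ρ p ≤ b) →
      (Q n).fr (fun p => ¬ bad p ∧ C * b < ρ p) ≤ κ := by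
  obtain ⟨η, θ, hη, hθ, hl⟩ := conn_mtc h hN (half_pos hκ)
  obtain ⟨M, hM⟩ := exists_nat_one_div_lt (half_pos hθ)
  refine ⟨η, θ / 2, hη, half_pos hθ, hl.mono fun l hn c hc => ⟨c ^ (2 * (M + 1)),
    one_le_pow₀ hc, hn.mono fun n hn bad ρ => ?_⟩⟩
  have hc0 : 0 < c := by linarith
  have main : ∀ b : ℝ, 0 < b → (Q n).fr bad ≤ θ / 2 →
      (∀ τ : ℝ, 0 < τ → ∃ R : Set ℕ, ∀ p ∈ (Q n).cells, ¬ bad p →
        (c * ρ p ≤ τ → cnt ((A n).TW p l) (fun t => t β ∉ R) < η * 4 ^ l) ∧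
        (c * τ < ρ p → cnt ((A n).TW p l) (fun t => t β ∈ R) < η * 4 ^ l)) →
      κ ≤ (Q n).fr (fun p => ¬ bad p ∧ ρ p ≤ b) →
      (Q n).fr (fun p => ¬ bad p ∧ c ^ (2 * (M + 1)) * b < ρ p) ≤ κ := by
    intro b hb hbad hR hk
    obtain ⟨m, hm, hband⟩ := conn_T_band (Q n) ρ hb hc M.succ_pos
    obtain ⟨R, hR⟩ := hR (c * (b * c ^ (2 * m))) (by positivity)
    have e1 : b ≤ b * c ^ (2 * m) := le_mul_of_one_le_right hb.le (one_le_pow₀ hc)
    have e2 : b * c ^ (2 * m + 2) ≤ c ^ (2 * (M + 1)) * b := by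
      rw [mul_comm]
      exact mul_le_mul_of_nonneg_right (pow_le_pow_right₀ hc (by omega)) hb.le
    have e3 : b * c ^ (2 * m) ≤ b * c ^ (2 * m + 2) :=
      mul_le_mul_of_nonneg_left (pow_le_pow_right₀ hc (by omega)) hb.le
    rcases hn (fun p => bad p ∨ (b * c ^ (2 * m) < ρ p ∧ ρ p ≤ b * c ^ (2 * m + 2))) R
      (fun p => ρ p ≤ b * c ^ (2 * m)) (by
        refine (fr_or fun p _ hp => hp).trans ?_
        push_cast at hband
        linarith) (by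
        intro p hp hb'
        rw [not_or, not_and, not_le] at hb'
        refine ⟨fun h1 => (hR p hp hb'.1).1 (mul_le_mul_of_nonneg_left h1 hc0.le),
          fun h1 => (hR p hp hb'.1).2 (lt_of_eq_of_lt ?_ (hb'.2 (not_le.1 h1)))⟩
        ring) with h1 | h1
    · have := hk.trans ((fr_mono fun p _ hp => ?_).trans h1)
      · linarith
      · exact ⟨not_or.2 ⟨hp.1, fun h2 => by linarith [h2.1, hp.2]⟩, hp.2.trans e1⟩
    · refine ((fr_mono fun p _ hp => ?_).trans h1).trans (half_le_self hκ.le)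
      exact ⟨not_or.2 ⟨hp.1, fun h2 => by linarith [h2.2, hp.2]⟩, not_le.2 (by linarith [hp.2])⟩
  intro b hb hbad hR hk
  rcases hb.lt_or_eq with hb | rfl
  · exact main b hb hbad hR hk
  · obtain ⟨e, he, h1⟩ := conn_T_small (Q n).cells ρ
    have hC : 0 < c ^ (2 * (M + 1)) := by positivity
    have hb' : 0 < e / c ^ (2 * (M + 1)) := by positivity
    refine (fr_mono fun p hp h2 => ?_).trans (main _ hb' hbad hR
      (hk.trans (fr_mono fun p _ h2 => ⟨h2.1, h2.2.trans hb'.le⟩)))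
    refine ⟨h2.1, ?_⟩
    rw [mul_div_cancel₀ _ hC.ne']
    exact h1 p hp (by simpa using h2.2)

end Pool.Agent.MP_38296a_co.H21

end FileConnT

section FileConnG

set_option autoImplicit false

namespace Pool.Agent.MP_38296a_co.H21

open Finset Filter Classical

variable {A : ℕ → Arr ℕ} {Q : ℕ → Bx} {β : Fin 3}

theorem conn_G_card (b : Bx) : (#b.cells : ℝ) = 4 ^ b.j := by exact_mod_cast card_cells b

theorem conn_G_filt {α : Type} (S : Finset α) (P : α → Prop) :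
    ∃ T : Finset α, cnt S P = #T ∧ ∀ a ∈ T, a ∈ S ∧ P a :=
  ⟨S.filter P, rfl, fun _ h => mem_filter.1 h⟩

/-- the majority colour does not change along the chain of ancestors -/
theorem conn_G_chain {bad C : Cell → Prop} {p : Cell} {l j : ℕ}
    (h1 : ∀ i, l ≤ i → i ≤ j → cnt (anc i p).cells bad ≤ 1 / 16 * 4 ^ i)
    (h2 : ∀ i, l ≤ i → i ≤ j → 1 / 16 * 4 ^ i ≤ cnt (anc i p).cells (fun q => ¬ bad q ∧ C q) →
      cnt (anc i p).cells (fun q => ¬ bad q ∧ ¬ C q) < 1 / 16 * 4 ^ i)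
    (h3 : ∀ q ∈ (anc l p).cells, ¬ bad q → C q) {i : ℕ} (hl : l ≤ i) (hi : i ≤ j) :
    1 / 16 * 4 ^ i ≤ cnt (anc i p).cells fun q => ¬ bad q ∧ C q := by
  have h0 : ∀ i, (4 : ℝ) ^ i ≤ cnt (anc i p).cells bad +
      cnt (anc i p).cells fun q => ¬ bad q := fun i => by
    rw [cnt_add_not, conn_G_card]
    exact le_rfl
  induction i, hl using Nat.le_induction with
  | base =>
    have a1 := h0 l
    have a2 := h1 l le_rfl hi
    have a3 : cnt (anc l p).cells (fun q => ¬ bad q) ≤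
        cnt (anc l p).cells fun q => ¬ bad q ∧ C q :=
      cnt_mono fun q hq hb => ⟨hq, hb, h3 q hq hb⟩
    have a4 : (0 : ℝ) < 4 ^ l := by positivity
    linarith
  | succ i hl ih =>
    have hi' := Nat.le_of_succ_le hi
    have a1 := h0 i
    have a2 := h1 i hl hi'
    have a3 := h2 i hl hi' (ih hi')
    have a4 := cnt_or (S := (anc i p).cells) (P := fun q => ¬ bad q)
      (P1 := fun q => ¬ bad q ∧ C q) (P2 := fun q => ¬ bad q ∧ ¬ C q) fun q _ h => by tauto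
    have a5 : cnt (anc i p).cells (fun q => ¬ bad q ∧ C q) ≤
        cnt (anc (i + 1) p).cells fun q => ¬ bad q ∧ C q :=
      cnt_mono fun q hq h =>
        ⟨anc_sub (Q := anc (i + 1) p) (Nat.le_succ i) (mem_anc _ p) hq, h⟩
    have a6 : (0 : ℝ) < 4 ^ i := by positivity
    rw [pow_succ]
    linarith

theorem conn_G_compl {B : Arr ℕ} {U : Bx} {l : ℕ} {η : ℝ} {bad : Cell → Prop} {R : Set ℕ}
    {C : Cell → Prop} (h : Col B U β l η bad R C) : Col B U β l η bad Rᶜ fun p => ¬ C p := by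
  intro p hp hb
  refine ⟨fun hc => ?_, fun hc => (h p hp hb).1 (not_not.1 hc)⟩
  exact (cnt_mono fun t ht h => ⟨ht, not_not.1 h⟩).trans_lt ((h p hp hb).2 hc)

/-- the colour of a good cell is the majority colour of the box -/
theorem conn_G_det {B : Arr ℕ} {U b : Bx} {l D : ℕ} {δ η γ θ : ℝ} {bad bad2 : Cell → Prop}
    {f : Cell → ℝ} (hf : ∀ q, ind (bad2 q) ≤ f q) (hδ : 0 < δ) (hη : 2 * η ≤ δ) (hθ : θ ≤ 1 / 16)
    (hl : l ≤ b.j) (hbj : b.j ≤ U.j) (hb : b.nb D ⊆ U.cells)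
    (h2 : ∀ q, ¬ bad2 q → ¬ bad q ∧ δ * 4 ^ l ≤ #(B.TB (anc l q)) ∧
      ∀ y : ℝ, cnt (B.TW q l) (fun t => |B.x (t β) - y| ≤ γ) ≤ δ / 4 * 4 ^ l)
    (hcr : ∀ (c : Bx) (P P' : Finset Cell) (R G : Set ℕ), l ≤ c.j → P ⊆ c.cells → P' ⊆ c.cells →
      1 / 16 * 4 ^ c.j ≤ (#P : ℝ) → 1 / 16 * 4 ^ c.j ≤ (#P' : ℝ) →
      (∀ p ∈ P, ∀ y : ℝ, δ / 4 * 4 ^ l ≤ cnt (B.TW p l) fun t => t β ∈ R ∧ γ < |B.x (t β) - y|) →
      (∀ p ∈ P', δ / 4 * 4 ^ l ≤ cnt (B.TW p l) fun t => t β ∈ G) →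
      ∑ q ∈ c.nb D, f q ≤ θ * 4 ^ c.j →
      ∃ q ∈ c.nb D, ¬ bad2 q ∧ η * 4 ^ l ≤ cnt (B.TW q l) (fun t => t β ∈ R) ∧
        η * 4 ^ l ≤ cnt (B.TW q l) fun t => t β ∈ G)
    {R : Set ℕ} {C : Cell → Prop} (hC : Col B U β l η bad R C) {p : Cell} (hp : p ∈ b.cells)
    (hpb : ¬ bad2 p) (hG : ∀ i ≤ U.j, ∑ q ∈ (anc i p).nb D ∩ U.cells, f q ≤ θ * 4 ^ i)
    (hCp : C p) : 1 / 16 * 4 ^ b.j ≤ cnt b.cells (fun q => ¬ bad2 q ∧ C q) ∧
      cnt b.cells (fun q => ¬ bad2 q ∧ ¬ C q) < 1 / 16 * 4 ^ b.j := by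
  have hf0 : ∀ q, 0 ≤ f q := fun q => (conn_ind_nonneg _).trans (hf q)
  have hL : (0 : ℝ) < 4 ^ l := by positivity
  have hη' := mul_le_mul_of_nonneg_right hη hL.le
  have hδ' := mul_pos hδ hL
  have a0 : ∀ i ≤ b.j, (anc i p).nb D ⊆ U.cells := fun i hi => (conn_nb_anc hp hi D).trans hb
  have a0' : ∀ i ≤ b.j, (anc i p).cells ⊆ U.cells := fun i hi =>
    (conn_cells_nb _ D).trans (a0 i hi)
  have a1 : ∀ i ≤ b.j, ∑ q ∈ (anc i p).nb D, f q ≤ θ * 4 ^ i := fun i hi => by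
    have := hG i (hi.trans hbj)
    rwa [inter_eq_left.2 (a0 i hi)] at this
  have a2 : ∀ i, l ≤ i → i ≤ b.j → cnt (anc i p).cells bad2 ≤ 1 / 16 * 4 ^ i := fun i _ hi => by
    rw [cnt_eq_sum]
    refine (sum_le_sum fun q _ => hf q).trans ((sum_le_sum_of_subset_of_nonneg
      (conn_cells_nb _ D) fun q _ _ => hf0 q).trans ((a1 i hi).trans ?_))
    exact mul_le_mul_of_nonneg_right hθ (by positivity)
  have a3 : ∀ i, l ≤ i → i ≤ b.j →
      1 / 16 * 4 ^ i ≤ cnt (anc i p).cells (fun q => ¬ bad2 q ∧ C q) →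
      cnt (anc i p).cells (fun q => ¬ bad2 q ∧ ¬ C q) < 1 / 16 * 4 ^ i := fun i hli hi h => by
    by_contra hn
    obtain ⟨P, eP, hP⟩ := conn_G_filt (anc i p).cells fun q => ¬ bad2 q ∧ C q
    obtain ⟨P', eP', hP'⟩ := conn_G_filt (anc i p).cells fun q => ¬ bad2 q ∧ ¬ C q
    obtain ⟨q, q1, q2, q3, q4⟩ := hcr (anc i p) P P' R Rᶜ hli (fun q hq => (hP q hq).1)
      (fun q hq => (hP' q hq).1) (eP ▸ h) (eP' ▸ not_lt.1 hn) (fun q hq y => by
        obtain ⟨q1, q2, q3⟩ := hP q hq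
        obtain ⟨r1, r2, r3⟩ := h2 q q2
        have c1 := conn_mass (P := fun t => t β ∈ R) r2 ((hC q (a0' i hi q1) r1).1 q3)
        have c2 := cnt_or (S := B.TW q l) (P := fun t => t β ∈ R)
          (P1 := fun t => t β ∈ R ∧ γ < |B.x (t β) - y|) (P2 := fun t => |B.x (t β) - y| ≤ γ)
          fun t _ h => (lt_or_ge γ _).imp_left fun h' => ⟨h, h'⟩
        linarith [r3 y]) (fun q hq => by
        obtain ⟨q1, q2, q3⟩ := hP' q hq
        obtain ⟨r1, r2, -⟩ := h2 q q2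
        have c1 := conn_mass (P := fun t => t β ∈ Rᶜ) r2
          ((conn_G_compl hC q (a0' i hi q1) r1).1 q3)
        linarith) (a1 i hi)
    have c1 := hC q (a0 i hi q1) (h2 q q2).1
    by_cases hq : C q
    · exact (c1.1 hq).not_ge q4
    · exact (c1.2 hq).not_ge q3
  have a4 : ∀ q ∈ (anc l p).cells, ¬ bad2 q → C q := fun q hq hqb => by
    by_contra hn
    have c1 := (hC p (a0' l hl (mem_anc l p)) (h2 p hpb).1).1 hCp
    have c2 := (hC q (a0' l hl hq) (h2 q hqb).1).2 hn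
    have c3 := cnt_add_not (B.TB (anc l p)) fun t => t β ∈ R
    have c4 : cnt (B.TB (anc l p)) (fun t => t β ∈ R) ≤ cnt (B.TW q l) fun t => t β ∈ R :=
      cnt_mono fun t ht h => ⟨TB_anc_sub q l (by rwa [anc_eq le_rfl hq]), h⟩
    have c5 : cnt (B.TB (anc l p)) (fun t => ¬ t β ∈ R) ≤ cnt (B.TW p l) fun t => t β ∉ R :=
      cnt_mono fun t ht h => ⟨TB_anc_sub p l ht, h⟩
    linarith [(h2 p hpb).2.1]
  have a5 := conn_G_chain a2 a3 a4 hl le_rfl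
  have a6 := a3 _ hl le_rfl a5
  rw [mem_cells.1 hp] at a5 a6
  exact ⟨a5, a6⟩

/-- a box in which most small boxes are dense is dense -/
theorem conn_G_mass {B : Arr ℕ} (hB : B.Ok) {b : Bx} {l : ℕ} (hl : l ≤ b.j) {δ : ℝ} :
    δ * cnt b.cells (fun p => δ * 4 ^ l ≤ #(B.TB (anc l p))) ≤ #(B.TB b) := by
  rw [hB.card_TB, ← sum_anc hl, cnt_eq_sum, mul_sum]
  refine sum_le_sum fun p _ => ?_
  rw [Bx.avg, ← hB.card_TB, le_div_iff₀ (by positivity)]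
  unfold ind
  split_ifs with h
  · rw [mul_one]
    exact h
  · simp

/-- most cells of a sub-box far from the boundary have the same colour -/
theorem conn_gmlc (h : Good A Q) (hN : NA A Q β) : ∃ δ η θ : ℝ, 0 < δ ∧ 0 < η ∧ 0 < θ ∧
    ∀ᶠ l in atTop, ∀ᶠ n in UU, ∀ bad : Cell → Prop, (Q n).fr bad ≤ θ →
      ∃ H ⊆ (Q n).cells, (∀ p ∈ H, ¬ bad p) ∧
        δ * 4 ^ (Q n).j ≤ cnt (A n).T (fun t => (A n).loc t ∈ H) ∧
        ∀ (R : Set ℕ) (C : Cell → Prop), Col (A n) (Q n) β l η bad R C →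
          ∀ p ∈ H, ∀ q ∈ H, (C p ↔ C q) := by
  obtain ⟨δ0, hδ0, -, hd⟩ := h.dens
  obtain ⟨γ, hγ, hna⟩ := hN (δ0 / 4) (by positivity)
  obtain ⟨D, hD⟩ := cross hγ
  obtain ⟨K, hK, hexc, -⟩ := h.exc_ev
  obtain ⟨d, hld⟩ := h.ld_ev
  obtain ⟨η0, θ0, hη0, hθ0, hcr⟩ := hD K (δ0 / 4) (1 / 16) (by linarith) (by positivity)
    (by norm_num)
  obtain ⟨θ1, hθ1, hθ1a, hθ1b⟩ : ∃ θ1 : ℝ, 0 < θ1 ∧ θ1 ≤ θ0 ∧ θ1 ≤ 1 / 16 :=
    ⟨min θ0 (1 / 16), lt_min hθ0 (by norm_num), min_le_left _ _, min_le_right _ _⟩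
  obtain ⟨η, hη, hηa, hηb⟩ : ∃ η : ℝ, 0 < η ∧ η ≤ η0 ∧ η ≤ δ0 / 2 :=
    ⟨min η0 (δ0 / 2), lt_min hη0 (by positivity), min_le_left _ _, min_le_right _ _⟩
  obtain ⟨k, hk⟩ := pow_unbounded_of_one_lt (2 * (D : ℤ)) (one_lt_two (α := ℤ))
  obtain ⟨δ, hδ, hδe⟩ : ∃ δ : ℝ, 0 < δ ∧ δ * 4 ^ k = δ0 / 4 :=
    ⟨δ0 / 4 / 4 ^ k, by positivity, div_mul_cancel₀ _ (by positivity)⟩
  obtain ⟨θ, hθ, hθa, hθb⟩ : ∃ θ : ℝ, 0 < θ ∧ θ * 4 ^ k ≤ 1 / 2 ∧
      (2 * D + 1) ^ 4 * (5 * θ) ≤ δ * θ1 := by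
    refine ⟨min (1 / 2 / 4 ^ k) (δ * θ1 / (5 * (2 * D + 1) ^ 4)), by positivity, ?_, ?_⟩
    · exact (le_div_iff₀ (by positivity)).1 (min_le_left _ _)
    · have := (le_div_iff₀ (by positivity)).1
        (min_le_right (1 / 2 / 4 ^ k) (δ * θ1 / (5 * (2 * D + 1) ^ 4)))
      linarith
  refine ⟨δ, η, θ, hδ, hη, hθ, ?_⟩
  filter_upwards [hd θ hθ, hna θ hθ, hexc θ hθ, hld θ hθ, eventually_ge_atTop 2]
    with l e1 e2 e3 e4 hl2
  filter_upwards [e1, e2, e3, e4, h.val.big.eventually_ge_atTop (l + k)]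
    with n e1 e2 e3 e4 hj bad hbad
  have hB := h.val.ok n
  generalize A n = B at *
  generalize Q n = U at *
  obtain ⟨bad2, hb2⟩ : ∃ bad2 : Cell → Prop, ∀ q, bad2 q ↔ bad q ∨
      ¬ δ0 * 4 ^ l ≤ #(B.TB (anc l q)) ∨ ¬ ∀ y : ℝ,
        cnt (B.TW q l) (fun t => |B.x (t β) - y| ≤ γ) ≤ δ0 / 4 * 4 ^ l := ⟨_, fun _ => Iff.rfl⟩
  have h2 : ∀ q, ¬ bad2 q → ¬ bad q ∧ δ0 * 4 ^ l ≤ #(B.TB (anc l q)) ∧
      ∀ y : ℝ, cnt (B.TW q l) (fun t => |B.x (t β) - y| ≤ γ) ≤ δ0 / 4 * 4 ^ l := fun q hq => by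
    rw [hb2, not_or, not_or, not_not, not_not] at hq
    exact hq
  obtain ⟨f, hfe⟩ : ∃ f : Cell → ℝ, f = fun q => ind (bad2 q) + B.exc K l q + B.ldv (d n) l q :=
    ⟨_, rfl⟩
  have hf : ∀ q, ind (bad2 q) ≤ f q := fun q => by
    rw [hfe]
    linarith [conn_exc_nonneg B K l q, conn_ldv_nonneg B (d n) l q]
  have hf0 : ∀ q, 0 ≤ f q := fun q => (conn_ind_nonneg _).trans (hf q)
  have hJ : (0 : ℝ) < 4 ^ U.j := by positivity
  have s1 : U.avg f ≤ 5 * θ := by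
    rw [hfe, avg_add, avg_add, ← fr_eq_avg]
    have c1 := fr_or (Q := U) fun q _ hq => (hb2 q).1 hq
    have c2 := fr_or (Q := U) (P := fun q => ¬ δ0 * 4 ^ l ≤ #(B.TB (anc l q)) ∨ ¬ ∀ y : ℝ,
      cnt (B.TW q l) (fun t => |B.x (t β) - y| ≤ γ) ≤ δ0 / 4 * 4 ^ l) fun q _ hq => hq
    linarith
  have s2 : cnt U.cells (fun p => ∃ i ≤ U.j, θ1 * 4 ^ i < ∑ q ∈ (anc i p).nb D ∩ U.cells, f q) ≤
      δ * 4 ^ U.j := by
    refine (hg U hf0 D hθ1).trans ?_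
    rw [conn_sum_avg, div_le_iff₀ hθ1]
    have c1 := mul_le_mul_of_nonneg_left s1 (show (0 : ℝ) ≤ (2 * D + 1) ^ 4 by positivity)
    have c2 := mul_le_mul_of_nonneg_right (c1.trans hθb) hJ.le
    linarith
  obtain ⟨b, hbj, hb⟩ : ∃ b : Bx, b.j + k = U.j ∧ b.nb D ⊆ U.cells := by
    refine ⟨⟨U.j - k, U.u * 2 ^ k + D, U.v * 2 ^ k + D⟩, by simp only; omega,
      conn_inner (k := k) (by simp only; omega) le_rfl ?_ le_rfl ?_⟩ <;> simp only <;> linarith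
  have hlb : l ≤ b.j := by omega
  have hbc : b.cells ⊆ U.cells := (conn_cells_nb b D).trans hb
  obtain ⟨H, hH⟩ : ∃ H : Finset Cell, ∀ p, p ∈ H ↔ p ∈ b.cells ∧
      ∀ i ≤ U.j, ∑ q ∈ (anc i p).nb D ∩ U.cells, f q ≤ θ1 * 4 ^ i :=
    ⟨b.cells.filter _, fun p => mem_filter⟩
  have s3 : ∀ p ∈ H, ¬ bad2 p := fun p hp hbp => by
    obtain ⟨p1, p2⟩ := (hH p).1 hp
    have c1 := (single_le_sum (fun q _ => hf0 q) (mem_inter.2
      ⟨conn_cells_nb _ D (mem_anc 0 p), hbc p1⟩)).trans (p2 0 (Nat.zero_le _))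
    have c2 := hf p
    rw [ind, if_pos hbp] at c2
    rw [pow_zero] at c1
    linarith
  refine ⟨H, fun p hp => hbc ((hH p).1 hp).1, fun p hp => (h2 p (s3 p hp)).1, ?_,
    fun R C hC => ?_⟩
  · have c1 := conn_G_mass hB hlb (δ := δ0)
    have c2 := cnt_add_not b.cells fun p => δ0 * 4 ^ l ≤ #(B.TB (anc l p))
    have c3 : cnt b.cells (fun p => ¬ δ0 * 4 ^ l ≤ #(B.TB (anc l p))) ≤ θ * 4 ^ U.j := by
      refine (cnt_mono fun p hp h => ⟨hbc hp, h⟩).trans ?_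
      rw [conn_cnt_fr]
      exact mul_le_mul_of_nonneg_right e1 hJ.le
    have c4 : (#(B.TB b) : ℝ) = cnt B.T fun t => B.loc t ∈ b.cells := by
      unfold cnt Arr.TB
      congr
    have c5 := cnt_or (S := B.T) (P := fun t => B.loc t ∈ b.cells) (P1 := fun t => B.loc t ∈ H)
      (P2 := fun t => B.loc t ∈ U.cells ∧ ∃ i ≤ U.j,
        θ1 * 4 ^ i < ∑ q ∈ (anc i (B.loc t)).nb D ∩ U.cells, f q) fun t _ ht => by
      by_contra hn
      rw [not_or, hH] at hn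
      exact hn.1 ⟨ht, fun i hi => not_lt.1 fun c => hn.2 ⟨hbc ht, i, hi, c⟩⟩
    have c6 := (hB.cnt_loc U.cells _).trans s2
    have c7 : (4 : ℝ) ^ U.j = 4 ^ b.j * 4 ^ k := by rw [← hbj, pow_add]
    have c8 : (0 : ℝ) < 4 ^ b.j := by positivity
    have c9 := mul_le_mul_of_nonneg_left hθa c8.le
    have d1 : δ * 4 ^ U.j = δ0 / 4 * 4 ^ b.j := by rw [c7, ← hδe]; ring
    have d2 : 1 / 2 * 4 ^ b.j ≤ cnt b.cells fun p => δ0 * 4 ^ l ≤ #(B.TB (anc l p)) := by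
      rw [conn_G_card] at c2
      rw [c7] at c3
      linarith
    have d3 := mul_le_mul_of_nonneg_left d2 hδ0.le
    linarith
  · have key : ∀ {R : Set ℕ} {C : Cell → Prop}, Col B U β l η bad R C → ∀ p ∈ H, C p →
        1 / 16 * 4 ^ b.j ≤ cnt b.cells (fun q => ¬ bad2 q ∧ C q) ∧
          cnt b.cells (fun q => ¬ bad2 q ∧ ¬ C q) < 1 / 16 * 4 ^ b.j := fun hC p hp hc => by
      refine conn_G_det hf hδ0 (by linarith) hθ1b hlb (by omega) hb h2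
        (fun c P P' R G a1 a2 a3 a4 a5 a6 a7 a8 => ?_) hC ((hH p).1 hp).1 (s3 p hp)
        ((hH p).1 hp).2 hc
      rw [hfe] at a8
      obtain ⟨q, q1, q2, q3, q4⟩ := hcr ℕ B β (d n) l c c bad2 P P' R G hB hl2 a1 rfl (by simp)
        (by simp) a2 a3 a4 a5 a6 a7 (a8.trans (mul_le_mul_of_nonneg_right hθ1a (by positivity)))
      have c1 := mul_le_mul_of_nonneg_right hηa (show (0 : ℝ) ≤ 4 ^ l by positivity)
      exact ⟨q, q1, q2, c1.trans q3, c1.trans q4⟩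
    have key2 : ∀ p ∈ H, ∀ q ∈ H, C p → C q := fun p hp q hq hc => by
      by_contra hn
      exact (key hC p hp hc).2.not_ge (key (conn_G_compl hC) q hq hn).1
    exact fun p hp q hq => ⟨key2 p hp q hq, key2 q hq p hp⟩

end Pool.Agent.MP_38296a_co.H21

end FileConnG

end
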