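import Pool.Agent.MP_38296a_co.H21.Core

-- part MP_38296a_co.H21.Base
section

section FileBaseB

set_option autoImplicit false

namespace Pool.Agent.MP_38296a_co.H21

open Finset Filter Classical

/-! ### Arrangements -/

section Arr
variable {ι : Type} {A : Arr ι}

theorem baseb_ind_pos {P : Prop} (h : P) : ind P = 1 := if_pos h

theorem baseb_ind_neg {P : Prop} (h : ¬ P) : ind P = 0 := if_neg h

theorem baseb_card_cnt {α : Type} (S : Finset α) : (#S : ℝ) = cnt S fun _ => True := by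
  unfold cnt
  congr 2
  ext a
  simp

theorem baseb_mem_f {α : Type} (S : Finset α) (P : α → Prop) (a : α) :
    a ∈ @Finset.filter α P (fun a => propDecidable (P a)) S ↔ a ∈ S ∧ P a :=
  mem_filter

theorem baseb_cnt_zero {α : Type} {S : Finset α} {P : α → Prop} (h : ∀ a ∈ S, ¬ P a) :
    cnt S P = 0 := by
  unfold cnt
  rw [filter_false_of_mem h]
  simp

theorem baseb_cnt_inj {α β : Type} {S : Finset α} {P : α → Prop} {U : Finset β} (f : α → β)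
    (h1 : ∀ a ∈ S, P a → f a ∈ U) (h2 : ∀ a ∈ S, P a → ∀ b ∈ S, P b → f a = f b → a = b) :
    cnt S P ≤ #U := by
  unfold cnt
  refine Nat.cast_le.2 (card_le_card_of_injOn f ?_ ?_)
  · intro a ha
    have := mem_filter.1 (mem_coe.1 ha)
    exact mem_coe.2 (h1 a this.1 this.2)
  · intro a ha b hb e
    have k1 := mem_filter.1 (mem_coe.1 ha)
    have k2 := mem_filter.1 (mem_coe.1 hb)
    exact h2 a k1.1 k1.2 b k2.1 k2.2 e

theorem baseb_swap {α β : Type} (U : Finset β) (S : Finset α) (R : β → α → Prop) :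
    ∑ p ∈ U, cnt S (R p) = ∑ a ∈ S, cnt U fun p => R p a := by
  simp only [cnt_eq_sum]
  exact sum_comm

theorem baseb_cnt_sum {α β : Type} {S : Finset α} {P : α → Prop} (I : Finset β) (R : β → α → Prop)
    (h : ∀ a ∈ S, P a → ∃ v ∈ I, R v a) : cnt S P ≤ ∑ v ∈ I, cnt S (R v) := by
  rw [baseb_swap, cnt_eq_sum]
  refine sum_le_sum fun a ha => ?_
  by_cases hp : P a
  · rw [baseb_ind_pos hp]
    obtain ⟨v, hv, hr⟩ := h a ha hp
    unfold cnt
    exact Nat.one_le_cast.2 (card_pos.2 ⟨v, mem_filter.2 ⟨hv, hr⟩⟩)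
  · rw [baseb_ind_neg hp]
    exact cnt_nonneg _ _

theorem baseb_cast {a b : ℤ} (h : |a| ≤ b) : |(a : ℝ)| ≤ b := by
  rw [← Int.cast_abs]
  exact Int.cast_le.2 h

theorem baseb_toNat (l : ℕ) : ((((2 : ℤ) ^ l).toNat : ℕ) : ℝ) = 2 ^ l := by
  have e : (2 : ℤ) ^ l = ((2 ^ l : ℕ) : ℤ) := by push_cast; rfl
  rw [e, Int.toNat_natCast]
  push_cast
  rfl

theorem baseb_mem_cells {Q : Bx} {p : Cell} : p ∈ Q.cells ↔ Q.u * 2 ^ Q.j ≤ p.1 ∧
    p.1 < (Q.u + 1) * 2 ^ Q.j ∧ Q.v * 2 ^ Q.j ≤ p.2 ∧ p.2 < (Q.v + 1) * 2 ^ Q.j := by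
  simp only [Bx.cells, mem_product, mem_Ico, and_assoc]

theorem baseb_mem_Wn {p q : Cell} {l : ℕ} : q ∈ Wn p l ↔ p.1 - 2 * 2 ^ l ≤ q.1 ∧
    q.1 ≤ p.1 + 2 * 2 ^ l ∧ p.2 - 12 * 2 ^ l ≤ q.2 ∧ q.2 ≤ p.2 + 12 * 2 ^ l := by
  simp only [Wn, mem_product, mem_Icc, and_assoc]

theorem baseb_off {Q : Bx} {p : Cell} (hp : p ∈ Q.cells) :
    |(Q.o.1 : ℝ) - p.1| ≤ 2 ^ Q.j - 1 ∧ |(Q.o.2 : ℝ) - p.2| ≤ 2 ^ Q.j - 1 := by
  obtain ⟨b1, b2, b3, b4⟩ := baseb_mem_cells.1 hp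
  have h0 : (1 : ℤ) ≤ 2 ^ Q.j := one_le_pow₀ (by norm_num)
  have e1 : |Q.o.1 - p.1| ≤ 2 ^ Q.j - 1 := by
    show |Q.u * 2 ^ Q.j - p.1| ≤ 2 ^ Q.j - 1
    rw [add_mul, one_mul] at b2
    exact abs_le.2 ⟨by omega, by omega⟩
  have e2 : |Q.o.2 - p.2| ≤ 2 ^ Q.j - 1 := by
    show |Q.v * 2 ^ Q.j - p.2| ≤ 2 ^ Q.j - 1
    rw [add_mul, one_mul] at b4
    exact abs_le.2 ⟨by omega, by omega⟩
  have f1 := baseb_cast e1
  have f2 := baseb_cast e2
  push_cast at f1 f2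
  exact ⟨f1, f2⟩

/-- the cells of a tall window -/
noncomputable def baseb_W (p : Cell) (l : ℕ) : Finset Cell :=
  Icc (p.1 - 2 ^ l) (p.1 + 2 ^ l) ×ˢ Icc (p.2 - 5 * 2 ^ l) (p.2 + 5 * 2 ^ l)

theorem baseb_mem_W {p q : Cell} {l : ℕ} :
    q ∈ baseb_W p l ↔ |q.1 - p.1| ≤ 2 ^ l ∧ |q.2 - p.2| ≤ 5 * 2 ^ l := by
  simp only [baseb_W, mem_product, mem_Icc, abs_le]
  constructor
  · rintro ⟨⟨a, b⟩, c, d⟩
    exact ⟨⟨by linarith, by linarith⟩, by linarith, by linarith⟩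
  · rintro ⟨⟨a, b⟩, c, d⟩
    exact ⟨⟨by linarith, by linarith⟩, by linarith, by linarith⟩

theorem baseb_card_W (p : Cell) (l : ℕ) : (#(baseb_W p l) : ℝ) ≤ 33 * 4 ^ l := by
  have e1 : p.1 + 2 ^ l + 1 - (p.1 - 2 ^ l) = ((2 * 2 ^ l + 1 : ℕ) : ℤ) := by push_cast; ring
  have e2 : p.2 + 5 * 2 ^ l + 1 - (p.2 - 5 * 2 ^ l) = ((10 * 2 ^ l + 1 : ℕ) : ℤ) := by
    push_cast; ring
  rw [baseb_W, card_product, Int.card_Icc, Int.card_Icc, e1, e2, Int.toNat_natCast,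
    Int.toNat_natCast]
  push_cast
  have h1 : (1 : ℝ) ≤ 2 ^ l := one_le_pow₀ (by norm_num)
  have h2 : (4 : ℝ) ^ l = 2 ^ l * 2 ^ l := by rw [← mul_pow]; norm_num
  rw [h2]
  nlinarith

/-- a box with a frame -/
noncomputable def baseb_E (Q : Bx) (l : ℕ) : Finset Cell :=
  Ico (Q.u * 2 ^ Q.j - 2 ^ l) ((Q.u + 1) * 2 ^ Q.j + 2 ^ l) ×ˢ
    Ico (Q.v * 2 ^ Q.j - 5 * 2 ^ l) ((Q.v + 1) * 2 ^ Q.j + 5 * 2 ^ l)

theorem baseb_mem_E {Q : Bx} {l : ℕ} {p : Cell} : p ∈ baseb_E Q l ↔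
    Q.u * 2 ^ Q.j - 2 ^ l ≤ p.1 ∧ p.1 < (Q.u + 1) * 2 ^ Q.j + 2 ^ l ∧
      Q.v * 2 ^ Q.j - 5 * 2 ^ l ≤ p.2 ∧ p.2 < (Q.v + 1) * 2 ^ Q.j + 5 * 2 ^ l := by
  simp only [baseb_E, mem_product, mem_Ico, and_assoc]

theorem baseb_card_E {Q : Bx} {l : ℕ} (hl : l ≤ Q.j) :
    (#(baseb_E Q l \ Q.cells) : ℝ) ≤ 32 * 2 ^ l * 2 ^ Q.j := by
  have hs : Q.cells ⊆ baseb_E Q l := by
    intro p hp
    obtain ⟨b1, b2, b3, b4⟩ := baseb_mem_cells.1 hp
    have h0 : (0 : ℤ) < 2 ^ l := by positivity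
    exact baseb_mem_E.2 ⟨by linarith, by linarith, by linarith, by linarith⟩
  have h1 : (#(baseb_E Q l \ Q.cells) : ℝ) + #Q.cells = #(baseb_E Q l) := by
    exact_mod_cast card_sdiff_add_card_eq_card hs
  have e1 : (Q.u + 1) * 2 ^ Q.j + 2 ^ l - (Q.u * 2 ^ Q.j - 2 ^ l) =
      ((2 ^ Q.j + 2 * 2 ^ l : ℕ) : ℤ) := by push_cast; ring
  have e2 : (Q.v + 1) * 2 ^ Q.j + 5 * 2 ^ l - (Q.v * 2 ^ Q.j - 5 * 2 ^ l) =
      ((2 ^ Q.j + 10 * 2 ^ l : ℕ) : ℤ) := by push_cast; ring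
  have h2 : (#(baseb_E Q l) : ℝ) = (2 ^ Q.j + 2 * 2 ^ l) * (2 ^ Q.j + 10 * 2 ^ l) := by
    rw [baseb_E, card_product, Int.card_Ico, Int.card_Ico, e1, e2, Int.toNat_natCast,
      Int.toNat_natCast]
    push_cast
    rfl
  have h3 : (#Q.cells : ℝ) = 2 ^ Q.j * 2 ^ Q.j := by
    rw [card_cells, ← mul_pow]
    push_cast
    norm_num
  have h4 : (2 : ℝ) ^ l ≤ 2 ^ Q.j := pow_le_pow_right₀ (by norm_num) hl
  have h5 : (0 : ℝ) < 2 ^ l := by positivity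
  nlinarith

theorem baseb_mem_TB {Q : Bx} {t : Tri ι} : t ∈ A.TB Q ↔ t ∈ A.T ∧ A.loc t ∈ Q.cells :=
  mem_filter

theorem baseb_mem_TW {p : Cell} {l : ℕ} {t : Tri ι} : t ∈ A.TW p l ↔
    t ∈ A.T ∧ |(A.loc t).1 - p.1| ≤ 2 ^ l ∧ |(A.loc t).2 - p.2| ≤ 5 * 2 ^ l :=
  mem_filter

theorem baseb_Om (x f : ι → ℝ) (t : Tri ι) : Om x f t = (x (t 1) - x (t 2)) * f (t 0) +
    (x (t 2) - x (t 0)) * f (t 1) + (x (t 0) - x (t 1)) * f (t 2) := by
  rw [Om, Fin.sum_univ_three]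
  rfl

theorem baseb_sl (h : A.Ok) {t : Tri ι} (ht : t ∈ A.T) :
    -11 / 10 ≤ A.x (t 0) ∧ A.x (t 0) ≤ -9 / 10 ∧ -1 / 10 ≤ A.x (t 1) ∧ A.x (t 1) ≤ 1 / 10 ∧
      9 / 10 ≤ A.x (t 2) ∧ A.x (t 2) ≤ 11 / 10 := by
  have h0 := abs_le.1 (h.sep t ht 0)
  have h1 := abs_le.1 (h.sep t ht 1)
  have h2 := abs_le.1 (h.sep t ht 2)
  have e0 : (((0 : Fin 3) : ℕ) : ℝ) = 0 := by norm_num
  have e1 : (((1 : Fin 3) : ℕ) : ℝ) = 1 := by norm_num
  have e2 : (((2 : Fin 3) : ℕ) : ℝ) = 2 := by norm_num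
  rw [e0] at h0
  rw [e1] at h1
  rw [e2] at h2
  refine ⟨?_, ?_, ?_, ?_, ?_, ?_⟩ <;> linarith [h0.1, h0.2, h1.1, h1.2, h2.1, h2.2]

theorem baseb_x (h : A.Ok) {t : Tri ι} (ht : t ∈ A.T) (i : Fin 3) : |A.x (t i)| ≤ 11 / 10 := by
  obtain ⟨a1, a2, b1, b2, c1, c2⟩ := baseb_sl h ht
  have e : ∀ j : Fin 3, j = 0 ∨ j = 1 ∨ j = 2 := by decide
  rcases e i with rfl | rfl | rfl <;> exact abs_le.2 ⟨by linarith, by linarith⟩

theorem baseb_cls (h : A.Ok) {t u : Tri ι} (ht : t ∈ A.T) (hu : u ∈ A.T) {i j : Fin 3}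
    (e : A.x (t i) = A.x (u j)) : i = j := by
  obtain ⟨a1, a2, b1, b2, c1, c2⟩ := baseb_sl h ht
  obtain ⟨d1, d2, f1, f2, g1, g2⟩ := baseb_sl h hu
  have e3 : ∀ j : Fin 3, j = 0 ∨ j = 1 ∨ j = 2 := by decide
  rcases e3 i with rfl | rfl | rfl <;> rcases e3 j with rfl | rfl | rfl <;>
    first
    | rfl
    | (exfalso; linarith)

theorem baseb_vtx (h : A.Ok) {t : Tri ι} (ht : t ∈ A.T) {X Y : ℝ} (h1 : Thru A.x A.s t X Y) :
    ((A.loc t).1 : ℝ) ≤ X ∧ X ≤ (A.loc t).1 + 1 ∧ ((A.loc t).2 : ℝ) ≤ Y ∧ Y ≤ (A.loc t).2 + 1 := by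
  obtain ⟨X', Y', h2, h3⟩ := h.vtx t ht
  obtain ⟨a1, a2, b1, b2, c1, c2⟩ := baseb_sl h ht
  have hd : A.x (t 2) - A.x (t 0) ≠ 0 := ne_of_gt (by linarith)
  have e1 : X = X' := by
    have : (A.x (t 2) - A.x (t 0)) * (X - X') = 0 := by
      linear_combination h1 0 - h1 2 - h2 0 + h2 2
    rcases mul_eq_zero.1 this with h4 | h4
    · exact absurd h4 hd
    · linarith
  have e2 : Y = Y' := by rw [h1 0, h2 0, e1]
  rw [e1, e2]
  exact h3

theorem baseb_ht_le (p q : Cell) (a : ι) (hx : |A.x a| ≤ 11 / 10) :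
    |A.ht q a| ≤ |A.ht p a| + 11 / 10 * |(q.1 : ℝ) - p.1| + |(q.2 : ℝ) - p.2| := by
  have e : A.ht q a = A.ht p a + A.x a * ((q.1 : ℝ) - p.1) - ((q.2 : ℝ) - p.2) := by
    unfold Arr.ht
    ring
  have h1 : |A.x a * ((q.1 : ℝ) - p.1)| ≤ 11 / 10 * |(q.1 : ℝ) - p.1| := by
    rw [abs_mul]
    exact mul_le_mul_of_nonneg_right hx (abs_nonneg _)
  have h2 := abs_sub (A.ht p a + A.x a * ((q.1 : ℝ) - p.1)) ((q.2 : ℝ) - p.2)
  have h3 := abs_add_le (A.ht p a) (A.x a * ((q.1 : ℝ) - p.1))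
  rw [e]
  linarith

theorem baseb_dc (U : Finset Cell) (l : ℕ) (P : Tri ι → Prop) :
    ∑ p ∈ U, cnt (A.TW p l) P = ∑ t ∈ A.T, cnt U fun p => t ∈ A.TW p l ∧ P t := by
  rw [← baseb_swap U A.T fun p t => t ∈ A.TW p l ∧ P t]
  refine sum_congr rfl fun p _ => le_antisymm ?_ ?_
  · exact cnt_mono fun t ht hp => ⟨(baseb_mem_TW.1 ht).1, ht, hp⟩
  · exact cnt_mono fun t _ hp => hp

theorem baseb_low (U : Finset Cell) (S : Finset (Tri ι)) (hS : S ⊆ A.T) (l : ℕ) (P : Tri ι → Prop)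
    (hU : ∀ t ∈ S, (anc l (A.loc t)).cells ⊆ U) :
    4 ^ l * cnt S P ≤ ∑ p ∈ U, cnt (A.TW p l) P := by
  rw [baseb_dc, cnt_eq_sum, mul_sum]
  refine le_trans (sum_le_sum fun t ht => ?_)
    (sum_le_sum_of_subset_of_nonneg hS fun t _ _ => cnt_nonneg _ _)
  by_cases hp : P t
  · rw [baseb_ind_pos hp, mul_one]
    have h1 : (#(anc l (A.loc t)).cells : ℝ) = 4 ^ l := by
      rw [card_cells]
      push_cast
      rfl
    rw [← h1, baseb_card_cnt]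
    refine cnt_mono fun q hq _ => ⟨hU t ht hq, ?_, hp⟩
    obtain ⟨b1, b2⟩ := anc_close hq
    have h5 : (0 : ℤ) < 2 ^ l := by positivity
    rw [abs_sub_comm] at b1 b2
    exact baseb_mem_TW.2 ⟨hS ht, b1.le, by linarith⟩
  · rw [baseb_ind_neg hp, mul_zero]
    exact cnt_nonneg _ _

theorem mem_cl {T : Finset (Tri ι)} {i : Fin 3} {a : ι} : a ∈ cl T i ↔ ∃ t ∈ T, t i = a := by
  simp [cl]

theorem mem_lines {T : Finset (Tri ι)} {a : ι} : a ∈ lines T ↔ ∃ t ∈ T, ∃ i, t i = a := by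
  simp only [lines, mem_biUnion, mem_univ, true_and, mem_cl]
  constructor
  · rintro ⟨i, t, ht, e⟩
    exact ⟨t, ht, i, e⟩
  · rintro ⟨t, ht, i, e⟩
    exact ⟨i, t, ht, e⟩

theorem lines_mono {T T' : Finset (Tri ι)} (h : T ⊆ T') : lines T ⊆ lines T' := by
  intro a ha
  obtain ⟨t, ht, i, e⟩ := mem_lines.1 ha
  exact mem_lines.2 ⟨t, h ht, i, e⟩

theorem Rich.mono {k : ℕ} {T T' : Finset (Tri ι)} (h : Rich k T) (hs : T ⊆ T') : Rich k T' := by
  obtain ⟨S, h1, h2⟩ := h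
  refine ⟨S, h1, h2.trans (card_le_card fun t ht => ?_)⟩
  rw [mem_filter] at ht ⊢
  exact ⟨hs ht.1, ht.2⟩

theorem Lin.mono {T T' : Finset (Tri ι)} (h : Lin T') (hs : T ⊆ T') : Lin T := by
  intro t ht u hu
  exact h t (hs ht) u (hs hu)

theorem Dual.mono {x s : ι → ℝ} {T T' : Finset (Tri ι)} (h : Dual x s T') (hs : T ⊆ T') :
    Dual x s T := by
  exact ⟨h.lin.mono hs, fun t ht => h.ne t (hs ht), fun t ht => h.thru t (hs ht),
    fun t ht u hu => h.one t (hs ht) u (hs hu)⟩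

theorem Arr.Ok.res (h : A.Ok) {T : Finset (Tri ι)} (hT : T ⊆ A.T) : (A.res T).Ok := by
  exact ⟨h.lin.mono hT, fun t ht => h.sep t (hT ht), fun t ht => h.vtx t (hT ht),
    fun t ht u hu => h.far t (hT ht) u (hT hu)⟩

theorem Arr.Ok.dual (h : A.Ok) : Dual A.x A.s A.T := by
  refine ⟨h.lin, ?_, ?_, ?_⟩
  · intro t ht i j hij e
    exact hij (baseb_cls h ht ht e)
  · intro t ht
    obtain ⟨X, Y, h1, -⟩ := h.vtx t ht
    exact ⟨X, Y, h1⟩
  · intro t ht u hu X Y h1 h2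
    by_contra hne
    obtain ⟨a1, a2, a3, a4⟩ := baseb_vtx h ht h1
    obtain ⟨b1, b2, b3, b4⟩ := baseb_vtx h hu h2
    rcases h.far t ht u hu hne with hf | hf
    · have h3 : ((2 : ℤ) : ℝ) ≤ ((|(A.loc t).1 - (A.loc u).1| : ℤ) : ℝ) := Int.cast_le.2 hf
      push_cast at h3
      have h4 : |((A.loc t).1 : ℝ) - (A.loc u).1| ≤ 1 := abs_le.2 ⟨by linarith, by linarith⟩
      linarith
    · have h3 : ((2 : ℤ) : ℝ) ≤ ((|(A.loc t).2 - (A.loc u).2| : ℤ) : ℝ) := Int.cast_le.2 hf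
      push_cast at h3
      have h4 : |((A.loc t).2 : ℝ) - (A.loc u).2| ≤ 1 := abs_le.2 ⟨by linarith, by linarith⟩
      linarith

theorem Arr.Ok.co_bd (h : A.Ok) {t : Tri ι} (ht : t ∈ A.T) (i : Fin 3) :
    4 / 5 ≤ |co A.x t i| ∧ |co A.x t i| ≤ 11 / 5 := by
  obtain ⟨a1, a2, b1, b2, c1, c2⟩ := baseb_sl h ht
  have e : ∀ j : Fin 3, j = 0 ∨ j = 1 ∨ j = 2 := by decide
  rcases e i with rfl | rfl | rfl
  · have e1 : co A.x t 0 = A.x (t 1) - A.x (t 2) := rfl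
    rw [e1, abs_of_neg (by linarith)]
    constructor <;> linarith
  · have e1 : co A.x t 1 = A.x (t 2) - A.x (t 0) := rfl
    rw [e1, abs_of_pos (by linarith)]
    constructor <;> linarith
  · have e1 : co A.x t 2 = A.x (t 0) - A.x (t 1) := rfl
    rw [e1, abs_of_neg (by linarith)]
    constructor <;> linarith

theorem Arr.Ok.x_bd (h : A.Ok) {a : ι} (ha : a ∈ lines A.T) : |A.x a| ≤ 11 / 10 := by
  obtain ⟨t, ht, i, rfl⟩ := mem_lines.1 ha
  exact baseb_x h ht i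

theorem Arr.Ok.cls (h : A.Ok) {t u : Tri ι} (ht : t ∈ A.T) (hu : u ∈ A.T) {i j : Fin 3}
    (e : t i = u j) : i = j := by
  exact baseb_cls h ht hu (congrArg A.x e)

theorem Arr.Ok.loc_inj (h : A.Ok) {t u : Tri ι} (ht : t ∈ A.T) (hu : u ∈ A.T)
    (e : A.loc t = A.loc u) : t = u := by
  by_contra hne
  rcases h.far t ht u hu hne with hf | hf
  · rw [e] at hf
    simp at hf
  · rw [e] at hf
    simp at hf

theorem Om_one (x : ι → ℝ) (t : Tri ι) : Om x 1 t = 0 := by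
  rw [baseb_Om]
  simp

theorem Om_x (x : ι → ℝ) (t : Tri ι) : Om x x t = 0 := by
  rw [baseb_Om]
  ring

theorem Arr.Ok.Om_s (h : A.Ok) {t : Tri ι} (ht : t ∈ A.T) : Om A.x A.s t = 0 := by
  obtain ⟨X, Y, h1, -⟩ := h.vtx t ht
  have a0 := h1 0
  have a1 := h1 1
  have a2 := h1 2
  rw [baseb_Om]
  linear_combination (-(A.x (t 1) - A.x (t 2))) * a0 - (A.x (t 2) - A.x (t 0)) * a1 -
    (A.x (t 0) - A.x (t 1)) * a2

/-- a solution is an affine function of the slope on each triple -/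
theorem Arr.Ok.affine (h : A.Ok) {t : Tri ι} (ht : t ∈ A.T) {f : ι → ℝ} (hf : Om A.x f t = 0) :
    ∃ u v : ℝ, ∀ i, f (t i) = u + v * A.x (t i) := by
  obtain ⟨a1, a2, b1, b2, c1, c2⟩ := baseb_sl h ht
  have hd : A.x (t 2) - A.x (t 0) ≠ 0 := ne_of_gt (by linarith)
  rw [baseb_Om] at hf
  refine ⟨f (t 0) - (f (t 2) - f (t 0)) / (A.x (t 2) - A.x (t 0)) * A.x (t 0),
    (f (t 2) - f (t 0)) / (A.x (t 2) - A.x (t 0)), fun i => ?_⟩
  have e : ∀ j : Fin 3, j = 0 ∨ j = 1 ∨ j = 2 := by decide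
  rcases e i with rfl | rfl | rfl
  · ring
  · field_simp
    linear_combination hf
  · field_simp
    ring

/-- the deformation equation in terms of the vertex -/
theorem flex_eq {x s : ι → ℝ} {t : Tri ι} {X Y : ℝ} (h : Thru x s t X Y) (σ w : ι → ℝ) :
    Om x σ t + Om w s t = Om x (fun a => σ a + X * w a) t := by
  have a0 := h 0
  have a1 := h 1
  have a2 := h 2
  simp only [baseb_Om]
  linear_combination (-(w (t 1) - w (t 2))) * a0 - (w (t 2) - w (t 0)) * a1 -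
    (w (t 0) - w (t 1)) * a2

/-- the number of triples located in a set of cells -/
theorem Arr.Ok.cnt_loc (h : A.Ok) (U : Finset Cell) (P : Cell → Prop) :
    cnt A.T (fun t => A.loc t ∈ U ∧ P (A.loc t)) ≤ cnt U P := by
  have h1 := baseb_cnt_inj (S := A.T) (P := fun t => A.loc t ∈ U ∧ P (A.loc t))
    (U := U.filter P) A.loc (fun t _ ht => mem_filter.2 ht)
    (fun t ht _ u hu _ e => h.loc_inj ht hu e)
  exact h1

theorem Arr.Ok.card_TB (h : A.Ok) (Q : Bx) : (#(A.TB Q) : ℝ) = ∑ p ∈ Q.cells, A.occ p := by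
  have e1 : ∑ p ∈ Q.cells, A.occ p = cnt Q.cells fun p => ∃ t ∈ A.T, A.loc t = p := by
    rw [cnt_eq_sum]
    rfl
  rw [e1]
  unfold cnt
  congr 1
  refine card_bij (fun t _ => A.loc t) ?_ ?_ ?_
  · intro t ht
    rw [baseb_mem_TB] at ht
    exact (baseb_mem_f _ _ _).2 ⟨ht.2, t, ht.1, rfl⟩
  · intro t ht u hu e
    rw [baseb_mem_TB] at ht hu
    exact h.loc_inj ht.1 hu.1 e
  · intro p hp
    obtain ⟨hp1, t, ht, e⟩ := (baseb_mem_f _ _ _).1 hp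
    exact ⟨t, baseb_mem_TB.2 ⟨ht, e ▸ hp1⟩, e⟩

theorem Arr.Ok.card_TW (h : A.Ok) (p : Cell) (l : ℕ) : (#(A.TW p l) : ℝ) ≤ 33 * 4 ^ l := by
  rw [baseb_card_cnt]
  refine le_trans (baseb_cnt_inj (U := baseb_W p l) A.loc ?_ ?_) (baseb_card_W p l)
  · intro t ht _
    rw [baseb_mem_TW] at ht
    exact baseb_mem_W.2 ht.2
  · intro t ht _ u hu _ e
    rw [baseb_mem_TW] at ht hu
    exact h.loc_inj ht.1 hu.1 e

theorem TW_sub (p : Cell) (l : ℕ) : A.TW p l ⊆ A.T := by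
  intro t ht
  exact (baseb_mem_TW.1 ht).1

theorem TB_sub (Q : Bx) : A.TB Q ⊆ A.T := by
  intro t ht
  exact (baseb_mem_TB.1 ht).1

theorem TS_sub (p : Cell) (r : ℕ) : A.TS p r ⊆ A.T := by
  intro t ht
  exact (mem_filter.1 ht).1

theorem self_TW {t : Tri ι} (ht : t ∈ A.T) (l : ℕ) : t ∈ A.TW (A.loc t) l := by
  refine baseb_mem_TW.2 ⟨ht, ?_, ?_⟩
  · rw [sub_self, abs_zero]
    positivity
  · rw [sub_self, abs_zero]
    positivity

theorem TB_anc_sub (p : Cell) (l : ℕ) : A.TB (anc l p) ⊆ A.TW p l := by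
  intro t ht
  obtain ⟨h1, h2⟩ := baseb_mem_TB.1 ht
  obtain ⟨h3, h4⟩ := anc_close h2
  have h5 : (0 : ℤ) < 2 ^ l := by positivity
  exact baseb_mem_TW.2 ⟨h1, h3.le, by linarith⟩

theorem TW_mono {p q : Cell} {l l' : ℕ} (h : l < l') (h1 : |q.1 - p.1| ≤ 2 ^ l)
    (h2 : |q.2 - p.2| ≤ 5 * 2 ^ l) : A.TW q l ⊆ A.TW p l' := by
  intro t ht
  obtain ⟨a1, a2, a3⟩ := baseb_mem_TW.1 ht
  have h5 : (2 : ℤ) ^ (l + 1) ≤ 2 ^ l' := pow_le_pow_right₀ (by norm_num) h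
  rw [pow_succ] at h5
  rw [abs_le] at h1 h2 a2 a3
  refine baseb_mem_TW.2 ⟨a1, abs_le.2 ⟨?_, ?_⟩, abs_le.2 ⟨?_, ?_⟩⟩ <;>
    linarith [h1.1, h1.2, h2.1, h2.2, a2.1, a2.2, a3.1, a3.2]

theorem TW_le (p : Cell) {l l' : ℕ} (h : l ≤ l') : A.TW p l ⊆ A.TW p l' := by
  intro t ht
  obtain ⟨a1, a2, a3⟩ := baseb_mem_TW.1 ht
  have h5 : (2 : ℤ) ^ l ≤ 2 ^ l' := pow_le_pow_right₀ (by norm_num) h
  exact baseb_mem_TW.2 ⟨a1, by linarith, by linarith⟩

theorem TW_sub_TS (p : Cell) (l : ℕ) : A.TW p l ⊆ A.TS p (5 * 2 ^ l) := by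
  intro t ht
  obtain ⟨a1, a2, a3⟩ := baseb_mem_TW.1 ht
  have h5 : (0 : ℤ) < 2 ^ l := by positivity
  refine mem_filter.2 ⟨a1, ?_, ?_⟩
  · push_cast
    linarith
  · push_cast
    linarith

theorem ht_shift (p q : Cell) (a : ι) :
    A.ht q a = A.ht p a + A.x a * ((q.1 : ℝ) - p.1) - ((q.2 : ℝ) - p.2) := by
  unfold Arr.ht
  ring

theorem Arr.Ok.ht_loc (h : A.Ok) {t : Tri ι} (ht : t ∈ A.T) (i : Fin 3) :
    |A.ht (A.loc t) (t i)| ≤ 21 / 10 := by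
  obtain ⟨X, Y, h1, a1, a2, a3, a4⟩ := h.vtx t ht
  have hx := abs_le.1 (baseb_x h ht i)
  have e : A.ht (A.loc t) (t i) = (Y - (A.loc t).2) - A.x (t i) * (X - (A.loc t).1) := by
    unfold Arr.ht
    linear_combination (-1 : ℝ) * h1 i
  rw [e, abs_le]
  constructor <;> nlinarith [hx.1, hx.2]

theorem Arr.Ok.ht_TW (h : A.Ok) {p : Cell} {l : ℕ} {t : Tri ι} (ht : t ∈ A.TW p l) (i : Fin 3) :
    |A.ht p (t i)| ≤ 9 * 2 ^ l := by
  obtain ⟨a1, a2, a3⟩ := baseb_mem_TW.1 ht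
  have b2 := baseb_cast a2
  have b3 := baseb_cast a3
  push_cast at b2 b3
  have h1 := baseb_ht_le (A := A) (A.loc t) p (t i) (baseb_x h a1 i)
  have h2 := h.ht_loc a1 i
  have h3 : (1 : ℝ) ≤ 2 ^ l := one_le_pow₀ (by norm_num)
  rw [abs_sub_comm] at b2 b3
  linarith

/-- a triple on a line close to `p` and in a column close to `p` is in the window -/
theorem Arr.Ok.mem_TW (h : A.Ok) {p : Cell} {l : ℕ} (hl : 2 ≤ l) {t : Tri ι} (ht : t ∈ A.T)
    {i : Fin 3} (h1 : |A.ht p (t i)| ≤ 3 * 2 ^ l) (h2 : |(A.loc t).1 - p.1| ≤ 2 ^ l) :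
    t ∈ A.TW p l := by
  refine baseb_mem_TW.2 ⟨ht, h2, ?_⟩
  have b2 := baseb_cast h2
  push_cast at b2
  have h3 := h.ht_loc ht i
  have h4 : (4 : ℝ) ≤ 2 ^ l := by
    calc (4 : ℝ) = 2 ^ 2 := by norm_num
      _ ≤ 2 ^ l := pow_le_pow_right₀ (by norm_num) hl
  have h5 := ht_shift (A := A) p (A.loc t) (t i)
  have h6 : |A.x (t i) * (((A.loc t).1 : ℝ) - p.1)| ≤ 11 / 10 * 2 ^ l := by
    rw [abs_mul]
    exact mul_le_mul (baseb_x h ht i) b2 (abs_nonneg _) (by norm_num)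
  have h7 : |((A.loc t).2 : ℝ) - p.2| ≤ 5 * 2 ^ l := by
    rw [abs_le] at h1 h3 h6 ⊢
    constructor <;> linarith [h1.1, h1.2, h3.1, h3.2, h6.1, h6.2]
  have h8 : ((|(A.loc t).2 - p.2| : ℤ) : ℝ) ≤ ((5 * 2 ^ l : ℤ) : ℝ) := by
    push_cast
    exact h7
  exact Int.cast_le.1 h8

/-- a line carries at most two triples in each column -/
theorem Arr.Ok.col_le (h : A.Ok) (a : ι) (u : ℤ) :
    cnt A.T (fun t => (∃ i, t i = a) ∧ (A.loc t).1 = u) ≤ 2 := by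
  set c : ℝ := A.s a + A.x a * u + min (A.x a) 0 - 1 with hc
  have key : ∀ t ∈ A.T, ((∃ i, t i = a) ∧ (A.loc t).1 = u) →
      ⌈c⌉ ≤ (A.loc t).2 ∧ (A.loc t).2 < ⌈c⌉ + 3 := by
    rintro t ht ⟨⟨i, rfl⟩, rfl⟩
    obtain ⟨X, Y, h1, a1, a2, a3, a4⟩ := h.vtx t ht
    have hx := abs_le.1 (baseb_x h ht i)
    have h2 := h1 i
    have h3 : min (A.x (t i)) 0 ≤ A.x (t i) * (X - (A.loc t).1) ∧
        A.x (t i) * (X - (A.loc t).1) ≤ min (A.x (t i)) 0 + 11 / 10 := by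
      rcases le_total (A.x (t i)) 0 with h4 | h4
      · rw [min_eq_left h4]
        constructor <;> nlinarith [hx.1, hx.2]
      · rw [min_eq_right h4]
        constructor <;> nlinarith [hx.1, hx.2]
    constructor
    · rw [Int.ceil_le]
      nlinarith [h3.1]
    · have h5 := Int.le_ceil c
      have h6 : (((A.loc t).2 : ℤ) : ℝ) < ((⌈c⌉ + 3 : ℤ) : ℝ) := by
        push_cast
        nlinarith [h3.2]
      exact Int.cast_lt.1 h6
  have h1 := baseb_cnt_inj (S := A.T) (P := fun t => (∃ i, t i = a) ∧ (A.loc t).1 = u)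
    (U := ({0, 1} : Finset ℤ)) (fun t => ((A.loc t).2 - ⌈c⌉) / 2) (fun t ht hp => by
      have := key t ht hp
      simp only [mem_insert, mem_singleton]
      omega) (fun t ht hp v hv hq e => by
      by_contra hne
      have k1 := key t ht hp
      have k2 := key v hv hq
      have e1 := hp.2
      have e2 := hq.2
      rcases h.far t ht v hv hne with hf | hf
      · rw [e1, e2] at hf
        simp at hf
      · rcases le_abs'.1 hf with hf | hf <;> omega)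
  refine h1.trans ?_
  norm_num

theorem Arr.Ok.deg_le (h : A.Ok) (a : ι) (u : ℤ) (m : ℕ) :
    cnt A.T (fun t => (∃ i, t i = a) ∧ u ≤ (A.loc t).1 ∧ (A.loc t).1 < u + m) ≤ 2 * m := by
  have h1 := baseb_cnt_sum (S := A.T)
    (P := fun t => (∃ i, t i = a) ∧ u ≤ (A.loc t).1 ∧ (A.loc t).1 < u + m) (Ico u (u + m))
    (fun v t => (∃ i, t i = a) ∧ (A.loc t).1 = v)
    (fun t _ hp => ⟨(A.loc t).1, mem_Ico.2 hp.2, hp.1, rfl⟩)
  refine h1.trans ?_
  refine (sum_le_sum fun v _ => h.col_le a v).trans ?_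
  rw [sum_const, Int.card_Ico, add_sub_cancel_left, Int.toNat_natCast, nsmul_eq_mul]
  exact le_of_eq (mul_comm _ _)

theorem Arr.Ok.dg_le (h : A.Ok) (l : ℕ) (a : ι) (u : ℤ) : 0 ≤ A.dg l a u ∧ A.dg l a u ≤ 2 := by
  have h0 : (0 : ℝ) < 2 ^ l := by positivity
  have h2 : (0 : ℤ) < 2 ^ l := by positivity
  unfold Arr.dg
  refine ⟨div_nonneg (cnt_nonneg _ _) h0.le, ?_⟩
  rw [div_le_iff₀ h0]
  have h1 := h.deg_le a (u / 2 ^ l * 2 ^ l) (2 ^ l)
  push_cast at h1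
  refine le_trans (cnt_mono fun t ht hp => ⟨ht, hp.1, ?_, ?_⟩) h1
  · rw [← hp.2]
    exact Int.ediv_mul_le _ h2.ne'
  · rw [← hp.2]
    have := Int.lt_ediv_add_one_mul_self (A.loc t).1 h2
    linarith

/-- triples meeting a small set of lines -/
theorem Arr.Ok.few_TB (h : A.Ok) (Q : Bx) (S : Finset ι) :
    cnt (A.TB Q) (fun t => ∃ i, t i ∈ S) ≤ 2 * 2 ^ Q.j * #S := by
  have h1 := baseb_cnt_sum (S := A.TB Q) (P := fun t => ∃ i, t i ∈ S) S
    (fun a t => ∃ i, t i = a) (fun t _ hp => by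
      obtain ⟨i, hi⟩ := hp
      exact ⟨t i, hi, i, rfl⟩)
  refine h1.trans ?_
  have h2 : ∀ a ∈ S, cnt (A.TB Q) (fun t => ∃ i, t i = a) ≤ 2 * 2 ^ Q.j := by
    intro a _
    have h3 := h.deg_le a (Q.u * 2 ^ Q.j) (2 ^ Q.j)
    push_cast at h3
    refine le_trans (cnt_mono fun t ht hp => ?_) h3
    obtain ⟨a1, a2⟩ := baseb_mem_TB.1 ht
    obtain ⟨b1, b2, -, -⟩ := baseb_mem_cells.1 a2
    exact ⟨a1, hp, b1, by linarith⟩
  refine (sum_le_sum h2).trans ?_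
  rw [sum_const, nsmul_eq_mul]
  exact le_of_eq (mul_comm _ _)

theorem Arr.Ok.few_TW (h : A.Ok) (p : Cell) (l : ℕ) (S : Finset ι) :
    cnt (A.TW p l) (fun t => ∃ i, t i ∈ S) ≤ 6 * 2 ^ l * #S := by
  have h1 := baseb_cnt_sum (S := A.TW p l) (P := fun t => ∃ i, t i ∈ S) S
    (fun a t => ∃ i, t i = a) (fun t _ hp => by
      obtain ⟨i, hi⟩ := hp
      exact ⟨t i, hi, i, rfl⟩)
  refine h1.trans ?_
  have h2 : ∀ a ∈ S, cnt (A.TW p l) (fun t => ∃ i, t i = a) ≤ 6 * 2 ^ l := by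
    intro a _
    have h3 := h.deg_le a (p.1 - 2 ^ l) (3 * 2 ^ l)
    push_cast at h3
    have h4 : (1 : ℤ) ≤ 2 ^ l := one_le_pow₀ (by norm_num)
    refine le_trans (cnt_mono fun t ht hp => ?_) (h3.trans (le_of_eq (by ring)))
    obtain ⟨a1, a2, -⟩ := baseb_mem_TW.1 ht
    rw [abs_le] at a2
    exact ⟨a1, hp, by linarith [a2.1], by linarith [a2.2]⟩
  refine (sum_le_sum h2).trans ?_
  rw [sum_const, nsmul_eq_mul]
  exact le_of_eq (mul_comm _ _)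

theorem baseb_split (h : A.Ok) (U : Finset Cell) (l : ℕ) (P : Tri ι → Prop) (B : Cell → Prop)
    {c : ℝ} (hc : 0 ≤ c) (hb : ∀ q ∈ U, ¬ B q → cnt (A.TW q l) P ≤ c) :
    ∑ q ∈ U, cnt (A.TW q l) P ≤ 33 * 4 ^ l * cnt U B + c * #U := by
  have e : c * (#U : ℝ) = ∑ _q ∈ U, c := by rw [sum_const, nsmul_eq_mul, mul_comm]
  rw [cnt_eq_sum U B, mul_sum, e, ← sum_add_distrib]
  refine sum_le_sum fun q hq => ?_
  by_cases hB : B q
  · rw [baseb_ind_pos hB, mul_one]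
    have h1 := cnt_le_card (A.TW q l) P
    have h2 := h.card_TW q l
    linarith
  · rw [baseb_ind_neg hB, mul_zero, zero_add]
    exact hb q hq hB

theorem dc_up (U : Finset Cell) (l : ℕ) (P : Tri ι → Prop) :
    ∑ p ∈ U, cnt (A.TW p l) P ≤ 33 * 4 ^ l * cnt A.T fun t => P t ∧ ∃ p ∈ U, t ∈ A.TW p l := by
  rw [baseb_dc, cnt_eq_sum, mul_sum]
  refine sum_le_sum fun t ht => ?_
  by_cases hp : P t ∧ ∃ p ∈ U, t ∈ A.TW p l
  · rw [baseb_ind_pos hp, mul_one, ← mul_one (33 * 4 ^ l : ℝ), mul_one]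
    refine le_trans (baseb_cnt_inj (U := baseb_W (A.loc t) l) id ?_ ?_) (baseb_card_W _ l)
    · intro q _ hq
      obtain ⟨-, a2, a3⟩ := baseb_mem_TW.1 hq.1
      rw [abs_sub_comm] at a2 a3
      exact baseb_mem_W.2 ⟨a2, a3⟩
    · intro q _ _ r _ _ e
      exact e
  · rw [baseb_ind_neg hp, mul_zero]
    exact (baseb_cnt_zero fun q hq hr => hp ⟨hr.2, q, hq, hr.1⟩).le

theorem dc_low {Q : Bx} {l : ℕ} (hl : l ≤ Q.j) (P : Tri ι → Prop) :
    4 ^ l * cnt (A.TB Q) P ≤ ∑ p ∈ Q.cells, cnt (A.TW p l) P := by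
  refine baseb_low Q.cells (A.TB Q) (TB_sub Q) l P fun t ht => ?_
  exact anc_sub hl (baseb_mem_TB.1 ht).2

theorem Arr.Ok.dc_bd (h : A.Ok) {Q : Bx} {l : ℕ} (hl : l ≤ Q.j) (P : Tri ι → Prop) :
    ∑ p ∈ Q.cells, cnt (A.TW p l) P ≤ 33 * 4 ^ l * (cnt (A.TB Q) P + 32 * 2 ^ l * 2 ^ Q.j) := by
  refine (dc_up Q.cells l P).trans (mul_le_mul_of_nonneg_left ?_ (by positivity))
  have h1 := cnt_or (S := A.T) (P := fun t => P t ∧ ∃ p ∈ Q.cells, t ∈ A.TW p l)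
    (P1 := fun t => t ∈ A.TB Q ∧ P t)
    (P2 := fun t => A.loc t ∈ baseb_E Q l \ Q.cells ∧ True) (fun t ht hp => by
      by_cases hq : A.loc t ∈ Q.cells
      · exact Or.inl ⟨baseb_mem_TB.2 ⟨ht, hq⟩, hp.1⟩
      · refine Or.inr ⟨mem_sdiff.2 ⟨?_, hq⟩, trivial⟩
        obtain ⟨-, p, hp1, hp2⟩ := hp
        obtain ⟨-, a2, a3⟩ := baseb_mem_TW.1 hp2
        obtain ⟨b1, b2, b3, b4⟩ := baseb_mem_cells.1 hp1
        rw [abs_le] at a2 a3
        refine baseb_mem_E.2 ⟨?_, ?_, ?_, ?_⟩ <;> linarith [a2.1, a2.2, a3.1, a3.2])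
  have h2 : cnt A.T (fun t => t ∈ A.TB Q ∧ P t) ≤ cnt (A.TB Q) P :=
    cnt_mono fun t _ hp => hp
  have h3 := h.cnt_loc (baseb_E Q l \ Q.cells) (fun _ => True)
  have h4 := cnt_le_card (baseb_E Q l \ Q.cells) (fun _ => True)
  have h5 := baseb_card_E hl
  linarith

/-- a dense set in a large window is dense in a good small window -/
theorem Arr.Ok.amplify (h : A.Ok) {p : Cell} {l l1 : ℕ} (hl : l1 ≤ l) {η : ℝ} (hη : 0 < η)
    {P : Tri ι → Prop} {G : Cell → Prop} (hP : η * 4 ^ l ≤ cnt (A.TW p l) P)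
    (hG : cnt (Wn p l) (fun q => ¬ G q) ≤ η / 70 * 4 ^ l) :
    ∃ q ∈ Wn p l, G q ∧ η / 250 * 4 ^ l1 ≤ cnt (A.TW q l1) P := by
  by_contra hne
  have hb : ∀ q ∈ Wn p l, G q → cnt (A.TW q l1) P ≤ η / 250 * 4 ^ l1 := by
    intro q hq hg
    by_contra h1
    exact hne ⟨q, hq, hg, (not_le.1 h1).le⟩
  have h1 : 4 ^ l1 * cnt (A.TW p l) P ≤ ∑ q ∈ Wn p l, cnt (A.TW q l1) P := by
    refine baseb_low (Wn p l) (A.TW p l) (TW_sub p l) l1 P fun t ht q hq => ?_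
    obtain ⟨-, a2, a3⟩ := baseb_mem_TW.1 ht
    obtain ⟨b1, b2⟩ := anc_close hq
    have h5 : (2 : ℤ) ^ l1 ≤ 2 ^ l := pow_le_pow_right₀ (by norm_num) hl
    have h6 : (0 : ℤ) < 2 ^ l := by positivity
    rw [abs_le] at a2 a3
    rw [abs_lt] at b1 b2
    refine baseb_mem_Wn.2 ⟨?_, ?_, ?_, ?_⟩ <;>
      linarith [a2.1, a2.2, a3.1, a3.2, b1.1, b1.2, b2.1, b2.2]
  have h2 := baseb_split h (Wn p l) l1 P (fun q => ¬ G q) (c := η / 250 * 4 ^ l1) (by positivity)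
    (fun q hq hg => hb q hq (not_not.1 hg))
  have h3 := card_Wn p l
  have h4 : (0 : ℝ) < 4 ^ l1 := by positivity
  have h5 : (0 : ℝ) < 4 ^ l := by positivity
  have h6 : 4 ^ l1 * (η * 4 ^ l) ≤ 4 ^ l1 * cnt (A.TW p l) P := mul_le_mul_of_nonneg_left hP h4.le
  have h7 : 33 * 4 ^ l1 * cnt (Wn p l) (fun q => ¬ G q) ≤ 33 * 4 ^ l1 * (η / 70 * 4 ^ l) :=
    mul_le_mul_of_nonneg_left hG (by positivity)
  have h8 : η / 250 * 4 ^ l1 * (#(Wn p l) : ℝ) ≤ η / 250 * 4 ^ l1 * (125 * 4 ^ l) :=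
    mul_le_mul_of_nonneg_left h3 (by positivity)
  have h9 : (0 : ℝ) < 4 ^ l1 * (η * 4 ^ l) := by positivity
  nlinarith

/-- the same for a box -/
theorem Arr.Ok.amplify_top (h : A.Ok) {Q : Bx} {l : ℕ} (hl : l ≤ Q.j) {η : ℝ} (hη : 0 < η)
    {P : Tri ι → Prop} (hP : η * 4 ^ Q.j ≤ cnt (A.TB Q) P) :
    η / 70 ≤ Q.fr fun q => η / 2 * 4 ^ l ≤ cnt (A.TW q l) P := by
  have h1 := dc_low (A := A) hl P
  have h2 := baseb_split h Q.cells l P (fun q => η / 2 * 4 ^ l ≤ cnt (A.TW q l) P)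
    (c := η / 2 * 4 ^ l) (by positivity) (fun q _ hg => (not_le.1 hg).le)
  have h3 : (#Q.cells : ℝ) = 4 ^ Q.j := by
    rw [card_cells]
    push_cast
    rfl
  have h4 : (0 : ℝ) < 4 ^ l := by positivity
  have h5 : (0 : ℝ) < 4 ^ Q.j := by positivity
  have h6 : 4 ^ l * (η * 4 ^ Q.j) ≤ 4 ^ l * cnt (A.TB Q) P := mul_le_mul_of_nonneg_left hP h4.le
  unfold Bx.fr
  rw [le_div_iff₀ h5]
  rw [h3] at h2
  have h7 : 4 ^ l * (η / 66 * 4 ^ Q.j) ≤
      4 ^ l * cnt Q.cells fun q => η / 2 * 4 ^ l ≤ cnt (A.TW q l) P := by nlinarith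
  have h8 := le_of_mul_le_mul_left h7 h4
  have h9 : 0 < η * 4 ^ Q.j := by positivity
  nlinarith

theorem Arr.Ok.lines_TB (h : A.Ok) (Q : Bx) :
    (#(lines (A.TB Q)) : ℝ) ≤ A.nl (3 * 2 ^ Q.j) Q.o := by
  rw [baseb_card_cnt]
  unfold Arr.nl
  refine cnt_mono fun a ha _ => ⟨lines_mono (TB_sub Q) ha, ?_⟩
  obtain ⟨t, ht, i, rfl⟩ := mem_lines.1 ha
  obtain ⟨a1, a2⟩ := baseb_mem_TB.1 ht
  obtain ⟨b1, b2⟩ := baseb_off a2
  have h1 := baseb_ht_le (A := A) (A.loc t) Q.o (t i) (baseb_x h a1 i)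
  have h2 := h.ht_loc a1 i
  have h3 : (1 : ℝ) ≤ 2 ^ Q.j := one_le_pow₀ (by norm_num)
  linarith

theorem Arr.Ok.ht_top (h : A.Ok) {Q : Bx} {p : Cell} (hp : p ∈ Q.cells) {l : ℕ} (hl : l + 4 ≤ Q.j)
    {a : ι} (ha : a ∈ lines A.T) (h1 : |A.ht p a| ≤ 9 * 2 ^ l) : |A.ht Q.o a| ≤ 3 * 2 ^ Q.j := by
  obtain ⟨b1, b2⟩ := baseb_off hp
  have h2 := baseb_ht_le (A := A) p Q.o a (h.x_bd ha)
  have h3 : (2 : ℝ) ^ (l + 4) ≤ 2 ^ Q.j := pow_le_pow_right₀ (by norm_num) hl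
  rw [pow_add] at h3
  have h4 : (0 : ℝ) < 2 ^ l := by positivity
  norm_num at h3
  linarith

theorem Arr.Ok.nl_Wn (h : A.Ok) (p : Cell) (l : ℕ) :
    A.nl (9 * 2 ^ l) p * 2 ^ l ≤ ∑ q ∈ Wn p l, A.nl 1 q := by
  unfold Arr.nl
  rw [baseb_swap, cnt_eq_sum, sum_mul]
  refine sum_le_sum fun a ha => ?_
  by_cases hp : |A.ht p a| ≤ 9 * 2 ^ l
  · rw [baseb_ind_pos hp, one_mul]
    have hx := h.x_bd ha
    have h1 := baseb_cnt_inj (S := Ico p.1 (p.1 + 2 ^ l)) (P := fun _ => True)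
      (U := (Wn p l).filter fun q => |A.ht q a| ≤ 1)
      (fun u => ((u, round (A.s a + A.x a * u)) : Cell)) (fun u hu _ => by
        obtain ⟨u1, u2⟩ := mem_Ico.1 hu
        have r1 := abs_sub_round (A.s a + A.x a * u)
        have h6 : (0 : ℤ) < 2 ^ l := by positivity
        have h7 : (1 : ℝ) ≤ 2 ^ l := one_le_pow₀ (by norm_num)
        have h8 : |u - p.1| ≤ 2 ^ l := abs_le.2 ⟨by linarith, by linarith⟩
        have h9 := baseb_cast h8
        push_cast at h9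
        have h10 : |A.x a * ((u : ℝ) - p.1)| ≤ 11 / 10 * 2 ^ l := by
          rw [abs_mul]
          exact mul_le_mul hx h9 (abs_nonneg _) (by norm_num)
        have h11 : ((|round (A.s a + A.x a * u) - p.2| : ℤ) : ℝ) ≤ ((12 * 2 ^ l : ℤ) : ℝ) := by
          push_cast
          unfold Arr.ht at hp
          rw [abs_le] at hp r1 h10 ⊢
          constructor <;> nlinarith [hp.1, hp.2, r1.1, r1.2, h10.1, h10.2]
        have h12 := abs_le.1 (Int.cast_le.1 h11)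
        refine mem_filter.2 ⟨baseb_mem_Wn.2 ⟨?_, ?_, ?_, ?_⟩, ?_⟩
        · show p.1 - 2 * 2 ^ l ≤ u
          linarith
        · show u ≤ p.1 + 2 * 2 ^ l
          linarith
        · show p.2 - 12 * 2 ^ l ≤ round (A.s a + A.x a * u)
          linarith [h12.1]
        · show round (A.s a + A.x a * u) ≤ p.2 + 12 * 2 ^ l
          linarith [h12.2]
        · show |A.s a + A.x a * u - (round (A.s a + A.x a * u) : ℤ)| ≤ 1
          linarith) (fun u _ _ v _ _ e => congrArg Prod.fst e)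
    rw [← baseb_card_cnt, Int.card_Ico, add_sub_cancel_left, baseb_toNat] at h1
    exact h1
  · rw [baseb_ind_neg hp, zero_mul]
    exact cnt_nonneg _ _

end Arr

end Pool.Agent.MP_38296a_co.H21

end FileBaseB

section FileBaseC

set_option autoImplicit false

namespace Pool.Agent.MP_38296a_co.H21

open Finset Filter Classical

theorem Hof.mono {ι : Type} {x : ι → ℝ} {U : Submodule ℝ (ι → ℝ)} {τ τ' : Finset (Tri ι)} {c c' : ℝ}
    (h : Hof x U τ c) (hτ : τ' ⊆ τ) (hc : c ≤ c') : Hof x U τ' c' := by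
  intro S hS σ hσ f hf b hb h1 h2
  obtain ⟨g, a1, a2, a3, a4⟩ := h S (hS.trans (lines_mono hτ)) σ (hσ.trans hτ) f hf b hb h1 h2
  exact ⟨g, a1, a2, a3, fun a ha =>
    (a4 a (lines_mono hτ ha)).trans (mul_le_mul_of_nonneg_right hc hb)⟩

theorem Gap.mono {ι : Type} {x : ι → ℝ} {τ τ' : Finset (Tri ι)} {c c' : ℝ}
    (h : Gap x τ c) (hτ : τ' ⊆ τ) (hc : c ≤ c') : Gap x τ' c' := fun a ha b hb e =>
  (h a (lines_mono hτ ha) b (lines_mono hτ hb) e).trans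
    (mul_le_mul_of_nonneg_right hc (abs_nonneg _))

theorem AlgT.mono {ι : Type} {x : ι → ℝ} {τ τ' : Finset (Tri ι)} {L : ℕ} {S : Finset ℝ}
    (h : AlgT x τ L S) (hτ : τ' ⊆ τ) : AlgT x τ' L S := fun u v hu hv =>
  h u v (fun i a b e => ⟨lines_mono hτ (hu i a b e).1, lines_mono hτ (hu i a b e).2⟩)
    fun i a b e => ⟨lines_mono hτ (hv i a b e).1, lines_mono hτ (hv i a b e).2⟩

theorem basec_pow_mono {R : Type} [CommRing R] [Algebra ℝ R] {U : Submodule ℝ R} (h1 : (1 : R) ∈ U)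
    {N M : ℕ} (h : N ≤ M) : U ^ N ≤ U ^ M := by
  induction h with
  | refl => exact le_rfl
  | step _ ih =>
    refine ih.trans fun f hf => ?_
    rw [pow_succ]
    simpa using Submodule.mul_mem_mul hf h1

section LV
variable {ι : Type} {D : ℕ} {lab : ι → Fin D → ℝ}

theorem one_mem_LV : (1 : ι → ℝ) ∈ LV lab := Submodule.subset_span (Set.mem_insert _ _)

theorem LV_pow_mono {N M : ℕ} (h : N ≤ M) : LV lab ^ N ≤ LV lab ^ M :=
  basec_pow_mono one_mem_LV h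

theorem LV3_pow_mono {N M : ℕ} (h : N ≤ M) : LV3 lab ^ N ≤ LV3 lab ^ M :=
  basec_pow_mono (Submodule.subset_span (Set.mem_insert _ _)) h

theorem mul_mem_LV {N : ℕ} {f g : ι → ℝ} (hf : f ∈ LV lab) (hg : g ∈ LV lab ^ N) :
    f * g ∈ LV lab ^ (N + 1) := by
  rw [pow_succ, mul_comm f g]
  exact Submodule.mul_mem_mul hg hf

theorem basec_comp1 {f : ι → ℝ} (hf : f ∈ LV lab) (i : Fin 3) :
    (fun t : Tri ι => f (t i)) ∈ LV3 lab := by
  induction hf using Submodule.span_induction with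
  | mem g hg =>
    rcases hg with rfl | ⟨k, rfl⟩
    · exact Submodule.subset_span (Set.mem_insert _ _)
    · exact Submodule.subset_span (Set.mem_insert_of_mem _ ⟨(i, k), rfl⟩)
  | zero => exact Submodule.zero_mem _
  | add g g' _ _ a b => exact Submodule.add_mem _ a b
  | smul c g _ a => exact Submodule.smul_mem _ c a

theorem comp_mem_LV3 {N : ℕ} {f : ι → ℝ} (hf : f ∈ LV lab ^ N) (i : Fin 3) :
    (fun t : Tri ι => f (t i)) ∈ LV3 lab ^ N := by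
  induction N generalizing f with
  | zero =>
    rw [pow_zero, Submodule.mem_one] at hf ⊢
    obtain ⟨c, rfl⟩ := hf
    exact ⟨c, rfl⟩
  | succ N ih =>
    rw [pow_succ] at hf ⊢
    refine Submodule.mul_induction_on hf (fun g hg g' hg' => ?_) fun g g' a b => ?_
    · exact Submodule.mul_mem_mul (ih hg) (basec_comp1 hg' i)
    · exact Submodule.add_mem _ a b

theorem Om_mem_LV3 {N : ℕ} {x f : ι → ℝ} (hx : x ∈ LV lab) (hf : f ∈ LV lab ^ N) :
    Om x f ∈ LV3 lab ^ (N + 1) := by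
  have e : Om x f = ∑ i : Fin 3, (fun t : Tri ι => f (t i)) *
      ((fun t : Tri ι => x (t (i + 1))) - fun t : Tri ι => x (t (i + 2))) := by
    funext t
    simp only [Om, co, Finset.sum_apply, Pi.mul_apply, Pi.sub_apply, mul_comm]
  rw [e, pow_succ]
  exact Submodule.sum_mem _ fun i _ => Submodule.mul_mem_mul (comp_mem_LV3 hf i)
    (Submodule.sub_mem _ (basec_comp1 hx _) (basec_comp1 hx _))

end LV

/-- bounded rank gives a spanning family of fixed size -/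
theorem span_of_dep {k V V' : Type} [Field k] [AddCommGroup V] [Module k V] [AddCommGroup V']
    [Module k V'] (Z : Submodule k V) (ρ : V →ₗ[k] V') {D : ℕ}
    (h : ∀ g : Fin D → V, (∀ e, g e ∈ Z) → ∃ a : Fin D → k, a ≠ 0 ∧ ∑ e, a e • ρ (g e) = 0) :
    ∃ g : Fin D → V, (∀ e, g e ∈ Z) ∧ ∀ v ∈ Z, ∃ a : Fin D → k, ρ v = ∑ e, a e • ρ (g e) := by
  have hl : ∀ w : Z.map ρ, ∃ v ∈ Z, ρ v = w := fun w => w.2
  choose l l1 l2 using hl
  have hr : Module.rank k (Z.map ρ) < D := by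
    by_contra hn
    obtain ⟨f, hf⟩ := exists_linearIndependent_of_le_rank (not_lt.1 hn)
    obtain ⟨a, a1, a2⟩ := h (fun e => l (f e)) fun e => l1 _
    refine a1 (funext fun e => Fintype.linearIndependent_iff.1 hf a (Subtype.ext ?_) e)
    simpa [l2] using a2
  have : Module.Finite k (Z.map ρ) :=
    Module.rank_lt_aleph0_iff.1 (hr.trans (Cardinal.natCast_lt_aleph0))
  have hm : Module.finrank k (Z.map ρ) ≤ D := Module.finrank_le_of_rank_le hr.le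
  let b := Module.finBasis k (Z.map ρ)
  let g : Fin D → V := fun e => if c : e.1 < Module.finrank k (Z.map ρ) then l (b ⟨e.1, c⟩) else 0
  refine ⟨g, fun e => ?_, fun v hv => ?_⟩
  · simp only [g]
    split_ifs
    exacts [l1 _, Z.zero_mem]
  · have : ρ v ∈ Submodule.span k (Set.range fun e => ρ (g e)) := by
      have e := congrArg Subtype.val (b.sum_repr ⟨ρ v, v, hv, rfl⟩)
      simp only [AddSubmonoidClass.coe_finset_sum, SetLike.val_smul] at e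
      rw [← e]
      refine Submodule.sum_mem _ fun i _ => Submodule.smul_mem _ _ (Submodule.subset_span
        ⟨⟨i.1, i.2.trans_le hm⟩, ?_⟩)
      simp only [g, i.2, dif_pos, l2]
    obtain ⟨a, ha⟩ := (Submodule.mem_span_range_iff_exists_fun k).1 this
    exact ⟨a, ha.symm⟩

end Pool.Agent.MP_38296a_co.H21

end FileBaseC

end

-- part MP_38296a_co.H21.Dy
section

section FileDyA

set_option autoImplicit false

namespace Pool.Agent.MP_38296a_co.H21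

open Finset Filter Classical

/-! ### Auxiliary facts -/

theorem dya_ind_nonneg (P : Prop) : 0 ≤ ind P := by
  unfold ind; split_ifs <;> norm_num

theorem dya_ind_le (P : Prop) : ind P ≤ 1 := by
  unfold ind; split_ifs <;> norm_num

theorem dya_van_mono {Q : ℕ → Bx} {h h' : ℕ → ℕ → Cell → ℝ} (hv : Van Q h)
    (e : ∀ᶠ n in UU, ∀ c p, h' n c p ≤ h n c p) : Van Q h' := fun θ hθ =>
  let ⟨c, hc⟩ := hv θ hθ
  ⟨c, by filter_upwards [hc, e] with n a b using (avg_mono fun p _ => b c p).trans a⟩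

theorem dya_all {M : Type} [Countable M] {Q : ℕ → Bx} {P : M → (ℕ → Bx) → Prop}
    (h : ∀ m, Keep Q (P m)) : Keep Q fun Q' => ∀ m, P m Q' := by
  rcases isEmpty_or_nonempty M with hM | hM
  · exact ⟨fun _ _ _ _ => 0, fun _ _ _ _ => le_rfl, fun _ θ hθ =>
      ⟨0, Eventually.of_forall fun n => (avg_const _ _).trans_le hθ.le⟩, fun _ _ m => hM.elim m⟩
  choose H h0 h1 h2 using h
  obtain ⟨f, hf⟩ := exists_surjective_nat (M × ℕ)
  refine ⟨fun k => H (f k).1 (f k).2, fun k => h0 _ _, fun k => h1 _ _, fun Q' hQ m => ?_⟩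
  refine h2 m Q' fun i => ?_
  obtain ⟨k, hk⟩ := hf (m, i)
  simpa only [hk] using hQ k

theorem dya_smono {Q : ℕ → Bx} {P P' : ℕ → ℕ → Cell → Prop} (h : STight Q P)
    (hP : ∀ c, ∃ c', ∀ᶠ n in UU, ∀ p, P n c p → P' n c' p) : STight Q P' := by
  intro θ hθ
  obtain ⟨c, hc⟩ := h θ hθ
  obtain ⟨c', hc'⟩ := hP c
  refine ⟨c', dya_van_mono hc (hc'.mono fun n a l p => ?_)⟩
  exact max_le_max le_rfl (sub_le_sub_right (fr_mono fun q _ b e => b (a q e)) _)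

theorem dya_small {Q : ℕ → Bx} (hj : Tendsto (fun n => (Q n).j) UU atTop) (C : ℝ) {θ : ℝ}
    (hθ : 0 < θ) : ∀ᶠ n in UU, C / 2 ^ (Q n).j ≤ θ := by
  have h1 : Tendsto (fun n => (2 : ℝ) ^ (Q n).j) UU atTop :=
    (tendsto_pow_atTop_atTop_of_one_lt one_lt_two).comp hj
  exact (h1.const_div_atTop C).eventually_le_const hθ

theorem dya_avg_sub (Q : Bx) (f : Cell → ℝ) (c : ℝ) : Q.avg (fun p => f p - c) = Q.avg f - c := by
  have h := avg_add Q f fun _ => -c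
  rwa [avg_const] at h

theorem dya_abs_avg (Q : Bx) (f : Cell → ℝ) : |Q.avg f| ≤ Q.avg fun p => |f p| := by
  unfold Bx.avg
  rw [abs_div, abs_of_pos (by positivity : (0 : ℝ) < 4 ^ Q.j)]
  exact div_le_div_of_nonneg_right (abs_sum_le_sum_abs _ _) (by positivity)

theorem dya_cvx_abs (γ : ℝ) : ConvexOn ℝ Set.univ fun x : ℝ => |x - γ| := by
  refine ⟨convex_univ, fun x _ y _ a b ha hb hab => ?_⟩
  have e : a * x + b * y - γ = a * (x - γ) + b * (y - γ) := by linear_combination γ * hab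
  simp only [smul_eq_mul]
  rw [e]
  refine (abs_add_le _ _).trans ?_
  rw [abs_mul, abs_mul, abs_of_nonneg ha, abs_of_nonneg hb]

theorem dya_cvx_max (γ : ℝ) : ConvexOn ℝ Set.univ fun x : ℝ => max 0 (x - γ) := by
  refine ⟨convex_univ, fun x _ y _ a b ha hb hab => ?_⟩
  have e : a * x + b * y - γ = a * (x - γ) + b * (y - γ) := by linear_combination γ * hab
  simp only [smul_eq_mul]
  rw [e]
  refine max_le (add_nonneg (mul_nonneg ha (le_max_left _ _)) (mul_nonneg hb (le_max_left _ _)))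
    (add_le_add (mul_le_mul_of_nonneg_left (le_max_right _ _) ha)
      (mul_le_mul_of_nonneg_left (le_max_right _ _) hb))

/-- a sum is bounded by the sum of the box averages over a larger set -/
theorem dya_cover (l : ℕ) {W R : Finset Cell} {g : Cell → ℝ} (hg : ∀ p, 0 ≤ g p)
    (h : ∀ q ∈ W, (anc l q).cells ⊆ R) : ∑ q ∈ W, g q ≤ ∑ q ∈ R, (anc l q).avg g := by
  have p4 : (0 : ℝ) < 4 ^ l := by positivity
  have h1 : ∀ q ∈ W, g q = ∑ z ∈ R, if z ∈ (anc l q).cells then g q / 4 ^ l else 0 := by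
    intro q hq
    rw [← sum_filter, filter_mem_eq_inter, inter_eq_right.2 (h q hq), sum_const, card_cells,
      nsmul_eq_mul]
    simp only [anc]
    push_cast
    field_simp
  rw [sum_congr rfl h1, sum_comm]
  refine sum_le_sum fun z _ => ?_
  rw [← sum_filter, Bx.avg, sum_div]
  refine sum_le_sum_of_subset_of_nonneg (fun q hq => ?_) fun q _ _ => div_nonneg (hg q) p4.le
  exact mem_cells.2 (anc_eq le_rfl (mem_filter.1 hq).2).symm

/-- double counting -/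
theorem dya_dc {α : Type} (S S' : Finset α) (r : α → α → Prop) [∀ p q, Decidable (r p q)]
    {e : α → ℝ} (he : ∀ q, 0 ≤ e q) {C : ℝ} (h : ∀ q ∈ S, (#{p ∈ S' | r p q} : ℝ) ≤ C) :
    ∑ p ∈ S', ∑ q ∈ S with r p q, e q ≤ C * ∑ q ∈ S, e q := by
  simp only [sum_filter]
  rw [sum_comm, mul_sum]
  refine sum_le_sum fun q hq => ?_
  rw [← sum_filter, sum_const, nsmul_eq_mul]
  exact mul_le_mul_of_nonneg_right (h q hq) (he q)

/-- a slightly enlarged window -/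
noncomputable def dya_R (m M : ℤ) (p : Cell) : Finset Cell :=
  Ioo (p.1 - 2 * M - m) (p.1 + 2 * M + m) ×ˢ Ioo (p.2 - 12 * M - m) (p.2 + 12 * M + m)

theorem dya_card_R {m M : ℤ} (hm : 0 < m) (h : 2 * m ≤ M) (p : Cell) :
    (#(dya_R m M p) : ℝ) ≤ 125 * (M : ℝ) ^ 2 := by
  have h1 : ((#(Ioo (p.1 - 2 * M - m) (p.1 + 2 * M + m)) : ℕ) : ℤ) ≤ 5 * M := by
    rw [Int.card_Ioo]; omega
  have h2 : ((#(Ioo (p.2 - 12 * M - m) (p.2 + 12 * M + m)) : ℕ) : ℤ) ≤ 25 * M := by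
    rw [Int.card_Ioo]; omega
  have h3 : (#(dya_R m M p) : ℤ) ≤ 125 * M ^ 2 := by
    rw [dya_R, card_product, Nat.cast_mul]
    calc _ ≤ 5 * M * (25 * M) := mul_le_mul h1 h2 (Nat.cast_nonneg _) (by omega)
      _ = _ := by ring
  exact_mod_cast h3

theorem dya_freq {Q : Bx} {L : ℕ} (hL : L ≤ Q.j) {g : Cell → ℝ} (hg : ∀ p, g p ≤ 1) {κ : ℝ}
    (hκ : 0 < κ) (h : κ ≤ Q.avg g) : κ / 2 ≤ Q.fr fun p => κ / 2 ≤ (anc L p).avg g := by
  have h1 : Q.avg (fun p => (anc L p).avg g) ≤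
      Q.avg fun p => ind (κ / 2 ≤ (anc L p).avg g) + κ / 2 := by
    refine avg_mono fun p _ => ?_
    have h2 : (anc L p).avg g ≤ 1 := (avg_mono fun q _ => hg q).trans_eq (avg_const _ _)
    unfold ind
    split_ifs with c
    · linarith
    · linarith [not_le.1 c]
  rw [avg_anc hL, avg_add, avg_const, ← fr_eq_avg] at h1
  linarith

theorem dya_occ {ι : Type} {A : Arr ι} (h : A.Ok) (Q : Bx) (δ : ℝ) :
    δ * 4 ^ Q.j ≤ #(A.TB Q) ↔ δ ≤ Q.avg A.occ := by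
  rw [h.card_TB, Bx.avg, le_div_iff₀ (by positivity)]

/-- the block of columns -/
noncomputable def dya_blk (l : ℕ) (u : ℤ) : Finset ℤ := Ico (u / 2 ^ l * 2 ^ l) ((u / 2 ^ l + 1) * 2 ^ l)

theorem dya_mem_blk {l : ℕ} {u v : ℤ} : v ∈ dya_blk l u ↔ v / 2 ^ l = u / 2 ^ l := by
  have p : (0 : ℤ) < 2 ^ l := by positivity
  rw [dya_blk, mem_Ico, ← Int.le_ediv_iff_mul_le p, ← Int.ediv_lt_iff_lt_mul p]
  omega

theorem dya_card_blk (l : ℕ) (u : ℤ) : #(dya_blk l u) = 2 ^ l := by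
  rw [dya_blk, Int.card_Ico, show (u / 2 ^ l + 1) * 2 ^ l - u / 2 ^ l * 2 ^ l = ((2 ^ l : ℕ) : ℤ) by
    push_cast; ring, Int.toNat_natCast]

theorem dya_col (l : ℕ) (p : Cell) (F : ℤ → ℝ) :
    (anc l p).avg (fun q => F q.1) = (∑ u ∈ dya_blk l p.1, F u) / 2 ^ l := by
  have e : (anc l p).cells = dya_blk l p.1 ×ˢ dya_blk l p.2 := rfl
  have e4 : (4 : ℝ) ^ l = 2 ^ l * 2 ^ l := by rw [← mul_pow]; norm_num
  rw [Bx.avg, e, sum_product]
  simp only [sum_const, dya_card_blk, nsmul_eq_mul, anc]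
  rw [← mul_sum, e4]
  push_cast
  field_simp

section Ld
variable {ι : Type} {A : Arr ι}

theorem dya_dg (A : Arr ι) (l : ℕ) (a : ι) (p : Cell) : A.dg l a p.1 =
    (anc l p).avg fun q => cnt A.T fun t => (∃ i, t i = a) ∧ (A.loc t).1 = q.1 := by
  rw [dya_col l p fun u => cnt A.T fun t => (∃ i, t i = a) ∧ (A.loc t).1 = u, Arr.dg]
  congr 1
  simp only [cnt_eq_sum]
  rw [sum_comm]
  refine sum_congr rfl fun t _ => ?_
  by_cases h : ∃ i, t i = a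
  · simp only [ind, h, true_and, ← dya_mem_blk]
    convert (sum_ite_eq (dya_blk l p.1) (A.loc t).1 fun _ => (1 : ℝ)).symm
  · simp [ind, h]

theorem dya_dg_le (A : Arr ι) {l0 l : ℕ} (h : l0 ≤ l) (a : ι) (p : Cell) (d : ℝ) :
    |A.dg l a p.1 - d| ≤ (∑ u ∈ dya_blk l p.1, |A.dg l0 a u - d|) / 2 ^ l := by
  rw [← dya_col l p fun u => |A.dg l0 a u - d|, dya_dg, ← avg_anc (Q := anc l p) h, ← dya_avg_sub]
  simp only [← dya_dg]
  exact dya_abs_avg _ _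

theorem dya_rows (A : Arr ι) (a : ι) (l : ℕ) (S : Finset Cell) (hS : ∀ p ∈ S, |A.ht p a| ≤ 1)
    (u : ℤ) : (#{p ∈ S | u / 2 ^ l = p.1 / 2 ^ l} : ℝ) ≤ 3 * 2 ^ l := by
  have h := card_le_card_of_injOn (s := {p ∈ S | u / 2 ^ l = p.1 / 2 ^ l})
    (t := dya_blk l u ×ˢ Icc (0 : ℤ) 2) (fun p => (p.1, p.2 - ⌈A.s a + A.x a * p.1 - 1⌉))
    (fun p hp => by
      obtain ⟨h1, h2⟩ := mem_filter.1 (mem_coe.1 hp)
      obtain ⟨h3, h4⟩ := abs_le.1 (hS p h1)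
      unfold Arr.ht at h3 h4
      refine mem_coe.2 (mem_product.2 ⟨dya_mem_blk.2 h2.symm, mem_Icc.2 ⟨?_, ?_⟩⟩)
      · exact sub_nonneg.2 (Int.ceil_le.2 (by linarith))
      · have h5 := Int.le_ceil (A.s a + A.x a * p.1 - 1)
        have h6 : (p.2 : ℝ) - ⌈A.s a + A.x a * p.1 - 1⌉ ≤ 2 := by linarith
        exact_mod_cast h6)
    (fun p _ q _ e => by
      obtain ⟨e1, e2⟩ := Prod.mk.inj e
      rw [e1] at e2
      exact Prod.ext e1 (by omega))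
  rw [card_product, dya_card_blk] at h
  have h2 : #{p ∈ S | u / 2 ^ l = p.1 / 2 ^ l} ≤ 3 * 2 ^ l := h.trans_eq (mul_comm _ _)
  exact_mod_cast h2

/-- cells far from the boundary -/
def dya_int (Q : Bx) (r : ℕ) (p : Cell) : Prop :=
  ∀ q : Cell, |q.1 - p.1| ≤ r → |q.2 - p.2| ≤ r → q ∈ Q.cells

theorem dya_row (h : A.Ok) {l : ℕ} {a : ι} (ha : a ∈ lines A.T) {p : Cell} (b2 : |A.ht p a| ≤ 1)
    {u : ℤ} (c2 : |u - p.1| < 2 ^ l) : |round (A.s a + A.x a * u) - p.2| ≤ ((3 * 2 ^ l : ℕ) : ℤ) := by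
  have c1 := abs_sub_round (A.s a + A.x a * u)
  have c3 : |(u : ℝ) - p.1| ≤ 2 ^ l := by exact_mod_cast c2.le
  have c4 : |A.x a * ((u : ℝ) - p.1)| ≤ 11 / 10 * 2 ^ l := by
    rw [abs_mul]
    exact mul_le_mul (h.x_bd ha) c3 (abs_nonneg _) (by norm_num)
  have c5 : (1 : ℝ) ≤ 2 ^ l := one_le_pow₀ one_le_two
  have c6 : |((round (A.s a + A.x a * u) : ℤ) : ℝ) - p.2| ≤ 3 * 2 ^ l := by
    unfold Arr.ht at b2
    generalize round (A.s a + A.x a * u) = r at c1 ⊢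
    rw [abs_le] at c1 c4 b2 ⊢
    constructor <;> linarith [c1.1, c1.2, c4.1, c4.2, b2.1, b2.2]
  exact_mod_cast c6

theorem dya_pt (h : A.Ok) (Q : Bx) {l0 l : ℕ} (hl : l0 ≤ l) {a : ι} (ha : a ∈ lines A.T)
    (d : ℝ) {p : Cell} (b1 : dya_int Q (3 * 2 ^ l) p) (b2 : |A.ht p a| ≤ 1) :
    |A.dg l a p.1 - d| ≤ (∑ q ∈ (Q.cells.filter fun q => |A.ht q a| ≤ 1) with
      q.1 / 2 ^ l = p.1 / 2 ^ l, |A.dg l0 a q.1 - d|) / 2 ^ l := by
  refine (dya_dg_le A hl a p d).trans (div_le_div_of_nonneg_right ?_ (by positivity))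
  have inj : Set.InjOn (fun u : ℤ => ((u, round (A.s a + A.x a * u)) : Cell)) (dya_blk l p.1) :=
    fun u _ v _ e => (Prod.mk.inj e).1
  have e := sum_image (f := fun q : Cell => |A.dg l0 a q.1 - d|) inj
  refine e.symm.trans_le
    (sum_le_sum_of_subset_of_nonneg (fun q hq => ?_) fun _ _ _ => abs_nonneg _)
  obtain ⟨u, hu, rfl⟩ := mem_image.1 hq
  have c1 := abs_sub_round (A.s a + A.x a * u)
  have c0 : (u, p.2) ∈ (anc l p).cells := mem_product.2 ⟨hu, (dya_mem_blk (l := l)).2 rfl⟩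
  have c2 : |u - p.1| < 2 ^ l := (anc_close c0).1
  have c3 : |u - p.1| ≤ ((3 * 2 ^ l : ℕ) : ℤ) := by
    have : (0 : ℤ) < 2 ^ l := by positivity
    push_cast
    linarith
  have c4 : |A.ht (u, round (A.s a + A.x a * u)) a| ≤ 1 := c1.trans (by norm_num)
  exact mem_filter.2 ⟨mem_filter.2 ⟨b1 _ c3 (dya_row h ha b2 c2), c4⟩, dya_mem_blk.1 hu⟩

theorem dya_line (h : A.Ok) (Q : Bx) {l0 l : ℕ} (hl : l0 ≤ l) {a : ι} (ha : a ∈ lines A.T)
    (d : ℝ) : ∑ p ∈ Q.cells with dya_int Q (3 * 2 ^ l) p ∧ |A.ht p a| ≤ 1, |A.dg l a p.1 - d| ≤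
      3 * ∑ q ∈ Q.cells with |A.ht q a| ≤ 1, |A.dg l0 a q.1 - d| := by
  have p2 : (0 : ℝ) < 2 ^ l := by positivity
  refine (sum_le_sum fun p hp =>
    dya_pt h Q hl ha d (mem_filter.1 hp).2.1 (mem_filter.1 hp).2.2).trans ?_
  rw [← sum_div, div_le_iff₀ p2, mul_right_comm]
  exact dya_dc _ _ (fun p q : Cell => q.1 / 2 ^ l = p.1 / 2 ^ l) (fun _ => abs_nonneg _)
    fun q _ => dya_rows A a l _ (fun p hp => (mem_filter.1 hp).2.2) q.1

theorem dya_ldv_nonneg (A : Arr ι) (d : ι → ℝ) (l : ℕ) (p : Cell) : 0 ≤ A.ldv d l p :=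
  sum_nonneg fun _ _ => abs_nonneg _

theorem dya_inner (h : A.Ok) (Q : Bx) {l0 l : ℕ} (hl : l0 ≤ l) (d : ι → ℝ) :
    ∑ p ∈ Q.cells with dya_int Q (3 * 2 ^ l) p, A.ldv d l p ≤ 3 * ∑ p ∈ Q.cells, A.ldv d l0 p := by
  simp only [Arr.ldv, sum_filter (s := lines A.T)]
  rw [sum_comm, sum_comm (s := Q.cells), mul_sum]
  refine sum_le_sum fun a ha => ?_
  rw [← sum_filter, ← sum_filter, filter_filter]
  exact dya_line h Q hl ha (d a)

theorem dya_outer (h : A.Ok) (d : ι → ℝ) (l0 l : ℕ) (p : Cell) :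
    A.ldv d l p ≤ 2 * A.nl 1 p + A.ldv d l0 p := by
  have e : 2 * A.nl 1 p = ∑ a ∈ lines A.T with |A.ht p a| ≤ 1, (2 : ℝ) := by
    rw [sum_const, nsmul_eq_mul, mul_comm]
    unfold Arr.nl cnt
    congr
  rw [e, Arr.ldv, Arr.ldv, ← sum_add_distrib]
  refine sum_le_sum fun a _ => ?_
  have h1 := h.dg_le l a p.1
  have h2 := h.dg_le l0 a p.1
  have h3 := abs_sub_le (A.dg l a p.1) (A.dg l0 a p.1) (d a)
  have h4 : |A.dg l a p.1 - A.dg l0 a p.1| ≤ 2 := abs_le.2 ⟨by linarith, by linarith⟩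
  linarith

theorem dya_strip (A : Arr ι) {Q : Bx} {l : ℕ} (hl : l ≤ Q.j) {K : ℝ} (hK : 0 ≤ K) :
    ∑ p ∈ Q.cells with ¬ dya_int Q (3 * 2 ^ l) p, A.nl 1 p ≤
      K * (16 * 2 ^ l) / 2 ^ Q.j * 4 ^ Q.j + ∑ p ∈ Q.cells, A.exc K l p := by
  refine (dya_cover l (R := {p ∈ Q.cells | ¬ dya_int Q (4 * 2 ^ l) p})
    (fun p => cnt_nonneg _ _) fun q hq z hz => ?_).trans ?_
  · obtain ⟨b1, b2⟩ := mem_filter.1 hq
    refine mem_filter.2 ⟨anc_sub hl b1 hz, fun c => b2 fun y c1 c2 => ?_⟩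
    obtain ⟨c3, c4⟩ := anc_close hz
    push_cast at c1 c2
    rw [abs_le] at c1 c2
    rw [abs_lt] at c3 c4
    refine c y ?_ ?_ <;> push_cast <;> rw [abs_le] <;> constructor <;> linarith
  have h1 : ∑ q ∈ Q.cells with ¬ dya_int Q (4 * 2 ^ l) q, (anc l q).avg (A.nl 1) ≤
      ∑ q ∈ Q.cells with ¬ dya_int Q (4 * 2 ^ l) q, (K + A.exc K l q) :=
    sum_le_sum fun q _ => by linarith [le_max_right 0 ((anc l q).avg (A.nl 1) - K), Arr.exc.eq_1 A K l q]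
  refine h1.trans ?_
  rw [sum_add_distrib, sum_const, nsmul_eq_mul]
  refine add_le_add ?_ (sum_le_sum_of_subset_of_nonneg (filter_subset _ _)
    fun _ _ _ => le_max_left _ _)
  have h2 := fr_bdry Q (4 * 2 ^ l)
  rw [Bx.fr, div_le_iff₀ (by positivity)] at h2
  have h3 : (#{q ∈ Q.cells | ¬ dya_int Q (4 * 2 ^ l) q} : ℝ) ≤
      4 * ((4 * 2 ^ l : ℕ) : ℝ) / 2 ^ Q.j * 4 ^ Q.j := by
    refine le_trans (le_of_eq ?_) h2
    unfold cnt dya_int
    congr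
  have h4 := mul_le_mul_of_nonneg_right h3 hK
  push_cast at h4
  refine h4.trans_eq ?_
  ring

theorem dya_ld (h : A.Ok) {Q : Bx} {l0 l : ℕ} (h0 : l0 ≤ l) (hl : l ≤ Q.j) {K : ℝ} (hK : 0 ≤ K)
    (d : ι → ℝ) : Q.avg (A.ldv d l) ≤
      4 * Q.avg (A.ldv d l0) + 2 * Q.avg (A.exc K l) + 2 * (K * (16 * 2 ^ l) / 2 ^ Q.j) := by
  have p4 : (0 : ℝ) < 4 ^ Q.j := by positivity
  have h1 := dya_inner h Q h0 d
  have h2 := dya_strip A hl hK
  have h3 : ∑ p ∈ Q.cells with ¬ dya_int Q (3 * 2 ^ l) p, A.ldv d l p ≤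
      2 * ∑ p ∈ Q.cells with ¬ dya_int Q (3 * 2 ^ l) p, A.nl 1 p +
        ∑ p ∈ Q.cells, A.ldv d l0 p := by
    refine (sum_le_sum fun p _ => dya_outer h d l0 l p).trans ?_
    rw [sum_add_distrib, ← mul_sum]
    exact add_le_add le_rfl (sum_le_sum_of_subset_of_nonneg (filter_subset _ _)
      fun p _ _ => dya_ldv_nonneg A d l0 p)
  have h4 := sum_filter_add_sum_filter_not Q.cells (dya_int Q (3 * 2 ^ l)) (A.ldv d l)
  unfold Bx.avg
  rw [div_le_iff₀ p4, add_mul, add_mul, mul_assoc, mul_assoc, div_mul_cancel₀ _ p4.ne',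
    div_mul_cancel₀ _ p4.ne']
  linarith

end Ld

/-! ### Keep -/

theorem keep_true (Q : ℕ → Bx) : Keep Q fun _ => True := by
  exact ⟨fun _ _ _ _ => 0, fun _ _ _ _ => le_rfl, fun _ θ hθ =>
    ⟨0, Eventually.of_forall fun n => (avg_const _ _).trans_le hθ.le⟩, fun _ _ => trivial⟩

theorem Keep.holds {Q : ℕ → Bx} {P : (ℕ → Bx) → Prop} (h : Keep Q P) : P Q := by
  obtain ⟨H, -, h1, h2⟩ := h
  exact h2 Q h1

theorem Keep.mono {Q : ℕ → Bx} {P P' : (ℕ → Bx) → Prop} (h : Keep Q P) (hP : ∀ Q', P Q' → P' Q') :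
    Keep Q P' := by
  obtain ⟨H, h0, h1, h2⟩ := h
  exact ⟨H, h0, h1, fun Q' a => hP Q' (h2 Q' a)⟩

theorem Keep.self {Q : ℕ → Bx} {P : (ℕ → Bx) → Prop} (h : Keep Q P) :
    Keep Q fun Q' => Keep Q' P := by
  obtain ⟨H, h0, h1, h2⟩ := h
  exact ⟨H, h0, h1, fun Q' a => ⟨H, h0, a, h2⟩⟩

theorem Keep.and {Q : ℕ → Bx} {P P' : (ℕ → Bx) → Prop} (h : Keep Q P) (h' : Keep Q P') :
    Keep Q fun Q' => P Q' ∧ P' Q' := by
  refine (dya_all (M := Bool) (P := fun b => cond b P P') fun b => ?_).mono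
    fun Q' a => ⟨a true, a false⟩
  cases b
  exacts [h', h]

theorem Keep.all {M : Type} [Countable M] {Q : ℕ → Bx} {P : M → (ℕ → Bx) → Prop}
    (h : ∀ m, Keep Q (P m)) : Keep Q fun Q' => ∀ m, P m Q' := by
  exact dya_all h

theorem keep_van {Q : ℕ → Bx} {h : ℕ → ℕ → Cell → ℝ} (h0 : ∀ n c p, 0 ≤ h n c p) (hv : Van Q h) :
    Keep Q fun Q' => Van Q' h := by
  exact ⟨fun _ => h, fun _ => h0, fun _ => hv, fun _ a => a 0⟩

theorem keep_tight {Q : ℕ → Bx} {P : ℕ → ℕ → Cell → Prop} (h : Tight Q P) :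
    Keep Q fun Q' => Tight Q' P := by
  have e : ∀ Q', Tight Q' P ↔ Van Q' fun n c p => ind (¬ P n c p) := fun Q' => by
    simp only [Tight, Van, fr_eq_avg]
  exact (keep_van (fun _ _ _ => dya_ind_nonneg _) ((e Q).1 h)).mono fun Q' a => (e Q').2 a

theorem keep_stight {Q : ℕ → Bx} {P : ℕ → ℕ → Cell → Prop} (h : STight Q P) :
    Keep Q fun Q' => STight Q' P := by
  choose c hc using fun m : ℕ => h (1 / ((m : ℝ) + 1)) Nat.one_div_pos_of_nat
  refine (Keep.all fun m => keep_van (fun _ _ _ => le_max_left _ _) (hc m)).mono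
    fun Q' a θ hθ => ?_
  obtain ⟨m, hm⟩ := exists_nat_one_div_lt hθ
  exact ⟨c m, dya_van_mono (a m) (Eventually.of_forall fun n l p =>
    max_le_max le_rfl (sub_le_sub_left hm.le _))⟩

theorem keep_dh {Q : ℕ → Bx} {g : ℕ → Cell → ℝ} {γ : ℝ} (h : DH Q g γ) :
    Keep Q fun Q' => DH Q' g γ := by
  exact keep_van (fun _ _ _ => abs_nonneg _) h

theorem Good.keep {A : ℕ → Arr ℕ} {Q : ℕ → Bx} (h : Good A Q) :
    Keep Q fun Q' => Val A Q' → Good A Q' := by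
  obtain ⟨δ, h1, h2⟩ := h.occ
  obtain ⟨K, h3⟩ := h.exc
  obtain ⟨d, h4⟩ := h.ld
  exact ((keep_dh h2).and ((keep_van (fun _ _ _ => le_max_left _ _) h3).and
    (keep_van (fun _ _ _ => dya_ldv_nonneg _ _ _ _) h4))).mono
    fun Q' a v => ⟨v, ⟨δ, h1, a.1⟩, ⟨K, a.2.1⟩, ⟨d, a.2.2⟩⟩

theorem Reg.keep {D : ℕ} {A : ℕ → Arr ℕ} {Q : ℕ → Bx} {lab : ℕ → ℕ → Fin D → ℝ} (h : Reg A Q lab) :
    Keep Q fun Q' => Val A Q' → Reg A Q' lab := by
  refine (h.good.keep.and ((Keep.all fun m : ℕ × ℕ × ℕ => keep_stight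
    (h.gp m.1 m.2.1 (1 / ((m.2.2 : ℝ) + 1)) Nat.one_div_pos_of_nat)).and
    (Keep.all fun l => keep_stight (h.gap l)))).mono
    fun Q' a v => ⟨a.1 v, h.xs, fun N L η hη => ?_, a.2.2⟩
  obtain ⟨m, hm⟩ := exists_nat_one_div_lt hη
  refine dya_smono (a.2.1 (N, L, m)) fun c => ⟨c, Eventually.of_forall fun n p b F hF e => ?_⟩
  exact b F hF ((mul_le_mul_of_nonneg_right hm.le (by positivity)).trans e)

/-! ### Elementary properties -/

theorem Tight.mono {Q : ℕ → Bx} {P P' : ℕ → ℕ → Cell → Prop} (h : Tight Q P)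
    (hP : ∀ c, ∃ c', ∀ᶠ n in UU, ∀ p ∈ (Q n).cells, P n c p → P' n c' p) : Tight Q P' := by
  intro θ hθ
  obtain ⟨c, hc⟩ := h θ hθ
  obtain ⟨c', hc'⟩ := hP c
  refine ⟨c', ?_⟩
  filter_upwards [hc, hc'] with n a b
  exact (fr_mono fun p hp x y => x (b p hp y)).trans a

theorem STight.mono {Q : ℕ → Bx} {P P' : ℕ → ℕ → Cell → Prop} (h : STight Q P)
    (hP : ∀ c, ∃ c', ∀ᶠ n in UU, ∀ p, P n c p → P' n c' p) : STight Q P' := by
  exact dya_smono h hP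

theorem Most.mono {Q : ℕ → Bx} {P P' : ℕ → ℕ → Cell → Prop} (h : Most Q P)
    (hP : ∀ᶠ l in atTop, ∀ᶠ n in UU, ∀ p ∈ (Q n).cells, P n l p → P' n l p) : Most Q P' := by
  intro θ hθ
  filter_upwards [h θ hθ, hP] with l c d
  filter_upwards [c, d] with n a b
  exact (fr_mono fun p hp x y => x (b p hp y)).trans a

theorem Most.and {Q : ℕ → Bx} {P P' : ℕ → ℕ → Cell → Prop} (h : Most Q P) (h' : Most Q P') :
    Most Q fun n l p => P n l p ∧ P' n l p := by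
  intro θ hθ
  filter_upwards [h _ (half_pos hθ), h' _ (half_pos hθ)] with l c d
  filter_upwards [c, d] with n a b
  exact (fr_or fun p _ x => not_and_or.1 x).trans (by linarith)

theorem Most.tight {Q : ℕ → Bx} {P : ℕ → ℕ → Cell → Prop} (h : Most Q P) (L : ℕ) :
    Tight Q fun n l p => P n (l + L) p := by
  intro θ hθ
  obtain ⟨l, hl⟩ := eventually_atTop.1 (h θ hθ)
  exact ⟨l, hl _ (Nat.le_add_right _ _)⟩

theorem STight.tight {Q : ℕ → Bx} (hj : Tendsto (fun n => (Q n).j) UU atTop)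
    {P : ℕ → ℕ → Cell → Prop} (h : STight Q P) : Tight Q P := by
  intro θ hθ
  obtain ⟨c, hc⟩ := h _ (half_pos hθ)
  obtain ⟨l, hl⟩ := hc _ (half_pos hθ)
  refine ⟨c, ?_⟩
  filter_upwards [hl, hj.eventually_ge_atTop l] with n a b
  have h1 : (Q n).avg (fun p => (anc l p).fr (fun q => ¬ P n c q) - θ / 2) ≤ θ / 2 :=
    (avg_mono fun p _ => le_max_right _ _).trans a
  simp only [dya_avg_sub, fr_eq_avg, avg_anc b] at h1
  rw [fr_eq_avg]
  linarith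

/-- enlarged windows of most cells lie in the box -/
theorem most_in {Q : ℕ → Bx} (hj : Tendsto (fun n => (Q n).j) UU atTop) (k : ℕ) :
    Most Q fun n l p => l + k ≤ (Q n).j ∧ Wn p l ⊆ (Q n).cells := by
  intro θ hθ
  refine Eventually.of_forall fun l => ?_
  filter_upwards [hj.eventually_ge_atTop (l + k),
    dya_small hj (4 * ((12 * 2 ^ l : ℕ) : ℝ)) hθ] with n a b
  refine ((fr_mono fun p _ x y => x ⟨a, fun q hq => ?_⟩).trans (fr_bdry _ _)).trans b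
  have p2 : (0 : ℤ) < 2 ^ l := by positivity
  simp only [Wn, mem_product, mem_Icc] at hq
  refine y q ?_ ?_ <;> push_cast <;> rw [abs_le] <;> constructor <;> linarith

theorem DH.lim {Q : ℕ → Bx} (hj : Tendsto (fun n => (Q n).j) UU atTop) {g : ℕ → Cell → ℝ} {γ : ℝ}
    (h : DH Q g γ) : Tendsto (fun n => (Q n).avg (g n)) UU (nhds γ) := by
  refine Metric.tendsto_nhds.2 fun ε hε => ?_
  obtain ⟨l, hl⟩ := h _ (half_pos hε)
  filter_upwards [hl, hj.eventually_ge_atTop l] with n a b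
  rw [Real.dist_eq, ← avg_anc b, ← dya_avg_sub]
  exact ((dya_abs_avg _ _).trans a).trans_lt (half_lt_self hε)

theorem DH.most {Q : ℕ → Bx} (hj : Tendsto (fun n => (Q n).j) UU atTop) {g : ℕ → Cell → ℝ} {γ : ℝ}
    (h : DH Q g γ) {θ : ℝ} (hθ : 0 < θ) : Most Q fun n l p => |(anc l p).avg (g n) - γ| ≤ θ := by
  intro ε hε
  obtain ⟨l0, h0⟩ := h _ (mul_pos hε hθ)
  filter_upwards [eventually_ge_atTop l0] with l hl
  filter_upwards [h0, hj.eventually_ge_atTop l] with n a b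
  refine (fr_mono (P' := fun p => θ ≤ |(anc l p).avg (g n) - γ|)
    fun p _ x => (not_le.1 x).le).trans ((fr_markov _ (fun _ _ => abs_nonneg _) hθ).trans ?_)
  exact (div_le_iff₀ hθ).2 ((avg_convex hl b (dya_cvx_abs γ) _).trans a)

/-- upper bounds for box averages give upper bounds for sums over enlarged windows -/
theorem ub_most {Q : ℕ → Bx} (hj : Tendsto (fun n => (Q n).j) UU atTop) {g : ℕ → Cell → ℝ} {γ : ℝ}
    (hg : ∀ n p, 0 ≤ g n p) (hγ : 0 ≤ γ) (h : Van Q fun n l p => max 0 ((anc l p).avg (g n) - γ))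
    {θ : ℝ} (hθ : 0 < θ) : Most Q fun n l p => ∑ q ∈ Wn p l, g n q ≤ 125 * (γ + θ) * 4 ^ l := by
  intro ε hε
  obtain ⟨l0, h0⟩ := h _ (mul_pos (half_pos hε) hθ)
  filter_upwards [eventually_ge_atTop (l0 + 1),
    (tendsto_add_atTop_nat 1).eventually (most_in hj 0 _ (half_pos hε))] with l hl h1
  filter_upwards [h0, h1] with n a b
  have p0 : (0 : ℤ) < 2 ^ l0 := by positivity
  have p1 : (2 : ℤ) * 2 ^ l0 ≤ 2 ^ l := by
    rw [← pow_succ']; exact pow_le_pow_right₀ one_le_two hl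
  have p4 : (0 : ℝ) < 4 ^ l := by positivity
  have cR : ∀ p, (#(dya_R (2 ^ l0) (2 ^ l) p) : ℝ) ≤ 125 * 4 ^ l := fun p => by
    refine (dya_card_R p0 p1 p).trans_eq ?_
    push_cast
    rw [← pow_mul, mul_comm l, pow_mul]
    norm_num
  set e : Cell → ℝ := fun p => max 0 ((anc l0 p).avg (g n) - γ) with he
  have e0 : ∀ p, 0 ≤ e p := fun p => le_max_left _ _
  set f : Cell → ℝ := fun p => ∑ q ∈ (Q n).cells with q ∈ dya_R (2 ^ l0) (2 ^ l) p, e q with hf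
  have h2 : (Q n).fr (fun p => 125 * θ * 4 ^ l ≤ f p) ≤ ε / 2 := by
    refine (fr_markov _ (fun p _ => sum_nonneg fun q _ => e0 q) (by positivity)).trans ?_
    have h3 : ∑ p ∈ (Q n).cells, f p ≤ 125 * 4 ^ l * ∑ q ∈ (Q n).cells, e q := by
      exact dya_dc (Q n).cells (Q n).cells (fun p q => q ∈ dya_R (2 ^ l0) (2 ^ l) p) e0
        (C := 125 * 4 ^ l) fun q _ => le_trans (Nat.cast_le.2 (card_le_card fun p hp => by
          have := (mem_filter.1 hp).2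
          simp only [dya_R, mem_product, mem_Ioo] at this ⊢
          omega)) (cR q)
    have h4 : (Q n).avg f ≤ 125 * 4 ^ l * (Q n).avg e := by
      unfold Bx.avg
      rw [← mul_div_assoc]
      exact div_le_div_of_nonneg_right h3 (by positivity)
    rw [div_le_iff₀ (by positivity)]
    have h5 := mul_le_mul_of_nonneg_left a (by positivity : (0 : ℝ) ≤ 125 * 4 ^ l)
    linarith
  refine (fr_or fun p _ x => ?_).trans ((add_le_add b h2).trans_eq (add_halves ε))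
  by_contra hc
  rw [not_or, not_not, not_le] at hc
  have s1 : dya_R (2 ^ l0) (2 ^ l) p ⊆ (Q n).cells := fun q hq => hc.1.2 (by
    simp only [dya_R, Wn, mem_product, mem_Ioo, mem_Icc, pow_succ] at hq ⊢
    omega)
  have s2 := dya_cover l0 (W := Wn p l) (R := dya_R (2 ^ l0) (2 ^ l) p) (hg n) fun q hq z hz => by
    obtain ⟨c1, c2⟩ := anc_close hz
    rw [abs_lt] at c1 c2
    simp only [dya_R, Wn, mem_product, mem_Ioo, mem_Icc] at hq ⊢
    omega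
  have s3 : ∑ q ∈ dya_R (2 ^ l0) (2 ^ l) p, (anc l0 q).avg (g n) ≤
      ∑ q ∈ dya_R (2 ^ l0) (2 ^ l) p, (γ + e q) :=
    sum_le_sum fun q _ => by linarith [le_max_right 0 ((anc l0 q).avg (g n) - γ)]
  have s4 : f p = ∑ q ∈ dya_R (2 ^ l0) (2 ^ l) p, e q := by
    simp only [hf]
    rw [filter_mem_eq_inter, inter_eq_right.2 s1]
  rw [sum_add_distrib, sum_const, nsmul_eq_mul, ← s4] at s3
  have s5 := mul_le_mul_of_nonneg_right (cR p) hγ
  exact x (by linarith [hc.2])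

theorem STight.most {Q : ℕ → Bx} (hj : Tendsto (fun n => (Q n).j) UU atTop)
    {P : ℕ → ℕ → Cell → Prop} (h : STight Q P) {θ : ℝ} (hθ : 0 < θ) :
    ∃ c, Most Q fun n l p => cnt (Wn p l) (fun q => ¬ P n c q) ≤ θ * 4 ^ l := by
  have h1 : 0 < θ / 250 := by positivity
  obtain ⟨c, hc⟩ := h _ h1
  simp only [fr_eq_avg] at hc
  refine ⟨c, (ub_most hj (g := fun n q => ind (¬ P n c q)) (fun _ _ => dya_ind_nonneg _) h1.le hc
    h1).mono (Eventually.of_forall fun l => Eventually.of_forall fun n p _ a => ?_)⟩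
  rw [cnt_eq_sum]
  linarith

theorem Val.sub {A A' : ℕ → Arr ℕ} {Q : ℕ → Bx} (h : Val A Q) (hs : Sub A' A) : Val A' Q := by
  obtain ⟨K, hK⟩ := h.few
  refine ⟨fun n => ?_, h.big, K, hK.mono fun n a => le_trans ?_ a⟩
  · obtain ⟨T, h1, h2⟩ := hs n
    exact h2 ▸ (h.ok n).res h1
  · obtain ⟨T, h1, h2⟩ := hs n
    rw [h2]
    exact cnt_mono fun a b c => ⟨lines_mono h1 b, c⟩

theorem Sub.trans {A A' A'' : ℕ → Arr ℕ} (h : Sub A'' A') (h' : Sub A' A) : Sub A'' A := by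
  intro n
  obtain ⟨T, h1, h2⟩ := h n
  obtain ⟨T', h3, h4⟩ := h' n
  rw [h4] at h1 h2
  exact ⟨T, h1.trans h3, h2⟩

theorem Sub.refl (A : ℕ → Arr ℕ) : Sub A A := by
  exact fun n => ⟨_, Subset.refl _, rfl⟩

theorem In.trans {Q Q' Q'' : ℕ → Bx} (h : In Q'' Q') (h' : In Q' Q) : In Q'' Q := by
  filter_upwards [h, h'] with n a b using a.trans b

theorem In.refl (Q : ℕ → Bx) : In Q Q := by
  exact Eventually.of_forall fun _ => Subset.refl _

theorem Val.lines_le {A : ℕ → Arr ℕ} {Q : ℕ → Bx} (h : Val A Q) : ∃ K : ℝ, 1 ≤ K ∧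
    ∀ᶠ n in UU, (#(lines ((A n).TB (Q n))) : ℝ) ≤ K * 2 ^ (Q n).j ∧
      (A n).nl (3 * 2 ^ (Q n).j) (Q n).o ≤ K * 2 ^ (Q n).j := by
  obtain ⟨K, hK⟩ := h.few
  refine ⟨max K 1, le_max_right _ _, hK.mono fun n a => ?_⟩
  have b := a.trans (mul_le_mul_of_nonneg_right (le_max_left K 1) (by positivity))
  exact ⟨((h.ok n).lines_TB _).trans b, b⟩

/-- a property of many cells holds for many cells of many boxes -/
theorem freq_fr {Q : ℕ → Bx} (hj : Tendsto (fun n => (Q n).j) UU atTop) {R : ℕ → Cell → Prop} {κ : ℝ}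
    (hκ : 0 < κ) (h : ∀ᶠ n in UU, κ ≤ (Q n).fr (R n)) :
    Freq Q fun n B => κ / 2 ≤ B.fr (R n) := by
  refine ⟨κ / 2, half_pos hκ, Eventually.frequently (Eventually.of_forall fun L => ?_)⟩
  filter_upwards [h, hj.eventually_ge_atTop L] with n a b
  rw [fr_eq_avg] at a
  refine (dya_freq b (fun _ => dya_ind_le _) hκ a).trans (fr_mono fun p _ c => ?_)
  rwa [fr_eq_avg]

theorem Dens.freq {A : ℕ → Arr ℕ} {Q : ℕ → Bx} (hV : Val A Q) (h : Dens A Q) : ∃ δ : ℝ, 0 < δ ∧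
    ∀ᶠ L in atTop, ∀ᶠ n in UU, δ ≤ (Q n).fr fun p => δ * 4 ^ L ≤ #((A n).TB (anc L p)) := by
  obtain ⟨δ, h1, h2⟩ := h
  refine ⟨δ / 2, half_pos h1, Eventually.of_forall fun L => ?_⟩
  filter_upwards [h2, hV.big.eventually_ge_atTop L] with n a b
  exact (dya_freq b (fun _ => dya_ind_le _) h1 ((dya_occ (hV.ok n) _ _).1 a)).trans
    (fr_mono fun p _ c => (dya_occ (hV.ok n) (anc L p) _).2 c)

theorem Good.dens {A : ℕ → Arr ℕ} {Q : ℕ → Bx} (h : Good A Q) : ∃ δ : ℝ, 0 < δ ∧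
    (∀ᶠ n in UU, δ * 4 ^ (Q n).j ≤ #((A n).TB (Q n))) ∧
      Most Q fun n l p => δ * 4 ^ l ≤ #((A n).TB (anc l p)) := by
  obtain ⟨δ, h1, h2⟩ := h.occ
  refine ⟨δ / 2, half_pos h1, ?_, (h2.most h.val.big (half_pos h1)).mono
    (Eventually.of_forall fun l => Eventually.of_forall fun n p _ a => ?_)⟩
  · filter_upwards [(h2.lim h.val.big).eventually_const_le (half_lt_self h1)] with n a
    exact (dya_occ (h.val.ok n) _ _).2 a
  · exact (dya_occ (h.val.ok n) (anc l p) _).2 (by linarith [(abs_le.1 a).1])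

theorem Good.exc_ev {A : ℕ → Arr ℕ} {Q : ℕ → Bx} (h : Good A Q) : ∃ K : ℝ, 1 ≤ K ∧
    (∀ θ : ℝ, 0 < θ → ∀ᶠ l in atTop, ∀ᶠ n in UU, (Q n).avg ((A n).exc K l) ≤ θ) ∧
      Most Q fun n l p => (A n).nl (9 * 2 ^ l) p ≤ 250 * K * 2 ^ l := by
  obtain ⟨K, hK⟩ := h.exc
  have h1 : Exc A Q (max K 1) := dya_van_mono hK (Eventually.of_forall fun n l p =>
    max_le_max le_rfl (sub_le_sub_left (le_max_left _ _) _))
  have h2 : (1 : ℝ) ≤ max K 1 := le_max_right _ _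
  generalize max K 1 = K' at h1 h2
  refine ⟨K', h2, fun θ hθ => ?_, (ub_most h.val.big (g := fun n => (A n).nl 1)
    (fun _ _ => cnt_nonneg _ _) (by linarith) h1 (θ := K') (by linarith)).mono
    (Eventually.of_forall fun l => Eventually.of_forall fun n p _ a => ?_)⟩
  · obtain ⟨l0, h0⟩ := h1 θ hθ
    filter_upwards [eventually_ge_atTop l0] with l hl
    filter_upwards [h0, h.val.big.eventually_ge_atTop l] with n a b
    exact (avg_convex hl b (dya_cvx_max K') _).trans a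
  · have e4 : (4 : ℝ) ^ l = 2 ^ l * 2 ^ l := by rw [← mul_pow]; norm_num
    have b := ((h.val.ok n).nl_Wn p l).trans a
    rw [e4] at b
    exact le_of_mul_le_mul_right (by linarith) (by positivity : (0 : ℝ) < 2 ^ l)

theorem Good.ld_ev {A : ℕ → Arr ℕ} {Q : ℕ → Bx} (h : Good A Q) : ∃ d : ℕ → ℕ → ℝ,
    ∀ θ : ℝ, 0 < θ → ∀ᶠ l in atTop, ∀ᶠ n in UU, (Q n).avg ((A n).ldv (d n) l) ≤ θ := by
  obtain ⟨d, hd⟩ := h.ld
  obtain ⟨K, h1, h2, -⟩ := h.exc_ev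
  refine ⟨d, fun θ hθ => ?_⟩
  have h3 : 0 < θ / 8 := by positivity
  obtain ⟨l0, h0⟩ := hd _ h3
  filter_upwards [eventually_ge_atTop l0, h2 _ h3] with l hl h4
  filter_upwards [h0, h4, h.val.big.eventually_ge_atTop l,
    dya_small h.val.big (K * (16 * 2 ^ l)) h3] with n a b c e
  have := dya_ld (h.val.ok n) hl c (K := K) (by linarith) (d n)
  have a' : (Q n).avg ((A n).ldv (d n) l0) ≤ θ / 8 := a
  linarith

end Pool.Agent.MP_38296a_co.H21

end FileDyA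

section FileDyB1

set_option autoImplicit false

namespace Pool.Agent.MP_38296a_co.H21

open Finset Filter Classical

/-! ### Selectable properties -/

/-- a property which can be forced by excluding a small proportion of the boxes -/
def DybAt (Q : ℕ → Bx) (P : (ℕ → Bx) → Prop) : Prop :=
  ∀ θ : ℝ, 0 < θ → ∃ H : ℕ → Bx → ℝ, (∀ n B, 0 ≤ H n B) ∧
    (∀ᶠ L in atTop, ∀ᶠ n in UU, (Q n).avg (fun p => H n (anc L p)) ≤ θ) ∧
      ∀ Q' : ℕ → Bx, (∀ᶠ n in UU, H n (Q' n) ≤ 1) → P Q'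

/-- a consequence of countably many such properties -/
def DybSel (Q : ℕ → Bx) (P : (ℕ → Bx) → Prop) : Prop :=
  ∃ P' : ℕ → (ℕ → Bx) → Prop, (∀ i, DybAt Q (P' i)) ∧
    ∀ Q' : ℕ → Bx, Tendsto (fun n => (Q' n).j) UU atTop → (∀ i, P' i Q') → P Q'

variable {Q : ℕ → Bx}

theorem dyb_at_true (Q : ℕ → Bx) : DybAt Q fun _ => True := fun θ hθ =>
  ⟨fun _ _ => 0, fun _ _ => le_rfl, .of_forall fun _ => .of_forall fun _ => by
    rw [avg_const]; exact hθ.le, fun _ _ => trivial⟩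

theorem DybAt.sel {P : (ℕ → Bx) → Prop} (h : DybAt Q P) : DybSel Q P :=
  ⟨fun _ => P, fun _ => h, fun _ _ k => k 0⟩

theorem DybSel.mono {P P' : (ℕ → Bx) → Prop} (h : DybSel Q P)
    (e : ∀ Q' : ℕ → Bx, Tendsto (fun n => (Q' n).j) UU atTop → P Q' → P' Q') : DybSel Q P' :=
  let ⟨R, a, b⟩ := h
  ⟨R, a, fun Q' c d => e Q' c (b Q' c d)⟩

theorem dyb_all {M : Type} [Countable M] {P : M → (ℕ → Bx) → Prop} (h : ∀ m, DybSel Q (P m)) :
    DybSel Q fun Q' => ∀ m, P m Q' := by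
  rcases isEmpty_or_nonempty M with _ | _
  · exact (dyb_at_true Q).sel.mono fun _ _ _ m => isEmptyElim m
  · obtain ⟨f, hf⟩ := exists_surjective_nat (M × ℕ)
    choose R a b using h
    refine ⟨fun i => R (f i).1 (f i).2, fun i => a _ _, fun Q' c d m => b m Q' c fun i => ?_⟩
    obtain ⟨k, e⟩ := hf (m, i)
    have := d k
    simp only [e] at this
    exact this

theorem DybSel.and {P P' : (ℕ → Bx) → Prop} (h : DybSel Q P) (h' : DybSel Q P') :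
    DybSel Q fun Q' => P Q' ∧ P' Q' :=
  (dyb_all (P := fun b : Bool => cond b P P') fun b => by cases b <;> assumption).mono
    fun _ _ k => ⟨k true, k false⟩

theorem dyb_avg_sum {α : Type} (B : Bx) (S : Finset α) (f : α → Cell → ℝ) :
    B.avg (fun p => ∑ i ∈ S, f i p) = ∑ i ∈ S, B.avg (f i) := by
  unfold Bx.avg
  rw [sum_comm, sum_div]

theorem dyb_avg_sub (B : Bx) (f g : Cell → ℝ) :
    B.avg (fun p => f p - g p) = B.avg f - B.avg g := by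
  unfold Bx.avg
  rw [sum_sub_distrib, sub_div]

theorem dyb_avg_congr {B : Bx} {f g : Cell → ℝ} (h : ∀ p ∈ B.cells, f p = g p) :
    B.avg f = B.avg g := by
  unfold Bx.avg
  rw [sum_congr rfl h]

theorem dyb_geom (k : ℕ) : ∑ i ∈ range k, (1 / 2 ^ (i + 2) : ℝ) = 1 / 2 - 1 / 2 ^ (k + 1) := by
  induction k with
  | zero => norm_num
  | succ k ih =>
    rw [sum_range_succ, ih]
    field_simp
    ring

/-- master selection -/
theorem dyb_master (hj : Tendsto (fun n => (Q n).j) UU atTop) {P : (ℕ → Bx) → Prop}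
    (hP : DybSel Q P) {W : ℕ → Bx → Prop} (hW : Freq Q W) :
    ∃ Q', In Q' Q ∧ Tendsto (fun n => (Q' n).j) UU atTop ∧ (∀ᶠ n in UU, W n (Q' n)) ∧ P Q' := by
  obtain ⟨R, hR, hRP⟩ := hP
  obtain ⟨κ, hκ, hW⟩ := hW
  choose H H0 H1 H2 using fun i => hR i (κ * (1 / 2 ^ (i + 2))) (by positivity)
  have : ∀ m : ℕ, ∃ L, (∀ᶠ n in UU, κ ≤ (Q n).fr fun p => W n (anc L p)) ∧ m ≤ L ∧
      ∀ i ∈ range (m + 1), ∀ᶠ n in UU,
        (Q n).avg (fun p => H i n (anc L p)) ≤ κ * (1 / 2 ^ (i + 2)) := fun m =>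
    (hW.and_eventually ((eventually_ge_atTop m).and
      ((eventually_all_finset _).2 fun i _ => H1 i))).exists
  choose L L1 L2 L3 using this
  obtain ⟨k, k1, k2⟩ := UU_diag (P := fun m n => (κ ≤ (Q n).fr fun p => W n (anc (L m) p)) ∧
      L m ≤ (Q n).j ∧ ∀ i ∈ range (m + 1),
        (Q n).avg (fun p => H i n (anc (L m) p)) ≤ κ * (1 / 2 ^ (i + 2))) fun m =>
    (L1 m).and ((hj.eventually_ge_atTop _).and ((eventually_all_finset _).2 (L3 m)))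
  have : Inhabited Bx := ⟨⟨0, 0, 0⟩⟩
  obtain ⟨Q', hQ⟩ := UU_choose (P := fun n (B : Bx) => B.cells ⊆ (Q n).cells ∧ k n ≤ B.j ∧
      W n B ∧ ∀ i ∈ range (k n + 1), H i n B ≤ 1) (k2.mono fun n h => by
    obtain ⟨a, b, c⟩ := h _ le_rfl
    by_contra hc
    have h1 : (Q n).fr (fun p => W n (anc (L (k n)) p)) ≤
        (Q n).avg fun p => ∑ i ∈ range (k n + 1), H i n (anc (L (k n)) p) := by
      rw [fr_eq_avg]
      refine avg_mono fun p hp => ?_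
      unfold ind
      split_ifs with w
      · by_contra h2
        refine hc ⟨_, anc_sub b hp, L2 _, w, fun i hi => ?_⟩
        exact (single_le_sum (f := fun i => H i n (anc (L (k n)) p)) (fun i _ => H0 _ _ _)
          hi).trans (not_le.1 h2).le
      · exact sum_nonneg fun i _ => H0 _ _ _
    rw [dyb_avg_sum] at h1
    have h2 := (a.trans h1).trans (sum_le_sum c)
    rw [← mul_sum, dyb_geom] at h2
    have : (0 : ℝ) < 1 / 2 ^ (k n + 1 + 1) := by positivity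
    nlinarith)
  have hb : Tendsto (fun n => (Q' n).j) UU atTop :=
    tendsto_atTop_mono' _ (hQ.mono fun n h => h.2.1) k1
  refine ⟨Q', hQ.mono fun n h => h.1, hb, hQ.mono fun n h => h.2.2.1,
    hRP Q' hb fun i => H2 i Q' ?_⟩
  filter_upwards [hQ, k1.eventually_ge_atTop i] with n h e
  exact h.2.2.2 i (mem_range.2 (Nat.lt_succ_of_le e))

/-- a bounded family has a nearly minimal level -/
theorem dyb_plateau {e : ℕ → ℕ → ℝ} (he : ∀ l, ∃ b, ∀ᶠ n in UU, 0 ≤ e n l ∧ e n l ≤ b) {θ : ℝ}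
    (hθ : 0 < θ) : ∃ l0, ∀ L, ∀ᶠ n in UU, e n l0 - e n L ≤ θ := by
  choose b hb using he
  choose a a0 _ a2 using fun l => UU_lim (hb l)
  have hbd : BddBelow (Set.range a) := ⟨0, by rintro _ ⟨l, rfl⟩; exact a0 l⟩
  obtain ⟨l0, h⟩ := exists_lt_of_ciInf_lt (lt_add_of_pos_right (⨅ l, a l) hθ)
  refine ⟨l0, fun L => (((a2 l0).sub (a2 L)).eventually_lt_const ?_).mono fun n k => k.le⟩
  have := ciInf_le hbd L
  linarith

/-- vanishing averages are kept -/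
theorem dyb_van (hj : Tendsto (fun n => (Q n).j) UU atTop) {h : ℕ → ℕ → Cell → ℝ}
    (h0 : ∀ n c p, 0 ≤ h n c p) (hv : Van Q h) : DybSel Q fun Q' => Van Q' h := by
  have : ∀ r : ℕ, DybAt Q fun Q' => ∃ c, ∀ᶠ n in UU, (Q' n).avg (h n c) ≤ 1 / ((r : ℝ) + 1) := by
    intro r θ hθ
    have hr : (0 : ℝ) < r + 1 := by positivity
    obtain ⟨c, hc⟩ := hv (θ / (r + 1)) (by positivity)
    refine ⟨fun n B => (r + 1) * B.avg (h n c),
      fun n B => mul_nonneg hr.le (avg_nonneg fun p _ => h0 _ _ _), .of_forall fun L => ?_,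
      fun Q' k => ⟨c, k.mono fun n k => ?_⟩⟩
    · filter_upwards [hc, hj.eventually_ge_atTop L] with n a b
      rw [avg_mul, avg_anc b]
      rwa [le_div_iff₀' hr] at a
    · rwa [le_div_iff₀' hr]
  refine (dyb_all fun r => (this r).sel).mono fun Q' _ k θ hθ => ?_
  obtain ⟨r, hr⟩ := exists_nat_one_div_lt hθ
  obtain ⟨c, hc⟩ := k r
  exact ⟨c, hc.mono fun n k => k.trans hr.le⟩

theorem dyb_keep (hj : Tendsto (fun n => (Q n).j) UU atTop) {P : (ℕ → Bx) → Prop}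
    (h : Keep Q P) : DybSel Q P :=
  let ⟨_, a, b, c⟩ := h
  (dyb_all fun m => dyb_van hj (a m) (b m)).mono fun Q' _ k => c Q' k

/-- the gap in the inequality of Jensen can be made small -/
theorem dyb_jensen (hj : Tendsto (fun n => (Q n).j) UU atTop) {φ : ℝ → ℝ}
    (hφ : ConvexOn ℝ Set.univ φ) {f : ℕ → Cell → ℝ}
    (hb : ∀ l, ∃ b, ∀ᶠ n in UU, 0 ≤ (Q n).avg (fun p => φ ((anc l p).avg (f n))) ∧
      (Q n).avg (fun p => φ ((anc l p).avg (f n))) ≤ b) :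
    DybSel Q fun Q' => ∀ ε : ℝ, 0 < ε → ∃ l, ∀ᶠ n in UU,
      (Q' n).avg (fun p => φ ((anc l p).avg (f n))) ≤ φ ((Q' n).avg (f n)) + ε := by
  have : ∀ r : ℕ, DybAt Q fun Q' => ∃ l, ∀ᶠ n in UU,
      (Q' n).avg (fun p => φ ((anc l p).avg (f n))) ≤ φ ((Q' n).avg (f n)) + 1 / ((r : ℝ) + 1) := by
    intro r θ hθ
    have hr : (0 : ℝ) < r + 1 := by positivity
    obtain ⟨l, hl⟩ := dyb_plateau hb (θ := θ / (r + 1)) (by positivity)
    refine ⟨fun n B => (r + 1) * max 0 (B.avg (fun p => φ ((anc l p).avg (f n))) - φ (B.avg (f n))),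
      fun n B => mul_nonneg hr.le (le_max_left _ _), (eventually_ge_atTop l).mono fun L hL => ?_,
      fun Q' k => ⟨l, k.mono fun n k => ?_⟩⟩
    · filter_upwards [hl L, hj.eventually_ge_atTop L] with n a b
      rw [avg_mul, dyb_avg_congr (g := fun p => (anc L p).avg (fun p => φ ((anc l p).avg (f n))) -
        φ ((anc L p).avg (f n))) fun p _ => max_eq_right ?_, dyb_avg_sub, avg_anc b]
      · rwa [le_div_iff₀' hr] at a
      · have := avg_convex (Q := anc L p) hL le_rfl hφ (f n)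
        rw [dyb_avg_congr (g := fun _ => φ ((anc L p).avg (f n))) fun q hq => by
          rw [anc_eq le_rfl hq], avg_const] at this
        linarith
    · rw [← le_div_iff₀' hr] at k
      linarith [le_max_right 0 ((Q' n).avg (fun p => φ ((anc l p).avg (f n))) -
        φ ((Q' n).avg (f n)))]
  refine (dyb_all fun r => (this r).sel).mono fun Q' _ k θ hθ => ?_
  obtain ⟨r, hr⟩ := exists_nat_one_div_lt hθ
  obtain ⟨c, hc⟩ := k r
  exact ⟨c, hc.mono fun n k => k.trans (by linarith)⟩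

theorem dyb_var {B : Bx} {l : ℕ} (hl : l ≤ B.j) (f : Cell → ℝ) :
    B.avg (fun q => ((anc l q).avg f - B.avg f) ^ 2) =
      B.avg (fun q => (anc l q).avg f ^ 2) - B.avg f ^ 2 := by
  rw [dyb_avg_congr (g := fun q => ((anc l q).avg f ^ 2 + B.avg f ^ 2) -
    2 * B.avg f * (anc l q).avg f) fun q _ => by ring, dyb_avg_sub, avg_add, avg_const, avg_mul,
    avg_anc hl]
  ring

theorem dyb_pyth {B : Bx} {l L : ℕ} (hl : l ≤ L) (hL : L ≤ B.j) (f : Cell → ℝ) :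
    B.avg (fun q => ((anc l q).avg f - (anc L q).avg f) ^ 2) =
      B.avg (fun q => (anc l q).avg f ^ 2) - B.avg fun q => (anc L q).avg f ^ 2 := by
  rw [← avg_anc hL, ← avg_anc hL fun q => (anc l q).avg f ^ 2, ← dyb_avg_sub]
  refine dyb_avg_congr fun p _ => ?_
  rw [← dyb_var (B := anc L p) hl]
  exact dyb_avg_congr fun q hq => by rw [anc_eq le_rfl hq]

theorem dyb_abs_le (y : ℝ) {θ : ℝ} (hθ : 0 < θ) : |y| ≤ θ + 1 / θ * y ^ 2 := by
  rw [← sq_abs y, one_div_mul_eq_div, ← sub_le_iff_le_add', le_div_iff₀ hθ]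
  nlinarith [sq_nonneg (|y| - θ), abs_nonneg y, mul_nonneg (abs_nonneg y) hθ.le]

theorem dyb_avg_bd {B : Bx} {f : Cell → ℝ} {b : ℝ} (h : ∀ p, 0 ≤ f p ∧ f p ≤ b) :
    0 ≤ B.avg f ∧ B.avg f ≤ b :=
  ⟨avg_nonneg fun p _ => (h p).1, (avg_mono fun p _ => (h p).2).trans (avg_const _ _).le⟩

/-- local averages can be made constant -/
theorem dyb_dh (hj : Tendsto (fun n => (Q n).j) UU atTop) {g : ℕ → Cell → ℝ}
    (hg : ∀ n p, 0 ≤ g n p ∧ g n p ≤ 1) : DybSel Q fun Q' => ∃ γ, DH Q' g γ := by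
  refine (dyb_jensen hj (Even.convexOn_pow even_two) (f := g) fun l =>
    ⟨1, .of_forall fun n => dyb_avg_bd fun p => ?_⟩).mono fun Q' hb k => ?_
  · have := dyb_avg_bd (B := anc l p) (hg n)
    exact ⟨sq_nonneg _, pow_le_one₀ this.1 this.2⟩
  obtain ⟨γ, -, -, h⟩ := UU_lim (f := fun n => (Q' n).avg (g n))
    (.of_forall fun n => dyb_avg_bd (hg n))
  refine ⟨γ, fun θ hθ => ?_⟩
  have h3 : 0 < θ / 3 := by positivity
  obtain ⟨l, hl⟩ := k ((θ / 3) ^ 2) (by positivity)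
  refine ⟨l, ?_⟩
  filter_upwards [hl, hb.eventually_ge_atTop l, Metric.tendsto_nhds.1 h _ h3] with n a b c
  rw [Real.dist_eq] at c
  have e := dyb_var b (g n)
  calc _ ≤ (Q' n).avg fun p => (θ / 3 + θ / 3) +
        1 / (θ / 3) * ((anc l p).avg (g n) - (Q' n).avg (g n)) ^ 2 := avg_mono fun p _ => by
        have := dyb_abs_le ((anc l p).avg (g n) - (Q' n).avg (g n)) h3
        have := abs_sub_le ((anc l p).avg (g n)) ((Q' n).avg (g n)) γ
        linarith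
    _ ≤ θ := by
        rw [avg_add, avg_const, avg_mul, e]
        have : 1 / (θ / 3) * ((Q' n).avg (fun q => (anc l q).avg (g n) ^ 2) -
            (Q' n).avg (g n) ^ 2) ≤ θ / 3 := by
          rw [one_div_mul_eq_div, div_le_iff₀ h3]
          nlinarith
        linarith

theorem dyb_ind (P : Prop) : 0 ≤ ind P ∧ ind P ≤ 1 := by
  unfold ind
  split_ifs <;> norm_num

/-- tightness can be made uniform -/
theorem dyb_stight (hj : Tendsto (fun n => (Q n).j) UU atTop) {R : ℕ → ℕ → Cell → Prop}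
    (hR : Tight Q R) : DybSel Q fun Q' => STight Q' R := by
  refine ((dyb_keep hj (keep_tight hR)).and (dyb_all fun c => dyb_dh hj
    (g := fun n p => ind (¬ R n c p)) fun _ _ => dyb_ind _)).mono fun Q' hb k θ hθ => ?_
  obtain ⟨c, hc⟩ := k.1 θ hθ
  obtain ⟨γ, hγ⟩ := k.2 c
  have : γ ≤ θ := le_of_tendsto (hγ.lim hb) (hc.mono fun n h => by rwa [← fr_eq_avg])
  refine ⟨c, fun ε hε => ?_⟩
  obtain ⟨l, hl⟩ := hγ ε hε
  refine ⟨l, hl.mono fun n h => (avg_mono fun p _ => max_le (abs_nonneg _) ?_).trans h⟩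
  rw [fr_eq_avg]
  exact le_trans (by linarith) (le_abs_self _)

/-- stabilisation of decreasing integer valued quantities -/
theorem dyb_wit {M : Type} [Countable M] (Q : ℕ → Bx) (φ : M → ℕ → Cell → ℕ → ℕ) (b : M → ℕ)
    (hb : ∀ m n p r, φ m n p r ≤ b m) (hφ : ∀ m n p, Antitone (φ m n p)) :
    ∃ ℓ : ℕ → ℕ, Tendsto ℓ UU atTop ∧
      ∀ m, Tight Q fun n r p => r ≤ ℓ n ∧ φ m n p r = φ m n p (ℓ n) := by
  obtain ⟨e, he⟩ := exists_injective_nat (M × ℕ)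
  choose r0 hr using fun x : M × ℕ => dyb_plateau
    (e := fun n r => (Q n).avg fun p => (φ x.1 n p r : ℝ)) (fun l => ⟨b x.1, .of_forall fun n =>
      dyb_avg_bd fun p => ⟨Nat.cast_nonneg _, Nat.cast_le.2 (hb _ _ _ _)⟩⟩)
    (θ := 1 / ((x.2 : ℝ) + 1)) (by positivity)
  obtain ⟨k, k1, k2⟩ := UU_diag (P := fun i n => ∀ x ∈ e ⁻¹' Set.Iic i,
      ((Q n).avg fun p => (φ x.1 n p (r0 x) : ℝ)) - ((Q n).avg fun p => (φ x.1 n p i : ℝ)) ≤
        1 / ((x.2 : ℝ) + 1)) fun i =>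
    (eventually_all_finite ((Set.finite_Iic i).preimage he.injOn)).2 fun x _ => hr x i
  refine ⟨k, k1, fun m θ hθ => ?_⟩
  obtain ⟨r, h⟩ := exists_nat_one_div_lt hθ
  refine ⟨r0 (m, r), ?_⟩
  filter_upwards [k2, k1.eventually_ge_atTop (e (m, r)), k1.eventually_ge_atTop (r0 (m, r))]
    with n a b c
  refine le_trans ?_ ((a _ le_rfl (m, r) b).trans h.le)
  rw [fr_eq_avg, ← dyb_avg_sub]
  refine avg_mono fun p _ => ?_
  have := hφ m n p c
  unfold ind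
  split_ifs with w
  · exact sub_nonneg.2 (Nat.cast_le.2 this)
  · have : φ m n p (k n) + 1 ≤ φ m n p (r0 (m, r)) :=
      lt_of_le_of_ne this fun w' => w ⟨c, w'.symm⟩
    exact le_sub_iff_add_le'.2 (by exact_mod_cast this)

end Pool.Agent.MP_38296a_co.H21

end FileDyB1

section FileDyB2

set_option autoImplicit false

namespace Pool.Agent.MP_38296a_co.H21

open Finset Filter Classical

/-! ### Selectable properties of arrangements -/

/-- integers close to a real number -/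
theorem dyb_rows (S : Finset ℤ) (c : ℝ) {ρ : ℝ} (hρ : 0 ≤ ρ) :
    ∑ v ∈ S, ind (|c - v| ≤ ρ) ≤ 2 * ρ + 1 := by
  rw [← cnt_eq_sum]
  have h := (cnt_mono (S := S) (S' := Icc ⌈c - ρ⌉ ⌊c + ρ⌋) (P := fun v : ℤ => |c - v| ≤ ρ)
    (P' := fun _ => True) fun v _ hv => by
      have := abs_le.1 hv
      exact ⟨mem_Icc.2 ⟨Int.ceil_le.2 (by linarith), Int.le_floor.2 (by linarith)⟩, trivial⟩).trans
    (cnt_le_card _ _)
  rw [Int.card_Icc] at h
  have h1 : ((⌊c + ρ⌋ + 1 - ⌈c - ρ⌉).toNat : ℝ) ≤ 2 * ρ + 1 := by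
    rcases le_total (⌊c + ρ⌋ + 1 - ⌈c - ρ⌉) 0 with e | e
    · rw [Int.toNat_eq_zero.2 e]
      push_cast
      linarith
    · rw [← Int.cast_natCast, Int.toNat_of_nonneg e]
      push_cast
      linarith [Int.floor_le (c + ρ), Int.le_ceil (c - ρ)]
  exact h.trans h1

theorem dyb_card_Ico (u : ℤ) (j : ℕ) : (#(Ico (u * 2 ^ j) ((u + 1) * 2 ^ j)) : ℝ) = 2 ^ j := by
  rw [Int.card_Ico, show (u + 1) * 2 ^ j - u * 2 ^ j = ((2 ^ j : ℕ) : ℤ) by push_cast; ring,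
    Int.toNat_natCast]
  push_cast
  rfl

theorem dyb_four (j : ℕ) : (4 : ℝ) ^ j = 2 ^ j * 2 ^ j := by
  rw [← mul_pow]
  norm_num

theorem dyb_col (B : Bx) (F : ℤ → ℝ) :
    ∑ p ∈ B.cells, F p.1 = 2 ^ B.j * ∑ u ∈ Ico (B.u * 2 ^ B.j) ((B.u + 1) * 2 ^ B.j), F u := by
  unfold Bx.cells
  rw [sum_product, mul_sum]
  refine sum_congr rfl fun u _ => ?_
  simp only [sum_const, nsmul_eq_mul, dyb_card_Ico]

section
variable {ι : Type} {A : Arr ι}

/-- sums along one line -/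
theorem dyb_line (B : Bx) (a : ι) {F : ℤ → ℝ} (hF : ∀ u, 0 ≤ F u) {ρ : ℝ} (hρ : 0 ≤ ρ) :
    B.avg (fun p => ind (|A.ht p a| ≤ ρ) * F p.1) ≤
      (2 * ρ + 1) / 2 ^ B.j * B.avg fun p => F p.1 := by
  unfold Bx.avg
  rw [dyb_col, ← mul_div_assoc, ← mul_assoc, div_mul_cancel₀ _ (by positivity), mul_sum]
  refine div_le_div_of_nonneg_right ?_ (by positivity)
  unfold Bx.cells
  rw [sum_product]
  refine sum_le_sum fun u _ => ?_
  simp only [Arr.ht]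
  rw [← sum_mul]
  exact mul_le_mul_of_nonneg_right (dyb_rows _ _ hρ) (hF u)

/-- sums along all lines -/
theorem dyb_lines (h : A.Ok) {B : Bx} {l : ℕ} (hl : l + 4 ≤ B.j) {F : ι → ℤ → ℝ}
    (hF : ∀ a u, 0 ≤ F a u) {ρ : ℝ} (hρ : 0 ≤ ρ) (hρ' : ρ ≤ 9 * 2 ^ l) :
    B.avg (fun p => ∑ a ∈ lines A.T with |A.ht p a| ≤ ρ, F a p.1) ≤ (2 * ρ + 1) / 2 ^ B.j *
      ∑ a ∈ lines A.T with |A.ht B.o a| ≤ 3 * 2 ^ B.j, B.avg fun p => F a p.1 := by
  rw [mul_sum]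
  refine le_trans ?_ (sum_le_sum fun a _ => dyb_line (A := A) B a (hF a) hρ)
  rw [← dyb_avg_sum]
  refine avg_mono fun p hp => ?_
  calc _ = ∑ a ∈ lines A.T with |A.ht p a| ≤ ρ, ind (|A.ht p a| ≤ ρ) * F a p.1 :=
        sum_congr rfl fun a ha => by rw [ind, if_pos (mem_filter.1 ha).2, one_mul]
    _ ≤ _ := sum_le_sum_of_subset_of_nonneg (fun a ha => by
        obtain ⟨a1, a2⟩ := mem_filter.1 ha
        exact mem_filter.2 ⟨a1, h.ht_top hp hl a1 (a2.trans hρ')⟩)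
        fun a _ _ => mul_nonneg (dyb_ind _).1 (hF _ _)

theorem dyb_nl_sum (ρ : ℝ) (p : Cell) (c : ℝ) :
    ∑ _a ∈ lines A.T with |A.ht p _a| ≤ ρ, c = A.nl ρ p * c := by
  rw [sum_const, nsmul_eq_mul, Arr.nl, cnt]

theorem dyb_nl (h : A.Ok) {B : Bx} {l : ℕ} (hl : l + 4 ≤ B.j) {ρ : ℝ} (hρ : 0 ≤ ρ)
    (hρ' : ρ ≤ 9 * 2 ^ l) {K : ℝ} (hK : A.nl (3 * 2 ^ B.j) B.o ≤ K * 2 ^ B.j) :
    B.avg (A.nl ρ) ≤ (2 * ρ + 1) * K := by
  have := dyb_lines h hl (F := fun _ _ => 1) (fun _ _ => zero_le_one) hρ hρ'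
  simp only [avg_const, dyb_nl_sum, mul_one] at this
  refine this.trans ((mul_le_mul_of_nonneg_left hK (by positivity)).trans_eq ?_)
  field_simp

theorem dyb_o_mem (B : Bx) : B.o ∈ B.cells := by
  have : (0 : ℤ) < 2 ^ B.j := by positivity
  simp only [Bx.cells, Bx.o, mem_product, mem_Ico, le_refl, true_and, add_mul, one_mul]
  constructor <;> linarith

theorem dyb_nl_o (h : A.Ok) (l : ℕ) (p : Cell) :
    A.nl (3 * 2 ^ l) (anc l p).o ≤ A.nl (6 * 2 ^ l) p := by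
  refine cnt_mono fun a ha k => ⟨ha, ?_⟩
  obtain ⟨e1, e2⟩ := anc_close (dyb_o_mem (anc l p))
  rw [abs_sub_comm] at e1 e2
  have e1' : |(p.1 : ℝ) - (anc l p).o.1| ≤ 2 ^ l := by exact_mod_cast e1.le
  have e2' : |(p.2 : ℝ) - (anc l p).o.2| ≤ 2 ^ l := by exact_mod_cast e2.le
  have e3 : |A.x a * ((p.1 : ℝ) - (anc l p).o.1)| ≤ 11 / 10 * 2 ^ l := by
    rw [abs_mul]
    exact mul_le_mul (h.x_bd ha) e1' (abs_nonneg _) (by norm_num)
  rw [ht_shift (anc l p).o p]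
  have : (0 : ℝ) < 2 ^ l := by positivity
  rw [abs_le] at *
  constructor <;> linarith [k.1, k.2, e2'.1, e2'.2, e3.1, e3.2]

theorem dyb_dg (l : ℕ) (a : ι) (p : Cell) :
    A.dg l a p.1 = (anc l p).avg fun q => A.dg 0 a q.1 := by
  unfold Bx.avg
  rw [dyb_col (anc l p) fun u => A.dg 0 a u]
  simp only [anc, Arr.dg, dyb_four, pow_zero, div_one, Int.ediv_one, cnt_eq_sum]
  rw [mul_div_mul_left _ _ (by positivity), sum_comm]
  congr 1
  refine sum_congr rfl fun t _ => ?_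
  have h2 : (0 : ℤ) < 2 ^ l := by positivity
  have : (A.loc t).1 ∈ Ico (p.1 / 2 ^ l * 2 ^ l) ((p.1 / 2 ^ l + 1) * 2 ^ l) ↔
      (A.loc t).1 / 2 ^ l = p.1 / 2 ^ l := by
    rw [mem_Ico, ← Int.le_ediv_iff_mul_le h2, ← Int.ediv_lt_iff_lt_mul h2]
    omega
  by_cases e : ∃ i, t i = a
  · simp only [ind, e, true_and, sum_ite_eq, this]
  · simp [ind, e]

end

variable {A : ℕ → Arr ℕ} {Q : ℕ → Bx}

theorem Val.dyb_few (h : Val A Q) : ∃ K : ℝ, 0 < K ∧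
    ∀ᶠ n in UU, (A n).nl (3 * 2 ^ (Q n).j) (Q n).o ≤ K * 2 ^ (Q n).j :=
  let ⟨K, a, b⟩ := h.lines_le
  ⟨K, by linarith, b.mono fun _ k => k.2⟩

theorem dyb_val (h : Val A Q) : DybSel Q fun Q' => Val A Q' := by
  have : DybAt Q fun Q' => ∃ K : ℝ, ∀ᶠ n in UU,
      (A n).nl (3 * 2 ^ (Q' n).j) (Q' n).o ≤ K * 2 ^ (Q' n).j := by
    intro θ hθ
    obtain ⟨K, hK, k⟩ := h.dyb_few
    refine ⟨fun n B => θ / (13 * K) / 2 ^ B.j * (A n).nl (3 * 2 ^ B.j) B.o,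
      fun n B => mul_nonneg (by positivity) (cnt_nonneg _ _), .of_forall fun L => ?_,
      fun Q' k => ⟨13 * K / θ, k.mono fun n k => ?_⟩⟩
    · filter_upwards [k, h.big.eventually_ge_atTop (L + 4)] with n a b
      have h2 : (1 : ℝ) ≤ 2 ^ L := one_le_pow₀ one_le_two
      have e := (avg_mono fun p _ => dyb_nl_o (h.ok n) L p).trans
        (dyb_nl (h.ok n) b (ρ := 6 * 2 ^ L) (by positivity) (by linarith) a)
      change (Q n).avg (fun p => θ / (13 * K) / 2 ^ L * (A n).nl (3 * 2 ^ L) (anc L p).o) ≤ θ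
      rw [avg_mul]
      calc _ ≤ θ / (13 * K) / 2 ^ L * (13 * 2 ^ L * K) :=
            mul_le_mul_of_nonneg_left (e.trans (by nlinarith)) (by positivity)
        _ = θ := by field_simp
    · rw [← le_div_iff₀' (by positivity)] at k
      refine k.trans_eq ?_
      field_simp
  exact this.sel.mono fun Q' b k => ⟨h.ok, b, k⟩

theorem dyb_exc (h : Val A Q) : DybSel Q fun Q' => ∃ K, Exc A Q' K := by
  have : ∀ K : ℕ, ConvexOn ℝ Set.univ fun y : ℝ => max 0 (y - K) := fun K =>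
    (convexOn_const 0 convex_univ).sup ((convexOn_id convex_univ).sub
      (concaveOn_const (K : ℝ) convex_univ))
  obtain ⟨K0, hK, k0⟩ := h.dyb_few
  refine ((dyb_val h).and (dyb_all fun K : ℕ => dyb_jensen h.big (this K)
    (f := fun n => (A n).nl 1) fun l => ⟨3 * K0, ?_⟩)).mono fun Q' hb k => ?_
  · filter_upwards [k0, h.big.eventually_ge_atTop (l + 4)] with n a b
    refine ⟨avg_nonneg fun p _ => le_max_left _ _, (avg_mono (g := fun p =>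
      (anc l p).avg ((A n).nl 1)) fun p _ => max_le (avg_nonneg fun _ _ => cnt_nonneg _ _)
        (sub_le_self _ (Nat.cast_nonneg _))).trans ?_⟩
    rw [avg_anc (by omega)]
    have h2 : (1 : ℝ) ≤ 2 ^ l := one_le_pow₀ one_le_two
    exact (dyb_nl (h.ok n) b zero_le_one (by linarith) a).trans_eq (by norm_num)
  obtain ⟨K1, -, k1⟩ := k.1.dyb_few
  obtain ⟨K, hK⟩ := exists_nat_ge (3 * K1)
  refine ⟨K, fun θ hθ => ?_⟩
  obtain ⟨l, hl⟩ := k.2 K θ hθ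
  refine ⟨l, ?_⟩
  filter_upwards [hl, k1, hb.eventually_ge_atTop (0 + 4)] with n a b c
  have := dyb_nl (h.ok n) c zero_le_one (by norm_num) b
  rw [max_eq_left (by linarith), zero_add] at a
  exact a

theorem dyb_ld (h : Val A Q) : DybSel Q fun Q' => ∃ d, Ld A Q' d := by
  have : ∀ r : ℕ, DybAt Q fun Q' => ∃ l, ∀ᶠ n in UU, (Q' n).avg
      ((A n).ldv (fun a => (A n).dg (Q' n).j a (Q' n).o.1) l) ≤ 1 / ((r : ℝ) + 1) := by
    intro r θ hθ
    have hr : (0 : ℝ) < r + 1 := by positivity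
    obtain ⟨K, hK, k⟩ := h.dyb_few
    obtain ⟨η, hη, e⟩ : ∃ η : ℝ, 0 < η ∧ (r + 1) * (3 * (η * K + η)) = θ :=
      ⟨θ / (3 * (r + 1) * (K + 1)), by positivity, by field_simp⟩
    obtain ⟨l, hl⟩ := dyb_plateau (e := fun n l => 1 / 2 ^ (Q n).j *
      ∑ a ∈ lines (A n).T with |(A n).ht (Q n).o a| ≤ 3 * 2 ^ (Q n).j,
        (Q n).avg fun p => (A n).dg l a p.1 ^ 2) (fun l => ⟨4 * K, k.mono fun n k => by
          have b : ∀ a, 0 ≤ ((Q n).avg fun p => (A n).dg l a p.1 ^ 2) ∧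
              ((Q n).avg fun p => (A n).dg l a p.1 ^ 2) ≤ 4 := fun a => dyb_avg_bd fun p => by
            have := (h.ok n).dg_le l a p.1
            exact ⟨sq_nonneg _, by nlinarith⟩
          refine ⟨mul_nonneg (by positivity) (sum_nonneg fun a _ => (b a).1), ?_⟩
          rw [one_div_mul_eq_div, div_le_iff₀ (by positivity)]
          refine (sum_le_sum fun a _ => (b a).2).trans ?_
          rw [dyb_nl_sum]
          linarith⟩) (θ := η ^ 2) (by positivity)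
    refine ⟨fun n B => (r + 1) * B.avg ((A n).ldv (fun a => (A n).dg B.j a B.o.1) l),
      fun n B => mul_nonneg hr.le (avg_nonneg fun p _ => sum_nonneg fun a _ => abs_nonneg _),
      (eventually_ge_atTop l).mono fun L hL => ?_, fun Q' k => ⟨l, k.mono fun n k => ?_⟩⟩
    · filter_upwards [hl L, k, h.big.eventually_ge_atTop (L + 4)] with n a b c
      have e0 : ∀ p, (anc L p).avg ((A n).ldv (fun a => (A n).dg (anc L p).j a (anc L p).o.1) l) =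
          (anc L p).avg fun q => ∑ a ∈ lines (A n).T with |(A n).ht q a| ≤ 1,
            |(A n).dg l a q.1 - (A n).dg L a q.1| :=
        fun p => dyb_avg_congr fun q hq => sum_congr rfl fun a _ => by
          change |_ - (A n).dg L a (anc L p).o.1| = _
          rw [dyb_dg L a q, dyb_dg L a (anc L p).o, anc_eq le_rfl hq,
            anc_eq le_rfl (dyb_o_mem (anc L p))]
      simp only [e0]
      rw [avg_mul, avg_anc (by omega), ← e]
      refine mul_le_mul_of_nonneg_left ?_ hr.le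
      have h2 : (1 : ℝ) ≤ 2 ^ L := one_le_pow₀ one_le_two
      refine (dyb_lines (h.ok n) c (F := fun a u => |(A n).dg l a u - (A n).dg L a u|)
        (fun _ _ => abs_nonneg _) zero_le_one (by linarith)).trans ?_
      have e1 : ∀ a, ((Q n).avg fun p => |(A n).dg l a p.1 - (A n).dg L a p.1|) ≤ η + 1 / η *
          (((Q n).avg fun p => (A n).dg l a p.1 ^ 2) - (Q n).avg fun p => (A n).dg L a p.1 ^ 2) :=
        fun a => by
          refine (avg_mono fun p _ => dyb_abs_le _ hη).trans_eq ?_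
          rw [avg_add, avg_const, avg_mul]
          simp only [dyb_dg l, dyb_dg L]
          rw [dyb_pyth hL (by omega)]
      have e2 := sum_le_sum (s := {a ∈ lines (A n).T | |(A n).ht (Q n).o a| ≤ 3 * 2 ^ (Q n).j})
        fun a _ => e1 a
      rw [sum_add_distrib, dyb_nl_sum, ← mul_sum, sum_sub_distrib] at e2
      rw [← mul_sub, one_div_mul_eq_div, div_le_iff₀ (by positivity)] at a
      have e3 := mul_le_mul_of_nonneg_left a (one_div_pos.2 hη).le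
      have e4 : 1 / η * (η ^ 2 * 2 ^ (Q n).j) = η * 2 ^ (Q n).j := by field_simp
      rw [div_mul_eq_mul_div, div_le_iff₀ (by positivity)]
      nlinarith [mul_le_mul_of_nonneg_right b hη.le]
    · rwa [le_div_iff₀' hr]
  refine (dyb_all fun r => (this r).sel).mono fun Q' _ k =>
    ⟨fun n a => (A n).dg (Q' n).j a (Q' n).o.1, fun θ hθ => ?_⟩
  obtain ⟨r, hr⟩ := exists_nat_one_div_lt hθ
  obtain ⟨c, hc⟩ := k r
  exact ⟨c, hc.mono fun n k => k.trans hr.le⟩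

end Pool.Agent.MP_38296a_co.H21

end FileDyB2

section FileDyB

set_option autoImplicit false

namespace Pool.Agent.MP_38296a_co.H21

open Finset Filter Classical

/-! ### Selection -/

/-- selection of sub-boxes -/
theorem sel {M M' : Type} [Countable M] [Countable M'] {A : ℕ → Arr ℕ} {Q : ℕ → Bx}
    {P : (ℕ → Bx) → Prop} {W : ℕ → Bx → Prop} (hV : Val A Q) (hK : Keep Q P) (hW : Freq Q W)
    (g : M → ℕ → Cell → ℝ) (hg : ∀ m n p, 0 ≤ g m n p ∧ g m n p ≤ 1)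
    (R : M' → ℕ → ℕ → Cell → Prop) (hR : ∀ m, Tight Q (R m)) :
    ∃ Q', In Q' Q ∧ Val A Q' ∧ P Q' ∧ (∀ᶠ n in UU, W n (Q' n)) ∧ (∀ m, ∃ γ, DH Q' (g m) γ) ∧
      ∀ m, STight Q' (R m) :=
  let ⟨Q', a, _, b, c, d, e, f⟩ := dyb_master hV.big ((dyb_val hV).and ((dyb_keep hV.big hK).and
    ((dyb_all fun m => dyb_dh hV.big (hg m)).and (dyb_all fun m => dyb_stight hV.big (hR m))))) hW
  ⟨Q', a, c, d, b, e, f⟩

/-- selection of a homogeneous state -/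
theorem mk_good {M' : Type} [Countable M'] {A : ℕ → Arr ℕ} {Q : ℕ → Bx} {P : (ℕ → Bx) → Prop}
    (hV : Val A Q) (hD : Dens A Q) (hK : Keep Q P) (R : M' → ℕ → ℕ → Cell → Prop)
    (hR : ∀ m, Tight Q (R m)) :
    ∃ Q', In Q' Q ∧ Good A Q' ∧ P Q' ∧ ∀ m, STight Q' (R m) := by
  obtain ⟨δ, hδ, hf⟩ := hD.freq hV
  obtain ⟨Q', a, hb, b, c, d, ⟨γ, e⟩, f, g, k⟩ := dyb_master hV.big ((dyb_val hV).and
    ((dyb_keep hV.big hK).and ((dyb_dh hV.big (g := fun n => (A n).occ) fun _ _ => dyb_ind _).and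
      ((dyb_all fun m => dyb_stight hV.big (hR m)).and ((dyb_exc hV).and (dyb_ld hV))))))
    (W := fun n B => δ * 4 ^ B.j ≤ #((A n).TB B)) ⟨δ, hδ, hf.frequently⟩
  refine ⟨Q', a, ⟨c, ⟨γ, hδ.trans_le (ge_of_tendsto (e.lim hb) (b.mono fun n h => ?_)), e⟩, g, k⟩,
    d, f⟩
  rwa [(hV.ok n).card_TB, ← le_div_iff₀ (by positivity)] at h

/-- stabilisation of decreasing integer valued quantities -/
theorem wit {M : Type} [Countable M] (Q : ℕ → Bx) (φ : M → ℕ → Cell → ℕ → ℕ) (b : M → ℕ)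
    (hb : ∀ m n p r, φ m n p r ≤ b m) (hφ : ∀ m n p, Antitone (φ m n p)) :
    ∃ ℓ : ℕ → ℕ, Tendsto ℓ UU atTop ∧
      ∀ m, Tight Q fun n r p => r ≤ ℓ n ∧ φ m n p r = φ m n p (ℓ n) :=
  dyb_wit Q φ b hb hφ

end Pool.Agent.MP_38296a_co.H21

end FileDyB

end
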