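import Pool.Agent.MP_38296a_co.Mg.H21_Arch
import Pool.Agent.MP_38296a_co.Mg.H21_Comb

-- part MP_38296a_co.H21.FldA
section

section FileBnd1

set_option autoImplicit false

namespace Pool.Agent.MP_38296a_co.H21

open Finset Filter Classical

variable {ι : Type} {A : Arr ι} {Q : Bx} {l : ℕ}

theorem bnd_most {α : Type} {S : Finset α} {P P1 P2 : α → Prop} {d : ℝ} (hd : 0 ≤ d)
    (h : ∀ a ∈ S, ¬ P1 a → ¬ P2 a → P a) (h0 : d ≤ #S) (h1 : cnt S P1 ≤ d / 100)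
    (h2 : cnt S P2 ≤ d / 100) : d / 2 ≤ cnt S P := by
  have a1 := cnt_add_not S P
  have a2 : cnt S (fun a => ¬ P a) ≤ cnt S P1 + cnt S P2 := cnt_or fun a ha hn => by
    by_contra hc
    rw [not_or] at hc
    exact hn (h a ha hc.1 hc.2)
  linarith

theorem bnd_dot {m : ℕ} (v u : Fin m → ℝ) : |v ⬝ᵥ u| ≤ m * (‖v‖ * ‖u‖) := by
  refine (abs_sum_le_sum_abs _ _).trans ?_
  have : ∑ i, |v i * u i| ≤ ∑ _i : Fin m, ‖v‖ * ‖u‖ := sum_le_sum fun i _ => by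
    rw [abs_mul]
    exact mul_le_mul (norm_le_pi_norm v i) (norm_le_pi_norm u i) (abs_nonneg _) (norm_nonneg _)
  simpa using this

theorem bnd_ker {m : ℕ} {x : ι → ℝ} {T : Finset (Tri ι)} {g : ι → Fin m → ℝ}
    (h : ∀ e, (fun a => g a e) ∈ Ker x T) (v : Fin m → ℝ) {t : Tri ι} (ht : t ∈ T) :
    Om x (fun a => v ⬝ᵥ g a) t = 0 := by
  have : Om x (fun a => v ⬝ᵥ g a) t = ∑ e, v e * Om x (fun a => g a e) t := by
    simp only [Om, dotProduct, mul_sum]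
    rw [sum_comm]
    exact sum_congr rfl fun e _ => sum_congr rfl fun i _ => by ring
  rw [this]
  exact sum_eq_zero fun e _ => by rw [h e t ht, mul_zero]

theorem bnd_third (h : A.Ok) {t : Tri ι} (ht : t ∈ A.T) {f : ι → ℝ} (hf : Om A.x f t = 0)
    {β : Fin 3} {b : ℝ} (hb : ∀ i, i ≠ β → |f (t i)| ≤ b) : |f (t β)| ≤ 6 * b := by
  rw [Om, Fin.sum_univ_succAbove _ β, Fin.sum_univ_two] at hf
  have key : ∀ k : Fin 2, |co A.x t (β.succAbove k) * f (t (β.succAbove k))| ≤ 11 / 5 * b :=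
    fun k => by
      rw [abs_mul]
      exact mul_le_mul (h.co_bd ht _).2 (hb _ (Fin.succAbove_ne _ _)) (abs_nonneg _) (by norm_num)
  have h1 : |co A.x t β * f (t β)| ≤ 11 / 5 * b + 11 / 5 * b := by
    rw [eq_neg_of_add_eq_zero_left hf, abs_neg]
    exact (abs_add_le _ _).trans (add_le_add (key 0) (key 1))
  have h2 := mul_le_mul_of_nonneg_right (h.co_bd ht β).1 (abs_nonneg (f (t β)))
  have h3 := (abs_nonneg _).trans (hb _ (Fin.succAbove_ne β 0))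
  rw [abs_mul] at h1
  linarith

theorem bnd_gap (h : A.Ok) {t u : Tri ι} (ht : t ∈ A.T) (hu : u ∈ A.T) {i j : Fin 3}
    (hij : i ≠ j) : 4 / 5 ≤ |A.x (t i) - A.x (u j)| := by
  have h1 := abs_le.1 (h.sep t ht i)
  have h2 := abs_le.1 (h.sep u hu j)
  rcases lt_or_gt_of_ne hij with k | k
  · have : ((i : ℕ) : ℝ) + 1 ≤ (j : ℕ) := by exact_mod_cast k
    exact le_abs.2 (Or.inr (by linarith))
  · have : ((j : ℕ) : ℝ) + 1 ≤ (i : ℕ) := by exact_mod_cast k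
    exact le_abs.2 (Or.inl (by linarith))

theorem bnd_near {p : Cell} {a : ι} {c : ℝ} (h : |A.ht p a| ≤ c * 2 ^ Q.j) :
    |A.hu Q a + A.x a * (Q.z p).1 - (Q.z p).2| ≤ c := by
  have hJ : (0 : ℝ) < 2 ^ Q.j := by positivity
  rw [ht_z A Q, abs_mul, abs_of_pos hJ, mul_comm c] at h
  exact le_of_mul_le_mul_left h hJ

/-- the band of a line through the central part has many cells -/
theorem bnd_band {a : ι} (hx : |A.x a| ≤ 11 / 10) (hl : (1000 : ℝ) * 2 ^ l ≤ 2 ^ Q.j) {p : Cell}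
    (hz : Q.z p ∈ Cen (1 / 8)) (hp : |A.ht p a| ≤ 9 * 2 ^ l) :
    1 / 32 * 2 ^ Q.j * 2 ^ l ≤ cnt Q.cells fun q => |A.ht q a| ≤ 2 ^ l := by
  have h0 : (0 : ℝ) < 2 ^ l := by positivity
  by_contra hc
  obtain ⟨q, -, -, h, -⟩ := band_pick (A := A) (Q := Q) (a := a) (l := l) (Bad := fun _ => True)
    (ρ := 1 / 32) (z := Q.z p) hx (by norm_num; simpa using hz) (by linarith)
    (bnd_near (by linarith)) (lt_of_le_of_lt (cnt_mono fun q hq k => ⟨hq, k.1⟩) (not_le.1 hc))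
  exact h trivial

theorem bnd_TW {p : Cell} (h : Wn p l ⊆ Q.cells) : A.TW p l ⊆ A.TB Q := fun t ht => by
  obtain ⟨h1, h2, h3⟩ := baseb_mem_TW.1 ht
  have h0 : (0 : ℤ) < 2 ^ l := by positivity
  rw [abs_le] at h2 h3
  exact baseb_mem_TB.2 ⟨h1, h (baseb_mem_Wn.2 ⟨by omega, by omega, by omega, by omega⟩)⟩

/-- a reliable line carries many triples -/
theorem bnd_rich {a : ι} (hx : |A.x a| ≤ 11 / 10) (hl : (1000 : ℝ) * 2 ^ l ≤ 2 ^ Q.j) {p : Cell}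
    (hz : Q.z p ∈ Cen (1 / 8)) (hp : |A.ht p a| ≤ 9 * 2 ^ l) {bad : Cell → Prop}
    (hb : ∀ q, ¬ bad q → Wn q l ⊆ Q.cells) {θ1 : ℝ} (h1 : 0 ≤ θ1)
    (ha : cnt Q.cells (fun q => |A.ht q a| ≤ 2 ^ l ∧
      (bad q ∨ cnt (A.TW q l) (fun t => ∃ i, t i = a) < θ1 * 2 ^ l)) ≤ 1 / 64 * 2 ^ Q.j * 2 ^ l) :
    θ1 * 2 ^ Q.j ≤ 2112 * cnt (A.TB Q) fun t => ∃ i, t i = a := by
  have h0 : (0 : ℝ) < 2 ^ l := by positivity
  set U := Q.cells.filter fun q => ¬ bad q ∧ θ1 * 2 ^ l ≤ cnt (A.TW q l) fun t => ∃ i, t i = a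
    with hU
  have a1 : cnt Q.cells (fun q => |A.ht q a| ≤ 2 ^ l) ≤ cnt Q.cells (fun q => |A.ht q a| ≤ 2 ^ l ∧
      (bad q ∨ cnt (A.TW q l) (fun t => ∃ i, t i = a) < θ1 * 2 ^ l)) + cnt Q.cells (· ∈ U) :=
    cnt_or fun q hq k => by
      by_cases k1 : bad q ∨ cnt (A.TW q l) (fun t => ∃ i, t i = a) < θ1 * 2 ^ l
      · exact Or.inl ⟨k, k1⟩
      · rw [not_or, not_lt] at k1
        exact Or.inr (mem_filter.2 ⟨hq, k1⟩)
  have a2 : cnt Q.cells (· ∈ U) ≤ #U := baseb_cnt_inj id (fun _ _ k => k) fun _ _ _ _ _ _ k => k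
  have a3 : 1 / 64 * 2 ^ Q.j * 2 ^ l ≤ (#U : ℝ) := by linarith [bnd_band hx hl hz hp]
  have a4 : (#U : ℝ) * (θ1 * 2 ^ l) ≤ ∑ q ∈ U, cnt (A.TW q l) fun t => ∃ i, t i = a := by
    rw [← nsmul_eq_mul]
    exact card_nsmul_le_sum _ _ _ fun q hq => (mem_filter.1 hq).2.2
  have a5 := dc_up (A := A) U l fun t => ∃ i, t i = a
  have a6 : cnt A.T (fun t => (∃ i, t i = a) ∧ ∃ q ∈ U, t ∈ A.TW q l) ≤
      cnt (A.TB Q) fun t => ∃ i, t i = a := cnt_mono fun t _ k => by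
    obtain ⟨k1, q, hq, k2⟩ := k
    exact ⟨bnd_TW (hb q (mem_filter.1 hq).2.1) k2, k1⟩
  have a7 := mul_le_mul_of_nonneg_right a3 (mul_nonneg h1 h0.le)
  have a8 := mul_le_mul_of_nonneg_left a6 (by positivity : (0 : ℝ) ≤ 33 * 4 ^ l)
  have e : (4 : ℝ) ^ l = 2 ^ l * 2 ^ l := by rw [← mul_pow]; norm_num
  have a9 : 2 ^ l * 2 ^ l * (θ1 * 2 ^ Q.j) ≤
      2 ^ l * 2 ^ l * (2112 * cnt (A.TB Q) fun t => ∃ i, t i = a) := by
    rw [e] at a5 a8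
    linarith
  exact le_of_mul_le_mul_left a9 (by positivity)

/-- few lines are rich in exceptional triples -/
theorem bnd_card {T : Finset (Tri ι)} {B : Finset ι} {R : ι → Prop} {c : ℝ}
    (h1 : ∀ a ∈ B, R a) (h2 : ∀ a ∈ B, c ≤ cnt T fun t => ∃ i, t i = a) :
    #B * c ≤ 3 * cnt T fun t => ∃ i, R (t i) := by
  have a1 : (#B : ℝ) * c ≤ ∑ a ∈ B, cnt T fun t => ∃ i, t i = a := by
    rw [← nsmul_eq_mul]
    exact card_nsmul_le_sum _ _ _ h2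
  rw [baseb_swap, cnt_eq_sum, mul_sum] at *
  refine a1.trans (sum_le_sum fun t _ => ?_)
  by_cases k : ∃ i, R (t i)
  · rw [baseb_ind_pos k, mul_one]
    refine (baseb_cnt_inj (U := univ.image t) id ?_ fun _ _ _ _ _ _ k => k).trans ?_
    · rintro a - ⟨i, rfl⟩
      exact mem_image_of_mem t (mem_univ i)
    · exact_mod_cast card_image_le.trans_eq (card_fin 3)
  · rw [baseb_ind_neg k, mul_zero]
    refine (baseb_cnt_zero ?_).le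
    rintro a ha ⟨i, rfl⟩
    exact k ⟨i, h1 _ ha⟩

theorem bnd_Icc (u : ℤ) (c l : ℕ) :
    (#(Icc (u - c * 2 ^ l) (u + c * 2 ^ l)) : ℝ) ≤ (2 * c + 1) * 2 ^ l := by
  have h := basea_card_Icc u (c * 2 ^ l)
  have h0 : (1 : ℝ) ≤ 2 ^ l := one_le_pow₀ (by norm_num)
  push_cast at h
  rw [h]
  push_cast
  linarith

/-- two transversal bands have few common cells -/
theorem bnd_cross {a b : ι} (hx : |A.x a| ≤ 11 / 10) (hab : 4 / 5 ≤ |A.x a - A.x b|)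
    (U : Finset Cell) :
    cnt U (fun p => |A.ht p a| ≤ 2 ^ l ∧ |A.ht p b| ≤ 9 * 2 ^ l) ≤ 3111 * 4 ^ l := by
  by_cases hne : ∃ p, |A.ht p a| ≤ 2 ^ l ∧ |A.ht p b| ≤ 9 * 2 ^ l
  swap
  · rw [baseb_cnt_zero fun p _ k => hne ⟨p, k⟩]
    positivity
  obtain ⟨p, h1, h2⟩ := hne
  refine (baseb_cnt_inj (U := Icc (p.1 - (25 : ℕ) * 2 ^ l) (p.1 + (25 : ℕ) * 2 ^ l) ×ˢ
    Icc (p.2 - (30 : ℕ) * 2 ^ l) (p.2 + (30 : ℕ) * 2 ^ l)) id ?_ fun _ _ _ _ _ _ k => k).trans ?_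
  · rintro q - ⟨h3, h4⟩
    have e1 := ht_shift (A := A) p q a
    have e2 := ht_shift (A := A) p q b
    have a1 : |(A.x a - A.x b) * ((q.1 : ℝ) - p.1)| ≤ 20 * 2 ^ l := by
      rw [abs_le] at *
      constructor <;> linarith
    rw [abs_mul] at a1
    have a2 : |(q.1 : ℝ) - p.1| ≤ 25 * 2 ^ l := by
      linarith [mul_le_mul_of_nonneg_right hab (abs_nonneg ((q.1 : ℝ) - p.1))]
    have a3 : |A.x a * ((q.1 : ℝ) - p.1)| ≤ 11 / 10 * (25 * 2 ^ l) := by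
      rw [abs_mul]
      exact mul_le_mul hx a2 (abs_nonneg _) (by norm_num)
    have h0 : (0 : ℝ) < 2 ^ l := by positivity
    have a4 : |(q.2 : ℝ) - p.2| ≤ 30 * 2 ^ l := by
      rw [abs_le] at *
      constructor <;> linarith
    have b1 : |q.1 - p.1| ≤ 25 * 2 ^ l := by exact_mod_cast a2
    have b2 : |q.2 - p.2| ≤ 30 * 2 ^ l := by exact_mod_cast a4
    rw [abs_le] at b1 b2
    simp only [id, mem_product, mem_Icc, Nat.cast_ofNat]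
    omega
  · rw [card_product, Nat.cast_mul]
    refine (mul_le_mul (bnd_Icc _ 25 l) (bnd_Icc _ 30 l) (Nat.cast_nonneg _)
      (by positivity)).trans_eq ?_
    rw [show (4 : ℝ) ^ l = 2 ^ l * 2 ^ l by rw [← mul_pow]; norm_num]
    push_cast
    ring

/-- few cells of a band are blocked by a small set of lines -/
theorem bnd_block (h : A.Ok) {t0 : Tri ι} (ht0 : t0 ∈ A.T) (β : Fin 3) (B : Finset ι) {c : ℝ}
    (U : Finset Cell) : c * cnt U (fun p => |A.ht p (t0 β)| ≤ 2 ^ l ∧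
      c ≤ cnt (A.TW p l) fun t => ∃ i, i ≠ β ∧ t i ∈ B) ≤ #B * (18666 * 4 ^ l * 2 ^ l) := by
  set U' := U.filter fun p => |A.ht p (t0 β)| ≤ 2 ^ l with hU
  have a1 : c * cnt U (fun p => |A.ht p (t0 β)| ≤ 2 ^ l ∧
      c ≤ cnt (A.TW p l) fun t => ∃ i, i ≠ β ∧ t i ∈ B) ≤
      ∑ p ∈ U', cnt (A.TW p l) fun t => ∃ i, i ≠ β ∧ t i ∈ B := by
    rw [cnt_eq_sum, mul_sum, hU, sum_filter]
    refine sum_le_sum fun p _ => ?_
    by_cases k : |A.ht p (t0 β)| ≤ 2 ^ l ∧ c ≤ cnt (A.TW p l) fun t => ∃ i, i ≠ β ∧ t i ∈ B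
    · rw [baseb_ind_pos k, mul_one, if_pos k.1]
      exact k.2
    · rw [baseb_ind_neg k, mul_zero]
      split_ifs
      exacts [cnt_nonneg _ _, le_rfl]
  have a2 : ∑ p ∈ U', cnt (A.TW p l) (fun t => ∃ i, i ≠ β ∧ t i ∈ B) ≤
      ∑ p ∈ U', ∑ b ∈ B, cnt (A.TW p l) fun t => ∃ i, i ≠ β ∧ t i = b :=
    sum_le_sum fun p _ => baseb_cnt_sum B _ fun t _ ⟨i, k1, k2⟩ => ⟨_, k2, i, k1, rfl⟩
  rw [sum_comm] at a2
  refine a1.trans (a2.trans ?_)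
  rw [← nsmul_eq_mul]
  refine sum_le_card_nsmul _ _ _ fun b _ => ?_
  by_cases hb : ∃ u ∈ A.T, ∃ i, i ≠ β ∧ u i = b
  swap
  · rw [sum_eq_zero fun p _ => baseb_cnt_zero fun t ht k => hb ⟨t, TW_sub p l ht, k⟩]
    positivity
  obtain ⟨u, hu, i, hi, rfl⟩ := hb
  have b1 := bnd_cross (l := l) (baseb_x h ht0 β) (bnd_gap h ht0 hu hi.symm) U'
  have b2 : ∑ p ∈ U', cnt (A.TW p l) (fun t => ∃ j, j ≠ β ∧ t j = u i) ≤
      6 * 2 ^ l * cnt U' fun p => |A.ht p (t0 β)| ≤ 2 ^ l ∧ |A.ht p (u i)| ≤ 9 * 2 ^ l := by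
    rw [cnt_eq_sum U', mul_sum]
    refine sum_le_sum fun p hp => ?_
    by_cases k : |A.ht p (u i)| ≤ 9 * 2 ^ l
    · rw [baseb_ind_pos ⟨(mem_filter.1 hp).2, k⟩]
      have := h.few_TW p l {u i}
      rw [card_singleton, Nat.cast_one] at this
      exact (cnt_mono fun t ht ⟨j, _, e⟩ => ⟨ht, j, mem_singleton.2 e⟩).trans this
    · rw [baseb_ind_neg fun k' => k k'.2, mul_zero]
      refine (baseb_cnt_zero ?_).le
      rintro t ht ⟨j, -, e⟩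
      exact k (e ▸ h.ht_TW ht j)
  have b3 := mul_le_mul_of_nonneg_left b1 (by positivity : (0 : ℝ) ≤ 6 * 2 ^ l)
  linarith

end Pool.Agent.MP_38296a_co.H21

end FileBnd1

section FileBnd

set_option autoImplicit false

namespace Pool.Agent.MP_38296a_co.H21

open Finset Filter Classical

/-- the regular cells -/
structure BndG {ι : Type} {m : ℕ} (A : Arr ι) (Q : Bx) (β : Fin 3) (g : ι → Fin m → ℝ)
    (σ w : ι → ℝ) (F : Cell → Fin m → ℝ) (l : ℕ) (δ c1 Cr : ℝ) (p : Cell) : Prop where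
  den : δ * 4 ^ l ≤ #(A.TW p l)
  bd : cnt (A.TW p l) (fun t => ∃ i, c1 < ‖g (t i)‖) ≤ δ / 100 * 4 ^ l
  rg : ∀ (a : Fin m → ℝ) (b : ℝ), 0 ≤ b →
    δ / 2 * 4 ^ l ≤ cnt (A.TW p l) (fun t => |a ⬝ᵥ g (t β)| ≤ b) → ‖a‖ ≤ Cr * b
  fd : ∀ t ∈ A.TW p l, ∀ i, |σ (t i) + (Q.z p).1 * w (t i) - F p ⬝ᵥ g (t i)| ≤ 1
  wn : Wn p l ⊆ Q.cells

section
variable {ι : Type} {m : ℕ} {A : Arr ι} {Q : Bx} {β : Fin 3} {g : ι → Fin m → ℝ} {σ w : ι → ℝ}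
  {F : Cell → Fin m → ℝ} {l : ℕ} {δ c1 Cr : ℝ} {p : Cell}

theorem BndG.val (h : BndG A Q β g σ w F l δ c1 Cr p) (hp : p ∈ Q.cells) {t : Tri ι}
    (ht : t ∈ A.TW p l) {i : Fin 3} {c : ℝ} (hc : |σ (t i)| + |w (t i)| ≤ c) :
    |F p ⬝ᵥ g (t i)| ≤ c + 1 := by
  have h1 := h.fd t ht i
  obtain ⟨h2, h3, -⟩ := z_mem hp
  have h4 : |(Q.z p).1 * w (t i)| ≤ |w (t i)| := by
    rw [abs_mul, abs_of_nonneg h2]
    exact mul_le_of_le_one_left (abs_nonneg _) h3.le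
  have h5 := abs_add_le (σ (t i)) ((Q.z p).1 * w (t i))
  have h6 := abs_sub_abs_le_abs_sub (F p ⬝ᵥ g (t i)) (σ (t i) + (Q.z p).1 * w (t i))
  rw [abs_sub_comm] at h6
  linarith

theorem BndG.norm (h : BndG A Q β g σ w F l δ c1 Cr p) (hδ : 0 ≤ δ) {P1 P2 : Tri ι → Prop} {b : ℝ}
    (hb : 0 ≤ b) (h1 : cnt (A.TW p l) P1 ≤ δ / 100 * 4 ^ l)
    (h2 : cnt (A.TW p l) P2 ≤ δ / 100 * 4 ^ l)
    (h3 : ∀ t ∈ A.TW p l, ¬ P1 t → ¬ P2 t → |F p ⬝ᵥ g (t β)| ≤ b) : ‖F p‖ ≤ Cr * b := by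
  have := bnd_most (d := δ * 4 ^ l) (by positivity) h3 h.den (by linarith) (by linarith)
  exact h.rg _ _ hb (by linarith)

theorem bnd_lin {s u x y c : ℝ} (hx : |s + x * u| ≤ c) (hy : |s + y * u| ≤ c) (h0 : 0 ≤ x)
    (h1 : x ≤ 1) (hxy : 2 / 25 ≤ x - y) : |s| + |u| ≤ 51 * c := by
  have a1 : |(x - y) * u| ≤ c + c := by
    rw [show (x - y) * u = s + x * u - (s + y * u) by ring]
    exact (abs_sub _ _).trans (add_le_add hx hy)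
  rw [abs_mul, abs_of_nonneg (by linarith)] at a1
  have a2 := mul_le_mul_of_nonneg_right hxy (abs_nonneg u)
  have a3 : |x * u| ≤ |u| := by
    rw [abs_mul, abs_of_nonneg h0]
    exact mul_le_of_le_one_left (abs_nonneg _) h1
  have a4 := abs_sub (s + x * u) (x * u)
  rw [add_sub_cancel_right] at a4
  linarith

/-- the deterministic statement -/
theorem bnd_det (h : A.Ok) (hker : ∀ e, (fun a => g a e) ∈ Ker A.x A.T) (hδ : 0 < δ) {θ1 c0 : ℝ}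
    (hθ : 0 < θ1) (hc0 : 0 ≤ c0) (hc1 : 0 ≤ c1) (hCr : 0 ≤ Cr)
    (hl : (1000 : ℝ) * 2 ^ l ≤ 2 ^ Q.j)
    (htt : cnt (A.TB Q) (fun t => ∃ i, c0 < |σ (t i)| + |w (t i)|) ≤
      δ * θ1 / (6336 * (2 * 10 ^ 9)) * 4 ^ Q.j) {S1 S2 : Set ι}
    (hS1 : ∀ a ∈ S1, cnt Q.cells (fun p => |A.ht p a| ≤ 2 ^ l ∧
      (¬ BndG A Q β g σ w F l δ c1 Cr p ∨ cnt (A.TW p l) (fun t => ∃ i, t i = a) < θ1 * 2 ^ l)) ≤
        1 / 64 * 2 ^ Q.j * 2 ^ l)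
    (hS2 : ∀ a ∈ S2, cnt Q.cells (fun p => |A.ht p a| ≤ 2 ^ l ∧
      ((¬ BndG A Q β g σ w F l δ c1 Cr p ∨
        δ / 100 * 4 ^ l < cnt (A.TW p l) fun t => ∃ i, t i ∉ S1) ∨
        cnt (A.TW p l) (fun t => ∃ i, t i = a) < θ1 * 2 ^ l)) ≤ 1 / 1000 * 2 ^ Q.j * 2 ^ l)
    (hp : p ∈ Q.cells) (hz : Q.z p ∈ Cen (1 / 4)) (hG : BndG A Q β g σ w F l δ c1 Cr p)
    (hU : cnt (A.TW p l) (fun t => ∃ i, t i ∉ S2) ≤ δ / 100 * 4 ^ l) :
    ‖F p‖ ≤ Cr * (51 * (m * (Cr * (6 * (c0 + 1)) * c1) + 1) + 1) := by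
  have hJ : (0 : ℝ) < 2 ^ Q.j := by positivity
  have hL : (0 : ℝ) < 2 ^ l := by positivity
  have eJ : (4 : ℝ) ^ Q.j = 2 ^ Q.j * 2 ^ Q.j := by rw [← mul_pow]; norm_num
  set B := (lines A.T).filter fun a => a ∈ S1 ∧ c0 < |σ a| + |w a| ∧
    ∃ q, Q.z q ∈ Cen (1 / 8) ∧ |A.ht q a| ≤ 9 * 2 ^ l with hB
  have hcard : (#B : ℝ) * (2 * 10 ^ 9) ≤ δ * 2 ^ Q.j := by
    have a1 := bnd_card (T := A.TB Q) (B := B) (R := fun a => c0 < |σ a| + |w a|)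
      (c := θ1 * 2 ^ Q.j / 2112) (fun a ha => (mem_filter.1 ha).2.2.1) fun a ha => by
        obtain ⟨k1, k2, -, q, k3, k4⟩ := mem_filter.1 ha
        have := bnd_rich (h.x_bd k1) hl k3 k4 (fun q hq => (not_not.1 hq).wn) hθ.le (hS1 a k2)
        linarith
    rw [eJ] at htt
    have a2 : θ1 * 2 ^ Q.j * (#B * (2 * 10 ^ 9)) ≤ θ1 * 2 ^ Q.j * (δ * 2 ^ Q.j) := by linarith
    exact le_of_mul_le_mul_left a2 (by positivity)
  refine hG.norm hδ.le (by positivity) hU hG.bd fun t ht k1 k2 => hG.val hp ht ?_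
  have htT := TW_sub p l ht
  have hx := baseb_x h htT β
  have hg : ‖g (t β)‖ ≤ c1 := not_lt.1 fun k => k2 ⟨β, k⟩
  have hS : t β ∈ S2 := not_not.1 fun k => k1 ⟨β, k⟩
  have hblock : cnt Q.cells (fun q => |A.ht q (t β)| ≤ 2 ^ l ∧ δ / 100 * 4 ^ l ≤
      cnt (A.TW q l) fun u => ∃ i, i ≠ β ∧ u i ∈ B) ≤ 1 / 1000 * 2 ^ Q.j * 2 ^ l := by
    have a1 := bnd_block (l := l) h htT β B (c := δ / 100 * 4 ^ l) Q.cells
    have a2 := mul_le_mul_of_nonneg_right hcard (by positivity : (0 : ℝ) ≤ 4 ^ l * 2 ^ l)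
    have a3 : (0 : ℝ) ≤ #B * (4 ^ l * 2 ^ l) := by positivity
    refine le_of_mul_le_mul_left (a1.trans ?_) (by positivity)
    linarith
  have key : ∀ s : ℝ, |s| ≤ 1 / 20 → ∃ ξ : ℝ, 0 ≤ ξ ∧ ξ ≤ 1 ∧ |ξ - ((Q.z p).1 + s)| ≤ 1 / 100 ∧
      |σ (t β) + ξ * w (t β)| ≤ m * (Cr * (6 * (c0 + 1)) * c1) + 1 := by
    intro s hs
    have b1 := abs_le.1 (bnd_near (A := A) (Q := Q) (c := 1 / 100)
      ((h.ht_TW ht β).trans (by linarith)))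
    have b2 : |A.x (t β) * s| ≤ 11 / 10 * (1 / 20) := by
      rw [abs_mul]
      exact mul_le_mul hx hs (abs_nonneg _) (by norm_num)
    obtain ⟨⟨z1, z2⟩, z3, z4⟩ := hz
    rw [abs_le] at b2 hs
    have b3 := cnt_or (S := Q.cells)
      (P := fun q => |A.ht q (t β)| ≤ 2 ^ l ∧ (((¬ BndG A Q β g σ w F l δ c1 Cr q ∨
        δ / 100 * 4 ^ l < cnt (A.TW q l) fun t => ∃ i, t i ∉ S1) ∨
        cnt (A.TW q l) (fun u => ∃ i, u i = t β) < θ1 * 2 ^ l) ∨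
        δ / 100 * 4 ^ l ≤ cnt (A.TW q l) fun u => ∃ i, i ≠ β ∧ u i ∈ B))
      fun q _ k => and_or_left.1 k
    obtain ⟨q, hq, -, q2, q3, q4⟩ := band_pick (A := A) (Q := Q) (a := t β) (l := l) (ρ := 1 / 100)
      (z := ((Q.z p).1 + s, A.hu Q (t β) + A.x (t β) * ((Q.z p).1 + s))) hx
      ⟨⟨by dsimp only; linarith, by dsimp only; linarith⟩,
        by dsimp only; linarith, by dsimp only; linarith⟩ (by linarith) (by simp)
      (b3.trans_lt (by linarith [hS2 _ hS, mul_pos hJ hL]))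
    simp only [not_or, not_not, not_lt, not_le] at q2
    obtain ⟨⟨⟨g1, g2⟩, g3⟩, g4⟩ := q2
    have hzq : Q.z q ∈ Cen (1 / 8) := by
      rw [abs_le] at q3 q4
      dsimp only at q3 q4
      exact ⟨⟨by linarith, by linarith⟩, by linarith, by linarith⟩
    have hF : ‖F q‖ ≤ Cr * (6 * (c0 + 1)) :=
      g1.norm hδ.le (by positivity) g2 g4.le fun u hu j1 j2 =>
        bnd_third h (TW_sub q l hu) (bnd_ker hker (F q) (TW_sub q l hu)) fun i hi =>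
          g1.val hq hu (not_lt.1 fun j3 => j2 ⟨i, hi, mem_filter.2
            ⟨mem_lines.2 ⟨u, TW_sub q l hu, i, rfl⟩, not_not.1 fun j4 => j1 ⟨i, j4⟩, j3, q, hzq,
              h.ht_TW hu i⟩⟩)
    obtain ⟨u, hu, i, hi⟩ := exists_of_cnt_pos ((mul_pos hθ hL).trans_le g3)
    have c1' := g1.fd u hu i
    rw [hi] at c1'
    have c2 := (bnd_dot (F q) (g (t β))).trans (mul_le_mul_of_nonneg_left
      (mul_le_mul hF hg (norm_nonneg _) (by positivity)) (Nat.cast_nonneg m))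
    have c3 := abs_sub_abs_le_abs_sub (σ (t β) + (Q.z q).1 * w (t β)) (F q ⬝ᵥ g (t β))
    exact ⟨(Q.z q).1, (z_mem hq).1, (z_mem hq).2.1.le, q3, by linarith⟩
  obtain ⟨x, x0, x1, x2, x3⟩ := key (1 / 20) (by norm_num [abs_of_pos])
  obtain ⟨y, -, -, y2, y3⟩ := key (-(1 / 20)) (by norm_num [abs_of_pos])
  rw [abs_le] at x2 y2
  exact bnd_lin x3 y3 x0 x1 (by linarith)

end

/-- the field is bounded -/
theorem BD.bnd {r : ℕ} {A : ℕ → Arr ℕ} {Q : ℕ → Bx} {β : Fin 3} {g : ℕ → ℕ → Fin (r + 2) → ℝ}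
    {σ w : ℕ → ℕ → ℝ} {F : ℕ → Cell → Fin (r + 2) → ℝ} (hG : Good A Q) (hL : Lb0 A Q β g)
    (h : BD A Q g σ w F) : ∃ C : ℝ, 1 ≤ C ∧ FBd Q F C := by
  obtain ⟨δ, hδ, -, hD⟩ := hG.dens
  obtain ⟨K, hK, hband⟩ := band hG
  obtain ⟨c1, hc1⟩ := hL.bdd (δ / 100) (by positivity)
  obtain ⟨Cr, hCr⟩ := hL.rgp (δ / 2) (by positivity)
  have hθ1 : 0 < δ / 100 / K := by positivity
  have eK : K * (δ / 100 / K) = δ / 100 := mul_div_cancel₀ _ hK.ne'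
  obtain ⟨c0, hc0⟩ := h.tt (δ * (δ / 100 / K) / (6336 * (2 * 10 ^ 9))) (by positivity)
  refine ⟨max 1 (max Cr 0 * (51 * (((r + 2 : ℕ) : ℝ) * (max Cr 0 * (6 * (max c0 0 + 1)) *
    max c1 0) + 1) + 1)), le_max_left _ _, fun θ hθ => ?_⟩
  obtain ⟨θ2, hθ2, hb2⟩ := hband _ (min (θ / 2) (1 / 1000)) hθ1 (by positivity)
  obtain ⟨θ3, hθ3, hb1⟩ := hband _ (min (θ2 / 2) (1 / 64)) hθ1 (by positivity)
  obtain ⟨μ, hμ, m1, m2, m3, m4⟩ : ∃ μ : ℝ, 0 < μ ∧ μ ≤ 1 ∧ 2 * μ ≤ θ3 ∧ 4 * μ ≤ θ2 ∧ 4 * μ ≤ θ := by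
    refine ⟨min (min 1 (θ3 / 2)) (min (θ2 / 4) (θ / 4)), by positivity, ?_, ?_, ?_, ?_⟩ <;>
      linarith [min_le_left (min 1 (θ3 / 2)) (min (θ2 / 4) (θ / 4)), min_le_left 1 (θ3 / 2),
        min_le_right (min 1 (θ3 / 2)) (min (θ2 / 4) (θ / 4)), min_le_right 1 (θ3 / 2),
        min_le_left (θ2 / 4) (θ / 4), min_le_right (θ2 / 4) (θ / 4)]
  obtain ⟨l, l1, l2, l3⟩ :=
    (hb1.and (hb2.and (((hD.and hc1).and (hCr.and (most_in hG.val.big 0))) μ hμ))).exists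
  filter_upwards [l1, l2, l3, h.fd l μ hμ, hc0, hL.ker,
    hG.val.big.eventually (eventually_ge_atTop (l + 10))] with n n1 n2 n3 n4 n5 n6 n7
  have hl : (1000 : ℝ) * 2 ^ l ≤ 2 ^ (Q n).j := by
    refine le_trans ?_ (pow_le_pow_right₀ one_le_two n7)
    rw [pow_add]
    linarith [pow_pos (two_pos : (0 : ℝ) < 2) l]
  have hbad : (Q n).fr (fun p => ¬ BndG (A n) (Q n) β (g n) (σ n) (w n) (F n) l δ (max c1 0)
      (max Cr 0) p) ≤ μ + μ := by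
    refine (fr_or fun p _ hp => ?_).trans (add_le_add n3 n4)
    by_contra hc
    rw [not_or, not_not, not_not] at hc
    obtain ⟨⟨⟨d1, d2⟩, d3, -, d4⟩, d5⟩ := hc
    exact hp ⟨d1.trans (Nat.cast_le.2 (card_le_card (TB_anc_sub p l))),
      (cnt_mono fun t ht ⟨i, k⟩ => ⟨ht, i, (le_max_left _ _).trans_lt k⟩).trans d2,
      fun a b hb k => (d3 a b hb k).trans (mul_le_mul_of_nonneg_right (le_max_left _ _) hb),
      fun t ht i => (d5 t ht i).trans m1, d4⟩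
  obtain ⟨S1, s1, s2⟩ := n1 _ (hbad.trans (by linarith))
  rw [eK] at s1
  obtain ⟨S2, s3, s4⟩ := n2 _ ((fr_or fun _ _ k => k).trans
    ((add_le_add hbad s1).trans (by linarith [min_le_left (θ2 / 2) (1 / 64)])))
  rw [eK] at s3
  refine (fr_or fun p hp k => ?_).trans
    ((add_le_add hbad s3).trans (by linarith [min_le_left (θ / 2) (1 / 1000)]))
  by_contra hc
  rw [not_or, not_not, not_lt] at hc
  have hJ : (0 : ℝ) ≤ 2 ^ (Q n).j := by positivity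
  have hL' : (0 : ℝ) ≤ 2 ^ l := by positivity
  exact ((le_max_right _ _).trans_lt k.2).not_ge (bnd_det (hG.val.ok n) n6 hδ hθ1 (le_max_right _ _)
    (le_max_right _ _) (le_max_right _ _) hl
    ((cnt_mono fun t ht ⟨i, k⟩ => ⟨ht, i, (le_max_left _ _).trans_lt k⟩).trans n5)
    (fun a ha => (s2 a ha).trans (mul_le_mul_of_nonneg_right
      (mul_le_mul_of_nonneg_right (min_le_right _ _) hJ) hL'))
    (fun a ha => (s4 a ha).trans (mul_le_mul_of_nonneg_right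
      (mul_le_mul_of_nonneg_right (min_le_right _ _) hJ) hL')) hp k.1 hc.1 hc.2)

end Pool.Agent.MP_38296a_co.H21

end FileBnd

section FileRegF

set_option autoImplicit false

namespace Pool.Agent.MP_38296a_co.H21

open Finset Filter Classical

theorem regf_dot {m : ℕ} (a b : Fin m → ℝ) : |a ⬝ᵥ b| ≤ m * (‖a‖ * ‖b‖) := by
  refine (abs_sum_le_sum_abs _ _).trans ?_
  refine (sum_le_card_nsmul _ _ (‖a‖ * ‖b‖) fun i _ => ?_).trans_eq (by simp)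
  rw [abs_mul]
  exact mul_le_mul (norm_le_pi_norm a i) (norm_le_pi_norm b i) (abs_nonneg _) (norm_nonneg _)

theorem regf_pos {b : Bx} {P : Cell → Prop} (h : 0 < b.fr P) : ∃ p ∈ b.cells, P p :=
  exists_of_cnt_pos ((div_pos_iff_of_pos_right (by positivity)).1 h)

/-- a median -/
theorem regf_med (b : Bx) (f : Cell → ℝ) :
    ∃ τ, 1 / 2 ≤ b.fr (fun p => f p ≤ τ) ∧ 1 / 2 ≤ b.fr fun p => τ ≤ f p := by
  have hne : b.cells.Nonempty := card_pos.1 (by rw [card_cells]; positivity)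
  obtain ⟨p1, h1, h2⟩ := exists_max_image b.cells f hne
  have h0 : 1 / 2 ≤ b.fr fun q => f q ≤ f p1 := by
    by_contra hc
    have h3 := fr_add_not b fun q => f q ≤ f p1
    obtain ⟨q, h4, h5⟩ := regf_pos (b := b) (P := fun q => ¬ f q ≤ f p1) (by linarith)
    exact h5 (h2 q h4)
  obtain ⟨p0, h3, h4⟩ := exists_min_image {p ∈ b.cells | 1 / 2 ≤ b.fr fun q => f q ≤ f p} f
    ⟨p1, mem_filter.2 ⟨h1, h0⟩⟩
  refine ⟨f p0, (mem_filter.1 h3).2, ?_⟩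
  by_contra hc
  have h5 : 1 / 2 < b.fr fun p => ¬ f p0 ≤ f p := by
    linarith [fr_add_not b fun p => f p0 ≤ f p]
  obtain ⟨q, h6, h7⟩ := regf_pos (lt_trans (by norm_num) h5)
  obtain ⟨p2, h8, h9⟩ := exists_max_image {p ∈ b.cells | f p < f p0} f
    ⟨q, mem_filter.2 ⟨h6, not_le.1 h7⟩⟩
  have h10 := h4 p2 (mem_filter.2 ⟨(mem_filter.1 h8).1,
    h5.le.trans (fr_mono fun q hq c => h9 q (mem_filter.2 ⟨hq, not_le.1 c⟩))⟩)
  exact absurd (mem_filter.1 h8).2 (not_lt.2 h10)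

theorem regf_union {M : Type} (b : Bx) {P : M → Cell → Prop} {κ : ℝ} (h : ∀ i, b.fr (P i) ≤ κ)
    (s : Finset M) : b.fr (fun p => ∃ i ∈ s, P i p) ≤ #s * κ := by
  induction s using Finset.induction_on with
  | empty =>
    by_contra hc
    obtain ⟨p, -, i, hi, -⟩ := regf_pos (b := b) (P := fun p => ∃ i ∈ (∅ : Finset M), P i p)
      (by simpa using hc)
    exact notMem_empty i hi
  | insert a s ha ih =>
    refine (fr_or (P1 := P a) (P2 := fun p => ∃ i ∈ s, P i p) fun p _ x => ?_).trans ?_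
    · obtain ⟨i, hi, c⟩ := x
      rcases mem_insert.1 hi with rfl | hi
      exacts [Or.inl c, Or.inr ⟨i, hi, c⟩]
    · rw [card_insert_of_notMem ha]
      push_cast
      linarith [h a]

/-- removal of an exceptional set from a sub-box -/
theorem regf_rem {Q b : Bx} {k : ℕ} (hk : b.j + k = Q.j) (hb : b.cells ⊆ Q.cells)
    {V B : Cell → Prop} {κ : ℝ} (hV : κ ≤ b.fr V) (hB : Q.fr B ≤ κ / (2 * 4 ^ k)) :
    ∃ P ⊆ b.cells, κ / 2 * 4 ^ b.j ≤ #P ∧ ∀ p ∈ P, V p ∧ ¬ B p := by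
  have h1 : cnt b.cells V ≤ cnt b.cells (fun p => V p ∧ ¬ B p) + cnt b.cells B :=
    cnt_or fun p _ c => by tauto
  have h2 : cnt b.cells B ≤ cnt Q.cells B := cnt_mono fun p hp c => ⟨hb hp, c⟩
  rw [Bx.fr, le_div_iff₀ (by positivity)] at hV
  rw [Bx.fr, div_le_iff₀ (by positivity), ← hk, pow_add] at hB
  have h3 : κ / (2 * 4 ^ k) * (4 ^ b.j * 4 ^ k) = κ / 2 * 4 ^ b.j := by field_simp
  have h4 : ∀ W : Cell → Prop, ∃ P ⊆ b.cells, cnt b.cells W = #P ∧ ∀ p ∈ P, W p := fun W =>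
    ⟨_, filter_subset W _, rfl, fun p hp => (mem_filter.1 hp).2⟩
  obtain ⟨P, h5, h6, h7⟩ := h4 fun p => V p ∧ ¬ B p
  exact ⟨P, h5, by linarith, h7⟩

theorem regf_div {x m : ℝ} {i k : ℕ} (h : |x| ≤ m * 2 ^ i) : |x / 2 ^ (i + k)| ≤ m / 2 ^ k := by
  rw [abs_div, abs_of_pos (by positivity : (0 : ℝ) < 2 ^ (i + k)), pow_add,
    div_le_iff₀ (by positivity)]
  refine h.trans_eq ?_
  field_simp

theorem regf_nb {Q b : Bx} {k D : ℕ} (hk : b.j + k = Q.j) {p : Cell} (hp : p ∈ b.nb D) :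
    |(Q.z p).1 - (Q.z b.o).1| ≤ (D + 1) / 2 ^ k ∧ |(Q.z p).2 - (Q.z b.o).2| ≤ (D + 1) / 2 ^ k := by
  have p2 : (0 : ℤ) < 2 ^ b.j := by positivity
  simp only [Bx.nb, mem_product, mem_Ico] at hp
  have h1 : |p.1 - b.o.1| ≤ (D + 1) * 2 ^ b.j := by
    rw [abs_le, Bx.o]; constructor <;> linarith [hp.1.1, hp.1.2]
  have h2 : |p.2 - b.o.2| ≤ (D + 1) * 2 ^ b.j := by
    rw [abs_le, Bx.o]; constructor <;> linarith [hp.2.1, hp.2.2]
  simp only [Bx.z, ← sub_div, sub_sub_sub_cancel_right, ← hk]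
  exact ⟨regf_div (by exact_mod_cast h1), regf_div (by exact_mod_cast h2)⟩

theorem regf_mem {Q : Bx} {p : Cell} (h : Q.z p ∈ Cen (1 / 4)) : p ∈ Q.cells := by
  have p2 : (0 : ℝ) < 2 ^ Q.j := by positivity
  obtain ⟨⟨h1, h2⟩, h3, h4⟩ := h
  simp only [Bx.z, Bx.o, lt_div_iff₀ p2, div_lt_iff₀ p2] at h1 h2 h3 h4
  push_cast at h1 h2 h3 h4
  simp only [Bx.cells, mem_product, mem_Ico]
  refine ⟨⟨?_, ?_⟩, ?_, ?_⟩
  · have : (Q.u : ℝ) * 2 ^ Q.j ≤ p.1 := by linarith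
    exact_mod_cast this
  · have : (p.1 : ℝ) < (Q.u + 1) * 2 ^ Q.j := by linarith
    exact_mod_cast this
  · have : (Q.v : ℝ) * 2 ^ Q.j ≤ p.2 := by linarith
    exact_mod_cast this
  · have : (p.2 : ℝ) < (Q.v + 1) * 2 ^ Q.j := by linarith
    exact_mod_cast this

theorem regf_o (b : Bx) : b.o ∈ b.cells := by
  have p2 : (0 : ℤ) < 2 ^ b.j := by positivity
  simp only [Bx.cells, Bx.o, mem_product, mem_Ico]
  refine ⟨⟨le_rfl, ?_⟩, le_rfl, ?_⟩ <;> linarith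

theorem regf_cen {z z' : ℝ × ℝ} (h : z ∈ Cen (29 / 100)) (h1 : |z'.1 - z.1| ≤ 1 / 40)
    (h2 : |z'.2 - z.2| ≤ 1 / 40) : z' ∈ Cen (1 / 4) := by
  obtain ⟨⟨a1, a2⟩, a3, a4⟩ := h
  rw [abs_le] at h1 h2
  refine ⟨⟨?_, ?_⟩, ?_, ?_⟩ <;> linarith [h1.1, h1.2, h2.1, h2.2]

/-- equal or adjacent boxes in the central part -/
def regf_adj (Q : Bx) (k : ℕ) (b b' : Bx) : Prop :=
  b.j + k = Q.j ∧ b'.j = b.j ∧ |b.u - b'.u| ≤ 1 ∧ |b.v - b'.v| ≤ 1 ∧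
    ∀ p ∈ b.cells ∪ b'.cells, p ∈ Q.cells ∧ Q.z p ∈ Cen (29 / 100)

theorem regf_adj.symm {Q b b' : Bx} {k : ℕ} (h : regf_adj Q k b b') : regf_adj Q k b' b :=
  ⟨by rw [h.2.1, h.1], h.2.1.symm, by rw [abs_sub_comm]; exact h.2.2.1,
    by rw [abs_sub_comm]; exact h.2.2.2.1, fun p hp => h.2.2.2.2 p (by rwa [union_comm])⟩

theorem regf_adj.refl {Q b b' : Bx} {k : ℕ} (h : regf_adj Q k b b') : regf_adj Q k b b :=
  ⟨h.1, rfl, by simp, by simp, fun p hp => h.2.2.2.2 p (mem_union_left _ (by simpa using hp))⟩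

theorem regf_adj.nb {Q b b' : Bx} {k : ℕ} (h : regf_adj Q k b b') (D : ℕ) :
    b'.cells ⊆ b.nb (D + 1) := by
  intro p hp
  obtain ⟨-, h1, h2, h3, -⟩ := h
  have h4 := mem_cells.1 hp
  rw [Bx.ext_iff, h1] at h4
  simp only [anc] at h4
  rw [abs_le] at h2 h3
  rw [basea_mem_nb]
  omega

section Det
variable {m : ℕ} {A : Arr ℕ} {Q : Bx} {g : ℕ → Fin m → ℝ} {σ w : ℕ → ℝ} {F : Cell → Fin m → ℝ}
  {C u : ℝ} {l : ℕ}

/-- good cells -/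
def regf_ok (A : Arr ℕ) (Q : Bx) (g : ℕ → Fin m → ℝ) (σ w : ℕ → ℝ) (F : Cell → Fin m → ℝ)
    (C u : ℝ) (l : ℕ) (p : Cell) : Prop :=
  (∀ t ∈ A.TW p l, ∀ i, |σ (t i) + (Q.z p).1 * w (t i) - F p ⬝ᵥ g (t i)| ≤ u) ∧
    (Q.z p ∈ Cen (1 / 4) → ‖F p‖ ≤ C)

/-- a good cell in the band of a reliable line -/
theorem regf_pick (hA : A.Ok) {bad : Cell → Prop} (hb : ∀ p, ¬ bad p → regf_ok A Q g σ w F C u l p)
    {a : ℕ} (ha : a ∈ lines A.T) {θ : ℝ} (hθ : 0 < θ) (hl : (9 : ℝ) * 2 ^ l ≤ 1 / 400 * 2 ^ Q.j)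
    (hc : cnt Q.cells (fun p => |A.ht p a| ≤ 2 ^ l ∧
      (bad p ∨ cnt (A.TW p l) (fun t => ∃ i, t i = a) < θ * 2 ^ l)) ≤ 1 / 1000 * 2 ^ Q.j * 2 ^ l)
    {p0 : Cell} (hp : Q.z p0 ∈ Cen (29 / 100)) (hh : |A.ht p0 a| ≤ 9 * 2 ^ l) {s : ℝ}
    (hs : |s| ≤ 1 / 80) :
    ∃ ξ, |ξ - ((Q.z p0).1 + s)| ≤ 1 / 400 ∧ |σ a + ξ * w a| ≤ m * (C * ‖g a‖) + u := by
  have p1 : (0 : ℝ) < 2 ^ l := by positivity
  have p2 : (0 : ℝ) < 2 ^ Q.j := by positivity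
  have hx := hA.x_bd ha
  have h1 : |A.x a * s| ≤ 11 / 10 * (1 / 80) := by
    rw [abs_mul]; exact mul_le_mul hx hs (abs_nonneg _) (by norm_num)
  have h2 : (((Q.z p0).1 + s, (Q.z p0).2 + A.x a * s) : ℝ × ℝ) ∈ Cen (4 * (1 / 400)) := by
    obtain ⟨⟨a1, a2⟩, a3, a4⟩ := hp
    rw [abs_le] at h1 hs
    refine ⟨⟨?_, ?_⟩, ?_, ?_⟩ <;> simp only <;> linarith [h1.1, h1.2, hs.1, hs.2]
  have h3 : |A.hu Q a + A.x a * ((Q.z p0).1 + s) - ((Q.z p0).2 + A.x a * s)| ≤ 1 / 400 := by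
    rw [ht_z A Q, abs_mul, abs_of_pos p2] at hh
    rw [show A.hu Q a + A.x a * ((Q.z p0).1 + s) - ((Q.z p0).2 + A.x a * s) =
      A.hu Q a + A.x a * (Q.z p0).1 - (Q.z p0).2 by ring]
    exact le_of_mul_le_mul_left (by linarith) p2
  obtain ⟨p, -, -, c1, c2, c3⟩ := band_pick hx h2 (by linarith) h3
    (hc.trans_lt (by linarith [mul_pos p2 p1]))
  rw [not_or, not_lt] at c1
  obtain ⟨t, ht, i, rfl⟩ := exists_of_cnt_pos ((mul_pos hθ p1).trans_le c1.2)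
  obtain ⟨d1, d2⟩ := hb p c1.1
  have h4 : Q.z p ∈ Cen (1 / 4) := by
    simp only at c2 c3
    rw [abs_le] at h1 hs c2 c3
    refine regf_cen hp (abs_le.2 ⟨?_, ?_⟩) (abs_le.2 ⟨?_, ?_⟩) <;>
      linarith [h1.1, h1.2, hs.1, hs.2, c2.1, c2.2, c3.1, c3.2]
  refine ⟨(Q.z p).1, c2, ?_⟩
  have h5 : |F p ⬝ᵥ g (t i)| ≤ m * (C * ‖g (t i)‖) := (regf_dot _ _).trans
    (mul_le_mul_of_nonneg_left (mul_le_mul_of_nonneg_right (d2 h4) (norm_nonneg _))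
      (Nat.cast_nonneg _))
  have h6 := d1 t ht i
  rw [abs_le] at h5 h6 ⊢
  constructor <;> linarith [h5.1, h5.2, h6.1, h6.2]

/-- the slope of the affine function of a reliable line is bounded -/
theorem regf_wbd (hA : A.Ok) {bad : Cell → Prop} (hb : ∀ p, ¬ bad p → regf_ok A Q g σ w F C u l p)
    {a : ℕ} (ha : a ∈ lines A.T) {θ : ℝ} (hθ : 0 < θ) (hl : (9 : ℝ) * 2 ^ l ≤ 1 / 400 * 2 ^ Q.j)
    (hc : cnt Q.cells (fun p => |A.ht p a| ≤ 2 ^ l ∧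
      (bad p ∨ cnt (A.TW p l) (fun t => ∃ i, t i = a) < θ * 2 ^ l)) ≤ 1 / 1000 * 2 ^ Q.j * 2 ^ l)
    {p0 : Cell} (hp : Q.z p0 ∈ Cen (29 / 100)) (hh : |A.ht p0 a| ≤ 9 * 2 ^ l) :
    |w a| ≤ 100 * (m * (C * ‖g a‖) + u) := by
  obtain ⟨ξ, h1, h2⟩ := regf_pick hA hb ha hθ hl hc hp hh (s := 1 / 80) (by norm_num [abs_le])
  obtain ⟨ξ', h3, h4⟩ := regf_pick hA hb ha hθ hl hc hp hh (s := -(1 / 80)) (by norm_num [abs_le])
  have h5 : 1 / 50 ≤ ξ - ξ' := by linarith [(abs_le.1 h1).1, (abs_le.1 h3).2]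
  have h6 : |(ξ - ξ') * w a| ≤ 2 * (m * (C * ‖g a‖) + u) := by
    rw [abs_le] at h2 h4 ⊢
    constructor <;> linarith [h2.1, h2.2, h4.1, h4.2]
  rw [abs_mul, abs_of_nonneg (by linarith : 0 ≤ ξ - ξ')] at h6
  linarith [mul_le_mul_of_nonneg_right h5 (abs_nonneg (w a))]

theorem regf_near {p : Cell} (h : regf_ok A Q g σ w F C u l p) (hp : Q.z p ∈ Cen (1 / 4))
    {t : Tri ℕ} (ht : t ∈ A.TW p l) {i : Fin 3} {y : Fin m → ℝ} {γ W ξ δ : ℝ}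
    (hy : ‖g (t i) - y‖ ≤ γ) (hγ : m * (C * γ) ≤ u) (hw : |w (t i)| ≤ W)
    (hξ : |(Q.z p).1 - ξ| ≤ δ) (hδ : δ * W ≤ u) :
    |σ (t i) + ξ * w (t i) - F p ⬝ᵥ y| ≤ 3 * u := by
  have h1 := h.1 t ht i
  have h2 : |F p ⬝ᵥ (g (t i) - y)| ≤ u := (regf_dot _ _).trans (le_trans
    (mul_le_mul_of_nonneg_left (mul_le_mul (h.2 hp) hy (norm_nonneg _)
      ((norm_nonneg _).trans (h.2 hp))) (Nat.cast_nonneg _)) hγ)
  have h3 : |((Q.z p).1 - ξ) * w (t i)| ≤ u := by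
    rw [abs_mul]
    exact (mul_le_mul hξ hw (abs_nonneg _) ((abs_nonneg _).trans hξ)).trans hδ
  rw [dotProduct_sub] at h2
  rw [abs_le] at h1 h2 h3 ⊢
  constructor <;> linarith [h1.1, h1.2, h2.1, h2.2, h3.1, h3.2]

/-- many lines of a good window have the right value -/
theorem regf_side (hA : A.Ok) {p : Cell} (h : regf_ok A Q g σ w F C u l p)
    (hp : Q.z p ∈ Cen (29 / 100)) {β : Fin 3} {y : Fin m → ℝ} {γ W ξ δ c : ℝ} {S : Set ℕ}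
    (hS : ∀ a ∈ S, a ∈ lines A.T → ‖g a - y‖ ≤ γ → |A.ht p a| ≤ 9 * 2 ^ l → |w a| ≤ W)
    (hγ : m * (C * γ) ≤ u) (hξ : |(Q.z p).1 - ξ| ≤ δ) (hδ : δ * W ≤ u)
    (h1 : c / 2 * 4 ^ l ≤ cnt (A.TW p l) fun t => ‖g (t β) - y‖ ≤ γ)
    (h2 : cnt (A.TW p l) (fun t => ∃ i, t i ∉ S) ≤ c / 4 * 4 ^ l) {V : ℝ → Prop}
    (hV : ∀ s, |s - F p ⬝ᵥ y| ≤ 3 * u → V s) :
    c / 4 * 4 ^ l ≤ cnt (A.TW p l) fun t =>
      t β ∈ {a | ‖g a - y‖ ≤ γ ∧ |w a| ≤ W ∧ V (σ a + ξ * w a)} := by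
  have h3 : cnt (A.TW p l) (fun t => ‖g (t β) - y‖ ≤ γ) ≤ cnt (A.TW p l) (fun t =>
      t β ∈ {a | ‖g a - y‖ ≤ γ ∧ |w a| ≤ W ∧ V (σ a + ξ * w a)}) +
      cnt (A.TW p l) fun t => ∃ i, t i ∉ S := by
    refine cnt_or fun t ht c1 => ?_
    by_cases c2 : t β ∈ S
    · have c3 := hS _ c2 (mem_lines.2 ⟨t, TW_sub _ _ ht, β, rfl⟩) c1 (hA.ht_TW ht β)
      exact Or.inl ⟨c1, c3, hV _ (regf_near h (regf_cen hp (by norm_num) (by norm_num)) ht c1 hγ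
        c3 hξ hδ)⟩
    · exact Or.inr ⟨β, c2⟩
  linarith

end Det

variable {r : ℕ} {A : ℕ → Arr ℕ} {Q : ℕ → Bx} {β : Fin 3} {g : ℕ → ℕ → Fin (r + 2) → ℝ}
  {σ w : ℕ → ℕ → ℝ} {F : ℕ → Cell → Fin (r + 2) → ℝ} {C : ℝ}

theorem regf_few (h : BD A Q g σ w F) (hC : FBd Q F C) (l : ℕ) {u θ : ℝ} (hu : 0 < u)
    (hθ : 0 < θ) : ∀ᶠ n in UU,
      (Q n).fr (fun p => ¬ regf_ok (A n) (Q n) (g n) (σ n) (w n) (F n) C u l p) ≤ θ := by
  filter_upwards [h.fd l _ (lt_min hu (half_pos hθ)), hC _ (half_pos hθ)] with n a b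
  refine (fr_or fun p _ c => ?_).trans
    ((add_le_add (a.trans (min_le_right _ _)) b).trans_eq (add_halves θ))
  by_contra hc
  rw [not_or, not_not, not_and, not_lt] at hc
  exact c ⟨fun t ht i => (hc.1 t ht i).trans (min_le_left _ _), hc.2⟩

theorem regf_k (D W : ℝ) {u : ℝ} (hu : 0 < u) :
    ∀ᶠ k : ℕ in atTop, D / 2 ^ k * W ≤ u ∧ D / 2 ^ k ≤ 1 / 40 := by
  have h1 : Tendsto (fun k : ℕ => D / (2 : ℝ) ^ k) atTop (nhds 0) :=
    (tendsto_pow_atTop_atTop_of_one_lt one_lt_two).const_div_atTop D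
  have h2 := h1.mul_const W
  rw [zero_mul] at h2
  exact (h2.eventually_le_const hu).and (h1.eventually_le_const (by norm_num))

/-- the scalar statement -/
theorem regf_scalar (hG : Good A Q) (hN : NA A Q β) (hL : Lb0 A Q β g) (h : BD A Q g σ w F)
    (hC : FBd Q F C) (h0 : 0 < C) {y : Fin (r + 2) → ℝ} (hy : Supp A Q g β y) {u : ℝ}
    (hu : 0 < u) : ∀ᶠ k in atTop, ∀ κ : ℝ, 0 < κ → ∀ᶠ n in UU, ∀ b b', regf_adj (Q n) k b b' →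
      ∀ τ, κ ≤ b.fr (fun p => F n p ⬝ᵥ y ≤ τ) → κ ≤ b'.fr (fun p => τ + 13 * u ≤ F n p ⬝ᵥ y) →
        False := by
  obtain ⟨γ, hγ, hγ1⟩ : ∃ γ : ℝ, 0 < γ ∧ ((r + 2 : ℕ) : ℝ) * (C * (2 * γ)) ≤ u :=
    ⟨u / (2 * ((r + 2 : ℕ) : ℝ) * C), by positivity, le_of_eq (by field_simp)⟩
  obtain ⟨c, hc, hy1⟩ := hy γ hγ
  have hom := hL.hom β y γ c hγ hc hy1
  obtain ⟨K, hK, hband⟩ := band hG
  obtain ⟨D, hD⟩ := crossC hG hN (c := c / 4) (by positivity)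
  obtain ⟨W, hW⟩ : ∃ W, W = 100 * (((r + 2 : ℕ) : ℝ) * (C * (‖y‖ + 2 * γ)) + u) := ⟨_, rfl⟩
  filter_upwards [regf_k (((D + 1 : ℕ) : ℝ) + 1) W hu] with k hk κ hκ
  obtain ⟨η, θ, hη, hθ, hcr⟩ := hD (κ / 2) (half_pos hκ)
  have k4 : 0 < κ / (4 * 4 ^ k) := by positivity
  have k1 : 0 < c / (4 * K) := by positivity
  obtain ⟨θ0, hθ0, hb⟩ := hband _ _ k1 (lt_min (by norm_num : (0 : ℝ) < 1 / 1000) k4)
  obtain ⟨θs, s0, s1, s2, s3⟩ : ∃ θs : ℝ, 0 < θs ∧ θs ≤ θ0 ∧ θs ≤ θ / 4 ^ k ∧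
      θs ≤ κ / (4 * 4 ^ k) :=
    ⟨min θ0 (min (θ / 4 ^ k) (κ / (4 * 4 ^ k))), lt_min hθ0 (lt_min (by positivity) k4),
      min_le_left _ _, (min_le_right _ _).trans (min_le_left _ _),
      (min_le_right _ _).trans (min_le_right _ _)⟩
  obtain ⟨l, l1, l2, l3⟩ := ((hcr k).and (hb.and (hom _ (half_pos s0)))).exists
  filter_upwards [l1, l2, l3, regf_few h hC l hu (half_pos s0),
    dya_small hG.val.big (9 * 2 ^ l) (by norm_num : (0 : ℝ) < 1 / 400)] with n a1 a2 a3 a4 a5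
    b b' hbb τ v1 v2
  rw [div_le_iff₀ (by positivity)] at a5
  have hA := hG.val.ok n
  obtain ⟨bad, e1, e2⟩ : ∃ bad : Cell → Prop, (Q n).fr bad ≤ θs ∧ ∀ p, ¬ bad p →
      regf_ok (A n) (Q n) (g n) (σ n) (w n) (F n) C u l p ∧
        c / 2 * 4 ^ l ≤ cnt ((A n).TW p l) fun t => ‖g n (t β) - y‖ ≤ 2 * γ :=
    ⟨_, (fr_or fun p _ x => x).trans ((add_le_add a4 a3).trans_eq (add_halves θs)),
      fun p x => by simpa only [not_or, not_not] using x⟩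
  obtain ⟨S, f1, f2⟩ := a2 bad (e1.trans s1)
  have eK : K * (c / (4 * K)) = c / 4 := by field_simp
  rw [eK] at f1
  have hB : (Q n).fr (fun p => bad p ∨
      c / 4 * 4 ^ l < cnt ((A n).TW p l) fun t => ∃ i, t i ∉ S) ≤ κ / (2 * 4 ^ k) := by
    refine (fr_or fun p _ x => x).trans ((add_le_add (e1.trans s3)
      (f1.trans (min_le_right _ _))).trans_eq ?_)
    field_simp
    norm_num
  have hS : ∀ p, (Q n).z p ∈ Cen (29 / 100) → ∀ a ∈ S, a ∈ lines (A n).T →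
      ‖g n a - y‖ ≤ 2 * γ → |(A n).ht p a| ≤ 9 * 2 ^ l → |w n a| ≤ W := by
    intro p hp a x1 x2 x3 x4
    refine (regf_wbd hA (fun p x => (e2 p x).1) x2 k1 a5 ((f2 a x1).trans ?_) hp x4).trans ?_
    · gcongr
      exact min_le_left _ _
    · have x5 : ‖g n a‖ ≤ ‖y‖ + 2 * γ := by linarith [norm_sub_norm_le (g n a) y]
      rw [hW]
      gcongr
  have side : ∀ b'', regf_adj (Q n) k b b'' → ∀ V V' : ℝ → Prop,
      (∀ s s', V s → |s' - s| ≤ 3 * u → V' s') → κ ≤ b''.fr (fun p => V (F n p ⬝ᵥ y)) →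
      ∃ P ⊆ b''.cells, κ / 2 * 4 ^ b.j ≤ #P ∧ ∀ p ∈ P, c / 4 * 4 ^ l ≤ cnt ((A n).TW p l)
        fun t => t β ∈ {a | ‖g n a - y‖ ≤ 2 * γ ∧ |w n a| ≤ W ∧
          V' (σ n a + ((Q n).z b.o).1 * w n a)} := by
    intro b'' x V V' hV x1
    obtain ⟨P, y1, y2, y3⟩ := regf_rem x.symm.1
      (fun p hp => (x.2.2.2.2 p (mem_union_right _ hp)).1) x1 hB
    refine ⟨P, y1, by rwa [← x.2.1], fun p hp => ?_⟩
    obtain ⟨y4, y5⟩ := y3 p hp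
    rw [not_or, not_lt] at y5
    have y6 := (x.2.2.2.2 p (mem_union_right _ (y1 hp))).2
    exact regf_side hA (e2 p y5.1).1 y6 (hS p y6) hγ1 (regf_nb x.1 (x.nb D (y1 hp))).1 hk.1
      (e2 p y5.1).2 y5.2 fun s => hV _ s y4
  obtain ⟨P, g1, g2, g3⟩ := side b hbb.refl (fun s => s ≤ τ) (fun s => s ≤ τ + 3 * u)
    (fun s s' x1 x2 => by linarith [(abs_le.1 x2).2]) v1
  obtain ⟨P', g4, g5, g6⟩ := side b' hbb (fun s => τ + 13 * u ≤ s) (fun s => τ + 10 * u ≤ s)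
    (fun s s' x1 x2 => by linarith [(abs_le.1 x2).1]) v2
  have hnb : ∀ q ∈ b.nb D, q ∈ b.nb (D + 1) := fun q hq => by
    rw [basea_mem_nb] at hq ⊢
    omega
  have hcen : ∀ q ∈ b.nb D, (Q n).z q ∈ Cen (1 / 4) := fun q hq =>
    regf_cen (hbb.2.2.2.2 _ (mem_union_left _ (regf_o b))).2
      ((regf_nb hbb.1 (hnb q hq)).1.trans hk.2) ((regf_nb hbb.1 (hnb q hq)).2.trans hk.2)
  obtain ⟨q, q1, q2, q3, q4⟩ := a1 bad b b' P P' _ _ (e1.trans s2) hbb.1 hbb.2.1 hbb.2.2.1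
    hbb.2.2.2.1 (fun q hq => regf_mem (hcen q hq)) g1 g4 g2 g5 g3 g6
  have p4 : 0 < η * 4 ^ l := by positivity
  obtain ⟨t, ht, t1, t2, t3⟩ := exists_of_cnt_pos (p4.trans_le q3)
  obtain ⟨t', ht', t4, t5, t6⟩ := exists_of_cnt_pos (p4.trans_le q4)
  have z1 := regf_near (e2 q q2).1 (hcen q q1) ht t1 hγ1 t2 (regf_nb hbb.1 (hnb q q1)).1 hk.1
  have z2 := regf_near (e2 q q2).1 (hcen q q1) ht' t4 hγ1 t5 (regf_nb hbb.1 (hnb q q1)).1 hk.1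
  linarith [(abs_le.1 z1).1, (abs_le.1 z2).2]

/-- the field is regular -/
theorem BD.reg {r : ℕ} {A : ℕ → Arr ℕ} {Q : ℕ → Bx} {β : Fin 3} {g : ℕ → ℕ → Fin (r + 2) → ℝ}
    {σ w : ℕ → ℕ → ℝ} {F : ℕ → Cell → Fin (r + 2) → ℝ} {C : ℝ} (hG : Good A Q) (hN : NA A Q β)
    (hL : Lb0 A Q β g) (h : BD A Q g σ w F) (hC : FBd Q F C) : FReg Q F := by
  have hC' : FBd Q F (max C 1) := fun θ hθ => (hC θ hθ).mono fun n a =>
    (fr_mono fun p _ x => ⟨x.1, (le_max_left _ _).trans_lt x.2⟩).trans a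
  obtain ⟨δ, d1, d2, -⟩ := hG.dens
  obtain ⟨C0, h0, y, y1, y2, y3⟩ := hL.supp_span hG.val ⟨δ, d1, d2⟩
  intro ε hε
  have hu : 0 < ε / (13 * C0) := by positivity
  filter_upwards [eventually_all.2 fun m => regf_scalar hG hN hL h hC'
    (lt_max_of_lt_right one_pos) (y1 m) hu] with k hk κ hκ
  obtain ⟨κ', k0, k1, k2⟩ : ∃ κ' : ℝ, 0 < κ' ∧ κ' ≤ 1 / 2 ∧ ((r + 2 : ℕ) : ℝ) * (2 * κ') ≤ κ := by
    refine ⟨min (1 / 2) (κ / (2 * ((r + 2 : ℕ) : ℝ))), lt_min (by norm_num) (by positivity),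
      min_le_left _ _, le_trans (mul_le_mul_of_nonneg_left (mul_le_mul_of_nonneg_left
        (min_le_right _ _) zero_le_two) (Nat.cast_nonneg _)) (le_of_eq ?_)⟩
    field_simp
  filter_upwards [eventually_all.2 fun m => hk m κ' k0] with n hn b b' a1 a2 a3 a4 a5
  have hb : regf_adj (Q n) k b b' := ⟨a1, a2, a3, a4, a5⟩
  choose τ t1 t2 using fun m => regf_med b fun p => F n p ⬝ᵥ y m
  obtain ⟨v, hv⟩ := y2 τ
  have key : ∀ b'', regf_adj (Q n) k b b'' → b''.fr (fun p => ε < ‖F n p - v‖) ≤ κ := by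
    intro b'' x
    have h1 : ∀ m, b''.fr (fun p => τ m + 13 * (ε / (13 * C0)) ≤ F n p ⬝ᵥ y m ∨
        F n p ⬝ᵥ y m ≤ τ m - 13 * (ε / (13 * C0))) ≤ 2 * κ' := by
      intro m
      have h2 := not_le.1 (hn m b b'' x (τ m) (k1.trans (t1 m)))
      have h3 := not_le.1 fun c => hn m b'' b x.symm (τ m - 13 * (ε / (13 * C0))) c
        (by simpa only [sub_add_cancel] using k1.trans (t2 m))
      exact (fr_or fun p _ c => c).trans (by linarith)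
    have h4 := regf_union b'' h1 univ
    rw [card_univ, Fintype.card_fin] at h4
    refine le_trans (fr_mono fun p _ c => ?_) (h4.trans k2)
    by_contra hc
    simp only [mem_univ, true_and, not_exists, not_or, not_le] at hc
    have h5 := y3 (F n p - v) (13 * (ε / (13 * C0))) fun m => by
      rw [sub_dotProduct, hv, abs_le]
      constructor <;> linarith [(hc m).1, (hc m).2]
    have h6 : C0 * (13 * (ε / (13 * C0))) = ε := by field_simp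
    linarith
  exact ⟨v, key b hb.refl, key b' hb⟩

end Pool.Agent.MP_38296a_co.H21

end FileRegF

section FileLimF

set_option autoImplicit false

namespace Pool.Agent.MP_38296a_co.H21

open Finset Filter Classical

noncomputable section

/-- the dyadic square of depth `k` containing `z` -/
def limfFl (k : ℕ) (z : ℝ × ℝ) : ℤ × ℤ := (⌊2 ^ k * z.1⌋, ⌊2 ^ k * z.2⌋)

/-- the sub-box of depth `k` at the position `s` -/
def limfB (Q : Bx) (k : ℕ) (s : ℤ × ℤ) : Bx := ⟨Q.j - k, Q.u * 2 ^ k + s.1, Q.v * 2 ^ k + s.2⟩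

/-- `v` is a centre of the values in the sub-box -/
def LimfC {m : ℕ} (Q : ℕ → Bx) (F : ℕ → Cell → Fin m → ℝ) (e : ℝ) (k : ℕ) (z : ℝ × ℝ)
    (v : Fin m → ℝ) : Prop :=
  ∀ κ : ℝ, 0 < κ → ∀ᶠ n in UU, (limfB (Q n) k (limfFl k z)).fr (fun p => e < ‖F n p - v‖) ≤ κ

theorem limf_div (d : ℕ) (x : ℝ) : ⌊x / 2 ^ d⌋ = ⌊x⌋ / 2 ^ d := by
  have := Int.floor_div_natCast x (2 ^ d)
  push_cast at this
  exact this

theorem limf_floor {k j : ℕ} (h : k ≤ j) (p u : ℤ) :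
    ⌊(2 : ℝ) ^ k * (((p : ℝ) - ((u * 2 ^ j : ℤ) : ℝ)) / 2 ^ j)⌋ = p / 2 ^ (j - k) - u * 2 ^ k := by
  obtain ⟨d, rfl⟩ := Nat.exists_eq_add_of_le h
  have e : (2 : ℝ) ^ k * (((p : ℝ) - ((u * 2 ^ (k + d) : ℤ) : ℝ)) / 2 ^ (k + d)) =
      (p : ℝ) / 2 ^ d - ((u * 2 ^ k : ℤ) : ℝ) := by
    push_cast
    rw [pow_add]
    field_simp
  rw [e, Int.floor_sub_intCast, limf_div, Int.floor_intCast, Nat.add_sub_cancel_left]

theorem limf_mem {Q : Bx} {k : ℕ} (h : k ≤ Q.j) {s : ℤ × ℤ} {p : Cell} :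
    p ∈ (limfB Q k s).cells ↔ limfFl k (Q.z p) = s := by
  rw [mem_cells, Bx.ext_iff, Prod.ext_iff]
  simp only [anc, limfB, limfFl, Bx.z, Bx.o, true_and]
  rw [limf_floor h, limf_floor h]
  omega

theorem limf_near1 {k : ℕ} {x y : ℝ} (h : ⌊2 ^ k * x⌋ = ⌊2 ^ k * y⌋) : |x - y| < 1 / 2 ^ k := by
  have h1 := Int.abs_sub_lt_one_of_floor_eq_floor h
  have h2 : (0 : ℝ) < 2 ^ k := by positivity
  rw [← mul_sub, abs_mul, abs_of_pos h2] at h1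
  rw [lt_div_iff₀ h2]
  linarith

theorem limf_near {k : ℕ} {z z' : ℝ × ℝ} (h : limfFl k z = limfFl k z') :
    |z.1 - z'.1| < 1 / 2 ^ k ∧ |z.2 - z'.2| < 1 / 2 ^ k :=
  ⟨limf_near1 (congrArg Prod.fst h), limf_near1 (congrArg Prod.snd h)⟩

theorem limf_adj {k : ℕ} {x y : ℝ} (h : |x - y| < 1 / 2 ^ k) :
    |⌊2 ^ k * x⌋ - ⌊2 ^ k * y⌋| ≤ 1 := by
  have h2 : (0 : ℝ) < 2 ^ k := by positivity
  rw [lt_div_iff₀ h2, ← abs_of_pos h2, ← abs_mul, abs_lt] at h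
  have a1 := Int.floor_le (2 ^ k * x)
  have a2 := Int.lt_floor_add_one (2 ^ k * x)
  have a3 := Int.floor_le (2 ^ k * y)
  have a4 := Int.lt_floor_add_one (2 ^ k * y)
  have b1 : ((⌊2 ^ k * x⌋ - ⌊2 ^ k * y⌋ : ℤ) : ℝ) < ((2 : ℤ) : ℝ) := by
    push_cast
    linarith [h.2]
  have b2 : ((-2 : ℤ) : ℝ) < ((⌊2 ^ k * x⌋ - ⌊2 ^ k * y⌋ : ℤ) : ℝ) := by
    push_cast
    linarith [h.1]
  have c1 := Int.cast_lt.1 b1
  have c2 := Int.cast_lt.1 b2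
  rw [abs_le]
  omega

theorem limf_fl_le {k k' : ℕ} (h : k ≤ k') {z z' : ℝ × ℝ} (e : limfFl k' z = limfFl k' z') :
    limfFl k z = limfFl k z' := by
  obtain ⟨d, rfl⟩ := Nat.exists_eq_add_of_le h
  have key : ∀ x : ℝ, ⌊2 ^ k * x⌋ = ⌊2 ^ (k + d) * x⌋ / 2 ^ d := fun x => by
    rw [← limf_div]
    congr 1
    rw [pow_add]
    field_simp
  simp only [limfFl, Prod.mk.injEq] at e ⊢
  rw [key, key z'.1, key z.2, key z'.2, e.1, e.2]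
  exact ⟨rfl, rfl⟩

theorem limf_in {Q : Bx} {p : Cell} (h : Q.z p ∈ Cen (1 / 4)) : p ∈ Q.cells := by
  have e : limfB Q 0 (0, 0) = Q := by simp [limfB]
  obtain ⟨⟨h1, h2⟩, h3, h4⟩ := h
  rw [← e, limf_mem (Nat.zero_le _)]
  simp only [limfFl, pow_zero, one_mul, Prod.mk.injEq, Int.floor_eq_zero_iff, Set.mem_Ico]
  refine ⟨⟨?_, ?_⟩, ?_, ?_⟩ <;> linarith

theorem limf_cen {Q : Bx} {k : ℕ} (h : k ≤ Q.j) (hk : 7 ≤ k) {z : ℝ × ℝ} (hz : z ∈ Cen (3 / 10))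
    {p : Cell} (hp : p ∈ (limfB Q k (limfFl k z)).cells) :
    p ∈ Q.cells ∧ Q.z p ∈ Cen (29 / 100) ∧ Q.z p ∈ Cen (1 / 4) := by
  obtain ⟨a, b⟩ := limf_near ((limf_mem h).1 hp)
  have h1 : (1 : ℝ) / 2 ^ k ≤ 1 / 2 ^ 7 :=
    one_div_le_one_div_of_le (by positivity) (pow_le_pow_right₀ one_le_two hk)
  obtain ⟨⟨z1, z2⟩, z3, z4⟩ := hz
  rw [abs_lt] at a b
  have h2 : Q.z p ∈ Cen (1 / 4) := by
    refine ⟨⟨?_, ?_⟩, ?_, ?_⟩ <;> linarith [a.1, a.2, b.1, b.2]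
  refine ⟨limf_in h2, ⟨⟨?_, ?_⟩, ?_, ?_⟩, h2⟩ <;> linarith [a.1, a.2, b.1, b.2]

theorem limf_fr {b b' : Bx} {d : ℕ} (hj : b.j + d = b'.j) {P P' : Cell → Prop}
    (h : ∀ p ∈ b.cells, P p → p ∈ b'.cells ∧ P' p) : b.fr P ≤ 4 ^ d * b'.fr P' := by
  have h1 := cnt_mono h
  rw [Bx.fr, Bx.fr, ← hj, pow_add]
  calc _ ≤ cnt b'.cells P' / 4 ^ b.j := div_le_div_of_nonneg_right h1 (by positivity)
    _ = _ := by field_simp

theorem limf_two {b : Bx} {P P' : Cell → Prop} (h : b.fr P ≤ 1 / 3) (h' : b.fr P' ≤ 1 / 3) :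
    ∃ p, ¬ P p ∧ ¬ P' p := by
  by_contra hc
  have h1 : b.fr (fun p => ¬ P p) ≤ b.fr P' := fr_mono fun p _ hp => by
    by_contra hq
    exact hc ⟨p, hp, hq⟩
  have h2 := fr_add_not b P
  linarith

theorem limf_close {m : ℕ} {b : Bx} {f : Cell → Fin m → ℝ} {v v' : Fin m → ℝ} {e e' : ℝ}
    (h : b.fr (fun p => e < ‖f p - v‖) ≤ 1 / 3) (h' : b.fr (fun p => e' < ‖f p - v'‖) ≤ 1 / 3) :
    ‖v - v'‖ ≤ e + e' := by
  obtain ⟨p, h1, h2⟩ := limf_two h h'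
  have h3 := norm_sub_le_norm_sub_add_norm_sub v (f p) v'
  rw [norm_sub_rev v (f p)] at h3
  linarith [not_lt.1 h1, not_lt.1 h2]

theorem limf_shift {m : ℕ} {b : Bx} {f : Cell → Fin m → ℝ} {v v' : Fin m → ℝ} {e e' : ℝ}
    (h : e + ‖v - v'‖ ≤ e') :
    b.fr (fun p => e' < ‖f p - v'‖) ≤ b.fr fun p => e < ‖f p - v‖ :=
  fr_mono fun p _ hp => by
    have := norm_sub_le_norm_sub_add_norm_sub (f p) v v'
    linarith

section
variable {m : ℕ} {Q : ℕ → Bx} {F : ℕ → Cell → Fin m → ℝ} {C : ℝ}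

theorem LimfC.shift {e e' : ℝ} {k : ℕ} {z : ℝ × ℝ} {v v' : Fin m → ℝ} (h : LimfC Q F e k z v)
    (he : e + ‖v - v'‖ ≤ e') : LimfC Q F e' k z v' := fun κ hκ =>
  (h κ hκ).mono fun _ hn => (limf_shift he).trans hn

theorem LimfC.deep (hj : Tendsto (fun n => (Q n).j) UU atTop) {e : ℝ} {k k' : ℕ} {z : ℝ × ℝ}
    {v : Fin m → ℝ} (h : LimfC Q F e k z v) (hk : k ≤ k') : LimfC Q F e k' z v := by
  intro κ hκ
  filter_upwards [h (κ / 4 ^ (k' - k)) (by positivity), hj.eventually_ge_atTop k'] with n h1 h2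
  have h3 := limf_fr (b := limfB (Q n) k' (limfFl k' z)) (b' := limfB (Q n) k (limfFl k z))
    (d := k' - k) (by simp only [limfB]; omega) (P := fun p => e < ‖F n p - v‖)
    (P' := fun p => e < ‖F n p - v‖) fun p hp hP =>
      ⟨(limf_mem (hk.trans h2)).2 (limf_fl_le hk ((limf_mem h2).1 hp)), hP⟩
  rw [le_div_iff₀ (by positivity)] at h1
  linarith

theorem LimfC.close (hj : Tendsto (fun n => (Q n).j) UU atTop) {e e' : ℝ} {k k' : ℕ} {z : ℝ × ℝ}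
    {v v' : Fin m → ℝ} (h : LimfC Q F e k z v) (h' : LimfC Q F e' k' z v') :
    ‖v - v'‖ ≤ e + e' := by
  have : UU.NeBot := (hyperfilter ℕ).neBot
  obtain ⟨n, h1, h2⟩ := ((h.deep hj (le_max_left k k') (1 / 3) (by norm_num)).and
    (h'.deep hj (le_max_right k k') (1 / 3) (by norm_num))).exists
  exact limf_close h1 h2

/-- the regularity hypothesis for the squares of two close points -/
theorem limf_reg (hj : Tendsto (fun n => (Q n).j) UU atTop) (hR : FReg Q F) {ε : ℝ} (hε : 0 < ε) :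
    ∀ᶠ k in atTop, 7 ≤ k ∧ ∀ z ∈ Cen (3 / 10), ∀ z' ∈ Cen (3 / 10), |z.1 - z'.1| < 1 / 2 ^ k →
      |z.2 - z'.2| < 1 / 2 ^ k → ∀ κ : ℝ, 0 < κ → ∀ᶠ n in UU, ∃ v,
        (limfB (Q n) k (limfFl k z)).fr (fun p => ε < ‖F n p - v‖) ≤ κ ∧
        (limfB (Q n) k (limfFl k z')).fr (fun p => ε < ‖F n p - v‖) ≤ κ := by
  filter_upwards [hR ε hε, eventually_ge_atTop 7] with k h1 h2
  refine ⟨h2, fun z hz z' hz' a b κ hκ => ?_⟩
  filter_upwards [h1 κ hκ, hj.eventually_ge_atTop k] with n h3 h4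
  refine h3 _ _ (by simp only [limfB]; omega) rfl ?_ ?_ fun p hp => ?_
  · simpa only [limfB, limfFl, add_sub_add_left_eq_sub] using limf_adj a
  · simpa only [limfB, limfFl, add_sub_add_left_eq_sub] using limf_adj b
  · rcases mem_union.1 hp with hp | hp
    · exact ⟨(limf_cen h4 h2 hz hp).1, (limf_cen h4 h2 hz hp).2.1⟩
    · exact ⟨(limf_cen h4 h2 hz' hp).1, (limf_cen h4 h2 hz' hp).2.1⟩

theorem limf_ex (hj : Tendsto (fun n => (Q n).j) UU atTop) (hC : FBd Q F C) (hR : FReg Q F)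
    {e : ℝ} (he : 0 < e) : ∃ k, ∀ z ∈ Cen (3 / 10), ∃ v, LimfC Q F e k z v := by
  obtain ⟨k, h7, h1⟩ := (limf_reg hj hR (ε := e / 4) (by positivity)).exists
  refine ⟨k, fun z hz => ?_⟩
  have h2 := h1 z hz z hz (by simp) (by simp)
  obtain ⟨c, hc⟩ := UU_choose (h2 (1 / 3) (by norm_num))
  have h3 : ∀ᶠ n in UU, c n ∈ Metric.closedBall (0 : Fin m → ℝ) (C + e / 4) := by
    filter_upwards [hc, hC (1 / 3 / 4 ^ k) (by positivity), hj.eventually_ge_atTop k]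
      with n a b d
    have h4 := limf_fr (b := limfB (Q n) k (limfFl k z)) (b' := Q n) (d := k)
      (by simp only [limfB]; omega) (P := fun p => C < ‖F n p - 0‖)
      (P' := fun p => (Q n).z p ∈ Cen (1 / 4) ∧ C < ‖F n p‖) fun p hp hP =>
        ⟨(limf_cen d h7 hz hp).1, (limf_cen d h7 hz hp).2.2, by simpa using hP⟩
    rw [le_div_iff₀ (by positivity)] at b
    have h5 := limf_close a.1 (h4.trans (by linarith))
    rw [mem_closedBall_zero_iff]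
    rw [sub_zero] at h5
    linarith
  obtain ⟨v, -, hv⟩ := (isCompact_closedBall (0 : Fin m → ℝ) (C + e / 4)).ultrafilter_le_nhds
    ((hyperfilter ℕ).map c) (le_principal_iff.2 h3)
  have h4 : ∀ᶠ n in UU, c n ∈ Metric.closedBall v (e / 4) :=
    hv (Metric.closedBall_mem_nhds v (by positivity))
  refine ⟨v, fun κ hκ => ?_⟩
  filter_upwards [hc, h4, h2 (min κ (1 / 3)) (by positivity)] with n a b ⟨w, d, _⟩
  have h5 := limf_close (d.trans (min_le_right _ _)) a.1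
  rw [mem_closedBall_iff_norm] at b
  have h6 := norm_sub_le_norm_sub_add_norm_sub w (c n) v
  exact (limf_shift (by linarith)).trans (d.trans (min_le_left _ _))

theorem limf_G (hj : Tendsto (fun n => (Q n).j) UU atTop) (hC : FBd Q F C) (hR : FReg Q F) :
    ∃ G : ℝ × ℝ → Fin m → ℝ, ∀ e : ℝ, 0 < e → ∀ᶠ k in atTop, ∀ z ∈ Cen (3 / 10),
      LimfC Q F e k z (G z) := by
  choose K hK using fun i : ℕ => limf_ex hj hC hR (e := 1 / ((i : ℝ) + 1)) (by positivity)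
  have h0 : Tendsto (fun i : ℕ => 1 / ((i : ℝ) + 1)) atTop (nhds 0) :=
    tendsto_one_div_add_atTop_nhds_zero_nat
  have key : ∀ z ∈ Cen (3 / 10), ∃ v, ∀ i : ℕ, LimfC Q F (2 * (1 / ((i : ℝ) + 1))) (K i) z v := by
    intro z hz
    choose c hc using fun i => hK i z hz
    have h1 : ∀ i i', ‖c i - c i'‖ ≤ 1 / ((i : ℝ) + 1) + 1 / ((i' : ℝ) + 1) := fun i i' =>
      (hc i).close hj (hc i')
    have h2 : CauchySeq c := by
      refine cauchySeq_of_le_tendsto_0 (fun N : ℕ => 2 * (1 / ((N : ℝ) + 1)))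
        (fun i i' N a b => ?_) (by simpa using h0.const_mul 2)
      have a' := Nat.one_div_le_one_div (α := ℝ) a
      have b' := Nat.one_div_le_one_div (α := ℝ) b
      rw [dist_eq_norm]
      linarith [h1 i i']
    obtain ⟨v, hv⟩ := cauchySeq_tendsto_of_complete h2
    refine ⟨v, fun i => (hc i).shift ?_⟩
    have h3 : ‖c i - v‖ ≤ 1 / ((i : ℝ) + 1) + 0 :=
      le_of_tendsto_of_tendsto' (tendsto_const_nhds.sub hv).norm (tendsto_const_nhds.add h0) (h1 i)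
    linarith
  choose! G hG using key
  refine ⟨G, fun e he => ?_⟩
  obtain ⟨i, hi⟩ := exists_nat_one_div_lt (K := ℝ) (half_pos he)
  filter_upwards [eventually_ge_atTop (K i)] with k hk z hz
  exact ((hG z hz i).deep hj hk).shift (by rw [sub_self, norm_zero]; linarith)

theorem limf_uc (hj : Tendsto (fun n => (Q n).j) UU atTop) (hR : FReg Q F)
    {G : ℝ × ℝ → Fin m → ℝ} (hG : ∀ e : ℝ, 0 < e → ∀ᶠ k in atTop, ∀ z ∈ Cen (3 / 10),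
      LimfC Q F e k z (G z)) {ε : ℝ} (hε : 0 < ε) :
    ∀ᶠ k in atTop, ∀ z ∈ Cen (3 / 10), ∀ z' ∈ Cen (3 / 10), |z.1 - z'.1| < 1 / 2 ^ k →
      |z.2 - z'.2| < 1 / 2 ^ k → ‖G z - G z'‖ ≤ ε := by
  have : UU.NeBot := (hyperfilter ℕ).neBot
  filter_upwards [limf_reg hj hR (ε := ε / 4) (by positivity), hG (ε / 4) (by positivity)]
    with k h1 h2 z hz z' hz' a b
  obtain ⟨n, ⟨v, c1, c2⟩, c3, c4⟩ := ((h1.2 z hz z' hz' a b (1 / 3) (by norm_num)).and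
    ((h2 z hz (1 / 3) (by norm_num)).and (h2 z' hz' (1 / 3) (by norm_num)))).exists
  have h3 := limf_close c3 c1
  have h4 := limf_close c2 c4
  have h5 := norm_sub_le_norm_sub_add_norm_sub (G z) v (G z')
  linarith

theorem limf_box {k : ℕ} {z : ℝ × ℝ} (hz : z ∈ Cen (3 / 10)) :
    limfFl k z ∈ (Icc (0, 0) (2 ^ k, 2 ^ k) : Finset (ℤ × ℤ)) := by
  have key : ∀ x : ℝ, 3 / 10 < x → x < 1 - 3 / 10 → 0 ≤ ⌊2 ^ k * x⌋ ∧ ⌊2 ^ k * x⌋ ≤ 2 ^ k :=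
    fun x a b => by
      have h : (0 : ℝ) < 2 ^ k := by positivity
      refine ⟨Int.floor_nonneg.2 (by nlinarith), Int.floor_le_iff.2 ?_⟩
      push_cast
      nlinarith
  obtain ⟨⟨z1, z2⟩, z3, z4⟩ := hz
  exact mem_Icc.2 ⟨⟨(key _ z1 z2).1, (key _ z3 z4).1⟩, (key _ z1 z2).2, (key _ z3 z4).2⟩

end

end

/-- the limit field -/
theorem limF {m : ℕ} {Q : ℕ → Bx} {F : ℕ → Cell → Fin m → ℝ} {C : ℝ}
    (hj : Tendsto (fun n => (Q n).j) UU atTop) (hC : FBd Q F C) (hR : FReg Q F) :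
    ∃ G, ContinuousOn G (Cen (3 / 10)) ∧ FLim Q F G := by
  obtain ⟨G, hG⟩ := limf_G hj hC hR
  refine ⟨G, Metric.continuousOn_iff.2 fun z hz ε hε => ?_, fun ε hε => ?_⟩
  · obtain ⟨k, hk⟩ := (limf_uc hj hR hG (half_pos hε)).exists
    refine ⟨1 / 2 ^ k, by positivity, fun z' hz' hd => ?_⟩
    rw [Prod.dist_eq, max_lt_iff, Real.dist_eq, Real.dist_eq] at hd
    rw [dist_eq_norm]
    exact (hk z' hz' z hz hd.1 hd.2).trans_lt (half_lt_self hε)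
  · obtain ⟨k, h1, h2⟩ := ((limf_uc hj hR hG (half_pos hε)).and (hG _ (half_pos hε))).exists
    have h3 : ∀ s : ℤ × ℤ, ∃ z : ℝ × ℝ, (∃ z' ∈ Cen (3 / 10), limfFl k z' = s) →
        z ∈ Cen (3 / 10) ∧ limfFl k z = s := fun s => by
      by_cases h : ∃ z' ∈ Cen (3 / 10), limfFl k z' = s
      · exact h.imp fun _ a _ => a
      · exact ⟨0, fun a => absurd a h⟩
    choose r hr using h3
    have h4 : ∀ᶠ n in UU, ∀ s ∈ (Icc (0, 0) (2 ^ k, 2 ^ k) : Finset (ℤ × ℤ)),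
        r s ∈ Cen (3 / 10) → (limfB (Q n) k (limfFl k (r s))).fr
          (fun p => ε / 2 < ‖F n p - G (r s)‖) ≤ ε :=
      (eventually_all_finset _).2 fun s _ => by
        by_cases h : r s ∈ Cen (3 / 10)
        · exact (h2 _ h ε hε).mono fun _ a _ => a
        · exact Eventually.of_forall fun _ a => absurd a h
    filter_upwards [h4, hj.eventually_ge_atTop k] with n h5 h6
    rw [fr_eq_avg, ← avg_anc (Nat.sub_le (Q n).j k)]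
    refine (avg_mono fun p _ => ?_).trans (avg_const (Q n) ε).le
    rw [← fr_eq_avg]
    by_cases h : ∃ q ∈ (anc ((Q n).j - k) p).cells, (Q n).z q ∈ Cen (3 / 10)
    · obtain ⟨q, hq, hz⟩ := h
      obtain ⟨r1, r2⟩ := hr _ ⟨_, hz, rfl⟩
      have e : anc ((Q n).j - k) p = limfB (Q n) k (limfFl k (r (limfFl k ((Q n).z q)))) := by
        rw [← anc_eq le_rfl hq]
        exact mem_cells.1 ((limf_mem h6).2 r2.symm)
      rw [e]
      refine le_trans (fr_mono fun q' hq' hP => ?_) (h5 _ (limf_box hz) r1)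
      obtain ⟨a, b⟩ := limf_near ((limf_mem h6).1 hq')
      have h7 := h1 _ hP.1 _ r1 a b
      have h8 := norm_sub_le_norm_sub_add_norm_sub (F n q') (G (r (limfFl k ((Q n).z q))))
        (G ((Q n).z q'))
      rw [norm_sub_rev] at h7
      linarith [hP.2]
    · have h7 : (anc ((Q n).j - k) p).fr (fun _ => False) = 0 := by simp [Bx.fr, cnt]
      exact (fr_mono fun q hq hP => h ⟨q, hq, hP.1⟩).trans (h7.le.trans hε.le)

end Pool.Agent.MP_38296a_co.H21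

end FileLimF

end

-- part MP_38296a_co.H21.FldB
section

section FileAff1

set_option autoImplicit false

namespace Pool.Agent.MP_38296a_co.H21

open Finset Filter Classical

theorem aff_dot {m : ℕ} (u v : Fin m → ℝ) : |u ⬝ᵥ v| ≤ m * (‖u‖ * ‖v‖) := by
  unfold dotProduct
  calc |∑ i, u i * v i| ≤ ∑ i, |u i * v i| := abs_sum_le_sum_abs _ _
    _ ≤ ∑ _i : Fin m, ‖u‖ * ‖v‖ := by
        refine sum_le_sum fun i _ => ?_
        rw [abs_mul]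
        exact mul_le_mul (by simpa using norm_le_pi_norm u i) (by simpa using norm_le_pi_norm v i)
          (abs_nonneg _) (norm_nonneg _)
    _ = m * (‖u‖ * ‖v‖) := by simp

theorem aff_mem_Cen {ζ : ℝ} {z : ℝ × ℝ} :
    z ∈ Cen ζ ↔ ζ < z.1 ∧ z.1 < 1 - ζ ∧ ζ < z.2 ∧ z.2 < 1 - ζ := by
  simp [Cen, Set.mem_prod, and_assoc]

theorem aff_term {a a' v φ e C : ℝ} (ha : |a - a'| ≤ 2 * e) (ha' : |a'| ≤ 3)
    (hv : |φ - v| ≤ C * e) : |a * v - a' * φ| ≤ (2 * |v| + 3 * C) * e := by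
  have h1 : a * v - a' * φ = (a - a') * v - a' * (φ - v) := by ring
  rw [h1]
  calc |(a - a') * v - a' * (φ - v)| ≤ |(a - a') * v| + |a' * (φ - v)| := abs_sub _ _
    _ = |a - a'| * |v| + |a'| * |φ - v| := by rw [abs_mul, abs_mul]
    _ ≤ 2 * e * |v| + 3 * (C * e) := by
        refine add_le_add (mul_le_mul_of_nonneg_right ha (abs_nonneg _)) ?_
        exact mul_le_mul ha' hv (abs_nonneg _) (by norm_num)
    _ = (2 * |v| + 3 * C) * e := by ring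

/-- limits of affine functions are affine -/
theorem aff_lim {ξ1 ξ2 ξ3 v1 v2 v3 C : ℝ} (hC : 0 ≤ C) (h1 : 0 ≤ ξ1 ∧ ξ1 ≤ 1)
    (h2 : 0 ≤ ξ2 ∧ ξ2 ≤ 1) (h3 : 0 ≤ ξ3 ∧ ξ3 ≤ 1)
    (h : ∀ e : ℝ, 0 < e → e ≤ 1 → ∃ s w η1 η2 η3 : ℝ,
      (|η1 - ξ1| ≤ e ∧ |s + η1 * w - v1| ≤ C * e) ∧ (|η2 - ξ2| ≤ e ∧ |s + η2 * w - v2| ≤ C * e) ∧
        (|η3 - ξ3| ≤ e ∧ |s + η3 * w - v3| ≤ C * e)) :
    (ξ2 - ξ3) * v1 + (ξ3 - ξ1) * v2 + (ξ1 - ξ2) * v3 = 0 := by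
  set D : ℝ := (2 * |v1| + 3 * C) + (2 * |v2| + 3 * C) + (2 * |v3| + 3 * C) with hD
  have hD0 : 0 ≤ D := by positivity
  have key : ∀ e : ℝ, 0 < e → e ≤ 1 →
      |(ξ2 - ξ3) * v1 + (ξ3 - ξ1) * v2 + (ξ1 - ξ2) * v3| ≤ D * e := by
    intro e he he1
    obtain ⟨s, w, η1, η2, η3, ⟨a1, b1⟩, ⟨a2, b2⟩, a3, b3⟩ := h e he he1
    rw [abs_le] at a1 a2 a3
    have t1 := aff_term (a := ξ2 - ξ3) (a' := η2 - η3) (by rw [abs_le]; constructor <;> linarith)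
      (by rw [abs_le]; constructor <;> linarith) b1
    have t2 := aff_term (a := ξ3 - ξ1) (a' := η3 - η1) (by rw [abs_le]; constructor <;> linarith)
      (by rw [abs_le]; constructor <;> linarith) b2
    have t3 := aff_term (a := ξ1 - ξ2) (a' := η1 - η2) (by rw [abs_le]; constructor <;> linarith)
      (by rw [abs_le]; constructor <;> linarith) b3
    have e0 : (ξ2 - ξ3) * v1 + (ξ3 - ξ1) * v2 + (ξ1 - ξ2) * v3 =
        ((ξ2 - ξ3) * v1 - (η2 - η3) * (s + η1 * w)) + ((ξ3 - ξ1) * v2 - (η3 - η1) * (s + η2 * w)) +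
          ((ξ1 - ξ2) * v3 - (η1 - η2) * (s + η3 * w)) := by ring
    rw [e0, hD]
    refine (abs_add_three _ _ _).trans ?_
    linarith
  rw [← abs_nonpos_iff]
  refine le_of_forall_pos_le_add fun ε hε => ?_
  have hp : 0 < min 1 (ε / (D + 1)) := lt_min one_pos (by positivity)
  have h5 := key _ hp (min_le_left _ _)
  have h6 : D * min 1 (ε / (D + 1)) ≤ D * (ε / (D + 1)) :=
    mul_le_mul_of_nonneg_left (min_le_right _ _) hD0
  have h7 : D * (ε / (D + 1)) ≤ ε := by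
    rw [mul_div_assoc', div_le_iff₀ (by positivity)]
    nlinarith
  linarith

/-- small oscillation near a point of the central square -/
theorem aff_cont {m : ℕ} {G : ℝ × ℝ → Fin m → ℝ} (hc : ContinuousOn G (Cen (3 / 10)))
    {z : ℝ × ℝ} (hz : z ∈ Cen (3 / 10)) {e : ℝ} (he : 0 < e) : ∃ ρ0 : ℝ, 0 < ρ0 ∧ ∀ ρ : ℝ,
      0 < ρ → ρ ≤ ρ0 → z ∈ Cen (3 / 10 + 4 * ρ) ∧
        ∀ z' : ℝ × ℝ, |z'.1 - z.1| ≤ ρ → |z'.2 - z.2| ≤ 4 * ρ → ‖G z' - G z‖ ≤ e := by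
  have ho : IsOpen (Cen (3 / 10)) := isOpen_Ioo.prod isOpen_Ioo
  have hca : ContinuousAt G z := hc.continuousAt (ho.mem_nhds hz)
  obtain ⟨δ, hδ, hd⟩ := Metric.continuousAt_iff.1 hca e he
  obtain ⟨a1, a2, a3, a4⟩ := aff_mem_Cen.1 hz
  set μ : ℝ := min (min (z.1 - 3 / 10) (1 - 3 / 10 - z.1)) (min (z.2 - 3 / 10) (1 - 3 / 10 - z.2))
    with hμ
  have hμ0 : 0 < μ := lt_min (lt_min (by linarith) (by linarith)) (lt_min (by linarith) (by linarith))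
  have m1 : μ ≤ z.1 - 3 / 10 := (min_le_left _ _).trans (min_le_left _ _)
  have m2 : μ ≤ 1 - 3 / 10 - z.1 := (min_le_left _ _).trans (min_le_right _ _)
  have m3 : μ ≤ z.2 - 3 / 10 := (min_le_right _ _).trans (min_le_left _ _)
  have m4 : μ ≤ 1 - 3 / 10 - z.2 := (min_le_right _ _).trans (min_le_right _ _)
  refine ⟨min (δ / 5) (μ / 5), lt_min (by positivity) (by positivity), fun ρ hρ hρ0 => ?_⟩
  have r1 : ρ ≤ δ / 5 := hρ0.trans (min_le_left _ _)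
  have r2 : ρ ≤ μ / 5 := hρ0.trans (min_le_right _ _)
  refine ⟨aff_mem_Cen.2 ⟨by linarith, by linarith, by linarith, by linarith⟩, fun z' h1 h2 => ?_⟩
  have hdist : dist z' z < δ := by
    rw [Prod.dist_eq, Real.dist_eq, Real.dist_eq]
    exact max_lt (by linarith) (by linarith)
  have := hd hdist
  rw [dist_eq_norm] at this
  exact this.le

variable {r : ℕ} {A : ℕ → Arr ℕ} {Q : ℕ → Bx} {β : Fin 3} {g : ℕ → ℕ → Fin (r + 2) → ℝ}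
  {σ w : ℕ → ℕ → ℝ} {F : ℕ → Cell → Fin (r + 2) → ℝ} {G : ℝ × ℝ → Fin (r + 2) → ℝ}

/-- the normalised height of a line above the position of a cell -/
theorem aff_ht {ι : Type} (B : Arr ι) (U : Bx) (p : Cell) (a : ι) {c e : ℝ} (h : |B.ht p a| ≤ c)
    (hc : c / 2 ^ U.j ≤ e) : |B.hu U a + B.x a * (U.z p).1 - (U.z p).2| ≤ e := by
  rw [ht_z B U p a, abs_mul, abs_of_pos (by positivity : (0 : ℝ) < 2 ^ U.j)] at h
  refine le_trans ?_ hc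
  rw [le_div_iff₀ (by positivity)]
  linarith

/-- on reliable lines the affine function is described by the limit field -/
theorem aff_core (hG : Good A Q) (h : BD A Q g σ w F) (hl : FLim Q F G) : ∃ K : ℝ, 0 < K ∧
    ∀ θ1 θ ρ e : ℝ, 0 < θ1 → 0 < θ → 0 < ρ → 0 < e → ∀ P : ℕ → ℕ → Cell → Prop, Most Q P →
    ∃ l : ℕ, ∀ᶠ n in UU, ∃ S : Set ℕ,
      (Q n).fr (fun p => ¬ P n l p ∨
        K * θ1 * 4 ^ l < cnt ((A n).TW p l) fun t => ∃ i, t i ∉ S) ≤ θ ∧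
      ∀ a ∈ S, |(A n).x a| ≤ 11 / 10 → ∀ z ∈ Cen (3 / 10 + 4 * ρ),
        |(A n).hu (Q n) a + (A n).x a * z.1 - z.2| ≤ ρ → ∃ z' : ℝ × ℝ,
          |z'.1 - z.1| ≤ ρ ∧ |z'.2 - z.2| ≤ 4 * ρ ∧
          |(A n).hu (Q n) a + (A n).x a * z'.1 - z'.2| ≤ e ∧
          |σ n a + z'.1 * w n a - G z' ⬝ᵥ g n a| ≤ e * (1 + (r + 2) * ‖g n a‖) := by
  obtain ⟨K, hK, hb⟩ := band hG
  refine ⟨K, hK, fun θ1 θ ρ e h1 hθ hρ he P hP => ?_⟩
  have hθb : 0 < min (θ / 2) (ρ / 2) := lt_min (by positivity) (by positivity)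
  obtain ⟨θ0, h0, hb⟩ := hb θ1 _ h1 hθb
  obtain ⟨l, hb, hP⟩ := (hb.and (hP (θ / 2) (by positivity))).exists
  have he' : 0 < min e (θ0 / 2) := lt_min he (by positivity)
  refine ⟨l, ?_⟩
  filter_upwards [hb, hP, h.fd l _ he', hl _ he', dya_small hG.val.big (2 ^ l) (lt_min hρ he)]
    with n hb hP hfd hfl hs
  have e1 : min e (θ0 / 2) ≤ e := min_le_left _ _
  have e2 : min e (θ0 / 2) ≤ θ0 / 2 := min_le_right _ _
  set e' := min e (θ0 / 2) with he'd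
  obtain ⟨S, hS1, hS2⟩ := hb (fun p => (¬ ∀ t ∈ (A n).TW p l, ∀ i,
      |σ n (t i) + ((Q n).z p).1 * w n (t i) - F n p ⬝ᵥ g n (t i)| ≤ e') ∨
      ((Q n).z p ∈ Cen (3 / 10) ∧ e' < ‖F n p - G ((Q n).z p)‖))
    ((fr_or fun p _ hp => hp).trans (by linarith))
  refine ⟨S, (fr_or fun p _ hp => hp).trans ?_, fun a ha hx z hz hzz => ?_⟩
  · have := min_le_left (θ / 2) (ρ / 2)
    linarith
  obtain ⟨a1, a2, a3, a4⟩ := aff_mem_Cen.1 hz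
  have hJ : (0 : ℝ) < 2 ^ (Q n).j := by positivity
  have hs1 : (2 : ℝ) ^ l ≤ ρ * 2 ^ (Q n).j := by
    have := hs.trans (min_le_left _ _)
    rwa [div_le_iff₀ hJ] at this
  obtain ⟨p, hp, b1, b2, b3, b4⟩ := band_pick hx
    (aff_mem_Cen.2 ⟨by linarith, by linarith, by linarith, by linarith⟩) hs1 hzz
    ((hS2 a ha).trans_lt (by
      have := min_le_right (θ / 2) (ρ / 2)
      have h2 : (0 : ℝ) < 2 ^ l := by positivity
      gcongr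
      linarith))
  refine ⟨(Q n).z p, b3, b4, aff_ht _ _ _ _ b1 (hs.trans (min_le_right _ _)), ?_⟩
  rw [not_or, not_or, not_not, not_lt] at b2
  obtain ⟨⟨c1, c2⟩, c3⟩ := b2
  obtain ⟨t, ht, i, hi⟩ := exists_of_cnt_pos (lt_of_lt_of_le (by positivity) c3)
  have d1 := c1 t ht i
  rw [hi] at d1
  rw [abs_le] at b3 b4
  have hz' : (Q n).z p ∈ Cen (3 / 10) :=
    aff_mem_Cen.2 ⟨by linarith, by linarith, by linarith, by linarith⟩
  have d2 : ‖F n p - G ((Q n).z p)‖ ≤ e := (not_lt.1 fun hh => c2 ⟨hz', hh⟩).trans e1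
  have d3 := aff_dot (F n p - G ((Q n).z p)) (g n a)
  rw [sub_dotProduct] at d3
  have d4 : ((r + 2 : ℕ) : ℝ) * (‖F n p - G ((Q n).z p)‖ * ‖g n a‖) ≤ e * ((r + 2) * ‖g n a‖) := by
    push_cast
    have : ‖F n p - G ((Q n).z p)‖ * ‖g n a‖ ≤ e * ‖g n a‖ := by gcongr
    have h3 : (0 : ℝ) ≤ r + 2 := by positivity
    nlinarith
  have d5 := abs_add_le (σ n a + ((Q n).z p).1 * w n a - F n p ⬝ᵥ g n a)
    (F n p ⬝ᵥ g n a - G ((Q n).z p) ⬝ᵥ g n a)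
  rw [sub_add_sub_cancel] at d5
  linarith

end Pool.Agent.MP_38296a_co.H21

end FileAff1

section FileAff2

set_option autoImplicit false

namespace Pool.Agent.MP_38296a_co.H21

open Finset Filter Classical

theorem aff_quad {r : ℕ} (f0 f1 f2 y : Fin (r + 2) → ℝ) (a b : ℝ) (z : ℝ × ℝ) :
    quad f0 f1 f2 a b z ⬝ᵥ y = f0 ⬝ᵥ y + z.1 * (f1 ⬝ᵥ y) + z.2 * (f2 ⬝ᵥ y) +
      (a * z.2 ^ 2 / 2 + b * z.1 * z.2) * y 0 + (-b * z.1 ^ 2 - a * z.1 * z.2 / 2) * y 1 := by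
  simp only [quad, ee, add_dotProduct, smul_dotProduct, single_dotProduct, smul_eq_mul, one_mul]

theorem aff_one {s w u x ξ η p0 p1 p2 a b e B M : ℝ} (he1 : e ≤ 1) (hx : |x| ≤ 11 / 10)
    (hξ : |ξ| ≤ 1) (hη : |η| ≤ 1) (hd : |u + x * ξ - η| ≤ e) (hp : |p2| ≤ M)
    (h : |s + ξ * w - (p0 + ξ * p1 + η * p2 + (a * η ^ 2 / 2 + b * ξ * η) * 1 +
      (-b * ξ ^ 2 - a * ξ * η / 2) * x)| ≤ e * B) :
    |s - (p0 + u * (p2 + a / 2 * u)) + ξ * (w - (p1 + b * u + x * (p2 + a / 2 * u)))| ≤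
      e * (B + M + 3 * |a| + |b|) := by
  have he : 0 ≤ e := (abs_nonneg _).trans hd
  have e0 : s - (p0 + u * (p2 + a / 2 * u)) + ξ * (w - (p1 + b * u + x * (p2 + a / 2 * u))) =
      (s + ξ * w - (p0 + ξ * p1 + η * p2 + (a * η ^ 2 / 2 + b * ξ * η) * 1 +
        (-b * ξ ^ 2 - a * ξ * η / 2) * x)) -
      (u + x * ξ - η) * (p2 + a * ((2 * η + (u + x * ξ - η) - ξ * x) / 2) + b * ξ) := by ring
  have h1 : |ξ * x| ≤ 11 / 10 := by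
    rw [abs_mul]
    have := mul_le_mul hξ hx (abs_nonneg _) zero_le_one
    linarith
  have h2 : |(2 * η + (u + x * ξ - η) - ξ * x) / 2| ≤ 3 := by
    rw [abs_le] at h1 hη hd ⊢
    constructor <;> linarith [h1.1, h1.2, hη.1, hη.2, hd.1, hd.2]
  have h3 : |a * ((2 * η + (u + x * ξ - η) - ξ * x) / 2)| ≤ 3 * |a| := by
    rw [abs_mul]
    have := mul_le_mul_of_nonneg_left h2 (abs_nonneg a)
    linarith
  have h4 : |b * ξ| ≤ |b| := by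
    rw [abs_mul]
    have := mul_le_mul_of_nonneg_left hξ (abs_nonneg b)
    linarith
  have h5 : |p2 + a * ((2 * η + (u + x * ξ - η) - ξ * x) / 2) + b * ξ| ≤ M + 3 * |a| + |b| :=
    (abs_add_three _ _ _).trans (by linarith)
  rw [e0]
  refine (abs_sub _ _).trans ?_
  rw [abs_mul]
  have := mul_le_mul hd h5 (abs_nonneg _) he
  linarith

theorem aff_two {s w ξ1 ξ2 E : ℝ} (h1 : |s + ξ1 * w| ≤ E) (h2 : |s + ξ2 * w| ≤ E)
    (hd : 7 / 100 ≤ ξ1 - ξ2) (hξ : |ξ1| ≤ 1) : |s| ≤ 30 * E ∧ |w| ≤ 30 * E := by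
  have hE : 0 ≤ E := (abs_nonneg _).trans h1
  have h3 : |(ξ1 - ξ2) * w| ≤ 2 * E := by
    have : (ξ1 - ξ2) * w = (s + ξ1 * w) - (s + ξ2 * w) := by ring
    rw [this]
    exact (abs_sub _ _).trans (by linarith)
  rw [abs_mul, abs_of_nonneg (by linarith)] at h3
  have h4 : 7 / 100 * |w| ≤ 2 * E := (mul_le_mul_of_nonneg_right hd (abs_nonneg w)).trans h3
  have h5 : |ξ1 * w| ≤ |w| := by
    rw [abs_mul]
    have := mul_le_mul_of_nonneg_right hξ (abs_nonneg w)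
    linarith
  have h6 : |s| ≤ |s + ξ1 * w| + |ξ1 * w| := by
    have := abs_sub (s + ξ1 * w) (ξ1 * w)
    rwa [add_sub_cancel_right] at this
  constructor <;> linarith

/-- a cell with a frequent property avoids a rare property -/
theorem aff_pick {U : Bx} {N B : Cell → Prop} {θ : ℝ} (hN : θ < U.fr N) (hB : U.fr B ≤ θ) :
    ∃ p ∈ U.cells, N p ∧ ¬ B p := by
  by_contra hc
  push Not at hc
  have := fr_mono (P := N) (P' := B) hc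
  linarith

/-- from window counts to the count in the box -/
theorem aff_count {ι : Type} {B : Arr ι} (h : B.Ok) {U : Bx} {l : ℕ} (hl : l ≤ U.j)
    {N : Cell → Prop} {R : Tri ι → Prop} {κ δ : ℝ} (hδ : 0 ≤ δ) (hN : κ ≤ U.fr N)
    (hR : ∀ p ∈ U.cells, N p → δ * 4 ^ l ≤ cnt (B.TW p l) R)
    (hs : 32 * 2 ^ l / 2 ^ U.j ≤ κ * δ / 66) : κ * δ / 66 * 4 ^ U.j ≤ cnt (B.TB U) R := by
  have h1 := h.dc_bd hl R
  have hJ : (0 : ℝ) < 2 ^ U.j := by positivity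
  have hL : (0 : ℝ) < 4 ^ l := by positivity
  have h2 : δ * 4 ^ l * cnt U.cells N ≤ ∑ p ∈ U.cells, cnt (B.TW p l) R := by
    rw [cnt_eq_sum, mul_sum]
    refine sum_le_sum fun p hp => ?_
    by_cases hn : N p
    · rw [baseb_ind_pos hn, mul_one]
      exact hR p hp hn
    · rw [baseb_ind_neg hn, mul_zero]
      exact cnt_nonneg _ _
  have h3 : κ * 4 ^ U.j ≤ cnt U.cells N := by
    unfold Bx.fr at hN
    rwa [le_div_iff₀ (by positivity)] at hN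
  have h4 : δ * 4 ^ l * (κ * 4 ^ U.j) ≤ δ * 4 ^ l * cnt U.cells N := by gcongr
  have h5 : δ * (κ * 4 ^ U.j) ≤ 33 * (cnt (B.TB U) R + 32 * 2 ^ l * 2 ^ U.j) := by
    refine le_of_mul_le_mul_left ?_ hL
    linarith
  rw [div_le_iff₀ hJ] at hs
  have h6 : 32 * 2 ^ l * 2 ^ U.j ≤ κ * δ / 66 * 4 ^ U.j := by
    rw [dyb_four U.j, ← mul_assoc]
    exact mul_le_mul_of_nonneg_right hs hJ.le
  linarith

theorem aff_est {m : ℕ} {φ e : ℝ} {G' G0 v y : Fin m → ℝ} {M : ℝ} (he : 0 < e) (he1 : e ≤ 1)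
    (h1 : |φ - G' ⬝ᵥ v| ≤ e * (1 + m * ‖v‖)) (h2 : ‖G' - G0‖ ≤ e) (h3 : ‖v - y‖ ≤ e)
    (h4 : ‖G0‖ ≤ M) : |φ - G0 ⬝ᵥ y| ≤ (1 + 2 * (m * (‖y‖ + 1)) + m * M) * e := by
  have hv : ‖v‖ ≤ ‖y‖ + 1 := by
    have := norm_add_le (v - y) y
    rw [sub_add_cancel] at this
    linarith
  have hm : (0 : ℝ) ≤ m := by positivity
  have d1 := aff_dot (G' - G0) v
  have d2 := aff_dot G0 (v - y)
  rw [sub_dotProduct] at d1
  rw [dotProduct_sub] at d2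
  have d3 : (m : ℝ) * (‖G' - G0‖ * ‖v‖) ≤ m * (e * (‖y‖ + 1)) := by gcongr
  have d4 : (m : ℝ) * (‖G0‖ * ‖v - y‖) ≤ m * (M * e) := by
    have := (norm_nonneg G0).trans h4
    gcongr
  have d5 : e * (1 + m * ‖v‖) ≤ e * (1 + m * (‖y‖ + 1)) := by gcongr
  have d6 : φ - G0 ⬝ᵥ y = (φ - G' ⬝ᵥ v) + (G' ⬝ᵥ v - G0 ⬝ᵥ v) + (G0 ⬝ᵥ v - G0 ⬝ᵥ y) := by ring
  rw [d6]
  refine (abs_add_three _ _ _).trans ?_
  linarith

theorem aff_near {u x hu y1 ξ1 ξ z1 z2 ρ : ℝ} (hx : |x| ≤ 11 / 10) (h1 : |hu + x * z1 - z2| ≤ ρ / 8)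
    (h2 : |z1 - ξ1| ≤ ρ / 8) (h3 : |z2 - (u + y1 * ξ1)| ≤ ρ / 8) (h4 : |x - y1| ≤ 2 * (ρ / 8))
    (h5 : |ξ - ξ1| ≤ 1) : |hu + x * ξ - (u + y1 * ξ)| ≤ ρ := by
  have hρ : 0 ≤ ρ := by linarith [abs_nonneg (z1 - ξ1)]
  have e0 : hu + x * ξ - (u + y1 * ξ) = (hu + x * z1 - z2) + (z2 - (u + y1 * ξ1)) +
      ((x - y1) * (ξ - ξ1) - x * (z1 - ξ1)) := by ring
  have a1 : |(x - y1) * (ξ - ξ1)| ≤ 2 * (ρ / 8) * 1 := by
    rw [abs_mul]
    exact mul_le_mul h4 h5 (abs_nonneg _) (by linarith)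
  have a2 : |x * (z1 - ξ1)| ≤ 11 / 10 * (ρ / 8) := by
    rw [abs_mul]
    exact mul_le_mul hx h2 (abs_nonneg _) (by norm_num)
  have a3 := abs_sub ((x - y1) * (ξ - ξ1)) (x * (z1 - ξ1))
  rw [e0]
  refine (abs_add_three _ _ _).trans ?_
  linarith

end Pool.Agent.MP_38296a_co.H21

end FileAff2

section FileAff3

set_option autoImplicit false

namespace Pool.Agent.MP_38296a_co.H21

open Finset Filter Classical

variable {r : ℕ} {A : ℕ → Arr ℕ} {Q : ℕ → Bx} {β : Fin 3} {g : ℕ → ℕ → Fin (r + 2) → ℝ}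
  {σ w : ℕ → ℕ → ℝ} {F : ℕ → Cell → Fin (r + 2) → ℝ} {G : ℝ × ℝ → Fin (r + 2) → ℝ}

/-- back substitution -/
theorem aff_back (hG : Good A Q) (hL : Lb0 A Q β g) (h : BD A Q g σ w F) (hl : FLim Q F G)
    {f0 f1 f2 : Fin (r + 2) → ℝ} {a b : ℝ} (hq : ∀ z ∈ Cen (1 / 3), G z = quad f0 f1 f2 a b z) :
    ∃ η : ℝ, 0 < η ∧ ∀ ε : ℝ, 0 < ε → ∀ᶠ n in UU, η * 4 ^ (Q n).j ≤ cnt ((A n).TB (Q n)) fun t =>
      |σ n (t β) - (f0 ⬝ᵥ g n (t β) + (A n).hu (Q n) (t β) *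
        (f2 ⬝ᵥ g n (t β) + a / 2 * (A n).hu (Q n) (t β)))| ≤ ε ∧
      |w n (t β) - (f1 ⬝ᵥ g n (t β) + b * (A n).hu (Q n) (t β) + (A n).x (t β) *
        (f2 ⬝ᵥ g n (t β) + a / 2 * (A n).hu (Q n) (t β)))| ≤ ε := by
  obtain ⟨K, hK, hcore⟩ := aff_core hG h hl
  obtain ⟨δ, hδ, -, hd⟩ := hG.dens
  obtain ⟨c, hb⟩ := hL.bdd (δ / 10) (by positivity)
  refine ⟨1 / 1250 * (δ / 2) / 66, by positivity, fun ε hε => ?_⟩
  set M : ℝ := (1 + (r + 2) * |c|) + (r + 2 : ℕ) * (‖f2‖ * |c|) + 3 * |a| + |b| with hM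
  have hM0 : 0 < M := by positivity
  obtain ⟨e, he, he1, he2⟩ : ∃ e : ℝ, 0 < e ∧ e ≤ 1 ∧ 30 * (e * M) ≤ ε := by
    refine ⟨min 1 (ε / (30 * M)), lt_min one_pos (by positivity), min_le_left _ _, ?_⟩
    have := min_le_right 1 (ε / (30 * M))
    rw [le_div_iff₀ (by positivity)] at this
    linarith
  obtain ⟨l, hcore⟩ := hcore (δ / (10 * K)) (1 / 1250) (1 / 200) e (by positivity) (by norm_num)
    (by norm_num) he _ (hd.and hb)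
  filter_upwards [hcore, dya_small hG.val.big (9 * 2 ^ l) (θ := 1 / 200) (by norm_num),
    dya_small hG.val.big 1 (θ := 1 / 25) (by norm_num),
    dya_small hG.val.big (32 * 2 ^ l) (θ := 1 / 1250 * (δ / 2) / 66) (by positivity),
    hG.val.big.eventually_ge_atTop l] with n ⟨S, hS1, hS2⟩ hs1 hs2 hs3 hs4
  have hok := hG.val.ok n
  have hJ : (0 : ℝ) < 2 ^ (Q n).j := by positivity
  have hn := fr_near (Q n) (z := (1 / 2, 1 / 2)) (ρ := 1 / 25)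
    (aff_mem_Cen.2 ⟨by norm_num, by norm_num, by norm_num, by norm_num⟩)
    (by rwa [div_le_iff₀ hJ] at hs2)
  refine aff_count hok hs4 (N := fun p => (|((Q n).z p).1 - 1 / 2| ≤ 1 / 25 ∧
    |((Q n).z p).2 - 1 / 2| ≤ 1 / 25) ∧ ¬ (¬ (δ * 4 ^ l ≤ #((A n).TB (anc l p)) ∧
      cnt ((A n).TW p l) (fun t => ∃ i, c < ‖g n (t i)‖) ≤ δ / 10 * 4 ^ l) ∨
      K * (δ / (10 * K)) * 4 ^ l < cnt ((A n).TW p l) fun t => ∃ i, t i ∉ S))
    (by positivity) ?_ ?_ hs3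
  · have h1 := fr_or (Q := Q n) (P := fun p => |((Q n).z p).1 - 1 / 2| ≤ 1 / 25 ∧
      |((Q n).z p).2 - 1 / 2| ≤ 1 / 25) (P1 := fun p => (|((Q n).z p).1 - 1 / 2| ≤ 1 / 25 ∧
      |((Q n).z p).2 - 1 / 2| ≤ 1 / 25) ∧ ¬ (¬ (δ * 4 ^ l ≤ #((A n).TB (anc l p)) ∧
      cnt ((A n).TW p l) (fun t => ∃ i, c < ‖g n (t i)‖) ≤ δ / 10 * 4 ^ l) ∨
      K * (δ / (10 * K)) * 4 ^ l < cnt ((A n).TW p l) fun t => ∃ i, t i ∉ S))
      (P2 := fun p => ¬ (δ * 4 ^ l ≤ #((A n).TB (anc l p)) ∧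
      cnt ((A n).TW p l) (fun t => ∃ i, c < ‖g n (t i)‖) ≤ δ / 10 * 4 ^ l) ∨
      K * (δ / (10 * K)) * 4 ^ l < cnt ((A n).TW p l) fun t => ∃ i, t i ∉ S)
      fun p _ hp => by tauto
    simp only at hn
    linarith
  rintro p - ⟨⟨q1, q2⟩, hp⟩
  rw [not_or, not_not, not_lt] at hp
  obtain ⟨⟨q3, q4⟩, q5⟩ := hp
  have h2 : K * (δ / (10 * K)) * 4 ^ l = δ / 10 * 4 ^ l := by field_simp
  have h3 : (#((A n).TB (anc l p)) : ℝ) ≤ #((A n).TW p l) := by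
    exact_mod_cast card_le_card (TB_anc_sub p l)
  have h4 := cnt_add_not ((A n).TW p l) fun t => (∃ i, c < ‖g n (t i)‖) ∨ ∃ i, t i ∉ S
  have h5 := cnt_or (S := (A n).TW p l) (P := fun t => (∃ i, c < ‖g n (t i)‖) ∨ ∃ i, t i ∉ S)
    fun t _ ht => ht
  have h6 : (0 : ℝ) < δ * 4 ^ l := by positivity
  refine le_trans (b := cnt ((A n).TW p l) fun t => ¬ ((∃ i, c < ‖g n (t i)‖) ∨ ∃ i, t i ∉ S))
    (by linarith) (cnt_mono fun t ht h7 => ⟨ht, ?_⟩)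
  push Not at h7
  have t1 : ‖g n (t β)‖ ≤ |c| := (h7.1 β).trans (le_abs_self c)
  have t2 := h7.2 β
  have hx := baseb_x hok (TW_sub p l ht) β
  have hh := aff_ht (A n) (Q n) p (t β) (hok.ht_TW ht β) hs1
  have hf : |f2 ⬝ᵥ g n (t β)| ≤ (r + 2 : ℕ) * (‖f2‖ * |c|) := (aff_dot _ _).trans (by gcongr)
  have key : ∀ s : ℝ, |s| ≤ 1 / 25 → ∃ ξ : ℝ, |ξ - (((Q n).z p).1 + s)| ≤ 1 / 200 ∧
      |σ n (t β) - (f0 ⬝ᵥ g n (t β) + (A n).hu (Q n) (t β) *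
        (f2 ⬝ᵥ g n (t β) + a / 2 * (A n).hu (Q n) (t β))) + ξ *
      (w n (t β) - (f1 ⬝ᵥ g n (t β) + b * (A n).hu (Q n) (t β) + (A n).x (t β) *
        (f2 ⬝ᵥ g n (t β) + a / 2 * (A n).hu (Q n) (t β))))| ≤ e * M := by
    intro s hs
    have u1 : |(A n).x (t β) * s| ≤ 11 / 10 * (1 / 25) := by
      rw [abs_mul]
      exact mul_le_mul hx hs (abs_nonneg _) (by norm_num)
    rw [abs_le] at q1 q2 hs u1
    obtain ⟨z, z1, z2, z3, z4⟩ := hS2 _ t2 hx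
      (((Q n).z p).1 + s, ((Q n).z p).2 + (A n).x (t β) * s)
      (aff_mem_Cen.2 ⟨by simp only; linarith, by simp only; linarith, by simp only; linarith,
        by simp only; linarith⟩)
      (by
        convert hh using 2
        ring)
    refine ⟨z.1, z1, ?_⟩
    simp only [abs_le] at z1 z2
    rw [hq z (aff_mem_Cen.2 ⟨by linarith, by linarith, by linarith, by linarith⟩), aff_quad,
      hL.one, hL.chi] at z4
    exact aff_one he1 hx (by rw [abs_le]; constructor <;> linarith)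
      (by rw [abs_le]; constructor <;> linarith) z3 hf (z4.trans (by gcongr))
  obtain ⟨ξ1, v1, v2⟩ := key (1 / 25) (by norm_num [abs_le])
  obtain ⟨ξ2, v3, v4⟩ := key (-1 / 25) (by norm_num [abs_le])
  rw [abs_le] at v1 v3 q1
  obtain ⟨w1, w2⟩ := aff_two v2 v4 (by linarith) (by rw [abs_le]; constructor <;> linarith)
  exact ⟨w1.trans he2, w2.trans he2⟩

end Pool.Agent.MP_38296a_co.H21

end FileAff3

section FileAff

set_option autoImplicit false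

namespace Pool.Agent.MP_38296a_co.H21

open Finset Filter Classical

variable {r : ℕ} {A : ℕ → Arr ℕ} {Q : ℕ → Bx} {β : Fin 3} {g : ℕ → ℕ → Fin (r + 2) → ℝ}
  {σ w : ℕ → ℕ → ℝ} {F : ℕ → Cell → Fin (r + 2) → ℝ} {G : ℝ × ℝ → Fin (r + 2) → ℝ}

/-- the limit field is affine along the labels of the support -/
theorem BD.aff (hG : Good A Q) (hL : Lb0 A Q β g) (h : BD A Q g σ w F)
    (hc : ContinuousOn G (Cen (3 / 10))) (hl : FLim Q F G) :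
    AffOn G {y | ∃ i, Supp A Q g i y} := by
  have : (UU).NeBot := by unfold UU; infer_instance
  rintro y ⟨i, hy⟩ u ξ1 ξ2 ξ3 hz1 hz2 hz3
  obtain ⟨K, hK, hcore⟩ := aff_core hG h hl
  have m1 := aff_mem_Cen.1 hz1
  have m2 := aff_mem_Cen.1 hz2
  have m3 := aff_mem_Cen.1 hz3
  simp only at m1 m2 m3
  set M : ℝ := ‖G (ξ1, u + y 1 * ξ1)‖ + ‖G (ξ2, u + y 1 * ξ2)‖ + ‖G (ξ3, u + y 1 * ξ3)‖ with hM
  have n1 := norm_nonneg (G (ξ1, u + y 1 * ξ1))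
  have n2 := norm_nonneg (G (ξ2, u + y 1 * ξ2))
  have n3 := norm_nonneg (G (ξ3, u + y 1 * ξ3))
  refine aff_lim (C := 1 + 2 * ((r + 2 : ℕ) * (‖y‖ + 1)) + (r + 2 : ℕ) * M) (by positivity)
    ⟨by linarith, by linarith⟩ ⟨by linarith, by linarith⟩ ⟨by linarith, by linarith⟩
    fun e he he1 => ?_
  obtain ⟨ρ1, p1, c1⟩ := aff_cont hc hz1 he
  obtain ⟨ρ2, p2, c2⟩ := aff_cont hc hz2 he
  obtain ⟨ρ3, p3, c3⟩ := aff_cont hc hz3 he
  obtain ⟨ρ, hρ, r1, r2, r3, r4⟩ : ∃ ρ : ℝ, 0 < ρ ∧ ρ ≤ ρ1 ∧ ρ ≤ ρ2 ∧ ρ ≤ ρ3 ∧ ρ ≤ e :=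
    ⟨min (min ρ1 ρ2) (min ρ3 e), lt_min (lt_min p1 p2) (lt_min p3 he),
      (min_le_left _ _).trans (min_le_left _ _), (min_le_left _ _).trans (min_le_right _ _),
      (min_le_right _ _).trans (min_le_left _ _), (min_le_right _ _).trans (min_le_right _ _)⟩
  obtain ⟨c1, c1'⟩ := c1 ρ hρ r1
  obtain ⟨c2, c2'⟩ := c2 ρ hρ r2
  obtain ⟨c3, c3'⟩ := c3 ρ hρ r3
  have hγ : 0 < ρ / 8 := by positivity
  obtain ⟨κ, hκ, hs⟩ := hy _ hγ
  obtain ⟨l, hcore⟩ := hcore (κ / (4 * K)) ((ρ / 8) ^ 2 / 2) ρ e (by positivity) (by positivity)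
    hρ he _ (hL.hom i y _ κ hγ hκ hs)
  obtain ⟨n, ⟨S, hS1, hS2⟩, hs1, hs2⟩ := (hcore.and ((dya_small hG.val.big (9 * 2 ^ l) hγ).and
    (dya_small hG.val.big 1 hγ))).exists
  have hok := hG.val.ok n
  have hJ : (0 : ℝ) < 2 ^ (Q n).j := by positivity
  have hn := fr_near (Q n) (z := (ξ1, u + y 1 * ξ1)) (ρ := ρ / 8)
    (aff_mem_Cen.2 ⟨by linarith, by linarith, by linarith, by linarith⟩)
    (by rwa [div_le_iff₀ hJ] at hs2)
  obtain ⟨p, -, ⟨q1, q2⟩, hp⟩ := aff_pick (lt_of_lt_of_le (by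
    have : 0 < (ρ / 8) ^ 2 := by positivity
    linarith) hn) hS1
  rw [not_or, not_not, not_lt] at hp
  obtain ⟨q3, q4⟩ := hp
  obtain ⟨t, ht, t1, t2⟩ : ∃ t ∈ (A n).TW p l, ‖g n (t i) - y‖ ≤ 2 * (ρ / 8) ∧ t i ∈ S := by
    by_contra hcon
    push Not at hcon
    have h1 := cnt_mono (S := (A n).TW p l) (S' := (A n).TW p l)
      (P := fun t => ‖g n (t i) - y‖ ≤ 2 * (ρ / 8)) (P' := fun t => ∃ i, t i ∉ S)
      fun t ht h1 => ⟨ht, i, hcon t ht h1⟩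
    have h2 : K * (κ / (4 * K)) * 4 ^ l = κ / 4 * 4 ^ l := by field_simp
    have h3 : (0 : ℝ) < κ * 4 ^ l := by positivity
    linarith
  have hx := baseb_x hok (TW_sub p l ht) i
  have hh := aff_ht (A n) (Q n) p (t i) (hok.ht_TW ht i) hs1
  have hxy : |(A n).x (t i) - y 1| ≤ 2 * (ρ / 8) := by
    have := (norm_le_pi_norm (g n (t i) - y) 1).trans t1
    rwa [Pi.sub_apply, hL.chi, Real.norm_eq_abs] at this
  have hv : ‖g n (t i) - y‖ ≤ e := by linarith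
  obtain ⟨z1, a1, a2, -, a3⟩ := hS2 _ t2 hx _ c1
    (aff_near hx hh q1 q2 hxy (by rw [abs_le]; constructor <;> linarith))
  obtain ⟨z2, b1, b2, -, b3⟩ := hS2 _ t2 hx _ c2
    (aff_near hx hh q1 q2 hxy (by rw [abs_le]; constructor <;> linarith))
  obtain ⟨z3, d1, d2, -, d3⟩ := hS2 _ t2 hx _ c3
    (aff_near hx hh q1 q2 hxy (by rw [abs_le]; constructor <;> linarith))
  refine ⟨σ n (t i), w n (t i), z1.1, z2.1, z3.1, ⟨a1.trans r4, ?_⟩, ⟨b1.trans r4, ?_⟩,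
    d1.trans r4, ?_⟩
  · exact aff_est he he1 (by push_cast; exact a3) (c1' z1 a1 a2) hv (by linarith)
  · exact aff_est he he1 (by push_cast; exact b3) (c2' z2 b1 b2) hv (by linarith)
  · exact aff_est he he1 (by push_cast; exact d3) (c3' z3 d1 d2) hv (by linarith)

/-- back substitution -/
theorem BD.back (hG : Good A Q) (hL : Lb0 A Q β g) (h : BD A Q g σ w F) (hl : FLim Q F G)
    {f0 f1 f2 : Fin (r + 2) → ℝ} {a b : ℝ} (hq : ∀ z ∈ Cen (1 / 3), G z = quad f0 f1 f2 a b z) :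
    ∃ η : ℝ, 0 < η ∧ ∀ ε : ℝ, 0 < ε → ∀ᶠ n in UU, η * 4 ^ (Q n).j ≤ cnt ((A n).TB (Q n)) fun t =>
      |σ n (t β) - (f0 ⬝ᵥ g n (t β) + (A n).hu (Q n) (t β) *
        (f2 ⬝ᵥ g n (t β) + a / 2 * (A n).hu (Q n) (t β)))| ≤ ε ∧
      |w n (t β) - (f1 ⬝ᵥ g n (t β) + b * (A n).hu (Q n) (t β) + (A n).x (t β) *
        (f2 ⬝ᵥ g n (t β) + a / 2 * (A n).hu (Q n) (t β)))| ≤ ε :=
  aff_back hG hL h hl hq

end Pool.Agent.MP_38296a_co.H21

end FileAff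

section FileRel1

set_option autoImplicit false

namespace Pool.Agent.MP_38296a_co.H21

open Finset Filter Classical

theorem rel_mul {a b A B : ℝ} (ha : |a| ≤ A) (hb : |b| ≤ B) : |a * b| ≤ A * B := by
  rw [abs_mul]
  exact mul_le_mul ha hb (abs_nonneg _) ((abs_nonneg _).trans ha)

theorem rel_div {a b c : ℝ} (hb : 4 / 5 ≤ |b|) (h : |a * b| ≤ c) : |a| ≤ 5 / 4 * c := by
  rw [abs_mul] at h
  have := mul_le_mul_of_nonneg_left hb (abs_nonneg a)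
  linarith

/-- second divided difference -/
theorem rel_dd {x0 x1 x2 u0 v0 u1 v1 u2 v2 γ : ℝ} (h01 : 4 / 5 ≤ x1 - x0) (h12 : 4 / 5 ≤ x2 - x1)
    (p0 : |u0 + v0 * x0 + x0 * (u1 + v1 * x0) + x0 ^ 2 * (u2 + v2 * x0)| ≤ γ)
    (p1 : |u0 + v0 * x1 + x1 * (u1 + v1 * x1) + x1 ^ 2 * (u2 + v2 * x1)| ≤ γ)
    (p2 : |u0 + v0 * x2 + x2 * (u1 + v1 * x2) + x2 ^ 2 * (u2 + v2 * x2)| ≤ γ) :
    |u2 + v1 + v2 * (x0 + x1 + x2)| ≤ 4 * γ := by
  have hγ : 0 ≤ γ := (abs_nonneg _).trans p0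
  have q0 := rel_mul p0 (abs_of_nonneg (show 0 ≤ x2 - x1 by linarith)).le
  have q1 := rel_mul p1 (abs_of_nonneg (show 0 ≤ x2 - x0 by linarith)).le
  have q2 := rel_mul p2 (abs_of_nonneg (show 0 ≤ x1 - x0 by linarith)).le
  have e : (u2 + v1 + v2 * (x0 + x1 + x2)) * (x1 - x0) * (x2 - x1) * (x2 - x0) =
      (u0 + v0 * x0 + x0 * (u1 + v1 * x0) + x0 ^ 2 * (u2 + v2 * x0)) * (x2 - x1) -
      (u0 + v0 * x1 + x1 * (u1 + v1 * x1) + x1 ^ 2 * (u2 + v2 * x1)) * (x2 - x0) +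
      (u0 + v0 * x2 + x2 * (u1 + v1 * x2) + x2 ^ 2 * (u2 + v2 * x2)) * (x1 - x0) := by ring
  have h1 : |(u2 + v1 + v2 * (x0 + x1 + x2)) * (x1 - x0) * (x2 - x1) * (x2 - x0)| ≤
      2 * γ * (x2 - x0) := by
    rw [e, abs_le]
    rw [abs_le] at q0 q1 q2
    constructor <;> linarith [q0.1, q0.2, q1.1, q1.2, q2.1, q2.2]
  rw [abs_mul, abs_of_nonneg (show 0 ≤ x2 - x0 by linarith)] at h1
  have h2 := le_of_mul_le_mul_right h1 (show 0 < x2 - x0 by linarith)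
  have h3 := rel_div (h12.trans (le_abs_self _)) h2
  have h4 := rel_div (h01.trans (le_abs_self _)) h3
  linarith

/-- close values at close points give close affine functions -/
theorem rel_aff {a b a' b' u v u' v' γ c : ℝ} (hab : 4 / 5 ≤ |a - b|) (hab' : 4 / 5 ≤ |a' - b'|)
    (ha : |a| ≤ 2) (h1 : |a - a'| ≤ γ) (h2 : |b - b'| ≤ γ)
    (f1 : |u + v * a - (u' + v' * a')| ≤ γ) (f2 : |u + v * b - (u' + v' * b')| ≤ γ)
    (c1 : |u' + v' * a'| ≤ c) (c2 : |u' + v' * b'| ≤ c) (hc : 1 ≤ c) :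
    |v'| ≤ 3 * c ∧ |v - v'| ≤ 10 * c * γ ∧ |u - u'| ≤ 24 * c * γ := by
  have hγ : 0 ≤ γ := (abs_nonneg _).trans h1
  have hcγ : γ ≤ c * γ := le_mul_of_one_le_left hγ hc
  have k1 : |v'| ≤ 3 * c := by
    have : |v' * (a' - b')| ≤ 2 * c := by
      rw [abs_le] at c1 c2 ⊢
      constructor <;> linarith [c1.1, c1.2, c2.1, c2.2]
    linarith [rel_div hab' this]
  have m1 := rel_mul k1 h1
  have m2 := rel_mul k1 h2
  have k2 : |v - v'| ≤ 10 * c * γ := by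
    have : |(v - v') * (a - b)| ≤ 8 * (c * γ) := by
      rw [abs_le] at f1 f2 m1 m2 ⊢
      constructor <;> linarith [f1.1, f1.2, f2.1, f2.2, m1.1, m1.2, m2.1, m2.2]
    linarith [rel_div hab this]
  refine ⟨k1, k2, ?_⟩
  have m3 := rel_mul k2 ha
  rw [abs_le] at f1 m1 m3 ⊢
  constructor <;> linarith [f1.1, f1.2, m3.1, m3.2, m1.1, m1.2]

theorem rel_ext {x x' u v u' v' γ c E : ℝ} (hx : |x| ≤ 2) (h1 : |x - x'| ≤ E * γ)
    (h : |v'| ≤ 3 * c ∧ |v - v'| ≤ 10 * c * γ ∧ |u - u'| ≤ 24 * c * γ) :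
    |u + v * x - (u' + v' * x')| ≤ (44 * c + 3 * c * E) * γ := by
  obtain ⟨k1, k2, k3⟩ := h
  have m1 := rel_mul k1 h1
  have m2 := rel_mul k2 hx
  rw [abs_le] at k3 m1 m2 ⊢
  constructor <;> linarith [k3.1, k3.2, m1.1, m1.2, m2.1, m2.2]

theorem rel_slope {s s' u2 v1 v2 u2' v1' v2' γ c ρ : ℝ} (hρ : 0 < ρ) (hc : 1 ≤ c) (hv : ρ ≤ |v2|)
    (hs : |s'| ≤ 4) (p : |u2 + v1 + v2 * s| ≤ γ) (p' : |u2' + v1' + v2' * s'| ≤ γ)
    (k1 : |v1 - v1'| ≤ 10 * c * γ) (k2 : |v2 - v2'| ≤ 10 * c * γ) (k3 : |u2 - u2'| ≤ 24 * c * γ) :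
    |s - s'| ≤ 76 * c / ρ * γ := by
  have hγ : 0 ≤ γ := (abs_nonneg _).trans p
  have hcγ : γ ≤ c * γ := le_mul_of_one_le_left hγ hc
  have m := rel_mul k2 hs
  have h1 : |v2 * (s - s')| ≤ 76 * c * γ := by
    rw [abs_le] at p p' k1 k3 m ⊢
    constructor <;> linarith [p.1, p.2, p'.1, p'.2, k1.1, k1.2, k3.1, k3.2, m.1, m.2]
  rw [abs_mul] at h1
  have h2 := mul_le_mul_of_nonneg_right hv (abs_nonneg (s - s'))
  rw [div_mul_eq_mul_div, le_div_iff₀ hρ]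
  linarith

theorem rel_sum3 (f : Fin 3 → ℝ) (i : Fin 3) : ∑ j, f j = f i + f (i + 1) + f (i + 2) := by
  rw [Fin.sum_univ_three]
  fin_cases i
  · rfl
  · show _ = f 1 + f 2 + f 0
    ring
  · show _ = f 2 + f 0 + f 1
    ring

theorem rel_box {S : Finset (Fin 3 → ℤ)} {z : Fin 3 → ℤ} {m : ℕ}
    (h : ∀ w ∈ S, ∀ e, |w e - z e| ≤ m) : #S ≤ (2 * m + 1) ^ 3 := by
  have h1 : S ⊆ Fintype.piFinset fun e => Icc (z e - m) (z e + m) := fun w hw =>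
    Fintype.mem_piFinset.2 fun e => by
      have := abs_le.1 (h w hw e)
      rw [mem_Icc]
      constructor <;> linarith [this.1, this.2]
  refine (card_le_card h1).trans ?_
  rw [Fintype.card_piFinset]
  simp only [basea_card_Icc, prod_const, card_univ, Fintype.card_fin, le_refl]

theorem rel_floor {a b γ : ℝ} {m : ℕ} (hγ : 0 < γ) (h : |a - b| ≤ m * γ) :
    |⌊a / γ⌋ - ⌊b / γ⌋| ≤ m := by
  rw [abs_le] at h ⊢
  have h1 : a / γ ≤ b / γ + m := by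
    rw [div_le_iff₀ hγ, add_mul, div_mul_cancel₀ _ hγ.ne']
    linarith [h.2]
  have h2 : b / γ ≤ a / γ + m := by
    rw [div_le_iff₀ hγ, add_mul, div_mul_cancel₀ _ hγ.ne']
    linarith [h.1]
  have h3 := Int.floor_mono h1
  have h4 := Int.floor_mono h2
  rw [Int.floor_add_natCast] at h3 h4
  constructor <;> linarith

theorem rel_floor' {a b γ : ℝ} (hγ : 0 < γ) (h : ⌊a / γ⌋ = ⌊b / γ⌋) : |a - b| ≤ γ := by
  have h1 := Int.abs_sub_lt_one_of_floor_eq_floor h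
  rw [← sub_div, abs_div, abs_of_pos hγ, div_lt_one hγ] at h1
  exact h1.le

/-- data of a good triple -/
def rel_Gd {ι : Type} (x f1 f2 : ι → ℝ) (c ρ γ : ℝ) (t : Tri ι) : Prop :=
  ∃ u1 v1 u2 v2 : ℝ, (∀ i, f1 (t i) = u1 + v1 * x (t i) ∧ f2 (t i) = u2 + v2 * x (t i) ∧
    |f1 (t i)| ≤ c ∧ |f2 (t i)| ≤ c) ∧ ρ ≤ |v2| ∧ |u2 + v1 + v2 * ∑ i, x (t i)| ≤ γ

/-- two labels of a good triple determine the third one -/
theorem rel_third {ι : Type} {A : Arr ι} (hA : A.Ok) {f1 f2 : ι → ℝ} {c ρ γ : ℝ} (hρ : 0 < ρ)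
    (hc : 1 ≤ c) {t u : Tri ι} (ht : t ∈ A.T) (hu : u ∈ A.T) (gt : rel_Gd A.x f1 f2 c ρ γ t)
    (gu : rel_Gd A.x f1 f2 c ρ γ u) (i : Fin 3)
    (h1 : ∀ e, |![A.x, f1, f2] e (t (i + 1)) - ![A.x, f1, f2] e (u (i + 1))| ≤ γ)
    (h2 : ∀ e, |![A.x, f1, f2] e (t (i + 2)) - ![A.x, f1, f2] e (u (i + 2))| ≤ γ) (e : Fin 3) :
    |![A.x, f1, f2] e (t i) - ![A.x, f1, f2] e (u i)| ≤
      (44 * c + 3 * c * (76 * c / ρ + 2)) * γ := by
  obtain ⟨u1, v1, u2, v2, a1, a2, a3⟩ := gt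
  obtain ⟨u1', v1', u2', v2', b1, b2, b3⟩ := gu
  have hγ : 0 ≤ γ := (abs_nonneg _).trans a3
  have x1 : |A.x (t (i + 1)) - A.x (u (i + 1))| ≤ γ := h1 0
  have x2 : |A.x (t (i + 2)) - A.x (u (i + 2))| ≤ γ := h2 0
  have y1 : |f1 (t (i + 1)) - f1 (u (i + 1))| ≤ γ := h1 1
  have y2 : |f1 (t (i + 2)) - f1 (u (i + 2))| ≤ γ := h2 1
  have z1 : |f2 (t (i + 1)) - f2 (u (i + 1))| ≤ γ := h1 2
  have z2 : |f2 (t (i + 2)) - f2 (u (i + 2))| ≤ γ := h2 2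
  have s1 : 4 / 5 ≤ |A.x (t (i + 1)) - A.x (t (i + 2))| := (hA.co_bd ht i).1
  have s2 : 4 / 5 ≤ |A.x (u (i + 1)) - A.x (u (i + 2))| := (hA.co_bd hu i).1
  have xb : ∀ j, |A.x (t j)| ≤ 2 := fun j => (baseb_x hA ht j).trans (by norm_num)
  have c1 := (b1 (i + 1)).2.2.1
  have c2 := (b1 (i + 2)).2.2.1
  have d1 := (b1 (i + 1)).2.2.2
  have d2 := (b1 (i + 2)).2.2.2
  rw [(b1 _).1] at c1 c2 y1 y2
  rw [(b1 _).2.1] at d1 d2 z1 z2
  rw [(a1 _).1] at y1 y2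
  rw [(a1 _).2.1] at z1 z2
  have k1 := rel_aff s1 s2 (xb _) x1 x2 y1 y2 c1 c2 hc
  have k2 := rel_aff s1 s2 (xb _) x1 x2 z1 z2 d1 d2 hc
  have sb : |∑ j, A.x (u j)| ≤ 4 := by
    have := baseb_sl hA hu
    rw [Fin.sum_univ_three, abs_le]
    constructor <;> linarith [this.1, this.2.1, this.2.2.1, this.2.2.2.1, this.2.2.2.2.1,
      this.2.2.2.2.2]
  have k3 := rel_slope hρ hc a2 sb a3 b3 k1.2.1 k2.2.1 k2.2.2
  rw [rel_sum3 _ i, rel_sum3 _ i] at k3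
  have k4 : |A.x (t i) - A.x (u i)| ≤ (76 * c / ρ + 2) * γ := by
    rw [abs_le] at k3 x1 x2 ⊢
    constructor <;> linarith [k3.1, k3.2, x1.1, x1.2, x2.1, x2.2]
  fin_cases e
  · refine k4.trans (mul_le_mul_of_nonneg_right ?_ hγ)
    have : 0 ≤ 76 * c / ρ + 2 := by positivity
    nlinarith
  · show |f1 (t i) - f1 (u i)| ≤ _
    rw [(a1 _).1, (b1 _).1]
    exact rel_ext (xb i) k4 k1
  · show |f2 (t i) - f2 (u i)| ≤ _
    rw [(a1 _).2.1, (b1 _).2.1]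
    exact rel_ext (xb i) k4 k2

theorem rel_cl_sub {ι : Type} (T : Finset (Tri ι)) (i : Fin 3) : cl T i ⊆ lines T := by
  intro a ha
  obtain ⟨t, ht, e⟩ := mem_cl.1 ha
  exact mem_lines.2 ⟨t, ht, i, e⟩

/-- a dense family of good triples is rich -/
theorem rel_fin (k : ℕ) {ρ c κ K : ℝ} (hρ : 0 < ρ) (hc : 1 ≤ c) (hκ : 0 < κ) (hK : 1 ≤ K) :
    ∃ γ : ℝ, 0 < γ ∧ ∃ J0 : ℝ, ∀ (ι : Type) (A : Arr ι) (T : Finset (Tri ι)) (J : ℝ)
      (f1 f2 : ι → ℝ), A.Ok → T ⊆ A.T → J0 ≤ J → (#(lines T) : ℝ) ≤ K * J → κ * J ^ 2 ≤ #T →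
      (∀ t ∈ T, rel_Gd A.x f1 f2 c ρ γ t) → Rich k T := by
  obtain ⟨m, hm⟩ := exists_nat_ge (44 * c + 3 * c * (76 * c / ρ + 2))
  obtain ⟨γ, hγ, n0, hz⟩ := zoomc3 k (D := κ ^ 3 / (8 * ((2 * m + 1) ^ 3) ^ 3 * K ^ 6))
    (by positivity)
  obtain ⟨N, hN⟩ := exists_nat_ge (2 * c / γ)
  rw [div_le_iff₀ hγ] at hN
  refine ⟨γ, hγ, max 1 (2 * ((2 * N + 1) ^ 3) ^ 3 * (n0 + 1) / κ),
    fun ι A T J f1 f2 hA hT hJ hl hd hg => ?_⟩
  have J1 : 1 ≤ J := (le_max_left _ _).trans hJ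
  have J2 := (le_max_right _ _).trans hJ
  rw [div_le_iff₀ hκ] at J2
  let cell : ι → Fin 3 → ℤ := fun a e => ⌊![A.x, f1, f2] e a / γ⌋
  obtain ⟨T', h1, h2, h3, h4⟩ := block (hA.lin.mono hT) (n := #(lines T)) (M := (2 * N + 1) ^ 3)
    (C := (2 * m + 1) ^ 3) (fun i => card_le_card (rel_cl_sub T i)) cell
    (rel_box (z := fun _ => ⌊0 / γ⌋) fun w hw e => by
      simp only [mem_image] at hw
      obtain ⟨a, ha, rfl⟩ := hw
      obtain ⟨t, ht, i, rfl⟩ := mem_lines.1 ha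
      obtain ⟨u1, v1, u2, v2, a1, -⟩ := hg t ht
      refine rel_floor hγ (le_trans ?_ hN)
      rw [sub_zero]
      fin_cases e
      · exact (baseb_x hA (hT ht) i).trans (by linarith)
      · exact (a1 i).2.2.1.trans (by linarith)
      · exact (a1 i).2.2.2.trans (by linarith))
    (fun i z z' => by
      by_cases h0 : ∃ u ∈ T, cell (u (i + 1)) = z ∧ cell (u (i + 2)) = z'
      · obtain ⟨u, hu, rfl, rfl⟩ := h0
        refine rel_box (z := cell (u i)) fun w hw e => ?_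
        simp only [mem_image, mem_filter] at hw
        obtain ⟨t, ⟨ht, e1, e2⟩, rfl⟩ := hw
        exact rel_floor hγ ((rel_third hA hρ hc (hT ht) (hT hu) (hg t ht) (hg u hu) i
          (fun e => rel_floor' hγ (congrFun e1 e)) (fun e => rel_floor' hγ (congrFun e2 e)) e).trans
          (mul_le_mul_of_nonneg_right hm hγ.le))
      · refine rel_box (z := 0) fun w hw e => ?_
        simp only [mem_image, mem_filter] at hw
        obtain ⟨t, ⟨ht, e1⟩, rfl⟩ := hw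
        exact (h0 ⟨t, ht, e1⟩).elim)
  have h5 : (#T : ℝ) ≤ 2 * ((2 * N + 1) ^ 3) ^ 3 * #T' := by exact_mod_cast h3
  have h6 : (#T : ℝ) ^ 3 * (#(cl T' 0) * #(cl T' 1) * #(cl T' 2)) ^ 2 ≤
      8 * ((2 * m + 1) ^ 3) ^ 3 * (#(lines T) : ℝ) ^ 6 * (#T' : ℝ) ^ 3 := by exact_mod_cast h4
  have h7 : (n0 : ℝ) + 1 ≤ #T' := by
    refine le_of_mul_le_mul_left (a := 2 * ((2 * (N : ℝ) + 1) ^ 3) ^ 3) ?_ (by positivity)
    have := mul_nonneg hκ.le (mul_nonneg (sub_nonneg.2 J1) (zero_le_one.trans J1))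
    linarith
  have h8 : n0 + 1 ≤ #T' := by exact_mod_cast h7
  obtain ⟨t0, ht0⟩ := card_pos.1 (show 0 < #T' by omega)
  have hs := h1.trans hT
  refine (hz ι T' A.x A.s (fun i => A.x (t0 i)) (hA.dual.mono hs) (fun t ht => hA.sep t (hs ht))
    (fun t ht i => rel_floor' hγ (congrFun (h2 t ht t0 ht0 i) 0)) ?_ (by omega)).mono h1
  rw [div_mul_eq_mul_div, div_le_iff₀ (by positivity)]
  refine le_of_mul_le_mul_right (a := J ^ 6) ?_ (by positivity)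
  calc _ = (κ * J ^ 2) ^ 3 * ((#(cl T' 0) : ℝ) * #(cl T' 1) * #(cl T' 2)) ^ 2 := by ring
    _ ≤ (#T : ℝ) ^ 3 * ((#(cl T' 0) : ℝ) * #(cl T' 1) * #(cl T' 2)) ^ 2 := by gcongr
    _ ≤ 8 * ((2 * m + 1) ^ 3) ^ 3 * (K * J) ^ 6 * (#T' : ℝ) ^ 3 := h6.trans (by gcongr)
    _ = _ := by ring

/-- a line which is linked to many triples -/
theorem rel_pick {ι : Type} {T : Finset (Tri ι)} (hL : Lin T) {β i : Fin 3} (hi : β ≠ i)
    (hT : T.Nonempty) : ∃ a, (#T : ℝ) ^ 2 ≤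
      (#(lines T) : ℝ) ^ 2 * cnt T fun t => ∃ u ∈ T, u β = t β ∧ u i = a := by
  obtain ⟨a, -, ha⟩ := exists_max_image (cl T i)
    (fun a => cnt T fun t => ∃ u ∈ T, u β = t β ∧ u i = a) (hT.image _)
  refine ⟨a, ?_⟩
  have e1 : (#T : ℝ) = ∑ b ∈ cl T β, cnt T fun u => u β = b := by
    rw [card_eq_sum_card_image (fun t => t β) T, Nat.cast_sum]
    rfl
  have e2 : ∑ t ∈ T, cnt T (fun u => u β = t β) = ∑ b ∈ cl T β, (cnt T fun u => u β = b) ^ 2 := by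
    rw [sum_comp (fun b => cnt T fun u => u β = b) fun t : Tri ι => t β]
    refine sum_congr rfl fun b _ => ?_
    rw [nsmul_eq_mul, sq]
    rfl
  have e3 : ∀ t ∈ T, cnt T (fun u => u β = t β) ≤
      cnt (cl T i) fun a => ∃ u ∈ T, u β = t β ∧ u i = a := fun t _ =>
    baseb_cnt_inj (fun u => u i)
      (fun u hu e => (baseb_mem_f _ _ _).2 ⟨mem_cl.2 ⟨u, hu, rfl⟩, u, hu, e, rfl⟩)
      fun u hu e u' hu' e' e'' => hL u hu u' hu' β i hi (e.trans e'.symm) e''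
  have e4 := (sum_le_sum e3).trans_eq
    (baseb_swap T (cl T i) fun t a => ∃ u ∈ T, u β = t β ∧ u i = a)
  have e5 := sum_le_card_nsmul _ _ _ ha
  rw [nsmul_eq_mul] at e5
  have c1 : (#(cl T β) : ℝ) ≤ #(lines T) := Nat.cast_le.2 (card_le_card (rel_cl_sub T β))
  have c2 : (#(cl T i) : ℝ) ≤ #(lines T) := Nat.cast_le.2 (card_le_card (rel_cl_sub T i))
  have c3 := cnt_nonneg T fun t => ∃ u ∈ T, u β = t β ∧ u i = a
  calc (#T : ℝ) ^ 2 ≤ #(cl T β) * ∑ b ∈ cl T β, (cnt T fun u => u β = b) ^ 2 := by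
        rw [e1]
        exact sq_sum_le_card_mul_sum_sq
    _ ≤ #(lines T) * (#(lines T) * cnt T fun t => ∃ u ∈ T, u β = t β ∧ u i = a) := by
        rw [← e2]
        refine mul_le_mul c1 (e4.trans (e5.trans ?_)) (sum_nonneg fun _ _ => cnt_nonneg _ _)
          (Nat.cast_nonneg _)
        gcongr
    _ = _ := by ring

/-- the relation on a triple -/
theorem rel_tri {ι : Type} {A : Arr ι} (hA : A.Ok) {t : Tri ι} (ht : t ∈ A.T) {f0 f1 f2 : ι → ℝ}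
    (h0 : Om A.x f0 t = 0) (h1 : Om A.x f1 t = 0) (h2 : Om A.x f2 t = 0) {γ : ℝ}
    (h : ∀ i, |f0 (t i) + A.x (t i) * f1 (t i) + A.x (t i) ^ 2 * f2 (t i)| ≤ γ) :
    ∃ u1 v1 u2 v2 : ℝ, (∀ i, f1 (t i) = u1 + v1 * A.x (t i) ∧ f2 (t i) = u2 + v2 * A.x (t i)) ∧
      |u2 + v1 + v2 * ∑ i, A.x (t i)| ≤ 4 * γ := by
  obtain ⟨u0, v0, a0⟩ := hA.affine ht h0
  obtain ⟨u1, v1, a1⟩ := hA.affine ht h1
  obtain ⟨u2, v2, a2⟩ := hA.affine ht h2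
  refine ⟨u1, v1, u2, v2, fun i => ⟨a1 i, a2 i⟩, ?_⟩
  have s := baseb_sl hA ht
  simp only [a0, a1, a2] at h
  rw [Fin.sum_univ_three]
  exact rel_dd (by linarith [s.2.1, s.2.2.1]) (by linarith [s.2.2.2.1, s.2.2.2.2.1]) (h 0) (h 1)
    (h 2)

end Pool.Agent.MP_38296a_co.H21

end FileRel1

section FileRel

set_option autoImplicit false

namespace Pool.Agent.MP_38296a_co.H21

open Finset Filter Classical

theorem rel_four (j : ℕ) : (4 : ℝ) ^ j = (2 ^ j) ^ 2 := by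
  rw [sq, ← mul_pow]
  norm_num

theorem rel_zero {a C : ℝ} (hC : 0 < C) (h : ∀ ρ, 0 < ρ → |a| ≤ C * ρ) : a = 0 := by
  refine abs_nonpos_iff.1 (le_of_forall_pos_le_add fun ε hε => ?_)
  have := h (ε / C) (by positivity)
  rwa [mul_div_cancel₀ _ hC.ne', ← zero_add ε] at this

theorem rel_dot {m : ℕ} (α : ℝ) (i : Fin m) (y : Fin m → ℝ) : (α • ee i) ⬝ᵥ y = α * y i := by
  rw [smul_dotProduct, ee, single_dotProduct, one_mul, smul_eq_mul]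

theorem rel_dot_le {m : ℕ} (a y : Fin m → ℝ) : |a ⬝ᵥ y| ≤ (∑ e, |a e|) * ‖y‖ := by
  rw [dotProduct, sum_mul]
  refine (abs_sum_le_sum_abs _ _).trans (sum_le_sum fun e _ => rel_mul le_rfl ?_)
  exact norm_le_pi_norm y e

theorem rel_ker {ι : Type} {m : ℕ} {x : ι → ℝ} {T : Finset (Tri ι)} {g : ι → Fin m → ℝ}
    (hg : ∀ e, (fun a => g a e) ∈ Ker x T) (v : Fin m → ℝ) {t : Tri ι} (ht : t ∈ T) :
    Om x (fun a => v ⬝ᵥ g a) t = 0 := by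
  have e : (fun a => v ⬝ᵥ g a) = ∑ e, v e • fun a => g a e := by
    funext a
    simp only [dotProduct, Finset.sum_apply, Pi.smul_apply, smul_eq_mul]
  rw [e]
  exact Submodule.sum_mem (Ker x T) (fun e _ => Submodule.smul_mem _ _ (hg e)) t ht

theorem rel_sub {α : Type} {S : Finset α} {P B : α → Prop} {a b : ℝ} (h1 : a ≤ cnt S P)
    (h2 : cnt S B ≤ b) : ∃ T ⊆ S, a - b ≤ #T ∧ ∀ t ∈ T, P t ∧ ¬ B t := by
  have h3 : cnt S P ≤ cnt S (fun t => P t ∧ ¬ B t) + cnt S B :=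
    cnt_or fun t _ ht => (Classical.em (B t)).symm.imp_left fun e => ⟨ht, e⟩
  exact ⟨_, fun t ht => ((baseb_mem_f S (fun t => P t ∧ ¬ B t) t).1 ht).1,
    show a - b ≤ cnt S fun t => P t ∧ ¬ B t by linarith,
    fun t ht => ((baseb_mem_f S (fun t => P t ∧ ¬ B t) t).1 ht).2⟩

theorem rel_diff {ι : Type} {B : Arr ι} (hB : B.Ok) {t : Tri ι} (ht : t ∈ B.T) (v : ℝ)
    (i j : Fin 3) : |v * B.x (t i) - v * B.x (t j)| ≤ |v| * 3 := by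
  rw [← mul_sub]
  refine rel_mul le_rfl ((abs_sub _ _).trans ?_)
  linarith [baseb_x hB ht i, baseb_x hB ht j]

variable {r : ℕ} {A : ℕ → Arr ℕ} {Q : ℕ → Bx} {β : Fin 3} {g : ℕ → ℕ → Fin (r + 2) → ℝ}

/-- a label which is nearly constant on most triples is constant -/
theorem rel_const (hV : Val A Q) (hD : Dens A Q) (h : Lb0 A Q β g) {v : Fin (r + 2) → ℝ}
    (hv : ∀ ρ κ : ℝ, 0 < ρ → 0 < κ → ∀ᶠ n in UU, cnt ((A n).TB (Q n))
      (fun t => ∃ i j, ρ < |v ⬝ᵥ g n (t i) - v ⬝ᵥ g n (t j)|) ≤ κ * 4 ^ (Q n).j) :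
    v = v 0 • ee 0 := by
  obtain ⟨δ, hδ, hd⟩ := hD
  obtain ⟨K, hK1, hK⟩ := hV.lines_le
  obtain ⟨C, hC, hr⟩ := h.rgp_top hV (η := (δ / 2) ^ 2 / K ^ 2) (by positivity)
  have key : ∀ ρ, 0 < ρ → ∃ α : ℝ, ‖v - α • ee 0‖ ≤ C * ρ := by
    intro ρ hρ
    obtain ⟨n, a1, ⟨a2, -⟩, a3, a4⟩ :=
      (hd.and (hK.and (hr.and (hv ρ (δ / 2) hρ (half_pos hδ))))).exists
    rw [baseb_card_cnt] at a1
    obtain ⟨T, hT, b1, b2⟩ := rel_sub a1 a4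
    have p4 : (0 : ℝ) < 4 ^ (Q n).j := by positivity
    have b3 : δ / 2 * 4 ^ (Q n).j ≤ #T := by linarith
    have b4 : T.Nonempty := card_pos.1 (Nat.cast_pos.1 (lt_of_lt_of_le (by positivity) b3))
    have hi : β ≠ β + 1 := (by decide : ∀ b : Fin 3, b ≠ b + 1) β
    obtain ⟨a, ha⟩ := rel_pick ((hV.ok n).lin.mono (hT.trans (TB_sub _))) hi b4
    refine ⟨v ⬝ᵥ g n a, a3 _ ρ hρ.le (le_trans ?_ (cnt_mono (S := T)
      (P := fun t => ∃ u ∈ T, u β = t β ∧ u (β + 1) = a) fun t ht e => ⟨hT ht, ?_⟩))⟩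
    · have b5 : (#(lines T) : ℝ) ≤ K * 2 ^ (Q n).j :=
        (Nat.cast_le.2 (card_le_card (lines_mono hT))).trans a2
      have b6 := cnt_nonneg T fun t => ∃ u ∈ T, u β = t β ∧ u (β + 1) = a
      rw [div_mul_eq_mul_div, div_le_iff₀ (by positivity)]
      refine le_of_mul_le_mul_right ?_ p4
      calc _ = (δ / 2 * 4 ^ (Q n).j) ^ 2 := by ring
        _ ≤ (#T : ℝ) ^ 2 := by gcongr
        _ ≤ (K * 2 ^ (Q n).j) ^ 2 * cnt T fun t => ∃ u ∈ T, u β = t β ∧ u (β + 1) = a :=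
          ha.trans (by gcongr)
        _ = _ := by rw [rel_four]; ring
    · obtain ⟨u, hu, e1, e2⟩ := e
      rw [sub_dotProduct, rel_dot, h.one, mul_one, ← e1, ← e2]
      exact not_lt.1 fun l => (b2 u hu).2 ⟨_, _, l⟩
  funext e
  by_cases he : e = 0
  · simp [he, ee]
  · have e0 : ∀ α : ℝ, (α • ee (0 : Fin (r + 2))) e = 0 := fun α => by simp [ee, he]
    rw [e0]
    refine rel_zero hC fun ρ hρ => ?_
    obtain ⟨α, hα⟩ := key ρ hρ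
    have := (norm_le_pi_norm _ e).trans hα
    rwa [Pi.sub_apply, e0, sub_zero] at this

/-- a relation on the support nearly holds on most triples -/
theorem rel_good (hV : Val A Q) (h : Lb0 A Q β g) {Φ : (Fin (r + 2) → ℝ) → ℝ} (hΦ : Continuous Φ)
    (h0 : ∀ y i, Supp A Q g i y → Φ y = 0) {θ : ℝ} (hθ : 0 < θ) : ∃ c : ℝ, 1 ≤ c ∧
    ∀ γ : ℝ, 0 < γ → ∀ᶠ n in UU, cnt ((A n).TB (Q n))
      (fun t => ¬ ∀ i, ‖g n (t i)‖ ≤ c ∧ |Φ (g n (t i))| ≤ γ) ≤ θ * 4 ^ (Q n).j := by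
  obtain ⟨c, hc, hb⟩ := h.bdd_top hV (half_pos hθ)
  refine ⟨c, hc, fun γ hγ => ?_⟩
  obtain ⟨γ', hγ', hu⟩ := Metric.uniformContinuousOn_iff_le.1
    ((isCompact_closedBall (0 : Fin (r + 2) → ℝ) (c + 1)).uniformContinuousOn_of_continuous
      hΦ.continuousOn) γ hγ
  filter_upwards [hb, h.supp_most hV (lt_min hγ' one_pos) (half_pos hθ)] with n a1 a2
  refine (cnt_or fun t _ ht => ?_).trans ((add_le_add a1 a2).trans_eq (by ring))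
  by_contra hcon
  push Not at hcon
  refine ht fun i => ⟨hcon.1 i, ?_⟩
  obtain ⟨y, hy, e⟩ := hcon.2 i
  have e1 := e.trans (min_le_left _ _)
  have e2 := e.trans (min_le_right _ _)
  have e3 : ‖y‖ ≤ c + 1 := by
    have := norm_sub_norm_le y (g n (t i))
    rw [norm_sub_rev] at this
    linarith [hcon.1 i]
  have := hu (g n (t i)) (mem_closedBall_zero_iff.2 (by linarith [hcon.1 i])) y
    (mem_closedBall_zero_iff.2 e3) (by rwa [dist_eq_norm])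
  rwa [h0 y i hy, Real.dist_eq, sub_zero] at this

/-- a nontrivial quadratic relation gives a rich configuration -/
theorem Lb0.rel {r k : ℕ} {A : ℕ → Arr ℕ} {Q : ℕ → Bx} {β : Fin 3} {g : ℕ → ℕ → Fin (r + 2) → ℝ}
    (hV : Val A Q) (hD : Dens A Q) (hk : ∀ n, ¬ Rich k (A n).T) (h : Lb0 A Q β g) :
    TrivRel {y | ∃ i, Supp A Q g i y} := by
  intro g0 g1 g2 hrel
  have good : ∀ θ : ℝ, 0 < θ → ∃ c : ℝ, 1 ≤ c ∧ ∀ γ : ℝ, 0 < γ → ∀ᶠ n in UU, cnt ((A n).TB (Q n))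
      (fun t => ¬ ∀ i, ‖g n (t i)‖ ≤ c ∧ |g0 ⬝ᵥ g n (t i) + (A n).x (t i) * (g1 ⬝ᵥ g n (t i)) +
        (A n).x (t i) ^ 2 * (g2 ⬝ᵥ g n (t i))| ≤ γ) ≤ θ * 4 ^ (Q n).j := fun θ hθ => by
    simpa only [h.chi] using rel_good hV h
      (Φ := fun y => g0 ⬝ᵥ y + y 1 * (g1 ⬝ᵥ y) + y 1 ^ 2 * (g2 ⬝ᵥ y))
      (by simp only [dotProduct]; fun_prop) (fun y i hy => hrel y ⟨i, hy⟩) hθ
  obtain ⟨a, s2⟩ : ∃ a : ℝ, g2 = a • ee 0 := by
    refine ⟨_, rel_const hV hD h fun ρ κ hρ hκ => ?_⟩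
    by_contra hcon
    obtain ⟨K, hK1, hK⟩ := hV.lines_le
    obtain ⟨c, hc, hg⟩ := good (κ / 2) (half_pos hκ)
    have n1 : 0 ≤ ∑ e, |g1 e| := sum_nonneg fun _ _ => abs_nonneg _
    have n2 : 0 ≤ ∑ e, |g2 e| := sum_nonneg fun _ _ => abs_nonneg _
    obtain ⟨γ, hγ, J0, hf⟩ := rel_fin k (ρ := ρ / 3) (c := (1 + ∑ e, |g1 e| + ∑ e, |g2 e|) * c)
      (by positivity) (one_le_mul_of_one_le_of_one_le (by linarith) hc) (half_pos hκ) hK1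
    have hJ : ∀ᶠ n in UU, J0 ≤ (2 : ℝ) ^ (Q n).j :=
      ((tendsto_pow_atTop_atTop_of_one_lt one_lt_two).comp hV.big).eventually
        (eventually_ge_atTop J0)
    obtain ⟨n, a1, ⟨a2, -⟩, a3, a4, a5⟩ :=
      ((UU_not hcon).and (hK.and ((hg (γ / 4) (by positivity)).and (h.ker.and hJ)))).exists
    obtain ⟨T, hT, b1, b2⟩ := rel_sub (not_le.1 a1).le a3
    have hs := hT.trans (TB_sub _)
    refine hk n ((hf ℕ (A n) T _ (fun a => g1 ⬝ᵥ g n a) (fun a => g2 ⬝ᵥ g n a) (hV.ok n) hs a5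
      ((Nat.cast_le.2 (card_le_card (lines_mono hT))).trans a2)
      (by rw [← rel_four]; linarith) fun t ht => ?_).mono hs)
    obtain ⟨⟨i, j, c1⟩, c2⟩ := b2 t ht
    rw [not_not] at c2
    obtain ⟨u1, v1, u2, v2, d1, d2⟩ := rel_tri (hV.ok n) (hs ht) (rel_ker a4 g0 (hs ht))
      (rel_ker a4 g1 (hs ht)) (rel_ker a4 g2 (hs ht)) fun i => (c2 i).2
    refine ⟨u1, v1, u2, v2, fun i => ⟨(d1 i).1, (d1 i).2, (rel_dot_le _ _).trans ?_,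
      (rel_dot_le _ _).trans ?_⟩, ?_, by linarith⟩
    · exact mul_le_mul (by linarith) (c2 i).1 (norm_nonneg _) (by linarith)
    · exact mul_le_mul (by linarith) (c2 i).1 (norm_nonneg _) (by linarith)
    · rw [(d1 i).2, (d1 j).2, add_sub_add_left_eq_sub] at c1
      linarith [rel_diff (hV.ok n) (hs ht) v2 i j]
  have e2 : ∀ n b, g2 ⬝ᵥ g n b = a := fun n b => by rw [s2, rel_dot, h.one, mul_one]
  obtain ⟨b, s1⟩ : ∃ b : ℝ, g1 + a • ee 1 = b • ee 0 := by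
    refine ⟨_, rel_const hV hD h fun ρ κ hρ hκ => ?_⟩
    obtain ⟨c, -, hg⟩ := good κ hκ
    filter_upwards [hg (ρ / 12) (by positivity), h.ker] with n a1 a2
    refine (cnt_mono fun t ht e => ⟨ht, fun c2 => ?_⟩).trans a1
    obtain ⟨i, j, c1⟩ := e
    have hs := TB_sub _ ht
    obtain ⟨u1, v1, u2, v2, d1, d2⟩ := rel_tri (hV.ok n) hs (rel_ker a2 g0 hs)
      (rel_ker a2 g1 hs) (rel_ker a2 g2 hs) fun i => (c2 i).2
    have f0 := (d1 0).2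
    have f1 := (d1 1).2
    rw [e2] at f0 f1
    have s := baseb_sl (hV.ok n) hs
    have f2 : v2 = 0 := by
      refine (mul_eq_zero.1 (show v2 * ((A n).x (t 1) - (A n).x (t 0)) = 0 by
        linarith)).resolve_right (ne_of_gt ?_)
      linarith [s.2.1, s.2.2.1]
    rw [f2, zero_mul, add_zero] at f0 d2
    rw [add_dotProduct, add_dotProduct, rel_dot, rel_dot, h.chi, h.chi, (d1 i).1, (d1 j).1,
      show ∀ x y : ℝ, u1 + v1 * x + a * x - (u1 + v1 * y + a * y) = (a + v1) * x - (a + v1) * y from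
        fun x y => by ring, f0] at c1
    linarith [rel_diff (hV.ok n) hs (u2 + v1) i j]
  have s1' : g1 = b • ee 0 - a • ee 1 := eq_sub_of_add_eq s1
  refine ⟨a, b, s2, s1', ?_⟩
  obtain ⟨δ, hδ, hd⟩ := hD
  obtain ⟨C, hC, hr⟩ := h.rgp_top hV (half_pos hδ)
  obtain ⟨c, -, hg⟩ := good (δ / 2) (half_pos hδ)
  rw [neg_smul, eq_neg_iff_add_eq_zero, ← norm_eq_zero]
  refine rel_zero hC fun ρ hρ => ?_
  obtain ⟨n, a1, a2, a3⟩ := (hd.and (hr.and (hg ρ hρ))).exists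
  rw [abs_norm]
  refine a2 _ ρ hρ.le ?_
  have a4 := cnt_add_not ((A n).TB (Q n)) fun t => ∀ i, ‖g n (t i)‖ ≤ c ∧
    |g0 ⬝ᵥ g n (t i) + (A n).x (t i) * (g1 ⬝ᵥ g n (t i)) +
      (A n).x (t i) ^ 2 * (g2 ⬝ᵥ g n (t i))| ≤ ρ
  refine le_trans (by linarith) (cnt_mono (P := fun t => ∀ i, ‖g n (t i)‖ ≤ c ∧
    |g0 ⬝ᵥ g n (t i) + (A n).x (t i) * (g1 ⬝ᵥ g n (t i)) +
      (A n).x (t i) ^ 2 * (g2 ⬝ᵥ g n (t i))| ≤ ρ) fun t ht e => ⟨ht, ?_⟩)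
  have := (e β).2
  rw [e2, s1', sub_dotProduct, rel_dot, rel_dot, h.one, h.chi] at this
  rw [add_dotProduct, rel_dot, h.chi]
  refine le_trans (le_of_eq ?_) this
  congr 1
  ring

end Pool.Agent.MP_38296a_co.H21

end FileRel

end
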