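import Pool.Agent.MP_38296a_co.H21.Core
import Pool.Agent.MP_38296a_co.Mg.H21_Arch
import Pool.Agent.MP_38296a_co.Mg.H21_Conc

-- part MP_38296a_co.H21.Poly
section

section FilePoly1

set_option autoImplicit false

namespace Pool.Agent.MP_38296a_co.H21

open Filter Topology
open scoped ContDiff

noncomputable section

section Gen

variable {E : Type} [NormedAddCommGroup E] [NormedSpace ℝ E]

/-- directional derivative -/
def poly_D (v : ℝ × ℝ) (F : ℝ × ℝ → E) (z : ℝ × ℝ) : E := fderiv ℝ F z v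

lemma poly_D_smooth (v : ℝ × ℝ) {F : ℝ × ℝ → E} (hF : ContDiff ℝ ∞ F) :
    ContDiff ℝ ∞ (poly_D v F) := by
  have h : ContDiff ℝ ∞ (fderiv ℝ F) := hF.fderiv_right (m := ∞) le_rfl
  exact h.clm_apply contDiff_const

lemma poly_diff {F : ℝ × ℝ → E} (hF : ContDiff ℝ ∞ F) : Differentiable ℝ F :=
  hF.differentiable (by simp)

lemma poly_D_comm (v w : ℝ × ℝ) {F : ℝ × ℝ → E} (hF : ContDiff ℝ ∞ F) :
    poly_D v (poly_D w F) = poly_D w (poly_D v F) := by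
  funext z
  have h : ContDiff ℝ ∞ (fderiv ℝ F) := hF.fderiv_right (m := ∞) le_rfl
  have hd : DifferentiableAt ℝ (fderiv ℝ F) z := (h.differentiable (by simp)) z
  have key : ∀ a b : ℝ × ℝ, poly_D a (poly_D b F) z = fderiv ℝ (fderiv ℝ F) z a b := by
    intro a b
    have h1 : poly_D b F = fun x => fderiv ℝ F x b := rfl
    unfold poly_D
    rw [fderiv_clm_apply hd (differentiableAt_const b)]
    simp
  rw [key, key]
  have hs : IsSymmSndFDerivAt ℝ F z :=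
    hF.contDiffAt.isSymmSndFDerivAt (by
      rw [minSmoothness_of_isRCLikeNormedField]
      exact WithTop.coe_le_coe.mpr (le_top : (2 : ℕ∞) ≤ ⊤))
  exact hs v w

lemma poly_D_congr (v : ℝ × ℝ) {F G : ℝ × ℝ → E} {U : Set (ℝ × ℝ)} (hU : IsOpen U)
    (h : ∀ z ∈ U, F z = G z) {z : ℝ × ℝ} (hz : z ∈ U) : poly_D v F z = poly_D v G z := by
  have : F =ᶠ[𝓝 z] G := by
    filter_upwards [hU.mem_nhds hz] with x hx using h x hx
  unfold poly_D
  rw [this.fderiv_eq]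

lemma poly_D_lin (v : ℝ × ℝ) (F : ℝ × ℝ → E) (z : ℝ × ℝ) :
    poly_D v F z = v.1 • poly_D (1, 0) F z + v.2 • poly_D (0, 1) F z := by
  unfold poly_D
  rw [← map_smul, ← map_smul, ← map_add]
  congr 1
  ext <;> simp

lemma poly_D_clm {E' : Type} [NormedAddCommGroup E'] [NormedSpace ℝ E'] (L : E →L[ℝ] E')
    (v : ℝ × ℝ) {F : ℝ × ℝ → E} (hF : ContDiff ℝ ∞ F) :
    poly_D v (fun z => L (F z)) = fun z => L (poly_D v F z) := by
  funext z
  unfold poly_D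
  have h := (L.hasFDerivAt.comp z ((poly_diff hF) z).hasFDerivAt).fderiv
  have h2 : (fun z => L (F z)) = L ∘ F := rfl
  rw [h2, h]
  rfl

lemma poly_D_add_smul (v : ℝ × ℝ) (a b : ℝ) {F G : ℝ × ℝ → E} (hF : ContDiff ℝ ∞ F)
    (hG : ContDiff ℝ ∞ G) (z : ℝ × ℝ) :
    poly_D v (fun z => a • F z + b • G z) z = a • poly_D v F z + b • poly_D v G z := by
  unfold poly_D
  have h := ((((poly_diff hF) z).hasFDerivAt.const_smul a).add
    (((poly_diff hG) z).hasFDerivAt.const_smul b)).fderiv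
  have h2 : (fun z => a • F z + b • G z) = a • F + b • G := rfl
  rw [h2, h]
  rfl

lemma poly_line (v z : ℝ × ℝ) {F : ℝ × ℝ → E} (hF : ContDiff ℝ ∞ F) (s : ℝ) :
    HasDerivAt (fun s : ℝ => F (z + s • v)) (poly_D v F (z + s • v)) s := by
  have h1 : HasDerivAt (fun s : ℝ => z + s • v) v s := by
    simpa using ((hasDerivAt_id s).smul_const v).const_add z
  exact ((poly_diff hF) (z + s • v)).hasFDerivAt.comp_hasDerivAt s h1

lemma poly_line' (v z : ℝ × ℝ) {F : ℝ × ℝ → E} (hF : ContDiff ℝ ∞ F) (s : ℝ) :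
    HasDerivAt (fun s : ℝ => F (z - s • v)) (-poly_D v F (z - s • v)) s := by
  have h1 : HasDerivAt (fun s : ℝ => z - s • v) (-v) s := by
    simpa using ((hasDerivAt_id s).smul_const v).const_sub z
  have h := ((poly_diff hF) (z - s • v)).hasFDerivAt.comp_hasDerivAt s h1
  rw [map_neg] at h
  exact h

lemma poly_second (v z : ℝ × ℝ) {f : ℝ × ℝ → ℝ} (hf : ContDiff ℝ ∞ f)
    (h : ∀ᶠ s : ℝ in 𝓝 0, f (z + s • v) + f (z - s • v) = 2 * f z) :
    poly_D v (poly_D v f) z = 0 := by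
  have h0 : (fun s : ℝ => f (z + s • v) + f (z - s • v)) =ᶠ[𝓝 0] fun _ => 2 * f z := h
  have h1 := h0.deriv
  have h2 : deriv (fun s : ℝ => f (z + s • v) + f (z - s • v)) =
      fun s : ℝ => poly_D v f (z + s • v) - poly_D v f (z - s • v) := by
    funext s
    have := ((poly_line v z hf s).add (poly_line' v z hf s)).deriv
    rw [sub_eq_add_neg]
    exact this
  have h3 : deriv (fun _ : ℝ => 2 * f z) = fun _ => (0 : ℝ) := by
    funext s
    simp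
  rw [h2, h3] at h1
  have h4 := h1.deriv_eq
  have h5 := ((poly_line v z (poly_D_smooth v hf) 0).sub
    (poly_line' v z (poly_D_smooth v hf) 0)).deriv
  have h6 : deriv (fun s : ℝ => poly_D v f (z + s • v) - poly_D v f (z - s • v)) 0 =
      poly_D v (poly_D v f) (z + (0 : ℝ) • v) - -poly_D v (poly_D v f) (z - (0 : ℝ) • v) := h5
  rw [h6] at h4
  simp only [zero_smul, add_zero, sub_zero, deriv_const] at h4
  linarith

lemma poly_grad {F P : ℝ × ℝ → E} {U : Set (ℝ × ℝ)} (hU : IsOpen U) (hU' : IsPreconnected U)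
    (hF : Differentiable ℝ F) (hP : Differentiable ℝ P)
    (h1 : ∀ z ∈ U, poly_D (1, 0) F z = poly_D (1, 0) P z)
    (h2 : ∀ z ∈ U, poly_D (0, 1) F z = poly_D (0, 1) P z) : ∃ c, ∀ z ∈ U, F z = P z + c := by
  have : U.EqOn (fderiv ℝ F) (fderiv ℝ P) := by
    intro z hz
    ext1
    · ext1
      simpa [poly_D] using h1 z hz
    · ext1
      simpa [poly_D] using h2 z hz
  obtain ⟨c, hc⟩ := hU.exists_eq_add_of_fderiv_eq hU' hF.differentiableOn hP.differentiableOn this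
  exact ⟨c, fun z hz => hc hz⟩

lemma poly_aff {F : ℝ × ℝ → E} {U : Set (ℝ × ℝ)} (hU : IsOpen U) (hU' : IsPreconnected U)
    (hF : Differentiable ℝ F) (p q : E)
    (h1 : ∀ z ∈ U, poly_D (1, 0) F z = p) (h2 : ∀ z ∈ U, poly_D (0, 1) F z = q) :
    ∃ c, ∀ z ∈ U, F z = z.1 • p + z.2 • q + c := by
  have hd : ∀ z : ℝ × ℝ, HasFDerivAt (fun z : ℝ × ℝ => z.1 • p + z.2 • q)
      ((ContinuousLinearMap.fst ℝ ℝ ℝ).smulRight p + (ContinuousLinearMap.snd ℝ ℝ ℝ).smulRight q)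
      z := fun z => (hasFDerivAt_fst.smul_const p).add (hasFDerivAt_snd.smul_const q)
  refine poly_grad (P := fun z : ℝ × ℝ => z.1 • p + z.2 • q) hU hU' hF
    (fun z => (hd z).differentiableAt) ?_ ?_
  · intro z hz
    rw [h1 z hz, poly_D, (hd z).fderiv]
    simp
  · intro z hz
    rw [h2 z hz, poly_D, (hd z).fderiv]
    simp

lemma poly_hess {F : ℝ × ℝ → E} {U : Set (ℝ × ℝ)} (hU : IsOpen U) (hU' : IsPreconnected U)
    (hF : ContDiff ℝ ∞ F) (p q w : E)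
    (h11 : ∀ z ∈ U, poly_D (1, 0) (poly_D (1, 0) F) z = p)
    (h12 : ∀ z ∈ U, poly_D (1, 0) (poly_D (0, 1) F) z = q)
    (h22 : ∀ z ∈ U, poly_D (0, 1) (poly_D (0, 1) F) z = w) :
    ∃ f0 f1 f2, ∀ z ∈ U, F z = f0 + z.1 • f1 + z.2 • f2 + (z.1 ^ 2 / 2) • p + (z.1 * z.2) • q +
      (z.2 ^ 2 / 2) • w := by
  obtain ⟨f1, hf1⟩ := poly_aff hU hU' (poly_diff (poly_D_smooth (1, 0) hF)) p q h11
    (fun z hz => by rw [poly_D_comm _ _ hF]; exact h12 z hz)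
  obtain ⟨f2, hf2⟩ := poly_aff hU hU' (poly_diff (poly_D_smooth (0, 1) hF)) q w h12 h22
  set P : ℝ × ℝ → E := fun z => z.1 • f1 + z.2 • f2 + (z.1 ^ 2 / 2) • p + (z.1 * z.2) • q +
      (z.2 ^ 2 / 2) • w with hP
  have hPs : ContDiff ℝ ∞ P := by
    rw [hP]
    fun_prop
  have hx : ∀ z : ℝ × ℝ, poly_D (1, 0) P z = z.1 • p + z.2 • q + f1 := by
    intro z
    have h := poly_line (1, 0) z hPs 0
    simp only [zero_smul, add_zero] at h
    have h0 : HasDerivAt (fun s : ℝ => z.1 + s) 1 0 := (hasDerivAt_id (0 : ℝ)).const_add z.1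
    have h' := (((((h0.smul_const f1).add_const (z.2 • f2)).add
      (((h0.pow 2).div_const 2).smul_const p)).add
      ((h0.mul_const z.2).smul_const q)).add_const ((z.2 ^ 2 / 2) • w))
    have h'' : HasDerivAt (fun s : ℝ => P (z + s • ((1 : ℝ), (0 : ℝ)))) _ 0 :=
      h'.congr_of_eventuallyEq (Eventually.of_forall fun s => by simp [hP])
    rw [h.unique h'']
    simp
    module
  have hy : ∀ z : ℝ × ℝ, poly_D (0, 1) P z = z.1 • q + z.2 • w + f2 := by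
    intro z
    have h := poly_line (0, 1) z hPs 0
    simp only [zero_smul, add_zero] at h
    have h0 : HasDerivAt (fun s : ℝ => z.2 + s) 1 0 := (hasDerivAt_id (0 : ℝ)).const_add z.2
    have h' := (((((h0.smul_const f2).const_add (z.1 • f1)).add_const
      ((z.1 ^ 2 / 2) • p)).add
      ((h0.const_mul z.1).smul_const q)).add (((h0.pow 2).div_const 2).smul_const w))
    have h'' : HasDerivAt (fun s : ℝ => P (z + s • ((0 : ℝ), (1 : ℝ)))) _ 0 :=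
      h'.congr_of_eventuallyEq (Eventually.of_forall fun s => by simp [hP])
    rw [h.unique h'']
    simp
    module
  obtain ⟨f0, hf0⟩ := poly_grad hU hU' (poly_diff hF) (poly_diff hPs)
    (fun z hz => by rw [hf1 z hz, hx]) (fun z hz => by rw [hf2 z hz, hy])
  refine ⟨f0, f1, f2, fun z hz => ?_⟩
  rw [hf0 z hz, hP]
  module

end Gen

end

end Pool.Agent.MP_38296a_co.H21

end FilePoly1

section FilePoly2

set_option autoImplicit false

namespace Pool.Agent.MP_38296a_co.H21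

open Filter Topology
open scoped ContDiff

noncomputable section

/-- the dot product with a fixed vector -/
def poly_dot {m : ℕ} (y : Fin m → ℝ) : (Fin m → ℝ) →L[ℝ] ℝ :=
  ∑ i, y i • ContinuousLinearMap.proj i

lemma poly_dot_apply {m : ℕ} (y g : Fin m → ℝ) : poly_dot y g = g ⬝ᵥ y := by
  simp [poly_dot, dotProduct, mul_comm]

lemma poly_D_smul {E : Type} [NormedAddCommGroup E] [NormedSpace ℝ E] (v : ℝ × ℝ)
    {c : ℝ × ℝ → ℝ} (hc : ContDiff ℝ ∞ c) (p : E) (z : ℝ × ℝ) :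
    poly_D v (fun z => c z • p) z = poly_D v c z • p := by
  have h := poly_D_clm (ContinuousLinearMap.toSpanSingleton ℝ p) v hc
  simpa using congrFun h z

/-- the second derivatives satisfy the quadratic relation -/
lemma poly_rel {r : ℕ} {H : ℝ × ℝ → Fin (r + 2) → ℝ} (hH : ContDiff ℝ ∞ H)
    (y : Fin (r + 2) → ℝ) (z : ℝ × ℝ)
    (h : ∀ᶠ s : ℝ in 𝓝 0, H (z + s • ((1 : ℝ), y 1)) ⬝ᵥ y + H (z - s • ((1 : ℝ), y 1)) ⬝ᵥ y =
      2 * (H z ⬝ᵥ y)) :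
    poly_D (1, 0) (poly_D (1, 0) H) z ⬝ᵥ y +
      y 1 * (((2 : ℝ) • poly_D (1, 0) (poly_D (0, 1) H) z) ⬝ᵥ y) +
      y 1 ^ 2 * (poly_D (0, 1) (poly_D (0, 1) H) z ⬝ᵥ y) = 0 := by
  have hf : ContDiff ℝ ∞ (fun z => poly_dot y (H z)) := (poly_dot y).contDiff.comp hH
  have h1 := poly_second ((1 : ℝ), y 1) z hf (by simpa only [poly_dot_apply] using h)
  rw [poly_D_clm _ _ hH, poly_D_clm _ _ (poly_D_smooth _ hH)] at h1
  have h2 : poly_D ((1 : ℝ), y 1) H =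
      fun z => (1 : ℝ) • poly_D (1, 0) H z + y 1 • poly_D (0, 1) H z := by
    funext z
    exact poly_D_lin _ _ _
  have h3 : poly_D ((1 : ℝ), y 1) (poly_D ((1 : ℝ), y 1) H) z =
      poly_D (1, 0) (poly_D (1, 0) H) z + (2 * y 1) • poly_D (1, 0) (poly_D (0, 1) H) z +
        (y 1 ^ 2) • poly_D (0, 1) (poly_D (0, 1) H) z := by
    rw [poly_D_lin, h2, poly_D_add_smul _ _ _ (poly_D_smooth _ hH) (poly_D_smooth _ hH),
      poly_D_add_smul _ _ _ (poly_D_smooth _ hH) (poly_D_smooth _ hH),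
      poly_D_comm (0, 1) (1, 0) hH]
    simp only
    module
  simp only [h3, poly_dot_apply, add_dotProduct, smul_dotProduct, smul_eq_mul] at h1
  simp only [smul_dotProduct, smul_eq_mul]
  linarith

lemma poly_smooth {r : ℕ} {H : ℝ × ℝ → Fin (r + 2) → ℝ} {Y : Set (Fin (r + 2) → ℝ)}
    {U : Set (ℝ × ℝ)} (hU : IsOpen U) (hU' : IsPreconnected U) (hH : ContDiff ℝ ∞ H)
    (hY : TrivRel Y)
    (h : ∀ y ∈ Y, ∀ z ∈ U, ∀ᶠ s : ℝ in 𝓝 0,
      H (z + s • ((1 : ℝ), y 1)) ⬝ᵥ y + H (z - s • ((1 : ℝ), y 1)) ⬝ᵥ y = 2 * (H z ⬝ᵥ y)) :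
    ∃ (f0 f1 f2 : Fin (r + 2) → ℝ) (a b : ℝ), ∀ z ∈ U, H z = quad f0 f1 f2 a b z := by
  set Hxx := poly_D (1, 0) (poly_D (1, 0) H) with hxx
  set Hxy := poly_D (1, 0) (poly_D (0, 1) H) with hxy
  set Hyy := poly_D (0, 1) (poly_D (0, 1) H) with hyy
  have sxx : ContDiff ℝ ∞ Hxx := poly_D_smooth _ (poly_D_smooth _ hH)
  have sxy : ContDiff ℝ ∞ Hxy := poly_D_smooth _ (poly_D_smooth _ hH)
  have syy : ContDiff ℝ ∞ Hyy := poly_D_smooth _ (poly_D_smooth _ hH)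
  set A : ℝ × ℝ → ℝ := fun z => Hyy z 0 with hA
  set B : ℝ × ℝ → ℝ := fun z => -Hxx z 1 with hB
  have sA : ContDiff ℝ ∞ A := (contDiff_apply ℝ ℝ (0 : Fin (r + 2))).comp syy
  have sB : ContDiff ℝ ∞ B := ((contDiff_apply ℝ ℝ (1 : Fin (r + 2))).comp sxx).neg
  have e00 : (ee 0 : Fin (r + 2) → ℝ) 0 = 1 := by simp [ee]
  have e11 : (ee 1 : Fin (r + 2) → ℝ) 1 = 1 := by simp [ee]
  have e01 : (ee 0 : Fin (r + 2) → ℝ) 1 = 0 := by simp [ee]
  have e10 : (ee 1 : Fin (r + 2) → ℝ) 0 = 0 := by simp [ee]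
  have key : ∀ z ∈ U, Hyy z = A z • ee 0 ∧
      Hxy z = (1 / 2 : ℝ) • (B z • ee 0) + (-1 / 2 : ℝ) • (A z • ee 1) ∧
      Hxx z = (-1 : ℝ) • (B z • ee 1) + (0 : ℝ) • (B z • ee 1) := by
    intro z hz
    obtain ⟨a, b, h2, h1, h0⟩ := hY (Hxx z) ((2 : ℝ) • Hxy z) (Hyy z)
      (fun y hy => poly_rel hH y z (h y hy z hz))
    have ha : A z = a := by simp [hA, h2, e00]
    have hb : B z = b := by simp [hB, h0, e11]
    rw [ha, hb]
    refine ⟨h2, ?_, ?_⟩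
    · have : Hxy z = (1 / 2 : ℝ) • ((2 : ℝ) • Hxy z) := by module
      rw [this, h1]
      module
    · rw [h0]
      module
  have sA0 : ContDiff ℝ ∞ (fun z => A z • (ee 0 : Fin (r + 2) → ℝ)) := sA.smul contDiff_const
  have sA1 : ContDiff ℝ ∞ (fun z => A z • (ee 1 : Fin (r + 2) → ℝ)) := sA.smul contDiff_const
  have sB0 : ContDiff ℝ ∞ (fun z => B z • (ee 0 : Fin (r + 2) → ℝ)) := sB.smul contDiff_const
  have sB1 : ContDiff ℝ ∞ (fun z => B z • (ee 1 : Fin (r + 2) → ℝ)) := sB.smul contDiff_const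
  have c1 : poly_D (1, 0) Hyy = poly_D (0, 1) Hxy := by
    rw [hyy, hxy, poly_D_comm (1, 0) (0, 1) (poly_D_smooth _ hH)]
  have c2 : poly_D (0, 1) Hxx = poly_D (1, 0) Hxy := by
    rw [hxx, hxy, poly_D_comm (0, 1) (1, 0) (poly_D_smooth _ hH), poly_D_comm (0, 1) (1, 0) hH]
  have hz0 : ∀ z ∈ U, poly_D (1, 0) A z = 0 ∧ poly_D (0, 1) A z = 0 ∧ poly_D (1, 0) B z = 0 ∧
      poly_D (0, 1) B z = 0 := by
    intro z hz
    have d1 := congrFun c1 z
    have d2 := congrFun c2 z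
    rw [poly_D_congr _ hU (fun z hz => (key z hz).1) hz,
      poly_D_congr _ hU (fun z hz => (key z hz).2.1) hz, poly_D_add_smul _ _ _ sB0 sA1,
      poly_D_smul _ sA, poly_D_smul _ sB, poly_D_smul _ sA] at d1
    rw [poly_D_congr _ hU (fun z hz => (key z hz).2.2) hz,
      poly_D_congr _ hU (fun z hz => (key z hz).2.1) hz, poly_D_add_smul _ _ _ sB1 sB1,
      poly_D_add_smul _ _ _ sB0 sA1,
      poly_D_smul _ sB, poly_D_smul _ sB, poly_D_smul _ sA] at d2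
    have a0 := congrFun d1 0
    have a1 := congrFun d1 1
    have b0 := congrFun d2 0
    have b1 := congrFun d2 1
    simp only [Pi.add_apply, Pi.smul_apply, smul_eq_mul, e00, e01, e10, e11] at a0 a1 b0 b1
    refine ⟨?_, ?_, ?_, ?_⟩ <;> linarith
  obtain ⟨a, ha⟩ := poly_aff hU hU' (poly_diff sA) 0 0 (fun z hz => (hz0 z hz).1)
    (fun z hz => (hz0 z hz).2.1)
  obtain ⟨b, hb⟩ := poly_aff hU hU' (poly_diff sB) 0 0 (fun z hz => (hz0 z hz).2.2.1)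
    (fun z hz => (hz0 z hz).2.2.2)
  simp only [smul_zero, zero_add] at ha hb
  obtain ⟨f0, f1, f2, hf⟩ := poly_hess hU hU' hH ((-1 : ℝ) • (b • ee 1) + (0 : ℝ) • (b • ee 1))
    ((1 / 2 : ℝ) • (b • ee 0) + (-1 / 2 : ℝ) • (a • ee 1)) (a • ee 0)
    (fun z hz => by rw [← hb z hz]; exact (key z hz).2.2)
    (fun z hz => by rw [← hb z hz, ← ha z hz]; exact (key z hz).2.1)
    (fun z hz => by rw [← ha z hz]; exact (key z hz).1)
  refine ⟨f0, f1, f2, a, b / 2, fun z hz => ?_⟩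
  rw [hf z hz, quad]
  module

/-- the parameters of the quadratic fields, as a linear map -/
def poly_Q (r : ℕ) (U : Set (ℝ × ℝ)) :
    ((Fin (r + 2) → ℝ) × (Fin (r + 2) → ℝ) × (Fin (r + 2) → ℝ) × ℝ × ℝ) →ₗ[ℝ]
      (U → Fin (r + 2) → ℝ) where
  toFun p := fun z => quad p.1 p.2.1 p.2.2.1 p.2.2.2.1 p.2.2.2.2 z.1
  map_add' p q := by
    funext z
    simp only [quad, Prod.fst_add, Prod.snd_add, Pi.add_apply]
    module
  map_smul' c p := by
    funext z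
    simp only [quad, Prod.smul_fst, Prod.smul_snd, Pi.smul_apply, RingHom.id_apply, smul_eq_mul]
    module

lemma poly_lim {r : ℕ} {U : Set (ℝ × ℝ)} {H : ℕ → ℝ × ℝ → Fin (r + 2) → ℝ}
    {G : ℝ × ℝ → Fin (r + 2) → ℝ}
    (hH : ∀ n, ∃ (f0 f1 f2 : Fin (r + 2) → ℝ) (a b : ℝ), ∀ z ∈ U, H n z = quad f0 f1 f2 a b z)
    (hl : ∀ z ∈ U, Tendsto (fun n => H n z) atTop (𝓝 (G z))) :
    ∃ (f0 f1 f2 : Fin (r + 2) → ℝ) (a b : ℝ), ∀ z ∈ U, G z = quad f0 f1 f2 a b z := by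
  have hc : IsClosed ((LinearMap.range (poly_Q r U) : Submodule ℝ (U → Fin (r + 2) → ℝ)) :
      Set (U → Fin (r + 2) → ℝ)) := Submodule.closed_of_finiteDimensional _
  have ht : Tendsto (fun n => fun z : U => H n z.1) atTop (𝓝 fun z : U => G z.1) :=
    tendsto_pi_nhds.mpr fun z => hl z.1 z.2
  have hm := hc.mem_of_tendsto ht (Eventually.of_forall fun n => by
    obtain ⟨f0, f1, f2, a, b, h⟩ := hH n
    exact ⟨(f0, f1, f2, a, b), funext fun z => (h z.1 z.2).symm⟩)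
  obtain ⟨p, hp⟩ := hm
  exact ⟨p.1, p.2.1, p.2.2.1, p.2.2.2.1, p.2.2.2.2, fun z hz => (congrFun hp ⟨z, hz⟩).symm⟩

end

end Pool.Agent.MP_38296a_co.H21

end FilePoly2

section FilePoly

set_option autoImplicit false

namespace Pool.Agent.MP_38296a_co.H21

open Finset Filter Classical

section Aux

open Topology MeasureTheory ContinuousLinearMap
open scoped ContDiff Convolution

/-- projection to a closed square -/
noncomputable def poly_cl (z : ℝ × ℝ) : ℝ × ℝ :=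
  (max (31 / 100) (min (69 / 100) z.1), max (31 / 100) (min (69 / 100) z.2))

lemma poly_cl_cont : Continuous poly_cl := by
  unfold poly_cl
  fun_prop

lemma poly_cl_mem (z : ℝ × ℝ) : poly_cl z ∈ Cen (3 / 10) := by
  have h : ∀ x : ℝ, max (31 / 100) (min (69 / 100) x) ∈ Set.Ioo (3 / 10 : ℝ) (1 - 3 / 10) := by
    intro x
    constructor
    · exact lt_of_lt_of_le (by norm_num) (le_max_left _ _)
    · exact max_lt (by norm_num) (lt_of_le_of_lt (min_le_left _ _) (by norm_num))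
  exact ⟨h z.1, h z.2⟩

lemma poly_cl_eq {z : ℝ × ℝ} (hz : z ∈ Cen (31 / 100)) : poly_cl z = z := by
  obtain ⟨⟨h1, h2⟩, h3, h4⟩ := hz
  unfold poly_cl
  rw [min_eq_right (by linarith), max_eq_right h1.le, min_eq_right (by linarith),
    max_eq_right h3.le]

lemma poly_cen_open (ζ : ℝ) : IsOpen (Cen ζ) := isOpen_Ioo.prod isOpen_Ioo

lemma poly_cen_conn (ζ : ℝ) : IsPreconnected (Cen ζ) :=
  isPreconnected_Ioo.prod isPreconnected_Ioo

lemma poly_shift {z t : ℝ × ℝ} (hz : z ∈ Cen (1 / 3)) (ht : ‖t‖ < 1 / 100) :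
    z - t ∈ Cen (31 / 100) := by
  obtain ⟨⟨h1, h2⟩, h3, h4⟩ := hz
  have a1 := abs_lt.mp (lt_of_le_of_lt (norm_fst_le t) ht)
  have a2 := abs_lt.mp (lt_of_le_of_lt (norm_snd_le t) ht)
  refine ⟨⟨?_, ?_⟩, ?_, ?_⟩ <;> simp only [Prod.fst_sub, Prod.snd_sub] <;> linarith [a1.1, a1.2, a2.1, a2.2]

lemma poly_mono {z : ℝ × ℝ} (hz : z ∈ Cen (31 / 100)) : z ∈ Cen (3 / 10) := by
  obtain ⟨⟨h1, h2⟩, h3, h4⟩ := hz
  refine ⟨⟨?_, ?_⟩, ?_, ?_⟩ <;> linarith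

lemma poly_three {r : ℕ} {G : ℝ × ℝ → Fin (r + 2) → ℝ} {Y : Set (Fin (r + 2) → ℝ)}
    (ha : AffOn G Y) {y : Fin (r + 2) → ℝ} (hy : y ∈ Y) {w : ℝ × ℝ} {s : ℝ}
    (h1 : w + s • ((1 : ℝ), y 1) ∈ Cen (3 / 10)) (h2 : w - s • ((1 : ℝ), y 1) ∈ Cen (3 / 10))
    (h3 : w ∈ Cen (3 / 10)) :
    G (w + s • ((1 : ℝ), y 1)) ⬝ᵥ y + G (w - s • ((1 : ℝ), y 1)) ⬝ᵥ y = 2 * (G w ⬝ᵥ y) := by
  by_cases hs : s = 0
  · subst hs
    simp only [zero_smul, add_zero, sub_zero]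
    ring
  have e1 : (w.1 + s, w.2 - y 1 * w.1 + y 1 * (w.1 + s)) = w + s • ((1 : ℝ), y 1) := by
    ext
    · simp
    · simp
      ring
  have e2 : (w.1 - s, w.2 - y 1 * w.1 + y 1 * (w.1 - s)) = w - s • ((1 : ℝ), y 1) := by
    ext
    · simp
    · simp
      ring
  have e3 : (w.1, w.2 - y 1 * w.1 + y 1 * w.1) = w := by
    ext
    · simp
    · simp
  have h := ha y hy (w.2 - y 1 * w.1) (w.1 + s) (w.1 - s) w.1 (by rw [e1]; exact h1)
    (by rw [e2]; exact h2) (by rw [e3]; exact h3)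
  rw [e1, e2, e3] at h
  have h' : s * (G (w + s • ((1 : ℝ), y 1)) ⬝ᵥ y + G (w - s • ((1 : ℝ), y 1)) ⬝ᵥ y -
      2 * (G w ⬝ᵥ y)) = 0 := by linarith
  rcases mul_eq_zero.mp h' with h'' | h''
  · exact absurd h'' hs
  · linarith

/-- shrinking bumps -/
noncomputable def poly_bump (n : ℕ) : ContDiffBump (0 : ℝ × ℝ) where
  rIn := 1 / 200 * (1 / ((n : ℝ) + 1))
  rOut := 1 / 100 * (1 / ((n : ℝ) + 1))
  rIn_pos := by positivity
  rIn_lt_rOut := by
    have : (0 : ℝ) < 1 / ((n : ℝ) + 1) := by positivity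
    linarith

lemma poly_bump_le (n : ℕ) : (poly_bump n).rOut ≤ 1 / 100 := by
  have h : 1 / ((n : ℝ) + 1) ≤ 1 := by
    rw [div_le_one (by positivity)]
    linarith [Nat.cast_nonneg (α := ℝ) n]
  show 1 / 100 * (1 / ((n : ℝ) + 1)) ≤ 1 / 100
  linarith

lemma poly_bump_lim : Tendsto (fun n => (poly_bump n).rOut) atTop (𝓝 0) := by
  have h := (tendsto_one_div_add_atTop_nhds_zero_nat (𝕜 := ℝ)).const_mul (1 / 100 : ℝ)
  rw [mul_zero] at h
  exact h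

lemma poly_conv {m : ℕ} {G : ℝ × ℝ → Fin m → ℝ} (hG : Continuous G)
    (φ : ContDiffBump (0 : ℝ × ℝ)) (y : Fin m → ℝ) (z : ℝ × ℝ) :
    Integrable (fun t => φ.normed volume t * (G (z - t) ⬝ᵥ y)) ∧
    (φ.normed volume ⋆[lsmul ℝ ℝ, volume] G) z ⬝ᵥ y =
      ∫ t, φ.normed volume t * (G (z - t) ⬝ᵥ y) := by
  have hi : ConvolutionExistsAt (φ.normed volume) G z (lsmul ℝ ℝ) volume :=
    φ.hasCompactSupport_normed.convolutionExists_left _ φ.continuous_normed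
      hG.locallyIntegrable z
  have e : (fun t => φ.normed volume t * (G (z - t) ⬝ᵥ y)) =
      fun t => poly_dot y (lsmul ℝ ℝ (φ.normed volume t) (G (z - t))) := by
    funext t
    simp [poly_dot_apply]
  rw [e]
  refine ⟨(poly_dot y).integrable_comp hi, ?_⟩
  rw [(poly_dot y).integral_comp_comm hi, poly_dot_apply]
  rfl

end Aux

open Topology MeasureTheory ContinuousLinearMap in
open scoped ContDiff Convolution in
/-- a continuous field which is affine along enough directions is quadratic -/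
theorem poly {r : ℕ} {G : ℝ × ℝ → Fin (r + 2) → ℝ} {Y : Set (Fin (r + 2) → ℝ)}
    (hc : ContinuousOn G (Cen (3 / 10))) (ha : AffOn G Y) (hY : TrivRel Y) :
    ∃ (f0 f1 f2 : Fin (r + 2) → ℝ) (a b : ℝ), ∀ z ∈ Cen (1 / 3), G z = quad f0 f1 f2 a b z := by
  set G1 : ℝ × ℝ → Fin (r + 2) → ℝ := G ∘ poly_cl with hG1
  have c1 : Continuous G1 := hc.comp_continuous poly_cl_cont poly_cl_mem
  have e1 : ∀ z ∈ Cen (31 / 100), G1 z = G z := fun z hz => by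
    rw [hG1, Function.comp_apply, poly_cl_eq hz]
  refine poly_lim (H := fun n => (poly_bump n).normed volume ⋆[lsmul ℝ ℝ, volume] G1) ?_ ?_
  · intro n
    refine poly_smooth (poly_cen_open _) (poly_cen_conn _)
      ((poly_bump n).hasCompactSupport_normed.contDiff_convolution_left _
        (poly_bump n).contDiff_normed c1.locallyIntegrable) hY ?_
    intro y hy z hz
    have t1 : Tendsto (fun s : ℝ => z + s • ((1 : ℝ), y 1)) (𝓝 0) (𝓝 z) :=
      Continuous.tendsto' (by fun_prop) _ _ (by simp)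
    have t2 : Tendsto (fun s : ℝ => z - s • ((1 : ℝ), y 1)) (𝓝 0) (𝓝 z) :=
      Continuous.tendsto' (by fun_prop) _ _ (by simp)
    filter_upwards [t1.eventually ((poly_cen_open _).mem_nhds hz),
      t2.eventually ((poly_cen_open _).mem_nhds hz)] with s h1 h2
    obtain ⟨i1, j1⟩ := poly_conv c1 (poly_bump n) y (z + s • ((1 : ℝ), y 1))
    obtain ⟨i2, j2⟩ := poly_conv c1 (poly_bump n) y (z - s • ((1 : ℝ), y 1))
    obtain ⟨-, j3⟩ := poly_conv c1 (poly_bump n) y z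
    rw [j1, j2, j3, ← integral_add i1 i2, ← integral_const_mul]
    congr 1
    funext t
    by_cases ht : t ∈ Function.support ((poly_bump n).normed volume)
    · rw [ContDiffBump.support_normed_eq, mem_ball_zero_iff] at ht
      have ht' := lt_of_lt_of_le ht (poly_bump_le n)
      have m1 := poly_shift h1 ht'
      have m2 := poly_shift h2 ht'
      have m3 := poly_shift hz ht'
      rw [e1 _ m1, e1 _ m2, e1 _ m3]
      have q1 : z + s • ((1 : ℝ), y 1) - t = z - t + s • ((1 : ℝ), y 1) := by abel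
      have q2 : z - s • ((1 : ℝ), y 1) - t = z - t - s • ((1 : ℝ), y 1) := by abel
      rw [q1] at m1 ⊢
      rw [q2] at m2 ⊢
      have := poly_three ha hy (poly_mono m1) (poly_mono m2) (poly_mono m3)
      rw [← mul_add, this]
      ring
    · rw [Function.notMem_support.mp ht]
      ring
  · intro z hz
    have hz' : z ∈ Cen (31 / 100) := by
      obtain ⟨⟨h1, h2⟩, h3, h4⟩ := hz
      refine ⟨⟨?_, ?_⟩, ?_, ?_⟩ <;> linarith
    rw [← e1 z hz']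
    exact ContDiffBump.convolution_tendsto_right_of_continuous poly_bump_lim c1 z

end Pool.Agent.MP_38296a_co.H21

end FilePoly

section FilePlace

set_option autoImplicit false

namespace Pool.Agent.MP_38296a_co.H21

open Finset Filter Classical

theorem place_alg : Algebra.IsAlgebraic ℚ KK := algebraicClosure.isAlgebraic ℚ ℝ

theorem place_ext (F : IntermediateField ℚ KK) (L : Type) [Field L] [CharZero L] [IsAlgClosed L]
    (φ : F →+* L) : ∃ ψ : KK →+* L, ∀ x : F, ψ x = φ x := by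
  have := place_alg
  have : Algebra.IsAlgebraic F KK := Algebra.IsAlgebraic.tower_top (K := ℚ) F
  obtain ⟨ψ, hψ⟩ := IsAlgClosed.surjective_domRestrict_of_isAlgebraic (K := ℚ) (L := F) (M := L)
    (E := KK) φ.toRatAlgHom
  exact ⟨ψ.toRingHom, fun x => DFunLike.congr_fun hψ x⟩

theorem place_le_one {K L : Type} [Field K] [NormedField L] [IsUltrametricDist L] (φ : K →+* L)
    {x : K} (hx : IsIntegral ℤ x) : ‖φ x‖ ≤ 1 := by
  have h1 : IsIntegral ℤ (φ x) := hx.map φ.toIntAlgHom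
  have h2 : IsIntegral (NormedField.valuation (K := L)).integer (φ x) := h1.tower_top
  have h3 := (Valuation.integer.integers (NormedField.valuation (K := L))).mem_of_integral h2
  exact_mod_cast h3

theorem place_den (q : ℚ) (h : ∀ (p : ℕ) [Fact p.Prime], ‖(q : ℚ_[p])‖ ≤ 1) : q.den = 1 := by
  by_contra hq
  have hp : Fact q.den.minFac.Prime := ⟨Nat.minFac_prime hq⟩
  have h1 : ‖(q.den : ℚ_[q.den.minFac])‖ < 1 :=
    Padic.norm_natCast_lt_one_iff.2 (Nat.minFac_dvd _)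
  have h2 : (q.num : ℚ_[q.den.minFac]) = (q : ℚ_[q.den.minFac]) * q.den := by
    exact_mod_cast (Rat.mul_den_eq_num q).symm
  have h3 : ‖(q.num : ℚ_[q.den.minFac])‖ < 1 := by
    rw [h2, norm_mul]
    exact mul_lt_one_of_nonneg_of_lt_one_right (h _) (norm_nonneg _) h1
  have h4 : q.den.minFac ∣ q.num.natAbs :=
    Int.natCast_dvd.1 (Padic.norm_intCast_lt_one_iff.1 h3)
  exact hp.1.one_lt.ne' (Nat.eq_one_of_dvd_coprimes q.reduced h4 (Nat.minFac_dvd _))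

theorem place_integral {F : Type} [Field F] [NumberField F] (β : F)
    (h : ∀ (p : ℕ) [Fact p.Prime] (φ : F →+* PadicAlgCl p), ‖φ β‖ ≤ 1) : IsIntegral ℤ β := by
  have hβ : IsIntegral ℚ β := Algebra.IsIntegral.isIntegral β
  have h1 : minpoly ℚ β ∈ Polynomial.lifts (algebraMap ℤ ℚ) := by
    refine (Polynomial.lifts_iff_coeff_lifts _).2 fun n => ⟨((minpoly ℚ β).coeff n).num,
      Rat.coe_int_num_of_den_eq_one (place_den _ fun p _ => ?_)⟩
    have h2 := (IsAlgClosed.splits ((minpoly ℚ β).map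
      (algebraMap ℚ (PadicAlgCl p)))).mem_lift_of_roots_mem_range ((minpoly.monic hβ).map _)
      (NormedField.valuation (K := PadicAlgCl p)).integer.subtype fun a ha => by
        have h3 : a ∈ (minpoly ℚ β).rootSet (PadicAlgCl p) := by
          rw [Polynomial.rootSet_def]
          exact Finset.mem_coe.2 (Multiset.mem_toFinset.2 ha)
        rw [← NumberField.Embeddings.range_eval_eq_rootSet_minpoly F (PadicAlgCl p) β] at h3
        obtain ⟨φ, rfl⟩ := h3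
        exact ⟨⟨φ β, by exact_mod_cast h p φ⟩, rfl⟩
    obtain ⟨z, hz⟩ := (Polynomial.lifts_iff_coeff_lifts _).1 h2 n
    have h4 : ‖(z : PadicAlgCl p)‖ ≤ 1 := by exact_mod_cast z.2
    rw [Polynomial.coeff_map, Subring.subtype_apply] at hz
    rw [hz, eq_ratCast, ← map_ratCast (algebraMap ℚ_[p] (PadicAlgCl p)),
      PadicAlgCl.norm_extends] at h4
    exact h4
  obtain ⟨g, g1, -, g3⟩ := Polynomial.lifts_and_natDegree_eq_and_monic h1 (minpoly.monic hβ)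
  refine ⟨g, g3, ?_⟩
  rw [← Polynomial.aeval_def, ← Polynomial.aeval_map_algebraMap ℚ, g1, minpoly.aeval]

theorem place_norm_int (p : ℕ) [Fact p.Prime] (m : ℤ) :
    ‖(m : PadicAlgCl p)‖ = ‖(m : ℚ_[p])‖ := by
  rw [← map_intCast (algebraMap ℚ_[p] (PadicAlgCl p)), PadicAlgCl.norm_extends]

theorem place_half (p : ℕ) [hp : Fact p.Prime] {m : ℤ} (h : (p : ℤ) ∣ m) :
    ‖(m : PadicAlgCl p)‖ * 2 ≤ 1 := by
  have h1 : ‖(m : ℚ_[p])‖ ≤ (p : ℝ) ^ (-((1 : ℕ) : ℤ)) :=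
    (Padic.norm_int_le_pow_iff_dvd m 1).2 (by simpa using h)
  have h2 : (2 : ℝ) ≤ p := by exact_mod_cast hp.1.two_le
  rw [place_norm_int]
  rw [zpow_neg, zpow_natCast, pow_one] at h1
  calc ‖(m : ℚ_[p])‖ * 2 ≤ (p : ℝ)⁻¹ * p := mul_le_mul h1 h2 zero_le_two (by positivity)
    _ = 1 := inv_mul_cancel₀ (by positivity)

theorem place_unit (p : ℕ) [Fact p.Prime] {m : ℤ} (h : ¬ (p : ℤ) ∣ m) (ψ : KK →+* PadicAlgCl p)
    {y : KK} (hy : IsIntegral ℤ (m • y)) : ‖ψ y‖ ≤ 1 := by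
  have h1 := place_le_one ψ hy
  have h2 : ‖(m : ℚ_[p])‖ = 1 := le_antisymm (Padic.norm_int_le_one m)
    (not_lt.1 fun k => h (Padic.norm_intCast_lt_one_iff.1 k))
  rwa [zsmul_eq_mul, map_mul, map_intCast, norm_mul, place_norm_int, h2, one_mul] at h1

theorem place_fin (F : IntermediateField ℚ KK) [NumberField F] (L : Type) [NormedField L]
    [CharZero L] [IsAlgClosed L] : ∃ W : Finset (AbsoluteValue KK ℝ), ∀ φ : F →+* L,
      ∃ v ∈ W, ∀ x : F, v x = ‖φ x‖ := by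
  choose e he using place_ext F L
  exact ⟨univ.image fun φ => NumberField.place (e φ), fun φ =>
    ⟨_, mem_image_of_mem _ (mem_univ φ), fun x => by rw [NumberField.place_apply, he]⟩⟩

/-- finiteness of elements of bounded size in a number field -/
theorem northcott (S : Finset KK) : ∃ V : Finset (AbsoluteValue KK ℝ), ∀ C : ℝ, ∃ Φ : Finset KK,
    ∀ α ∈ Subfield.closure (S : Set KK), (∀ v ∈ V, v α ≤ C) →
      (∀ v : AbsoluteValue KK ℝ, IsNonarchimedean v → (∀ y ∈ S, y ≠ 0 → v y = 1) → v α ≤ 1) →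
      α ∈ Φ := by
  have := place_alg
  have : Algebra.IsAlgebraic ℤ KK :=
    haveI := IsLocalization.isAlgebraic ℚ (nonZeroDivisors ℤ)
    Algebra.IsAlgebraic.trans ℤ ℚ KK
  let F : IntermediateField ℚ KK := IntermediateField.adjoin ℚ (S : Set KK)
  have : FiniteDimensional ℚ F := IntermediateField.finiteDimensional_adjoin fun x _ =>
    Algebra.IsIntegral.isIntegral x
  have : NumberField F := {}
  obtain ⟨m, hm, hS⟩ := Algebra.IsAlgebraic.exists_integral_multiples ℤ (S ∪ S.image fun y => y⁻¹)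
  obtain ⟨W0, hW0⟩ := place_fin F ℂ
  have hW : ∀ p : ℕ, ∃ W : Finset (AbsoluteValue KK ℝ), ∀ [Fact p.Prime]
      (φ : F →+* PadicAlgCl p), ∃ v ∈ W, ∀ x : F, v x = ‖φ x‖ := fun p => by
    by_cases hp : p.Prime
    · have : Fact p.Prime := ⟨hp⟩
      obtain ⟨W, h⟩ := place_fin F (PadicAlgCl p)
      exact ⟨W, fun φ => h φ⟩
    · exact ⟨∅, fun {h} => absurd h.1 hp⟩
  choose W hW using hW
  refine ⟨W0 ∪ m.natAbs.primeFactors.biUnion W, fun C => ?_⟩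
  obtain ⟨e, he⟩ := pow_unbounded_of_one_lt C (one_lt_two (α := ℝ))
  refine ⟨(NumberField.Embeddings.finite_of_norm_le F ℂ (‖(m : ℂ)‖ ^ e * C)).toFinset.image
    fun β : F => (β : KK) / (m : KK) ^ e, fun α hα h1 h2 => ?_⟩
  have hF : α ∈ F := (Subfield.closure_le (t := F.toSubfield)).2
    (IntermediateField.subset_adjoin ℚ (S : Set KK)) hα
  refine mem_image.2 ⟨(m : F) ^ e * ⟨α, hF⟩, (Set.Finite.mem_toFinset _).2
    ⟨place_integral _ fun p hp φ => ?_, fun φ => ?_⟩, ?_⟩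
  · rw [map_mul, map_pow, map_intCast, norm_mul, norm_pow]
    by_cases hd : (p : ℤ) ∣ m
    · obtain ⟨v, v1, v2⟩ := hW p φ
      have h3 : ‖φ ⟨α, hF⟩‖ ≤ 2 ^ e := by
        rw [← v2]
        exact (h1 v (mem_union_right _ (mem_biUnion.2 ⟨p, Nat.mem_primeFactors.2
          ⟨hp.1, Int.natCast_dvd.1 hd, Int.natAbs_ne_zero.2 hm⟩, v1⟩))).trans he.le
      calc ‖(m : PadicAlgCl p)‖ ^ e * ‖φ ⟨α, hF⟩‖ ≤ ‖(m : PadicAlgCl p)‖ ^ e * 2 ^ e :=
            mul_le_mul_of_nonneg_left h3 (by positivity)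
        _ ≤ 1 := by
          rw [← mul_pow]
          exact pow_le_one₀ (by positivity) (place_half p hd)
    · obtain ⟨ψ, hψ⟩ := place_ext F (PadicAlgCl p) φ
      have h3 : ‖φ ⟨α, hF⟩‖ ≤ 1 := by
        rw [← hψ]
        refine h2 (NumberField.place ψ) (fun a b => ?_) fun y hy h0 => ?_
        · simp only [NumberField.place_apply, map_add]
          exact IsUltrametricDist.norm_add_le_max _ _
        · have a1 := place_unit p hd ψ (hS y (mem_union_left _ hy))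
          have a2 := place_unit p hd ψ (hS _ (mem_union_right _ (mem_image_of_mem _ hy)))
          rw [map_inv₀, norm_inv] at a2
          exact le_antisymm a1 ((inv_le_one₀ (norm_pos_iff.2 ((map_ne_zero ψ).2 h0))).1 a2)
      refine mul_le_one₀ (pow_le_one₀ (norm_nonneg _) ?_) (norm_nonneg _) h3
      rw [place_norm_int]
      exact Padic.norm_int_le_one m
  · obtain ⟨v, v1, v2⟩ := hW0 φ
    rw [map_mul, map_pow, map_intCast, norm_mul, norm_pow, ← v2]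
    exact mul_le_mul_of_nonneg_left (h1 v (mem_union_left _ v1)) (by positivity)
  · have h0 : (m : KK) ^ e ≠ 0 := pow_ne_zero _ (Int.cast_ne_zero.2 hm)
    push_cast
    exact mul_div_cancel_left₀ α h0

end Pool.Agent.MP_38296a_co.H21

end FilePlace

end

-- part MP_38296a_co.H21.Exact
section

section FileExact1

set_option autoImplicit false

namespace Pool.Agent.MP_38296a_co.H21

open Finset Filter Classical

section Form
variable {K V : Type} [Field K] [AddCommGroup V] [Module K V]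

/-- coefficients with respect to independent members are in the subfield -/
def exact_Form (F : Subfield K) (L : Submodule F V) : Prop :=
  ∀ (s : Finset ℕ) (y : ℕ → V) (c : ℕ → K), (∀ i ∈ s, y i ∈ L) → ∑ i ∈ s, c i • y i ∈ L →
    LinearIndepOn K y (s : Set ℕ) → ∀ i ∈ s, c i ∈ F

theorem exact_pi (F : Subfield K) : ∃ π : K →ₗ[F] K, ∀ c, π c = 0 ↔ c ∈ F := by
  obtain ⟨ρ, hρ⟩ := (Algebra.linearMap F K).exists_leftInverse_of_injective
    (LinearMap.ker_eq_bot.2 Subtype.val_injective)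
  refine ⟨LinearMap.id - (Algebra.linearMap F K).comp ρ, fun c => ⟨fun h => ?_, fun h => ?_⟩⟩
  · have e : c = (ρ c : K) := sub_eq_zero.1 h
    rw [e]
    exact (ρ c).2
  · have e : ρ c = ⟨c, h⟩ := LinearMap.congr_fun hρ ⟨c, h⟩
    change c - (ρ c : K) = 0
    rw [e, sub_self]

theorem exact_form (F : Subfield K) {B : Finset ℕ} {w : ℕ → V}
    (hB : LinearIndepOn K w (B : Set ℕ)) : exact_Form F (Submodule.span F (w '' (B : Set ℕ))) := by
  intro s y c hy h0 hs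
  obtain ⟨π, hπ⟩ := exact_pi F
  have h1 : ∀ i, ∃ m : ℕ → F, i ∈ s → ∑ a ∈ B, (m a : K) • w a = y i := fun i => by
    by_cases hi : i ∈ s
    · obtain ⟨m, hm⟩ := (Submodule.mem_span_image_finset_iff_exists_fun' F).1 (hy i hi)
      exact ⟨m, fun _ => hm⟩
    · exact ⟨0, fun h => absurd h hi⟩
  choose m hm using h1
  obtain ⟨m0, hm0⟩ := (Submodule.mem_span_image_finset_iff_exists_fun' F).1 h0
  have h2 : ∀ d : ℕ → K, ∑ i ∈ s, d i • y i = ∑ a ∈ B, (∑ i ∈ s, d i * m i a) • w a := fun d => by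
    rw [sum_congr rfl fun i hi => by rw [← hm i hi]]
    simp only [smul_sum, sum_smul, smul_smul]
    exact sum_comm
  have h3 := linearIndepOn_finset_iffₛ.1 hB (fun a => ∑ i ∈ s, c i * m i a) (fun a => m0 a)
    ((h2 c).symm.trans hm0.symm)
  have h4 : ∑ i ∈ s, π (c i) • y i = 0 := by
    rw [h2]
    refine sum_eq_zero fun a ha => ?_
    have e : ∑ i ∈ s, π (c i) * m i a = π (∑ i ∈ s, c i * m i a) := by
      rw [map_sum]
      refine sum_congr rfl fun i _ => ?_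
      rw [mul_comm, mul_comm (c i)]
      exact (π.map_smul (m i a) (c i)).symm
    rw [e, h3 a ha, (hπ _).2 (m0 a).2, zero_smul]
  exact fun i hi => (hπ _).1 (linearIndepOn_finset_iff.1 hs _ h4 i hi)

theorem exact_one {F : Subfield K} {L : Submodule F V} (h : exact_Form F L) {y : V} (hy : y ∈ L)
    (h0 : y ≠ 0) {c : K} (hc : c • y ∈ L) : c ∈ F :=
  h {0} (fun _ => y) (fun _ => c) (fun _ _ => hy) (by simpa using hc)
    (by rw [coe_singleton]; exact LinearIndepOn.singleton h0) 0 (mem_singleton_self _)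

theorem exact_smul {F : Subfield K} {L : Submodule F V} {y : V} (hy : y ∈ L) {c : K} (hc : c ∈ F) :
    c • y ∈ L :=
  L.smul_mem (⟨c, hc⟩ : F) hy

theorem exact_coord {B : Finset ℕ} {w : ℕ → V} (hB : LinearIndepOn K w (B : Set ℕ)) {a : ℕ}
    (ha : a ∈ B) : ∃ f : V →ₗ[K] K, ∀ σ : ℕ → K, f (∑ b ∈ B, σ b • w b) = σ a := by
  obtain ⟨f, f1, f2⟩ := Submodule.exists_le_ker_of_notMem (hB.notMem_span (mem_coe.2 ha))
  refine ⟨(f (w a))⁻¹ • f, fun σ => ?_⟩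
  rw [LinearMap.smul_apply, map_sum, sum_eq_single a]
  · rw [map_smul, smul_eq_mul, smul_eq_mul]
    field_simp
  · intro b hb hne
    rw [map_smul, LinearMap.mem_ker.1 (f2 (Submodule.subset_span ⟨b, ⟨hb, hne⟩, rfl⟩)), smul_zero]
  · exact fun h => absurd ha h

end Form

variable {K : Type} [Field K]

/-- the local data in a window -/
structure exact_Loc {D : ℕ} (τ : Finset (Tri ℕ)) (β : Fin 3) (z : ℕ → Fin D → K)
    (cc : Tri ℕ → Fin 3 → K) (S : Finset K) (m : ℝ) (ν : ℕ → K) : Prop where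
  ne : ∀ a, ν a ≠ 0
  nz : ∀ a ∈ lines τ, z a ≠ 0
  rat : ∀ t ∈ τ, ∀ i j, cc t i * ν (t i) / (cc t j * ν (t j)) ∈ S
  fin : ∀ B ⊆ lines τ, ∀ y ∈ lines τ, z y ∈ Submodule.span K (z '' (B : Set ℕ)) →
    ∃ σ : ℕ → K, (∀ a ∈ B, σ a ∈ S) ∧ (ν y)⁻¹ • z y = ∑ a ∈ B, σ a • (ν a)⁻¹ • z a
  span : ∀ B : Set ℕ, m ≤ cnt τ (fun t => t β ∈ B) →
    ∀ t ∈ τ, ∀ j, z (t j) ∈ Submodule.span K (z '' B)

variable {D : ℕ} {τ : Finset (Tri ℕ)} {β : Fin 3} {z : ℕ → Fin D → K} {cc : Tri ℕ → Fin 3 → K}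
  {S : Finset K} {m : ℝ} {ν : ℕ → K}

theorem exact_sp (h : exact_Loc τ β z cc S m ν) (hm : 0 < m) {B : Set ℕ}
    (hB : m ≤ cnt τ fun t => t β ∈ B) : ∃ B' : Finset ℕ, B'.Nonempty ∧
      (∀ a ∈ B', a ∈ B ∧ a ∈ lines τ) ∧ ∀ y ∈ lines τ, ∃ σ : ℕ → K, (∀ a ∈ B', σ a ∈ S) ∧
        (ν y)⁻¹ • z y = ∑ a ∈ B', σ a • (ν a)⁻¹ • z a := by
  have hl : ∀ t ∈ τ, t β ∈ lines τ := fun t ht => mem_lines.2 ⟨t, ht, β, rfl⟩
  refine ⟨{a ∈ lines τ | a ∈ B}, ?_, fun a ha => (mem_filter.1 ha).symm, fun y hy => ?_⟩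
  · obtain ⟨t, ht, hb⟩ := exists_of_cnt_pos (hm.trans_le hB)
    exact ⟨t β, mem_filter.2 ⟨hl t ht, hb⟩⟩
  · refine h.fin _ (filter_subset _ _) y hy ?_
    obtain ⟨t, ht, j, rfl⟩ := mem_lines.1 hy
    exact h.span _ (hB.trans (cnt_mono fun u hu hb =>
      ⟨hu, mem_coe.2 (mem_filter.2 ⟨hl u hu, hb⟩)⟩)) t ht j

theorem exact_basis (h : exact_Loc τ β z cc S m ν) {W : Finset ℕ} (hW : W ⊆ lines τ) :
    ∃ B ⊆ W, LinearIndepOn K (fun a => (ν a)⁻¹ • z a) (B : Set ℕ) ∧ #B ≤ D ∧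
      ∀ y ∈ W, ∃ σ : ℕ → K, (∀ a ∈ B, σ a ∈ S) ∧ (∃ a ∈ B, σ a ≠ 0) ∧
        (ν y)⁻¹ • z y = ∑ a ∈ B, σ a • (ν a)⁻¹ • z a := by
  obtain ⟨b, b1, -, b3, b4⟩ := exists_linearIndepOn_extension (K := K)
    (v := fun a => (ν a)⁻¹ • z a) (s := ∅) (t := (W : Set ℕ)) (linearIndepOn_empty _ _)
    (Set.empty_subset _)
  lift b to Finset ℕ using W.finite_toSet.subset b1
  have b1' : b ⊆ W := coe_subset.1 b1
  refine ⟨b, b1', b4, ?_, fun y hy => ?_⟩
  · have := LinearIndependent.fintype_card_le_finrank b4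
    rw [Module.finrank_fin_fun] at this
    simpa using this
  · have h1 : Submodule.span K ((fun a => (ν a)⁻¹ • z a) '' (b : Set ℕ)) ≤
        Submodule.span K (z '' (b : Set ℕ)) := Submodule.span_le.2 (by
      rintro _ ⟨a, ha, rfl⟩
      exact Submodule.smul_mem _ _ (Submodule.subset_span ⟨a, ha, rfl⟩))
    have h2 := Submodule.smul_mem _ (ν y) (h1 (b3 ⟨y, hy, rfl⟩))
    rw [smul_inv_smul₀ (h.ne y)] at h2
    obtain ⟨σ, s1, s2⟩ := h.fin b (b1'.trans hW) y (hW hy) h2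
    refine ⟨σ, s1, ?_, s2⟩
    by_contra hn
    push Not at hn
    rw [sum_eq_zero fun a ha => by rw [hn a ha, zero_smul]] at s2
    exact smul_ne_zero (inv_ne_zero (h.ne y)) (h.nz y (hW hy)) s2

/-! ### Rationality -/

theorem exact_lam (h : exact_Loc τ β z cc S m ν) {F : Subfield K} (hF : ∀ y ∈ S, y ∈ F) :
    ∃ L : Submodule F (Fin D → K), exact_Form F L ∧
      ∀ y ∈ lines τ, (ν y)⁻¹ • z y ∈ L := by
  obtain ⟨B, -, b2, -, b4⟩ := exact_basis h (Subset.refl _)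
  refine ⟨_, exact_form _ b2, fun y hy => ?_⟩
  obtain ⟨σ, s1, -, s2⟩ := b4 y hy
  rw [s2]
  exact Submodule.sum_mem _ fun a ha => exact_smul
    (Submodule.subset_span (Set.mem_image_of_mem _ (mem_coe.2 ha))) (hF _ (s1 a ha))

theorem exact_spread (h : exact_Loc τ β z cc S m ν) (hm : 0 < m)
    {F : Subfield K} (hF : ∀ y ∈ S, y ∈ F) {L : Submodule F (Fin D → K)} (hL : exact_Form F L)
    (hR : (D + 1) * m ≤ cnt τ fun t => t β ∈ {a | ∃ c : K, c ≠ 0 ∧ c • z a ∈ L}) :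
    ∃ c : K, c ≠ 0 ∧ ∀ y ∈ lines τ, c • (ν y)⁻¹ • z y ∈ L := by
  have h1 : ∀ a, ∃ μ : K, μ ≠ 0 ∧ ((∃ c : K, c ≠ 0 ∧ c • z a ∈ L) → μ • (ν a)⁻¹ • z a ∈ L) := by
    intro a
    by_cases ha : ∃ c : K, c ≠ 0 ∧ c • z a ∈ L
    · obtain ⟨c, c1, c2⟩ := ha
      refine ⟨c * ν a, mul_ne_zero c1 (h.ne a), fun _ => ?_⟩
      rwa [mul_smul, smul_inv_smul₀ (h.ne a)]
    · exact ⟨1, one_ne_zero, fun k => absurd k ha⟩
  choose μ μ0 hμ using h1
  obtain ⟨B, b1, b2, b3, b4⟩ := exact_basis h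
    (W := {a ∈ lines τ | ∃ c : K, c ≠ 0 ∧ c • z a ∈ L}) (filter_subset _ _)
  have h2 : LinearIndepOn K (fun a => μ a • (ν a)⁻¹ • z a) (B : Set ℕ) := by
    refine linearIndepOn_finset_iff.2 fun f hf a ha => ?_
    have := linearIndepOn_finset_iff.1 b2 (fun a => f a * μ a) (by
      simpa only [mul_smul] using hf) a ha
    exact (mul_eq_zero.1 this).resolve_right (μ0 a)
  have h3 := baseb_cnt_sum (S := τ) (P := fun t => t β ∈ {a | ∃ c : K, c ≠ 0 ∧ c • z a ∈ L}) B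
    (fun a t => t β ∈ {y | μ a • (ν y)⁻¹ • z y ∈ L}) fun t ht hb => by
      obtain ⟨σ, s1, ⟨a, ha, s2⟩, s3⟩ := b4 (t β)
        (mem_filter.2 ⟨mem_lines.2 ⟨t, ht, β, rfl⟩, hb⟩)
      have k1 := hμ _ hb
      have k2 := hL B _ (fun a => μ (t β) * σ a / μ a) (fun a ha => hμ a (mem_filter.1 (b1 ha)).2)
        (by
          rw [s3, smul_sum] at k1
          rwa [sum_congr rfl fun a _ => by
            rw [smul_smul, div_mul_cancel₀ _ (μ0 a), mul_smul]]) h2 a ha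
      refine ⟨a, ha, ?_⟩
      have k3 := exact_smul k1 (F.div_mem (hF _ (s1 a ha)) k2)
      rw [smul_smul] at k3
      have e : σ a / (μ (t β) * σ a / μ a) * μ (t β) = μ a := by
        have := μ0 a
        have := μ0 (t β)
        field_simp
      rwa [e] at k3
  have h4 : ∃ a ∈ B, m ≤ cnt τ fun t => t β ∈ {y | μ a • (ν y)⁻¹ • z y ∈ L} := by
    by_contra hn
    push Not at hn
    have k1 := sum_le_sum fun a ha => (hn a ha).le
    rw [sum_const, nsmul_eq_mul] at k1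
    have k2 : (#B : ℝ) * m ≤ D * m := mul_le_mul_of_nonneg_right (by exact_mod_cast b3) hm.le
    linarith
  obtain ⟨a, -, ha⟩ := h4
  obtain ⟨B', -, c2, c3⟩ := exact_sp h hm ha
  refine ⟨μ a, μ0 a, fun y hy => ?_⟩
  obtain ⟨σ, s1, s2⟩ := c3 y hy
  rw [s2, smul_sum]
  refine Submodule.sum_mem _ fun b hb => ?_
  rw [smul_comm]
  exact exact_smul (c2 b hb).1 (hF _ (s1 b hb))

/-! ### Norms -/

/-- the norm of a functional in a window -/
noncomputable def exact_nrm (τ : Finset (Tri ℕ)) (z : ℕ → Fin D → K) (ν : ℕ → K)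
    (v : AbsoluteValue K ℝ) (f : (Fin D → K) →ₗ[K] K) : ℝ :=
  (lines τ).fold max 0 fun a => v (f ((ν a)⁻¹ • z a))

variable {v : AbsoluteValue K ℝ}

theorem exact_nrm_le {f : (Fin D → K) →ₗ[K] K} {c : ℝ} : exact_nrm τ z ν v f ≤ c ↔
    0 ≤ c ∧ ∀ a ∈ lines τ, v (f ((ν a)⁻¹ • z a)) ≤ c :=
  fold_max_le c

theorem exact_nrm_nonneg (f : (Fin D → K) →ₗ[K] K) : 0 ≤ exact_nrm τ z ν v f :=
  (exact_nrm_le.1 le_rfl).1

theorem exact_le_nrm (f : (Fin D → K) →ₗ[K] K) {a : ℕ} (ha : a ∈ lines τ) :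
    v (f ((ν a)⁻¹ • z a)) ≤ exact_nrm τ z ν v f :=
  (exact_nrm_le.1 le_rfl).2 a ha

theorem exact_v_le (hS : ∀ y ∈ S, y ≠ 0 → v y = 1) {y : K} (hy : y ∈ S) : v y ≤ 1 := by
  by_cases h : y = 0
  · rw [h, map_zero]
    exact zero_le_one
  · exact (hS y hy h).le

theorem exact_att (h : exact_Loc τ β z cc S m ν) (hm : 0 < m) (hv : IsNonarchimedean v)
    (hS : ∀ y ∈ S, y ≠ 0 → v y = 1) {B : Set ℕ} (hB : m ≤ cnt τ fun t => t β ∈ B)
    (f : (Fin D → K) →ₗ[K] K) :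
    ∃ a ∈ B, a ∈ lines τ ∧ exact_nrm τ z ν v f ≤ v (f ((ν a)⁻¹ • z a)) := by
  obtain ⟨B', b1, b2, b3⟩ := exact_sp h hm hB
  obtain ⟨a, a1, a2⟩ := exists_max_image B' (fun a => v (f ((ν a)⁻¹ • z a))) b1
  refine ⟨a, (b2 a a1).1, (b2 a a1).2, exact_nrm_le.2 ⟨v.nonneg _, fun y hy => ?_⟩⟩
  obtain ⟨σ, s1, s2⟩ := b3 y hy
  rw [s2, map_sum]
  obtain ⟨b, c1, c2⟩ := hv.finset_image_add_of_nonempty
    (fun b => f (σ b • (ν b)⁻¹ • z b)) b1
  refine c2.trans (le_trans ?_ (a2 b c1))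
  rw [map_smul, smul_eq_mul, map_mul]
  exact mul_le_of_le_one_left (v.nonneg _) (exact_v_le hS (s1 b c1))

theorem exact_v_scale (h : exact_Loc τ β z cc S m ν) (f : (Fin D → K) →ₗ[K] K) (a : ℕ) :
    v (f (z a)) = v (ν a) * v (f ((ν a)⁻¹ • z a)) := by
  rw [← map_mul, ← smul_eq_mul, ← map_smul, smul_inv_smul₀ (h.ne a)]

theorem exact_col (h : exact_Loc τ β z cc S m ν) (hm : 0 < m) (hv : IsNonarchimedean v)
    (hS : ∀ y ∈ S, y ≠ 0 → v y = 1) (f g : (Fin D → K) →ₗ[K] K) {c : ℝ} (hc : 0 ≤ c) :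
    (exact_nrm τ z ν v f ≤ c * exact_nrm τ z ν v g →
      cnt τ (fun t => t β ∉ {a | v (f (z a)) ≤ c * v (g (z a))}) < m) ∧
    (¬ exact_nrm τ z ν v f ≤ c * exact_nrm τ z ν v g →
      cnt τ (fun t => t β ∈ {a | v (f (z a)) ≤ c * v (g (z a))}) < m) := by
  have key : ∀ a, v (f (z a)) ≤ c * v (g (z a)) ↔
      v (f ((ν a)⁻¹ • z a)) ≤ c * v (g ((ν a)⁻¹ • z a)) := fun a => by
    rw [exact_v_scale h f, exact_v_scale h g, mul_left_comm]
    exact mul_le_mul_iff_right₀ (v.pos (h.ne a))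
  refine ⟨fun hC => not_le.1 fun hn => ?_, fun hC => not_le.1 fun hn => hC ?_⟩
  · obtain ⟨a, a1, a2, a3⟩ := exact_att h hm hv hS
      (B := {a | v (f (z a)) ≤ c * v (g (z a))}ᶜ) hn g
    exact a1 ((key a).2 ((exact_le_nrm f a2).trans (hC.trans (mul_le_mul_of_nonneg_left a3 hc))))
  · obtain ⟨a, a1, a2, a3⟩ := exact_att h hm hv hS hn f
    exact a3.trans (((key a).1 a1).trans (mul_le_mul_of_nonneg_left (exact_le_nrm g a2) hc))

theorem exact_dual (h : exact_Loc τ β z cc S m ν) (hS : ∀ y ∈ S, y ≠ 0 → v y = 1) {y : ℕ}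
    (hy : y ∈ lines τ) : ∃ f : (Fin D → K) →ₗ[K] K, exact_nrm τ z ν v f ≤ 1 ∧
      v (f (z y)) = v (ν y) := by
  obtain ⟨B, -, b2, -, b4⟩ := exact_basis h (Subset.refl _)
  obtain ⟨σ, s1, ⟨a, a1, a2⟩, s3⟩ := b4 y hy
  obtain ⟨f, hf⟩ := exact_coord b2 a1
  refine ⟨f, exact_nrm_le.2 ⟨zero_le_one, fun b hb => ?_⟩, ?_⟩
  · obtain ⟨σ', t1, -, t3⟩ := b4 b hb
    rw [t3, hf]
    exact exact_v_le hS (t1 a a1)
  · rw [exact_v_scale h, s3, hf, hS _ (s1 a a1) a2, mul_one]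

/-! ### Globalisation -/

section Glob
variable {τ : Cell → Finset (Tri ℕ)} {ν : Cell → ℕ → K} {G : Cell → Prop} {H : Finset Cell} {η : ℝ}

theorem exact_rat (hm : 0 < m) (hη : (D + 1) * m ≤ η)
    (hL : ∀ p, G p → exact_Loc (τ p) β z cc S m (ν p)) (hH : ∀ p ∈ H, G p)
    (hcc : ∀ p, ∀ t ∈ τ p, ∀ i, cc t i ≠ 0)
    (hc : ∀ (R : Set ℕ) (C : Cell → Prop), (∀ p, G p → (C p → cnt (τ p) (fun t => t β ∉ R) < η) ∧
      (¬ C p → cnt (τ p) (fun t => t β ∈ R) < η)) → ∀ p ∈ H, ∀ q ∈ H, (C p ↔ C q))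
    {q : Cell} (hq : q ∈ H) {F : Subfield K} (hF : ∀ y ∈ S, y ∈ F) :
    ∃ lam : ℕ → K, (∀ a, lam a ≠ 0) ∧ ∀ p ∈ H, ∀ t ∈ τ p, ∀ i j,
      cc t i * lam (t i) / (cc t j * lam (t j)) ∈ F := by
  obtain ⟨L, L1, L2⟩ := exact_lam (hL q (hH q hq)) hF
  have hη0 : 0 < η := lt_of_lt_of_le (by positivity) hη
  have h1 := hc {a | ∃ c : K, c ≠ 0 ∧ c • z a ∈ L}
    (fun p => ∃ c : K, c ≠ 0 ∧ ∀ y ∈ lines (τ p), c • (ν p y)⁻¹ • z y ∈ L) fun p hp =>
      ⟨fun ⟨c, c1, c2⟩ => by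
        rw [baseb_cnt_zero fun t ht hn => hn ⟨c * (ν p (t β))⁻¹,
          mul_ne_zero c1 (inv_ne_zero ((hL p hp).ne _)), by
            rw [mul_smul]
            exact c2 _ (mem_lines.2 ⟨t, ht, β, rfl⟩)⟩]
        exact hη0,
      fun hn => not_le.1 fun k => hn (exact_spread (hL p hp) hm hF L1 (hη.trans k))⟩
  have h2 : ∀ a, ∃ κ : K, κ ≠ 0 ∧ ((∃ c : K, c ≠ 0 ∧ c • z a ∈ L) → κ • z a ∈ L) := fun a => by
    by_cases ha : ∃ c : K, c ≠ 0 ∧ c • z a ∈ L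
    · obtain ⟨c, c1, c2⟩ := ha
      exact ⟨c, c1, fun _ => c2⟩
    · exact ⟨1, one_ne_zero, fun k => absurd k ha⟩
  choose κ κ0 hκ using h2
  refine ⟨fun a => (κ a)⁻¹, fun a => inv_ne_zero (κ0 a), fun p hp t ht i j => ?_⟩
  obtain ⟨c, c1, c2⟩ := (h1 p hp q hq).2 ⟨1, one_ne_zero, fun y hy => by
    rw [one_smul]
    exact L2 y hy⟩
  have hp' := hL p (hH p hp)
  have h3 : ∀ i, c * (ν p (t i))⁻¹ / κ (t i) ∈ F := fun i => by
    have hy : t i ∈ lines (τ p) := mem_lines.2 ⟨t, ht, i, rfl⟩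
    have k1 := c2 _ hy
    rw [smul_smul] at k1
    refine exact_one L1 (hκ _ ⟨_, mul_ne_zero c1 (inv_ne_zero (hp'.ne _)), k1⟩)
      (smul_ne_zero (κ0 _) (hp'.nz _ hy)) ?_
    rwa [smul_smul, div_mul_cancel₀ _ (κ0 _)]
  have e : cc t i * (κ (t i))⁻¹ / (cc t j * (κ (t j))⁻¹) =
      cc t i * ν p (t i) / (cc t j * ν p (t j)) * (c * (ν p (t i))⁻¹ / κ (t i)) /
        (c * (ν p (t j))⁻¹ / κ (t j)) := by
    have := hp'.ne (t i)
    have := hp'.ne (t j)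
    have := κ0 (t i)
    have := κ0 (t j)
    have := hcc p t ht j
    field_simp
  rw [e]
  exact F.div_mem (F.mul_mem (hF _ (hp'.rat t ht i j)) (h3 i)) (h3 j)

theorem exact_norm (hm : 0 < m) (hη : m ≤ η)
    (hL : ∀ p, G p → exact_Loc (τ p) β z cc S m (ν p)) (hH : ∀ p ∈ H, G p)
    (hcc : ∀ p, ∀ t ∈ τ p, ∀ i, cc t i ≠ 0)
    (hc : ∀ (R : Set ℕ) (C : Cell → Prop), (∀ p, G p → (C p → cnt (τ p) (fun t => t β ∉ R) < η) ∧
      (¬ C p → cnt (τ p) (fun t => t β ∈ R) < η)) → ∀ p ∈ H, ∀ q ∈ H, (C p ↔ C q))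
    {q : Cell} (hq : q ∈ H) {y : ℕ} (hy : y ∈ lines (τ q)) (hv : IsNonarchimedean v)
    (hS : ∀ y ∈ S, y ≠ 0 → v y = 1) : ∃ N : ℕ → ℝ, (∀ a, 0 < N a) ∧ ∀ p ∈ H, ∀ t ∈ τ p, ∀ i j,
      v (cc t i) * N (t i) = v (cc t j) * N (t j) := by
  have h1 : ∀ (f g : (Fin D → K) →ₗ[K] K) (c : ℝ), 0 ≤ c → ∀ p ∈ H, ∀ q ∈ H,
      (exact_nrm (τ p) z (ν p) v f ≤ c * exact_nrm (τ p) z (ν p) v g ↔
        exact_nrm (τ q) z (ν q) v f ≤ c * exact_nrm (τ q) z (ν q) v g) := fun f g c h0 =>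
    hc {a | v (f (z a)) ≤ c * v (g (z a))} _ fun p hp =>
      ⟨fun k => ((exact_col (hL p hp) hm hv hS f g h0).1 k).trans_le hη,
        fun k => ((exact_col (hL p hp) hm hv hS f g h0).2 k).trans_le hη⟩
  obtain ⟨g, -, g2⟩ := exact_dual (hL q (hH q hq)) hS hy
  have h2 : ∀ p ∈ H, 0 < exact_nrm (τ p) z (ν p) v g := fun p hp => by
    by_contra hn
    have k1 := (h1 g g 0 le_rfl p hp q hq).1 (by rw [zero_mul]; exact not_lt.1 hn)
    have k2 := exact_le_nrm (ν := ν q) (z := z) (v := v) g hy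
    have k3 := exact_v_scale (v := v) (hL q (hH q hq)) g y
    have k4 := v.pos ((hL q (hH q hq)).ne y)
    have k5 : v (g ((ν q y)⁻¹ • z y)) = 0 := le_antisymm (by linarith) (v.nonneg _)
    rw [k5, mul_zero, g2] at k3
    exact k4.ne' k3
  have h3 : ∀ p ∈ H, ∀ q ∈ H, ∀ a ∈ lines (τ p), a ∈ lines (τ q) →
      v (ν p a) * exact_nrm (τ p) z (ν p) v g ≤ v (ν q a) * exact_nrm (τ q) z (ν q) v g := by
    intro p hp q hq a ap aq
    obtain ⟨f, f1, f2⟩ := exact_dual (hL p (hH p hp)) hS ap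
    have k0 := h2 p hp
    have k1 := (h1 f g (exact_nrm (τ p) z (ν p) v g)⁻¹ (inv_nonneg.2 k0.le) p hp q hq).1
      (by rwa [inv_mul_cancel₀ k0.ne'])
    have k2 := (exact_le_nrm (ν := ν q) (z := z) (v := v) f aq).trans k1
    rw [← f2, exact_v_scale (hL q (hH q hq)) f a, mul_assoc]
    refine mul_le_mul_of_nonneg_left ?_ (v.nonneg _)
    rwa [inv_mul_eq_div, le_div_iff₀ k0] at k2
  have h4 : ∀ a, ∃ N : ℝ, 0 < N ∧ ∀ p ∈ H, a ∈ lines (τ p) →
      N = v (ν p a) * exact_nrm (τ p) z (ν p) v g := fun a => by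
    by_cases ha : ∃ p ∈ H, a ∈ lines (τ p)
    · obtain ⟨p, hp, ap⟩ := ha
      exact ⟨_, mul_pos (v.pos ((hL p (hH p hp)).ne a)) (h2 p hp), fun q hq aq =>
        le_antisymm (h3 p hp q hq a ap aq) (h3 q hq p hp a aq ap)⟩
    · exact ⟨1, one_pos, fun p hp ap => absurd ⟨p, hp, ap⟩ ha⟩
  choose N N0 hN using h4
  refine ⟨N, N0, fun p hp t ht i j => ?_⟩
  have hp' := hL p (hH p hp)
  have k0 : ∀ i, cc t i * ν p (t i) ≠ 0 := fun i => mul_ne_zero (hcc p t ht i) (hp'.ne _)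
  have k1 := hS _ (hp'.rat t ht i j) (div_ne_zero (k0 i) (k0 j))
  rw [map_div₀, div_eq_one_iff_eq (v.ne_zero (k0 j)), map_mul, map_mul] at k1
  rw [hN _ p hp (mem_lines.2 ⟨t, ht, i, rfl⟩), hN _ p hp (mem_lines.2 ⟨t, ht, j, rfl⟩),
    ← mul_assoc, ← mul_assoc, k1]

end Glob

end Pool.Agent.MP_38296a_co.H21

end FileExact1

section FileExact

set_option autoImplicit false

namespace Pool.Agent.MP_38296a_co.H21

open Finset Filter Classical

/-- rationality and exact norms on a dense part -/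
theorem St4.exact {D k : ℕ} {A : ℕ → Arr ℕ} {Q : ℕ → Bx} {β : Fin 3} {z : ℕ → ℕ → Fin D → KK}
    {cc : ℕ → Tri ℕ → Fin 3 → KK} {S : ℕ → Finset KK} (h : St4 k A Q β z cc S) :
    ∃ δ : ℝ, 0 < δ ∧ ∃ S0 : Finset KK, ∀ᶠ n in UU, ∃ T' ⊆ (A n).TB (Q n), δ * 4 ^ (Q n).j ≤ #T' ∧
      (∃ lam : ℕ → KK, (∀ a, lam a ≠ 0) ∧ ∀ t ∈ T', ∀ i j,
        cc n t i * lam (t i) / (cc n t j * lam (t j)) ∈ Subfield.closure (S0 : Set KK)) ∧
      ∀ v : AbsoluteValue KK ℝ, IsNonarchimedean v → (∀ y ∈ S0, y ≠ 0 → v y = 1) →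
        ∃ N : ℕ → ℝ, (∀ a, 0 < N a) ∧
          ∀ t ∈ T', ∀ i j, v (cc n t i) * N (t i) = v (cc n t j) * N (t j) := by
  obtain ⟨δ, η, θ, hδ, hη, hθ, hg⟩ := gmlc h.good h.na
  have hD : (0 : ℝ) < D + 1 := by positivity
  obtain ⟨l, l1, l2⟩ := (hg.and (h.span (η / (D + 1)) (by positivity) _ (half_pos hθ))).exists
  obtain ⟨c, hc⟩ := h.fin l _ (half_pos hθ)
  refine ⟨δ, hδ, S c, ?_⟩
  filter_upwards [l1, l2, hc, h.rel] with n a1 a2 a3 a4
  have hm : 0 < η / (D + 1) * 4 ^ l := by positivity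
  have hm1 : (D + 1) * (η / (D + 1) * 4 ^ l) ≤ η * 4 ^ l := le_of_eq (by field_simp)
  have hm2 : η / (D + 1) * 4 ^ l ≤ η * 4 ^ l :=
    le_trans (le_mul_of_one_le_left hm.le (by linarith [Nat.cast_nonneg (α := ℝ) D])) hm1
  let bad : Cell → Prop := fun p => ¬ ∃ ν : ℕ → KK,
    exact_Loc ((A n).TW p l) β (z n) (cc n) (S c) (η / (D + 1) * 4 ^ l) ν
  obtain ⟨H, H1, H2, H3, H4⟩ := a1 bad (le_trans (fr_or fun p _ hb => by
    by_contra hn
    rw [not_or, not_not, not_not] at hn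
    obtain ⟨n1, ν, n2, n3, n4⟩ := hn
    refine hb ⟨ν, n2, fun a ha => ?_, n3, n4, fun B hB t ht j =>
      n1 β B hB t (TW_sub p l ht) j (Or.inr rfl)⟩
    obtain ⟨t, ht, i, rfl⟩ := mem_lines.1 ha
    exact ((a4 t (TW_sub p l ht)).2 i).2) ((add_le_add a2 a3).trans (add_halves θ).le))
  have h1 : ∀ p, ∃ ν : ℕ → KK, p ∈ (Q n).cells ∧ ¬ bad p →
      exact_Loc ((A n).TW p l) β (z n) (cc n) (S c) (η / (D + 1) * 4 ^ l) ν := fun p => by
    by_cases hb : bad p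
    · exact ⟨0, fun k => absurd hb k.2⟩
    · obtain ⟨ν, hν⟩ := not_not.1 hb
      exact ⟨ν, fun _ => hν⟩
  choose ν hν using h1
  have hH : ∀ p ∈ H, p ∈ (Q n).cells ∧ ¬ bad p := fun p hp => ⟨H1 hp, H2 p hp⟩
  have hcc : ∀ p, ∀ t ∈ (A n).TW p l, ∀ i, cc n t i ≠ 0 := fun p t ht i =>
    ((a4 t (TW_sub p l ht)).2 i).1
  have hcol := fun (R : Set ℕ) (C : Cell → Prop)
    (k : ∀ p, p ∈ (Q n).cells ∧ ¬ bad p →
      (C p → cnt ((A n).TW p l) (fun t => t β ∉ R) < η * 4 ^ l) ∧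
      (¬ C p → cnt ((A n).TW p l) (fun t => t β ∈ R) < η * 4 ^ l)) =>
    H4 R C fun p h1 h2 => k p ⟨h1, h2⟩
  obtain ⟨t0, t1, t2⟩ := exists_of_cnt_pos (lt_of_lt_of_le (by positivity) H3)
  refine ⟨{t ∈ (A n).T | (A n).loc t ∈ H}, fun t ht =>
    baseb_mem_TB.2 ⟨(mem_filter.1 ht).1, H1 (mem_filter.1 ht).2⟩,
    H3.trans (baseb_cnt_inj id (fun t h1 h2 => mem_filter.2 ⟨h1, h2⟩) fun _ _ _ _ _ _ e => e),
    ?_, fun v hv hS => ?_⟩
  · obtain ⟨lam, k1, k2⟩ := exact_rat hm hm1 hν hH hcc hcol t2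
      (F := Subfield.closure (S c : Set KK)) fun y hy => Subfield.subset_closure hy
    exact ⟨lam, k1, fun t ht =>
      k2 _ (mem_filter.1 ht).2 t (self_TW (mem_filter.1 ht).1 l)⟩
  · obtain ⟨N, k1, k2⟩ := exact_norm hm hm2 hν hH hcc hcol t2
      (mem_lines.2 ⟨t0, self_TW t1 l, β, rfl⟩) hv hS
    exact ⟨N, k1, fun t ht => k2 _ (mem_filter.1 ht).2 t (self_TW (mem_filter.1 ht).1 l)⟩

end Pool.Agent.MP_38296a_co.H21

end FileExact

end

-- part MP_38296a_co.H21.Lab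
section

section FileLab

set_option autoImplicit false

namespace Pool.Agent.MP_38296a_co.H21

open Finset Filter Classical

noncomputable section

section Aux
variable {ι : Type}

theorem lab_mem_lines {T : Finset (Tri ι)} {t : Tri ι} (ht : t ∈ T) (i : Fin 3) :
    t i ∈ lines T := by
  unfold lines cl
  exact mem_biUnion.2 ⟨i, mem_univ _, mem_image.2 ⟨t, ht, rfl⟩⟩

theorem lab_lines_mono {T T' : Finset (Tri ι)} (h : T' ⊆ T) : lines T' ⊆ lines T := by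
  intro a ha
  unfold lines cl at ha
  obtain ⟨i, -, hi⟩ := mem_biUnion.1 ha
  obtain ⟨t, ht, rfl⟩ := mem_image.1 hi
  exact lab_mem_lines (h ht) i

theorem lab_card_lines (T : Finset (Tri ι)) : #(lines T) ≤ 3 * #T := by
  unfold lines
  calc _ ≤ ∑ i : Fin 3, #(cl T i) := card_biUnion_le
    _ ≤ ∑ _i : Fin 3, #T := sum_le_sum fun i _ => card_image_le
    _ = 3 * #T := by simp

theorem lab_flex_anti (x s : ι → ℝ) {τ τ' : Finset (Tri ι)} (h : τ' ⊆ τ) :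
    Flex x s τ ≤ Flex x s τ' := fun _ hψ t ht => hψ t (h ht)

theorem lab_TS_mono (A : Arr ι) (p : Cell) {r r' : ℕ} (h : r ≤ r') : A.TS p r ⊆ A.TS p r' := by
  intro t ht
  unfold Arr.TS at ht ⊢
  rw [mem_filter] at ht ⊢
  have e : (r : ℤ) ≤ r' := by exact_mod_cast h
  exact ⟨ht.1, ht.2.1.trans e, ht.2.2.trans e⟩

/-- functions which agree on `S` with an element of `U` -/
def lab_cl (S : Finset ι) (U : Submodule ℝ (ι → ℝ)) : Submodule ℝ (ι → ℝ) where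
  carrier := {f | ∃ g ∈ U, ∀ a ∈ S, f a = g a}
  add_mem' := by
    rintro f f' ⟨g, hg, e⟩ ⟨g', hg', e'⟩
    exact ⟨g + g', U.add_mem hg hg', fun a ha => by simp only [Pi.add_apply, e a ha, e' a ha]⟩
  zero_mem' := ⟨0, U.zero_mem, fun _ _ => rfl⟩
  smul_mem' := by
    rintro c f ⟨g, hg, e⟩
    exact ⟨c • g, U.smul_mem c hg, fun a ha => by simp only [Pi.smul_apply, e a ha]⟩

theorem lab_le_cl (S : Finset ι) (U : Submodule ℝ (ι → ℝ)) : U ≤ lab_cl S U :=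
  fun f hf => ⟨f, hf, fun _ _ => rfl⟩

theorem lab_cl_pow {S : Finset ι} {U U' : Submodule ℝ (ι → ℝ)} (h : U ≤ lab_cl S U') (M : ℕ) :
    U ^ M ≤ lab_cl S (U' ^ M) := by
  induction M with
  | zero =>
    rw [pow_zero, pow_zero]
    exact lab_le_cl S 1
  | succ M ih =>
    rw [pow_succ, pow_succ]
    refine Submodule.mul_le.2 fun f hf g hg => ?_
    obtain ⟨f', hf', e⟩ := ih hf
    obtain ⟨g', hg', e'⟩ := h hg
    exact ⟨f' * g', Submodule.mul_mem_mul hf' hg', fun a ha => by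
      simp only [Pi.mul_apply, e a ha, e' a ha]⟩

theorem lab_om {x f g : ι → ℝ} {τ : Finset (Tri ι)} (e : ∀ a ∈ lines τ, f a = g a) {t : Tri ι}
    (ht : t ∈ τ) : Om x f t = Om x g t := by
  unfold Om
  exact sum_congr rfl fun i _ => by rw [e _ (lab_mem_lines ht i)]

theorem lab_hof {x : ι → ℝ} {U U' : Submodule ℝ (ι → ℝ)} {τ : Finset (Tri ι)} {c : ℝ}
    (h : Hof x U' τ c) (h1 : U ≤ lab_cl (lines τ) U') (h2 : U' ≤ lab_cl (lines τ) U) :
    Hof x U τ c := by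
  intro S hS τ' hτ f hf b hb b1 b2
  obtain ⟨f', hf', e⟩ := h1 hf
  obtain ⟨g', hg', c1, c2, c3⟩ := h S hS τ' hτ f' hf' b hb
    (fun a ha => by rw [← e a (hS ha)]; exact b1 a ha)
    (fun t ht => by rw [← lab_om e (hτ ht)]; exact b2 t ht)
  obtain ⟨g, hg, e'⟩ := h2 hg'
  refine ⟨g, hg, fun a ha => ?_, fun t ht => ?_, fun a ha => ?_⟩
  · rw [← e' a (hS ha)]
    exact c1 a ha
  · rw [← lab_om e' (hτ ht)]
    exact c2 t ht
  · rw [← e' a ha, e a ha]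
    exact c3 a ha

/-- restriction of pairs of functions -/
def lab_res (S : Finset ι) : ((ι → ℝ) × (ι → ℝ)) →ₗ[ℝ] ((S → ℝ) × (S → ℝ)) :=
  LinearMap.prodMap (LinearMap.funLeft ℝ ℝ Subtype.val) (LinearMap.funLeft ℝ ℝ Subtype.val)

theorem lab_res_eq {S : Finset ι} {ψ ψ' : (ι → ℝ) × (ι → ℝ)} :
    lab_res S ψ = lab_res S ψ' ↔ ∀ a ∈ S, ψ.1 a = ψ'.1 a ∧ ψ.2 a = ψ'.2 a := by
  constructor
  · intro h a ha
    exact ⟨congrFun (congrArg Prod.fst h) ⟨a, ha⟩, congrFun (congrArg Prod.snd h) ⟨a, ha⟩⟩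
  · intro h
    exact Prod.ext (funext fun a => (h a.1 a.2).1) (funext fun a => (h a.1 a.2).2)

/-- dimension of the restricted deformations -/
def lab_phi (A : Arr ι) (l : ℕ) (p : Cell) (r : ℕ) : ℕ :=
  Module.finrank ℝ ((Flex A.x A.s (A.TS p r)).map (lab_res (lines (A.TW p l))))

theorem lab_phi_le {A : Arr ι} (h : A.Ok) (l : ℕ) (p : Cell) (r : ℕ) :
    lab_phi A l p r ≤ 198 * 4 ^ l := by
  have h1 := Submodule.finrank_le ((Flex A.x A.s (A.TS p r)).map (lab_res (lines (A.TW p l))))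
  rw [Module.finrank_prod, Module.finrank_fintype_fun_eq_card, Fintype.card_coe] at h1
  have h2 := lab_card_lines (A.TW p l)
  have h3 : #(A.TW p l) ≤ 33 * 4 ^ l := by exact_mod_cast h.card_TW p l
  unfold lab_phi
  omega

theorem lab_phi_anti (A : Arr ι) (l : ℕ) (p : Cell) : Antitone (lab_phi A l p) := by
  intro r r' h
  exact Submodule.finrank_mono
    (Submodule.map_mono (lab_flex_anti A.x A.s (lab_TS_mono A p h)))

theorem lab_ext {A : Arr ι} {l : ℕ} {p : Cell} {r r' : ℕ} (h : r ≤ r')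
    (e : lab_phi A l p r = lab_phi A l p r') {ψ : (ι → ℝ) × (ι → ℝ)}
    (hψ : ψ ∈ Flex A.x A.s (A.TS p r)) : ∃ ψ' ∈ Flex A.x A.s (A.TS p r'),
      ∀ a ∈ lines (A.TW p l), ψ'.1 a = ψ.1 a ∧ ψ'.2 a = ψ.2 a := by
  have h1 : (Flex A.x A.s (A.TS p r')).map (lab_res (lines (A.TW p l))) =
      (Flex A.x A.s (A.TS p r)).map (lab_res (lines (A.TW p l))) :=
    Submodule.eq_of_le_of_finrank_eq
      (Submodule.map_mono (lab_flex_anti A.x A.s (lab_TS_mono A p h))) e.symm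
  have h2 : lab_res (lines (A.TW p l)) ψ ∈
      (Flex A.x A.s (A.TS p r')).map (lab_res (lines (A.TW p l))) := by
    rw [h1]
    exact Submodule.mem_map_of_mem hψ
  obtain ⟨ψ', h3, h4⟩ := Submodule.mem_map.1 h2
  exact ⟨ψ', h3, lab_res_eq.1 h4⟩

/-- the generators -/
def lab_gen {D : ℕ} (x s : ι → ℝ) (g : Fin D → (ι → ℝ) × (ι → ℝ)) :
    Bool ⊕ Fin D ⊕ Fin D → ι → ℝ :=
  Sum.elim (fun b => if b then x else s) (Sum.elim (fun e => (g e).1) fun e => (g e).2)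

/-- the labels -/
def lab_lab {D : ℕ} (x s : ι → ℝ) (g : Fin D → (ι → ℝ) × (ι → ℝ)) (a : ι)
    (k : Fin (Fintype.card (Bool ⊕ Fin D ⊕ Fin D))) : ℝ :=
  lab_gen x s g ((Fintype.equivFin _).symm k) a

theorem lab_gen_mem {D : ℕ} (x s : ι → ℝ) (g : Fin D → (ι → ℝ) × (ι → ℝ))
    (j : Bool ⊕ Fin D ⊕ Fin D) : lab_gen x s g j ∈ LV (lab_lab x s g) := by
  refine Submodule.subset_span (Set.mem_insert_of_mem _ ⟨Fintype.equivFin _ j, ?_⟩)
  funext a
  simp only [lab_lab, Equiv.symm_apply_apply]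

theorem lab_x_mem {D : ℕ} (x s : ι → ℝ) (g : Fin D → (ι → ℝ) × (ι → ℝ)) :
    x ∈ LV (lab_lab x s g) := lab_gen_mem x s g (Sum.inl true)

theorem lab_s_mem {D : ℕ} (x s : ι → ℝ) (g : Fin D → (ι → ℝ) × (ι → ℝ)) :
    s ∈ LV (lab_lab x s g) := lab_gen_mem x s g (Sum.inl false)

theorem lab_sum_mem {D : ℕ} (x s : ι → ℝ) (g : Fin D → (ι → ℝ) × (ι → ℝ)) (a : Fin D → ℝ) :
    (∑ e, a e • g e).1 ∈ LV (lab_lab x s g) ∧ (∑ e, a e • g e).2 ∈ LV (lab_lab x s g) := by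
  rw [Prod.fst_sum, Prod.snd_sum]
  exact ⟨Submodule.sum_mem _ fun e _ =>
      Submodule.smul_mem _ (a e) (lab_gen_mem x s g (Sum.inr (Sum.inl e))),
    Submodule.sum_mem _ fun e _ =>
      Submodule.smul_mem _ (a e) (lab_gen_mem x s g (Sum.inr (Sum.inr e)))⟩

theorem lab_LV_le {D : ℕ} {x s : ι → ℝ} {g : Fin D → (ι → ℝ) × (ι → ℝ)} {τ : Finset (Tri ι)}
    (hg : ∀ e, g e ∈ Flex x s τ) : LV (lab_lab x s g) ≤ Lab0 x s τ := by
  have h0 : ∀ f ∈ ({1, x, s} : Set (ι → ℝ)), f ∈ Lab0 x s τ := fun f hf =>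
    Submodule.mem_sup_left (Submodule.mem_sup_left (Submodule.subset_span hf))
  refine Submodule.span_le.2 ?_
  rintro f (rfl | ⟨k, rfl⟩)
  · exact h0 _ (by simp)
  · show lab_gen x s g ((Fintype.equivFin _).symm k) ∈ Lab0 x s τ
    rcases (Fintype.equivFin (Bool ⊕ Fin D ⊕ Fin D)).symm k with (_ | _) | e | e
    · exact h0 s (by simp)
    · exact h0 x (by simp)
    · exact Submodule.mem_sup_left (Submodule.mem_sup_right ⟨g e, hg e, rfl⟩)
    · exact Submodule.mem_sup_right ⟨g e, hg e, rfl⟩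

/-- the family `g` of deformations on `B` spans all of them on the lines of `T1` -/
def lab_Span {D : ℕ} (A : Arr ι) (B : Bx) (T1 : Finset (Tri ι))
    (g : Fin D → (ι → ℝ) × (ι → ℝ)) : Prop :=
  T1 ⊆ A.TB B ∧ (∀ e, g e ∈ Flex A.x A.s (A.TB B)) ∧ ∀ ψ ∈ Flex A.x A.s (A.TB B),
    ∃ σ ∈ LV (lab_lab A.x A.s g), ∃ w ∈ LV (lab_lab A.x A.s g),
      ∀ a ∈ lines T1, σ a = ψ.1 a ∧ w a = ψ.2 a

theorem lab_core (K : ℝ) {δ : ℝ} (hδ : 0 < δ) : ∃ D j0 : ℕ, ∀ (A : Arr ι) (B : Bx), A.Ok →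
    j0 ≤ B.j → (#(lines (A.TB B)) : ℝ) ≤ K * 2 ^ B.j → δ * 4 ^ B.j ≤ #(A.TB B) →
    ∃ (T1 : Finset (Tri ι)) (g : Fin D → (ι → ℝ) × (ι → ℝ)),
      δ / 2 * 4 ^ B.j ≤ #T1 ∧ lab_Span A B T1 g := by
  obtain ⟨D, j0, h⟩ := core K hδ
  refine ⟨D, j0, fun A B hA hj h1 h2 => ?_⟩
  obtain ⟨T1, s1, d1, dep⟩ := h ι A B hA hj h1 h2
  obtain ⟨g, hg, sp⟩ := span_of_dep (D := D) (Flex A.x A.s (A.TB B)) (lab_res (lines T1))
    (fun g hg => by
      obtain ⟨a, ha, e⟩ := dep g fun e => lab_flex_anti A.x A.s s1 (hg e)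
      refine ⟨a, ha, ?_⟩
      have e1 : ∑ e, a e • lab_res (lines T1) (g e) = lab_res (lines T1) (∑ e, a e • g e) := by
        simp only [map_sum, map_smul]
      rw [e1, ← map_zero (lab_res (lines T1)), lab_res_eq]
      intro y hy
      have := e y hy
      simp only [Prod.fst_sum, Prod.snd_sum, Finset.sum_apply, Prod.smul_fst, Prod.smul_snd,
        Pi.smul_apply, smul_eq_mul, Prod.fst_zero, Prod.snd_zero, Pi.zero_apply]
      exact this)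
  refine ⟨T1, g, d1, s1, hg, fun ψ hψ => ?_⟩
  obtain ⟨a, ha⟩ := sp ψ hψ
  have e1 : ∑ e, a e • lab_res (lines T1) (g e) = lab_res (lines T1) (∑ e, a e • g e) := by
    simp only [map_sum, map_smul]
  rw [e1] at ha
  exact ⟨_, (lab_sum_mem A.x A.s g a).1, _, (lab_sum_mem A.x A.s g a).2, lab_res_eq.1 ha.symm⟩

theorem lab_res_TW (A : Arr ι) {T1 : Finset (Tri ι)} (h : T1 ⊆ A.T) (p : Cell) (l : ℕ) :
    (A.res T1).TW p l ⊆ A.TW p l := by
  intro t ht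
  unfold Arr.TW at ht ⊢
  rw [mem_filter] at ht ⊢
  exact ⟨h ht.1, ht.2⟩

theorem lab_res_TS (A : Arr ι) {T1 : Finset (Tri ι)} (h : T1 ⊆ A.T) (p : Cell) (r : ℕ) :
    (A.res T1).TS p r ⊆ A.TS p r := by
  intro t ht
  unfold Arr.TS at ht ⊢
  rw [mem_filter] at ht ⊢
  exact ⟨h ht.1, ht.2⟩

theorem lab_res_TB (A : Arr ι) {T1 : Finset (Tri ι)} {B : Bx} (h : T1 ⊆ A.TB B) :
    T1 ⊆ (A.res T1).TB B := by
  intro t ht
  have h1 := h ht
  unfold Arr.TB at h1 ⊢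
  rw [mem_filter] at h1 ⊢
  exact ⟨ht, h1.2⟩

theorem lab_point {D : ℕ} {A : Arr ι} {B : Bx} {T1 : Finset (Tri ι)}
    {g : Fin D → (ι → ℝ) × (ι → ℝ)} (hS : lab_Span A B T1 g) {p : Cell} (hp : p ∈ B.cells)
    {l r L M : ℕ} {c : ℝ} (hr : 5 * 2 ^ l ≤ r) (hL : r ≤ L) (hB : 2 ^ B.j ≤ L)
    (e : lab_phi A l p r = lab_phi A l p L)
    (hin : ∀ q : Cell, |q.1 - p.1| ≤ r → |q.2 - p.2| ≤ r → q ∈ B.cells)
    (hH : Hof A.x (Lab0 A.x A.s (A.TS p r) ^ M) (A.TS p r) c) :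
    Hof A.x (LV (lab_lab A.x A.s g) ^ M) ((A.res T1).TW p l) c := by
  obtain ⟨s1, hg, sp⟩ := hS
  have a1 : A.TS p r ⊆ A.TB B := by
    intro t ht
    unfold Arr.TS at ht
    unfold Arr.TB
    rw [mem_filter] at ht ⊢
    exact ⟨ht.1, hin _ ht.2.1 ht.2.2⟩
  have a2 : A.TB B ⊆ A.TS p L := by
    intro t ht
    unfold Arr.TB at ht
    unfold Arr.TS
    rw [mem_filter] at ht ⊢
    have h1 : A.loc t ∈ (anc B.j p).cells := by
      rw [mem_cells.1 hp]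
      exact ht.2
    have h2 := anc_close h1
    have h3 : (2 : ℤ) ^ B.j ≤ L := by exact_mod_cast hB
    exact ⟨ht.1, h2.1.le.trans h3, h2.2.le.trans h3⟩
  have a3 : (A.res T1).TW p l ⊆ A.TW p l := lab_res_TW A (s1.trans (TB_sub B)) p l
  have a4 : (A.res T1).TW p l ⊆ T1 := TW_sub (A := A.res T1) p l
  have a5 : (A.res T1).TW p l ⊆ A.TS p r :=
    a3.trans ((TW_sub_TS p l).trans (lab_TS_mono A p hr))
  have key : ∀ ψ ∈ Flex A.x A.s (A.TS p r), ψ.1 ∈ lab_cl (lines ((A.res T1).TW p l))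
      (LV (lab_lab A.x A.s g)) ∧ ψ.2 ∈ lab_cl (lines ((A.res T1).TW p l))
      (LV (lab_lab A.x A.s g)) := by
    intro ψ hψ
    obtain ⟨ψ', h1, h2⟩ := lab_ext hL e hψ
    obtain ⟨σ, hσ, w, hw, h3⟩ := sp ψ' (lab_flex_anti A.x A.s a2 h1)
    refine ⟨⟨σ, hσ, fun a ha => ?_⟩, ⟨w, hw, fun a ha => ?_⟩⟩
    · rw [(h3 a (lab_lines_mono a4 ha)).1, (h2 a (lab_lines_mono a3 ha)).1]
    · rw [(h3 a (lab_lines_mono a4 ha)).2, (h2 a (lab_lines_mono a3 ha)).2]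
  refine lab_hof (hH.mono a5 le_rfl) (lab_cl_pow ?_ M) (lab_cl_pow ?_ M)
  · exact (lab_LV_le fun e => lab_flex_anti A.x A.s a1 (hg e)).trans (lab_le_cl _ _)
  · refine sup_le (sup_le ?_ ?_) ?_
    · refine le_trans (Submodule.span_le.2 ?_) (lab_le_cl _ _)
      rintro f (rfl | rfl | rfl)
      · exact one_mem_LV
      · exact lab_x_mem _ _ g
      · exact lab_s_mem _ _ g
    · rintro f ⟨ψ, hψ, rfl⟩
      exact (key ψ hψ).1
    · rintro f ⟨ψ, hψ, rfl⟩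
      exact (key ψ hψ).2

end Aux

theorem lab_tight {D : ℕ} {A : ℕ → Arr ℕ} {Q : ℕ → Bx} {T1 : ℕ → Finset (Tri ℕ)}
    {g : ℕ → Fin D → (ℕ → ℝ) × (ℕ → ℝ)} {ℓ : ℕ → ℕ} (hj : Tendsto (fun n => (Q n).j) UU atTop)
    (hℓ : Tendsto ℓ UU atTop) (hS : ∀ᶠ n in UU, lab_Span (A n) (Q n) (T1 n) (g n))
    (hB : ∀ᶠ n in UU, 2 ^ (Q n).j ≤ ℓ n) (hH : LocHof A Q) (M l : ℕ)
    (hw : Tight Q fun n r p => r ≤ ℓ n ∧ lab_phi (A n) l p r = lab_phi (A n) l p (ℓ n)) :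
    Tight Q fun n c p => Hof (A n).x (LV (lab_lab (A n).x (A n).s (g n)) ^ M)
      (((A n).res (T1 n)).TW p l) c := by
  intro θ hθ
  have hθ3 : 0 < θ / 3 := by positivity
  obtain ⟨r0, h0⟩ := hw (θ / 3) hθ3
  obtain ⟨c, h1⟩ := hH M (max r0 (5 * 2 ^ l)) (θ / 3) hθ3
  refine ⟨c, ?_⟩
  filter_upwards [h0, h1, hS, hB, dya_small hj (4 * ((max r0 (5 * 2 ^ l) : ℕ) : ℝ)) hθ3,
    hℓ.eventually_ge_atTop (max r0 (5 * 2 ^ l))] with n b0 b1 b2 b3 b4 b5
  have b6 := (fr_bdry (Q n) (max r0 (5 * 2 ^ l))).trans b4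
  refine (fr_or (P1 := fun p => ¬ (r0 ≤ ℓ n ∧ lab_phi (A n) l p r0 = lab_phi (A n) l p (ℓ n)))
    (P2 := fun p => ¬ (Hof (A n).x (Lab0 (A n).x (A n).s ((A n).TS p (max r0 (5 * 2 ^ l))) ^ M)
      ((A n).TS p (max r0 (5 * 2 ^ l))) c ∧ ∀ q : Cell, |q.1 - p.1| ≤ (max r0 (5 * 2 ^ l) : ℕ) →
        |q.2 - p.2| ≤ (max r0 (5 * 2 ^ l) : ℕ) → q ∈ (Q n).cells)) fun p hp hn => ?_).trans ?_
  · by_contra hc
    rw [not_or, not_not, not_not] at hc
    obtain ⟨⟨-, c1⟩, c2, c3⟩ := hc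
    refine hn (lab_point b2 hp (le_max_right _ _) b5 b3 (le_antisymm ?_ ?_) c3 c2)
    · rw [← c1]
      exact lab_phi_anti (A n) l p (le_max_left _ _)
    · exact lab_phi_anti (A n) l p b5
  · have b7 := fr_or (Q := Q n)
      (P := fun p => ¬ (Hof (A n).x (Lab0 (A n).x (A n).s ((A n).TS p (max r0 (5 * 2 ^ l))) ^ M)
        ((A n).TS p (max r0 (5 * 2 ^ l))) c ∧ ∀ q : Cell, |q.1 - p.1| ≤ (max r0 (5 * 2 ^ l) : ℕ) →
          |q.2 - p.2| ≤ (max r0 (5 * 2 ^ l) : ℕ) → q ∈ (Q n).cells))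
      fun p _ hn => not_and_or.1 hn
    linarith

end

/-- labels which describe all deformations -/
theorem lab3 {k : ℕ} {A : ℕ → Arr ℕ} {Q : ℕ → Bx} {P : (ℕ → Bx) → Prop} (h : UG k A Q)
    (hH : LocHof A Q) (hK : Keep Q P) :
    ∃ (D : ℕ) (A' : ℕ → Arr ℕ) (Q' : ℕ → Bx) (lab : ℕ → ℕ → Fin D → ℝ), Sub A' A ∧ In Q' Q ∧
      Reg A' Q' lab ∧ P Q' ∧
      (∀ M l, STight Q' fun n c p => Hof (A' n).x (LV (lab n) ^ M) ((A' n).TW p l) c) ∧
      ∀ᶠ n in UU, ∀ ψ ∈ Flex (A n).x (A n).s (A n).T, ∃ σ ∈ LV (lab n), ∃ w ∈ LV (lab n),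
        ∀ a ∈ lines (A' n).T, σ a = ψ.1 a ∧ w a = ψ.2 a := by
  obtain ⟨ℓ, hℓ, hw⟩ := wit Q (fun l n p r => lab_phi (A n) l p r) (fun l => 198 * 4 ^ l)
    (fun l n p r => lab_phi_le (h.val.ok n) l p r) fun l n p => lab_phi_anti (A n) l p
  obtain ⟨δ, hδ, hf⟩ := h.dens.freq h.val
  have hW : Freq Q fun n B => δ * 4 ^ B.j ≤ #((A n).TB B) ∧ 2 ^ B.j ≤ ℓ n := by
    refine ⟨δ, hδ, (hf.mono fun L hL => ?_).frequently⟩
    filter_upwards [hL, hℓ.eventually_ge_atTop (2 ^ L)] with n b1 b2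
    exact b1.trans (fr_mono fun p _ hp => ⟨hp, b2⟩)
  have hK' := hK.self.and ((Keep.all fun l => keep_tight (hw l)).and
    ((Keep.all fun N => Keep.all fun r => keep_tight (hH N r)).and
      (Keep.all fun r => keep_tight (h.gap r))))
  obtain ⟨Q1, i1, v1, ⟨k1, w1, H1, g1⟩, e1, -, -⟩ := sel (M := Empty) (M' := Empty) h.val hK' hW
    (fun m => m.elim) (fun m => m.elim) (fun m => m.elim) fun m => m.elim
  obtain ⟨K, -, hKl⟩ := v1.lines_le
  obtain ⟨D, j0, hc⟩ := lab_core (ι := ℕ) K hδ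
  have ex : ∀ n, ∃ (T1 : Finset (Tri ℕ)) (g : Fin D → (ℕ → ℝ) × (ℕ → ℝ)), T1 ⊆ (A n).T ∧
      (j0 ≤ (Q1 n).j → (#(lines ((A n).TB (Q1 n))) : ℝ) ≤ K * 2 ^ (Q1 n).j →
        δ * 4 ^ (Q1 n).j ≤ #((A n).TB (Q1 n)) →
        δ / 2 * 4 ^ (Q1 n).j ≤ #T1 ∧ lab_Span (A n) (Q1 n) T1 g) := by
    intro n
    by_cases c : j0 ≤ (Q1 n).j ∧ (#(lines ((A n).TB (Q1 n))) : ℝ) ≤ K * 2 ^ (Q1 n).j ∧
        δ * 4 ^ (Q1 n).j ≤ #((A n).TB (Q1 n))
    · obtain ⟨T1, g, d1, s1⟩ := hc (A n) (Q1 n) (v1.ok n) c.1 c.2.1 c.2.2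
      exact ⟨T1, g, s1.1.trans (TB_sub _), fun _ _ _ => ⟨d1, s1⟩⟩
    · exact ⟨∅, 0, empty_subset _, fun c1 c2 c3 => (c ⟨c1, c2, c3⟩).elim⟩
  choose T1 g sT hT using ex
  have ev : ∀ᶠ n in UU, δ / 2 * 4 ^ (Q1 n).j ≤ #(T1 n) ∧ lab_Span (A n) (Q1 n) (T1 n) (g n) := by
    filter_upwards [v1.big.eventually_ge_atTop j0, hKl, e1] with n b1 b2 b3
    exact hT n b1 b2.1 b3.1
  have sub1 : Sub (fun n => (A n).res (T1 n)) A := fun n => ⟨T1 n, sT n, rfl⟩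
  have d1 : Dens (fun n => (A n).res (T1 n)) Q1 := by
    refine ⟨δ / 2, by positivity, ev.mono fun n b => b.1.trans ?_⟩
    exact_mod_cast card_le_card (lab_res_TB (A n) b.2.1)
  obtain ⟨A', Q', s2, i2, r2, p2, t2⟩ := gug (M := ℕ × ℕ) (v1.sub sub1) d1 k1
    (lab := fun n => lab_lab (A n).x (A n).s (g n))
    (fun n => ⟨lab_x_mem _ _ (g n), lab_s_mem _ _ (g n)⟩)
    (fun r => (g1 r).mono fun c => ⟨c, Eventually.of_forall fun n p _ hp =>
      hp.mono (lab_res_TS (A n) (sT n) p r) le_rfl⟩)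
    (fun m n c p => Hof (A n).x (LV (lab_lab (A n).x (A n).s (g n)) ^ m.1)
      (((A n).res (T1 n)).TW p m.2) c)
    fun m => lab_tight v1.big hℓ (ev.mono fun n b => b.2) (e1.mono fun n b => b.2) H1 m.1 m.2
      (w1 m.2)
  refine ⟨_, A', Q', fun n => lab_lab (A n).x (A n).s (g n), s2.trans sub1, i2.trans i1, r2, p2,
    fun M l => (t2 (M, l)).mono fun c => ⟨c, Eventually.of_forall fun n p hp => ?_⟩, ?_⟩
  · obtain ⟨T, hT1, e⟩ := s2 n
    rw [e]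
    exact hp.mono (lab_res_TW ((A n).res (T1 n)) hT1 p l) le_rfl
  · filter_upwards [ev] with n b ψ hψ
    obtain ⟨σ, hσ, w, hw', c⟩ := b.2.2.2 ψ (lab_flex_anti _ _ (TB_sub _) hψ)
    obtain ⟨T, hT1, e⟩ := s2 n
    refine ⟨σ, hσ, w, hw', fun a ha => c a ?_⟩
    rw [e] at ha
    exact lab_lines_mono hT1 ha

end Pool.Agent.MP_38296a_co.H21

end FileLab

section FileLabK1

set_option autoImplicit false

namespace Pool.Agent.MP_38296a_co.H21

open Finset Filter Classical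

theorem labk_fin_fin {F : Type} [Field F] (S : Finset F) (m1 m2 : ℕ) : ∃ S' : Finset F,
    ∀ (M : Fin m1 → Fin m2 → F) (b : Fin m2 → F), (∀ a c, M a c ∈ S) → (∀ c, b c ∈ S) →
      (∃ σ : Fin m1 → F, ∀ c, ∑ a, σ a * M a c = b c) →
      ∃ σ : Fin m1 → F, (∀ a, σ a ∈ S') ∧ ∀ c, ∑ a, σ a * M a c = b c := by
  have ex : ∀ d : (Fin m1 → Fin m2 → F) × (Fin m2 → F), ∃ σ : Fin m1 → F,
      (∃ σ : Fin m1 → F, ∀ c, ∑ a, σ a * d.1 a c = d.2 c) → ∀ c, ∑ a, σ a * d.1 a c = d.2 c := by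
    intro d
    by_cases h : ∃ σ : Fin m1 → F, ∀ c, ∑ a, σ a * d.1 a c = d.2 c
    · obtain ⟨σ, hσ⟩ := h
      exact ⟨σ, fun _ => hσ⟩
    · exact ⟨0, fun h' => (h h').elim⟩
  choose sol hsol using ex
  refine ⟨((Fintype.piFinset fun _ : Fin m1 => Fintype.piFinset fun _ : Fin m2 => S) ×ˢ
    (Fintype.piFinset fun _ : Fin m2 => S)).biUnion fun d => univ.image (sol d), ?_⟩
  intro M b hM hb h
  refine ⟨sol (M, b), fun a => mem_biUnion.2 ⟨(M, b), ?_, mem_image_of_mem _ (mem_univ a)⟩,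
    hsol (M, b) h⟩
  exact mem_product.2 ⟨Fintype.mem_piFinset.2 fun a => Fintype.mem_piFinset.2 (hM a),
    Fintype.mem_piFinset.2 hb⟩

theorem labk_fin_sol {F : Type} [Field F] (S : Finset F) (m : ℕ) : ∃ S' : Finset F,
    ∀ (α γ : Type) (I : Finset α) (J : Finset γ) (M : α → γ → F) (b : γ → F), #I ≤ m → #J ≤ m →
      (∀ a ∈ I, ∀ c ∈ J, M a c ∈ S) → (∀ c ∈ J, b c ∈ S) →
      (∃ σ : α → F, ∀ c ∈ J, ∑ a ∈ I, σ a * M a c = b c) →
      ∃ σ : α → F, (∀ a ∈ I, σ a ∈ S') ∧ ∀ c ∈ J, ∑ a ∈ I, σ a * M a c = b c := by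
  choose S' hS' using labk_fin_fin S
  refine ⟨(range (m + 1) ×ˢ range (m + 1)).biUnion fun d => S' d.1 d.2, ?_⟩
  intro α γ I J M b hI hJ hM hb ⟨σ, hσ⟩
  have tr : ∀ g : α → F, ∑ a ∈ I, g a = ∑ a : Fin #I, g (I.equivFin.symm a) := by
    intro g
    rw [← sum_coe_sort I g]
    exact (Equiv.sum_comp I.equivFin.symm fun a : I => g a).symm
  obtain ⟨σ', h1, h2⟩ := hS' #I #J (fun a c => M (I.equivFin.symm a) (J.equivFin.symm c))
    (fun c => b (J.equivFin.symm c))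
    (fun a c => hM _ (I.equivFin.symm a).2 _ (J.equivFin.symm c).2)
    (fun c => hb _ (J.equivFin.symm c).2)
    ⟨fun a => σ (I.equivFin.symm a), fun c => by
      rw [← hσ _ (J.equivFin.symm c).2, tr]⟩
  refine ⟨fun a => if h : a ∈ I then σ' (I.equivFin ⟨a, h⟩) else 0, fun a ha => ?_,
    fun c hc => ?_⟩
  · simp only [dif_pos ha]
    exact mem_biUnion.2 ⟨(#I, #J), mem_product.2 ⟨mem_range.2 (Nat.lt_succ_of_le hI),
      mem_range.2 (Nat.lt_succ_of_le hJ)⟩, h1 _⟩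
  · have h3 := h2 (J.equivFin ⟨c, hc⟩)
    simp only [Equiv.symm_apply_apply] at h3
    rw [← h3, tr]
    refine sum_congr rfl fun a _ => ?_
    simp only [dif_pos (I.equivFin.symm a).2, Subtype.coe_eta, Equiv.apply_symm_apply]

/-- duality for finite linear systems -/
theorem labk_dual {F α γ : Type} [Field F] (I : Finset α) (J : Finset γ) (M : α → γ → F)
    (b : γ → F) (h : ∀ Y : γ → F, (∀ a ∈ I, ∑ c ∈ J, M a c * Y c = 0) → ∑ c ∈ J, b c * Y c = 0) :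
    ∃ σ : α → F, ∀ c ∈ J, ∑ a ∈ I, σ a * M a c = b c := by
  let row : (γ → F) → (γ → F) →ₗ[F] F := fun w => ∑ c ∈ J, w c • LinearMap.proj c
  have hrow : ∀ w Y, row w Y = ∑ c ∈ J, w c * Y c := by
    intro w Y
    simp [row, LinearMap.sum_apply]
  have hsing : ∀ w, ∀ c ∈ J, row w (Pi.single c 1) = w c := by
    intro w c hc
    rw [hrow, sum_eq_single c]
    · simp
    · intro d _ hd
      simp [Pi.single_eq_of_ne hd]
    · exact fun h => (h hc).elim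
  have h1 : row b ∈ Submodule.span F (Set.range fun a : I => row (M a)) := by
    refine mem_span_of_iInf_ker_le_ker fun Y hY => ?_
    rw [LinearMap.mem_ker, hrow]
    refine h Y fun a ha => ?_
    have h2 := (Submodule.mem_iInf _).1 hY ⟨a, ha⟩
    rwa [LinearMap.mem_ker, hrow] at h2
  obtain ⟨σ, hσ⟩ := (Submodule.mem_span_range_iff_exists_fun F).1 h1
  refine ⟨fun a => if h : a ∈ I then σ ⟨a, h⟩ else 0, fun c hc => ?_⟩
  have h2 := congrArg (fun φ : (γ → F) →ₗ[F] F => φ (Pi.single c 1)) hσ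
  simp only [LinearMap.sum_apply, LinearMap.smul_apply, smul_eq_mul, hsing _ c hc] at h2
  rw [← h2, ← sum_coe_sort I]
  exact sum_congr rfl fun a _ => by simp only [dif_pos a.2, Subtype.coe_eta]

/-- bounded duality for systems of three term equations -/
theorem labk_three {F : Type} [Field F] (S : Finset F) (m : ℕ) : ∃ S' : Finset F,
    ∀ (ι : Type) (τ : Finset (Tri ι)) (L B : Finset ι) (c : Tri ι → Fin 3 → F) (y : ι),
      #τ ≤ m → #L ≤ m → B ⊆ L → y ∈ L → (∀ t ∈ τ, ∀ i, t i ∈ L) → (∀ t ∈ τ, ∀ i, c t i ∈ S) →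
      (∀ Y : ι → F, (∀ t ∈ τ, ∑ i, c t i * Y (t i) = 0) → (∀ a ∈ B, Y a = 0) → Y y = 0) →
      ∃ σ : ι → F, (∀ a ∈ B, σ a ∈ S') ∧
        ∀ Y : ι → F, (∀ t ∈ τ, ∑ i, c t i * Y (t i) = 0) → Y y = ∑ a ∈ B, σ a * Y a := by
  obtain ⟨S', hS'⟩ := labk_fin_sol (insert 0 (insert 1
    ((Fintype.piFinset fun _ : Fin 3 => insert 0 S).image fun u => ∑ i, u i))) (2 * m)
  refine ⟨S', fun ι τ L B c y hτ hL hB hy ht hc h => ?_⟩
  let M : ι ⊕ Tri ι → ι → F := Sum.elim (fun a d => if a = d then 1 else 0)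
    fun t d => ∑ i, if t i = d then c t i else 0
  have e1 : ∀ (Y : ι → F), ∀ a ∈ L, ∑ d ∈ L, (if a = d then 1 else 0) * Y d = Y a := by
    intro Y a ha
    simp only [ite_mul, one_mul, zero_mul, sum_ite_eq, if_pos ha]
  have e2 : ∀ (Y : ι → F), ∀ t ∈ τ, ∑ d ∈ L, M (Sum.inr t) d * Y d = ∑ i, c t i * Y (t i) := by
    intro Y t h1
    simp only [M, Sum.elim_inr, sum_mul]
    rw [sum_comm]
    refine sum_congr rfl fun i _ => ?_
    simp only [ite_mul, zero_mul, sum_ite_eq, if_pos (ht t h1 i)]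
  have h01 : ∀ a d : ι, (if a = d then (1 : F) else 0) ∈ insert 0 (insert 1
      ((Fintype.piFinset fun _ : Fin 3 => insert 0 S).image fun u => ∑ i, u i)) := by
    intro a d
    split_ifs
    · exact mem_insert_of_mem (mem_insert_self _ _)
    · exact mem_insert_self _ _
  obtain ⟨σ, h1, h2⟩ := hS' (ι ⊕ Tri ι) ι (B.disjSum τ) L M (fun d => if y = d then 1 else 0)
    (by rw [card_disjSum]; have := card_le_card hB; omega) (by omega)
    (by
      rintro (a | t) ha d _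
      · exact h01 a d
      · refine mem_insert_of_mem (mem_insert_of_mem (mem_image.2
          ⟨fun i => if t i = d then c t i else 0, Fintype.mem_piFinset.2 fun i => ?_, rfl⟩))
        split_ifs
        · exact mem_insert_of_mem (hc t (inr_mem_disjSum.1 ha) i)
        · exact mem_insert_self _ _)
    (fun d _ => h01 y d)
    (labk_dual _ _ _ _ fun Y hY => by
      rw [e1 Y y hy]
      refine h Y (fun t h1 => ?_) fun a ha => ?_
      · rw [← e2 Y t h1]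
        exact hY _ (inr_mem_disjSum.2 h1)
      · rw [← e1 Y a (hB ha)]
        exact hY (Sum.inl a) (inl_mem_disjSum.2 ha))
  refine ⟨fun a => σ (Sum.inl a), fun a ha => h1 _ (inl_mem_disjSum.2 ha), fun Y hY => ?_⟩
  calc Y y = ∑ d ∈ L, (∑ a ∈ B.disjSum τ, σ a * M a d) * Y d := by
        rw [← e1 Y y hy]
        exact sum_congr rfl fun d hd => by rw [h2 d hd]
    _ = ∑ a ∈ B.disjSum τ, σ a * ∑ d ∈ L, M a d * Y d := by
        simp only [sum_mul, mul_sum, mul_assoc]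
        exact sum_comm
    _ = ∑ a ∈ B, σ (Sum.inl a) * Y a := by
        rw [sum_disjSum, sum_eq_zero (s := τ), add_zero]
        · exact sum_congr rfl fun a ha => by rw [← e1 Y a (hB ha)]; rfl
        · intro t h3
          rw [e2 Y t h3, hY t h3, mul_zero]

end Pool.Agent.MP_38296a_co.H21

end FileLabK1

section FileLabK2

set_option autoImplicit false

namespace Pool.Agent.MP_38296a_co.H21

open Finset Filter Classical

variable {ι : Type}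

/-- nonzero products of at most `L` differences of slopes -/
def labk_Pr (x : ι → ℝ) (τ : Finset (Tri ι)) (L : ℕ) (y : ℝ) : Prop :=
  y ≠ 0 ∧ ∃ u : Fin L → Option (ι × ι),
    (∀ i a b, u i = some (a, b) → a ∈ lines τ ∧ b ∈ lines τ) ∧
      y = ∏ i, (u i).elim 1 fun e => x e.1 - x e.2

theorem labk_Pr_one (x : ι → ℝ) (τ : Finset (Tri ι)) (L : ℕ) : labk_Pr x τ L 1 :=
  ⟨one_ne_zero, fun _ => none, fun _ _ _ h => by simp at h, by simp⟩

theorem labk_Pr_mul {x : ι → ℝ} {τ : Finset (Tri ι)} {L L' : ℕ} {y y' : ℝ}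
    (h : labk_Pr x τ L y) (h' : labk_Pr x τ L' y') : labk_Pr x τ (L + L') (y * y') := by
  obtain ⟨h0, u, hu, rfl⟩ := h
  obtain ⟨h0', u', hu', rfl⟩ := h'
  refine ⟨mul_ne_zero h0 h0', Fin.append u u', fun i => ?_, ?_⟩
  · refine Fin.addCases (fun i => ?_) (fun i => ?_) i
    · rw [Fin.append_left]
      exact hu i
    · rw [Fin.append_right]
      exact hu' i
  · rw [Fin.prod_univ_add]
    simp only [Fin.append_left, Fin.append_right]

theorem labk_Pr_mono {x : ι → ℝ} {τ : Finset (Tri ι)} {L L' : ℕ} {y : ℝ}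
    (h : labk_Pr x τ L y) (hL : L ≤ L') : labk_Pr x τ L' y := by
  obtain ⟨d, rfl⟩ := Nat.exists_eq_add_of_le hL
  simpa only [mul_one] using labk_Pr_mul h (labk_Pr_one x τ d)

theorem labk_Pr_co {x : ι → ℝ} {τ : Finset (Tri ι)} {t : Tri ι} (ht : t ∈ τ) {i : Fin 3}
    (h : co x t i ≠ 0) : labk_Pr x τ 1 (co x t i) := by
  refine ⟨h, fun _ => some (t (i + 1), t (i + 2)), fun _ a b e => ?_, by simp [co]⟩
  obtain ⟨rfl, rfl⟩ := Prod.ext_iff.1 (Option.some.inj e)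
  exact ⟨mem_lines.2 ⟨t, ht, _, rfl⟩, mem_lines.2 ⟨t, ht, _, rfl⟩⟩

theorem labk_alg {x : ι → ℝ} {τ : Finset (Tri ι)} {L : ℕ} {S : Finset ℝ} (hS : AlgT x τ L S)
    {P Q : ℝ} (hP : labk_Pr x τ L P) (hQ : labk_Pr x τ L Q) {w : KK} (e : (w : ℝ) = P / Q) :
    (w : ℝ) ∈ S := by
  obtain ⟨-, u, hu, rfl⟩ := hP
  obtain ⟨-, v, hv, rfl⟩ := hQ
  rw [e]
  refine hS u v hu hv ?_
  rw [← e]
  exact mem_algebraicClosure_iff.1 w.2

/-- the graph of lines which lie in a common triple -/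
def labk_G (τ : Finset (Tri ι)) : SimpleGraph (lines τ) :=
  SimpleGraph.fromRel fun a b => ∃ t ∈ τ, ∃ i j, t i = a.1 ∧ t j = b.1

theorem labk_adj {τ : Finset (Tri ι)} {a b : lines τ} (h : (labk_G τ).Adj a b) :
    ∃ t ∈ τ, ∃ i j, t i = a.1 ∧ t j = b.1 := by
  rcases ((SimpleGraph.fromRel_adj _ _ _).1 h).2 with h | ⟨t, ht, i, j, h1, h2⟩
  · exact h
  · exact ⟨t, ht, j, i, h2, h1⟩

theorem labk_reach {τ : Finset (Tri ι)} {a b : lines τ} {t : Tri ι} (ht : t ∈ τ) {i j : Fin 3}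
    (h1 : t i = a.1) (h2 : t j = b.1) : (labk_G τ).Reachable a b := by
  by_cases e : a = b
  · rw [e]
  · exact SimpleGraph.Adj.reachable
      ((SimpleGraph.fromRel_adj _ _ _).2 ⟨e, Or.inl ⟨t, ht, i, j, h1, h2⟩⟩)

theorem labk_ratio {x μ : ι → ℝ} {t : Tri ι} {c : Fin 3 → KK} (hμ : ∀ a, μ a ≠ 0)
    (hx : ∀ i, co x t i ≠ 0)
    (hc : ∀ i, (c i : ℝ) = co x t i / μ (t i) / (co x t 0 / μ (t 0))) (i j : Fin 3) :
    (c i : ℝ) ≠ 0 ∧ (c i : ℝ) / c j = μ (t j) / μ (t i) * (co x t i / co x t j) := by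
  have := hμ (t 0)
  have := hμ (t i)
  have := hμ (t j)
  have := hx 0
  have := hx i
  have := hx j
  rw [hc i, hc j]
  constructor
  · positivity
  · field_simp

theorem labk_walk {x μ : ι → ℝ} {τ : Finset (Tri ι)} {cc : Tri ι → Fin 3 → KK}
    (hμ : ∀ a, μ a ≠ 0) (hx : ∀ t ∈ τ, ∀ i, co x t i ≠ 0)
    (hc : ∀ t ∈ τ, ∀ i, (cc t i : ℝ) = co x t i / μ (t i) / (co x t 0 / μ (t 0)))
    {a b : lines τ} (w : (labk_G τ).Walk a b) : ∃ y : KK, ∃ P Q : ℝ,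
      labk_Pr x τ w.length P ∧ labk_Pr x τ w.length Q ∧ (y : ℝ) = μ b / μ a * (P / Q) := by
  induction w with
  | nil => exact ⟨1, 1, 1, labk_Pr_one _ _ _, labk_Pr_one _ _ _, by simp [hμ]⟩
  | @cons a a' b h w ih =>
    obtain ⟨y, P, Q, hP, hQ, e⟩ := ih
    obtain ⟨t, ht, i, j, h1, h2⟩ := labk_adj h
    refine ⟨y * (cc t i / cc t j), P * co x t i, Q * co x t j,
      labk_Pr_mul hP (labk_Pr_co ht (hx t ht i)), labk_Pr_mul hQ (labk_Pr_co ht (hx t ht j)), ?_⟩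
    have h3 := (labk_ratio hμ (hx t ht) (hc t ht) i j).2
    rw [h1, h2] at h3
    have := hμ a
    have := hμ a'
    have := hQ.1
    have := hx t ht j
    push_cast
    rw [h3, e]
    field_simp

theorem labk_walk_nu {x μ : ι → ℝ} {τ : Finset (Tri ι)} {cc : Tri ι → Fin 3 → KK} {m : ℕ}
    {S : Finset ℝ} (hm : #(lines τ) ≤ m) (hμ : ∀ a, μ a ≠ 0) (hx : ∀ t ∈ τ, ∀ i, co x t i ≠ 0)
    (hc : ∀ t ∈ τ, ∀ i, (cc t i : ℝ) = co x t i / μ (t i) / (co x t 0 / μ (t 0)))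
    (hS : AlgT x τ (2 * m + 1) S) :
    ∃ ν : ι → KK, (∀ a, ν a ≠ 0) ∧
      ∀ t ∈ τ, ∀ i j, ((cc t i * ν (t i) / (cc t j * ν (t j)) : KK) : ℝ) ∈ S := by
  have ex : ∀ b : lines τ, ∃ y : KK, ∃ P Q : ℝ, labk_Pr x τ m P ∧ labk_Pr x τ m Q ∧
      (y : ℝ) = μ b / μ ((labk_G τ).connectedComponentMk b).out * (P / Q) := by
    intro b
    have h1 : (labk_G τ).Reachable ((labk_G τ).connectedComponentMk b).out b :=
      SimpleGraph.ConnectedComponent.exact (Quot.out_eq _)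
    obtain ⟨w, hw⟩ := h1.exists_isPath
    have h2 := hw.length_lt
    rw [Fintype.card_coe] at h2
    obtain ⟨y, P, Q, hP, hQ, e⟩ := labk_walk hμ hx hc w
    exact ⟨y, P, Q, labk_Pr_mono hP (by omega), labk_Pr_mono hQ (by omega), e⟩
  choose y P Q hP hQ e using ex
  refine ⟨fun a => if h : a ∈ lines τ then y ⟨a, h⟩ else 1, fun a => ?_, fun t ht i j => ?_⟩
  · by_cases h : a ∈ lines τ
    · simp only [dif_pos h]
      intro h0
      have h1 := e ⟨a, h⟩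
      rw [h0] at h1
      exact mul_ne_zero (div_ne_zero (hμ _) (hμ _)) (div_ne_zero (hP _).1 (hQ _).1) h1.symm
    · simp only [dif_neg h]
      exact one_ne_zero
  · have hi : t i ∈ lines τ := mem_lines.2 ⟨t, ht, i, rfl⟩
    have hj : t j ∈ lines τ := mem_lines.2 ⟨t, ht, j, rfl⟩
    simp only [dif_pos hi, dif_pos hj]
    have h1 : (labk_G τ).connectedComponentMk ⟨t i, hi⟩ =
        (labk_G τ).connectedComponentMk ⟨t j, hj⟩ :=
      SimpleGraph.ConnectedComponent.sound (labk_reach ht rfl rfl)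
    have ei := e ⟨t i, hi⟩
    have ej := e ⟨t j, hj⟩
    rw [h1] at ei
    refine labk_alg hS
      (labk_Pr_mono (labk_Pr_mul (labk_Pr_mul (hP ⟨t i, hi⟩) (hQ ⟨t j, hj⟩))
        (labk_Pr_co ht (hx t ht i))) (by omega))
      (labk_Pr_mono (labk_Pr_mul (labk_Pr_mul (hP ⟨t j, hj⟩) (hQ ⟨t i, hi⟩))
        (labk_Pr_co ht (hx t ht j))) (by omega)) ?_
    have h3 := (labk_ratio hμ (hx t ht) (hc t ht) i j).2
    have := hμ (t i)
    have := hμ (t j)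
    have := hμ ((labk_G τ).connectedComponentMk ⟨t j, hj⟩).out
    have := (hQ ⟨t i, hi⟩).1
    have := (hQ ⟨t j, hj⟩).1
    have := (hP ⟨t j, hj⟩).1
    have := hx t ht j
    push_cast
    rw [mul_div_mul_comm, h3, ei, ej]
    field_simp

end Pool.Agent.MP_38296a_co.H21

end FileLabK2

section FileLabK3

set_option autoImplicit false

namespace Pool.Agent.MP_38296a_co.H21

open Finset Filter Classical

noncomputable section

variable {ι : Type}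

theorem labk_mem {T : Finset (Tri ι)} {t : Tri ι} (ht : t ∈ T) (i : Fin 3) : t i ∈ lines T :=
  mem_lines.2 ⟨t, ht, i, rfl⟩

theorem labk_card_lines (T : Finset (Tri ι)) : #(lines T) ≤ 3 * #T := by
  unfold lines
  calc _ ≤ ∑ i : Fin 3, #(cl T i) := card_biUnion_le
    _ ≤ ∑ _i : Fin 3, #T := sum_le_sum fun i _ => card_image_le
    _ = 3 * #T := by simp

theorem labk_co {A : Arr ι} (h : A.Ok) {t : Tri ι} (ht : t ∈ A.T) (i : Fin 3) :
    co A.x t i ≠ 0 := by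
  intro e
  have := (h.co_bd ht i).1
  rw [e, abs_zero] at this
  norm_num at this

theorem labk_ker_anti (x : ι → ℝ) {τ τ' : Finset (Tri ι)} (h : τ' ⊆ τ) : Ker x τ ≤ Ker x τ' :=
  fun _ hf t ht => hf t (h ht)

theorem labk_TS_mono (A : Arr ι) (p : Cell) {r r' : ℕ} (h : r ≤ r') : A.TS p r ⊆ A.TS p r' := by
  intro t ht
  unfold Arr.TS at ht ⊢
  rw [mem_filter] at ht ⊢
  have e : (r : ℤ) ≤ r' := by exact_mod_cast h
  exact ⟨ht.1, ht.2.1.trans e, ht.2.2.trans e⟩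

theorem labk_card_TS {A : Arr ι} (h : A.Ok) (p : Cell) (r : ℕ) : #(A.TS p r) ≤ 33 * 4 ^ r := by
  have h1 : A.TS p r ⊆ A.TW p r := by
    intro t ht
    unfold Arr.TS at ht
    unfold Arr.TW
    rw [mem_filter] at ht ⊢
    have e : (r : ℤ) ≤ 2 ^ r := by exact_mod_cast (Nat.lt_two_pow_self (n := r)).le
    have e' : (0 : ℤ) ≤ 2 ^ r := by positivity
    exact ⟨ht.1, ht.2.1.trans e, by linarith [ht.2.2]⟩
  have h2 : #(A.TW p r) ≤ 33 * 4 ^ r := by exact_mod_cast h.card_TW p r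
  exact (card_le_card h1).trans h2

theorem labk_res_TW (A : Arr ι) {T1 : Finset (Tri ι)} (h : T1 ⊆ A.T) (p : Cell) (l : ℕ) :
    (A.res T1).TW p l ⊆ A.TW p l := by
  intro t ht
  unfold Arr.TW at ht ⊢
  rw [mem_filter] at ht ⊢
  exact ⟨h ht.1, ht.2⟩

theorem labk_res_TS (A : Arr ι) {T1 : Finset (Tri ι)} (h : T1 ⊆ A.T) (p : Cell) (r : ℕ) :
    (A.res T1).TS p r ⊆ A.TS p r := by
  intro t ht
  unfold Arr.TS at ht ⊢
  rw [mem_filter] at ht ⊢
  exact ⟨h ht.1, ht.2⟩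

theorem labk_res_TB (A : Arr ι) {T1 : Finset (Tri ι)} {B : Bx} (h : T1 ⊆ A.TB B) :
    T1 ⊆ (A.res T1).TB B := by
  intro t ht
  have h1 := h ht
  unfold Arr.TB at h1 ⊢
  rw [mem_filter] at h1 ⊢
  exact ⟨ht, h1.2⟩

/-- restriction of functions -/
def labk_res (F : Type) [Field F] (S : Finset ι) : (ι → F) →ₗ[F] (S → F) :=
  LinearMap.funLeft F F Subtype.val

theorem labk_res_eq {F : Type} [Field F] {S : Finset ι} {f g : ι → F} :
    labk_res F S f = labk_res F S g ↔ ∀ a ∈ S, f a = g a :=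
  ⟨fun h a ha => congrFun h ⟨a, ha⟩, fun h => funext fun a => h a.1 a.2⟩

/-- dimension of the restricted solutions -/
def labk_phi (A : Arr ι) (l : ℕ) (p : Cell) (r : ℕ) : ℕ :=
  Module.finrank ℝ ((Ker A.x (A.TS p r)).map (labk_res ℝ (lines (A.TW p l))))

theorem labk_phi_le {A : Arr ι} (h : A.Ok) (l : ℕ) (p : Cell) (r : ℕ) :
    labk_phi A l p r ≤ 99 * 4 ^ l := by
  have h1 := Submodule.finrank_le ((Ker A.x (A.TS p r)).map (labk_res ℝ (lines (A.TW p l))))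
  rw [Module.finrank_fintype_fun_eq_card, Fintype.card_coe] at h1
  have h2 := labk_card_lines (A.TW p l)
  have h3 : #(A.TW p l) ≤ 33 * 4 ^ l := by exact_mod_cast h.card_TW p l
  unfold labk_phi
  omega

theorem labk_phi_anti (A : Arr ι) (l : ℕ) (p : Cell) : Antitone (labk_phi A l p) := by
  intro r r' h
  exact Submodule.finrank_mono (Submodule.map_mono (labk_ker_anti A.x (labk_TS_mono A p h)))

theorem labk_ext {A : Arr ι} {l : ℕ} {p : Cell} {r r' : ℕ} (h : r ≤ r')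
    (e : labk_phi A l p r = labk_phi A l p r') {f : ι → ℝ} (hf : f ∈ Ker A.x (A.TS p r)) :
    ∃ f' ∈ Ker A.x (A.TS p r'), ∀ a ∈ lines (A.TW p l), f' a = f a := by
  have h1 : (Ker A.x (A.TS p r')).map (labk_res ℝ (lines (A.TW p l))) =
      (Ker A.x (A.TS p r)).map (labk_res ℝ (lines (A.TW p l))) :=
    Submodule.eq_of_le_of_finrank_eq
      (Submodule.map_mono (labk_ker_anti A.x (labk_TS_mono A p h))) e.symm
  have h2 : labk_res ℝ (lines (A.TW p l)) f ∈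
      (Ker A.x (A.TS p r')).map (labk_res ℝ (lines (A.TW p l))) := by
    rw [h1]
    exact Submodule.mem_map_of_mem hf
  obtain ⟨f', h3, h4⟩ := Submodule.mem_map.1 h2
  exact ⟨f', h3, labk_res_eq.1 h4⟩

/-- the scaled coefficients -/
def labk_Cf (A : Arr ι) (μ : ι → ℝ) (cc : Tri ι → Fin 3 → KK) : Prop :=
  (∀ a, μ a ≠ 0) ∧
    ∀ t ∈ A.T, ∀ i, (cc t i : ℝ) = co A.x t i / μ (t i) / (co A.x t 0 / μ (t 0))

/-- algebraic solutions -/
def labk_Z (cc : Tri ι → Fin 3 → KK) (τ : Finset (Tri ι)) : Submodule KK (ι → KK) where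
  carrier := {y | ∀ t ∈ τ, ∑ i, cc t i * y (t i) = 0}
  add_mem' := by
    intro f g hf hg t ht
    simp only [Pi.add_apply, mul_add, sum_add_distrib, hf t ht, hg t ht, add_zero]
  zero_mem' := by intro t _; simp
  smul_mem' := by
    intro c f hf t ht
    calc _ = c * ∑ i, cc t i * f (t i) := by
          rw [mul_sum]
          exact sum_congr rfl fun i _ => by rw [Pi.smul_apply, smul_eq_mul]; ring
      _ = 0 := by rw [hf t ht, mul_zero]

section Cf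
variable {A : Arr ι} {μ : ι → ℝ} {cc : Tri ι → Fin 3 → KK}

theorem labk_cc_ne (h : A.Ok) (hc : labk_Cf A μ cc) {t : Tri ι} (ht : t ∈ A.T) (i : Fin 3) :
    cc t i ≠ 0 := by
  intro e
  exact (labk_ratio hc.1 (labk_co h ht) (hc.2 t ht) i i).1 (by rw [e]; rfl)

theorem labk_om (h : A.Ok) (hc : labk_Cf A μ cc) {t : Tri ι} (ht : t ∈ A.T) (f : ι → ℝ) :
    Om A.x f t = co A.x t 0 / μ (t 0) * ∑ i, (cc t i : ℝ) * (μ (t i) * f (t i)) := by
  unfold Om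
  rw [mul_sum]
  refine sum_congr rfl fun i _ => ?_
  have := hc.1 (t 0)
  have := hc.1 (t i)
  have := labk_co h ht 0
  rw [hc.2 t ht i]
  field_simp

theorem labk_ker_of (h : A.Ok) (hc : labk_Cf A μ cc) {τ : Finset (Tri ι)} (hτ : τ ⊆ A.T)
    {y : ι → KK} (hy : y ∈ labk_Z cc τ) : (fun a => (y a : ℝ) / μ a) ∈ Ker A.x τ := by
  intro t ht
  rw [labk_om h hc (hτ ht)]
  have h1 : ((∑ i, cc t i * y (t i) : KK) : ℝ) = 0 := by rw [hy t ht]; rfl
  push_cast at h1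
  rw [← mul_zero (co A.x t 0 / μ (t 0)), ← h1]
  congr 1
  exact sum_congr rfl fun i _ => by rw [mul_div_cancel₀ _ (hc.1 _)]

theorem labk_Z_of (h : A.Ok) (hc : labk_Cf A μ cc) {τ : Finset (Tri ι)} (hτ : τ ⊆ A.T)
    {f : ι → ℝ} (hf : f ∈ Ker A.x τ) (π : Module.Dual KK ℝ) :
    (fun a => π (μ a * f a)) ∈ labk_Z cc τ := by
  intro t ht
  have h1 := hf t ht
  rw [labk_om h hc (hτ ht)] at h1
  have h2 := (mul_eq_zero.1 h1).resolve_left (div_ne_zero (labk_co h (hτ ht) 0) (hc.1 _))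
  rw [← map_zero π, ← h2, map_sum]
  exact sum_congr rfl fun i _ => (π.map_smul (cc t i) _).symm

end Cf

/-- the labels `z` describe all algebraic solutions on the lines of `T1` -/
def labk_Span {D : ℕ} (A : Arr ι) (B : Bx) (T1 : Finset (Tri ι)) (cc : Tri ι → Fin 3 → KK)
    (z : ι → Fin D → KK) : Prop :=
  T1 ⊆ A.TB B ∧ (∀ e, (fun a => z a e) ∈ labk_Z cc (A.TB B)) ∧ ∀ y ∈ labk_Z cc (A.TB B),
    ∃ g : Module.Dual KK (Fin D → KK), ∀ a ∈ lines T1, y a = g (z a)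

theorem labk_core (K : ℝ) {δ : ℝ} (hδ : 0 < δ) : ∃ D j0 : ℕ, ∀ (A : Arr ι) (B : Bx) (μ : ι → ℝ)
    (cc : Tri ι → Fin 3 → KK), A.Ok → labk_Cf A μ cc →
    j0 ≤ B.j → (#(lines (A.TB B)) : ℝ) ≤ K * 2 ^ B.j → δ * 4 ^ B.j ≤ #(A.TB B) →
    ∃ (T1 : Finset (Tri ι)) (z : ι → Fin D → KK),
      δ / 2 * 4 ^ B.j ≤ #T1 ∧ labk_Span A B T1 cc z := by
  obtain ⟨D, j0, h⟩ := core K hδ
  refine ⟨D, j0, fun A B μ cc hA hc hj h1 h2 => ?_⟩
  obtain ⟨T1, s1, d1, dep⟩ := h ι A B hA hj h1 h2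
  obtain ⟨g, hg, sp⟩ := span_of_dep (D := D) (labk_Z cc (A.TB B)) (labk_res KK (lines T1))
    (fun g hg => by
      obtain ⟨a, ha, e⟩ := dep (fun e => (fun b => (g e b : ℝ) / μ b, 0)) fun e t ht => by
        have h3 := labk_ker_of hA hc (TB_sub B) (hg e) t (s1 ht)
        have h4 : Om (0 : ι → ℝ) A.s t = 0 := by simp [Om, co]
        simp only [h3, h4, add_zero]
      obtain ⟨e0, he0⟩ := Function.ne_iff.1 ha
      obtain ⟨π, hπ⟩ : ∃ π : Module.Dual KK ℝ, π (a e0) ≠ 0 := by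
        by_contra hn
        push Not at hn
        exact he0 ((Module.forall_dual_apply_eq_zero_iff KK _).1 hn)
      refine ⟨fun e => π (a e), fun h0 => hπ (congrFun h0 e0), funext fun b => ?_⟩
      have h3 := (e b.1 b.2).1
      have h4 : ∑ e, g e b • a e = 0 := by
        rw [← zero_mul (μ b), ← h3, sum_mul]
        refine sum_congr rfl fun e _ => ?_
        have := hc.1 b
        change (g e b : ℝ) * a e = _
        field_simp
      have h5 := congrArg π h4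
      rw [map_sum, map_zero] at h5
      rw [Finset.sum_apply, Pi.zero_apply, ← h5]
      refine sum_congr rfl fun e _ => ?_
      rw [map_smul, Pi.smul_apply, smul_eq_mul, smul_eq_mul, mul_comm]
      rfl)
  refine ⟨T1, fun a e => g e a, d1, s1, hg, fun y hy => ?_⟩
  obtain ⟨a, ha⟩ := sp y hy
  refine ⟨∑ e, a e • LinearMap.proj e, fun b hb => ?_⟩
  have h3 := congrFun ha ⟨b, hb⟩
  rw [Finset.sum_apply] at h3
  rw [LinearMap.sum_apply]
  exact h3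

theorem labk_zero {D : ℕ} {A : Arr ι} {B : Bx} {T1 : Finset (Tri ι)} {μ : ι → ℝ}
    {cc : Tri ι → Fin 3 → KK} {z : ι → Fin D → KK} (h : A.Ok) (hc : labk_Cf A μ cc)
    (hS : labk_Span A B T1 cc z) {f : ι → ℝ} (hf : f ∈ Ker A.x (A.TB B)) {y : ℝ}
    (hy : ∀ (π : Module.Dual KK ℝ) (g : Module.Dual KK (Fin D → KK)),
      (∀ a ∈ lines T1, π (μ a * f a) = g (z a)) → π y = 0) : y = 0 := by
  refine (Module.forall_dual_apply_eq_zero_iff KK y).1 fun π => ?_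
  obtain ⟨g, hg⟩ := hS.2.2 _ (labk_Z_of h hc (TB_sub B) hf π)
  exact hy π g hg

/-- algebraic numbers in a finite set of reals -/
def labk_pre (S : Finset ℝ) : Finset KK :=
  S.preimage (fun w : KK => (w : ℝ)) Subtype.val_injective.injOn

/-- the finite set of coefficients -/
def labk_S (S : Finset ℝ) (r : ℕ) : Finset KK :=
  labk_pre S ∪ (labk_three (labk_pre S) (99 * 4 ^ r)).choose

theorem labk_mono {D : ℕ} {z : ι → Fin D → KK} {cc : Tri ι → Fin 3 → KK} {S : Finset KK}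
    {τ τ' : Finset (Tri ι)} (h : LocFin z cc S τ) (hτ : τ' ⊆ τ) : LocFin z cc S τ' := by
  obtain ⟨ν, h0, h1, h2⟩ := h
  exact ⟨ν, h0, fun t ht => h1 t (hτ ht),
    fun B hB y hy => h2 B (hB.trans (lines_mono hτ)) y (lines_mono hτ hy)⟩

theorem labk_point {D : ℕ} {A : Arr ι} {B : Bx} {T1 : Finset (Tri ι)} {μ : ι → ℝ}
    {cc : Tri ι → Fin 3 → KK} {z : ι → Fin D → KK} (h : A.Ok) (hc : labk_Cf A μ cc)
    (hS : labk_Span A B T1 cc z) {p : Cell} (hp : p ∈ B.cells)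
    {l r L : ℕ} {S : Finset ℝ} (hr : 5 * 2 ^ l ≤ r) (hL : r ≤ L) (hB : 2 ^ B.j ≤ L)
    (e : labk_phi A l p r = labk_phi A l p L)
    (hin : ∀ q : Cell, |q.1 - p.1| ≤ r → |q.2 - p.2| ≤ r → q ∈ B.cells)
    (hA : AlgT A.x (A.TS p r) (2 * (99 * 4 ^ r) + 1) S) :
    LocFin z cc (labk_S S r) ((A.res T1).TW p l) := by
  have a1 : A.TS p r ⊆ A.TB B := by
    intro t ht
    unfold Arr.TS at ht
    unfold Arr.TB
    rw [mem_filter] at ht ⊢
    exact ⟨ht.1, hin _ ht.2.1 ht.2.2⟩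
  have a2 : A.TB B ⊆ A.TS p L := by
    intro t ht
    unfold Arr.TB at ht
    unfold Arr.TS
    rw [mem_filter] at ht ⊢
    have h1 : A.loc t ∈ (anc B.j p).cells := by
      rw [mem_cells.1 hp]
      exact ht.2
    have h2 := anc_close h1
    have h3 : (2 : ℤ) ^ B.j ≤ L := by exact_mod_cast hB
    exact ⟨ht.1, h2.1.le.trans h3, h2.2.le.trans h3⟩
  have a3 : (A.res T1).TW p l ⊆ A.TW p l := labk_res_TW A (hS.1.trans (TB_sub B)) p l
  have a4 : (A.res T1).TW p l ⊆ T1 := TW_sub (A := A.res T1) p l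
  have a5 : (A.res T1).TW p l ⊆ A.TS p r :=
    a3.trans ((TW_sub_TS p l).trans (labk_TS_mono A p hr))
  have a6 : A.TS p r ⊆ A.T := TS_sub p r
  have c1 := labk_card_TS h p r
  have c2 : #(lines (A.TS p r)) ≤ 99 * 4 ^ r := by
    have := labk_card_lines (A.TS p r)
    omega
  obtain ⟨ν, h0, h1⟩ := labk_walk_nu c2 hc.1 (fun t ht => labk_co h (a6 ht))
    (fun t ht => hc.2 t (a6 ht)) hA
  have h2 : ∀ t ∈ A.TS p r, ∀ i j, cc t i * ν (t i) / (cc t j * ν (t j)) ∈ labk_pre S :=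
    fun t ht i j => mem_preimage.2 (h1 t ht i j)
  have h3 : ∀ t ∈ A.TS p r, ∀ Y : ι → KK, ∑ i, cc t i * ν (t i) / (cc t 0 * ν (t 0)) * Y (t i) =
      (∑ i, cc t i * (ν (t i) * Y (t i))) / (cc t 0 * ν (t 0)) := by
    intro t _ Y
    rw [sum_div]
    exact sum_congr rfl fun i _ => by ring
  refine ⟨ν, h0, fun t ht i j => mem_union_left _ (h2 t (a5 ht) i j), fun C hC y hy hz => ?_⟩
  obtain ⟨σ, h4, h5⟩ := (labk_three (labk_pre S) (99 * 4 ^ r)).choose_spec ι (A.TS p r)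
    (lines (A.TS p r)) C (fun t i => cc t i * ν (t i) / (cc t 0 * ν (t 0))) y (by omega) c2
    (hC.trans (lines_mono a5)) (lines_mono a5 hy) (fun t ht i => labk_mem ht i)
    (fun t ht i => h2 t ht i 0) fun Y hY hYC => by
      have h4 : (fun a => ν a * Y a) ∈ labk_Z cc (A.TS p r) := by
        intro t ht
        have h5 := hY t ht
        rw [h3 t ht] at h5
        exact (div_eq_zero_iff.1 h5).resolve_right
          (mul_ne_zero (labk_cc_ne h hc (a6 ht) 0) (h0 _))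
      obtain ⟨f, hf, ef⟩ := labk_ext hL e (labk_ker_of h hc a6 h4)
      have ef' : ∀ a ∈ lines ((A.res T1).TW p l), μ a * f a = (ν a * Y a : KK) := by
        intro a ha
        rw [ef a (lines_mono a3 ha), mul_div_cancel₀ _ (hc.1 a)]
      have h6 : ((ν y * Y y : KK) : ℝ) = 0 := by
        refine labk_zero h hc hS (labk_ker_anti A.x a2 hf) fun π g hg => ?_
        rw [← ef' y hy, hg y (lines_mono a4 hy)]
        refine (Submodule.span_le (p := LinearMap.ker g)).2 ?_ hz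
        rintro _ ⟨a, ha, rfl⟩
        show g (z a) = 0
        rw [← hg a (lines_mono a4 (hC ha)), ef' a (hC ha), hYC a ha, mul_zero]
        exact map_zero π
      have h7 : ν y * Y y = 0 := Subtype.val_injective h6
      exact (mul_eq_zero.1 h7).resolve_left (h0 y)
  refine ⟨σ, fun a ha => mem_union_right _ (h4 a ha), funext fun k => ?_⟩
  rw [Finset.sum_apply]
  refine h5 (fun a => (ν a)⁻¹ * z a k) fun t ht => ?_
  rw [h3 t ht fun a => (ν a)⁻¹ * z a k, div_eq_zero_iff]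
  left
  rw [← hS.2.1 k t (a1 ht)]
  exact sum_congr rfl fun i _ => by rw [mul_inv_cancel_left₀ (h0 _)]

/-- the real labels -/
def labk_lab {D : ℕ} (x s μ : ι → ℝ) (z : ι → Fin D → KK) (a : ι) : Fin (D + 2) → ℝ :=
  Fin.cons (x a) (Fin.cons (s a) fun e => (z a e : ℝ) / μ a)

theorem labk_x_mem {D : ℕ} (x s μ : ι → ℝ) (z : ι → Fin D → KK) : x ∈ LV (labk_lab x s μ z) :=
  Submodule.subset_span (Set.mem_insert_of_mem _ ⟨0, rfl⟩)

theorem labk_s_mem {D : ℕ} (x s μ : ι → ℝ) (z : ι → Fin D → KK) : s ∈ LV (labk_lab x s μ z) :=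
  Submodule.subset_span (Set.mem_insert_of_mem _ ⟨Fin.succ 0, rfl⟩)

theorem labk_g_mem {D : ℕ} (x s μ : ι → ℝ) (z : ι → Fin D → KK)
    (g : Module.Dual KK (Fin D → KK)) :
    (fun a => (g (z a) : ℝ) / μ a) ∈ LV (labk_lab x s μ z) := by
  have h1 : (fun a => (g (z a) : ℝ) / μ a) = ∑ e, (g (fun j => if e = j then 1 else 0) : ℝ) •
      fun a => (z a e : ℝ) / μ a := by
    funext a
    rw [LinearMap.pi_apply_eq_sum_univ g (z a), Finset.sum_apply]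
    simp only [smul_eq_mul, Pi.smul_apply]
    push_cast
    rw [sum_div]
    exact sum_congr rfl fun e _ => by ring
  rw [h1]
  exact Submodule.sum_mem _ fun e _ => Submodule.smul_mem _ _
    (Submodule.subset_span (Set.mem_insert_of_mem _ ⟨e.succ.succ, rfl⟩))

section Fin
variable {D : ℕ} {A : Arr ι} {B : Bx} {T1 T : Finset (Tri ι)} {μ : ι → ℝ}
  {cc : Tri ι → Fin 3 → KK} {z : ι → Fin D → KK}

theorem labk_scal (h : A.Ok) (hc : labk_Cf A μ cc) (hS : labk_Span A B T1 cc z) {f : ι → ℝ}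
    (hf : f ∈ Ker A.x (A.TB B)) {a b : ι} (ha : a ∈ lines T1) (hb : b ∈ lines T1) {c : KK}
    (e : z a = c • z b) : μ a * f a = c * (μ b * f b) := by
  refine sub_eq_zero.1 (labk_zero h hc hS hf fun π g hg => ?_)
  rw [map_sub, hg a ha, e, map_smul, ← hg b hb, ← map_smul]
  exact sub_self _

theorem labk_rel (h : A.Ok) (hc : labk_Cf A μ cc) (hS : labk_Span A B T1 cc z) {t : Tri ι}
    (ht : t ∈ T1) : ∑ i, cc t i • z (t i) = 0 ∧ ∀ i, cc t i ≠ 0 ∧ z (t i) ≠ 0 := by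
  refine ⟨funext fun k => ?_, fun i => ⟨labk_cc_ne h hc (TB_sub B (hS.1 ht)) i, fun e => ?_⟩⟩
  · rw [Finset.sum_apply]
    exact hS.2.1 k t (hS.1 ht)
  · have h1 := labk_scal h hc hS (f := 1) (fun u _ => Om_one _ u) (labk_mem ht i) (labk_mem ht i)
      (c := 0) (by rw [e, smul_zero])
    simp only [Pi.one_apply, mul_one, ZeroMemClass.coe_zero, zero_mul] at h1
    exact hc.1 _ h1

theorem labk_geo (h : A.Ok) (hc : labk_Cf A μ cc) (hS : labk_Span A B T1 cc z) {a b : ι}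
    (ha : a ∈ lines T1) (hb : b ∈ lines T1) {c : KK} (e : z a = c • z b) :
    A.x a = A.x b ∧ A.s a = A.s b := by
  have h1 := labk_scal h hc hS (f := 1) (fun u _ => Om_one _ u) ha hb e
  have h2 := labk_scal h hc hS (f := A.x) (fun u _ => Om_x _ u) ha hb e
  have h3 := labk_scal h hc hS (f := A.s) (fun u hu => h.Om_s (TB_sub B hu)) ha hb e
  simp only [Pi.one_apply, mul_one] at h1
  rw [← mul_assoc, ← h1] at h2 h3
  exact ⟨mul_left_cancel₀ (hc.1 a) h2, mul_left_cancel₀ (hc.1 a) h3⟩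

theorem labk_span (h : A.Ok) (hc : labk_Cf A μ cc) (hS : labk_Span A B T1 cc z) (hT : T ⊆ T1)
    {β : Fin 3} (hs : Sp (A.res T) (labk_lab A.x A.s μ z) 1 β) {η : ℝ} {l : ℕ} {p : Cell}
    (hG : GP (A.res T) (labk_lab A.x A.s μ z) 1 η l p) (i : Fin 3) (C : Set ι)
    (hC : η * 4 ^ l ≤ cnt ((A.res T).TW p l) fun t => t i ∈ C) {t : Tri ι} (ht : t ∈ T)
    {j : Fin 3} (hj : j = i ∨ i = β) : z (t j) ∈ Submodule.span KK (z '' C) := by
  refine (Subspace.forall_mem_dualAnnihilator_apply_eq_zero_iff _ _).1 fun g hg => ?_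
  rw [Submodule.mem_dualAnnihilator] at hg
  have h1 : (fun a => (g (z a) : ℝ) / μ a) ∈ LV (labk_lab A.x A.s μ z) ^ 1 := by
    rw [pow_one]
    exact labk_g_mem _ _ _ _ g
  have h2 : ∀ u ∈ T, (g (z (u i)) : ℝ) / μ (u i) = 0 :=
    hG _ (comp_mem_LV3 h1 i) (hC.trans (cnt_mono fun u hu hi => ⟨hu, by
      rw [hg _ (Submodule.subset_span ⟨_, hi, rfl⟩)]
      simp⟩))
  have h3 : (g (z (t j)) : ℝ) / μ (t j) = 0 := by
    rcases hj with rfl | rfl
    · exact h2 t ht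
    · refine hs _ h1 (labk_ker_of h hc (hT.trans (hS.1.trans (TB_sub B))) fun u hu => ?_) h2 t ht j
      have h4 := congrArg g (labk_rel h hc hS (hT hu)).1
      rw [map_sum, map_zero] at h4
      rw [← h4]
      exact sum_congr rfl fun k _ => (g.map_smul _ _).symm
  exact Subtype.val_injective ((div_eq_zero_iff.1 h3).resolve_right (hc.1 _))

end Fin

end

end Pool.Agent.MP_38296a_co.H21

end FileLabK3

section FileLabK

set_option autoImplicit false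

namespace Pool.Agent.MP_38296a_co.H21

open Finset Filter Classical

/-- solutions of linear systems of bounded size with coefficients in a finite set -/
theorem fin_sol {F : Type} [Field F] (S : Finset F) (m : ℕ) : ∃ S' : Finset F,
    ∀ (α γ : Type) (I : Finset α) (J : Finset γ) (M : α → γ → F) (b : γ → F), #I ≤ m → #J ≤ m →
      (∀ a ∈ I, ∀ c ∈ J, M a c ∈ S) → (∀ c ∈ J, b c ∈ S) →
      (∃ σ : α → F, ∀ c ∈ J, ∑ a ∈ I, σ a * M a c = b c) →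
      ∃ σ : α → F, (∀ a ∈ I, σ a ∈ S') ∧ ∀ c ∈ J, ∑ a ∈ I, σ a * M a c = b c :=
  labk_fin_sol S m

/-- local scaling by products along walks -/
theorem walk_nu {ι : Type} {x μ : ι → ℝ} {τ : Finset (Tri ι)} {cc : Tri ι → Fin 3 → KK} {m : ℕ}
    {S : Finset ℝ} (hm : #(lines τ) ≤ m) (hμ : ∀ a, μ a ≠ 0) (hx : ∀ t ∈ τ, ∀ i, co x t i ≠ 0)
    (hc : ∀ t ∈ τ, ∀ i, (cc t i : ℝ) = co x t i / μ (t i) / (co x t 0 / μ (t 0)))
    (hS : AlgT x τ (2 * m + 1) S) :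
    ∃ ν : ι → KK, (∀ a, ν a ≠ 0) ∧
      ∀ t ∈ τ, ∀ i j, ((cc t i * ν (t i) / (cc t j * ν (t j)) : KK) : ℝ) ∈ S :=
  labk_walk_nu hm hμ hx hc hS

theorem labk_tight {D : ℕ} {A : ℕ → Arr ℕ} {Q : ℕ → Bx} {T1 : ℕ → Finset (Tri ℕ)}
    {μ : ℕ → ℕ → ℝ} {cc : ℕ → Tri ℕ → Fin 3 → KK} {z : ℕ → ℕ → Fin D → KK} {ℓ : ℕ → ℕ}
    {S : ℕ → Finset ℝ} (hV : Val A Q) (hℓ : Tendsto ℓ UU atTop)
    (hc : ∀ᶠ n in UU, labk_Cf (A n) (μ n) (cc n))
    (hS : ∀ᶠ n in UU, labk_Span (A n) (Q n) (T1 n) (cc n) (z n))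
    (hB : ∀ᶠ n in UU, 2 ^ (Q n).j ≤ ℓ n)
    (hH : ∀ r L, Tight Q fun n c p => AlgT (A n).x ((A n).TS p r) L (S c)) (l : ℕ)
    (hw : Tight Q fun n r p => r ≤ ℓ n ∧ labk_phi (A n) l p r = labk_phi (A n) l p (ℓ n)) :
    Tight Q fun n c p => LocFin (z n) (cc n) (labk_S (S c.unpair.1) c.unpair.2)
      (((A n).res (T1 n)).TW p l) := by
  intro θ hθ
  have hθ3 : 0 < θ / 3 := by positivity
  obtain ⟨r0, h0⟩ := hw (θ / 3) hθ3
  obtain ⟨r, hr0, hr⟩ : ∃ r, r0 ≤ r ∧ 5 * 2 ^ l ≤ r := ⟨_, le_max_left _ _, le_max_right _ _⟩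
  obtain ⟨c, h1⟩ := hH r (2 * (99 * 4 ^ r) + 1) (θ / 3) hθ3
  refine ⟨Nat.pair c r, ?_⟩
  filter_upwards [h0, h1, hS, hB, dya_small hV.big (4 * (r : ℝ)) hθ3,
    hℓ.eventually_ge_atTop r, hc] with n b0 b1 b2 b3 b4 b5 b8
  have b6 := (fr_bdry (Q n) r).trans b4
  rw [Nat.unpair_pair]
  refine (fr_or (P1 := fun p => ¬ (r0 ≤ ℓ n ∧ labk_phi (A n) l p r0 = labk_phi (A n) l p (ℓ n)))
    (P2 := fun p => ¬ (AlgT (A n).x ((A n).TS p r) (2 * (99 * 4 ^ r) + 1) (S c) ∧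
      ∀ q : Cell, |q.1 - p.1| ≤ r → |q.2 - p.2| ≤ r → q ∈ (Q n).cells)) fun p hp hn => ?_).trans ?_
  · by_contra hc
    rw [not_or, not_not, not_not] at hc
    obtain ⟨⟨-, c1⟩, c2, c3⟩ := hc
    refine hn (labk_point (hV.ok n) b8 b2 hp hr b5 b3 (le_antisymm ?_ ?_) c3 c2)
    · rw [← c1]
      exact labk_phi_anti (A n) l p hr0
    · exact labk_phi_anti (A n) l p b5
  · have b7 := fr_or (Q := Q n)
      (P := fun p => ¬ (AlgT (A n).x ((A n).TS p r) (2 * (99 * 4 ^ r) + 1) (S c) ∧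
        ∀ q : Cell, |q.1 - p.1| ≤ r → |q.2 - p.2| ≤ r → q ∈ (Q n).cells))
      fun p _ hn => not_and_or.1 hn
    linarith

theorem labk_cf {A : Arr ℕ} (h : Alg A.x A.T) : ∃ μ cc, labk_Cf A μ cc := by
  obtain ⟨μ, h0, h1⟩ := h
  have ex : ∀ (t : Tri ℕ) (i : Fin 3), ∃ c : KK, t ∈ A.T →
      (c : ℝ) = co A.x t i / μ (t i) / (co A.x t 0 / μ (t 0)) := by
    intro t i
    by_cases ht : t ∈ A.T
    · exact ⟨⟨_, mem_algebraicClosure_iff.2 (h1 t ht i 0)⟩, fun _ => rfl⟩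
    · exact ⟨1, fun h => (ht h).elim⟩
  choose cc hcc using ex
  exact ⟨μ, cc, h0, fun t ht i => hcc t i ht⟩

/-- vector labels over the algebraic numbers -/
theorem lab4 {k : ℕ} {A : ℕ → Arr ℕ} {Q : ℕ → Bx} (h : UG k A Q)
    (ha : ∀ᶠ n in UU, Alg (A n).x (A n).T) :
    ∃ (D : ℕ) (A' : ℕ → Arr ℕ) (Q' : ℕ → Bx) (β : Fin 3) (z : ℕ → ℕ → Fin D → KK)
      (cc : ℕ → Tri ℕ → Fin 3 → KK) (S : ℕ → Finset KK), St4 k A' Q' β z cc S := by
  have : Inhabited ((ℕ → ℝ) × (Tri ℕ → Fin 3 → KK)) := ⟨0⟩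
  obtain ⟨mc, hc⟩ := UU_choose (α := (ℕ → ℝ) × (Tri ℕ → Fin 3 → KK))
    (P := fun n a => labk_Cf (A n) a.1 a.2) (ha.mono fun n b => by
      obtain ⟨μ, cc, e⟩ := labk_cf b
      exact ⟨(μ, cc), e⟩)
  obtain ⟨S, hS⟩ := h.alg
  obtain ⟨ℓ, hℓ, hw⟩ := wit Q (fun l n p r => labk_phi (A n) l p r) (fun l => 99 * 4 ^ l)
    (fun l n p r => labk_phi_le (h.val.ok n) l p r) fun l n p => labk_phi_anti (A n) l p
  obtain ⟨δ, hδ, hf⟩ := h.dens.freq h.val
  have hW : Freq Q fun n B => δ * 4 ^ B.j ≤ #((A n).TB B) ∧ 2 ^ B.j ≤ ℓ n := by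
    refine ⟨δ, hδ, (hf.mono fun L hL => ?_).frequently⟩
    filter_upwards [hL, hℓ.eventually_ge_atTop (2 ^ L)] with n b1 b2
    exact b1.trans (fr_mono fun p _ hp => ⟨hp, b2⟩)
  have hK' := (Keep.all fun l => keep_tight (hw l)).and
    ((Keep.all fun r => Keep.all fun L => keep_tight (hS r L)).and
      (Keep.all fun r => keep_tight (h.gap r)))
  obtain ⟨Q1, -, v1, ⟨w1, H1, g1⟩, e1, -, -⟩ := sel (M := Empty) (M' := Empty) h.val hK' hW
    (fun m => m.elim) (fun m => m.elim) (fun m => m.elim) fun m => m.elim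
  obtain ⟨K, -, hKl⟩ := v1.lines_le
  obtain ⟨D, j0, hD⟩ := labk_core (ι := ℕ) K hδ
  have ex : ∀ n, ∃ (T1 : Finset (Tri ℕ)) (z : ℕ → Fin D → KK), T1 ⊆ (A n).T ∧
      (labk_Cf (A n) (mc n).1 (mc n).2 → j0 ≤ (Q1 n).j →
        (#(lines ((A n).TB (Q1 n))) : ℝ) ≤ K * 2 ^ (Q1 n).j →
        δ * 4 ^ (Q1 n).j ≤ #((A n).TB (Q1 n)) →
        δ / 2 * 4 ^ (Q1 n).j ≤ #T1 ∧ labk_Span (A n) (Q1 n) T1 (mc n).2 z) := by
    intro n
    by_cases c : labk_Cf (A n) (mc n).1 (mc n).2 ∧ j0 ≤ (Q1 n).j ∧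
        (#(lines ((A n).TB (Q1 n))) : ℝ) ≤ K * 2 ^ (Q1 n).j ∧
        δ * 4 ^ (Q1 n).j ≤ #((A n).TB (Q1 n))
    · obtain ⟨T1, z, d1, s1⟩ := hD (A n) (Q1 n) _ _ (v1.ok n) c.1 c.2.1 c.2.2.1 c.2.2.2
      exact ⟨T1, z, s1.1.trans (TB_sub _), fun _ _ _ _ => ⟨d1, s1⟩⟩
    · exact ⟨∅, 0, empty_subset _, fun c0 c1 c2 c3 => (c ⟨c0, c1, c2, c3⟩).elim⟩
  choose T1 z sT hT using ex
  have ev : ∀ᶠ n in UU, δ / 2 * 4 ^ (Q1 n).j ≤ #(T1 n) ∧
      labk_Span (A n) (Q1 n) (T1 n) (mc n).2 (z n) := by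
    filter_upwards [hc, v1.big.eventually_ge_atTop j0, hKl, e1] with n b0 b1 b2 b3
    exact hT n b0 b1 b2.1 b3.1
  have sub1 : Sub (fun n => (A n).res (T1 n)) A := fun n => ⟨T1 n, sT n, rfl⟩
  have d1 : Dens (fun n => (A n).res (T1 n)) Q1 := by
    refine ⟨δ / 2, by positivity, ev.mono fun n b => b.1.trans ?_⟩
    exact_mod_cast card_le_card (labk_res_TB (A n) b.2.1)
  obtain ⟨A', Q', s2, -, r2, -, t2⟩ := gug (M := ℕ) (v1.sub sub1) d1 (keep_true Q1)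
    (lab := fun n => labk_lab (A n).x (A n).s (mc n).1 (z n))
    (fun n => ⟨labk_x_mem _ _ _ (z n), labk_s_mem _ _ _ (z n)⟩)
    (fun r => (g1 r).mono fun c => ⟨c, Eventually.of_forall fun n p _ hp =>
      hp.mono (labk_res_TS (A n) (sT n) p r) le_rfl⟩)
    (fun l n c p => LocFin (z n) (mc n).2 (labk_S (S c.unpair.1) c.unpair.2)
      (((A n).res (T1 n)).TW p l))
    fun l => labk_tight v1 hℓ hc (ev.mono fun n b => b.2) (e1.mono fun n b => b.2) H1 l (w1 l)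
  choose T hT1 e using s2
  obtain rfl : A' = fun n => (A n).res (T n) := funext e
  have poor : ∀ n, ¬ Rich k ((A n).res (T n)).T := fun n b =>
    h.poor n (b.mono ((hT1 n).trans (sT n)))
  obtain ⟨β, hβ⟩ := r2.sp_dich poor 1
  refine ⟨D, _, Q', β, z, fun n => (mc n).2, fun c => labk_S (S c.unpair.1) c.unpair.2, r2.good,
    r2.na hβ, poor, ?_, ?_, fun η hη => (r2.gp_most 1 hη).mono (Eventually.of_forall fun l => ?_),
    fun l => ((t2 l).tight r2.good.val.big).mono fun c => ⟨c, Eventually.of_forall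
      fun n p _ hp => labk_mono hp (labk_res_TW ((A n).res (T1 n)) (hT1 n) p l)⟩⟩
  · filter_upwards [hc, ev] with n b0 b1 t ht
    exact labk_rel (v1.ok n) b0 b1.2 (hT1 n ht)
  · filter_upwards [hc, ev] with n b0 b1 a ha b hb c e
    exact labk_geo (v1.ok n) b0 b1.2 (lines_mono (hT1 n) ha) (lines_mono (hT1 n) hb) e
  · filter_upwards [hc, ev, hβ] with n b0 b1 b2 p _ hp i B hB t ht j hj
    exact labk_span (v1.ok n) b0 b1.2 (hT1 n) b2 hp i B hB ht hj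

end Pool.Agent.MP_38296a_co.H21

end FileLabK

end
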