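import Pool.Agent.MP_38296a_co.H21.URa
import Pool.Agent.MP_38296a_co.H21.URc
import Pool.Agent.MP_38296a_co.H21.URd

-- part MP_38296a_co.H21.URb
section

section FileUR4

set_option autoImplicit false

namespace Pool.Agent.MP_38296a_co.H21.URn

open Finset Filter Classical Topology

/-- the cells whose box contains a given point -/
noncomputable def u4_B (s : ℝ) (lo hi : ℤ) (p : Pt) : Finset (ℤ × ℤ) :=
  Ioc (⌊p.1 / s⌋ - hi) (⌊p.1 / s⌋ - lo) ×ˢ Ioc (⌊p.2 / s⌋ - hi) (⌊p.2 / s⌋ - lo)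

theorem u4_mem (s : ℝ) (lo hi : ℤ) (p : Pt) (n : ℤ × ℤ) : n ∈ u4_B s lo hi p ↔
    (n.1 + lo ≤ ⌊p.1 / s⌋ ∧ ⌊p.1 / s⌋ < n.1 + hi ∧ n.2 + lo ≤ ⌊p.2 / s⌋ ∧
      ⌊p.2 / s⌋ < n.2 + hi) := by
  simp only [u4_B, mem_product, mem_Ioc]
  omega

theorem u4_box (s : ℝ) (lo hi : ℤ) (p : Pt) (n : ℤ × ℤ) :
    box s n lo hi p = if n ∈ u4_B s lo hi p then 1 else 0 := by
  unfold box ind
  by_cases h : n ∈ u4_B s lo hi p
  · rw [if_pos h, if_pos ((u4_mem _ _ _ _ _).1 h)]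
  · rw [if_neg h, if_neg fun h' => h ((u4_mem _ _ _ _ _).2 h')]

theorem u4_box_nonneg (s : ℝ) (lo hi : ℤ) (p : Pt) (n : ℤ × ℤ) : 0 ≤ box s n lo hi p := by
  rw [u4_box]; split_ifs <;> norm_num

theorem u4_card (s : ℝ) {lo hi : ℤ} (h : lo ≤ hi) (p : Pt) :
    (#(u4_B s lo hi p) : ℝ) = ((hi : ℝ) - lo) ^ 2 := by
  have e : ∀ x : ℤ, (#(Ioc (x - hi) (x - lo)) : ℝ) = (hi : ℝ) - lo := by
    intro x
    have h1 : (#(Ioc (x - hi) (x - lo)) : ℤ) = x - lo - (x - hi) :=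
      Int.card_Ioc_of_le _ _ (by omega)
    have h2 : ((#(Ioc (x - hi) (x - lo)) : ℤ) : ℝ) = ((x - lo - (x - hi) : ℤ) : ℝ) := by rw [h1]
    push_cast at h2
    rw [h2]; ring
  rw [u4_B, card_product]
  push_cast
  rw [e, e]; ring

theorem u4_one {s x : ℝ} (hs : 0 < s) {n : ℤ} {m : ℕ} (h1 : n + 0 ≤ ⌊x / s⌋)
    (h2 : ⌊x / s⌋ < n + m) : |x - n * s| ≤ m * s := by
  have a1 : (n : ℝ) ≤ x / s := by
    rw [← Int.le_floor]; omega
  have a2 : x / s < ((n + m : ℤ) : ℝ) := Int.floor_lt.1 h2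
  push_cast at a2
  rw [le_div_iff₀ hs] at a1
  rw [div_lt_iff₀ hs] at a2
  rw [abs_le]
  have : (0 : ℝ) ≤ m * s := by positivity
  constructor <;> nlinarith

theorem u4_corner {s : ℝ} (hs : 0 < s) {m : ℕ} {p : Pt} {n : ℤ × ℤ}
    (h : n ∈ u4_B s 0 m p) : dist p ((n.1 * s, n.2 * s) : Pt) ≤ m * s := by
  rw [u4_mem] at h
  rw [Prod.dist_eq, max_le_iff, Real.dist_eq, Real.dist_eq]
  exact ⟨u4_one hs h.1 h.2.1, u4_one hs h.2.2.1 h.2.2.2⟩

/-- weight of a cell -/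
noncomputable def u4_w (f : Pt → ℝ) (e s : ℝ) (n : ℤ × ℤ) : ℝ :=
  max 0 (f ((n.1 * s, n.2 * s) : Pt) - e)

theorem u4_w_mem {f : Pt → ℝ} (h1 : ∀ p, f p ≤ 1) {e : ℝ} (he : 0 ≤ e) (s : ℝ) (n : ℤ × ℤ) :
    0 ≤ u4_w f e s n ∧ u4_w f e s n ≤ 1 := by
  refine ⟨le_max_left _ _, max_le zero_le_one ?_⟩
  have := h1 ((n.1 * s, n.2 * s) : Pt)
  linarith

theorem u4_up {f : Pt → ℝ} (h0 : ∀ p, 0 ≤ f p) {e s : ℝ} (hs : 0 < s) {m : ℕ}
    (ho : ∀ x p, dist p x ≤ m * s → |f p - f x| ≤ e) (J : Finset (ℤ × ℤ)) (p : Pt) :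
    ∑ n ∈ J, u4_w f e s n * box s n 0 m p ≤ (m : ℝ) ^ 2 * f p := by
  have h1 : ∀ n ∈ J, u4_w f e s n * box s n 0 m p ≤ if n ∈ u4_B s 0 m p then f p else 0 := by
    intro n _
    rw [u4_box]
    split_ifs with hn
    · rw [mul_one]
      have := abs_le.1 (ho _ _ (u4_corner hs hn))
      exact max_le (h0 p) (by linarith [this.1])
    · simp
  refine (sum_le_sum h1).trans ?_
  rw [sum_ite_mem, sum_const, nsmul_eq_mul]
  refine mul_le_mul_of_nonneg_right ?_ (h0 p)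
  have h2 : #(J ∩ u4_B s 0 m p) ≤ #(u4_B s 0 m p) := card_le_card inter_subset_right
  have h3 := u4_card s (lo := 0) (hi := m) (by positivity) p
  have h4 : (#(J ∩ u4_B s 0 m p) : ℝ) ≤ #(u4_B s 0 m p) := by exact_mod_cast h2
  rw [h3] at h4
  simpa using h4

theorem u4_low {f : Pt → ℝ} {e s : ℝ} (hs : 0 < s) {m : ℕ} (hm : 2 ≤ m)
    (ho : ∀ x p, dist p x ≤ m * s → |f p - f x| ≤ e) (J : Finset (ℤ × ℤ)) (p : Pt)
    (hJ : u4_B s 1 (m - 1) p ⊆ J) :
    ((m : ℝ) - 2) ^ 2 * (f p - 2 * e) ≤ ∑ n ∈ J, u4_w f e s n * box s n 1 (m - 1) p := by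
  have h1 : ∑ n ∈ u4_B s 1 (m - 1) p, u4_w f e s n * box s n 1 (m - 1) p ≤
      ∑ n ∈ J, u4_w f e s n * box s n 1 (m - 1) p :=
    sum_le_sum_of_subset_of_nonneg hJ fun n _ _ =>
      mul_nonneg (le_max_left _ _) (u4_box_nonneg _ _ _ _ _)
  refine le_trans ?_ h1
  have h2 : ∀ n ∈ u4_B s 1 (m - 1) p, f p - 2 * e ≤ u4_w f e s n * box s n 1 (m - 1) p := by
    intro n hn
    rw [u4_box, if_pos hn, mul_one]
    have hn' : n ∈ u4_B s 0 m p := by
      rw [u4_mem] at hn ⊢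
      omega
    have := abs_le.1 (ho _ _ (u4_corner hs hn'))
    exact le_max_of_le_right (by linarith [this.2])
  refine le_trans (le_of_eq ?_) (card_nsmul_le_sum _ _ _ h2)
  rw [nsmul_eq_mul, u4_card s (by omega) p]
  push_cast
  ring

/-- dyadic piece -/
noncomputable def u4_g (a r : ℝ) : ℝ := clp (r / a * 2 - 1) - clp (r / (2 * a) * 2 - 1)

theorem u4_clp_mono {x y : ℝ} (h : x ≤ y) : clp x ≤ clp y :=
  max_le_max le_rfl (min_le_min le_rfl h)

theorem u4_g_mem {a r : ℝ} (ha : 0 < a) (hr : 0 ≤ r) : 0 ≤ u4_g a r ∧ u4_g a r ≤ 1 := by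
  have h1 : r / (2 * a) * 2 = r / a := by field_simp
  have h2 : 0 ≤ r / a := by positivity
  unfold u4_g
  rw [h1]
  have := u4_clp_mono (x := r / a - 1) (y := r / a * 2 - 1) (by linarith)
  have h3 := clp_mem (r / a - 1)
  have h4 := clp_mem (r / a * 2 - 1)
  constructor <;> linarith [h3.1, h4.2]

theorem u4_g_pos {a r : ℝ} (ha : 0 < a) (h : u4_g a r ≠ 0) : a / 2 < r ∧ r < 2 * a := by
  have h1 : r / (2 * a) * 2 = r / a := by field_simp
  unfold u4_g at h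
  rw [h1] at h
  constructor
  · by_contra hc
    push Not at hc
    have : r / a ≤ 1 / 2 := by rw [div_le_iff₀ ha]; linarith
    rw [clp_zero (by linarith), clp_zero (by linarith)] at h
    exact h (by ring)
  · by_contra hc
    push Not at hc
    have : 2 ≤ r / a := by rw [le_div_iff₀ ha]; linarith
    rw [clp_one (by linarith), clp_one (by linarith)] at h
    exact h (by ring)

theorem u4_g_lip {a : ℝ} (ha : 0 < a) (r r' : ℝ) : |u4_g a r - u4_g a r'| ≤ 3 * |r - r'| / a := by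
  have h1 : ∀ r : ℝ, r / (2 * a) * 2 = r / a := fun r => by field_simp
  unfold u4_g
  rw [h1, h1]
  have e1 := clp_lip (r / a * 2 - 1) (r' / a * 2 - 1)
  have e2 := clp_lip (r / a - 1) (r' / a - 1)
  have f1 : |r / a * 2 - 1 - (r' / a * 2 - 1)| = 2 * (|r - r'| / a) := by
    rw [show r / a * 2 - 1 - (r' / a * 2 - 1) = 2 * ((r - r') / a) by ring, abs_mul, abs_div,
      abs_of_pos ha, abs_two]
  have f2 : |r / a - 1 - (r' / a - 1)| = |r - r'| / a := by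
    rw [show r / a - 1 - (r' / a - 1) = (r - r') / a by ring, abs_div, abs_of_pos ha]
  rw [f1] at e1
  rw [f2] at e2
  have e3 := abs_le.1 e1
  have e4 := abs_le.1 e2
  rw [abs_le, mul_div_assoc]
  constructor <;> linarith [e3.1, e3.2, e4.1, e4.2]

theorem u4_rad_lip {ρ : Pt → ℝ} (h : Rad ρ) (p q : Pt) : |ρ p - ρ q| ≤ dist p q := by
  have h1 := h.2 p q
  have h2 := h.2 q p
  rw [dist_comm] at h2
  rw [abs_le]
  constructor <;> linarith

theorem u4_osc {ρ Φ : Pt → ℝ} (hρ : Rad ρ) (hΦ : Adm ρ Φ) {a M : ℝ} (ha : 0 < a) (hM : 0 < M)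
    (x p : Pt) (h : dist p x ≤ a / M) :
    |Φ p * u4_g a (ρ p) - Φ x * u4_g a (ρ x)| ≤ 5 / M := by
  have e : Φ p * u4_g a (ρ p) - Φ x * u4_g a (ρ x) =
      Φ p * (u4_g a (ρ p) - u4_g a (ρ x)) - (Φ x - Φ p) * u4_g a (ρ x) := by ring
  have h1 : |Φ p * (u4_g a (ρ p) - u4_g a (ρ x))| ≤ 3 / M := by
    rw [abs_mul, abs_of_nonneg (hΦ.1 p).1]
    have k1 := u4_g_lip ha (ρ p) (ρ x)
    have k2 := u4_rad_lip hρ p x
    have k3 : 3 * |ρ p - ρ x| / a ≤ 3 / M := by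
      rw [div_le_iff₀ ha]
      have : 3 / M * a = 3 * (a / M) := by ring
      linarith
    have k4 := mul_le_mul (hΦ.1 p).2 (k1.trans k3) (abs_nonneg _) zero_le_one
    linarith
  have h2 : |(Φ x - Φ p) * u4_g a (ρ x)| ≤ 2 / M := by
    by_cases h0 : u4_g a (ρ x) = 0
    · rw [h0, mul_zero, abs_zero]; positivity
    · have k1 := (u4_g_pos ha h0).1
      have k2 := hΦ.2 x p
      rw [dist_comm] at k2
      have k3 := u4_g_mem ha (hρ.1 x).le
      rw [abs_mul, abs_of_nonneg k3.1]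
      have k4 : a / 2 * |Φ x - Φ p| ≤ a / M :=
        (mul_le_mul_of_nonneg_right k1.le (abs_nonneg _)).trans (k2.trans h)
      have k5 : |Φ x - Φ p| ≤ 2 / M := by
        have : a / M = a / 2 * (2 / M) := by ring
        rw [this] at k4
        exact le_of_mul_le_mul_left k4 (by positivity)
      have k6 := mul_le_mul k5 k3.2 k3.1 (by positivity)
      linarith
  rw [e]
  refine (abs_sub _ _).trans ?_
  have : 5 / M = 3 / M + 2 / M := by ring
  linarith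

theorem u4_count {A : Finset ℕ} {q : ℕ} {s0 : ℝ} (hs : 0 < s0)
    (h : ∀ k ∈ A, ∀ k' ∈ A, 2 ^ k' * s0 < 2 ^ q * (2 ^ k * s0)) : #A ≤ q := by
  rcases A.eq_empty_or_nonempty with rfl | hne
  · simp
  have h1 : A ⊆ Ico (A.min' hne) (A.min' hne + q) := by
    intro k hk
    rw [mem_Ico]
    refine ⟨A.min'_le k hk, ?_⟩
    have h2 := h _ (A.min'_mem hne) k hk
    rw [← mul_assoc, ← pow_add] at h2
    have h3 : (2 : ℝ) ^ k < 2 ^ (q + A.min' hne) := lt_of_mul_lt_mul_right h2 hs.le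
    have h4 := (pow_lt_pow_iff_right₀ (by norm_num : (1 : ℝ) < 2)).1 h3
    omega
  simpa using card_le_card h1

theorem u4_tel (s0 r : ℝ) (N : ℕ) : ∑ k ∈ range N, u4_g (2 ^ k * s0) r =
    clp (r / s0 * 2 - 1) - clp (r / (2 ^ N * s0) * 2 - 1) := by
  induction N with
  | zero => simp
  | succ N ih =>
    rw [sum_range_succ, ih, u4_g, show (2 : ℝ) * (2 ^ N * s0) = 2 ^ (N + 1) * s0 by ring]
    ring

theorem u4_near {s x y : ℝ} (hs : 0 < s) {m : ℕ} {n : ℤ} (hxy : |x - y| ≤ m ^ 2 * s)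
    (h1 : n + 1 ≤ ⌊x / s⌋) (h2 : ⌊x / s⌋ < n + (m - 1)) :
    n ∈ Icc (⌊y / s⌋ - (2 * m ^ 2 + 1 : ℕ)) (⌊y / s⌋ + (2 * m ^ 2 + 1 : ℕ)) := by
  have a := abs_le.1 hxy
  have b1 : x / s ≤ y / s + ((m ^ 2 : ℕ) : ℤ) := by
    push_cast
    rw [div_le_iff₀ hs, add_mul, div_mul_cancel₀ _ hs.ne']
    linarith [a.2]
  have b2 : y / s ≤ x / s + ((m ^ 2 : ℕ) : ℤ) := by
    push_cast
    rw [div_le_iff₀ hs, add_mul, div_mul_cancel₀ _ hs.ne']
    linarith [a.1]
  have c1 := Int.floor_le_floor b1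
  have c2 := Int.floor_le_floor b2
  rw [Int.floor_add_intCast] at c1 c2
  have d : m ≤ m ^ 2 := by nlinarith
  rw [mem_Icc]
  generalize m ^ 2 = M at *
  push_cast
  omega

/-- the cells used at the scale `a` -/
noncomputable def u4_J (ρ : Pt → ℝ) (Y : Finset Pt) (m : ℕ) (a : ℝ) : Finset (ℤ × ℤ) :=
  (Y.filter fun y => ρ y / 3 ≤ a ∧ a ≤ 3 * ρ y).biUnion fun y =>
    Icc (⌊y.1 / (a / m ^ 2)⌋ - (2 * m ^ 2 + 1 : ℕ)) (⌊y.1 / (a / m ^ 2)⌋ + (2 * m ^ 2 + 1 : ℕ)) ×ˢ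
      Icc (⌊y.2 / (a / m ^ 2)⌋ - (2 * m ^ 2 + 1 : ℕ)) (⌊y.2 / (a / m ^ 2)⌋ + (2 * m ^ 2 + 1 : ℕ))

theorem u4_J_card (ρ : Pt → ℝ) (Y : Finset Pt) (m : ℕ) (a : ℝ) : #(u4_J ρ Y m a) ≤
    #(Y.filter fun y => ρ y / 3 ≤ a ∧ a ≤ 3 * ρ y) * (4 * m ^ 2 + 3) ^ 2 := by
  refine card_biUnion_le_card_mul _ _ _ fun y _ => ?_
  have e : ∀ x : ℤ, #(Icc (x - (2 * m ^ 2 + 1 : ℕ)) (x + (2 * m ^ 2 + 1 : ℕ))) =
      4 * m ^ 2 + 3 := by
    intro x
    rw [Int.card_Icc]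
    generalize m ^ 2 = M
    push_cast
    omega
  rw [card_product, e, e, sq (4 * m ^ 2 + 3)]

theorem u4_J_sum {ρ : Pt → ℝ} (hρ : Rad ρ) (Y : Finset Pt) (m N : ℕ) {s0 : ℝ} (hs : 0 < s0) :
    ∑ k ∈ range N, #(u4_J ρ Y m (2 ^ k * s0)) ≤ 4 * (4 * m ^ 2 + 3) ^ 2 * #Y := by
  refine (sum_le_sum fun k _ => u4_J_card ρ Y m _).trans ?_
  rw [← sum_mul]
  have h1 : ∑ k ∈ range N, #(Y.filter fun y => ρ y / 3 ≤ 2 ^ k * s0 ∧ 2 ^ k * s0 ≤ 3 * ρ y) =
      ∑ y ∈ Y, #((range N).filter fun k => ρ y / 3 ≤ 2 ^ k * s0 ∧ 2 ^ k * s0 ≤ 3 * ρ y) := by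
    simp only [card_filter]
    exact sum_comm
  have h2 : ∀ y ∈ Y,
      #((range N).filter fun k => ρ y / 3 ≤ 2 ^ k * s0 ∧ 2 ^ k * s0 ≤ 3 * ρ y) ≤ 4 := by
    intro y _
    refine u4_count hs fun k hk k' hk' => ?_
    have a1 := (mem_filter.1 hk).2.1
    have a2 := (mem_filter.1 hk').2.2
    have a3 := hρ.1 y
    linarith
  have h3 := sum_le_card_nsmul _ _ _ h2
  rw [h1]
  rw [smul_eq_mul] at h3
  calc _ ≤ #Y * 4 * (4 * m ^ 2 + 3) ^ 2 := Nat.mul_le_mul_right _ h3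
    _ = _ := by ring

theorem u4_sub_J {ρ : Pt → ℝ} (hρ : Rad ρ) {Y : Finset Pt} {m : ℕ} (hm : 0 < m) {a : ℝ}
    (ha : 0 < a) {p y : Pt} (hy : y ∈ Y) (hd : 3 * dist p y ≤ ρ p) (h1 : a / 2 < ρ p)
    (h2 : ρ p < 2 * a) : u4_B (a / m ^ 2) 1 (m - 1) p ⊆ u4_J ρ Y m a := by
  intro n hn
  rw [u4_mem] at hn
  have hm' : (0 : ℝ) < m := by exact_mod_cast hm
  have hs : 0 < a / (m : ℝ) ^ 2 := by positivity
  have l := abs_le.1 (u4_rad_lip hρ p y)
  have e : (m : ℝ) ^ 2 * (a / m ^ 2) = a := by field_simp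
  have hd' : dist p y ≤ m ^ 2 * (a / m ^ 2) := by rw [e]; linarith
  rw [Prod.dist_eq, max_le_iff, Real.dist_eq, Real.dist_eq] at hd'
  refine mem_biUnion.2 ⟨y, mem_filter.2 ⟨hy, by linarith [l.1], by linarith [l.2]⟩, ?_⟩
  exact mem_product.2 ⟨u4_near hs hd'.1 hn.1 hn.2.1, u4_near hs hd'.2 hn.2.2.1 hn.2.2.2⟩

/-- the fractional covering -/
theorem u4_cover {ρ Φ : Pt → ℝ} (hρ : Rad ρ) (hΦ : Adm ρ Φ) {m : ℕ} (hm : 10 ≤ m)
    (V Y : Finset Pt) (hV : ∀ p ∈ V, ∃ y ∈ Y, 3 * dist p y ≤ ρ p) :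
    ∃ (N : ℕ) (s : ℕ → ℝ) (J : ℕ → Finset (ℤ × ℤ)) (w : ℕ → ℤ × ℤ → ℝ), (∀ k, 0 < s k) ∧
      (∀ k n, 0 ≤ w k n ∧ w k n ≤ 1) ∧
      ∑ k ∈ range N, #(J k) ≤ 4 * (4 * m ^ 2 + 3) ^ 2 * #Y ∧
      (∀ p, ∑ k ∈ range N, ∑ n ∈ J k, w k n * box (s k) n 0 m p ≤ (m : ℝ) ^ 2 * Φ p) ∧
      ∀ p ∈ V, ((m : ℝ) - 2) ^ 2 * (Φ p - 20 / m) ≤
        ∑ k ∈ range N, ∑ n ∈ J k, w k n * box (s k) n 1 (m - 1) p := by
  obtain ⟨s0, hs0, hlo⟩ : ∃ s0 : ℝ, 0 < s0 ∧ ∀ p ∈ V, s0 ≤ ρ p := by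
    rcases V.eq_empty_or_nonempty with rfl | hne
    · exact ⟨1, one_pos, by simp⟩
    · obtain ⟨q, _, hq⟩ := V.exists_min_image ρ hne
      exact ⟨ρ q, hρ.1 q, hq⟩
  obtain ⟨b, hb⟩ : ∃ b : ℕ, ∀ p ∈ V, ρ p ≤ 2 ^ b * s0 := by
    obtain ⟨B, hB⟩ := (V.image ρ).bddAbove
    obtain ⟨b, hb⟩ := pow_unbounded_of_one_lt (B / s0) (by norm_num : (1 : ℝ) < 2)
    refine ⟨b, fun p hp => ?_⟩
    rw [div_lt_iff₀ hs0] at hb
    exact (hB (mem_coe.2 (mem_image_of_mem ρ hp))).trans hb.le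
  have hm' : (10 : ℝ) ≤ m := by exact_mod_cast hm
  have hm0 : (0 : ℝ) < m := by linarith
  have ha : ∀ k : ℕ, (0 : ℝ) < 2 ^ k * s0 := fun k => by positivity
  have hs : ∀ k : ℕ, (0 : ℝ) < 2 ^ k * s0 / m ^ 2 := fun k => by positivity
  have hg : ∀ (k : ℕ) p, 0 ≤ u4_g (2 ^ k * s0) (ρ p) ∧ u4_g (2 ^ k * s0) (ρ p) ≤ 1 :=
    fun k p => u4_g_mem (ha k) (hρ.1 p).le
  have hf0 : ∀ (k : ℕ) p, 0 ≤ Φ p * u4_g (2 ^ k * s0) (ρ p) :=
    fun k p => mul_nonneg (hΦ.1 p).1 (hg k p).1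
  have hf1 : ∀ (k : ℕ) p, Φ p * u4_g (2 ^ k * s0) (ρ p) ≤ 1 :=
    fun k p => mul_le_one₀ (hΦ.1 p).2 (hg k p).1 (hg k p).2
  have ho : ∀ (k : ℕ) x p, dist p x ≤ m * (2 ^ k * s0 / m ^ 2) →
      |Φ p * u4_g (2 ^ k * s0) (ρ p) - Φ x * u4_g (2 ^ k * s0) (ρ x)| ≤ 5 / m := by
    intro k x p h
    refine u4_osc hρ hΦ (ha k) hm0 x p (h.trans (le_of_eq ?_))
    field_simp
  refine ⟨b + 1, fun k => 2 ^ k * s0 / m ^ 2, fun k => u4_J ρ Y m (2 ^ k * s0),
    fun k => u4_w (fun p => Φ p * u4_g (2 ^ k * s0) (ρ p)) (5 / m) (2 ^ k * s0 / m ^ 2), hs,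
    fun k n => u4_w_mem (hf1 k) (by positivity) _ n, u4_J_sum hρ Y m _ hs0, fun p => ?_,
    fun p hp => ?_⟩
  · refine (sum_le_sum fun k _ => u4_up (hf0 k) (hs k) (ho k) _ p).trans ?_
    rw [← mul_sum, ← mul_sum, u4_tel]
    refine mul_le_mul_of_nonneg_left ?_ (by positivity)
    have h1 := (clp_mem (ρ p / s0 * 2 - 1)).2
    have h2 := (clp_mem (ρ p / (2 ^ (b + 1) * s0) * 2 - 1)).1
    exact mul_le_of_le_one_right (hΦ.1 p).1 (by linarith)
  · obtain ⟨y, hy, hd⟩ := hV p hp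
    have h1 : ∀ k ∈ range (b + 1), ((m : ℝ) - 2) ^ 2 * (Φ p * u4_g (2 ^ k * s0) (ρ p) -
        10 / m * if u4_g (2 ^ k * s0) (ρ p) ≠ 0 then 1 else 0) ≤
        ∑ n ∈ u4_J ρ Y m (2 ^ k * s0), u4_w (fun p => Φ p * u4_g (2 ^ k * s0) (ρ p)) (5 / m)
          (2 ^ k * s0 / m ^ 2) n * box (2 ^ k * s0 / m ^ 2) n 1 (m - 1) p := by
      intro k _
      by_cases h0 : u4_g (2 ^ k * s0) (ρ p) ≠ 0
      · rw [if_pos h0, mul_one, show (10 : ℝ) / m = 2 * (5 / m) by ring]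
        have := u4_g_pos (ha k) h0
        exact u4_low (hs k) (by omega) (ho k) _ p
          (u4_sub_J hρ (by omega) (ha k) hy hd this.1 this.2)
      · rw [if_neg h0, not_not.1 h0]
        simp only [mul_zero, sub_zero]
        exact sum_nonneg fun n _ => mul_nonneg (le_max_left _ _) (u4_box_nonneg _ _ _ _ _)
    refine le_trans ?_ (sum_le_sum h1)
    rw [← mul_sum, sum_sub_distrib, ← mul_sum, ← mul_sum, u4_tel, sum_boole]
    refine mul_le_mul_of_nonneg_left ?_ (by positivity)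
    have e1 : clp (ρ p / s0 * 2 - 1) = 1 := by
      have : 1 ≤ ρ p / s0 := by rw [le_div_iff₀ hs0]; linarith [hlo p hp]
      exact clp_one (by linarith)
    have e2 : clp (ρ p / (2 ^ (b + 1) * s0) * 2 - 1) = 0 := by
      have : ρ p / (2 ^ (b + 1) * s0) ≤ 1 / 2 := by
        rw [div_le_iff₀ (ha _), pow_succ]; linarith [hb p hp]
      exact clp_zero (by linarith)
    have e3 : #((range (b + 1)).filter fun k => u4_g (2 ^ k * s0) (ρ p) ≠ 0) ≤ 2 := by
      refine u4_count hs0 fun k hk k' hk' => ?_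
      have a1 := (u4_g_pos (ha k) (mem_filter.1 hk).2).2
      have a2 := (u4_g_pos (ha k') (mem_filter.1 hk').2).1
      linarith
    have e4 : (#((range (b + 1)).filter fun k => u4_g (2 ^ k * s0) (ρ p) ≠ 0) : ℝ) ≤ 2 := by
      exact_mod_cast e3
    rw [e1, e2]
    have e5 := mul_le_mul_of_nonneg_left e4 (by positivity : (0 : ℝ) ≤ 10 / m)
    have e6 : (20 : ℝ) / m = 10 / m * 2 := by ring
    linarith

/-- Fractional covering. Fix `v ρ Φ S W` and the covering set `Y`. Let `s0 > 0` be at most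
`ρ (vt t)` for all `t ∈ S` and `ρ (vt t) ≤ 2 ^ b * s0`. Put `θ k r = clp (r / (2 ^ k * s0) * 2 - 1)`
(zero for `r ≤ 2 ^ (k - 1) s0`, one for `r ≥ 2 ^ k s0`) and `ψ k p = θ k (ρ p) - θ (k + 1) (ρ p) ≥ 0`
for `k ≤ b`; the sum telescopes: it is at most `1` everywhere and equal to `1` at the vertices of
`S`; `ψ k p > 0` forces `2 ^ k s0 / 2 < ρ p < 2 * 2 ^ k s0` (so at most two values of `k`), and
`|ψ k p - ψ k q| ≤ 3 dist p q / (2 ^ k s0)`. Mesh `s k = 2 ^ k s0 / m ^ 2`; a point `p` of the outer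
box `box (s k) n 0 m` is within `2 ^ k s0 / m` of the corner `x = (n.1 * s k, n.2 * s k)`.
Weight `w k n = max 0 (Φ x * ψ k x - 5 / m) ∈ [0, 1]`; on the outer box
`w ≤ Φ p * ψ k p ≤ w + 10 / m` (if `ψ k x = 0` only the Lipschitz bound of `ψ k` is needed,
otherwise `ρ x > 2 ^ k s0 / 2` and `Adm` at `x`). A point lies in exactly `m ^ 2` outer and
`(m - 2) ^ 2` inner boxes of a given mesh. Index set `J`: pairs `(k, n)` such that for some
`y ∈ Y` one has `ρ y / 3 ≤ 2 ^ k s0 ≤ 3 ρ y` (at most four `k`) and `n` is within `2 m ^ 2 + 1`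
of the cell of `y`; it contains every `(k, n)` with `ψ k (vt t) > 0` and `vt t` in the inner box,
`t ∈ S`, and `#J ≤ 4 (4 m ^ 2 + 3) ^ 2 W`. Sum `USq` over `J` with the weights `w`:
`(m - 2) ^ 2 (TT S Φ - 20 / m * #S) ≤ (1 + 1 / m) P m ^ 2 LL Φ + K #J`, and
`(1 + 1 / m) m ^ 2 ≤ (1 + 30 / m) (m - 2) ^ 2`. -/
theorem ub_of_usq {m : ℕ} (hm : 10 ≤ m) : ∃ c : ℝ, 0 ≤ c ∧ ∀ (ι : Type) (F : Fam ι) (P K : ℝ),
    0 ≤ P → 0 ≤ K → USq F m ((1 + 1 / m) * P) K → UB F P (30 / m) (c * K) := by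
  refine ⟨4 * (4 * (m : ℝ) ^ 2 + 3) ^ 2, by positivity, ?_⟩
  intro ι F P K hP hK hU v hv ρ Φ S W hρ hΦ hS hC
  obtain ⟨Y, hY, hC⟩ := hC
  obtain ⟨N, s, J, w, hs, hw, hJ, hup, hlow⟩ := u4_cover hρ hΦ hm (S.image (vt F)) Y (by
    intro p hp
    obtain ⟨t, ht, rfl⟩ := mem_image.1 hp
    exact hC t ht)
  have hm' : (10 : ℝ) ≤ m := by exact_mod_cast hm
  have hm0 : (0 : ℝ) < m := by linarith
  have hL : 0 ≤ LL F v Φ := LL_nonneg F hv fun p => (hΦ.1 p).1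
  have h1 : ((m : ℝ) - 2) ^ 2 * (TT F S Φ - 20 / m * #S) ≤
      TT F S fun p => ∑ k ∈ range N, ∑ n ∈ J k, w k n * box (s k) n 1 (m - 1) p := by
    refine le_trans (le_of_eq ?_) (TT_mono F S (Φ := fun p => ((m : ℝ) - 2) ^ 2 * (Φ p - 20 / m))
      fun t ht => hlow _ (mem_image_of_mem _ ht))
    rw [TT_smul, TT_sub]
    simp [TT, mul_comm]
  have h2 : (TT F S fun p => ∑ k ∈ range N, ∑ n ∈ J k, w k n * box (s k) n 1 (m - 1) p) ≤
      ∑ k ∈ range N, ∑ n ∈ J k, ((1 + 1 / m) * P * (w k n * LL F v (box (s k) n 0 m)) + K) := by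
    rw [TT_sum]
    refine sum_le_sum fun k _ => ?_
    rw [TT_sum]
    refine sum_le_sum fun n _ => ?_
    rw [TT_smul]
    have a1 := TT_le_of_subset F hS (Φ := box (s k) n 1 (m - 1)) fun p => u4_box_nonneg _ _ _ _ _
    have a2 := mul_le_mul_of_nonneg_left (a1.trans (hU v hv (s k) n (hs k))) (hw k n).1
    have a3 := mul_le_of_le_one_left hK (hw k n).2
    calc _ ≤ _ := a2
      _ = (1 + 1 / m) * P * (w k n * LL F v (box (s k) n 0 m)) + w k n * K := by ring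
      _ ≤ _ := by linarith
  have h3 : ∑ k ∈ range N, ∑ n ∈ J k, w k n * LL F v (box (s k) n 0 m) ≤
      (m : ℝ) ^ 2 * LL F v Φ := by
    rw [← LL_smul]
    refine le_trans (le_of_eq ?_) (LL_mono F hv hup)
    rw [LL_sum]
    refine sum_congr rfl fun k _ => ?_
    rw [LL_sum]
    exact sum_congr rfl fun n _ => (LL_smul F v _ _).symm
  have h4 : ∑ k ∈ range N, ∑ n ∈ J k, ((1 + 1 / m) * P * (w k n * LL F v (box (s k) n 0 m)) + K)
      = (1 + 1 / m) * P * (∑ k ∈ range N, ∑ n ∈ J k, w k n * LL F v (box (s k) n 0 m)) +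
        (∑ k ∈ range N, #(J k) : ℕ) * K := by
    simp only [sum_add_distrib, mul_sum, sum_const, nsmul_eq_mul, Nat.cast_sum, sum_mul]
  have h5 : ((∑ k ∈ range N, #(J k) : ℕ) : ℝ) ≤ 4 * (4 * (m : ℝ) ^ 2 + 3) ^ 2 * W := by
    have : ((∑ k ∈ range N, #(J k) : ℕ) : ℝ) ≤ 4 * (4 * (m : ℝ) ^ 2 + 3) ^ 2 * #Y := by
      exact_mod_cast hJ
    exact this.trans (mul_le_mul_of_nonneg_left hY (by positivity))
  have hW : 0 ≤ W := le_trans (Nat.cast_nonneg _) hY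
  have h6 : (1 + 1 / (m : ℝ)) * m ^ 2 ≤ (1 + 30 / m) * (m - 2) ^ 2 := by
    have e1 : (1 + 1 / (m : ℝ)) * m ^ 2 = m ^ 2 + m := by field_simp
    have e2 : (1 + 30 / (m : ℝ)) * (m - 2) ^ 2 = m ^ 2 + 26 * m - 116 + 120 / m := by
      field_simp; ring
    have e3 : (0 : ℝ) ≤ 120 / m := by positivity
    rw [e1, e2]; linarith
  have h7 : (1 : ℝ) ≤ (m - 2) ^ 2 := by nlinarith
  have h8 := mul_le_mul_of_nonneg_left h3 (by positivity : (0 : ℝ) ≤ (1 + 1 / m) * P)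
  have h9 := mul_le_mul_of_nonneg_right h5 hK
  have h10 := mul_le_mul_of_nonneg_right h6 (mul_nonneg hP hL)
  have h11 : 0 ≤ 4 * (4 * (m : ℝ) ^ 2 + 3) ^ 2 * K * W := by positivity
  have h12 := mul_le_mul_of_nonneg_right h7 h11
  have h13 : ((m : ℝ) - 2) ^ 2 * (TT F S Φ - 20 / m * #S) ≤ ((m : ℝ) - 2) ^ 2 *
      ((1 + 30 / m) * P * LL F v Φ + 4 * (4 * (m : ℝ) ^ 2 + 3) ^ 2 * K * W) := by
    rw [h4] at h2
    nlinarith
  have h14 := le_of_mul_le_mul_left h13 (by linarith)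
  have h15 : 20 / (m : ℝ) * #S ≤ 30 / m * #S :=
    mul_le_mul_of_nonneg_right (by gcongr; norm_num) (Nat.cast_nonneg _)
  linarith

end Pool.Agent.MP_38296a_co.H21.URn

end FileUR4

section FileUR5

set_option autoImplicit false

namespace Pool.Agent.MP_38296a_co.H21.URn

open Finset Filter Classical Topology

/-- grid points of mesh `h` -/
def u5_z (h : ℝ) (y : ℤ × ℤ) : Pt := (y.1 * h, y.2 * h)

theorem u5_sqi_ne {z p : Pt} {ρ : ℝ} (h : sqi z ρ p ≠ 0) : dist p z ≤ ρ := by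
  by_contra hc
  exact h (if_neg hc)

theorem u5_sqi_one {z p : Pt} {ρ : ℝ} (h : dist p z ≤ ρ) : sqi z ρ p = 1 := if_pos h

theorem u5_int {h x : ℝ} (hh : 0 < h) {n : ℕ} {k : ℤ} (hk : |x - k * h| ≤ n * h) :
    k ∈ Icc ⌈x / h - n⌉ (⌈x / h - n⌉ + 2 * n) := by
  obtain ⟨h1, h2⟩ := abs_le.1 hk
  have e1 : x / h - n ≤ k := by
    rw [sub_le_iff_le_add, div_le_iff₀ hh]
    linarith
  have e2 : (k : ℝ) - n ≤ x / h := by
    rw [le_div_iff₀ hh]
    linarith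
  refine mem_Icc.2 ⟨Int.ceil_le.2 e1, ?_⟩
  have e3 := Int.le_ceil (x / h - n)
  have e4 : (k : ℝ) ≤ (⌈x / h - n⌉ + 2 * n : ℤ) := by
    push_cast
    linarith
  exact_mod_cast e4

theorem u5_overlap {h : ℝ} (hh : 0 < h) (Y : Finset (ℤ × ℤ)) (n : ℕ) {ρ : ℝ} (hρ : ρ ≤ n * h)
    (p : Pt) : ∑ y ∈ Y, sqi (u5_z h y) ρ p ≤ (2 * n + 1) ^ 2 := by
  set B : Finset (ℤ × ℤ) := Icc ⌈p.1 / h - n⌉ (⌈p.1 / h - n⌉ + 2 * n) ×ˢ
    Icc ⌈p.2 / h - n⌉ (⌈p.2 / h - n⌉ + 2 * n) with hB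
  have hc : #B = (2 * n + 1) ^ 2 := by
    rw [hB, card_product, Int.card_Icc, Int.card_Icc, sq]
    congr 1 <;> omega
  calc ∑ y ∈ Y, sqi (u5_z h y) ρ p = ∑ y ∈ Y with y ∈ B, sqi (u5_z h y) ρ p := by
        refine (sum_filter_of_ne fun y _ hy => ?_).symm
        have h1 := (u5_sqi_ne hy).trans hρ
        rw [Prod.dist_eq, max_le_iff, Real.dist_eq, Real.dist_eq] at h1
        exact mem_product.2 ⟨u5_int hh h1.1, u5_int hh h1.2⟩
    _ ≤ ∑ y ∈ B, sqi (u5_z h y) ρ p :=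
        sum_le_sum_of_subset_of_nonneg (fun y hy => (mem_filter.1 hy).2)
          fun y _ _ => (sqi_mem _ _ _).1
    _ ≤ #B • (1 : ℝ) := sum_le_card_nsmul _ _ _ fun y _ => (sqi_mem _ _ _).2
    _ = _ := by rw [hc]; simp

theorem u5_adm {α : Type} (Y : Finset α) (z : α → Pt) {r D : ℝ} (hr : 0 < r) (hD : 0 < D)
    (h : ∀ p, ∑ y ∈ Y, sqi (z y) (2 * r) p ≤ D) :
    Adm (fun _ => r) fun p => 1 / (2 * D) * ∑ y ∈ Y, bump (z y) r p := by
  have hb : ∀ y p, bump (z y) r p ≤ sqi (z y) (2 * r) p := fun y =>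
    bump_le_sqi hr (by rw [dist_self, zero_add])
  refine ⟨fun p => ⟨mul_nonneg (by positivity) (sum_nonneg fun y _ => (bump_mem _ _ _).1), ?_⟩,
    fun p q => ?_⟩
  · have h1 : ∑ y ∈ Y, bump (z y) r p ≤ D := (sum_le_sum fun y _ => hb y p).trans (h p)
    rw [one_div, inv_mul_le_iff₀ (by positivity)]
    linarith
  · have h1 : ∀ y, r * |bump (z y) r p - bump (z y) r q| ≤
        dist p q * (sqi (z y) (2 * r) p + sqi (z y) (2 * r) q) := by
      intro y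
      have h2 := (adm_bump (z y) hr).2 p q
      have hd := dist_nonneg (x := p) (y := q)
      by_cases hp : dist p (z y) ≤ 2 * r
      · rw [u5_sqi_one hp]
        have := mul_nonneg hd (sqi_mem (z y) (2 * r) q).1
        linarith
      by_cases hq : dist q (z y) ≤ 2 * r
      · rw [u5_sqi_one hq]
        have := mul_nonneg hd (sqi_mem (z y) (2 * r) p).1
        linarith
      rw [bump_zero hr (not_le.1 hp).le, bump_zero hr (not_le.1 hq).le, sub_self, abs_zero,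
        mul_zero]
      exact mul_nonneg hd (add_nonneg (sqi_mem _ _ _).1 (sqi_mem _ _ _).1)
    have h3 : r * |∑ y ∈ Y, bump (z y) r p - ∑ y ∈ Y, bump (z y) r q| ≤ dist p q * (2 * D) := by
      rw [← sum_sub_distrib]
      calc _ ≤ r * ∑ y ∈ Y, |bump (z y) r p - bump (z y) r q| :=
            mul_le_mul_of_nonneg_left (abs_sum_le_sum_abs _ _) hr.le
        _ ≤ ∑ y ∈ Y, dist p q * (sqi (z y) (2 * r) p + sqi (z y) (2 * r) q) := by
            rw [mul_sum]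
            exact sum_le_sum fun y _ => h1 y
        _ ≤ _ := by
            rw [← mul_sum, sum_add_distrib]
            exact mul_le_mul_of_nonneg_left (by linarith [h p, h q]) dist_nonneg
    rw [← mul_sub, abs_mul, abs_of_pos (by positivity : 0 < 1 / (2 * D)), mul_left_comm, one_div,
      inv_mul_le_iff₀ (by positivity), mul_comm (2 * D)]
    exact h3

section Fam
variable {ι : Type} {F : Fam ι} {v : Fin 3 → ℝ} {P κ K : ℝ} {S : Finset (Tri ι)}

theorem u5_TT_const (F : Fam ι) (S : Finset (Tri ι)) (c : ℝ) : TT F S (fun _ => c) = c * #S := by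
  rw [TT, sum_const, nsmul_eq_mul, mul_comm]

theorem u5_TT_nonneg (F : Fam ι) (S : Finset (Tri ι)) {Φ : Pt → ℝ} (h : ∀ p, 0 ≤ Φ p) :
    0 ≤ TT F S Φ := sum_nonneg fun _ _ => h _

/-- the upper bound for one bump -/
theorem u5_ub (hv : Wt v) (hub : UB F P κ K) (hS : S ⊆ F.T) (z : Pt) {ρ : ℝ} (hρ : 0 < ρ) :
    TT F S (bump z ρ) ≤
      (1 + κ) * P * LL F v (bump z ρ) + κ * TT F S (sqi z (2 * ρ)) + K * 169 := by
  have h1 := hub v hv (fun _ => ρ) (bump z ρ) {t ∈ S | dist (vt F t) z ≤ 2 * ρ} _ (rad_const hρ)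
    (adm_bump z hρ) ((filter_subset _ _).trans hS)
    (cov_const F (z := z) (R := 2 * ρ) (N := 6) (by positivity) (by norm_num)
      (fun t ht => (mem_filter.1 ht).2) fun t _ => by push_cast; linarith)
  rw [TT_eq_of_subset F (filter_subset _ _) fun t ht ht' => bump_zero hρ (by
    by_contra hc
    exact ht' (mem_filter.2 ⟨ht, (not_le.1 hc).le⟩))] at h1
  have h2 : (#{t ∈ S | dist (vt F t) z ≤ 2 * ρ} : ℝ) = TT F S (sqi z (2 * ρ)) := by
    rw [TT, card_filter]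
    push_cast
    exact sum_congr rfl fun t _ => by unfold sqi ind; congr
  rw [h2] at h1
  norm_num at h1 ⊢
  exact h1

/-- the three sums -/
theorem u5_sums {α : Type} (Y : Finset α) (z : α → Pt) {r D W : ℝ} {χ : Pt → ℝ} (hv : Wt v)
    (hP : 0 < P) (hκ : 0 < κ) (hκ1 : κ ≤ 1 / 2) (hub : UB F P κ K) (hS : S ⊆ F.T) (hr : 0 < r)
    (hD : 0 < D) (h : ∀ p, ∑ y ∈ Y, sqi (z y) (4 * r) p ≤ D) (hχ : Adm (fun _ => r) χ)
    (h1 : ∀ y ∈ Y, ∀ p, dist p (z y) ≤ 4 * r → χ p = 1) (hc : Cov F (fun _ => r / 2) S W)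
    (hT : TT F S χ = #S) (hne : (1 - κ) * P * LL F v χ ≤ #S) :
    (∀ ρ ≤ 4 * r, ∑ y ∈ Y, TT F S (sqi (z y) ρ) ≤ D * #S) ∧
      ∑ y ∈ Y, P * LL F v (sqi (z y) (4 * r)) ≤ 2 * D * #S ∧
      ∑ y ∈ Y, ((1 + κ) * P * LL F v (bump (z y) r) + κ * TT F S (sqi (z y) (2 * r)) + K * 169 -
        TT F S (bump (z y) r)) ≤ 13 * D * κ * #S + K * (2 * D * W + 169 * #Y) := by
  have hL : P * LL F v χ ≤ 2 * #S := by
    have := mul_nonneg hP.le (LL_nonneg F hv fun p => (hχ.1 p).1)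
    nlinarith
  have h' : ∀ ρ ≤ 4 * r, ∀ p, ∑ y ∈ Y, sqi (z y) ρ p ≤ D := fun ρ hρ p =>
    (sum_le_sum fun y _ => sqi_le_sqi (by rwa [dist_self, zero_add]) p).trans (h p)
  have a1 : ∀ ρ ≤ 4 * r, ∑ y ∈ Y, TT F S (sqi (z y) ρ) ≤ D * #S := by
    intro ρ hρ
    rw [← TT_sum, ← u5_TT_const F]
    exact TT_mono F S fun t _ => h' ρ hρ _
  have a2 : ∑ y ∈ Y, P * LL F v (sqi (z y) (4 * r)) ≤ 2 * D * #S := by
    rw [← mul_sum, ← LL_sum]
    have b1 : LL F v (fun p => ∑ y ∈ Y, sqi (z y) (4 * r) p) ≤ LL F v (fun p => D * χ p) := by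
      refine LL_mono F hv fun p => ?_
      by_cases hp : ∃ y ∈ Y, dist p (z y) ≤ 4 * r
      · obtain ⟨y, hy, hp⟩ := hp
        rw [h1 y hy p hp, mul_one]
        exact h p
      · rw [sum_eq_zero fun y hy => by
          by_contra hc
          exact hp ⟨y, hy, u5_sqi_ne hc⟩]
        exact mul_nonneg hD.le (hχ.1 p).1
    rw [LL_smul] at b1
    calc _ ≤ P * (D * LL F v χ) := mul_le_mul_of_nonneg_left b1 hP.le
      _ = D * (P * LL F v χ) := by ring
      _ ≤ D * (2 * #S) := mul_le_mul_of_nonneg_left hL hD.le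
      _ = _ := by ring
  refine ⟨a1, a2, ?_⟩
  have a3 := sel (τ := κ) hv hP.le hκ.le hub (rad_const hr) hχ
    (u5_adm Y z hr hD (h' _ (by linarith))) hS hc (by rwa [hT])
  have e : (fun p => (1 / (2 * D) * ∑ y ∈ Y, bump (z y) r p) * χ p) =
      fun p => 1 / (2 * D) * ∑ y ∈ Y, bump (z y) r p := by
    funext p
    by_cases hp : ∃ y ∈ Y, dist p (z y) ≤ 4 * r
    · obtain ⟨y, hy, hp⟩ := hp
      rw [h1 y hy p hp, mul_one]
    · rw [sum_eq_zero fun y hy => bump_zero hr (by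
        by_contra hc
        exact hp ⟨y, hy, by linarith⟩), mul_zero, zero_mul]
  rw [e, LL_smul, TT_smul, LL_sum, TT_sum] at a3
  have a4 : ∑ y ∈ Y, P * LL F v (bump (z y) r) ≤ 2 * D * #S :=
    le_trans (sum_le_sum fun y _ => mul_le_mul_of_nonneg_left (LL_mono F hv
      (bump_le_sqi hr (by rw [dist_self]; linarith))) hP.le) a2
  have a5 := a1 (2 * r) (by linarith)
  have a6 : P * ∑ y ∈ Y, LL F v (bump (z y) r) - ∑ y ∈ Y, TT F S (bump (z y) r) ≤
      2 * D * (5 * κ * #S + K * W) := by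
    have b1 : κ * (P * LL F v χ) ≤ κ * (2 * #S) := mul_le_mul_of_nonneg_left hL hκ.le
    rw [← div_le_iff₀' (by positivity)]
    calc _ = P * (1 / (2 * D) * ∑ y ∈ Y, LL F v (bump (z y) r)) -
          1 / (2 * D) * ∑ y ∈ Y, TT F S (bump (z y) r) := by ring
      _ ≤ _ := by linarith
  rw [← mul_sum] at a4
  rw [sum_sub_distrib, sum_add_distrib, sum_add_distrib, ← mul_sum, ← mul_sum, sum_const,
    nsmul_eq_mul]
  have b2 := mul_le_mul_of_nonneg_left a4 hκ.le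
  have b3 := mul_le_mul_of_nonneg_left a5 hκ.le
  linarith

/-- averaging -/
theorem u5_core {α : Type} (Y : Finset α) (z : α → Pt) {h r D W Y0 τ G0 : ℝ} {χ : Pt → ℝ}
    (hv : Wt v) (hP : 0 < P) (hP1 : P ≤ 1) (hK : 0 ≤ K) (hκ : 0 < κ) (hD : 1 ≤ D)
    (hκ1 : 16 * D * κ ≤ 1) (hκ2 : 224 * D * κ ≤ τ) (hub : UB F P κ K) (hS : S ⊆ F.T) (hh : 0 < h)
    (hr : r = 20000 * h) (hov : ∀ p, ∑ y ∈ Y, sqi (z y) (4 * r) p ≤ D)
    (hχ : Adm (fun _ => r) χ) (h1 : ∀ y ∈ Y, ∀ p, dist p (z y) ≤ 4 * r → χ p = 1)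
    (hc : Cov F (fun _ => r / 2) S W) (hne : (1 - κ) * P * LL F v χ ≤ #S)
    (hY : ∀ t ∈ S, ∃ y ∈ Y, dist (vt F t) (z y) ≤ h) (hY0 : (#Y : ℝ) ≤ Y0) (hY1 : 0 < Y0)
    (hN0 : S.Nonempty) (hN1 : K * (2 * D * W + 169 * Y0) ≤ D * κ * #S)
    (hN2 : 2704 * Y0 * K ≤ #S) (hN3 : 16 * Y0 * G0 ≤ #S) :
    ∃ z, NE F v P τ z r ∧ Dbl F v (1 / (32 * D)) z r ∧ G0 ≤ LL F v (bump z r) := by
  have hr0 : 0 < r := by linarith
  have hD0 : 0 < D := by linarith
  have hκ3 : κ ≤ 1 / 2 := by nlinarith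
  have hT : TT F S χ = #S := by
    rw [← one_mul (#S : ℝ), ← u5_TT_const F]
    refine sum_congr rfl fun t ht => ?_
    obtain ⟨y, hy, hd⟩ := hY t ht
    exact h1 y hy _ (by linarith)
  obtain ⟨a1, a2, a3⟩ := u5_sums Y z hv hP hκ hκ3 hub hS hr0 hD0 hov hχ h1 hc hT hne
  have a4 : (#S : ℝ) ≤ ∑ y ∈ Y, TT F S (sqi (z y) h) := by
    rw [← TT_sum, ← one_mul (#S : ℝ), ← u5_TT_const F]
    refine TT_mono F S fun t ht => ?_
    obtain ⟨y, hy, hd⟩ := hY t ht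
    rw [← u5_sqi_one hd]
    exact single_le_sum (f := fun y => sqi (z y) h (vt F t)) (fun y _ => (sqi_mem _ _ _).1) hy
  have a5 := a1 (2 * h) (by linarith)
  have hYn : Y.Nonempty := by
    obtain ⟨t, ht⟩ := hN0
    obtain ⟨y, hy, -⟩ := hY t ht
    exact ⟨y, hy⟩
  have hN : (0 : ℝ) ≤ #S := Nat.cast_nonneg _
  obtain ⟨y, -, hy⟩ := exists_le_of_sum_le (s := Y)
    (f := fun y => ((1 + κ) * P * LL F v (bump (z y) r) + κ * TT F S (sqi (z y) (2 * r)) +
      K * 169 - TT F S (bump (z y) r)) / (14 * D * κ) + P * LL F v (sqi (z y) (4 * r)) / (2 * D) +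
      TT F S (sqi (z y) (2 * h)) / D + #S / Y0) (g := fun y => 4 * TT F S (sqi (z y) h)) hYn (by
    rw [sum_add_distrib, sum_add_distrib, sum_add_distrib, ← sum_div, ← sum_div, ← sum_div,
      ← mul_sum (a := 4), sum_const, nsmul_eq_mul]
    have b1 : K * (169 * #Y) ≤ K * (169 * Y0) := by gcongr
    have b2 := (div_le_iff₀' (by positivity : 0 < 14 * D * κ)).2 (a3.trans
      (by linarith : _ ≤ 14 * D * κ * #S))
    have b3 := (div_le_iff₀' (by positivity : 0 < 2 * D)).2 a2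
    have b4 := (div_le_iff₀' hD0).2 a5
    have b5 : (#Y : ℝ) * (#S / Y0) ≤ #S := by
      rw [← mul_div_assoc, div_le_iff₀' hY1]
      gcongr
    linarith)
  have u1 := u5_ub hv hub hS (z y) hr0
  have u2 := u5_ub hv hub hS (z y) hh
  have u3 : TT F S (sqi (z y) h) ≤ TT F S (bump (z y) h) :=
    TT_mono F S fun t _ => sqi_le_bump hh (by rw [dist_self, zero_add]) _
  have u4 : LL F v (bump (z y) h) ≤ LL F v (sqi (z y) (2 * h)) :=
    LL_mono F hv (bump_le_sqi hh (by rw [dist_self, zero_add]))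
  have u5 : LL F v (sqi (z y) (2 * h)) ≤ LL F v (bump (z y) r) :=
    LL_mono F hv (sqi_le_bump hr0 (by rw [dist_self]; linarith))
  have u6 : TT F S (bump (z y) r) ≤ TT F F.T (bump (z y) r) :=
    TT_le_of_subset F hS fun p => (bump_mem _ _ _).1
  have n1 : 0 ≤ LL F v (sqi (z y) (4 * r)) := LL_nonneg F hv fun p => (sqi_mem _ _ _).1
  have n2 : 0 ≤ TT F S (sqi (z y) (2 * h)) := u5_TT_nonneg F S fun p => (sqi_mem _ _ _).1
  have n3 : 0 ≤ TT F S (sqi (z y) (2 * r)) := u5_TT_nonneg F S fun p => (sqi_mem _ _ _).1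
  have n4 : 0 ≤ LL F v (bump (z y) h) := LL_nonneg F hv fun p => (bump_mem _ _ _).1
  have n5 : 0 ≤ TT F S (sqi (z y) h) := u5_TT_nonneg F S fun p => (sqi_mem _ _ _).1
  have e2 : r / 10 ^ 4 = 2 * h := by rw [hr]; ring
  refine ⟨z y, ?_⟩
  unfold NE Dbl
  rw [e2]
  generalize TT F S (sqi (z y) h) = f at *
  generalize TT F S (sqi (z y) (2 * h)) = g3 at *
  generalize TT F S (sqi (z y) (2 * r)) = c2 at *
  generalize TT F S (bump (z y) r) = Tr at *
  generalize TT F F.T (bump (z y) r) = Ta at *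
  generalize TT F S (bump (z y) h) = Th at *
  generalize LL F v (bump (z y) r) = Lr at *
  generalize LL F v (bump (z y) h) = Lh at *
  generalize LL F v (sqi (z y) (2 * h)) = L2 at *
  generalize LL F v (sqi (z y) (4 * r)) = L4 at *
  have p1 : 0 ≤ ((1 + κ) * P * Lr + κ * c2 + K * 169 - Tr) / (14 * D * κ) :=
    div_nonneg (by linarith) (by positivity)
  have p2 : 0 ≤ P * L4 / (2 * D) := by positivity
  have p3 : 0 ≤ g3 / D := by positivity
  have p4 : 0 ≤ (#S : ℝ) / Y0 := by positivity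
  have q1 : (1 + κ) * P * Lr + κ * c2 + K * 169 - Tr ≤ 14 * D * κ * (4 * f) :=
    (div_le_iff₀' (by positivity)).1 (by linarith)
  have q2 : P * L4 ≤ 2 * D * (4 * f) := (div_le_iff₀' (by positivity)).1 (by linarith)
  have q3 : g3 ≤ D * (4 * f) := (div_le_iff₀' hD0).1 (by linarith)
  have q4 : (#S : ℝ) ≤ Y0 * (4 * f) := (div_le_iff₀' hY1).1 (by linarith)
  have r1 : 676 * K ≤ f := le_of_mul_le_mul_left (by linarith : 4 * Y0 * (676 * K) ≤ 4 * Y0 * f)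
    (by positivity)
  have r2 : 4 * G0 ≤ f := le_of_mul_le_mul_left (by linarith : 4 * Y0 * (4 * G0) ≤ 4 * Y0 * f)
    (by positivity)
  have r3 : κ * g3 ≤ f / 4 := by
    have b1 := mul_le_mul_of_nonneg_left q3 hκ.le
    have b2 := mul_le_mul_of_nonneg_right hκ1 n5
    linarith
  have r4 : (1 + κ) * P * Lh ≤ 2 * (P * L2) := by
    calc _ = (1 + κ) * (P * Lh) := by ring
      _ ≤ 2 * (P * L2) := by gcongr; linarith
  have r5 : f ≤ 4 * (P * L2) := by linarith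
  have r6 : P * L2 ≤ P * Lr := mul_le_mul_of_nonneg_left u5 hP.le
  have n6 : 0 ≤ Lr := n4.trans (u4.trans u5)
  refine ⟨?_, ?_, ?_⟩
  · have b1 : 56 * D * κ * f ≤ 56 * D * κ * (4 * (P * Lr)) := by gcongr; linarith
    have b2 := mul_le_mul_of_nonneg_right hκ2 (mul_nonneg hP.le n6)
    have b3 : 0 ≤ κ * (P * Lr) := by positivity
    have b4 : 0 ≤ κ * c2 := by positivity
    linarith
  · rw [one_div, inv_mul_le_iff₀ (by positivity)]
    refine le_of_mul_le_mul_left ?_ hP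
    have b1 := mul_le_mul_of_nonneg_left r5 hD0.le
    linarith
  · have b1 := mul_le_mul_of_nonneg_right hP1 n6
    linarith

end Fam

theorem u5_box_in {s x : ℝ} (hs : 0 < s) {c m : ℤ} (h1 : c + 1 ≤ ⌊x / s⌋)
    (h2 : ⌊x / s⌋ < c + (m - 1)) : |x - (c + m / 2) * s| ≤ (m / 2 - 1) * s := by
  have e1 := Int.le_floor.1 h1
  have e2 := Int.floor_lt.1 h2
  push_cast at e1 e2
  rw [le_div_iff₀ hs] at e1
  rw [div_lt_iff₀ hs] at e2
  exact abs_le.2 ⟨by linarith, by linarith⟩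

theorem u5_box_out {s x : ℝ} (hs : 0 < s) {c m : ℤ} (h : |x - (c + m / 2) * s| < m / 2 * s) :
    c + 0 ≤ ⌊x / s⌋ ∧ ⌊x / s⌋ < c + m := by
  obtain ⟨e1, e2⟩ := abs_lt.1 h
  rw [Int.le_floor, Int.floor_lt, le_div_iff₀ hs, div_lt_iff₀ hs]
  push_cast
  exact ⟨by linarith, by linarith⟩

theorem u5_floor {h : ℝ} (hh : 0 < h) (x : ℝ) : |x - ⌊x / h⌋ * h| ≤ h := by
  have e1 := Int.floor_le (x / h)
  have e2 := Int.lt_floor_add_one (x / h)
  rw [le_div_iff₀ hh] at e1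
  rw [div_lt_iff₀ hh] at e2
  exact abs_le.2 ⟨by linarith, by linarith⟩

/-- Choice of the first square. Put `S = {t ∈ T | box s c 1 (m - 1) (vt t) = 1}`, `N = #S`,
centre `ce = ((c.1 + m / 2) s, (c.2 + m / 2) s)`, `R = (m / 2 - 1) s` (vertices of `S` are within
`R` of `ce`), `χ p = clp ((R + 3 s / 4 - dist p ce) * 4 / s)`: one within `R + s / 2`, at most
`box s c 0 m`, admissible for the constant `s / 4`. So `(1 - κ) P LL χ ≤ N = TT S χ`, `M ≤ N`.
`r = s / 10`, mesh `h = s / 10 ^ 5`, `Y` = image of `S` under `t ↦ (⌊x / h⌋, ⌊y / h⌋)`,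
`#Y ≤ (10 ^ 5 m + 2) ^ 2`, `z y` the centre of the cell `y`, `f y` the number of `t ∈ S` in the
cell, `∑ f y = N`; the squares `sqi (z y) (4 r)` lie in the region where `χ = 1`.
(1) `g1 y = P LL (bump (z y) r) - TT S (bump (z y) r) + κ P LL (bump (z y) r) + κ #(S y) + 49 K`
with `S y` the triples of `S` within `2 r` of `z y` is `≥ 0` (`UB` with scale `r`; `N = 6` in
`cov_const` gives `169 K`, any constant will do). In a residue class of `y` modulo `50000` in both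
coordinates the bumps have disjoint supports, so `adm_sum` and `sel` (scale `r / 2`, covering with
`N = 60 m`) give `∑ g1 ≤ 8 κ N + C(m) K` on the class, and in total `≤ 9 * 50000 ^ 2 κ N` if
`M ≥ C(m) K / κ`. (2) `g2 y = P LL (sqi (z y) (4 r))` has sum `≤ (80001) ^ 2 P LL χ ≤ 2 * 80001 ^ 2 N`
(a point lies in at most `80001 ^ 2` of these squares). (3) `g3 y` = number of `t ∈ S` within `h` of
`z y` has sum `≤ 9 N`. Hence some `y` has `g1 / B1 + g2 / B2 + g3 / 9 + N / #Y ≤ 4 f y`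
(`Finset.exists_le_of_sum_le`). `UB` for `bump (z y) (h / 2)` gives
`f y ≤ (1 + κ) P LL (sqi (z y) h) + 36 κ f y + C K`, so `P LL (sqi (z y) h) ≥ f y / 4`.
This gives `Dbl` with `a0 = 1 / (32 * 80001 ^ 2)`, `NE` with `τ = 144 * 50000 ^ 2 κ` and the
mass bound. -/
theorem top : ∃ a0 : ℝ, 0 < a0 ∧ ∀ τ : ℝ, 0 < τ → ∃ κ0 : ℝ, 0 < κ0 ∧ ∀ (κ : ℝ) (m : ℕ)
    (P K G0 : ℝ), 0 < κ → κ ≤ κ0 → 10 ≤ m → 0 < P → P ≤ 1 → 0 ≤ K → ∃ M : ℝ, ∀ (ι : Type)
    (F : Fam ι) (v : Fin 3 → ℝ) (s : ℝ) (c : ℤ × ℤ), Wt v → 0 < s → UB F P κ K →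
    (1 - κ) * P * LL F v (box s c 0 m) + M ≤ TT F F.T (box s c 1 (m - 1)) →
    ∃ z r, 0 < r ∧ NE F v P τ z r ∧ Dbl F v a0 z r ∧ G0 ≤ LL F v (bump z r) := by
  obtain ⟨D, hD⟩ : ∃ D : ℝ, D = (2 * (80000 : ℕ) + 1) ^ 2 := ⟨_, rfl⟩
  have hD1 : 1 ≤ D := by rw [hD]; norm_num
  have hD0 : 0 < D := by linarith
  refine ⟨1 / (32 * D), by positivity, fun τ hτ => ⟨min (1 / (16 * D)) (τ / (224 * D)),
    by positivity, fun κ m P K G0 hκ hκ0 hm hP hP1 hK => ?_⟩⟩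
  have hκ1 : 16 * D * κ ≤ 1 := (le_div_iff₀' (by positivity)).1 (hκ0.trans (min_le_left _ _))
  have hκ2 : 224 * D * κ ≤ τ := (le_div_iff₀' (by positivity)).1 (hκ0.trans (min_le_right _ _))
  have hκ3 : κ ≤ 1 := by nlinarith
  obtain ⟨W, hW⟩ : ∃ W : ℝ, W = (2 * (30 * m : ℕ) + 1) ^ 2 := ⟨_, rfl⟩
  obtain ⟨Y0, hY0⟩ : ∃ Y0 : ℝ, Y0 = (2 * (100000 * m : ℕ) + 1) ^ 2 := ⟨_, rfl⟩
  have hW0 : 0 < W := by rw [hW]; positivity
  have hY1 : 0 < Y0 := by rw [hY0]; positivity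
  refine ⟨K * (2 * D * W + 169 * Y0) / (D * κ) + 2704 * Y0 * K + 16 * Y0 * |G0| + 1,
    fun ι F v s c hv hs hub hM => ?_⟩
  have hm' : (10 : ℝ) ≤ m := by exact_mod_cast hm
  obtain ⟨h, rfl⟩ : ∃ h, s = 200000 * h := ⟨s / 200000, by ring⟩
  have hh : 0 < h := by linarith
  set s := 200000 * h with hsh
  set S := {t ∈ F.T | box s c 1 (m - 1) (vt F t) = 1} with hSd
  set ce : Pt := ((c.1 + (m : ℤ) / 2) * s, (c.2 + (m : ℤ) / 2) * s) with hce
  set R : ℝ := (((m : ℤ) : ℝ) / 2 - 1) * s with hR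
  have hR' : R = 100000 * m * h - 200000 * h := by rw [hR, hsh]; push_cast; ring
  have hmh : 10 * h ≤ m * h := by gcongr
  set χ : Pt → ℝ := fun p => clp ((R + 3 * s / 4 - dist p ce) * 4 / s) with hχd
  have hN : TT F F.T (box s c 1 (m - 1)) = #S := by
    rw [TT, hSd, card_filter]
    push_cast
    refine sum_congr rfl fun t _ => ?_
    unfold box ind
    split_ifs <;> simp_all
  have hSR : ∀ t ∈ S, dist (vt F t) ce ≤ R := by
    intro t ht
    have h1 := (mem_filter.1 ht).2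
    unfold box ind at h1
    split_ifs at h1 with h2
    · rw [Prod.dist_eq, max_le_iff, Real.dist_eq, Real.dist_eq]
      exact ⟨u5_box_in hs h2.1 h2.2.1, u5_box_in hs h2.2.2.1 h2.2.2.2⟩
    · exact absurd h1 zero_ne_one
  have hχ : Adm (fun _ => s / 4) χ := by
    refine ⟨fun p => clp_mem _, fun p q => ?_⟩
    refine (mul_le_mul_of_nonneg_left (clp_lip _ _) (by positivity)).trans ?_
    have e : (R + 3 * s / 4 - dist p ce) * 4 / s - (R + 3 * s / 4 - dist q ce) * 4 / s =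
        (dist q ce - dist p ce) * (4 / s) := by ring
    rw [e, abs_mul, abs_of_pos (by positivity : 0 < 4 / s), mul_left_comm,
      show s / 4 * (4 / s) = 1 by field_simp, mul_one, dist_comm p q]
    exact abs_dist_sub_le _ _ _
  have hχb : ∀ p, χ p ≤ box s c 0 m p := by
    intro p
    unfold box ind
    split_ifs with h2
    · exact (clp_mem _).2
    · refine (clp_zero ?_).le
      by_contra hc
      have h3 : 0 < R + 3 * s / 4 - dist p ce := by
        have := (lt_div_iff₀ hs).1 (not_le.1 hc)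
        linarith
      have h4 : dist p ce < ((m : ℤ) : ℝ) / 2 * s := by
        rw [hR] at h3
        linarith
      rw [Prod.dist_eq, max_lt_iff, Real.dist_eq, Real.dist_eq] at h4
      have h5 := u5_box_out hs h4.1
      have h6 := u5_box_out hs h4.2
      exact h2 ⟨h5.1, h5.2, h6.1, h6.2⟩
  set Y := S.image fun t => (⌊(vt F t).1 / h⌋, ⌊(vt F t).2 / h⌋) with hY
  have hz : ∀ p : Pt, dist p (u5_z h (⌊p.1 / h⌋, ⌊p.2 / h⌋)) ≤ h := by
    intro p
    rw [Prod.dist_eq, max_le_iff, Real.dist_eq, Real.dist_eq]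
    exact ⟨u5_floor hh _, u5_floor hh _⟩
  have hYR : ∀ y ∈ Y, dist (u5_z h y) ce ≤ R + h := by
    intro y hy
    obtain ⟨t, ht, rfl⟩ := mem_image.1 hy
    have := dist_triangle_left (u5_z h (⌊(vt F t).1 / h⌋, ⌊(vt F t).2 / h⌋)) ce (vt F t)
    linarith [hz (vt F t), hSR t ht]
  have hL : 0 ≤ (1 - κ) * P * LL F v χ :=
    mul_nonneg (mul_nonneg (by linarith) hP.le) (LL_nonneg F hv fun p => (hχ.1 p).1)
  have hL' : (1 - κ) * P * LL F v χ ≤ (1 - κ) * P * LL F v (box s c 0 m) :=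
    mul_le_mul_of_nonneg_left (LL_mono F hv hχb) (mul_nonneg (by linarith) hP.le)
  rw [hN] at hM
  have m1 : 0 ≤ K * (2 * D * W + 169 * Y0) / (D * κ) := by positivity
  have m2 : 0 ≤ 2704 * Y0 * K := by positivity
  have m3 : 0 ≤ 16 * Y0 * |G0| := by positivity
  have m4 : 16 * Y0 * G0 ≤ 16 * Y0 * |G0| := by gcongr; exact le_abs_self _
  obtain ⟨z, hz'⟩ := u5_core (S := S) (W := W) (Y0 := Y0) (G0 := G0) (χ := χ) Y (u5_z h) hv hP hP1
    hK hκ hD1 hκ1 hκ2 hub (filter_subset _ _) hh rfl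
    (fun p => hD ▸ u5_overlap hh Y 80000 (by push_cast; linarith) p)
    (hχ.mono fun _ => by linarith)
    (fun y hy p hp => clp_one (by
      have := dist_triangle p (u5_z h y) ce
      have := hYR y hy
      rw [le_div_iff₀ hs]
      linarith))
    (hW ▸ cov_const F (z := ce) (R := R) (N := 30 * m) (by linarith) (by omega) hSR fun t _ => by
      rw [div_le_iff₀ (by positivity)]
      push_cast
      linarith)
    (by linarith) (fun t ht => ⟨_, mem_image_of_mem _ ht, hz _⟩)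
    (by
      rw [hY0]
      refine le_trans (le_of_eq ?_) (u5_overlap hh Y (100000 * m) le_rfl ce)
      rw [card_eq_sum_ones]
      push_cast
      refine sum_congr rfl fun y hy => (u5_sqi_one ?_).symm
      have := hYR y hy
      rw [dist_comm]
      linarith)
    hY1 (card_pos.1 (by exact_mod_cast (by linarith : (0 : ℝ) < #S)))
    ((div_le_iff₀' (by positivity)).1 (by linarith)) (by linarith) (by linarith)
  exact ⟨z, _, by positivity, hz'⟩

end Pool.Agent.MP_38296a_co.H21.URn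

end FileUR5

end

-- part MP_38296a_co.H21.URe
section

section FileUR12

set_option autoImplicit false

namespace Pool.Agent.MP_38296a_co.H21.URn

open Finset Filter Classical Topology

theorem u12_sd (n : ℕ) : 0 < sd n := by
  unfold sd
  positivity

theorem u12_cnt {α : Type} (S : Finset α) (P : α → Prop) : cnt S P = ∑ a ∈ S, ind (P a) := by
  unfold cnt ind
  rw [card_filter]
  push_cast
  rfl

theorem u12_cover {α : Type} (S : Finset α) (m l : α → ℝ) (hl : ∀ c ∈ S, 0 ≤ l c)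
    (h : ∀ X : ℝ, 0 < X → X < 1 → ∃ c ∈ S, |X - m c| ≤ l c / 2) : 1 ≤ ∑ c ∈ S, l c := by
  have h1 : Set.Ioo (0 : ℝ) 1 ⊆ ⋃ c ∈ S, Set.Icc (m c - l c / 2) (m c + l c / 2) := by
    intro X hX
    obtain ⟨c, hc, hd⟩ := h X hX.1 hX.2
    have h2 := abs_le.1 hd
    exact Set.mem_biUnion hc ⟨by linarith, by linarith⟩
  have h2 := (MeasureTheory.measure_mono (μ := MeasureTheory.volume) h1).trans
    (MeasureTheory.measure_biUnion_finset_le S _)
  simp only [Real.volume_Ioo, Real.volume_Icc] at h2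
  rw [← ENNReal.ofReal_sum_of_nonneg fun c hc => by linarith [hl c hc],
    ENNReal.ofReal_le_ofReal_iff (sum_nonneg fun c hc => by linarith [hl c hc])] at h2
  calc (1 : ℝ) = 1 - 0 := by ring
    _ ≤ _ := h2
    _ = _ := sum_congr rfl fun c _ => by ring

section
variable {ι : Type} {F : Fam ι} {v : Fin 3 → ℝ} {ε : ℝ}

/-- Move the base point: by `hgt_sub` and `slope_near`, `hgt z l = hgt z' l + o ± ε σ / 2` with
`o = (i - 1) (z.1 - z'.1) - (z.2 - z'.2)`, `|o| ≤ σ`. Use the intervals with centre `o` and radii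
`s / 2` and `3 s / 2`. -/
theorem unif_nl (h : F.Ok ε) (he : ε ≤ 1 / 10 ^ 7) (hv : Wt v) {z : Pt} {σ : ℝ} (hσ : 0 < σ)
    (hU : Unif F v (1 / 10 ^ 11) z (4000 * σ)) : ∃ d : ℝ, 0 < d ∧ ∀ (i : Fin 3) (z' : Pt) (s : ℝ),
      dist z' z ≤ σ / 2 → σ / 10 ^ 7 ≤ s → s ≤ 6 * σ →
      d * s ≤ nl F v i z' s ∧ nl F v i z' s ≤ 24 * d * s := by
  obtain ⟨d, hd, hU⟩ := hU
  refine ⟨d, hd, fun i z' s hz hs hs' => ?_⟩
  have hz1 : |z.1 - z'.1| ≤ σ / 2 := by
    have := (max_le_iff.1 ((Prod.dist_eq (x := z') (y := z)) ▸ hz)).1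
    rwa [Real.dist_eq, abs_sub_comm] at this
  have hz2 : |z.2 - z'.2| ≤ σ / 2 := by
    have := (max_le_iff.1 ((Prod.dist_eq (x := z') (y := z)) ▸ hz)).2
    rwa [Real.dist_eq, abs_sub_comm] at this
  have hi : |((i : ℕ) : ℝ) - 1| ≤ 1 := by
    fin_cases i <;> norm_num
  obtain ⟨o, ho⟩ : ∃ o, o = (((i : ℕ) : ℝ) - 1) * (z.1 - z'.1) - (z.2 - z'.2) := ⟨_, rfl⟩
  have ho1 : |o| ≤ σ := by
    have h1 : |(((i : ℕ) : ℝ) - 1) * (z.1 - z'.1)| ≤ 1 * (σ / 2) := by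
      rw [abs_mul]
      exact mul_le_mul hi hz1 (abs_nonneg _) zero_le_one
    have h2 := abs_le.1 h1
    have h3 := abs_le.1 hz2
    rw [ho, abs_le]
    constructor <;> linarith
  have ho2 := abs_le.1 ho1
  have key : ∀ a ∈ cl F.T i, |hgt F z a - hgt F z' a - o| ≤ s / 2 := fun a ha => by
    have h1 : hgt F z a - hgt F z' a - o = (F.x a - (((i : ℕ) : ℝ) - 1)) * (z.1 - z'.1) := by
      rw [hgt_sub F z z' a, ho]
      ring
    have h2 := slope_near h ha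
    rw [h1, abs_mul]
    calc _ ≤ 1 / 10 ^ 7 * (σ / 2) := mul_le_mul (h2.trans he) hz1 (abs_nonneg _) (by norm_num)
      _ ≤ s / 2 := by linarith
  constructor
  · have h1 := (hU i (o - s / 2) (o + s / 2) (by linarith) (by linarith) (by linarith)).1
    rw [show o + s / 2 - (o - s / 2) = s by ring] at h1
    refine h1.trans (wc_mono F hv i fun a ha hq => ?_)
    have h2 := abs_le.1 (key a ha)
    rw [abs_le]
    constructor <;> linarith [hq.1, hq.2]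
  · have h1 := (hU i (o - 3 * s / 2) (o + 3 * s / 2) (by linarith) (by linarith) (by linarith)).2
    rw [show 8 * d * (o + 3 * s / 2 - (o - 3 * s / 2)) = 24 * d * s by ring] at h1
    refine le_trans (wc_mono F hv i fun a ha hq => ?_) h1
    have h2 := abs_le.1 (key a ha)
    have h3 := abs_le.1 hq
    constructor <;> linarith

/-- With `σ' = σ / 10 ^ 5`, `e = d σ'`: `(e / 32) ^ 2 ≤ LL (sqi z' (σ' / 8))` (`LL_ge_nl`),
`LL (sqi z' (40000 σ')) ≤ (24 * 84000 e) ^ 2` (`LL_le_nl`), `nl 1 z' σ' ≤ 24 e`, and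
`a LL (bump z (4000 σ)) ≤ LL (sqi z (2 σ / 5)) ≤ (24 * 84000 e) ^ 2`. -/
theorem child (h : F.Ok ε) (he : ε ≤ 1 / 10 ^ 7) (hv : Wt v) {z z' : Pt} {σ a : ℝ} (hσ : 0 < σ)
    (ha : 0 ≤ a) (hU : Unif F v (1 / 10 ^ 11) z (4000 * σ)) (hD : Dbl F v a z (4000 * σ))
    (hz : dist z' z ≤ σ / 2) : Rg F v z' (σ / 10 ^ 5) ∧
      a * LL F v (bump z (4000 * σ)) ≤ 10 ^ 16 * LL F v (bump z' (4000 * (σ / 10 ^ 5))) := by
  obtain ⟨d, hd, hn⟩ := unif_nl h he hv hσ hU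
  have he' : ε ≤ 1 / 10 := he.trans (by norm_num)
  obtain ⟨e, hde⟩ : ∃ e, e = d * (σ / 10 ^ 5) := ⟨_, rfl⟩
  have e0 : 0 < e := by rw [hde]; positivity
  have h1 : (e / 32) ^ 2 ≤ LL F v (sqi z' (σ / 10 ^ 5 / 8)) := by
    have h2 := LL_ge_nl h he' hv (z := z') (s := σ / 10 ^ 5 / 32) (e := e / 32) (by positivity)
      fun i => by
        have h3 := (hn i z' (σ / 10 ^ 5 / 32) hz (by linarith) (by linarith)).1
        rw [hde]
        linarith
    rwa [show 4 * (σ / 10 ^ 5 / 32) = σ / 10 ^ 5 / 8 by ring] at h2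
  have h2 : ∀ w, dist w z ≤ σ / 2 → LL F v (sqi w (2 * σ / 5)) ≤ 10 ^ 16 * (e / 32) ^ 2 := by
    intro w hw
    have h3 := LL_le_nl h he' hv (z := w) (s := 2 * σ / 5) (e := 24 * 84000 * e) fun i => by
      have h3 := (hn i w (21 / 10 * (2 * σ / 5)) hw (by linarith) (by linarith)).2
      rw [hde]
      linarith
    nlinarith [sq_nonneg e]
  have h3 : LL F v (sqi z' (σ / 10 ^ 5 / 8)) ≤ LL F v (bump z' (4000 * (σ / 10 ^ 5))) :=
    LL_mono F hv (sqi_le_bump (by positivity) (by rw [dist_self]; linarith))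
  have h4 : LL F v (bump z' (4000 * (σ / 10 ^ 5))) ≤ LL F v (sqi z' (2 * σ / 5)) :=
    LL_mono F hv (bump_le_sqi (by positivity) (by rw [dist_self]; linarith))
  have h5 := h2 z' hz
  refine ⟨⟨by linarith, ?_, ?_⟩, ?_⟩
  · rw [show 40000 * (σ / 10 ^ 5) = 2 * σ / 5 by ring]
    linarith
  · have h6 := (hn 1 z' (σ / 10 ^ 5) hz (by linarith) (by linarith)).2
    have h7 : e / 32 ≤ √(LL F v (bump z' (4000 * (σ / 10 ^ 5)))) :=
      Real.le_sqrt_of_sq_le (h1.trans h3)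
    have h8 : 24 * d * (σ / 10 ^ 5) = 24 * e := by rw [hde]; ring
    linarith
  · have h6 : LL F v (bump z (4000 * σ)) ≤ LL F v (sqi z (4 * (4000 * σ))) :=
      LL_mono F hv (bump_le_sqi (by positivity) (by rw [dist_self]; linarith))
    have h7 := h2 z (by rw [dist_self]; linarith)
    have h8 : a * LL F v (sqi z (4 * (4000 * σ))) ≤ LL F v (sqi z (4000 * σ / 10 ^ 4)) := hD
    rw [show 4000 * σ / 10 ^ 4 = 2 * σ / 5 by ring] at h8
    have h9 := mul_le_mul_of_nonneg_left h6 ha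
    linarith

theorem Rg.dbl (hv : Wt v) {z : Pt} {σ : ℝ} (hσ : 0 < σ) (hR : Rg F v z σ) :
    Dbl F v (1 / 10 ^ 32) z (4000 * σ) := by
  obtain ⟨h1, h2, -⟩ := hR
  have h3 : LL F v (sqi z (4 * (4000 * σ))) ≤ LL F v (sqi z (40000 * σ)) :=
    LL_mono F hv (sqi_le_sqi (by rw [dist_self]; linarith))
  have h4 : LL F v (sqi z (σ / 8)) ≤ LL F v (sqi z (4000 * σ / 10 ^ 4)) :=
    LL_mono F hv (sqi_le_sqi (by rw [dist_self]; linarith))
  unfold Dbl
  linarith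

/-- `a G ≤ LL (sqi z0 (2 / 5)) ≤ (21 d) ^ 2`, `d / 4 ≤ nl 1 z0 (1 / 4)`, `(d / 4) ^ 2 ≤ G` -/
theorem root_nl (h : F.Ok ε) (he : ε ≤ 1 / 10 ^ 7) (hv : Wt v) {a : ℝ} (ha : 0 ≤ a)
    (hU : Unif F v (1 / 10 ^ 11) z0 4000) (hD : Dbl F v a z0 4000) :
    a * LL F v (bump z0 4000) ≤ (100 * nl F v 1 z0 (1 / 4)) ^ 2 ∧
      ∀ i, nl F v i z0 2 ≤ 200 * √(LL F v (bump z0 4000)) := by
  obtain ⟨d, hd, hn⟩ := unif_nl (σ := 1) h he hv one_pos (by rwa [mul_one])
  have he' : ε ≤ 1 / 10 := he.trans (by norm_num)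
  have hz : dist z0 z0 ≤ (1 : ℝ) / 2 := by rw [dist_self]; norm_num
  have h1 : LL F v (sqi z0 (4000 / 10 ^ 4)) ≤ (21 * d) ^ 2 :=
    LL_le_nl h he' hv fun i => by
      have h3 := (hn i z0 (21 / 10 * (4000 / 10 ^ 4)) hz (by norm_num) (by norm_num)).2
      linarith
  have h2 : ∀ i, d / 4 ≤ nl F v i z0 (1 / 4) := fun i => by
    have h3 := (hn i z0 (1 / 4) hz (by norm_num) (by norm_num)).1
    linarith
  have h3 : LL F v (bump z0 4000) ≤ LL F v (sqi z0 (4 * 4000)) :=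
    LL_mono F hv (bump_le_sqi (by norm_num) (by rw [dist_self]; norm_num))
  have h4 : LL F v (sqi z0 (4 * (1 / 4))) ≤ LL F v (bump z0 4000) :=
    LL_mono F hv (sqi_le_bump (by norm_num) (by rw [dist_self]; norm_num))
  have h5 := LL_ge_nl h he' hv (by positivity) h2
  constructor
  · have h6 : a * LL F v (sqi z0 (4 * 4000)) ≤ LL F v (sqi z0 (4000 / 10 ^ 4)) := hD
    have h7 := mul_le_mul_of_nonneg_left h3 ha
    have h8 : (21 * d) ^ 2 ≤ (100 * nl F v 1 z0 (1 / 4)) ^ 2 :=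
      pow_le_pow_left₀ (by positivity) (by linarith [h2 1]) 2
    exact h7.trans (h6.trans (h1.trans h8))
  · intro i
    have h6 := (hn i z0 2 hz (by norm_num) (by norm_num)).2
    have h7 : d / 4 ≤ √(LL F v (bump z0 4000)) := Real.le_sqrt_of_sq_le (h5.trans h4)
    linarith

/-- A line of class `1` with height at most `1 / 4` at `z0` stays in the open unit square for
abscissae in `(0, 1)`; the leaves which it meets have height at most `sd c.1` at their centre and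
their projections cover `(0, 1)`, so their sides sum to at least `1`
(`MeasureTheory.measure_biUnion_finset_le`). Sum over the lines. -/
theorem len_count (h : F.Ok ε) (he : ε ≤ 1 / 10) (hv : Wt v) {Good : ℕ × Cell → Prop}
    {Al Lv : Finset (ℕ × Cell)} (hT : Tree Good Al Lv) :
    nl F v 1 z0 (1 / 4) ≤ ∑ c ∈ Lv, sd c.1 * nl F v 1 (ctr c) (sd c.1) := by
  have key : ∀ a ∈ cl F.T 1, |hgt F z0 a| ≤ 1 / 4 →
      (1 : ℝ) ≤ ∑ c ∈ Lv, sd c.1 * ind (|hgt F (ctr c) a| ≤ sd c.1) := by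
    intro a ha hq
    have hx : |F.x a| ≤ 1 / 10 := by simpa using (slope_near h ha).trans he
    have h1 := u12_cover (Lv.filter fun c => |hgt F (ctr c) a| ≤ sd c.1) (fun c => (ctr c).1)
      (fun c => sd c.1) (fun c _ => (u12_sd c.1).le) fun X h0 h1 => by
        have e0 : hgt F (X, F.s a + F.x a * X) a = 0 := by simp [hgt]
        have b1 : |X - 1 / 2| < 1 / 2 := abs_lt.2 ⟨by linarith, by linarith⟩
        have b2 : |F.x a * (X - 1 / 2)| ≤ 1 / 10 * (1 / 2) := by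
          rw [abs_mul]
          exact mul_le_mul hx b1.le (abs_nonneg _) (by norm_num)
        have b3 := abs_le.1 b2
        have b4 := abs_le.1 hq
        simp only [hgt, z0] at b4
        obtain ⟨c, hc, hd⟩ := hT.cov (X, F.s a + F.x a * X) (by
          rw [Prod.dist_eq, max_lt_iff, Real.dist_eq, Real.dist_eq]
          refine ⟨b1, abs_lt.2 ⟨?_, ?_⟩⟩ <;> simp only [z0] <;> linarith)
        rw [Prod.dist_eq, max_le_iff, Real.dist_eq, Real.dist_eq] at hd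
        refine ⟨c, mem_filter.2 ⟨hc, ?_⟩, hd.1⟩
        have b5 : |F.x a * ((ctr c).1 - X)| ≤ 1 / 10 * (sd c.1 / 2) := by
          rw [abs_mul, abs_sub_comm]
          exact mul_le_mul hx hd.1 (abs_nonneg _) (by norm_num)
        have b6 := abs_le.1 b5
        have b7 := abs_le.1 hd.2
        have b8 := u12_sd c.1
        rw [hgt_sub F (ctr c) (X, F.s a + F.x a * X) a, e0, abs_le]
        simp only at b7 ⊢
        constructor <;> linarith
    rw [sum_filter] at h1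
    refine h1.trans (sum_le_sum fun c _ => ?_)
    unfold ind
    split_ifs <;> simp
  have h1 : cnt (cl F.T 1) (fun a => |hgt F z0 a| ≤ 1 / 4) ≤
      ∑ c ∈ Lv, sd c.1 * cnt (cl F.T 1) fun a => |hgt F (ctr c) a| ≤ sd c.1 := by
    simp only [u12_cnt, mul_sum]
    rw [sum_comm]
    refine sum_le_sum fun a ha => ?_
    by_cases hq : |hgt F z0 a| ≤ 1 / 4
    · rw [ind, if_pos hq]
      exact key a ha hq
    · rw [ind, if_neg hq]
      exact sum_nonneg fun c _ => mul_nonneg (u12_sd c.1).le (by unfold ind; split_ifs <;> simp)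
  unfold nl wc
  refine (mul_le_mul_of_nonneg_left h1 (hv.1 1).le).trans (le_of_eq ?_)
  rw [mul_sum]
  exact sum_congr rfl fun c _ => by ring

end

/-- For the indices outside the filter `σ g ≤ c g ^ 2 / (4 C X)`, which sums to at most `c X / 4`;
for the others use `σ g ≤ c X σ ^ 2 / 4 + g ^ 2 / (c X)`. -/
theorem medium {α : Type} (L : Finset α) (σ g : α → ℝ) {c C X : ℝ} (hc : 0 < c) (hC : 0 < C)
    (hX : 0 < X) (hg : ∀ a ∈ L, 0 ≤ g a) (h1 : ∑ a ∈ L, σ a ^ 2 ≤ 1)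
    (h2 : ∑ a ∈ L, g a ^ 2 ≤ C * X ^ 2) (h3 : c * X ≤ ∑ a ∈ L, σ a * g a) :
    c ^ 2 / 2 * X ^ 2 ≤ ∑ a ∈ L with c * g a ≤ 4 * C * X * σ a, g a ^ 2 := by
  have a1 : ∑ a ∈ L with ¬(c * g a ≤ 4 * C * X * σ a), σ a * g a ≤ c * X / 4 := by
    calc _ ≤ ∑ a ∈ L with ¬(c * g a ≤ 4 * C * X * σ a), c / (4 * C * X) * g a ^ 2 := by
          refine sum_le_sum fun a ha => ?_
          obtain ⟨ha, hb⟩ := mem_filter.1 ha
          rw [div_mul_eq_mul_div, le_div_iff₀ (by positivity)]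
          nlinarith [mul_le_mul_of_nonneg_left (not_le.1 hb).le (hg a ha)]
      _ ≤ ∑ a ∈ L, c / (4 * C * X) * g a ^ 2 :=
          sum_le_sum_of_subset_of_nonneg (filter_subset _ _) fun a _ _ => by positivity
      _ ≤ c / (4 * C * X) * (C * X ^ 2) := by
          rw [← mul_sum]
          exact mul_le_mul_of_nonneg_left h2 (by positivity)
      _ = c * X / 4 := by field_simp
  have a2 : ∑ a ∈ L with c * g a ≤ 4 * C * X * σ a, σ a * g a ≤
      c * X / 4 + (∑ a ∈ L with c * g a ≤ 4 * C * X * σ a, g a ^ 2) / (c * X) := by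
    calc _ ≤ ∑ a ∈ L with c * g a ≤ 4 * C * X * σ a, (c * X / 4 * σ a ^ 2 + g a ^ 2 / (c * X)) := by
          refine sum_le_sum fun a _ => ?_
          have e : c * X / 4 * σ a ^ 2 + g a ^ 2 / (c * X) - σ a * g a =
              (c * X * σ a / 2 - g a) ^ 2 / (c * X) := by
            field_simp
            ring
          have : 0 ≤ (c * X * σ a / 2 - g a) ^ 2 / (c * X) := by positivity
          linarith
      _ ≤ _ := by
          rw [sum_add_distrib, ← mul_sum, ← sum_div]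
          have b1 : ∑ a ∈ L with c * g a ≤ 4 * C * X * σ a, σ a ^ 2 ≤ 1 :=
            (sum_le_sum_of_subset_of_nonneg (filter_subset _ _) fun a _ _ => sq_nonneg _).trans h1
          have b2 := mul_le_mul_of_nonneg_left b1 (show 0 ≤ c * X / 4 by positivity)
          linarith
  rw [← sum_filter_add_sum_filter_not L fun a => c * g a ≤ 4 * C * X * σ a] at h3
  have a3 : c * X / 2 ≤ (∑ a ∈ L with c * g a ≤ 4 * C * X * σ a, g a ^ 2) / (c * X) := by
    linarith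
  rw [le_div_iff₀ (by positivity)] at a3
  linarith

end Pool.Agent.MP_38296a_co.H21.URn

end FileUR12

section FileUR13

set_option autoImplicit false

namespace Pool.Agent.MP_38296a_co.H21.URn

open Finset Filter Classical Topology

theorem u13_z0 {p : Pt} (h : dist p z0 ≤ 1 / 2) :
    0 ≤ p.1 ∧ p.1 ≤ 1 ∧ 0 ≤ p.2 ∧ p.2 ≤ 1 := by
  rw [Prod.dist_eq, max_le_iff, Real.dist_eq, Real.dist_eq, abs_le, abs_le] at h
  simp only [z0] at h
  refine ⟨?_, ?_, ?_, ?_⟩ <;> linarith [h.1.1, h.1.2, h.2.1, h.2.2]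

theorem u13_floor {x y e : ℝ} (he : 0 < e) (h : ⌊x / e⌋ = ⌊y / e⌋) : |x - y| ≤ e := by
  have h1 := Int.abs_sub_lt_one_of_floor_eq_floor h
  rw [← sub_div, abs_div, abs_of_pos he, div_lt_one he] at h1
  exact h1.le

theorem u13_cell {x : ℝ} {j : ℕ} (h0 : 0 ≤ x) (h1 : x ≤ 1) :
    ⌊x / (2 / 2 ^ j)⌋ ∈ Ico ((0 : ℤ) * 2 ^ j) ((0 + 1) * 2 ^ j) := by
  have hp : (0 : ℝ) < 2 ^ j := by positivity
  rw [mem_Ico, zero_mul, zero_add, one_mul, Int.floor_nonneg, Int.floor_lt]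
  refine ⟨by positivity, ?_⟩
  push_cast
  rw [div_lt_iff₀ (by positivity), mul_div_cancel₀ _ hp.ne']
  linarith

theorem u13_par {a b : ℤ} (h : a % 2 = b % 2) (hne : a ≠ b) : 2 ≤ |a - b| := by
  rcases le_total a b with h1 | h1
  · rw [abs_of_nonpos (by omega)]; omega
  · rw [abs_of_nonneg (by omega)]; omega

/-- one class contains a quarter of the set -/
theorem u13_class {α : Type} (S : Finset α) (g : α → ℤ × ℤ) :
    ∃ c : ℤ × ℤ, #S ≤ 4 * #{t ∈ S | ((g t).1 % 2, (g t).2 % 2) = c} := by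
  by_contra hc
  push Not at hc
  have hm : ∀ t ∈ S, ((g t).1 % 2, (g t).2 % 2) ∈
      (({0, 1} : Finset ℤ) ×ˢ ({0, 1} : Finset ℤ)) := by
    intro t _
    simp only [mem_product, mem_insert, mem_singleton]
    omega
  have h1 := card_eq_sum_card_fiberwise (f := fun t => ((g t).1 % 2, (g t).2 % 2)) hm
  rw [sum_product] at h1
  simp only [sum_pair (show (0 : ℤ) ≠ 1 by norm_num)] at h1
  have a1 := hc (0, 0)
  have a2 := hc (0, 1)
  have a3 := hc (1, 0)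
  have a4 := hc (1, 1)
  omega

theorem u13_sd (h : ℕ) : 0 < sd h := by
  unfold sd; positivity

theorem u13_sd1 (h : ℕ) : sd h ≤ 1 := by
  unfold sd
  exact div_le_one_of_le₀ (one_le_pow₀ (by norm_num)) (by positivity)

/-- Choose `j` with `2 / σ ≤ 2 ^ j ≤ 4 / σ`, mesh `e = 2 / 2 ^ j ≤ σ`,
`loc t = (⌊(vt t).1 / e⌋, ⌊(vt t).2 / e⌋) ∈ [0, 2 ^ j) ^ 2`, `A.x = F.x`, `A.s = F.s / e`. One of
the four classes of `loc` modulo `2` contains a quarter of `S`; a fibre of `loc` has at most `B`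
elements (`Finset.card_le_mul_card_image`); choose one triple in every fibre of the class. -/
theorem extract {ι : Type} {F : Fam ι} {ε σ B : ℝ} (h : F.Ok ε) (he : ε ≤ 1 / 10)
    {S : Finset (Tri ι)} (hS : S ⊆ F.T) (hin : ∀ t ∈ S, dist (vt F t) z0 ≤ 1 / 2)
    (hσ : 0 < σ) (hσ1 : σ ≤ 1) (hB : ∀ t ∈ S, cnt S (fun u => dist (vt F u) (vt F t) ≤ σ) ≤ B) :
    ∃ (j : ℕ) (A : Arr ι), A.T ⊆ S ∧ A.Ok ∧ (∀ t ∈ A.T, A.loc t ∈ (Bx.mk j 0 0).cells) ∧
      2 / σ ≤ 2 ^ j ∧ 2 ^ j ≤ 4 / σ ∧ (#S : ℝ) ≤ 4 * B * #A.T := by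
  have h2 : (1 : ℝ) ≤ 2 / σ := by rw [le_div_iff₀ hσ]; linarith
  obtain ⟨n, hn1, hn2⟩ := exists_nat_pow_near h2 (show (1 : ℝ) < 2 by norm_num)
  set j := n + 1 with hj
  have hp : (0 : ℝ) < 2 ^ j := by positivity
  set e : ℝ := 2 / 2 ^ j with he'
  have he0 : 0 < e := by positivity
  have heσ : e ≤ σ := by
    rw [he', div_le_iff₀ hp]
    rw [div_lt_iff₀ hσ] at hn2
    linarith
  set loc : Tri ι → Cell := fun t => (⌊(vt F t).1 / e⌋, ⌊(vt F t).2 / e⌋) with hloc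
  obtain ⟨c, hc⟩ := u13_class S loc
  set S' := {t ∈ S | ((loc t).1 % 2, (loc t).2 % 2) = c} with hS'
  obtain ⟨T, hT1, hT2, hT3⟩ := Finset.exists_subset_injOn_image_eq_of_surjOn (f := loc)
    (S' : Set (Tri ι)) (S'.image loc) (by rw [coe_image]; exact Set.surjOn_image _ _)
  have hTS' : T ⊆ S' := fun t ht => hT1 ht
  have hTS : T ⊆ S := hTS'.trans (filter_subset _ _)
  have hTF : T ⊆ F.T := hTS.trans hS
  refine ⟨j, ⟨T, F.x, fun a => F.s a / e, loc⟩, hTS, ⟨?_, ?_, ?_, ?_⟩, ?_, hn2.le, ?_, ?_⟩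
  · exact fun t ht u hu => h.lin t (hTF ht) u (hTF hu)
  · exact fun t ht i => (h.sep t (hTF ht) i).trans he
  · intro t ht
    refine ⟨(vt F t).1 / e, (vt F t).2 / e, fun i => ?_, Int.floor_le _,
      (Int.lt_floor_add_one _).le, Int.floor_le _, (Int.lt_floor_add_one _).le⟩
    have := hgt_vt h he (hTF ht) i
    simp only [hgt] at this
    show (vt F t).2 / e = F.s (t i) / e + F.x (t i) * ((vt F t).1 / e)
    field_simp
    linarith
  · intro t ht u hu hne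
    have hl : loc t ≠ loc u := fun e => hne (hT2 ht hu e)
    have e1 := (mem_filter.1 (hTS' ht)).2
    have e2 := (mem_filter.1 (hTS' hu)).2
    have e3 := e1.trans e2.symm
    rw [Prod.mk.injEq] at e3
    show 2 ≤ |(loc t).1 - (loc u).1| ∨ 2 ≤ |(loc t).2 - (loc u).2|
    by_cases h1 : (loc t).1 = (loc u).1
    · exact Or.inr (u13_par e3.2 fun h2 => hl (Prod.ext h1 h2))
    · exact Or.inl (u13_par e3.1 h1)
  · intro t ht
    obtain ⟨a1, a2, a3, a4⟩ := u13_z0 (hin t (hTS ht))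
    exact mem_product.2 ⟨u13_cell a1 a2, u13_cell a3 a4⟩
  · rw [le_div_iff₀ hσ] at hn1 ⊢
    rw [hj, pow_succ]
    linarith
  · have hcard : #T = #(S'.image loc) := by rw [← hT3, card_image_of_injOn hT2]
    have h1 : (#S' : ℝ) ≤ B * #T := by
      rw [card_eq_sum_card_image loc S', hcard]
      push_cast
      rw [mul_comm, ← nsmul_eq_mul]
      refine sum_le_card_nsmul _ _ _ fun y hy => ?_
      obtain ⟨t, ht, rfl⟩ := mem_image.1 hy
      refine le_trans ?_ (hB t (filter_subset _ _ ht))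
      simp only [cnt]
      refine Nat.cast_le.2 (card_le_card fun u hu => ?_)
      rw [mem_filter] at hu ⊢
      refine ⟨filter_subset _ _ hu.1, ?_⟩
      have e3 := hu.2
      simp only [hloc, Prod.mk.injEq] at e3
      rw [Prod.dist_eq, max_le_iff, Real.dist_eq, Real.dist_eq]
      exact ⟨(u13_floor he0 e3.1).trans heσ, (u13_floor he0 e3.2).trans heσ⟩
    have h3 : (#S : ℝ) ≤ 4 * #S' := by exact_mod_cast hc
    show (#S : ℝ) ≤ 4 * B * #T
    linarith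

/-- the lines of triples with vertex in the unit square have height at most `2` at `z0` -/
theorem lines_le {ι : Type} {F : Fam ι} {ε c X : ℝ} {v : Fin 3 → ℝ} (h : F.Ok ε)
    (he : ε ≤ 1 / 10) (hc : 0 < c) (hv : ∀ i, c ≤ v i) (hX : ∀ i, nl F v i z0 2 ≤ X)
    {S : Finset (Tri ι)} (hS : S ⊆ F.T) (hin : ∀ t ∈ S, dist (vt F t) z0 ≤ 1 / 2) :
    (#(lines S) : ℝ) ≤ 3 * X / c := by
  have h1 : ∀ i, (#(cl S i) : ℝ) ≤ X / c := by
    intro i
    rw [le_div_iff₀ hc]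
    refine le_trans ?_ (hX i)
    have h2 : (#(cl S i) : ℝ) ≤ cnt (cl F.T i) fun a => |hgt F z0 a| ≤ 2 := by
      simp only [cnt]
      refine Nat.cast_le.2 (card_le_card fun a ha => ?_)
      obtain ⟨t, ht, rfl⟩ := mem_image.1 ha
      refine mem_filter.2 ⟨mem_cl (hS ht) i, ?_⟩
      have a1 := hgt_lip h he (mem_cl (hS ht) i) z0 (vt F t)
      rw [hgt_vt h he (hS ht) i, sub_zero] at a1
      linarith [hin t ht]
    simp only [nl, wc]
    rw [mul_comm]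
    exact mul_le_mul (hv i) h2 (Nat.cast_nonneg _) (hc.le.trans (hv i))
  have h3 : #(lines S) ≤ ∑ i, #(cl S i) := card_biUnion_le
  have h4 : (#(lines S) : ℝ) ≤ ∑ i, (#(cl S i) : ℝ) := by exact_mod_cast h3
  rw [Fin.sum_univ_three] at h4
  have := h1 0
  have := h1 1
  have := h1 2
  rw [mul_div_assoc]
  linarith

section
variable {ι : Type} {F : Fam ι} {v : Fin 3 → ℝ} {Good : ℕ × Cell → Prop}
  {Al Lv : Finset (ℕ × Cell)}

/-- the squares `sqi (ctr c) (sd c.1 / 8)` of the leaves are disjoint (`Tree.disj`) -/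
theorem sum_inner (hv : Wt v) (hT : Tree Good Al Lv) {S : Finset (ℕ × Cell)} (hS : S ⊆ Lv)
    {Φ : Pt → ℝ} (h0 : ∀ p, 0 ≤ Φ p)
    (h1 : ∀ c ∈ S, ∀ p, dist p (ctr c) ≤ sd c.1 / 8 → 1 ≤ Φ p) :
    ∑ c ∈ S, LL F v (sqi (ctr c) (sd c.1 / 8)) ≤ LL F v Φ := by
  rw [← LL_sum]
  refine LL_mono F hv fun p => ?_
  by_cases hp : ∃ c ∈ S, dist p (ctr c) ≤ sd c.1 / 8
  · obtain ⟨c, hc, hd⟩ := hp
    rw [sum_eq_single_of_mem c hc]
    · exact (sqi_mem _ _ _).2.trans (h1 c hc p hd)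
    · intro c' hc' hne
      simp only [sqi, ind]
      refine if_neg fun hd' => hne (hT.disj c' (hS hc') c (hS hc) p ?_ ?_)
      · linarith [u13_sd c'.1]
      · linarith [u13_sd c.1]
  · push Not at hp
    refine le_trans (le_of_eq (sum_eq_zero fun c hc => ?_)) (h0 p)
    simp only [sqi, ind]
    exact if_neg (not_le.2 (hp c hc))

/-- `Vitali.exists_disjoint_subfamily_covering_enlargement_closedBall` for the balls with centre
`ctr c` and radius `8000 * sd c.1`; then `sum_inner` with `Φ` the sum of the indicators of the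
five times larger squares, and `Rg` twice. -/
theorem vitali (hv : Wt v) (hT : Tree Good Al Lv) {S : Finset (ℕ × Cell)} (hS : S ⊆ Lv)
    (hR : ∀ c ∈ S, Rg F v (ctr c) (sd c.1)) : ∃ U ⊆ S,
      (∀ c ∈ U, ∀ c' ∈ U, ∀ p, bump (ctr c) (4000 * sd c.1) p ≠ 0 →
        bump (ctr c') (4000 * sd c'.1) p ≠ 0 → c = c') ∧
      ∑ c ∈ S, LL F v (bump (ctr c) (4000 * sd c.1)) ≤
        10 ^ 32 * ∑ c ∈ U, LL F v (bump (ctr c) (4000 * sd c.1)) := by
  obtain ⟨u, hu1, hu2, hu3⟩ := Vitali.exists_disjoint_subfamily_covering_enlargement_closedBall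
    (S : Set (ℕ × Cell)) ctr (fun c => 8000 * sd c.1) 8000
    (fun c _ => by linarith [u13_sd1 c.1]) 5 (by norm_num)
  refine ⟨{c ∈ S | c ∈ u}, filter_subset _ _, ?_, ?_⟩
  · intro c hc c' hc' p hp hp'
    by_contra hne
    have hd := hu2 (mem_filter.1 hc).2 (mem_filter.1 hc').2 hne
    have hb : ∀ a : ℕ × Cell, bump (ctr a) (4000 * sd a.1) p ≠ 0 →
        p ∈ Metric.closedBall (ctr a) (8000 * sd a.1) := by
      intro a ha
      by_contra hn
      rw [Metric.mem_closedBall, not_le] at hn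
      exact ha (bump_zero (by linarith [u13_sd a.1]) (by linarith))
    exact Set.disjoint_left.1 hd (hb c hp) (hb c' hp')
  · have a1 : ∑ c ∈ S, LL F v (bump (ctr c) (4000 * sd c.1)) ≤
        10 ^ 16 * ∑ c ∈ S, LL F v (sqi (ctr c) (sd c.1 / 8)) := by
      rw [mul_sum]
      exact sum_le_sum fun c hc => (hR c hc).1
    have a2 := sum_inner (F := F) hv hT hS
      (Φ := fun p => ∑ c ∈ {c ∈ S | c ∈ u}, sqi (ctr c) (40000 * sd c.1) p)
      (fun p => sum_nonneg fun c _ => (sqi_mem _ _ _).1) (by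
        intro c hc p hp
        obtain ⟨b, hb, hsub⟩ := hu3 c hc
        have hp2 : p ∈ Metric.closedBall (ctr c) (8000 * sd c.1) := by
          rw [Metric.mem_closedBall]; linarith [u13_sd c.1]
        have hp3 := hsub hp2
        rw [Metric.mem_closedBall] at hp3
        have hbU : b ∈ ({c ∈ S | c ∈ u} : Finset (ℕ × Cell)) := mem_filter.2 ⟨hu1 hb, hb⟩
        refine le_trans ?_ (single_le_sum (f := fun c => sqi (ctr c) (40000 * sd c.1) p)
          (fun c _ => (sqi_mem _ _ _).1) hbU)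
        simp only [sqi, ind]
        rw [if_pos (by linarith)])
    rw [LL_sum] at a2
    have a3 : ∑ c ∈ {c ∈ S | c ∈ u}, LL F v (sqi (ctr c) (40000 * sd c.1)) ≤
        10 ^ 16 * ∑ c ∈ {c ∈ S | c ∈ u}, LL F v (bump (ctr c) (4000 * sd c.1)) := by
      rw [mul_sum]
      exact sum_le_sum fun c hc => (hR c (filter_subset _ _ hc)).2.1
    linarith

end

end Pool.Agent.MP_38296a_co.H21.URn

end FileUR13

section FileUR10

set_option autoImplicit false

namespace Pool.Agent.MP_38296a_co.H21.URn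

open Finset Filter Classical Topology

theorem u10_ne : UU.NeBot := (hyperfilter ℕ).neBot'

theorem u10_top : UU ≤ atTop := Nat.hyperfilter_le_atTop

section Aux
variable {ι : Type} {F : Fam ι} {v : Fin 3 → ℝ}

theorem u10_itv (F : Fam ι) (v : Fin 3 → ℝ) (z : Pt) (u : ℝ) (i : Fin 3) (α β : ℝ) :
    nu F v z u i (itv α β) =
      wc F v i (fun a => α ≤ lab F i z u a ∧ lab F i z u a ≤ β) / √(LL F v (bump 0 1)) :=
  nu_ind F v z u i fun s => α ≤ s ∧ s ≤ β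

theorem u10_ann (F : Fam ι) (v : Fin 3 → ℝ) (z : Pt) (u : ℝ) (i : Fin 3) (b lam r : ℝ) :
    nu F v z u i (ann b lam r) =
      wc F v i (fun a => lam ≤ |lab F i z u a - b| ∧ |lab F i z u a - b| ≤ r) /
        √(LL F v (bump 0 1)) :=
  nu_ind F v z u i fun s => lam ≤ |s - b| ∧ |s - b| ≤ r

theorem u10_pos {P K τ a : ℝ} (h : Loc F v P K τ a) : 0 < √(LL F v (bump 0 1)) :=
  Real.sqrt_pos.2 (lt_of_lt_of_le one_pos h.big.1)

theorem u10_dist {b : Fin 3 → ℝ} {c : ℝ} (hb : ∀ i, |b i| ≤ c) (z : Pt) {u : ℝ} (hu : 0 < u) :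
    dist (z + u • ptOf b) z ≤ u * c := by
  have h0 := abs_le.1 (hb 0)
  have h1 := abs_le.1 (hb 1)
  have h2 := abs_le.1 (hb 2)
  rw [dist_eq_norm, add_sub_cancel_left, norm_smul, Real.norm_eq_abs, abs_of_pos hu]
  refine mul_le_mul_of_nonneg_left ?_ hu.le
  rw [Prod.norm_def]
  refine max_le ?_ ?_ <;> simp only [ptOf, Real.norm_eq_abs] <;> rw [abs_le] <;>
    constructor <;> linarith [h0.1, h0.2, h1.1, h1.2, h2.1, h2.2]

/-- the labels at `z` and at the point with coordinates `b` -/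
theorem u10_shift {ε : ℝ} (h : F.Ok ε) (he : 0 ≤ ε) {b : Fin 3 → ℝ} {c : ℝ}
    (hs : b 0 + b 1 + b 2 = 0) (hb : ∀ i, |b i| ≤ c) (z : Pt) {u : ℝ} (hu : 0 < u) {i : Fin 3}
    {a : ι} (ha : a ∈ cl F.T i) :
    |lab F i z u a - b i - lab F i (z + u • ptOf b) u a| ≤ 2 * ε * c := by
  have h1 := lab_sub h ha z (z + u • ptOf b) hu
  rw [yc_ptOf hs i z hu] at h1
  have h2 := u10_dist hb z hu
  have h3 : 2 * ε * dist (z + u • ptOf b) z ≤ 2 * ε * (u * c) :=
    mul_le_mul_of_nonneg_left h2 (by positivity)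
  have h4 : u * |lab F i z u a - b i - lab F i (z + u • ptOf b) u a| ≤ u * (2 * ε * c) := by
    linarith
  exact le_of_mul_le_mul_left h4 hu

/-- small labels give small heights -/
theorem u10_up (hv : Wt v) (i : Fin 3) (z : Pt) {u c : ℝ} (hu : 0 < u) {Q : ι → Prop}
    (hQ : ∀ a ∈ cl F.T i, |hgt F z a| ≤ u * c → Q a) :
    wc F v i (fun a => -c ≤ lab F i z u a ∧ lab F i z u a ≤ c) ≤ wc F v i Q := by
  refine wc_mono F hv i fun a ha hc => hQ a ha ?_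
  exact (lab_abs F i z hu a).1.trans (mul_le_mul_of_nonneg_left (abs_le.2 hc) hu.le)

/-- small heights give small labels -/
theorem u10_down (hv : Wt v) (i : Fin 3) (z : Pt) {u c s : ℝ} (hu : 0 < u) (hs : 2 * s ≤ u * c) :
    nl F v i z s ≤ wc F v i (fun a => -c ≤ lab F i z u a ∧ lab F i z u a ≤ c) := by
  refine wc_mono F hv i fun a _ hc => abs_le.1 ?_
  have := (lab_abs F i z hu a).2
  exact le_of_mul_le_mul_left (by linarith) hu

end Aux

/-- Choose `z k, u k` by `split` (`Filter.Eventually.choice`). Apply `dich` to the labels at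
`(z k, u k)` with `R = 10 ^ 5`, `θ = 2`, `t1 = 100`, `A = 101 / 100 * w`, `a0 = 89 / 100 * w`
(lines with label at most `8 R` have height at most `r` at `zs`; `pi_seq`). First case: the
interval `[-2000, 2000]` gives `89 / 100 * w ≤ 16000 d`, the interval `[-R / 5, R / 5]` gives
`40000 d ≤ 101 / 100 * w`. Second case: `z' = z k + u k • ptOf b`; a line of the cluster with
`u / 2 < |hgt z' l|` is either far from `z k` or has its label in `ann (b i) (1 / 4) 50`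
(`lab_sub`, `yc_ptOf`, `lab_abs`), so `Conc z' (u / 2)` holds eventually. -/
theorem no_atom {ι : ℕ → Type} {F : ∀ k, Fam (ι k)} {v : ℕ → Fin 3 → ℝ} {P K τ : ℕ → ℝ}
    {a : ℝ} (h : ∀ k, Loc (F k) (v k) (P k) (K k) (τ k) a) (hτ : Tendsto τ UU (𝓝 0))
    {zs : Pt} {w r : ℝ} (hw : 0 < w) (hr : 0 < r) (hr1 : r ≤ 1 / 1000)
    (hz : dist zs 0 ≤ 1 / 200) (hA : ∀ᶠ k in UU, Atom (F k) (v k) zs w r) : False := by
  have := u10_ne
  obtain ⟨τ0, hτ0, hs⟩ := split (h 0).a0 hw hr hr1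
  have e0 : ∀ᶠ k in UU, τ k ≤ τ0 := hτ.eventually (eventually_le_nhds hτ0)
  have e1 : ∀ᶠ k in UU, ∃ y : Pt × ℝ, 0 < y.2 ∧ y.2 ≤ r / 10 ^ 9 ∧
      dist y.1 zs ≤ 8 * (r / 10 ^ 9) ∧
      (∀ i, 89 / 100 * w * √(LL (F k) (v k) (bump 0 1)) ≤ nl (F k) (v k) i y.1 y.2) ∧
      (∀ i, wc (F k) (v k) i (fun l => |hgt (F k) zs l| ≤ r / 10 ^ 9 ∧
        20 * y.2 < |hgt (F k) y.1 l|) ≤ w / 40 * √(LL (F k) (v k) (bump 0 1))) ∧
      ∀ z', ¬ Conc (F k) (v k) zs w r z' (y.2 / 2) := by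
    filter_upwards [e0, hA] with k h0 h1
    obtain ⟨z, u, hh⟩ := hs _ (F k) (v k) (P k) (K k) (τ k) zs (h k) h0 hz h1
    exact ⟨(z, u), hh⟩
  obtain ⟨y, hy⟩ := e1.choice
  have hR : (0 : ℝ) < 10 ^ 5 := by norm_num
  have hA' : ∀ i, ∀ᶠ k in UU, nu (F k) (v k) (y k).1 (y k).2 i
      (itv (-(8 * 10 ^ 5)) (8 * 10 ^ 5)) ≤ 101 / 100 * w := by
    intro i
    filter_upwards [hy, hA] with k h0 h1
    obtain ⟨u0, u1, u2, -⟩ := h0
    rw [u10_itv, div_le_iff₀ (u10_pos (h k))]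
    refine (u10_up (h k).wt i _ u0 (Q := fun a => |hgt (F k) zs a| ≤ r) ?_).trans (h1 i).2
    intro l hl hc
    have h2 := hgt_lip (h k).ok ((h k).t1.trans (by norm_num)) hl zs (y k).1
    have h3 := abs_sub_abs_le_abs_sub (hgt (F k) zs l) (hgt (F k) (y k).1 l)
    norm_num at u1 u2 hc ⊢
    linarith
  have hz' : ∀ᶠ k in UU, dist (y k).1 0 ≤ 1 / 100 ∧ 0 < (y k).2 ∧
      4 * 10 ^ 5 * (y k).2 ≤ 1 / 2 := by
    filter_upwards [hy] with k h0
    obtain ⟨u0, u1, u2, -⟩ := h0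
    have := dist_triangle (y k).1 zs 0
    norm_num at u1 u2
    refine ⟨by linarith, u0, by norm_num; linarith⟩
  have hPI := pi_seq h hτ hR hz' hA'
  have ha' : ∀ i, ∀ᶠ k in UU, 89 / 100 * w ≤ nu (F k) (v k) (y k).1 (y k).2 i (itv (-2) 2) := by
    intro i
    filter_upwards [hy] with k h0
    obtain ⟨u0, -, -, u3, -⟩ := h0
    rw [u10_itv, le_div_iff₀ (u10_pos (h k))]
    exact (u3 i).trans (u10_down (h k).wt i _ u0 (by linarith))
  rcases dich (ν := fun k => nu (F k) (v k) (y k).1 (y k).2) hR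
    (fun k i => nu_mono (F k) (h k).wt _ _ i) hA' hPI (a0 := 89 / 100 * w) (θ := 2) (t1 := 100)
    (by positivity) (by norm_num) ha' (by norm_num) (by norm_num) with
    ⟨d, hd, hD⟩ | ⟨b, w', -, hb, hB⟩
  · obtain ⟨k, h0, h1, h2⟩ := (hD.and ((hA' 0).and (ha' 0))).exists
    have k1 := (h0 0 (-2000) 2000 (by norm_num) (by norm_num) (by norm_num)).2
    have k2 := (h0 0 (-20000) 20000 (by norm_num) (by norm_num) (by norm_num)).1
    have k3 : nu (F k) (v k) (y k).1 (y k).2 0 (itv (-2) 2) ≤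
        nu (F k) (v k) (y k).1 (y k).2 0 (itv (-2000) 2000) := by
      rw [u10_itv, u10_itv]
      refine div_le_div_of_nonneg_right (wc_mono _ (h k).wt _ fun l _ hl => ?_)
        (u10_pos (h k)).le
      constructor <;> linarith [hl.1, hl.2]
    have k4 : nu (F k) (v k) (y k).1 (y k).2 0 (itv (-20000) 20000) ≤
        nu (F k) (v k) (y k).1 (y k).2 0 (itv (-(8 * 10 ^ 5)) (8 * 10 ^ 5)) := by
      rw [u10_itv, u10_itv]
      refine div_le_div_of_nonneg_right (wc_mono _ (h k).wt _ fun l _ hl => ?_)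
        (u10_pos (h k)).le
      constructor <;> linarith [hl.1, hl.2]
    have k5 := (h2.trans k3).trans k1
    have k6 := (k2.trans k4).trans h1
    linarith
  · have e2 : ∀ᶠ k in UU, ∀ i, nu (F k) (v k) (y k).1 (y k).2 i (ann (b i) (1 / 4) (100 / 2)) ≤
        w / 40 := by
      refine eventually_all.2 fun i => ?_
      exact ((hB i).2.2 (1 / 4) (by norm_num)).eventually (eventually_le_nhds (by positivity))
    obtain ⟨k, ⟨u0, -, -, -, u4, u5⟩, h1⟩ := (hy.and e2).exists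
    refine u5 ((y k).1 + (y k).2 • ptOf b) fun i => ?_
    have g0 := u10_pos (h k)
    have h2 := h1 i
    rw [u10_ann, div_le_iff₀ g0] at h2
    refine (wc_le_add (F k) (h k).wt i
      (Q₁ := fun l => |hgt (F k) zs l| ≤ r / 10 ^ 9 ∧ 20 * (y k).2 < |hgt (F k) (y k).1 l|)
      (Q₂ := fun l => 1 / 4 ≤ |lab (F k) i (y k).1 (y k).2 l - b i| ∧
        |lab (F k) i (y k).1 (y k).2 l - b i| ≤ 100 / 2) ?_).trans ?_
    · intro l hl hc
      by_cases hf : 20 * (y k).2 < |hgt (F k) (y k).1 l|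
      · exact Or.inl ⟨hc.1, hf⟩
      right
      have hb4 : ∀ j, |b j| ≤ 4 := fun j => by linarith [(hB j).1]
      have s1 := u10_shift (h k).ok (h k).t0.le hb hb4 (y k).1 u0 hl
      have s2 := (lab_abs (F k) i ((y k).1 + (y k).2 • ptOf b) u0 l).1
      have s3 := (lab_abs (F k) i (y k).1 u0 l).2
      have s4 : 1 / 2 < |lab (F k) i ((y k).1 + (y k).2 • ptOf b) (y k).2 l| :=
        lt_of_mul_lt_mul_left (by linarith [hc.2]) u0.le
      have s5 : |lab (F k) i (y k).1 (y k).2 l| ≤ 40 :=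
        le_of_mul_le_mul_left (by linarith [not_lt.1 hf]) u0
      have s6 := abs_sub_abs_le_abs_sub (lab (F k) i ((y k).1 + (y k).2 • ptOf b) (y k).2 l)
        (lab (F k) i (y k).1 (y k).2 l - b i)
      rw [abs_sub_comm] at s1
      have s7 := abs_sub (lab (F k) i (y k).1 (y k).2 l) (b i)
      have s8 := (h k).t1
      constructor <;> linarith [hb4 i]
    · have := u4 i
      have : 0 ≤ w * √(LL (F k) (v k) (bump 0 1)) := by positivity
      linarith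

/-- By contradiction take counterexamples with `τ k → 0` (for the bound `1 / (k + 1)`; `UU` is
finer than `atTop`). Apply `dich` to the labels at `(0, 1)` with `R = 1 / 40`, `θ = 1 / 1000`,
`t1 = min (t / 40) (1 / 4000)`, `A = 5 / a`, `a0 = a ^ 2 / 10` (`bounds`, `pi_seq`). First case:
`Unif` with `d √G` (for the class `1` the interval of labels is `[-2 β, -2 α]`). Second case:
`zs = ptOf b`, `r = t1 / 8`; lines with height at most `r` at `zs` have labels within `t1 / 2` of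
`b i`, lines with labels within `r / 10 ^ 9 / 2` of `b i` have height at most `r / 10 ^ 9`
(eventually), so `Atom` holds eventually, against `no_atom`. -/
theorem lt0 {a t : ℝ} (ha : 0 < a) (ht : 0 < t) : ∃ τ0 : ℝ, 0 < τ0 ∧ ∀ (ι : Type) (F : Fam ι)
    (v : Fin 3 → ℝ) (P K τ : ℝ), Loc F v P K τ a → τ ≤ τ0 → Unif F v t 0 1 := by
  have := u10_ne
  by_contra hc
  have hc' : ∀ k : ℕ, ∃ (ι : Type) (F : Fam ι) (v : Fin 3 → ℝ) (P K τ : ℝ),
      Loc F v P K τ a ∧ τ ≤ 1 / ((k : ℝ) + 1) ∧ ¬ Unif F v t 0 1 := by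
    intro k
    by_contra h1
    refine hc ⟨1 / ((k : ℝ) + 1), by positivity, fun ι F v P K τ h2 h3 => ?_⟩
    by_contra h4
    exact h1 ⟨ι, F, v, P, K, τ, h2, h3, h4⟩
  choose ι F v P K τ h hk hU using hc'
  have hτ : Tendsto τ UU (𝓝 0) :=
    squeeze_zero (fun k => (h k).t0.le) hk
      (tendsto_one_div_add_atTop_nhds_zero_nat.mono_left u10_top)
  obtain ⟨τ0, hτ0, hb⟩ := bounds ha
  have e0 : ∀ᶠ k in UU, τ k ≤ τ0 := hτ.eventually (eventually_le_nhds hτ0)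
  have hR : (0 : ℝ) < 1 / 40 := by norm_num
  have hA' : ∀ i, ∀ᶠ k in UU, nu (F k) (v k) 0 1 i (itv (-(8 * (1 / 40))) (8 * (1 / 40))) ≤
      5 / a := by
    intro i
    filter_upwards [e0] with k h0
    rw [u10_itv, div_le_iff₀ (u10_pos (h k))]
    refine (u10_up (h k).wt i _ one_pos (Q := fun l => |hgt (F k) 0 l| ≤ 1 / 4) ?_).trans
      (hb _ _ _ _ _ _ (h k) h0 i).1
    intro l _ hl
    linarith
  have hPI := pi_seq h hτ (z := fun _ => 0) (u := fun _ => 1) hR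
    (Eventually.of_forall fun k => by norm_num) hA'
  have ha' : ∀ i, ∀ᶠ k in UU,
      a ^ 2 / 10 ≤ nu (F k) (v k) 0 1 i (itv (-(1 / 1000)) (1 / 1000)) := by
    intro i
    filter_upwards [e0] with k h0
    rw [u10_itv, le_div_iff₀ (u10_pos (h k))]
    exact (hb _ _ _ _ _ _ (h k) h0 i).2.trans (u10_down (h k).wt i _ one_pos (by norm_num))
  obtain ⟨t1, t10, t11, t12⟩ : ∃ t1 : ℝ, 0 < t1 ∧ t1 ≤ t / 40 ∧ t1 ≤ 1 / 4000 :=
    ⟨min (t / 40) (1 / 4000), lt_min (by positivity) (by norm_num), min_le_left _ _,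
      min_le_right _ _⟩
  rcases dich (ν := fun k => nu (F k) (v k) 0 1) hR
    (fun k i => nu_mono (F k) (h k).wt _ _ i) hA' hPI (a0 := a ^ 2 / 10) (θ := 1 / 1000)
    (t1 := t1) (by positivity) (by norm_num) ha' t10 (by linarith) with
    ⟨d, hd, hD⟩ | ⟨b, w, hw, hs, hB⟩
  · obtain ⟨k, h0⟩ := hD.exists
    have g0 := u10_pos (h k)
    refine hU k ⟨d * √(LL (F k) (v k) (bump 0 1)), by positivity, fun i α β h1 h2 h3 => ?_⟩
    obtain ⟨α', β', k1, k2, k3, k4, k5⟩ : ∃ α' β' : ℝ, -(1 / 200) ≤ α' ∧ β' ≤ 1 / 200 ∧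
        β - α ≤ β' - α' ∧ β' - α' ≤ 2 * (β - α) ∧ ∀ l, (α ≤ hgt (F k) 0 l ∧ hgt (F k) 0 l ≤ β) ↔
          (α' ≤ lab (F k) i 0 1 l ∧ lab (F k) i 0 1 l ≤ β') := by
      by_cases hi : i = 1
      · subst hi
        refine ⟨-2 * β, -2 * α, by linarith, by linarith, by linarith, by linarith, fun l => ?_⟩
        have : lab (F k) 1 0 1 l = -2 * hgt (F k) 0 l := by simp [lab, cf]
        rw [this]
        constructor <;> rintro ⟨h4, h5⟩ <;> constructor <;> linarith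
      · refine ⟨α, β, by linarith, by linarith, by linarith, by linarith, fun l => ?_⟩
        have : lab (F k) i 0 1 l = hgt (F k) 0 l := by
          fin_cases i
          · simp [lab, cf]
          · exact absurd rfl hi
          · simp [lab, cf]
        rw [this]
    obtain ⟨m1, m2⟩ := h0 i α' β' (by linarith) (by linarith) (by linarith)
    rw [u10_itv, le_div_iff₀ g0] at m1
    rw [u10_itv, div_le_iff₀ g0] at m2
    have e : (fun l => α ≤ hgt (F k) 0 l ∧ hgt (F k) 0 l ≤ β) =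
        fun l => α' ≤ lab (F k) i 0 1 l ∧ lab (F k) i 0 1 l ≤ β' := funext fun l => propext (k5 l)
    rw [e]
    have g1 : 0 < d * √(LL (F k) (v k) (bump 0 1)) := by positivity
    constructor <;> nlinarith
  · have hb2 : ∀ j, |b j| ≤ 1 / 200 := fun j => by linarith [(hB j).1]
    have hz := u10_dist hb2 0 one_pos
    have hl : 0 < t1 / 8 / 10 ^ 9 / 2 := by positivity
    refine no_atom h hτ (zs := 0 + (1 : ℝ) • ptOf b) (r := t1 / 8) hw (by positivity)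
      (by linarith) (by linarith) ?_
    have e1 : ∀ᶠ k in UU, τ k ≤ t1 / 8 / 10 ^ 9 / 2 := hτ.eventually (eventually_le_nhds hl)
    have e2 : ∀ᶠ k in UU, ∀ i,
        nu (F k) (v k) 0 1 i (ann (b i) (t1 / 8 / 10 ^ 9 / 2) (t1 / 2)) ≤ w / 200 :=
      eventually_all.2 fun i =>
        ((hB i).2.2 _ hl).eventually (eventually_le_nhds (by positivity))
    have e3 : ∀ᶠ k in UU, ∀ i,
        nu (F k) (v k) 0 1 i (itv (b i - t1 / 2) (b i + t1 / 2)) ≤ 101 / 100 * w :=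
      eventually_all.2 fun i => (hB i).2.1.eventually (eventually_le_nhds (by linarith))
    have e4 : ∀ᶠ k in UU, ∀ i,
        199 / 200 * w ≤ nu (F k) (v k) 0 1 i (itv (b i - t1 / 2) (b i + t1 / 2)) :=
      eventually_all.2 fun i => (hB i).2.1.eventually (eventually_ge_nhds (by linarith))
    filter_upwards [e1, e2, e3, e4] with k h1 h2 h3 h4 i
    have g0 := u10_pos (h k)
    have m2 := h2 i
    have m3 := h3 i
    have m4 := h4 i
    rw [u10_ann, div_le_iff₀ g0] at m2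
    rw [u10_itv, div_le_iff₀ g0] at m3
    rw [u10_itv, le_div_iff₀ g0] at m4
    have t0 := (h k).t0
    constructor
    · have := wc_le_add (F k) (h k).wt i
        (Q := fun l => b i - t1 / 2 ≤ lab (F k) i 0 1 l ∧ lab (F k) i 0 1 l ≤ b i + t1 / 2)
        (Q₁ := fun l => |hgt (F k) (0 + (1 : ℝ) • ptOf b) l| ≤ t1 / 8 / 10 ^ 9)
        (Q₂ := fun l => t1 / 8 / 10 ^ 9 / 2 ≤ |lab (F k) i 0 1 l - b i| ∧
          |lab (F k) i 0 1 l - b i| ≤ t1 / 2) ?_
      · unfold nl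
        linarith
      · intro l hl' hc
        by_cases hf : t1 / 8 / 10 ^ 9 / 2 ≤ |lab (F k) i 0 1 l - b i|
        · exact Or.inr ⟨hf, abs_le.2 ⟨by linarith [hc.1], by linarith [hc.2]⟩⟩
        left
        have s1 := u10_shift (h k).ok t0.le hs hb2 0 one_pos hl'
        have s2 := (lab_abs (F k) i (0 + (1 : ℝ) • ptOf b) one_pos l).1
        have s6 := abs_sub_abs_le_abs_sub (lab (F k) i (0 + (1 : ℝ) • ptOf b) 1 l)
          (lab (F k) i 0 1 l - b i)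
        rw [abs_sub_comm] at s1
        linarith [not_le.1 hf]
    · refine le_trans (wc_mono (F k) (h k).wt i fun l hl' hc => ?_) m3
      have s1 := u10_shift (h k).ok t0.le hs hb2 0 one_pos hl'
      have s2 := (lab_abs (F k) i (0 + (1 : ℝ) • ptOf b) one_pos l).2
      have s6 := abs_sub_abs_le_abs_sub (lab (F k) i 0 1 l - b i)
        (lab (F k) i (0 + (1 : ℝ) • ptOf b) 1 l)
      have s7 : |lab (F k) i 0 1 l - b i| ≤ t1 / 2 := by
        norm_num at h1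
        linarith
      rw [abs_le] at s7
      constructor <;> linarith [s7.1, s7.2]

/-- `lt0` for `sim F z r` (`sim_all`), with `τ = min τ0 (1 / 100)`. -/
theorem lt {a t : ℝ} (ha : 0 < a) (ha1 : a ≤ 1) (ht : 0 < t) : ∃ τ : ℝ, 0 < τ ∧ τ ≤ 1 / 100 ∧
    ∀ (ι : Type) (F : Fam ι) (v : Fin 3 → ℝ) (P K : ℝ) (z : Pt) (r : ℝ), F.Ok τ → Wt v →
    0 < P → P ≤ 1 → 0 ≤ K → UB F P τ K → 0 < r → NE F v P τ z r → Dbl F v a z r →
    K + 1 ≤ τ * P ^ 2 * √(LL F v (bump z r)) → Unif F v t z r := by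
  obtain ⟨τ0, hτ0, h0⟩ := lt0 ha ht
  have hm : 0 < min τ0 (1 / 100) := lt_min hτ0 (by norm_num)
  refine ⟨min τ0 (1 / 100), hm, min_le_right _ _,
    fun ι F v P K z r hok hv hP hP1 hK hub hr hne hdb hms => ?_⟩
  obtain ⟨s1, s2, s3, s4, s5, s6⟩ :=
    sim_all hok ((min_le_right _ _).trans (by norm_num)) z hr
  have e0 : z + r • (0 : Pt) = z := by simp
  have hL : Loc (sim F z r) v P K (min τ0 (1 / 100)) a := by
    refine ⟨s1, hv, hP, hP1, hK, hm, min_le_right _ _, ha, ha1, s2 _ _ _ hub, ?_, ?_, ?_⟩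
    · have := s5 0 1
      unfold NE
      rw [s3, e0, mul_one]
      rw [e0, mul_one] at this
      exact hne.trans this.ge
    · unfold Dbl
      rw [s4, s4, e0, show r * (4 * 1) = 4 * r by ring, show r * (1 / 10 ^ 4) = r / 10 ^ 4 by ring]
      exact hdb
    · rw [s3, e0, mul_one]
      exact hms
  obtain ⟨d, hd, hD⟩ := h0 _ _ _ _ _ _ hL (min_le_left _ _)
  refine ⟨d / r, by positivity, fun i α β h1 h2 h3 => ?_⟩
  obtain ⟨m1, m2⟩ := hD i (α / r) (β / r) (by rw [le_div_iff₀ hr]; linarith)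
    (by rw [div_le_iff₀ hr]; linarith) (by rw [← sub_div, le_div_iff₀ hr]; linarith)
  have e : wc (sim F z r) v i (fun l => α / r ≤ hgt (sim F z r) 0 l ∧ hgt (sim F z r) 0 l ≤ β / r)
      = wc F v i (fun l => α ≤ hgt F z l ∧ hgt F z l ≤ β) := by
    have : (fun l => α / r ≤ hgt (sim F z r) 0 l ∧ hgt (sim F z r) 0 l ≤ β / r) =
        fun l => α ≤ hgt F z l ∧ hgt F z l ≤ β := by
      funext l
      rw [s6, e0, div_le_div_iff_of_pos_right hr, div_le_div_iff_of_pos_right hr]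
    rw [this]
    rfl
  rw [e] at m1 m2
  have e1 : d / r * (β - α) = d * (β / r - α / r) := by ring
  have e2 : 8 * (d / r) * (β - α) = 8 * d * (β / r - α / r) := by ring
  rw [e1, e2]
  exact ⟨m1, m2⟩

end Pool.Agent.MP_38296a_co.H21.URn

end FileUR10

section FileUR14

set_option autoImplicit false

namespace Pool.Agent.MP_38296a_co.H21.URn

open Finset Filter Classical Topology

theorem ctr_root : ctr root = z0 := by
  simp [ctr, root, z0, sd]

theorem sd_root : sd root.1 = 1 := by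
  simp [root, sd]

section
variable {ι : Type} {F : Fam ι} {v : Fin 3 → ℝ} {Good : ℕ × Cell → Prop}
  {Al Lv : Finset (ℕ × Cell)}

theorem d_small (hT : Tree Good Al Lv) {c : ℕ × Cell} (hc : c ∈ Al) (h0 : c ≠ root) :
    4000 * sd c.1 ≤ 1 := by
  obtain h | ⟨c', -, -, e, -⟩ := hT.par c hc
  · exact absurd h h0
  · have h1 : sd c'.1 ≤ sd 0 := sd_anti (Nat.zero_le _)
    have h2 : sd 0 = 1 := sd_root
    rw [e, sd_succ]
    linarith

/-- all nodes except the root are regular -/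
theorem d_reg {ε a Kb : ℝ} (h : F.Ok ε) (he : ε ≤ 1 / 10 ^ 7) (hv : Wt v) (ha : 0 < a)
    (ha1 : a ≤ 1 / 10 ^ 32) (hT : Tree Good Al Lv) (hD : Dbl F v a z0 4000)
    (hG : ∀ c, Good c → Kb ≤ LL F v (bump (ctr c) (4000 * sd c.1)) ∧
      (Dbl F v a (ctr c) (4000 * sd c.1) → Unif F v (1 / 10 ^ 11) (ctr c) (4000 * sd c.1))) :
    ∀ c ∈ Al, c ≠ root → Rg F v (ctr c) (sd c.1) ∧
      a * Kb ≤ 10 ^ 16 * LL F v (bump (ctr c) (4000 * sd c.1)) := by
  suffices H : ∀ n : ℕ, ∀ c ∈ Al, c.1 = n → c ≠ root → Rg F v (ctr c) (sd c.1) ∧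
      a * Kb ≤ 10 ^ 16 * LL F v (bump (ctr c) (4000 * sd c.1)) from
    fun c hc => H _ c hc rfl
  intro n
  induction n using Nat.strong_induction_on with
  | _ n ih =>
    intro c hc hn h0
    obtain h' | ⟨c', hc', hg, e, hd⟩ := hT.par c hc
    · exact absurd h' h0
    have hD' : Dbl F v a (ctr c') (4000 * sd c'.1) := by
      by_cases hr : c' = root
      · rw [hr, ctr_root, sd_root, mul_one]
        exact hD
      · exact ((ih c'.1 (by omega) c' hc' rfl hr).1.dbl hv (sd_pos _)).mono hv ha1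
    obtain ⟨g1, g2⟩ := hG c' hg
    obtain ⟨r1, r2⟩ := child h he hv (sd_pos c'.1) ha.le (g2 hD') hD' hd
    rw [← sd_succ, ← e] at r1 r2
    exact ⟨r1, (mul_le_mul_of_nonneg_left g1 ha.le).trans r2⟩

/-- total deficiency of disjoint bumps at nodes of the tree -/
theorem d_sel {P τ K W : ℝ} (hv : Wt v) (hP : 0 ≤ P) (hτ : 0 ≤ τ) (hub : UB F P τ K)
    (hne : NE F v P τ z0 4000) (hT : Tree Good Al Lv)
    (hc : Cov F (fun p => rho Al p / 192) {t ∈ F.T | dist (vt F t) z0 ≤ 8000} W)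
    {U : Finset (ℕ × Cell)} (hU : U ⊆ Al) (r : ℕ × Cell → ℝ)
    (hr : ∀ c ∈ U, sd c.1 / 8 ≤ r c ∧ r c ≤ 1)
    (hd : ∀ c ∈ U, ∀ c' ∈ U, ∀ p, bump (ctr c) (r c) p ≠ 0 → bump (ctr c') (r c') p ≠ 0 → c = c') :
    P * ∑ c ∈ U, LL F v (bump (ctr c) (r c)) - TT F F.T (fun p => ∑ c ∈ U, bump (ctr c) (r c) p) ≤
      2 * τ * P * LL F v (bump z0 4000) + τ * #{t ∈ F.T | dist (vt F t) z0 ≤ 8000} + K * W := by
  have hr0 : ∀ c ∈ U, 0 < r c := fun c hc => lt_of_lt_of_le (by have := sd_pos c.1; positivity)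
    (hr c hc).1
  have hΨ : Adm (fun p => rho Al p / 48 / 2) fun p => ∑ c ∈ U, bump (ctr c) (r c) p := by
    refine adm_sum (ρ := fun p => rho Al p / 48) U _ (fun c hc => ?_) hd
    refine (adm_bump' (ctr c) (hr0 c hc)).mono fun p => ?_
    have h1 := rho_le (hU hc) p
    have h2 := (hr c hc).1
    have h3 := dist_nonneg (x := p) (y := ctr c)
    linarith
  have hχ : Adm (fun p => rho Al p / 48 / 2) (bump z0 4000) := by
    refine (adm_bump z0 (by norm_num)).mono fun p => ?_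
    have := rho_le_one Al p
    linarith
  have hρ : Rad fun p => rho Al p / 48 / 2 :=
    ((rho_rad Al).div (by norm_num)).div (by norm_num)
  have hz : ∀ c ∈ U, ∀ p, bump (ctr c) (r c) p ≠ 0 → dist p z0 ≤ 3 := by
    intro c hc p hp
    have h1 : dist p (ctr c) < 2 * r c := by
      by_contra hh
      exact hp (bump_zero (hr0 c hc) (not_lt.1 hh))
    have h2 := hT.inn c (hU hc)
    have h3 := dist_triangle p (ctr c) z0
    have h4 := sd_pos c.1
    have h5 := (hr c hc).2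
    linarith
  have e : (fun p => (∑ c ∈ U, bump (ctr c) (r c) p) * bump z0 4000 p) =
      fun p => ∑ c ∈ U, bump (ctr c) (r c) p := by
    funext p
    by_cases hp : dist p z0 ≤ 4000
    · rw [bump_one (by norm_num) hp, mul_one]
    · rw [sum_eq_zero, zero_mul]
      intro c hc
      by_contra hh
      exact hp ((hz c hc p hh).trans (by norm_num))
  have key := sel (S := {t ∈ F.T | dist (vt F t) z0 ≤ 8000}) (τ := τ) (W := W) hv hP hτ hub hρ
    hχ hΨ (filter_subset _ _) (hc.mono subset_rfl (fun p => le_of_eq (by ring)) le_rfl) (by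
      rw [TT_eq_of_subset F (filter_subset _ _)]
      · exact hne
      · intro t ht hn
        refine bump_zero (by norm_num) ?_
        simp only [mem_filter, ht, true_and, not_le] at hn
        linarith)
  rw [e, LL_sum, TT_eq_of_subset F (filter_subset _ _)] at key
  · linarith
  · intro t ht hn
    refine sum_eq_zero fun c hc => ?_
    by_contra hh
    exact hn (mem_filter.2 ⟨ht, (hz c hc _ hh).trans (by norm_num)⟩)

theorem d_sum (hv : Wt v) (hT : Tree Good Al Lv) (hR : ∀ c ∈ Lv, Rg F v (ctr c) (sd c.1)) :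
    ∑ c ∈ Lv, LL F v (bump (ctr c) (4000 * sd c.1)) ≤ 10 ^ 16 * LL F v (bump z0 4000) := by
  have h1 := sum_inner (F := F) hv hT subset_rfl (Φ := bump z0 4000) (fun p => (bump_mem _ _ _).1)
    (fun c hc p hp => by
      refine (bump_one (by norm_num) ?_).ge
      have h2 := hT.inn c (hT.sub hc)
      have h3 := dist_triangle p (ctr c) z0
      have h4 := sd_pos c.1
      linarith)
  calc _ ≤ ∑ c ∈ Lv, 10 ^ 16 * LL F v (sqi (ctr c) (sd c.1 / 8)) :=
        sum_le_sum fun c hc => (hR c hc).1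
    _ ≤ _ := by
        rw [← mul_sum]
        exact mul_le_mul_of_nonneg_left h1 (by norm_num)

/-- leaves of medium size -/
theorem d_med {ε a : ℝ} (h : F.Ok ε) (he : ε ≤ 1 / 10 ^ 7) (hv : Wt v) (ha : 0 < a) (ha1 : a ≤ 1)
    (hT : Tree Good Al Lv) (hR : ∀ c ∈ Lv, Rg F v (ctr c) (sd c.1))
    (hG : 0 < LL F v (bump z0 4000))
    (hn : a * LL F v (bump z0 4000) ≤ (100 * nl F v 1 z0 (1 / 4)) ^ 2) :
    (a / 10 ^ 18) ^ 2 / 2 * LL F v (bump z0 4000) ≤
      ∑ c ∈ Lv with a / 10 ^ 18 * √(LL F v (bump (ctr c) (4000 * sd c.1))) ≤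
        4 * 10 ^ 16 * √(LL F v (bump z0 4000)) * sd c.1,
        LL F v (bump (ctr c) (4000 * sd c.1)) := by
  have h0 : ∀ c : ℕ × Cell, 0 ≤ LL F v (bump (ctr c) (4000 * sd c.1)) := fun c =>
    LL_nonneg F hv fun p => (bump_mem _ _ _).1
  have hX : 0 < √(LL F v (bump z0 4000)) := Real.sqrt_pos.2 hG
  have hX2 := Real.sq_sqrt hG.le
  have key := medium Lv (fun c => sd c.1) (fun c => √(LL F v (bump (ctr c) (4000 * sd c.1))))
    (c := a / 10 ^ 18) (C := 10 ^ 16) (by positivity) (by norm_num) hX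
    (fun c _ => Real.sqrt_nonneg _) hT.area
    (by
      simp only [Real.sq_sqrt (h0 _), hX2]
      exact d_sum hv hT hR)
    (by
      have h1 := len_count h (he.trans (by norm_num)) hv hT
      have h2 : ∑ c ∈ Lv, sd c.1 * nl F v 1 (ctr c) (sd c.1) ≤
          10 ^ 16 * ∑ c ∈ Lv, sd c.1 * √(LL F v (bump (ctr c) (4000 * sd c.1))) := by
        rw [mul_sum]
        refine sum_le_sum fun c hc => ?_
        have := mul_le_mul_of_nonneg_left (hR c hc).2.2 (sd_pos c.1).le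
        linarith
      have h3 : a * √(LL F v (bump z0 4000)) ≤ 100 * nl F v 1 z0 (1 / 4) := by
        refine le_of_sq_le_sq ?_ (mul_nonneg (by norm_num) (wc_nonneg F hv _ _))
        rw [mul_pow, hX2]
        refine le_trans ?_ hn
        exact mul_le_mul_of_nonneg_right (by nlinarith) hG.le
      linarith)
  simp only [Real.sq_sqrt (h0 _), hX2] at key
  exact key

/-- the selection property with the error `e` -/
def DSel (F : Fam ι) (v : Fin 3 → ℝ) (P e : ℝ) (Lv : Finset (ℕ × Cell)) : Prop :=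
  ∀ U ⊆ Lv, ∀ r : ℕ × Cell → ℝ, (∀ c ∈ U, sd c.1 / 8 ≤ r c ∧ r c ≤ 1) →
    (∀ c ∈ U, ∀ c' ∈ U, ∀ p, bump (ctr c) (r c) p ≠ 0 → bump (ctr c') (r c') p ≠ 0 → c = c') →
    P * ∑ c ∈ U, LL F v (bump (ctr c) (r c)) -
      TT F F.T (fun p => ∑ c ∈ U, bump (ctr c) (r c) p) ≤ P * e

/-- leaves which are not nearly extremal -/
theorem d_bad {P e τ : ℝ} (hv : Wt v) (hP : 0 < P) (hT : Tree Good Al Lv)
    (hR : ∀ c ∈ Lv, Rg F v (ctr c) (sd c.1)) (h0 : ∀ c ∈ Lv, c ≠ root) (hs : DSel F v P e Lv)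
    (hτ : 0 ≤ τ) : τ * ∑ c ∈ Lv with ¬ NE F v P τ (ctr c) (4000 * sd c.1),
      LL F v (bump (ctr c) (4000 * sd c.1)) ≤ 10 ^ 32 * e := by
  obtain ⟨U, hU, hd, hle⟩ := vitali hv hT
    (S := {c ∈ Lv | ¬ NE F v P τ (ctr c) (4000 * sd c.1)}) (filter_subset _ _)
    fun c hc => hR c (mem_filter.1 hc).1
  have hUL : U ⊆ Lv := hU.trans (filter_subset _ _)
  have key := hs U hUL (fun c => 4000 * sd c.1) (fun c hc => ⟨by
    have := sd_pos c.1
    linarith, d_small hT (hT.sub (hUL hc)) (h0 c (hUL hc))⟩) hd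
  rw [TT_sum] at key
  have h1 : ∑ c ∈ U, TT F F.T (bump (ctr c) (4000 * sd c.1)) ≤
      (1 - τ) * P * ∑ c ∈ U, LL F v (bump (ctr c) (4000 * sd c.1)) := by
    rw [mul_sum]
    exact sum_le_sum fun c hc => (not_le.1 (mem_filter.1 (hU hc)).2).le
  have h2 : τ * ∑ c ∈ U, LL F v (bump (ctr c) (4000 * sd c.1)) ≤ e := by
    refine le_of_mul_le_mul_left ?_ hP
    linarith
  have h3 := mul_le_mul_of_nonneg_left hle hτ
  linarith

/-- many vertices close to the centres of a family of leaves -/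
theorem d_many {P e : ℝ} (hv : Wt v) (hP : 0 < P) (hT : Tree Good Al Lv)
    (hR : ∀ c ∈ Lv, Rg F v (ctr c) (sd c.1)) (hs : DSel F v P e Lv) {U : Finset (ℕ × Cell)}
    (hU : U ⊆ Lv) : P * ((∑ c ∈ U, LL F v (bump (ctr c) (4000 * sd c.1))) / 10 ^ 16 - e) ≤
      #{t ∈ F.T | ∃ c ∈ U, dist (vt F t) (ctr c) ≤ sd c.1 / 4} := by
  have hz : ∀ (c : ℕ × Cell) (p : Pt), bump (ctr c) (sd c.1 / 8) p ≠ 0 →
      dist p (ctr c) < sd c.1 / 4 := by
    intro c p hp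
    have := sd_pos c.1
    by_contra hh
    exact hp (bump_zero (by positivity) (by linarith [not_lt.1 hh]))
  have hd : ∀ c ∈ U, ∀ c' ∈ U, ∀ p, bump (ctr c) (sd c.1 / 8) p ≠ 0 →
      bump (ctr c') (sd c'.1 / 8) p ≠ 0 → c = c' := by
    intro c hc c' hc' p h1 h2
    have a1 := sd_pos c.1
    have a2 := sd_pos c'.1
    exact hT.disj c (hU hc) c' (hU hc') p (by linarith [hz c p h1]) (by linarith [hz c' p h2])
  have key := hs U hU (fun c => sd c.1 / 8) (fun c hc => ⟨le_rfl, by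
    have h1 : sd c.1 ≤ sd 0 := sd_anti (Nat.zero_le _)
    have h2 : sd 0 = 1 := sd_root
    linarith⟩) hd
  have h1 : ∑ c ∈ U, LL F v (bump (ctr c) (4000 * sd c.1)) ≤
      10 ^ 16 * ∑ c ∈ U, LL F v (bump (ctr c) (sd c.1 / 8)) := by
    rw [mul_sum]
    refine sum_le_sum fun c hc => (hR c (hU hc)).1.trans ?_
    refine mul_le_mul_of_nonneg_left (LL_mono F hv fun p => ?_) (by norm_num)
    exact sqi_le_bump (by have := sd_pos c.1; positivity) (by simp) p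
  have h2 : TT F F.T (fun p => ∑ c ∈ U, bump (ctr c) (sd c.1 / 8) p) ≤
      #{t ∈ F.T | ∃ c ∈ U, dist (vt F t) (ctr c) ≤ sd c.1 / 4} := by
    rw [← TT_eq_of_subset F
      (filter_subset (fun t => ∃ c ∈ U, dist (vt F t) (ctr c) ≤ sd c.1 / 4) F.T)]
    · unfold TT
      refine (sum_le_card_nsmul _ _ 1 fun t _ => ?_).trans (by simp)
      beta_reduce
      by_cases hh : ∃ c ∈ U, bump (ctr c) (sd c.1 / 8) (vt F t) ≠ 0
      · obtain ⟨c, hc, h3⟩ := hh
        rw [sum_eq_single_of_mem c hc]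
        · exact (bump_mem _ _ _).2
        · intro c' hc' hne
          by_contra h4
          exact hne (hd c' hc' c hc _ h4 h3)
      · push Not at hh
        rw [sum_eq_zero hh]
        norm_num
    · intro t ht hn
      refine sum_eq_zero fun c hc => ?_
      by_contra hh
      exact hn (mem_filter.2 ⟨ht, c, hc, (hz c _ hh).le⟩)
  have h3 := mul_le_mul_of_nonneg_left h1 hP.le
  linarith

/-- extraction of the arrangement -/
theorem d_fin {ε P Kb y c5 : ℝ} {j0 : ℕ} (h : F.Ok ε) (he : ε ≤ 1 / 10) (hv : Wt v) (hP : 0 < P)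
    (hKb : 0 < Kb) (hy : 0 < y) (hc5 : 0 < c5) (hT : Tree Good Al Lv)
    (hR : ∀ c ∈ Lv, Rg F v (ctr c) (sd c.1)) {U : Finset (ℕ × Cell)} (hU : U ⊆ Lv)
    (hU1 : ∀ c ∈ U, LL F v (bump (ctr c) (4000 * sd c.1)) ≤ Kb ∧
      y ≤ √(LL F v (bump z0 4000)) * sd c.1)
    (hX : y * 2 ^ j0 ≤ √(LL F v (bump z0 4000))) (hw : ∀ i, P / 6 ≤ v i)
    (hn : ∀ i, nl F v i z0 2 ≤ 200 * √(LL F v (bump z0 4000)))
    (hS : c5 * LL F v (bump z0 4000) ≤
      #{t ∈ F.T | ∃ c ∈ U, dist (vt F t) (ctr c) ≤ sd c.1 / 4}) :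
    ∃ j, j0 ≤ j ∧ ∃ A : Arr ι, A.T ⊆ F.T ∧ A.Ok ∧
      Boxed A j (1800 * y / P) (c5 * y ^ 2 / (64 * (10 ^ 16 * Kb))) := by
  have hG0 : 0 ≤ LL F v (bump z0 4000) := LL_nonneg F hv fun p => (bump_mem _ _ _).1
  have hX2 := Real.sq_sqrt hG0
  generalize √(LL F v (bump z0 4000)) = X at hU1 hX hn hX2
  have h2 : (1 : ℝ) ≤ 2 ^ j0 := one_le_pow₀ (by norm_num)
  have hX0 : 0 < X := lt_of_lt_of_le (by positivity) hX
  have hin : ∀ t ∈ ({t ∈ F.T | ∃ c ∈ U, dist (vt F t) (ctr c) ≤ sd c.1 / 4} : Finset _),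
      dist (vt F t) z0 ≤ 1 / 2 := by
    intro t ht
    obtain ⟨-, c, hc, hd⟩ := mem_filter.1 ht
    have a1 := hT.inn c (hT.sub (hU hc))
    have a2 := dist_triangle (vt F t) (ctr c) z0
    have a3 := sd_pos c.1
    linarith
  obtain ⟨j, A, hA, hok, hin', j1, j2, hc⟩ := extract (σ := y / X) (B := 10 ^ 16 * Kb) h he
    (filter_subset _ _) hin (by positivity) (by rw [div_le_one hX0]; nlinarith) (by
      intro t ht
      obtain ⟨-, c, hc, hd⟩ := mem_filter.1 ht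
      have a1 : y / X ≤ sd c.1 := by
        rw [div_le_iff₀ hX0]
        linarith [(hU1 c hc).2]
      have a2 := sd_pos c.1
      have a3 := TT_le_LL h he hv (Φ := sqi (ctr c) (40000 * sd c.1)) fun p => (sqi_mem _ _ _).1
      have a4 := (hR c (hU hc)).2.1
      have a5 := (hU1 c hc).1
      refine le_trans ?_ (a3.trans (a4.trans (by linarith)))
      unfold cnt TT
      rw [card_eq_sum_ones, Nat.cast_sum]
      refine le_trans (sum_le_sum fun u hu => ?_) (sum_le_sum_of_subset_of_nonneg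
        ((filter_subset _ _).trans (filter_subset _ _)) fun u _ _ => (sqi_mem _ _ _).1)
      have a6 := (mem_filter.1 hu).2
      have a7 := dist_triangle (vt F u) (vt F t) (ctr c)
      have a8 : dist (vt F u) (ctr c) ≤ 40000 * sd c.1 := by linarith
      simp [sqi, ind, a8])
  rw [div_div_eq_mul_div, div_le_iff₀ hy] at j1
  rw [div_div_eq_mul_div, le_div_iff₀ hy] at j2
  refine ⟨j, ?_, A, hA.trans (filter_subset _ _), hok, hin', ?_, ?_⟩
  · have a1 : (2 : ℝ) ^ j0 ≤ 2 ^ j := by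
      refine le_of_mul_le_mul_right ?_ hy
      nlinarith
    exact (pow_le_pow_iff_right₀ (by norm_num)).1 a1
  · refine (lines_le h he (c := P / 6) (by positivity) hw hn (hA.trans (filter_subset _ _))
      fun t ht => hin t (hA ht)).trans ?_
    rw [div_mul_eq_mul_div, div_le_div_iff₀ (by positivity) hP]
    nlinarith
  · rw [div_mul_eq_mul_div, div_le_iff₀ (by positivity)]
    have a1 : (4 : ℝ) ^ j = (2 ^ j) ^ 2 := by
      rw [← pow_mul, mul_comm, pow_mul]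
      norm_num
    have a2 : (2 ^ j * y) ^ 2 ≤ (4 * X) ^ 2 := pow_le_pow_left₀ (by positivity) j2 2
    have a3 := mul_le_mul_of_nonneg_left a2 hc5.le
    rw [a1]
    nlinarith

/-- the error term of the selection -/
theorem d_err {a P τ K B Kb : ℝ} (hv : Wt v) (ha : 0 < a) (hP : 0 < P) (hτ : 0 < τ)
    (hτ1 : τ ≤ 1 / 2) (hK : 0 ≤ K) (hB : 0 ≤ B) (hKb : 0 < Kb) (hub : UB F P τ K)
    (hne : NE F v P τ z0 4000) (hD : Dbl F v a z0 4000) (hT : Tree Good Al Lv)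
    (hc : Cov F (fun p => rho Al p / 192) {t ∈ F.T | dist (vt F t) z0 ≤ 8000} (B * (1 + #Al)))
    (hR : ∀ c ∈ Lv, Rg F v (ctr c) (sd c.1) ∧
      a * Kb ≤ 10 ^ 16 * LL F v (bump (ctr c) (4000 * sd c.1)))
    (h1 : 2 * 10 ^ 32 * K * B ≤ a * τ * P * Kb)
    (h2 : K * B + 98 * K ≤ τ * P * LL F v (bump z0 4000)) :
    DSel F v P (τ * (4 + 3 / a) * LL F v (bump z0 4000)) Lv := by
  intro U hU r hr hd
  refine (d_sel hv hP.le hτ.le hub hne hT hc (hU.trans hT.sub) r hr hd).trans ?_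
  have hG0 : 0 ≤ LL F v (bump z0 4000) := LL_nonneg F hv fun p => (bump_mem _ _ _).1
  have a1 := card_near (S := {t ∈ F.T | dist (vt F t) z0 ≤ 8000}) (z := z0) (r := 4000) hv hP.le
    hK hτ1 (by norm_num) hub (filter_subset _ _) fun t ht => by linarith [(mem_filter.1 ht).2]
  have a2 : LL F v (sqi z0 (4 * 4000)) ≤ LL F v (bump z0 4000) / a := by
    rw [le_div_iff₀ ha, mul_comm]
    exact le_trans hD (LL_mono F hv (sqi_le_bump (by norm_num) (by simp; norm_num)))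
  have a3 : (#Lv : ℝ) * (a * Kb) ≤ 10 ^ 32 * LL F v (bump z0 4000) := by
    have b1 := d_sum hv hT fun c hc => (hR c hc).1
    have b2 := card_nsmul_le_sum Lv (fun c => 10 ^ 16 * LL F v (bump (ctr c) (4000 * sd c.1)))
      (a * Kb) fun c hc => (hR c hc).2
    rw [nsmul_eq_mul, ← mul_sum] at b2
    linarith
  have a4 : (#Al : ℝ) ≤ 2 * #Lv := by exact_mod_cast hT.card
  generalize LL F v (bump z0 4000) = G at *
  have a5 : K * B * #Al ≤ τ * P * G := by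
    refine le_of_mul_le_mul_right ?_ (mul_pos ha hKb)
    have b1 : 0 ≤ K * B := mul_nonneg hK hB
    have b2 := mul_le_mul_of_nonneg_left a3 b1
    have b3 := mul_le_mul_of_nonneg_right h1 hG0
    have b4 := mul_le_mul_of_nonneg_left a4 (mul_nonneg b1 (mul_pos ha hKb).le)
    linarith
  have a6 := mul_le_mul_of_nonneg_left a1 hτ.le
  have a7 := mul_le_mul_of_nonneg_left a2 (mul_pos hτ hP).le
  have a8 := mul_le_mul_of_nonneg_right hτ1 hK
  have e : P * (τ * (4 + 3 / a) * G) = 4 * (τ * P * G) + 3 * (τ * P * (G / a)) := by ring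
  rw [e]
  generalize G / a = Q at *
  nlinarith only [a5, a6, a7, a8, h2, hK]

end

/-- the descent from a nearly extremal doubling square -/
theorem desc {a : ℝ} (ha : 0 < a) (ha1 : a ≤ 1 / 10 ^ 32) : ∃ τ : ℝ, 0 < τ ∧ ∀ P K : ℝ, 0 < P →
    P ≤ 1 → 0 ≤ K → ∃ C δ : ℝ, 0 < δ ∧ ∀ j0 : ℕ, ∃ G0 : ℝ, ∀ (ι : Type) (F : Fam ι)
    (v : Fin 3 → ℝ), F.Ok τ → Wt v → UB F P τ K → NE F v P τ z0 4000 → Dbl F v a z0 4000 →
    G0 ≤ LL F v (bump z0 4000) →
    ∃ j, j0 ≤ j ∧ ∃ A : Arr ι, A.T ⊆ F.T ∧ A.Ok ∧ Boxed A j C δ := by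
  have ha2 : a ≤ 1 := ha1.trans (by norm_num)
  obtain ⟨τ3, t0, t1, hlt⟩ := lt ha ha2 (t := 1 / 10 ^ 11) (by norm_num)
  obtain ⟨B, hB, hcov⟩ := cov_tree (C := 192) (by norm_num)
  obtain ⟨c2, hc2⟩ : ∃ c2 : ℝ, c2 = a / 10 ^ 18 := ⟨_, rfl⟩
  have c0 : 0 < c2 := by rw [hc2]; positivity
  obtain ⟨τ, hτ, u1, u2, u3⟩ : ∃ τ : ℝ, 0 < τ ∧ τ ≤ τ3 ∧ τ ≤ 1 / 10 ^ 7 ∧
      τ * (4 + 3 / a) ≤ τ3 * c2 ^ 2 / (4 * 10 ^ 32) := by
    refine ⟨min (min τ3 (1 / 10 ^ 7)) (τ3 * c2 ^ 2 / (4 * 10 ^ 32) / (4 + 3 / a)),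
      by positivity, (min_le_left _ _).trans (min_le_left _ _),
      (min_le_left _ _).trans (min_le_right _ _), ?_⟩
    rw [← le_div_iff₀ (by positivity)]
    exact min_le_right _ _
  refine ⟨τ, hτ, fun P K hP hP1 hK => ?_⟩
  obtain ⟨Kb, k0, k1, k2, k3⟩ : ∃ Kb : ℝ, 0 < Kb ∧ ((K + 1) / (τ3 * P ^ 2)) ^ 2 ≤ Kb ∧
      2 * 10 ^ 32 * K * B ≤ a * τ * P * Kb ∧ 2 ≤ P * Kb := by
    have b1 : 0 ≤ ((K + 1) / (τ3 * P ^ 2)) ^ 2 := by positivity
    have b2 : 0 ≤ 2 * 10 ^ 32 * K * B / (a * τ * P) := by positivity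
    have b3 : 0 < 2 / P := by positivity
    refine ⟨((K + 1) / (τ3 * P ^ 2)) ^ 2 + 2 * 10 ^ 32 * K * B / (a * τ * P) + 2 / P,
      by linarith, by linarith, ?_, ?_⟩
    · rw [← div_le_iff₀' (by positivity)]
      linarith
    · rw [← div_le_iff₀' hP]
      linarith
  obtain ⟨y, hy⟩ : ∃ y : ℝ, y = c2 * √(a * Kb / 10 ^ 16) / (4 * 10 ^ 16) := ⟨_, rfl⟩
  have y0 : 0 < y := by rw [hy]; positivity
  refine ⟨1800 * y / P, P * c2 ^ 2 / (8 * 10 ^ 16) * y ^ 2 / (64 * (10 ^ 16 * Kb)),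
    by positivity, fun j0 => ?_⟩
  refine ⟨(y * 2 ^ j0) ^ 2 + (Kb + 1) + (K * B + 98 * K) / (τ * P), ?_⟩
  intro ι F v h hv hub hne hD hG
  have g1 : 0 ≤ (y * 2 ^ j0) ^ 2 := by positivity
  have g2 : 0 ≤ (K * B + 98 * K) / (τ * P) := by positivity
  have g3 : Kb < LL F v (bump z0 4000) := by linarith
  have g4 : y * 2 ^ j0 ≤ √(LL F v (bump z0 4000)) := Real.le_sqrt_of_sq_le (by linarith)
  have g5 : K * B + 98 * K ≤ τ * P * LL F v (bump z0 4000) := by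
    rw [← div_le_iff₀' (by positivity)]
    linarith
  have hG0 : 0 < LL F v (bump z0 4000) := k0.trans g3
  have he : τ ≤ 1 / 10 := u2.trans (by norm_num)
  -- the tree
  obtain ⟨δ0, d0, hsm⟩ := TT_small h he
  obtain ⟨H, hH⟩ := sd_small (δ := δ0 / 8000) (by positivity)
  obtain ⟨Al, Lv, hT⟩ := tree (fun c => NE F v P τ3 (ctr c) (4000 * sd c.1) ∧
      Kb < LL F v (bump (ctr c) (4000 * sd c.1))) (H := H) (by
    rintro c ⟨n1, n2⟩
    have b0 := sd_pos H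
    have b1 := hsm (ctr (H, c)) (8000 * sd H) (bump (ctr (H, c)) (4000 * sd H)) (by linarith)
      (bump_le_sqi (by positivity) (by simp; linarith))
    unfold NE at n1
    have b2 := mul_lt_mul_of_pos_left n2 hP
    have b3 : 0 ≤ (1 / 100 - τ3) * (P * LL F v (bump (ctr (H, c)) (4000 * sd H))) :=
      mul_nonneg (by linarith) (by linarith)
    linarith)
  have hlt' : ∀ z r, 0 < r → NE F v P τ3 z r → Kb < LL F v (bump z r) → Dbl F v a z r →
      Unif F v (1 / 10 ^ 11) z r := by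
    intro z r hr n1 n2 n3
    refine hlt ι F v P K z r (ok_mono h u1) hv hP hP1 hK (hub.mono hP.le u1) hr n1 n3 ?_
    rw [← div_le_iff₀' (by positivity)]
    exact Real.le_sqrt_of_sq_le (k1.trans n2.le)
  have hne3 := hne.mono hv hP.le u1
  have h0 : ∀ c ∈ Lv, c ≠ root := by
    rintro c hc rfl
    refine hT.stop _ hc ?_
    rw [ctr_root, sd_root, mul_one]
    exact ⟨hne3, g3⟩
  have hreg := d_reg (Kb := Kb) h u2 hv ha ha1 hT hD fun c hc =>
    ⟨hc.2.le, hlt' _ _ (by have := sd_pos c.1; positivity) hc.1 hc.2⟩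
  have hR : ∀ c ∈ Lv, Rg F v (ctr c) (sd c.1) := fun c hc => (hreg c (hT.sub hc) (h0 c hc)).1
  have hs := d_err hv ha hP hτ (u2.trans (by norm_num)) hK hB k0 hub hne hD hT
    (hcov ι F _ Al Lv _ hT fun t ht => (mem_filter.1 ht).2)
    (fun c hc => hreg c (hT.sub hc) (h0 c hc)) k2 g5
  obtain ⟨r1, r2⟩ := root_nl h u2 hv ha.le (hlt' _ _ (by norm_num) hne3 g3 hD) hD
  have m1 := d_med h u2 hv ha ha2 hT hR hG0 r1
  rw [← hc2] at m1
  have m2 := d_bad hv hP hT hR h0 hs t0.le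
  have m3 := mul_le_mul_of_nonneg_right u3 hG0.le
  obtain ⟨U, hU⟩ : ∃ U : Finset (ℕ × Cell), U = {c ∈ {c ∈ Lv |
      c2 * √(LL F v (bump (ctr c) (4000 * sd c.1))) ≤
        4 * 10 ^ 16 * √(LL F v (bump z0 4000)) * sd c.1} |
      NE F v P τ3 (ctr c) (4000 * sd c.1)} := ⟨_, rfl⟩
  have hUL : U ⊆ Lv := by
    rw [hU]
    exact (filter_subset _ _).trans (filter_subset _ _)
  have m4 : c2 ^ 2 / 4 * LL F v (bump z0 4000) ≤
      ∑ c ∈ U, LL F v (bump (ctr c) (4000 * sd c.1)) := by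
    rw [← sum_filter_add_sum_filter_not _ fun c => NE F v P τ3 (ctr c) (4000 * sd c.1), ← hU] at m1
    have b1 := sum_le_sum_of_subset_of_nonneg (f := fun c : ℕ × Cell =>
      LL F v (bump (ctr c) (4000 * sd c.1))) (filter_subset_filter
        (fun c => ¬ NE F v P τ3 (ctr c) (4000 * sd c.1)) (filter_subset (fun c =>
          c2 * √(LL F v (bump (ctr c) (4000 * sd c.1))) ≤
            4 * 10 ^ 16 * √(LL F v (bump z0 4000)) * sd c.1) Lv))
      fun c _ _ => LL_nonneg F hv fun p => (bump_mem _ _ _).1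
    have b2 : ∑ c ∈ Lv with ¬ NE F v P τ3 (ctr c) (4000 * sd c.1),
        LL F v (bump (ctr c) (4000 * sd c.1)) ≤ c2 ^ 2 / 4 * LL F v (bump z0 4000) := by
      refine le_of_mul_le_mul_left ?_ t0
      linarith
    have b3 := m1.trans (add_le_add le_rfl (b1.trans b2))
    linarith
  have m5 := d_many hv hP hT hR hs hUL
  refine d_fin h he hv hP k0 y0 (by positivity) hT hR hUL (fun c hc => ?_) g4
    (wt_low h he hv (fun p => (bump_mem z0 4000 p).1) hG0 ?_) r2 (le_trans ?_ m5)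
  · rw [hU] at hc
    obtain ⟨b1, b2⟩ := mem_filter.1 hc
    obtain ⟨b3, b4⟩ := mem_filter.1 b1
    refine ⟨not_lt.1 fun hh => hT.stop c b3 ⟨b2, hh⟩, ?_⟩
    have b5 : √(a * Kb / 10 ^ 16) ≤ √(LL F v (bump (ctr c) (4000 * sd c.1))) :=
      Real.sqrt_le_sqrt (by linarith [(hreg c (hT.sub b3) (h0 c b3)).2])
    have b6 := mul_le_mul_of_nonneg_left b5 c0.le
    rw [hy]
    linarith
  · unfold NE at hne
    have b1 : 0 ≤ (1 / 10 - τ) * (P * LL F v (bump z0 4000)) :=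
      mul_nonneg (by linarith) (by positivity)
    have b2 : 0 ≤ P * LL F v (bump z0 4000) := by positivity
    linarith
  · rw [show P * c2 ^ 2 / (8 * 10 ^ 16) * LL F v (bump z0 4000) =
      P * (c2 ^ 2 / (8 * 10 ^ 16) * LL F v (bump z0 4000)) by ring]
    refine mul_le_mul_of_nonneg_left ?_ hP.le
    have b1 : 0 ≤ (1 / 100 - τ3) * (c2 ^ 2 * LL F v (bump z0 4000)) :=
      mul_nonneg (by linarith) (by positivity)
    have b2 : 0 ≤ c2 ^ 2 * LL F v (bump z0 4000) := by positivity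
    linarith

end Pool.Agent.MP_38296a_co.H21.URn

end FileUR14

section FileUR

set_option autoImplicit false

namespace Pool.Agent.MP_38296a_co.H21

open Finset Filter Classical URn

/-- a uniform range of scales -/
theorem ur : ∃ ε : ℝ, 0 < ε ∧ ∀ (ι : Type) (F : ℕ → Fam ι) (n : ℕ → ℕ) (δ : ℝ), 0 < δ →
    (∀ a, (F a).Ok ε ∧ #(lines (F a).T) ≤ n a ∧ δ * (n a : ℝ) ^ 2 ≤ #(F a).T ∧ a ≤ n a) →
    ∃ C δ' : ℝ, 0 < δ' ∧ ∀ j0 : ℕ, ∃ j, j0 ≤ j ∧ ∃ a, ∃ A : Arr ι,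
      A.T ⊆ (F a).T ∧ A.Ok ∧ Boxed A j C δ' := by
  obtain ⟨a0, ha0, htop⟩ := top
  obtain ⟨τ, hτ, hdesc⟩ := desc (a := min a0 (1 / 10 ^ 32)) (lt_min ha0 (by norm_num))
    (min_le_right _ _)
  obtain ⟨κ0, hκ0, htop⟩ := htop τ hτ
  obtain ⟨m, hm10, hm⟩ : ∃ m : ℕ, 10 ≤ m ∧ 30 / (m : ℝ) ≤ min κ0 τ := by
    have h0 : 0 < min κ0 τ := lt_min hκ0 hτ
    obtain ⟨m, hm⟩ := exists_nat_ge (30 / min κ0 τ)
    refine ⟨m + 10, by omega, ?_⟩
    rw [div_le_iff₀ h0] at hm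
    rw [div_le_iff₀ (by positivity)]
    push_cast
    nlinarith
  have hm0 : (0 : ℝ) < m := by
    have : 0 < m := by omega
    exact_mod_cast this
  obtain ⟨c, hc, hub⟩ := ub_of_usq hm10
  refine ⟨min τ (1 / 10), lt_min hτ (by norm_num), fun ι F n δ hδ h => ?_⟩
  obtain ⟨P, K, hP, hP1, hK, husq, hM⟩ := exists_P F n hδ (min_le_right _ _) h hm10
  obtain ⟨C, δ', hδ', hd⟩ := hdesc P (c * K) hP hP1 (mul_nonneg hc hK)
  refine ⟨C, δ', hδ', fun j0 => ?_⟩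
  obtain ⟨G0, hG0⟩ := hd j0
  obtain ⟨M, hMt⟩ := htop (30 / m) m P (c * K) G0 (by positivity) (hm.trans (min_le_left _ _))
    hm10 hP hP1 (mul_nonneg hc hK)
  obtain ⟨b, v, s, cc, hv, hs, hbox⟩ := hM M
  have hUB : UB (F b) P (30 / m) (c * K) := hub ι (F b) P K hP.le hK (husq b)
  have hL : 0 ≤ LL (F b) v (URn.box s cc 0 m) := by
    refine LL_nonneg _ hv fun p => ?_
    unfold URn.box ind
    split_ifs <;> norm_num
  obtain ⟨z, r, hr, hNE, hD, hG⟩ := hMt ι (F b) v s cc hv hs hUB (by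
    refine le_trans ?_ hbox
    have h1 : 1 / (m : ℝ) ≤ 30 / m := div_le_div_of_nonneg_right (by norm_num) hm0.le
    have h2 : 0 ≤ P * LL (F b) v (URn.box s cc 0 m) := mul_nonneg hP.le hL
    nlinarith)
  have hu : 0 < r / 4000 := by positivity
  obtain ⟨s1, s2, s3, s4, s5, -⟩ :=
    sim_all (h b).1 (min_le_right _ _) (z - (r / 4000) • z0) hu
  have hz : z - (r / 4000) • z0 + (r / 4000) • z0 = z := sub_add_cancel _ _
  have hur : r / 4000 * 4000 = r := by ring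
  obtain ⟨j, hj, A, hA⟩ := hG0 ι (sim (F b) (z - (r / 4000) • z0) (r / 4000)) v
    (ok_mono s1 (min_le_left _ _)) hv
    (UB.mono (s2 _ _ _ hUB) hP.le (hm.trans (min_le_right _ _)))
    (by
      unfold NE at hNE ⊢
      rw [s3]
      change _ ≤ TT _ (F b).T _
      rw [s5, hz, hur]
      exact hNE)
    (by
      have hD' := hD.mono hv (min_le_left a0 (1 / 10 ^ 32))
      unfold Dbl at hD' ⊢
      rw [s4, s4, hz, show r / 4000 * (4 * 4000) = 4 * r by ring,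
        show r / 4000 * (4000 / 10 ^ 4) = r / 10 ^ 4 by ring]
      exact hD')
    (by rw [s3, hz, hur]; exact hG)
  exact ⟨j, hj, b, A, hA⟩

end Pool.Agent.MP_38296a_co.H21

end FileUR

end
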