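import Pool.Agent.MP_38296a_co.Mg.H21_Comb
import Pool.Agent.MP_38296a_co.Mg.H21_Conc
import Pool.Agent.MP_38296a_co.Mg.H21_FldB
import Pool.Agent.MP_38296a_co.Mg.H21_Lab
import Pool.Agent.MP_38296a_co.Mg.H21_Arch
import Pool.Agent.MP_38296a_co.H21.Lim
import Pool.Agent.MP_38296a_co.Mg.H21_URe
import Pool.Agent.MP_a59382_lc.Deriv

-- part MP_38296a_co.H21.A1
section

section FileA11

/-!
Coordinates, projective maps and elementary counting for the reduction to separated slopes.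
-/

set_option autoImplicit false

namespace Pool.Agent.MP_38296a_co.H21

open Finset Filter Classical

theorem a1_mem {ι : Type} {T : Finset (Tri ι)} {t : Tri ι} (ht : t ∈ T) (i : Fin 3) :
    t i ∈ lines T :=
  mem_biUnion.2 ⟨i, mem_univ _, mem_image.2 ⟨t, ht, rfl⟩⟩

theorem a1_lines_mono {ι : Type} {T T' : Finset (Tri ι)} (h : T' ⊆ T) : lines T' ⊆ lines T := by
  intro a ha
  obtain ⟨i, -, hi⟩ := mem_biUnion.1 ha
  obtain ⟨t, ht, rfl⟩ := mem_image.1 hi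
  exact a1_mem (h ht) i

theorem a1_dual_mono {ι : Type} {x s : ι → ℝ} {T T' : Finset (Tri ι)} (h : Dual x s T)
    (hT : T' ⊆ T) : Dual x s T' :=
  ⟨fun t ht u hu => h.lin t (hT ht) u (hT hu), fun t ht => h.ne t (hT ht),
    fun t ht => h.thru t (hT ht), fun t ht u hu => h.one t (hT ht) u (hT hu)⟩

theorem a1_rich_mono {ι : Type} {k : ℕ} {T T' : Finset (Tri ι)} (h : Rich k T') (hT : T' ⊆ T) :
    Rich k T := by
  obtain ⟨S, h1, h2⟩ := h
  exact ⟨S, h1, h2.trans (card_le_card (filter_subset_filter _ hT))⟩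

/-- a generic shear -/
theorem a1_shear {ι : Type} {k n : ℕ} {δ : ℝ} {p : ι → ℝ × ℝ} {T : Finset (Tri ι)}
    (h : Prim k n δ p T) : ∃ x s : ι → ℝ, Dual x s T ∧
      ∀ X Y, #{a ∈ lines T | Y = s a + x a * X} ≤ k := by
  obtain ⟨c, hc⟩ := Infinite.exists_notMem_finset ((lines T ×ˢ lines T).image
    fun e : ι × ι => -((p e.1).1 - (p e.2).1) / ((p e.1).2 - (p e.2).2))
  have hne : ∀ t ∈ T, ∀ i j, i ≠ j →
      (p (t i)).1 + c * (p (t i)).2 ≠ (p (t j)).1 + c * (p (t j)).2 := by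
    intro t ht i j hij e
    by_cases h2 : (p (t i)).2 = (p (t j)).2
    · refine h.dist t ht i j hij (h.inj _ (a1_mem ht i) _ (a1_mem ht j) (Prod.ext ?_ h2))
      rw [h2] at e
      linarith
    · refine hc (mem_image.2 ⟨(t i, t j), mem_product.2 ⟨a1_mem ht i, a1_mem ht j⟩, ?_⟩)
      have := sub_ne_zero.2 h2
      field_simp
      linarith
  have hf : ∀ X Y : ℝ, ((X, 1 + c * X, -Y) : ℝ × ℝ × ℝ).1 ≠ 0 ∨
      ((X, 1 + c * X, -Y) : ℝ × ℝ × ℝ).2.1 ≠ 0 := by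
    intro X Y
    by_cases hX : X = 0
    · right; simp [hX]
    · left; exact hX
  have hev : ∀ X Y : ℝ, ∀ a, Y = (p a).2 + ((p a).1 + c * (p a).2) * X ↔
      ev (X, 1 + c * X, -Y) (p a) = 0 := by
    intro X Y a
    simp only [ev]
    constructor <;> intro e <;> linarith
  refine ⟨fun a => (p a).1 + c * (p a).2, fun a => (p a).2, ⟨h.lin, hne, ?_, ?_⟩, ?_⟩
  · intro t ht
    obtain ⟨f, hf0, hf1⟩ := h.col t ht
    simp only [ev] at hf1
    have he : f.2.1 - c * f.1 ≠ 0 := by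
      intro e
      have e1 : f.1 * (((p (t 0)).1 + c * (p (t 0)).2) - ((p (t 1)).1 + c * (p (t 1)).2)) = 0 := by
        linear_combination hf1 0 - hf1 1 - ((p (t 0)).2 - (p (t 1)).2) * e
      have e2 : f.1 = 0 :=
        (mul_eq_zero.1 e1).resolve_right (sub_ne_zero.2 (hne t ht 0 1 (by decide)))
      rcases hf0 with h0 | h0
      · exact h0 e2
      · rw [e2] at e; exact h0 (by linarith)
    refine ⟨f.1 / (f.2.1 - c * f.1), -f.2.2 / (f.2.1 - c * f.1), fun i => ?_⟩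
    field_simp
    linear_combination -hf1 i
  · intro t ht u hu X Y h1 h2
    exact h.one t ht u hu _ (hf X Y) (fun i => (hev X Y _).1 (h1 i)) fun i => (hev X Y _).1 (h2 i)
  · intro X Y
    refine le_trans (le_of_eq ?_) (h.few _ (hf X Y))
    congr 1
    exact filter_congr fun a _ => hev X Y a

/-- a linear form centred at `(x0, s0)` -/
def a1F {ι : Type} (x s : ι → ℝ) (x0 s0 a b : ℝ) (y : ι) : ℝ := a * (x y - x0) + b * (s y - s0)

/-- projective map which sends a centre to infinity -/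
theorem a1_fam {ι : Type} {x s : ι → ℝ} {T : Finset (Tri ι)} (h : Dual x s T)
    (x0 s0 a1 a2 b1 b2 : ℝ) {ε : ℝ} (hε : ε ≤ 1 / 4)
    (hB : ∀ t ∈ T, ∀ i : Fin 3, a1F x s x0 s0 b1 b2 (t i) ≠ 0 ∧
      |a1F x s x0 s0 a1 a2 (t i) / a1F x s x0 s0 b1 b2 (t i) - (((i : ℕ) : ℝ) - 1)| ≤ ε) :
    (Fam.mk T (fun y => a1F x s x0 s0 a1 a2 y / a1F x s x0 s0 b1 b2 y)
      fun y => 1 / a1F x s x0 s0 b1 b2 y).Ok ε := by
  refine ⟨h.lin, fun t ht i => (hB t ht i).2, fun t ht => ?_, fun t ht u hu X Y h1 h2 => ?_⟩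
  · obtain ⟨X, Y, hXY⟩ := h.thru t ht
    obtain ⟨n0, e0⟩ := hB t ht 0
    obtain ⟨n1, e1⟩ := hB t ht 1
    have hne : a1F x s x0 s0 a1 a2 (t 0) / a1F x s x0 s0 b1 b2 (t 0) ≠
        a1F x s x0 s0 a1 a2 (t 1) / a1F x s x0 s0 b1 b2 (t 1) := by
      intro e
      rw [e] at e0
      rw [abs_le] at e0 e1
      norm_num at e0 e1
      linarith [e0.2, e1.1]
    have hne' : a1F x s x0 s0 a1 a2 (t 0) * a1F x s x0 s0 b1 b2 (t 1) -
        a1F x s x0 s0 a1 a2 (t 1) * a1F x s x0 s0 b1 b2 (t 0) ≠ 0 := by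
      intro e
      apply hne
      field_simp
      linarith
    have hid : a1F x s x0 s0 a1 a2 (t 0) * a1F x s x0 s0 b1 b2 (t 1) -
        a1F x s x0 s0 a1 a2 (t 1) * a1F x s x0 s0 b1 b2 (t 0) =
        (a1 * b2 - a2 * b1) * (Y - s0 - x0 * X) * (x (t 0) - x (t 1)) := by
      have g0 : s (t 0) = Y - x (t 0) * X := by linarith [hXY 0]
      have g1 : s (t 1) = Y - x (t 1) * X := by linarith [hXY 1]
      simp only [a1F, g0, g1]
      ring
    rw [hid] at hne'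
    have hΔ : a1 * b2 - a2 * b1 ≠ 0 := left_ne_zero_of_mul (left_ne_zero_of_mul hne')
    have hκ : Y - s0 - x0 * X ≠ 0 := right_ne_zero_of_mul (left_ne_zero_of_mul hne')
    refine ⟨(b1 - X * b2) / ((a1 * b2 - a2 * b1) * (Y - s0 - x0 * X)),
      (a1 - X * a2) / ((a1 * b2 - a2 * b1) * (Y - s0 - x0 * X)), fun i => ?_⟩
    have n := (hB t ht i).1
    have g : s (t i) = Y - x (t i) * X := by linarith [hXY i]
    have e : (a1 - X * a2) * a1F x s x0 s0 b1 b2 (t i) = (a1 * b2 - a2 * b1) * (Y - s0 - x0 * X) +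
        a1F x s x0 s0 a1 a2 (t i) * (b1 - X * b2) := by
      simp only [a1F, g]
      ring
    have hκ' := mul_ne_zero hΔ hκ
    generalize (a1 * b2 - a2 * b1) * (Y - s0 - x0 * X) = Z at e hκ' ⊢
    simp only
    field_simp
    linear_combination e
  · have key : ∀ v ∈ T, Thru (fun y => a1F x s x0 s0 a1 a2 y / a1F x s x0 s0 b1 b2 y)
        (fun y => 1 / a1F x s x0 s0 b1 b2 y) v X Y → ∀ i,
        (Y * b1 - X * a1) * (x (v i) - x0) + (Y * b2 - X * a2) * (s (v i) - s0) = 1 := by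
      intro v hv hth i
      have e := hth i
      have n := (hB v hv i).1
      simp only at e
      field_simp at e
      simp only [a1F] at e
      linear_combination e
    have e2 : Y * b2 - X * a2 ≠ 0 := by
      intro e
      have k0 := key t ht h1 0
      have k1 := key t ht h1 1
      rw [e] at k0 k1
      have e1 : Y * b1 - X * a1 ≠ 0 := by
        intro e'
        rw [e'] at k0
        norm_num at k0
      have : (Y * b1 - X * a1) * (x (t 0) - x (t 1)) = 0 := by linear_combination k0 - k1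
      exact h.ne t ht 0 1 (by decide) (sub_eq_zero.1 ((mul_eq_zero.1 this).resolve_left e1))
    have th : ∀ v ∈ T, Thru (fun y => a1F x s x0 s0 a1 a2 y / a1F x s x0 s0 b1 b2 y)
        (fun y => 1 / a1F x s x0 s0 b1 b2 y) v X Y →
        Thru x s v ((Y * b1 - X * a1) / (Y * b2 - X * a2))
          (s0 + x0 * ((Y * b1 - X * a1) / (Y * b2 - X * a2)) + 1 / (Y * b2 - X * a2)) := by
      intro v hv hth i
      have := key v hv hth i
      field_simp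
      linear_combination -this
    exact h.one t ht u hu _ _ (th t ht h1) (th u hu h2)

theorem a1_cnt_nonneg {α : Type} (S : Finset α) (P : α → Prop) : 0 ≤ cnt S P := Nat.cast_nonneg _

theorem a1_cnt_le {α : Type} (S : Finset α) (P : α → Prop) : cnt S P ≤ #S :=
  Nat.cast_le.2 (card_filter_le _ _)

theorem a1_cnt_mono {α : Type} {S S' : Finset α} {P P' : α → Prop}
    (h : ∀ a ∈ S, P a → a ∈ S' ∧ P' a) : cnt S P ≤ cnt S' P' :=
  Nat.cast_le.2 (card_le_card fun a ha => mem_filter.2 (h a (mem_filter.1 ha).1 (mem_filter.1 ha).2))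

theorem a1_cnt_sum {α : Type} (S : Finset α) (P : α → Prop) :
    cnt S P = ∑ a ∈ S, ind (P a) := by
  simp [cnt, ind]

theorem a1_cnt_or {α : Type} {S : Finset α} {R : α → Prop} (P P' : α → Prop)
    (h : ∀ a ∈ S, R a → P a ∨ P' a) : cnt S R ≤ cnt S P + cnt S P' := by
  simp only [a1_cnt_sum, ← sum_add_distrib]
  refine sum_le_sum fun a ha => ?_
  have := h a ha
  unfold ind
  split_ifs <;> first | tauto | norm_num

theorem a1_cnt_compl {α : Type} (S : Finset α) (P : α → Prop) :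
    cnt S P + cnt S (fun a => ¬ P a) = #S := by
  simp only [a1_cnt_sum, ← sum_add_distrib]
  rw [card_eq_sum_ones, Nat.cast_sum]
  refine sum_congr rfl fun a _ => ?_
  unfold ind
  split_ifs <;> first | tauto | norm_num

/-- filter with the classical instance -/
noncomputable def a1flt {α : Type} (S : Finset α) (P : α → Prop) : Finset α := {a ∈ S | P a}

theorem a1_mem_flt {α : Type} {S : Finset α} {P : α → Prop} {a : α} :
    a ∈ a1flt S P ↔ a ∈ S ∧ P a := mem_filter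

theorem a1_card_flt {α : Type} (S : Finset α) (P : α → Prop) : (#(a1flt S P) : ℝ) = cnt S P := rfl

theorem a1_flt_sub {α : Type} (S : Finset α) (P : α → Prop) : a1flt S P ⊆ S := filter_subset _ _

theorem a1_one_le {α : Type} {S : Finset α} {P : α → Prop} {a : α} (ha : a ∈ S) (h : P a) :
    1 ≤ cnt S P := by
  have : 0 < #(a1flt S P) := card_pos.2 ⟨a, a1_mem_flt.2 ⟨ha, h⟩⟩
  rw [← a1_card_flt]
  exact_mod_cast this

theorem a1_cnt_swap {α β : Type} (S : Finset α) (W : Finset β) (R : α → β → Prop) :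
    ∑ a ∈ S, cnt W (R a) = ∑ w ∈ W, cnt S fun a => R a w := by
  simp only [a1_cnt_sum]
  exact sum_comm

theorem a1_cnt_prod {α β : Type} (S : Finset α) (W : Finset β) (R : α → β → Prop) :
    cnt (S ×ˢ W) (fun e => R e.1 e.2) = ∑ a ∈ S, cnt W (R a) := by
  simp only [a1_cnt_sum]
  exact sum_product _ _ _

theorem a1_cnt_inj {α β : Type} {S : Finset α} {W : Finset β} {P : α → Prop} {P' : β → Prop}
    (f : α → β) (h : ∀ a ∈ S, P a → f a ∈ W ∧ P' (f a))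
    (hi : ∀ a ∈ S, ∀ b ∈ S, P a → P b → f a = f b → a = b) : cnt S P ≤ cnt W P' := by
  refine Nat.cast_le.2 (card_le_card_of_injOn f (fun a ha => ?_) fun a ha b hb e => ?_)
  · have := mem_filter.1 (mem_coe.1 ha)
    exact mem_coe.2 (mem_filter.2 (h a this.1 this.2))
  · have h1 := mem_filter.1 (mem_coe.1 ha)
    have h2 := mem_filter.1 (mem_coe.1 hb)
    exact hi a h1.1 b h2.1 h1.2 h2.2 e

theorem a1_cnt_pos {α : Type} {S : Finset α} {P : α → Prop} (h : 0 < cnt S P) : ∃ a ∈ S, P a := by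
  obtain ⟨a, ha⟩ := card_pos.1 (Nat.cast_pos.1 h)
  exact ⟨a, mem_filter.1 ha⟩

theorem a1_cnt_mul {α β : Type} (S : Finset α) (W : Finset β) (P : α → Prop) (P' : β → Prop) :
    cnt (S ×ˢ W) (fun e => P e.1 ∧ P' e.2) = cnt S P * cnt W P' := by
  simp only [a1_cnt_sum]
  rw [sum_product, sum_mul_sum]
  refine sum_congr rfl fun a _ => sum_congr rfl fun b _ => ?_
  unfold ind
  split_ifs <;> first | tauto | norm_num

/-- pigeonhole principle -/
theorem a1_pig {α β : Type} (S : Finset α) {W : Finset β} (R : α → β → Prop) {c N : ℝ}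
    (hc : 0 < c) (hN : (#W : ℝ) ≤ N) (h : c ≤ ∑ a ∈ S, cnt W (R a)) :
    ∃ w ∈ W, c ≤ N * cnt S fun a => R a w := by
  rw [a1_cnt_swap] at h
  have hW : W.Nonempty := by
    rcases W.eq_empty_or_nonempty with e | e
    · rw [e, sum_empty] at h; exact absurd h (not_le.2 hc)
    · exact e
  obtain ⟨w, hw, hm⟩ := exists_max_image W (fun w => cnt S fun a => R a w) hW
  refine ⟨w, hw, h.trans ((sum_le_card_nsmul _ _ _ hm).trans ?_)⟩
  rw [nsmul_eq_mul]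
  exact mul_le_mul_of_nonneg_right hN (a1_cnt_nonneg _ _)

/-- Markov inequality -/
theorem a1_markov {α : Type} (S : Finset α) (g : α → ℝ) (hg : ∀ a ∈ S, 0 ≤ g a) (K : ℝ) :
    K * cnt S (fun a => K ≤ g a) ≤ ∑ a ∈ S, g a := by
  rw [a1_cnt_sum, mul_sum]
  refine sum_le_sum fun a ha => ?_
  unfold ind
  split_ifs with h
  · simpa using h
  · simpa using hg a ha

/-- the triple is in bounded position with respect to the two forms -/
def a1Spr {ι : Type} (Λ : ℝ) (g0 g1 : ι → ℝ) (t : Tri ι) : Prop :=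
  ∃ M : Fin 4 → ℝ, (∀ j, |M j| ≤ Λ) ∧ 1 ≤ Λ * |M 0 * M 3 - M 1 * M 2| ∧
    ∀ i : Fin 3, ∃ σ : ℝ, σ ≠ 0 ∧ g0 (t i) = σ * (M 0 * (((i : ℕ) : ℝ) - 1) + M 1) ∧
      g1 (t i) = σ * (M 2 * (((i : ℕ) : ℝ) - 1) + M 3)

theorem a1_est {Λ h ε y σ : ℝ} {M N : Fin 4 → ℝ} (hΛ : 0 < Λ) (hε : 0 < ε) (hε1 : ε ≤ 1 / 4)
    (hh : h = ε / (16 * Λ ^ 2)) (hN : ∀ j, |N j| ≤ Λ) (hd : 1 ≤ Λ * |N 0 * N 3 - N 1 * N 2|)
    (hM : ∀ j, |M j - N j| ≤ h) (hy : |y| ≤ 1) (hσ : σ ≠ 0) :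
    -N 2 * (σ * (M 0 * y + M 1)) + N 0 * (σ * (M 2 * y + M 3)) ≠ 0 ∧
    |(N 3 * (σ * (M 0 * y + M 1)) - N 1 * (σ * (M 2 * y + M 3))) /
      (-N 2 * (σ * (M 0 * y + M 1)) + N 0 * (σ * (M 2 * y + M 3))) - y| ≤ ε := by
  have h0 : 0 ≤ h := (abs_nonneg _).trans (hM 0)
  have b1 : ∀ i j k, |N i * ((M j - N j) * y + (M k - N k))| ≤ 2 * Λ * h := by
    intro i j k
    rw [abs_mul]
    have : |(M j - N j) * y + (M k - N k)| ≤ 2 * h := by
      refine (abs_add_le _ _).trans ?_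
      rw [abs_mul]
      nlinarith [hM j, hM k, abs_nonneg (M j - N j), abs_nonneg y]
    nlinarith [hN i, abs_nonneg (N i), abs_nonneg ((M j - N j) * y + (M k - N k))]
  set E1 := N 3 * ((M 0 - N 0) * y + (M 1 - N 1)) - N 1 * ((M 2 - N 2) * y + (M 3 - N 3)) with hE1
  set E2 := N 0 * ((M 2 - N 2) * y + (M 3 - N 3)) - N 2 * ((M 0 - N 0) * y + (M 1 - N 1)) with hE2
  have c1 : |E1| ≤ 4 * Λ * h := by
    refine (abs_sub _ _).trans ?_
    linarith [b1 3 0 1, b1 1 2 3]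
  have c2 : |E2| ≤ 4 * Λ * h := by
    refine (abs_sub _ _).trans ?_
    linarith [b1 0 2 3, b1 2 0 1]
  set Δ := N 0 * N 3 - N 1 * N 2 with hΔ
  have eB : -N 2 * (σ * (M 0 * y + M 1)) + N 0 * (σ * (M 2 * y + M 3)) = σ * (Δ + E2) := by
    rw [hΔ, hE2]; ring
  have eA : N 3 * (σ * (M 0 * y + M 1)) - N 1 * (σ * (M 2 * y + M 3)) = σ * (Δ * y + E1) := by
    rw [hΔ, hE1]; ring
  have hΛh : 16 * Λ ^ 2 * h = ε := by rw [hh]; field_simp
  have lo : 1 ≤ 2 * Λ * |Δ + E2| := by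
    have : |Δ| ≤ |Δ + E2| + |E2| := by
      have := abs_sub (Δ + E2) E2
      rwa [add_sub_cancel_right] at this
    nlinarith
  have nz : Δ + E2 ≠ 0 := by
    intro e
    rw [e] at lo
    norm_num at lo
  rw [eA, eB]
  refine ⟨mul_ne_zero hσ nz, ?_⟩
  have e : σ * (Δ * y + E1) / (σ * (Δ + E2)) - y = (E1 - y * E2) / (Δ + E2) := by
    field_simp
    ring
  rw [e, abs_div, div_le_iff₀ (abs_pos.2 nz)]
  have c3 : |E1 - y * E2| ≤ 8 * Λ * h := by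
    refine (abs_sub _ _).trans ?_
    rw [abs_mul]
    nlinarith [abs_nonneg y, abs_nonneg E2]
  have : 8 * Λ * h * 1 ≤ 8 * Λ * h * (2 * Λ * |Δ + E2|) :=
    mul_le_mul_of_nonneg_left lo (by positivity)
  calc _ ≤ 8 * Λ * h * 1 := by linarith
    _ ≤ 8 * Λ * h * (2 * Λ * |Δ + E2|) := this
    _ = ε * |Δ + E2| := by rw [← hΛh]; ring

/-- triples in bounded position give separated slopes -/
theorem a1_tight {Λ ε : ℝ} (hΛ : 0 < Λ) (hε : 0 < ε) : ∃ C : ℝ, 0 < C ∧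
    ∀ (ι : Type) (T : Finset (Tri ι)) (x s : ι → ℝ), Dual x s T → ∀ x0 s0 a1 a2 b1 b2 c : ℝ,
      0 < c → c ≤ cnt T (a1Spr Λ (a1F x s x0 s0 a1 a2) (a1F x s x0 s0 b1 b2)) →
      ∃ F : Fam ι, F.T ⊆ T ∧ F.Ok ε ∧ c ≤ C * #F.T := by
  obtain ⟨ε', h1, h2, h3⟩ : ∃ ε' : ℝ, 0 < ε' ∧ ε' ≤ 1 / 4 ∧ ε' ≤ ε :=
    ⟨min ε (1 / 4), lt_min hε (by norm_num), min_le_right _ _, min_le_left _ _⟩
  set h := ε' / (16 * Λ ^ 2) with hh
  have hp : 0 < h := by positivity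
  set W : Finset (Fin 4 → ℤ) := Fintype.piFinset fun _ => Icc ⌊-Λ / h⌋ ⌊Λ / h⌋ with hW
  refine ⟨#W + 1, by positivity, fun ι T x s hD x0 s0 a1 a2 b1 b2 c hc hT => ?_⟩
  set T1 := a1flt T (a1Spr Λ (a1F x s x0 s0 a1 a2) (a1F x s x0 s0 b1 b2)) with hT1
  have hM : ∀ t, t ∈ T1 → _ := fun t ht => (a1_mem_flt.1 ht).2
  choose! M hM1 hM2 hM3 using hM
  obtain ⟨w, -, hw⟩ := a1_pig T1 (W := W) (fun t w => (fun j => ⌊M t j / h⌋) = w) hc
    (N := #W + 1) (by linarith) (by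
      refine hT.trans ?_
      rw [← a1_card_flt, card_eq_sum_ones, Nat.cast_sum]
      refine sum_le_sum fun t ht => ?_
      rw [Nat.cast_one]
      refine a1_one_le (a := fun j => ⌊M t j / h⌋) (Fintype.mem_piFinset.2 fun j => mem_Icc.2 ?_) rfl
      have := abs_le.1 (hM1 t ht j)
      exact ⟨Int.floor_mono (div_le_div_of_nonneg_right this.1 hp.le),
        Int.floor_mono (div_le_div_of_nonneg_right this.2 hp.le)⟩)
  set T2 := a1flt T1 fun t => (fun j => ⌊M t j / h⌋) = w with hT2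
  have h21 : T2 ⊆ T1 := a1_flt_sub _ _
  have h2T : T2 ⊆ T := h21.trans (a1_flt_sub _ _)
  obtain ⟨u, hu, hu'⟩ : ∃ u ∈ T1, (fun j => ⌊M u j / h⌋) = w :=
    a1_cnt_pos (pos_of_mul_pos_right (hc.trans_le hw) (by positivity))
  have key := a1_fam (a1_dual_mono hD h2T) x0 s0 (M u 3 * a1 - M u 1 * b1) (M u 3 * a2 - M u 1 * b2)
    (-M u 2 * a1 + M u 0 * b1) (-M u 2 * a2 + M u 0 * b2) h2 (fun t ht i => by
      obtain ⟨ht1, ht2⟩ := a1_mem_flt.1 ht
      obtain ⟨σ, hσ, e0, e1⟩ := hM3 t ht1 i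
      have eA : a1F x s x0 s0 (M u 3 * a1 - M u 1 * b1) (M u 3 * a2 - M u 1 * b2) (t i) =
          M u 3 * a1F x s x0 s0 a1 a2 (t i) - M u 1 * a1F x s x0 s0 b1 b2 (t i) := by
        simp only [a1F]; ring
      have eB : a1F x s x0 s0 (-M u 2 * a1 + M u 0 * b1) (-M u 2 * a2 + M u 0 * b2) (t i) =
          -M u 2 * a1F x s x0 s0 a1 a2 (t i) + M u 0 * a1F x s x0 s0 b1 b2 (t i) := by
        simp only [a1F]; ring
      rw [eA, eB, e0, e1]
      refine a1_est hΛ h1 h2 hh (hM1 u hu) (hM2 u hu) (fun j => ?_) ?_ hσ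
      · have e : ⌊M t j / h⌋ = ⌊M u j / h⌋ := (congrFun ht2 j).trans (congrFun hu' j).symm
        have := Int.abs_sub_lt_one_of_floor_eq_floor e
        rw [← sub_div, abs_div, abs_of_pos hp, div_lt_one hp] at this
        exact this.le
      · fin_cases i <;> norm_num)
  exact ⟨_, h2T, ⟨key.lin, fun t ht i => (key.sep t ht i).trans h3, key.thru, key.one⟩, hw⟩

end Pool.Agent.MP_38296a_co.H21

end FileA11

section FileA12

/-!
Quantiles on a line, the identity of Ptolemy, and the passage from a pencil to intrinsic predicates.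
-/

set_option autoImplicit false

namespace Pool.Agent.MP_38296a_co.H21

open Finset Filter Classical

theorem a1_quant {ι : Type} (Q : Finset ι) (z : ι → ℝ) {K : ℝ} (hK : 0 < K) (hQ : K ≤ #Q) :
    ∃ α, cnt Q (fun q => z q < α) < K ∧ K ≤ cnt Q fun q => z q ≤ α := by
  have hne : Q.Nonempty := card_pos.1 (Nat.cast_pos.1 (hK.trans_le hQ))
  obtain ⟨q1, hq1, hm1⟩ := exists_max_image Q z hne
  have h1 : q1 ∈ a1flt Q fun q => K ≤ cnt Q fun q' => z q' ≤ z q := by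
    refine a1_mem_flt.2 ⟨hq1, hQ.trans ?_⟩
    rw [← a1_card_flt]
    exact Nat.cast_le.2 (card_le_card fun a ha => a1_mem_flt.2 ⟨ha, hm1 a ha⟩)
  obtain ⟨q0, hq0, hm0⟩ := exists_min_image _ z ⟨q1, h1⟩
  refine ⟨z q0, ?_, (a1_mem_flt.1 hq0).2⟩
  by_contra hn
  rw [not_lt] at hn
  obtain ⟨a, ha, ha'⟩ := a1_cnt_pos (hK.trans_le hn)
  obtain ⟨q2, hq2, hm2⟩ := exists_max_image (a1flt Q fun q => z q < z q0) z
    ⟨a, a1_mem_flt.2 ⟨ha, ha'⟩⟩
  obtain ⟨h2, h3⟩ := a1_mem_flt.1 hq2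
  refine absurd (hm0 q2 (a1_mem_flt.2 ⟨h2, hn.trans (a1_cnt_mono fun b hb hb' => ⟨hb, ?_⟩)⟩))
    (not_le.2 h3)
  exact hm2 b (a1_mem_flt.2 ⟨hb, hb'⟩)

/-- three points in bounded separated position at scale `r` around `u` -/
def a1Sep (η r u : ℝ) (v0 v1 v2 : ℝ) : Prop :=
  η * |v0 - u| ≤ 2 * r ∧ η * |v1 - u| ≤ 2 * r ∧ η * |v2 - u| ≤ 2 * r ∧
    η * r ≤ 2 * (v1 - v0) ∧ η * r ≤ 2 * (v2 - v1)

/-- most pairs see far points, or three separated masses, or have almost maximal width -/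
theorem a1_line {ι J : Type} (Q : Finset ι) (z : ι → ℝ) (I : Finset J) (b c : J → ι)
    (hb : ∀ i ∈ I, ∀ j ∈ I, b i = b j → i = j) (hc : ∀ i ∈ I, ∀ j ∈ I, c i = c j → i = j)
    (hbQ : ∀ i ∈ I, b i ∈ Q) (hcQ : ∀ i ∈ I, c i ∈ Q) {K η : ℝ} (hK : 0 < K) (hη : 0 < η) :
    ∃ R : ℝ, cnt I (fun i =>
      ¬ K ≤ cnt Q (fun q => |z (b i) - z (c i)| ≤ η * |z q - z (b i)|) ∧
      ¬ K ^ 3 ≤ cnt (Q ×ˢ Q ×ˢ Q)
        (fun π => a1Sep η |z (b i) - z (c i)| (z (b i)) (z π.1) (z π.2.1) (z π.2.2)) ∧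
      ¬ ((1 - η) * R ≤ |z (b i) - z (c i)| ∧ |z (b i) - z (c i)| ≤ R)) ≤ 10 * K := by
  have cb : ∀ P : ι → Prop, cnt I (fun i => P (b i)) ≤ cnt Q P := fun P =>
    a1_cnt_inj b (fun i hi h => ⟨hbQ i hi, h⟩) fun i hi j hj _ _ => hb i hi j hj
  have cc : ∀ P : ι → Prop, cnt I (fun i => P (c i)) ≤ cnt Q P := fun P =>
    a1_cnt_inj c (fun i hi h => ⟨hcQ i hi, h⟩) fun i hi j hj _ _ => hc i hi j hj
  by_cases hQ : (#Q : ℝ) < 2 * K
  · refine ⟨0, (a1_cnt_mono (P' := fun _ => True) fun a ha _ => ⟨ha, trivial⟩).trans ?_⟩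
    have := (cb fun _ => True).trans (a1_cnt_le Q _)
    linarith
  rw [not_lt] at hQ
  obtain ⟨α, hα1, hα2⟩ := a1_quant Q z (by linarith) hQ
  obtain ⟨β', hβ1, hβ2⟩ := a1_quant Q (fun q => -z q) (by linarith) hQ
  set β := -β' with hβ
  set Out : ι → Prop := fun q => z q < α ∨ -z q < β' with hOut
  set Mid : ι → Prop := fun q => α + η / 2 * (β - α) ≤ z q ∧ z q ≤ β - η / 2 * (β - α) with hMid
  have hO : cnt Q Out ≤ 4 * K :=
    (a1_cnt_or (fun q => z q < α) (fun q => -z q < β') fun _ _ h => h).trans (by linarith)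
  refine ⟨β - α, ?_⟩
  -- consequences of not being far
  have key : ∀ i ∈ I, ¬ Out (b i) → ¬ Out (c i) →
      ¬ K ≤ cnt Q (fun q => |z (b i) - z (c i)| ≤ η * |z q - z (b i)|) →
      ¬ ((1 - η) * (β - α) ≤ |z (b i) - z (c i)| ∧ |z (b i) - z (c i)| ≤ β - α) →
      (Mid (b i) ∨ Mid (c i)) ∧ (K ≤ cnt Q Mid → K ^ 3 ≤ cnt (Q ×ˢ Q ×ˢ Q)
        fun π => a1Sep η |z (b i) - z (c i)| (z (b i)) (z π.1) (z π.2.1) (z π.2.2)) := by
    intro i hi h1 h2 h3 h4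
    simp only [hOut, not_or, not_lt] at h1 h2
    rw [not_le] at h3
    set r := |z (b i) - z (c i)| with hr
    have b1 : α ≤ z (b i) := h1.1
    have b2 : z (b i) ≤ β := by linarith [h1.2]
    have c1 : α ≤ z (c i) := h2.1
    have c2 : z (c i) ≤ β := by linarith [h2.2]
    have hrR : r ≤ β - α := abs_le.2 ⟨by linarith, by linarith⟩
    have hr1 : r < (1 - η) * (β - α) := by
      by_contra hn
      exact h4 ⟨not_lt.1 hn, hrR⟩
    have l0 : K ≤ cnt Q fun q => z q ≤ α ∧ η * |z q - z (b i)| < r := by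
      have := a1_cnt_or (S := Q) (R := fun q => z q ≤ α)
        (fun q => z q ≤ α ∧ η * |z q - z (b i)| < r) (fun q => r ≤ η * |z q - z (b i)|)
        fun a _ ha => (lt_or_ge _ r).imp (fun h => ⟨ha, h⟩) id
      linarith
    have l2 : K ≤ cnt Q fun q => β ≤ z q ∧ η * |z q - z (b i)| < r := by
      have := a1_cnt_or (S := Q) (R := fun q => -z q ≤ β')
        (fun q => β ≤ z q ∧ η * |z q - z (b i)| < r) (fun q => r ≤ η * |z q - z (b i)|)
        fun a _ ha => (lt_or_ge _ r).imp (fun h => ⟨by linarith, h⟩) id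
      linarith
    obtain ⟨q0, -, d1, d2⟩ := a1_cnt_pos (hK.trans_le l0)
    obtain ⟨q2, -, d3, d4⟩ := a1_cnt_pos (hK.trans_le l2)
    rw [abs_sub_comm, abs_of_nonneg (by linarith)] at d2
    rw [abs_of_nonneg (by linarith)] at d4
    have hR : η * (β - α) ≤ 2 * r := by nlinarith
    refine ⟨?_, fun l1 => ?_⟩
    · simp only [hMid]
      rcases abs_cases (z (b i) - z (c i)) with e | e
      · by_cases g : α + η / 2 * (β - α) ≤ z (c i)
        · exact Or.inr ⟨g, by linarith [e.1]⟩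
        · exact Or.inl ⟨by linarith [e.1], by linarith [e.1]⟩
      · by_cases g : α + η / 2 * (β - α) ≤ z (b i)
        · exact Or.inl ⟨g, by linarith [e.1]⟩
        · exact Or.inr ⟨by linarith [e.1], by linarith [e.1]⟩
    · have m := a1_cnt_mul Q (Q ×ˢ Q) (fun q => z q ≤ α ∧ η * |z q - z (b i)| < r)
        fun e => Mid e.1 ∧ β ≤ z e.2 ∧ η * |z e.2 - z (b i)| < r
      rw [a1_cnt_mul Q Q Mid fun q => β ≤ z q ∧ η * |z q - z (b i)| < r] at m
      have hr0 : 0 ≤ r := abs_nonneg _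
      calc K ^ 3 = K * (K * K) := by ring
        _ ≤ _ := mul_le_mul l0 (mul_le_mul l1 l2 hK.le (a1_cnt_nonneg _ _)) (by positivity)
            (a1_cnt_nonneg _ _)
        _ = _ := m.symm
        _ ≤ _ := a1_cnt_mono fun π hπ h => ⟨hπ, ?_⟩
      obtain ⟨⟨g1, g2⟩, ⟨g3, g4⟩, g5, g6⟩ := h
      have g7 : η * r ≤ η * (β - α) := mul_le_mul_of_nonneg_left hrR hη.le
      have g8 : 0 ≤ η * (β - α) := mul_nonneg hη.le (by linarith)
      refine ⟨by linarith, ?_, by linarith, by linarith, by linarith⟩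
      have : |z π.2.1 - z (b i)| ≤ β - α := abs_le.2 ⟨by linarith, by linarith⟩
      exact (mul_le_mul_of_nonneg_left this hη.le).trans hR
  by_cases hM : K ≤ cnt Q Mid
  · refine (a1_cnt_or (fun i => Out (b i)) (fun i => Out (c i)) fun i hi h => ?_).trans ?_
    · by_contra hn
      rw [not_or] at hn
      exact h.2.1 ((key i hi hn.1 hn.2 h.1 h.2.2).2 hM)
    · linarith [cb Out, cc Out]
  · rw [not_le] at hM
    refine (a1_cnt_or (fun i => Out (b i) ∨ Out (c i)) (fun i => Mid (b i) ∨ Mid (c i))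
      fun i hi h => ?_).trans ?_
    · by_cases hn : Out (b i) ∨ Out (c i)
      · exact Or.inl hn
      · rw [not_or] at hn
        exact Or.inr (key i hi hn.1 hn.2 h.1 h.2.2).1
    · have e1 := a1_cnt_or (S := I) (fun i => Out (b i)) (fun i => Out (c i)) fun _ _ h => h
      have e2 := a1_cnt_or (S := I) (fun i => Mid (b i)) (fun i => Mid (c i)) fun _ _ h => h
      linarith [cb Out, cc Out, cb Mid, cc Mid]

theorem a1_three {A B C P : ℝ} (hP : 0 < P) (h : A + B + C = 0) (a1 : P ≤ A ^ 2) (b1 : P ≤ B ^ 2)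
    (c1 : P ≤ C ^ 2) (a2 : A ^ 2 < 4 * P) (b2 : B ^ 2 < 4 * P) (c2 : C ^ 2 < 4 * P) : False := by
  have key : ∀ U V W : ℝ, U + V + W = 0 → P ≤ U ^ 2 → P ≤ V ^ 2 → W ^ 2 < 4 * P → U * V < 0 := by
    intro U V W e h1 h2 h3
    by_contra hn
    rw [not_lt] at hn
    have e1 : W ^ 2 = U ^ 2 + V ^ 2 + 2 * (U * V) := by
      rw [show W = -(U + V) by linarith]; ring
    have e2 : P ^ 2 ≤ (U * V) ^ 2 := by
      rw [mul_pow, pow_two P]
      exact mul_le_mul h1 h2 hP.le (sq_nonneg _)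
    have e3 : P ≤ U * V := (pow_le_pow_iff_left₀ hP.le hn two_ne_zero).1 e2
    linarith
  have k1 := key A B C h a1 b1 c2
  have k2 := key B C A (by linarith) b1 c1 a2
  have k3 := key C A B (by linarith) c1 a1 b2
  have : 0 < (A * B) * (B * C) := mul_pos_of_neg_of_neg k1 k2
  nlinarith [sq_nonneg B]

/-- the distance of `m` and `m'` is comparable with `u` -/
def a1Arc (m m' u : ℝ) : Prop := 0 < u ∧ u ≤ |m - m'| ∧ 3 / 4 * |m - m'| ≤ u

theorem a1_arc2 {m m' u u' : ℝ} (h : a1Arc m m' u) (h' : a1Arc m' m u') :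
    0 < u * u' ∧ u * u' ≤ (m - m') ^ 2 ∧ 9 / 16 * (m - m') ^ 2 ≤ u * u' := by
  obtain ⟨a1, a2, a3⟩ := h
  obtain ⟨b1, b2, b3⟩ := h'
  rw [abs_sub_comm] at b2 b3
  rw [← sq_abs]
  have := abs_nonneg (m - m')
  refine ⟨by positivity, ?_, ?_⟩ <;> nlinarith

theorem a1_arc4 {A B u v : ℝ} (h : 0 < u ∧ u ≤ A ^ 2 ∧ 9 / 16 * A ^ 2 ≤ u)
    (h' : 0 < v ∧ v ≤ B ^ 2 ∧ 9 / 16 * B ^ 2 ≤ v) :
    0 < u * v ∧ u * v ≤ (A * B) ^ 2 ∧ (A * B) ^ 2 < 4 * (u * v) := by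
  obtain ⟨a1, a2, a3⟩ := h
  obtain ⟨b1, b2, b3⟩ := h'
  have := mul_pos a1 b1
  refine ⟨this, ?_, ?_⟩
  · rw [mul_pow]; exact mul_le_mul a2 b2 b1.le (sq_nonneg _)
  · have := mul_le_mul a3 b3 (by positivity) a1.le
    rw [mul_pow]
    linarith

/-- identity of Ptolemy -/
theorem a1_ptol {J : Type} (m ρ w : J → ℝ) (a b c d : J)
    (h1 : a1Arc (m a) (m b) (ρ a * w b) ∧ a1Arc (m b) (m a) (ρ b * w a))
    (h2 : a1Arc (m a) (m c) (ρ a * w c) ∧ a1Arc (m c) (m a) (ρ c * w a))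
    (h3 : a1Arc (m a) (m d) (ρ a * w d) ∧ a1Arc (m d) (m a) (ρ d * w a))
    (h4 : a1Arc (m b) (m c) (ρ b * w c) ∧ a1Arc (m c) (m b) (ρ c * w b))
    (h5 : a1Arc (m b) (m d) (ρ b * w d) ∧ a1Arc (m d) (m b) (ρ d * w b))
    (h6 : a1Arc (m c) (m d) (ρ c * w d) ∧ a1Arc (m d) (m c) (ρ d * w c)) : False := by
  obtain ⟨a0, a1, a2⟩ := a1_arc4 (a1_arc2 h1.1 h1.2) (a1_arc2 h6.1 h6.2)
  obtain ⟨-, b1, b2⟩ := a1_arc4 (a1_arc2 h2.1 h2.2) (a1_arc2 h5.2 h5.1)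
  obtain ⟨-, c1, c2⟩ := a1_arc4 (a1_arc2 h3.1 h3.2) (a1_arc2 h4.1 h4.2)
  have e1 : ρ a * w c * (ρ c * w a) * (ρ d * w b * (ρ b * w d)) =
      ρ a * w b * (ρ b * w a) * (ρ c * w d * (ρ d * w c)) := by ring
  have e2 : ρ a * w d * (ρ d * w a) * (ρ b * w c * (ρ c * w b)) =
      ρ a * w b * (ρ b * w a) * (ρ c * w d * (ρ d * w c)) := by ring
  rw [e1] at b1 b2
  rw [e2] at c1 c2
  exact a1_three a0 (by ring) a1 b1 c1 a2 b2 c2

/-- a relation without four mutually related elements fails often -/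
theorem a1_k4 {J : Type} (I : Finset J) (G : J → J → Prop)
    (h : ∀ a ∈ I, ∀ b ∈ I, ∀ c ∈ I, ∀ d ∈ I, G a b ∧ G b a → G a c ∧ G c a → G a d ∧ G d a →
      G b c ∧ G c b → G b d ∧ G d b → G c d ∧ G d c → False) :
    (#I : ℝ) ^ 2 ≤ 32 * ∑ a ∈ I, cnt I fun b => ¬ G a b := by
  by_contra hn
  rw [not_le] at hn
  have hs : 0 ≤ ∑ a ∈ I, cnt I fun b => ¬ G a b := sum_nonneg fun _ _ => a1_cnt_nonneg _ _
  have hd : (0 : ℝ) < #I := by
    rcases (Nat.cast_nonneg (α := ℝ) #I).lt_or_eq with e | e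
    · exact e
    · rw [← e] at hn; linarith
  have h1 : ∑ a ∈ I, cnt I (fun b => ¬ (G a b ∧ G b a)) ≤ 2 * ∑ a ∈ I, cnt I fun b => ¬ G a b := by
    have := a1_cnt_swap I I fun a b => ¬ G a b
    calc _ ≤ ∑ a ∈ I, (cnt I (fun b => ¬ G a b) + cnt I fun b => ¬ G b a) :=
          sum_le_sum fun a _ => a1_cnt_or _ _ fun b _ hb => not_and_or.1 hb
      _ = _ := by rw [sum_add_distrib, ← this]; ring
  have h2 := a1_markov I (fun a => cnt I fun b => ¬ (G a b ∧ G b a))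
    (fun _ _ => a1_cnt_nonneg _ _) (#I / 8)
  set H : J → Prop := fun a => (#I : ℝ) / 8 ≤ cnt I fun b => ¬ (G a b ∧ G b a) with hH
  have h3 : cnt I H < #I / 2 := by
    by_contra hc
    rw [not_lt] at hc
    nlinarith
  have h4 := a1_cnt_compl I H
  have step : ∀ a b c, ¬ H a → ¬ H b → ¬ H c → ∃ d ∈ I, ¬ H d ∧ (G a d ∧ G d a) ∧
      (G b d ∧ G d b) ∧ (G c d ∧ G d c) := by
    intro a b c ha hb hc
    simp only [hH, not_le] at ha hb hc
    refine a1_cnt_pos ?_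
    have e1 := a1_cnt_or (S := I) (R := fun d => ¬ H d) (fun d => ¬ H d ∧ (G a d ∧ G d a) ∧
      (G b d ∧ G d b) ∧ (G c d ∧ G d c))
      (fun d => ¬ (G a d ∧ G d a) ∨ ¬ (G b d ∧ G d b) ∨ ¬ (G c d ∧ G d c)) fun d _ hd => by tauto
    have e2 := a1_cnt_or (S := I) (fun d => ¬ (G a d ∧ G d a))
      (fun d => ¬ (G b d ∧ G d b) ∨ ¬ (G c d ∧ G d c)) fun d _ hd => hd
    have e3 := a1_cnt_or (S := I) (fun d => ¬ (G b d ∧ G d b))
      (fun d => ¬ (G c d ∧ G d c)) fun d _ hd => hd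
    linarith
  obtain ⟨a, ha, ha'⟩ := a1_cnt_pos (S := I) (P := fun a => ¬ H a) (by linarith)
  obtain ⟨b, hb, hb', g1, -⟩ := step a a a ha' ha' ha'
  obtain ⟨c, hc, hc', g2, g3, -⟩ := step a b b ha' hb' hb'
  obtain ⟨d, hd, -, g4, g5, g6⟩ := step a b c ha' hb' hc'
  exact h a ha b hb c hc d hd g1 g2 g4 g3 g5 g6

end Pool.Agent.MP_38296a_co.H21

end FileA12

section FileA13

/-!
Projection from a vertex of a triple: the triples through another vertex of this triple.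
-/

set_option autoImplicit false

namespace Pool.Agent.MP_38296a_co.H21

open Finset Filter Classical

theorem a1_fin (m i : Fin 3) : i = m ∨ i = m + 1 ∨ i = m + 2 := by revert m i; decide

theorem a1_fin1 (m : Fin 3) : m + 1 + 1 = m + 2 ∧ m + 1 + 2 = m ∧ m + 1 ≠ m ∧ m + 2 ≠ m ∧
    m + 1 ≠ m + 2 := by revert m; decide

theorem a1_pos (m : Fin 3) : ∃ e0 e1 e2 : ℝ, ((m : ℕ) : ℝ) - 1 = e0 ∧
    (((m + 1 : Fin 3) : ℕ) : ℝ) - 1 = e1 ∧ (((m + 2 : Fin 3) : ℕ) : ℝ) - 1 = e2 ∧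
    |e0| ≤ 1 ∧ |e1| ≤ 1 ∧ |e2 - e0| ≤ 2 ∧ |e2 - e1| ≤ 2 ∧
    1 ≤ |(e2 - e0) * (e2 - e1) * (e1 - e0)| := by
  fin_cases m
  · exact ⟨-1, 0, 1, by norm_num, by norm_num, by norm_num, by norm_num, by norm_num,
      by norm_num, by norm_num, by norm_num⟩
  · refine ⟨0, 1, -1, by norm_num, ?_, ?_, by norm_num, by norm_num,
      by norm_num, by norm_num, by norm_num⟩
    · show ((2 : ℕ) : ℝ) - 1 = 1
      norm_num
    · show ((0 : ℕ) : ℝ) - 1 = -1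
      norm_num
  · refine ⟨1, -1, 0, ?_, ?_, ?_, by norm_num, by norm_num,
      by norm_num, by norm_num, by norm_num⟩
    · show ((2 : ℕ) : ℝ) - 1 = 1
      norm_num
    · show ((0 : ℕ) : ℝ) - 1 = -1
      norm_num
    · show ((1 : ℕ) : ℝ) - 1 = 0
      norm_num

theorem a1_bd {L u v w a b : ℝ} (hL : 1 ≤ L) (hu : |u| ≤ L) (hv : |v| ≤ L) (hw : |w| ≤ L)
    (ha : |a| ≤ 2) (hb : |b| ≤ 2) : |(u - v) * (a + w * b)| ≤ 8 * L ^ 3 := by
  have h1 : |u - v| ≤ 2 * L := (abs_sub _ _).trans (by linarith)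
  have h2 : |a + w * b| ≤ 4 * L := by
    refine (abs_add_le _ _).trans ?_
    rw [abs_mul]
    nlinarith [abs_nonneg w, abs_nonneg b]
  rw [abs_mul]
  calc _ ≤ 2 * L * (4 * L) := mul_le_mul h1 h2 (abs_nonneg _) (by linarith)
    _ = 8 * L ^ 2 * 1 := by ring
    _ ≤ 8 * L ^ 2 * L := mul_le_mul_of_nonneg_left hL (by positivity)
    _ = _ := by ring

theorem a1_spr {ι : Type} {η : ℝ} (hη : 0 < η) (hη1 : η ≤ 1) (g0 g1 ξ σ : ι → ℝ) (t : Tri ι)
    (m : Fin 3) (p0 p1 p2 : ι) (h0 : σ p0 ≠ 0) (h1 : σ p1 ≠ 0) (h2 : σ p2 ≠ 0)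
    (hg0 : ∀ y, g0 y = (ξ y * σ p1 - ξ p1 * σ y) * (ξ p2 * σ p0 - ξ p0 * σ p2))
    (hg1 : ∀ y, g1 y = (ξ p0 * σ y - ξ y * σ p0) * (ξ p1 * σ p2 - ξ p2 * σ p1))
    (ha : σ (t m) = 0) (ha' : ξ (t m) ≠ 0) (hb : σ (t (m + 1)) ≠ 0) (hc : σ (t (m + 2)) ≠ 0)
    (hr : ξ (t (m + 1)) / σ (t (m + 1)) ≠ ξ (t (m + 2)) / σ (t (m + 2)))
    (hs : a1Sep η |ξ (t (m + 1)) / σ (t (m + 1)) - ξ (t (m + 2)) / σ (t (m + 2))|
      (ξ (t (m + 1)) / σ (t (m + 1))) (ξ p0 / σ p0) (ξ p1 / σ p1) (ξ p2 / σ p2)) :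
    a1Spr (8 * (2 / η) ^ 3) g0 g1 t := by
  obtain ⟨e0, e1, e2, k0, k1, k2, l0, l1, l2, l3, l4⟩ := a1_pos m
  obtain ⟨u, hu⟩ : ∃ u, u = ξ (t (m + 1)) / σ (t (m + 1)) := ⟨_, rfl⟩
  obtain ⟨ρ, hρ⟩ : ∃ ρ, ρ = ξ (t (m + 2)) / σ (t (m + 2)) - u := ⟨_, rfl⟩
  have hρ0 : ρ ≠ 0 := by rw [hρ, hu]; exact sub_ne_zero.2 hr.symm
  have hρ1 := abs_pos.2 hρ0
  rw [← hu, abs_sub_comm, ← hρ] at hs
  obtain ⟨L, hL⟩ : ∃ L, L = 2 / η := ⟨_, rfl⟩
  have hL1 : 1 ≤ L := by rw [hL, le_div_iff₀ hη]; linarith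
  have hLη : η * L = 2 := by rw [hL]; field_simp
  have nz : ∀ p, σ p ≠ 0 → η * |ξ p / σ p - u| ≤ 2 * |ρ| →
      ∃ ζ, ξ p = (u + ρ * ζ) * σ p ∧ ξ p / σ p = u + ρ * ζ ∧ |ζ| ≤ L := by
    intro p hp h
    refine ⟨(ξ p / σ p - u) / ρ, by field_simp; ring, by field_simp; ring, ?_⟩
    rw [abs_div, div_le_iff₀ hρ1, hL, div_mul_eq_mul_div, le_div_iff₀ hη]
    linarith
  obtain ⟨s0, s1, s2, s3, s4⟩ := hs
  obtain ⟨ζ0, x0, y0, z0⟩ := nz p0 h0 s0
  obtain ⟨ζ1, x1, y1, z1⟩ := nz p1 h1 s1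
  obtain ⟨ζ2, x2, y2, z2⟩ := nz p2 h2 s2
  rw [y0, y1] at s3
  rw [y1, y2] at s4
  have sep : ∀ a b : ℝ, η * |ρ| ≤ 2 * (u + ρ * a - (u + ρ * b)) → 1 ≤ L * |a - b| := by
    intro a b h
    have e : u + ρ * a - (u + ρ * b) ≤ |ρ| * |a - b| := by
      rw [← abs_mul]
      refine le_trans (le_of_eq (by ring)) (le_abs_self _)
    have e' : η * |ρ| ≤ 2 * |a - b| * |ρ| := by linarith
    have e'' := le_of_mul_le_mul_right e' hρ1
    nlinarith
  have d1 := sep _ _ s3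
  have d2 := sep _ _ s4
  have d3 := sep ζ2 ζ0 (by linarith [mul_pos hη hρ1])
  have xb : ξ (t (m + 1)) = u * σ (t (m + 1)) := by rw [hu]; field_simp
  have xc : ξ (t (m + 2)) = (u + ρ) * σ (t (m + 2)) := by rw [hρ]; field_simp; ring
  have l5 : (e2 - e0) * (e2 - e1) * (e1 - e0) ≠ 0 := abs_pos.1 (by linarith)
  have n1 : e2 - e0 ≠ 0 := left_ne_zero_of_mul (left_ne_zero_of_mul l5)
  have n2 : e2 - e1 ≠ 0 := right_ne_zero_of_mul (left_ne_zero_of_mul l5)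
  have n3 : e1 - e0 ≠ 0 := right_ne_zero_of_mul l5
  have pr : ∀ a b : ℝ, |a| ≤ 2 → |b| ≤ 1 → |a * b| ≤ 2 := by
    intro a b h h'
    rw [abs_mul]
    nlinarith [abs_nonneg a, abs_nonneg b]
  rw [← hL]
  refine ⟨![(ζ2 - ζ0) * ((e2 - e0) + ζ1 * -(e2 - e1)),
    (ζ2 - ζ0) * (-((e2 - e0) * e1) + ζ1 * ((e2 - e1) * e0)),
    (ζ1 - ζ2) * (-(e2 - e0) + ζ0 * (e2 - e1)),
    (ζ1 - ζ2) * ((e2 - e0) * e1 + ζ0 * -((e2 - e1) * e0))], fun j => ?_, ?_, fun i => ?_⟩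
  · fin_cases j
    · exact a1_bd hL1 z2 z0 z1 l2 (by rwa [abs_neg])
    · exact a1_bd hL1 z2 z0 z1 (by rw [abs_neg]; exact pr _ _ l2 l1) (pr _ _ l3 l0)
    · exact a1_bd hL1 z1 z2 z0 (by rwa [abs_neg]) l3
    · exact a1_bd hL1 z1 z2 z0 (pr _ _ l2 l1) (by rw [abs_neg]; exact pr _ _ l3 l0)
  · simp only [Matrix.cons_val]
    have e : (ζ2 - ζ0) * ((e2 - e0) + ζ1 * -(e2 - e1)) *
        ((ζ1 - ζ2) * ((e2 - e0) * e1 + ζ0 * -((e2 - e1) * e0))) -
        (ζ2 - ζ0) * (-((e2 - e0) * e1) + ζ1 * ((e2 - e1) * e0)) *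
        ((ζ1 - ζ2) * (-(e2 - e0) + ζ0 * (e2 - e1))) =
        (ζ1 - ζ0) * (ζ2 - ζ1) * (ζ2 - ζ0) * ((e2 - e0) * (e2 - e1) * (e1 - e0)) := by ring
    rw [e, abs_mul, abs_mul, abs_mul]
    have f1 := one_le_mul_of_one_le_of_one_le (one_le_mul_of_one_le_of_one_le
      (one_le_mul_of_one_le_of_one_le d1 d2) d3) l4
    generalize |(e2 - e0) * (e2 - e1) * (e1 - e0)| = E at f1 ⊢
    generalize |ζ1 - ζ0| = A at f1 ⊢
    generalize |ζ2 - ζ1| = B at f1 ⊢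
    generalize |ζ2 - ζ0| = C at f1 ⊢
    linarith
  · simp only [Matrix.cons_val]
    have hS : σ p0 * σ p1 * σ p2 ≠ 0 := mul_ne_zero (mul_ne_zero h0 h1) h2
    rcases a1_fin m i with rfl | rfl | rfl
    · refine ⟨-(σ p0 * σ p1 * σ p2 * ρ * ξ (t i) / ((e2 - e0) * (e1 - e0))),
        neg_ne_zero.2 (div_ne_zero (mul_ne_zero (mul_ne_zero hS hρ0) ha') (mul_ne_zero n1 n3)),
        ?_, ?_⟩
      · rw [hg0, k0, ha, x0, x1, x2]; field_simp; ring
      · rw [hg1, k0, ha, x0, x1, x2]; field_simp; ring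
    · refine ⟨σ p0 * σ p1 * σ p2 * ρ ^ 2 * σ (t (m + 1)) / ((e2 - e1) * (e1 - e0)),
        div_ne_zero (mul_ne_zero (mul_ne_zero hS (pow_ne_zero _ hρ0)) hb) (mul_ne_zero n2 n3),
        ?_, ?_⟩
      · rw [hg0, k1, xb, x0, x1, x2]; field_simp; ring
      · rw [hg1, k1, xb, x0, x1, x2]; field_simp; ring
    · refine ⟨σ p0 * σ p1 * σ p2 * ρ ^ 2 * σ (t (m + 2)) / ((e2 - e0) * (e2 - e1)),
        div_ne_zero (mul_ne_zero (mul_ne_zero hS (pow_ne_zero _ hρ0)) hc) (mul_ne_zero n1 n2),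
        ?_, ?_⟩
      · rw [hg0, k2, xc, x0, x1, x2]; field_simp; ring
      · rw [hg1, k2, xc, x0, x1, x2]; field_simp; ring

/-- the affine form in `y` which vanishes at `c` and at `y'` -/
def a1br {ι : Type} (x s : ι → ℝ) (c y y' : ι) : ℝ :=
  (x y - x c) * (s y' - s c) - (x y' - x c) * (s y - s c)

/-- the line through the pair `e` meets the line of `t` close to the vertex `m` -/
def a1Near {ι : Type} (η : ℝ) (x s : ι → ℝ) (m : Fin 3) (t : Tri ι) (e : ι × ι) : Prop :=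
  co x t (m + 1) * a1br x s e.1 (t (m + 1)) e.2 ≠ 0 ∧
    |co x t m * a1br x s e.1 (t m) e.2| ≤ η * |co x t (m + 1) * a1br x s e.1 (t (m + 1)) e.2|

/-- seen from `c` the triple is in bounded position with respect to `π` -/
def a1Wide {ι : Type} (Λ : ℝ) (x s : ι → ℝ) (t : Tri ι) (c : ι) (π : ι × ι × ι) : Prop :=
  a1Spr Λ (a1F x s (x c) (s c) ((s π.2.1 - s c) * a1br x s c π.2.2 π.1)
      (-(x π.2.1 - x c) * a1br x s c π.2.2 π.1))
    (a1F x s (x c) (s c) (-(s π.1 - s c) * a1br x s c π.2.1 π.2.2)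
      ((x π.1 - x c) * a1br x s c π.2.1 π.2.2)) t

/-- width of a triple seen from its vertex `m` -/
noncomputable def a1w {ι : Type} (x : ι → ℝ) (m : Fin 3) (t : Tri ι) : ℝ :=
  |1 / (x (t (m + 1)) - x (t m)) - 1 / (x (t (m + 2)) - x (t m))|

theorem a1_row {ι : Type} {x s : ι → ℝ} {T : Finset (Tri ι)} (hD : Dual x s T) {P : Finset ι}
    (hP : ∀ t ∈ T, ∀ i, t i ∈ P) {X Y : Tri ι → ℝ} (hXY : ∀ t ∈ T, Thru x s t (X t) (Y t))
    (m : Fin 3) {a : ι} (ha : ∀ t ∈ T, t m = a) {K η : ℝ} (hK : 0 < K) (hη : 0 < η)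
    (hη1 : η ≤ 1 / 4) {u : Tri ι} (hu : u ∈ T) :
    ∃ ρ : ℝ, cnt T (fun t => ¬ a1Arc (X u) (X t) (ρ * a1w x m t)) ≤ 1 + 10 * K +
      cnt T (fun t => K ≤ cnt P fun q => a1Near η x s m t (u (m + 2), q)) +
      cnt T (fun t => K ^ 3 ≤ cnt (P ×ˢ P ×ˢ P) (a1Wide (8 * (2 / η) ^ 3) x s t (u (m + 2)))) := by
  obtain ⟨f1, f2, f3, f4, f5⟩ := a1_fin1 m
  obtain ⟨σ, hσ⟩ : ∃ σ : ι → ℝ, σ = fun y => s y + x y * X u - Y u := ⟨_, rfl⟩
  obtain ⟨ξ, hξ⟩ : ∃ ξ : ι → ℝ, ξ = fun y => x y - x (u (m + 2)) := ⟨_, rfl⟩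
  have hsc : s (u (m + 2)) = Y u - x (u (m + 2)) * X u := by linarith [hXY u hu (m + 2)]
  have hbr : ∀ y y', a1br x s (u (m + 2)) y y' = ξ y * σ y' - ξ y' * σ y := by
    intro y y'
    simp only [a1br, hσ, hξ, hsc]
    ring
  have hsa : ∀ t ∈ T, Y t = s a + x a * X t := fun t ht => by rw [← ha t ht]; exact hXY t ht m
  have hσt : ∀ t ∈ T, ∀ i, σ (t i) = (x (t i) - x a) * (X u - X t) := by
    intro t ht i
    simp only [hσ]
    linear_combination hsa t ht - hsa u hu - hXY t ht i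
  have hΔ : ∀ t ∈ T, t ≠ u → X u - X t ≠ 0 := by
    intro t ht hn e
    have e1 : X t = X u := by linarith
    have e2 : Y t = Y u := by rw [hsa t ht, hsa u hu, e1]
    have := hXY t ht
    rw [e1, e2] at this
    exact hn (hD.one t ht u hu _ _ this (hXY u hu))
  have hτ : ∀ t ∈ T, ∀ i, i ≠ m → x (t i) - x a ≠ 0 := fun t ht i hi => by
    rw [← ha t ht]; exact sub_ne_zero.2 (hD.ne t ht i m hi)
  have hQ : ∀ i, i ≠ m → ∀ t ∈ a1flt T (· ≠ u), t i ∈ a1flt P fun q => σ q ≠ 0 := by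
    intro i hi t ht
    obtain ⟨h1, h2⟩ := a1_mem_flt.1 ht
    exact a1_mem_flt.2 ⟨hP t h1 i, by rw [hσt t h1]; exact mul_ne_zero (hτ t h1 i hi) (hΔ t h1 h2)⟩
  have hinj : ∀ i, i ≠ m → ∀ t ∈ a1flt T (· ≠ u), ∀ v ∈ a1flt T (· ≠ u), t i = v i → t = v := by
    intro i hi t ht v hv e
    have h1 := (a1_mem_flt.1 ht).1
    have h2 := (a1_mem_flt.1 hv).1
    exact hD.lin t h1 v h2 i m hi e ((ha t h1).trans (ha v h2).symm)
  obtain ⟨R, hR⟩ := a1_line (a1flt P fun q => σ q ≠ 0) (fun y => ξ y / σ y) (a1flt T (· ≠ u))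
    (fun t => t (m + 1)) (fun t => t (m + 2)) (hinj _ f3) (hinj _ f4) (hQ _ f3) (hQ _ f4) hK hη
  refine ⟨|x (u (m + 2)) - x a| / R, ?_⟩
  have hτ0 := hτ u hu _ f4
  have e1 : cnt T (fun t => t = u) ≤ 1 := by
    have := (a1_cnt_mono (S := T) (S' := {u}) (P := fun t => t = u) (P' := fun _ => True)
      fun t _ h => ⟨mem_singleton.2 h, trivial⟩).trans (a1_cnt_le _ _)
    simpa using this
  refine le_trans (a1_cnt_or (fun t => t = u ∨ (t ≠ u ∧ _)) (fun t =>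
    (K ≤ cnt P fun q => a1Near η x s m t (u (m + 2), q)) ∨
      K ^ 3 ≤ cnt (P ×ˢ P ×ˢ P) (a1Wide (8 * (2 / η) ^ 3) x s t (u (m + 2)))) ?_)
    (le_trans (add_le_add ((a1_cnt_or _ _ fun _ _ h => h).trans (add_le_add e1
      ((a1_cnt_mono fun t ht h => ⟨a1_mem_flt.2 ⟨ht, h.1⟩, h.2⟩).trans hR)))
      (a1_cnt_or _ _ fun _ _ h => h)) (le_of_eq (by ring)))
  intro t ht hn
  by_cases htu : t = u
  · exact Or.inl (Or.inl htu)
  have d0 := hΔ t ht htu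
  have d1 := hτ t ht _ f3
  have d2 := hτ t ht _ f4
  have d3 : x (t (m + 1)) - x (t (m + 2)) ≠ 0 := sub_ne_zero.2 (hD.ne t ht _ _ f5)
  have s1 := hσt t ht (m + 1)
  have s2 := hσt t ht (m + 2)
  have s0 : σ (t m) = 0 := by rw [hσt t ht, ha t ht]; ring
  have n1 : σ (t (m + 1)) ≠ 0 := s1 ▸ mul_ne_zero d1 d0
  have n2 : σ (t (m + 2)) ≠ 0 := s2 ▸ mul_ne_zero d2 d0
  have hξa : ξ (t m) = -(x (u (m + 2)) - x a) := by rw [hξ, ha t ht]; ring
  have hz : ξ (t (m + 1)) / σ (t (m + 1)) - ξ (t (m + 2)) / σ (t (m + 2)) =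
      (x (u (m + 2)) - x a) * (x (t (m + 1)) - x (t (m + 2))) /
        ((x (t (m + 1)) - x a) * (x (t (m + 2)) - x a) * (X u - X t)) := by
    rw [s1, s2, hξ]
    field_simp
    ring
  have hz0 : ξ (t (m + 1)) / σ (t (m + 1)) - ξ (t (m + 2)) / σ (t (m + 2)) ≠ 0 := by
    rw [hz]
    exact div_ne_zero (mul_ne_zero hτ0 d3) (mul_ne_zero (mul_ne_zero d1 d2) d0)
  by_contra hc
  simp only [not_or, not_and_or, not_not] at hc
  obtain ⟨⟨-, hc⟩, c1, c2⟩ := hc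
  rcases hc with hc | hc | hc | hc
  · exact htu hc
  · refine c1 (hc.trans (a1_cnt_mono fun q hq h => ⟨(a1_mem_flt.1 hq).1, ?_⟩))
    have hq0 : σ q ≠ 0 := (a1_mem_flt.1 hq).2
    have v1 : co x t (m + 1) * a1br x s (u (m + 2)) (t (m + 1)) q =
        -(ξ q / σ q - ξ (t (m + 1)) / σ (t (m + 1))) *
          ((x (t (m + 1)) - x a) * (x (t (m + 2)) - x a) * (X u - X t) * σ q) := by
      rw [co, f1, f2, hbr, ha t ht, s1]
      field_simp
      ring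
    have v0 : co x t m * a1br x s (u (m + 2)) (t m) q =
        -(ξ (t (m + 1)) / σ (t (m + 1)) - ξ (t (m + 2)) / σ (t (m + 2))) *
          ((x (t (m + 1)) - x a) * (x (t (m + 2)) - x a) * (X u - X t) * σ q) := by
      rw [co, hbr, hz, s0, hξa]
      field_simp
      ring
    have w0 := mul_ne_zero (mul_ne_zero (mul_ne_zero d1 d2) d0) hq0
    have hpos := (abs_pos.2 hz0).trans_le h
    refine ⟨?_, ?_⟩
    · simp only
      rw [v1]
      exact mul_ne_zero (neg_ne_zero.2 (abs_pos.1 (pos_of_mul_pos_right hpos hη.le))) w0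
    · simp only
      rw [v0, v1]
      generalize (x (t (m + 1)) - x a) * (x (t (m + 2)) - x a) * (X u - X t) * σ q = W
      rw [abs_mul, abs_mul, abs_neg, abs_neg, ← mul_assoc]
      exact mul_le_mul_of_nonneg_right h (abs_nonneg _)
  · refine c2 (hc.trans (a1_cnt_mono fun π hπ h => ?_))
    obtain ⟨q0, q1⟩ := mem_product.1 hπ
    obtain ⟨q1, q2⟩ := mem_product.1 q1
    rw [a1_mem_flt] at q0 q1 q2
    refine ⟨mem_product.2 ⟨q0.1, mem_product.2 ⟨q1.1, q2.1⟩⟩, ?_⟩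
    refine a1_spr hη (by linarith) _ _ ξ σ t m π.1 π.2.1 π.2.2 q0.2 q1.2 q2.2 (fun y => ?_)
      (fun y => ?_) s0 (by rw [hξa]; exact neg_ne_zero.2 hτ0) n1 n2 (sub_ne_zero.1 hz0) h
    · rw [← hbr, ← hbr]; simp only [a1F, a1br]; ring
    · rw [← hbr, ← hbr]; simp only [a1F, a1br]; ring
  · apply hn
    have hr := abs_pos.2 hz0
    have hR0 : 0 < R := hr.trans_le hc.2
    have e : |x (u (m + 2)) - x a| / R * a1w x m t =
        |ξ (t (m + 1)) / σ (t (m + 1)) - ξ (t (m + 2)) / σ (t (m + 2))| / R * |X u - X t| := by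
      rw [div_mul_eq_mul_div, div_mul_eq_mul_div, a1w, ← abs_mul, ← abs_mul, hz, ha t ht,
        ← abs_neg]
      congr 2
      field_simp
      ring
    have hd := abs_pos.2 d0
    have g1 := (div_le_one hR0).2 hc.2
    have g2 := (le_div_iff₀ hR0).2 hc.1
    rw [e]
    exact ⟨by positivity, by nlinarith, by nlinarith⟩

end Pool.Agent.MP_38296a_co.H21

end FileA13

section FileA1

set_option autoImplicit false

namespace Pool.Agent.MP_38296a_co.H21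

open Finset Filter Classical

theorem a1_star {ι : Type} {x s : ι → ℝ} {T : Finset (Tri ι)} (hD : Dual x s T) {P : Finset ι}
    (hP : ∀ t ∈ T, ∀ i, t i ∈ P) (m : Fin 3) {a : ι} (ha : ∀ t ∈ T, t m = a) {K η : ℝ}
    (hK : 0 < K) (hη : 0 < η) (hη1 : η ≤ 1 / 4) :
    (#T : ℝ) ^ 2 ≤ 32 * ∑ t ∈ T, (1 + 10 * K +
      cnt P (fun c => K ≤ cnt P fun q => a1Near η x s m t (c, q)) +
      cnt P fun c => K ^ 3 ≤ cnt (P ×ˢ P ×ˢ P) (a1Wide (8 * (2 / η) ^ 3) x s t c)) := by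
  choose! X Y hXY using hD.thru
  have h := fun u hu => a1_row hD hP hXY m ha hK hη hη1 (u := u) hu
  choose! ρ hρ using h
  have key : ∀ W : Tri ι → ι → Prop,
      ∑ u ∈ T, cnt T (fun t => W t (u (m + 2))) ≤ ∑ t ∈ T, cnt P (W t) := by
    intro W
    rw [a1_cnt_swap T T fun u t => W t (u (m + 2))]
    refine sum_le_sum fun t _ => a1_cnt_inj (fun u => u (m + 2)) (fun u hu h => ⟨hP u hu _, h⟩)
      fun u hu v hv _ _ e => ?_
    exact hD.lin u hu v hv (m + 2) m (a1_fin1 m).2.2.2.1 e ((ha u hu).trans (ha v hv).symm)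
  refine (a1_k4 T (fun u t => a1Arc (X u) (X t) (ρ u * a1w x m t))
    fun a _ b _ c _ d _ => a1_ptol X ρ (a1w x m) a b c d).trans ?_
  refine mul_le_mul_of_nonneg_left ((sum_le_sum hρ).trans ?_) (by norm_num)
  simp only [sum_add_distrib]
  exact add_le_add (add_le_add le_rfl (key fun t c => K ≤ cnt P fun q => a1Near η x s m t (c, q)))
    (key fun t c => K ^ 3 ≤ cnt (P ×ˢ P ×ˢ P) (a1Wide (8 * (2 / η) ^ 3) x s t c))

theorem a1_core {ι : Type} {x s : ι → ℝ} {T : Finset (Tri ι)} (hD : Dual x s T) {P : Finset ι}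
    (hP : ∀ t ∈ T, ∀ i, t i ∈ P) (m : Fin 3) {K η : ℝ}
    (hK : 0 < K) (hη : 0 < η) (hη1 : η ≤ 1 / 4) :
    (#T : ℝ) ^ 2 ≤ #P * (32 * ∑ t ∈ T, (1 + 10 * K +
      cnt P (fun c => K ≤ cnt P fun q => a1Near η x s m t (c, q)) +
      cnt P fun c => K ^ 3 ≤ cnt (P ×ˢ P ×ˢ P) (a1Wide (8 * (2 / η) ^ 3) x s t c))) := by
  have hm : ∀ t ∈ T, t m ∈ P := fun t ht => hP t ht m
  rw [← sum_fiberwise_of_maps_to hm, card_eq_sum_card_fiberwise (fun t ht => hm t ht),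
    Nat.cast_sum, mul_sum]
  refine sq_sum_le_card_mul_sum_sq.trans (mul_le_mul_of_nonneg_left (sum_le_sum fun a _ => ?_)
    (Nat.cast_nonneg _))
  exact a1_star (a1_dual_mono hD (filter_subset _ _)) (fun t ht => hP t (mem_filter.1 ht).1) m
    (fun t ht => (mem_filter.1 ht).2) hK hη hη1

theorem a1_om {ι : Type} {x s : ι → ℝ} {t : Tri ι} {X Y : ℝ} (h : Thru x s t X Y) (c q : ι) :
    Om x (fun y => a1br x s c y q) t = 0 := by
  have g : ∀ i, s (t i) = Y - x (t i) * X := fun i => by linarith [h i]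
  simp only [Om, co, Fin.sum_univ_three, a1br, g]
  have e1 : (0 : Fin 3) + 1 = 1 := rfl
  have e2 : (0 : Fin 3) + 2 = 2 := rfl
  have e3 : (1 : Fin 3) + 1 = 2 := rfl
  have e4 : (1 : Fin 3) + 2 = 0 := rfl
  have e5 : (2 : Fin 3) + 1 = 0 := rfl
  have e6 : (2 : Fin 3) + 2 = 1 := rfl
  rw [e1, e2, e3, e4, e5, e6]
  ring

/-- many lines close to each vertex give three nearly vanishing solutions -/
theorem a1_tro {ι : Type} {x s : ι → ℝ} {T : Finset (Tri ι)} (hD : Dual x s T) {P : Finset ι}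
    {N η γ δ : ℝ} (hN : 0 < N) (hPN : (#P : ℝ) ≤ N) (hγ : 0 < γ) (hδ : 0 < δ)
    (h : δ * N ^ 2 ≤ cnt T fun t => ∀ m, γ * N ^ 2 ≤ cnt (P ×ˢ P) (a1Near η x s m t)) :
    ∃ T' ⊆ T, δ * γ ^ 3 * N ^ 2 ≤ #T' ∧ ∃ f, Tro η x T' f := by
  set T1 := a1flt T fun t => ∀ m, γ * N ^ 2 ≤ cnt (P ×ˢ P) (a1Near η x s m t) with hT1
  have hP0 : (0 : ℝ) ≤ #P := Nat.cast_nonneg _
  obtain ⟨w, -, hw⟩ := a1_pig T1 (W := (P ×ˢ P) ×ˢ (P ×ˢ P) ×ˢ (P ×ˢ P))
    (fun t w => a1Near η x s 0 t w.1 ∧ a1Near η x s 1 t w.2.1 ∧ a1Near η x s 2 t w.2.2)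
    (c := δ * N ^ 2 * (γ * N ^ 2) ^ 3) (N := N ^ 6) (by positivity) (by
      simp only [card_product, Nat.cast_mul]
      calc _ = (#P : ℝ) ^ 6 := by ring
        _ ≤ _ := pow_le_pow_left₀ hP0 hPN 6) (by
      refine le_trans ?_ (card_nsmul_le_sum T1 _ ((γ * N ^ 2) ^ 3) fun t ht => ?_)
      · rw [nsmul_eq_mul]
        exact mul_le_mul_of_nonneg_right h (by positivity)
      · have e := (a1_mem_flt.1 ht).2
        rw [a1_cnt_mul (P ×ˢ P) ((P ×ˢ P) ×ˢ (P ×ˢ P)) (a1Near η x s 0 t)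
          fun w => a1Near η x s 1 t w.1 ∧ a1Near η x s 2 t w.2,
          a1_cnt_mul (P ×ˢ P) (P ×ˢ P) (a1Near η x s 1 t) (a1Near η x s 2 t)]
        calc _ = γ * N ^ 2 * (γ * N ^ 2 * (γ * N ^ 2)) := by ring
          _ ≤ _ := mul_le_mul (e 0) (mul_le_mul (e 1) (e 2) (by positivity) (a1_cnt_nonneg _ _))
            (by positivity) (a1_cnt_nonneg _ _))
  refine ⟨a1flt T1 _, (a1_flt_sub _ _).trans (a1_flt_sub _ _),
    le_of_mul_le_mul_left (le_trans (le_of_eq (by ring)) hw) (pow_pos hN 6),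
    fun j y => a1br x s (![w.1, w.2.1, w.2.2] j).1 y (![w.1, w.2.1, w.2.2] j).2, fun t ht j => ?_⟩
  obtain ⟨h1, h2⟩ := a1_mem_flt.1 ht
  obtain ⟨X, Y, hXY⟩ := hD.thru t (a1_flt_sub _ _ h1)
  refine ⟨a1_om hXY _ _, ?_⟩
  fin_cases j
  · exact h2.1
  · exact h2.2.1
  · exact h2.2.2

/-- reduction to three families with separated slopes -/
theorem a1 (k k' : ℕ) {δ ε : ℝ} (hδ : 0 < δ) (hε : 0 < ε) : ∃ δ' : ℝ, 0 < δ' ∧ ∃ n0 : ℕ,
    ∀ (ι : Type) (n : ℕ) (p : ι → ℝ × ℝ) (T : Finset (Tri ι)), n0 ≤ n → Prim k' n δ p T →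
      ¬ Rich k T → ∃ F : Fam ι, F.T ⊆ T ∧ F.Ok ε ∧ δ' * (n : ℝ) ^ 2 ≤ #F.T := by
  obtain ⟨d, hd⟩ : ∃ d, d = δ / 6 := ⟨_, rfl⟩
  have hd0 : 0 < d := by rw [hd]; positivity
  obtain ⟨η0, hη0, n1, hc3⟩ := cutc3 k k' (D := 3 * d * (d / 2000 * d / 200) ^ 3) (by positivity)
  obtain ⟨η, hη, hη1, hη2⟩ : ∃ η : ℝ, 0 < η ∧ η ≤ 1 / 4 ∧ η ≤ η0 :=
    ⟨min η0 (1 / 4), lt_min hη0 (by norm_num), min_le_right _ _, min_le_left _ _⟩
  obtain ⟨C, hC, htight⟩ := a1_tight (Λ := 8 * (2 / η) ^ 3) (by positivity) hε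
  refine ⟨(d / 2000) ^ 3 * (d ^ 2 / 200) / C, by positivity, max n1 ⌈200 / d⌉₊,
    fun ι n p T hn hp hR => ?_⟩
  obtain ⟨x, s, hD, hfew⟩ := a1_shear hp
  have hN1 : 200 ≤ d * n := by
    have : 200 / d ≤ n := (Nat.le_ceil _).trans (Nat.cast_le.2 (le_of_max_le_right hn))
    rwa [div_le_iff₀' hd0] at this
  have hN : (0 : ℝ) < n := pos_of_mul_pos_right (by linarith) hd0.le
  have hPN : (#(lines T) : ℝ) ≤ n := Nat.cast_le.2 hp.size
  have hP0 : (0 : ℝ) ≤ #(lines T) := Nat.cast_nonneg _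
  by_cases hA : 3 * d * (n : ℝ) ^ 2 ≤ cnt T fun t => ∀ m, d / 2000 * d / 200 * (n : ℝ) ^ 2 ≤
      cnt (lines T ×ˢ lines T) (a1Near η x s m t)
  · obtain ⟨T', h1, h2, f, hf⟩ := a1_tro hD hN hPN (by positivity) (by positivity) hA
    refine absurd (a1_rich_mono (hc3 ι T' x s f n (a1_dual_mono hD h1)
      ((card_le_card (a1_lines_mono h1)).trans hp.size) h2 (le_of_max_le_left hn)
      (fun t _ X Y _ => le_trans (card_le_card (filter_subset_filter _ (a1_lines_mono h1)))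
        (hfew X Y)) fun t ht j => ⟨(hf t ht j).1, (hf t ht j).2.1, (hf t ht j).2.2.trans
          (mul_le_mul_of_nonneg_right hη2 (abs_nonneg _))⟩) h1) hR
  obtain ⟨m, hm⟩ : ∃ m, d * (n : ℝ) ^ 2 ≤ cnt T fun t => cnt (lines T ×ˢ lines T)
      (a1Near η x s m t) < d / 2000 * d / 200 * (n : ℝ) ^ 2 := by
    by_contra hn
    simp only [not_exists, not_le] at hn hA
    have e := a1_cnt_compl T fun t => ∀ m, d / 2000 * d / 200 * (n : ℝ) ^ 2 ≤
      cnt (lines T ×ˢ lines T) (a1Near η x s m t)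
    set B : Fin 3 → Tri ι → Prop := fun m t => cnt (lines T ×ˢ lines T)
      (a1Near η x s m t) < d / 2000 * d / 200 * (n : ℝ) ^ 2 with hB
    have e1 := a1_cnt_or (S := T) (R := fun t => ¬ ∀ m, d / 2000 * d / 200 * (n : ℝ) ^ 2 ≤
      cnt (lines T ×ˢ lines T) (a1Near η x s m t)) (B 0) (fun t => B 1 t ∨ B 2 t) fun t _ h => by
        simp only [not_forall, not_le] at h
        obtain ⟨m, h⟩ := h
        fin_cases m
        · exact Or.inl h
        · exact Or.inr (Or.inl h)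
        · exact Or.inr (Or.inr h)
    have e2 := a1_cnt_or (S := T) (B 1) (B 2) fun t _ h => h
    have e3 := hp.dens
    have h0 : cnt T (B 0) < _ := hn 0
    have h1 : cnt T (B 1) < _ := hn 1
    have h2 : cnt T (B 2) < _ := hn 2
    rw [show δ = 6 * d by rw [hd]; ring] at e3
    linarith
  set Tm := a1flt T fun t => cnt (lines T ×ˢ lines T)
      (a1Near η x s m t) < d / 2000 * d / 200 * (n : ℝ) ^ 2 with hTm
  have hsub : Tm ⊆ T := a1_flt_sub _ _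
  have hDm := a1_dual_mono hD hsub
  rw [← a1_card_flt, ← hTm] at hm
  have hK : 0 < d / 2000 * n := by positivity
  by_cases hB : d ^ 2 / 200 * (n : ℝ) ^ 3 ≤ ∑ t ∈ Tm, cnt (lines T) fun c =>
      (d / 2000 * n) ^ 3 ≤ cnt (lines T ×ˢ lines T ×ˢ lines T) (a1Wide (8 * (2 / η) ^ 3) x s t c)
  · obtain ⟨w, -, hw⟩ := a1_pig Tm (W := lines T ×ˢ lines T ×ˢ lines T ×ˢ lines T)
      (fun t w => a1Wide (8 * (2 / η) ^ 3) x s t w.1 w.2)
      (c := (d / 2000 * n) ^ 3 * (d ^ 2 / 200 * (n : ℝ) ^ 3)) (N := (n : ℝ) ^ 4) (by positivity) (by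
        simp only [card_product, Nat.cast_mul]
        calc _ = (#(lines T) : ℝ) ^ 4 := by ring
          _ ≤ _ := pow_le_pow_left₀ hP0 hPN 4) (by
        refine (mul_le_mul_of_nonneg_left hB (by positivity)).trans ?_
        rw [mul_sum]
        refine sum_le_sum fun t _ => ?_
        rw [a1_cnt_prod (lines T) (lines T ×ˢ lines T ×ˢ lines T)
          (a1Wide (8 * (2 / η) ^ 3) x s t)]
        exact a1_markov _ _ (fun _ _ => a1_cnt_nonneg _ _) _)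
    obtain ⟨F, h1, h2, h3⟩ := htight ι Tm x s hDm _ _ _ _ _ _
      ((d / 2000) ^ 3 * (d ^ 2 / 200) * (n : ℝ) ^ 2) (by positivity)
      (le_of_mul_le_mul_left (le_trans (le_of_eq (by ring)) hw) (pow_pos hN 4))
    refine ⟨F, h1.trans hsub, h2, ?_⟩
    rw [div_mul_eq_mul_div, div_le_iff₀' hC]
    exact h3
  exfalso
  rw [not_le] at hB
  have h1 := a1_core hDm (P := lines T) (fun t ht i => a1_mem (hsub ht) i) m hK hη hη1
  have h2 : ∀ t ∈ Tm, cnt (lines T) (fun c => d / 2000 * n ≤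
      cnt (lines T) fun q => a1Near η x s m t (c, q)) ≤ d * n / 200 := by
    intro t ht
    have e := a1_markov (lines T) (fun c => cnt (lines T) fun q => a1Near η x s m t (c, q))
      (fun _ _ => a1_cnt_nonneg _ _) (d / 2000 * n)
    rw [← a1_cnt_prod (lines T) (lines T) fun c q => a1Near η x s m t (c, q)] at e
    exact le_of_mul_le_mul_left ((e.trans (a1_mem_flt.1 ht).2.le).trans (le_of_eq (by ring))) hK
  rw [sum_add_distrib] at h1
  have h3 : ∑ t ∈ Tm, (1 + 10 * (d / 2000 * n) + cnt (lines T) fun c => d / 2000 * n ≤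
      cnt (lines T) fun q => a1Near η x s m t (c, q)) ≤ #Tm * (3 * (d * n / 200)) := by
    rw [← nsmul_eq_mul]
    exact sum_le_card_nsmul _ _ _ fun t ht => by linarith [h2 t ht]
  have hM : (0 : ℝ) < #Tm := lt_of_lt_of_le (by positivity) hm
  have h4 : d ^ 2 / 200 * (n : ℝ) ^ 3 ≤ #Tm * (d * n / 200) := by
    calc _ = d * (n : ℝ) ^ 2 * (d * n / 200) := by ring
      _ ≤ _ := mul_le_mul_of_nonneg_right hm (by positivity)
  have h5 : (#Tm : ℝ) ^ 2 ≤ n * (32 * (#Tm * (4 * (d * n / 200)))) :=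
    h1.trans (mul_le_mul hPN (by linarith) (mul_nonneg (by norm_num) (add_nonneg
      (sum_nonneg fun _ _ => add_nonneg (by positivity) (a1_cnt_nonneg _ _))
      (sum_nonneg fun _ _ => a1_cnt_nonneg _ _))) hN.le)
  nlinarith [mul_le_mul_of_nonneg_left hm hM.le, mul_pos hM hM]

end Pool.Agent.MP_38296a_co.H21

end FileA1

end

-- part MP_38296a_co.H21.Final
section

section FileTriv

set_option autoImplicit false

namespace Pool.Agent.MP_38296a_co.H21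

open Finset Filter Classical

variable {D k N r : ℕ} {A : ℕ → Arr ℕ} {Q : ℕ → Bx} {lab : ℕ → ℕ → Fin D → ℝ} {β : Fin 3}
  {g : ℕ → ℕ → Fin (r + 2) → ℝ}

section Aux
variable {ι : Type} {B : Arr ι} {q : Bx} {lb : ι → Fin D → ℝ}

theorem triv_hu_eq (B : Arr ι) (q : Bx) :
    B.hu q = (1 / 2 ^ q.j : ℝ) • (B.s + (q.o.1 : ℝ) • B.x - (q.o.2 : ℝ) • (1 : ι → ℝ)) := by
  funext a
  simp only [Arr.hu, Arr.ht, Pi.smul_apply, Pi.sub_apply, Pi.add_apply, Pi.one_apply, smul_eq_mul]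
  ring

theorem triv_hu_LV (hx : B.x ∈ LV lb) (hs : B.s ∈ LV lb) : B.hu q ∈ LV lb := by
  rw [triv_hu_eq]
  exact Submodule.smul_mem _ _ (sub_mem (add_mem hs (Submodule.smul_mem _ _ hx))
    (Submodule.smul_mem _ _ one_mem_LV))

theorem triv_hu_ker (h : B.Ok) : B.hu q ∈ Ker B.x B.T := by
  rw [triv_hu_eq]
  have h1 : B.s ∈ Ker B.x B.T := fun t ht => h.Om_s ht
  have h2 : B.x ∈ Ker B.x B.T := fun t _ => Om_x _ t
  have h3 : (1 : ι → ℝ) ∈ Ker B.x B.T := fun t _ => Om_one _ t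
  exact Submodule.smul_mem _ _ (sub_mem (add_mem h1 (Submodule.smul_mem _ _ h2))
    (Submodule.smul_mem _ _ h3))

theorem triv_pow {f : ι → ℝ} (hf : f ∈ LV lb) (hN : 1 ≤ N) : f ∈ LV lb ^ N :=
  LV_pow_mono hN (by rwa [pow_one])

theorem triv_dot {m : ℕ} {W : Submodule ℝ (ι → ℝ)} {G : ι → Fin m → ℝ}
    (h : ∀ e, (fun a => G a e) ∈ W) (c : Fin m → ℝ) : (fun a => c ⬝ᵥ G a) ∈ W := by
  have e : (fun a => c ⬝ᵥ G a) = ∑ e, c e • fun a => G a e := by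
    funext a
    simp only [dotProduct, Finset.sum_apply, Pi.smul_apply, smul_eq_mul]
  rw [e]
  exact sum_mem fun e _ => Submodule.smul_mem _ _ (h e)

theorem triv_sm {f : ι → ℝ} {b c : ℝ} (h1 : cnt (B.TB q) (fun t => b < |f (t β)|) ≤ c)
    (h2 : 2 * c ≤ #(B.TB q)) : B.Sm q β f b := by
  have h3 := cnt_add_not (B.TB q) fun t => |f (t β)| ≤ b
  have h4 : cnt (B.TB q) (fun t => ¬ |f (t β)| ≤ b) ≤ cnt (B.TB q) fun t => b < |f (t β)| :=
    cnt_mono fun t ht k => ⟨ht, not_le.1 k⟩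
  unfold Arr.Sm
  linarith

theorem triv_sm_of {f f' : ι → ℝ} {b b' : ℝ} (h : B.Sm q β f b)
    (k : ∀ a, |f a| ≤ b → |f' a| ≤ b') : B.Sm q β f' b' :=
  le_trans h (mul_le_mul_of_nonneg_left (cnt_mono fun _ ht e => ⟨ht, k _ e⟩) zero_le_two)

/-- trivial deformations -/
def triv_V (B : Arr ι) (q : Bx) (lb : ι → Fin D → ℝ) (N : ℕ) :
    Submodule ℝ ((ι → ℝ) × (ι → ℝ)) where
  carrier := {τ | ∃ f0 ∈ WN B lb N, ∃ f1 ∈ WN B lb N, ∃ f ∈ WN B lb N,
    τ = (f0 + B.hu q * f, f1 + B.x * f)}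
  add_mem' := by
    rintro _ _ ⟨f0, a0, f1, a1, f, a, rfl⟩ ⟨g0, b0, g1, b1, g, b, rfl⟩
    refine ⟨_, add_mem a0 b0, _, add_mem a1 b1, _, add_mem a b, Prod.ext ?_ ?_⟩ <;>
      simp only [Prod.mk_add_mk] <;> ring
  zero_mem' := ⟨0, zero_mem _, 0, zero_mem _, 0, zero_mem _, Prod.ext (by simp) (by simp)⟩
  smul_mem' := by
    rintro c _ ⟨f0, a0, f1, a1, f, a, rfl⟩
    exact ⟨_, Submodule.smul_mem _ c a0, _, Submodule.smul_mem _ c a1, _,
      Submodule.smul_mem _ c a, by simp⟩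

/-- deformations with polynomial labels -/
def triv_F (B : Arr ι) (q : Bx) (lb : ι → Fin D → ℝ) (M : ℕ) :
    Submodule ℝ ((ι → ℝ) × (ι → ℝ)) where
  carrier := {τ | τ.1 ∈ LV lb ^ M ∧ τ.2 ∈ LV lb ^ M ∧ FlexT B q τ.1 τ.2}
  add_mem' := by
    rintro f g ⟨a1, a2, a3⟩ ⟨b1, b2, b3⟩
    refine ⟨add_mem a1 b1, add_mem a2 b2, fun t ht X Y h => ?_⟩
    have c1 := a3 t ht X Y h
    have c2 := b3 t ht X Y h
    simp only [baseb_Om, Prod.fst_add, Prod.snd_add, Pi.add_apply] at c1 c2 ⊢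
    linear_combination c1 + c2
  zero_mem' := ⟨zero_mem _, zero_mem _, fun t _ X Y _ => by simp [baseb_Om]⟩
  smul_mem' := by
    rintro c f ⟨a1, a2, a3⟩
    refine ⟨Submodule.smul_mem _ c a1, Submodule.smul_mem _ c a2, fun t ht X Y h => ?_⟩
    have c1 := a3 t ht X Y h
    simp only [baseb_Om, Prod.smul_fst, Prod.smul_snd, Pi.smul_apply, smul_eq_mul] at c1 ⊢
    linear_combination c * c1

theorem triv_le (hx : B.x ∈ LV lb) (hs : B.s ∈ LV lb) :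
    triv_V B q lb N ≤ triv_F B q lb (N + 1) := by
  rintro _ ⟨f0, a0, f1, a1, f, a, rfl⟩
  refine ⟨add_mem (LV_pow_mono (Nat.le_succ N) a0.1) (mul_mem_LV (triv_hu_LV hx hs) a.1),
    add_mem (LV_pow_mono (Nat.le_succ N) a1.1) (mul_mem_LV hx a.1), fun t ht X Y h => ?_⟩
  have c0 : Om B.x f0 t = 0 := a0.2 t ht
  have c1 : Om B.x f1 t = 0 := a1.2 t ht
  have c2 : Om B.x f t = 0 := a.2 t ht
  have e : ∀ i, B.hu q (t i) = (Y - q.o.2) / 2 ^ q.j - (X - q.o.1) / 2 ^ q.j * B.x (t i) :=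
    fun i => by
    simp only [Arr.hu, Arr.ht, h i]
    ring
  simp only [baseb_Om, Pi.add_apply, Pi.mul_apply, e] at c0 c1 c2 ⊢
  linear_combination c0 + (X - q.o.1) / 2 ^ q.j * c1 + (Y - q.o.2) / 2 ^ q.j * c2

theorem triv_closed {V κ : Type} [AddCommGroup V] [Module ℝ V] [Fintype κ] (Z : Submodule ℝ V)
    (L : V →ₗ[ℝ] κ → ℝ) (y : κ → ℝ)
    (h : ∀ ε : ℝ, 0 < ε → ∃ v ∈ Z, ∀ k, |y k - L v k| ≤ ε) : ∃ v ∈ Z, L v = y := by
  have h1 : y ∈ closure (Z.map L : Set (κ → ℝ)) := by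
    refine Metric.mem_closure_iff.2 fun ε hε => ?_
    obtain ⟨v, hv, k⟩ := h (ε / 2) (half_pos hε)
    exact ⟨L v, Submodule.mem_map_of_mem hv,
      ((dist_pi_le_iff (half_pos hε).le).2 k).trans_lt (half_lt_self hε)⟩
  rw [(Z.map L).closed_of_finiteDimensional.closure_eq] at h1
  exact h1

/-- iteration of the improvement step -/
theorem triv_iter {F V : Submodule ℝ ((ι → ℝ) × (ι → ℝ))} (hV : V ≤ F)
    (hb : ∀ ψ ∈ F, B.Sm q β ψ.1 1 → B.Sm q β ψ.2 1 →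
      ∃ τ ∈ V, B.Sm q β (ψ - τ).1 (1 / 4) ∧ B.Sm q β (ψ - τ).2 (1 / 4))
    {ψ : (ι → ℝ) × (ι → ℝ)} (hψ : ψ ∈ F) :
    ∃ τ ∈ V, B.Sm q β (ψ - τ).1 0 ∧ B.Sm q β (ψ - τ).2 0 := by
  have step : ∀ b : ℝ, 0 < b → ∀ ψ ∈ F, B.Sm q β ψ.1 b → B.Sm q β ψ.2 b →
      ∃ τ ∈ V, B.Sm q β (ψ - τ).1 (b / 4) ∧ B.Sm q β (ψ - τ).2 (b / 4) := by
    intro b b0 ψ hψ h1 h2
    have k1 : ∀ y : ℝ, |y| ≤ b → |b⁻¹ * y| ≤ 1 := fun y hy => by
      rw [abs_mul, abs_of_pos (inv_pos.2 b0), inv_mul_le_iff₀ b0, mul_one]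
      exact hy
    have k2 : ∀ y z : ℝ, |b⁻¹ * y - z| ≤ 1 / 4 → |y - b * z| ≤ b / 4 := fun y z hy => by
      have e : y - b * z = b * (b⁻¹ * y - z) := by field_simp
      rw [e, abs_mul, abs_of_pos b0]
      nlinarith
    obtain ⟨τ, hτ, a1, a2⟩ := hb (b⁻¹ • ψ) (F.smul_mem _ hψ) (triv_sm_of h1 fun a => k1 _)
      (triv_sm_of h2 fun a => k1 _)
    exact ⟨b • τ, V.smul_mem _ hτ, triv_sm_of a1 fun a => k2 _ _, triv_sm_of a2 fun a => k2 _ _⟩
  obtain ⟨b0, b0p, hb0⟩ : ∃ b0 : ℝ, 0 < b0 ∧ ∀ t ∈ B.TB q, |ψ.1 (t β)| + |ψ.2 (t β)| ≤ b0 := by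
    have p : ∀ t ∈ B.TB q, 0 ≤ |ψ.1 (t β)| + |ψ.2 (t β)| := fun t _ => by positivity
    exact ⟨1 + ∑ t ∈ B.TB q, (|ψ.1 (t β)| + |ψ.2 (t β)|), add_pos_of_pos_of_nonneg one_pos
      (sum_nonneg p), fun t ht => (single_le_sum p ht).trans (le_add_of_nonneg_left zero_le_one)⟩
  have all : ∀ f : ι → ℝ, (∀ t ∈ B.TB q, |f (t β)| ≤ b0) → B.Sm q β f b0 := fun f hf => by
    refine triv_sm (c := 0) (baseb_cnt_zero fun t ht => not_lt.2 (hf t ht)).le ?_
    simp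
  have it : ∀ m : ℕ, ∃ τ ∈ V, B.Sm q β (ψ - τ).1 (b0 / 4 ^ m) ∧
      B.Sm q β (ψ - τ).2 (b0 / 4 ^ m) := by
    intro m
    induction m with
    | zero =>
      refine ⟨0, zero_mem _, ?_⟩
      rw [sub_zero, pow_zero, div_one]
      exact ⟨all _ fun t ht => by linarith [hb0 t ht, abs_nonneg (ψ.2 (t β))],
        all _ fun t ht => by linarith [hb0 t ht, abs_nonneg (ψ.1 (t β))]⟩
    | succ m ih =>
      obtain ⟨τ, hτ, a1, a2⟩ := ih
      obtain ⟨τ', hτ', a3⟩ := step _ (by positivity) _ (sub_mem hψ (hV hτ)) a1 a2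
      refine ⟨τ + τ', add_mem hτ hτ', ?_⟩
      rwa [← sub_sub, pow_succ, ← div_div]
  obtain ⟨H, hH, hm⟩ := UU_fin ((B.TB q).powerset ×ˢ (B.TB q).powerset)
    (P := fun H m => ((#(B.TB q) : ℝ) ≤ 2 * #H.1 ∧ (#(B.TB q) : ℝ) ≤ 2 * #H.2) ∧ ∃ τ ∈ V,
      (∀ t ∈ H.1, |(ψ - τ).1 (t β)| ≤ b0 / 4 ^ m) ∧ ∀ t ∈ H.2, |(ψ - τ).2 (t β)| ≤ b0 / 4 ^ m)
    (Eventually.of_forall fun m => by
      obtain ⟨τ, hτ, a1, a2⟩ := it m
      exact ⟨(_, _), mem_product.2 ⟨mem_powerset.2 (filter_subset _ _),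
        mem_powerset.2 (filter_subset _ _)⟩, ⟨a1, a2⟩, τ, hτ,
        fun t ht => ((baseb_mem_f _ _ _).1 ht).2, fun t ht => ((baseb_mem_f _ _ _).1 ht).2⟩)
  have : UU.NeBot := (hyperfilter ℕ).neBot
  let L : ((ι → ℝ) × (ι → ℝ)) →ₗ[ℝ] H.1 ⊕ H.2 → ℝ := LinearMap.pi (Sum.elim
    (fun t => LinearMap.proj (t.1 β) ∘ₗ LinearMap.fst ℝ _ _)
    fun t => LinearMap.proj (t.1 β) ∘ₗ LinearMap.snd ℝ _ _)
  obtain ⟨τ, hτ, e⟩ := triv_closed V L (L ψ) fun ε hε => by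
    have lim : Tendsto (fun m : ℕ => b0 / 4 ^ m) atTop (nhds 0) :=
      tendsto_const_nhds.div_atTop (tendsto_pow_atTop_atTop_of_one_lt (by norm_num))
    obtain ⟨m, ⟨-, τ, hτ, a1, a2⟩, a3⟩ :=
      (hm.and ((lim.eventually (gt_mem_nhds hε)).filter_mono UU_le)).exists
    refine ⟨τ, hτ, fun k => ?_⟩
    rcases k with t | t
    · exact (a1 t.1 t.2).trans a3.le
    · exact (a2 t.1 t.2).trans a3.le
  obtain ⟨m, ⟨c1, c2⟩, -⟩ := hm.exists
  obtain ⟨s1, s2⟩ := mem_product.1 hH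
  refine ⟨τ, hτ, c1.trans (mul_le_mul_of_nonneg_left ?_ zero_le_two),
    c2.trans (mul_le_mul_of_nonneg_left ?_ zero_le_two)⟩
  · rw [baseb_card_cnt]
    refine cnt_mono fun t ht _ => ⟨mem_powerset.1 s1 ht, abs_nonpos_iff.2 ?_⟩
    exact sub_eq_zero.2 (congrFun e (Sum.inl ⟨t, ht⟩)).symm
  · rw [baseb_card_cnt]
    refine cnt_mono fun t ht _ => ⟨mem_powerset.1 s2 ht, abs_nonpos_iff.2 ?_⟩
    exact sub_eq_zero.2 (congrFun e (Sum.inr ⟨t, ht⟩)).symm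

end Aux

/-- a bounded deformation is close to a trivial one -/
theorem blow (h : St3 k A Q lab N β) (hL : Lb A Q lab N β g) :
    ∀ᶠ n in UU, ∀ σ ∈ LV (lab n) ^ (N + 1), ∀ w ∈ LV (lab n) ^ (N + 1), FlexT (A n) (Q n) σ w →
      (A n).Sm (Q n) β σ 1 → (A n).Sm (Q n) β w 1 →
      ∃ f0 ∈ WN (A n) (lab n) N, ∃ f1 ∈ WN (A n) (lab n) N, ∃ f ∈ WN (A n) (lab n) N,
        (A n).Sm (Q n) β (σ - (f0 + (A n).hu (Q n) * f)) (1 / 4) ∧
        (A n).Sm (Q n) β (w - (f1 + (A n).x * f)) (1 / 4) := by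
  by_contra hcon
  obtain ⟨ψ, hψ⟩ := UU_choose (α := (ℕ → ℝ) × (ℕ → ℝ)) (P := fun n ψ =>
    (ψ.1 ∈ LV (lab n) ^ (N + 1) ∧ ψ.2 ∈ LV (lab n) ^ (N + 1) ∧ FlexT (A n) (Q n) ψ.1 ψ.2 ∧
      (A n).Sm (Q n) β ψ.1 1 ∧ (A n).Sm (Q n) β ψ.2 1) ∧
    ¬ ∃ f0 ∈ WN (A n) (lab n) N, ∃ f1 ∈ WN (A n) (lab n) N, ∃ f ∈ WN (A n) (lab n) N,
        (A n).Sm (Q n) β (ψ.1 - (f0 + (A n).hu (Q n) * f)) (1 / 4) ∧
        (A n).Sm (Q n) β (ψ.2 - (f1 + (A n).x * f)) (1 / 4))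
    ((UU_not hcon).mono fun n hn => by
      by_contra k
      refine hn fun σ a w b c d e => ?_
      by_contra k2
      exact k ⟨(σ, w), ⟨a, b, c, d, e⟩, k2⟩)
  have hG := h.reg.good
  obtain ⟨δ, hδ, hd, -⟩ := hG.dens
  obtain ⟨F, hF⟩ := fdat h hL (σ := fun n => (ψ n).1) (w := fun n => (ψ n).2)
    (hψ.mono fun n hn => hn.1)
  obtain ⟨C, -, hC⟩ := hF.bnd hG hL.toLb0
  obtain ⟨G, hc, hl⟩ := limF hG.val.big hC (hF.reg hG h.na hL.toLb0 hC)
  obtain ⟨f0, f1, f2, a, b, hq⟩ := poly hc (hF.aff hG hL.toLb0 hc hl)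
    (hL.toLb0.rel hG.val ⟨δ, hδ, hd⟩ h.poor)
  obtain ⟨η, hη, hb⟩ := hF.back hG hL.toLb0 hl hq
  obtain ⟨K, K0, hK⟩ := h.conc_mass (N + 1) hη (half_pos hδ)
  have : UU.NeBot := (hyperfilter ℕ).neBot
  have ε0 : 0 < 1 / (4 * K) := by positivity
  have εK : K * (1 / (4 * K)) = 1 / 4 := by field_simp
  obtain ⟨n, ⟨⟨a1, a2, -⟩, a3⟩, a4, a5, a6, a7⟩ :=
    (hψ.and (hd.and ((hb _ ε0).and (hK.and hL.mem)))).exists
  obtain ⟨hx, hs⟩ := h.reg.xs n
  have hu : (A n).hu (Q n) ∈ WN (A n) (lab n) N :=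
    ⟨triv_pow (triv_hu_LV hx hs) h.pos, triv_hu_ker (hG.val.ok n)⟩
  have m0 := triv_dot a7 f0
  have m1 := add_mem (triv_dot a7 f1) (Submodule.smul_mem _ b hu)
  have m2 := add_mem (triv_dot a7 f2) (Submodule.smul_mem _ (a / 2) hu)
  obtain ⟨b1, b2, -⟩ := triv_le (q := Q n) hx hs ⟨_, m0, _, m1, _, m2, rfl⟩
  refine a3 ⟨_, m0, _, m1, _, m2, triv_sm (c := δ / 2 * 4 ^ (Q n).j) ?_ (by linarith),
    triv_sm (c := δ / 2 * 4 ^ (Q n).j) ?_ (by linarith)⟩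
  · rw [← εK]
    exact a6 _ (sub_mem a1 b1) _ ε0.le (a5.trans (cnt_mono fun t ht e => ⟨ht, e.1⟩))
  · rw [← εK]
    exact a6 _ (sub_mem a2 b2) _ ε0.le (a5.trans (cnt_mono fun t ht e => ⟨ht, e.2⟩))

/-- all deformations are trivial -/
theorem triv (h : St3 k A Q lab N β) (hL : Lb A Q lab N β g) :
    ∀ᶠ n in UU, ∀ σ ∈ LV (lab n), ∀ w ∈ LV (lab n), (σ, w) ∈ Flex (A n).x (A n).s (A n).T →
      ∃ f1 ∈ Ker (A n).x (A n).T, ∃ f ∈ Ker (A n).x (A n).T,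
        ∀ t ∈ (A n).T, ∀ i, w (t i) = f1 (t i) + (A n).x (t i) * f (t i) := by
  obtain ⟨δ, hδ, hd, -⟩ := h.reg.good.dens
  obtain ⟨C, -, hC⟩ := h.lam_mass (half_pos hδ)
  filter_upwards [blow h hL, hd, hC, h.reg.gp_top (N + 1) (half_pos hδ)]
    with n a1 a2 a3 a4 σ hσ w hw hf
  obtain ⟨hx, hs⟩ := h.reg.xs n
  have J0 : (2 : ℝ) ^ (Q n).j ≠ 0 := by positivity
  have hψ : (σ + ((Q n).o.1 : ℝ) • w, ((2 : ℝ) ^ (Q n).j) • w) ∈
      triv_F (A n) (Q n) (lab n) (N + 1) := by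
    refine ⟨triv_pow (add_mem hσ (Submodule.smul_mem _ _ hw)) (by omega),
      triv_pow (Submodule.smul_mem _ _ hw) (by omega), fun t ht X Y k => ?_⟩
    refine Eq.trans ?_ ((flex_eq k σ w).symm.trans (hf t ht))
    congr 1
    funext a
    simp only [Pi.add_apply, Pi.smul_apply, smul_eq_mul]
    field_simp
    ring
  obtain ⟨τ, hτ, b1, b2⟩ := triv_iter (B := A n) (q := Q n) (β := β) (triv_le hx hs)
    (fun ψ k k1 k2 => by
      obtain ⟨f0, c0, f1, c1, f, c, e⟩ := a1 _ k.1 _ k.2.1 k.2.2 k1 k2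
      exact ⟨_, ⟨f0, c0, f1, c1, f, c, rfl⟩, e⟩) hψ
  obtain ⟨c1, c2, c3⟩ := sub_mem hψ (triv_le hx hs hτ)
  have c4 := a3 _ c1 _ c2 0 le_rfl c3 b1 b2
  obtain ⟨f0, -, f1, d1, f, d2, rfl⟩ := hτ
  refine ⟨_, Submodule.smul_mem _ ((2 : ℝ) ^ (Q n).j)⁻¹ d1.2, _,
    Submodule.smul_mem _ ((2 : ℝ) ^ (Q n).j)⁻¹ d2.2, fun t ht i => ?_⟩
  have c5 := a4 _ (comp_mem_LV3 c2 i) (by
    refine le_trans ?_ (cnt_mono (S := (A n).TB (Q n)) (P := fun t => ¬ ∃ i, C * 0 <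
      |(σ + ((Q n).o.1 : ℝ) • w - (f0 + (A n).hu (Q n) * f)) (t i)| +
        |(((2 : ℝ) ^ (Q n).j) • w - (f1 + (A n).x * f)) (t i)|) fun t ht k => ⟨ht, ?_⟩)
    · have := cnt_add_not ((A n).TB (Q n)) fun t => ∃ i, C * 0 <
        |(σ + ((Q n).o.1 : ℝ) • w - (f0 + (A n).hu (Q n) * f)) (t i)| +
          |(((2 : ℝ) ^ (Q n).j) • w - (f1 + (A n).x * f)) (t i)|
      have c6 : cnt ((A n).TB (Q n)) (fun t => ∃ i, C * 0 <
        |(σ + ((Q n).o.1 : ℝ) • w - (f0 + (A n).hu (Q n) * f)) (t i)| +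
          |(((2 : ℝ) ^ (Q n).j) • w - (f1 + (A n).x * f)) (t i)|) ≤ δ / 2 * 4 ^ (Q n).j := c4
      linarith
    · by_contra k2
      exact k ⟨i, by rw [mul_zero]; exact add_pos_of_nonneg_of_pos (abs_nonneg _) (abs_pos.2 k2)⟩)
    t ht
  have c7 : (2 : ℝ) ^ (Q n).j * w (t i) - (f1 (t i) + (A n).x (t i) * f (t i)) = 0 := c5
  simp only [Pi.smul_apply, smul_eq_mul]
  field_simp
  linarith

/-- derivations give deformations -/
theorem der_flex {ι : Type} {B : Arr ι} (h : B.Ok) {d : ℝ → ℝ} (h1 : ∀ x y, d (x + y) = d x + d y)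
    (h2 : ∀ x y, d (x * y) = d x * y + x * d y) :
    (fun a => d (B.s a), fun a => d (B.x a)) ∈ Flex B.x B.s B.T := by
  intro t ht
  have h3 : ∀ x y, d (x - y) = d x - d y := (AddMonoidHom.mk' d h1).map_sub
  have h0 : d 0 = 0 := (AddMonoidHom.mk' d h1).map_zero
  have e := congrArg d (h.Om_s ht)
  rw [baseb_Om, h0] at e
  simp only [h1, h2, h3] at e
  simp only [baseb_Om]
  linear_combination e

/-- derivations of the reals -/
def triv_D : Type := {d : ℝ → ℝ // (∀ x y, d (x + y) = d x + d y) ∧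
  ∀ x y, d (x * y) = d x * y + x * d y}

/-- `y` has logarithmic derivative `φ a - φ b` -/
def triv_R {ι : Type} (φ : triv_D → ι → ℝ) (a b : ι) (y : ℝ) : Prop :=
  y ≠ 0 ∧ ∀ d : triv_D, d.1 y = y * (φ d a - φ d b)

theorem triv_one (d : triv_D) : d.1 1 = 0 := by
  have := d.2.2 1 1
  rw [mul_one, mul_one, one_mul] at this
  linarith

theorem triv_R.refl {ι : Type} (φ : triv_D → ι → ℝ) (a : ι) : triv_R φ a a 1 :=
  ⟨one_ne_zero, fun d => by rw [triv_one, sub_self, mul_zero]⟩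

theorem triv_R.mul {ι : Type} {φ : triv_D → ι → ℝ} {a b c : ι} {y z : ℝ} (h : triv_R φ a b y)
    (k : triv_R φ b c z) : triv_R φ a c (y * z) :=
  ⟨mul_ne_zero h.1 k.1, fun d => by rw [d.2.2, h.2, k.2]; ring⟩

theorem triv_R.inv {ι : Type} {φ : triv_D → ι → ℝ} {a b : ι} {y : ℝ} (h : triv_R φ a b y) :
    triv_R φ b a y⁻¹ := by
  refine ⟨inv_ne_zero h.1, fun d => ?_⟩
  have e := d.2.2 y y⁻¹
  rw [mul_inv_cancel₀ h.1, triv_one, h.2] at e
  have h1 := h.1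
  refine mul_left_cancel₀ h1 ?_
  field_simp at e ⊢
  linarith

theorem triv_R.alg {ι : Type} {φ : triv_D → ι → ℝ} {a : ι} {y : ℝ} (h : triv_R φ a a y) :
    IsAlgebraic ℚ y := by
  by_contra hn
  obtain ⟨d, h1, h2, -, h3⟩ := Pool.Agent.MP_a59382_lc.exists_derivation (algebraMap ℚ ℝ) y
    fun p hp => by
      by_contra hp0
      exact hn ⟨p, hp0, hp⟩
  have e : d y = _ := h.2 ⟨d, h1, h2⟩
  rw [h3, sub_self, mul_zero] at e
  exact one_ne_zero e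

/-- trivial derivations give algebraic coefficients -/
theorem alg_of_der {ι : Type} {B : Arr ι} (h : B.Ok)
    (hd : ∀ d : ℝ → ℝ, (∀ x y, d (x + y) = d x + d y) → (∀ x y, d (x * y) = d x * y + x * d y) →
      ∃ f1 ∈ Ker B.x B.T, ∃ f ∈ Ker B.x B.T,
        ∀ t ∈ B.T, ∀ i, d (B.x (t i)) = f1 (t i) + B.x (t i) * f (t i)) : Alg B.x B.T := by
  choose f1 hf1 φ hφ he using fun d : triv_D => hd d.1 d.2.1 d.2.2
  have hco : ∀ t ∈ B.T, ∀ i, co B.x t i ≠ 0 := fun t ht i e => by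
    have := (h.co_bd ht i).1
    rw [e, abs_zero] at this
    norm_num at this
  have hdc : ∀ t ∈ B.T, ∀ d : triv_D, ∃ c : ℝ, ∀ i,
      d.1 (co B.x t i) = co B.x t i * (c - φ d (t i)) := fun t ht d => by
    have h3 : ∀ x y, d.1 (x - y) = d.1 x - d.1 y := (AddMonoidHom.mk' d.1 d.2.1).map_sub
    obtain ⟨u, v, e1⟩ := h.affine ht (hf1 d t ht)
    obtain ⟨u', v', e2⟩ := h.affine ht (hφ d t ht)
    refine ⟨v + 2 * u' + v' * (B.x (t 0) + B.x (t 1) + B.x (t 2)), fun i => ?_⟩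
    have e3 : B.x (t 0) + B.x (t 1) + B.x (t 2) =
        B.x (t i) + B.x (t (i + 1)) + B.x (t (i + 2)) := by
      fin_cases i
      · rfl
      · show _ = B.x (t 1) + B.x (t 2) + B.x (t 0)
        ring
      · show _ = B.x (t 2) + B.x (t 0) + B.x (t 1)
        ring
    rw [e3, co, h3, he d t ht, he d t ht, e1, e1, e2, e2, e2]
    ring
  have edge : ∀ t ∈ B.T, ∀ i j, triv_R φ (t i) (t j) (co B.x t j / co B.x t i) := by
    intro t ht i j
    have hi := hco t ht i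
    refine ⟨div_ne_zero (hco t ht j) hi, fun d => ?_⟩
    obtain ⟨c, hc⟩ := hdc t ht d
    have e := d.2.2 (co B.x t j / co B.x t i) (co B.x t i)
    rw [div_mul_cancel₀ _ hi, hc, hc] at e
    refine mul_right_cancel₀ hi ?_
    field_simp at e ⊢
    linarith
  let S : Setoid ι := ⟨fun a b => ∃ y, triv_R φ a b y, fun a => ⟨1, triv_R.refl φ a⟩,
    fun ⟨_, k⟩ => ⟨_, k.inv⟩, fun ⟨_, k⟩ ⟨_, k'⟩ => ⟨_, k.mul k'⟩⟩
  choose μ hμ using fun b : ι => (Quotient.mk_out (s := S) b : ∃ y, triv_R φ _ b y)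
  refine ⟨μ, fun a => (hμ a).1, fun t ht i j => ?_⟩
  have e : Quotient.mk S (t i) = Quotient.mk S (t j) := Quotient.sound ⟨_, edge t ht i j⟩
  have k1 := hμ (t i)
  rw [e] at k1
  have k2 := ((k1.mul (edge t ht i j)).inv.mul (hμ (t j))).alg
  have e2 : co B.x t i / μ (t i) / (co B.x t j / μ (t j)) =
      (μ (t i) * (co B.x t j / co B.x t i))⁻¹ * μ (t j) := by
    have := hco t ht i
    have := hco t ht j
    have := (hμ (t i)).1
    have := (hμ (t j)).1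
    field_simp
  rw [e2]
  exact k2

end Pool.Agent.MP_38296a_co.H21

end FileTriv

section FilePFour

set_option autoImplicit false

namespace Pool.Agent.MP_38296a_co.H21

open Finset Filter Classical

theorem pfour_walk {K : Type} [Field K] (a b c d e f g h : K) {w1 w2 w3 w4 : K} (h1 : w1 ≠ 0) (h2 : w2 ≠ 0)
    (h3 : w3 ≠ 0) (h4 : w4 ≠ 0) :
    a / b * (c / d) * (e / f) * (g / h) =
      a * w4 / (b * w1) * (c * w1 / (d * w2)) * (e * w2 / (f * w3)) * (g * w3 / (h * w4)) := by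
  simp only [div_eq_mul_inv, mul_inv]
  have e1 := mul_inv_cancel₀ h1
  have e2 := mul_inv_cancel₀ h2
  have e3 := mul_inv_cancel₀ h3
  have e4 := mul_inv_cancel₀ h4
  calc _ = a * b⁻¹ * (c * d⁻¹) * (e * f⁻¹) * (g * h⁻¹) * (w1 * w1⁻¹) * (w2 * w2⁻¹) * (w3 * w3⁻¹) *
      (w4 * w4⁻¹) := by rw [e1, e2, e3, e4]; ring
    _ = _ := by ring

/-- a geometric line carries at most two triples in each column -/
theorem pfour_col {ι : Type} {A : Arr ι} (h : A.Ok) (x0 s0 : ℝ) (u : ℤ) :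
    cnt A.T (fun t => (∃ i, A.x (t i) = x0 ∧ A.s (t i) = s0) ∧ (A.loc t).1 = u) ≤ 2 := by
  set c : ℝ := s0 + x0 * u + min x0 0 - 1 with hc
  have key : ∀ t ∈ A.T, ((∃ i, A.x (t i) = x0 ∧ A.s (t i) = s0) ∧ (A.loc t).1 = u) →
      ⌈c⌉ ≤ (A.loc t).2 ∧ (A.loc t).2 < ⌈c⌉ + 3 := by
    rintro t ht ⟨⟨i, rfl, rfl⟩, rfl⟩
    obtain ⟨X, Y, h1, a1, a2, a3, a4⟩ := h.vtx t ht
    have hx := abs_le.1 (baseb_x h ht i)
    have h2 := h1 i
    have h3 : min (A.x (t i)) 0 ≤ A.x (t i) * (X - (A.loc t).1) ∧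
        A.x (t i) * (X - (A.loc t).1) ≤ min (A.x (t i)) 0 + 11 / 10 := by
      rcases le_total (A.x (t i)) 0 with h4 | h4
      · rw [min_eq_left h4]
        constructor <;> nlinarith [hx.1, hx.2]
      · rw [min_eq_right h4]
        constructor <;> nlinarith [hx.1, hx.2]
    constructor
    · rw [Int.ceil_le]
      nlinarith [h3.1]
    · have h5 := Int.le_ceil c
      have h6 : (((A.loc t).2 : ℤ) : ℝ) < ((⌈c⌉ + 3 : ℤ) : ℝ) := by
        push_cast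
        nlinarith [h3.2]
      exact Int.cast_lt.1 h6
  have h1 := baseb_cnt_inj (S := A.T)
    (P := fun t => (∃ i, A.x (t i) = x0 ∧ A.s (t i) = s0) ∧ (A.loc t).1 = u)
    (U := ({0, 1} : Finset ℤ)) (fun t => ((A.loc t).2 - ⌈c⌉) / 2) (fun t ht hp => by
      have := key t ht hp
      simp only [mem_insert, mem_singleton]
      omega) (fun t ht hp v hv hq e => by
      by_contra hne
      have k1 := key t ht hp
      have k2 := key v hv hq
      have e1 := hp.2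
      have e2 := hq.2
      rcases h.far t ht v hv hne with hf | hf
      · rw [e1, e2] at hf
        simp at hf
      · rcases le_abs'.1 hf with hf | hf <;> omega)
  refine h1.trans ?_
  norm_num

theorem pfour_line {ι : Type} {A : Arr ι} (h : A.Ok) (Q : Bx) (x0 s0 : ℝ) :
    cnt (A.TB Q) (fun t => ∃ i, A.x (t i) = x0 ∧ A.s (t i) = s0) ≤ 2 * 2 ^ Q.j := by
  have h1 := baseb_cnt_sum (S := A.TB Q) (P := fun t => ∃ i, A.x (t i) = x0 ∧ A.s (t i) = s0)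
    (Ico (Q.u * 2 ^ Q.j) (Q.u * 2 ^ Q.j + (2 ^ Q.j : ℕ)))
    (fun v t => (∃ i, A.x (t i) = x0 ∧ A.s (t i) = s0) ∧ (A.loc t).1 = v)
    (fun t ht hp => by
      obtain ⟨b1, b2, -, -⟩ := baseb_mem_cells.1 (baseb_mem_TB.1 ht).2
      exact ⟨(A.loc t).1, mem_Ico.2 ⟨b1, by push_cast; linarith⟩, hp, rfl⟩)
  refine h1.trans ?_
  refine (sum_le_sum fun v _ => (cnt_mono fun t ht hp => ⟨TB_sub Q ht, hp⟩).trans (pfour_col h x0 s0 v)).trans ?_
  rw [sum_const, Int.card_Ico, add_sub_cancel_left, Int.toNat_natCast, nsmul_eq_mul]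
  push_cast
  exact le_of_eq (mul_comm _ _)

/-- few triples contain a line of small degree -/
theorem pfour_low {ι : Type} (T : Finset (Tri ι)) {b : ℝ} (hb : 0 ≤ b) :
    cnt T (fun t => ∃ i, cnt T (fun u => ∃ j, u j = t i) < b) ≤ #(lines T) * b := by
  have h1 := baseb_cnt_sum (S := T) (P := fun t => ∃ i, cnt T (fun u => ∃ j, u j = t i) < b)
    {a ∈ lines T | cnt T (fun u => ∃ j, u j = a) < b} (fun a u => ∃ j, u j = a)
    (fun t ht ⟨i, hi⟩ => ⟨t i, mem_filter.2 ⟨comb_mem_lines ht i, hi⟩, i, rfl⟩)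
  refine h1.trans ((sum_le_sum fun a ha => (mem_filter.1 ha).2.le).trans ?_)
  rw [sum_const, nsmul_eq_mul]
  gcongr
  exact filter_subset _ _

/-- bounded multiplicity of heavy lines on a geometric line -/
theorem pfour_mult {ι : Type} {A : Arr ι} (h : A.Ok) (Q : Bx) {θ : ℝ} (hθ : 0 < θ) (i : Fin 3) (F : Finset ι)
    (hF : ∀ a ∈ F, (∃ t ∈ A.T, t i = a) ∧ θ * 2 ^ Q.j ≤ cnt (A.TB Q) (fun u => ∃ j, u j = a))
    (hg : ∀ a ∈ F, ∀ b ∈ F, A.x a = A.x b ∧ A.s a = A.s b) : #F ≤ ⌈2 / θ⌉₊ := by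
  rcases F.eq_empty_or_nonempty with rfl | ⟨b, hb⟩
  · simp
  have h1 : ∑ a ∈ F, cnt (A.TB Q) (fun u => ∃ j, u j = a) ≤
      cnt (A.TB Q) (fun t => ∃ i, A.x (t i) = A.x b ∧ A.s (t i) = A.s b) := by
    simp only [cnt_eq_sum]
    rw [sum_comm]
    refine sum_le_sum fun u hu => ?_
    by_cases hm : u i ∈ F
    · rw [sum_eq_single_of_mem (u i) hm]
      · unfold ind
        rw [if_pos ⟨i, rfl⟩, if_pos ⟨i, hg _ hm _ hb⟩]
      · intro a ha hne
        unfold ind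
        rw [if_neg]
        rintro ⟨j, hj⟩
        obtain ⟨t, ht, e⟩ := (hF a ha).1
        obtain rfl : j = i := h.cls (TB_sub Q hu) ht (hj.trans e.symm)
        exact hne hj.symm
    · rw [sum_eq_zero]
      · exact dya_ind_nonneg _
      · intro a ha
        unfold ind
        rw [if_neg]
        rintro ⟨j, hj⟩
        obtain ⟨t, ht, e⟩ := (hF a ha).1
        obtain rfl : j = i := h.cls (TB_sub Q hu) ht (hj.trans e.symm)
        exact hm (hj ▸ ha)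
  have h2 : (#F : ℝ) * (θ * 2 ^ Q.j) ≤ 2 * 2 ^ Q.j := by
    refine le_trans ?_ (h1.trans (pfour_line h Q _ _))
    rw [← nsmul_eq_mul, ← sum_const]
    exact sum_le_sum fun a ha => (hF a ha).2
  have h3 : (#F : ℝ) ≤ 2 / θ := by
    rw [le_div_iff₀ hθ]
    have hJ : (0 : ℝ) < 2 ^ Q.j := by positivity
    nlinarith
  exact_mod_cast h3.trans (Nat.le_ceil _)

/-- the final contradiction -/
theorem St4.elim {D k : ℕ} {A : ℕ → Arr ℕ} {Q : ℕ → Bx} {β : Fin 3} {z : ℕ → ℕ → Fin D → KK}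
    {cc : ℕ → Tri ℕ → Fin 3 → KK} {S : ℕ → Finset KK} (h : St4 k A Q β z cc S) : False := by
  obtain ⟨δ, hδ, S0, hex⟩ := h.exact
  obtain ⟨V, hV⟩ := northcott S0
  obtain ⟨K, hK, hlines⟩ := h.good.val.lines_le
  have hθ : 0 < δ / (4 * (#V + 1)) := by positivity
  choose C hC1 hC using fun v : AbsoluteValue KK ℝ => h.arch v hθ
  obtain ⟨Φ, hΦ⟩ := hV (1 + ∑ v ∈ V, C v ^ 4)
  have hK0 : 0 < K := by linarith
  obtain ⟨δ', hδ', hft⟩ := ftypes (show 0 < δ / (2 * K ^ 2) by positivity) #Φ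
  have hθ' : 0 < δ / (4 * K) := by positivity
  obtain ⟨n0, hbes⟩ := besV k ⌈2 / (δ / (4 * K))⌉₊ hδ'
  have hbig : ∀ᶠ n in UU, n0 ≤ (2 : ℝ) ^ (Q n).j :=
    ((tendsto_pow_atTop_atTop_of_one_lt (show (1 : ℝ) < 2 by norm_num)).comp h.good.val.big).eventually
      (eventually_ge_atTop n0)
  have harch := (V.eventually_all (l := UU)).2 fun v _ => hC v
  have : UU.NeBot := inferInstanceAs (hyperfilter ℕ : Filter ℕ).NeBot
  obtain ⟨n, ⟨T', hT', hd, ⟨lam, lam0, hlam⟩, hna⟩, ⟨hl, -⟩, hb, har, hrel, hgeo⟩ :=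
    (hex.and (hlines.and (hbig.and (harch.and (h.rel.and h.geo))))).exists
  have ok := h.good.val.ok n
  choose! N N0 hN using har
  set TB := (A n).TB (Q n) with hTB
  set J : ℝ := 2 ^ (Q n).j with hJ
  have hJ0 : 0 < J := by positivity
  have h4 : (4 : ℝ) ^ (Q n).j = J * J := dyb_four _
  set T3 := {t ∈ T' | (∀ v ∈ V, ∀ i j, v (cc n t i) * N v (t i) ≤ C v * (v (cc n t j) * N v (t j))) ∧
    ∀ i, δ / (4 * K) * J ≤ cnt TB fun u => ∃ j, u j = t i} with hT3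
  have s3 : T3 ⊆ TB := (filter_subset _ _).trans hT'
  have s3' : T3 ⊆ (A n).T := s3.trans (TB_sub _)
  have c3 : δ / 2 * (J * J) ≤ #T3 := by
    have a1 := cnt_add_not T' fun t => (∀ v ∈ V, ∀ i j,
      v (cc n t i) * N v (t i) ≤ C v * (v (cc n t j) * N v (t j))) ∧
        ∀ i, δ / (4 * K) * J ≤ cnt TB fun u => ∃ j, u j = t i
    have a2 : cnt T' (fun t => ¬ ((∀ v ∈ V, ∀ i j,
        v (cc n t i) * N v (t i) ≤ C v * (v (cc n t j) * N v (t j))) ∧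
          ∀ i, δ / (4 * K) * J ≤ cnt TB fun u => ∃ j, u j = t i)) ≤
        cnt TB (fun t => ∃ v ∈ V, ∃ i j, C v * (v (cc n t j) * N v (t j)) < v (cc n t i) * N v (t i)) +
          cnt TB (fun t => ∃ i, cnt TB (fun u => ∃ j, u j = t i) < δ / (4 * K) * J) := by
      refine (cnt_mono (S' := TB) fun t ht hp => ⟨hT' ht, hp⟩).trans (cnt_or fun t _ hp => ?_)
      by_contra hc
      push Not at hc
      exact hp ⟨fun v hv i j => hc.1 v hv i j, hc.2⟩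
    have a3 := baseb_cnt_sum (S := TB)
      (P := fun t => ∃ v ∈ V, ∃ i j, C v * (v (cc n t j) * N v (t j)) < v (cc n t i) * N v (t i)) V
      (fun v t => ∃ i j, C v * (v (cc n t j) * N v (t j)) < v (cc n t i) * N v (t i)) (fun t _ hp => hp)
    have a4 := (sum_le_sum fun v hv => hN v hv).trans_eq (sum_const _)
    have a5 := pfour_low TB (show 0 ≤ δ / (4 * K) * J by positivity)
    have a6 : (#(lines TB) : ℝ) * (δ / (4 * K) * J) ≤ δ / 4 * (J * J) := by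
      calc _ ≤ K * J * (δ / (4 * K) * J) := by gcongr
        _ = _ := by field_simp
    have a7 : #V • (δ / (4 * (#V + 1)) * 4 ^ (Q n).j) ≤ δ / 4 * (J * J) := by
      rw [nsmul_eq_mul, h4]
      calc _ ≤ ((#V : ℝ) + 1) * (δ / (4 * (#V + 1)) * (J * J)) := by gcongr; linarith
        _ = _ := by field_simp
    have a8 : cnt T' (fun t => (∀ v ∈ V, ∀ i j,
      v (cc n t i) * N v (t i) ≤ C v * (v (cc n t j) * N v (t j))) ∧
        ∀ i, δ / (4 * K) * J ≤ cnt TB fun u => ∃ j, u j = t i) = #T3 := by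
      unfold cnt
      congr
    rw [h4] at hd
    linarith
  have cl3 : ∀ T ⊆ T3, ∀ i, (#(cl T i) : ℝ) ≤ K * J := fun T hT i => by
    refine le_trans ?_ hl
    exact_mod_cast card_le_card ((comb_cl_lines T i).trans (lines_mono (hT.trans s3)))
  let r : Tri ℕ → Fin 3 → KKˣ := fun t i => if hc : cc n t i = 0 then 1 else Units.mk0 _ hc
  have hr : ∀ t ∈ T3, ∀ i, (r t i : KK) = cc n t i := fun t ht i => by
    simp only [r, dif_neg ((hrel t (s3' ht)).2 i).1, Units.val_mk0]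
  obtain ⟨T4, s4, μ, c4, hμ⟩ := hft ℕ KKˣ T3 (K * J) r (Φ.preimage Units.val Units.val_injective.injOn)
    (ok.lin.mono s3') (by positivity) (cl3 T3 Subset.rfl)
    (le_trans (le_of_eq (by field_simp)) c3)
    (card_le_card_of_injOn Units.val (fun g hg => mem_preimage.1 hg) Units.val_injective.injOn)
    (by
      intro t1 m1 t2 m2 t3 m3 t4 m4 i1 i2 i3 i4 e1 e2 e3 e4
      rw [mem_preimage]
      simp only [Units.val_mul, Units.val_div_eq_div_val, hr _ m1, hr _ m2, hr _ m3, hr _ m4]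
      have p1 := mem_filter.1 m1
      have p2 := mem_filter.1 m2
      have p3 := mem_filter.1 m3
      have p4 := mem_filter.1 m4
      have vc : ∀ (v : AbsoluteValue KK ℝ), ∀ t ∈ T3, ∀ i, 0 < v (cc n t i) := fun v t ht i =>
        v.pos ((hrel t (s3' ht)).2 i).1
      refine hΦ _ ?_ (fun v hv => ?_) fun v hv hS => ?_
      · rw [pfour_walk _ _ _ _ _ _ _ _ (lam0 (t1 i1)) (lam0 (t2 i2)) (lam0 (t3 i3)) (lam0 (t4 i4))]
        refine mul_mem (mul_mem (mul_mem ?_ ?_) ?_) ?_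
        · rw [e4]; exact hlam t1 p1.1 _ _
        · rw [e1]; exact hlam t2 p2.1 _ _
        · rw [e2]; exact hlam t3 p3.1 _ _
        · rw [e3]; exact hlam t4 p4.1 _ _
      · have q : ∀ t ∈ T3, ∀ i j, v (cc n t i) * N v (t i) / (v (cc n t j) * N v (t j)) ≤ C v :=
          fun t ht i j => (div_le_iff₀ (mul_pos (vc v t ht j) (N0 v hv _))).2
            ((mem_filter.1 ht).2.1 v hv i j)
        have q0 : ∀ t ∈ T3, ∀ i j, 0 ≤ v (cc n t i) * N v (t i) / (v (cc n t j) * N v (t j)) :=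
          fun t ht i j => (div_pos (mul_pos (vc v t ht i) (N0 v hv _)) (mul_pos (vc v t ht j) (N0 v hv _))).le
        simp only [map_mul, map_div₀]
        rw [pfour_walk _ _ _ _ _ _ _ _ (N0 v hv (t1 i1)).ne' (N0 v hv (t2 i2)).ne' (N0 v hv (t3 i3)).ne'
          (N0 v hv (t4 i4)).ne']
        have b1 := q t1 m1 i4 i1
        have b2 := q t2 m2 i1 i2
        have b3 := q t3 m3 i2 i3
        have b4 := q t4 m4 i3 i4
        have d2 := q0 t2 m2 i1 i2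
        have d3 := q0 t3 m3 i2 i3
        have d4 := q0 t4 m4 i3 i4
        rw [← e4] at b1
        rw [← e1] at b2 d2
        rw [← e2] at b3 d3
        rw [← e3] at b4 d4
        have hC0 : 0 ≤ C v := by linarith [hC1 v]
        have b5 : C v ^ 4 ≤ ∑ v ∈ V, C v ^ 4 :=
          single_le_sum (f := fun v => C v ^ 4) (fun v _ => by positivity) hv
        calc _ ≤ C v * C v * C v * C v := by gcongr
          _ = C v ^ 4 := by ring
          _ ≤ _ := by linarith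
      · obtain ⟨M, M0, hM⟩ := hna v hv hS
        have q : ∀ t ∈ T3, ∀ i j, v (cc n t i) * M (t i) / (v (cc n t j) * M (t j)) = 1 :=
          fun t ht i j => by
            rw [hM t (mem_filter.1 ht).1 i j]
            exact div_self (mul_pos (vc v t ht j) (M0 _)).ne'
        simp only [map_mul, map_div₀]
        rw [pfour_walk _ _ _ _ _ _ _ _ (M0 (t1 i1)).ne' (M0 (t2 i2)).ne' (M0 (t3 i3)).ne' (M0 (t4 i4)).ne']
        have b1 := q t1 m1 i4 i1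
        have b2 := q t2 m2 i1 i2
        have b3 := q t3 m3 i2 i3
        have b4 := q t4 m4 i3 i4
        rw [← e4] at b1
        rw [← e1] at b2
        rw [← e2] at b3
        rw [← e3] at b4
        rw [b1, b2, b3, b4]; norm_num)
  have s4' : T4 ⊆ (A n).T := s4.trans s3'
  refine h.poor n (Rich.mono (hbes ℕ (Fin D → KK) T4 (K * J) (fun i a => (μ i a : KK) • z n a)
    (ok.lin.mono s4') (hb.trans (le_mul_of_one_le_left hJ0.le hK)) (cl3 T4 s4) c4 (fun t ht => ?_)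
    fun i e => ?_) s4')
  · have e1 : ∀ i, (μ i (t i) : KK) = ((r t 0 / μ 0 (t 0))⁻¹ : KKˣ) * cc n t i := fun i => by
      rw [← hr t (s4 ht) i, ← Units.val_mul, hμ t ht 0 i]
      congr 1
      simp
    simp only [e1, mul_smul]
    rw [← smul_sum, (hrel t (s4' ht)).1, smul_zero]
  · refine pfour_mult ok (Q n) hθ' i _ (fun a ha => ?_) fun a ha b hb => ?_
    · obtain ⟨t, ht, rfl⟩ := comb_of_cl ((baseb_mem_f _ _ _).1 ha).1
      exact ⟨⟨t, s4' ht, rfl⟩, (mem_filter.1 (s4 ht)).2.2 i⟩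
    · have ea := ((baseb_mem_f _ _ _).1 ha).2
      have eb := ((baseb_mem_f _ _ _).1 hb).2
      refine hgeo a (lines_mono s4' (comb_cl_lines _ i ((baseb_mem_f _ _ _).1 ha).1)) b
        (lines_mono s4' (comb_cl_lines _ i ((baseb_mem_f _ _ _).1 hb).1)) ((μ i a : KK)⁻¹ * μ i b) ?_
      rw [mul_smul, eb, ← ea, smul_smul, inv_mul_cancel₀ (μ i a).ne_zero, one_smul]

end Pool.Agent.MP_38296a_co.H21

end FilePFour

section FileGlue

set_option autoImplicit false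

namespace Pool.Agent.MP_38296a_co.H21

open Finset Filter Classical

theorem p3 {k : ℕ} {A : ℕ → Arr ℕ} {Q : ℕ → Bx} (h : UG k A Q) (hH : LocHof A Q) :
    ∃ A' Q', UG k A' Q' ∧ ∀ᶠ n in UU, Alg (A' n).x (A' n).T := by
  obtain ⟨S, hS⟩ := h.alg
  have hK : Keep Q fun Q' => (∀ r, Tight Q' fun n c p => Gap (A n).x ((A n).TS p r) c) ∧
      ∀ e : ℕ × ℕ, Tight Q' fun n c p => AlgT (A n).x ((A n).TS p e.1) e.2 (S c) :=
    (Keep.all fun r => keep_tight (h.gap r)).and (Keep.all fun e => keep_tight (hS e.1 e.2))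
  obtain ⟨D, A', Q', lab, hs, -, hR, ⟨hg, hal⟩, hH', hF⟩ := lab3 h hH hK
  have hx : ∀ n, (A' n).T ⊆ (A n).T ∧ (A' n).x = (A n).x ∧ (A' n).s = (A n).s ∧
      (A' n).loc = (A n).loc := by
    intro n
    obtain ⟨T, hT, e⟩ := hs n
    rw [e]
    exact ⟨hT, rfl, rfl, rfl⟩
  have hTS : ∀ n p r, (A' n).TS p r ⊆ (A n).TS p r := by
    intro n p r t ht
    simp only [Arr.TS, mem_filter] at ht ⊢
    rw [← (hx n).2.2.2]
    exact ⟨(hx n).1 ht.1, ht.2⟩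
  have hp : ∀ n, ¬ Rich k (A' n).T := fun n hr => h.poor n (hr.mono (hx n).1)
  obtain ⟨N, β, h3⟩ := hR.st3 hp hH'
  obtain ⟨Q2, r, g, h3', hL⟩ := h3.rk_sel
  obtain ⟨δ, hδ, hd, -⟩ := hR.good.dens
  refine ⟨A', Q', ⟨hR.good.val, ⟨δ, hδ, hd⟩, hp, fun r => (hg r).mono fun c => ⟨c, ?_⟩, S,
    fun r L => (hal (r, L)).mono fun c => ⟨c, ?_⟩⟩, ?_⟩
  · refine Eventually.of_forall fun n p _ hG => ?_
    rw [(hx n).2.1]
    exact hG.mono (hTS n p r) le_rfl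
  · refine Eventually.of_forall fun n p _ hG => ?_
    rw [(hx n).2.1]
    exact hG.mono (hTS n p r)
  · filter_upwards [hF, triv h3' hL] with n h1 h2
    refine alg_of_der (hR.good.val.ok n) fun d d1 d2 => ?_
    obtain ⟨σ, hσ, w, hw, e⟩ := h1 _ (der_flex (h.val.ok n) d1 d2)
    have hfl := der_flex (hR.good.val.ok n) d1 d2
    have hm : ∀ t ∈ (A' n).T, ∀ i, t i ∈ lines (A' n).T := fun t ht i => mem_lines.2 ⟨t, ht, i, rfl⟩
    obtain ⟨f1, hf1, f, hf, e2⟩ := h2 σ hσ w hw (by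
      intro t ht
      have h4 := hfl t ht
      simp only [Om, co] at h4 ⊢
      simp only [(e _ (hm t ht _)).1, (e _ (hm t ht _)).2, ← (hx n).2.1, ← (hx n).2.2.1]
      exact h4)
    refine ⟨f1, hf1, f, hf, fun t ht i => ?_⟩
    rw [← e2 t ht i, (e _ (hm t ht i)).2, (hx n).2.1]

theorem no_seq (k : ℕ) {ι : Type} (B : ℕ → Arr ι) (j : ℕ → ℕ) {C δ : ℝ} (hδ : 0 < δ)
    (h : ∀ a, (B a).Ok ∧ Boxed (B a) (j a) C δ ∧ a ≤ j a ∧ ¬ Rich k (B a).T) : False := by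
  obtain ⟨A, Q, h1, h2⟩ := p2 k B j hδ h
  obtain ⟨A', Q', h3, h4⟩ := p3 h1 h2
  obtain ⟨D, A2, Q2, β, z, cc, S, h5⟩ := lab4 h3 h4
  exact h5.elim

/-- the conjecture for primitive systems -/
theorem prim_rich (k k' : ℕ) {δ : ℝ} (hδ : 0 < δ) (ι : Type) : ∃ n0 : ℕ, ∀ (n : ℕ) (p : ι → ℝ × ℝ)
    (T : Finset (Tri ι)), n0 ≤ n → Prim k' n δ p T → Rich k T := by
  by_contra hc
  push Not at hc
  obtain ⟨ε, hε, hur⟩ := ur
  obtain ⟨δ', hδ', n0, h1⟩ := a1 k k' hδ hε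
  choose n p T hn hP hR using hc
  have h2 := fun a => h1 ι (n (max a n0)) (p (max a n0)) (T (max a n0))
    ((le_max_right _ _).trans (hn _)) (hP _) (hR _)
  choose F hF hok hd using h2
  obtain ⟨C, δ2, hδ2, h3⟩ := hur ι F (fun a => n (max a n0)) δ' hδ' fun a =>
    ⟨hok a, (card_le_card (lines_mono (hF a))).trans (hP _).size, hd a,
      (le_max_left _ _).trans (hn _)⟩
  choose j hj a B hB hBok hBx using h3
  exact no_seq k B j hδ2 fun b =>
    ⟨hBok b, hBx b, hj b, fun hr => hR _ (hr.mono ((hB b).trans (hF _)))⟩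

end Pool.Agent.MP_38296a_co.H21

end FileGlue

section FileFinal1

set_option autoImplicit false

namespace Pool.Agent.MP_38296a_co.H21

open Finset Filter Classical

abbrev final_E : Type := EuclideanSpace ℝ (Fin 2)

def final_p (a : final_E) : ℝ × ℝ := (a 0, a 1)

theorem final_ext {a b : final_E} (h0 : a 0 = b 0) (h1 : a 1 = b 1) : a = b := by
  ext i
  fin_cases i
  · exact h0
  · exact h1

theorem final_inj {a b : final_E} (h : final_p a = final_p b) : a = b :=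
  final_ext (congrArg Prod.fst h) (congrArg Prod.snd h)

theorem final_col (s : Set final_E) : Collinear ℝ s ↔
    ∃ f : ℝ × ℝ × ℝ, (f.1 ≠ 0 ∨ f.2.1 ≠ 0) ∧ ∀ a ∈ s, ev f (final_p a) = 0 := by
  rw [collinear_iff_exists_forall_eq_smul_vadd]
  constructor
  · rintro ⟨p, v, h⟩
    by_cases hv : v = 0
    · refine ⟨(1, 0, -p 0), Or.inl one_ne_zero, fun a ha => ?_⟩
      obtain ⟨r, rfl⟩ := h a ha
      simp [ev, final_p, hv]
    · refine ⟨(v 1, -v 0, v 0 * p 1 - v 1 * p 0), ?_, fun a ha => ?_⟩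
      · by_contra hn
        push Not at hn
        exact hv (final_ext (by simpa using hn.2) (by simpa using hn.1))
      · obtain ⟨r, rfl⟩ := h a ha
        simp only [ev, final_p, vadd_eq_add, PiLp.add_apply, PiLp.smul_apply, smul_eq_mul]
        ring
  · rintro ⟨⟨a, b, c⟩, hf, h⟩
    simp only [ev, final_p] at hf h
    rcases hf with hf | hf
    · refine ⟨!₂[-c / a, 0], !₂[-b, a], fun q hq => ⟨q 1 / a, final_ext ?_ ?_⟩⟩
      · have := h q hq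
        simp only [vadd_eq_add, PiLp.add_apply, PiLp.smul_apply, smul_eq_mul]
        simp only [Matrix.cons_val_zero]
        field_simp
        linarith
      · simp only [vadd_eq_add, PiLp.add_apply, PiLp.smul_apply, smul_eq_mul]
        simp only [Matrix.cons_val_one, Matrix.cons_val_zero]
        field_simp
        simp
    · refine ⟨!₂[0, -c / b], !₂[b, -a], fun q hq => ⟨q 0 / b, final_ext ?_ ?_⟩⟩
      · simp only [vadd_eq_add, PiLp.add_apply, PiLp.smul_apply, smul_eq_mul]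
        simp only [Matrix.cons_val_zero]
        field_simp
        simp
      · have := h q hq
        simp only [vadd_eq_add, PiLp.add_apply, PiLp.smul_apply, smul_eq_mul]
        simp only [Matrix.cons_val_one, Matrix.cons_val_zero]
        field_simp
        linarith

theorem final_line {f g : ℝ × ℝ × ℝ} (hf : f.1 ≠ 0 ∨ f.2.1 ≠ 0) {a b c : ℝ × ℝ} (hab : a ≠ b)
    (fa : ev f a = 0) (fb : ev f b = 0) (ga : ev g a = 0) (gb : ev g b = 0) (fc : ev f c = 0) :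
    ev g c = 0 := by
  unfold ev at *
  have h1 : (c.1 - a.1) * (b.2 - a.2) - (c.2 - a.2) * (b.1 - a.1) = 0 := by
    rcases hf with hf | hf
    · refine mul_left_cancel₀ hf ?_
      linear_combination (b.2 - a.2) * (fc - fa) - (c.2 - a.2) * (fb - fa)
    · refine mul_left_cancel₀ hf ?_
      linear_combination (c.1 - a.1) * (fb - fa) - (b.1 - a.1) * (fc - fa)
  have h2 : b.1 - a.1 ≠ 0 ∨ b.2 - a.2 ≠ 0 := by
    by_contra hn
    push Not at hn
    exact hab (Prod.ext (by linarith [hn.1]) (by linarith [hn.2]))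
  rcases h2 with h2 | h2
  · refine mul_left_cancel₀ h2 ?_
    linear_combination (b.1 - a.1) * ga + (c.1 - a.1) * (gb - ga) - g.2.1 * h1
  · refine mul_left_cancel₀ h2 ?_
    linear_combination (b.2 - a.2) * ga + (c.2 - a.2) * (gb - ga) + g.1 * h1

/-- collinear three-element subsets -/
noncomputable def final_tri (V : Finset final_E) : Finset (Finset final_E) :=
  {t ∈ V.powersetCard 3 | Collinear ℝ (t : Set final_E)}

theorem final_mem {V t : Finset final_E} :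
    t ∈ final_tri V ↔ t ⊆ V ∧ #t = 3 ∧ Collinear ℝ (t : Set final_E) := by
  simp only [final_tri, mem_filter, mem_powersetCard, and_assoc]

theorem final_ncard (V : Finset final_E) :
    {t : Finset final_E | t ⊆ V ∧ t.card = 3 ∧ Collinear ℝ (t : Set final_E)}.ncard =
      #(final_tri V) := by
  rw [← Set.ncard_coe_finset]
  congr 1
  ext t
  exact final_mem.symm

theorem final_choose {k : ℕ} (hk : 3 ≤ k) : 1 / 144 * (k : ℝ) ^ 2 ≤ (k.choose 3 : ℕ) := by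
  obtain ⟨m, rfl⟩ := Nat.exists_eq_add_of_le' hk
  have h1 : (m + 3).choose 3 * 6 = (m + 3) * (m + 2) * (m + 1) := by
    have := Nat.descFactorial_eq_factorial_mul_choose (m + 3) 3
    simp only [Nat.descFactorial_succ, Nat.descFactorial_zero, Nat.factorial] at this
    have e1 : m + 3 - 2 = m + 1 := by omega
    have e2 : m + 3 - 1 = m + 2 := by omega
    rw [e1, e2, Nat.sub_zero] at this
    linarith
  have h2 : (((m + 3).choose 3 : ℕ) : ℝ) * 6 = (m + 3) * (m + 2) * (m + 1) := by exact_mod_cast h1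
  have h3 : (0 : ℝ) ≤ m := Nat.cast_nonneg m
  push_cast
  nlinarith [mul_nonneg h3 h3, mul_nonneg h3 (mul_nonneg h3 h3)]

/-- a primitive system of ordered triples -/
theorem final_prim {k n : ℕ} (hk : 3 ≤ k) {δ : ℝ} {P : Finset final_E} (hP : #P = n)
    (hd : δ * (n : ℝ) ^ 2 ≤ #(final_tri P))
    (hl : ∀ f : ℝ × ℝ × ℝ, (f.1 ≠ 0 ∨ f.2.1 ≠ 0) → #{a ∈ P | ev f (final_p a) = 0} ≤ k) :
    ∃ T : Finset (Tri final_E), Prim k n (δ / k ^ 3) final_p T ∧ lines T ⊆ P := by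
  set O : Finset (Tri final_E) := {t ∈ Fintype.piFinset fun _ : Fin 3 => P | Function.Injective t ∧
    ∃ f : ℝ × ℝ × ℝ, (f.1 ≠ 0 ∨ f.2.1 ≠ 0) ∧ ∀ i, ev f (final_p (t i)) = 0} with hO
  have mO : ∀ t ∈ O, (∀ i, t i ∈ P) ∧ Function.Injective t ∧
      ∃ f : ℝ × ℝ × ℝ, (f.1 ≠ 0 ∨ f.2.1 ≠ 0) ∧ ∀ i, ev f (final_p (t i)) = 0 := fun t ht =>
    ⟨Fintype.mem_piFinset.1 (mem_filter.1 ht).1, (mem_filter.1 ht).2⟩
  have h1 : #(final_tri P) ≤ #O := by
    refine card_le_card_of_surjOn (fun t : Tri final_E => univ.image t) fun s hs => ?_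
    obtain ⟨s1, s2, s3⟩ := final_mem.1 (mem_coe.1 hs)
    obtain ⟨f, f1, f2⟩ := (final_col _).1 s3
    let e := (s.equivFinOfCardEq s2).symm
    refine ⟨fun i => e i, mem_coe.2 (mem_filter.2 ⟨Fintype.mem_piFinset.2 fun i => s1 (e i).2,
      Subtype.val_injective.comp e.injective, f, f1, fun i => f2 _ (e i).2⟩), ?_⟩
    ext a
    simp only [mem_image, mem_univ, true_and]
    constructor
    · rintro ⟨i, rfl⟩
      exact (e i).2
    · intro ha
      exact ⟨e.symm ⟨a, ha⟩, by simp⟩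
  have hF : ∀ t : Tri final_E, ∃ f : ℝ × ℝ × ℝ, t ∈ O →
      (f.1 ≠ 0 ∨ f.2.1 ≠ 0) ∧ ∀ i, ev f (final_p (t i)) = 0 := fun t => by
    by_cases ht : t ∈ O
    · obtain ⟨f, hf⟩ := (mO t ht).2.2
      exact ⟨f, fun _ => hf⟩
    · exact ⟨0, fun h => absurd h ht⟩
  choose F hF using hF
  let key : Tri final_E → Finset final_E := fun t => {a ∈ P | ev (F t) (final_p a) = 0}
  have hkey : ∀ t ∈ O, ∀ f : ℝ × ℝ × ℝ, (f.1 ≠ 0 ∨ f.2.1 ≠ 0) → ∀ i j, i ≠ j →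
      ev f (final_p (t i)) = 0 → ev f (final_p (t j)) = 0 →
      key t = {a ∈ P | ev f (final_p a) = 0} := by
    intro t ht f hf i j hij fi fj
    have hne : final_p (t i) ≠ final_p (t j) := fun e => hij ((mO t ht).2.1 (final_inj e))
    refine filter_congr fun a _ => ⟨fun h => ?_, fun h => ?_⟩
    · exact final_line (hF t ht).1 hne ((hF t ht).2 i) ((hF t ht).2 j) fi fj h
    · exact final_line hf hne fi fj ((hF t ht).2 i) ((hF t ht).2 j) h
  obtain ⟨T, T1, T2, T3⟩ := exists_subset_injOn_image_eq_of_surjOn (f := key) (O : Set _)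
    (O.image key) (by rw [coe_image]; exact Set.surjOn_image _ _)
  have T1' : ∀ t ∈ T, t ∈ O := fun t ht => T1 ht
  have h2 : #O ≤ k ^ 3 * #T := by
    rw [← card_image_of_injOn T2, T3]
    refine card_le_mul_card_image O _ fun s hs => ?_
    obtain ⟨t, ht, rfl⟩ := mem_image.1 hs
    refine (card_le_card (t := Fintype.piFinset fun _ : Fin 3 => key t) fun u hu => ?_).trans ?_
    · obtain ⟨u1, u2⟩ := mem_filter.1 hu
      refine Fintype.mem_piFinset.2 fun i => ?_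
      rw [← u2]
      exact mem_filter.2 ⟨(mO u u1).1 i, (hF u u1).2 i⟩
    · rw [Fintype.card_piFinset_const]
      exact Nat.pow_le_pow_left (hl _ (hF t ht).1) 3
  have hs : lines T ⊆ P := fun a ha => by
    obtain ⟨t, ht, i, rfl⟩ := mem_lines.1 ha
    exact (mO t (T1' t ht)).1 i
  refine ⟨T, ⟨?_, hP ▸ card_le_card hs, ?_, fun t ht => (mO t (T1' t ht)).2.2,
    fun t ht i j hij e => hij ((mO t (T1' t ht)).2.1 e), fun a _ b _ e => final_inj e, ?_,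
    fun f hf => (card_le_card (filter_subset_filter _ hs)).trans (hl f hf)⟩, hs⟩
  · intro t ht u hu i j hij e1 e2
    refine T2 ht hu (hkey t (T1' t ht) (F u) (hF u (T1' u hu)).1 i j hij ?_ ?_)
    · rw [e1]
      exact (hF u (T1' u hu)).2 i
    · rw [e2]
      exact (hF u (T1' u hu)).2 j
  · have h3 : (#(final_tri P) : ℝ) ≤ (k : ℝ) ^ 3 * #T := by exact_mod_cast h1.trans h2
    have h4 : (0 : ℝ) < (k : ℝ) ^ 3 := by
      have : (0 : ℝ) < k := by exact_mod_cast (by omega : 0 < k)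
      positivity
    rw [div_mul_eq_mul_div, div_le_iff₀ h4]
    linarith
  · intro t ht u hu f hf ft fu
    exact T2 ht hu ((hkey t (T1' t ht) f hf 0 1 (by decide) (ft 0) (ft 1)).trans
      (hkey u (T1' u hu) f hf 0 1 (by decide) (fu 0) (fu 1)).symm)

theorem final_rich0 {ι : Type} {k : ℕ} {T : Finset (Tri ι)} (hr : Rich k T) :
    ∃ S : Fin 3 → Finset ι, (∀ i, #(S i) ≤ 2 * k) ∧ ∃ U : Finset (Tri ι), k ^ 2 ≤ #U ∧
      ∀ t ∈ U, t ∈ T ∧ ∀ i, t i ∈ S i := by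
  obtain ⟨S, S1, S2⟩ := hr
  exact ⟨S, S1, _, S2, fun t ht => mem_filter.1 ht⟩

theorem final_rich {k k1 n : ℕ} {δ : ℝ} {P : Finset final_E} {T : Finset (Tri final_E)}
    (h : Prim k n δ final_p T) (hs : lines T ⊆ P) (hr : Rich k1 T) :
    ∃ V ⊆ P, #V ≤ 6 * k1 ∧ k1 ^ 2 ≤ #(final_tri V) := by
  obtain ⟨S, S1, U, S2, S3⟩ := final_rich0 hr
  refine ⟨univ.biUnion S ∩ P, inter_subset_right, ?_, S2.trans ?_⟩
  · refine (card_le_card inter_subset_left).trans (card_biUnion_le.trans ?_)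
    rw [Fin.sum_univ_three]
    have := S1 0
    have := S1 1
    have := S1 2
    omega
  · refine card_le_card_of_injOn (fun t : Tri final_E => univ.image t) (fun t ht => ?_)
      fun t ht u hu e => ?_
    · obtain ⟨t1, t2⟩ := S3 t ht
      refine mem_coe.2 (final_mem.2 ⟨fun a ha => ?_, ?_, ?_⟩)
      · obtain ⟨i, -, rfl⟩ := mem_image.1 ha
        exact mem_inter.2 ⟨mem_biUnion.2 ⟨i, mem_univ _, t2 i⟩, hs (mem_lines.2 ⟨t, t1, i, rfl⟩)⟩
      · rw [card_image_of_injective _ fun i j e => not_not.1 fun hij => h.dist t t1 i j hij e]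
        simp
      · obtain ⟨f, f1, f2⟩ := h.col t t1
        refine (final_col _).2 ⟨f, f1, fun a ha => ?_⟩
        obtain ⟨i, -, rfl⟩ := mem_image.1 (mem_coe.1 ha)
        exact f2 i
    · have t1 := (S3 t ht).1
      have u1 := (S3 u hu).1
      obtain ⟨f, f1, f2⟩ := h.col t t1
      refine h.one t t1 u u1 f f1 f2 fun i => ?_
      have : u i ∈ univ.image t := by
        have e' : univ.image t = univ.image u := e
        rw [e']
        exact mem_image_of_mem _ (mem_univ i)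
      obtain ⟨j, -, e'⟩ := mem_image.1 this
      rw [← e']
      exact f2 j

theorem final_of (hp : ∀ (k k' : ℕ) (δ : ℝ), 0 < δ → ∃ n0 : ℕ, ∀ (n : ℕ)
    (T : Finset (Tri final_E)), n0 ≤ n → Prim k' n δ final_p T → Rich k T) {k : ℕ} (hk : 3 ≤ k)
    {δ : ℝ} (hδ : 0 < δ) : ∃ n0 : ℕ, ∀ n : ℕ, n0 ≤ n → ∀ P : Finset final_E, #P = n →
      δ * (n : ℝ) ^ 2 ≤ #(final_tri P) →
      ∃ V ⊆ P, #V ≤ k ∧ 1 / 144 * (k : ℝ) ^ 2 ≤ #(final_tri V) := by
  have hk0 : (0 : ℝ) < k := by exact_mod_cast (by omega : 0 < k)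
  obtain ⟨n0, h0⟩ := hp (k / 6) k (δ / k ^ 3) (by positivity)
  refine ⟨max n0 1, fun n hn P hP hd => ?_⟩
  by_cases hk2 : k ≤ 12
  · have hn0 : (0 : ℝ) < n := by exact_mod_cast (by omega : 0 < n)
    obtain ⟨t, ht⟩ := card_pos.1 (Nat.cast_pos.1 (lt_of_lt_of_le (by positivity) hd))
    obtain ⟨t1, t2, t3⟩ := final_mem.1 ht
    refine ⟨t, t1, by omega, ?_⟩
    have h1 : (1 : ℝ) ≤ #(final_tri t) :=
      Nat.one_le_cast.2 (card_pos.2 ⟨t, final_mem.2 ⟨Subset.refl _, t2, t3⟩⟩)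
    have h2 : (k : ℝ) ≤ 12 := by exact_mod_cast hk2
    nlinarith
  by_cases hl : ∀ f : ℝ × ℝ × ℝ, (f.1 ≠ 0 ∨ f.2.1 ≠ 0) → #{a ∈ P | ev f (final_p a) = 0} ≤ k
  · obtain ⟨T, T1, T2⟩ := final_prim hk hP hd hl
    obtain ⟨V, V1, V2, V3⟩ := final_rich T1 T2 (h0 n T (by omega) T1)
    refine ⟨V, V1, by omega, ?_⟩
    have h1 : (k : ℝ) ≤ 12 * (k / 6 : ℕ) := by exact_mod_cast (by omega : k ≤ 12 * (k / 6))
    have h2 : ((k / 6 : ℕ) : ℝ) ^ 2 ≤ #(final_tri V) := by exact_mod_cast V3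
    nlinarith
  · push Not at hl
    obtain ⟨f, f1, f2⟩ := hl
    obtain ⟨V, V1, V2⟩ := exists_subset_card_eq f2.le
    refine ⟨V, V1.trans (filter_subset _ _), V2.le, (final_choose hk).trans (Nat.cast_le.2 ?_)⟩
    rw [← V2, ← card_powersetCard]
    refine card_le_card fun t ht => mem_filter.2 ⟨ht, (final_col _).2 ⟨f, f1, fun a ha => ?_⟩⟩
    exact (mem_filter.1 (V1 ((mem_powersetCard.1 ht).1 (mem_coe.1 ha)))).2

end Pool.Agent.MP_38296a_co.H21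

end FileFinal1

section FileFinal

set_option autoImplicit false

namespace Pool.Agent.MP_38296a_co.H21

open Finset Filter Classical

/-- Solymosi's conjecture -/
theorem solymosi :
    ∀ k : ℕ, 3 ≤ k → ∀ δ : ℝ, 0 < δ → ∃ n0 : ℕ, ∀ n : ℕ, n0 ≤ n →
      ∀ P : Finset (EuclideanSpace ℝ (Fin 2)), P.card = n →
        δ * (n : ℝ) ^ 2 ≤
          (({t : Finset (EuclideanSpace ℝ (Fin 2)) |
              t ⊆ P ∧ t.card = 3 ∧
                Collinear ℝ (t : Set (EuclideanSpace ℝ (Fin 2)))}.ncard : ℕ) : ℝ) →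
        ∃ V : Finset (EuclideanSpace ℝ (Fin 2)), V ⊆ P ∧ V.card ≤ k ∧
          1 / 144 * (k : ℝ) ^ 2 ≤
            (({t : Finset (EuclideanSpace ℝ (Fin 2)) |
                t ⊆ V ∧ t.card = 3 ∧
                  Collinear ℝ (t : Set (EuclideanSpace ℝ (Fin 2)))}.ncard : ℕ) : ℝ) := by
  intro k hk δ hδ
  obtain ⟨n0, h⟩ := final_of (fun k k' δ hδ => (prim_rich k k' hδ final_E).imp
    fun _ h n T => h n final_p T) hk hδ
  refine ⟨n0, fun n hn P hP hd => ?_⟩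
  rw [final_ncard] at hd
  obtain ⟨V, V1, V2, V3⟩ := h n hn P hP hd
  exact ⟨V, V1, V2, by rwa [final_ncard]⟩

end Pool.Agent.MP_38296a_co.H21

end FileFinal

end
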