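import Mathlib

-- part MP_38296a_co.H88.Defs
section

/-!
Definitions for the proof that point families of bounded crossing number with `δ n ^ 2`
collinear triples contain `k` points with `c k ^ 2` collinear triples.
-/

set_option autoImplicit false

namespace Pool.Agent.MP_38296a_co.H88

open Finset Combinatorics

/-! ### Averages -/

noncomputable def av {X : Type} [Fintype X] (f : X → ℝ) : ℝ := (∑ x, f x) / Fintype.card X

open Classical in
noncomputable def ind {X : Type} (A : Set X) (x : X) : ℝ := if x ∈ A then 1 else 0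

noncomputable def dn {X : Type} [Fintype X] (A : Set X) : ℝ := av (ind A)

section Av
variable {X Y : Type} [Fintype X] [Fintype Y]

omit [Fintype X] in
theorem ind_of_mem {A : Set X} {x : X} (h : x ∈ A) : ind A x = 1 := by simp [ind, h]

omit [Fintype X] in
theorem ind_of_not {A : Set X} {x : X} (h : x ∉ A) : ind A x = 0 := by simp [ind, h]

omit [Fintype X] in
theorem ind_nonneg (A : Set X) (x : X) : 0 ≤ ind A x := by unfold ind; split_ifs <;> norm_num

omit [Fintype X] in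
theorem ind_le_one (A : Set X) (x : X) : ind A x ≤ 1 := by unfold ind; split_ifs <;> norm_num

omit [Fintype X] [Fintype Y] in
theorem ind_congr {A : Set X} {B : Set Y} {x : X} {y : Y} (h : x ∈ A ↔ y ∈ B) :
    ind A x = ind B y := by
  by_cases hx : x ∈ A
  · rw [ind_of_mem hx, ind_of_mem (h.1 hx)]
  · rw [ind_of_not hx, ind_of_not fun hy => hx (h.2 hy)]

theorem av_mono {f g : X → ℝ} (h : ∀ x, f x ≤ g x) : av f ≤ av g :=
  div_le_div_of_nonneg_right (sum_le_sum fun x _ => h x) (Nat.cast_nonneg _)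

theorem av_congr {f g : X → ℝ} (h : ∀ x, f x = g x) : av f = av g := by rw [funext h]

theorem av_add (f g : X → ℝ) : av (fun x => f x + g x) = av f + av g := by
  simp only [av, sum_add_distrib, add_div]

theorem av_sub (f g : X → ℝ) : av (fun x => f x - g x) = av f - av g := by
  simp only [av, sum_sub_distrib, sub_div]

theorem av_mul (c : ℝ) (f : X → ℝ) : av (fun x => c * f x) = c * av f := by
  simp only [av, ← mul_sum, mul_div_assoc]

theorem av_sum {κ : Type} (s : Finset κ) (f : κ → X → ℝ) :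
    av (fun x => ∑ k ∈ s, f k x) = ∑ k ∈ s, av (f k) := by
  simp only [av, ← sum_div]; rw [sum_comm]

theorem av_const [Nonempty X] (c : ℝ) : av (fun _ : X => c) = c := by
  have : (Fintype.card X : ℝ) ≠ 0 := by exact_mod_cast Fintype.card_ne_zero
  simp only [av, sum_const, card_univ, nsmul_eq_mul]; field_simp

theorem av_nonneg {f : X → ℝ} (h : ∀ x, 0 ≤ f x) : 0 ≤ av f :=
  div_nonneg (sum_nonneg fun x _ => h x) (Nat.cast_nonneg _)

theorem av_le [Nonempty X] {f : X → ℝ} {c : ℝ} (h : ∀ x, f x ≤ c) : av f ≤ c :=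
  (av_mono h).trans_eq (av_const c)

theorem le_av [Nonempty X] {f : X → ℝ} {c : ℝ} (h : ∀ x, c ≤ f x) : c ≤ av f :=
  (av_const c).symm.trans_le (av_mono h)

theorem exists_av_le [Nonempty X] (f : X → ℝ) : ∃ x, av f ≤ f x := by
  obtain ⟨x, -, hx⟩ := exists_max_image univ f univ_nonempty
  exact ⟨x, av_le fun y => hx y (mem_univ y)⟩

theorem av_equiv (e : X ≃ Y) (f : Y → ℝ) : av (fun x => f (e x)) = av f := by
  simp only [av, Equiv.sum_comp e f, Fintype.card_congr e]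

theorem av_prod (f : X × Y → ℝ) : av f = av fun x => av fun y => f (x, y) := by
  simp only [av, Fintype.sum_prod_type, ← sum_div, Fintype.card_prod, Nat.cast_mul]
  rw [div_div, mul_comm]

theorem av_comm (f : X → Y → ℝ) :
    (av fun x => av fun y => f x y) = av fun y => av fun x => f x y := by
  simp only [av, ← sum_div]; rw [sum_comm, div_div, div_div, mul_comm]

/-- Fubini for words on a sum of index types -/
theorem av_sum_idx {ι κ β : Type} [Fintype ι] [DecidableEq ι] [Fintype κ] [DecidableEq κ]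
    [Fintype β] (f : (ι ⊕ κ → β) → ℝ) :
    av f = av fun x : ι → β => av fun y : κ → β => f (Sum.elim x y) := by
  rw [← av_equiv (Equiv.sumArrowEquivProdArrow ι κ β).symm f, av_prod]; rfl

theorem dn_nonneg (A : Set X) : 0 ≤ dn A := av_nonneg (ind_nonneg A)

theorem dn_le_one (A : Set X) : dn A ≤ 1 := by
  cases isEmpty_or_nonempty X
  · simp [dn, av]
  · exact av_le (ind_le_one A)

theorem dn_mono {A B : Set X} (h : A ⊆ B) : dn A ≤ dn B :=
  av_mono fun x => by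
    by_cases hx : x ∈ A
    · rw [ind_of_mem hx, ind_of_mem (h hx)]
    · rw [ind_of_not hx]; exact ind_nonneg _ _

theorem nonempty_of_dn_pos {A : Set X} (h : 0 < dn A) : A.Nonempty := by
  by_contra hn
  rw [Set.not_nonempty_iff_eq_empty] at hn
  simp [hn, dn, av, ind] at h

/-- reverse Markov inequality -/
theorem dn_ge_of_av [Nonempty X] {f : X → ℝ} {c : ℝ} (hc : 0 ≤ c) (h : ∀ x, f x ≤ 1) :
    av f - c ≤ dn {x | c ≤ f x} := by
  rw [← av_const (X := X) c, ← av_sub]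
  refine av_mono fun x => ?_
  rw [av_const]
  by_cases hx : c ≤ f x
  · rw [ind_of_mem (A := {x | c ≤ f x}) hx]; linarith [h x]
  · rw [ind_of_not (A := {x | c ≤ f x}) hx]; linarith [not_le.1 hx]

/-- pigeonhole principle for densities -/
theorem dn_pigeon {κ : Type} [Fintype κ] [Nonempty κ] {A : Set X} (B : κ → Set X)
    (h : ∀ x ∈ A, ∃ k, x ∈ B k) : ∃ k, dn A / Fintype.card κ ≤ dn (B k) := by
  obtain ⟨k, hk⟩ := exists_av_le fun k => dn (B k)
  refine ⟨k, le_trans ?_ hk⟩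
  refine div_le_div_of_nonneg_right ?_ (Nat.cast_nonneg _)
  simp only [dn]
  rw [← av_sum]
  refine av_mono fun x => ?_
  by_cases hx : x ∈ A
  · obtain ⟨k, hk⟩ := h x hx
    rw [ind_of_mem hx, ← ind_of_mem hk]
    exact single_le_sum (f := fun k => ind (B k) x) (fun k _ => ind_nonneg _ _) (mem_univ k)
  · rw [ind_of_not hx]; exact sum_nonneg fun k _ => ind_nonneg _ _

end Av

/-! ### Combinatorial subspaces -/

section Sub
variable {α β η ζ ι κ : Type}

/-- composition of subspaces -/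
def comp (V : Subspace η β ι) (W : Subspace ζ β η) : Subspace ζ β ι where
  idxFun i := (V.idxFun i).elim Sum.inl W.idxFun
  proper z := by
    obtain ⟨e, he⟩ := W.proper z
    obtain ⟨i, hi⟩ := V.proper e
    exact ⟨i, by simp [hi, he]⟩

theorem comp_apply (V : Subspace η β ι) (W : Subspace ζ β η) (x : ζ → β) :
    comp V W x = V (W x) := by
  funext i
  simp only [Subspace.coe_apply, comp]
  cases V.idxFun i <;> rfl

/-- a line inside a subspace -/
def lcomp (V : Subspace η β ι) (l : Line β η) : Line β ι where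
  idxFun i := (V.idxFun i).elim some l.idxFun
  proper := by
    obtain ⟨e, he⟩ := l.proper
    obtain ⟨i, hi⟩ := V.proper e
    exact ⟨i, by simp [hi, he]⟩

theorem lcomp_apply (V : Subspace η β ι) (l : Line β η) (a : β) : lcomp V l a = V (l a) := by
  funext i
  simp only [Subspace.coe_apply, Line.coe_apply, lcomp]
  cases V.idxFun i <;> rfl

/-- the same subspace over the alphabet with one more letter -/
def up (W : Subspace η α ι) : Subspace η (Option α) ι where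
  idxFun i := (W.idxFun i).map some id
  proper e := by
    obtain ⟨i, hi⟩ := W.proper e
    exact ⟨i, by simp [hi]⟩

theorem up_apply (W : Subspace η α ι) (x : η → Option α) (i : ι) :
    up W x i = (W.idxFun i).elim some x := by
  simp only [Subspace.coe_apply, up]
  cases W.idxFun i <;> rfl

theorem up_some (W : Subspace η α ι) (x : η → α) : up W (some ∘ x) = some ∘ W x := by
  funext i
  show up W (some ∘ x) i = some (W x i)
  rw [up_apply]
  simp only [Subspace.coe_apply]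
  cases W.idxFun i <;> rfl

theorem up_comp (V : Subspace η α ι) (W : Subspace ζ α η) (x : ζ → Option α) :
    up (comp V W) x = up V (up W x) := by
  funext i
  rw [up_apply, up_apply]
  simp only [comp]
  cases V.idxFun i with
  | inl b => rfl
  | inr e => exact (up_apply W x e).symm

/-- replace the new letter by `a` -/
def sub (a : α) (x : η → Option α) : η → α := fun e => (x e).getD a

theorem sub_some (a : α) (x : η → α) : sub a (some ∘ x) = x := rfl

theorem sub_up (a : α) (W : Subspace η α ι) (x : η → Option α) :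
    sub a (up W x) = W (sub a x) := by
  funext i
  show (up W x i).getD a = W (sub a x) i
  rw [up_apply]
  simp only [Subspace.coe_apply]
  cases W.idxFun i <;> rfl

theorem sub_apply_congr (a : α) (V : Subspace η (Option α) ι) {x y : η → Option α}
    (h : sub a x = sub a y) : sub a (V x) = sub a (V y) := by
  funext i
  simp only [sub, Subspace.coe_apply]
  cases V.idxFun i with
  | inl b => rfl
  | inr e => exact congrFun h e

theorem line_apply (l : Line α η) (a : α) : l a = sub a l.idxFun := rfl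

/-- the whole space -/
def whole (η β : Type) : Subspace η β η where
  idxFun := Sum.inr
  proper e := ⟨e, rfl⟩

theorem whole_apply (x : η → β) : whole η β x = x := rfl

/-- a subspace in the left coordinates -/
def inlS (V : Subspace η β ι) (y : κ → β) : Subspace η β (ι ⊕ κ) where
  idxFun := Sum.elim V.idxFun fun k => Sum.inl (y k)
  proper e := by
    obtain ⟨i, hi⟩ := V.proper e
    exact ⟨Sum.inl i, hi⟩

theorem inlS_apply (V : Subspace η β ι) (y : κ → β) (x : η → β) :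
    inlS V y x = Sum.elim (V x) y := by
  funext i; cases i <;> rfl

/-- a subspace in the right coordinates -/
def inrS (y : κ → β) (V : Subspace η β ι) : Subspace η β (κ ⊕ ι) where
  idxFun := Sum.elim (fun k => Sum.inl (y k)) V.idxFun
  proper e := by
    obtain ⟨i, hi⟩ := V.proper e
    exact ⟨Sum.inr i, hi⟩

theorem inrS_apply (y : κ → β) (V : Subspace η β ι) (x : η → β) :
    inrS y V x = Sum.elim y (V x) := by
  funext i; cases i <;> rfl

theorem subspace_injective (V : Subspace η β ι) : Function.Injective fun x => V x := by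
  intro x y h
  funext e
  obtain ⟨i, hi⟩ := V.proper e
  have := congrFun h i
  simpa only [V.apply_inr hi] using this

/-- `D` does not distinguish the letter `a` from the new letter -/
def Ins (a : α) (D : Set (ι → Option α)) : Prop := ∀ x y, sub a x = sub a y → x ∈ D → y ∈ D

end Sub

/-- the density Hales-Jewett theorem for the alphabet `α` -/
def DHJ (α : Type) [Fintype α] : Prop :=
  ∀ δ : ℝ, 0 < δ → ∃ (ι : Type) (_ : Fintype ι) (_ : DecidableEq ι),
    ∀ A : Set (ι → α), δ ≤ dn A → ∃ l : Line α ι, ∀ a, l a ∈ A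

/-- dual form of: `D` is tiled by `η`-dimensional subspaces up to density `b` -/
def Til (η : Type) [Fintype η] [DecidableEq η] {β ι : Type} [Fintype β] [Fintype ι]
    [DecidableEq ι] (D : Set (ι → β)) (b : ℝ) : Prop :=
  ∀ F : (ι → β) → ℝ, (∀ z, F z ≤ 1) → (∀ V : Subspace η β ι, av (fun u => F (V u)) ≤ 0) →
    av (fun z => ind D z * F z) ≤ b

/-- pigeonhole principle -/
theorem pigeon {X Y : Type} [DecidableEq Y] (T : Finset X) (f : X → Y) {N : ℕ}
    (h : #(T.image f) ≤ N) : ∃ T' ⊆ T, #T ≤ N * #T' ∧ ∀ x ∈ T', ∀ y ∈ T', f x = f y := by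
  rcases T.eq_empty_or_nonempty with rfl | hT
  · exact ⟨∅, Subset.refl _, by simp, by simp⟩
  obtain ⟨y, -, hy⟩ := exists_max_image (T.image f) (fun y => #{x ∈ T | f x = y}) (hT.image f)
  refine ⟨{x ∈ T | f x = y}, filter_subset _ _, ?_, fun x hx z hz => ?_⟩
  · rw [mul_comm]
    exact (card_le_mul_card_image T _ hy).trans (Nat.mul_le_mul_left _ h)
  · rw [(mem_filter.1 hx).2, (mem_filter.1 hz).2]

/-! ### Triple systems -/

section Tri
variable {X : Type} [DecidableEq X]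

/-- the triples inside a box -/
def box (T : Finset (X × X × X)) (A B C : Finset X) : Finset (X × X × X) :=
  {x ∈ T | x.1 ∈ A ∧ x.2.1 ∈ B ∧ x.2.2 ∈ C}

/-- `4 m` vertices span `m ^ 2` triples -/
def Grid (T : Finset (X × X × X)) (m : ℕ) : Prop :=
  ∃ A B C : Finset X, #A ≤ m ∧ #B ≤ m ∧ #C ≤ 2 * m ∧ m ^ 2 ≤ #(box T A B C)

def In (T : Finset (X × X × X)) (A B C : Finset X) : Prop :=
  ∀ x ∈ T, x.1 ∈ A ∧ x.2.1 ∈ B ∧ x.2.2 ∈ C

/-- two coordinates determine the triple -/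
def Lin (T : Finset (X × X × X)) : Prop :=
  ∀ x ∈ T, ∀ y ∈ T,
    (x.1 = y.1 ∧ x.2.1 = y.2.1 ∨ x.2.1 = y.2.1 ∧ x.2.2 = y.2.2 ∨ x.2.2 = y.2.2 ∧ x.1 = y.1) → x = y

/-- every subsystem with two triples has a non constant additive labelling -/
def Solv (T : Finset (X × X × X)) : Prop :=
  ∀ Q ⊆ T, 2 ≤ #Q → ∃ α β γ : X → ℤ, (∀ x ∈ Q, α x.1 + β x.2.1 + γ x.2.2 = 0) ∧
    ∃ x ∈ Q, ∃ y ∈ Q, α x.1 ≠ α y.1 ∨ β x.2.1 ≠ β y.2.1

/-- size of a label class -/
def cl (A : Finset X) (α : X → ℤ) (z : ℤ) : ℕ := #{a ∈ A | α a = z}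

/-- `f` solves the linear system with coefficients `co` -/
def Sol (T : Finset (X × X × X)) (co : X × X × X → ℝ × ℝ × ℝ)
    (f : (X → ℝ) × (X → ℝ) × (X → ℝ)) : Prop :=
  ∀ x ∈ T, (co x).1 * f.1 x.1 + (co x).2.1 * f.2.1 x.2.1 + (co x).2.2 * f.2.2 x.2.2 = 0

/-- if two coordinates of a triple lie in the box, so does the third -/
def Closed (T : Finset (X × X × X)) (A B C : Finset X) : Prop :=
  ∀ x ∈ T, (x.1 ∈ A → x.2.1 ∈ B → x.2.2 ∈ C) ∧ (x.2.1 ∈ B → x.2.2 ∈ C → x.1 ∈ A) ∧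
    (x.2.2 ∈ C → x.1 ∈ A → x.2.1 ∈ B)

/-- the triples with prescribed labels -/
def chd (T : Finset (X × X × X)) (α β γ : X → ℤ) (s : ℤ × ℤ × ℤ) : Finset (X × X × X) :=
  {x ∈ T | (α x.1, β x.2.1, γ x.2.2) = s}

/-- the three maps are injective on the coordinates of `T` -/
def Inj3 {Y : Type} (T : Finset (X × X × X)) (f g h : X → Y) : Prop :=
  ∀ x ∈ T, ∀ y ∈ T, (f x.1 = f y.1 → x.1 = y.1) ∧ (g x.2.1 = g y.2.1 → x.2.1 = y.2.1) ∧
    (h x.2.2 = h y.2.2 → x.2.2 = y.2.2)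

/-- `T` has cubed density at least `D` in the box -/
def Dns (D : ℝ) (T : Finset (X × X × X)) (A B C : Finset X) : Prop :=
  D * ((#A : ℝ) * #B * #C) ^ 2 ≤ (#T : ℝ) ^ 3

omit [DecidableEq X] in
theorem Lin.card_le {T : Finset (X × X × X)} {A B C : Finset X} (h : Lin T) (hI : In T A B C) :
    #T ≤ #A * #B ∧ #T ≤ #B * #C ∧ #T ≤ #C * #A := by
  refine ⟨?_, ?_, ?_⟩ <;> rw [← card_product]
  · exact card_le_card_of_injOn (fun x => (x.1, x.2.1))
      (fun x hx => mem_product.2 ⟨(hI x hx).1, (hI x hx).2.1⟩)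
      fun x hx y hy e => h x hx y hy (Or.inl (Prod.mk.inj e))
  · exact card_le_card_of_injOn (fun x => (x.2.1, x.2.2))
      (fun x hx => mem_product.2 ⟨(hI x hx).2.1, (hI x hx).2.2⟩)
      fun x hx y hy e => h x hx y hy (Or.inr (Or.inl (Prod.mk.inj e)))
  · exact card_le_card_of_injOn (fun x => (x.2.2, x.1))
      (fun x hx => mem_product.2 ⟨(hI x hx).2.2, (hI x hx).1⟩)
      fun x hx y hy e => h x hx y hy (Or.inr (Or.inr (Prod.mk.inj e)))

theorem Grid.mono {T T' : Finset (X × X × X)} {m : ℕ} (h : Grid T m) (hs : T ⊆ T') :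
    Grid T' m := by
  obtain ⟨A, B, C, h1, h2, h3, h4⟩ := h
  exact ⟨A, B, C, h1, h2, h3, h4.trans (card_le_card (filter_subset_filter _ hs))⟩

omit [DecidableEq X] in
theorem Lin.mono {T T' : Finset (X × X × X)} (h : Lin T') (hs : T ⊆ T') : Lin T :=
  fun x hx y hy => h x (hs hx) y (hs hy)

omit [DecidableEq X] in
theorem Solv.mono {T T' : Finset (X × X × X)} (h : Solv T') (hs : T ⊆ T') : Solv T :=
  fun Q hQ => h Q (hQ.trans hs)

end Tri

/-! ### Geometry -/

/-- value of an affine function -/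
def ev (f : ℝ × ℝ × ℝ) (p : ℝ × ℝ) : ℝ := f.1 * p.1 + f.2.1 * p.2 + f.2.2

open Classical in
/-- every line through `o` weakly separates at most `d` consecutive pairs of `a` -/
def Few (d n : ℕ) (a : ℕ → ℝ × ℝ) (o : ℝ × ℝ) : Prop :=
  ∀ f : ℝ × ℝ × ℝ, (f.1 ≠ 0 ∨ f.2.1 ≠ 0) → ev f o = 0 →
    #{i ∈ range n | i + 1 < n ∧ ev f (a i) * ev f (a (i + 1)) ≤ 0} ≤ d

/-- the coefficients `w` are non zero and give an affine dependence of `p, q, r` -/
def Dep (w : ℝ × ℝ × ℝ) (p q r : ℝ × ℝ) : Prop :=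
  w.1 ≠ 0 ∧ w.2.1 ≠ 0 ∧ w.2.2 ≠ 0 ∧
    ∀ f : ℝ × ℝ × ℝ, w.1 * ev f p + w.2.1 * ev f q + w.2.2 * ev f r = 0

/-- the affine function vanishing at `p` and `q` -/
def ln (p q : ℝ × ℝ) : ℝ × ℝ × ℝ := (p.2 - q.2, q.1 - p.1, p.1 * q.2 - p.2 * q.1)

theorem ev_ln_left (p q : ℝ × ℝ) : ev (ln p q) p = 0 := by simp only [ev, ln]; ring

theorem ev_ln_right (p q : ℝ × ℝ) : ev (ln p q) q = 0 := by simp only [ev, ln]; ring

theorem ln_ne {p q : ℝ × ℝ} (h : p ≠ q) : (ln p q).1 ≠ 0 ∨ (ln p q).2.1 ≠ 0 := by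
  by_contra hn
  rw [not_or, not_not, not_not] at hn
  simp only [ln] at hn
  exact h (Prod.ext (by linarith [hn.2]) (by linarith [hn.1]))

open Classical in
/-- the points of two families -/
noncomputable def pts (na nb : ℕ) (a b : ℕ → ℝ × ℝ) : Finset (ℝ × ℝ) :=
  (range na).image a ∪ (range nb).image b

/-- the term `v` is negligible with respect to the non zero term `u` -/
def Near (η u v : ℝ) : Prop := u ≠ 0 ∧ |v| ≤ η * |u|

/-- different triples lie on different lines -/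
def Sep (a b : ℕ → ℝ × ℝ) (T : Finset (ℕ × ℕ × ℕ)) : Prop :=
  ∀ x ∈ T, ∀ y ∈ T, ev (ln (a x.1) (b x.2.1)) (a y.1) = 0 →
    ev (ln (a x.1) (b x.2.1)) (b y.2.1) = 0 → x = y

/-- the family `a` has few crossings with lines through points of the family `b` -/
def FewW (d na : ℕ) (a : ℕ → ℝ × ℝ) (nb : ℕ) (b : ℕ → ℝ × ℝ) : Prop :=
  ∀ i < nb, Few d na a (b i)

/-- all six crossing conditions -/
def Few6 (d na nb nc : ℕ) (a b c : ℕ → ℝ × ℝ) : Prop :=
  (FewW d na a nb b ∧ FewW d na a nc c) ∧ (FewW d nb b nc c ∧ FewW d nb b na a) ∧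
    FewW d nc c na a ∧ FewW d nc c nb b

theorem Few6.rot {d na nb nc : ℕ} {a b c : ℕ → ℝ × ℝ} (h : Few6 d na nb nc a b c) :
    Few6 d nb nc na b c a := ⟨h.2.1, h.2.2, h.1⟩

/-- a line through `o` contains at most `d + 1` points of the family -/
theorem Few.zero {d n : ℕ} {a : ℕ → ℝ × ℝ} {o : ℝ × ℝ} (h : Few d n a o) {f : ℝ × ℝ × ℝ}
    (hf : f.1 ≠ 0 ∨ f.2.1 ≠ 0) (ho : ev f o = 0) (S : Finset ℕ)
    (hS : ∀ i ∈ S, i < n ∧ ev f (a i) = 0) : #S ≤ d + 1 := by
  classical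
  refine le_trans (card_le_card (t := insert (n - 1) _) fun i hi => ?_)
    ((card_insert_le _ _).trans (Nat.add_le_add_right (h f hf ho) 1))
  obtain ⟨h1, h2⟩ := hS i hi
  rw [mem_insert, mem_filter, mem_range, h2, zero_mul]
  by_cases h3 : i + 1 < n
  · exact Or.inr ⟨h1, h3, le_rfl⟩
  · left; omega

end Pool.Agent.MP_38296a_co.H88

end

-- part MP_38296a_co.H88.Role
section

set_option autoImplicit false

namespace Pool.Agent.MP_38296a_co.H88

section RoleA


open Finset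

/-- increasing enumeration of a finite set of reals, continued to infinity.
Hint: `D.orderEmbOfFin rfl` below `#D`; above use `B + i` with `B` an upper bound of `D`. -/
theorem role_enum (D : Finset ℝ) : ∃ e : ℕ → ℝ, StrictMono e ∧ (∀ i < #D, e i ∈ D) ∧
    ∀ x ∈ D, ∃ i < #D, e i = x := by
  obtain ⟨B, hB⟩ := D.bddAbove
  let f := D.orderEmbOfFin rfl
  refine ⟨fun i => if h : i < #D then f ⟨i, h⟩ else B + 1 + i, fun i j hij => ?_, fun i hi => ?_,
    fun x hx => ?_⟩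
  · by_cases hj : j < #D
    · have hi : i < #D := hij.trans hj
      simp only [dif_pos hi, dif_pos hj]
      exact f.strictMono hij
    · by_cases hi : i < #D
      · simp only [dif_pos hi, dif_neg hj]
        have h1 : f ⟨i, hi⟩ ≤ B := hB (D.orderEmbOfFin_mem rfl _)
        have h2 : (0 : ℝ) ≤ j := Nat.cast_nonneg j
        linarith
      · simp only [dif_neg hi, dif_neg hj]
        have : (i : ℝ) < j := by exact_mod_cast hij
        linarith
  · simp only [dif_pos hi]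
    exact D.orderEmbOfFin_mem rfl _
  · have : x ∈ Set.range f := by
      rw [D.range_orderEmbOfFin rfl]
      exact hx
    obtain ⟨i, hi⟩ := this
    exact ⟨i, i.2, by simp only [dif_pos i.2]; exact hi⟩

/-- Hint: `Zm, Zp` have the same sign and `0 < z`, so `|Zm| ≤ |y - z| |X|` and `z |Zp| ≤ |y - z| |X|`.
First case `|y - z| ≤ η u ≤ η z`; second case `|y - z| ≤ v`; third case `u |y - z| ≤ y z`. -/
theorem role_alg {η u v y z X Zm Zp : ℝ} (hη : 0 < η) (hu : 0 < u) (hy : u ≤ y ∧ y ≤ v)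
    (hz : u ≤ z ∧ z ≤ v) (he : Zm + z * Zp = (y - z) * X) (hs : 0 ≤ Zm * Zp)
    (h : v ≤ (1 + η) * u ∨ v * |Zp| ≤ η * |Zm| ∨ |Zm| ≤ η * u * |Zp|) :
    |Zp| ≤ η * |X| ∨ |Zm| ≤ η * |y * X| := by
  have hz0 : 0 < z := hu.trans_le hz.1
  have hy0 : 0 < y := hu.trans_le hy.1
  have hv0 : 0 < v := hz0.trans_le hz.2
  have key : |Zm| + z * |Zp| = |y - z| * |X| := by
    rw [← abs_mul, ← he]
    have h1 : 0 ≤ Zm * (z * Zp) := by
      rw [mul_left_comm]
      exact mul_nonneg hz0.le hs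
    rw [(abs_add_eq_add_abs_iff _ _).2 (mul_nonneg_iff.1 h1), abs_mul, abs_of_pos hz0]
  have a1 := abs_nonneg Zm
  have a2 := abs_nonneg Zp
  have a3 := abs_nonneg X
  have a4 : 0 ≤ z * |Zp| := mul_nonneg hz0.le a2
  rcases h with h | h | h
  · left
    have h1 : |y - z| ≤ η * z := by
      have : η * u ≤ η * z := mul_le_mul_of_nonneg_left hz.1 hη.le
      rw [abs_le]
      constructor <;> linarith [hy.1, hy.2, hz.1, hz.2]
    have h2 : |y - z| * |X| ≤ η * z * |X| := mul_le_mul_of_nonneg_right h1 a3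
    exact le_of_mul_le_mul_left (a := z) (by linarith) hz0
  · left
    have h1 : |y - z| ≤ v := by
      rw [abs_le]
      constructor <;> linarith [hy.1, hy.2, hz.1, hz.2]
    have h2 : |y - z| * |X| ≤ v * |X| := mul_le_mul_of_nonneg_right h1 a3
    have h3 : η * |Zm| ≤ η * (v * |X|) := mul_le_mul_of_nonneg_left (by linarith) hη.le
    exact le_of_mul_le_mul_left (a := v) (by linarith) hv0
  · right
    have h1 : u * |y - z| ≤ y * z := by
      have b1 : u * y ≤ z * y := mul_le_mul_of_nonneg_right hz.1 hy0.le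
      have b2 : u * z ≤ y * z := mul_le_mul_of_nonneg_right hy.1 hz0.le
      have b3 : 0 < u * y := mul_pos hu hy0
      have b4 : 0 < u * z := mul_pos hu hz0
      rcases abs_cases (y - z) with h' | h' <;> rw [h'.1] <;> linarith
    have h2 : u * |y - z| * |X| ≤ y * z * |X| := mul_le_mul_of_nonneg_right h1 a3
    have h3 : u * (z * |Zp|) ≤ u * (|y - z| * |X|) := mul_le_mul_of_nonneg_left (by linarith) hu.le
    have h4 : η * (u * (z * |Zp|)) ≤ η * (y * z * |X|) :=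
      mul_le_mul_of_nonneg_left (by linarith) hη.le
    have h5 : z * |Zm| ≤ z * (η * u * |Zp|) := mul_le_mul_of_nonneg_left h hz0.le
    rw [abs_mul, abs_of_pos hy0]
    exact le_of_mul_le_mul_left (a := z) (by linarith) hz0

theorem rolea_geom {q base : ℝ} (hq : 0 < q) (v : ℕ → ℝ) (S : Finset ℕ) :
    ∀ top : ℝ, (∀ i ∈ S, ∀ j ∈ S, i < j → q * v i ≤ v j) → (∀ j ∈ S, base < v j ∧ v j ≤ top) →
      S.Nonempty → q ^ #S * base < q * top := by
  induction S using Finset.induction_on_max with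
  | empty => intro _ _ _ h; simp at h
  | insert a s ha ih =>
    intro top h1 h2 _
    have has : a ∉ s := fun h => lt_irrefl _ (ha a h)
    have h3 := h2 a (mem_insert_self _ _)
    rw [card_insert_of_notMem has, pow_succ, mul_comm _ q, mul_assoc]
    refine mul_lt_mul_of_pos_left ?_ hq
    rcases s.eq_empty_or_nonempty with rfl | hs
    · simpa using h3.1.trans_le h3.2
    · have := ih (v a / q) (fun i hi j hj => h1 i (mem_insert_of_mem hi) j (mem_insert_of_mem hj))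
        (fun j hj => ⟨(h2 j (mem_insert_of_mem hj)).1, by
          rw [le_div_iff₀ hq, mul_comm]
          exact h1 j (mem_insert_of_mem hj) a (mem_insert_self _ _) (ha j hj)⟩) hs
      rw [mul_div_cancel₀ _ hq.ne'] at this
      exact this.trans_le h3.2

/-- Few long intervals near a given scale.
Hint: take `E₀` with `1 ≤ η^2 (1 + η)^E₀`, `E = 3 * (E₀ + 2)`. If `S` is not empty then `0 < P`, `0 < Q`.
Split `S` by the residue mod `3` (`card_eq_sum_card_fiberwise` or `pigeon`). General lemma by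
`Finset.induction_on_max`, for all `top`: if `q * v i ≤ v j` for `i < j` in `S'`, `base < v j ≤ top` on `S'`,
`0 ≤ base`, `1 ≤ q` and `S'` is not empty, then `q ^ (#S' - 1) * base < top`. Apply it to a residue class
with its maximum `j₀` removed, `v j = u (j + 3)`, `q = 1 + η`, `base = η P / Q`, `top = P / (η Q)`
(`u (j + 3) ≤ u j₀ < top`). -/
theorem role_long {η : ℝ} (hη : 0 < η) : ∃ E : ℕ, ∀ (u : ℕ → ℝ) (S : Finset ℕ) (P Q : ℝ),
    0 ≤ P → 0 ≤ Q → (∀ i ∈ S, ∀ j ∈ S, i + 3 ≤ j → u (i + 3) ≤ u j) →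
    (∀ j ∈ S, 0 < u j ∧ (1 + η) * u j < u (j + 3) ∧ η * P < u (j + 3) * Q ∧ η * u j * Q < P) →
    #S ≤ E := by
  have hq : (1 : ℝ) < 1 + η := by linarith
  obtain ⟨E₀, hE₀⟩ := pow_unbounded_of_one_lt ((η ^ 2)⁻¹) hq
  refine ⟨3 * (E₀ + 2), fun u S P Q hP hQ h1 h2 => ?_⟩
  obtain ⟨T, hTS, hT, hr⟩ := pigeon S (fun j => j % 3) (N := 3) (by
    refine (card_le_card (t := range 3) fun x hx => ?_).trans (by simp)
    obtain ⟨j, -, rfl⟩ := mem_image.1 hx
    exact mem_range.2 (Nat.mod_lt _ (by norm_num)))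
  refine hT.trans (Nat.mul_le_mul_left 3 ?_)
  rcases T.eq_empty_or_nonempty with rfl | hne
  · simp
  set j₀ := T.max' hne with hj₀
  have hm : j₀ ∈ T := T.max'_mem hne
  rw [← card_erase_add_one hm]
  rcases (T.erase j₀).eq_empty_or_nonempty with he | hne'
  · rw [he]; simp
  obtain ⟨k1, k2, k3, k4⟩ := h2 j₀ (hTS hm)
  have hP0 : 0 < P := lt_of_le_of_lt (by positivity) k4
  have hQ0 : 0 < Q := by
    rcases hQ.eq_or_lt with rfl | h
    · have : 0 < η * P := mul_pos hη hP0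
      linarith
    · exact h
  have h3 : ∀ i ∈ T, ∀ j ∈ T, i < j → u (i + 3) ≤ u j := fun i hi j hj hij =>
    h1 i (hTS hi) j (hTS hj) (by have := hr i hi j hj; omega)
  have h4 := rolea_geom (q := 1 + η) (base := η * P / Q) (by linarith) (fun j => u (j + 3))
    (T.erase j₀) (P / (η * Q)) (fun i hi j hj hij => by
      have b1 := h3 i (mem_of_mem_erase hi) j (mem_of_mem_erase hj) hij
      have b2 := (h2 j (hTS (mem_of_mem_erase hj))).2.1
      exact (mul_le_mul_of_nonneg_left b1 (by linarith)).trans b2.le)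
    (fun j hj => ⟨(div_lt_iff₀ hQ0).2 (h2 j (hTS (mem_of_mem_erase hj))).2.2.1, by
      refine (h3 j (mem_of_mem_erase hj) j₀ hm (lt_of_le_of_ne (T.le_max' j (mem_of_mem_erase hj))
        (ne_of_mem_erase hj))).trans ?_
      rw [le_div_iff₀ (mul_pos hη hQ0)]
      linarith⟩) hne'
  have h5 : (1 + η) ^ #(T.erase j₀) < (1 + η) * (η ^ 2)⁻¹ := by
    have e1 : (1 + η) * (P / (η * Q)) = (1 + η) * (η ^ 2)⁻¹ * (η * P / Q) := by field_simp
    rw [e1] at h4
    exact lt_of_mul_lt_mul_right h4 (by positivity)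
  have h6 : (1 + η) ^ #(T.erase j₀) < (1 + η) ^ (E₀ + 1) := by
    rw [pow_succ, mul_comm ((1 + η) ^ E₀)]
    exact h5.trans (mul_lt_mul_of_pos_left hE₀ (by linarith))
  have := (pow_lt_pow_iff_right₀ hq).1 h6
  omega

/-- A function without weak sign change on a block has a constant strict sign.
Hint: `Nat.le_induction`; `0 < g s * g i` for `s < i < t`, and `g s ≠ 0`. -/
theorem role_sign {g : ℕ → ℝ} {s t : ℕ} (hst : s + 2 ≤ t)
    (h : ∀ k, s ≤ k → k + 1 < t → 0 < g k * g (k + 1)) :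
    ∀ i j, s ≤ i → i < t → s ≤ j → j < t → 0 < g i * g j := by
  have tr : ∀ x y z : ℝ, 0 < y * x → 0 < y * z → 0 < x * z := fun x y z h1 h2 => by
    have h3 : 0 < y * y * (x * z) := by
      have := mul_pos h1 h2
      linarith
    by_contra hc
    have := mul_nonpos_of_nonneg_of_nonpos (mul_self_nonneg y) (not_lt.1 hc)
    linarith
  have h0 : ∀ i, s ≤ i → i < t → 0 < g s * g i := by
    intro i hi
    induction i, hi using Nat.le_induction with
    | base =>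
      intro _
      have := h s le_rfl (by omega)
      exact tr _ (g (s + 1)) _ (by linarith) (by linarith)
    | succ k hk ih =>
      intro hk'
      exact tr _ (g k) _ (by linarith [ih (by omega)]) (h k hk hk')
  intro i j h1 h2 h3 h4
  exact tr _ (g s) _ (h0 i h1 h2) (h0 j h3 h4)

open Classical in
/-- Few blocks are split by a family of lines through `o`.
Hint: the set is contained in `{na / K}` together with the image under `k ↦ k / K` of
`Fam.biUnion fun f => {k ∈ range na | k + 1 < na ∧ ev f (a k) * ev f (a (k+1)) ≤ 0}` (use `role_sign`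
with `s = I * K`, `t = I * K + K`; an incomplete block with `I * K < na < I * K + K` has `I = na / K`). -/
theorem role_split {d na K : ℕ} (hK : 2 ≤ K) {a : ℕ → ℝ × ℝ} {o : ℝ × ℝ} (h : Few d na a o)
    (Fam : Finset (ℝ × ℝ × ℝ)) (hF : ∀ f ∈ Fam, (f.1 ≠ 0 ∨ f.2.1 ≠ 0) ∧ ev f o = 0) :
    ∃ Bad : Finset ℕ, #Bad ≤ 1 + d * #Fam ∧ ∀ i < na, i / K ∉ Bad → ∀ j, j / K = i / K →
      j < na ∧ ∀ f ∈ Fam, 0 < ev f (a i) * ev f (a j) := by
  refine ⟨insert (na / K) ((Fam.biUnion fun f =>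
    {k ∈ range na | k + 1 < na ∧ ev f (a k) * ev f (a (k + 1)) ≤ 0}).image (· / K)), ?_, ?_⟩
  · refine (card_insert_le _ _).trans ?_
    rw [add_comm, mul_comm]
    refine Nat.add_le_add_left (card_image_le.trans ?_) 1
    exact card_biUnion_le_card_mul _ _ _ fun f hf => h f (hF f hf).1 (hF f hf).2
  · intro i hi hB j hj
    rw [mem_insert, not_or] at hB
    have hK0 : 0 < K := by omega
    have h1 : i / K < na / K := lt_of_le_of_ne (Nat.div_le_div_right hi.le) hB.1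
    have h2 : i / K * K + K ≤ na := by
      have := (Nat.le_div_iff_mul_le hK0).1 (Nat.succ_le_of_lt h1)
      rwa [Nat.succ_mul] at this
    have h3 : ∀ k, k / K = i / K → i / K * K ≤ k ∧ k < i / K * K + K := fun k hk => by
      rw [← hk]
      exact ⟨Nat.div_mul_le_self k K, Nat.lt_div_mul_add hK0⟩
    refine ⟨(h3 j hj).2.trans_le h2, fun f hf => ?_⟩
    refine role_sign (g := fun k => ev f (a k)) (s := i / K * K) (t := i / K * K + K) (by omega)
      (fun k hk1 hk2 => ?_) i j (h3 i rfl).1 (h3 i rfl).2 (h3 j hj).1 (h3 j hj).2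
    by_contra hc
    refine hB.2 (mem_image.2 ⟨k, mem_biUnion.2 ⟨f, hf, mem_filter.2
      ⟨mem_range.2 (by omega), by omega, not_lt.1 hc⟩⟩, ?_⟩)
    exact Nat.div_eq_of_lt_le hk1 (by rw [Nat.succ_mul]; omega)

end RoleA

section RoleB


open Finset

/-- the line through `o` with slope parameter `s` -/
def ft (o : ℝ × ℝ) (s : ℝ) : ℝ × ℝ × ℝ := (1, -s, s * o.2 - o.1)

/-- the horizontal line through `o` -/
def hz (o : ℝ × ℝ) : ℝ × ℝ × ℝ := (0, 1, -o.2)

/-- slope parameter of the line from `o` to `p` -/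
noncomputable def tt (o p : ℝ × ℝ) : ℝ := (p.1 - o.1) / (p.2 - o.2)

theorem ev_ft {o p : ℝ × ℝ} (h : p.2 - o.2 ≠ 0) (s : ℝ) :
    ev (ft o s) p = (p.2 - o.2) * (tt o p - s) := by
  simp only [ev, ft, tt]; field_simp; ring

theorem ev_ft_o (o : ℝ × ℝ) (s : ℝ) : ev (ft o s) o = 0 := by simp only [ev, ft]; ring

theorem ev_hz (o p : ℝ × ℝ) : ev (hz o) p = p.2 - o.2 := by simp only [ev, hz]; ring

theorem ev_ln_tt {o p q : ℝ × ℝ} (hp : p.2 - o.2 ≠ 0) (hq : q.2 - o.2 ≠ 0) :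
    ev (ln o p) q = (p.2 - o.2) * (q.2 - o.2) * (tt o p - tt o q) := by
  simp only [ev, ln, tt]; field_simp; ring

theorem blk_card {K : ℕ} (hK : 0 < K) {A S : Finset ℕ} (h : ∀ k ∈ A, k / K ∈ S) :
    #A ≤ #S * K := by
  rw [← card_range K, ← card_product]
  refine card_le_card_of_injOn (fun k => (k / K, k % K))
    (fun k hk => mem_product.2 ⟨h k hk, mem_range.2 (Nat.mod_lt _ hK)⟩) fun k _ l _ e => ?_
  obtain ⟨e1, e2⟩ := Prod.mk.inj e
  rw [← Nat.div_add_mod k K, ← Nat.div_add_mod l K, e1, e2]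

theorem grp_card {m N c : ℕ} {S : Finset ℕ} (hS : ∀ j ∈ S, j ≤ N)
    (h : ∀ g, #{j ∈ S | j / m = g} ≤ c) : #S ≤ (N / m + 1) * c := by
  rw [mul_comm]
  refine (card_le_mul_card_image (f := fun j => j / m) S c fun g _ => h g).trans
    (Nat.mul_le_mul_left _ ?_)
  rw [← card_range (N / m + 1)]
  refine card_le_card fun g hg => ?_
  obtain ⟨j, hj, rfl⟩ := mem_image.1 hg
  exact mem_range.2 (Nat.lt_succ_of_le (Nat.div_le_div_right (hS j hj)))

/-- projective coordinate inside a group of intervals -/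
noncomputable def ph (lo hi s : ℝ) : ℝ := (s - lo) / (hi - s)

theorem ph_mono {lo hi s t : ℝ} (h0 : lo < hi) (h1 : s ≤ t) (h2 : t < hi) :
    ph lo hi s ≤ ph lo hi t := by
  unfold ph
  rw [div_le_div_iff₀ (by linarith) (by linarith)]
  nlinarith

theorem ph_pos {lo hi s : ℝ} (h1 : lo < s) (h2 : s < hi) : 0 < ph lo hi s :=
  div_pos (by linarith) (by linarith)

/-- the interval number `j` is good for the point `r` -/
def Good (β : ℕ → ℝ) (m : ℕ) (η : ℝ) (o r : ℝ × ℝ) (j : ℕ) : Prop :=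
  (2 ≤ j % m ∧ j % m + 3 ≤ m) ∧
  0 ≤ ev (ft o (β (j / m * m))) r * ev (ft o (β (j / m * m + m))) r ∧
  ¬((1 + η) * ph (β (j / m * m)) (β (j / m * m + m)) (β (j - 1)) <
      ph (β (j / m * m)) (β (j / m * m + m)) (β (j + 2)) ∧
    η * |ev (ft o (β (j / m * m))) r| <
      ph (β (j / m * m)) (β (j / m * m + m)) (β (j + 2)) * |ev (ft o (β (j / m * m + m))) r| ∧
    η * ph (β (j / m * m)) (β (j / m * m + m)) (β (j - 1)) * |ev (ft o (β (j / m * m + m))) r| <
      |ev (ft o (β (j / m * m))) r|)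

theorem wedge_uniq {o r : ℝ × ℝ} {l h l' h' : ℝ} (h1 : l < h) (h2 : h ≤ l') (h3 : l' < h')
    (e1 : ev (ft o l) r * ev (ft o h) r < 0) (e2 : ev (ft o l') r * ev (ft o h') r < 0) :
    False := by
  by_cases hr : r.2 - o.2 = 0
  · have : ∀ s, ev (ft o s) r = r.1 - o.1 := fun s => by
      simp only [ev, ft]; linear_combination (-s) * hr
    rw [this, this] at e1
    nlinarith [mul_self_nonneg (r.1 - o.1)]
  · rw [ev_ft hr, ev_ft hr] at e1 e2
    have hp := mul_self_pos.2 hr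
    have a1 : (tt o r - l) * (tt o r - h) < 0 := by
      by_contra hc
      nlinarith [mul_nonneg hp.le (not_lt.1 hc)]
    have a2 : (tt o r - l') * (tt o r - h') < 0 := by
      by_contra hc
      nlinarith [mul_nonneg hp.le (not_lt.1 hc)]
    have b1 : tt o r < h := by
      by_contra hc
      nlinarith [mul_nonneg (show 0 ≤ tt o r - l by linarith) (sub_nonneg.2 (not_lt.1 hc))]
    nlinarith [mul_pos (show 0 < l' - tt o r by linarith) (show 0 < h' - tt o r by linarith)]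

open Classical in
theorem bad_card {η : ℝ} (hη : 0 < η) : ∃ E : ℕ, ∀ (β : ℕ → ℝ), StrictMono β → ∀ m, 0 < m →
    ∀ (o r : ℝ × ℝ) (N : ℕ), #{j ∈ range (N + 1) | ¬Good β m η o r j} ≤ (N / m + 1) * E + m := by
  obtain ⟨E, hE⟩ := role_long hη
  refine ⟨4 + E, fun β hβ m hm o r N => ?_⟩
  set B2 := {j ∈ range (N + 1) |
    ev (ft o (β (j / m * m))) r * ev (ft o (β (j / m * m + m))) r < 0} with hB2
  have h2 : #B2 ≤ m := by
    rcases B2.eq_empty_or_nonempty with h | ⟨j, hj⟩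
    · simp [h]
    · have key : ∀ i ∈ B2, ∀ k ∈ B2, ¬i / m < k / m := fun i hi k hk hlt =>
        wedge_uniq (hβ (Nat.lt_add_of_pos_right hm))
          (hβ.monotone (by nlinarith [Nat.succ_le_of_lt hlt])) (hβ (Nat.lt_add_of_pos_right hm))
          (mem_filter.1 hi).2 (mem_filter.1 hk).2
      have := blk_card hm (A := B2) (S := {j / m}) fun k hk => mem_singleton.2
        (le_antisymm (not_lt.1 (key j hj k hk)) (not_lt.1 (key k hk j hj)))
      simpa using this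
  refine le_trans (card_le_card (t := ({j ∈ range (N + 1) | ¬Good β m η o r j} \ B2) ∪ B2)
    fun j hj => by simp only [sdiff_union_self_eq_union, mem_union]; exact Or.inl hj)
    ((card_union_le _ _).trans (Nat.add_le_add ?_ h2))
  refine grp_card (fun j hj => Nat.le_of_lt_succ (mem_range.1 (mem_filter.1 (mem_sdiff.1 hj).1).1))
    fun g => ?_
  set S := {j ∈ ({j ∈ range (N + 1) | ¬Good β m η o r j} \ B2) | j / m = g} with hS
  rw [← card_filter_add_card_filter_not (s := S) fun j => ¬(2 ≤ j % m ∧ j % m + 3 ≤ m)]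
  refine Nat.add_le_add ?_ ?_
  · refine le_trans (card_le_card (t := {g * m, g * m + 1, g * m + (m - 2), g * m + (m - 1)})
      fun j hj => ?_) card_le_four
    obtain ⟨h1, h3⟩ := mem_filter.1 hj
    have e1 := (mem_filter.1 h1).2
    have e2 := Nat.div_add_mod' j m
    have e3 := Nat.mod_lt j hm
    rw [e1] at e2
    simp only [mem_insert, mem_singleton]
    omega
  · have pos : ∀ j ∈ {j ∈ S | ¬¬(2 ≤ j % m ∧ j % m + 3 ≤ m)},
        g * m < j - 1 ∧ j + 2 < g * m + m := fun j hj => by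
      obtain ⟨h1, h3⟩ := mem_filter.1 hj
      have e1 := (mem_filter.1 h1).2
      have e2 := Nat.div_add_mod' j m
      rw [e1] at e2
      omega
    have lh : β (g * m) < β (g * m + m) := hβ (Nat.lt_add_of_pos_right hm)
    refine hE (fun k => ph (β (g * m)) (β (g * m + m)) (β (k - 1))) _
      |ev (ft o (β (g * m))) r| |ev (ft o (β (g * m + m))) r| (abs_nonneg _) (abs_nonneg _)
      (fun i _ j hj hij => ph_mono lh (hβ.monotone (by omega)) (hβ (by have := pos j hj; omega)))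
      fun j hj => ⟨ph_pos (hβ (pos j hj).1) (hβ (by have := pos j hj; omega)), ?_⟩
    obtain ⟨h1, h3⟩ := mem_filter.1 hj
    obtain ⟨h4, e1⟩ := mem_filter.1 h1
    obtain ⟨h5, h6⟩ := mem_sdiff.1 h4
    obtain ⟨h7, h8⟩ := mem_filter.1 h5
    have h9 : 0 ≤ ev (ft o (β (j / m * m))) r * ev (ft o (β (j / m * m + m))) r :=
      not_lt.1 fun h => h6 (mem_filter.2 ⟨h7, h⟩)
    have h10 := not_not.1 fun h => h8 ⟨not_not.1 h3, h9, h⟩
    rw [e1] at h10
    exact h10

theorem near_of_good {β : ℕ → ℝ} (hβ : StrictMono β) {m j : ℕ} {η : ℝ} (hη : 0 < η)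
    {o a b c : ℝ × ℝ} {w : ℝ × ℝ × ℝ} (hd : Dep w a b c) (hg : Good β m η o c j)
    (ha : a.2 - o.2 ≠ 0) (hb : b.2 - o.2 ≠ 0) (ha1 : β (j - 1) ≤ tt o a) (ha2 : tt o a ≤ β (j + 2))
    (hb1 : β (j - 1) ≤ tt o b) (hb2 : tt o b ≤ β (j + 2)) :
    ∃ s : Bool, Near η (w.1 * ev (ft o (β (j / m * m + if s then m else 0))) a)
      (w.2.2 * ev (ft o (β (j / m * m + if s then m else 0))) c) := by
  obtain ⟨⟨p1, p2⟩, hs, hn⟩ := hg
  have e2 := Nat.div_add_mod' j m
  have l1 : β (j / m * m) < β (j - 1) := hβ (by omega)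
  have l2 : β (j + 2) < β (j / m * m + m) := hβ (by omega)
  have l3 : β (j - 1) < β (j + 2) := hβ (by omega)
  obtain ⟨w1, w2, w3, hw⟩ := hd
  have d1 := hw (ft o (β (j / m * m)))
  have d2 := hw (ft o (β (j / m * m + m)))
  suffices h : Near η (w.1 * ev (ft o (β (j / m * m + m))) a)
      (w.2.2 * ev (ft o (β (j / m * m + m))) c) ∨ Near η (w.1 * ev (ft o (β (j / m * m))) a)
      (w.2.2 * ev (ft o (β (j / m * m))) c) by
    rcases h with h | h
    · exact ⟨true, h⟩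
    · exact ⟨false, h⟩
  generalize β (j / m * m) = lo at *
  generalize β (j / m * m + m) = hi at *
  generalize β (j - 1) = u at *
  generalize β (j + 2) = v at *
  have lh : lo < hi := by linarith
  have ka : ev (ft o lo) a = -(ph lo hi (tt o a) * ev (ft o hi) a) := by
    have : hi - tt o a ≠ 0 := by intro h; linarith
    rw [ev_ft ha, ev_ft ha, ph]; field_simp; ring
  have kb : ev (ft o lo) b = -(ph lo hi (tt o b) * ev (ft o hi) b) := by
    have : hi - tt o b ≠ 0 := by intro h; linarith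
    rw [ev_ft hb, ev_ft hb, ph]; field_simp; ring
  have na : w.1 * ev (ft o hi) a ≠ 0 := by
    rw [ev_ft ha]
    exact mul_ne_zero w1 (mul_ne_zero ha (by intro h; linarith))
  have na' : w.1 * ev (ft o lo) a ≠ 0 := by
    rw [ev_ft ha]
    exact mul_ne_zero w1 (mul_ne_zero ha (by intro h; linarith))
  have hw3 : 0 < |w.2.2| := abs_pos.2 w3
  have := role_alg (η := η) (u := ph lo hi u) (v := ph lo hi v) (y := ph lo hi (tt o a))
    (z := ph lo hi (tt o b)) (X := w.1 * ev (ft o hi) a) (Zm := w.2.2 * ev (ft o lo) c)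
    (Zp := w.2.2 * ev (ft o hi) c) hη (ph_pos l1 (by linarith))
    ⟨ph_mono lh ha1 (by linarith), ph_mono lh ha2 l2⟩
    ⟨ph_mono lh hb1 (by linarith), ph_mono lh hb2 l2⟩
    (by rw [ka, kb] at d1; linear_combination d1 + ph lo hi (tt o b) * d2)
    (by nlinarith [mul_nonneg (mul_self_nonneg w.2.2) hs])
    (by
      by_contra hc
      rw [not_or, not_or, not_le, not_le, not_le, abs_mul, abs_mul] at hc
      refine hn ⟨hc.1, ?_, ?_⟩
      · refine lt_of_mul_lt_mul_left ?_ hw3.le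
        linarith [hc.2.1]
      · refine lt_of_mul_lt_mul_left ?_ hw3.le
        linarith [hc.2.2])
  rcases this with h | h
  · exact Or.inl ⟨na, h⟩
  · refine Or.inr ⟨na', h.trans_eq ?_⟩
    rw [ka, ← abs_neg]
    congr 2
    ring

open Classical in
theorem role_rank (P : Finset (ℝ × ℝ)) (o : ℝ × ℝ) : ∃ (e : ℕ → ℝ) (rk : ℝ × ℝ → ℕ) (N : ℕ),
    StrictMono e ∧ N ≤ #P ∧ (∀ p ∈ P, p.2 - o.2 ≠ 0 → rk p < N ∧ e (rk p) = tt o p) ∧
      ∀ k < N, ∃ p ∈ P, p.2 - o.2 ≠ 0 ∧ tt o p = e k := by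
  obtain ⟨e, he, h1, h2⟩ := role_enum (({p ∈ P | p.2 - o.2 ≠ 0}).image (tt o))
  choose! rk h3 h4 using h2
  refine ⟨e, fun p => rk (tt o p), #(({p ∈ P | p.2 - o.2 ≠ 0}).image (tt o)), he,
    card_image_le.trans (card_filter_le _ _), fun p hp h => ?_, fun k hk => ?_⟩
  · have : tt o p ∈ ({p ∈ P | p.2 - o.2 ≠ 0}).image (tt o) :=
      mem_image_of_mem _ (mem_filter.2 ⟨hp, h⟩)
    exact ⟨h3 _ this, h4 _ this⟩
  · obtain ⟨p, hp, h⟩ := mem_image.1 (h1 k hk)
    exact ⟨p, (mem_filter.1 hp).1, (mem_filter.1 hp).2, h⟩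

open Classical in
theorem role_adj {P : Finset (ℝ × ℝ)} {o a b : ℝ × ℝ} {e : ℕ → ℝ} (he : StrictMono e)
    {N M i j : ℕ} (h : ∀ k < N, ∃ p ∈ P, p.2 - o.2 ≠ 0 ∧ tt o p = e k) (ha : a.2 - o.2 ≠ 0)
    (hb : b.2 - o.2 ≠ 0) (hi : i < N ∧ e i = tt o a) (hj : j < N ∧ e j = tt o b) {l : ℝ}
    (hl : l ≠ 0) (hc : #{p ∈ P | 0 < l * (ev (ln o p) a * ev (ln o p) b)} < M) (h1 : M ≤ i)
    (h2 : M ≤ j) : i ≤ j + M ∧ j ≤ i + M := by
  choose! f f1 f2 f3 using h
  have key : ∀ S : Finset ℕ, (∀ k ∈ S, k < N ∧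
      0 < l * ((a.2 - o.2) * (b.2 - o.2)) * ((e k - e i) * (e k - e j))) → #S < M := by
    intro S hS
    refine lt_of_le_of_lt (card_le_card_of_injOn f (fun k hk => ?_) fun k hk k' hk' e1 => ?_) hc
    · obtain ⟨k1, k2⟩ := hS k hk
      refine mem_coe.2 (mem_filter.2 ⟨f1 k k1, ?_⟩)
      rw [ev_ln_tt (f2 k k1) ha, ev_ln_tt (f2 k k1) hb, f3 k k1, ← hi.2, ← hj.2]
      have := mul_pos (mul_self_pos.2 (f2 k k1)) k2
      linarith
    · exact he.injective (by rw [← f3 k (hS k hk).1, ← f3 k' (hS k' hk').1, e1])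
  rcases lt_or_gt_of_ne (mul_ne_zero hl (mul_ne_zero ha hb)) with hW | hW
  · constructor <;> by_contra hn
    · have := key (Ioo j i) fun k hk => ⟨(mem_Ioo.1 hk).2.trans hi.1, mul_pos_of_neg_of_neg hW
        (mul_neg_of_neg_of_pos (sub_neg.2 (he (mem_Ioo.1 hk).2)) (sub_pos.2 (he (mem_Ioo.1 hk).1)))⟩
      rw [Nat.card_Ioo] at this
      omega
    · have := key (Ioo i j) fun k hk => ⟨(mem_Ioo.1 hk).2.trans hj.1, mul_pos_of_neg_of_neg hW
        (mul_neg_of_pos_of_neg (sub_pos.2 (he (mem_Ioo.1 hk).1)) (sub_neg.2 (he (mem_Ioo.1 hk).2)))⟩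
      rw [Nat.card_Ioo] at this
      omega
  · have := key (range M) fun k hk => ⟨((mem_range.1 hk).trans_le h1).trans hi.1, mul_pos hW
      (mul_pos_of_neg_of_neg (sub_neg.2 (he ((mem_range.1 hk).trans_le h1)))
        (sub_neg.2 (he ((mem_range.1 hk).trans_le h2))))⟩
    simp at this

theorem role_cnt {d na M : ℕ} {a : ℕ → ℝ × ℝ} {o : ℝ × ℝ} (hF : Few d na a o) {e : ℕ → ℝ}
    {rk : ℝ × ℝ → ℕ} (hrk : ∀ i < na, (a i).2 - o.2 ≠ 0 → e (rk (a i)) = tt o (a i)) (hM : 0 < M)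
    {S A : Finset ℕ} (hA : ∀ i ∈ A, i < na ∧ (a i).2 - o.2 ≠ 0 ∧ rk (a i) / M ∈ S) :
    #A ≤ (d + 1) * (#S * M) := by
  refine (card_le_mul_card_image (f := fun i => rk (a i)) A (d + 1) fun k _ => ?_).trans
    (Nat.mul_le_mul_left _ (blk_card hM fun k hk => ?_))
  · refine hF.zero (f := ft o (e k)) (Or.inl one_ne_zero) (ev_ft_o _ _) _ fun i hi => ?_
    obtain ⟨h1, h2⟩ := mem_filter.1 hi
    obtain ⟨h3, h4, -⟩ := hA i h1
    exact ⟨h3, by rw [ev_ft h4, ← hrk i h3 h4, h2, sub_self, mul_zero]⟩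
  · obtain ⟨i, hi, rfl⟩ := mem_image.1 hk
    exact (hA i hi).2.2

theorem role_same {o p q : ℝ × ℝ} {e : ℕ → ℝ} (he : StrictMono e) {i j M : ℕ} (hM : 0 < M)
    (h0 : 0 < (p.2 - o.2) * (q.2 - o.2)) (hp : e i = tt o p) (hq : e j = tt o q)
    (h : 0 < ev (ft o (e (j / M * M))) p * ev (ft o (e (j / M * M))) q) : j / M ≤ i / M := by
  rw [Nat.le_div_iff_mul_le hM]
  by_contra hn
  have h1 := he (not_le.1 hn)
  have h2 := he.monotone (Nat.div_mul_le_self j M)
  rw [ev_ft (left_ne_zero_of_mul h0.ne'), ev_ft (right_ne_zero_of_mul h0.ne'), ← hp, ← hq] at h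
  nlinarith [mul_nonneg h0.le (mul_nonneg (sub_pos.2 h1).le (sub_nonneg.2 h2))]

theorem role_blk {d na K M N : ℕ} (hK : 2 ≤ K) (hM : 0 < M) {a : ℕ → ℝ × ℝ} {o : ℝ × ℝ}
    (hF : Few d na a o) {e : ℕ → ℝ} (he : StrictMono e) {rk : ℝ × ℝ → ℕ}
    (hrk : ∀ i < na, (a i).2 - o.2 ≠ 0 → rk (a i) < N ∧ e (rk (a i)) = tt o (a i)) :
    ∃ Bad : Finset ℕ, #Bad ≤ 1 + d * (N / M + 2) ∧ ∀ i < na, i / K ∉ Bad → ∀ j, j / K = i / K →
      j < na ∧ (a j).2 - o.2 ≠ 0 ∧ rk (a j) / M = rk (a i) / M := by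
  classical
  obtain ⟨Bad, h1, h2⟩ := role_split hK hF
    (insert (hz o) ((range (N / M + 1)).image fun j => ft o (e (j * M)))) fun f hf => by
      rcases mem_insert.1 hf with rfl | hf
      · exact ⟨Or.inr one_ne_zero, by rw [ev_hz, sub_self]⟩
      · obtain ⟨j, -, rfl⟩ := mem_image.1 hf
        exact ⟨Or.inl one_ne_zero, ev_ft_o _ _⟩
  refine ⟨Bad, h1.trans (Nat.add_le_add_left (Nat.mul_le_mul_left _ ((card_insert_le _ _).trans
    (Nat.succ_le_succ (card_image_le.trans_eq (card_range _))))) _), fun i hi hb j hj => ?_⟩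
  obtain ⟨h3, h4⟩ := h2 i hi hb j hj
  have h5 := h4 _ (mem_insert_self _ _)
  rw [ev_hz, ev_hz] at h5
  obtain ⟨i1, i2⟩ := hrk i hi (left_ne_zero_of_mul h5.ne')
  obtain ⟨j1, j2⟩ := hrk j h3 (right_ne_zero_of_mul h5.ne')
  have h6 : ∀ k < N, 0 < ev (ft o (e (k / M * M))) (a i) * ev (ft o (e (k / M * M))) (a j) :=
    fun k hk => h4 _ (mem_insert_of_mem (mem_image.2
      ⟨k / M, mem_range.2 (Nat.lt_succ_of_le (Nat.div_le_div_right hk.le)), rfl⟩))
  exact ⟨h3, right_ne_zero_of_mul h5.ne', le_antisymm (role_same he hM h5 i2 j2 (h6 _ j1))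
    (role_same he hM (by rwa [mul_comm]) j2 i2 (by rw [mul_comm]; exact h6 _ i1))⟩

theorem role_num {ε : ℝ} {n N σ m d E K x : ℕ} (hσ : 12 * (d : ℝ) ≤ ε * σ)
    (hm : 6 * ((d : ℝ) + 1) * E ≤ ε * m) (hσ0 : 0 < σ) (hm0 : 0 < m) (hN : N ≤ 2 * n)
    (hn : 3 * ((2 * K * (1 + 2 * d) + (d + 1) * (1 + E + m) * (σ * K) : ℕ) : ℝ) ≤ ε * n)
    (hx : x ≤ 2 * ((1 + d * (N / (σ * K) + 2)) * K) + (d + 1) * (1 * (σ * K)) +
      (d + 1) * (((N / (σ * K) / m + 1) * E + m) * (σ * K))) : (x : ℝ) ≤ ε * n := by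
  have h1 : N / (σ * K) * (σ * K) ≤ 2 * n := (Nat.div_mul_le_self _ _).trans hN
  have h2 : N / (σ * K) / m * m * (σ * K) ≤ 2 * n :=
    (Nat.mul_le_mul_right _ (Nat.div_mul_le_self _ _)).trans h1
  generalize N / (σ * K) / m = q at *
  generalize N / (σ * K) = p at *
  have h1' : (p : ℝ) * (σ * K) ≤ 2 * n := by exact_mod_cast h1
  have h2' : (q : ℝ) * m * (σ * K) ≤ 2 * n := by exact_mod_cast h2
  have hx' : (x : ℝ) ≤ 2 * ((1 + d * (p + 2)) * K) + (d + 1) * (1 * (σ * K)) +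
      (d + 1) * (((q + 1) * E + m) * (σ * K)) := by exact_mod_cast hx
  have s0 : (0 : ℝ) < σ := by exact_mod_cast hσ0
  have m0 : (0 : ℝ) < m := by exact_mod_cast hm0
  have a1 : 6 * ((d : ℝ) * p * K) ≤ ε * n := by
    refine le_of_mul_le_mul_left ?_ s0
    have := mul_le_mul_of_nonneg_left h1' (show (0 : ℝ) ≤ 6 * d by positivity)
    have := mul_le_mul_of_nonneg_left hσ (show (0 : ℝ) ≤ n by positivity)
    linarith
  have a2 : 3 * (((d : ℝ) + 1) * E * q * (σ * K)) ≤ ε * n := by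
    refine le_of_mul_le_mul_left ?_ m0
    have := mul_le_mul_of_nonneg_left h2' (show (0 : ℝ) ≤ 3 * ((d + 1) * E) by positivity)
    have := mul_le_mul_of_nonneg_left hm (show (0 : ℝ) ≤ n by positivity)
    linarith
  push_cast at hn
  linarith

open Classical in
theorem role_local (d ω : ℕ) {ε : ℝ} (hε : 0 < ε) : ∃ R : ℕ, ∀ K : ℕ, 2 ≤ K → ∀ η : ℝ, 0 < η →
    ∃ n₀ : ℕ, ∀ n na nb : ℕ, n₀ ≤ n → na ≤ n → nb ≤ n →
    ∀ (a b c : ℕ → ℝ × ℝ) (o : ℝ × ℝ) (T : Finset (ℕ × ℕ × ℕ)) (w : ℕ × ℕ × ℕ → ℝ × ℝ × ℝ)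
      (Cs : Finset ℕ), #Cs ≤ K → In T (range na) (range nb) Cs → Lin T →
      (∀ x ∈ T, Dep (w x) (a x.1) (b x.2.1) (c x.2.2)) → Few d na a o → Few d nb b o →
      (∀ x ∈ T, #{p ∈ pts na nb a b | 0 < (w x).1 * (w x).2.1 *
        (ev (ln o p) (a x.1) * ev (ln o p) (b x.2.1))} ≤ ω * K) →
      ∃ T' ⊆ T, (#T : ℝ) ≤ #T' + ε * n * K ∧
        (∃ F : ℕ → Bool → ℝ × ℝ × ℝ, ∀ x ∈ T', ∃ s, Near η
          ((w x).1 * ev (F (x.1 / K) s) (a x.1)) ((w x).2.2 * ev (F (x.1 / K) s) (c x.2.2))) ∧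
        ∀ I, #(({x ∈ T' | x.1 / K = I}).image fun x => x.2.1 / K) ≤ R := by
  obtain ⟨σ, hσ⟩ := exists_nat_ge (max (12 * (d : ℝ) / ε) (ω + 1))
  have hσ1 : 12 * (d : ℝ) ≤ ε * σ := by
    have := (div_le_iff₀ hε).1 ((le_max_left _ _).trans hσ)
    linarith
  have hσ2 : ω + 1 ≤ σ := by exact_mod_cast (le_max_right _ _).trans hσ
  refine ⟨(d + 1) * (3 * σ), fun K hK η hη => ?_⟩
  obtain ⟨E, hE⟩ := bad_card hη
  obtain ⟨m, hm⟩ := exists_nat_gt (6 * ((d : ℝ) + 1) * E / ε)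
  have hm0 : 0 < m := by
    have : (0 : ℝ) < m := lt_of_le_of_lt (by positivity) hm
    exact_mod_cast this
  have hm1 : 6 * ((d : ℝ) + 1) * E ≤ ε * m := by
    have := (div_lt_iff₀ hε).1 hm
    linarith
  obtain ⟨n₀, hn₀⟩ := exists_nat_ge
    (3 * ((2 * K * (1 + 2 * d) + (d + 1) * (1 + E + m) * (σ * K) : ℕ) : ℝ) / ε)
  refine ⟨n₀, fun n na nb hn hna hnb a b c o T w Cs hCs hI hL hd hFa hFb hW => ?_⟩
  have hM : 0 < σ * K := Nat.mul_pos (by omega) (by omega)
  have hωM : ω * K < σ * K := Nat.mul_lt_mul_of_pos_right (by omega) (by omega)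
  obtain ⟨e, rk, N, he, hN, hrk, hpt⟩ := role_rank (pts na nb a b) o
  have hN2 : N ≤ 2 * n := by
    have h1 := card_union_le ((range na).image a) ((range nb).image b)
    have h2 := card_image_le (s := range na) (f := a)
    have h3 := card_image_le (s := range nb) (f := b)
    rw [card_range] at h2 h3
    unfold pts at hN
    omega
  have hra : ∀ i < na, (a i).2 - o.2 ≠ 0 → rk (a i) < N ∧ e (rk (a i)) = tt o (a i) :=
    fun i hi => hrk _ (mem_union_left _ (mem_image_of_mem _ (mem_range.2 hi)))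
  have hrb : ∀ i < nb, (b i).2 - o.2 ≠ 0 → rk (b i) < N ∧ e (rk (b i)) = tt o (b i) :=
    fun i hi => hrk _ (mem_union_right _ (mem_image_of_mem _ (mem_range.2 hi)))
  obtain ⟨BA, hBA, gA⟩ := role_blk hK hM hFa he hra
  obtain ⟨BB, hBB, gB⟩ := role_blk hK hM hFb he hrb
  set M := σ * K with hMdef
  have hβ : StrictMono fun j => e (j * M) := fun i j h => he (Nat.mul_lt_mul_of_pos_right h hM)
  set T' := {x ∈ T | x.1 / K ∉ BA ∧ x.2.1 / K ∉ BB ∧ rk (b x.2.1) / M ≠ 0 ∧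
    Good (fun j => e (j * M)) m η o (c x.2.2) (rk (a x.1) / M)} with hT'
  have main : ∀ x ∈ T', (a x.1).2 - o.2 ≠ 0 ∧ (b x.2.1).2 - o.2 ≠ 0 ∧
      rk (a x.1) ≤ rk (b x.2.1) + M ∧ rk (b x.2.1) ≤ rk (a x.1) + M := fun x hx => by
    obtain ⟨hx, h1, h2, h3, h4⟩ := mem_filter.1 hx
    have i1 := mem_range.1 (hI x hx).1
    have i2 := mem_range.1 (hI x hx).2.1
    have a0 := (gA _ i1 h1 _ rfl).2.1
    have b0 := (gB _ i2 h2 _ rfl).2.1
    refine ⟨a0, b0, role_adj he hpt a0 b0 (hra _ i1 a0) (hrb _ i2 b0)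
      (mul_ne_zero (hd x hx).1 (hd x hx).2.1) ((hW x hx).trans_lt hωM) ?_ ?_⟩
    · have := (Nat.le_div_iff_mul_le hM).1
        ((Nat.le_of_succ_le h4.1.1).trans (Nat.mod_le (rk (a x.1) / M) m))
      omega
    · have := (Nat.le_div_iff_mul_le hM).1 (Nat.pos_of_ne_zero h3)
      omega
  refine ⟨T', filter_subset _ _, ?_, ⟨fun I s => ft o (e ((rk (a (I * K)) / M / m * m +
    if s then m else 0) * M)), fun x hx => ?_⟩, fun I => ?_⟩
  · set T1 := {x ∈ T | x.1 / K ∈ BA}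
    set T2 := {x ∈ T | x.2.1 / K ∈ BB}
    set T3 := {x ∈ T | (b x.2.1).2 - o.2 ≠ 0 ∧ rk (b x.2.1) / M = 0}
    set T4 := {x ∈ T | (a x.1).2 - o.2 ≠ 0 ∧
      ¬Good (fun j => e (j * M)) m η o (c x.2.2) (rk (a x.1) / M)}
    have hsub : T ⊆ T' ∪ (T1 ∪ T2 ∪ T3 ∪ T4) := fun x hx => by
      have i1 := mem_range.1 (hI x hx).1
      have i2 := mem_range.1 (hI x hx).2.1
      by_contra hc
      simp only [mem_union, not_or] at hc
      obtain ⟨c0, ⟨⟨c1, c2⟩, c3⟩, c4⟩ := hc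
      have d1 : x.1 / K ∉ BA := fun h => c1 (mem_filter.2 ⟨hx, h⟩)
      have d2 : x.2.1 / K ∉ BB := fun h => c2 (mem_filter.2 ⟨hx, h⟩)
      exact c0 (mem_filter.2 ⟨hx, d1, d2, fun h => c3 (mem_filter.2 ⟨hx, (gB _ i2 d2 _ rfl).2.1, h⟩),
        not_not.1 fun h => c4 (mem_filter.2 ⟨hx, (gA _ i1 d1 _ rfl).2.1, h⟩)⟩)
    have c1 : #T1 ≤ K * ((1 + d * (N / M + 2)) * K) := by
      have := ((hL.mono (filter_subset _ _ : T1 ⊆ T)).card_le (A := {i ∈ range na | i / K ∈ BA})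
        fun x hx => ⟨mem_filter.2 ⟨(hI x (mem_filter.1 hx).1).1, (mem_filter.1 hx).2⟩,
          (hI x (mem_filter.1 hx).1).2⟩).2.2
      exact this.trans (Nat.mul_le_mul hCs ((blk_card (by omega) fun k hk =>
        (mem_filter.1 hk).2).trans (Nat.mul_le_mul_right _ hBA)))
    have c2 : #T2 ≤ K * ((1 + d * (N / M + 2)) * K) := by
      have := ((hL.mono (filter_subset _ _ : T2 ⊆ T)).card_le (B := {i ∈ range nb | i / K ∈ BB})
        fun x hx => ⟨(hI x (mem_filter.1 hx).1).1,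
          mem_filter.2 ⟨(hI x (mem_filter.1 hx).1).2.1, (mem_filter.1 hx).2⟩,
          (hI x (mem_filter.1 hx).1).2.2⟩).2.1
      rw [mul_comm]
      exact this.trans (Nat.mul_le_mul ((blk_card (by omega) fun k hk =>
        (mem_filter.1 hk).2).trans (Nat.mul_le_mul_right _ hBB)) hCs)
    have c3 : #T3 ≤ K * ((d + 1) * (1 * M)) := by
      have := ((hL.mono (filter_subset _ _ : T3 ⊆ T)).card_le
        (B := {i ∈ range nb | (b i).2 - o.2 ≠ 0 ∧ rk (b i) / M = 0})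
        fun x hx => ⟨(hI x (mem_filter.1 hx).1).1,
          mem_filter.2 ⟨(hI x (mem_filter.1 hx).1).2.1, (mem_filter.1 hx).2⟩,
          (hI x (mem_filter.1 hx).1).2.2⟩).2.1
      rw [mul_comm]
      exact this.trans (Nat.mul_le_mul (role_cnt hFb (fun i hi h => (hrb i hi h).2) hM (S := {0})
        fun i hi => ⟨mem_range.1 (mem_filter.1 hi).1, (mem_filter.1 hi).2.1,
          mem_singleton.2 (mem_filter.1 hi).2.2⟩) hCs)
    have c4 : #T4 ≤ K * ((d + 1) * (((N / M / m + 1) * E + m) * M)) := by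
      rw [mul_comm]
      refine (card_le_mul_card_image (f := fun x => x.2.2) T4 _ fun l _ => ?_).trans
        (Nat.mul_le_mul_left _ ((card_le_card fun l hl => ?_).trans hCs))
      · have := ((hL.mono ((filter_subset _ _).trans (filter_subset _ _) :
          {x ∈ T4 | x.2.2 = l} ⊆ T)).card_le (A := {i ∈ range na | (a i).2 - o.2 ≠ 0 ∧
            ¬Good (fun j => e (j * M)) m η o (c l) (rk (a i) / M)}) (B := range nb) (C := {l})
          fun x hx => by
            obtain ⟨h1, h2⟩ := mem_filter.1 hx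
            obtain ⟨h3, h4⟩ := mem_filter.1 h1
            exact ⟨mem_filter.2 ⟨(hI x h3).1, h2 ▸ h4⟩, (hI x h3).2.1, mem_singleton.2 h2⟩).2.2
        rw [card_singleton, one_mul] at this
        refine this.trans ((role_cnt hFa (fun i hi h => (hra i hi h).2) hM
          (S := {j ∈ range (N / M + 1) | ¬Good (fun j => e (j * M)) m η o (c l) j})
          fun i hi => ?_).trans (Nat.mul_le_mul_left _ (Nat.mul_le_mul_right _
            (hE _ hβ m hm0 o (c l) _))))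
        obtain ⟨h1, h2, h3⟩ := mem_filter.1 hi
        exact ⟨mem_range.1 h1, h2, mem_filter.2 ⟨mem_range.2 (Nat.lt_succ_of_le
          (Nat.div_le_div_right (hra i (mem_range.1 h1) h2).1.le)), h3⟩⟩
      · obtain ⟨x, hx, rfl⟩ := mem_image.1 hl
        exact (hI x (mem_filter.1 hx).1).2.2
    have c5 := role_num (x := 2 * ((1 + d * (N / M + 2)) * K) + (d + 1) * (1 * M) +
      (d + 1) * (((N / M / m + 1) * E + m) * M)) hσ1 hm1 (by omega) hm0 hN2 (by
        have := (div_le_iff₀ hε).1 (hn₀.trans (Nat.cast_le.2 hn))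
        linarith) le_rfl
    have c6 : #T ≤ #T' + (2 * ((1 + d * (N / M + 2)) * K) + (d + 1) * (1 * M) +
        (d + 1) * (((N / M / m + 1) * E + m) * M)) * K := by
      have u1 := (card_le_card hsub).trans (card_union_le _ _)
      have u2 := card_union_le (T1 ∪ T2 ∪ T3) T4
      have u3 := card_union_le (T1 ∪ T2) T3
      have u4 := card_union_le T1 T2
      generalize (1 + d * (N / M + 2)) * K = y1 at *
      generalize (d + 1) * (1 * M) = y2 at *
      generalize (d + 1) * (((N / M / m + 1) * E + m) * M) = y3 at *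
      have : (2 * y1 + y2 + y3) * K = K * y1 + K * y1 + K * y2 + K * y3 := by ring
      omega
    generalize 2 * ((1 + d * (N / M + 2)) * K) + (d + 1) * (1 * M) +
        (d + 1) * (((N / M / m + 1) * E + m) * M) = y at c5 c6
    have c7 : (#T : ℝ) ≤ #T' + y * K := by exact_mod_cast c6
    have := mul_le_mul_of_nonneg_right c5 (Nat.cast_nonneg (α := ℝ) K)
    linarith
  · obtain ⟨a0, b0, l1, l2⟩ := main x hx
    obtain ⟨hx, h1, h2, h3, h4⟩ := mem_filter.1 hx
    have i1 := mem_range.1 (hI x hx).1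
    have i2 := mem_range.1 (hI x hx).2.1
    beta_reduce
    rw [(gA _ i1 h1 (x.1 / K * K) (Nat.mul_div_cancel _ (by omega))).2.2]
    have e1 := Nat.div_mul_le_self (rk (a x.1)) M
    have e2 := Nat.lt_mul_div_succ (rk (a x.1)) hM
    have e3 : (rk (a x.1) / M - 1) * M = rk (a x.1) / M * M - M := Nat.sub_one_mul _ _
    have e4 : (rk (a x.1) / M + 2) * M = M * (rk (a x.1) / M + 1) + M := by ring
    refine near_of_good hβ hη (hd x hx) h4 a0 b0 ?_ ?_ ?_ ?_
    · rw [← (hra _ i1 a0).2]; exact he.monotone (by omega)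
    · rw [← (hra _ i1 a0).2]; exact he.monotone (by omega)
    · rw [← (hrb _ i2 b0).2]; exact he.monotone (by omega)
    · rw [← (hrb _ i2 b0).2]; exact he.monotone (by omega)
  · set J := ({x ∈ T' | x.1 / K = I}).image fun x => x.2.1 / K
    set j := rk (a (I * K)) / M with hj
    have hcnt := role_cnt hFb (fun i hi h => (hrb i hi h).2) hM (S := {j - 1, j, j + 1})
      (A := (J ×ˢ range K).image fun y => y.1 * K + y.2) fun i hi => by
        obtain ⟨y, hy, rfl⟩ := mem_image.1 hi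
        obtain ⟨y1, y2⟩ := mem_product.1 hy
        obtain ⟨x, hx, ex⟩ := mem_image.1 y1
        obtain ⟨hx, eI⟩ := mem_filter.1 hx
        obtain ⟨a0, b0, l1, l2⟩ := main x hx
        obtain ⟨hx, h1, h2, h3, h4⟩ := mem_filter.1 hx
        obtain ⟨g1, g2, g3⟩ := gB _ (mem_range.1 (hI x hx).2.1) h2 (y.1 * K + y.2) (by
          rw [ex, mul_comm, Nat.mul_add_div (by omega), Nat.div_eq_of_lt (mem_range.1 y2), add_zero])
        have g4 := (gA _ (mem_range.1 (hI x hx).1) h1 (I * K) (by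
          rw [eI, Nat.mul_div_cancel _ (by omega)])).2.2
        have g5 := Nat.div_le_div_right (c := M) l1
        have g6 := Nat.div_le_div_right (c := M) l2
        rw [Nat.add_div_right _ hM] at g5 g6
        refine ⟨g1, g2, ?_⟩
        rw [g3, hj, g4]
        generalize rk (a x.1) / M = u at g5 g6 ⊢
        generalize rk (b x.2.1) / M = v at g5 g6 ⊢
        simp only [mem_insert, mem_singleton]
        omega
    rw [card_image_of_injOn, card_product, card_range] at hcnt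
    · refine Nat.le_of_mul_le_mul_right (hcnt.trans ?_) (show 0 < K by omega)
      calc (d + 1) * (#({j - 1, j, j + 1} : Finset ℕ) * M) ≤ (d + 1) * (3 * M) :=
            Nat.mul_le_mul_left _ (Nat.mul_le_mul_right _ card_le_three)
        _ = _ := by rw [hMdef]; ring
    · intro y hy z hz e1
      have y2 := mem_range.1 (mem_product.1 (mem_coe.1 hy)).2
      have z2 := mem_range.1 (mem_product.1 (mem_coe.1 hz)).2
      have e2 := congrArg (· / K) e1
      simp only [mul_comm _ K] at e1 e2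
      rw [Nat.mul_add_div (by omega), Nat.mul_add_div (by omega), Nat.div_eq_of_lt y2,
        Nat.div_eq_of_lt z2, add_zero, add_zero] at e2
      rw [e2] at e1
      exact Prod.ext e2 (Nat.add_left_cancel e1)

end RoleB

section RoleC


open Finset

/-- Triangle lemma. -/
theorem role_tri {w : ℝ × ℝ × ℝ} {a b c o p : ℝ × ℝ} (h : Dep w a b c)
    (hs : 0 < w.1 * w.2.1 * (ev (ln o p) a * ev (ln o p) b)) :
    c ≠ o ∧ a ≠ p ∧ b ≠ p ∧
      (ev (ln a p) o * ev (ln a p) c ≤ 0 ∨ ev (ln b p) o * ev (ln b p) c ≤ 0) := by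
  obtain ⟨-, -, hν, hf⟩ := h
  refine ⟨?_, ?_, ?_, ?_⟩
  · rintro rfl
    have h1 := hf (ln c p)
    rw [ev_ln_left, mul_zero, add_zero] at h1
    have h2 : w.1 * w.2.1 * (ev (ln c p) a * ev (ln c p) b) = -(w.2.1 * ev (ln c p) b) ^ 2 := by
      linear_combination (w.2.1 * ev (ln c p) b) * h1
    linarith [sq_nonneg (w.2.1 * ev (ln c p) b)]
  · rintro rfl
    rw [ev_ln_right, zero_mul, mul_zero] at hs
    exact lt_irrefl _ hs
  · rintro rfl
    rw [ev_ln_right, mul_zero, mul_zero] at hs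
    exact lt_irrefl _ hs
  · by_contra hn
    rw [not_or, not_le, not_le] at hn
    have h1 := hf (ln a p)
    have h2 := hf (ln b p)
    have e1 : ev (ln a p) o = -ev (ln o p) a := by simp only [ev, ln]; ring
    have e2 : ev (ln b p) o = -ev (ln o p) b := by simp only [ev, ln]; ring
    have e3 : ev (ln b p) a = -ev (ln a p) b := by simp only [ev, ln]; ring
    rw [ev_ln_left, mul_zero, zero_add] at h1
    rw [ev_ln_left, mul_zero, add_zero, e3] at h2
    rw [e1, e2] at hn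
    have h3 := mul_pos (sq_pos_of_ne_zero hν) (mul_pos hn.1 hn.2)
    have h4 := mul_nonneg hs.le (sq_nonneg (ev (ln a p) b))
    have h5 : w.2.2 * ev (ln a p) c = -(w.2.1 * ev (ln a p) b) := by linarith
    have h6 : w.2.2 * ev (ln b p) c = w.1 * ev (ln a p) b := by linarith
    have h7 : w.2.2 ^ 2 * (-ev (ln o p) a * ev (ln a p) c * (-ev (ln o p) b * ev (ln b p) c)) =
        ev (ln o p) a * ev (ln o p) b * ((w.2.2 * ev (ln a p) c) * (w.2.2 * ev (ln b p) c)) := by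
      ring
    rw [h7, h5, h6] at h3
    linarith

open Classical in
/-- the points `p` whose line to `q` crosses the block `L` of the family `c` -/
noncomputable def rolec_N (P : Finset (ℝ × ℝ)) (K nc : ℕ) (c : ℕ → ℝ × ℝ) (q : ℝ × ℝ) (L : ℕ) :
    Finset (ℝ × ℝ) :=
  {p ∈ P | q ≠ p ∧ ∃ k, k / K = L ∧ k + 1 < nc ∧ ev (ln q p) (c k) * ev (ln q p) (c (k + 1)) ≤ 0}

theorem rolec_sum {d nc : ℕ} {c : ℕ → ℝ × ℝ} {q : ℝ × ℝ} (h : Few d nc c q) (P : Finset (ℝ × ℝ))
    (K : ℕ) (S : Finset ℕ) : ∑ L ∈ S, #(rolec_N P K nc c q L) ≤ #P * d := by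
  classical
  simp only [rolec_N, card_filter]
  rw [sum_comm]
  refine (sum_le_card_nsmul _ _ d fun p _ => ?_).trans_eq (smul_eq_mul _ _)
  rw [← card_filter]
  by_cases hqp : q = p
  · simp [hqp]
  refine le_trans (card_le_card ?_)
    ((card_image_le (f := fun k => k / K)).trans (h _ (ln_ne hqp) (ev_ln_left q p)))
  intro L hL
  obtain ⟨-, -, k, h1, h2, h3⟩ := mem_filter.1 hL
  exact mem_image.2 ⟨k, mem_filter.2 ⟨mem_range.2 (by omega), h2, h3⟩, h1⟩

theorem rolec_bad {K ω M m n : ℕ} (hK : 0 < K) (N : ℕ → ℕ → ℕ)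
    (hN : ∀ i < m, ∑ L ∈ range (n + 1), N i L ≤ M) (T : Finset (ℕ × ℕ × ℕ)) (g : ℕ × ℕ × ℕ → ℕ)
    (hg : ∀ x ∈ T, g x < m ∧ x.2.2 ≤ n)
    (hinj : ∀ x ∈ T, ∀ y ∈ T, g x = g y → x.2.2 = y.2.2 → x = y) :
    #{x ∈ T | ω * K < N (g x) (x.2.2 / K)} * ω ≤ m * M := by
  classical
  set W : ℕ → Finset ℕ := fun i =>
    {L ∈ range (n + 1) | ω * K < N i L}.biUnion fun L => Ico (L * K) (L * K + K) with hW
  have h1 : #{x ∈ T | ω * K < N (g x) (x.2.2 / K)} ≤ ∑ i ∈ range m, #(W i) := by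
    rw [← card_sigma]
    refine card_le_card_of_injOn (fun x => (⟨g x, x.2.2⟩ : Σ _ : ℕ, ℕ)) (fun x hx => ?_)
      fun x hx y hy e => ?_
    · obtain ⟨hx, hb⟩ := mem_filter.1 (mem_coe.1 hx)
      refine mem_coe.2 (mem_sigma.2 ⟨mem_range.2 (hg x hx).1, mem_biUnion.2 ⟨x.2.2 / K,
        mem_filter.2 ⟨mem_range.2 ?_, hb⟩, mem_Ico.2 ⟨Nat.div_mul_le_self _ _, ?_⟩⟩⟩)
      · exact Nat.lt_succ_of_le ((Nat.div_le_self _ _).trans (hg x hx).2)
      · exact Nat.lt_div_mul_add hK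
    · obtain ⟨e1, e2⟩ := Sigma.mk.inj e
      exact hinj x (mem_filter.1 (mem_coe.1 hx)).1 y (mem_filter.1 (mem_coe.1 hy)).1 e1
        (eq_of_heq e2)
  refine (Nat.mul_le_mul_right _ h1).trans ?_
  rw [sum_mul]
  refine (sum_le_card_nsmul _ _ M fun i hi => ?_).trans_eq (by simp)
  have h2 : #(W i) ≤ #{L ∈ range (n + 1) | ω * K < N i L} * K :=
    card_biUnion_le_card_mul _ _ _ fun L _ => by simp
  have h3 : #{L ∈ range (n + 1) | ω * K < N i L} * (ω * K) ≤ ∑ L ∈ range (n + 1), N i L := by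
    refine le_trans ?_ (sum_le_sum_of_subset (filter_subset (fun L => ω * K < N i L) _))
    exact (smul_eq_mul _ _).symm.trans_le
      (card_nsmul_le_sum _ _ _ fun L hL => (mem_filter.1 hL).2.le)
  calc #(W i) * ω ≤ #{L ∈ range (n + 1) | ω * K < N i L} * K * ω := Nat.mul_le_mul_right _ h2
    _ = #{L ∈ range (n + 1) | ω * K < N i L} * (ω * K) := by ring
    _ ≤ M := h3.trans (hN i (mem_range.1 hi))

theorem rolec_mem {P : Finset (ℝ × ℝ)} {K nc L j : ℕ} {c : ℕ → ℝ × ℝ} {q p : ℝ × ℝ} (hK : 0 < K)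
    (hp : p ∈ P) (hqp : q ≠ p) (hj : j < nc) (hL : j / K = L) (hne : c j ≠ c (L * K))
    (h : ev (ln q p) (c (L * K)) * ev (ln q p) (c j) ≤ 0) : p ∈ rolec_N P K nc c q L := by
  classical
  have h1 : L * K ≤ j := hL ▸ Nat.div_mul_le_self _ _
  have h2 : j < L * K + K := hL ▸ Nat.lt_div_mul_add hK
  have h3 : j ≠ L * K := fun e => hne (by rw [e])
  simp only [rolec_N, mem_filter]
  refine ⟨hp, hqp, ?_⟩
  by_contra hn
  refine absurd (role_sign (g := fun k => ev (ln q p) (c k)) (s := L * K) (t := j + 1) (by omega)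
    (fun k hk hk' => ?_) (L * K) j le_rfl (by omega) h1 (by omega)) (not_lt.2 h)
  by_contra hk''
  refine hn ⟨k, ?_, by omega, not_lt.1 hk''⟩
  rw [Nat.div_eq_iff hK]
  omega

theorem rolec_alg {ε : ℝ} {d ω n x : ℕ} (hω : (0 : ℝ) < ω) (h : 8 * (d : ℝ) ≤ ε * ω)
    (hx : x * ω ≤ n * (2 * n * d)) : (x : ℝ) ≤ ε / 4 * n ^ 2 := by
  have hx' : (x : ℝ) * ω ≤ n * (2 * n * d) := by exact_mod_cast hx
  refine le_of_mul_le_mul_right (hx'.trans ?_) hω
  linarith [mul_le_mul_of_nonneg_left h (sq_nonneg (n : ℝ))]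

open Classical in
theorem role (d : ℕ) {ε : ℝ} (hε : 0 < ε) : ∃ R : ℕ, ∀ K : ℕ, 2 ≤ K → ∀ η : ℝ, 0 < η →
    ∃ n₀ : ℕ, ∀ n na nb nc : ℕ, n₀ ≤ n → na ≤ n → nb ≤ n → nc ≤ n →
    ∀ (a b c : ℕ → ℝ × ℝ) (T : Finset (ℕ × ℕ × ℕ)) (w : ℕ × ℕ × ℕ → ℝ × ℝ × ℝ),
      In T (range na) (range nb) (range nc) → Lin T →
      (∀ x ∈ T, Dep (w x) (a x.1) (b x.2.1) (c x.2.2)) → Few6 d na nb nc a b c →
      ∃ T' ⊆ T, (#T : ℝ) ≤ #T' + ε * n ^ 2 ∧
        (∃ F : ℕ → ℕ → Bool → ℝ × ℝ × ℝ, ∀ x ∈ T', ∃ s,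
          Near η ((w x).1 * ev (F (x.2.2 / K) (x.1 / K) s) (a x.1))
            ((w x).2.2 * ev (F (x.2.2 / K) (x.1 / K) s) (c x.2.2))) ∧
        ∀ I L, #(({x ∈ T' | x.1 / K = I ∧ x.2.2 / K = L}).image fun x => x.2.1 / K) ≤ R := by
  obtain ⟨ω, hω0, hω⟩ : ∃ ω : ℕ, (0 : ℝ) < ω ∧ 8 * (d : ℝ) ≤ ε * ω := by
    obtain ⟨ω, h⟩ := exists_nat_gt (8 * (d : ℝ) / ε)
    exact ⟨ω, lt_of_le_of_lt (by positivity) h, by rw [div_lt_iff₀ hε] at h; linarith⟩
  obtain ⟨R, hR⟩ := role_local d (2 * ω) (ε := ε / 4) (by positivity)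
  refine ⟨R, fun K hK η hη => ?_⟩
  obtain ⟨n₀, hn₀⟩ := hR K hK η hη
  refine ⟨max n₀ K, fun n na nb nc hn ha hb hc a b c T w hI hL hD hF => ?_⟩
  have hK0 : 0 < K := by omega
  have hP : #(pts na nb a b) ≤ 2 * n := by
    refine (card_union_le _ _).trans ((add_le_add card_image_le card_image_le).trans ?_)
    rw [card_range, card_range]
    omega
  have hc' : ∀ x ∈ T, x.2.2 < nc := fun x hx => mem_range.1 (hI x hx).2.2
  have hb1 := rolec_bad (ω := ω) (n := n) hK0 (fun i L => #(rolec_N (pts na nb a b) K nc c (a i) L))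
    (fun i hi => rolec_sum (hF.2.2.1 i hi) _ K _) T (fun x => x.1)
    (fun x hx => ⟨mem_range.1 (hI x hx).1, (hc' x hx).le.trans hc⟩)
    fun x hx y hy e1 e2 => hL x hx y hy (Or.inr (Or.inr ⟨e2, e1⟩))
  have hb2 := rolec_bad (ω := ω) (n := n) hK0 (fun i L => #(rolec_N (pts na nb a b) K nc c (b i) L))
    (fun i hi => rolec_sum (hF.2.2.2 i hi) _ K _) T (fun x => x.2.1)
    (fun x hx => ⟨mem_range.1 (hI x hx).2.1, (hc' x hx).le.trans hc⟩)
    fun x hx y hy e1 e2 => hL x hx y hy (Or.inr (Or.inl ⟨e1, e2⟩))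
  replace hb1 := rolec_alg hω0 hω (hb1.trans (Nat.mul_le_mul ha (Nat.mul_le_mul_right d hP)))
  replace hb2 := rolec_alg hω0 hω (hb2.trans (Nat.mul_le_mul hb (Nat.mul_le_mul_right d hP)))
  obtain ⟨T₀, hT₀, hcard, hgood⟩ : ∃ T₀ ⊆ T, (#T : ℝ) ≤ #T₀ + ε / 2 * n ^ 2 ∧ ∀ x ∈ T₀,
      #(rolec_N (pts na nb a b) K nc c (a x.1) (x.2.2 / K)) ≤ ω * K ∧
      #(rolec_N (pts na nb a b) K nc c (b x.2.1) (x.2.2 / K)) ≤ ω * K := by
    refine ⟨{x ∈ T | _}, filter_subset _ _, ?_, fun x hx => (mem_filter.1 hx).2⟩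
    have h1 : #T ≤ #{x ∈ T | #(rolec_N (pts na nb a b) K nc c (a x.1) (x.2.2 / K)) ≤ ω * K ∧
        #(rolec_N (pts na nb a b) K nc c (b x.2.1) (x.2.2 / K)) ≤ ω * K} +
        #{x ∈ T | ω * K < #(rolec_N (pts na nb a b) K nc c (a x.1) (x.2.2 / K))} +
        #{x ∈ T | ω * K < #(rolec_N (pts na nb a b) K nc c (b x.2.1) (x.2.2 / K))} := by
      refine le_trans (card_le_card fun x hx => ?_)
        ((card_union_le _ _).trans (Nat.add_le_add_right (card_union_le _ _) _))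
      simp only [mem_union, mem_filter, hx, true_and]
      omega
    have h2 := (Nat.cast_le (α := ℝ)).2 h1
    push_cast at h2
    linarith
  have key : ∀ L, ∃ T' ⊆ {x ∈ T₀ | x.2.2 / K = L},
      (#{x ∈ T₀ | x.2.2 / K = L} : ℝ) ≤ #T' + ε / 4 * n * K ∧
      (∃ F : ℕ → Bool → ℝ × ℝ × ℝ, ∀ x ∈ T', ∃ s, Near η
        ((w x).1 * ev (F (x.1 / K) s) (a x.1)) ((w x).2.2 * ev (F (x.1 / K) s) (c x.2.2))) ∧
      ∀ I, #(({x ∈ T' | x.1 / K = I}).image fun x => x.2.1 / K) ≤ R := by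
    intro L
    rcases ({x ∈ T₀ | x.2.2 / K = L}).eq_empty_or_nonempty with he | ⟨y, hy⟩
    · refine ⟨∅, empty_subset _, ?_, ⟨fun _ _ => 0, by simp⟩, by simp⟩
      rw [he]
      simp only [card_empty, Nat.cast_zero, zero_add]
      positivity
    have hLn : L * K < nc := by
      obtain ⟨h1, h2⟩ := mem_filter.1 hy
      exact lt_of_le_of_lt (h2 ▸ Nat.div_mul_le_self _ _) (hc' y (hT₀ h1))
    have hsub : {x ∈ T₀ | x.2.2 / K = L} ⊆ T := (filter_subset _ _).trans hT₀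
    refine hn₀ n na nb ((le_max_left _ _).trans hn) ha hb a b c (c (L * K)) _ w
      (Ico (L * K) (L * K + K)) (by simp) (fun x hx => ?_) (hL.mono hsub)
      (fun x hx => hD x (hsub hx)) (hF.1.2 _ hLn) (hF.2.1.1 _ hLn) fun x hx => ?_
    · obtain ⟨-, h2⟩ := mem_filter.1 hx
      exact ⟨(hI x (hsub hx)).1, (hI x (hsub hx)).2.1,
        mem_Ico.2 ⟨h2 ▸ Nat.div_mul_le_self _ _, h2 ▸ Nat.lt_div_mul_add hK0⟩⟩
    · obtain ⟨h1, h2⟩ := mem_filter.1 hx
      obtain ⟨h3, h4⟩ := hgood x h1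
      rw [h2] at h3 h4
      refine le_trans (card_le_card fun p hp => ?_)
        ((card_union_le _ _).trans ((add_le_add h3 h4).trans_eq (by ring)))
      obtain ⟨h5, h6⟩ := mem_filter.1 hp
      obtain ⟨h7, h8, h9, h10⟩ := role_tri (hD x (hsub hx)) h6
      exact mem_union.2 (h10.imp (rolec_mem hK0 h5 h8 (hc' x (hsub hx)) h2 h7)
        (rolec_mem hK0 h5 h9 (hc' x (hsub hx)) h2 h7))
  choose S hS hcS hFS hRS using key
  choose F hFS using hFS
  have hfib : ∀ L, {x ∈ {x ∈ T₀ | x ∈ S (x.2.2 / K)} | x.2.2 / K = L} = S L := by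
    intro L
    ext x
    simp only [mem_filter]
    refine ⟨fun h => h.2 ▸ h.1.2, fun h => ?_⟩
    obtain ⟨h1, h2⟩ := mem_filter.1 (hS L h)
    exact ⟨⟨h1, h2 ▸ h⟩, h2⟩
  refine ⟨{x ∈ T₀ | x ∈ S (x.2.2 / K)}, (filter_subset _ _).trans hT₀, ?_,
    ⟨F, fun x hx => hFS _ x (mem_filter.1 hx).2⟩, fun I L => le_trans (card_le_card
      (image_subset_image fun x hx => ?_)) (hRS L I)⟩
  · have hm : ∀ x ∈ T₀, x.2.2 / K ∈ range (n / K + 1) := fun x hx =>
      mem_range.2 (Nat.lt_succ_of_le (Nat.div_le_div_right ((hc' x (hT₀ hx)).le.trans hc)))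
    have h1 := card_eq_sum_card_fiberwise (f := fun x : ℕ × ℕ × ℕ => x.2.2 / K) (s := T₀)
      (t := range (n / K + 1)) fun x hx => hm x hx
    have h2 := card_eq_sum_card_fiberwise (f := fun x : ℕ × ℕ × ℕ => x.2.2 / K)
      (s := {x ∈ T₀ | x ∈ S (x.2.2 / K)}) (t := range (n / K + 1))
      fun x hx => hm x (mem_filter.1 hx).1
    simp only [hfib] at h2
    have h3 := sum_le_sum fun L (_ : L ∈ range (n / K + 1)) => hcS L
    rw [sum_add_distrib, sum_const, card_range, nsmul_eq_mul, ← Nat.cast_sum, ← Nat.cast_sum,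
      ← h1, ← h2] at h3
    have h4 : (n / K + 1) * K ≤ 2 * n := by
      have := Nat.div_mul_le_self n K
      have := (le_max_right _ _).trans hn
      rw [add_mul]
      omega
    have h5 : ((n / K + 1 : ℕ) : ℝ) * K ≤ 2 * n := by exact_mod_cast h4
    have h6 := mul_le_mul_of_nonneg_left h5 (show 0 ≤ ε / 4 * n by positivity)
    linarith
  · obtain ⟨h1, h2, h3⟩ := mem_filter.1 hx
    exact mem_filter.2 ⟨h3 ▸ (mem_filter.1 h1).2, h2⟩

end RoleC

section MainA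


open Finset

/-- Hint: let `g = ln (a x.1) (b x.2.1)`; it vanishes at the three points of `x` (`Dep`); if `y` shares
two indices with `x`, then `Dep` for `y` shows that `g` vanishes at `a y.1` and `b y.2.1`. -/
theorem Sep.lin {a b c : ℕ → ℝ × ℝ} {T : Finset (ℕ × ℕ × ℕ)} {w : ℕ × ℕ × ℕ → ℝ × ℝ × ℝ}
    (h : Sep a b T) (hd : ∀ x ∈ T, Dep (w x) (a x.1) (b x.2.1) (c x.2.2)) : Lin T := by
  intro x hx y hy hxy
  obtain ⟨-, -, x3, hx4⟩ := hd x hx
  obtain ⟨y1, y2, -, hy4⟩ := hd y hy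
  have h1 := ev_ln_left (a x.1) (b x.2.1)
  have h2 := ev_ln_right (a x.1) (b x.2.1)
  have h3 := hx4 (ln (a x.1) (b x.2.1))
  have h4 := hy4 (ln (a x.1) (b x.2.1))
  rw [h1, h2, mul_zero, mul_zero, zero_add, zero_add, mul_eq_zero, or_iff_right x3] at h3
  rcases hxy with ⟨e1, e2⟩ | ⟨e1, e2⟩ | ⟨e1, e2⟩
  · exact h x hx y hy (e1 ▸ h1) (e2 ▸ h2)
  · rw [← e1, ← e2, h2, h3, mul_zero, mul_zero, add_zero, add_zero, mul_eq_zero, or_iff_right y1] at h4
    exact h x hx y hy h4 (e1 ▸ h2)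
  · rw [← e1, ← e2, h1, h3, mul_zero, mul_zero, add_zero, zero_add, mul_eq_zero, or_iff_right y2] at h4
    exact h x hx y hy (e2 ▸ h1) h4

theorem maina_line {f : ℝ × ℝ × ℝ} (hf : f.1 ≠ 0 ∨ f.2.1 ≠ 0) {p q : ℝ × ℝ} (h : p ≠ q)
    (hp : ev f p = 0) (hq : ev f q = 0) (r : ℝ × ℝ) : ev f r = 0 ↔ ev (ln p q) r = 0 := by
  have h1 : f.1 * ev (ln p q) r = (ln p q).1 * ev f r := by
    simp only [ev, ln] at *
    linear_combination (q.2 - r.2) * hp + (r.2 - p.2) * hq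
  have h2 : f.2.1 * ev (ln p q) r = (ln p q).2.1 * ev f r := by
    simp only [ev, ln] at *
    linear_combination (r.1 - q.1) * hp + (p.1 - r.1) * hq
  constructor <;> intro h0 <;> rw [h0, mul_zero] at h1 h2
  · rcases hf with hf | hf
    exacts [(mul_eq_zero.1 h1).resolve_left hf, (mul_eq_zero.1 h2).resolve_left hf]
  · rcases ln_ne h with hf | hf
    exacts [(mul_eq_zero.1 h1.symm).resolve_left hf, (mul_eq_zero.1 h2.symm).resolve_left hf]

/-- One triple on each line.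
Hint: `key x = {p | ev (ln (a x.1) (b x.2.1)) p = 0} : Set (ℝ × ℝ)`. A fibre of `key` has at most
`(d+1)^3` elements (`Few.zero` three times, `ln_ne`; `card_le_mul_card_image`). Choose one triple for each
key (`Finset.exists_subset_injOn_image_eq_of_surjOn`, or the image of `T.image key` under a choice
function). If `p ≠ q`, `p' ≠ q'` and `ln p q` vanishes at `p'`, `q'`, then `ln p q` and `ln p' q'` have the
same zeros (they are proportional: `ln p' q'` vanishes at `r` iff `r = p' + t (q' - p')`). -/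
theorem sep_select {d na nb nc : ℕ} {a b c : ℕ → ℝ × ℝ} {T : Finset (ℕ × ℕ × ℕ)}
    {w : ℕ × ℕ × ℕ → ℝ × ℝ × ℝ} (hI : In T (range na) (range nb) (range nc))
    (hd : ∀ x ∈ T, a x.1 ≠ b x.2.1 ∧ Dep (w x) (a x.1) (b x.2.1) (c x.2.2))
    (hF : Few6 d na nb nc a b c) : ∃ T' ⊆ T, #T ≤ (d + 1) ^ 3 * #T' ∧ Sep a b T' := by
  classical
  set key : ℕ × ℕ × ℕ → Set (ℝ × ℝ) := fun x => {p | ev (ln (a x.1) (b x.2.1)) p = 0} with hkey
  obtain ⟨T', h1, h2, h3⟩ := exists_subset_injOn_image_eq_of_surjOn (f := key) (T : Set (ℕ × ℕ × ℕ))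
    (T.image key) (by rw [coe_image]; exact Set.surjOn_image _ _)
  have h1' : T' ⊆ T := coe_subset.1 h1
  refine ⟨T', h1', ?_, fun x hx y hy e1 e2 => h2 hx hy ?_⟩
  · rw [← card_image_of_injOn h2, h3]
    refine card_le_mul_card_image T _ fun s hs => ?_
    obtain ⟨x, hx, rfl⟩ := mem_image.1 hs
    have g0 := ln_ne (hd x hx).1
    have i0 := hI x hx
    simp only [mem_range] at i0
    have g1 := ev_ln_left (a x.1) (b x.2.1)
    have g2 := ev_ln_right (a x.1) (b x.2.1)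
    set g := ln (a x.1) (b x.2.1) with hg
    have k1 := (hF.1.1 _ i0.2.1).zero g0 g2 {i ∈ range na | ev g (a i) = 0}
      fun i hi => ⟨mem_range.1 (mem_filter.1 hi).1, (mem_filter.1 hi).2⟩
    have k2 := (hF.2.1.2 _ i0.1).zero g0 g1 {i ∈ range nb | ev g (b i) = 0}
      fun i hi => ⟨mem_range.1 (mem_filter.1 hi).1, (mem_filter.1 hi).2⟩
    have k3 := (hF.2.2.1 _ i0.1).zero g0 g1 {i ∈ range nc | ev g (c i) = 0}
      fun i hi => ⟨mem_range.1 (mem_filter.1 hi).1, (mem_filter.1 hi).2⟩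
    refine le_trans (card_le_card (t := {i ∈ range na | ev g (a i) = 0} ×ˢ
      {i ∈ range nb | ev g (b i) = 0} ×ˢ {i ∈ range nc | ev g (c i) = 0}) fun y hy => ?_) ?_
    · obtain ⟨hy, e⟩ := mem_filter.1 hy
      have e1 : a y.1 ∈ key x := e ▸ ev_ln_left _ _
      have e2 : b y.2.1 ∈ key x := e ▸ ev_ln_right _ _
      change ev g _ = 0 at e1 e2
      obtain ⟨-, -, -, y3, y4⟩ := hd y hy
      have e3 := y4 g
      rw [e1, e2, mul_zero, mul_zero, zero_add, zero_add, mul_eq_zero, or_iff_right y3] at e3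
      exact mem_product.2 ⟨mem_filter.2 ⟨(hI y hy).1, e1⟩,
        mem_product.2 ⟨mem_filter.2 ⟨(hI y hy).2.1, e2⟩, mem_filter.2 ⟨(hI y hy).2.2, e3⟩⟩⟩
    · rw [card_product, card_product, pow_succ', sq]
      exact Nat.mul_le_mul k1 (Nat.mul_le_mul k2 k3)
  · ext r
    exact maina_line (ln_ne (hd x (h1' hx)).1) (hd y (h1' hy)).1 e1 e2 r

/-- rotation of the coordinates -/
def maina_rot (X : Type) : X × X × X ≃ X × X × X where
  toFun x := (x.2.1, x.2.2, x.1)
  invFun x := (x.2.2, x.1, x.2.1)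
  left_inv _ := rfl
  right_inv _ := rfl

/-- after discarding `e` triples the property `N` holds -/
def maina_Q (e : ℝ) (A B C : Finset ℕ) (a b c : ℕ → ℝ × ℝ) {G : Type}
    (N : G → ℕ × ℕ × ℕ → ℝ × ℝ × ℝ → Prop) : Prop :=
  ∀ (T : Finset (ℕ × ℕ × ℕ)) (w : ℕ × ℕ × ℕ → ℝ × ℝ × ℝ), In T A B C → Lin T →
    (∀ x ∈ T, Dep (w x) (a x.1) (b x.2.1) (c x.2.2)) →
    ∃ T' ⊆ T, (#T : ℝ) ≤ #T' + e ∧ ∃ F : G, ∀ x ∈ T', N F x (w x)

theorem maina_Q_rot {e : ℝ} {A B C : Finset ℕ} {a b c : ℕ → ℝ × ℝ} {G : Type}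
    {N : G → ℕ × ℕ × ℕ → ℝ × ℝ × ℝ → Prop} (h : maina_Q e B C A b c a N) :
    maina_Q e A B C a b c fun F x v => N F (maina_rot ℕ x) (maina_rot ℝ v) := by
  intro T w hI hL hD
  obtain ⟨T', h1, h2, F, h3⟩ := h (T.map (maina_rot ℕ).toEmbedding)
    (fun x => maina_rot ℝ (w ((maina_rot ℕ).symm x)))
    (fun x hx => by
      have := hI _ (mem_map_equiv.1 hx)
      exact ⟨this.2.1, this.2.2, this.1⟩)
    (fun x hx y hy hxy => (maina_rot ℕ).symm.injective
      (hL _ (mem_map_equiv.1 hx) _ (mem_map_equiv.1 hy) (by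
        rcases hxy with h | h | h
        exacts [Or.inr (Or.inl h), Or.inr (Or.inr h), Or.inl h])))
    (fun x hx => by
      obtain ⟨d1, d2, d3, d4⟩ := hD _ (mem_map_equiv.1 hx)
      refine ⟨d2, d3, d1, fun f => ?_⟩
      rw [← d4 f, add_comm, add_assoc]
      rfl)
  refine ⟨T'.map (maina_rot ℕ).symm.toEmbedding, fun x hx => ?_, by simpa using h2, F, fun x hx => ?_⟩
  · exact mem_map_equiv.1 (h1 (mem_map_equiv.1 hx))
  · exact h3 _ (mem_map_equiv.1 hx)

theorem maina_num {δ R n K m t s : ℝ} (hn : 0 < n) (hK : 0 ≤ K) (hR : 0 ≤ R) (hm0 : 0 ≤ m) (hs : 0 ≤ s)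
    (hm : m * K ≤ 2 * n) (h1 : δ * n ^ 2 / 2 ≤ t) (h2 : t ≤ m * m * R * 8 * s) :
    δ / (64 * (R + 1)) * K ^ 2 ≤ s := by
  rw [div_mul_eq_mul_div, div_le_iff₀ (by positivity)]
  have h3 : (m * K) ^ 2 ≤ (2 * n) ^ 2 := pow_le_pow_left₀ (by positivity) hm 2
  have h4 := mul_le_mul_of_nonneg_right (h1.trans h2) (sq_nonneg K)
  have h5 := mul_le_mul_of_nonneg_right h3 (show 0 ≤ R * 8 * s by positivity)
  have h6 : 0 ≤ n ^ 2 * s := by positivity
  refine le_of_mul_le_mul_right ?_ (pow_pos hn 2)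
  linarith

/-- One cell.
Hint: `ε = δ / 6`, `R` from `role d`, `δ' = δ / (64 (R + 1))`. Let `rot : ℕ × ℕ × ℕ ≃ ℕ × ℕ × ℕ`,
`x ↦ (x.2.1, x.2.2, x.1)`. First derive a rotated form of `role` (apply it to `T.map rot.toEmbedding`,
families `b c a`, weights `fun x => ((w (rot.symm x)).2.1, (w (rot.symm x)).2.2, (w (rot.symm x)).1)`,
`Few6.rot`; pull `T'` back); it is convenient to state `role` as a predicate so that it can be rotated
twice. Apply the three forms one after the other, get `T₃` with `δ n^2 / 2 ≤ #T₃`. `choose` the three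
Booleans and use `pigeon` with the key `((x.1 / K, x.2.2 / K, x.2.1 / K), s₁ x, s₂ x, s₃ x)`; the first
component takes at most `(n / K + 1)^2 * R` values (biUnion over `(I, L)`), and `(n / K + 1) K ≤ 2 n`. -/
theorem cell (d : ℕ) {δ : ℝ} (hδ : 0 < δ) : ∃ δ' : ℝ, 0 < δ' ∧ ∀ K : ℕ, 2 ≤ K → ∀ η : ℝ, 0 < η →
    ∃ n₀ : ℕ, ∀ n na nb nc : ℕ, n₀ ≤ n → na ≤ n → nb ≤ n → nc ≤ n →
    ∀ (a b c : ℕ → ℝ × ℝ) (T : Finset (ℕ × ℕ × ℕ)) (w : ℕ × ℕ × ℕ → ℝ × ℝ × ℝ),
      In T (range na) (range nb) (range nc) → Lin T →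
      (∀ x ∈ T, Dep (w x) (a x.1) (b x.2.1) (c x.2.2)) → Few6 d na nb nc a b c →
      δ * (n : ℝ) ^ 2 ≤ #T →
      ∃ T' ⊆ T, δ' * (K : ℝ) ^ 2 ≤ #T' ∧ ∃ (I J L : ℕ) (f₁ f₂ f₃ : ℝ × ℝ × ℝ), ∀ x ∈ T',
        (x.1 / K = I ∧ x.2.1 / K = J ∧ x.2.2 / K = L) ∧
        Near η ((w x).1 * ev f₁ (a x.1)) ((w x).2.2 * ev f₁ (c x.2.2)) ∧
        Near η ((w x).2.1 * ev f₂ (b x.2.1)) ((w x).1 * ev f₂ (a x.1)) ∧
        Near η ((w x).2.2 * ev f₃ (c x.2.2)) ((w x).2.1 * ev f₃ (b x.2.1)) := by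
  obtain ⟨R, hR⟩ := role d (show 0 < δ / 6 by positivity)
  refine ⟨δ / (64 * (R + 1)), by positivity, fun K hK η hη => ?_⟩
  obtain ⟨n₀, H⟩ := hR K hK η hη
  refine ⟨max n₀ K, fun n na nb nc hn ha hb hc a b c T w hI hL hD hF hT => ?_⟩
  have hn0 : n₀ ≤ n := le_of_max_le_left hn
  have hKn : K ≤ n := le_of_max_le_right hn
  have HQ : ∀ (na nb nc : ℕ) (a b c : ℕ → ℝ × ℝ), na ≤ n → nb ≤ n → nc ≤ n → Few6 d na nb nc a b c →
      maina_Q (δ / 6 * n ^ 2) (range na) (range nb) (range nc) a b c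
        fun (F : ℕ → ℕ → Bool → ℝ × ℝ × ℝ) x v => ∃ s,
          Near η (v.1 * ev (F (x.2.2 / K) (x.1 / K) s) (a x.1))
            (v.2.2 * ev (F (x.2.2 / K) (x.1 / K) s) (c x.2.2)) := by
    intro na nb nc a b c ha hb hc hF T w hI hL hD
    obtain ⟨T', h1, h2, h3, -⟩ := H n na nb nc hn0 ha hb hc a b c T w hI hL hD hF
    exact ⟨T', h1, h2, h3⟩
  obtain ⟨T₁, u1, c1, F₂, g2⟩ := maina_Q_rot (HQ nb nc na b c a hb hc ha hF.rot) T w hI hL hD
  obtain ⟨T₂, u2, c2, F₃, g3⟩ := maina_Q_rot (maina_Q_rot (HQ nc na nb c a b hc ha hb hF.rot.rot)) T₁ w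
    (fun x hx => hI x (u1 hx)) (hL.mono u1) fun x hx => hD x (u1 hx)
  have u12 := u2.trans u1
  obtain ⟨T₃, u3, c3, ⟨F₁, g1⟩, g0⟩ := H n na nb nc hn0 ha hb hc a b c T₂ w
    (fun x hx => hI x (u12 hx)) (hL.mono u12) (fun x hx => hD x (u12 hx)) hF
  have u13 := u3.trans u12
  choose! s₁ g1 using g1
  choose! s₂ g2 using g2
  choose! s₃ g3 using g3
  have hcard : #(T₃.image fun x => ((x.1 / K, x.2.2 / K, x.2.1 / K), s₁ x, s₂ x, s₃ x)) ≤
      (n / K + 1) * (n / K + 1) * R * 8 := by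
    refine le_trans (card_le_card (t := ((range (n / K + 1) ×ˢ range (n / K + 1)).biUnion fun p =>
      (({x ∈ T₃ | x.1 / K = p.1 ∧ x.2.2 / K = p.2}).image fun x => x.2.1 / K).image
        fun J => (p.1, p.2, J)) ×ˢ (univ : Finset (Bool × Bool × Bool))) fun y hy => ?_) ?_
    · obtain ⟨x, hx, rfl⟩ := mem_image.1 hy
      have i0 := hI x (u13 hx)
      simp only [mem_range] at i0
      refine mem_product.2 ⟨mem_biUnion.2 ⟨(x.1 / K, x.2.2 / K), mem_product.2 ⟨mem_range.2 ?_,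
        mem_range.2 ?_⟩, mem_image.2 ⟨x.2.1 / K,
          mem_image_of_mem _ (mem_filter.2 ⟨hx, rfl, rfl⟩), rfl⟩⟩, mem_univ _⟩
      · exact Nat.lt_succ_of_le (Nat.div_le_div_right (by omega))
      · exact Nat.lt_succ_of_le (Nat.div_le_div_right (by omega))
    · rw [card_product]
      refine Nat.mul_le_mul ?_ (by simp)
      refine (card_biUnion_le_card_mul _ _ R fun p _ => card_image_le.trans (g0 p.1 p.2)).trans ?_
      rw [card_product, card_range]
  obtain ⟨T', u4, c4, g4⟩ := pigeon T₃ _ hcard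
  refine ⟨T', u4.trans u13, ?_, ?_⟩
  · refine maina_num (n := n) (m := ((n / K + 1 : ℕ) : ℝ)) (t := #T₃)
      (by exact_mod_cast (by omega : 0 < n)) (Nat.cast_nonneg _) (Nat.cast_nonneg _) (Nat.cast_nonneg _)
      (Nat.cast_nonneg _) ?_ (by linarith) (by exact_mod_cast c4)
    have := Nat.div_mul_le_self n K
    exact_mod_cast (by rw [add_mul]; omega : (n / K + 1) * K ≤ 2 * n)
  rcases T'.eq_empty_or_nonempty with rfl | ⟨y, hy⟩
  · exact ⟨0, 0, 0, 0, 0, 0, fun x hx => absurd hx (notMem_empty x)⟩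
  refine ⟨y.1 / K, y.2.1 / K, y.2.2 / K, F₁ (y.2.2 / K) (y.1 / K) (s₁ y), F₂ (y.1 / K) (y.2.1 / K) (s₂ y),
    F₃ (y.2.1 / K) (y.2.2 / K) (s₃ y), fun x hx => ?_⟩
  have e := g4 x hx y hy
  simp only [Prod.mk.injEq] at e
  obtain ⟨⟨e1, e3, e2⟩, e4, e5, e6⟩ := e
  rw [← e1, ← e2, ← e3, ← e4, ← e5, ← e6]
  exact ⟨⟨rfl, rfl, rfl⟩, g1 x (u4 hx), g2 x (u2 (u3 (u4 hx))), g3 x (u3 (u4 hx))⟩

end MainA

end Pool.Agent.MP_38296a_co.H88

end
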